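import Pool.Agent.Lib.MP_ccbbf6_gt.K7.RG1
import Pool.Agent.Lib.MP_ccbbf6_gt.L5.NS3

/-!
# `κ = 7`, block G3, part 4: push-off families with a rotation generator (helper93)

Loops `t ↦ C (r t x) (shift t c)` of period `4 π`; `Cxr` has constant speed to the second order; `lip_Cxr`.
-/

set_option autoImplicit false
set_option linter.unusedSectionVars false

open Set Filter Topology Metric Real
open scoped ContDiff RealInnerProductSpace

noncomputable section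

namespace Pool.Agent.Lib.MP_ccbbf6_gt.K7.RG

open L4 Geo L4.ORI L5 L5.NEG

variable {n : ℕ} {M : Type*} [MetricSpace M] [CompactSpace M] {N : ℕ}

section defs

variable (𝒜 : SDist n M) (T : Rt (Eu N)) (C : Eu N → Gs M → M)

/-- the square of the speed at `0` of the loop `s ↦ C (r s ξ) (shift s c)` -/
def s2r (c : Gs M) (ξ : Eu N) : ℝ := ‖deriv (fun s => 𝒜.ψ (C ξ c) (C (T.r s ξ) (shift s c))) 0‖ ^ 2

/-- smooth families of maps `Gs M → M` which start at the foot map -/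
structure PFamR : Prop where
  smooth : ∀ {F : Type} [NormedAddCommGroup F] [NormedSpace ℝ F] {σ : F → Gs M} {ξ : F → Eu N} {u : F}, SmGAt 𝒜 σ u →
    ContDiffAt ℝ ∞ ξ u → SmAt 𝒜 (fun v => C (ξ v) (σ v)) u
  zero : ∀ c, C 0 c = c.1 0
  normal : ∀ c ξ, ⟪𝒜.vel c.1 0, X1 𝒜 C c ξ⟫ = 0
  first : ∀ c, fderiv ℝ (s2r 𝒜 T C c) 0 = 0

/-- minus half of the second variation of the speed -/
def LamBr (c : Gs M) : Eu N →L[ℝ] Eu N →L[ℝ] ℝ := (-(1 / 4) : ℝ) • fderiv ℝ (fderiv ℝ (s2r 𝒜 T C c)) 0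

/-- the density on the states `(x, c)` -/
def lam (c : Gs M) (x y : Eu N) : ℝ := LamBr 𝒜 T C c x y

/-- the quadratic form -/
def BQ (c : Gs M) (x y : Eu N) : ℝ := ∫ t in (0 : ℝ)..(4 * π), lam 𝒜 T C (shift t c) (T.r t x) (T.r t y)

/-- the density minus its mean value -/
def ddr (c : Gs M) (x : Eu N) : ℝ := lam 𝒜 T C c x x - (4 * π)⁻¹ * BQ 𝒜 T C c x x

/-- the time change -/
def aar (c : Gs M) (x : Eu N) : ℝ := (4 * π)⁻¹ * ∫ s in (0 : ℝ)..(4 * π), s * ddr 𝒜 T C (shift s c) (T.r s x)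

/-- the push-off with constant speed to the second order -/
def Cxr (x : Eu N) (c : Gs M) : M := C (T.r (aar 𝒜 T C c x) x) (shift (aar 𝒜 T C c x) c)

end defs

variable {𝒜 : SDist n M} {T : Rt (Eu N)} {C : Eu N → Gs M → M}

theorem PFamR.s2r_smooth (hB : Bl M) (hC : PFamR 𝒜 T C) {F : Type} [NormedAddCommGroup F] [NormedSpace ℝ F] {σ : F → Gs M}
    {ξ : F → Eu N} {u : F} (hσ : SmGAt 𝒜 σ u) (hξ : ContDiffAt ℝ ∞ ξ u) :
    ContDiffAt ℝ ∞ (fun v => s2r 𝒜 T C (σ v) (ξ v)) u := by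
  have h1 : SmGAt 𝒜 (fun z : F × ℝ => σ z.1) (u, 0) :=
    SmGAt.comp (σ := σ) (f := fun z : F × ℝ => z.1) (v := (u, 0)) hσ contDiffAt_fst
  have h2 : SmGAt 𝒜 (fun z : F × ℝ => L4.shift z.2 (σ z.1)) (u, 0) := h1.shift hB contDiffAt_snd
  have h3 : ContDiffAt ℝ ∞ (fun z : F × ℝ => T.r z.2 (ξ z.1)) (u, 0) :=
    T.smooth_ap contDiffAt_snd (ContDiffAt.comp (g := ξ) (f := fun z : F × ℝ => z.1) (u, (0 : ℝ)) hξ contDiffAt_fst)
  have h4 : SmAt 𝒜 (fun z : F × ℝ => C (T.r z.2 (ξ z.1)) (L4.shift z.2 (σ z.1))) (u, 0) := hC.smooth h2 h3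
  have hx : SmAt 𝒜 (fun v => C (ξ v) (σ v)) u := hC.smooth hσ hξ
  have hsh : ∀ c : Gs M, L4.shift 0 c = c := shift_zero
  have hp : (fun z : F × ℝ => C (T.r z.2 (ξ z.1)) (L4.shift z.2 (σ z.1))) (u, 0) ∈ (𝒜.ψ (C (ξ u) (σ u))).source := by
    simp only [hsh, T.zero]
    exact 𝒜.mem _
  have h5 := smV_deriv_ns1 h4 hp
  simp only [hsh, T.zero] at h5
  have h6 := SmV.inner hx (𝒜.mem _) h5 h5
  refine h6.congr_of_eventuallyEq (Eventually.of_forall fun v => ?_)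
  simp only [s2r]
  rw [real_inner_self_eq_norm_sq]

theorem PFamR.s2r_zero (hC : PFamR 𝒜 T C) (c : Gs M) : s2r 𝒜 T C c 0 = 1 := by
  unfold s2r
  have h1 : (fun s => 𝒜.ψ (C 0 c) (C (T.r s 0) (L4.shift s c))) = fun s => 𝒜.ψ (c.1 0) (c.1 s) := by
    funext s
    rw [T.map_zero, hC.zero, hC.zero]
    simp only [L4.shift, zero_add]
  rw [h1]
  have h2 : deriv (fun s => 𝒜.ψ (c.1 0) (c.1 s)) 0 = 𝒜.vel c.1 0 := rfl
  rw [h2, vel_norm, one_pow]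

theorem PFamR.s2r_smooth0 (hB : Bl M) (hC : PFamR 𝒜 T C) (c : Gs M) (x : Eu N) : ContDiffAt ℝ ∞ (s2r 𝒜 T C c) x :=
  PFamR.s2r_smooth hB hC (F := Eu N) (σ := fun _ => c) (ξ := fun ξ => ξ) (smGAt_const_ns1 c x) contDiffAt_id

theorem PFamR.lam_symm (hB : Bl M) (hC : PFamR 𝒜 T C) (c : Gs M) (x y : Eu N) : lam 𝒜 T C c x y = lam 𝒜 T C c y x := by
  have h1 : IsSymmSndFDerivAt ℝ (s2r 𝒜 T C c) 0 :=
    ((PFamR.s2r_smooth0 hB hC c 0).of_le (m := 2) ENat.LEInfty.out).isSymmSndFDerivAt (by simp)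
  have h2 : ∀ a b : Eu N, lam 𝒜 T C c a b = (-(1 / 4) : ℝ) * fderiv ℝ (fderiv ℝ (s2r 𝒜 T C c)) 0 a b := fun a b => rfl
  rw [h2, h2, h1 x y]

theorem lam_add (c : Gs M) (x x' y : Eu N) : lam 𝒜 T C c (x + x') y = lam 𝒜 T C c x y + lam 𝒜 T C c x' y := by
  unfold lam
  rw [map_add]
  rfl

theorem lam_smul (c : Gs M) (r : ℝ) (x y : Eu N) : lam 𝒜 T C c (r • x) y = r * lam 𝒜 T C c x y := by
  unfold lam
  rw [map_smul]
  rfl

theorem lam_add' (c : Gs M) (x y y' : Eu N) : lam 𝒜 T C c x (y + y') = lam 𝒜 T C c x y + lam 𝒜 T C c x y' := by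
  unfold lam
  rw [map_add]

theorem lam_smul' (c : Gs M) (r : ℝ) (x y : Eu N) : lam 𝒜 T C c x (r • y) = r * lam 𝒜 T C c x y := by
  unfold lam
  rw [map_smul, smul_eq_mul]

theorem PFamR.LamBr_smooth (hB : Bl M) (hC : PFamR 𝒜 T C) : SmF 𝒜 (LamBr 𝒜 T C) := by
  intro F _ _ σ u hσ
  have h1 : SmGAt 𝒜 (fun z : F × Eu N => σ z.1) (u, 0) :=
    SmGAt.comp (σ := σ) (f := fun z : F × Eu N => z.1) (v := (u, 0)) hσ contDiffAt_fst
  have h2 : ContDiffAt ℝ ∞ (fun z : F × Eu N => s2r 𝒜 T C (σ z.1) z.2) (u, 0) :=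
    PFamR.s2r_smooth hB hC (F := F × Eu N) (σ := fun z : F × Eu N => σ z.1) (ξ := fun z : F × Eu N => z.2) h1
      contDiffAt_snd
  have h3 := contDiffAt_fderiv2_ns1 h2
  have h4 := contDiffAt_fderiv2_ns1 h3
  have h5 : ContDiffAt ℝ ∞ (fun v : F => fderiv ℝ (fderiv ℝ (s2r 𝒜 T C (σ v))) 0) u :=
    ContDiffAt.comp (g := fun w : F × Eu N => fderiv ℝ (fun ξ => fderiv ℝ (fun ξ' => s2r 𝒜 T C (σ w.1) ξ') ξ) w.2)
      (f := fun v : F => (v, (0 : Eu N))) u h4 (contDiffAt_id.prodMk contDiffAt_const)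
  exact h5.const_smul (-(1 / 4) : ℝ)

theorem PFamR.smooth_lam (hB : Bl M) (hC : PFamR 𝒜 T C) {F : Type} [NormedAddCommGroup F] [NormedSpace ℝ F]
    {σ : F → Gs M} {ξ ζ : F → Eu N} {u : F} (hσ : SmGAt 𝒜 σ u) (hξ : ContDiffAt ℝ ∞ ξ u) (hζ : ContDiffAt ℝ ∞ ζ u) :
    ContDiffAt ℝ ∞ (fun v => lam 𝒜 T C (σ v) (ξ v) (ζ v)) u :=
  ((hC.LamBr_smooth hB hσ).clm_apply hξ).clm_apply hζ

/-- the family `(σ v, t) ↦ f (shift t (σ v)) (r t (x v))` integrated over an interval -/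
theorem smooth_int [Nonempty (Gs M)] (hB : Bl M) (e : Emb n 𝒜) (T : Rt (Eu N)) {f : ℝ → Gs M → Eu N → Eu N → ℝ}
    (hf : ∀ {F : Type} [NormedAddCommGroup F] [NormedSpace ℝ F] {τ : F → ℝ} {σ : F → Gs M} {x y : F → Eu N} {u : F},
      ContDiffAt ℝ ∞ τ u → SmGAt 𝒜 σ u → ContDiffAt ℝ ∞ x u → ContDiffAt ℝ ∞ y u →
      ContDiffAt ℝ ∞ (fun v => f (τ v) (σ v) (x v) (y v)) u)
    (a b : ℝ) {F : Type} [NormedAddCommGroup F] [NormedSpace ℝ F] {σ : F → Gs M} {x y : F → Eu N} {u : F}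
    (hσ : SmGAt 𝒜 σ u) (hx : ContDiffAt ℝ ∞ x u) (hy : ContDiffAt ℝ ∞ y u) :
    ContDiffAt ℝ ∞ (fun v => ∫ t in a..b, f t (shift t (σ v)) (T.r t (x v)) (T.r t (y v))) u := by
  have h1 : ContDiffAt ℝ ∞ (fun w : e.Q × (Eu N × Eu N) => ∫ t in a..b, f t (shift t (e.RR w.1)) (T.r t w.2.1) (T.r t w.2.2))
      (e.EE (σ u), (x u, y u)) := by
    have hU : (Prod.fst : e.Q × (Eu N × Eu N) → e.Q) ⁻¹' e.UU ∈ 𝓝 (e.EE (σ u), (x u, y u)) :=
      continuous_fst.continuousAt.preimage_mem_nhds (e.isOpen_UU.mem_nhds (e.EE_mem _))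
    refine contDiffAt_param (f := fun w : (e.Q × (Eu N × Eu N)) × ℝ =>
      f w.2 (shift w.2 (e.RR w.1.1)) (T.r w.2 w.1.2.1) (T.r w.2 w.1.2.2)) hU ?_ a b
    rintro ⟨y, x⟩ hw t
    have h3 : SmGAt 𝒜 (fun w : (e.Q × (Eu N × Eu N)) × ℝ => e.RR w.1.1) ((y, x), t) :=
      SmGAt.comp (σ := e.RR) (f := fun w : (e.Q × (Eu N × Eu N)) × ℝ => w.1.1) (v := ((y, x), t)) (e.smG_RR hB hw)
        (contDiffAt_fst.comp _ contDiffAt_fst)
    refine hf contDiffAt_snd (h3.shift hB contDiffAt_snd) (T.smooth_ap contDiffAt_snd ?_) (T.smooth_ap contDiffAt_snd ?_)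
    · exact contDiffAt_fst.comp _ (contDiffAt_snd.comp _ contDiffAt_fst)
    · exact contDiffAt_snd.comp _ (contDiffAt_snd.comp _ contDiffAt_fst)
  have h2 := ContDiffAt.comp (g := fun w : e.Q × (Eu N × Eu N) =>
    ∫ t in a..b, f t (shift t (e.RR w.1)) (T.r t w.2.1) (T.r t w.2.2)) (f := fun v => (e.EE (σ v), (x v, y v))) u h1
    ((e.smooth_EE hσ).prodMk (hx.prodMk hy))
  simp only [Function.comp_def, e.RR_EE hB] at h2
  exact h2

theorem PFamR.smooth_BQ [Nonempty (Gs M)] (hB : Bl M) (e : Emb n 𝒜) (hC : PFamR 𝒜 T C) {F : Type}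
    [NormedAddCommGroup F] [NormedSpace ℝ F] {σ : F → Gs M} {ξ ζ : F → Eu N} {u : F} (hσ : SmGAt 𝒜 σ u)
    (hξ : ContDiffAt ℝ ∞ ξ u) (hζ : ContDiffAt ℝ ∞ ζ u) : ContDiffAt ℝ ∞ (fun v => BQ 𝒜 T C (σ v) (ξ v) (ζ v)) u :=
  smooth_int hB e T (f := fun _ c x y => lam 𝒜 T C c x y) (fun _ hσ hx hy => hC.smooth_lam hB hσ hx hy) 0 (4 * π) hσ hξ hζ

theorem PFamR.smooth_ddr [Nonempty (Gs M)] (hB : Bl M) (e : Emb n 𝒜) (hC : PFamR 𝒜 T C) {F : Type}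
    [NormedAddCommGroup F] [NormedSpace ℝ F] {σ : F → Gs M} {ξ : F → Eu N} {u : F} (hσ : SmGAt 𝒜 σ u)
    (hξ : ContDiffAt ℝ ∞ ξ u) : ContDiffAt ℝ ∞ (fun v => ddr 𝒜 T C (σ v) (ξ v)) u :=
  (hC.smooth_lam hB hσ hξ hξ).sub (contDiffAt_const.mul (hC.smooth_BQ hB e hσ hξ hξ))

theorem PFamR.smooth_aar [Nonempty (Gs M)] (hB : Bl M) (e : Emb n 𝒜) (hC : PFamR 𝒜 T C) {F : Type}
    [NormedAddCommGroup F] [NormedSpace ℝ F] {σ : F → Gs M} {ξ : F → Eu N} {u : F} (hσ : SmGAt 𝒜 σ u)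
    (hξ : ContDiffAt ℝ ∞ ξ u) : ContDiffAt ℝ ∞ (fun v => aar 𝒜 T C (σ v) (ξ v)) u :=
  contDiffAt_const.mul (smooth_int hB e T (f := fun t c x _ => t * ddr 𝒜 T C c x)
    (fun ht hσ hx _ => ht.mul (hC.smooth_ddr hB e hσ hx)) 0 (4 * π) hσ hξ hξ)

theorem PFamR.smooth_Cxr [Nonempty (Gs M)] (hB : Bl M) (e : Emb n 𝒜) (hC : PFamR 𝒜 T C) {F : Type}
    [NormedAddCommGroup F] [NormedSpace ℝ F] {σ : F → Gs M} {x : F → Eu N} {u : F} (hσ : SmGAt 𝒜 σ u)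
    (hx : ContDiffAt ℝ ∞ x u) : SmAt 𝒜 (fun v => Cxr 𝒜 T C (x v) (σ v)) u := by
  unfold Cxr
  have h := hC.smooth_aar hB e hσ hx
  exact hC.smooth (hσ.shift hB h) (T.smooth_ap h hx)

/-! ### continuity -/

theorem PFamR.cont_lam [Nonempty (Gs M)] (hB : Bl M) (e : Emb n 𝒜) (hC : PFamR 𝒜 T C) :
    Continuous (fun z : Gs M × (Eu N × Eu N) => lam 𝒜 T C z.1 z.2.1 z.2.2) :=
  cont_of_smooth hB e (f := fun c x => lam 𝒜 T C c x.1 x.2) fun _ _ _ hσ hx => hC.smooth_lam hB hσ hx.fst hx.snd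

theorem PFamR.cont_BQ [Nonempty (Gs M)] (hB : Bl M) (e : Emb n 𝒜) (hC : PFamR 𝒜 T C) :
    Continuous (fun z : Gs M × (Eu N × Eu N) => BQ 𝒜 T C z.1 z.2.1 z.2.2) :=
  cont_of_smooth hB e (f := fun c x => BQ 𝒜 T C c x.1 x.2) fun _ _ _ hσ hx => hC.smooth_BQ hB e hσ hx.fst hx.snd

theorem PFamR.cont_ddr [Nonempty (Gs M)] (hB : Bl M) (e : Emb n 𝒜) (hC : PFamR 𝒜 T C) :
    Continuous (fun z : Gs M × Eu N => ddr 𝒜 T C z.1 z.2) :=
  cont_of_smooth hB e (f := fun c x => ddr 𝒜 T C c x) fun _ _ _ hσ hx => hC.smooth_ddr hB e hσ hx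

theorem PFamR.cont_aar [Nonempty (Gs M)] (hB : Bl M) (e : Emb n 𝒜) (hC : PFamR 𝒜 T C) :
    Continuous (fun z : Gs M × Eu N => aar 𝒜 T C z.1 z.2) :=
  cont_of_smooth hB e (f := fun c x => aar 𝒜 T C c x) fun _ _ _ hσ hx => hC.smooth_aar hB e hσ hx

theorem cont_orb (T : Rt (Eu N)) (c : Gs M) (x : Eu N) : Continuous (fun t : ℝ => (shift t c, T.r t x)) :=
  (gs_continuous_shift.comp (f := fun s : ℝ => (s, c)) (by fun_prop)).prodMk
    (T.smooth.continuous.clm_apply continuous_const)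

theorem PFamR.cont_lam_orb [Nonempty (Gs M)] (hB : Bl M) (e : Emb n 𝒜) (hC : PFamR 𝒜 T C) (c : Gs M) (x y : Eu N) :
    Continuous (fun t : ℝ => lam 𝒜 T C (shift t c) (T.r t x) (T.r t y)) := by
  have h1 : Continuous (fun t : ℝ => (shift t c, (T.r t x, T.r t y))) :=
    (gs_continuous_shift.comp (f := fun s : ℝ => (s, c)) (by fun_prop)).prodMk
      ((T.smooth.continuous.clm_apply continuous_const).prodMk (T.smooth.continuous.clm_apply continuous_const))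
  have h2 := (hC.cont_lam hB e).comp h1
  simp only [Function.comp_def] at h2
  exact h2

/-! ### the form `BQ` -/

theorem PFamR.BQ_add [Nonempty (Gs M)] (hB : Bl M) (e : Emb n 𝒜) (hC : PFamR 𝒜 T C) (c : Gs M) (x x' y : Eu N) :
    BQ 𝒜 T C c (x + x') y = BQ 𝒜 T C c x y + BQ 𝒜 T C c x' y := by
  unfold BQ
  rw [← intervalIntegral.integral_add ((hC.cont_lam_orb hB e c x y).intervalIntegrable _ _)
    ((hC.cont_lam_orb hB e c x' y).intervalIntegrable _ _)]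
  refine intervalIntegral.integral_congr fun t _ => ?_
  simp only [map_add, lam_add]

theorem BQ_smul (c : Gs M) (r : ℝ) (x y : Eu N) : BQ 𝒜 T C c (r • x) y = r * BQ 𝒜 T C c x y := by
  unfold BQ
  rw [← intervalIntegral.integral_const_mul]
  refine intervalIntegral.integral_congr fun t _ => ?_
  simp only [map_smul, lam_smul]

theorem PFamR.BQ_symm (hB : Bl M) (hC : PFamR 𝒜 T C) (c : Gs M) (x y : Eu N) : BQ 𝒜 T C c x y = BQ 𝒜 T C c y x := by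
  unfold BQ
  simp only [hC.lam_symm hB _ (T.r _ x)]

theorem PFamR.BQ_smul' (hB : Bl M) (hC : PFamR 𝒜 T C) (c : Gs M) (r : ℝ) (x : Eu N) :
    BQ 𝒜 T C c (r • x) (r • x) = r ^ 2 * BQ 𝒜 T C c x x := by
  rw [BQ_smul, hC.BQ_symm hB, BQ_smul]
  ring

/-- `4 π` is a period -/
def Per4 (T : Rt (Eu N)) : Prop := ∀ x, T.r (4 * π) x = x

theorem shift_four (𝒜 : SDist n M) (hB : Bl M) (c : Gs M) : shift (4 * π) c = c := by
  rw [show (4 : ℝ) * π = 2 * π + 2 * π by ring, shift_add, shift_per 𝒜 hB, shift_per 𝒜 hB]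

theorem BQ_inv (hB : Bl M) (hT : Per4 T) (c : Gs M) (x y : Eu N) (t : ℝ) :
    BQ 𝒜 T C (shift t c) (T.r t x) (T.r t y) = BQ 𝒜 T C c x y := by
  unfold BQ
  have h0 : ∀ s, lam 𝒜 T C (shift s (shift t c)) (T.r s (T.r t x)) (T.r s (T.r t y)) =
      lam 𝒜 T C (shift (s + t) c) (T.r (s + t) x) (T.r (s + t) y) := by
    intro s
    rw [shift_add, T.add, T.add]
  simp only [h0]
  have hp : Function.Periodic (fun s => lam 𝒜 T C (shift s c) (T.r s x) (T.r s y)) (4 * π) := fun s => by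
    simp only
    rw [shift_add, shift_four 𝒜 hB, T.add, T.add, hT, hT]
  have h1 := intervalIntegral.integral_comp_add_right (a := 0) (b := 4 * π)
    (fun s => lam 𝒜 T C (shift s c) (T.r s x) (T.r s y)) t
  rw [h1, zero_add, add_comm (4 * π) t]
  have h2 := hp.intervalIntegral_add_eq t 0
  rw [zero_add] at h2
  exact h2

theorem lam_smul_sq (c : Gs M) (r : ℝ) (x : Eu N) : lam 𝒜 T C c (r • x) (r • x) = r ^ 2 * lam 𝒜 T C c x x := by
  rw [lam_smul, lam_smul']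
  ring

theorem PFamR.ddr_smul (hB : Bl M) (hC : PFamR 𝒜 T C) (c : Gs M) (r : ℝ) (x : Eu N) :
    ddr 𝒜 T C c (r • x) = r ^ 2 * ddr 𝒜 T C c x := by
  unfold ddr
  rw [lam_smul_sq, hC.BQ_smul' hB]
  ring

theorem PFamR.aar_smul (hB : Bl M) (hC : PFamR 𝒜 T C) (c : Gs M) (r : ℝ) (x : Eu N) :
    aar 𝒜 T C c (r • x) = r ^ 2 * aar 𝒜 T C c x := by
  unfold aar
  have h1 : (fun s => s * ddr 𝒜 T C (shift s c) (T.r s (r • x))) = fun s => r ^ 2 * (s * ddr 𝒜 T C (shift s c) (T.r s x)) := by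
    funext s
    rw [map_smul, hC.ddr_smul hB]
    ring
  rw [h1, intervalIntegral.integral_const_mul]
  ring

theorem PFamR.Cxr_zero (hB : Bl M) (hC : PFamR 𝒜 T C) (c : Gs M) : Cxr 𝒜 T C 0 c = c.1 0 := by
  unfold Cxr
  have h := hC.aar_smul hB c 0 0
  rw [zero_smul, zero_pow two_ne_zero, zero_mul] at h
  rw [h, T.map_zero, hC.zero]
  show c.1 (0 + 0) = c.1 0
  rw [add_zero]

theorem PFamR.aar_deriv [Nonempty (Gs M)] (hB : Bl M) (e : Emb n 𝒜) (hC : PFamR 𝒜 T C) (hT : Per4 T) (c : Gs M) (x : Eu N)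
    (t : ℝ) : HasDerivAt (fun t => aar 𝒜 T C (shift t c) (T.r t x)) (ddr 𝒜 T C (shift t c) (T.r t x)) t := by
  have hπ := Real.pi_pos
  have hc : Continuous (fun s => ddr 𝒜 T C (shift s c) (T.r s x)) := by
    have h2 := (hC.cont_ddr hB e).comp (cont_orb T c x)
    simp only [Function.comp_def] at h2
    exact h2
  have hp : ∀ s, ddr 𝒜 T C (shift (s + 4 * π) c) (T.r (s + 4 * π) x) = ddr 𝒜 T C (shift s c) (T.r s x) := by
    intro s
    rw [shift_add, shift_four 𝒜 hB, T.add, hT]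
  have h0 : ∫ s in (0 : ℝ)..(4 * π), ddr 𝒜 T C (shift s c) (T.r s x) = 0 := by
    have hL := hC.cont_lam_orb hB e c x x
    unfold ddr
    simp only [BQ_inv hB hT]
    rw [intervalIntegral.integral_sub (hL.intervalIntegrable _ _) (continuous_const.intervalIntegrable _ _),
      intervalIntegral.integral_const, sub_zero, smul_eq_mul]
    show BQ 𝒜 T C c x x - _ = 0
    field_simp
    ring
  have key := hasDerivAt_weighted hc (by positivity : (0 : ℝ) < 4 * π) hp h0 t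
  have e1 : (fun t => aar 𝒜 T C (shift t c) (T.r t x)) =
      fun t => (4 * π)⁻¹ * ∫ s in (0 : ℝ)..(4 * π), s * ddr 𝒜 T C (shift (s + t) c) (T.r (s + t) x) := by
    funext t
    unfold aar
    simp only [← shift_add, ← T.add]
  rw [e1]
  exact key

end Pool.Agent.Lib.MP_ccbbf6_gt.K7.RG
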