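import Pool.Agent.Lib.MP_ccbbf6_gt.K7.RG3
import Pool.Agent.Lib.MP_ccbbf6_gt.K7.RG4
import Pool.Agent.Lib.MP_ccbbf6_gt.L5.NF3

/-!
# `κ = 7`, block G3, part 5: Lipschitz constants of the loops with a rotation generator (helper93)
-/

set_option autoImplicit false
set_option linter.unusedSectionVars false

open Set Filter Topology Metric Real
open scoped ContDiff RealInnerProductSpace

noncomputable section

namespace Pool.Agent.Lib.MP_ccbbf6_gt.K7.RG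

open L4 Geo L4.ORI L5 L5.NEG

variable {n : ℕ} {M : Type*} [MetricSpace M] [CompactSpace M] {N : ℕ} {𝒜 : SDist n M} {T : Rt (Eu N)} {C : Eu N → Gs M → M}

theorem PFamR.s2r_expand [Nonempty (Gs M)] (hB : Bl M) (e : Emb n 𝒜) (hC : PFamR 𝒜 T C) {ε : ℝ} (hε : 0 < ε) :
    ∃ θ₀ : ℝ, 0 < θ₀ ∧ ∀ θ, |θ| < θ₀ → ∀ (c : Gs M) (ξ : Eu N), ‖ξ‖ ≤ 1 →
      |s2r 𝒜 T C c (θ • ξ) - (1 - 2 * θ ^ 2 * lam 𝒜 T C c ξ ξ)| ≤ ε * θ ^ 2 := by
  have hs0 : ∀ c, ContDiffAt ℝ ∞ (s2r 𝒜 T C c) 0 := fun c => hC.s2r_smooth0 hB c 0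
  have hK : IsCompact ((univ : Set (Gs M)) ×ˢ closedBall (0 : Eu N) 1) := isCompact_univ.prod (isCompact_closedBall _ _)
  have key := hK.eventually_forall_of_forall_eventually (x₀ := (0 : ℝ)) (P := fun θ (z : Gs M × Eu N) =>
    |s2r 𝒜 T C z.1 (θ • z.2) - (1 - 2 * θ ^ 2 * lam 𝒜 T C z.1 z.2 z.2)| ≤ ε * θ ^ 2) ?_
  · obtain ⟨r, hr, hball⟩ := Metric.eventually_nhds_iff.mp key
    refine ⟨r, hr, fun θ hθ c ξ hξ => ?_⟩
    refine @hball θ (by rw [Real.dist_eq, sub_zero]; exact hθ) (c, ξ) ⟨trivial, ?_⟩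
    rw [mem_closedBall, dist_zero_right]
    exact hξ
  · rintro ⟨c0, ξ0⟩ -
    have hg : ContDiffAt ℝ ∞ (fun z : ℝ × (e.Q × Eu N) => s2r 𝒜 T C (e.RR z.2.1) (z.1 • z.2.2)) (0, (e.EE c0, ξ0)) := by
      refine hC.s2r_smooth hB (SmGAt.comp (σ := e.RR) (f := fun z : ℝ × (e.Q × Eu N) => z.2.1)
        (v := (0, (e.EE c0, ξ0))) (e.smG_RR hB (e.EE_mem c0)) (contDiffAt_fst.comp _ contDiffAt_snd)) ?_
      exact contDiffAt_fst.smul (contDiffAt_snd.comp _ contDiffAt_snd)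
    have h1 := taylor2 hg (Eventually.of_forall fun y => by
      simp only [zero_smul]
      exact hC.s2r_zero _) (Eventually.of_forall fun y => by
      have := (line_deriv (hs0 (e.RR y.1)) y.2).1
      rw [hC.first] at this
      exact this) hε
    have h2 : Continuous (fun z : ℝ × (Gs M × Eu N) => (z.1, (e.EE z.2.1, z.2.2))) :=
      continuous_fst.prodMk ((e.continuous_EE.comp (continuous_fst.comp continuous_snd)).prodMk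
        (continuous_snd.comp continuous_snd))
    filter_upwards [(h2.tendsto (0, (c0, ξ0))).eventually h1] with z hz
    obtain ⟨θ, c, ξ⟩ := z
    simp only [e.RR_EE hB] at hz
    rw [(line_deriv (hs0 c) ξ).2] at hz
    have h3 : lam 𝒜 T C c ξ ξ = -(1 / 4) * fderiv ℝ (fderiv ℝ (s2r 𝒜 T C c)) 0 ξ ξ := rfl
    simp only
    rw [h3]
    have h4 : (1 - 2 * θ ^ 2 * (-(1 / 4) * fderiv ℝ (fderiv ℝ (s2r 𝒜 T C c)) 0 ξ ξ)) =
        1 + θ ^ 2 / 2 * fderiv ℝ (fderiv ℝ (s2r 𝒜 T C c)) 0 ξ ξ := by ring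
    rw [h4]
    exact hz

/-- the speed of the loop at time `0` -/
theorem PFamR.Cxr_speed [Nonempty (Gs M)] (hB : Bl M) (e : Emb n 𝒜) (hC : PFamR 𝒜 T C) (hT : Per4 T) (x : Eu N) (c : Gs M) :
    ∃ v : Eu n, HasDerivAt (fun s => 𝒜.ψ (Cxr 𝒜 T C x c) (Cxr 𝒜 T C (T.r s x) (shift s c))) v 0 ∧
      ‖v‖ ^ 2 = (1 + ddr 𝒜 T C c x) ^ 2 * s2r 𝒜 T C (shift (aar 𝒜 T C c x) c) (T.r (aar 𝒜 T C c x) x) := by
  obtain ⟨φ0, hφ0⟩ : ∃ φ0, φ0 = aar 𝒜 T C c x := ⟨_, rfl⟩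
  obtain ⟨c', hc'⟩ : ∃ c', c' = shift φ0 c := ⟨_, rfl⟩
  obtain ⟨x', hx'⟩ : ∃ x', x' = T.r φ0 x := ⟨_, rfl⟩
  have hx0 : Cxr 𝒜 T C x c = C x' c' := by rw [hx', hc', hφ0]; rfl
  rw [hx0, ← hφ0, ← hc', ← hx']
  obtain ⟨D, hD⟩ : ∃ D, D = deriv (fun s => 𝒜.ψ (C x' c') (C (T.r s x') (shift s c'))) 0 := ⟨_, rfl⟩
  have d1 : HasDerivAt (fun s => 𝒜.ψ (C x' c') (C (T.r s x') (shift s c'))) D 0 := by
    have h1 : SmAt 𝒜 (fun s : ℝ => C (T.r s x') (shift s c')) 0 :=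
      hC.smooth ((smGAt_const c' (0 : ℝ)).shift hB contDiffAt_id) (ξ := fun s => T.r s x')
        (T.smooth_ap contDiffAt_id contDiffAt_const)
    have h2 := h1.2
    simp only [shift_zero, T.zero] at h2
    rw [hD]
    exact (h2.differentiableAt (by simp)).hasDerivAt
  have d2 : HasDerivAt (fun u => 𝒜.ψ (C x' c') (C (T.r u x) (shift u c))) D φ0 := by
    have h1 : HasDerivAt (fun s => 𝒜.ψ (C x' c') (C (T.r s x') (shift s c'))) D (φ0 - φ0) := by rw [sub_self]; exact d1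
    have h2 := h1.comp_sub_const φ0 φ0
    refine h2.congr_of_eventuallyEq (Eventually.of_forall fun u => ?_)
    simp only [hc', hx', ← shift_add, ← T.add, sub_add_cancel]
  have d3 : HasDerivAt (fun s => aar 𝒜 T C (shift s c) (T.r s x) + s) (ddr 𝒜 T C c x + 1) 0 := by
    have h1 := (hC.aar_deriv hB e hT c x 0).add (hasDerivAt_id (0 : ℝ))
    rw [shift_zero, T.zero] at h1
    exact h1
  have d4 : HasDerivAt (fun u => 𝒜.ψ (C x' c') (C (T.r u x) (shift u c))) D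
      ((fun s => aar 𝒜 T C (shift s c) (T.r s x) + s) 0) := by
    show HasDerivAt _ D (aar 𝒜 T C (shift 0 c) (T.r 0 x) + 0)
    rw [shift_zero, T.zero, add_zero, ← hφ0]
    exact d2
  have d5 := HasDerivAt.scomp (h := fun s => aar 𝒜 T C (shift s c) (T.r s x) + s) (0 : ℝ) d4 d3
  refine ⟨(ddr 𝒜 T C c x + 1) • D, ?_, ?_⟩
  · refine d5.congr_of_eventuallyEq (Eventually.of_forall fun s => ?_)
    simp only [Function.comp_def, Cxr, ← shift_add, ← T.add]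
  · rw [norm_smul, mul_pow, Real.norm_eq_abs, sq_abs, add_comm (1 : ℝ), hD]
    rfl

/-- Lipschitz constant from the squares of the speeds -/
theorem PFamR.lip_of_sq [Nonempty (Gs M)] (hB : Bl M) (e : Emb n 𝒜) (hC : PFamR 𝒜 T C) (hT : Per4 T) (x : Eu N) (c : Gs M)
    {L : ℝ} (h : ∀ t : ℝ, (1 + ddr 𝒜 T C (shift t c) (T.r t x)) ^ 2 *
      s2r 𝒜 T C (shift (aar 𝒜 T C (shift t c) (T.r t x)) (shift t c)) (T.r (aar 𝒜 T C (shift t c) (T.r t x)) (T.r t x)) ≤ L) :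
    CO.Lip (√L) (fun t => Cxr 𝒜 T C (T.r t x) (shift t c)) := by
  refine PO.lip_of_speed (α := fun t => Cxr 𝒜 T C (T.r t x) (shift t c)) fun t μ hμ => ?_
  have hsm : SmAt 𝒜 (fun t : ℝ => Cxr 𝒜 T C (T.r t x) (shift t c)) t :=
    hC.smooth_Cxr hB e ((smGAt_const c t).shift hB (r := fun s => s) contDiffAt_id) (x := fun t => T.r t x)
      (T.smooth_ap contDiffAt_id contDiffAt_const)
  obtain ⟨v, hv, hn⟩ := hC.Cxr_speed hB e hT (T.r t x) (shift t c)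
  have h1 : HasDerivAt (fun s => 𝒜.ψ (Cxr 𝒜 T C (T.r t x) (shift t c)) (Cxr 𝒜 T C (T.r s (T.r t x)) (shift s (shift t c)))) v
      (t - t) := by
    rw [sub_self]; exact hv
  have h3 := h1.comp_sub_const t t
  have h4 : (fun s => 𝒜.ψ (Cxr 𝒜 T C (T.r t x) (shift t c)) (Cxr 𝒜 T C (T.r (s - t) (T.r t x)) (shift (s - t) (shift t c)))) =
      fun s => 𝒜.ψ (Cxr 𝒜 T C (T.r t x) (shift t c)) (Cxr 𝒜 T C (T.r s x) (shift s c)) := by
    funext s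
    rw [← shift_add, ← T.add, sub_add_cancel]
  rw [h4] at h3
  refine speed_upper (𝒜 := 𝒜) (α := fun t => Cxr 𝒜 T C (T.r t x) (shift t c)) hsm.1 h3 (lt_of_le_of_lt ?_ hμ)
  have h5 : ‖v‖ ^ 2 ≤ L := by rw [hn]; exact h t
  have h6 := Real.abs_le_sqrt h5
  rwa [abs_of_nonneg (norm_nonneg _)] at h6

/-- **the loops have constant speed to the second order** -/
theorem PFamR.lip_Cxr [Nonempty (Gs M)] (hB : Bl M) (e : Emb n 𝒜) (hC : PFamR 𝒜 T C) (hT : Per4 T) {ε : ℝ} (hε : 0 < ε) :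
    ∃ θ₀ : ℝ, 0 < θ₀ ∧ ∀ θ, |θ| < θ₀ → ∀ (c : Gs M) (ξ : Eu N), ‖ξ‖ ≤ 1 →
      CO.Lip (√(1 - θ ^ 2 * ((2 * π)⁻¹ * BQ 𝒜 T C c ξ ξ) + ε * θ ^ 2)) (fun t => Cxr 𝒜 T C (T.r t (θ • ξ)) (shift t c)) := by
  have hπ := Real.pi_pos
  obtain ⟨θ1, hθ1, h1⟩ := hC.s2r_expand hB e (half_pos hε)
  -- the bracket
  let Br : ℝ → Gs M × Eu N → ℝ := fun θ z => 2 * ddr 𝒜 T C z.1 z.2 + θ ^ 2 * ddr 𝒜 T C z.1 z.2 ^ 2 +
    (1 + θ ^ 2 * ddr 𝒜 T C z.1 z.2) ^ 2 * (-2 * lam 𝒜 T C (shift (θ ^ 2 * aar 𝒜 T C z.1 z.2) z.1)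
      (T.r (θ ^ 2 * aar 𝒜 T C z.1 z.2) z.2) (T.r (θ ^ 2 * aar 𝒜 T C z.1 z.2) z.2) + ε / 2) +
    (2 * π)⁻¹ * BQ 𝒜 T C z.1 z.2 z.2
  have hcaa := hC.cont_aar hB e
  have hcQ := hC.cont_BQ hB e
  have hcd := hC.cont_ddr hB e
  have hcL := hC.cont_lam hB e
  have hBr : Continuous (fun w : ℝ × (Gs M × Eu N) => Br w.1 w.2) := by
    have a1 := hcd.comp (continuous_snd (X := ℝ) (Y := Gs M × Eu N))
    have a2 := hcaa.comp (continuous_snd (X := ℝ) (Y := Gs M × Eu N))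
    simp only [Function.comp_def] at a1 a2
    have a0 : Continuous (fun w : ℝ × (Gs M × Eu N) => w.1 ^ 2) := continuous_fst.pow 2
    have a6 : Continuous (fun w : ℝ × (Gs M × Eu N) => w.2.1) := continuous_fst.comp continuous_snd
    have a7 : Continuous (fun w : ℝ × (Gs M × Eu N) => w.2.2) := continuous_snd.comp continuous_snd
    have a3 := hcQ.comp (a6.prodMk (a7.prodMk a7))
    simp only [Function.comp_def] at a3
    have a4 := gs_continuous_shift.comp ((a0.mul a2).prodMk a6)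
    simp only [Function.comp_def] at a4
    have a8 : Continuous (fun w : ℝ × (Gs M × Eu N) => T.r (w.1 ^ 2 * aar 𝒜 T C w.2.1 w.2.2) w.2.2) :=
      (T.smooth.continuous.comp (a0.mul a2)).clm_apply a7
    have a5 := hcL.comp (a4.prodMk (a8.prodMk a8))
    simp only [Function.comp_def] at a5
    exact (((continuous_const.mul a1).add (a0.mul (a1.pow 2))).add
      (((continuous_const.add (a0.mul a1)).pow 2).mul ((continuous_const.mul a5).add continuous_const))).add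
      (continuous_const.mul a3)
  have hBr0 : ∀ z : Gs M × Eu N, Br 0 z = ε / 2 := by
    rintro ⟨c, ξ⟩
    simp only [Br, zero_pow two_ne_zero, zero_mul, shift_zero, T.zero, add_zero, ddr]
    have : (1 : ℝ) ^ 2 = 1 := one_pow 2
    rw [this]
    field_simp
    ring
  have hK : IsCompact ((univ : Set (Gs M)) ×ˢ closedBall (0 : Eu N) 1) := isCompact_univ.prod (isCompact_closedBall _ _)
  have key := hK.eventually_forall_of_forall_eventually (x₀ := (0 : ℝ)) (P := fun θ z => Br θ z < ε) (fun z _ =>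
    (hBr.continuousAt (x := ((0 : ℝ), z))).eventually (gt_mem_nhds (by show Br 0 z < ε; rw [hBr0]; linarith)))
  obtain ⟨θ2, hθ2, h2⟩ := Metric.eventually_nhds_iff.mp key
  refine ⟨min θ1 θ2, lt_min hθ1 hθ2, fun θ hθ c ξ hξ => ?_⟩
  refine hC.lip_of_sq hB e hT (θ • ξ) c fun t => ?_
  obtain ⟨ct, hct⟩ : ∃ ct, ct = shift t c := ⟨_, rfl⟩
  obtain ⟨ξt, hξt⟩ : ∃ ξt, ξt = T.r t ξ := ⟨_, rfl⟩
  have hn : ‖ξt‖ ≤ 1 := by rw [hξt, T.norm]; exact hξ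
  have hQ : BQ 𝒜 T C c ξ ξ = BQ 𝒜 T C ct ξt ξt := by rw [hct, hξt, BQ_inv hB hT]
  rw [hQ, map_smul, ← hct, ← hξt, hC.ddr_smul hB, hC.aar_smul hB, map_smul]
  have b1 := (abs_le.mp (h1 θ (lt_of_lt_of_le hθ (min_le_left _ _)) (shift (θ ^ 2 * aar 𝒜 T C ct ξt) ct)
    (T.r (θ ^ 2 * aar 𝒜 T C ct ξt) ξt) (by rw [T.norm]; exact hn))).2
  have b2 : Br θ (ct, ξt) < ε := @h2 θ (by rw [Real.dist_eq, sub_zero]; exact lt_of_lt_of_le hθ (min_le_right _ _)) (ct, ξt)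
    ⟨trivial, by rw [mem_closedBall, dist_zero_right]; exact hn⟩
  obtain ⟨A, hA⟩ : ∃ A, A = ddr 𝒜 T C ct ξt := ⟨_, rfl⟩
  obtain ⟨m, hm⟩ : ∃ m, m = lam 𝒜 T C (shift (θ ^ 2 * aar 𝒜 T C ct ξt) ct) (T.r (θ ^ 2 * aar 𝒜 T C ct ξt) ξt)
    (T.r (θ ^ 2 * aar 𝒜 T C ct ξt) ξt) := ⟨_, rfl⟩
  obtain ⟨s, hs⟩ : ∃ s, s = s2r 𝒜 T C (shift (θ ^ 2 * aar 𝒜 T C ct ξt) ct) (θ • T.r (θ ^ 2 * aar 𝒜 T C ct ξt) ξt) := ⟨_, rfl⟩
  rw [← hm, ← hs] at b1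
  rw [← hA, ← hs]
  have b3 : s ≤ 1 + θ ^ 2 * (-2 * m + ε / 2) := by linarith
  have b4 : (1 + θ ^ 2 * A) ^ 2 * s ≤ (1 + θ ^ 2 * A) ^ 2 * (1 + θ ^ 2 * (-2 * m + ε / 2)) :=
    mul_le_mul_of_nonneg_left b3 (sq_nonneg _)
  refine b4.trans ?_
  have b5 : (1 + θ ^ 2 * A) ^ 2 * (1 + θ ^ 2 * (-2 * m + ε / 2)) =
      1 - θ ^ 2 * ((2 * π)⁻¹ * BQ 𝒜 T C ct ξt ξt) + θ ^ 2 * Br θ (ct, ξt) := by
    simp only [Br, ← hA, ← hm]
    ring
  rw [b5]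
  have b6 : θ ^ 2 * Br θ (ct, ξt) ≤ ε * θ ^ 2 := by
    rw [mul_comm ε]
    exact mul_le_mul_of_nonneg_left b2.le (sq_nonneg _)
  linarith

/-! ### from the flow -/

theorem s2r_smooth_aux (hB : Bl M) {C : Eu N → Gs M → M}
    (hs : ∀ {F : Type} [NormedAddCommGroup F] [NormedSpace ℝ F] {σ : F → Gs M} {ξ : F → Eu N} {u : F}, SmGAt 𝒜 σ u →
    ContDiffAt ℝ ∞ ξ u → SmAt 𝒜 (fun v => C (ξ v) (σ v)) u) (c : Gs M) (ξ0 : Eu N) : ContDiffAt ℝ ∞ (s2r 𝒜 T C c) ξ0 := by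
  have h1 : SmGAt 𝒜 (fun w : Eu N × ℝ => shift w.2 c) (ξ0, 0) := (smGAt_const c (ξ0, (0 : ℝ))).shift hB contDiffAt_snd
  have h2 := smV_deriv (g := fun w : Eu N × ℝ => C (T.r w.2 w.1) (shift w.2 c))
    (hs h1 (ξ := fun w : Eu N × ℝ => T.r w.2 w.1) (T.smooth_ap contDiffAt_snd contDiffAt_fst)) (p := _) (𝒜.mem _)
  simp only [shift_zero, T.zero] at h2
  have h3 : SmAt 𝒜 (fun ξ : Eu N => C ξ c) ξ0 := hs (smGAt_const c ξ0) contDiffAt_id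
  have h4 := SmV.inner h3 (𝒜.mem _) h2 h2
  simp only [real_inner_self_eq_norm_sq] at h4
  exact h4

/-- **the push-off family of a rotation family with generator** -/
theorem pfamR_of_flow [Nonempty (Gs M)] (hB : Bl M) {e : Emb n 𝒜} {k : Eu N → Gs M → Eu n} {R : Eu N → Gs M → Gs M}
    (hR : RotX 𝒜 k R) {χ : e.Q → ℝ} {ρ : Eu N → ℝ} {Ξ : ℝ → Eu N → e.Q → e.Q} (h : PFlowR T e R χ ρ Ξ) :
    PFamR 𝒜 T (fun ξ c => CX e Ξ ξ c) ∧ ∀ c ξ, lam 𝒜 T (fun ξ c => CX e Ξ ξ c) c ξ ξ = LamR 𝒜 T k R c ξ := by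
  obtain ⟨g, hg, hg0, hge⟩ := exists_speedR hB hR h
  obtain ⟨C, hCd⟩ : ∃ C : Eu N → Gs M → M, C = fun ξ c => CX e Ξ ξ c := ⟨_, rfl⟩
  have hs : ∀ {F : Type} [NormedAddCommGroup F] [NormedSpace ℝ F] {σ : F → Gs M} {ξ : F → Eu N} {u : F}, SmGAt 𝒜 σ u →
      ContDiffAt ℝ ∞ ξ u → SmAt 𝒜 (fun v => C (ξ v) (σ v)) u := fun hσ hξ => by
    rw [hCd]
    exact smooth_CR hB hR h hσ hξ
  have hz : ∀ c, C 0 c = c.1 0 := by
    rw [hCd]
    exact CR_zero hB hR h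
  rw [← hCd]
  have hexp : ∀ c : Gs M, fderiv ℝ (s2r 𝒜 T C c) 0 = 0 ∧
      ∀ x, fderiv ℝ (fderiv ℝ (s2r 𝒜 T C c)) 0 x x = 2 * g (0, c, x) := by
    intro c
    refine second_deriv_of_expansion (s2r_smooth_aux hB hs c 0) (g := fun θ x => g (θ, c, x)) (fun x => ?_) (fun θ x => ?_)
    · exact (hg.comp (f := fun θ : ℝ => (θ, c, x)) (by fun_prop)).continuousAt
    · rw [← hge θ c x, hCd]
      rfl
  refine ⟨⟨hs, hz, fun c ξ => ?_, fun c => (hexp c).1⟩, fun c ξ => ?_⟩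
  · -- normality of the first variation
    have h1 : SmAt 𝒜 (fun ξ : Eu N => C ξ c) 0 := hs (smGAt_const c 0) contDiffAt_id
    have h2 := h1.2
    simp only [hz] at h2
    have hl : HasDerivAt (fun θ : ℝ => θ • ξ) ξ 0 := by
      have := (hasDerivAt_id (0 : ℝ)).smul_const ξ
      rwa [one_smul] at this
    have h3 : HasFDerivAt (fun ξ : Eu N => 𝒜.ψ (c.1 0) (C ξ c)) (X1 𝒜 C c) ((fun θ : ℝ => θ • ξ) 0) := by
      show HasFDerivAt _ _ ((0 : ℝ) • ξ)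
      rw [zero_smul]
      exact (h2.differentiableAt (by simp)).hasFDerivAt
    have h4 : HasDerivAt (fun θ : ℝ => 𝒜.ψ (c.1 0) (C (θ • ξ) c)) (X1 𝒜 C c ξ) 0 :=
      HasFDerivAt.comp_hasDerivAt (l := fun ξ : Eu N => 𝒜.ψ (c.1 0) (C ξ c)) (f := fun θ : ℝ => θ • ξ) (0 : ℝ) h3 hl
    have h5 : ContinuousAt (fun θ : ℝ => C (θ • ξ) c) 0 :=
      (hs (smGAt_const c (0 : ℝ)) (ξ := fun θ : ℝ => θ • ξ) (contDiffAt_id.smul contDiffAt_const)).cont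
    have h6 := dist_deriv hB (c := c) (α := fun θ : ℝ => C (θ • ξ) c) h5 (by rw [zero_smul, hz]) h4
    have h7 := W_eqR hB hR h c ξ 0
    simp only [zero_smul, hR.zero, zero_mul, neg_zero] at h7
    have h8 : (fun θ : ℝ => dist (c.1 (-1)) (CX e Ξ (θ • ξ) c)) = fun θ : ℝ => dist (c.1 (-1)) (C (θ • ξ) c) := by
      rw [hCd]
    rw [h8] at h7
    exact h6.unique h7
  · show ((-(1 / 4) : ℝ) • fderiv ℝ (fderiv ℝ (s2r 𝒜 T C c)) 0) ξ ξ = _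
    simp only [FunLike.coe_smul, Pi.smul_apply, smul_eq_mul]
    rw [(hexp c).2, hg0]
    ring

end Pool.Agent.Lib.MP_ccbbf6_gt.K7.RG
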