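import Pool.Agent.Lib.MP_ccbbf6_gt.K7.UA1
import Pool.Agent.Lib.MP_ccbbf6_gt.L5.PHI01

/-!
# `κ = 7`, block UA, part 1c: orbits run twice (helper25)

* `dblc c` : the action `(x, s) ↦ a_(2 s) x`; `A_dbl`, `i_dbl`, `K_dbl`.
-/

set_option autoImplicit false
set_option maxSynthPendingDepth 3

open Set Filter Topology MeasureTheory
open scoped TensorProduct ContDiff

noncomputable section

namespace Pool.Agent.Lib.MP_ccbbf6_gt.K7

open L4 L4.FR L5

variable {X Y Z M : Space} {k l n : ℕ} {i j : ℕ}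

/-- orbits run twice -/
def dblc (c : Circ X) : Circ X where
  a := ⟨fun z => c.a.1 (z.1, 2 * z.2), fun k p =>
    c.a.2 k ⟨fun x => ((p.1 x).1, 2 * (p.1 x).2), p.2.1, contDiff_const.mul p.2.2⟩⟩
  zero x := by
    change c.a.1 (x, 2 * 0) = x
    rw [mul_zero, c.zero]
  add x s t := by
    change c.a.1 (c.a.1 (x, 2 * s), 2 * t) = c.a.1 (x, 2 * (s + t))
    rw [c.add, mul_add]
  one x s := by
    change c.a.1 (x, 2 * (s + 1)) = c.a.1 (x, 2 * s)
    have h : 2 * (s + 1) = 2 * s + 1 + 1 := by ring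
    rw [h, c.one, c.one]

/-- `(z, s) ↦ (z, 2 s)` -/
def d2 (k : ℕ) : FR.Sm (k + 1) (k + 1) :=
  ⟨fun z => Fin.snoc (pr k z) (2 * z (Fin.last k)),
    contDiff_snoc.comp ((pr k).smooth.prodMk (contDiff_const.mul (contDiff_apply ℝ ℝ (Fin.last k))))⟩

theorem d2_sl (s : ℝ) : (d2 k).comp (sl k s) = sl k (2 * s) := by
  refine FR.Sm.ext fun x => ?_
  change (Fin.snoc (pr k (Fin.snoc x s)) (2 * (Fin.snoc x s : V (k + 1)) (Fin.last k)) : V (k + 1)) =
    Fin.snoc x (2 * s)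
  rw [pr_snoc, Fin.snoc_last]

theorem cp_d2_castSucc (i : Fin k) : (d2 k).cp i.castSucc = co i.castSucc := by
  apply Cs_ext
  intro z
  exact Fin.snoc_castSucc (α := fun _ => ℝ) _ _ i

theorem cp_d2_last : (d2 k).cp (Fin.last k) = (2 : ℝ) • co (Fin.last k) := by
  apply Cs_ext
  intro z
  exact Fin.snoc_last (α := fun _ => ℝ) _ _

theorem cs_d2 (x : Fm (k + 1)) : cs k (pb (d2 k) x) = (2 : ℝ) • pb (d2 k) (cs k x) := by
  induction x using Fm_ind with
  | hf f => rw [pb_fc, cs, cn_fc, cn_fc, map_zero, smul_zero]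
  | hd j =>
    refine Fin.lastCases ?_ (fun i => ?_) j
    · rw [pb_dx, cp_d2_last, map_smul, map_smul, map_smul, fc_pd_co, cs, cn_dx, lst_apply,
        Pi.single_eq_same, AlgHom.commutes]
    · rw [pb_dx, cp_d2_castSucc, fc_pd_co, cs, cn_dx, lst_apply,
        Pi.single_eq_of_ne (Fin.castSucc_lt_last i).ne', map_zero, map_zero, smul_zero]
  | hm x y hx hy =>
    rw [cs] at hx hy
    rw [map_mul, cs, cn_mul, cn_mul, map_add, map_mul, map_mul, hx, hy, pb_sg, smul_add, smul_mul_assoc, mul_smul_comm]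
  | ha x y hx hy => rw [map_add, map_add, hx, hy, map_add, map_add, smul_add]

/-- forms on `R^k × R` which are periodic in the last variable -/
def Per1 (x : Fm (k + 1)) : Prop := pb (ts k 1) x = x

theorem Per1.cs {x : Fm (k + 1)} (h : Per1 x) : Per1 (FR.cs k x) := by
  unfold Per1 at *
  rw [← cs_ts, h]

theorem Per1.per {x : Fm (k + 1)} (h : Per1 x) (φ : Ex k →ₗ[ℝ] ℝ) (z : V k) :
    Function.Periodic (fun s => φ (ev z (pb (sl k s) x))) 1 := by
  intro s
  change φ (ev z (pb (sl k (s + 1)) x)) = φ (ev z (pb (sl k s) x))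
  rw [← ts_sl, pb_comp, h]

theorem Per1.int {x : Fm (k + 1)} (h : Per1 x) (φ : Ex k →ₗ[ℝ] ℝ) (z : V k) :
    ∫ s in (0 : ℝ)..1, φ (ev z (pb (sl k (2 * s)) x)) = ∫ s in (0 : ℝ)..1, φ (ev z (pb (sl k s) x)) := by
  obtain ⟨g, hg⟩ : ∃ g : ℝ → ℝ, g = fun s => φ (ev z (pb (sl k s) x)) := ⟨_, rfl⟩
  have hc : Continuous g := by rw [hg]; exact cont_ev φ z x
  have hp : Function.Periodic g 1 := by rw [hg]; exact h.per φ z
  have h1 : ∀ s, φ (ev z (pb (sl k s) x)) = g s := fun s => by rw [hg]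
  simp only [h1]
  have h2 : ∫ s in (0 : ℝ)..1, g (2 * s) = 2⁻¹ * ∫ s in (0 : ℝ)..2, g s := by
    have := intervalIntegral.integral_comp_mul_left g (two_ne_zero (α := ℝ)) (a := 0) (b := 1)
    rw [this, mul_zero, mul_one, smul_eq_mul]
  have h3 : ∫ s in (0 : ℝ)..2, g s = (∫ s in (0 : ℝ)..1, g s) + ∫ s in (1 : ℝ)..2, g s :=
    (intervalIntegral.integral_add_adjacent_intervals (hc.intervalIntegrable _ _) (hc.intervalIntegrable _ _)).symm
  have h4 : ∫ s in (1 : ℝ)..2, g s = ∫ s in (0 : ℝ)..1, g s := by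
    have h5 := hp.intervalIntegral_add_eq 1 0
    norm_num at h5
    exact h5
  rw [h2, h3, h4]
  ring

theorem Per1.int_w {x : Fm (k + 1)} (h : Per1 x) (φ : Ex k →ₗ[ℝ] ℝ) (z : V k) :
    ∫ s in (0 : ℝ)..1, (1 - s) * (2 * φ (ev z (pb (sl k (2 * s)) x))) =
      (∫ s in (0 : ℝ)..1, (1 - s) * φ (ev z (pb (sl k s) x))) +
        2⁻¹ * ∫ s in (0 : ℝ)..1, φ (ev z (pb (sl k s) x)) := by
  obtain ⟨g, hg⟩ : ∃ g : ℝ → ℝ, g = fun s => φ (ev z (pb (sl k s) x)) := ⟨_, rfl⟩
  have hc : Continuous g := by rw [hg]; exact cont_ev φ z x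
  have hp : Function.Periodic g 1 := by rw [hg]; exact h.per φ z
  have h1 : ∀ s, φ (ev z (pb (sl k s) x)) = g s := fun s => by rw [hg]
  simp only [h1]
  have h2 : ∫ s in (0 : ℝ)..1, (1 - s) * (2 * g (2 * s)) = ∫ s in (0 : ℝ)..2, (1 - s / 2) * g s := by
    have := intervalIntegral.integral_comp_mul_left (fun s => (1 - s / 2) * g s) (two_ne_zero (α := ℝ)) (a := 0) (b := 1)
    rw [mul_zero, mul_one, smul_eq_mul] at this
    have h3 : ∀ s, (1 - s) * (2 * g (2 * s)) = 2 * ((1 - 2 * s / 2) * g (2 * s)) := fun s => by ring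
    simp only [h3]
    rw [intervalIntegral.integral_const_mul, this]
    ring
  have hi : ∀ (a b : ℝ) (F : ℝ → ℝ), Continuous F → IntervalIntegrable (fun s => F s * g s) volume a b :=
    fun a b F hF => (hF.mul hc).intervalIntegrable _ _
  have h3 : ∫ s in (0 : ℝ)..2, (1 - s / 2) * g s =
      (∫ s in (0 : ℝ)..1, (1 - s / 2) * g s) + ∫ s in (1 : ℝ)..2, (1 - s / 2) * g s :=
    (intervalIntegral.integral_add_adjacent_intervals (hi _ _ _ (by fun_prop)) (hi _ _ _ (by fun_prop))).symm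
  have h4 : ∫ s in (1 : ℝ)..2, (1 - s / 2) * g s = ∫ s in (0 : ℝ)..1, (2⁻¹ - s / 2) * g s := by
    have h5 := intervalIntegral.integral_comp_add_right (fun s => (1 - s / 2) * g s) (a := 0) (b := 1) 1
    norm_num at h5
    rw [← h5]
    refine intervalIntegral.integral_congr fun s _ => ?_
    change (1 - (s + 1) / 2) * g (s + 1) = _
    rw [hp s]
    ring
  rw [h2, h3, h4, ← intervalIntegral.integral_add (hi _ _ _ (by fun_prop)) (hi _ _ _ (by fun_prop)),
    ← intervalIntegral.integral_const_mul, ← intervalIntegral.integral_add (hi _ _ _ (by fun_prop))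
      (hi _ _ (fun _ => 2⁻¹) continuous_const)]
  refine intervalIntegral.integral_congr fun s _ => ?_
  change (1 - s / 2) * g s + (2⁻¹ - s / 2) * g s = (1 - s) * g s + 2⁻¹ * g s
  ring

variable {c : Circ X}

theorem op_dbl (p : X.Plot k) : (dblc c).op p = (c.op p).cmp (d2 k) :=
  Plot_ext fun z => by
    change c.a.1 (p.1 (pr k z), 2 * z (Fin.last k)) = c.a.1 (p.1 (pr k (Fin.snoc (pr k z) (2 * z (Fin.last k)))),
      (Fin.snoc (pr k z) (2 * z (Fin.last k)) : V (k + 1)) (Fin.last k))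
    rw [pr_snoc, Fin.snoc_last]

theorem per_op (θ : Om X) (p : X.Plot k) : Per1 (Om.on θ (c.op p)) := by
  unfold Per1
  rw [← on_cmp, op_one]

theorem A_dbl (θ : Om X) : AO (dblc c) θ = AO c θ :=
  Om_ext fun k p => by
    rw [← sub_eq_zero]
    refine ev_fun_inj fun φ z => ?_
    rw [map_sub, map_sub, on_A, on_A, op_dbl, on_cmp, ev_Q0, ev_Q0, sub_eq_zero, ← (per_op θ p).int φ z]
    simp only [← pb_comp, d2_sl]

theorem i_dbl (θ : Om X) : iO (dblc c) θ = (2 : ℝ) • iO c θ :=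
  Om_ext fun k p => by
    rw [on_i, op_dbl, on_cmp, cs_d2, map_smul, ← pb_comp, d2_sl, mul_zero, on_smul, on_i]

theorem Q0_one_sub (y : Fm (k + 1)) (φ : Ex k →ₗ[ℝ] ℝ) (z : V k) :
    φ (ev z (Q0 k ((1 - fc (k + 1) (co (Fin.last k))) * y))) = ∫ s in (0 : ℝ)..1, (1 - s) * φ (ev z (pb (sl k s) y)) := by
  rw [ev_Q0]
  refine intervalIntegral.integral_congr fun s _ => ?_
  have h1 : pb (sl k s) (fc (k + 1) (co (Fin.last k))) = algebraMap ℝ (Fm k) s := by
    rw [pb_fc, Sm.pull_co, cp_sl_last, AlgHom.commutes]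
  rw [map_mul, map_sub, map_one, h1, sub_mul, one_mul, map_sub, map_sub, ← Algebra.smul_def, map_smul, map_smul,
    smul_eq_mul]
  ring

theorem K_dbl (θ : Om X) : KO X ((1 - sF X) * (dblc c).a.pull θ) =
    KO X ((1 - sF X) * c.a.pull θ) + (2⁻¹ : ℝ) • KO X (c.a.pull θ) :=
  Om_ext fun k p => by
    rw [← sub_eq_zero]
    refine ev_fun_inj fun φ z => ?_
    have h1 : Om.on ((dblc c).a.pull θ) p.up = pb (d2 k) (Om.on θ (c.op p)) := by
      rw [on_pull, ← on_cmp, ← op_dbl]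
      rfl
    have h2 : Om.on (c.a.pull θ) p.up = Om.on θ (c.op p) := rfl
    have h3 : ∀ y : Fm (k + 1), cs k ((1 - fc (k + 1) (co (Fin.last k))) * y) =
        (1 - fc (k + 1) (co (Fin.last k))) * cs k y := by
      intro y
      have h4 : (1 : Fm (k + 1)) - fc (k + 1) (co (Fin.last k)) = fc (k + 1) (1 - co (Fin.last k)) := by
        rw [map_sub, map_one]
      rw [h4, cs, cn_mul, cn_fc, sg_fc, zero_mul, zero_add]
    rw [map_sub, map_sub, on_K, on_add, on_smul, on_K, on_K, on_mul, on_mul, on_sub, on_one, on_sF_up, h1, h2,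
      KK_apply, KK_apply, KK_apply, h3, h3, cs_d2, Q0_one_sub, map_add, map_add, map_smul, map_smul, Q0_one_sub, ev_Q0,
      sub_eq_zero, smul_eq_mul, ← (per_op θ p).cs.int_w φ z]
    refine intervalIntegral.integral_congr fun s _ => ?_
    change (1 - s) * φ (ev z (pb (sl k s) ((2 : ℝ) • pb (d2 k) (cs k (Om.on θ (c.op p)))))) = _
    rw [map_smul, map_smul, map_smul, smul_eq_mul, ← pb_comp, d2_sl]

end Pool.Agent.Lib.MP_ccbbf6_gt.K7
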