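import Pool.Agent.Lib.MP_ccbbf6_gt.K7.RG4
import Pool.Agent.Lib.MP_ccbbf6_gt.K7.UA1c
import Pool.Agent.Lib.MP_ccbbf6_gt.L4.AL
import Pool.Agent.Lib.MP_ccbbf6_gt.L5.NK

/-!
# `κ = 7`, block G3, part 6: the space `Y` (helper93)

`Eu (N + (N + N)) = N ⊕ N ⊕ N`: coordinates `q0 q1 q2`, inclusions `j0 j1 j2`, rotation `rt : Rt`, projection `P3 P`,
`spY 𝒜 P = spN 𝒜 (P3 P)`, circle action `circY` (period `1`: geodesic run twice, `(q1, q2)` rotated once), `prY`, `antY`,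
`jY : spN 𝒜 P → spY 𝒜 P`.
-/

set_option autoImplicit false
set_option linter.unusedSectionVars false

open Set Filter Topology Metric Real Module
open scoped ContDiff RealInnerProductSpace

noncomputable section

namespace Pool.Agent.Lib.MP_ccbbf6_gt.K7.RG

open L4 Geo L4.ORI L4.FR L5 L5.NEG

/-! ### coordinates -/

section coord

variable {N : ℕ}

/-- `Eu (N + (N + N))` from three vectors -/
def mk3 (x y z : Eu N) : Eu (N + (N + N)) :=
  WithLp.toLp 2 (Fin.append (fun i => x i) (Fin.append (fun i => y i) (fun i => z i)))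

def q0l : Eu (N + (N + N)) →ₗ[ℝ] Eu N where
  toFun x := WithLp.toLp 2 fun i => x (Fin.castAdd (N + N) i)
  map_add' _ _ := rfl
  map_smul' _ _ := rfl

def q1l : Eu (N + (N + N)) →ₗ[ℝ] Eu N where
  toFun x := WithLp.toLp 2 fun i => x (Fin.natAdd N (Fin.castAdd N i))
  map_add' _ _ := rfl
  map_smul' _ _ := rfl

def q2l : Eu (N + (N + N)) →ₗ[ℝ] Eu N where
  toFun x := WithLp.toLp 2 fun i => x (Fin.natAdd N (Fin.natAdd N i))
  map_add' _ _ := rfl
  map_smul' _ _ := rfl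

/-- first component -/
def q0 : Eu (N + (N + N)) →L[ℝ] Eu N := LinearMap.toContinuousLinearMap q0l

/-- second component -/
def q1 : Eu (N + (N + N)) →L[ℝ] Eu N := LinearMap.toContinuousLinearMap q1l

/-- third component -/
def q2 : Eu (N + (N + N)) →L[ℝ] Eu N := LinearMap.toContinuousLinearMap q2l

@[simp] theorem q0_mk3 (x y z : Eu N) : q0 (mk3 x y z) = x := by
  ext i
  show Fin.append (fun i => x i) _ (Fin.castAdd (N + N) i) = x i
  rw [Fin.append_left]

@[simp] theorem q1_mk3 (x y z : Eu N) : q1 (mk3 x y z) = y := by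
  ext i
  show Fin.append (fun i => x i) (Fin.append (fun i => y i) (fun i => z i)) (Fin.natAdd N (Fin.castAdd N i)) = y i
  rw [Fin.append_right, Fin.append_left]

@[simp] theorem q2_mk3 (x y z : Eu N) : q2 (mk3 x y z) = z := by
  ext i
  show Fin.append (fun i => x i) (Fin.append (fun i => y i) (fun i => z i)) (Fin.natAdd N (Fin.natAdd N i)) = z i
  rw [Fin.append_right, Fin.append_right]

theorem q_ext {z w : Eu (N + (N + N))} (h0 : q0 z = q0 w) (h1 : q1 z = q1 w) (h2 : q2 z = q2 w) : z = w := by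
  ext i
  refine Fin.addCases (fun i => ?_) (fun i => ?_) i
  · exact congrFun (congrArg WithLp.ofLp h0) i
  · refine Fin.addCases (fun i => ?_) (fun i => ?_) i
    · exact congrFun (congrArg WithLp.ofLp h1) i
    · exact congrFun (congrArg WithLp.ofLp h2) i

theorem mk3_q (z : Eu (N + (N + N))) : mk3 (q0 z) (q1 z) (q2 z) = z :=
  q_ext (q0_mk3 _ _ _) (q1_mk3 _ _ _) (q2_mk3 _ _ _)

theorem inner_q (z w : Eu (N + (N + N))) : ⟪z, w⟫ = ⟪q0 z, q0 w⟫ + (⟪q1 z, q1 w⟫ + ⟪q2 z, q2 w⟫) := by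
  rw [PiLp.inner_apply, PiLp.inner_apply, PiLp.inner_apply, PiLp.inner_apply, Fin.sum_univ_add, Fin.sum_univ_add]
  rfl

theorem norm_q (z : Eu (N + (N + N))) : ‖z‖ ^ 2 = ‖q0 z‖ ^ 2 + (‖q1 z‖ ^ 2 + ‖q2 z‖ ^ 2) := by
  rw [← real_inner_self_eq_norm_sq, inner_q, real_inner_self_eq_norm_sq, real_inner_self_eq_norm_sq,
    real_inner_self_eq_norm_sq]

theorem mk3_add (x y z x' y' z' : Eu N) : mk3 (x + x') (y + y') (z + z') = mk3 x y z + mk3 x' y' z' :=
  q_ext (by simp only [map_add, q0_mk3]) (by simp only [map_add, q1_mk3]) (by simp only [map_add, q2_mk3])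

theorem mk3_smul (r : ℝ) (x y z : Eu N) : mk3 (r • x) (r • y) (r • z) = r • mk3 x y z :=
  q_ext (by simp only [map_smul, q0_mk3]) (by simp only [map_smul, q1_mk3]) (by simp only [map_smul, q2_mk3])

/-- inclusion of the first summand -/
def j0 : Eu N →L[ℝ] Eu (N + (N + N)) := LinearMap.toContinuousLinearMap
  { toFun := fun x => mk3 x 0 0
    map_add' := fun x y => by
      have h := mk3_add x 0 0 y 0 0
      rwa [add_zero] at h
    map_smul' := fun r x => by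
      have h := mk3_smul r x 0 0
      rwa [smul_zero] at h }

/-- inclusion of the second summand -/
def j1 : Eu N →L[ℝ] Eu (N + (N + N)) := LinearMap.toContinuousLinearMap
  { toFun := fun x => mk3 0 x 0
    map_add' := fun x y => by
      have h := mk3_add 0 x 0 0 y 0
      rwa [add_zero] at h
    map_smul' := fun r x => by
      have h := mk3_smul r 0 x 0
      rwa [smul_zero] at h }

/-- inclusion of the third summand -/
def j2 : Eu N →L[ℝ] Eu (N + (N + N)) := LinearMap.toContinuousLinearMap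
  { toFun := fun x => mk3 0 0 x
    map_add' := fun x y => by
      have h := mk3_add 0 0 x 0 0 y
      rwa [add_zero] at h
    map_smul' := fun r x => by
      have h := mk3_smul r 0 0 x
      rwa [smul_zero] at h }

theorem j0_eq (x : Eu N) : j0 x = mk3 x 0 0 := rfl
theorem j1_eq (x : Eu N) : j1 x = mk3 0 x 0 := rfl
theorem j2_eq (x : Eu N) : j2 x = mk3 0 0 x := rfl

@[simp] theorem q0_j0 (x : Eu N) : q0 (j0 x) = x := q0_mk3 _ _ _
@[simp] theorem q1_j0 (x : Eu N) : q1 (j0 x) = 0 := q1_mk3 _ _ _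
@[simp] theorem q2_j0 (x : Eu N) : q2 (j0 x) = 0 := q2_mk3 _ _ _
@[simp] theorem q0_j1 (x : Eu N) : q0 (j1 x) = 0 := q0_mk3 _ _ _
@[simp] theorem q1_j1 (x : Eu N) : q1 (j1 x) = x := q1_mk3 _ _ _
@[simp] theorem q2_j1 (x : Eu N) : q2 (j1 x) = 0 := q2_mk3 _ _ _
@[simp] theorem q0_j2 (x : Eu N) : q0 (j2 x) = 0 := q0_mk3 _ _ _
@[simp] theorem q1_j2 (x : Eu N) : q1 (j2 x) = 0 := q1_mk3 _ _ _
@[simp] theorem q2_j2 (x : Eu N) : q2 (j2 x) = x := q2_mk3 _ _ _

theorem mk3_eq (x y z : Eu N) : mk3 x y z = j0 x + (j1 y + j2 z) := by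
  refine q_ext ?_ ?_ ?_ <;>
    simp only [map_add, q0_mk3, q1_mk3, q2_mk3, q0_j0, q0_j1, q0_j2, q1_j0, q1_j1, q1_j2, q2_j0, q2_j1, q2_j2, add_zero,
      zero_add]

theorem q_sum (z : Eu (N + (N + N))) : z = j0 (q0 z) + (j1 (q1 z) + j2 (q2 z)) := by
  rw [← mk3_eq, mk3_q]

theorem norm_j0 (x : Eu N) : ‖j0 x‖ = ‖x‖ := by
  have h := norm_q (j0 x)
  rw [q0_j0, q1_j0, q2_j0, norm_zero] at h
  have h2 : ‖j0 x‖ ^ 2 = ‖x‖ ^ 2 := by rw [h]; ring
  exact (sq_eq_sq₀ (norm_nonneg _) (norm_nonneg _)).1 h2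

/-! ### rotation -/

/-- rotation of `(q1, q2)` by the angle `t / 2` -/
def rtr (N : ℕ) (t : ℝ) : Eu (N + (N + N)) →L[ℝ] Eu (N + (N + N)) :=
  j0.comp q0 + (Real.cos (t / 2) • (j1.comp q1 + j2.comp q2) + Real.sin (t / 2) • (j2.comp q1 - j1.comp q2))

theorem rtr_apply (t : ℝ) (z : Eu (N + (N + N))) : rtr N t z = mk3 (q0 z)
    (Real.cos (t / 2) • q1 z - Real.sin (t / 2) • q2 z) (Real.sin (t / 2) • q1 z + Real.cos (t / 2) • q2 z) := by
  have h : rtr N t z = j0 (q0 z) + (Real.cos (t / 2) • (j1 (q1 z) + j2 (q2 z)) +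
    Real.sin (t / 2) • (j2 (q1 z) - j1 (q2 z))) := rfl
  rw [h, mk3_eq, map_sub, map_add, map_smul, map_smul, map_smul, map_smul]
  module

@[simp] theorem q0_rtr (t : ℝ) (z : Eu (N + (N + N))) : q0 (rtr N t z) = q0 z := by rw [rtr_apply, q0_mk3]

@[simp] theorem q1_rtr (t : ℝ) (z : Eu (N + (N + N))) :
    q1 (rtr N t z) = Real.cos (t / 2) • q1 z - Real.sin (t / 2) • q2 z := by rw [rtr_apply, q1_mk3]

@[simp] theorem q2_rtr (t : ℝ) (z : Eu (N + (N + N))) :
    q2 (rtr N t z) = Real.sin (t / 2) • q1 z + Real.cos (t / 2) • q2 z := by rw [rtr_apply, q2_mk3]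

/-- the rotation group of the parameter space -/
def rt (N : ℕ) : Rt (Eu (N + (N + N))) where
  r := rtr N
  smooth := by
    unfold rtr
    have h : ContDiff ℝ ∞ (fun t : ℝ => t / 2) := contDiff_id.div_const 2
    exact contDiff_const.add (((Real.contDiff_cos.comp h).smul contDiff_const).add
      ((Real.contDiff_sin.comp h).smul contDiff_const))
  zero x := by
    refine q_ext ?_ ?_ ?_
    · rw [q0_rtr]
    · rw [q1_rtr, zero_div, Real.cos_zero, Real.sin_zero, one_smul, zero_smul, sub_zero]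
    · rw [q2_rtr, zero_div, Real.cos_zero, Real.sin_zero, one_smul, zero_smul, zero_add]
  add s t x := by
    refine q_ext ?_ ?_ ?_
    · rw [q0_rtr, q0_rtr, q0_rtr]
    · rw [q1_rtr, q1_rtr, q1_rtr, q2_rtr, add_div, Real.cos_add, Real.sin_add]
      module
    · rw [q2_rtr, q2_rtr, q1_rtr, q2_rtr, add_div, Real.cos_add, Real.sin_add]
      module
  norm t x := by
    have h := norm_q (rtr N t x)
    rw [q0_rtr, q1_rtr, q2_rtr] at h
    have e1 : ‖Real.cos (t / 2) • q1 x - Real.sin (t / 2) • q2 x‖ ^ 2 + ‖Real.sin (t / 2) • q1 x + Real.cos (t / 2) • q2 x‖ ^ 2 =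
        ‖q1 x‖ ^ 2 + ‖q2 x‖ ^ 2 := by
      rw [← real_inner_self_eq_norm_sq, ← real_inner_self_eq_norm_sq, inner_sub_left, inner_sub_right, inner_sub_right,
        inner_add_left, inner_add_right, inner_add_right]
      simp only [real_inner_smul_left, real_inner_smul_right]
      rw [real_inner_self_eq_norm_sq, real_inner_self_eq_norm_sq, real_inner_comm (q1 x) (q2 x)]
      have h1 := Real.sin_sq_add_cos_sq (t / 2)
      linear_combination (‖q1 x‖ ^ 2 + ‖q2 x‖ ^ 2) * h1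
    rw [e1, ← norm_q] at h
    exact (sq_eq_sq₀ (norm_nonneg _) (norm_nonneg _)).1 h

theorem rt_r (t : ℝ) (z : Eu (N + (N + N))) : (rt N).r t z = rtr N t z := rfl

theorem rt_apply (t : ℝ) (z : Eu (N + (N + N))) : (rt N).r t z = mk3 (q0 z)
    (Real.cos (t / 2) • q1 z - Real.sin (t / 2) • q2 z) (Real.sin (t / 2) • q1 z + Real.cos (t / 2) • q2 z) := rtr_apply t z

theorem rt_j0 (t : ℝ) (x : Eu N) : (rt N).r t (j0 x) = j0 x := by
  refine q_ext ?_ ?_ ?_
  · rw [rt_r, q0_rtr]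
  · rw [rt_r, q1_rtr, q1_j0, q2_j0, smul_zero, smul_zero, sub_zero]
  · rw [rt_r, q2_rtr, q1_j0, q2_j0, smul_zero, smul_zero, add_zero]

/-- after one turn of the geodesic the signs of `q1, q2` change -/
theorem rt_two_pi (z : Eu (N + (N + N))) : (rt N).r (2 * π) z = mk3 (q0 z) (-q1 z) (-q2 z) := by
  rw [rt_apply, show (2 * π / 2 : ℝ) = π by ring, Real.cos_pi, Real.sin_pi]
  refine congrArg₂ _ ?_ ?_
  · module
  · module

theorem per_rt : Per4 (rt N) := by
  intro z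
  rw [rt_apply, show (4 * π / 2 : ℝ) = 2 * π by ring, Real.cos_two_pi, Real.sin_two_pi]
  refine q_ext ?_ ?_ ?_
  · rw [q0_mk3]
  · rw [q1_mk3]
    module
  · rw [q2_mk3]
    module

end coord

/-! ### the space `Y` -/

section space

variable {n : ℕ} {M : Type} [MetricSpace M] [CompactSpace M] {𝒜 : SDist n M} {N κ : ℕ} {C : Eu N → Gs M → M}
  {P : Gs M → Eu N →L[ℝ] Eu N}

/-- the projection onto the three copies of the bundle -/
def P3 {M : Type*} [MetricSpace M] {N : ℕ} (P : Gs M → Eu N →L[ℝ] Eu N) (c : Gs M) :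
    Eu (N + (N + N)) →L[ℝ] Eu (N + (N + N)) :=
  j0.comp ((P c).comp q0) + (j1.comp ((P c).comp q1) + j2.comp ((P c).comp q2))

theorem P3_apply (c : Gs M) (z : Eu (N + (N + N))) : P3 P c z = mk3 (P c (q0 z)) (P c (q1 z)) (P c (q2 z)) := by
  rw [mk3_eq]
  rfl

@[simp] theorem q0_P3 (c : Gs M) (z : Eu (N + (N + N))) : q0 (P3 P c z) = P c (q0 z) := by rw [P3_apply, q0_mk3]
@[simp] theorem q1_P3 (c : Gs M) (z : Eu (N + (N + N))) : q1 (P3 P c z) = P c (q1 z) := by rw [P3_apply, q1_mk3]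
@[simp] theorem q2_P3 (c : Gs M) (z : Eu (N + (N + N))) : q2 (P3 P c z) = P c (q2 z) := by rw [P3_apply, q2_mk3]

theorem inP3_iff {c : Gs M} {z : Eu (N + (N + N))} :
    InP (P3 P) c z ↔ InP P c (q0 z) ∧ InP P c (q1 z) ∧ InP P c (q2 z) := by
  constructor
  · intro h
    have h' : P3 P c z = z := h
    refine ⟨?_, ?_, ?_⟩
    · show P c (q0 z) = q0 z
      rw [← q0_P3, h']
    · show P c (q1 z) = q1 z
      rw [← q1_P3, h']
    · show P c (q2 z) = q2 z
      rw [← q2_P3, h']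
  · rintro ⟨h0, h1, h2⟩
    have h0' : P c (q0 z) = q0 z := h0
    have h1' : P c (q1 z) = q1 z := h1
    have h2' : P c (q2 z) = q2 z := h2
    refine q_ext ?_ ?_ ?_
    · rw [q0_P3, h0']
    · rw [q1_P3, h1']
    · rw [q2_P3, h2']

theorem inP3_rt {c : Gs M} {z : Eu (N + (N + N))} (h : InP (P3 P) c z) (t : ℝ) : InP (P3 P) c ((rt N).r t z) := by
  obtain ⟨h0, h1, h2⟩ := inP3_iff.1 h
  have h1' : P c (q1 z) = q1 z := h1
  have h2' : P c (q2 z) = q2 z := h2
  refine inP3_iff.2 ⟨?_, ?_, ?_⟩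
  · rw [rt_r, q0_rtr]
    exact h0
  · show P c (q1 ((rt N).r t z)) = q1 ((rt N).r t z)
    rw [rt_r, q1_rtr, map_sub, map_smul, map_smul, h1', h2']
  · show P c (q2 ((rt N).r t z)) = q2 ((rt N).r t z)
    rw [rt_r, q2_rtr, map_add, map_smul, map_smul, h1', h2']

theorem inP3_inv {hB : Bl M} (hN : NegData 𝒜 κ hB C P) {c : Gs M} {z : Eu (N + (N + N))} (h : InP (P3 P) c z) (t : ℝ) :
    InP (P3 P) (shift t c) z := by
  obtain ⟨h0, h1, h2⟩ := inP3_iff.1 h
  refine inP3_iff.2 ⟨?_, ?_, ?_⟩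
  · show P (shift t c) _ = _
    rw [hN.inv]
    exact h0
  · show P (shift t c) _ = _
    rw [hN.inv]
    exact h1
  · show P (shift t c) _ = _
    rw [hN.inv]
    exact h2

theorem inP3_j0 {c : Gs M} {x : Eu N} : InP (P3 P) c (j0 x) ↔ InP P c x := by
  rw [inP3_iff, q0_j0, q1_j0, q2_j0]
  exact ⟨fun h => h.1, fun h => ⟨h, map_zero (P c), map_zero (P c)⟩⟩

/-- the unit sphere bundle of the three copies of the negative bundle -/
abbrev spY (𝒜 : SDist n M) (P : Gs M → Eu N →L[ℝ] Eu N) : FR.Space := spN 𝒜 (P3 P)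

/-- the projection to `UM` -/
abbrev prY (𝒜 : SDist n M) (P : Gs M → Eu N →L[ℝ] Eu N) : SMap (spY 𝒜 P) (spG 𝒜) := prN 𝒜 (P3 P)

/-- the antipode of the fibres -/
abbrev antY (𝒜 : SDist n M) (P : Gs M → Eu N →L[ℝ] Eu N) : SMap (spY 𝒜 P) (spY 𝒜 P) := antN 𝒜 (P3 P)

/-- the circle action of period `1`: the geodesic is run twice, `(q1, q2)` rotates once -/
def circY (hB : Bl M) (hN : NegData 𝒜 κ hB C P) : Circ (spY 𝒜 P) where
  a := ⟨fun z => ⟨(shift (4 * π * z.2) z.1.1.1, (rt N).r (4 * π * z.2) z.1.1.2),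
    inP3_inv hN (inP3_rt z.1.2.1 _) _, by
      show ‖(rt N).r (4 * π * z.2) z.1.1.2‖ = 1
      rw [(rt N).norm]
      exact z.1.2.2⟩,
    fun _ p => ⟨SmG.shift hB p.2.1.1 (contDiff_const.mul p.2.2), contDiff_iff_contDiffAt.2 fun _ =>
      (rt N).smooth_ap (contDiffAt_const.mul p.2.2.contDiffAt) p.2.1.2.contDiffAt⟩⟩
  zero := fun z => Subtype.ext (Prod.ext (by
    show shift (4 * π * 0) z.1.1 = z.1.1
    rw [mul_zero, shift_zero]) (by
    show (rt N).r (4 * π * 0) z.1.2 = z.1.2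
    rw [mul_zero, (rt N).zero]))
  add := fun z s t => Subtype.ext (Prod.ext (by
    show shift (4 * π * t) (shift (4 * π * s) z.1.1) = shift (4 * π * (s + t)) z.1.1
    rw [← shift_add]
    ring_nf) (by
    show (rt N).r (4 * π * t) ((rt N).r (4 * π * s) z.1.2) = (rt N).r (4 * π * (s + t)) z.1.2
    rw [← (rt N).add]
    ring_nf))
  one := fun z t => Subtype.ext (Prod.ext (by
    show shift (4 * π * (t + 1)) z.1.1 = shift (4 * π * t) z.1.1
    rw [mul_add, mul_one, shift_add, shift_four 𝒜 hB]) (by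
    show (rt N).r (4 * π * (t + 1)) z.1.2 = (rt N).r (4 * π * t) z.1.2
    rw [mul_add, mul_one, (rt N).add, per_rt]))

theorem circY_apply (hB : Bl M) (hN : NegData 𝒜 κ hB C P) (z : (spY 𝒜 P).pt) (s : ℝ) :
    ((circY hB hN).a.1 (z, s)).1 = (shift (4 * π * s) z.1.1, (rt N).r (4 * π * s) z.1.2) := rfl

/-- in coordinates -/
theorem circY_q (hB : Bl M) (hN : NegData 𝒜 κ hB C P) (z : (spY 𝒜 P).pt) (s : ℝ) :
    ((circY hB hN).a.1 (z, s)).1.2 = mk3 (q0 z.1.2)
      (Real.cos (2 * π * s) • q1 z.1.2 - Real.sin (2 * π * s) • q2 z.1.2)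
      (Real.sin (2 * π * s) • q1 z.1.2 + Real.cos (2 * π * s) • q2 z.1.2) := by
  rw [circY_apply, rt_apply, show (4 * π * s / 2 : ℝ) = 2 * π * s by ring]

/-- the projection is equivariant for the geodesic flow run twice -/
theorem circY_pr (hB : Bl M) (hN : NegData 𝒜 κ hB C P) : Eqv (circY hB hN) (dblc (circPhi hB 𝒜)) (prY 𝒜 P) := fun z s => by
  show shift (4 * π * s) z.1.1 = shift (2 * π * (2 * s)) z.1.1
  ring_nf

/-- the antipode is equivariant -/
theorem circY_ant (hB : Bl M) (hN : NegData 𝒜 κ hB C P) : Eqv (circY hB hN) (circY hB hN) (antY 𝒜 P) := fun z s => by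
  refine Subtype.ext (Prod.ext rfl ?_)
  show -((rt N).r (4 * π * s) z.1.2) = (rt N).r (4 * π * s) (-z.1.2)
  rw [map_neg]

/-- the inclusion of the unit sphere bundle of `N` -/
def jY (𝒜 : SDist n M) (P : Gs M → Eu N →L[ℝ] Eu N) : SMap (spN 𝒜 P) (spY 𝒜 P) :=
  ⟨fun z => ⟨(z.1.1, j0 z.1.2), inP3_j0.2 z.2.1, by
    show ‖j0 z.1.2‖ = 1
    rw [norm_j0]
    exact z.2.2⟩, fun _ p => ⟨p.2.1, (ContinuousLinearMap.contDiff (j0 (N := N))).comp p.2.2⟩⟩

theorem jY_pr (𝒜 : SDist n M) (P : Gs M → Eu N →L[ℝ] Eu N) : (prY 𝒜 P).comp (jY 𝒜 P) = prN 𝒜 P := rfl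

theorem jY_eqv (hB : Bl M) (hN : NegData 𝒜 κ hB C P) : Eqv (dblc (circN hB hN)) (circY hB hN) (jY 𝒜 P) := fun z s => by
  refine Subtype.ext (Prod.ext ?_ ?_)
  · show shift (2 * π * (2 * s)) z.1.1 = shift (4 * π * s) z.1.1
    ring_nf
  · show j0 z.1.2 = (rt N).r (4 * π * s) (j0 z.1.2)
    rw [rt_j0]

end space

end Pool.Agent.Lib.MP_ccbbf6_gt.K7.RG
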