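import Pool.Agent.Lib.MP_ccbbf6_gt.K7.RG3
import Pool.Agent.Lib.MP_ccbbf6_gt.L5.NG

/-!
# `κ = 7`, block G3, part 7: the negative bundle with an explicit section, the input `GKer` of block G1/G2 (helper93)

* `exists_negK` : `NegData` for every family whose quadratic form is `QW (kf e Φ ξ)`;
* `JG`, `LamG`, `GKer` : the twisted densities `kG`.
* `rotX_lin` : the rotation family of a linear `K`-valued section, `LamR_gw`.
-/

set_option autoImplicit false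
set_option linter.unusedSectionVars false

open Set Filter Topology Metric Real Module
open scoped ContDiff RealInnerProductSpace

noncomputable section

namespace Pool.Agent.Lib.MP_ccbbf6_gt.K7.RG

open L4 Geo L4.ORI L5 L5.NEG

variable {n : ℕ} {M : Type*} [MetricSpace M] [CompactSpace M] {𝒜 : SDist n M}

/-! ### the negative bundle -/

private theorem rg7_coercive {E : Type*} [NormedAddCommGroup E] [NormedSpace ℝ E] [ProperSpace E]
    (B : E →L[ℝ] E →L[ℝ] ℝ) (h : ∀ ξ, ξ ≠ 0 → 0 < B ξ ξ) :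
    ∃ m : ℝ, 0 < m ∧ ∀ ξ, m * ‖ξ‖ ^ 2 ≤ B ξ ξ := by
  have hcont : Continuous fun ξ : E => B ξ ξ :=
    (isBoundedBilinearMap_apply.continuous.comp (B.continuous.prodMk continuous_id) :)
  rcases (Metric.sphere (0 : E) 1).eq_empty_or_nonempty with he | hne
  · refine ⟨1, one_pos, fun ξ => ?_⟩
    have h0 : ξ = 0 := by
      by_contra hξ
      have hn : ‖ξ‖ ≠ 0 := norm_ne_zero_iff.2 hξ
      have : ‖ξ‖⁻¹ • ξ ∈ Metric.sphere (0 : E) 1 := by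
        rw [mem_sphere_zero_iff_norm, norm_smul, norm_inv, norm_norm, inv_mul_cancel₀ hn]
      rw [he] at this
      exact this
    rw [h0, norm_zero, map_zero]
    simp
  · obtain ⟨ξ₀, hξ₀, hmin⟩ := (isCompact_sphere (0 : E) 1).exists_isMinOn hne hcont.continuousOn
    have hξ₀n : ‖ξ₀‖ = 1 := mem_sphere_zero_iff_norm.1 hξ₀
    have hξ₀0 : ξ₀ ≠ 0 := by
      intro h0
      rw [h0, norm_zero] at hξ₀n
      exact zero_ne_one hξ₀n
    refine ⟨B ξ₀ ξ₀, h ξ₀ hξ₀0, fun ξ => ?_⟩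
    rcases eq_or_ne ξ 0 with h0 | hξ
    · rw [h0, norm_zero, map_zero]
      simp
    · have hn : ‖ξ‖ ≠ 0 := norm_ne_zero_iff.2 hξ
      have hs : ‖ξ‖⁻¹ • ξ ∈ Metric.sphere (0 : E) 1 := by
        rw [mem_sphere_zero_iff_norm, norm_smul, norm_inv, norm_norm, inv_mul_cancel₀ hn]
      have h1 : B ξ₀ ξ₀ ≤ B (‖ξ‖⁻¹ • ξ) (‖ξ‖⁻¹ • ξ) := hmin hs
      have h2 : B (‖ξ‖⁻¹ • ξ) (‖ξ‖⁻¹ • ξ) = ‖ξ‖⁻¹ * (‖ξ‖⁻¹ * B ξ ξ) := by
        rw [map_smul, map_smul, smul_apply, smul_eq_mul, smul_eq_mul]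
      rw [h2] at h1
      have h3 : 0 < ‖ξ‖ ^ 2 := by positivity
      calc B ξ₀ ξ₀ * ‖ξ‖ ^ 2 ≤ (‖ξ‖⁻¹ * (‖ξ‖⁻¹ * B ξ ξ)) * ‖ξ‖ ^ 2 := mul_le_mul_of_nonneg_right h1 h3.le
        _ = B ξ ξ := by field_simp

private theorem rg7_cont {X G : Type*} [TopologicalSpace X] [NormedAddCommGroup G] {B : X → G}
    (hB : Continuous B) (x₀ : X) (ε : ℝ) (hε : 0 < ε) : ∀ᶠ x in 𝓝 x₀, ‖B x - B x₀‖ < ε := by
  have hc : Continuous fun x => ‖B x - B x₀‖ := (hB.sub continuous_const).norm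
  refine (hc.tendsto x₀).eventually (Iio_mem_nhds ?_)
  rw [sub_self, norm_zero]
  exact hε

private theorem rg7_near {X E : Type*} [TopologicalSpace X] [NormedAddCommGroup E] [NormedSpace ℝ E] [ProperSpace E]
    {B : X → E →L[ℝ] E →L[ℝ] ℝ}
    (x₀ : X) (hB : ∀ ε : ℝ, 0 < ε → ∀ᶠ x in 𝓝 x₀, ‖B x - B x₀‖ < ε) (h : ∀ ξ, ξ ≠ 0 → 0 < B x₀ ξ ξ) :
    ∃ δ : ℝ, 0 < δ ∧ ∀ᶠ x in 𝓝 x₀, ∀ ξ, δ * ‖ξ‖ ^ 2 ≤ B x ξ ξ := by
  obtain ⟨m, hm, hmB⟩ := rg7_coercive (B x₀) h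
  refine ⟨m / 2, half_pos hm, ?_⟩
  refine (hB (m / 2) (half_pos hm)).mono fun x hx ξ => ?_
  have h2 : |(B x - B x₀) ξ ξ| ≤ ‖B x - B x₀‖ * ‖ξ‖ * ‖ξ‖ := by
    rw [← Real.norm_eq_abs]
    exact (B x - B x₀).le_opNorm₂ ξ ξ
  have h3 : (B x - B x₀) ξ ξ = B x ξ ξ - B x₀ ξ ξ := by
    rw [sub_apply, sub_apply]
  rw [h3] at h2
  have h4 : ‖B x - B x₀‖ * ‖ξ‖ * ‖ξ‖ ≤ m / 2 * ‖ξ‖ ^ 2 := by
    rw [mul_assoc, ← pow_two]
    exact mul_le_mul_of_nonneg_right hx.le (by positivity)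
  have h5 := hmB ξ
  have h6 := (abs_le.1 (le_trans h2 h4)).1
  linarith

private theorem rg7_min {X : Type*} (t : Finset X) (f : X → ℝ) (hf : ∀ x, 0 < f x) :
    ∃ δ : ℝ, 0 < δ ∧ ∀ x ∈ t, δ ≤ f x := by
  classical
  induction t using Finset.induction_on with
  | empty => exact ⟨1, one_pos, fun x hx => absurd hx (Finset.notMem_empty x)⟩
  | insert a s _ ih =>
    obtain ⟨δ, hδ, h⟩ := ih
    refine ⟨min δ (f a), lt_min hδ (hf a), fun x hx => ?_⟩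
    rcases Finset.mem_insert.1 hx with rfl | hx
    · exact min_le_right _ _
    · exact le_trans (min_le_left _ _) (h x hx)

private theorem rg7_split (ι : Type) [Fintype ι] [DecidableEq ι] (κ : ℕ) :
    ∃ (N : ℕ) (inj : ι → Eu κ →ₗ[ℝ] Eu N) (pr : ι → Eu N →L[ℝ] Eu κ),
      (∀ i ξ, pr i (inj i ξ) = ξ) ∧ (∀ i j ξ, i ≠ j → pr i (inj j ξ) = 0) ∧ ∀ i ξ, ‖inj i ξ‖ = ‖ξ‖ := by
  let φ : ι × Fin κ ≃ Fin (Fintype.card (ι × Fin κ)) := Fintype.equivFin _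
  let inj : ι → Eu κ →ₗ[ℝ] Eu (Fintype.card (ι × Fin κ)) := fun j =>
    { toFun := fun ξ => WithLp.toLp 2 fun k => if (φ.symm k).1 = j then ξ (φ.symm k).2 else 0
      map_add' := by
        intro ξ η
        ext k
        simp only [PiLp.add_apply]
        split_ifs <;> simp
      map_smul' := by
        intro c ξ
        ext k
        simp only [PiLp.smul_apply, RingHom.id_apply, smul_eq_mul]
        split_ifs <;> simp }
  let pr : ι → Eu (Fintype.card (ι × Fin κ)) →ₗ[ℝ] Eu κ := fun j =>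
    { toFun := fun x => WithLp.toLp 2 fun a => x (φ (j, a))
      map_add' := by
        intro ξ η
        ext k
        simp
      map_smul' := by
        intro c ξ
        ext k
        simp }
  refine ⟨_, inj, fun j => (pr j).toContinuousLinearMap, fun i ξ => ?_, fun i j ξ hij => ?_, fun i ξ => ?_⟩
  · ext a
    change (if (φ.symm (φ (i, a))).1 = i then ξ (φ.symm (φ (i, a))).2 else 0) = ξ a
    rw [Equiv.symm_apply_apply, if_pos rfl]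
  · ext a
    change (if (φ.symm (φ (i, a))).1 = j then ξ (φ.symm (φ (i, a))).2 else 0) = 0
    rw [Equiv.symm_apply_apply, if_neg hij]
  · rw [EuclideanSpace.norm_eq, EuclideanSpace.norm_eq]
    congr 1
    have e1 : ∑ k, ‖(inj i ξ) k‖ ^ 2 = ∑ p : ι × Fin κ, ‖(if p.1 = i then ξ p.2 else 0 : ℝ)‖ ^ 2 := by
      rw [← φ.sum_comp]
      refine Finset.sum_congr rfl fun p _ => ?_
      change ‖(if (φ.symm (φ p)).1 = i then ξ (φ.symm (φ p)).2 else 0 : ℝ)‖ ^ 2 = _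
      rw [Equiv.symm_apply_apply]
    rw [e1, Fintype.sum_prod_type, Finset.sum_eq_single i]
    · refine Finset.sum_congr rfl fun a _ => ?_
      rw [if_pos rfl]
    · intro j _ hj
      refine Finset.sum_eq_zero fun a _ => ?_
      rw [if_neg hj, norm_zero]
      norm_num
    · intro h
      exact absurd (Finset.mem_univ i) h

/-- `exists_pos` with an explicit section -/
theorem exists_posK [Nonempty (Gs M)] (hB : Bl M) (e : Emb n 𝒜) {κ : ℕ} (hk : 𝒜.HK κ) :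
    ∃ (N : ℕ) (Φ : e.Q → (Eu N →L[ℝ] EuclideanSpace ℝ (Fin e.q))) (δ : ℝ), ContDiff ℝ ∞ Φ ∧ 0 < δ ∧
      ∀ c, ∃ W : Submodule ℝ (Eu N), finrank ℝ W = κ ∧ ∀ ξ ∈ W, δ * ‖ξ‖ ^ 2 ≤ QW 𝒜 hB (kf e Φ ξ) c := by
  classical
  -- one geodesic
  have h1 : ∀ c₀ : Gs M, ∃ (h : e.Q → ℝ) (b : Eu κ →L[ℝ] EuclideanSpace ℝ (Fin e.q)) (δ : ℝ) (U : Set (Gs M)),
      ContDiff ℝ ∞ h ∧ 0 < δ ∧ U ∈ 𝓝 c₀ ∧ ∀ c ∈ U, ∀ ξ, δ * ‖ξ‖ ^ 2 ≤ QW 𝒜 hB (kf e (fun y => h y • b) ξ) c := by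
    intro c₀
    obtain ⟨h, b, hh, hpos⟩ := bump_pos e hB hk c₀
    have hΦ : ContDiff ℝ ∞ (fun y : e.Q => h y • b) := hh.smul contDiff_const
    obtain ⟨C, hC, hQ⟩ := pfam_kf hB e hk hΦ
    have hcont : Continuous (QB 𝒜 C) := SmF.continuous hB e (hC.QB_smooth hB e)
    have hcc : ∀ ε : ℝ, 0 < ε → ∀ᶠ x in 𝓝 c₀, ‖QB 𝒜 C x - QB 𝒜 C c₀‖ < ε :=
      rg7_cont (G := Eu κ →L[ℝ] Eu κ →L[ℝ] ℝ) (B := QB 𝒜 C) hcont c₀
    obtain ⟨δ, hδ, hev⟩ := rg7_near c₀ hcc (fun ξ hξ => by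
      rw [hQ]
      exact hpos ξ hξ)
    refine ⟨h, b, δ, {c | ∀ ξ, δ * ‖ξ‖ ^ 2 ≤ QB 𝒜 C c ξ ξ}, hh, hδ, hev, fun c hc ξ => ?_⟩
    rw [← hQ]
    exact hc ξ
  choose h b δ U hh hδ hU hpos using h1
  obtain ⟨t, ht⟩ := (CompactSpace.isCompact_univ (X := Gs M)).elim_nhds_subcover U (fun c _ => hU c)
  obtain ⟨δ₀, hδ₀, hδt⟩ := rg7_min t δ hδ
  obtain ⟨m, ⟨ψ⟩⟩ := Finite.exists_equiv_fin t
  obtain ⟨N, inj, pr, hpi, hpj, hni⟩ := rg7_split (Fin m) κ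
  let g : Fin m → Gs M := fun i => (ψ.symm i : t)
  let Φ : e.Q → (Eu N →L[ℝ] EuclideanSpace ℝ (Fin e.q)) := fun y => ∑ i, h (g i) y • (b (g i)).comp (pr i)
  have hΦ : ContDiff ℝ ∞ Φ := ContDiff.sum fun i _ => (hh (g i)).smul contDiff_const
  have hΦi : ∀ (y : e.Q) (j : Fin m) (ξ : Eu κ), Φ y (inj j ξ) = (h (g j) y • b (g j)) ξ := by
    intro y j ξ
    change (∑ i, h (g i) y • (b (g i)).comp (pr i)) (inj j ξ) = _
    rw [sum_apply, Finset.sum_eq_single j]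
    · rw [smul_apply, ContinuousLinearMap.comp_apply, hpi, smul_apply]
    · intro i _ hij
      rw [smul_apply, ContinuousLinearMap.comp_apply, hpj i j ξ hij, map_zero, smul_zero]
    · intro hj
      exact absurd (Finset.mem_univ j) hj
  have hkf : ∀ (j : Fin m) (ξ : Eu κ), kf e Φ (inj j ξ) = kf e (fun y => h (g j) y • b (g j)) ξ := by
    intro j ξ
    funext c
    change Hc 𝒜 c (Dr e (c.1 0) (Φ (e.EE c) (inj j ξ))) = Hc 𝒜 c (Dr e (c.1 0) ((h (g j) (e.EE c) • b (g j)) ξ))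
    rw [hΦi]
  refine ⟨N, Φ, δ₀, hΦ, hδ₀, fun c => ?_⟩
  have hc : c ∈ ⋃ x ∈ t, U x := ht.2 (Set.mem_univ c)
  obtain ⟨x, hxt, hcx⟩ := Set.mem_iUnion₂.1 hc
  have hgx : g (ψ ⟨x, hxt⟩) = x := by
    change ((ψ.symm (ψ ⟨x, hxt⟩) : t) : Gs M) = x
    rw [Equiv.symm_apply_apply]
  refine ⟨LinearMap.range (inj (ψ ⟨x, hxt⟩)), ?_, ?_⟩
  · rw [LinearMap.finrank_range_of_inj, finrank_euclideanSpace_fin]
    intro ξ η hξη
    have := congrArg (pr (ψ ⟨x, hxt⟩)) hξη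
    rwa [hpi, hpi] at this
  · rintro _ ⟨ξ, rfl⟩
    rw [hkf, hni, hgx]
    exact le_trans (mul_le_mul_of_nonneg_right (hδt x hxt) (by positivity)) (hpos x c hcx ξ)


/-- the negative bundle only depends on the quadratic form -/
theorem NegData.congr [Nonempty (Gs M)] {N κ : ℕ} {hB : Bl M} (e : Emb n 𝒜) (hk : 𝒜.HK κ) {C C' : Eu N → Gs M → M}
    {P : Gs M → Eu N →L[ℝ] Eu N} (hN : NegData 𝒜 κ hB C P) (hC : PFam 𝒜 C')
    (h : ∀ c ξ, QB 𝒜 C' c ξ ξ = QB 𝒜 C c ξ ξ) : NegData 𝒜 κ hB C' P := by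
  obtain ⟨δ, hδ, hp⟩ := hN.pos
  refine ⟨hC, hN.smooth, hN.idem, hN.symm, hN.rank, hN.inv, ⟨δ, hδ, fun c ξ hξ => ?_⟩, fun c ξ hξ h0 => ?_⟩
  · rw [h]
    exact hp c ξ hξ
  · by_contra hne
    have h1 := QB_nonpos hB hk e hC h0
    rw [h] at h1
    have h2 := hp c ξ hξ
    have h3 : 0 < ‖ξ‖ ^ 2 := by
      have := norm_pos_iff.mpr hne
      positivity
    nlinarith

/-- `exists_neg` for a family with positive directions -/
theorem neg_of_pos [Nonempty (Gs M)] (hB : Bl M) (e : Emb n 𝒜) {κ : ℕ} (hk : 𝒜.HK κ) {N : ℕ} {C : Eu N → Gs M → M} {δ : ℝ}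
    (hC : PFam 𝒜 C) (hδ : 0 < δ)
    (hW : ∀ c, ∃ W : Submodule ℝ (Eu N), finrank ℝ W = κ ∧ ∀ ξ ∈ W, δ * ‖ξ‖ ^ 2 ≤ QB 𝒜 C c ξ ξ) :
    ∃ P : Gs M → Eu N →L[ℝ] Eu N, NegData 𝒜 κ hB C P := by
  obtain ⟨A, hAd⟩ : ∃ A : Gs M → Eu N →L[ℝ] Eu N, A = fun c => NEG.QO 𝒜 C c - (δ / 2) • ContinuousLinearMap.id ℝ (Eu N) := ⟨_, rfl⟩
  have hAi : ∀ c x y, ⟪A c x, y⟫ = QB 𝒜 C c x y - δ / 2 * ⟪x, y⟫ := by
    intro c x y
    rw [hAd]
    show ⟪NEG.QO 𝒜 C c x - (δ / 2) • x, y⟫ = _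
    rw [inner_sub_left, QO_inner, real_inner_smul_left]
  have hSy : ∀ c, SPE.Sy (A c) := by
    intro c x y
    rw [hAi, real_inner_comm (A c y) x, hAi, hC.QB_symm hB e c x y, real_inner_comm x y]
  have hdim : ∀ c (W : Submodule ℝ (Eu N)), (∀ ξ ∈ W, ξ ≠ 0 → 0 < QB 𝒜 C c ξ ξ) → finrank ℝ W ≤ κ := fun c W h =>
    finrank_pos_le hB hk e hC c W h
  -- positivity on the positive part
  have hpos : ∀ c, ∀ x ∈ SPE.posV (A c), δ / 2 * ‖x‖ ^ 2 ≤ QB 𝒜 C c x x := by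
    intro c x hx
    by_cases h0 : x = 0
    · rw [h0]
      simp
    · have h1 := SPE.posV_pos (hSy c) hx h0
      rw [hAi, real_inner_self_eq_norm_sq] at h1
      linarith
  have hle : ∀ c, finrank ℝ (SPE.posV (A c)) ≤ κ := by
    intro c
    refine hdim c _ fun ξ hξ h0 => ?_
    have h1 := hpos c ξ hξ
    have h2 : 0 < ‖ξ‖ := norm_pos_iff.mpr h0
    have : 0 < δ / 2 * ‖ξ‖ ^ 2 := by positivity
    linarith
  -- a negative vector of the orthogonal complement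
  have hneg : ∀ c, ∀ x ∈ (SPE.posV (A c))ᗮ, QB 𝒜 C c x x ≤ δ / 2 * ‖x‖ ^ 2 := by
    intro c x hx
    have h1 := SPE.posV_neg (hSy c) hx
    rw [hAi, real_inner_self_eq_norm_sq] at h1
    linarith
  have hge : ∀ c, κ ≤ finrank ℝ (SPE.posV (A c)) := by
    intro c
    obtain ⟨W, hW1, hW2⟩ := hW c
    by_contra hlt
    push Not at hlt
    -- `W` meets the complement
    have h1 : finrank ℝ W + finrank ℝ (SPE.posV (A c))ᗮ > finrank ℝ (Eu N) := by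
      have h2 := Submodule.finrank_add_finrank_orthogonal (SPE.posV (A c))
      omega
    have h3 : W ⊓ (SPE.posV (A c))ᗮ ≠ ⊥ := by
      intro hbot
      have h4 := Submodule.finrank_sup_add_finrank_inf_eq W (SPE.posV (A c))ᗮ
      rw [hbot, finrank_bot] at h4
      have h5 := Submodule.finrank_le (W ⊔ (SPE.posV (A c))ᗮ)
      omega
    obtain ⟨x, hx, hx0⟩ := Submodule.exists_mem_ne_zero_of_ne_bot h3
    rw [Submodule.mem_inf] at hx
    have h6 := hW2 x hx.1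
    have h7 := hneg c x hx.2
    have h8 : 0 < ‖x‖ ^ 2 := by
      have := norm_pos_iff.mpr hx0
      positivity
    nlinarith
  have hrank : ∀ c, finrank ℝ (SPE.posV (A c)) = κ := fun c => le_antisymm (hle c) (hge c)
  -- `A c` is injective
  have hinj : ∀ c, Function.Injective (A c) := by
    intro c
    rw [injective_iff_map_eq_zero]
    intro x hx
    by_contra hx0
    have hxn : x ∉ SPE.posV (A c) := fun h => by
      have h1 := SPE.posV_pos (hSy c) h hx0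
      rw [hx, inner_zero_left] at h1
      exact lt_irrefl _ h1
    have h1 : finrank ℝ (SPE.posV (A c) ⊔ Submodule.span ℝ {x} : Submodule ℝ (Eu N)) ≤ κ := by
      refine hdim c _ fun y hy hy0 => ?_
      obtain ⟨p, hp, q, hq, rfl⟩ := Submodule.mem_sup.1 hy
      obtain ⟨r, rfl⟩ := Submodule.mem_span_singleton.1 hq
      have h2 : 0 ≤ ⟪A c p, p⟫ := by
        by_cases h0 : p = 0
        · rw [h0, inner_zero_right]
        · exact (SPE.posV_pos (hSy c) hp h0).le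
      have h3 : ⟪A c (p + r • x), p + r • x⟫ = ⟪A c p, p⟫ := by
        rw [map_add, map_smul, hx, smul_zero, add_zero, inner_add_right, real_inner_smul_right, hSy c p x, hx, inner_zero_right,
          mul_zero, add_zero]
      have h4 := hAi c (p + r • x) (p + r • x)
      rw [h3, real_inner_self_eq_norm_sq] at h4
      have h5 : 0 < ‖p + r • x‖ ^ 2 := by
        have := norm_pos_iff.mpr hy0
        positivity
      nlinarith
    have h2 := Submodule.finrank_sup_add_finrank_inf_eq (SPE.posV (A c)) (Submodule.span ℝ {x})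
    have h3 : SPE.posV (A c) ⊓ Submodule.span ℝ {x} = ⊥ := by
      rw [Submodule.eq_bot_iff]
      intro y hy
      obtain ⟨hy1, hy2⟩ := Submodule.mem_inf.1 hy
      obtain ⟨r, rfl⟩ := Submodule.mem_span_singleton.1 hy2
      by_cases hr : r = 0
      · rw [hr, zero_smul]
      · exact absurd ((Submodule.smul_mem_iff _ hr).1 hy1) hxn
    rw [h3, finrank_bot, finrank_span_singleton hx0, hrank c] at h2
    omega
  refine ⟨fun c => SPE.posP (A c), ⟨hC, ?_, ?_, ?_, ?_, ?_, ?_, ?_⟩⟩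
  · intro F _ _ σ u hσ
    refine SPE.posP_smooth ?_ (fun v => hSy _) (hinj _)
    rw [hAd]
    have h1 := hC.QB_smooth hB e hσ
    unfold NEG.QO
    refine ContDiffAt.sub (ContDiffAt.sum fun i _ => ?_) contDiffAt_const
    refine contDiffAt_clm_apply_iff.2 fun y => ?_
    show ContDiffAt ℝ ∞ (fun v => QB 𝒜 C (σ v) y (EuclideanSpace.single i (1 : ℝ)) • EuclideanSpace.single i (1 : ℝ)) u
    exact ((h1.clm_apply contDiffAt_const).clm_apply contDiffAt_const).smul contDiffAt_const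
  · intro c x
    exact Submodule.starProjection_eq_self_iff.2 (Submodule.starProjection_apply_mem _ _)
  · intro c x y
    exact Submodule.inner_starProjection_left_eq_right _ _ _
  · intro c
    have : LinearMap.range (SPE.posP (A c) : Eu N →ₗ[ℝ] Eu N) = SPE.posV (A c) := Submodule.range_starProjection _
    rw [this]
    exact hrank c
  · intro t c
    have : A (shift t c) = A c := by
      rw [hAd]
      simp only
      unfold NEG.QO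
      rw [QB_shift 𝒜 hB]
    simp only [this]
  · refine ⟨δ / 2, by positivity, fun c ξ hξ => hpos c ξ ?_⟩
    rw [← hξ]
    exact Submodule.starProjection_apply_mem _ _
  · intro c ξ hξ h0
    by_contra hne
    have h1 := QB_nonpos hB hk e hC h0
    have h2 := hpos c ξ (by rw [← hξ]; exact Submodule.starProjection_apply_mem _ _)
    have h3 : 0 < ‖ξ‖ ^ 2 := by
      have := norm_pos_iff.mpr hne
      positivity
    nlinarith


/-- **the negative bundle with an explicit section** -/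
theorem exists_negK [Nonempty (Gs M)] (hB : Bl M) (e : Emb n 𝒜) {κ : ℕ} (hk : 𝒜.HK κ) :
    ∃ (N : ℕ) (Φ : e.Q → (Eu N →L[ℝ] EuclideanSpace ℝ (Fin e.q))) (P : Gs M → Eu N →L[ℝ] Eu N), ContDiff ℝ ∞ Φ ∧
      ∀ C : Eu N → Gs M → M, PFam 𝒜 C → (∀ c ξ, QB 𝒜 C c ξ ξ = QW 𝒜 hB (kf e Φ ξ) c) → NegData 𝒜 κ hB C P := by
  obtain ⟨N, Φ, δ, hΦ, hδ, hW⟩ := exists_posK hB e hk
  obtain ⟨C, hC, hQ⟩ := pfam_kf hB e hk hΦ
  obtain ⟨P, hP⟩ := neg_of_pos hB e hk hC hδ (fun c => by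
    obtain ⟨W, h1, h2⟩ := hW c
    refine ⟨W, h1, fun ξ hξ => ?_⟩
    rw [hQ]
    exact h2 ξ hξ)
  refine ⟨N, Φ, P, hΦ, fun C' hC' hQ' => NegData.congr e hk hP hC' fun c ξ => ?_⟩
  rw [hQ', hQ]

/-! ### the twisted densities -/

/-- the derivative at time `0` of the rotation about `c b` in the direction `w` -/
def JG (𝒜 : SDist n M) (hB : Bl M) (c : Gs M) (b : ℝ) (w : Eu n) : Eu n :=
  deriv (fun τ : ℝ => 𝒜.ψ (c.1 0) ((gw 𝒜 hB (shift b c) (𝒜.vel (shift b c).1 0 + τ • w)).1 (-b))) 0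

/-- the density of the form of `kG` -/
def LamG (𝒜 : SDist n M) (hB : Bl M) {N : ℕ} (kG : Eu N → Eu N → Gs M → Eu n) (c : Gs M) (x y : Eu N) : ℝ :=
  -∫ b in (0 : ℝ)..π, ⟪kG x y c, JG 𝒜 hB c b (kG (Real.cos (b / 2) • x - Real.sin (b / 2) • y)
    (Real.sin (b / 2) • x + Real.cos (b / 2) • y) (shift b c))⟫

/-- **the output of blocks G1, G2**: twisted densities with positive form -/
structure GKer (𝒜 : SDist n M) (hB : Bl M) {N : ℕ} (P : Gs M → Eu N →L[ℝ] Eu N) (kG : Eu N → Eu N → Gs M → Eu n) : Prop where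
  add : ∀ x x' y y' c, kG (x + x') (y + y') c = kG x y c + kG x' y' c
  smul : ∀ (r : ℝ) x y c, kG (r • x) (r • y) c = r • kG x y c
  mem : ∀ x y c, kG x y c ∈ Kc 𝒜 c
  smooth : ∀ {F : Type} [NormedAddCommGroup F] [NormedSpace ℝ F] {σ : F → Gs M} {x y : F → Eu N} {u : F} {p : M},
    SmGAt 𝒜 σ u → ContDiffAt ℝ ∞ x u → ContDiffAt ℝ ∞ y u → (σ u).1 0 ∈ (𝒜.ψ p).source →
    SmV 𝒜 p (fun v => (σ v).1 0) (fun v => kG (x v) (y v) (σ v)) u
  pos : ∃ ρ : ℝ, 0 < ρ ∧ ∀ c x y, P c x = x → P c y = y → ρ * (‖x‖ ^ 2 + ‖y‖ ^ 2) ≤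
    ∫ s in (0 : ℝ)..(4 * π), LamG 𝒜 hB kG (shift s c) (Real.cos (s / 2) • x - Real.sin (s / 2) • y)
      (Real.sin (s / 2) • x + Real.cos (s / 2) • y)

/-! ### rotation families of linear sections -/

variable {E : Type} [NormedAddCommGroup E] [NormedSpace ℝ E]

theorem wne_of_mem {c : Gs M} {k : Eu n} (hk : k ∈ Kc 𝒜 c) : 𝒜.vel c.1 0 + k ≠ 0 := by
  intro h3
  have h1 : ‖𝒜.vel c.1 0 + k‖ ^ 2 = 1 + ‖k‖ ^ 2 := by
    rw [norm_add_sq_real, (mem_Kc_iff.1 hk).2, vel_norm 𝒜 c]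
    ring
  rw [h3, norm_zero] at h1
  have h4 : 0 ≤ ‖k‖ ^ 2 := sq_nonneg _
  linarith

/-- the rotation family of a linear section -/
def rotk (𝒜 : SDist n M) (hB : Bl M) (k : E → Gs M → Eu n) (x : E) (c : Gs M) : Gs M := gw 𝒜 hB c (𝒜.vel c.1 0 + k x c)

theorem rotX_lin (hB : Bl M) {k : E → Gs M → Eu n} (hm : ∀ x c, k x c ∈ Kc 𝒜 c) (hs : ∀ (a : ℝ) x c, k (a • x) c = a • k x c)
    (hk : ∀ {F : Type} [NormedAddCommGroup F] [NormedSpace ℝ F] {σ : F → Gs M} {x : F → E} {u : F} {p : M},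
      SmGAt 𝒜 σ u → ContDiffAt ℝ ∞ x u → (σ u).1 0 ∈ (𝒜.ψ p).source →
      SmV 𝒜 p (fun v => (σ v).1 0) (fun v => k (x v) (σ v)) u) : RotX 𝒜 k (rotk 𝒜 hB k) := by
  refine ⟨?_, ?_, ?_, ?_, ?_, hs⟩
  · intro F _ _ σ x u hσ hx
    have hp : (σ u).1 0 ∈ (𝒜.ψ ((σ u).1 0)).source := 𝒜.mem _
    have hσ' : SmGA 𝒜 σ u := hσ
    have h1 : SmV 𝒜 ((σ u).1 0) (fun v => (σ v).1 0) (fun v => 𝒜.vel (σ v).1 0) u := hσ'.smV hB hp
    exact smGA_gw hB hσ.1 hp (h1.add (hk hσ hx hp)) (wne_of_mem (hm (x u) (σ u)))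
  · intro c
    have h0 : k 0 c = 0 := by
      have h := hs 0 0 c
      rwa [zero_smul, zero_smul] at h
    show gw 𝒜 hB c (𝒜.vel c.1 0 + k 0 c) = c
    rw [h0, add_zero]
    exact eq_of_vel' 𝒜 (gw_zero 𝒜 hB c _) (by rw [gw_vel 𝒜 hB c (vel_ne 𝒜 c), nrm_of_norm (vel_norm 𝒜 c)])
  · intro x c
    exact gw_zero 𝒜 hB c _
  · intro x c
    exact top_of_mem 𝒜 hB c (wne_of_mem (hm x c)) ((𝒜.PV _ _).add_mem (mem_PV_self 𝒜 hB _ _) (mem_Kc_iff.1 (hm x c)).1)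
  · intro x c
    have h2 := wne_of_mem (hm x c)
    refine ⟨‖𝒜.vel c.1 0 + k x c‖, norm_pos_iff.2 h2, ?_⟩
    show 𝒜.vel c.1 0 + k x c = ‖𝒜.vel c.1 0 + k x c‖ • 𝒜.vel (gw 𝒜 hB c (𝒜.vel c.1 0 + k x c)).1 0
    rw [gw_vel 𝒜 hB c h2]
    unfold nrm
    rw [smul_smul, mul_inv_cancel₀ (norm_ne_zero_iff.2 h2), one_smul]

theorem JXr_rotk (hB : Bl M) {k : E → Gs M → Eu n} (hs : ∀ (a : ℝ) x c, k (a • x) c = a • k x c) (x : E) (c : Gs M) (b : ℝ) :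
    JXr 𝒜 (rotk 𝒜 hB k) x c b = JG 𝒜 hB c b (k x (shift b c)) := by
  unfold JXr JG rotk
  simp only [hs]

theorem LamR_rotk {E : Type} [NormedAddCommGroup E] [InnerProductSpace ℝ E] (hB : Bl M) (T : Rt E) {k : E → Gs M → Eu n} (hs : ∀ (a : ℝ) x c, k (a • x) c = a • k x c) (x : E) (c : Gs M) :
    LamR 𝒜 T k (rotk 𝒜 hB k) c x = -∫ b in (0 : ℝ)..π, ⟪k x c, JG 𝒜 hB c b (k (T.r b x) (shift b c))⟫ := by
  unfold LamR
  simp only [JXr_rotk hB hs]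

end Pool.Agent.Lib.MP_ccbbf6_gt.K7.RG
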