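import Pool.Agent.Lib.MP_ccbbf6_gt.K7.DP1
import Pool.Agent.Lib.MP_ccbbf6_gt.K7.RG5
import Pool.Agent.Lib.MP_ccbbf6_gt.K7.RG6
import Pool.Agent.Lib.MP_ccbbf6_gt.K7.RG7

/-!
# `κ = 7`, block G3, part 8: the joint family on `N ⊕ N ⊕ N`, its restriction to `N`, positivity (helper93)
-/

set_option autoImplicit false
set_option linter.unusedSectionVars false

open Set Filter Topology Metric Real Module
open scoped ContDiff RealInnerProductSpace

noncomputable section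

namespace Pool.Agent.Lib.MP_ccbbf6_gt.K7.RG

open L4 Geo L4.ORI L5 L5.NEG

variable {n : ℕ} {M : Type} [MetricSpace M] [CompactSpace M] {𝒜 : SDist n M} {N κ : ℕ}
  {P : Gs M → Eu N →L[ℝ] Eu N} {kG : Eu N → Eu N → Gs M → Eu n}

/-! ### the joint section -/

section joint

variable (e : Emb n 𝒜) (Φ : e.Q → (Eu N →L[ℝ] EuclideanSpace ℝ (Fin e.q))) (kG)

/-- the joint section -/
def kJ (z : Eu (N + (N + N))) (c : Gs M) : Eu n := kf e Φ (q0 z) c + kG (q1 z) (q2 z) c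

variable {e Φ kG} {hB : Bl M}

theorem GKer.zero (hG : GKer 𝒜 hB P kG) (c : Gs M) : kG 0 0 c = 0 := by
  have h := hG.smul 0 0 0 c
  rwa [zero_smul, zero_smul] at h

theorem kf_zero (c : Gs M) : kf e Φ 0 c = 0 := by
  have h := kf_smul e Φ 0 0 c
  rwa [zero_smul, zero_smul] at h

theorem kJ_smul (hG : GKer 𝒜 hB P kG) (a : ℝ) (z : Eu (N + (N + N))) (c : Gs M) : kJ kG e Φ (a • z) c = a • kJ kG e Φ z c := by
  unfold kJ
  rw [map_smul, map_smul, map_smul, kf_smul, hG.smul, smul_add]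

theorem kJ_mem (hG : GKer 𝒜 hB P kG) (z : Eu (N + (N + N))) (c : Gs M) : kJ kG e Φ z c ∈ Kc 𝒜 c :=
  (Kc 𝒜 c).add_mem (kf_mem e Φ _ c) (hG.mem _ _ c)

theorem kJ_j0 (hG : GKer 𝒜 hB P kG) (x : Eu N) (c : Gs M) : kJ kG e Φ (j0 x) c = kf e Φ x c := by
  unfold kJ
  rw [q0_j0, q1_j0, q2_j0, hG.zero, add_zero]

theorem kJ_q0 {z : Eu (N + (N + N))} (hz : q0 z = 0) (c : Gs M) : kJ kG e Φ z c = kG (q1 z) (q2 z) c := by
  unfold kJ
  rw [hz, kf_zero, zero_add]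

theorem rotX_kJ (hk : 𝒜.HK κ) (hΦ : ContDiff ℝ ∞ Φ) (hG : GKer 𝒜 hB P kG) :
    RotX 𝒜 (kJ kG e Φ) (rotk 𝒜 hB (kJ kG e Φ)) := by
  refine rotX_lin hB (kJ_mem hG) (kJ_smul hG) ?_
  intro F _ _ σ x u p hσ hx hp
  have h0 : ContDiffAt ℝ ∞ (fun v => q0 (x v)) u := (ContinuousLinearMap.contDiff (q0 (N := N))).contDiffAt.comp u hx
  have h1 : ContDiffAt ℝ ∞ (fun v => q1 (x v)) u := (ContinuousLinearMap.contDiff (q1 (N := N))).contDiffAt.comp u hx
  have h2 : ContDiffAt ℝ ∞ (fun v => q2 (x v)) u := (ContinuousLinearMap.contDiff (q2 (N := N))).contDiffAt.comp u hx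
  exact (smV_kf e hB hk hΦ hσ h0 hp).add (hG.smooth hσ h1 h2 hp)

end joint

/-- the joint family -/
structure JFam (hB : Bl M) (e : Emb n 𝒜) (Φ : e.Q → (Eu N →L[ℝ] EuclideanSpace ℝ (Fin e.q))) (kG : Eu N → Eu N → Gs M → Eu n)
    (CR : Eu (N + (N + N)) → Gs M → M) : Prop where
  fam : PFamR 𝒜 (rt N) CR
  lam : ∀ c z, lam 𝒜 (rt N) CR c z z =
    -∫ b in (0 : ℝ)..π, ⟪kJ kG e Φ z c, JG 𝒜 hB c b (kJ kG e Φ ((rt N).r b z) (shift b c))⟫
  x1 : ∀ c z, X1 𝒜 CR c z = ∫ b in (0 : ℝ)..π, JG 𝒜 hB c b (kJ kG e Φ ((rt N).r b z) (shift b c))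

/-- the first variation of the push-off family of a flow (helper25, from `DP.first_var` of helper92) -/
theorem X1_of_flow [Nonempty (Gs M)] (hB : Bl M) {L : ℕ} {T : Rt (Eu L)} {e : Emb n 𝒜} {k : Eu L → Gs M → Eu n}
    {R : Eu L → Gs M → Gs M} (hR : RotX 𝒜 k R) {χ : e.Q → ℝ} {ρ : Eu L → ℝ} {Ξ : ℝ → Eu L → e.Q → e.Q}
    (h : PFlowR T e R χ ρ Ξ) (c : Gs M) (x : Eu L) :
    X1 𝒜 (fun ξ c => CX e Ξ ξ c) c x = ∫ b in (0 : ℝ)..π, JXr 𝒜 R (T.r b x) c b := by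
  have h1 : SmAt 𝒜 (fun ξ : Eu L => CX e Ξ ξ c) 0 := smooth_CR hB hR h (smGAt_const c (0 : Eu L)) contDiffAt_id
  have h2 := h1.2
  simp only [CR_zero hB hR h] at h2
  have hl : HasDerivAt (fun θ : ℝ => θ • x) x 0 := by
    have := (hasDerivAt_id (0 : ℝ)).smul_const x
    rwa [one_smul] at this
  have h3 : HasFDerivAt (fun ξ : Eu L => 𝒜.ψ (c.1 0) (CX e Ξ ξ c)) (X1 𝒜 (fun ξ c => CX e Ξ ξ c) c) ((fun θ : ℝ => θ • x) 0) := by
    show HasFDerivAt _ _ ((0 : ℝ) • x)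
    rw [zero_smul]
    exact (h2.differentiableAt (by simp)).hasFDerivAt
  have h4 : HasDerivAt (fun θ : ℝ => 𝒜.ψ (c.1 0) (CX e Ξ (θ • x) c)) (X1 𝒜 (fun ξ c => CX e Ξ ξ c) c x) 0 :=
    HasFDerivAt.comp_hasDerivAt (l := fun ξ : Eu L => 𝒜.ψ (c.1 0) (CX e Ξ ξ c)) (f := fun θ : ℝ => θ • x) (0 : ℝ) h3 hl
  exact h4.unique (DP.first_var hB hR h c x)

theorem exists_jfam [Nonempty (Gs M)] {hB : Bl M} {e : Emb n 𝒜} (hk : 𝒜.HK κ)
    {Φ : e.Q → (Eu N →L[ℝ] EuclideanSpace ℝ (Fin e.q))} (hΦ : ContDiff ℝ ∞ Φ) (hG : GKer 𝒜 hB P kG) :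
    ∃ CR : Eu (N + (N + N)) → Gs M → M, JFam hB e Φ kG CR := by
  have hR := rotX_kJ (e := e) hk hΦ hG
  obtain ⟨χ, ρ, Ξ, h⟩ := exists_pflowR (rt N) e hB hR
  obtain ⟨h1, h2⟩ := pfamR_of_flow hB hR h
  refine ⟨fun z c => CX e Ξ z c, h1, fun c z => ?_, fun c z => ?_⟩
  · rw [h2, LamR_rotk hB (rt N) (kJ_smul hG)]
  · rw [X1_of_flow hB hR h]
    simp only [JXr_rotk hB (kJ_smul hG)]

/-! ### the restriction -/

/-- the restriction to `N` -/
def resC (CR : Eu (N + (N + N)) → Gs M → M) : Eu N → Gs M → M := fun x c => CR (j0 x) c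

variable {CR : Eu (N + (N + N)) → Gs M → M}

theorem s2_res (c : Gs M) (x : Eu N) : s2 𝒜 (resC CR) c x = s2r 𝒜 (rt N) CR c (j0 x) := by
  unfold s2 s2r resC
  simp only [rt_j0]

/-- second derivative of a composition with a linear map -/
theorem fderiv2_comp {D F : Type*} [NormedAddCommGroup D] [NormedSpace ℝ D] [NormedAddCommGroup F] [NormedSpace ℝ F]
    {g : F → ℝ} (hg : ∀ z, ContDiffAt ℝ ∞ g z) (L : D →L[ℝ] F) (x y : D) :
    fderiv ℝ (fderiv ℝ (fun u => g (L u))) 0 x y = fderiv ℝ (fderiv ℝ g) 0 (L x) (L y) := by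
  have h1 : fderiv ℝ (fun u => g (L u)) = fun u => (fderiv ℝ g (L u)).comp L := by
    funext u
    have h2 : HasFDerivAt g (fderiv ℝ g (L u)) (L u) := ((hg (L u)).differentiableAt (by simp)).hasFDerivAt
    exact (h2.comp u L.hasFDerivAt).fderiv
  rw [h1]
  have h3 : ContDiffAt ℝ ∞ (fderiv ℝ g) (L 0) := (hg (L 0)).fderiv_right (by simp)
  have h4 : HasFDerivAt (fderiv ℝ g) (fderiv ℝ (fderiv ℝ g) (L 0)) (L 0) := (h3.differentiableAt (by simp)).hasFDerivAt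
  have h5 : HasFDerivAt (fun u => fderiv ℝ g (L u)) ((fderiv ℝ (fderiv ℝ g) (L 0)).comp L) 0 :=
    HasFDerivAt.comp (g := fderiv ℝ g) (f := fun u => L u) (0 : D) h4 L.hasFDerivAt
  have h6 : HasFDerivAt (fun u => (fderiv ℝ g (L u)).comp L)
      ((((ContinuousLinearMap.compL ℝ D F ℝ).flip L).comp ((fderiv ℝ (fderiv ℝ g) (L 0)).comp L))) 0 :=
    HasFDerivAt.comp (g := fun B : F →L[ℝ] ℝ => (ContinuousLinearMap.compL ℝ D F ℝ).flip L B)
      (f := fun u => fderiv ℝ g (L u)) (0 : D) (((ContinuousLinearMap.compL ℝ D F ℝ).flip L).hasFDerivAt) h5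
  rw [h6.fderiv, map_zero]
  rfl

theorem pfam_res (hB : Bl M) (h : PFamR 𝒜 (rt N) CR) : PFam 𝒜 (resC CR) := by
  have hj : ContDiff ℝ ∞ (fun x : Eu N => j0 x) := ContinuousLinearMap.contDiff (j0 (N := N))
  refine ⟨?_, ?_, ?_, ?_⟩
  · intro F _ _ σ ξ u hσ hξ
    exact h.smooth hσ (ξ := fun v => j0 (ξ v)) (hj.contDiffAt.comp u hξ)
  · intro c
    show CR (j0 0) c = c.1 0
    rw [map_zero]
    exact h.zero c
  · intro c ξ
    have h1 : X1 𝒜 (resC CR) c ξ = X1 𝒜 CR c (j0 ξ) := by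
      unfold X1
      have h2 : SmAt 𝒜 (fun z : Eu (N + (N + N)) => CR z c) 0 := h.smooth (smGAt_const c 0) contDiffAt_id
      have h3 := h2.2
      simp only [h.zero] at h3
      have h4 : HasFDerivAt (fun z : Eu (N + (N + N)) => 𝒜.ψ (c.1 0) (CR z c))
          (fderiv ℝ (fun z : Eu (N + (N + N)) => 𝒜.ψ (c.1 0) (CR z c)) 0) (j0 (0 : Eu N)) := by
        rw [map_zero]
        exact (h3.differentiableAt (by simp)).hasFDerivAt
      have h5 := HasFDerivAt.comp (g := fun z : Eu (N + (N + N)) => 𝒜.ψ (c.1 0) (CR z c)) (f := fun x : Eu N => j0 x) (0 : Eu N)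
        h4 (j0 (N := N)).hasFDerivAt
      simp only [Function.comp_def] at h5
      show fderiv ℝ (fun ξ => 𝒜.ψ (c.1 0) (CR (j0 ξ) c)) 0 ξ = _
      rw [h5.fderiv]
      rfl
    rw [h1]
    exact h.normal c _
  · intro c
    have h1 : s2 𝒜 (resC CR) c = fun x => s2r 𝒜 (rt N) CR c (j0 x) := funext fun x => s2_res c x
    have h4 : HasFDerivAt (s2r 𝒜 (rt N) CR c) (fderiv ℝ (s2r 𝒜 (rt N) CR c) 0) (j0 (0 : Eu N)) := by
      rw [map_zero]
      exact ((h.s2r_smooth0 hB c 0).differentiableAt (by simp)).hasFDerivAt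
    have h5 := HasFDerivAt.comp (g := s2r 𝒜 (rt N) CR c) (f := fun x : Eu N => j0 x) (0 : Eu N) h4 (j0 (N := N)).hasFDerivAt
    simp only [Function.comp_def] at h5
    rw [h1, h5.fderiv, h.first, ContinuousLinearMap.zero_comp]

theorem LamB_res (hB : Bl M) (h : PFamR 𝒜 (rt N) CR) (c : Gs M) (x y : Eu N) :
    LamB 𝒜 (resC CR) c x y = lam 𝒜 (rt N) CR c (j0 x) (j0 y) := by
  have h1 : s2 𝒜 (resC CR) c = fun x => s2r 𝒜 (rt N) CR c (j0 x) := funext fun x => s2_res c x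
  show (-(1 / 4) : ℝ) * fderiv ℝ (fderiv ℝ (s2 𝒜 (resC CR) c)) 0 x y =
    (-(1 / 4) : ℝ) * fderiv ℝ (fderiv ℝ (s2r 𝒜 (rt N) CR c)) 0 (j0 x) (j0 y)
  rw [h1, fderiv2_comp (fun z => h.s2r_smooth0 hB c z) j0 x y]

variable {hB : Bl M} {e : Emb n 𝒜} {Φ : e.Q → (Eu N →L[ℝ] EuclideanSpace ℝ (Fin e.q))}

theorem QB_res [Nonempty (Gs M)] (hG : GKer 𝒜 hB P kG) (h : JFam hB e Φ kG CR) (c : Gs M) (x : Eu N) :
    QB 𝒜 (resC CR) c x x = QW 𝒜 hB (kf e Φ x) c := by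
  rw [(pfam_res hB h.fam).QB_apply hB e]
  unfold QW
  refine intervalIntegral.integral_congr fun t _ => ?_
  rw [LamB_res hB h.fam, h.lam]
  unfold LamW
  congr 1
  refine intervalIntegral.integral_congr fun b _ => ?_
  rw [rt_j0, kJ_j0 hG, kJ_j0 hG]
  rfl

/-- twice the integral over a period -/
theorem int_two_per {f : ℝ → ℝ} (hf : Continuous f) (hp : ∀ t, f (t + 2 * π) = f t) :
    ∫ t in (0 : ℝ)..(4 * π), f t = 2 * ∫ t in (0 : ℝ)..(2 * π), f t := by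
  have h1 := intervalIntegral.integral_add_adjacent_intervals (hf.intervalIntegrable 0 (2 * π))
    (hf.intervalIntegrable (μ := MeasureTheory.volume) (2 * π) (4 * π))
  have h2 : ∫ t in (2 * π)..(4 * π), f t = ∫ t in (0 : ℝ)..(2 * π), f t := by
    have h3 := intervalIntegral.integral_comp_add_right (a := 0) (b := 2 * π) f (2 * π)
    simp only [hp] at h3
    rw [h3, zero_add, show (2 * π + 2 * π : ℝ) = 4 * π by ring]
  rw [← h1, h2]
  ring

/-- antiperiodic functions have integral zero -/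
theorem int_anti {f : ℝ → ℝ} (hf : Continuous f) (hp : ∀ t, f (t + 2 * π) = -f t) : ∫ t in (0 : ℝ)..(4 * π), f t = 0 := by
  have h1 := intervalIntegral.integral_add_adjacent_intervals (hf.intervalIntegrable 0 (2 * π))
    (hf.intervalIntegrable (μ := MeasureTheory.volume) (2 * π) (4 * π))
  have h2 : ∫ t in (2 * π)..(4 * π), f t = -∫ t in (0 : ℝ)..(2 * π), f t := by
    have h3 := intervalIntegral.integral_comp_add_right (a := 0) (b := 2 * π) f (2 * π)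
    simp only [hp] at h3
    rw [intervalIntegral.integral_neg, zero_add, show (2 * π + 2 * π : ℝ) = 4 * π by ring] at h3
    exact h3.symm
  rw [← h1, h2]
  ring

theorem BQ_res [Nonempty (Gs M)] (hB : Bl M) (e : Emb n 𝒜) (h : PFamR 𝒜 (rt N) CR) (c : Gs M) (x y : Eu N) :
    BQ 𝒜 (rt N) CR c (j0 x) (j0 y) = 2 * QB 𝒜 (resC CR) c x y := by
  rw [(pfam_res hB h).QB_apply hB e]
  unfold BQ
  have hc := h.cont_lam_orb hB e c (j0 x) (j0 y)
  rw [int_two_per hc fun t => ?_]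
  · congr 1
    refine intervalIntegral.integral_congr fun t _ => ?_
    rw [LamB_res hB h, rt_j0, rt_j0]
  · rw [rt_j0, rt_j0, rt_j0, rt_j0, shift_add, shift_per 𝒜 hB]

theorem BQ_cross [Nonempty (Gs M)] (hB : Bl M) (e : Emb n 𝒜) (h : PFamR 𝒜 (rt N) CR) (c : Gs M) (x : Eu N)
    {w : Eu (N + (N + N))} (hw : q0 w = 0) : BQ 𝒜 (rt N) CR c (j0 x) w = 0 := by
  unfold BQ
  refine int_anti (h.cont_lam_orb hB e c (j0 x) w) fun t => ?_
  have h1 : (rt N).r (t + 2 * π) w = -(rt N).r t w := by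
    rw [(rt N).add, rt_two_pi, hw]
    have h2 : mk3 0 (-q1 w) (-q2 w) = -w := by
      refine q_ext ?_ ?_ ?_
      · rw [q0_mk3, map_neg, hw, neg_zero]
      · rw [q1_mk3, map_neg]
      · rw [q2_mk3, map_neg]
    rw [h2, map_neg]
  have h3 := lam_smul' (𝒜 := 𝒜) (T := rt N) (C := CR) (shift t c) (-1) (j0 x) ((rt N).r t w)
  rw [neg_smul, one_smul, neg_one_mul] at h3
  rw [rt_j0, rt_j0, h1, shift_add, shift_per 𝒜 hB]
  exact h3

/-- the form on the twisted part -/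
theorem BQ_tw (h : JFam hB e Φ kG CR) (c : Gs M) {w : Eu (N + (N + N))} (hw : q0 w = 0) :
    BQ 𝒜 (rt N) CR c w w = ∫ s in (0 : ℝ)..(4 * π), LamG 𝒜 hB kG (shift s c)
      (Real.cos (s / 2) • q1 w - Real.sin (s / 2) • q2 w) (Real.sin (s / 2) • q1 w + Real.cos (s / 2) • q2 w) := by
  unfold BQ
  refine intervalIntegral.integral_congr fun s _ => ?_
  rw [h.lam]
  unfold LamG
  congr 1
  refine intervalIntegral.integral_congr fun b _ => ?_
  have h1 : q0 ((rt N).r s w) = 0 := by rw [rt_r, q0_rtr, hw]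
  have h2 : q0 ((rt N).r b ((rt N).r s w)) = 0 := by rw [rt_r, q0_rtr, h1]
  rw [kJ_q0 h1, kJ_q0 h2]
  simp only [rt_r, q1_rtr, q2_rtr]

/-- **positivity on the three copies of the negative bundle** -/
theorem pos_BQ [Nonempty (Gs M)] (hG : GKer 𝒜 hB P kG) (h : JFam hB e Φ kG CR) (hN : NegData 𝒜 κ hB (resC CR) P) :
    ∃ δ : ℝ, 0 < δ ∧ ∀ c z, P3 P c z = z → δ * ‖z‖ ^ 2 ≤ BQ 𝒜 (rt N) CR c z z := by
  obtain ⟨δ, hδ, h1⟩ := hN.pos
  obtain ⟨ρ, hρ, h2⟩ := hG.pos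
  refine ⟨min (2 * δ) ρ, lt_min (by positivity) hρ, fun c z hz => ?_⟩
  have hz' : P c (q0 z) = q0 z ∧ P c (q1 z) = q1 z ∧ P c (q2 z) = q2 z := by
    refine ⟨?_, ?_, ?_⟩
    · rw [← q0_P3, hz]
    · rw [← q1_P3, hz]
    · rw [← q2_P3, hz]
  obtain ⟨w, hw⟩ : ∃ w, w = j1 (q1 z) + j2 (q2 z) := ⟨_, rfl⟩
  have hw0 : q0 w = 0 := by rw [hw, map_add, q0_j1, q0_j2, add_zero]
  have hw1 : q1 w = q1 z := by rw [hw, map_add, q1_j1, q1_j2, add_zero]
  have hw2 : q2 w = q2 z := by rw [hw, map_add, q2_j1, q2_j2, zero_add]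
  have hzw : z = j0 (q0 z) + w := by rw [hw]; exact q_sum z
  have h3 : BQ 𝒜 (rt N) CR c z z = 2 * QB 𝒜 (resC CR) c (q0 z) (q0 z) + BQ 𝒜 (rt N) CR c w w := by
    conv_lhs => rw [hzw]
    rw [h.fam.BQ_add hB e, h.fam.BQ_symm hB c (j0 (q0 z)) (j0 (q0 z) + w), h.fam.BQ_symm hB c w (j0 (q0 z) + w),
      h.fam.BQ_add hB e, h.fam.BQ_add hB e, BQ_res hB e h.fam, h.fam.BQ_symm hB c w (j0 (q0 z)),
      BQ_cross hB e h.fam c (q0 z) hw0]
    ring
  rw [h3, BQ_tw h c hw0, hw1, hw2, norm_q]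
  have h4 := h1 c (q0 z) hz'.1
  have h5 := h2 c (q1 z) (q2 z) hz'.2.1 hz'.2.2
  have h6 : min (2 * δ) ρ * ‖q0 z‖ ^ 2 ≤ 2 * δ * ‖q0 z‖ ^ 2 := mul_le_mul_of_nonneg_right (min_le_left _ _) (sq_nonneg _)
  have h7 : min (2 * δ) ρ * (‖q1 z‖ ^ 2 + ‖q2 z‖ ^ 2) ≤ ρ * (‖q1 z‖ ^ 2 + ‖q2 z‖ ^ 2) :=
    mul_le_mul_of_nonneg_right (min_le_right _ _) (by positivity)
  linarith

/-! ### the time change -/

theorem ddr_res [Nonempty (Gs M)] (hB : Bl M) (e : Emb n 𝒜) (h : PFamR 𝒜 (rt N) CR) (c : Gs M) (x : Eu N) :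
    ddr 𝒜 (rt N) CR c (j0 x) = LamB 𝒜 (resC CR) c x x - (2 * π)⁻¹ * QB 𝒜 (resC CR) c x x := by
  unfold ddr
  rw [BQ_res hB e h, LamB_res hB h, show (4 * π : ℝ) = 2 * (2 * π) by ring, mul_inv, show ((2 : ℝ)⁻¹ * (2 * π)⁻¹ *
    (2 * QB 𝒜 (resC CR) c x x)) = (2 * π)⁻¹ * QB 𝒜 (resC CR) c x x by ring]

theorem aar_res [Nonempty (Gs M)] (hB : Bl M) (e : Emb n 𝒜) (h : PFamR 𝒜 (rt N) CR) (c : Gs M) (x : Eu N) :
    aar 𝒜 (rt N) CR c (j0 x) = aa 𝒜 (resC CR) c x := by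
  have hπ := Real.pi_pos
  obtain ⟨D, hD⟩ : ∃ D : ℝ → ℝ, D = fun s => ddr 𝒜 (rt N) CR (shift s c) (j0 x) := ⟨_, rfl⟩
  have hDc : Continuous D := by
    have h2 := (h.cont_ddr hB e).comp (cont_orb (rt N) c (j0 x))
    simp only [Function.comp_def, rt_j0] at h2
    rw [hD]
    exact h2
  have hDp : ∀ t, D (t + 2 * π) = D t := by
    intro t
    rw [hD]
    simp only
    rw [shift_add, shift_per 𝒜 hB]
  have hDe : ∀ s, D s = LamB 𝒜 (resC CR) (shift s c) x x - (2 * π)⁻¹ * QB 𝒜 (resC CR) c x x := by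
    intro s
    rw [hD]
    simp only
    rw [ddr_res hB e h, QB_shift 𝒜 hB]
  have h0 : ∫ s in (0 : ℝ)..(2 * π), D s = 0 := by
    simp only [hDe]
    have hL : Continuous fun s => LamB 𝒜 (resC CR) (shift s c) x x := by
      have : (fun s => LamB 𝒜 (resC CR) (shift s c) x x) = fun s => D s + (2 * π)⁻¹ * QB 𝒜 (resC CR) c x x := by
        funext s
        rw [hDe]
        ring
      rw [this]
      exact hDc.add continuous_const
    rw [intervalIntegral.integral_sub (hL.intervalIntegrable _ _) (continuous_const.intervalIntegrable _ _),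
      intervalIntegral.integral_const, sub_zero, smul_eq_mul, ← (pfam_res hB h).QB_apply hB e]
    field_simp
    ring
  have hsD : Continuous fun s => s * D s := continuous_id.mul hDc
  have h1 := intervalIntegral.integral_add_adjacent_intervals (hsD.intervalIntegrable 0 (2 * π))
    (hsD.intervalIntegrable (μ := MeasureTheory.volume) (2 * π) (4 * π))
  have h2 : ∫ t in (2 * π)..(4 * π), t * D t = ∫ t in (0 : ℝ)..(2 * π), t * D t := by
    have h3 := intervalIntegral.integral_comp_add_right (a := 0) (b := 2 * π) (fun s => s * D s) (2 * π)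
    simp only [hDp, add_mul] at h3
    have h4 : ∫ t in (0 : ℝ)..(2 * π), (t * D t + 2 * π * D t) = (∫ t in (0 : ℝ)..(2 * π), t * D t) +
        ∫ t in (0 : ℝ)..(2 * π), 2 * π * D t :=
      intervalIntegral.integral_add (hsD.intervalIntegrable _ _) ((continuous_const.mul hDc).intervalIntegrable _ _)
    rw [h4, intervalIntegral.integral_const_mul, h0, mul_zero, add_zero, zero_add,
      show (2 * π + 2 * π : ℝ) = 4 * π by ring] at h3
    exact h3.symm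
  have h5 : aar 𝒜 (rt N) CR c (j0 x) = (4 * π)⁻¹ * ∫ s in (0 : ℝ)..(4 * π), s * D s := by
    unfold aar
    simp only [rt_j0, hD]
  have h6 : aa 𝒜 (resC CR) c x = (2 * π)⁻¹ * ∫ s in (0 : ℝ)..(2 * π), s * D s := by
    unfold aa
    simp only [hDe]
  rw [h5, h6, ← h1, h2]
  field_simp
  ring

/-- **the restriction of the family of constant speed** -/
theorem Cx_res [Nonempty (Gs M)] (hB : Bl M) (e : Emb n 𝒜) (h : PFamR 𝒜 (rt N) CR) (x : Eu N) (c : Gs M) :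
    Cxr 𝒜 (rt N) CR (j0 x) c = Cx 𝒜 (resC CR) x c := by
  unfold Cxr Cx resC
  rw [rt_j0, aar_res hB e h]
  rfl

end Pool.Agent.Lib.MP_ccbbf6_gt.K7.RG
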