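import Pool.Agent.Lib.MP_ccbbf6_gt.K7.GJ8
import Pool.Agent.Lib.MP_ccbbf6_gt.K7.RG8

/-!
# `κ = 7`, density path, part 12a: `H_0` of the odd section of the negative bundle (helper18)

* `Hop_Z0` : `Hop 0 Z0 c x = -(1/4) cx (Lop c x)`; `Hm0_zero` : `H_0 (zc Z0 x y c) 0 = -(1/4) (cx (tI (EvC x)) + i cx (tI (EvC y)))`.
* `exists_eps` : `H_0` of the densities varies little on a small interval (uniformly on all orbits).
* `evc_res` : the evaluation of the restricted joint family is `EvC (kf e Φ x)`.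
-/

set_option autoImplicit false
set_option linter.unusedSectionVars false

open Set Filter Topology Metric Real Module
open scoped ContDiff RealInnerProductSpace ComplexConjugate

noncomputable section

namespace Pool.Agent.Lib.MP_ccbbf6_gt.K7.DP

open L4 Geo L4.ORI L5 L5.NEG RG GG

variable {n : ℕ} {M : Type} [MetricSpace M] [CompactSpace M] {𝒜 : SDist n M} {N : ℕ}

section H0

variable (t : TEmb 𝒜) (hB : Bl M) (e : Emb n 𝒜) {κ : ℕ} (hk : 𝒜.HK κ)
variable {Φ : e.Q → (Eu N →L[ℝ] EuclideanSpace ℝ (Fin e.q))} [Nonempty (Gs M)]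

theorem Jr_Tr_shift (c : Gs M) (r : ℝ) (y : HR t.D) :
    Jr t hB c r (Tr t hB (shift π (shift r c)) y) = Jr t hB c (r + π) y := by
  have h1 := Jr_shR t hB c (r + π) y
  have h2 : r + π + π = r + 2 * π := by ring
  rw [h2, Jr_per] at h1
  rw [shift_comm' r π c]
  exact h1

include hk in
theorem int_Ko (hΦ : ContDiff ℝ ∞ Φ) (c : Gs M) (x : Eu N) :
    ∫ r in (0 : ℝ)..π, Jr t hB c r (Ko t hB e Φ (shift r c) x) = (1 / 2 : ℝ) • Lop t hB e (Φ := Φ) c x := by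
  have hK : Continuous (Kop t e Φ) := SmF.continuous hB e (Kop_smooth t hB e hk hΦ)
  have hJ : Continuous fun r : ℝ => Jr t hB c r := (cont_Jr t hB e hk).comp (Continuous.prodMk_right c)
  have hsh : Continuous fun r : ℝ => shift r c := gs_continuous_shift.comp (Continuous.prodMk_left c)
  have h1 : Continuous fun r : ℝ => Jr t hB c r (Kop t e Φ (shift r c) x) :=
    hJ.clm_apply ((hK.comp hsh).clm_apply continuous_const)
  have h2 : Continuous fun r : ℝ => Jr t hB c (r + π) (Kop t e Φ (shift (r + π) c) x) := h1.comp (continuous_id.add continuous_const)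
  have e1 : ∀ r, Jr t hB c r (Ko t hB e Φ (shift r c) x) =
      (1 / 2 : ℝ) • (Jr t hB c r (Kop t e Φ (shift r c) x) - Jr t hB c (r + π) (Kop t e Φ (shift (r + π) c) x)) := by
    intro r
    rw [Ko_apply, map_smul, map_sub, Jr_Tr_shift, shift_comm' r π c]
  have e2 : (∫ r in (0 : ℝ)..π, Jr t hB c r (Kop t e Φ (shift r c) x)) = (orb t hB e hk c).er (ts t (kf e Φ x) c) 0 := by
    unfold RD.er
    refine intervalIntegral.integral_congr fun r _ => ?_
    show _ = Jr t hB (shift 0 c) r (tI t ((shift (0 + r) c).1 0) (kf e Φ x (shift (0 + r) c)))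
    rw [shift_zero, zero_add]
    rfl
  have e3 : (∫ r in (0 : ℝ)..π, Jr t hB c (r + π) (Kop t e Φ (shift (r + π) c) x)) =
      (orb t hB e hk c).T π ((orb t hB e hk c).er (ts t (kf e Φ x) c) π) := by
    unfold RD.er
    have hc : Continuous fun r : ℝ => (orb t hB e hk c).J π r (ts t (kf e Φ x) c (π + r)) := by
      have h4 : Continuous fun r : ℝ => Jr t hB (shift π c) r := (cont_Jr t hB e hk).comp (Continuous.prodMk_right (shift π c))
      have h5 : Continuous fun r : ℝ => Kop t e Φ (shift (π + r) c) x :=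
        ((hK.comp hsh).clm_apply continuous_const).comp (continuous_const.add continuous_id)
      exact h4.clm_apply h5
    rw [← ContinuousLinearMap.intervalIntegral_comp_comm _ (hc.intervalIntegrable 0 π)]
    refine intervalIntegral.integral_congr fun r _ => ?_
    show Jr t hB c (r + π) (Kop t e Φ (shift (r + π) c) x) = (orb t hB e hk c).T π ((orb t hB e hk c).J π r (ts t (kf e Φ x) c (π + r)))
    rw [(orb t hB e hk c).TJ, orb_J]
    have h6 : π + π = 2 * π := by ring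
    have h7 : r + π = r - π + 2 * π := by ring
    rw [h6, shift_per 𝒜 hB, h7, Jr_per, ← h7, add_comm r π]
    rfl
  rw [Lop_apply t hB e hk hΦ]
  unfold RD.Ev
  rw [← e2, ← e3, ← intervalIntegral.integral_sub (h1.intervalIntegrable 0 π) (h2.intervalIntegrable 0 π),
    ← intervalIntegral.integral_smul]
  exact intervalIntegral.integral_congr fun r _ => e1 r

include hk in
/-- the first operator on `Z0` is the evaluation -/
theorem Hop_Z0 (hΦ : ContDiff ℝ ∞ Φ) (c : Gs M) (x : Eu N) :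
    Hop t hB 0 (Z0 t hB e Φ) c x = (-(1 / 4) : ℝ) • cx t.D (Lop t hB e (Φ := Φ) c x) := by
  have hc := cont_JZ (t := t) (hB := hB) (Z := Z0 t hB e Φ) e hk (fun hσ => (gsec_Z0 t hB e hk hΦ).sm hσ) 0 c
  have hK : Continuous (Ko t hB e Φ) := SmF.continuous hB e (sm_Ko t hB e hk hΦ)
  have hJ : Continuous fun r : ℝ => Jr t hB c r := (cont_Jr t hB e hk).comp (Continuous.prodMk_right c)
  have hsh : Continuous fun r : ℝ => shift r c := gs_continuous_shift.comp (Continuous.prodMk_left c)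
  have h1 : Continuous fun r : ℝ => Jr t hB c r (Ko t hB e Φ (shift r c) x) :=
    hJ.clm_apply ((hK.comp hsh).clm_apply continuous_const)
  have h2 : Hop t hB 0 (Z0 t hB e Φ) c x = (-(1 / 2) : ℝ) • ∫ r in (0 : ℝ)..π, cx t.D (Jr t hB c r (Ko t hB e Φ (shift r c) x)) := by
    show (-(1 / 2) : ℝ) • (∫ r in (0 : ℝ)..π, ((conj (ph 0 r)) • cxL t.D (Jr t hB c r)).restrictScalars ℝ ∘L
      Z0 t hB e Φ (shift r c)) x = _
    rw [ContinuousLinearMap.intervalIntegral_apply (hc.intervalIntegrable _ _)]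
    congr 1
    refine intervalIntegral.integral_congr fun r _ => ?_
    show (conj (ph 0 r)) • cxL t.D (Jr t hB c r) (cx t.D (Ko t hB e Φ (shift r c) x)) = _
    have h3 : ph 0 r = 1 := by
      unfold ph
      rw [zero_mul, Complex.ofReal_zero, mul_zero, Complex.exp_zero]
    rw [h3, map_one, one_smul, cxL_cx]
  rw [h2, ContinuousLinearMap.intervalIntegral_comp_comm _ (h1.intervalIntegrable 0 π), int_Ko t hB e hk hΦ, map_smul, smul_smul]
  congr 1
  norm_num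

/-- `H_0` at `0` -/
theorem Hm0_Lop (hΦ : ContDiff ℝ ∞ Φ) (x y : Eu N) (c : Gs M) (s : ℝ) :
    (orb t hB e hk c).od.Hm 0 (zc t (Z0 t hB e Φ) x y c) s = (-(1 / 4) : ℝ) •
      (cx t.D (Lop t hB e (Φ := Φ) (shift s c) x) + Complex.I • cx t.D (Lop t hB e (Φ := Φ) (shift s c) y)) := by
  rw [Hm_zc e hk (gsec_Z0 t hB e hk hΦ)]
  unfold zc
  rw [Hop_Z0 t hB e hk hΦ, Hop_Z0 t hB e hk hΦ, smul_add, smul_comm Complex.I]

theorem Hm0_zero (hΦ : ContDiff ℝ ∞ Φ) (x y : Eu N) (c : Gs M) :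
    (orb t hB e hk c).od.Hm 0 (zc t (Z0 t hB e Φ) x y c) 0 = (-(1 / 4) : ℝ) •
      (cx t.D (tI t (c.1 0) (EvC 𝒜 hB (kf e Φ x) c)) + Complex.I • cx t.D (tI t (c.1 0) (EvC 𝒜 hB (kf e Φ y) c))) := by
  rw [Hm0_Lop t hB e hk hΦ, shift_zero, Lop_EvC t hB e hk hΦ, Lop_EvC t hB e hk hΦ]

variable {C : Eu N → Gs M → M} {P : Gs M → Eu N →L[ℝ] Eu N}

/-- the lower bound of `H_0` at `0` -/
theorem exists_lowH (hΦ : ContDiff ℝ ∞ Φ) (hN : NegData 𝒜 κ hB C P) (hQ : ∀ c ξ, QB 𝒜 C c ξ ξ = QW 𝒜 hB (kf e Φ ξ) c) :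
    ∃ a : ℝ, 0 < a ∧ ∀ c x y, P c x = x → P c y = y →
      a * ‖x‖ ≤ ‖(orb t hB e hk c).od.Hm 0 (zc t (Z0 t hB e Φ) x y c) 0‖ ∧
      a * ‖y‖ ≤ ‖(orb t hB e hk c).od.Hm 0 (zc t (Z0 t hB e Φ) x y c) 0‖ := by
  obtain ⟨a, ha, hlow⟩ := exists_lower t hB e hk hΦ hN hQ
  refine ⟨a / 4, by positivity, fun c x y hx hy => ?_⟩
  obtain ⟨z, hz⟩ : ∃ z, z = (orb t hB e hk c).od.Hm 0 (zc t (Z0 t hB e Φ) x y c) 0 := ⟨_, rfl⟩
  have h1 : z = (-(1 / 4) : ℝ) • (cx t.D (Lop t hB e (Φ := Φ) c x) + Complex.I • cx t.D (Lop t hB e (Φ := Φ) c y)) := by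
    rw [hz, Hm0_Lop t hB e hk hΦ, shift_zero]
  have h2 : reH t.D z = (-(1 / 4) : ℝ) • Lop t hB e (Φ := Φ) c x := by rw [h1, map_smul, reH_mk]
  have h3 : imH t.D z = (-(1 / 4) : ℝ) • Lop t hB e (Φ := Φ) c y := by rw [h1, map_smul, imH_mk]
  have h4 := norm_reH_le z
  have h5 := norm_imH_le z
  rw [h2, norm_smul, Real.norm_eq_abs, abs_neg, abs_of_nonneg (by norm_num : (0 : ℝ) ≤ 1 / 4)] at h4
  rw [h3, norm_smul, Real.norm_eq_abs, abs_neg, abs_of_nonneg (by norm_num : (0 : ℝ) ≤ 1 / 4)] at h5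
  have h6 := hlow c x hx
  have h7 := hlow c y hy
  rw [← hz]
  exact ⟨by linarith, by linarith⟩

/-- **`H_0` varies little on a small interval** -/
theorem exists_eps (hΦ : ContDiff ℝ ∞ Φ) (hN : NegData 𝒜 κ hB C P) (hQ : ∀ c ξ, QB 𝒜 C c ξ ξ = QW 𝒜 hB (kf e Φ ξ) c) :
    ∃ ε : ℝ, 0 < ε ∧ ∀ c x y, P c x = x → P c y = y → ∀ s, |s| ≤ ε →
      ‖(orb t hB e hk c).od.Hm 0 (zc t (Z0 t hB e Φ) x y c) s - (orb t hB e hk c).od.Hm 0 (zc t (Z0 t hB e Φ) x y c) 0‖ ≤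
        1 / 4 * ‖(orb t hB e hk c).od.Hm 0 (zc t (Z0 t hB e Φ) x y c) 0‖ := by
  obtain ⟨a, ha, hlow⟩ := exists_lowH t hB e hk hΦ hN hQ
  have hg0 := gsec_Z0 t hB e hk hΦ
  obtain ⟨H, hH⟩ : ∃ H, H = Hop t hB 0 (Z0 t hB e Φ) := ⟨_, rfl⟩
  have hHc : Continuous H := by
    rw [hH]
    exact SmF.continuous hB e (fun hσ => (hg0.hop e hk 0).sm hσ)
  have hg : Continuous fun z : ℝ × Gs M => ‖H (shift z.1 z.2) - H z.2‖ :=
    ((hHc.comp gs_continuous_shift).sub (hHc.comp continuous_snd)).norm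
  have h1 : ∀ᶠ s : ℝ in 𝓝 0, ∀ c ∈ (univ : Set (Gs M)), ‖H (shift s c) - H c‖ < a / 8 := by
    refine IsCompact.eventually_forall_of_forall_eventually isCompact_univ fun c _ => ?_
    refine hg.continuousAt.eventually_lt continuousAt_const ?_
    show ‖H (shift 0 c) - H c‖ < a / 8
    rw [shift_zero, sub_self, norm_zero]
    positivity
  obtain ⟨δ, hδ, h2⟩ := Metric.eventually_nhds_iff.1 h1
  refine ⟨δ / 2, by positivity, fun c x y hx hy s hs => ?_⟩
  have h3 : ‖H (shift s c) - H c‖ < a / 8 := h2 (by rw [Real.dist_eq, sub_zero]; linarith) c (mem_univ c)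
  obtain ⟨h4, h5⟩ := hlow c x y hx hy
  rw [Hm_zc e hk hg0, Hm_zc e hk hg0, ← hH] at *
  have h6 : zc t H x y c s - zc t H x y c 0 = (H (shift s c) - H c) x + Complex.I • (H (shift s c) - H c) y := by
    unfold zc
    rw [shift_zero, sub_apply, sub_apply, smul_sub]
    abel
  have h7 : ‖zc t H x y c s - zc t H x y c 0‖ ≤ a / 8 * ‖x‖ + a / 8 * ‖y‖ := by
    rw [h6]
    refine (norm_add_le _ _).trans ?_
    rw [norm_smul, Complex.norm_I, one_mul]
    exact add_le_add (((H (shift s c) - H c).le_opNorm x).trans (mul_le_mul_of_nonneg_right h3.le (norm_nonneg _)))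
      (((H (shift s c) - H c).le_opNorm y).trans (mul_le_mul_of_nonneg_right h3.le (norm_nonneg _)))
  linarith

end H0

section res

variable {κ : ℕ} {P : Gs M → Eu N →L[ℝ] Eu N} {kG : Eu N → Eu N → Gs M → Eu n} {hB : Bl M} {e : Emb n 𝒜}
  {Φ : e.Q → (Eu N →L[ℝ] EuclideanSpace ℝ (Fin e.q))} {CR : Eu (N + (N + N)) → Gs M → M}

theorem X1_res (h : PFamR 𝒜 (rt N) CR) (c : Gs M) (ξ : Eu N) : X1 𝒜 (resC CR) c ξ = X1 𝒜 CR c (j0 ξ) := by
  unfold X1
  have h2 : SmAt 𝒜 (fun z : Eu (N + (N + N)) => CR z c) 0 := h.smooth (smGAt_const c 0) contDiffAt_id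
  have h3 := h2.2
  simp only [h.zero] at h3
  have h4 : HasFDerivAt (fun z : Eu (N + (N + N)) => 𝒜.ψ (c.1 0) (CR z c))
      (fderiv ℝ (fun z : Eu (N + (N + N)) => 𝒜.ψ (c.1 0) (CR z c)) 0) (j0 (0 : Eu N)) := by
    rw [map_zero]
    exact (h3.differentiableAt (by simp)).hasFDerivAt
  have h5 := HasFDerivAt.comp (g := fun z : Eu (N + (N + N)) => 𝒜.ψ (c.1 0) (CR z c)) (f := fun x : Eu N => j0 x) (0 : Eu N)
    h4 (j0 (N := N)).hasFDerivAt
  simp only [Function.comp_def] at h5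
  show fderiv ℝ (fun ξ => 𝒜.ψ (c.1 0) (CR (j0 ξ) c)) 0 ξ = _
  rw [h5.fderiv]
  rfl

theorem X1_EvW (hG : GKer 𝒜 hB P kG) (h : JFam hB e Φ kG CR) (c : Gs M) (x : Eu N) :
    X1 𝒜 (resC CR) c x = EvW 𝒜 hB (kf e Φ x) c := by
  rw [X1_res h.fam, h.x1]
  unfold EvW
  refine intervalIntegral.integral_congr fun b _ => ?_
  show JG 𝒜 hB c b (kJ kG e Φ ((rt N).r b (j0 x)) (shift b c)) = _
  rw [rt_j0, kJ_j0 hG]

/-- **the evaluation of the restricted joint family** -/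
theorem evc_res (hG : GKer 𝒜 hB P kG) (h : JFam hB e Φ kG CR) (c : Gs M) (x : Eu N) :
    evc 𝒜 hB (resC CR) c x = EvC 𝒜 hB (kf e Φ x) c := by
  unfold evc EvC
  rw [X1_EvW hG h, X1_EvW hG h]

end res

end Pool.Agent.Lib.MP_ccbbf6_gt.K7.DP
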