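import Pool.Agent.Lib.MP_ccbbf6_gt.K7.DP5

/-!
# `κ = 7`, density path, part 9b: mixtures of a density with a bump density (helper79)

`dmix`, `dmix_pos`; `bmp_mu` : the bump density for `μ ∈ [0, 1/2]`; `mix` : `(1 - τ) z + τ bmp` for `μ = 0`.
-/

set_option autoImplicit false
set_option linter.unusedSectionVars false
set_option linter.unusedVariables false

open Set Filter Topology Metric Real MeasureTheory
open scoped InnerProductSpace ComplexConjugate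

noncomputable section

namespace Pool.Agent.Lib.MP_ccbbf6_gt.K7.GG

variable {H : Type} [NormedAddCommGroup H] [InnerProductSpace ℂ H] [CompleteSpace H]

namespace OD

variable {O : OD H} {A ε ρ μ τ : ℝ} {h : ℝ → ℝ} {v : H} {z w : ℝ → H}

/-- the constant of a mixture -/
def dmix (h : ℝ → ℝ) (ρ : ℝ) : ℝ := min ρ (cor h / (4 * ∫ s in (-(π / 2))..π / 2, h s ^ 2)) / 2

private theorem I_pos (hh : Bmp h ε) : 0 < ∫ s in (-(π / 2))..π / 2, h s ^ 2 := by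
  have hπ := pi_pos
  refine intervalIntegral.integral_pos (by linarith) (hh.cont.pow 2).continuousOn (fun x _ => sq_nonneg _)
    ⟨0, ⟨by linarith, by linarith⟩, ?_⟩
  exact pow_pos hh.one 2

theorem dmix_pos (hh : Bmp h ε) (hcp : 0 < cor h) (hr : 0 < ρ) : 0 < dmix h ρ := by
  unfold dmix
  have h1 := I_pos hh
  have h2 : 0 < cor h / (4 * ∫ s in (-(π / 2))..π / 2, h s ^ 2) := div_pos hcp (by linarith)
  exact half_pos (lt_min hr h2)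

private theorem cb (hO : Geo O A) (hh : Bmp h ε) (hs : Small A ε) (hcp : 0 < cor h) (hv : O.P 0 v = v) (h0 : 0 ≤ μ)
    (h1 : μ ≤ 1 / 2) :
    cor h / (4 * ∫ s in (-(π / 2))..π / 2, h s ^ 2) * n2 (bmp O h v) ≤ O.Fm μ (bmp O h v) (bmp O h v) := by
  have h2 := I_pos hh
  have h3 := Fm_bmp hO hh hs hv h0 h1
  have h4 := n2_bmp hO hh hs hv
  obtain ⟨I, hI⟩ : ∃ I, I = ∫ s in (-(π / 2))..π / 2, h s ^ 2 := ⟨_, rfl⟩
  rw [← hI] at h2 h4 ⊢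
  have h5 : 0 < cor h / (4 * I) := div_pos hcp (by linarith)
  have h6 := mul_le_mul_of_nonneg_left h4 h5.le
  have h7 : cor h / (4 * I) * (2 * (I * ‖v‖ ^ 2)) = (1 / 2) * (cor h * ‖v‖ ^ 2) := by
    field_simp
    ring
  rw [h7] at h6
  exact h6.trans h3

/-- **the bump density** -/
theorem bmp_mu (hO : Geo O A) (hh : Bmp h ε) (hs : Small A ε) (hcp : 0 < cor h) (h0 : 0 ≤ μ) (h1 : μ ≤ 1 / 2)
    (hv : O.P 0 v = v) : dmix h ρ * n2 (bmp O h v) ≤ O.Fm μ (bmp O h v) (bmp O h v) := by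
  refine le_trans ?_ (cb hO hh hs hcp hv h0 h1)
  refine mul_le_mul_of_nonneg_right ?_ (n2_nonneg _)
  unfold dmix
  have h2 : 0 < cor h / (4 * ∫ s in (-(π / 2))..π / 2, h s ^ 2) := div_pos hcp (by linarith [I_pos hh])
  have h3 := min_le_right ρ (cor h / (4 * ∫ s in (-(π / 2))..π / 2, h s ^ 2))
  linarith

private theorem n2_le (hz : Continuous z) (hw : Continuous w) (a : ℝ) :
    n2 (fun s => z s + (a : ℂ) • w s) ≤ 2 * (n2 z + a ^ 2 * n2 w) := by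
  have h1 := n2_quad hz hw a
  have h2 := n2_quad hz hw (-a)
  have h3 := n2_nonneg (fun s => z s + ((-a : ℝ) : ℂ) • w s)
  nlinarith

/-- **mixtures** -/
theorem mix (hO : Geo O A) (hh : Bmp h ε) (hs : Small A ε) (hcp : 0 < cor h) (hz : O.Den z) (hv : v = O.Hm 0 z 0)
    (hn : ∀ s, |s| ≤ ε → ‖O.Hm 0 z s - v‖ ≤ 1 / 4 * ‖v‖) (hr : 0 < ρ) (hp : ρ * n2 z ≤ O.Fm 0 z z) (t0 : 0 ≤ τ)
    (t1 : τ ≤ 1) : dmix h ρ * n2 (fun s => ((1 - τ : ℝ) : ℂ) • z s + (τ : ℂ) • bmp O h v s) ≤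
      O.Fm 0 (fun s => ((1 - τ : ℝ) : ℂ) • z s + (τ : ℂ) • bmp O h v s)
        (fun s => ((1 - τ : ℝ) : ℂ) • z s + (τ : ℂ) • bmp O h v s) := by
  have hπ := pi_pos
  have hPv : O.P 0 v = v := by
    rw [hv]
    exact (Den_Hm hz 0).mem 0
  have hD := Den_bmp (v := v) hO hh
  have hz' := hz.smul ((1 - τ : ℝ) : ℂ)
  have h1 := Fm_quad hz' hD τ 0
  have h2 := n2_le hz'.cont hD.cont τ
  have h3 : n2 (fun s => ((1 - τ : ℝ) : ℂ) • z s) = (1 - τ) ^ 2 * n2 z := by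
    unfold n2
    rw [← intervalIntegral.integral_const_mul]
    refine intervalIntegral.integral_congr fun s _ => ?_
    show ‖((1 - τ : ℝ) : ℂ) • z s‖ ^ 2 = (1 - τ) ^ 2 * ‖z s‖ ^ 2
    rw [norm_smul, Complex.norm_real, mul_pow, Real.norm_eq_abs, sq_abs]
  have h4 := Fm_bmp_left hO hh hs hz hv hn
  have h5 : 0 ≤ ∫ s in (-(π / 2))..π / 2, h s := intervalIntegral.integral_nonneg (by linarith) fun s _ => hh.nonneg s
  have h6 : 0 ≤ O.Fm 0 (bmp O h v) z := le_trans (by positivity) h4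
  have h7 := cb hO hh hs hcp hPv le_rfl (by norm_num : (0 : ℝ) ≤ 1 / 2)
  rw [h1, Fm_smul_left, Fm_smul_right, Fm_smul_right]
  rw [h3] at h2
  obtain ⟨c, hc⟩ : ∃ c, c = cor h / (4 * ∫ s in (-(π / 2))..π / 2, h s ^ 2) := ⟨_, rfl⟩
  rw [← hc] at h7
  have h8 : dmix h ρ * (2 * ((1 - τ) ^ 2 * n2 z + τ ^ 2 * n2 (bmp O h v))) ≤
      (1 - τ) ^ 2 * (ρ * n2 z) + τ ^ 2 * (c * n2 (bmp O h v)) := by
    have e : dmix h ρ * (2 * ((1 - τ) ^ 2 * n2 z + τ ^ 2 * n2 (bmp O h v))) =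
        (1 - τ) ^ 2 * (min ρ c * n2 z) + τ ^ 2 * (min ρ c * n2 (bmp O h v)) := by
      unfold dmix
      rw [← hc]
      ring
    rw [e]
    exact add_le_add (mul_le_mul_of_nonneg_left (mul_le_mul_of_nonneg_right (min_le_left _ _) (n2_nonneg _)) (sq_nonneg _))
      (mul_le_mul_of_nonneg_left (mul_le_mul_of_nonneg_right (min_le_right _ _) (n2_nonneg _)) (sq_nonneg _))
  have h9 := mul_le_mul_of_nonneg_left h2 (dmix_pos hh hcp hr).le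
  have h10 : 0 ≤ τ * ((1 - τ) * O.Fm 0 (bmp O h v) z) := mul_nonneg t0 (mul_nonneg (by linarith) h6)
  have h11 := mul_le_mul_of_nonneg_left hp (sq_nonneg (1 - τ))
  have h12 := mul_le_mul_of_nonneg_left h7 (sq_nonneg τ)
  have e2 : (1 - τ) * ((1 - τ) * O.Fm 0 z z) + 2 * τ * ((1 - τ) * O.Fm 0 (bmp O h v) z) + τ ^ 2 * O.Fm 0 (bmp O h v) (bmp O h v) =
      (1 - τ) ^ 2 * O.Fm 0 z z + 2 * (τ * ((1 - τ) * O.Fm 0 (bmp O h v) z)) + τ ^ 2 * O.Fm 0 (bmp O h v) (bmp O h v) := by ring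
  rw [e2]
  linarith

/-- the strict form -/
theorem mix0 (hO : Geo O A) (hh : Bmp h ε) (hs : Small A ε) (hz : O.Den z) (hv : v = O.Hm 0 z 0)
    (hn : ∀ s, |s| ≤ ε → ‖O.Hm 0 z s - v‖ ≤ 1 / 4 * ‖v‖) (hp : ρ * n2 z ≤ O.Fm 0 z z) (t0 : 0 ≤ τ)
    (t1 : τ ≤ 1) : (1 - τ) ^ 2 * (ρ * n2 z) + τ ^ 2 * ((1 / 2) * (cor h * ‖v‖ ^ 2)) ≤
      O.Fm 0 (fun s => ((1 - τ : ℝ) : ℂ) • z s + (τ : ℂ) • bmp O h v s)
        (fun s => ((1 - τ : ℝ) : ℂ) • z s + (τ : ℂ) • bmp O h v s) := by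
  have hπ := pi_pos
  have hPv : O.P 0 v = v := by
    rw [hv]
    exact (Den_Hm hz 0).mem 0
  have hD := Den_bmp (v := v) hO hh
  have hz' := hz.smul ((1 - τ : ℝ) : ℂ)
  have h1 := Fm_quad hz' hD τ 0
  have h4 := Fm_bmp_left hO hh hs hz hv hn
  have h5 : 0 ≤ ∫ s in (-(π / 2))..π / 2, h s := intervalIntegral.integral_nonneg (by linarith) fun s _ => hh.nonneg s
  have h6 : 0 ≤ O.Fm 0 (bmp O h v) z := le_trans (by positivity) h4
  have h7 := Fm_bmp hO hh hs hPv le_rfl (by norm_num : (0 : ℝ) ≤ 1 / 2)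
  rw [h1, Fm_smul_left, Fm_smul_right, Fm_smul_right]
  have h10 : 0 ≤ τ * ((1 - τ) * O.Fm 0 (bmp O h v) z) := mul_nonneg t0 (mul_nonneg (by linarith) h6)
  have h11 := mul_le_mul_of_nonneg_left hp (sq_nonneg (1 - τ))
  have h12 := mul_le_mul_of_nonneg_left h7 (sq_nonneg τ)
  have e2 : (1 - τ) * ((1 - τ) * O.Fm 0 z z) + 2 * τ * ((1 - τ) * O.Fm 0 (bmp O h v) z) + τ ^ 2 * O.Fm 0 (bmp O h v) (bmp O h v) =
      (1 - τ) ^ 2 * O.Fm 0 z z + 2 * (τ * ((1 - τ) * O.Fm 0 (bmp O h v) z)) + τ ^ 2 * O.Fm 0 (bmp O h v) (bmp O h v) := by ring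
  rw [e2]
  linarith

end OD

end Pool.Agent.Lib.MP_ccbbf6_gt.K7.GG
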