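import Pool.Agent.Lib.MP_ccbbf6_gt.K7.GJ1

/-!
# Level 5, kappa = 7, block G, GJ3: approximation of `K`-valued functions on one orbit by smooth sections

Statement by helper2, proof by helper91. `kv e Ψ` is the section of a vector function `Ψ` on the space of the embedding.
-/

set_option autoImplicit false
set_option linter.unusedSectionVars false
set_option linter.unusedVariables false

open Set Filter Topology Metric Real Module
open scoped ContDiff RealInnerProductSpace Manifold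

noncomputable section

namespace Pool.Agent.Lib.MP_ccbbf6_gt.K7.GG

open L4 Geo L4.ORI L5 L5.NEG RG

variable {n : ℕ} {M : Type*} [MetricSpace M] [CompactSpace M] {𝒜 : SDist n M}

/-- the section of a vector function -/
def kv (e : Emb n 𝒜) (Ψ : e.Q → EuclideanSpace ℝ (Fin e.q)) (c : Gs M) : Eu n := Hc 𝒜 c (Dr e (c.1 0) (Ψ (e.EE c)))

private theorem gj3_reduce (s s0 : ℝ) : ∃ k : ℤ, s - k * (2 * π) ∈ Icc (s0 - π) (s0 + π) := by
  have hπ := Real.pi_pos
  refine ⟨⌊(s - s0 + π) / (2 * π)⌋, ?_⟩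
  have h1 := Int.floor_le ((s - s0 + π) / (2 * π))
  have h2 := Int.lt_floor_add_one ((s - s0 + π) / (2 * π))
  rw [le_div_iff₀ (by positivity)] at h1
  rw [div_lt_iff₀ (by positivity)] at h2
  constructor <;> nlinarith

private theorem gj3_shift (𝒜 : SDist n M) (hB : Bl M) (c : Gs M) (s : ℝ) (k : ℤ) : shift (s - k * (2 * π)) c = shift s c := by
  refine Subtype.ext (funext fun t => ?_)
  show c.1 (t + (s - k * (2 * π))) = c.1 (t + s)
  have hper : Function.Periodic c.1 (2 * π) := fun t => IsGeo.closed 𝒜 hB c.2 t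
  have h1 := hper.sub_int_mul_eq k (x := t + s)
  rw [← h1, show t + (s - k * (2 * π)) = t + s - k * (2 * π) by ring]

/-- approximation on one orbit -/
theorem exists_kv [Nonempty (Gs M)] (hB : Bl M) (e : Emb n 𝒜) (t : TEmb 𝒜) {κ : ℕ} (hk : 𝒜.HK κ) (c : Gs M) {w : ℝ → Eu n}
    (hw : Continuous fun s => tI t ((shift s c).1 0) (w s)) (hK : ∀ s, w s ∈ NEG.Kc 𝒜 (shift s c))
    (hp : ∀ s, w (s + 2 * π) = w s) {ε : ℝ} (hε : 0 < ε) :
    ∃ Ψ : e.Q → EuclideanSpace ℝ (Fin e.q), ContDiff ℝ ∞ Ψ ∧ ∀ s, ‖kv e Ψ (shift s c) - w s‖ ≤ ε := by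
  have hπ := Real.pi_pos
  obtain ⟨G, hG⟩ : ∃ G : EuclideanSpace ℝ (Fin e.q) → ℝ → ℝ,
      G = fun a s => ‖Hc 𝒜 (shift s c) (Dr e ((shift s c).1 0) a) - w s‖ := ⟨_, rfl⟩
  have hwp : Function.Periodic w (2 * π) := hp
  have hwk : ∀ s (k : ℤ), w (s - k * (2 * π)) = w s := fun s k => hwp.sub_int_mul_eq k
  have hGk : ∀ a s (k : ℤ), G a (s - k * (2 * π)) = G a s := fun a s k => by
    rw [hG]
    show ‖Hc 𝒜 (shift (s - k * (2 * π)) c) (Dr e ((shift (s - k * (2 * π)) c).1 0) a) - w (s - k * (2 * π))‖ = _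
    rw [gj3_shift 𝒜 hB, hwk]
  have hσ : ∀ s : ℝ, SmGAt 𝒜 (fun s => shift s c) s := fun s => by
    exact SmGAt.shift hB (smGAt_const c s) (r := fun s : ℝ => s) contDiffAt_id
  have hGc : ∀ a, Continuous (G a) := fun a => by
    have e1 : G a = fun s => ‖tI t ((shift s c).1 0) (Hc 𝒜 (shift s c) (Dr e ((shift s c).1 0) a)) - tI t ((shift s c).1 0) (w s)‖ := by
      funext s
      rw [hG, ← map_sub, norm_tI]
    rw [e1]
    refine (Continuous.sub ?_ hw).norm
    refine continuous_iff_continuousAt.2 fun s => ?_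
    have h1 : SmV 𝒜 ((shift s c).1 0) (fun s => (shift s c).1 0) (fun s => Dr e ((shift s c).1 0) a) s :=
      smV_Dr e (hσ s).1 (𝒜.mem _) contDiffAt_const
    have h2 := smV_Hc hB hk (hσ s) (𝒜.mem _) h1
    exact (sm_tI t (hσ s).1 (𝒜.mem _) h2).continuousAt
  have hEc : Continuous fun s : ℝ => e.EE (shift s c) := by
    refine continuous_iff_continuousAt.2 fun s => ?_
    exact (e.smooth_EE (hσ s)).continuousAt
  obtain ⟨T, hT⟩ : ∃ T : e.Q → Set (EuclideanSpace ℝ (Fin e.q)), T = fun y => {a | ∀ s, e.EE (shift s c) = y → G a s ≤ ε} :=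
    ⟨_, rfl⟩
  have hconv : ∀ y, Convex ℝ (T y) := fun y => by
    rw [hT]
    intro a ha b hb u v hu hv huv s hs
    have h1 := ha s hs
    have h2 := hb s hs
    rw [hG] at h1 h2 ⊢
    simp only at h1 h2 ⊢
    have e1 : Hc 𝒜 (shift s c) (Dr e ((shift s c).1 0) (u • a + v • b)) - w s =
        u • (Hc 𝒜 (shift s c) (Dr e ((shift s c).1 0) a) - w s) + v • (Hc 𝒜 (shift s c) (Dr e ((shift s c).1 0) b) - w s) := by
      rw [map_add, map_smul, map_smul, map_add, map_smul, map_smul, smul_sub, smul_sub]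
      have e2 : w s = u • w s + v • w s := by rw [← add_smul, huv, one_smul]
      nth_rewrite 1 [e2]
      abel
    rw [e1]
    refine (norm_add_le _ _).trans ?_
    rw [norm_smul, norm_smul, Real.norm_of_nonneg hu, Real.norm_of_nonneg hv]
    have h3 := mul_le_mul_of_nonneg_left h1 hu
    have h4 := mul_le_mul_of_nonneg_left h2 hv
    have h5 : u * ε + v * ε = ε := by rw [← add_mul, huv, one_mul]
    linarith
  have hloc : ∀ y : e.Q, ∃ a : EuclideanSpace ℝ (Fin e.q), ∀ᶠ y' in 𝓝 y, a ∈ T y' := by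
    intro y
    -- the bad set of a constant is compact
    have hbad : ∀ (a : EuclideanSpace ℝ (Fin e.q)) (s0 : ℝ),
        (∀ s ∈ Icc (s0 - π) (s0 + π), ε ≤ G a s → e.EE (shift s c) ≠ y) → ∀ᶠ y' in 𝓝 y, a ∈ T y' := by
      intro a s0 h
      have h1 : IsCompact ((fun s : ℝ => e.EE (shift s c)) '' (Icc (s0 - π) (s0 + π) ∩ {s | ε ≤ G a s})) :=
        (isCompact_Icc.inter_right (isClosed_le continuous_const (hGc a))).image hEc
      have h2 : y ∈ ((fun s : ℝ => e.EE (shift s c)) '' (Icc (s0 - π) (s0 + π) ∩ {s | ε ≤ G a s}))ᶜ := by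
        rintro ⟨s, ⟨hs1, hs2⟩, hs3⟩
        exact h s hs1 hs2 hs3
      filter_upwards [h1.isClosed.isOpen_compl.mem_nhds h2] with y' hy'
      rw [hT]
      intro s hs
      obtain ⟨k, hk'⟩ := gj3_reduce s s0
      by_contra hlt
      rw [not_le] at hlt
      refine hy' ⟨s - k * (2 * π), ⟨hk', ?_⟩, ?_⟩
      · show ε ≤ G a (s - k * (2 * π))
        rw [hGk]
        exact hlt.le
      · show e.EE (shift (s - k * (2 * π)) c) = y'
        rw [gj3_shift 𝒜 hB, hs]
    by_cases hy : ∃ s0, e.EE (shift s0 c) = y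
    · obtain ⟨s0, hs0⟩ := hy
      obtain ⟨a, ha⟩ := Dr_surj e ((shift s0 c).1 0) (w s0)
      refine ⟨a, hbad a s0 fun s hs hG' hy' => ?_⟩
      rw [← hs0] at hy'
      have h1 : shift s c = shift s0 c := by
        have h2 := congrArg e.RR hy'
        rwa [e.RR_EE hB, e.RR_EE hB] at h2
      have h2 : s = s0 := by
        have h3 : (shift s c).1 0 = (shift s0 c).1 0 := by rw [h1]
        have h4 : c.1 s = c.1 s0 := by
          have e1 : (shift s c).1 0 = c.1 s := by
            show c.1 (0 + s) = c.1 s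
            rw [zero_add]
          have e2 : (shift s0 c).1 0 = c.1 s0 := by
            show c.1 (0 + s0) = c.1 s0
            rw [zero_add]
          rwa [e1, e2] at h3
        have h5 : dist (c.1 s) (c.1 s0) = |s - s0| := c.2 s s0 (abs_le.2 ⟨by linarith [hs.1], by linarith [hs.2]⟩)
        rw [h4, dist_self] at h5
        exact sub_eq_zero.1 (abs_eq_zero.1 h5.symm)
      rw [h2, hG] at hG'
      simp only at hG'
      rw [ha, Hc_of_mem (hK s0), sub_self, norm_zero] at hG'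
      linarith
    · exact ⟨0, hbad 0 0 fun s hs _ hy' => hy ⟨s, hy'⟩⟩
  obtain ⟨g, hg⟩ := exists_contMDiffMap_forall_mem_convex_of_local_const 𝓘(ℝ, e.Q) (n := (⊤ : ℕ∞)) hconv hloc
  refine ⟨g, contMDiff_iff_contDiff.1 g.contMDiff, fun s => ?_⟩
  have h1 := hg (e.EE (shift s c))
  rw [hT] at h1
  have h2 := h1 s rfl
  rw [hG] at h2
  exact h2

end Pool.Agent.Lib.MP_ccbbf6_gt.K7.GG
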