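import Pool.Agent.Lib.MP_ccbbf6_gt.K7.GJ2
import Pool.Agent.Lib.MP_ccbbf6_gt.K7.GJ3

/-!
# Level 5, kappa = 7, block G, GJ4: the window inequality with a uniform constant (helper2)
-/

set_option autoImplicit false
set_option linter.unusedSectionVars false
set_option linter.unusedVariables false

open Set Filter Topology Metric Real Module
open scoped ContDiff RealInnerProductSpace

noncomputable section

namespace Pool.Agent.Lib.MP_ccbbf6_gt.K7.GG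

open L4 Geo L4.ORI L5 L5.NEG RG

variable {n : ℕ} {M : Type*} [MetricSpace M] [CompactSpace M] {𝒜 : SDist n M}

section secs

variable (t : TEmb 𝒜) (hB : Bl M) (e : Emb n 𝒜) {κ : ℕ} (hk : 𝒜.HK κ)

theorem kv_mem (Ψ : e.Q → EuclideanSpace ℝ (Fin e.q)) (c : Gs M) : kv e Ψ c ∈ NEG.Kc 𝒜 c := Hc_mem _ _

include hB hk in
theorem smV_kv {Ψ : e.Q → EuclideanSpace ℝ (Fin e.q)} (hΨ : ContDiff ℝ ∞ Ψ) {F : Type} [NormedAddCommGroup F] [NormedSpace ℝ F]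
    {σ : F → Gs M} {u : F} (hσ : SmGAt 𝒜 σ u) {p : M} (hp : (σ u).1 0 ∈ (𝒜.ψ p).source) :
    SmV 𝒜 p (fun v => (σ v).1 0) (fun v => kv e Ψ (σ v)) u := by
  unfold kv
  exact smV_Hc hB hk hσ hp (smV_Dr e hσ.1 hp (hΨ.contDiffAt.comp u (e.smooth_EE hσ)))

/-- continuous sections -/
theorem cont_sec [Nonempty (Gs M)] (hB : Bl M) (e : Emb n 𝒜) {w : Gs M → Eu n}
    (h : ∀ {F : Type} [NormedAddCommGroup F] [NormedSpace ℝ F] {σ : F → Gs M} {u : F} {p : M}, SmGAt 𝒜 σ u →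
      (σ u).1 0 ∈ (𝒜.ψ p).source → SmV 𝒜 p (fun v => (σ v).1 0) (fun v => w (σ v)) u) :
    Continuous fun c => tI t (c.1 0) (w c) :=
  SmF.continuous hB e fun hσ => sm_tI t hσ.1 (𝒜.mem _) (h hσ (𝒜.mem _))

/-- continuity along the orbit -/
theorem cont_JGsec (hB : Bl M) {w : Gs M → Eu n}
    (h : ∀ {F : Type} [NormedAddCommGroup F] [NormedSpace ℝ F] {σ : F → Gs M} {u : F} {p : M}, SmGAt 𝒜 σ u →
      (σ u).1 0 ∈ (𝒜.ψ p).source → SmV 𝒜 p (fun v => (σ v).1 0) (fun v => w (σ v)) u) (c : Gs M) :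
    Continuous fun r => JG 𝒜 hB c r (w (shift r c)) := by
  rw [continuous_iff_continuousAt]
  intro r
  have hc : SmGAt 𝒜 (fun _ : ℝ => c) r := ⟨smAt_const _ _, smAt_const _ _⟩
  have hs : SmGAt 𝒜 (fun r : ℝ => shift r c) r := hc.shift hB (r := fun r => r) contDiffAt_id
  have h1 := smV_JG hB hc (b := fun r => r) contDiffAt_id (𝒜.mem (c.1 0)) (𝒜.mem _) (h hs (𝒜.mem _))
  have h2 : ContDiffAt ℝ ∞ (fun r : ℝ => JG 𝒜 hB c r (w (shift r c))) r := by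
    refine ContDiffAt.congr_of_eventuallyEq h1 (Eventually.of_forall fun r => ?_)
    exact (CC_self 𝒜 (c.1 0) _).symm
  exact h2.continuousAt

/-! ### the family `kf` -/

variable {N : ℕ} (Φ : e.Q → (Eu N →L[ℝ] EuclideanSpace ℝ (Fin e.q)))

/-- the family as an operator -/
def Kop (c : Gs M) : Eu N →L[ℝ] HR t.D := (tI t (c.1 0)).comp ((Hc 𝒜 c).comp ((Dr e (c.1 0)).comp (Φ (e.EE c))))

theorem Kop_apply (c : Gs M) (ξ : Eu N) : Kop t e Φ c ξ = tI t (c.1 0) (kf e Φ ξ c) := rfl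

variable {Φ}

include hB hk in
theorem smV_kf' (hΦ : ContDiff ℝ ∞ Φ) (ξ : Eu N) {F : Type} [NormedAddCommGroup F] [NormedSpace ℝ F]
    {σ : F → Gs M} {u : F} {p : M} (hσ : SmGAt 𝒜 σ u) (hp : (σ u).1 0 ∈ (𝒜.ψ p).source) :
    SmV 𝒜 p (fun v => (σ v).1 0) (fun v => kf e Φ ξ (σ v)) u := smV_kf e hB hk hΦ hσ contDiffAt_const hp

include hB hk in
theorem Kop_smooth (hΦ : ContDiff ℝ ∞ Φ) : SmF 𝒜 (Kop t e Φ) := by
  intro F _ _ σ u hσ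
  refine contDiffAt_clm_apply_iff.2 fun ξ => ?_
  exact sm_tI t hσ.1 (𝒜.mem _) (smV_kf' hB e hk hΦ ξ hσ (𝒜.mem _))

/-- the evaluation as an operator -/
def Lop (c : Gs M) : Eu N →L[ℝ] HR t.D :=
  (∫ r in (0 : ℝ)..π, (Jr t hB c r).comp (Kop t e Φ (shift r c))) -
    (Tr t hB (shift π c)).comp (∫ r in (0 : ℝ)..π, (Jr t hB (shift π c) r).comp (Kop t e Φ (shift r (shift π c))))

variable [Nonempty (Gs M)]

include hk in
theorem cont_JK (hΦ : ContDiff ℝ ∞ Φ) :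
    Continuous fun z : Gs M × ℝ => (Jr t hB z.1 z.2).comp (Kop t e Φ (shift z.2 z.1)) := by
  have h1 : Continuous (Kop t e Φ) := SmF.continuous hB e (Kop_smooth t hB e hk hΦ)
  exact (cont_Jr t hB e hk).clm_comp (h1.comp (gs_continuous_shift.comp continuous_swap))

include e hk in
theorem cont_Tr' : Continuous (Tr t hB) := SmF.continuous hB e (fun hσ => Tr_smooth t hB hk hσ)

theorem cont_shiftπ : Continuous fun c : Gs M => shift π c := gs_continuous_shift.comp (Continuous.prodMk_right π)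

include hk in
theorem cont_Eop (hΦ : ContDiff ℝ ∞ Φ) : Continuous fun c : Gs M => ∫ r in (0 : ℝ)..π, (Jr t hB c r).comp (Kop t e Φ (shift r c)) :=
  intervalIntegral.continuous_parametric_intervalIntegral_of_continuous'
    (f := fun (c : Gs M) r => (Jr t hB c r).comp (Kop t e Φ (shift r c))) (cont_JK t hB e hk hΦ) 0 π

include hk in
theorem cont_Lop (hΦ : ContDiff ℝ ∞ Φ) : Continuous (Lop t hB e (Φ := Φ)) := by
  unfold Lop
  exact (cont_Eop t hB e hk hΦ).sub (((cont_Tr' t hB e hk).comp cont_shiftπ).clm_comp ((cont_Eop t hB e hk hΦ).comp cont_shiftπ))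

theorem er_kf (hΦ : ContDiff ℝ ∞ Φ) (c : Gs M) (ξ : Eu N) (b : ℝ) : (orb t hB e hk c).er (ts t (kf e Φ ξ) c) b =
    (∫ r in (0 : ℝ)..π, (Jr t hB (shift b c) r).comp (Kop t e Φ (shift r (shift b c)))) ξ := by
  have hc : Continuous fun r => (Jr t hB (shift b c) r).comp (Kop t e Φ (shift r (shift b c))) :=
    (cont_JK t hB e hk hΦ).comp (Continuous.prodMk_right (shift b c))
  rw [ContinuousLinearMap.intervalIntegral_apply (hc.intervalIntegrable _ _)]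
  unfold RD.er
  refine intervalIntegral.integral_congr fun r _ => ?_
  show Jr t hB (shift b c) r (ts t (kf e Φ ξ) c (b + r)) = _
  unfold ts
  rw [← shift_comm' b r c]
  rfl

/-- the operator is the evaluation -/
theorem Lop_apply (hΦ : ContDiff ℝ ∞ Φ) (c : Gs M) (ξ : Eu N) :
    Lop t hB e (Φ := Φ) c ξ = (orb t hB e hk c).Ev (ts t (kf e Φ ξ) c) := by
  unfold RD.Ev
  rw [er_kf t hB e hk hΦ, er_kf t hB e hk hΦ, shift_zero]
  rfl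

include hk in
theorem Lop_EvC (hΦ : ContDiff ℝ ∞ Φ) (c : Gs M) (ξ : Eu N) :
    Lop t hB e (Φ := Φ) c ξ = tI t (c.1 0) (EvC 𝒜 hB (kf e Φ ξ) c) := by
  rw [Lop_apply t hB e hk hΦ, Ev_ts t hB e hk (cont_sec t hB e fun hσ hp => smV_kf' hB e hk hΦ ξ hσ hp) (fun c => kf_mem e Φ ξ c)
    (fun c => cont_JGsec hB (fun hσ hp => smV_kf' hB e hk hΦ ξ hσ hp) c)]

theorem tI_inj {x : M} {w w' : Eu n} (h : tI t x w = tI t x w') : w = w' := (t.i x).injective h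

/-! ### the lower bound -/

variable {C : Eu N → Gs M → M} {P : Gs M → Eu N →L[ℝ] Eu N}

include hk in
theorem Lop_ne (hΦ : ContDiff ℝ ∞ Φ) (hN : NegData 𝒜 κ hB C P) (hQ : ∀ c ξ, QB 𝒜 C c ξ ξ = QW 𝒜 hB (kf e Φ ξ) c) (c : Gs M)
    {ξ : Eu N} (hξ : P c ξ = ξ) (h0 : ξ ≠ 0) : Lop t hB e (Φ := Φ) c ξ ≠ 0 := by
  intro h
  rw [Lop_EvC t hB e hk hΦ] at h
  have h1 : EvC 𝒜 hB (kf e Φ ξ) c = 0 := tI_inj t (h.trans (map_zero _).symm)
  have h2 := QW_nonpos hB e hk hΦ h1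
  obtain ⟨δ, hδ, hp⟩ := hN.pos
  have h3 := hp c ξ hξ
  rw [hQ] at h3
  have h4 : 0 < ‖ξ‖ ^ 2 := by
    have := norm_pos_iff.mpr h0
    positivity
  nlinarith

include hk in
theorem exists_lower (hΦ : ContDiff ℝ ∞ Φ) (hN : NegData 𝒜 κ hB C P) (hQ : ∀ c ξ, QB 𝒜 C c ξ ξ = QW 𝒜 hB (kf e Φ ξ) c) :
    ∃ a : ℝ, 0 < a ∧ ∀ c ξ, P c ξ = ξ → a * ‖ξ‖ ≤ ‖Lop t hB e (Φ := Φ) c ξ‖ := by
  have hP : Continuous P := SmF.continuous hB e (fun hσ => hN.smooth hσ)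
  have hL := cont_Lop t hB e hk hΦ
  obtain ⟨S, hS⟩ : ∃ S : Set (Gs M × Eu N), S = {z | P z.1 z.2 = z.2} ∩ (univ ×ˢ sphere (0 : Eu N) 1) := ⟨_, rfl⟩
  have hSc : IsCompact S := by
    rw [hS]
    refine IsCompact.inter_left (isCompact_univ.prod (isCompact_sphere _ _)) ?_
    exact isClosed_eq ((hP.comp continuous_fst).clm_apply continuous_snd) continuous_snd
  have hg : Continuous fun z : Gs M × Eu N => ‖Lop t hB e (Φ := Φ) z.1 z.2‖ :=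
    ((hL.comp continuous_fst).clm_apply continuous_snd).norm
  obtain ⟨a, ha, h1⟩ : ∃ a : ℝ, 0 < a ∧ ∀ z ∈ S, a ≤ ‖Lop t hB e (Φ := Φ) z.1 z.2‖ := by
    rcases S.eq_empty_or_nonempty with he | hne
    · exact ⟨1, one_pos, fun z hz => by rw [he] at hz; exact absurd hz (Set.notMem_empty z)⟩
    · obtain ⟨z0, hz0, hmin⟩ := hSc.exists_isMinOn hne hg.continuousOn
      refine ⟨_, ?_, fun z hz => hmin hz⟩
      rw [hS] at hz0
      refine norm_pos_iff.2 (Lop_ne t hB e hk hΦ hN hQ z0.1 hz0.1 fun h0 => ?_)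
      have h2 : ‖z0.2‖ = 1 := mem_sphere_zero_iff_norm.1 hz0.2.2
      rw [h0, norm_zero] at h2
      exact zero_ne_one h2
  refine ⟨a, ha, fun c ξ hξ => ?_⟩
  rcases eq_or_ne ξ 0 with h0 | h0
  · rw [h0, map_zero, norm_zero, norm_zero, mul_zero]
  · have hn : ‖ξ‖ ≠ 0 := norm_ne_zero_iff.2 h0
    have h2 : (c, ‖ξ‖⁻¹ • ξ) ∈ S := by
      rw [hS]
      refine ⟨?_, mem_univ _, ?_⟩
      · show P c (‖ξ‖⁻¹ • ξ) = ‖ξ‖⁻¹ • ξ
        rw [map_smul, hξ]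
      · rw [mem_sphere_zero_iff_norm, norm_smul, norm_inv, norm_norm, inv_mul_cancel₀ hn]
    have h3 : a ≤ ‖ξ‖⁻¹ * ‖Lop t hB e (Φ := Φ) c ξ‖ := by
      have h5 := h1 (c, ‖ξ‖⁻¹ • ξ) h2
      simp only [map_smul, norm_smul, norm_inv, norm_norm] at h5
      exact h5
    have h4 : 0 < ‖ξ‖ := norm_pos_iff.2 h0
    calc a * ‖ξ‖ ≤ (‖ξ‖⁻¹ * ‖Lop t hB e (Φ := Φ) c ξ‖) * ‖ξ‖ := mul_le_mul_of_nonneg_right h3 h4.le
      _ = _ := by field_simp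

theorem EvC_mem (w : Gs M → Eu n) (c : Gs M) : EvC 𝒜 hB w c ∈ NEG.Kc 𝒜 c := by
  obtain ⟨a, ha⟩ : ∃ a, a = Hc 𝒜 c (EvW 𝒜 hB w c) := ⟨_, rfl⟩
  obtain ⟨b, hb⟩ : ∃ b, b = Hc 𝒜 (shift π c) (EvW 𝒜 hB w (shift π c)) := ⟨_, rfl⟩
  have ham : a ∈ NEG.Kc 𝒜 c := by rw [ha]; exact Hc_mem _ _
  have hbm : b ∈ NEG.Kc 𝒜 (shift π c) := by rw [hb]; exact Hc_mem _ _
  have h1 := thK_mem hB hbm
  have h2 : NEG.Kc 𝒜 (shift π (shift π c)) = NEG.Kc 𝒜 c := by rw [shift_pp hB 𝒜]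
  rw [h2] at h1
  have h3 : EvC 𝒜 hB w c = a - thK 𝒜 hB (shift π c) b := by rw [ha, hb]; rfl
  rw [h3]
  exact Submodule.sub_mem _ ham h1

include t hk in
theorem exists_evC (hΦ : ContDiff ℝ ∞ Φ) (hN : NegData 𝒜 κ hB C P) (hQ : ∀ c ξ, QB 𝒜 C c ξ ξ = QW 𝒜 hB (kf e Φ ξ) c) (c : Gs M)
    {w : Eu n} (hw : w ∈ NEG.Kc 𝒜 c) : ∃ ξ, P c ξ = ξ ∧ EvC 𝒜 hB (kf e Φ ξ) c = w := by
  obtain ⟨W, hW⟩ : ∃ W : Submodule ℝ (HR t.D), W = (NEG.Kc 𝒜 c).map (tI t (c.1 0) : Eu n →ₗ[ℝ] HR t.D) := ⟨_, rfl⟩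
  have hmem : ∀ ξ, Lop t hB e (Φ := Φ) c ξ ∈ W := by
    intro ξ
    rw [hW, Lop_EvC t hB e hk hΦ]
    exact Submodule.mem_map_of_mem (EvC_mem hB _ c)
  obtain ⟨f, hf⟩ : ∃ f : LinearMap.range (P c : Eu N →ₗ[ℝ] Eu N) →ₗ[ℝ] W,
      ∀ x, (f x : HR t.D) = Lop t hB e (Φ := Φ) c x := by
    refine ⟨LinearMap.codRestrict W ((Lop t hB e (Φ := Φ) c : Eu N →ₗ[ℝ] HR t.D).comp (Submodule.subtype _)) fun x => hmem x, fun x => rfl⟩
  have hPx : ∀ x : LinearMap.range (P c : Eu N →ₗ[ℝ] Eu N), P c x = x := by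
    rintro ⟨_, y, rfl⟩
    exact hN.idem c y
  have hinj : Function.Injective f := by
    rw [injective_iff_map_eq_zero]
    intro x hx
    by_contra h0
    have h1 : Lop t hB e (Φ := Φ) c x = 0 := by rw [← hf, hx]; rfl
    exact Lop_ne t hB e hk hΦ hN hQ c (hPx x) (fun h => h0 (Subtype.ext h)) h1
  have hfin : finrank ℝ (LinearMap.range (P c : Eu N →ₗ[ℝ] Eu N)) = finrank ℝ W := by
    rw [hN.rank, hW]
    have h1 : finrank ℝ ((NEG.Kc 𝒜 c).map (tI t (c.1 0) : Eu n →ₗ[ℝ] HR t.D)) = finrank ℝ (NEG.Kc 𝒜 c) := by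
      refine LinearEquiv.finrank_eq (Submodule.equivMapOfInjective _ ?_ _).symm
      exact (t.i (c.1 0)).injective
    rw [h1, NEG.finrank_Kc hB hk c]
  have hsurj := (LinearMap.injective_iff_surjective_of_finrank_eq_finrank hfin).1 hinj
  obtain ⟨x, hx⟩ := hsurj ⟨tI t (c.1 0) w, by rw [hW]; exact Submodule.mem_map_of_mem hw⟩
  refine ⟨x, hPx x, ?_⟩
  have h1 := hf x
  rw [hx, Lop_EvC t hB e hk hΦ] at h1
  exact (tI_inj t h1).symm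

/-! ### the inequality on the closed orbit -/

/-- the family with one more section -/
def Phx (e : Emb n 𝒜) {N : ℕ} (Φ : e.Q → (Eu N →L[ℝ] EuclideanSpace ℝ (Fin e.q))) (Ψ : e.Q → EuclideanSpace ℝ (Fin e.q)) (y : e.Q) :
    Eu (N + 1) →L[ℝ] EuclideanSpace ℝ (Fin e.q) :=
  (Φ y).comp (LinearMap.toContinuousLinearMap
    { toFun := fun z : Eu (N + 1) => WithLp.toLp 2 fun i : Fin N => z i.castSucc
      map_add' := fun x y => by ext i; simp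
      map_smul' := fun a x => by ext i; simp }) +
  (EuclideanSpace.proj (Fin.last N) : Eu (N + 1) →L[ℝ] ℝ).smulRight (Ψ y)

/-- the vector with last coordinate `1` -/
def sn {N : ℕ} (ξ : Eu N) : Eu (N + 1) := WithLp.toLp 2 (Fin.snoc (α := fun _ => ℝ) (fun i => ξ i) 1)

theorem Phx_sn {N : ℕ} (Φ : e.Q → (Eu N →L[ℝ] EuclideanSpace ℝ (Fin e.q))) (Ψ : e.Q → EuclideanSpace ℝ (Fin e.q)) (y : e.Q)
    (ξ : Eu N) : Phx e Φ Ψ y (sn ξ) = Φ y ξ + Ψ y := by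
  have h1 : (WithLp.toLp 2 fun i : Fin N => (sn ξ) i.castSucc) = ξ := by
    ext i
    show Fin.snoc (α := fun _ => ℝ) (fun i => ξ i) 1 i.castSucc = ξ i
    rw [Fin.snoc_castSucc]
  have h2 : (sn ξ) (Fin.last N) = 1 := by
    show Fin.snoc (α := fun _ => ℝ) (fun i => ξ i) 1 (Fin.last N) = 1
    rw [Fin.snoc_last]
  show Φ y (WithLp.toLp 2 fun i : Fin N => (sn ξ) i.castSucc) + ((sn ξ) (Fin.last N)) • Ψ y = _
  rw [h1, h2, one_smul]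

theorem kf_Phx {N : ℕ} (Φ : e.Q → (Eu N →L[ℝ] EuclideanSpace ℝ (Fin e.q))) (Ψ : e.Q → EuclideanSpace ℝ (Fin e.q)) (ξ : Eu N)
    (c : Gs M) : kf e (Phx e Φ Ψ) (sn ξ) c = kf e Φ ξ c + kv e Ψ c := by
  unfold kf kv
  rw [Phx_sn, map_add, map_add]

theorem contDiff_Phx (hΦ : ContDiff ℝ ∞ Φ) {Ψ : e.Q → EuclideanSpace ℝ (Fin e.q)} (hΨ : ContDiff ℝ ∞ Ψ) :
    ContDiff ℝ ∞ (Phx e Φ Ψ) := by
  unfold Phx
  exact (hΦ.clm_comp contDiff_const).add (contDiff_const.smulRight hΨ)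

end secs

end Pool.Agent.Lib.MP_ccbbf6_gt.K7.GG
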