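import Pool.Agent.Lib.MP_ccbbf6_gt.K7.GG7
import Pool.Agent.Lib.MP_ccbbf6_gt.K7.GJ4

/-!
# Level 5, kappa = 7, block G, GJ5: the window inequality on all orbits, `exists_win` (helper2)
-/

set_option autoImplicit false
set_option linter.unusedSectionVars false
set_option linter.unusedVariables false

open Set Filter Topology Metric Real Module
open scoped ContDiff RealInnerProductSpace

noncomputable section

namespace Pool.Agent.Lib.MP_ccbbf6_gt.K7.GG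

open L4 Geo L4.ORI L5 L5.NEG RG

variable {n : ℕ} {M : Type*} [MetricSpace M] [CompactSpace M] {𝒜 : SDist n M}
variable (t : TEmb 𝒜) (hB : Bl M) (e : Emb n 𝒜) {κ : ℕ} (hk : 𝒜.HK κ) [Nonempty (Gs M)]
variable {N : ℕ} {Φ : e.Q → (Eu N →L[ℝ] EuclideanSpace ℝ (Fin e.q))}
variable {C : Eu N → Gs M → M} {P : Gs M → Eu N →L[ℝ] Eu N}

include hB hk in
theorem exists_bound_Kop (hΦ : ContDiff ℝ ∞ Φ) : ∃ Ck : ℝ, 0 ≤ Ck ∧ ∀ c, ‖Kop t e Φ c‖ ≤ Ck := by
  have h1 : Continuous (Kop t e Φ) := SmF.continuous hB e (Kop_smooth t hB e hk hΦ)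
  obtain ⟨C, hC⟩ := (isCompact_univ (X := Gs M)).exists_bound_of_continuousOn h1.continuousOn
  exact ⟨max C 0, le_max_right _ _, fun c => (hC c (mem_univ c)).trans (le_max_left _ _)⟩

/-- the inequality on the closed orbit -/
theorem ro_orb (hΦ : ContDiff ℝ ∞ Φ) (hN : NegData 𝒜 κ hB C P) (hQ : ∀ c ξ, QB 𝒜 C c ξ ξ = QW 𝒜 hB (kf e Φ ξ) c)
    {CJ Ck a : ℝ} (hC0 : 0 ≤ CJ) (hCJ : ∀ c b, ‖Jr t hB c b‖ ≤ CJ) (hk0 : 0 ≤ Ck) (hCk : ∀ c, ‖Kop t e Φ c‖ ≤ Ck)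
    (ha : 0 < a) (hlow : ∀ c ξ, P c ξ = ξ → a * ‖ξ‖ ≤ ‖Lop t hB e (Φ := Φ) c ξ‖) (c : Gs M) :
    (orb t hB e hk c).RO (2 * CJ * (2 * π * Ck / a)) := by
  have hsec : ∀ {Ψ : e.Q → EuclideanSpace ℝ (Fin e.q)}, ContDiff ℝ ∞ Ψ → Continuous fun c => tI t (c.1 0) (kv e Ψ c) :=
    fun hΨ => cont_sec t hB e fun hσ hp => smV_kv hB e hk hΨ hσ hp
  have hsecf : ∀ ξ, Continuous fun c => tI t (c.1 0) (kf e Φ ξ c) :=
    fun ξ => cont_sec t hB e fun hσ hp => smV_kf' hB e hk hΦ ξ hσ hp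
  refine RD.ro_of (S := fun W => ∃ Ψ : e.Q → EuclideanSpace ℝ (Fin e.q), ContDiff ℝ ∞ Ψ ∧ W = ts t (kv e Ψ) c) hC0 (by positivity)
    (per_orb t hB e hk hCJ c) ?_ ?_ ?_
  · rintro W ⟨Ψ, hΨ, rfl⟩
    exact ts_pden t hB e hk (hsec hΨ) (kv_mem e Ψ) c
  · intro w hw ε hε
    have hP : ∀ s, tI t ((shift s c).1 0) (Hc 𝒜 (shift s c) (tA t ((shift s c).1 0) (w s))) = w s := fun s => hw.mem s
    have h1 : ∀ s, tA t ((shift s c).1 0) (w s) = Hc 𝒜 (shift s c) (tA t ((shift s c).1 0) (w s)) := by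
      intro s
      have h2 := congrArg (tA t ((shift s c).1 0)) (hP s)
      rw [tA_tI] at h2
      exact h2.symm
    have h2 : ∀ s, tI t ((shift s c).1 0) (tA t ((shift s c).1 0) (w s)) = w s := fun s => by
      rw [h1 s]
      exact hP s
    obtain ⟨Ψ, hΨ, h3⟩ := exists_kv hB e t hk c (w := fun s => tA t ((shift s c).1 0) (w s))
      (by simp only [h2]; exact hw.cont) (fun s => by rw [h1 s]; exact Hc_mem _ _)
      (fun s => by rw [gs_shift_per 𝒜 hB, hw.per]) hε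
    refine ⟨_, ⟨Ψ, hΨ, rfl⟩, fun s => ?_⟩
    have h4 : ts t (kv e Ψ) c s - w s = tI t ((shift s c).1 0) (kv e Ψ (shift s c) - tA t ((shift s c).1 0) (w s)) := by
      rw [map_sub, h2]
      rfl
    rw [h4, norm_tI]
    exact h3 s
  · rintro W ⟨Ψ, hΨ, rfl⟩
    obtain ⟨ξ, hξ, hE⟩ := exists_evC t hB e hk hΦ hN hQ c (w := -EvC 𝒜 hB (kv e Ψ) c) (Submodule.neg_mem _ (EvC_mem hB _ c))
    have hW := ts_pden t hB e hk (hsec hΨ) (kv_mem e Ψ) c
    have hk1 := ts_pden t hB e hk (hsecf ξ) (kf_mem e Φ ξ) c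
    have hEW : (orb t hB e hk c).Ev (ts t (kv e Ψ) c) = tI t (c.1 0) (EvC 𝒜 hB (kv e Ψ) c) :=
      Ev_ts t hB e hk (hsec hΨ) (kv_mem e Ψ) (fun c => cont_JGsec hB (fun hσ hp => smV_kv hB e hk hΨ hσ hp) c) c
    have hEk : (orb t hB e hk c).Ev (ts t (kf e Φ ξ) c) = tI t (c.1 0) (EvC 𝒜 hB (kf e Φ ξ) c) :=
      Ev_ts t hB e hk (hsecf ξ) (kf_mem e Φ ξ) (fun c => cont_JGsec hB (fun hσ hp => smV_kf' hB e hk hΦ ξ hσ hp) c) c
    have hEq : (orb t hB e hk c).Ev (ts t (kf e Φ ξ) c) = -(orb t hB e hk c).Ev (ts t (kv e Ψ) c) := by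
      rw [hEk, hE, map_neg, hEW]
    refine ⟨ts t (kf e Φ ξ) c, hk1, hEq, ?_, ?_, ?_⟩
    · obtain ⟨δ, hδ, hp⟩ := hN.pos
      have h1 := hp c ξ hξ
      rw [hQ, QW_eq t hB e hk (kf_mem e Φ ξ) c] at h1
      exact (by positivity : (0 : ℝ) ≤ δ * ‖ξ‖ ^ 2).trans h1
    · have h1 : RD.L1 (ts t (kf e Φ ξ) c) ≤ 2 * π * (Ck * ‖ξ‖) := by
        unfold RD.L1
        have h2 : ∫ s in (0 : ℝ)..(2 * π), ‖ts t (kf e Φ ξ) c s‖ ≤ ∫ s in (0 : ℝ)..(2 * π), Ck * ‖ξ‖ :=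
          intervalIntegral.integral_mono_on (by positivity) (hk1.cont.norm.intervalIntegrable _ _)
            (continuous_const.intervalIntegrable _ _) fun s _ =>
              ((Kop t e Φ (shift s c)).le_opNorm ξ).trans (mul_le_mul_of_nonneg_right (hCk _) (norm_nonneg _))
        rw [intervalIntegral.integral_const, sub_zero, smul_eq_mul] at h2
        exact h2
      have h3 := hlow c ξ hξ
      rw [Lop_apply t hB e hk hΦ, hEq, norm_neg] at h3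
      refine h1.trans ?_
      rw [div_mul_eq_mul_div, le_div_iff₀ ha]
      have h4 := mul_le_mul_of_nonneg_left h3 (by positivity : 0 ≤ 2 * π * Ck)
      linarith
    · have h1 : (fun s => ts t (kf e Φ ξ) c s + ts t (kv e Ψ) c s) = ts t (kf e (Phx e Φ Ψ) (sn ξ)) c := by
        funext s
        unfold ts
        rw [kf_Phx, map_add]
      have h2 := contDiff_Phx (e := e) hΦ hΨ
      have h3 : (orb t hB e hk c).Ev (ts t (kf e (Phx e Φ Ψ) (sn ξ)) c) = tI t (c.1 0) (EvC 𝒜 hB (kf e (Phx e Φ Ψ) (sn ξ)) c) :=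
        Ev_ts t hB e hk (cont_sec t hB e fun hσ hp => smV_kf' hB e hk h2 _ hσ hp) (kf_mem e _ _)
          (fun c => cont_JGsec hB (fun hσ hp => smV_kf' hB e hk h2 _ hσ hp) c) c
      rw [← h1, RD.Ev_add hk1.cont hW.cont, hEq, neg_add_cancel] at h3
      have h4 : EvC 𝒜 hB (kf e (Phx e Φ Ψ) (sn ξ)) c = 0 := tI_inj t (h3.symm.trans (map_zero _).symm)
      have h5 := QW_nonpos hB e hk h2 h4
      rw [QW_eq t hB e hk (kf_mem e _ _) c, ← h1] at h5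
      exact h5

/-- the real window inequality from the closed orbits -/
theorem rwin_orb {CJ C' : ℝ} (hC0 : 0 ≤ CJ) (hC' : 0 ≤ C') (hCJ : ∀ c b, ‖Jr t hB c b‖ ≤ CJ)
    (hRO : ∀ c, (orb t hB e hk c).RO C') (c : Gs M) : (orb t hB e hk c).RWin C' := by
  intro y hy b
  have hy' : (orb t hB e hk (shift b c)).RDen (fun s => y (b + s)) := by
    refine ⟨hy.cont.comp (continuous_const.add continuous_id), fun s => ?_⟩
    rw [orb_P, shift_comm' b s c]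
    exact hy.mem (b + s)
  have h1 := RD.win0 hC0 hC' (per_orb t hB e hk hCJ (shift b c)) (hRO (shift b c)) hy'
  have h2 : (orb t hB e hk c).hr y b = (orb t hB e hk (shift b c)).hr (fun s => y (b + s)) 0 := by
    unfold RD.hr RD.ry
    refine intervalIntegral.integral_congr fun r _ => ?_
    show (π - r) * ∫ σ in (0 : ℝ)..1, -⟪y (b + (π - r) * σ), (orb t hB e hk c).J (b + (π - r) * σ) r (y (b + (π - r) * σ + r))⟫ =
      (π - r) * ∫ σ in (0 : ℝ)..1, -⟪y (b + (0 + (π - r) * σ)), (orb t hB e hk (shift b c)).J (0 + (π - r) * σ) r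
        (y (b + (0 + (π - r) * σ + r)))⟫
    congr 1
    refine intervalIntegral.integral_congr fun σ _ => ?_
    show -⟪y (b + (π - r) * σ), Jr t hB (shift (b + (π - r) * σ) c) r (y (b + (π - r) * σ + r))⟫ =
      -⟪y (b + (0 + (π - r) * σ)), Jr t hB (shift (0 + (π - r) * σ) (shift b c)) r (y (b + (0 + (π - r) * σ + r)))⟫
    rw [zero_add, shift_comm' b _ c, add_assoc b]
  have h3 : (orb t hB e hk c).er y b = (orb t hB e hk (shift b c)).er (fun s => y (b + s)) 0 := by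
    unfold RD.er
    refine intervalIntegral.integral_congr fun r _ => ?_
    show Jr t hB (shift b c) r (y (b + r)) = Jr t hB (shift 0 (shift b c)) r (y (b + (0 + r)))
    rw [zero_add, shift_zero]
  rw [h2, h3]
  exact h1

/-- **the window inequality with uniform constants** -/
theorem exists_win (hΦ : ContDiff ℝ ∞ Φ) (hN : NegData 𝒜 κ hB C P) (hQ : ∀ c ξ, QB 𝒜 C c ξ ξ = QW 𝒜 hB (kf e Φ ξ) c) :
    ∃ C' : ℝ, 0 ≤ C' ∧ ∀ (c : Gs M) (μ : ℝ), OD.Win (orb t hB e hk c).od C' μ := by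
  obtain ⟨CJ, hC0, hCJ⟩ := exists_bound_Jr t hB e hk
  obtain ⟨Ck, hk0, hCk⟩ := exists_bound_Kop t hB e hk hΦ
  obtain ⟨a, ha, hlow⟩ := exists_lower t hB e hk hΦ hN hQ
  have hCp : 0 ≤ 2 * CJ * (2 * π * Ck / a) := by positivity
  refine ⟨8 * (2 * CJ * (2 * π * Ck / a)), by positivity, fun c μ => ?_⟩
  exact RD.win hCp (rwin_orb t hB e hk hC0 hCp hCJ (fun c => ro_orb t hB e hk hΦ hN hQ hC0 hCJ hk0 hCk ha hlow c) c) μ

end Pool.Agent.Lib.MP_ccbbf6_gt.K7.GG
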