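import Pool.Agent.Lib.MP_ccbbf6_gt.K7.GJ6

/-!
# Level 5, kappa = 7, block G, GJ7: the twisted densities `kGo` of a good section, the form of `LamG` (helper2)
-/

set_option autoImplicit false
set_option linter.unusedSectionVars false
set_option linter.unusedVariables false

open Set Filter Topology Metric Real Module
open scoped ContDiff RealInnerProductSpace ComplexConjugate

noncomputable section

namespace Pool.Agent.Lib.MP_ccbbf6_gt.K7.GG

open L4 Geo L4.ORI L5 L5.NEG RG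

variable {n : ℕ} {M : Type*} [MetricSpace M] [CompactSpace M] {𝒜 : SDist n M}

/-! ### real lemmas -/

theorem int4 {g g2 : ℝ → ℝ} (hg : Continuous g) (hg2 : Continuous g2) (h1 : ∀ s, g (s + π) = g2 s) (h2 : ∀ s, g2 (s + π) = g s) :
    ∫ s in (0 : ℝ)..(4 * π), g s = 2 * ∫ s in (0 : ℝ)..π, (g s + g2 s) := by
  have e1 : ∫ s in (0 : ℝ)..(2 * π), g s = ∫ s in (0 : ℝ)..π, (g s + g2 s) := by
    rw [intervalIntegral.integral_add (hg.intervalIntegrable _ _) (hg2.intervalIntegrable _ _),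
      ← intervalIntegral.integral_add_adjacent_intervals (hg.intervalIntegrable 0 π) (hg.intervalIntegrable π (2 * π))]
    have h3 : ∫ s in (0 : ℝ)..π, g (s + π) = ∫ s in (0 + π : ℝ)..(π + π), g s := intervalIntegral.integral_comp_add_right g π
    rw [zero_add, ← two_mul] at h3
    rw [← h3]
    simp only [h1]
  have e2 : ∫ s in (2 * π : ℝ)..(4 * π), g s = ∫ s in (0 : ℝ)..(2 * π), g s := by
    have h3 : ∫ s in (0 : ℝ)..(2 * π), g (s + 2 * π) = ∫ s in (0 + 2 * π : ℝ)..(2 * π + 2 * π), g s :=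
      intervalIntegral.integral_comp_add_right g (2 * π)
    have h4 : 2 * π + 2 * π = 4 * π := by ring
    rw [zero_add, h4] at h3
    rw [← h3]
    refine intervalIntegral.integral_congr fun s _ => ?_
    show g (s + 2 * π) = g s
    have h5 : s + 2 * π = s + π + π := by ring
    rw [h5, h1, h2]
  rw [← intervalIntegral.integral_add_adjacent_intervals (hg.intervalIntegrable 0 (2 * π)) (hg.intervalIntegrable (2 * π) (4 * π)),
    e2, e1]
  ring

theorem pu_half (r : ℝ) (w : ℂ) : (OD.pu (1 / 2) r * w).re = (√2 / 2) * ((ph (1 / 2) r * w).re + (ph (1 / 2) r * w).im) := by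
  have h1 : OD.pu (1 / 2) r = (((√2 / 2 : ℝ) : ℂ) - ((√2 / 2 : ℝ) : ℂ) * Complex.I) * ph (1 / 2) r := by
    have h2 : ((√2 / 2 : ℝ) : ℂ) - ((√2 / 2 : ℝ) : ℂ) * Complex.I = Complex.exp (((-(π / 4) : ℝ) : ℂ) * Complex.I) := by
      rw [Complex.exp_mul_I, ← Complex.ofReal_cos, ← Complex.ofReal_sin, Real.cos_neg, Real.sin_neg, Real.cos_pi_div_four,
        Real.sin_pi_div_four, Complex.ofReal_neg, neg_mul, sub_eq_add_neg]
    rw [h2]
    unfold OD.pu ph
    rw [← Complex.exp_add]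
    congr 1
    push_cast
    ring
  obtain ⟨v, hv⟩ : ∃ v, v = ph (1 / 2) r * w := ⟨_, rfl⟩
  rw [h1, mul_assoc, ← hv]
  simp only [Complex.mul_re, Complex.sub_re, Complex.sub_im, Complex.mul_im, Complex.ofReal_re, Complex.ofReal_im, Complex.I_re,
    Complex.I_im]
  ring

/-! ### the twisted density on the orbit -/

namespace RD

variable {D : ℕ} {R : RD D} {z : ℝ → HC D}

theorem tw_pi (hz : R.od.Den z) (s : ℝ) : tw (1 / 2) z (s + π) = -(Complex.I • cxL D (R.T s) (tw (1 / 2) z s)) := by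
  unfold tw
  rw [hz.odd, map_smul, smul_neg, smul_smul]
  have h1 : Complex.exp (Complex.I * ((1 / 2 * (s + π) : ℝ) : ℂ)) = Complex.I * Complex.exp (Complex.I * ((1 / 2 * s : ℝ) : ℂ)) := by
    have h2 : Complex.I * ((1 / 2 * (s + π) : ℝ) : ℂ) = (π / 2 : ℂ) * Complex.I + Complex.I * ((1 / 2 * s : ℝ) : ℂ) := by
      push_cast
      ring
    rw [h2, Complex.exp_add, Complex.exp_pi_div_two_mul_I]
  rw [h1]
  rfl

theorem re_tw_pi (hz : R.od.Den z) (s : ℝ) : reH D (tw (1 / 2) z (s + π)) = R.T s (imH D (tw (1 / 2) z s)) := by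
  rw [tw_pi hz, map_neg, reH_smul, Complex.I_re, Complex.I_im, zero_smul, one_smul, imH_cxL, zero_sub, neg_neg]

theorem im_tw_pi (hz : R.od.Den z) (s : ℝ) : imH D (tw (1 / 2) z (s + π)) = -R.T s (reH D (tw (1 / 2) z s)) := by
  rw [tw_pi hz, map_neg, imH_smul, Complex.I_re, Complex.I_im, zero_smul, one_smul, reH_cxL, add_zero]

theorem ry_T {y y' : ℝ → HR D} (hy : R.RDen y) (h : ∀ s, y' (s + π) = R.T s (y s)) (s r : ℝ) :
    R.ry y' (s + π) r = R.ry y s r := by
  unfold ry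
  have h1 : s + π + r = s + r + π := by ring
  have h2 : R.J (s + π) r (R.T (s + r) (y (s + r))) = R.T s (R.J s r (y (s + r))) := by
    have h3 := R.TJ s (r + π) (R.T (s + r) (y (s + r)))
    have h4 : r + π - π = r := by ring
    rw [R.shR, h4] at h3
    exact h3.symm
  rw [h1, h, h, h2, R.inT _ _ _ (hy.mem s) (R.PJ _ _ _)]

theorem ry_neg (y : ℝ → HR D) (s r : ℝ) : R.ry (fun s => -y s) s r = R.ry y s r := by
  unfold ry
  rw [map_neg, inner_neg_neg]

/-- the integral over `4 π` of the real form -/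
theorem int_ry4 (hz : R.od.Den z) : ∫ s in (0 : ℝ)..(4 * π), ∫ r in (0 : ℝ)..π, R.ry (fun s => reH D (tw (1 / 2) z s)) s r =
    2 * √2 * R.od.Fm (1 / 2) z z := by
  obtain ⟨y1, hy1⟩ : ∃ y1 : ℝ → HR D, y1 = fun s => reH D (tw (1 / 2) z s) := ⟨_, rfl⟩
  obtain ⟨y2, hy2⟩ : ∃ y2 : ℝ → HR D, y2 = fun s => imH D (tw (1 / 2) z s) := ⟨_, rfl⟩
  have d1 : R.RDen y1 := by rw [hy1]; exact Den_re hz _
  have d2 : R.RDen y2 := by rw [hy2]; exact Den_im hz _
  have c1 : Continuous fun p : ℝ × ℝ => R.ry y1 p.1 p.2 := cont_ry d1.cont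
  have c2 : Continuous fun p : ℝ × ℝ => R.ry y2 p.1 p.2 := cont_ry d2.cont
  rw [← hy1, swap_cont (f := fun s r => R.ry y1 s r) c1]
  have e1 : ∀ r, ∫ s in (0 : ℝ)..(4 * π), R.ry y1 s r = 2 * (OD.pu (1 / 2) r * R.od.Gk z z r).re := by
    intro r
    have a1 : Continuous fun s => R.ry y1 s r := c1.comp (continuous_id.prodMk continuous_const)
    have a2 : Continuous fun s => R.ry y2 s r := c2.comp (continuous_id.prodMk continuous_const)
    rw [int4 a1 a2 (fun s => ry_T d2 (fun s => by rw [hy1, hy2]; exact re_tw_pi hz s) s r) (fun s => by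
      have h1 := ry_T (R := R) (y := y1) (y' := fun s => -y2 s) d1 (fun s => by
        show -y2 (s + π) = _
        rw [hy1, hy2]
        show -imH D (tw (1 / 2) z (s + π)) = _
        rw [im_tw_pi hz, neg_neg]) s r
      rw [ry_neg] at h1
      exact h1)]
    congr 1
    unfold OD.Gk
    rw [← intervalIntegral.integral_const_mul]
    have h2 : Continuous fun s => OD.pu (1 / 2) r * R.od.vk z z s r := continuous_const.mul (OD.cont_vk_s hz.cont hz.cont r)
    rw [re_int h2]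
    refine intervalIntegral.integral_congr fun s _ => ?_
    show R.ry y1 s r + R.ry y2 s r = (OD.pu (1 / 2) r * R.od.vk z z s r).re
    rw [re_vk, hy1, hy2]
  simp only [e1]
  have e2 : ∀ r, 2 * (OD.pu (1 / 2) r * R.od.Gk z z r).re =
      √2 * ((ph (1 / 2) r * R.od.Gk z z r).re + (ph (1 / 2) r * R.od.Gk z z r).im) := by
    intro r
    rw [pu_half]
    ring
  simp only [e2]
  have hc := OD.cont_phG (O := R.od) hz.cont hz.cont (1 / 2)
  have hr : Continuous fun r => (ph (1 / 2) r * R.od.Gk z z r).re := Complex.continuous_re.comp hc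
  have hi : Continuous fun r => (ph (1 / 2) r * R.od.Gk z z r).im := Complex.continuous_im.comp hc
  rw [intervalIntegral.integral_const_mul, intervalIntegral.integral_add (hr.intervalIntegrable _ _) (hi.intervalIntegrable _ _),
    OD.im_zero hz]
  unfold OD.Fm
  ring

end RD

variable {t : TEmb 𝒜} {hB : Bl M} {N : ℕ}

/-! ### the twisted densities -/

/-- the twisted densities of a section -/
def kGo (t : TEmb 𝒜) (U : Gs M → (Eu N →L[ℝ] HC t.D)) (x y : Eu N) (c : Gs M) : Eu n := tA t (c.1 0) (reH t.D (zc t U x y c 0))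

variable {U : Gs M → (Eu N →L[ℝ] HC t.D)}

theorem zc_add (x x' y y' : Eu N) (c : Gs M) (s : ℝ) : zc t U (x + x') (y + y') c s = zc t U x y c s + zc t U x' y' c s := by
  unfold zc
  rw [map_add, map_add, smul_add]
  abel

theorem zc_smul (r : ℝ) (x y : Eu N) (c : Gs M) (s : ℝ) : zc t U (r • x) (r • y) c s = r • zc t U x y c s := by
  unfold zc
  rw [map_smul, map_smul, smul_add, smul_comm Complex.I]

/-- rotation of the argument -/
theorem zc_rot (θ : ℝ) (x y : Eu N) (c : Gs M) (s : ℝ) :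
    zc t U (Real.cos θ • x - Real.sin θ • y) (Real.sin θ • x + Real.cos θ • y) c s =
      Complex.exp (Complex.I * (θ : ℂ)) • zc t U x y c s := by
  have h1 : Complex.exp (Complex.I * (θ : ℂ)) = ((Real.cos θ : ℝ) : ℂ) + ((Real.sin θ : ℝ) : ℂ) * Complex.I := by
    rw [mul_comm, Complex.exp_mul_I, ← Complex.ofReal_cos, ← Complex.ofReal_sin]
  unfold zc
  rw [h1, map_sub, map_add, map_smul, map_smul, map_smul, map_smul]
  obtain ⟨a, ha⟩ : ∃ a, a = U (shift s c) x := ⟨_, rfl⟩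
  obtain ⟨b, hb⟩ : ∃ b, b = U (shift s c) y := ⟨_, rfl⟩
  rw [← ha, ← hb]
  simp only [← Complex.coe_smul, smul_add, smul_smul, add_smul]
  have h2 : ((Real.sin θ : ℝ) : ℂ) * Complex.I * Complex.I = -((Real.sin θ : ℝ) : ℂ) := by
    rw [mul_assoc, Complex.I_mul_I, mul_neg_one]
  rw [add_mul, h2, add_smul, neg_smul, mul_comm Complex.I, mul_comm Complex.I]
  abel

theorem zc_shift (x y : Eu N) (c : Gs M) (s : ℝ) : zc t U x y (shift s c) 0 = zc t U x y c s := by
  unfold zc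
  rw [shift_zero]

theorem reH_mem (h : GSec t hB U) (x y : Eu N) (c : Gs M) (s : ℝ) :
    Pr t (shift s c) (reH t.D (zc t U x y c s)) = reH t.D (zc t U x y c s) := by
  rw [← reH_cxL]
  congr 1
  unfold zc
  rw [map_add, map_smul, h.mem, h.mem]

theorem tA_of_Pr {c : Gs M} {y : HR t.D} (h : Pr t c y = y) : tA t (c.1 0) y ∈ NEG.Kc 𝒜 c ∧ tI t (c.1 0) (tA t (c.1 0) y) = y := by
  have h1 : tA t (c.1 0) y = Hc 𝒜 c (tA t (c.1 0) y) := by
    have h2 := congrArg (tA t (c.1 0)) h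
    rw [Pr_apply, tA_tI] at h2
    exact h2.symm
  refine ⟨by rw [h1]; exact Hc_mem _ _, ?_⟩
  have h3 := h
  rw [Pr_apply, ← h1] at h3
  exact h3

theorem kGo_shift (x y : Eu N) (c : Gs M) (s : ℝ) : kGo t U x y (shift s c) = tA t ((shift s c).1 0) (reH t.D (zc t U x y c s)) := by
  unfold kGo
  rw [zc_shift]

theorem kGo_mem (h : GSec t hB U) (x y : Eu N) (c : Gs M) : kGo t U x y c ∈ NEG.Kc 𝒜 c := by
  have h1 := reH_mem h x y c 0
  rw [shift_zero] at h1
  exact (tA_of_Pr h1).1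

theorem tI_kGo (h : GSec t hB U) (x y : Eu N) (c : Gs M) : tI t (c.1 0) (kGo t U x y c) = reH t.D (zc t U x y c 0) := by
  have h1 := reH_mem h x y c 0
  rw [shift_zero] at h1
  exact (tA_of_Pr h1).2

theorem tw_rot (x y : Eu N) (c : Gs M) (s : ℝ) :
    zc t U (Real.cos (s / 2) • x - Real.sin (s / 2) • y) (Real.sin (s / 2) • x + Real.cos (s / 2) • y) c s =
      RD.tw (1 / 2) (zc t U x y c) s := by
  rw [zc_rot]
  unfold RD.tw
  have h1 : (1 / 2 * s : ℝ) = s / 2 := by ring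
  rw [h1]

section orb

variable [Nonempty (Gs M)] (e : Emb n 𝒜) {κ : ℕ} (hk : 𝒜.HK κ)

/-- the density of `LamG` -/
theorem LamG_eq (h : GSec t hB U) (x y : Eu N) (c : Gs M) (s : ℝ) :
    LamG 𝒜 hB (kGo t U) (shift s c) (Real.cos (s / 2) • x - Real.sin (s / 2) • y) (Real.sin (s / 2) • x + Real.cos (s / 2) • y) =
      ∫ r in (0 : ℝ)..π, (orb t hB e hk c).ry (fun s => reH t.D (RD.tw (1 / 2) (zc t U x y c) s)) s r := by
  obtain ⟨x', hx'⟩ : ∃ x', x' = Real.cos (s / 2) • x - Real.sin (s / 2) • y := ⟨_, rfl⟩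
  obtain ⟨y', hy'⟩ : ∃ y', y' = Real.sin (s / 2) • x + Real.cos (s / 2) • y := ⟨_, rfl⟩
  rw [← hx', ← hy']
  unfold LamG
  rw [← intervalIntegral.integral_neg]
  refine intervalIntegral.integral_congr fun r _ => ?_
  show -⟪kGo t U x' y' (shift s c), JG 𝒜 hB (shift s c) r (kGo t U (Real.cos (r / 2) • x' - Real.sin (r / 2) • y')
    (Real.sin (r / 2) • x' + Real.cos (r / 2) • y') (shift r (shift s c)))⟫ =
    -⟪reH t.D (RD.tw (1 / 2) (zc t U x y c) s), Jr t hB (shift s c) r (reH t.D (RD.tw (1 / 2) (zc t U x y c) (s + r)))⟫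
  have h1 : reH t.D (RD.tw (1 / 2) (zc t U x y c) s) = tI t ((shift s c).1 0) (kGo t U x' y' (shift s c)) := by
    rw [tI_kGo h, zc_shift, hx', hy', tw_rot]
  have h2 : reH t.D (RD.tw (1 / 2) (zc t U x y c) (s + r)) = tI t ((shift r (shift s c)).1 0)
      (kGo t U (Real.cos (r / 2) • x' - Real.sin (r / 2) • y') (Real.sin (r / 2) • x' + Real.cos (r / 2) • y') (shift r (shift s c))) := by
    rw [tI_kGo h, zc_shift, zc_rot]
    have e1 : zc t U x' y' (shift s c) r = Complex.exp (Complex.I * ((s / 2 : ℝ) : ℂ)) • zc t U x y c (s + r) := by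
      rw [hx', hy', zc_rot]
      congr 1
      unfold zc
      rw [shift_comm' s r c]
    rw [e1, smul_smul, ← Complex.exp_add]
    unfold RD.tw
    have e2 : Complex.I * ((1 / 2 * (s + r) : ℝ) : ℂ) = Complex.I * ((r / 2 : ℝ) : ℂ) + Complex.I * ((s / 2 : ℝ) : ℂ) := by
      push_cast
      ring
    rw [e2]
  rw [h1, h2, inner_Jr_tI t hB (shift s c) r (kGo_mem h _ _ _) (kGo_mem h _ _ _)]

/-- **the form of `kGo`** -/
theorem LamG_int (h : GSec t hB U) (x y : Eu N) (c : Gs M) :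
    ∫ s in (0 : ℝ)..(4 * π), LamG 𝒜 hB (kGo t U) (shift s c) (Real.cos (s / 2) • x - Real.sin (s / 2) • y)
      (Real.sin (s / 2) • x + Real.cos (s / 2) • y) = 2 * √2 * (orb t hB e hk c).od.Fm (1 / 2) (zc t U x y c) (zc t U x y c) := by
  rw [← RD.int_ry4 (h.den e hk x y c)]
  exact intervalIntegral.integral_congr fun s _ => LamG_eq e hk h x y c s

/-- **`GKer` of a good section with a positive form** -/
theorem gker_sec (h : GSec t hB U) {P : Gs M → Eu N →L[ℝ] Eu N} {ρ : ℝ} (hρ : 0 < ρ)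
    (hpos : ∀ c x y, P c x = x → P c y = y → ρ * (‖x‖ ^ 2 + ‖y‖ ^ 2) ≤
      (orb t hB e hk c).od.Fm (1 / 2) (zc t U x y c) (zc t U x y c)) : GKer 𝒜 hB P (kGo t U) := by
  refine ⟨fun x x' y y' c => ?_, fun r x y c => ?_, fun x y c => kGo_mem h x y c, ?_, 2 * √2 * ρ, by positivity,
    fun c x y hx hy => ?_⟩
  · unfold kGo
    rw [zc_add, map_add, map_add]
  · unfold kGo
    rw [zc_smul, map_smul, map_smul]
  · intro F _ _ σ x y u p hσ hx hy hp
    refine smV_tA t hσ.1 hp ?_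
    have h1 : ContDiffAt ℝ ∞ (fun v => U (σ v)) u := h.sm hσ
    have h2 : ContDiffAt ℝ ∞ (fun v => U (σ v) (x v)) u := h1.clm_apply hx
    have h3 : ContDiffAt ℝ ∞ (fun v => U (σ v) (y v)) u := h1.clm_apply hy
    have h4 : ContDiffAt ℝ ∞ (fun v => reH t.D (U (σ v) (x v)) - imH t.D (U (σ v) (y v))) u :=
      ((reH t.D).contDiff.contDiffAt.comp u h2).sub ((imH t.D).contDiff.contDiffAt.comp u h3)
    refine h4.congr_of_eventuallyEq (Eventually.of_forall fun v => ?_)
    show reH t.D (zc t U (x v) (y v) (σ v) 0) = _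
    unfold zc
    rw [shift_zero, map_add, reH_smul, Complex.I_re, Complex.I_im, zero_smul, one_smul, zero_sub, ← sub_eq_add_neg]
  · rw [LamG_int e hk h, mul_assoc]
    exact mul_le_mul_of_nonneg_left (hpos c x y hx hy) (by positivity)

end orb

end Pool.Agent.Lib.MP_ccbbf6_gt.K7.GG
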