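import Pool.Agent.Lib.MP_ccbbf6_gt.K7.GG8
import Pool.Agent.Lib.MP_ccbbf6_gt.K7.GJ5
import Pool.Agent.Lib.MP_ccbbf6_gt.K7.GJ7

/-!
# Level 5, kappa = 7, block G, GJ8: the odd section `Z0` of the negative bundle, `exists_GKer` (helper2)
-/

set_option autoImplicit false
set_option linter.unusedSectionVars false
set_option linter.unusedVariables false

open Set Filter Topology Metric Real Module
open scoped ContDiff RealInnerProductSpace ComplexConjugate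

noncomputable section

namespace Pool.Agent.Lib.MP_ccbbf6_gt.K7.GG

open L4 Geo L4.ORI L5 L5.NEG RG

variable {n : ℕ} {M : Type*} [MetricSpace M] [CompactSpace M] {𝒜 : SDist n M}
variable (t : TEmb 𝒜) (hB : Bl M) (e : Emb n 𝒜) {N : ℕ} (Φ : e.Q → (Eu N →L[ℝ] EuclideanSpace ℝ (Fin e.q)))

/-- the odd part of the family -/
def Ko (c : Gs M) : Eu N →L[ℝ] HR t.D :=
  (1 / 2 : ℝ) • (Kop t e Φ c - (Tr t hB (shift π c)).comp (Kop t e Φ (shift π c)))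

/-- its complexification -/
def Z0 (c : Gs M) : Eu N →L[ℝ] HC t.D := (cx t.D).comp (Ko t hB e Φ c)

theorem Ko_apply (c : Gs M) (x : Eu N) : Ko t hB e Φ c x =
    (1 / 2 : ℝ) • (Kop t e Φ c x - Tr t hB (shift π c) (Kop t e Φ (shift π c) x)) := rfl

theorem Z0_apply (c : Gs M) (x : Eu N) : Z0 t hB e Φ c x = cx t.D (Ko t hB e Φ c x) := rfl

theorem cxL_cx {D : ℕ} (A : HR D →L[ℝ] HR D) (y : HR D) : cxL D A (cx D y) = cx D (A y) := by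
  refine ext_H ?_ ?_
  · rw [reH_cxL, reH_cx, reH_cx]
  · rw [imH_cxL, imH_cx, map_zero, imH_cx]

/-- transport of the projection -/
theorem PrTr (c : Gs M) (y : HR t.D) : Pr t (shift π c) (Tr t hB c y) = Tr t hB c y := by
  have : Nonempty (Gs M) := ⟨c⟩
  rw [Tr_apply, Pr_tI t _ (thK_mem hB (Hc_mem _ _))]

theorem TrTr (c : Gs M) {y : HR t.D} (hy : Pr t c y = y) : Tr t hB (shift π c) (Tr t hB c y) = y := by
  have : Nonempty (Gs M) := ⟨c⟩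
  have h1 := Tr_tI t hB (shift π c) (thK_mem hB (Hc_mem c (tA t (c.1 0) y)))
  rw [Tr_apply t hB c, h1, shift_pp hB 𝒜, thK_thK hB (Hc_mem _ _)]
  exact hy

theorem Pr_Kop (c : Gs M) (x : Eu N) : Pr t c (Kop t e Φ c x) = Kop t e Φ c x :=
  have : Nonempty (Gs M) := ⟨c⟩
  Pr_tI t c (kf_mem e Φ x c)

theorem Pr_Ko (c : Gs M) (x : Eu N) : Pr t c (Ko t hB e Φ c x) = Ko t hB e Φ c x := by
  have h1 := PrTr t hB (shift π c) (Kop t e Φ (shift π c) x)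
  rw [shift_pp hB 𝒜] at h1
  rw [Ko_apply, map_smul, map_sub, Pr_Kop, h1]

theorem Ko_odd (c : Gs M) (x : Eu N) : Ko t hB e Φ (shift π c) x = -Tr t hB c (Ko t hB e Φ c x) := by
  have h1 := TrTr t hB (shift π c) (Pr_Kop t e Φ (shift π c) x)
  rw [shift_pp hB 𝒜] at h1
  rw [Ko_apply, Ko_apply, map_smul, map_sub, shift_pp hB 𝒜, h1, ← smul_neg, neg_sub]

variable {Φ}

theorem sm_Ko {κ : ℕ} (hk : 𝒜.HK κ) (hΦ : ContDiff ℝ ∞ Φ) : SmF 𝒜 (Ko t hB e Φ) := by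
  intro F _ _ σ u hσ
  have hs : SmGAt 𝒜 (fun v => shift π (σ v)) u := hσ.shift hB contDiffAt_const
  have h1 : ContDiffAt ℝ ∞ (fun v => Kop t e Φ (σ v)) u := Kop_smooth t hB e hk hΦ hσ
  have h2 : ContDiffAt ℝ ∞ (fun v => Kop t e Φ (shift π (σ v))) u := Kop_smooth t hB e hk hΦ hs
  have h3 : ContDiffAt ℝ ∞ (fun v => Tr t hB (shift π (σ v))) u := Tr_smooth t hB hk hs
  exact (h1.sub (h3.clm_comp h2)).const_smul (1 / 2 : ℝ)

theorem gsec_Z0 {κ : ℕ} (hk : 𝒜.HK κ) (hΦ : ContDiff ℝ ∞ Φ) : GSec t hB (Z0 t hB e Φ) := by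
  refine ⟨?_, fun c x => ?_, fun c x => ?_⟩
  · intro F _ _ σ u hσ
    exact contDiffAt_const.clm_comp (sm_Ko t hB e hk hΦ hσ)
  · rw [Z0_apply, cxL_cx, Pr_Ko]
  · rw [Z0_apply, Z0_apply, cxL_cx, Ko_odd, map_neg]

section orb

variable [Nonempty (Gs M)] {κ : ℕ} (hk : 𝒜.HK κ)

theorem per2_orb (c : Gs M) : (orb t hB e hk c).Per2 := by
  refine ⟨fun s r => ?_, fun s r => ?_, fun s => ?_, fun s => ?_, ?_, fun s y hy => ?_, fun s y hy => ?_⟩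
  · rw [orb_J, orb_J, Jr_per]
  · rw [orb_J, orb_J, gs_shift_per 𝒜 hB]
  · rw [orb_P, orb_P, gs_shift_per 𝒜 hB]
  · rw [orb_T, orb_T, gs_shift_per 𝒜 hB]
  · exact (cont_Tr' t hB e hk).comp (gs_continuous_shift.comp (Continuous.prodMk_left c))
  · rw [orb_P, orb_T, ← shift_comm' s π c, PrTr]
  · rw [orb_T, orb_T, ← shift_comm' s π c]
    exact TrTr t hB (shift s c) hy

theorem Ko_oddp (c : Gs M) (x : Eu N) (s : ℝ) :
    Ko t hB e Φ (shift s c) x = (orb t hB e hk c).oddp (ts t (kf e Φ x) c) s := by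
  rw [Ko_apply, shift_comm' s π c]
  rfl

theorem reH_zc0 (x y : Eu N) (c : Gs M) (s : ℝ) :
    reH t.D (zc t (Z0 t hB e Φ) x y c s) = (orb t hB e hk c).oddp (ts t (kf e Φ x) c) s := by
  unfold zc
  rw [Z0_apply, Z0_apply, reH_mk, Ko_oddp t hB e hk]

theorem imH_zc0 (x y : Eu N) (c : Gs M) (s : ℝ) :
    imH t.D (zc t (Z0 t hB e Φ) x y c s) = (orb t hB e hk c).oddp (ts t (kf e Φ y) c) s := by
  unfold zc
  rw [Z0_apply, Z0_apply, imH_mk, Ko_oddp t hB e hk]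

/-- **the form at `μ = 0`** -/
theorem F0_eq (hΦ : ContDiff ℝ ∞ Φ) (x y : Eu N) (c : Gs M) :
    (orb t hB e hk c).od.Fm 0 (zc t (Z0 t hB e Φ) x y c) (zc t (Z0 t hB e Φ) x y c) =
      (1 / 4) * (QW 𝒜 hB (kf e Φ x) c + QW 𝒜 hB (kf e Φ y) c) := by
  have hx : (orb t hB e hk c).PDen (ts t (kf e Φ x) c) :=
    ts_pden t hB e hk (cont_sec t hB e fun hσ hp => smV_kf' hB e hk hΦ x hσ hp) (kf_mem e Φ x) c
  have hy : (orb t hB e hk c).PDen (ts t (kf e Φ y) c) :=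
    ts_pden t hB e hk (cont_sec t hB e fun hσ hp => smV_kf' hB e hk hΦ y hσ hp) (kf_mem e Φ y) c
  have h1 : (fun s => reH t.D (zc t (Z0 t hB e Φ) x y c s)) = (orb t hB e hk c).oddp (ts t (kf e Φ x) c) :=
    funext fun s => reH_zc0 t hB e hk x y c s
  have h2 : (fun s => imH t.D (zc t (Z0 t hB e Φ) x y c s)) = (orb t hB e hk c).oddp (ts t (kf e Φ y) c) :=
    funext fun s => imH_zc0 t hB e hk x y c s
  rw [RD.Fm_zero ((gsec_Z0 t hB e hk hΦ).den e hk x y c), h1, h2, RD.BR_oddp (per2_orb t hB e hk c) hx,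
    RD.BR_oddp (per2_orb t hB e hk c) hy, ← QW_eq t hB e hk (kf_mem e Φ x), ← QW_eq t hB e hk (kf_mem e Φ y)]

variable {C : Eu N → Gs M → M} {P : Gs M → Eu N →L[ℝ] Eu N}

include hk in
theorem exists_bound_Z0 (hΦ : ContDiff ℝ ∞ Φ) : ∃ Cz : ℝ, 0 ≤ Cz ∧ ∀ c, ‖Z0 t hB e Φ c‖ ≤ Cz := by
  have h1 : Continuous (Z0 t hB e Φ) := SmF.continuous hB e (fun hσ => (gsec_Z0 t hB e hk hΦ).sm hσ)
  obtain ⟨C, hC⟩ := (isCompact_univ (X := Gs M)).exists_bound_of_continuousOn h1.continuousOn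
  exact ⟨max C 0, le_max_right _ _, fun c => (hC c (mem_univ c)).trans (le_max_left _ _)⟩

include e hk in
/-- bound of the norm of the density -/
theorem n2_zc_le {U : Gs M → (Eu N →L[ℝ] HC t.D)} {Cz : ℝ} (h0 : 0 ≤ Cz) (h : ∀ c, ‖U c‖ ≤ Cz) (hU : GSec t hB U) (x y : Eu N)
    (c : Gs M) : OD.n2 (zc t U x y c) ≤ 8 * Cz ^ 2 * (‖x‖ ^ 2 + ‖y‖ ^ 2) := by
  have hb : ∀ s, ‖zc t U x y c s‖ ^ 2 ≤ 2 * Cz ^ 2 * (‖x‖ ^ 2 + ‖y‖ ^ 2) := by
    intro s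
    have h1 : ‖zc t U x y c s‖ ≤ Cz * (‖x‖ + ‖y‖) := by
      unfold zc
      refine (norm_add_le _ _).trans ?_
      rw [norm_smul, Complex.norm_I, one_mul, mul_add]
      exact add_le_add (((U _).le_opNorm x).trans (mul_le_mul_of_nonneg_right (h _) (norm_nonneg _)))
        (((U _).le_opNorm y).trans (mul_le_mul_of_nonneg_right (h _) (norm_nonneg _)))
    have h2 := pow_le_pow_left₀ (norm_nonneg _) h1 2
    have h3 : (‖x‖ + ‖y‖) ^ 2 ≤ 2 * (‖x‖ ^ 2 + ‖y‖ ^ 2) := by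
      have := sq_nonneg (‖x‖ - ‖y‖)
      linarith [this]
    have h4 := mul_le_mul_of_nonneg_left h3 (sq_nonneg Cz)
    rw [mul_pow] at h2
    linarith
  unfold OD.n2
  have h5 : ∫ s in (0 : ℝ)..π, ‖zc t U x y c s‖ ^ 2 ≤ ∫ s in (0 : ℝ)..π, 2 * Cz ^ 2 * (‖x‖ ^ 2 + ‖y‖ ^ 2) :=
    intervalIntegral.integral_mono_on pi_pos.le ((((hU.den e hk x y c).cont).norm.pow 2).intervalIntegrable _ _)
      (continuous_const.intervalIntegrable _ _) fun s _ => hb s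
  rw [intervalIntegral.integral_const, sub_zero, smul_eq_mul] at h5
  have h6 : 0 ≤ 2 * Cz ^ 2 * (‖x‖ ^ 2 + ‖y‖ ^ 2) := by positivity
  have h7 := mul_le_mul_of_nonneg_right pi_le_four h6
  linarith

/-- **the output of block G**: for every small `δ` there are steps for all orbits, and the twisted densities `kGo` of the section
after all steps -/
theorem exists_GKer (hΦ : ContDiff ℝ ∞ Φ) (hN : NegData 𝒜 κ hB C P) (hQ : ∀ c ξ, QB 𝒜 C c ξ ξ = QW 𝒜 hB (kf e Φ ξ) c) :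
    ∃ δ0 : ℝ, 0 < δ0 ∧ ∀ δ : ℝ, 0 < δ → δ ≤ δ0 →
      (∀ c x y, P c x = x → P c y = y → δ * OD.n2 (zc t (Z0 t hB e Φ) x y c) ≤
        (orb t hB e hk c).od.Fm 0 (zc t (Z0 t hB e Φ) x y c) (zc t (Z0 t hB e Φ) x y c)) ∧
      ∃ (μ0 K h : ℝ) (m : ℕ) (δ' : ℝ), 0 < μ0 ∧ μ0 < 1 / 2 ∧ 0 < K ∧ 0 < h ∧ μ0 + m * h = 1 / 2 ∧ 0 < δ' ∧
        (∀ c, OD.Steps δ μ0 K h m δ' (orb t hB e hk c).od) ∧
        GKer 𝒜 hB P (kGo t (Uop t hB (h * K) μ0 h m (Z0 t hB e Φ))) := by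
  obtain ⟨CJ, hC0, hCJ⟩ := exists_bound_Jr t hB e hk
  obtain ⟨C', hC', hwin⟩ := exists_win t hB e hk hΦ hN hQ
  obtain ⟨Cz, hz0, hCz⟩ := exists_bound_Z0 t hB e hk hΦ
  obtain ⟨δN, hδN, hpN⟩ := hN.pos
  have hF0 : ∀ c x y, P c x = x → P c y = y → (δN / 4) * (‖x‖ ^ 2 + ‖y‖ ^ 2) ≤
      (orb t hB e hk c).od.Fm 0 (zc t (Z0 t hB e Φ) x y c) (zc t (Z0 t hB e Φ) x y c) := by
    intro c x y hx hy
    rw [F0_eq t hB e hk hΦ]
    have h1 := hpN c x hx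
    have h2 := hpN c y hy
    rw [hQ] at h1 h2
    linarith
  have hJc : ∀ c s r, ‖(orb t hB e hk c).od.J s r‖ ≤ CJ := fun c s r =>
    norm_cxL_le hC0 fun y => ((Jr t hB _ _).le_opNorm y).trans (mul_le_mul_of_nonneg_right (hCJ _ _) (norm_nonneg _))
  have hg0 := gsec_Z0 t hB e hk hΦ
  refine ⟨δN / 4 / (8 * Cz ^ 2 + 1), by positivity, fun δ hδ hδ0 => ⟨fun c x y hx hy => ?_, ?_⟩⟩
  · refine le_trans ?_ (hF0 c x y hx hy)
    have h1 := n2_zc_le t hB e hk hz0 hCz hg0 x y c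
    have h2 : OD.n2 (zc t (Z0 t hB e Φ) x y c) ≤ (8 * Cz ^ 2 + 1) * (‖x‖ ^ 2 + ‖y‖ ^ 2) := by
      have : 0 ≤ ‖x‖ ^ 2 + ‖y‖ ^ 2 := by positivity
      linarith
    calc δ * OD.n2 (zc t (Z0 t hB e Φ) x y c) ≤ (δN / 4 / (8 * Cz ^ 2 + 1)) * ((8 * Cz ^ 2 + 1) * (‖x‖ ^ 2 + ‖y‖ ^ 2)) :=
          mul_le_mul hδ0 h2 (OD.n2_nonneg _) (by positivity)
      _ = _ := by field_simp
  · obtain ⟨μ0, K, h, m, δ', h1, h2, h3, h4, h5, h6, h7⟩ := exists_steps hC0 hC' hδ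
    have hst : ∀ c, OD.Steps δ μ0 K h m δ' (orb t hB e hk c).od := fun c => h7 _ _ (hJc c) fun μ _ _ => hwin c μ
    refine ⟨μ0, K, h, m, δ', h1, h2, h3, h4, h5, h6, hst, ?_⟩
    refine gker_sec e hk (hg0.uop e hk (h * K) μ0 h m) (ρ := δ' * (δN / 4 / (2 * CJ + 1))) (by positivity) fun c x y hx hy => ?_
    have hd := hg0.den e hk x y c
    have ha : δ * OD.n2 (zc t (Z0 t hB e Φ) x y c) ≤
        (orb t hB e hk c).od.Fm 0 (zc t (Z0 t hB e Φ) x y c) (zc t (Z0 t hB e Φ) x y c) := by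
      refine le_trans ?_ (hF0 c x y hx hy)
      have h1 := n2_zc_le t hB e hk hz0 hCz hg0 x y c
      have h2 : OD.n2 (zc t (Z0 t hB e Φ) x y c) ≤ (8 * Cz ^ 2 + 1) * (‖x‖ ^ 2 + ‖y‖ ^ 2) := by
        have : 0 ≤ ‖x‖ ^ 2 + ‖y‖ ^ 2 := by positivity
        linarith
      calc δ * OD.n2 (zc t (Z0 t hB e Φ) x y c) ≤ (δN / 4 / (8 * Cz ^ 2 + 1)) * ((8 * Cz ^ 2 + 1) * (‖x‖ ^ 2 + ‖y‖ ^ 2)) :=
            mul_le_mul hδ0 h2 (OD.n2_nonneg _) (by positivity)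
        _ = _ := by field_simp
    have hb := (hst c).start _ hd ha
    have hn0 := OD.n2_nonneg (zc t (Z0 t hB e Φ) x y c)
    have hb' : (δ / 8) * OD.n2 (zc t (Z0 t hB e Φ) x y c) ≤ (orb t hB e hk c).od.Fm (μ0 + (0 : ℕ) * h) (zc t (Z0 t hB e Φ) x y c)
        (zc t (Z0 t hB e Φ) x y c) := by
      rw [Nat.cast_zero, zero_mul, add_zero]
      refine le_trans ?_ hb
      exact mul_le_mul_of_nonneg_right (by linarith) hn0
    obtain ⟨hr1, hr2⟩ := (hst c).run 0 m (by omega) _ hd hb'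
    rw [Nat.cast_zero, zero_mul, add_zero, Ust_zc e hk hg0, zero_add, h5] at hr1
    rw [Nat.cast_zero, zero_mul, add_zero, Ust_zc e hk hg0] at hr2
    refine le_trans ?_ hr1
    rw [mul_assoc]
    refine mul_le_mul_of_nonneg_left ?_ h6.le
    refine le_trans ?_ hr2
    have h8 := (le_abs_self _).trans (OD.abs_Fm_le hC0 (hJc c) hd hd 0)
    have h9 : OD.nr (zc t (Z0 t hB e Φ) x y c) * OD.nr (zc t (Z0 t hB e Φ) x y c) = OD.n2 (zc t (Z0 t hB e Φ) x y c) := by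
      rw [← pow_two, OD.nr_sq]
    rw [h9] at h8
    have h10 := (hF0 c x y hx hy).trans h8
    rw [div_mul_eq_mul_div, div_le_iff₀ (by positivity)]
    linarith

end orb

end Pool.Agent.Lib.MP_ccbbf6_gt.K7.GG
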