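import Pool.Agent.Lib.MP_ccbbf6_gt.K7.DP10a
import Pool.Agent.Lib.MP_ccbbf6_gt.K7.DP9b
import Pool.Agent.Lib.MP_ccbbf6_gt.K7.GJ8

/-!
# `κ = 7`, density path, part 12c: the data of the twisted densities (helper92)
-/

set_option autoImplicit false
set_option linter.unusedSectionVars false

open Set Filter Topology Metric Real Module
open scoped ContDiff RealInnerProductSpace

noncomputable section

namespace Pool.Agent.Lib.MP_ccbbf6_gt.K7.DP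

open L4 Geo L4.ORI L5 L5.NEG RG HQ GG

variable {n : ℕ} {M : Type} [MetricSpace M] [CompactSpace M] {𝒜 : SDist n M} [Nonempty (Gs M)]

/-- **the data of the twisted densities and of the bumps** -/
structure GXd (t : TEmb 𝒜) (hB : Bl M) (e : Emb n 𝒜) {κ : ℕ} (hk : 𝒜.HK κ) (N : ℕ)
    (Φ : e.Q → (Eu N →L[ℝ] EuclideanSpace ℝ (Fin e.q))) (P : Gs M → Eu N →L[ℝ] Eu N) (kG : Eu N → Eu N → Gs M → Eu n) where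
  mu0 : ℝ
  K : ℝ
  h : ℝ
  m : ℕ
  del : ℝ
  del' : ℝ
  rho : ℝ
  eps : ℝ
  A : ℝ
  CJ : ℝ
  g : ℝ → ℝ
  mu0_pos : 0 < mu0
  K_pos : 0 < K
  h_pos : 0 < h
  hm : mu0 + m * h = 1 / 2
  del_pos : 0 < del
  del_pos' : 0 < del'
  rho_pos : 0 < rho
  hΦ : ContDiff ℝ ∞ Φ
  hkG : kG = kGo t (Uop t hB (h * K) mu0 h m (Z0 t hB e Φ))
  hst : ∀ c, OD.Steps del mu0 K h m del' (orb t hB e hk c).od
  hz : ∀ c x y, P c x = x → P c y = y → rho * OD.n2 (zc t (Z0 t hB e Φ) x y c) ≤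
    (orb t hB e hk c).od.Fm 0 (zc t (Z0 t hB e Φ) x y c) (zc t (Z0 t hB e Φ) x y c)
  hQ : ∀ c x, P c x = x → x ≠ 0 → 0 < QW 𝒜 hB (kf e Φ x) c
  CJ0 : 0 ≤ CJ
  hCJ : ∀ c s r, ‖(orb t hB e hk c).od.J s r‖ ≤ CJ
  geo : ∀ c, OD.Geo (orb t hB e hk c).od A
  bmp : OD.Bmp g eps
  small : OD.Small A eps
  g_smooth : ContDiff ℝ ∞ g
  mass : ∫ s in (-(π / 2))..π / 2, g s = 1
  cor : 0 < OD.cor g
  hn : ∀ c x y, P c x = x → P c y = y → ∀ s, |s| ≤ eps →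
    ‖(orb t hB e hk c).od.Hm 0 (zc t (Z0 t hB e Φ) x y c) s - (orb t hB e hk c).od.Hm 0 (zc t (Z0 t hB e Φ) x y c) 0‖ ≤
      1 / 4 * ‖(orb t hB e hk c).od.Hm 0 (zc t (Z0 t hB e Φ) x y c) 0‖
  hv : ∀ c x, P c x = x → x ≠ 0 → EvC 𝒜 hB (kf e Φ x) c ≠ 0
  hδm : del ≤ OD.dmix g rho
  arcs : ∀ (c : Gs M) (k0 k1 k2 : Eu n), k0 ∈ NEG.Kc 𝒜 c → k1 ∈ NEG.Kc 𝒜 c → k2 ∈ NEG.Kc 𝒜 c →
    ¬(k0 = 0 ∧ k1 = 0 ∧ k2 = 0) → ∀ τ ∈ Icc (0 : ℝ) 1,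
      H8 𝒜 c (fun i => (1 - τ) • XE t hB c (Yb t hB e hk g c (tI t (c.1 0) k0) (tI t (c.1 0) k1) (tI t (c.1 0) k2)) i +
        τ • av 𝒜 hB c (rv k0 k1 k2) i) < 0

/-- the statement for helper25: **existence of the data** (file DP12e) -/
def ExistsGX (t : TEmb 𝒜) (hB : Bl M) (e : Emb n 𝒜) {κ : ℕ} (hk : 𝒜.HK κ) : Prop :=
  ∀ (N : ℕ) (Φ : e.Q → (Eu N →L[ℝ] EuclideanSpace ℝ (Fin e.q))) (C : Eu N → Gs M → M) (P : Gs M → Eu N →L[ℝ] Eu N),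
    ContDiff ℝ ∞ Φ → NegData 𝒜 κ hB C P → (∀ c ξ, QB 𝒜 C c ξ ξ = QW 𝒜 hB (kf e Φ ξ) c) →
      ∃ kG : Eu N → Eu N → Gs M → Eu n, GKer 𝒜 hB P kG ∧ Nonempty (GXd t hB e hk N Φ P kG)

end Pool.Agent.Lib.MP_ccbbf6_gt.K7.DP
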