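import Pool.Agent.Lib.MP_ccbbf6_gt.K7.RG7

/-!
# `κ = 7`, block G1/G2, GH2: `QB_nonpos` in terms of the section (statements of helper2, proofs helper93)
-/

set_option autoImplicit false
set_option linter.unusedSectionVars false
set_option linter.unusedVariables false

open Set Filter Topology Metric Real Module
open scoped ContDiff RealInnerProductSpace

noncomputable section

namespace Pool.Agent.Lib.MP_ccbbf6_gt.K7.GG

open L4 Geo L4.ORI L5 L5.NEG RG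

/-! ### the first variation of the push-off -/

section var

variable {n : ℕ} {M : Type*} [MetricSpace M] [CompactSpace M] {𝒜 : SDist n M} [Nonempty (Gs M)]
variable {E : Type} [NormedAddCommGroup E] [NormedSpace ℝ E]
variable {e : Emb n 𝒜} {Ξ : ℝ → E → e.Q → e.Q} {χ : e.Q → ℝ} {ρ : E → ℝ} {k : E → Gs M → Eu n} {R : E → Gs M → Gs M}
variable (hB : Bl M) (hR : RotX 𝒜 k R) (h : PFlowX e R χ ρ Ξ)

omit [Nonempty (Gs M)] in
/-- coordinates in a chart are smooth -/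
theorem smFA_chart (p : M) (a : Eu n) {y : M} (hy : y ∈ (𝒜.ψ p).source) : SmFA 𝒜 (fun x => ⟪a, 𝒜.ψ p x⟫) y := by
  have h1 : ContDiffAt ℝ ∞ (fun u => 𝒜.ψ p ((𝒜.ψ y).symm u)) (𝒜.ψ y y) := 𝒜.trans y p y (𝒜.mem y) hy
  rw [𝒜.zero] at h1
  exact contDiffAt_const.inner ℝ h1

include hB hR h

/-- **the first variation** -/
theorem CX_var (c : Gs M) (x : E) :
    HasDerivAt (fun θ : ℝ => 𝒜.ψ (c.1 0) (CX e Ξ (θ • x) c)) (∫ b in (0 : ℝ)..π, JXr 𝒜 R x c b) 0 := by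
  have hπ := Real.pi_pos
  have hpt : ∀ b : ℝ, 0 ≤ b → (ThX e Ξ b ((0 : ℝ) • x) c).1 (0 - b) = c.1 0 := by
    intro b hb
    rw [zero_smul, ThX_zero hB hR h hb]
    show c.1 (0 - b + b) = c.1 0
    rw [sub_add_cancel]
  have hTh : ∀ b : ℝ, 0 ≤ b → SmAt 𝒜 (fun z : ℝ × ℝ => (ThX e Ξ z.1 (z.2 • x) c).1 (0 - z.1)) (b, 0) := fun b hb =>
    (smooth_ThX hB hR h (smGAt_const c ((b, 0) : ℝ × ℝ)) (t := fun z : ℝ × ℝ => z.1) (x := fun z : ℝ × ℝ => z.2 • x)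
      contDiffAt_fst (contDiffAt_snd.smul contDiffAt_const) hb).ev hB (t := fun z : ℝ × ℝ => 0 - z.1)
      (contDiffAt_const.sub contDiffAt_fst)
  have hTc : ∀ b : ℝ, 0 ≤ b → ContDiffAt ℝ ∞ (fun z : ℝ × ℝ => 𝒜.ψ (c.1 0) ((ThX e Ξ z.1 (z.2 • x) c).1 (0 - z.1))) (b, 0) := by
    intro b hb
    refine (hTh b hb).chart ?_
    simp only [hpt b hb]
    exact 𝒜.mem _
  have hJc : Continuous (fun b => JXr 𝒜 R x c b) := by
    rw [continuous_iff_continuousAt]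
    intro b
    have h1 := (smooth_JXR (𝒜 := 𝒜) hB hR x c (0, b)).continuousAt
    have h2 : ContinuousAt (fun b : ℝ => (((0 : ℝ), b) : ℝ × ℝ)) b := by fun_prop
    have h3 := ContinuousAt.comp (g := fun z : ℝ × ℝ => JXr 𝒜 R x (R (z.1 • x) c) z.2) (f := fun b : ℝ => (((0 : ℝ), b) : ℝ × ℝ))
      (x := b) h1 h2
    simp only [Function.comp_def] at h3
    have h4 : R ((0 : ℝ) • x) c = c := by rw [zero_smul, hR.zero]
    simp only [h4] at h3
    exact h3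
  -- one linear function
  have key : ∀ a : Eu n, HasDerivAt (fun θ : ℝ => ⟪a, 𝒜.ψ (c.1 0) (CX e Ξ (θ • x) c)⟫)
      (∫ b in (0 : ℝ)..π, ⟪a, JXr 𝒜 R x c b⟫) 0 := by
    intro a
    obtain ⟨f, hf⟩ : ∃ f : M → ℝ, f = fun y => ⟪a, 𝒜.ψ (c.1 0) y⟫ := ⟨_, rfl⟩
    have hfs : ∀ y ∈ (𝒜.ψ (c.1 0)).source, SmFA 𝒜 f y := fun y hy => by rw [hf]; exact smFA_chart _ a hy
    let Φ : ℝ × ℝ → ℝ := fun z => f ((ThX e Ξ z.1 (z.2 • x) c).1 (0 - z.1))
    have hΦ : ∀ b : ℝ, 0 ≤ b → ContDiffAt ℝ ∞ Φ (b, 0) := by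
      intro b hb
      have h1 : ContDiffAt ℝ ∞ (fun z : ℝ × ℝ => ⟪a, 𝒜.ψ (c.1 0) ((ThX e Ξ z.1 (z.2 • x) c).1 (0 - z.1))⟫) (b, 0) :=
        contDiffAt_const.inner ℝ (hTc b hb)
      have h2 : Φ = fun z : ℝ × ℝ => ⟪a, 𝒜.ψ (c.1 0) ((ThX e Ξ z.1 (z.2 • x) c).1 (0 - z.1))⟫ := by
        funext z
        show f _ = _
        rw [hf]
      rw [h2]
      exact h1
    have hw : ∀ b : ℝ, 0 < b → HasDerivAt (fun b => deriv (fun θ => Φ (b, θ)) 0) ⟪a, JXr 𝒜 R x c b⟫ b := by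
      intro b hb
      obtain ⟨D, hD1, hD2⟩ := PO.mixed (hΦ b hb.le)
      let m : ℝ → ℝ := fun θ => deriv (fun σ : ℝ => f ((R (σ • x) (ThX e Ξ b (θ • x) c)).1 (0 - b))) 0
      have hRT : SmAt 𝒜 (fun z : ℝ × ℝ => (R (z.2 • x) (ThX e Ξ b (z.1 • x) c)).1 (0 - b)) (0, 0) := by
        have h0 := smooth_ThX hB hR h (smGAt_const c ((0, 0) : ℝ × ℝ)) (t := fun z : ℝ × ℝ => b)
          (x := fun z : ℝ × ℝ => z.1 • x) contDiffAt_const (contDiffAt_fst.smul contDiffAt_const) hb.le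
        exact (hR.smooth (ℝ × ℝ) _ (fun z => z.2 • x) (0, 0) h0 (contDiffAt_snd.smul contDiffAt_const)).ev hB
          (t := fun z : ℝ × ℝ => 0 - b) contDiffAt_const
      have hRT0 : (R ((0 : ℝ) • x) (ThX e Ξ b ((0 : ℝ) • x) c)).1 (0 - b) = c.1 0 := by
        rw [zero_smul ℝ x, hR.zero]
        have := hpt b hb.le
        rw [zero_smul] at this
        exact this
      have hm : ContDiffAt ℝ ∞ m 0 := by
        refine PO.contDiffAt_deriv2' (g := fun z : ℝ × ℝ => f ((R (z.2 • x) (ThX e Ξ b (z.1 • x) c)).1 (0 - b))) ?_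
        refine SmFA.comp_to (𝒜 := 𝒜) (g := f) (r := fun z : ℝ × ℝ => (R (z.2 • x) (ThX e Ξ b (z.1 • x) c)).1 (0 - b)) ?_ hRT
        refine hfs _ ?_
        show (R ((0 : ℝ) • x) (ThX e Ξ b ((0 : ℝ) • x) c)).1 (0 - b) ∈ (𝒜.ψ (c.1 0)).source
        rw [hRT0]
        exact 𝒜.mem _
      have hρc : ContinuousAt (fun θ : ℝ => ρ (θ • x)) 0 :=
        (h.rsm.continuous.comp (f := fun θ : ℝ => θ • x) (by fun_prop)).continuousAt
      have hρ0 : ρ ((0 : ℝ) • x) = 1 := by rw [zero_smul]; exact h.rone.self_of_nhds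
      have hev : (fun θ => deriv (fun b' => Φ (b', θ)) b) =ᶠ[𝓝 0] fun θ => θ * (ρ (θ • x) * m θ) := by
        have hc1 : ContinuousAt (fun θ : ℝ => (ThX e Ξ b (θ • x) c).1 (0 - b)) 0 := by
          have h1 := (hTh b hb.le).cont
          have h2 : ContinuousAt (fun θ : ℝ => (b, θ)) 0 := by fun_prop
          exact ContinuousAt.comp (g := fun z : ℝ × ℝ => (ThX e Ξ z.1 (z.2 • x) c).1 (0 - z.1)) (f := fun θ : ℝ => (b, θ)) h1 h2
        have h3 : ∀ᶠ θ : ℝ in 𝓝 (0 : ℝ), (ThX e Ξ b (θ • x) c).1 (0 - b) ∈ (𝒜.ψ (c.1 0)).source := by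
          refine hc1.eventually ((𝒜.ψ (c.1 0)).open_source.mem_nhds ?_)
          show (ThX e Ξ b ((0 : ℝ) • x) c).1 (0 - b) ∈ (𝒜.ψ (c.1 0)).source
          rw [hpt b hb.le]
          exact 𝒜.mem _
        filter_upwards [h3] with θ h5
        have h7 := (transportX hB hR h (f := f) (x := θ • x) (a := 0) (b := b) (c := c) hb.le (hfs _ h5)).deriv
        simp only [smul_smul_smul'] at h7
        have h8 := deriv_comp_mul_left (ρ (θ • x) * θ)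
          (fun σ : ℝ => f ((R (σ • x) (ThX e Ξ b (θ • x) c)).1 (0 - b))) 0
        rw [mul_zero, smul_eq_mul] at h8
        show deriv (fun b' => f ((ThX e Ξ b' (θ • x) c).1 (0 - b'))) b = _
        rw [h7, h8]
        simp only [m]
        ring
      have hD3 : HasDerivAt (fun θ => deriv (fun b' => Φ (b', θ)) b) (ρ ((0 : ℝ) • x) * m 0) 0 :=
        (hasDerivAt_mul_cont (I := fun θ => ρ (θ • x) * m θ) (hρc.mul hm.continuousAt)).congr_of_eventuallyEq hev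
      rw [hρ0, one_mul] at hD3
      have hDm : D = m 0 := hD2.unique hD3
      have hm0 : m 0 = ⟪a, JXr 𝒜 R x c b⟫ := by
        have h1 : m 0 = deriv (fun σ : ℝ => f ((R (σ • x) (shift b c)).1 (-b))) 0 := by
          simp only [m]
          rw [zero_smul ℝ x, ThX_zero hB hR h hb.le]
          simp only [zero_sub]
        rw [h1, hf]
        have h2 := JX_hasDerivAt 𝒜 hB hR x c b
        have h3 := (hasDerivAt_const (0 : ℝ) a).inner ℝ h2
        simp only [inner_zero_left, add_zero] at h3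
        exact h3.deriv
      rw [← hm0, ← hDm]
      exact hD1
    have hwc : ∀ b ∈ Icc (0 : ℝ) π, ContinuousAt (fun b => deriv (fun θ => Φ (b, θ)) 0) b := fun b hb =>
      (PO.contDiffAt_deriv2' (hΦ b hb.1)).continuousAt
    have hgc : Continuous (fun b => ⟪a, JXr 𝒜 R x c b⟫) := continuous_const.inner hJc
    have hint := intervalIntegral.integral_eq_sub_of_hasDerivAt_of_le hπ.le
      (fun b hb => (hwc b hb).continuousWithinAt) (fun b hb => hw b hb.1)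
      (hgc.intervalIntegrable 0 π)
    have hw0 : deriv (fun θ => Φ (0, θ)) 0 = 0 := by
      have h1 : (fun θ => Φ (0, θ)) = fun _ => f (c.1 0) := by
        funext θ
        simp only [Φ, ThX_time_zero hB h, sub_zero]
      rw [h1, deriv_const]
    rw [hw0, sub_zero] at hint
    have hfin : (fun θ : ℝ => ⟪a, 𝒜.ψ (c.1 0) (CX e Ξ (θ • x) c)⟫) = fun θ => Φ (π, θ) := by
      funext θ
      simp only [Φ, zero_sub, hf]
      rfl
    rw [hfin]
    have h5 : DifferentiableAt ℝ (fun θ => Φ (π, θ)) 0 := by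
      have h6 := (hΦ π hπ.le).differentiableAt (by simp : (∞ : WithTop ℕ∞) ≠ 0)
      exact (PO.hasDerivAt_snd (g := Φ) (z := (π, 0)) h6).differentiableAt
    have h7 := h5.hasDerivAt
    rw [← hint] at h7
    exact h7
  -- the derivative exists
  have hex : HasDerivAt (fun θ : ℝ => 𝒜.ψ (c.1 0) (CX e Ξ (θ • x) c))
      (deriv (fun θ : ℝ => 𝒜.ψ (c.1 0) (CX e Ξ (θ • x) c)) 0) 0 := by
    have h1 : SmAt 𝒜 (fun θ : ℝ => CX e Ξ (θ • x) c) 0 :=
      smooth_CX hB hR h (smGAt_const c (0 : ℝ)) (x := fun θ : ℝ => θ • x) (contDiffAt_id.smul contDiffAt_const)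
    exact hasDerivAt_psi h1 (by simp only [zero_smul]; exact CX_zero hB hR h c)
  refine hex.congr_deriv ?_
  refine ext_inner_left ℝ fun a => ?_
  have h1 := (hasDerivAt_const (0 : ℝ) a).inner ℝ hex
  simp only [inner_zero_left, add_zero] at h1
  rw [h1.unique (key a)]
  exact ((innerSL ℝ a).intervalIntegral_comp_comm (hJc.intervalIntegrable 0 π))

end var

/-! ### the push-off family of a rotation family -/

section fam

variable {n : ℕ} {M : Type*} [MetricSpace M] [CompactSpace M] {𝒜 : SDist n M} [Nonempty (Gs M)] {N : ℕ}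
variable {e : Emb n 𝒜} {Ξ : ℝ → Eu N → e.Q → e.Q} {χ : e.Q → ℝ} {ρ : Eu N → ℝ} {k : Eu N → Gs M → Eu n} {R : Eu N → Gs M → Gs M}

theorem pfam_of_flowX (hB : Bl M) (hX : RotX 𝒜 k R) (h : PFlowX e R χ ρ Ξ) : PFam 𝒜 (fun ξ c => CX e Ξ ξ c) ∧
    (∀ c ξ, LamB 𝒜 (fun ξ c => CX e Ξ ξ c) c ξ ξ = Lam 𝒜 k R c ξ) ∧
    ∀ c ξ, X1 𝒜 (fun ξ c => CX e Ξ ξ c) c ξ = ∫ b in (0 : ℝ)..π, JXr 𝒜 R ξ c b := by
  obtain ⟨g, hg, hg0, hge⟩ := exists_speed hB hX h
  let C : Eu N → Gs M → M := fun ξ c => CX e Ξ ξ c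
  have hs : ∀ {F : Type} [NormedAddCommGroup F] [NormedSpace ℝ F] {σ : F → Gs M} {ξ : F → Eu N} {u : F}, SmGAt 𝒜 σ u →
      ContDiffAt ℝ ∞ ξ u → SmAt 𝒜 (fun v => C (ξ v) (σ v)) u := fun hσ hξ => smooth_CX hB hX h hσ hξ
  have hz : ∀ c, C 0 c = c.1 0 := CX_zero hB hX h
  have hexp : ∀ c : Gs M, fderiv ℝ (s2 𝒜 C c) 0 = 0 ∧
      ∀ x, fderiv ℝ (fderiv ℝ (s2 𝒜 C c)) 0 x x = 2 * g (0, c, x) := by
    intro c
    refine second_deriv_of_expansion (s2_smooth_aux hB hs c 0) (g := fun θ x => g (θ, c, x)) (fun x => ?_) (fun θ x => hge θ c x)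
    exact (hg.comp (f := fun θ : ℝ => (θ, c, x)) (by fun_prop)).continuousAt
  have hder : ∀ (c : Gs M) (ξ : Eu N), HasDerivAt (fun θ : ℝ => 𝒜.ψ (c.1 0) (C (θ • ξ) c)) (X1 𝒜 C c ξ) 0 := by
    intro c ξ
    have h1 : SmAt 𝒜 (fun ξ : Eu N => C ξ c) 0 := hs (smGAt_const c 0) contDiffAt_id
    have h2 := h1.2
    simp only [hz] at h2
    have hl : HasDerivAt (fun θ : ℝ => θ • ξ) ξ 0 := by
      have := (hasDerivAt_id (0 : ℝ)).smul_const ξ
      rwa [one_smul] at this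
    have h3 : HasFDerivAt (fun ξ : Eu N => 𝒜.ψ (c.1 0) (C ξ c)) (X1 𝒜 C c) ((fun θ : ℝ => θ • ξ) 0) := by
      show HasFDerivAt _ _ ((0 : ℝ) • ξ)
      rw [zero_smul]
      exact (h2.differentiableAt (by simp)).hasFDerivAt
    exact HasFDerivAt.comp_hasDerivAt (l := fun ξ : Eu N => 𝒜.ψ (c.1 0) (C ξ c)) (f := fun θ : ℝ => θ • ξ) (0 : ℝ) h3 hl
  refine ⟨⟨hs, hz, fun c ξ => ?_, fun c => (hexp c).1⟩, fun c ξ => ?_, fun c ξ => ?_⟩
  · have h4 := hder c ξ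
    have h5 : ContinuousAt (fun θ : ℝ => C (θ • ξ) c) 0 :=
      (hs (smGAt_const c (0 : ℝ)) (ξ := fun θ : ℝ => θ • ξ) (contDiffAt_id.smul contDiffAt_const)).cont
    have h6 := dist_deriv hB (c := c) (α := fun θ : ℝ => C (θ • ξ) c) h5 (by rw [zero_smul, hz]) h4
    have h7 := W_eqX hB hX h c ξ 0
    simp only [zero_smul, hX.zero, zero_mul, neg_zero] at h7
    exact h6.unique h7
  · show ((-(1 / 4) : ℝ) • fderiv ℝ (fderiv ℝ (s2 𝒜 C c)) 0) ξ ξ = _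
    simp only [FunLike.coe_smul, Pi.smul_apply, smul_eq_mul]
    rw [(hexp c).2, hg0]
    ring
  · exact (hder c ξ).unique (CX_var hB hX h c ξ)

end fam

variable {n : ℕ} {M : Type*} [MetricSpace M] [CompactSpace M] {𝒜 : SDist n M}

/-- the first variation of the family of a section -/
def EvW (𝒜 : SDist n M) (hB : Bl M) (w : Gs M → Eu n) (c : Gs M) : Eu n :=
  ∫ b in (0 : ℝ)..π, JG 𝒜 hB c b (w (shift b c))

/-- the evaluation of a section -/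
def EvC (𝒜 : SDist n M) (hB : Bl M) (w : Gs M → Eu n) (c : Gs M) : Eu n :=
  Hc 𝒜 c (EvW 𝒜 hB w c) - thK 𝒜 hB (shift π c) (Hc 𝒜 (shift π c) (EvW 𝒜 hB w (shift π c)))

/-- NEG-C(f) for sections -/
theorem QW_nonpos [Nonempty (Gs M)] (hB : Bl M) (e : Emb n 𝒜) {κ : ℕ} (hk : 𝒜.HK κ) {N : ℕ}
    {Φ : e.Q → (Eu N →L[ℝ] EuclideanSpace ℝ (Fin e.q))} (hΦ : ContDiff ℝ ∞ Φ) {ξ : Eu N} {c : Gs M}
    (h : EvC 𝒜 hB (kf e Φ ξ) c = 0) : QW 𝒜 hB (kf e Φ ξ) c ≤ 0 := by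
  have hX : RotX 𝒜 (kf e Φ) (rotk 𝒜 hB (kf e Φ)) :=
    rotX_lin hB (kf_mem e Φ) (kf_smul e Φ) fun hσ hx hp => smV_kf e hB hk hΦ hσ hx hp
  obtain ⟨χ, ρ, Ξ, hF⟩ := exists_pflowX e hB hX
  obtain ⟨h1, h2, h3⟩ := pfam_of_flowX hB hX hF
  have hE : ∀ c, X1 𝒜 (fun ξ c => CX e Ξ ξ c) c ξ = EvW 𝒜 hB (kf e Φ ξ) c := by
    intro c
    rw [h3]
    unfold EvW
    refine intervalIntegral.integral_congr fun b _ => ?_
    exact JXr_rotk hB (kf_smul e Φ) ξ c b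
  have hev : evc 𝒜 hB (fun ξ c => CX e Ξ ξ c) c ξ = 0 := by
    unfold evc
    rw [hE, hE]
    exact h
  have hQ : QB 𝒜 (fun ξ c => CX e Ξ ξ c) c ξ ξ = QW 𝒜 hB (kf e Φ ξ) c := by
    rw [h1.QB_apply hB e]
    unfold QW
    refine intervalIntegral.integral_congr fun t _ => ?_
    show LamB 𝒜 (fun ξ c => CX e Ξ ξ c) (shift t c) ξ ξ = _
    rw [h2]
    unfold Lam LamW
    congr 1
    refine intervalIntegral.integral_congr fun b _ => ?_
    show ⟪kf e Φ ξ (shift t c), JXr 𝒜 (rotk 𝒜 hB (kf e Φ)) ξ (shift t c) b⟫ = _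
    rw [JXr_rotk hB (kf_smul e Φ)]
    rfl
  rw [← hQ]
  exact QB_nonpos hB hk e h1 hev

end Pool.Agent.Lib.MP_ccbbf6_gt.K7.GG
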