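import Pool.Agent.Lib.MP_ccbbf6_gt.K7.RG7

/-!
# `κ = 7`, block G1/G2, GH1: the kernel `JG` (statements of helper2, proofs helper93)
-/

set_option autoImplicit false
set_option linter.unusedSectionVars false
set_option linter.unusedVariables false

open Set Filter Topology Metric Real Module
open scoped ContDiff RealInnerProductSpace

noncomputable section

namespace Pool.Agent.Lib.MP_ccbbf6_gt.K7.GG

open L4 Geo L4.ORI L5 L5.NEG RG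

variable {n : ℕ} {M : Type*} [MetricSpace M] [CompactSpace M] {𝒜 : SDist n M}

/-- the end point of the geodesic rotated about `c b` -/
def gG (𝒜 : SDist n M) (hB : Bl M) (c : Gs M) (b : ℝ) (w : Eu n) : M :=
  (gw 𝒜 hB (shift b c) (𝒜.vel (shift b c).1 0 + w)).1 (-b)

theorem gw_self (hB : Bl M) (c : Gs M) : gw 𝒜 hB c (𝒜.vel c.1 0) = c :=
  eq_of_vel' 𝒜 (gw_zero 𝒜 hB c _) (by rw [gw_vel 𝒜 hB c (vel_ne 𝒜 c), nrm_of_norm (vel_norm 𝒜 c)])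

theorem gG_zero (hB : Bl M) (c : Gs M) (b : ℝ) : gG 𝒜 hB c b 0 = c.1 0 := by
  unfold gG
  rw [add_zero, gw_self]
  show c.1 (-b + b) = c.1 0
  rw [neg_add_cancel]

theorem smAt_gG (hB : Bl M) {F : Type*} [NormedAddCommGroup F] [NormedSpace ℝ F] {σ : F → Gs M} {b : F → ℝ} {w : F → Eu n}
    {u : F} (hσ : SmGAt 𝒜 σ u) (hb : ContDiffAt ℝ ∞ b u) {q : M} (hq : (shift (b u) (σ u)).1 0 ∈ (𝒜.ψ q).source)
    (hw : SmV 𝒜 q (fun v => (shift (b v) (σ v)).1 0) w u) (h0 : 𝒜.vel (shift (b u) (σ u)).1 0 + w u ≠ 0) :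
    SmAt 𝒜 (fun v => gG 𝒜 hB (σ v) (b v) (w v)) u := by
  have h2 : SmGA 𝒜 (fun v => shift (b v) (σ v)) u := hσ.shift hB hb
  have h3 := h2.smV hB hq
  have h4 : SmGAt 𝒜 (fun v => gw 𝒜 hB (shift (b v) (σ v)) (𝒜.vel (shift (b v) (σ v)).1 0 + w v)) u :=
    smGA_gw hB h2.1 hq (h3.add hw) h0
  exact h4.ev hB (t := fun v => -b v) hb.neg

theorem JG_def (hB : Bl M) (c : Gs M) (b : ℝ) (w : Eu n) :
    JG 𝒜 hB c b w = deriv (fun τ : ℝ => 𝒜.ψ (c.1 0) (gG 𝒜 hB c b (τ • w))) 0 := rfl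

/-- joint smoothness -/
theorem smV_JG (hB : Bl M) {F : Type} [NormedAddCommGroup F] [NormedSpace ℝ F] {σ : F → Gs M} {b : F → ℝ} {w : F → Eu n} {u : F}
    (hσ : SmGAt 𝒜 σ u) (hb : ContDiffAt ℝ ∞ b u) {p q : M} (hp : (σ u).1 0 ∈ (𝒜.ψ p).source)
    (hq : (shift (b u) (σ u)).1 0 ∈ (𝒜.ψ q).source) (hw : SmV 𝒜 q (fun v => (shift (b v) (σ v)).1 0) w u) :
    SmV 𝒜 p (fun v => (σ v).1 0) (fun v => JG 𝒜 hB (σ v) (b v) (w v)) u := by
  have h1 : SmGAt 𝒜 (fun z : F × ℝ => σ z.1) (u, 0) :=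
    SmGAt.comp (σ := σ) (f := fun z : F × ℝ => z.1) (v := (u, 0)) hσ contDiffAt_fst
  have hb' : ContDiffAt ℝ ∞ (fun z : F × ℝ => b z.1) (u, 0) :=
    ContDiffAt.comp (g := b) (f := fun z : F × ℝ => z.1) (u, 0) hb contDiffAt_fst
  have hw' : SmV 𝒜 q (fun z : F × ℝ => (shift (b z.1) (σ z.1)).1 0) (fun z => z.2 • w z.1) (u, 0) :=
    (SmV.comp (f := fun z : F × ℝ => z.1) (v := (u, (0 : ℝ))) hw contDiffAt_fst).smul contDiffAt_snd
  have h4 := smAt_gG hB (σ := fun z : F × ℝ => σ z.1) (b := fun z => b z.1) (w := fun z => z.2 • w z.1) (u := (u, 0)) h1 hb' hq hw'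
    (by
      show 𝒜.vel (shift (b u) (σ u)).1 0 + (0 : ℝ) • w u ≠ 0
      rw [zero_smul, add_zero]
      exact vel_ne 𝒜 _)
  have h5 := smV_deriv (g := fun z : F × ℝ => gG 𝒜 hB (σ z.1) (b z.1) (z.2 • w z.1)) h4 (p := p)
    (by
      show gG 𝒜 hB (σ u) (b u) ((0 : ℝ) • w u) ∈ _
      rw [zero_smul, gG_zero]
      exact hp)
  simp only [zero_smul, gG_zero] at h5
  exact h5

theorem smAt_gG_lin (hB : Bl M) (c : Gs M) (b : ℝ) : SmAt 𝒜 (fun w : Eu n => gG 𝒜 hB c b w) 0 := by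
  refine smAt_gG hB (σ := fun _ : Eu n => c) (b := fun _ => b) (w := fun w => w) (smGAt_const c 0) contDiffAt_const
    (q := (shift b c).1 0) (𝒜.mem _) ?_ ?_
  · show ContDiffAt ℝ ∞ (fun v => CC 𝒜 ((shift b c).1 0) ((shift b c).1 0) v) 0
    exact (ContinuousLinearMap.contDiff _).contDiffAt
  · rw [add_zero]
    exact vel_ne 𝒜 _

/-- `JG` is linear in the direction -/
theorem JG_lin (hB : Bl M) (c : Gs M) (b : ℝ) : ∃ T : Eu n →L[ℝ] Eu n, ∀ w, JG 𝒜 hB c b w = T w := by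
  have h1 := (smAt_gG_lin (𝒜 := 𝒜) hB c b).2
  simp only [gG_zero] at h1
  refine ⟨fderiv ℝ (fun w : Eu n => 𝒜.ψ (c.1 0) (gG 𝒜 hB c b w)) 0, fun w => ?_⟩
  have h3 : HasDerivAt (fun s : ℝ => s • w) w 0 := by
    have := (hasDerivAt_id (0 : ℝ)).smul_const w
    rwa [one_smul] at this
  have h4 : HasFDerivAt (fun w : Eu n => 𝒜.ψ (c.1 0) (gG 𝒜 hB c b w))
      (fderiv ℝ (fun w : Eu n => 𝒜.ψ (c.1 0) (gG 𝒜 hB c b w)) 0) ((fun s : ℝ => s • w) 0) := by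
    show HasFDerivAt (fun w : Eu n => 𝒜.ψ (c.1 0) (gG 𝒜 hB c b w)) _ ((0 : ℝ) • w)
    rw [zero_smul]
    exact (h1.differentiableAt (by simp)).hasFDerivAt
  exact (HasFDerivAt.comp_hasDerivAt (0 : ℝ) h4 h3).deriv

theorem JG_add (hB : Bl M) (c : Gs M) (b : ℝ) (w w' : Eu n) : JG 𝒜 hB c b (w + w') = JG 𝒜 hB c b w + JG 𝒜 hB c b w' := by
  obtain ⟨T, hT⟩ := JG_lin (𝒜 := 𝒜) hB c b
  rw [hT, hT, hT, map_add]

theorem JG_smul (hB : Bl M) (c : Gs M) (b r : ℝ) (w : Eu n) : JG 𝒜 hB c b (r • w) = r • JG 𝒜 hB c b w := by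
  obtain ⟨T, hT⟩ := JG_lin (𝒜 := 𝒜) hB c b
  rw [hT, hT, map_smul]

theorem smAt_gG_line (hB : Bl M) (c : Gs M) (b : ℝ) (w : Eu n) : SmAt 𝒜 (fun τ : ℝ => gG 𝒜 hB c b (τ • w)) 0 := by
  have h1 : SmAt 𝒜 (fun w : Eu n => gG 𝒜 hB c b w) ((fun τ : ℝ => τ • w) 0) := by
    show SmAt 𝒜 (fun w : Eu n => gG 𝒜 hB c b w) ((0 : ℝ) • w)
    rw [zero_smul]
    exact smAt_gG_lin hB c b
  exact SmAt.comp (g := fun w : Eu n => gG 𝒜 hB c b w) (f := fun τ : ℝ => τ • w) h1 (contDiffAt_id.smul contDiffAt_const)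

theorem hasDerivAt_gG (hB : Bl M) (c : Gs M) (b : ℝ) (w : Eu n) :
    HasDerivAt (fun τ : ℝ => 𝒜.ψ (c.1 0) (gG 𝒜 hB c b (τ • w))) (JG 𝒜 hB c b w) 0 :=
  hasDerivAt_psi (smAt_gG_line hB c b w) (by simp only [zero_smul]; exact gG_zero hB c b)

/-! ### rotations about the opposite point -/

theorem gw_opp (hB : Bl M) {c : Gs M} {y : Eu n} (hy : y ∈ Kc 𝒜 c) :
    gw 𝒜 hB (shift π c) (𝒜.vel (shift π c).1 0 + thK 𝒜 hB c y) = shift π (gw 𝒜 hB c (𝒜.vel c.1 0 + y)) := by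
  obtain ⟨g, hg⟩ : ∃ g, g = gw 𝒜 hB c (𝒜.vel c.1 0 + y) := ⟨_, rfl⟩
  have e1 : 𝒜.vel (shift π c).1 0 = 𝒜.vel c.1 π := by rw [nc2_vel_shift, zero_add]
  have e2 : 𝒜.vel (shift π g).1 0 = 𝒜.vel g.1 π := by rw [nc2_vel_shift, zero_add]
  have hv : ‖𝒜.vel g.1 π‖ = 1 := (IsGeo.exists_vel 𝒜 g.2 π).1
  have hs : 0 < √(1 + ‖y‖ ^ 2) := Real.sqrt_pos.2 (by positivity)
  have e3 : 𝒜.vel (shift π c).1 0 + thK 𝒜 hB c y = √(1 + ‖y‖ ^ 2) • 𝒜.vel g.1 π := by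
    unfold thK
    rw [e1, ← hg, add_sub_cancel]
  have hne : √(1 + ‖y‖ ^ 2) • 𝒜.vel g.1 π ≠ 0 := by
    refine smul_ne_zero hs.ne' ?_
    intro h
    rw [h, norm_zero] at hv
    exact zero_ne_one hv
  rw [← hg, e3]
  refine eq_of_vel' 𝒜 ?_ ?_
  · rw [gw_zero]
    show c.1 (0 + π) = g.1 (0 + π)
    rw [zero_add, hg, top_of_mem 𝒜 hB c (nc2_add_ne hy) (nc2_add_mem hB hy)]
  · rw [gw_vel 𝒜 hB _ hne, e2]
    unfold nrm
    rw [norm_smul, hv, mul_one, Real.norm_eq_abs, abs_of_pos hs, smul_smul, inv_mul_cancel₀ hs.ne', one_smul]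

theorem gG_top (hB : Bl M) (c : Gs M) (b : ℝ) {y : Eu n} (hy : y ∈ Kc 𝒜 (shift b c)) :
    gG 𝒜 hB c (b + π) (thK 𝒜 hB (shift b c) y) = gG 𝒜 hB c b y := by
  unfold gG
  have e1 : shift (b + π) c = shift π (shift b c) := by rw [add_comm, shift_add]
  rw [e1, gw_opp hB hy]
  show (gw 𝒜 hB (shift b c) (𝒜.vel (shift b c).1 0 + y)).1 (-(b + π) + π) = _
  rw [show -(b + π) + π = -b by ring]

/-- rotations about `c b` are rotations about `c (b + π)` -/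
theorem JG_top (hB : Bl M) (c : Gs M) (b : ℝ) {y : Eu n} (hy : y ∈ Kc 𝒜 (shift b c)) :
    JG 𝒜 hB c (b + π) (thK 𝒜 hB (shift b c) y) = JG 𝒜 hB c b y := by
  rw [JG_def, JG_def]
  congr 1
  funext τ
  rw [← thK_smul hB τ hy, gG_top hB c b (Submodule.smul_mem _ τ hy)]

/-! ### the Wronskian -/

theorem JG_nul (hB : Bl M) (c : Gs M) (w : Eu n) : JG 𝒜 hB c 0 w = 0 := by
  rw [JG_def]
  have h1 : (fun τ : ℝ => 𝒜.ψ (c.1 0) (gG 𝒜 hB c 0 (τ • w))) = fun _ => 𝒜.ψ (c.1 0) (c.1 0) := by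
    funext τ
    have h2 : gG 𝒜 hB c 0 (τ • w) = c.1 0 := by
      unfold gG
      rw [neg_zero, gw_zero]
      show c.1 (0 + 0) = c.1 0
      rw [zero_add]
    rw [h2]
  rw [h1, deriv_const]

/-- the derivative of the distance in one variable, forward -/
private theorem gh1_fwd (hB : Bl M) (g : Gs M) {α : ℝ → M} {a : Eu n} {b : ℝ} (h0 : 0 < b) (h1 : b < π) (hα : ContinuousAt α 0)
    (hα0 : α 0 = g.1 0) (hv : HasDerivAt (fun t => 𝒜.ψ (g.1 0) (α t)) a 0) :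
    HasDerivAt (fun t => dist (α t) (g.1 b)) (-⟪𝒜.vel g.1 0, a⟫) 0 := by
  have hd : dist (g.1 0) (g.1 b) = b := by
    rw [g.2 0 b (by rw [zero_sub, abs_neg, abs_of_pos h0]; exact h1.le), zero_sub, abs_neg, abs_of_pos h0]
  have h2 := nc2_dist (𝒜 := 𝒜) hB (p := g.1 0) (q := g.1 b) (by rw [hd]; exact h0) (by rw [hd]; exact h1) hα hα0 hv
  have h3 := D1_forward 𝒜 hB g.2 (s := 0) (t := b) h0 h1 a
  rw [zero_add] at h3
  rw [h3] at h2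
  simp only [dist_comm (g.1 b)] at h2
  exact h2

private theorem gh1_bwd (hB : Bl M) (g : Gs M) {α : ℝ → M} {a : Eu n} {b : ℝ} (h0 : 0 < b) (h1 : b < π) (hα : ContinuousAt α 0)
    (hα0 : α 0 = g.1 0) (hv : HasDerivAt (fun t => 𝒜.ψ (g.1 0) (α t)) a 0) :
    HasDerivAt (fun t => dist (g.1 (-b)) (α t)) ⟪𝒜.vel g.1 0, a⟫ 0 := by
  have hd : dist (g.1 0) (g.1 (-b)) = b := by
    rw [g.2 0 (-b) (by rw [zero_sub, neg_neg, abs_of_pos h0]; exact h1.le), zero_sub, neg_neg, abs_of_pos h0]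
  have h2 := nc2_dist (𝒜 := 𝒜) hB (p := g.1 0) (q := g.1 (-b)) (by rw [hd]; exact h0) (by rw [hd]; exact h1) hα hα0 hv
  have h3 := D1_backward 𝒜 hB g.2 (s := 0) (t := b) h0 h1 a
  rw [zero_sub] at h3
  rw [h3] at h2
  exact h2

/-- velocity of a rotated geodesic -/
private theorem gh1_vel (hB : Bl M) {c : Gs M} {x : Eu n} (hx : x ∈ Kc 𝒜 c) :
    𝒜.vel (gw 𝒜 hB c (𝒜.vel c.1 0 + x)).1 0 = (√(1 + ‖x‖ ^ 2))⁻¹ • (𝒜.vel c.1 0 + x) := by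
  rw [gw_vel 𝒜 hB c (nc2_add_ne hx), nc2_sqrt hx]
  rfl

/-- a derivative -/
private theorem gh1_calc (a b m : ℝ) :
    HasDerivAt (fun s : ℝ => (√(1 + s ^ 2 * m ^ 2))⁻¹ * (a + s * b)) b 0 := by
  have h1 : HasDerivAt (fun s : ℝ => 1 + s ^ 2 * m ^ 2) 0 0 := by
    have h2 : HasDerivAt (fun s : ℝ => s ^ 2) 0 0 := by
      have := hasDerivAt_pow 2 (0 : ℝ)
      simpa using this
    have h3 := (h2.mul_const (m ^ 2)).const_add 1
    rwa [zero_mul] at h3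
  have h2 : HasDerivAt (fun s : ℝ => √(1 + s ^ 2 * m ^ 2)) 0 0 := by
    have h3 := h1.sqrt (by norm_num)
    rwa [zero_div] at h3
  have h3 : HasDerivAt (fun s : ℝ => (√(1 + s ^ 2 * m ^ 2))⁻¹) 0 0 := by
    have h4 := h2.inv (by norm_num)
    rwa [neg_zero, zero_div] at h4
  have h4 : HasDerivAt (fun s : ℝ => a + s * b) b 0 := by
    have h5 := ((hasDerivAt_id (0 : ℝ)).mul_const b).const_add a
    rwa [one_mul] at h5
  have h5 := h3.mul h4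
  refine h5.congr_deriv ?_
  norm_num

/-- the Wronskian, short case -/
theorem JG_anti_short (hB : Bl M) (c : Gs M) {b : ℝ} (h0 : 0 < b) (h1 : b < π) {x y : Eu n} (hx : x ∈ Kc 𝒜 c)
    (hy : y ∈ Kc 𝒜 (shift b c)) : ⟪x, JG 𝒜 hB c b y⟫ = -⟪JG 𝒜 hB (shift b c) (-b) x, y⟫ := by
  obtain ⟨cb, hcb⟩ : ∃ cb, cb = shift b c := ⟨_, rfl⟩
  have hcc : shift (-b) cb = c := by rw [hcb, ← shift_add, neg_add_cancel, shift_zero]
  have hcb0 : cb.1 0 = c.1 b := by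
    rw [hcb]
    show c.1 (0 + b) = c.1 b
    rw [zero_add]
  rw [← hcb] at hy ⊢
  -- the two curves
  obtain ⟨q, hq⟩ : ∃ q : ℝ → M, q = fun τ => gG 𝒜 hB c b (τ • y) := ⟨_, rfl⟩
  obtain ⟨p, hp⟩ : ∃ p : ℝ → M, p = fun σ => gG 𝒜 hB cb (-b) (σ • x) := ⟨_, rfl⟩
  have hq1 : SmAt 𝒜 q 0 := by rw [hq]; exact smAt_gG_line hB c b y
  have hp1 : SmAt 𝒜 p 0 := by rw [hp]; exact smAt_gG_line hB cb (-b) x
  have hq0 : q 0 = c.1 0 := by
    rw [hq]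
    simp only [zero_smul]
    exact gG_zero hB c b
  have hp0 : p 0 = cb.1 0 := by
    rw [hp]
    simp only [zero_smul]
    exact gG_zero hB cb (-b)
  have hq2 : HasDerivAt (fun τ => 𝒜.ψ (c.1 0) (q τ)) (JG 𝒜 hB c b y) 0 := by rw [hq]; exact hasDerivAt_gG hB c b y
  have hp2 : HasDerivAt (fun σ => 𝒜.ψ (cb.1 0) (p σ)) (JG 𝒜 hB cb (-b) x) 0 := by rw [hp]; exact hasDerivAt_gG hB cb (-b) x
  have hp3 : ∀ σ, p σ = (gw 𝒜 hB c (𝒜.vel c.1 0 + σ • x)).1 b := by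
    intro σ
    rw [hp]
    show (gw 𝒜 hB (shift (-b) cb) (𝒜.vel (shift (-b) cb).1 0 + σ • x)).1 (-(-b)) = _
    rw [hcc, neg_neg]
  have hq3 : ∀ τ, q τ = (gw 𝒜 hB cb (𝒜.vel cb.1 0 + τ • y)).1 (-b) := by
    intro τ
    rw [hq, hcb]
    rfl
  -- the distance
  obtain ⟨f, hf⟩ : ∃ f : ℝ × ℝ → ℝ, f = fun z => dist (q z.2) (p z.1) := ⟨_, rfl⟩
  have hd : dist (q 0) (p 0) = b := by
    rw [hq0, hp0, hcb0, c.2 0 b (by rw [zero_sub, abs_neg, abs_of_pos h0]; exact h1.le), zero_sub, abs_neg, abs_of_pos h0]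
  have hfs : ContDiffAt ℝ ∞ f ((0 : ℝ), (0 : ℝ)) := by
    rw [hf]
    refine SmAt.dist hB (x := fun z : ℝ × ℝ => q z.2) (y := fun z : ℝ × ℝ => p z.1)
      (SmAt.comp (g := q) (f := fun z : ℝ × ℝ => z.2) (v := ((0 : ℝ), (0 : ℝ))) hq1 contDiffAt_snd)
      (SmAt.comp (g := p) (f := fun z : ℝ × ℝ => z.1) (v := ((0 : ℝ), (0 : ℝ))) hp1 contDiffAt_fst) ?_ ?_
    · show 0 < dist (q 0) (p 0)
      rw [hd]
      exact h0
    · show dist (q 0) (p 0) < π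
      rw [hd]
      exact h1
  obtain ⟨D, hD1, hD2⟩ := PO.mixed hfs
  -- first order
  have e1 : (fun σ => deriv (fun τ => f (σ, τ)) 0) = fun σ =>
      (√(1 + σ ^ 2 * ‖x‖ ^ 2))⁻¹ * (-⟪𝒜.vel c.1 0, JG 𝒜 hB c b y⟫ + σ * -⟪x, JG 𝒜 hB c b y⟫) := by
    funext σ
    obtain ⟨g, hg⟩ : ∃ g, g = gw 𝒜 hB c (𝒜.vel c.1 0 + σ • x) := ⟨_, rfl⟩
    have hg0 : g.1 0 = c.1 0 := by rw [hg]; exact gw_zero 𝒜 hB c _
    have h2 := gh1_fwd (𝒜 := 𝒜) hB g (α := q) (a := JG 𝒜 hB c b y) h0 h1 hq1.cont (by rw [hq0, hg0]) (by rw [hg0]; exact hq2)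
    have h3 : (fun t => dist (q t) (g.1 b)) = fun τ => f (σ, τ) := by
      funext τ
      rw [hf]
      show _ = dist (q τ) (p σ)
      rw [hp3, hg]
    rw [h3] at h2
    rw [h2.deriv, hg, gh1_vel hB (Submodule.smul_mem _ σ hx), real_inner_smul_left, inner_add_left, real_inner_smul_left, norm_smul,
      mul_pow, Real.norm_eq_abs, sq_abs]
    ring
  have e2 : (fun τ => deriv (fun σ => f (σ, τ)) 0) = fun τ =>
      (√(1 + τ ^ 2 * ‖y‖ ^ 2))⁻¹ * (⟪𝒜.vel cb.1 0, JG 𝒜 hB cb (-b) x⟫ + τ * ⟪y, JG 𝒜 hB cb (-b) x⟫) := by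
    funext τ
    obtain ⟨g, hg⟩ : ∃ g, g = gw 𝒜 hB cb (𝒜.vel cb.1 0 + τ • y) := ⟨_, rfl⟩
    have hg0 : g.1 0 = cb.1 0 := by rw [hg]; exact gw_zero 𝒜 hB cb _
    have h2 := gh1_bwd (𝒜 := 𝒜) hB g (α := p) (a := JG 𝒜 hB cb (-b) x) h0 h1 hp1.cont (by rw [hp0, hg0]) (by rw [hg0]; exact hp2)
    have h3 : (fun t => dist (g.1 (-b)) (p t)) = fun σ => f (σ, τ) := by
      funext σ
      rw [hf]
      show _ = dist (q τ) (p σ)
      rw [hq3, hg]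
    rw [h3] at h2
    rw [h2.deriv, hg, gh1_vel hB (Submodule.smul_mem _ τ hy), real_inner_smul_left, inner_add_left, real_inner_smul_left, norm_smul,
      mul_pow, Real.norm_eq_abs, sq_abs]
  rw [e1] at hD1
  rw [e2] at hD2
  have h4 := hD1.unique (gh1_calc _ _ _)
  have h5 := hD2.unique (gh1_calc _ _ _)
  rw [real_inner_comm y]
  linarith

theorem isVar_JG (hB : Bl M) (c : Gs M) (b : ℝ) {x : Eu n} :
    IsVar 𝒜 (shift b c) (JG 𝒜 hB (shift b c) (-b) x) (JG 𝒜 hB (shift (b + π) c) (-(b + π)) x) := by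
  have e1 : ∀ s : ℝ, shift (-s) (shift s c) = c := fun s => by rw [← shift_add, neg_add_cancel, shift_zero]
  have e2 : (shift (b + π) c).1 0 = (shift b c).1 π := by
    show c.1 (0 + (b + π)) = c.1 (π + b)
    rw [zero_add, add_comm]
  refine ⟨fun s => shift b (gw 𝒜 hB c (𝒜.vel c.1 0 + s • x)), ?_, ?_, ?_, ?_⟩
  · have h1 : SmGAt 𝒜 (fun s : ℝ => gw 𝒜 hB c (𝒜.vel c.1 0 + s • x)) 0 := by
      refine smGA_gw hB (c := fun _ : ℝ => c) (w := fun s : ℝ => 𝒜.vel c.1 0 + s • x) (smAt_const _ _) (p := c.1 0) (𝒜.mem _) ?_ ?_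
      · show ContDiffAt ℝ ∞ (fun s : ℝ => CC 𝒜 (c.1 0) (c.1 0) (𝒜.vel c.1 0 + s • x)) 0
        exact ((ContinuousLinearMap.contDiff _).contDiffAt).comp (0 : ℝ) (contDiffAt_const.add (contDiffAt_id.smul contDiffAt_const))
      · rw [zero_smul, add_zero]
        exact vel_ne 𝒜 c
    exact h1.shift hB (r := fun _ => b) contDiffAt_const
  · show shift b (gw 𝒜 hB c (𝒜.vel c.1 0 + (0 : ℝ) • x)) = shift b c
    rw [zero_smul, add_zero, gw_self]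
  · have h1 := hasDerivAt_gG (𝒜 := 𝒜) hB (shift b c) (-b) x
    have h2 : (fun τ : ℝ => 𝒜.ψ ((shift b c).1 0) (gG 𝒜 hB (shift b c) (-b) (τ • x))) = fun θ : ℝ =>
        𝒜.ψ ((shift b c).1 0) ((shift b (gw 𝒜 hB c (𝒜.vel c.1 0 + θ • x))).1 0) := by
      funext τ
      unfold gG
      rw [e1]
      show 𝒜.ψ _ ((gw 𝒜 hB c (𝒜.vel c.1 0 + τ • x)).1 (-(-b))) = 𝒜.ψ _ ((gw 𝒜 hB c (𝒜.vel c.1 0 + τ • x)).1 (0 + b))
      rw [neg_neg, zero_add]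
    rw [h2] at h1
    exact h1
  · have h1 := hasDerivAt_gG (𝒜 := 𝒜) hB (shift (b + π) c) (-(b + π)) x
    have h2 : (fun τ : ℝ => 𝒜.ψ ((shift (b + π) c).1 0) (gG 𝒜 hB (shift (b + π) c) (-(b + π)) (τ • x))) = fun θ : ℝ =>
        𝒜.ψ ((shift b c).1 π) ((shift b (gw 𝒜 hB c (𝒜.vel c.1 0 + θ • x))).1 π) := by
      funext τ
      rw [e2]
      unfold gG
      rw [e1]
      show 𝒜.ψ _ ((gw 𝒜 hB c (𝒜.vel c.1 0 + τ • x)).1 (-(-(b + π)))) = 𝒜.ψ _ ((gw 𝒜 hB c (𝒜.vel c.1 0 + τ • x)).1 (π + b))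
      rw [neg_neg, add_comm π b]
    rw [h2] at h1
    exact h1

/-- the change of both sides under `b ↦ b + π` -/
theorem JG_anti_step (hB : Bl M) (c : Gs M) (b : ℝ) {x y : Eu n} (hx : x ∈ Kc 𝒜 c) (hy : y ∈ Kc 𝒜 (shift b c)) :
    ⟪x, JG 𝒜 hB c (b + π) (thK 𝒜 hB (shift b c) y)⟫ = ⟪x, JG 𝒜 hB c b y⟫ ∧
      ⟪JG 𝒜 hB (shift (b + π) c) (-(b + π)) x, thK 𝒜 hB (shift b c) y⟫ = ⟪JG 𝒜 hB (shift b c) (-b) x, y⟫ := by
  refine ⟨by rw [JG_top hB c b hy], ?_⟩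
  rw [real_inner_comm, ← thK_inner hB (isVar_JG hB c b) hy, real_inner_comm]

private theorem gh1_per (𝒜 : SDist n M) (hB : Bl M) (c : Gs M) : shift π (shift π c) = c := by
  rw [← shift_add, ← two_mul]
  exact shift_per 𝒜 hB c

/-- the Wronskian -/
theorem JG_anti (hB : Bl M) (c : Gs M) (b : ℝ) {x y : Eu n} (hx : x ∈ Kc 𝒜 c) (hy : y ∈ Kc 𝒜 (shift b c)) :
    ⟪x, JG 𝒜 hB c b y⟫ = -⟪JG 𝒜 hB (shift b c) (-b) x, y⟫ := by
  have hπ := Real.pi_pos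
  obtain ⟨S, hS⟩ : ∃ S : ℝ → Prop, S = fun b => ∀ y ∈ Kc 𝒜 (shift b c),
    ⟪x, JG 𝒜 hB c b y⟫ = -⟪JG 𝒜 hB (shift b c) (-b) x, y⟫ := ⟨_, rfl⟩
  have hup : ∀ b, S b → S (b + π) := by
    intro b h
    rw [hS] at h ⊢
    intro y' hy'
    have e1 : shift (b + π) c = shift π (shift b c) := by rw [add_comm, shift_add]
    rw [e1] at hy'
    have hy2 : thK 𝒜 hB (shift π (shift b c)) y' ∈ Kc 𝒜 (shift b c) := by
      have h2 := thK_mem (𝒜 := 𝒜) hB hy'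
      rwa [gh1_per 𝒜 hB] at h2
    have hy3 : thK 𝒜 hB (shift b c) (thK 𝒜 hB (shift π (shift b c)) y') = y' := by
      have h2 := thK_thK (𝒜 := 𝒜) hB hy'
      rwa [gh1_per 𝒜 hB] at h2
    obtain ⟨h3, h4⟩ := JG_anti_step (𝒜 := 𝒜) hB c b hx hy2
    rw [hy3] at h3 h4
    rw [h3, h4]
    exact h _ hy2
  have hdn : ∀ b, S (b + π) → S b := by
    intro b h
    rw [hS] at h ⊢
    intro y' hy'
    obtain ⟨h3, h4⟩ := JG_anti_step (𝒜 := 𝒜) hB c b hx hy'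
    rw [← h3, ← h4]
    refine h _ ?_
    have e1 : shift (b + π) c = shift π (shift b c) := by rw [add_comm, shift_add]
    rw [e1]
    exact thK_mem hB hy'
  have hbase : ∀ b, 0 ≤ b → b < π → S b := by
    intro b h0 h1
    rw [hS]
    intro y' hy'
    rcases h0.eq_or_lt with h | h
    · rw [← h, neg_zero, JG_nul, JG_nul, inner_zero_left, inner_zero_right, neg_zero]
    · exact JG_anti_short hB c h h1 hx hy'
  have hnat : ∀ (k : ℕ) (b : ℝ), S b → S (b + k * π) := by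
    intro k
    induction k with
    | zero =>
      intro b h
      rw [Nat.cast_zero, zero_mul, add_zero]
      exact h
    | succ k ih =>
      intro b h
      have h2 := hup _ (ih b h)
      have h3 : b + (k : ℝ) * π + π = b + ((k + 1 : ℕ) : ℝ) * π := by
        push_cast
        ring
      rwa [h3] at h2
  have hnat' : ∀ (k : ℕ) (b : ℝ), S (b + k * π) → S b := by
    intro k
    induction k with
    | zero =>
      intro b h
      rw [Nat.cast_zero, zero_mul, add_zero] at h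
      exact h
    | succ k ih =>
      intro b h
      have h3 : b + (k : ℝ) * π + π = b + ((k + 1 : ℕ) : ℝ) * π := by
        push_cast
        ring
      rw [← h3] at h
      exact ih b (hdn _ h)
  have hfl := Int.floor_le (b / π)
  have hfl2 := Int.lt_floor_add_one (b / π)
  obtain ⟨m, hm⟩ : ∃ m : ℤ, m = ⌊b / π⌋ := ⟨_, rfl⟩
  rw [← hm] at hfl hfl2
  have h1 : (m : ℝ) * π ≤ b := by rwa [le_div_iff₀ hπ] at hfl
  have h2 : b < (m + 1) * π := by rwa [div_lt_iff₀ hπ] at hfl2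
  have h3 : S (b - m * π) := hbase _ (by linarith) (by linarith)
  have hfin : S b := by
    rcases le_total 0 m with h | h
    · obtain ⟨k, hk⟩ := Int.eq_ofNat_of_zero_le h
      have h4 := hnat k _ h3
      rw [hk] at h4
      have h5 : b - ((k : ℤ) : ℝ) * π + (k : ℝ) * π = b := by
        push_cast
        ring
      rwa [h5] at h4
    · obtain ⟨k, hk⟩ := Int.eq_ofNat_of_zero_le (show 0 ≤ -m by omega)
      refine hnat' k b ?_
      have h5 : b - (m : ℝ) * π = b + (k : ℝ) * π := by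
        have h6 : (m : ℝ) = -(k : ℝ) := by
          have h7 : m = -(k : ℤ) := by omega
          rw [h7]
          push_cast
          ring
        rw [h6]
        ring
      rwa [h5] at h3
  rw [hS] at hfin
  exact hfin y hy

end Pool.Agent.Lib.MP_ccbbf6_gt.K7.GG
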