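import Pool.Agent.Lib.MP_ccbbf6_gt.K7.GG5
import Pool.Agent.Lib.MP_ccbbf6_gt.K7.GH1
import Pool.Agent.Lib.MP_ccbbf6_gt.L5.TE1

/-!
# Level 5, kappa = 7, block G, GJ1: the real operators on `R^D` (helper2)
-/

set_option autoImplicit false
set_option linter.unusedSectionVars false
set_option linter.unusedVariables false

open Set Filter Topology Metric Real Module
open scoped ContDiff RealInnerProductSpace

noncomputable section

namespace Pool.Agent.Lib.MP_ccbbf6_gt.K7.GG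

open L4 Geo L4.ORI L5 L5.NEG RG

variable {n : ℕ} {M : Type*} [MetricSpace M] [CompactSpace M] {𝒜 : SDist n M}

section emb

variable (t : TEmb 𝒜)

/-- the embedding of the tangent spaces -/
def tI (x : M) : Eu n →L[ℝ] HR t.D := (t.i x).toContinuousLinearMap

/-- its adjoint -/
def tA (x : M) : HR t.D →L[ℝ] Eu n := ContinuousLinearMap.adjoint (tI t x)

theorem inner_tA (x : M) (w : Eu n) (y : HR t.D) : ⟪w, tA t x y⟫ = ⟪tI t x w, y⟫ := by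
  rw [tA, ContinuousLinearMap.adjoint_inner_right]

theorem inner_tA' (x : M) (w : Eu n) (y : HR t.D) : ⟪tA t x y, w⟫ = ⟪y, tI t x w⟫ := by
  rw [tA, ContinuousLinearMap.adjoint_inner_left]

theorem inner_tI (x : M) (w w' : Eu n) : ⟪tI t x w, tI t x w'⟫ = ⟪w, w'⟫ := (t.i x).inner_map_map w w'

theorem norm_tI (x : M) (w : Eu n) : ‖tI t x w‖ = ‖w‖ := (t.i x).norm_map w

theorem tA_tI (x : M) (w : Eu n) : tA t x (tI t x w) = w := by
  refine ext_inner_left ℝ fun y => ?_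
  rw [inner_tA, inner_tI]

theorem norm_tA_le (x : M) (y : HR t.D) : ‖tA t x y‖ ≤ ‖y‖ := by
  have h1 : ‖tA t x y‖ ^ 2 ≤ ‖y‖ * ‖tA t x y‖ := by
    rw [← real_inner_self_eq_norm_sq, inner_tA, ← norm_tI t x (tA t x y), mul_comm]
    exact real_inner_le_norm _ _
  rcases (norm_nonneg (tA t x y)).eq_or_lt with h | h
  · rw [← h]
    exact norm_nonneg _
  · nlinarith

theorem smV_tA {F : Type} [NormedAddCommGroup F] [NormedSpace ℝ F] {x : F → M} {u : F} (hx : SmAt 𝒜 x u) {p : M}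
    (hp : x u ∈ (𝒜.ψ p).source) {y : F → HR t.D} (hy : ContDiffAt ℝ ∞ y u) :
    SmV 𝒜 p x (fun v => tA t (x v) (y v)) u := by
  obtain ⟨U, e, hU, hxU, hUs, ho, he⟩ := exists_lf 𝒜 (x u)
  have h2 : ∀ a, SmV 𝒜 (x u) x (fun v => e a (x v)) u := fun a => he hx hxU a
  have h3 : SmV 𝒜 p x (fun v => ∑ a, ⟪tI t (x v) (e a (x v)), y v⟫ • e a (x v)) u := by
    refine SmV.sum _ fun a _ => SmV.smul (SmV.chart hx (h2 a) (𝒜.mem _) hp) ?_
    exact ((t.smooth hx (𝒜.mem _)).1 (h2 a)).inner ℝ hy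
  refine SmV.congr h3 ?_
  filter_upwards [hx.1.preimage_mem_nhds (hU.mem_nhds hxU)] with v hv
  have h4 := proj_of_orthonormal (W := (⊤ : Submodule ℝ (Eu n))) (ho (x v) hv) (fun _ => trivial) (by simp) (tA t (x v) (y v))
  rw [(Submodule.starProjection_eq_self_iff (K := (⊤ : Submodule ℝ (Eu n)))).2 Submodule.mem_top] at h4
  rw [h4]
  refine Finset.sum_congr rfl fun a _ => ?_
  rw [inner_tA]

theorem sm_tI {F : Type} [NormedAddCommGroup F] [NormedSpace ℝ F] {x : F → M} {w : F → Eu n} {u : F} (hx : SmAt 𝒜 x u)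
    {p : M} (hp : x u ∈ (𝒜.ψ p).source) (hw : SmV 𝒜 p x w u) : ContDiffAt ℝ ∞ (fun v => tI t (x v) (w v)) u :=
  (t.smooth hx hp).1 hw

end emb

/-! ### linear versions -/

/-- `JG` as a linear map -/
def JL (𝒜 : SDist n M) (hB : Bl M) (c : Gs M) (b : ℝ) : Eu n →L[ℝ] Eu n := LinearMap.toContinuousLinearMap
  { toFun := fun w => JG 𝒜 hB c b w
    map_add' := fun w w' => JG_add hB c b w w'
    map_smul' := fun r w => JG_smul hB c b r w }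

theorem JL_apply (hB : Bl M) (c : Gs M) (b : ℝ) (w : Eu n) : JL 𝒜 hB c b w = JG 𝒜 hB c b w := rfl

/-- `thK` as a linear map -/
def thL (𝒜 : SDist n M) (hB : Bl M) (c : Gs M) : Eu n →L[ℝ] Eu n := LinearMap.toContinuousLinearMap
  { toFun := fun w => thK 𝒜 hB c (Hc 𝒜 c w)
    map_add' := fun w w' => by rw [map_add, thK_add hB (Hc_mem c w) (Hc_mem c w')]
    map_smul' := fun r w => by rw [map_smul, thK_smul hB r (Hc_mem c w), RingHom.id_apply] }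

theorem thL_apply (hB : Bl M) (c : Gs M) (w : Eu n) : thL 𝒜 hB c w = thK 𝒜 hB c (Hc 𝒜 c w) := rfl

theorem thL_of_mem (hB : Bl M) {c : Gs M} {w : Eu n} (h : w ∈ NEG.Kc 𝒜 c) : thL 𝒜 hB c w = thK 𝒜 hB c w := by
  rw [thL_apply, Hc_of_mem h]

section ops

variable (t : TEmb 𝒜) (hB : Bl M)

/-- the kernel on `R^D` -/
def Jr (c : Gs M) (b : ℝ) : HR t.D →L[ℝ] HR t.D :=
  (tI t (c.1 0)).comp ((Hc 𝒜 c).comp ((JL 𝒜 hB c b).comp ((Hc 𝒜 (shift b c)).comp (tA t ((shift b c).1 0)))))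

/-- the transport on `R^D` -/
def Tr (c : Gs M) : HR t.D →L[ℝ] HR t.D :=
  (tI t ((shift π c).1 0)).comp ((thL 𝒜 hB c).comp (tA t (c.1 0)))

/-- the projection on `R^D` -/
def Pr (t : TEmb 𝒜) (c : Gs M) : HR t.D →L[ℝ] HR t.D := (tI t (c.1 0)).comp ((Hc 𝒜 c).comp (tA t (c.1 0)))

theorem Jr_apply (c : Gs M) (b : ℝ) (y : HR t.D) : Jr t hB c b y =
    tI t (c.1 0) (Hc 𝒜 c (JG 𝒜 hB c b (Hc 𝒜 (shift b c) (tA t ((shift b c).1 0) y)))) := rfl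

theorem Tr_apply (c : Gs M) (y : HR t.D) : Tr t hB c y =
    tI t ((shift π c).1 0) (thK 𝒜 hB c (Hc 𝒜 c (tA t (c.1 0) y))) := rfl

theorem Pr_apply (c : Gs M) (y : HR t.D) : Pr t c y = tI t (c.1 0) (Hc 𝒜 c (tA t (c.1 0) y)) := rfl

theorem Jr_smooth {κ : ℕ} (hk : 𝒜.HK κ) {F : Type} [NormedAddCommGroup F] [NormedSpace ℝ F] {σ : F → Gs M} {b : F → ℝ} {u : F}
    (hσ : SmGAt 𝒜 σ u) (hb : ContDiffAt ℝ ∞ b u) : ContDiffAt ℝ ∞ (fun v => Jr t hB (σ v) (b v)) u := by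
  refine contDiffAt_clm_apply_iff.2 fun y => ?_
  have hs : SmGAt 𝒜 (fun v => shift (b v) (σ v)) u := hσ.shift hB hb
  have h1 : SmV 𝒜 ((shift (b u) (σ u)).1 0) (fun v => (shift (b v) (σ v)).1 0)
      (fun v => tA t ((shift (b v) (σ v)).1 0) y) u := smV_tA t hs.1 (𝒜.mem _) contDiffAt_const
  have h2 := smV_Hc hB hk hs (𝒜.mem _) h1
  have h3 := smV_JG hB hσ hb (𝒜.mem ((σ u).1 0)) (𝒜.mem _) h2
  have h4 := smV_Hc hB hk hσ (𝒜.mem _) h3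
  exact sm_tI t hσ.1 (𝒜.mem _) h4

theorem Tr_smooth {κ : ℕ} (hk : 𝒜.HK κ) {F : Type} [NormedAddCommGroup F] [NormedSpace ℝ F] {σ : F → Gs M} {u : F}
    (hσ : SmGAt 𝒜 σ u) : ContDiffAt ℝ ∞ (fun v => Tr t hB (σ v)) u := by
  refine contDiffAt_clm_apply_iff.2 fun y => ?_
  have h1 : SmV 𝒜 ((σ u).1 0) (fun v => (σ v).1 0) (fun v => tA t ((σ v).1 0) y) u := smV_tA t hσ.1 (𝒜.mem _) contDiffAt_const
  have h2 := smV_Hc hB hk hσ (𝒜.mem _) h1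
  have h3 : SmV 𝒜 ((σ u).1 π) (fun v => (σ v).1 π) (fun v => thK 𝒜 hB (σ v) (Hc 𝒜 (σ v) (tA t ((σ v).1 0) y))) u :=
    smV_thK hB hσ (𝒜.mem _) (𝒜.mem _) h2 (Eventually.of_forall fun v => Hc_mem _ _)
  have h4 : SmAt 𝒜 (fun v => (σ v).1 π) u := hσ.ev hB contDiffAt_const
  have h5 := sm_tI t h4 (𝒜.mem _) h3
  refine h5.congr_of_eventuallyEq (Eventually.of_forall fun v => ?_)
  show tI t ((shift π (σ v)).1 0) _ = tI t ((σ v).1 π) _
  have h6 : (shift π (σ v)).1 0 = (σ v).1 π := by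
    show (σ v).1 (0 + π) = _
    rw [zero_add]
  rw [h6]
  rfl

include hB in
theorem Pr_smooth {κ : ℕ} (hk : 𝒜.HK κ) {F : Type} [NormedAddCommGroup F] [NormedSpace ℝ F] {σ : F → Gs M} {u : F}
    (hσ : SmGAt 𝒜 σ u) : ContDiffAt ℝ ∞ (fun v => Pr t (σ v)) u := by
  refine contDiffAt_clm_apply_iff.2 fun y => ?_
  have h1 : SmV 𝒜 ((σ u).1 0) (fun v => (σ v).1 0) (fun v => tA t ((σ v).1 0) y) u := smV_tA t hσ.1 (𝒜.mem _) contDiffAt_const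
  exact sm_tI t hσ.1 (𝒜.mem _) (smV_Hc hB hk hσ (𝒜.mem _) h1)

theorem Jr_anti (c : Gs M) (b : ℝ) (x y : HR t.D) : ⟪Jr t hB (shift b c) (-b) x, y⟫ = -⟪x, Jr t hB c b y⟫ := by
  have hs : shift (-b) (shift b c) = c := by rw [← shift_add, neg_add_cancel, shift_zero]
  rw [Jr_apply, Jr_apply, hs, ← inner_tA, ← inner_tA', real_inner_comm]
  obtain ⟨w, hw⟩ : ∃ w, w = Hc 𝒜 (shift b c) (tA t ((shift b c).1 0) y) := ⟨_, rfl⟩
  obtain ⟨v, hv⟩ : ∃ v, v = Hc 𝒜 c (tA t (c.1 0) x) := ⟨_, rfl⟩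
  have hwm : w ∈ NEG.Kc 𝒜 (shift b c) := by rw [hw]; exact Hc_mem _ _
  have hvm : v ∈ NEG.Kc 𝒜 c := by rw [hv]; exact Hc_mem _ _
  have e1 : ⟪tA t ((shift b c).1 0) y, Hc 𝒜 (shift b c) (JG 𝒜 hB (shift b c) (-b) v)⟫ =
      ⟪JG 𝒜 hB (shift b c) (-b) v, w⟫ := by
    rw [← inner_Hc (shift b c) _ _ (Hc_mem _ _), ← hw, real_inner_comm, inner_Hc _ _ _ hwm]
  have e2 : ⟪tA t (c.1 0) x, Hc 𝒜 c (JG 𝒜 hB c b w)⟫ = ⟪v, JG 𝒜 hB c b w⟫ := by
    rw [← inner_Hc c _ _ (Hc_mem _ _), ← hv, real_inner_comm, inner_Hc _ _ _ hvm, real_inner_comm]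
  rw [← hw, ← hv, e1, e2, JG_anti hB c b hvm hwm, neg_neg]

theorem Pr_Jr (c : Gs M) (b : ℝ) (y : HR t.D) : Pr t c (Jr t hB c b y) = Jr t hB c b y := by
  rw [Pr_apply, Jr_apply, tA_tI, Hc_of_mem (Hc_mem _ _)]

theorem Jr_shR (c : Gs M) (b : ℝ) (y : HR t.D) : Jr t hB c (b + π) (Tr t hB (shift b c) y) = Jr t hB c b y := by
  have hs : shift π (shift b c) = shift (b + π) c := by rw [← shift_add, add_comm]
  rw [Jr_apply, Tr_apply, Jr_apply, hs, tA_tI]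
  have h1 : thK 𝒜 hB (shift b c) (Hc 𝒜 (shift b c) (tA t ((shift b c).1 0) y)) ∈ NEG.Kc 𝒜 (shift (b + π) c) := by
    rw [← hs]
    exact thK_mem hB (Hc_mem _ _)
  rw [Hc_of_mem h1, JG_top hB c b (Hc_mem _ _)]

theorem Tr_inner (c : Gs M) {x y : HR t.D} (hx : Pr t c x = x) (hy : Pr t c y = y) : ⟪Tr t hB c x, Tr t hB c y⟫ = ⟪x, y⟫ := by
  rw [Tr_apply, Tr_apply, inner_tI, inner_thK hB (Hc_mem _ _) (Hc_mem _ _), ← inner_tI t (c.1 0), ← Pr_apply, ← Pr_apply, hx, hy]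

/-- the transport of the kernel -/
theorem thK_JG (c : Gs M) (b : ℝ) {y : Eu n} (hy : y ∈ NEG.Kc 𝒜 (shift b c)) :
    thK 𝒜 hB c (Hc 𝒜 c (JG 𝒜 hB c b y)) = Hc 𝒜 (shift π c) (JG 𝒜 hB (shift π c) (b - π) y) := by
  have hL := thK_mem (𝒜 := 𝒜) hB (Hc_mem c (JG 𝒜 hB c b y))
  have hR := Hc_mem (𝒜 := 𝒜) (shift π c) (JG 𝒜 hB (shift π c) (b - π) y)
  have hsub := Submodule.sub_mem _ hL hR
  have hb : shift (b - π) (shift π c) = shift b c := by rw [← shift_add, sub_add_cancel]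
  -- tested with `thK x`
  have h1 : ∀ x ∈ NEG.Kc 𝒜 c, ⟪thK 𝒜 hB c x, thK 𝒜 hB c (Hc 𝒜 c (JG 𝒜 hB c b y)) -
      Hc 𝒜 (shift π c) (JG 𝒜 hB (shift π c) (b - π) y)⟫ = 0 := by
    intro x hx
    have e1 : ⟪thK 𝒜 hB c x, thK 𝒜 hB c (Hc 𝒜 c (JG 𝒜 hB c b y))⟫ = ⟪x, JG 𝒜 hB c b y⟫ := by
      rw [inner_thK hB hx (Hc_mem _ _), real_inner_comm, inner_Hc _ _ _ hx, real_inner_comm]
    have e2 : ⟪thK 𝒜 hB c x, Hc 𝒜 (shift π c) (JG 𝒜 hB (shift π c) (b - π) y)⟫ = ⟪x, JG 𝒜 hB c b y⟫ := by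
      rw [real_inner_comm, inner_Hc _ _ _ (thK_mem hB hx), real_inner_comm,
        JG_anti hB (shift π c) (b - π) (thK_mem hB hx) (by rw [hb]; exact hy), hb, JG_anti hB c b hx hy]
      have e3 := JG_top hB (shift b c) (-b) (y := x) (by
        rw [← shift_add, neg_add_cancel, shift_zero]
        exact hx)
      rw [← shift_add, neg_add_cancel, shift_zero] at e3
      have e4 : -(b - π) = -b + π := by ring
      rw [e4, e3]
    rw [inner_sub_right, e1, e2, sub_self]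
  obtain ⟨d, hd⟩ : ∃ d, d = thK 𝒜 hB c (Hc 𝒜 c (JG 𝒜 hB c b y)) - Hc 𝒜 (shift π c) (JG 𝒜 hB (shift π c) (b - π) y) := ⟨_, rfl⟩
  rw [← hd] at hsub h1
  have hpp : shift π (shift π c) = c := by
    rw [← shift_add, ← two_mul, shift_per 𝒜 hB]
  have h2 : thK 𝒜 hB c (thK 𝒜 hB (shift π c) d) = d := by
    have := thK_thK hB hsub
    rw [hpp] at this
    exact this
  have h3 : thK 𝒜 hB (shift π c) d ∈ NEG.Kc 𝒜 c := by
    have := thK_mem hB hsub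
    rw [hpp] at this
    exact this
  have h4 := h1 _ h3
  rw [h2, real_inner_self_eq_norm_sq] at h4
  have h5 : d = 0 := norm_eq_zero.1 (pow_eq_zero_iff (two_ne_zero)|>.1 h4)
  rw [hd] at h5
  exact sub_eq_zero.1 h5

theorem Tr_Jr (c : Gs M) (b : ℝ) (y : HR t.D) : Tr t hB c (Jr t hB c b y) = Jr t hB (shift π c) (b - π) y := by
  have hb : shift (b - π) (shift π c) = shift b c := by rw [← shift_add, sub_add_cancel]
  rw [Tr_apply, Jr_apply, Jr_apply, hb, tA_tI, Hc_of_mem (Hc_mem _ _), thK_JG hB c b (Hc_mem _ _)]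

end ops

end Pool.Agent.Lib.MP_ccbbf6_gt.K7.GG
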