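import Pool.Agent.Lib.MP_ccbbf6_gt.K7.GG6
import Pool.Agent.Lib.MP_ccbbf6_gt.K7.GH2
import Pool.Agent.Lib.MP_ccbbf6_gt.K7.GJ1

/-!
# Level 5, kappa = 7, block G, GJ2: the orbit data `orb`, bounds, the form `QW`, the evaluation `EvC` (helper2)
-/

set_option autoImplicit false
set_option linter.unusedSectionVars false
set_option linter.unusedVariables false

open Set Filter Topology Metric Real Module
open scoped ContDiff RealInnerProductSpace

noncomputable section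

namespace Pool.Agent.Lib.MP_ccbbf6_gt.K7.GG

open L4 Geo L4.ORI L5 L5.NEG RG

variable {n : ℕ} {M : Type*} [MetricSpace M] [CompactSpace M] {𝒜 : SDist n M}

theorem shift_comm' (s r : ℝ) (c : Gs M) : shift r (shift s c) = shift (s + r) c := by rw [← shift_add, add_comm]

theorem shift_pp (hB : Bl M) (𝒜 : SDist n M) (c : Gs M) : shift π (shift π c) = c := by
  rw [← shift_add, ← two_mul, shift_per 𝒜 hB]

theorem JG_per (hB : Bl M) (c : Gs M) (b : ℝ) (w : Eu n) : JG 𝒜 hB c (b + 2 * π) w = JG 𝒜 hB c b w := by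
  unfold JG
  rw [gs_shift_per 𝒜 hB]
  have h0 : ∀ τ : ℝ, (gw 𝒜 hB (shift b c) (𝒜.vel (shift b c).1 0 + τ • w)).1 (-(b + 2 * π)) =
      (gw 𝒜 hB (shift b c) (𝒜.vel (shift b c).1 0 + τ • w)).1 (-b) := by
    intro τ
    have h1 := IsGeo.closed 𝒜 hB (gw 𝒜 hB (shift b c) (𝒜.vel (shift b c).1 0 + τ • w)).2 (-(b + 2 * π))
    have h2 : -(b + 2 * π) + 2 * π = -b := by ring
    rw [h2] at h1
    exact h1.symm
  simp only [h0]

variable (t : TEmb 𝒜) (hB : Bl M)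

theorem Jr_per (c : Gs M) (b : ℝ) : Jr t hB c (b + 2 * π) = Jr t hB c b := by
  ext1 y
  rw [Jr_apply, Jr_apply, gs_shift_per 𝒜 hB, JG_per]

theorem norm_Hc_le (c : Gs M) (w : Eu n) : ‖Hc 𝒜 c w‖ ≤ ‖w‖ := by
  have h1 : ‖Hc 𝒜 c w‖ ^ 2 ≤ ‖w‖ * ‖Hc 𝒜 c w‖ := by
    rw [← real_inner_self_eq_norm_sq, inner_Hc _ _ _ (Hc_mem _ _)]
    exact real_inner_le_norm _ _
  rcases (norm_nonneg (Hc 𝒜 c w)).eq_or_lt with h | h
  · rw [← h]
    exact norm_nonneg _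
  · nlinarith

theorem norm_Tr_le (c : Gs M) (y : HR t.D) : ‖Tr t hB c y‖ ≤ ‖y‖ := by
  rw [Tr_apply, norm_tI, norm_thK hB (Hc_mem _ _)]
  exact (norm_Hc_le _ _).trans (norm_tA_le t _ _)

section cont

variable [Nonempty (Gs M)] (e : Emb n 𝒜) {κ : ℕ} (hk : 𝒜.HK κ)

include e hk in
theorem cont_Jr : Continuous fun z : Gs M × ℝ => Jr t hB z.1 z.2 :=
  cont_of_smooth hB e (f := fun c r => Jr t hB c r) fun _ _ _ hσ hx => Jr_smooth t hB hk hσ hx

include hB e hk in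
theorem cont_Pr : Continuous (Pr t) :=
  SmF.continuous hB e (fun hσ => Pr_smooth t hB hk hσ)

include e hk in
theorem exists_bound_Jr : ∃ CJ : ℝ, 0 ≤ CJ ∧ ∀ c b, ‖Jr t hB c b‖ ≤ CJ := by
  obtain ⟨C, hC⟩ := ((isCompact_univ (X := Gs M)).prod (isCompact_Icc (a := (0 : ℝ)) (b := 2 * π))).exists_bound_of_continuousOn
    (cont_Jr t hB e hk).continuousOn
  have hC' : ∀ c b, 0 ≤ b → b ≤ 2 * π → ‖Jr t hB c b‖ ≤ C := fun c b h0 h1 => hC (c, b) ⟨mem_univ _, h0, h1⟩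
  refine ⟨max C 0, le_max_right _ _, fun c b => ?_⟩
  have hper : Function.Periodic (fun b => Jr t hB c b) (2 * π) := fun b => Jr_per t hB c b
  obtain ⟨b', hb', h1⟩ := hper.exists_mem_Ico₀ (by positivity) b
  have h2 : Jr t hB c b = Jr t hB c b' := h1
  rw [h2]
  exact (hC' c b' hb'.1 hb'.2.le).trans (le_max_left _ _)

end cont

/-- the orbit data of `c` -/
def orb [Nonempty (Gs M)] (e : Emb n 𝒜) {κ : ℕ} (hk : 𝒜.HK κ) (c : Gs M) : RD t.D where
  J s r := Jr t hB (shift s c) r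
  T s := Tr t hB (shift s c)
  P s := Pr t (shift s c)
  contJ := (cont_Jr t hB e hk).comp (((gs_continuous_shift.comp (Continuous.prodMk_left c)).comp continuous_fst).prodMk continuous_snd)
  anti s r x y := by
    rw [← shift_comm' s r c]
    exact Jr_anti t hB (shift s c) r x y
  shR s r y := by
    rw [← shift_comm' s r c]
    exact Jr_shR t hB (shift s c) r y
  TJ s r y := by
    rw [← shift_comm' s π c]
    exact Tr_Jr t hB (shift s c) r y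
  PJ s r y := Pr_Jr t hB (shift s c) r y
  inT s x y hx hy := Tr_inner t hB (shift s c) hx hy

section orb

variable [Nonempty (Gs M)] (e : Emb n 𝒜) {κ : ℕ} (hk : 𝒜.HK κ)

theorem orb_J (c : Gs M) (s r : ℝ) : (orb t hB e hk c).J s r = Jr t hB (shift s c) r := rfl
theorem orb_T (c : Gs M) (s : ℝ) : (orb t hB e hk c).T s = Tr t hB (shift s c) := rfl
theorem orb_P (c : Gs M) (s : ℝ) : (orb t hB e hk c).P s = Pr t (shift s c) := rfl

theorem per_orb {CJ : ℝ} (hC : ∀ c b, ‖Jr t hB c b‖ ≤ CJ) (c : Gs M) : (orb t hB e hk c).Per CJ := by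
  refine ⟨fun s r => ?_, fun s => ?_, fun s r y => ?_, fun s y => ?_⟩
  · rw [orb_J, orb_J, gs_shift_per 𝒜 hB]
  · rw [orb_P, orb_P, gs_shift_per 𝒜 hB]
  · rw [orb_J]
    exact ((Jr t hB _ _).le_opNorm y).trans (mul_le_mul_of_nonneg_right (hC _ _) (norm_nonneg _))
  · rw [orb_T]
    exact norm_Tr_le t hB _ _

/-- the trace of a section on the orbit -/
def ts (t : TEmb 𝒜) (w : Gs M → Eu n) (c : Gs M) (s : ℝ) : HR t.D := tI t ((shift s c).1 0) (w (shift s c))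

theorem Jr_tI (c : Gs M) (b : ℝ) {w : Eu n} (hw : w ∈ NEG.Kc 𝒜 (shift b c)) :
    Jr t hB c b (tI t ((shift b c).1 0) w) = tI t (c.1 0) (Hc 𝒜 c (JG 𝒜 hB c b w)) := by
  rw [Jr_apply, tA_tI, Hc_of_mem hw]

theorem Tr_tI (c : Gs M) {w : Eu n} (hw : w ∈ NEG.Kc 𝒜 c) :
    Tr t hB c (tI t (c.1 0) w) = tI t ((shift π c).1 0) (thK 𝒜 hB c w) := by
  rw [Tr_apply, tA_tI, Hc_of_mem hw]

theorem Pr_tI (c : Gs M) {w : Eu n} (hw : w ∈ NEG.Kc 𝒜 c) : Pr t c (tI t (c.1 0) w) = tI t (c.1 0) w := by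
  rw [Pr_apply, tA_tI, Hc_of_mem hw]

theorem inner_Jr_tI (c : Gs M) (b : ℝ) {w w' : Eu n} (hw : w ∈ NEG.Kc 𝒜 c) (hw' : w' ∈ NEG.Kc 𝒜 (shift b c)) :
    ⟪tI t (c.1 0) w, Jr t hB c b (tI t ((shift b c).1 0) w')⟫ = ⟪w, JG 𝒜 hB c b w'⟫ := by
  rw [Jr_tI t hB c b hw', inner_tI, real_inner_comm, inner_Hc _ _ _ hw, real_inner_comm]

theorem ts_pden {w : Gs M → Eu n} (hc : Continuous fun c => tI t (c.1 0) (w c)) (hm : ∀ c, w c ∈ NEG.Kc 𝒜 c) (c : Gs M) :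
    (orb t hB e hk c).PDen (ts t w c) :=
  ⟨hc.comp (gs_continuous_shift.comp (Continuous.prodMk_left c)), fun s => Pr_tI t _ (hm _), fun s => by
    unfold ts
    rw [gs_shift_per 𝒜 hB]⟩

/-- the form of two sections -/
theorem BR_ts {w w' : Gs M → Eu n} (hm : ∀ c, w c ∈ NEG.Kc 𝒜 c) (hm' : ∀ c, w' c ∈ NEG.Kc 𝒜 c) (c : Gs M) :
    (orb t hB e hk c).BR (ts t w c) (ts t w' c) =
      ∫ s in (0 : ℝ)..(2 * π), -∫ r in (0 : ℝ)..π, ⟪w (shift s c), JG 𝒜 hB (shift s c) r (w' (shift r (shift s c)))⟫ := by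
  unfold RD.BR
  refine intervalIntegral.integral_congr fun s _ => ?_
  show ∫ r in (0 : ℝ)..π, -⟪ts t w c s, Jr t hB (shift s c) r (ts t w' c (s + r))⟫ = _
  rw [← intervalIntegral.integral_neg]
  refine intervalIntegral.integral_congr fun r _ => ?_
  show -⟪ts t w c s, Jr t hB (shift s c) r (ts t w' c (s + r))⟫ = _
  unfold ts
  rw [← shift_comm' s r c, inner_Jr_tI t hB (shift s c) r (hm _) (hm' _)]

theorem JW_eq (w : Gs M → Eu n) (c : Gs M) (b : ℝ) : JW 𝒜 hB w c b = JG 𝒜 hB c b (w (shift b c)) := rfl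

theorem QW_eq {w : Gs M → Eu n} (hm : ∀ c, w c ∈ NEG.Kc 𝒜 c) (c : Gs M) :
    QW 𝒜 hB w c = (orb t hB e hk c).BR (ts t w c) (ts t w c) := by
  rw [BR_ts t hB e hk hm hm]
  rfl

/-- the evaluation -/
theorem er_ts {w : Gs M → Eu n} (hc : Continuous fun c => tI t (c.1 0) (w c)) (hm : ∀ c, w c ∈ NEG.Kc 𝒜 c) (c : Gs M) (b : ℝ)
    (hi : Continuous fun r => JG 𝒜 hB (shift b c) r (w (shift r (shift b c)))) :
    (orb t hB e hk c).er (ts t w c) b = tI t ((shift b c).1 0) (Hc 𝒜 (shift b c) (EvW 𝒜 hB w (shift b c))) := by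
  unfold RD.er EvW
  have i2 : IntervalIntegrable (fun r => Hc 𝒜 (shift b c) (JG 𝒜 hB (shift b c) r (w (shift r (shift b c))))) MeasureTheory.volume 0 π :=
    ((Hc 𝒜 (shift b c)).continuous.comp hi).intervalIntegrable _ _
  rw [← ContinuousLinearMap.intervalIntegral_comp_comm _ (hi.intervalIntegrable _ _),
    ← ContinuousLinearMap.intervalIntegral_comp_comm _ i2]
  refine intervalIntegral.integral_congr fun r _ => ?_
  show Jr t hB (shift b c) r (ts t w c (b + r)) = _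
  unfold ts
  rw [← shift_comm' b r c, Jr_tI t hB _ _ (hm _)]

theorem Ev_ts {w : Gs M → Eu n} (hc : Continuous fun c => tI t (c.1 0) (w c)) (hm : ∀ c, w c ∈ NEG.Kc 𝒜 c)
    (hi : ∀ c, Continuous fun r => JG 𝒜 hB c r (w (shift r c))) (c : Gs M) :
    (orb t hB e hk c).Ev (ts t w c) = tI t (c.1 0) (EvC 𝒜 hB w c) := by
  unfold RD.Ev EvC
  rw [er_ts t hB e hk hc hm c 0 (by rw [shift_zero]; exact hi c), er_ts t hB e hk hc hm c π (hi _), orb_T,
    Tr_tI t hB _ (Hc_mem _ _), shift_pp hB 𝒜, shift_zero, map_sub]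

end orb

end Pool.Agent.Lib.MP_ccbbf6_gt.K7.GG
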