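import Pool.Agent.Lib.MP_ccbbf6_gt.K7.DP5
import Pool.Agent.Lib.MP_ccbbf6_gt.K7.GJ2

/-!
# `κ = 7`, density path, part 8: the orbit data satisfy `OD.Geo`

Proof of `jr`: `Jr t hB c 0 = 0` (`JG_nul`), the derivative of `b ↦ Jr t hB c b y` at `0` is `-y` for `y ∈ K_c`
(in the chart `ψ (c 0)`: `G (b, τ) = gG 𝒜 hB c b (τ • w)` is smooth at `(0, 0)`, `G (0, τ) = c 0`,
`∂_b G (0, τ) = vel c 0 - (vel c 0 + τ w) / √(1 + τ² |w|²)`, so `∂_τ ∂_b G (0, 0) = -w`; symmetry of the second derivative),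
Taylor with the bound of the second derivative in `b` on the compact set `Gs M × [0, 1]` (`Jr_smooth` along shifts and a
compactness argument as in `exists_bound_Jr`: `b ↦ Jr t hB c b` is smooth, the second derivative in `b` is continuous in
`(c, b)`: local plots `exists` in `gs`, see `cont_Jr`). `pr`: Lipschitz bound of `s ↦ Pr t (shift s c)` in the same way.
-/

set_option autoImplicit false
set_option linter.unusedSectionVars false

open Set Filter Topology Metric Real Module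
open scoped ContDiff RealInnerProductSpace

noncomputable section

namespace Pool.Agent.Lib.MP_ccbbf6_gt.K7.GG

open L4 Geo L4.ORI L5 L5.NEG RG

/-! ### calculus -/

/-- mixed partial derivatives, vector valued -/
private theorem dp8_mixed {G : Type*} [NormedAddCommGroup G] [NormedSpace ℝ G] {f : ℝ × ℝ → G} {x y : ℝ}
    (h : ContDiffAt ℝ ∞ f (x, y)) :
    ∃ D, HasDerivAt (fun s => deriv (fun t => f (s, t)) y) D x ∧ HasDerivAt (fun t => deriv (fun s => f (s, t)) x) D y := by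
  have hd : DifferentiableAt ℝ (fderiv ℝ f) (x, y) :=
    (h.fderiv_right (m := ∞) (by simp)).differentiableAt (by simp)
  have hs : IsSymmSndFDerivAt ℝ f (x, y) := (h.of_le (m := 2) ENat.LEInfty.out).isSymmSndFDerivAt (by simp)
  have e1 : ∀ᶠ z in 𝓝 (x, y), DifferentiableAt ℝ f z := PO.eventually_diff h
  refine ⟨fderiv ℝ (fderiv ℝ f) (x, y) (1, 0) (0, 1), ?_, ?_⟩
  · have h1 : HasDerivAt (fun s : ℝ => (s, y)) ((1 : ℝ), (0 : ℝ)) x := (hasDerivAt_id x).prodMk (hasDerivAt_const x y)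
    have h2 : HasDerivAt (fun s : ℝ => fderiv ℝ f (s, y)) (fderiv ℝ (fderiv ℝ f) (x, y) (1, 0)) x :=
      HasFDerivAt.comp_hasDerivAt (f := fun s : ℝ => (s, y)) (l := fderiv ℝ f) x hd.hasFDerivAt h1
    have h3 : HasDerivAt (fun s : ℝ => fderiv ℝ f (s, y) (0, 1)) (fderiv ℝ (fderiv ℝ f) (x, y) (1, 0) (0, 1)) x := by
      have := h2.clm_apply (hasDerivAt_const x ((0 : ℝ), (1 : ℝ)))
      simpa using this
    refine h3.congr_of_eventuallyEq ?_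
    have hc : ContinuousAt (fun s : ℝ => (s, y)) x := by fun_prop
    filter_upwards [hc.eventually e1] with s hs
    exact (PO.hasDerivAt_snd (z := (s, y)) hs).deriv
  · have h1 : HasDerivAt (fun t : ℝ => (x, t)) ((0 : ℝ), (1 : ℝ)) y := (hasDerivAt_const y x).prodMk (hasDerivAt_id y)
    have h2 : HasDerivAt (fun t : ℝ => fderiv ℝ f (x, t)) (fderiv ℝ (fderiv ℝ f) (x, y) (0, 1)) y :=
      HasFDerivAt.comp_hasDerivAt (f := fun t : ℝ => (x, t)) (l := fderiv ℝ f) y hd.hasFDerivAt h1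
    have h3 : HasDerivAt (fun t : ℝ => fderiv ℝ f (x, t) (1, 0)) (fderiv ℝ (fderiv ℝ f) (x, y) (0, 1) (1, 0)) y := by
      have := h2.clm_apply (hasDerivAt_const y ((1 : ℝ), (0 : ℝ)))
      simpa using this
    have e2 : fderiv ℝ (fderiv ℝ f) (x, y) (1, 0) (0, 1) = fderiv ℝ (fderiv ℝ f) (x, y) (0, 1) (1, 0) := hs _ _
    rw [e2]
    refine h3.congr_of_eventuallyEq ?_
    have hc : ContinuousAt (fun t : ℝ => (x, t)) y := by fun_prop
    filter_upwards [hc.eventually e1] with t ht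
    have h4 : HasDerivAt (fun s : ℝ => (s, t)) ((1 : ℝ), (0 : ℝ)) x := (hasDerivAt_id x).prodMk (hasDerivAt_const x t)
    have h5 : HasFDerivAt f (fderiv ℝ f (x, t)) ((fun s : ℝ => (s, t)) x) := ht.hasFDerivAt
    exact (h5.comp_hasDerivAt x h4).deriv

/-- the derivative of the normalised vectors -/
private theorem dp8_nrm {E : Type*} [NormedAddCommGroup E] [InnerProductSpace ℝ E] {v w : E} (hv : ‖v‖ = 1) (hw : ⟪w, v⟫ = 0) :
    HasDerivAt (fun τ : ℝ => nrm (v + τ • w)) w 0 := by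
  have h0 : ∀ τ : ℝ, ‖v + τ • w‖ = √(1 + τ ^ 2 * ‖w‖ ^ 2) := by
    intro τ
    have h1 : ‖v + τ • w‖ ^ 2 = 1 + τ ^ 2 * ‖w‖ ^ 2 := by
      rw [norm_add_sq_real, hv, real_inner_smul_right, real_inner_comm, hw, norm_smul, mul_pow, Real.norm_eq_abs, sq_abs]
      ring
    rw [← h1, Real.sqrt_sq (norm_nonneg _)]
  have h2 : (fun τ : ℝ => nrm (v + τ • w)) = fun τ => (√(1 + τ ^ 2 * ‖w‖ ^ 2))⁻¹ • (v + τ • w) := by
    funext τ
    unfold nrm
    rw [h0]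
  rw [h2]
  have h3 : HasDerivAt (fun τ : ℝ => 1 + τ ^ 2 * ‖w‖ ^ 2) 0 0 := by
    have h4 : HasDerivAt (fun s : ℝ => s ^ 2) 0 0 := by
      have := hasDerivAt_pow 2 (0 : ℝ)
      simpa using this
    have h5 := (h4.mul_const (‖w‖ ^ 2)).const_add 1
    rwa [zero_mul] at h5
  have h4 : HasDerivAt (fun τ : ℝ => (√(1 + τ ^ 2 * ‖w‖ ^ 2))⁻¹) 0 0 := by
    have h5 := h3.sqrt (by norm_num)
    have h6 := h5.inv (by norm_num)
    refine HasDerivAt.congr_deriv h6 ?_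
    simp
  have h5 : HasDerivAt (fun τ : ℝ => v + τ • w) w 0 := by
    have h6 := ((hasDerivAt_id (0 : ℝ)).smul_const w).const_add v
    rwa [one_smul] at h6
  have h6 := h4.smul h5
  refine h6.congr_deriv ?_
  norm_num

variable {n : ℕ} {M : Type*} [MetricSpace M] [CompactSpace M] {𝒜 : SDist n M}

/-- the derivative of the kernel at `0` -/
theorem hasDerivAt_JG (hB : Bl M) (c : Gs M) {w : ℝ → Eu n}
    (hw : SmV 𝒜 (c.1 0) (fun b : ℝ => (shift b c).1 0) w 0) (h0 : w 0 ∈ NEG.Kc 𝒜 c) :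
    HasDerivAt (fun b => JG 𝒜 hB c b (w b)) (-w 0) 0 := by
  have hs0 : shift 0 c = c := shift_zero c
  have hv : ‖𝒜.vel c.1 0‖ = 1 := vel_norm 𝒜 c
  have hwv : ⟪w 0, 𝒜.vel c.1 0⟫ = 0 := by
    rw [real_inner_comm]
    exact (mem_Kc_iff.1 h0).2
  have hne : ∀ τ : ℝ, 𝒜.vel c.1 0 + τ • w 0 ≠ 0 := fun τ => wne_of_mem (Submodule.smul_mem _ τ h0)
  obtain ⟨G, hG⟩ : ∃ G : ℝ × ℝ → Eu n, G = fun z => 𝒜.ψ (c.1 0) (gG 𝒜 hB c z.1 (z.2 • w z.1)) := ⟨_, rfl⟩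
  have hsh : ∀ u : ℝ × ℝ, SmGAt 𝒜 (fun z : ℝ × ℝ => shift z.1 c) u := fun u =>
    (smGAt_const c u).shift hB contDiffAt_fst
  have hGs : ContDiffAt ℝ ∞ G (0, 0) := by
    have h1 : SmAt 𝒜 (fun z : ℝ × ℝ => gG 𝒜 hB c z.1 (z.2 • w z.1)) (0, 0) := by
      refine smAt_gG hB (σ := fun _ : ℝ × ℝ => c) (b := fun z => z.1) (w := fun z => z.2 • w z.1) (smGAt_const c _) contDiffAt_fst
        (q := c.1 0) ?_ ?_ ?_
      · show (shift 0 c).1 0 ∈ _
        rw [hs0]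
        exact 𝒜.mem _
      · have h2 : SmV 𝒜 (c.1 0) (fun z : ℝ × ℝ => (shift z.1 c).1 0) (fun z => w z.1) (0, 0) :=
          SmV.comp (x := fun b : ℝ => (shift b c).1 0) (w := w) (f := fun z : ℝ × ℝ => z.1) (v := (0, 0)) hw contDiffAt_fst
        exact h2.smul contDiffAt_snd
      · show 𝒜.vel (shift 0 c).1 0 + (0 : ℝ) • w 0 ≠ 0
        rw [hs0]
        exact hne 0
    have h2 := h1.chart (q := c.1 0) (by
      show gG 𝒜 hB c 0 ((0 : ℝ) • w 0) ∈ _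
      rw [zero_smul, gG_zero]
      exact 𝒜.mem _)
    rw [hG]
    exact h2
  obtain ⟨D, hD1, hD2⟩ := dp8_mixed hGs
  have e1 : (fun b => deriv (fun τ => G (b, τ)) 0) = fun b => JG 𝒜 hB c b (w b) := by
    funext b
    rw [JG_def, hG]
  have e2 : (fun τ => deriv (fun b => G (b, τ)) 0) = fun τ => 𝒜.vel c.1 0 - nrm (𝒜.vel c.1 0 + τ • w 0) := by
    funext τ
    obtain ⟨H, hH⟩ : ∃ H : ℝ × ℝ → Eu n, H = fun z =>
      𝒜.ψ (c.1 0) ((gw 𝒜 hB (shift z.1 c) (𝒜.vel (shift z.1 c).1 0 + τ • w z.1)).1 z.2) := ⟨_, rfl⟩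
    have hHs : ContDiffAt ℝ ∞ H (0, 0) := by
      have h1 : SmGAt 𝒜 (fun z : ℝ × ℝ => gw 𝒜 hB (shift z.1 c) (𝒜.vel (shift z.1 c).1 0 + τ • w z.1)) (0, 0) := by
        have h2 : SmV 𝒜 (c.1 0) (fun z : ℝ × ℝ => (shift z.1 c).1 0) (fun z => w z.1) (0, 0) :=
          SmV.comp (x := fun b : ℝ => (shift b c).1 0) (w := w) (f := fun z : ℝ × ℝ => z.1) (v := (0, 0)) hw contDiffAt_fst
        have h3 : SmV 𝒜 (c.1 0) (fun z : ℝ × ℝ => (shift z.1 c).1 0) (fun z => 𝒜.vel (shift z.1 c).1 0) (0, 0) :=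
          SmGA.smV hB (hsh (0, 0)) (by
            show (shift 0 c).1 0 ∈ _
            rw [hs0]
            exact 𝒜.mem _)
        refine smGA_gw hB (hsh (0, 0)).1 (p := c.1 0) ?_ (h3.add (h2.smul (f := fun _ => τ) contDiffAt_const)) ?_
        · show (shift 0 c).1 0 ∈ _
          rw [hs0]
          exact 𝒜.mem _
        · show 𝒜.vel (shift 0 c).1 0 + τ • w 0 ≠ 0
          rw [hs0]
          exact hne τ
      have h2 := (h1.ev hB (t := fun z : ℝ × ℝ => z.2) contDiffAt_snd).chart (q := c.1 0) (by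
        show (gw 𝒜 hB (shift 0 c) _).1 0 ∈ _
        rw [gw_zero, hs0]
        exact 𝒜.mem _)
      rw [hH]
      exact h2
    have hHd : HasFDerivAt H (fderiv ℝ H (0, 0)) ((0 : ℝ), (0 : ℝ)) := (hHs.differentiableAt (by simp)).hasFDerivAt
    -- the two partial derivatives
    have d1 : HasDerivAt (fun b : ℝ => H (b, 0)) (fderiv ℝ H (0, 0) (1, 0)) 0 := by
      have h4 : HasDerivAt (fun s : ℝ => (s, (0 : ℝ))) ((1 : ℝ), (0 : ℝ)) 0 := (hasDerivAt_id (0 : ℝ)).prodMk (hasDerivAt_const _ _)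
      exact HasFDerivAt.comp_hasDerivAt (f := fun s : ℝ => (s, (0 : ℝ))) (l := H) 0 hHd h4
    have d2 : HasDerivAt (fun s : ℝ => H (0, s)) (fderiv ℝ H (0, 0) (0, 1)) 0 := by
      have h4 : HasDerivAt (fun s : ℝ => ((0 : ℝ), s)) ((0 : ℝ), (1 : ℝ)) 0 := (hasDerivAt_const _ _).prodMk (hasDerivAt_id (0 : ℝ))
      exact HasFDerivAt.comp_hasDerivAt (f := fun s : ℝ => ((0 : ℝ), s)) (l := H) 0 hHd h4
    have f1 : fderiv ℝ H (0, 0) (1, 0) = 𝒜.vel c.1 0 := by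
      have h5 : HasDerivAt (fun b => 𝒜.ψ (c.1 0) (c.1 b)) (𝒜.vel c.1 0) 0 := (IsGeo.exists_vel 𝒜 c.2 0).2
      have h6 : (fun b : ℝ => H (b, 0)) = fun b => 𝒜.ψ (c.1 0) (c.1 b) := by
        funext b
        rw [hH]
        show 𝒜.ψ (c.1 0) ((gw 𝒜 hB (shift b c) _).1 0) = _
        rw [gw_zero]
        show 𝒜.ψ (c.1 0) (c.1 (0 + b)) = _
        rw [zero_add]
      rw [h6] at d1
      exact d1.unique h5
    have f2 : fderiv ℝ H (0, 0) (0, 1) = nrm (𝒜.vel c.1 0 + τ • w 0) := by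
      obtain ⟨g, hg⟩ : ∃ g, g = gw 𝒜 hB c (𝒜.vel c.1 0 + τ • w 0) := ⟨_, rfl⟩
      have hg0 : g.1 0 = c.1 0 := by rw [hg, gw_zero]
      have h5 : HasDerivAt (fun s => 𝒜.ψ (g.1 0) (g.1 s)) (𝒜.vel g.1 0) 0 := (IsGeo.exists_vel 𝒜 g.2 0).2
      rw [hg0] at h5
      have h6 : (fun s : ℝ => H (0, s)) = fun s => 𝒜.ψ (c.1 0) (g.1 s) := by
        funext s
        rw [hH, hg]
        show 𝒜.ψ (c.1 0) ((gw 𝒜 hB (shift 0 c) (𝒜.vel (shift 0 c).1 0 + τ • w 0)).1 s) = _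
        rw [hs0]
      rw [h6] at d2
      rw [d2.unique h5, hg, gw_vel 𝒜 hB c (hne τ)]
    have d3 : HasDerivAt (fun b : ℝ => H (b, -b)) (fderiv ℝ H (0, 0) (1, -1)) 0 := by
      have h4 : HasDerivAt (fun s : ℝ => (s, -s)) ((1 : ℝ), (-1 : ℝ)) 0 := (hasDerivAt_id (0 : ℝ)).prodMk (hasDerivAt_id (0 : ℝ)).neg
      have h5 : HasFDerivAt H (fderiv ℝ H (0, 0)) ((fun s : ℝ => (s, -s)) 0) := by
        show HasFDerivAt H (fderiv ℝ H (0, 0)) ((0 : ℝ), (-0 : ℝ))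
        rw [neg_zero]
        exact hHd
      exact HasFDerivAt.comp_hasDerivAt (f := fun s : ℝ => (s, -s)) (l := H) 0 h5 h4
    have f3 : fderiv ℝ H (0, 0) (1, -1) = 𝒜.vel c.1 0 - nrm (𝒜.vel c.1 0 + τ • w 0) := by
      have h4 : ((1 : ℝ), (-1 : ℝ)) = (1, 0) - (0, 1) := by
        rw [Prod.mk_sub_mk, sub_zero, zero_sub]
      rw [h4, map_sub, f1, f2]
    have h6 : (fun b : ℝ => G (b, τ)) = fun b => H (b, -b) := by
      funext b
      rw [hG, hH]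
      rfl
    rw [h6, d3.deriv, f3]
  rw [e1] at hD1
  rw [e2] at hD2
  have h5 : HasDerivAt (fun τ : ℝ => 𝒜.vel c.1 0 - nrm (𝒜.vel c.1 0 + τ • w 0)) (-w 0) 0 := by
    have h6 := (dp8_nrm hv hwv).const_sub (𝒜.vel c.1 0)
    exact h6
  rw [← hD2.unique h5]
  exact hD1

/-! ### functions of a geodesic and a number -/

/-- smooth functions of a geodesic and a number -/
structure SmB (𝒜 : SDist n M) {G : Type} [NormedAddCommGroup G] [NormedSpace ℝ G] (f : Gs M → ℝ → G) : Prop where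
  sm : ∀ {F : Type} [NormedAddCommGroup F] [NormedSpace ℝ F] {σ : F → Gs M} {b : F → ℝ} {u : F}, SmGAt 𝒜 σ u →
    ContDiffAt ℝ ∞ b u → ContDiffAt ℝ ∞ (fun v => f (σ v) (b v)) u

section smb

variable {G : Type} [NormedAddCommGroup G] [NormedSpace ℝ G] {f : Gs M → ℝ → G}

theorem SmB.dv (hf : SmB 𝒜 f) : SmB 𝒜 (fun c b => deriv (f c) b) := by
  constructor
  intro F _ _ σ b u hσ hb
  have h1 : ContDiffAt ℝ ∞ (fun z : F × ℝ => f (σ z.1) z.2) (u, b u) :=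
    hf.sm (SmGAt.comp (σ := σ) (f := fun z : F × ℝ => z.1) (v := (u, b u)) hσ contDiffAt_fst) contDiffAt_snd
  exact ContDiffAt.comp (g := fun w : F × ℝ => deriv (fun t => f (σ w.1) t) w.2) (f := fun v : F => (v, b v)) u
    (PO.contDiffAt_deriv2 h1) (contDiffAt_id.prodMk hb)

theorem SmB.diff (hf : SmB 𝒜 f) (c : Gs M) (b : ℝ) : DifferentiableAt ℝ (f c) b :=
  (hf.sm (F := ℝ) (σ := fun _ => c) (b := fun b => b) (u := b) (smGAt_const c b) contDiffAt_id).differentiableAt (by simp)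

theorem SmB.bound [Nonempty (Gs M)] (hB : Bl M) (e : Emb n 𝒜) (hf : SmB 𝒜 f) :
    ∃ L : ℝ, 0 ≤ L ∧ ∀ c b, |b| ≤ 1 → ‖f c b‖ ≤ L := by
  have hc : Continuous fun z : Gs M × ℝ => f z.1 z.2 := cont_of_smooth hB e (f := f) fun _ _ _ hσ hx => hf.sm hσ hx
  obtain ⟨C, hC⟩ := ((isCompact_univ (X := Gs M)).prod (isCompact_Icc (a := (-1 : ℝ)) (b := 1))).exists_bound_of_continuousOn
    hc.continuousOn
  refine ⟨max C 0, le_max_right _ _, fun c b hb => ?_⟩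
  exact (hC (c, b) ⟨mem_univ _, abs_le.1 hb⟩).trans (le_max_left _ _)

theorem SmB.lip [Nonempty (Gs M)] (hB : Bl M) (e : Emb n 𝒜) (hf : SmB 𝒜 f) :
    ∃ L : ℝ, 0 ≤ L ∧ ∀ c b, |b| ≤ 1 → ‖f c b - f c 0‖ ≤ L * |b| := by
  obtain ⟨L, hL, h1⟩ := hf.dv.bound hB e
  refine ⟨L, hL, fun c b hb => ?_⟩
  have h2 := Convex.norm_image_sub_le_of_norm_deriv_le (f := f c) (C := L) (s := Icc (-1 : ℝ) 1) (x := 0) (y := b)
    (fun x _ => hf.diff c x) (fun x hx => h1 c x (abs_le.2 hx)) (convex_Icc _ _) ⟨by norm_num, by norm_num⟩ (abs_le.1 hb)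
  rwa [sub_zero, Real.norm_eq_abs] at h2

theorem SmB.taylor [Nonempty (Gs M)] (hB : Bl M) (e : Emb n 𝒜) (hf : SmB 𝒜 f) :
    ∃ L : ℝ, 0 ≤ L ∧ ∀ c r, |r| ≤ 1 → ‖f c r - f c 0 - r • deriv (f c) 0‖ ≤ L * r ^ 2 := by
  obtain ⟨L, hL, h1⟩ := hf.dv.lip hB e
  refine ⟨L, hL, fun c r hr => ?_⟩
  have h3 : ∀ x, HasDerivAt (fun x => f c x - x • deriv (f c) 0) (deriv (f c) x - deriv (f c) 0) x := fun x => by
    have h4 := ((hasDerivAt_id x).smul_const (deriv (f c) 0))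
    rw [one_smul] at h4
    exact (hf.diff c x).hasDerivAt.sub h4
  have h2 := Convex.norm_image_sub_le_of_norm_deriv_le (f := fun x => f c x - x • deriv (f c) 0) (C := L * |r|)
    (s := Icc (-|r|) |r|) (x := 0) (y := r)
    (fun x _ => (h3 x).differentiableAt) (fun x hx => ?_) (convex_Icc _ _) ⟨by simp, abs_nonneg r⟩ ⟨neg_abs_le r, le_abs_self r⟩
  · rw [sub_zero, Real.norm_eq_abs, zero_smul, sub_zero, mul_assoc, abs_mul_abs_self] at h2
    have h5 : f c r - f c 0 - r • deriv (f c) 0 = f c r - r • deriv (f c) 0 - f c 0 := by abel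
    rw [h5, pow_two]
    exact h2
  · have hx' : |x| ≤ |r| := abs_le.2 hx
    rw [(h3 x).deriv]
    exact (h1 c x (hx'.trans hr)).trans (mul_le_mul_of_nonneg_left hx' hL)

end smb

/-! ### the kernel near `0` -/

section ker

variable (t : TEmb 𝒜) (hB : Bl M) {κ : ℕ} (hk : 𝒜.HK κ)

include hk in
theorem SmB_Jr : SmB 𝒜 (fun c b => Jr t hB c b) := by
  constructor
  intro F _ _ σ b u hσ hb
  exact Jr_smooth t hB hk hσ hb

include hB hk in
theorem SmB_Pr : SmB 𝒜 (fun c s => Pr t (shift s c)) := by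
  constructor
  intro F _ _ σ b u hσ hb
  exact Pr_smooth t hB hk (hσ.shift hB hb)

theorem Jr_zero (c : Gs M) : Jr t hB c 0 = 0 := by
  ext1 y
  rw [Jr_apply, JG_nul, map_zero, map_zero]
  rfl

include hk in
theorem deriv_Jr (c : Gs M) : deriv (fun b => Jr t hB c b) 0 = -Pr t c := by
  have h1 : HasDerivAt (fun b => Jr t hB c b) (deriv (fun b => Jr t hB c b) 0) 0 := ((SmB_Jr t hB hk).diff c 0).hasDerivAt
  ext1 y
  have h2 : HasDerivAt (fun b => Jr t hB c b y) (deriv (fun b => Jr t hB c b) 0 y) 0 := by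
    have := h1.clm_apply (hasDerivAt_const (0 : ℝ) y)
    simpa using this
  obtain ⟨w, hw⟩ : ∃ w : ℝ → Eu n, w = fun b => Hc 𝒜 (shift b c) (tA t ((shift b c).1 0) y) := ⟨_, rfl⟩
  have hw0 : w 0 = Hc 𝒜 c (tA t (c.1 0) y) := by
    rw [hw]
    show Hc 𝒜 (shift 0 c) (tA t ((shift 0 c).1 0) y) = _
    rw [shift_zero]
  have hws : SmV 𝒜 (c.1 0) (fun b : ℝ => (shift b c).1 0) w 0 := by
    have hs : SmGAt 𝒜 (fun b : ℝ => shift b c) 0 := (smGAt_const c (0 : ℝ)).shift hB contDiffAt_id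
    have hp : (shift 0 c).1 0 ∈ (𝒜.ψ (c.1 0)).source := by
      rw [shift_zero]
      exact 𝒜.mem _
    have h3 : SmV 𝒜 (c.1 0) (fun b : ℝ => (shift b c).1 0) (fun b => tA t ((shift b c).1 0) y) 0 :=
      smV_tA t hs.1 hp contDiffAt_const
    rw [hw]
    exact smV_Hc hB hk hs hp h3
  have h4 := hasDerivAt_JG hB c hws (by rw [hw0]; exact Hc_mem _ _)
  have h5 : HasDerivAt (fun b => tI t (c.1 0) (Hc 𝒜 c (JG 𝒜 hB c b (w b)))) (tI t (c.1 0) (Hc 𝒜 c (-w 0))) 0 :=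
    HasFDerivAt.comp_hasDerivAt (l := fun v => tI t (c.1 0) (Hc 𝒜 c v)) (l' := (tI t (c.1 0)).comp (Hc 𝒜 c)) (0 : ℝ)
      (((tI t (c.1 0)).comp (Hc 𝒜 c)).hasFDerivAt) h4
  have h6 : (fun b => Jr t hB c b y) = fun b => tI t (c.1 0) (Hc 𝒜 c (JG 𝒜 hB c b (w b))) := by
    funext b
    rw [Jr_apply, hw]
  rw [h6] at h2
  rw [h2.unique h5, map_neg, map_neg, hw0, Hc_of_mem (Hc_mem _ _)]
  rfl

include hB hk in
theorem exists_lip_Pr [Nonempty (Gs M)] (e : Emb n 𝒜) :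
    ∃ L : ℝ, 0 ≤ L ∧ ∀ c s, |s| ≤ 1 → ‖Pr t (shift s c) - Pr t c‖ ≤ L * |s| := by
  obtain ⟨L, hL, h1⟩ := (SmB_Pr t hB hk).lip hB e
  refine ⟨L, hL, fun c s hs => ?_⟩
  have h2 := h1 c s hs
  rwa [shift_zero] at h2

include hk in
theorem exists_jr [Nonempty (Gs M)] (e : Emb n 𝒜) :
    ∃ L : ℝ, 0 ≤ L ∧ ∀ c r, |r| ≤ 1 → ‖Jr t hB c r + r • Pr t c‖ ≤ L * r ^ 2 := by
  obtain ⟨L, hL, h1⟩ := (SmB_Jr t hB hk).taylor hB e
  refine ⟨L, hL, fun c r hr => ?_⟩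
  have h2 := h1 c r hr
  rw [deriv_Jr t hB hk, Jr_zero, sub_zero, smul_neg, sub_neg_eq_add] at h2
  exact h2

theorem Pr_Pr (c : Gs M) (y : HR t.D) : Pr t c (Pr t c y) = Pr t c y := by
  rw [Pr_apply, Pr_apply, tA_tI, Hc_of_mem (Hc_mem _ _)]

theorem Pr_sym (c : Gs M) (x y : HR t.D) : ⟪Pr t c x, y⟫ = ⟪x, Pr t c y⟫ := by
  have h1 : ⟪tI t (c.1 0) (Hc 𝒜 c (tA t (c.1 0) x)), y⟫ = ⟪Hc 𝒜 c (tA t (c.1 0) x), Hc 𝒜 c (tA t (c.1 0) y)⟫ := by
    rw [← inner_tA, real_inner_comm, ← inner_Hc c _ _ (Hc_mem _ _), real_inner_comm]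
  have h2 : ⟪x, tI t (c.1 0) (Hc 𝒜 c (tA t (c.1 0) y))⟫ = ⟪Hc 𝒜 c (tA t (c.1 0) x), Hc 𝒜 c (tA t (c.1 0) y)⟫ := by
    rw [← inner_tA', ← inner_Hc c _ _ (Hc_mem _ _)]
  rw [Pr_apply, Pr_apply, h1, h2]

theorem Pr_Tr8 (c : Gs M) (y : HR t.D) : Pr t (shift π c) (Tr t hB c y) = Tr t hB c y := by
  have : Nonempty (Gs M) := ⟨c⟩
  rw [Tr_apply, Pr_tI t _ (thK_mem hB (Hc_mem _ _))]

theorem Tr_Tr8 (c : Gs M) {y : HR t.D} (hy : Pr t c y = y) : Tr t hB (shift π c) (Tr t hB c y) = y := by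
  have : Nonempty (Gs M) := ⟨c⟩
  obtain ⟨w, hw⟩ : ∃ w, w = Hc 𝒜 c (tA t (c.1 0) y) := ⟨_, rfl⟩
  have hwm : w ∈ NEG.Kc 𝒜 c := by
    rw [hw]
    exact Hc_mem _ _
  have h1 : y = tI t (c.1 0) w := by
    rw [hw, ← Pr_apply, hy]
  rw [h1, Tr_tI t hB c hwm, Tr_tI t hB _ (thK_mem hB hwm), thK_thK hB hwm, shift_pp hB 𝒜]

end ker

/-- the norm of a complexification -/
theorem norm_cxL (D : ℕ) (A : HR D →L[ℝ] HR D) : ‖cxL D A‖ ≤ ‖A‖ := norm_cxL_le (norm_nonneg _) fun y => A.le_opNorm y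

variable {n : ℕ} {M : Type} [MetricSpace M] [CompactSpace M] {𝒜 : SDist n M} [Nonempty (Gs M)]

theorem exists_geo (t : TEmb 𝒜) (hB : Bl M) (e : Emb n 𝒜) {κ : ℕ} (hk : 𝒜.HK κ) :
    ∃ A : ℝ, ∀ c : Gs M, OD.Geo (orb t hB e hk c).od A := by
  obtain ⟨L, hL, h1⟩ := exists_lip_Pr t hB hk e
  obtain ⟨C, hC, h2⟩ := exists_jr t hB hk e
  have hsh : ∀ c : Gs M, Continuous fun s : ℝ => shift s c := fun c => gs_continuous_shift.comp (Continuous.prodMk_left c)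
  have hre : ∀ {A : HR t.D →L[ℝ] HR t.D} {y : HC t.D}, cxL t.D A y = y → A (reH t.D y) = reH t.D y := fun {A y} h => by
    rw [← reH_cxL, h]
  have him : ∀ {A : HR t.D →L[ℝ] HR t.D} {y : HC t.D}, cxL t.D A y = y → A (imH t.D y) = imH t.D y := fun {A y} h => by
    rw [← imH_cxL, h]
  have hsp : ∀ (s : ℝ) (c : Gs M), shift (s + π) c = shift π (shift s c) := fun s c => (shift_comm' s π c).symm
  refine ⟨C + L, fun c => ⟨add_nonneg hC hL, ?_, ?_, ?_, ?_, ?_, ?_, ?_, ?_, ?_⟩⟩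
  · exact cont_cxL.comp ((cont_Pr t hB e hk).comp (hsh c))
  · have h3 : Continuous (Tr t hB) := SmF.continuous hB e (fun hσ => Tr_smooth t hB hk hσ)
    exact cont_cxL.comp (h3.comp (hsh c))
  · intro s y
    show cxL t.D (Pr t (shift s c)) (cxL t.D (Pr t (shift s c)) y) = cxL t.D (Pr t (shift s c)) y
    refine ext_H ?_ ?_
    · rw [reH_cxL, reH_cxL, Pr_Pr]
    · rw [imH_cxL, imH_cxL, Pr_Pr]
  · intro s x y
    show inner ℂ (cxL t.D (Pr t (shift s c)) x) y = inner ℂ x (cxL t.D (Pr t (shift s c)) y)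
    rw [inner_H, inner_H, reH_cxL, imH_cxL, reH_cxL, imH_cxL, Pr_sym, Pr_sym, Pr_sym, Pr_sym]
  · intro s y hy
    show cxL t.D (Pr t (shift (s + π) c)) (cxL t.D (Tr t hB (shift s c)) y) = cxL t.D (Tr t hB (shift s c)) y
    rw [hsp]
    refine ext_H ?_ ?_
    · rw [reH_cxL, reH_cxL, Pr_Tr8]
    · rw [imH_cxL, imH_cxL, Pr_Tr8]
  · intro s y hy
    show cxL t.D (Tr t hB (shift (s + π) c)) (cxL t.D (Tr t hB (shift s c)) y) = y
    rw [hsp]
    refine ext_H ?_ ?_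
    · rw [reH_cxL, reH_cxL, Tr_Tr8 t hB _ (hre hy)]
    · rw [imH_cxL, imH_cxL, Tr_Tr8 t hB _ (him hy)]
  · intro s
    show cxL t.D (Pr t (shift (s + 2 * π) c)) = cxL t.D (Pr t (shift s c))
    rw [gs_shift_per 𝒜 hB]
  · intro s r y h0 h3 hy
    obtain ⟨P0, hP0⟩ : ∃ P0, P0 = Pr t (shift s c) := ⟨_, rfl⟩
    obtain ⟨P1, hP1⟩ : ∃ P1, P1 = Pr t (shift r (shift s c)) := ⟨_, rfl⟩
    obtain ⟨J, hJ⟩ : ∃ J, J = Jr t hB (shift s c) r := ⟨_, rfl⟩
    have hr : |r| ≤ 1 := by rw [abs_of_nonneg h0]; exact h3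
    have h4 : ‖J + r • P0‖ ≤ C * r ^ 2 := by
      rw [hJ, hP0]
      exact h2 _ _ hr
    have h5 : ‖P1 - P0‖ ≤ L * r := by
      have := h1 (shift s c) r hr
      rw [abs_of_nonneg h0] at this
      rw [hP1, hP0]
      exact this
    have hy' : cxL t.D P1 y = y := by
      have h6 : cxL t.D (Pr t (shift (s + r) c)) y = y := hy
      rw [hP1, shift_comm' s r c]
      exact h6
    show ‖cxL t.D (Jr t hB (shift s c) r) y + (r : ℂ) • y‖ ≤ _
    rw [← hJ]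
    have h6 : cxL t.D J y + (r : ℂ) • y = cxL t.D (J + r • P0) y + r • cxL t.D (P1 - P0) y := by
      rw [map_add, map_smul, map_sub]
      show _ = cxL t.D J y + r • cxL t.D P0 y + r • (cxL t.D P1 y - cxL t.D P0 y)
      rw [hy', smul_sub]
      have h7 : (r : ℂ) • y = r • y := (Complex.coe_smul r y)
      rw [h7]
      abel
    rw [h6]
    refine (norm_add_le _ _).trans ?_
    rw [norm_smul, Real.norm_eq_abs, abs_of_nonneg h0]
    have h8 : ‖cxL t.D (J + r • P0) y‖ ≤ (C * r ^ 2) * ‖y‖ :=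
      ((cxL t.D (J + r • P0)).le_opNorm y).trans (mul_le_mul_of_nonneg_right ((norm_cxL _ _).trans h4) (norm_nonneg _))
    have h9 : ‖cxL t.D (P1 - P0) y‖ ≤ (L * r) * ‖y‖ :=
      ((cxL t.D (P1 - P0)).le_opNorm y).trans (mul_le_mul_of_nonneg_right ((norm_cxL _ _).trans h5) (norm_nonneg _))
    have h10 := mul_le_mul_of_nonneg_left h9 h0
    calc _ ≤ (C * r ^ 2) * ‖y‖ + r * ((L * r) * ‖y‖) := add_le_add h8 h10
      _ = (C + L) * r ^ 2 * ‖y‖ := by ring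
  · intro s v hs hv
    have hv' : cxL t.D (Pr t c) v = v := by
      have h6 : cxL t.D (Pr t (shift 0 c)) v = v := hv
      rwa [shift_zero] at h6
    show ‖cxL t.D (Pr t (shift s c)) v - v‖ ≤ _
    have h6 : cxL t.D (Pr t (shift s c)) v - v = cxL t.D (Pr t (shift s c) - Pr t c) v := by
      rw [map_sub]
      show _ = cxL t.D (Pr t (shift s c)) v - cxL t.D (Pr t c) v
      rw [hv']
    rw [h6]
    refine ((cxL t.D _).le_opNorm v).trans (mul_le_mul_of_nonneg_right ?_ (norm_nonneg _))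
    refine ((norm_cxL _ _).trans (h1 c s hs)).trans ?_
    exact mul_le_mul_of_nonneg_right (by linarith) (abs_nonneg s)

end Pool.Agent.Lib.MP_ccbbf6_gt.K7.GG
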