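import Pool.Agent.Lib.MP_ccbbf6_gt.K7.DP5

/-!
# `κ = 7`, density path, part 9a: the bump functions (helper92)
-/

set_option autoImplicit false
set_option linter.unusedSectionVars false

open Set Filter Topology Metric Real MeasureTheory
open scoped InnerProductSpace ComplexConjugate ContDiff

noncomputable section

namespace Pool.Agent.Lib.MP_ccbbf6_gt.K7.GG

variable {ε : ℝ} {h : ℝ → ℝ}

/-- **bump functions of mass `1`** -/
theorem exists_bmp {ε : ℝ} (h0 : 0 < ε) (h1 : ε ≤ 1 / 8) :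
    ∃ h : ℝ → ℝ, OD.Bmp h ε ∧ ContDiff ℝ ∞ h ∧ ∫ s in (-(π / 2))..π / 2, h s = 1 := by
  have hπ := pi_pos
  have hp3 := pi_gt_three
  obtain ⟨f, hf⟩ : ∃ f : ℝ → ℝ, f = fun s => Real.smoothTransition (Real.cos s - Real.cos ε) := ⟨_, rfl⟩
  have hfs : ContDiff ℝ ∞ f := by
    rw [hf]
    exact Real.smoothTransition.contDiff.comp (Real.contDiff_cos.sub contDiff_const)
  have hf0 : ∀ s, 0 ≤ f s := fun s => by
    rw [hf]
    exact Real.smoothTransition.nonneg _
  have hc : Real.cos ε < 1 := by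
    rw [← Real.cos_zero]
    exact Real.cos_lt_cos_of_nonneg_of_le_pi le_rfl (by linarith) h0
  have hf1 : 0 < f 0 := by
    rw [hf]
    refine Real.smoothTransition.pos_of_pos ?_
    rw [Real.cos_zero]
    linarith
  have hI : 0 < ∫ s in (-(π / 2))..π / 2, f s :=
    intervalIntegral.integral_pos (by linarith) hfs.continuous.continuousOn (fun s _ => hf0 s)
      ⟨0, ⟨by linarith, by linarith⟩, hf1⟩
  obtain ⟨I, hId⟩ : ∃ I : ℝ, I = ∫ s in (-(π / 2))..π / 2, f s := ⟨_, rfl⟩
  rw [← hId] at hI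
  refine ⟨fun s => I⁻¹ * f s, ⟨continuous_const.mul hfs.continuous, fun s => mul_nonneg (inv_pos.2 hI).le (hf0 s), fun s => ?_,
    fun s h2 h3 => ?_, mul_pos (inv_pos.2 hI) hf1⟩, contDiff_const.mul hfs, ?_⟩
  · show I⁻¹ * f (s + 2 * π) = I⁻¹ * f s
    rw [hf]
    simp only [Real.cos_add_two_pi]
  · show I⁻¹ * f s = 0
    have h4 : Real.cos s ≤ Real.cos ε := by
      rw [← Real.cos_abs s]
      exact Real.cos_le_cos_of_nonneg_of_le_pi h0.le h2 h3
    rw [hf]
    simp only
    rw [Real.smoothTransition.zero_of_nonpos (by linarith), mul_zero]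
  · rw [intervalIntegral.integral_const_mul, ← hId]
    exact inv_mul_cancel₀ hI.ne'

/-- **the correlation of a bump function is positive** -/
theorem cor_pos (hh : OD.Bmp h ε) (hs : ε ≤ 1 / 8) : 0 < OD.cor h := by
  have hπ := pi_pos
  obtain ⟨r0, h1, h2, h3⟩ : ∃ r0 : ℝ, 0 < r0 ∧ r0 ≤ π / 2 ∧ 0 < h r0 := by
    have h4 : ∀ᶠ r in 𝓝 (0 : ℝ), 0 < h r := hh.cont.continuousAt.eventually (lt_mem_nhds hh.one)
    obtain ⟨d, hd, hd'⟩ := Metric.eventually_nhds_iff.1 h4
    refine ⟨min (d / 2) (π / 2), lt_min (by linarith) (by linarith), min_le_right _ _, hd' ?_⟩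
    rw [Real.dist_eq, sub_zero, abs_of_pos (lt_min (by linarith) (by linarith))]
    exact (min_le_left _ _).trans_lt (by linarith)
  have hcc : Continuous fun p : ℝ × ℝ => h p.2 * h (p.2 + p.1) :=
    (hh.cont.comp continuous_snd).mul (hh.cont.comp (continuous_snd.add continuous_fst))
  have hcr : Continuous fun r : ℝ => ∫ s in (-(π / 2))..π / 2, h s * h (s + r) :=
    intervalIntegral.continuous_parametric_intervalIntegral_of_continuous' (f := fun r s => h s * h (s + r)) hcc _ _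
  have hi0 : ∀ r, 0 ≤ ∫ s in (-(π / 2))..π / 2, h s * h (s + r) := fun r =>
    intervalIntegral.integral_nonneg (by linarith) fun s _ => mul_nonneg (hh.nonneg _) (hh.nonneg _)
  have hir : 0 < ∫ s in (-(π / 2))..π / 2, h s * h (s + r0) :=
    intervalIntegral.integral_pos (by linarith) (hcc.comp (Continuous.prodMk_right r0)).continuousOn
      (fun s _ => mul_nonneg (hh.nonneg _) (hh.nonneg _)) ⟨0, ⟨by linarith, by linarith⟩, by
        show 0 < h 0 * h (0 + r0)
        rw [zero_add]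
        exact mul_pos hh.one h3⟩
  exact intervalIntegral.integral_pos (by linarith) (continuous_id.mul hcr).continuousOn
    (fun r hr => mul_nonneg hr.1.le (hi0 r)) ⟨r0, ⟨h1.le, h2⟩, mul_pos h1 hir⟩

end Pool.Agent.Lib.MP_ccbbf6_gt.K7.GG
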