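import Pool.Agent.Lib.MP_ccbbf6_gt.K7.DP10
import Pool.Agent.Lib.MP_ccbbf6_gt.K7.DP12a
import Pool.Agent.Lib.MP_ccbbf6_gt.K7.DP12c
import Pool.Agent.Lib.MP_ccbbf6_gt.K7.DP8
import Pool.Agent.Lib.MP_ccbbf6_gt.K7.DP9a

/-!
# `κ = 7`, density path, part 12e: existence of the data of the twisted densities and of the bumps (helper25)
-/

set_option autoImplicit false
set_option linter.unusedSectionVars false

open Set Filter Topology Metric Real Module
open scoped ContDiff RealInnerProductSpace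

noncomputable section

namespace Pool.Agent.Lib.MP_ccbbf6_gt.K7.DP

open L4 Geo L4.ORI L5 L5.NEG RG HQ GG

variable {n : ℕ} {M : Type} [MetricSpace M] [CompactSpace M] {𝒜 : SDist n M} [Nonempty (Gs M)]

/-- the form of the family is positive on the negative bundle -/
theorem QW_pos_of {hB : Bl M} {e : Emb n 𝒜} {κ N : ℕ} {Φ : e.Q → (Eu N →L[ℝ] EuclideanSpace ℝ (Fin e.q))}
    {C : Eu N → Gs M → M} {P : Gs M → Eu N →L[ℝ] Eu N} (hN : NegData 𝒜 κ hB C P)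
    (hQ : ∀ c ξ, QB 𝒜 C c ξ ξ = QW 𝒜 hB (kf e Φ ξ) c) (c : Gs M) {x : Eu N} (hx : P c x = x) (h0 : x ≠ 0) :
    0 < QW 𝒜 hB (kf e Φ x) c := by
  obtain ⟨δ, hδ, h⟩ := hN.pos
  rw [← hQ]
  have h1 := h c x hx
  have h2 : 0 < ‖x‖ ^ 2 := by
    have := norm_pos_iff.2 h0
    positivity
  exact lt_of_lt_of_le (mul_pos hδ h2) h1

/-- **existence of the data** -/
theorem exists_GX (t : TEmb 𝒜) (hB : Bl M) (e : Emb n 𝒜) {κ : ℕ} (hk : 𝒜.HK κ) : ExistsGX t hB e hk := by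
  intro N Φ C P hΦ hN hQ
  obtain ⟨δ0, hδ0, hG⟩ := exists_GKer t hB e hk hΦ hN hQ
  obtain ⟨A, hA⟩ := exists_geo t hB e hk
  obtain ⟨ε1, hε1, hE⟩ := exists_eps t hB e hk hΦ hN hQ
  obtain ⟨ε0, hε0, hb⟩ := H8_bmp_lt t hB e hk
  obtain ⟨CJ, hC0, hCJ⟩ := exists_bound_Jr t hB e hk
  have hA0 : 0 ≤ A := (hA (Classical.arbitrary (Gs M))).A0
  obtain ⟨ε, hεd⟩ : ∃ ε, ε = min (min ε0 ε1) (min (1 / 8) (1 / (100 * (A + 1)))) := ⟨_, rfl⟩
  have hA1 : 0 < 100 * (A + 1) := by positivity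
  have hε : 0 < ε := by
    rw [hεd]
    exact lt_min (lt_min hε0 hε1) (lt_min (by norm_num) (by positivity))
  have e0 : ε ≤ ε0 := hεd.trans_le ((min_le_left _ _).trans (min_le_left _ _))
  have e1 : ε ≤ ε1 := hεd.trans_le ((min_le_left _ _).trans (min_le_right _ _))
  have e2 : ε ≤ 1 / 8 := hεd.trans_le ((min_le_right _ _).trans (min_le_left _ _))
  have e3 : ε ≤ 1 / (100 * (A + 1)) := hεd.trans_le ((min_le_right _ _).trans (min_le_right _ _))
  have e4 : A * ε ≤ 1 / 100 := by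
    have h1 : A * ε ≤ A * (1 / (100 * (A + 1))) := mul_le_mul_of_nonneg_left e3 hA0
    refine h1.trans ?_
    rw [mul_one_div, div_le_div_iff₀ hA1 (by norm_num)]
    nlinarith
  obtain ⟨g, hg, hgs, hgi⟩ := exists_bmp hε e2
  have hcor := cor_pos hg e2
  have hdm := OD.dmix_pos hg hcor hδ0
  obtain ⟨del, hdel⟩ : ∃ del, del = min δ0 (OD.dmix g δ0) := ⟨_, rfl⟩
  have hdel0 : 0 < del := by
    rw [hdel]
    exact lt_min hδ0 hdm
  obtain ⟨-, μ0, K, h, m, δ', h1, -, h3, h4, h5, h6, h7, h8⟩ := hG del hdel0 (hdel.trans_le (min_le_left _ _))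
  refine ⟨_, h8, ⟨{
    mu0 := μ0
    K := K
    h := h
    m := m
    del := del
    del' := δ'
    rho := δ0
    eps := ε
    A := A
    CJ := CJ
    g := g
    mu0_pos := h1
    K_pos := h3
    h_pos := h4
    hm := h5
    del_pos := hdel0
    del_pos' := h6
    rho_pos := hδ0
    hΦ := hΦ
    hkG := rfl
    hst := h7
    hz := (hG δ0 hδ0 le_rfl).1
    hQ := fun c x hx h0 => QW_pos_of hN hQ c hx h0
    CJ0 := hC0
    hCJ := fun c s r => (norm_cxL t.D _).trans (hCJ (shift s c) r)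
    geo := hA
    bmp := hg
    small := ⟨hε, e2, e4⟩
    g_smooth := hgs
    mass := hgi
    cor := hcor
    hn := fun c x y hx hy s hs => hE c x y hx hy s (hs.trans e1)
    hv := fun c x hx h0 hv => Lop_ne t hB e hk hΦ hN hQ c hx h0 (by rw [Lop_EvC t hB e hk hΦ, hv, map_zero])
    hδm := hdel.trans_le (min_le_right _ _)
    arcs := fun c k0 k1 k2 m0 m1 m2 hne τ hτ => hb e0 hg hgi c k0 k1 k2 m0 m1 m2 hne τ hτ }⟩⟩

end Pool.Agent.Lib.MP_ccbbf6_gt.K7.DP
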