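import Pool.Agent.Lib.MP_ccbbf6_gt.K7.FB8

/-!
# `κ = 7`, block F, part B9: large multiples of an invertible matrix expand (helper53)

`exists_ExpB` : `B.det ≠ 0` gives `l0 > 0` with `ExpB (l • B)` for all `l ≥ l0` (compactness of `UM`).
-/

set_option autoImplicit false
set_option maxSynthPendingDepth 3

open Set Filter Topology MeasureTheory Module Matrix Metric
open scoped TensorProduct ContDiff RealInnerProductSpace Kronecker

noncomputable section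

namespace Pool.Agent.Lib.MP_ccbbf6_gt.K7

open L4 L4.FR L4.ORI L5 L5.NEG Geo RG CH

variable {n : ℕ} {M : Type} [MetricSpace M] [CompactSpace M] {𝒜 : SDist n M} {N : ℕ} {C : Eu N → Gs M → M}
  {P : Gs M → Eu N →L[ℝ] Eu N} {hB : Bl M}

theorem LB_smul (l : ℝ) (B : Matrix (Fin 3) (Fin 3) ℝ) (j : Fin 3) (c : Gs M) (x : Eu (N + (N + N))) :
    LB 𝒜 hB C (l • B) j c x = l • LB 𝒜 hB C B j c x := by
  have h : ∀ i, (l • B) j i = l * B j i := fun _ => rfl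
  rw [LB_apply, LB_apply, h, h, h, mul_smul, mul_smul, mul_smul, smul_add, smul_add]

/-- the quadratic function -/
def FE (𝒜 : SDist n M) (hB : Bl M) (C : Eu N → Gs M → M) (B : Matrix (Fin 3) (Fin 3) ℝ) (z : Gs M × Eu (N + (N + N))) : ℝ :=
  ∑ j : Fin 3, ‖LB 𝒜 hB C B j z.1 z.2‖ ^ 2

theorem FE_smul (B : Matrix (Fin 3) (Fin 3) ℝ) (c : Gs M) (r : ℝ) (x : Eu (N + (N + N))) :
    FE 𝒜 hB C B (c, r • x) = r ^ 2 * FE 𝒜 hB C B (c, x) := by
  unfold FE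
  rw [Finset.mul_sum]
  refine Finset.sum_congr rfl fun j _ => ?_
  rw [map_smul, norm_smul, mul_pow, Real.norm_eq_abs, sq_abs]

theorem FE_mul (B : Matrix (Fin 3) (Fin 3) ℝ) (c : Gs M) (l : ℝ) (x : Eu (N + (N + N))) :
    FE 𝒜 hB C (l • B) (c, x) = l ^ 2 * FE 𝒜 hB C B (c, x) := by
  unfold FE
  rw [Finset.mul_sum]
  refine Finset.sum_congr rfl fun j _ => ?_
  rw [LB_smul, norm_smul, mul_pow, Real.norm_eq_abs, sq_abs]

/-- smoothness -/
theorem FE_smooth (hk : 𝒜.HK 7) (hN : NegData 𝒜 7 hB C P) (B : Matrix (Fin 3) (Fin 3) ℝ) {F : Type} [NormedAddCommGroup F]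
    [NormedSpace ℝ F] {σ : F → Gs M} {x : F → Eu (N + (N + N))} {u : F} (hσ : SmGAt 𝒜 σ u) (hx : ContDiffAt ℝ ∞ x u) :
    ContDiffAt ℝ ∞ (fun v => FE 𝒜 hB C B (σ v, x v)) u := by
  have h : ∀ q : Eu (N + (N + N)) →L[ℝ] Eu N,
      SmV 𝒜 ((σ u).1 0) (fun v => (σ v).1 0) (fun v => evc 𝒜 hB C (σ v) (q (x v))) u := fun q =>
    evc_smooth hB hk hN.fam hσ (q.contDiff.contDiffAt.comp u hx) (𝒜.mem _)
  have h1 : ∀ j : Fin 3, SmV 𝒜 ((σ u).1 0) (fun v => (σ v).1 0) (fun v => LB 𝒜 hB C B j (σ v) (x v)) u := fun j =>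
    SmV.add (SmV.smul (h q0) contDiffAt_const) (SmV.add (SmV.smul (h q1) contDiffAt_const)
      (SmV.smul (h q2) contDiffAt_const))
  have h2 : SmAt 𝒜 (fun v => (σ v).1 0) u := hσ.ev hB (t := fun _ => 0) contDiffAt_const
  have h3 : (fun v => FE 𝒜 hB C B (σ v, x v)) = fun v =>
      ∑ j : Fin 3, ⟪LB 𝒜 hB C B j (σ v) (x v), LB 𝒜 hB C B j (σ v) (x v)⟫ := by
    funext v
    exact Finset.sum_congr rfl fun j _ => (real_inner_self_eq_norm_sq _).symm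
  rw [h3]
  exact ContDiffAt.sum fun j _ => SmV.inner h2 (𝒜.mem _) (h1 j) (h1 j)

theorem FE_cont [Nonempty (Gs M)] (e : Emb n 𝒜) (hk : 𝒜.HK 7) (hN : NegData 𝒜 7 hB C P) (B : Matrix (Fin 3) (Fin 3) ℝ) :
    Continuous (FE 𝒜 hB C B) := by
  rw [continuous_iff_continuousAt]
  rintro ⟨c, x⟩
  have hσ : SmGAt 𝒜 (fun v : e.Q × Eu (N + (N + N)) => e.RR v.1) (e.EE c, x) :=
    SmGAt.comp (f := fun v : e.Q × Eu (N + (N + N)) => v.1) (e.smG_RR hB (e.EE_mem c)) contDiffAt_fst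
  have h1 := (FE_smooth hk hN B hσ (x := fun v : e.Q × Eu (N + (N + N)) => v.2) contDiffAt_snd).continuousAt
  have h2 : ContinuousAt (fun z : Gs M × Eu (N + (N + N)) => FE 𝒜 hB C B (e.RR (e.EE z.1), z.2)) (c, x) :=
    ContinuousAt.comp (g := fun v : e.Q × Eu (N + (N + N)) => FE 𝒜 hB C B (e.RR v.1, v.2))
      (f := fun z : Gs M × Eu (N + (N + N)) => (e.EE z.1, z.2)) h1
      ((e.continuous_EE.comp continuous_fst).prodMk continuous_snd).continuousAt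
  refine h2.congr (Eventually.of_forall fun z => ?_)
  show FE 𝒜 hB C B (e.RR (e.EE z.1), z.2) = FE 𝒜 hB C B z
  rw [e.RR_EE hB]

theorem cont_P [Nonempty (Gs M)] (e : Emb n 𝒜) (hN : NegData 𝒜 7 hB C P) : Continuous P := by
  rw [continuous_iff_continuousAt]
  intro c
  have h1 : ContinuousAt (fun y => P (e.RR y)) (e.EE c) := (hN.smooth (e.smG_RR hB (e.EE_mem c))).continuousAt
  have h2 : ContinuousAt (fun c => P (e.RR (e.EE c))) c :=
    ContinuousAt.comp (g := fun y => P (e.RR y)) (f := e.EE) h1 e.continuous_EE.continuousAt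
  refine h2.congr (Eventually.of_forall fun c => ?_)
  show P (e.RR (e.EE c)) = P c
  rw [e.RR_EE hB]

/-- the unit vectors of `N ⊕ N ⊕ N` -/
def KE (P : Gs M → Eu N →L[ℝ] Eu N) : Set (Gs M × Eu (N + (N + N))) :=
  {z | (P z.1 (q0 z.2) = q0 z.2 ∧ P z.1 (q1 z.2) = q1 z.2 ∧ P z.1 (q2 z.2) = q2 z.2) ∧ ‖z.2‖ = 1}

theorem compact_KE [Nonempty (Gs M)] (e : Emb n 𝒜) (hN : NegData 𝒜 7 hB C P) : IsCompact (KE P) := by
  have hP := cont_P e hN
  have h2 : IsCompact ((univ : Set (Gs M)) ×ˢ sphere (0 : Eu (N + (N + N))) 1) := isCompact_univ.prod (isCompact_sphere _ _)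
  refine h2.of_isClosed_subset ?_ fun z hz => ⟨mem_univ _, mem_sphere_zero_iff_norm.2 hz.2⟩
  have hc : ∀ q : Eu (N + (N + N)) →L[ℝ] Eu N, IsClosed {z : Gs M × Eu (N + (N + N)) | P z.1 (q z.2) = q z.2} := fun q =>
    isClosed_eq ((hP.comp continuous_fst).clm_apply (q.continuous.comp continuous_snd)) (q.continuous.comp continuous_snd)
  have c2 : IsClosed {z : Gs M × Eu (N + (N + N)) | ‖z.2‖ = 1} := isClosed_eq continuous_snd.norm continuous_const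
  exact ((hc q0).inter ((hc q1).inter (hc q2))).inter c2

/-- the quadratic function is positive -/
theorem FE_pos (hN : NegData 𝒜 7 hB C P) {B : Matrix (Fin 3) (Fin 3) ℝ} (hd : B.det ≠ 0) {z : Gs M × Eu (N + (N + N))}
    (hz : z ∈ KE P) : 0 < FE 𝒜 hB C B z := by
  have h0 : 0 ≤ FE 𝒜 hB C B z := Finset.sum_nonneg fun j _ => sq_nonneg _
  refine lt_of_le_of_ne h0 fun h => ?_
  have h1 : ∀ j : Fin 3, LB 𝒜 hB C B j z.1 z.2 = 0 := fun j => by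
    have h2 := (Finset.sum_eq_zero_iff_of_nonneg fun j _ => sq_nonneg _).1 h.symm j (Finset.mem_univ j)
    exact norm_eq_zero.1 ((pow_eq_zero_iff two_ne_zero).1 h2)
  obtain ⟨w, hw⟩ : ∃ w : Fin 3 → Eu n, w = ![evc 𝒜 hB C z.1 (q0 z.2), evc 𝒜 hB C z.1 (q1 z.2), evc 𝒜 hB C z.1 (q2 z.2)] :=
    ⟨_, rfl⟩
  have h2 : ∀ j : Fin 3, ∑ l, B j l • w l = 0 := fun j => by
    rw [Fin.sum_univ_three, hw]
    have h3 := h1 j
    rw [LB_apply, ← add_assoc] at h3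
    exact h3
  have hu : IsUnit B.det := isUnit_iff_ne_zero.2 hd
  have h3 : ∀ l, w l = 0 := fun l => by
    have h4 : ∑ j, B⁻¹ l j • ∑ m, B j m • w m = w l := by
      simp only [Finset.smul_sum, smul_smul]
      rw [Finset.sum_comm]
      have h5 : ∀ m, ∑ j, (B⁻¹ l j * B j m) • w m = (1 : Matrix (Fin 3) (Fin 3) ℝ) l m • w m := fun m => by
        rw [← Finset.sum_smul, ← Matrix.nonsing_inv_mul B hu, Matrix.mul_apply]
      rw [Finset.sum_congr rfl fun m _ => h5 m, Finset.sum_eq_single l]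
      · rw [Matrix.one_apply_eq, one_smul]
      · intro m _ hm
        rw [Matrix.one_apply_ne hm.symm, zero_smul]
      · intro hl
        exact absurd (Finset.mem_univ l) hl
    rw [← h4]
    simp only [h2, smul_zero, Finset.sum_const_zero]
  have e0 : q0 z.2 = 0 := hN.ev z.1 _ hz.1.1 (by have := h3 0; rw [hw] at this; exact this)
  have e1 : q1 z.2 = 0 := hN.ev z.1 _ hz.1.2.1 (by have := h3 1; rw [hw] at this; exact this)
  have e2 : q2 z.2 = 0 := hN.ev z.1 _ hz.1.2.2 (by have := h3 2; rw [hw] at this; exact this)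
  have h4 := norm_q z.2
  rw [e0, e1, e2, hz.2, norm_zero] at h4
  norm_num at h4

/-- **large multiples of an invertible matrix expand** -/
theorem exists_ExpB [Nonempty (Gs M)] (e : Emb n 𝒜) (hk : 𝒜.HK 7) (hN : NegData 𝒜 7 hB C P)
    {B : Matrix (Fin 3) (Fin 3) ℝ} (hd : B.det ≠ 0) : ∃ l0 : ℝ, 0 < l0 ∧ ∀ l, l0 ≤ l → ExpB 𝒜 hB C P (l • B) := by
  obtain ⟨m, hm, hmin⟩ : ∃ m : ℝ, 0 < m ∧ ∀ z ∈ KE P, m ≤ FE 𝒜 hB C B z := by
    rcases (KE P).eq_empty_or_nonempty with h | h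
    · exact ⟨1, one_pos, fun z hz => by rw [h] at hz; exact absurd hz (notMem_empty z)⟩
    · obtain ⟨z0, hz0, h1⟩ := (compact_KE e hN).exists_isMinOn h (FE_cont (hB := hB) e hk hN B).continuousOn
      exact ⟨_, FE_pos hN hd hz0, fun z hz => h1 hz⟩
  refine ⟨(√m)⁻¹, inv_pos.2 (Real.sqrt_pos.2 hm), fun l hl c x hx => ?_⟩
  have hl0 : 0 < (√m)⁻¹ := inv_pos.2 (Real.sqrt_pos.2 hm)
  have h1 : 1 ≤ l ^ 2 * m := by
    have h2 : ((√m)⁻¹) ^ 2 ≤ l ^ 2 := pow_le_pow_left₀ hl0.le hl 2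
    have h3 : ((√m)⁻¹) ^ 2 * m = 1 := by
      rw [inv_pow, Real.sq_sqrt hm.le, inv_mul_cancel₀ hm.ne']
    nlinarith
  change ‖x‖ ^ 2 ≤ FE 𝒜 hB C (l • B) (c, x)
  rcases eq_or_ne x 0 with h | h
  · rw [h, norm_zero]
    have : 0 ≤ FE 𝒜 hB C (l • B) (c, (0 : Eu (N + (N + N)))) := Finset.sum_nonneg fun j _ => sq_nonneg _
    simpa using this
  · have hx0 : 0 < ‖x‖ := norm_pos_iff.2 h
    have hu : (c, ‖x‖⁻¹ • x) ∈ KE P := by
      refine ⟨⟨?_, ?_, ?_⟩, ?_⟩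
      · rw [map_smul, map_smul]
        exact congrArg _ hx.1
      · rw [map_smul, map_smul]
        exact congrArg _ hx.2.1
      · rw [map_smul, map_smul]
        exact congrArg _ hx.2.2
      · rw [norm_smul, norm_inv, norm_norm, inv_mul_cancel₀ hx0.ne']
    have h2 := hmin _ hu
    have h3 : FE 𝒜 hB C B (c, x) = ‖x‖ ^ 2 * FE 𝒜 hB C B (c, ‖x‖⁻¹ • x) := by
      rw [← FE_smul, smul_smul, mul_inv_cancel₀ hx0.ne', one_smul]
    rw [FE_mul, h3]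
    have h4 : 0 ≤ ‖x‖ ^ 2 := sq_nonneg _
    have h5 : 0 ≤ l ^ 2 := sq_nonneg _
    calc ‖x‖ ^ 2 = ‖x‖ ^ 2 * 1 := (mul_one _).symm
      _ ≤ ‖x‖ ^ 2 * (l ^ 2 * m) := mul_le_mul_of_nonneg_left h1 h4
      _ ≤ ‖x‖ ^ 2 * (l ^ 2 * FE 𝒜 hB C B (c, ‖x‖⁻¹ • x)) :=
        mul_le_mul_of_nonneg_left (mul_le_mul_of_nonneg_left h2 h5) h4
      _ = l ^ 2 * (‖x‖ ^ 2 * FE 𝒜 hB C B (c, ‖x‖⁻¹ • x)) := by ring

end Pool.Agent.Lib.MP_ccbbf6_gt.K7
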