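import Pool.Agent.Lib.MP_ccbbf6_gt.K7.DP11c
import Pool.Agent.Lib.MP_ccbbf6_gt.K7.FB9

/-!
# `κ = 7`, density path, part 11d: the family `ΦY` of FB8 (helper25)

* `vel8_ΦY` : the velocities at `s = 0` of the midpoints of the sides of `ΦY (y, s)`.
* `E8_ΦY_lt` : `E8 < 2 π ^ 2` for `s ≠ 0`.
* `B0`, `rk_LB` : the matrix of the comparison with the bump densities.
-/

set_option autoImplicit false
set_option linter.unusedSectionVars false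

open Set Filter Topology Metric Real Module
open scoped ContDiff RealInnerProductSpace

noncomputable section

namespace Pool.Agent.Lib.MP_ccbbf6_gt.K7.DP

open Geo L4 L4.ORI L4.FR L5 L5.NEG K7 HQ SU RG CH

variable {n : ℕ} {M : Type} [MetricSpace M] [CompactSpace M] {𝒜 : SDist n M} {N : ℕ} {C : Eu N → Gs M → M}
  {P : Gs M → Eu N →L[ℝ] Eu N} {hB : Bl M}

/-- the matrix of the comparison -/
def B0 : Matrix (Fin 3) (Fin 3) ℝ := !![1, -(1 / 2), -(1 / 2); 0, 0, 1; 1, 1 / 2, -(1 / 2)]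

theorem B0_det : B0.det = -1 := by
  unfold B0
  rw [Matrix.det_fin_three]
  simp
  norm_num

/-- the rotations of the arcs -/
theorem rk_LB (l : ℝ) (c : Gs M) (x : Eu (N + (N + N))) {k0 k1 k2 : Eu n} (h0 : k0 = -(1 / 2 : ℝ) • evc 𝒜 hB C c (q0 x))
    (h1 : k1 = -(1 / 2 : ℝ) • evc 𝒜 hB C c (q1 x)) (h2 : k2 = -(1 / 2 : ℝ) • evc 𝒜 hB C c (q2 x)) :
    rk (fun j => LB 𝒜 hB C (l • B0) j c x) = fun j => (l / 3) •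
      ((![-k0 + k2, k0 - k1, -k0 - k2, k0 + k1] : Fin 4 → Eu n) j - (-k0 + k2)) := by
  obtain ⟨a, ha⟩ : ∃ a, a = evc 𝒜 hB C c (q0 x) := ⟨_, rfl⟩
  obtain ⟨b, hb⟩ : ∃ b, b = evc 𝒜 hB C c (q1 x) := ⟨_, rfl⟩
  obtain ⟨d, hd⟩ : ∃ d, d = evc 𝒜 hB C c (q2 x) := ⟨_, rfl⟩
  have e0 : LB 𝒜 hB C (l • B0) 0 c x = l • (a - (1 / 2 : ℝ) • b - (1 / 2 : ℝ) • d) := by
    rw [LB_smul, LB_apply, ← ha, ← hb, ← hd]
    show l • ((1 : ℝ) • a + ((-(1 / 2) : ℝ) • b + (-(1 / 2) : ℝ) • d)) = _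
    module
  have e1 : LB 𝒜 hB C (l • B0) 1 c x = l • d := by
    rw [LB_smul, LB_apply, ← ha, ← hb, ← hd]
    show l • ((0 : ℝ) • a + ((0 : ℝ) • b + (1 : ℝ) • d)) = _
    module
  have e2 : LB 𝒜 hB C (l • B0) 2 c x = l • (a + (1 / 2 : ℝ) • b - (1 / 2 : ℝ) • d) := by
    rw [LB_smul, LB_apply, ← ha, ← hb, ← hd]
    show l • ((1 : ℝ) • a + ((1 / 2 : ℝ) • b + (-(1 / 2) : ℝ) • d)) = _
    module
  rw [← ha] at h0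
  rw [← hb] at h1
  rw [← hd] at h2
  funext j
  unfold rk
  beta_reduce
  rw [e0, e1, e2, h0, h1, h2]
  fin_cases j
  · show (0 : Eu n) = (l / 3) • ((-(-(1 / 2 : ℝ) • a) + -(1 / 2 : ℝ) • d) - (-(-(1 / 2 : ℝ) • a) + -(1 / 2 : ℝ) • d))
    module
  · show -(1 / 3 : ℝ) • l • (a - (1 / 2 : ℝ) • b - (1 / 2 : ℝ) • d) =
      (l / 3) • ((-(1 / 2 : ℝ) • a - -(1 / 2 : ℝ) • b) - (-(-(1 / 2 : ℝ) • a) + -(1 / 2 : ℝ) • d))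
    module
  · show (1 / 3 : ℝ) • l • d =
      (l / 3) • ((-(-(1 / 2 : ℝ) • a) - -(1 / 2 : ℝ) • d) - (-(-(1 / 2 : ℝ) • a) + -(1 / 2 : ℝ) • d))
    module
  · show -(1 / 3 : ℝ) • l • (a + (1 / 2 : ℝ) • b - (1 / 2 : ℝ) • d) =
      (l / 3) • ((-(1 / 2 : ℝ) • a + -(1 / 2 : ℝ) • b) - (-(-(1 / 2 : ℝ) • a) + -(1 / 2 : ℝ) • d))
    module

/-- the rotations of the arcs, with a factor -/
theorem rk_LB' (l : ℝ) {r : ℝ} (hr : r ≠ 0) (c : Gs M) (x : Eu (N + (N + N))) {k0 k1 k2 : Eu n}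
    (h0 : k0 = (-r) • evc 𝒜 hB C c (q0 x)) (h1 : k1 = (-r) • evc 𝒜 hB C c (q1 x)) (h2 : k2 = (-r) • evc 𝒜 hB C c (q2 x)) :
    rk (fun j => LB 𝒜 hB C (l • B0) j c x) = fun j => (l / (6 * r)) •
      ((![-k0 + k2, k0 - k1, -k0 - k2, k0 + k1] : Fin 4 → Eu n) j - (-k0 + k2)) := by
  have e1 : l / (6 * r) * r = l / 6 := by field_simp
  have e2 : ∀ v : Eu n, (l / (6 * r)) • (-r) • v = (l / 3) • (-(1 / 2 : ℝ)) • v := fun v => by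
    rw [smul_smul, smul_smul, mul_neg, e1]
    congr 1
    ring
  rw [rk_LB l c x rfl rfl rfl]
  funext j
  rw [smul_sub, smul_sub, h0, h1, h2]
  fin_cases j
  · show (l / 3) • (-(-(1 / 2 : ℝ) • evc 𝒜 hB C c (q0 x)) + -(1 / 2 : ℝ) • evc 𝒜 hB C c (q2 x)) - _ =
      (l / (6 * r)) • (-((-r) • evc 𝒜 hB C c (q0 x)) + (-r) • evc 𝒜 hB C c (q2 x)) - _
    simp only [smul_add, smul_neg, e2]
  · show (l / 3) • (-(1 / 2 : ℝ) • evc 𝒜 hB C c (q0 x) - -(1 / 2 : ℝ) • evc 𝒜 hB C c (q1 x)) - _ =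
      (l / (6 * r)) • ((-r) • evc 𝒜 hB C c (q0 x) - (-r) • evc 𝒜 hB C c (q1 x)) - _
    simp only [smul_add, smul_sub, smul_neg, e2]
  · show (l / 3) • (-(-(1 / 2 : ℝ) • evc 𝒜 hB C c (q0 x)) - -(1 / 2 : ℝ) • evc 𝒜 hB C c (q2 x)) - _ =
      (l / (6 * r)) • (-((-r) • evc 𝒜 hB C c (q0 x)) - (-r) • evc 𝒜 hB C c (q2 x)) - _
    simp only [smul_add, smul_sub, smul_neg, e2]
  · show (l / 3) • (-(1 / 2 : ℝ) • evc 𝒜 hB C c (q0 x) + -(1 / 2 : ℝ) • evc 𝒜 hB C c (q1 x)) - _ =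
      (l / (6 * r)) • ((-r) • evc 𝒜 hB C c (q0 x) + (-r) • evc 𝒜 hB C c (q1 x)) - _
    simp only [smul_add, smul_neg, e2]

variable (B : Matrix (Fin 3) (Fin 3) ℝ) (hk : 𝒜.HK 7) (hN : NegData 𝒜 7 hB C P)
variable (hL : LocV 𝒜 7) {Ψ : Om (spG 𝒜)} (hΨ : Deg 7 Ψ) (or0 : OrV hB hk hL Ψ) (hκ : 1 ≤ 7)

theorem LB_perp (j : Fin 3) (c : Gs M) (x : Eu (N + (N + N))) : ⟪𝒜.vel c.1 0, LB 𝒜 hB C B j c x⟫ = 0 :=
  Kc_perp (LB_mem B j c x)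

/-- **the velocities of the midpoints of `ΦY`** -/
theorem vel8_ΦY (y : (spY 𝒜 P).pt) :
    vel8 𝒜 (fun s => k8 (g4 (bV hB hk hL hΨ or0 hκ) ((ΦY B hk hN hL hΨ or0 hκ).1 (y, s)))) =
      av 𝒜 hB y.1.1 (rk fun j => LB 𝒜 hB C B j y.1.1 y.1.2) :=
  vel8_phi3 hk hL hΨ or0 hκ (kY B hk hN 0) (kY B hk hN 1) (kY B hk hN 2) y y.1.1 (fun _ => rfl)
    (fun j => LB 𝒜 hB C B j y.1.1 y.1.2) (fun j => LB_perp B j _ _) (fun _ => rfl) (fun _ => rfl) (fun _ => rfl)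

/-- the starting 8-gon is the doubled geodesic -/
theorem k8_ΦY_zero (y : (spY 𝒜 P).pt) :
    k8 (g4 (bV hB hk hL hΨ or0 hκ) ((ΦY B hk hN hL hΨ or0 hκ).1 (y, 0))) = b8 y.1.1 := by
  have h := qd_phi3 hk hL hΨ or0 hκ (kY B hk hN 0) (kY B hk hN 1) (kY B hk hN 2) (y, 0) 0
    (fun j => LB 𝒜 hB C B j y.1.1 y.1.2) rfl rfl rfl
  exact (k8_ra hB (fun j => LB_perp B j y.1.1 y.1.2) h).trans (ra_zero hB y.1.1 _)

/-- **`E8 < 2 π ^ 2` away from the diagonal** -/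
theorem E8_ΦY_lt (hb : ∀ c, (bV hB hk hL hΨ or0 hκ).pi.1 c = (gF hB).1 c) (hE : ExpB 𝒜 hB C P B) (y : (spY 𝒜 P).pt) {s : ℝ}
    (hs : s ≠ 0) : E8 (k8 (g4 (bV hB hk hL hΨ or0 hκ) ((ΦY B hk hN hL hΨ or0 hκ).1 (y, s)))) < 2 * π ^ 2 := by
  refine E8_phi3_lt hk hL hΨ or0 hκ (kY B hk hN 0) (kY B hk hN 1) (kY B hk hN 2) hb (y, s) hs
    (y := fun j => LB 𝒜 hB C B j y.1.1 y.1.2) (fun j => LB_perp B j _ _) (fun h0 => ?_) rfl rfl rfl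
  have h1 := hE y.1.1 y.1.2 (inP3_iff.1 y.2.1)
  have h2 : ∑ j : Fin 3, ‖LB 𝒜 hB C B j y.1.1 y.1.2‖ ^ 2 = 0 := by
    refine Finset.sum_eq_zero fun j _ => ?_
    have h3 : LB 𝒜 hB C B j y.1.1 y.1.2 = 0 := congrFun h0 j
    rw [h3, norm_zero]
    norm_num
  rw [h2, y.2.2] at h1
  norm_num at h1

end Pool.Agent.Lib.MP_ccbbf6_gt.K7.DP
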