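import Pool.Agent.Lib.MP_ccbbf6_gt.K7.DP10a

/-!
# `κ = 7`, block F, density path, DP10: bumps of small support, compactness (helper91)
-/

set_option autoImplicit false
set_option linter.unusedSectionVars false

open Set Filter Topology Metric Real Module
open scoped ContDiff RealInnerProductSpace

noncomputable section

namespace Pool.Agent.Lib.MP_ccbbf6_gt.K7.DP

open L4 Geo L4.ORI L5 L5.NEG RG HQ GG

variable {n : ℕ} {M : Type} [MetricSpace M] [CompactSpace M] {𝒜 : SDist n M} [Nonempty (Gs M)]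

/-! ### compactness -/

/-- the form at a perturbation of the rotations of the arcs -/
def GH (t : TEmb 𝒜) (hB : Bl M) (c : Gs M) (w : (Fin 3 → HR t.D) × (ZMod 8 → HR t.D)) : ℝ :=
  H8 𝒜 c (fun i => av 𝒜 hB c (rv (tA t (c.1 0) (w.1 0)) (tA t (c.1 0) (w.1 1)) (tA t (c.1 0) (w.1 2))) i + tA t (b8 c i) (w.2 i))

theorem smV_rv {F : Type} [NormedAddCommGroup F] [NormedSpace ℝ F] {p : M} {x : F → M} {k0 k1 k2 : F → Eu n} {u : F}
    (h0 : SmV 𝒜 p x k0 u) (h1 : SmV 𝒜 p x k1 u) (h2 : SmV 𝒜 p x k2 u) (j : Fin 4) :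
    SmV 𝒜 p x (fun v => rv (k0 v) (k1 v) (k2 v) j) u := by
  fin_cases j
  · exact SmV.add (SmV.neg' h0) h2
  · exact SmV.sub' h0 h1
  · exact SmV.sub' (SmV.neg' h0) h2
  · exact SmV.add h0 h1

theorem cont_GH (t : TEmb 𝒜) (hB : Bl M) (e : Emb n 𝒜) :
    Continuous fun z : Gs M × ((Fin 3 → HR t.D) × (ZMod 8 → HR t.D)) => GH t hB z.1 z.2 := by
  refine cont_of_smooth hB e (f := fun c w => GH t hB c w) fun σ w u hσ hw => ?_
  unfold GH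
  refine contDiffAt_H8 hB hσ fun i => ?_
  have hw1 : ∀ j, ContDiffAt ℝ ∞ (fun v => (w v).1 j) u := fun j => (contDiffAt_pi.1 hw.fst) j
  have hw2 : ∀ i, ContDiffAt ℝ ∞ (fun v => (w v).2 i) u := fun i => (contDiffAt_pi.1 hw.snd) i
  have hk : ∀ j, SmV 𝒜 ((σ u).1 0) (fun v => (σ v).1 0) (fun v => tA t ((σ v).1 0) ((w v).1 j)) u := fun j =>
    smV_tA t hσ.1 (𝒜.mem _) (hw1 j)
  have hr := smV_rv (hk 0) (hk 1) (hk 2) (arc i)
  have hs : SmGAt 𝒜 (fun v => shift (t8 i) (σ v)) u := hσ.shift hB (r := fun _ => t8 i) contDiffAt_const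
  have hb8 : ∀ v, (shift (t8 i) (σ v)).1 0 = b8 (σ v) i := fun v => by
    show (σ v).1 (0 + t8 i) = (σ v).1 (t8 i)
    rw [zero_add]
  have e1 : (fun v => (shift (-(t8 i)) (shift (t8 i) (σ v))).1 0) = fun v => (σ v).1 0 := by
    funext v
    rw [shift_shift_neg]
  have h1 := smV_JG hB hs (b := fun _ => -(t8 i)) contDiffAt_const (p := b8 (σ u) i) (q := (σ u).1 0)
    (w := fun v => rv (tA t ((σ v).1 0) ((w v).1 0)) (tA t ((σ v).1 0) ((w v).1 1)) (tA t ((σ v).1 0) ((w v).1 2)) (arc i))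
    (by rw [hb8]; exact 𝒜.mem _) (by rw [shift_shift_neg]; exact 𝒜.mem _) (by rw [e1]; exact hr)
  simp only [JG_eq_JA, hb8] at h1
  exact h1.add (smV_tA t (smAt_b8 hB hσ i) (𝒜.mem _) (hw2 i))

theorem av_smul (hB : Bl M) (c : Gs M) (a : ℝ) (k0 k1 k2 : Eu n) (i : ZMod 8) :
    av 𝒜 hB c (rv (a • k0) (a • k1) (a • k2)) i = a • av 𝒜 hB c (rv k0 k1 k2) i := by
  have h1 : ∀ j, rv (a • k0) (a • k1) (a • k2) j = a • rv k0 k1 k2 j := by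
    intro j
    fin_cases j
    · show -(a • k0) + a • k2 = a • (-k0 + k2)
      module
    · show a • k0 - a • k1 = a • (k0 - k1)
      module
    · show -(a • k0) - a • k2 = a • (-k0 - k2)
      module
    · show a • k0 + a • k1 = a • (k0 + k1)
      module
  unfold av
  rw [h1, ← JG_eq_JA, ← JG_eq_JA, JG_smul]

/-- the sphere bundle -/
def SB (t : TEmb 𝒜) : Set (Gs M × (Fin 3 → HR t.D)) := {p | (∀ j, Pr t p.1 (p.2 j) = p.2 j) ∧ ‖p.2‖ = 1}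

theorem isClosed_SB (t : TEmb 𝒜) (hB : Bl M) (e : Emb n 𝒜) {κ : ℕ} (hk : 𝒜.HK κ) : IsClosed (SB (𝒜 := 𝒜) t) := by
  have h2 : ∀ j : Fin 3, IsClosed {p : Gs M × (Fin 3 → HR t.D) | Pr t p.1 (p.2 j) = p.2 j} := by
    intro j
    have h3 : Continuous fun p : Gs M × (Fin 3 → HR t.D) => p.2 j := (continuous_apply j).comp continuous_snd
    have h4 : Continuous fun p : Gs M × (Fin 3 → HR t.D) => Pr t p.1 := (cont_Pr t hB e hk).comp continuous_fst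
    exact isClosed_eq (h4.clm_apply h3) h3
  have h5 : IsClosed {p : Gs M × (Fin 3 → HR t.D) | ∀ j, Pr t p.1 (p.2 j) = p.2 j} := by
    rw [ofPred_forall]
    exact isClosed_iInter h2
  have h6 : IsClosed {p : Gs M × (Fin 3 → HR t.D) | ‖p.2‖ = 1} := isClosed_eq continuous_snd.norm continuous_const
  exact h5.inter h6

theorem isCompact_SB (t : TEmb 𝒜) (hB : Bl M) (e : Emb n 𝒜) {κ : ℕ} (hk : 𝒜.HK κ) : IsCompact (SB (𝒜 := 𝒜) t) := by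
  have h1 : IsCompact ((univ : Set (Gs M)) ×ˢ Metric.sphere (0 : Fin 3 → HR t.D) 1) :=
    isCompact_univ.prod (isCompact_sphere _ _)
  refine h1.of_isClosed_subset (isClosed_SB t hB e hk) fun p hp => ?_
  exact mem_prod.2 ⟨mem_univ _, mem_sphere_zero_iff_norm.2 hp.2⟩

theorem GH_neg (t : TEmb 𝒜) (hB : Bl M) {c : Gs M} {y : Fin 3 → HR t.D} (hcy : (c, y) ∈ SB (𝒜 := 𝒜) t) :
    GH t hB c (y, 0) < 0 := by
  obtain ⟨hy, hn⟩ := hcy
  have hy' : ∀ j, Pr t c (y j) = y j := hy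
  have hn' : ‖y‖ = 1 := hn
  unfold GH
  have e1 : (fun i => av 𝒜 hB c (rv (tA t (c.1 0) (y 0)) (tA t (c.1 0) (y 1)) (tA t (c.1 0) (y 2))) i +
      tA t (b8 c i) ((0 : ZMod 8 → HR t.D) i)) = av 𝒜 hB c (rv (tA t (c.1 0) (y 0)) (tA t (c.1 0) (y 1)) (tA t (c.1 0) (y 2))) := by
    funext i
    rw [Pi.zero_apply, map_zero, add_zero]
  show H8 𝒜 c (fun i => av 𝒜 hB c (rv (tA t (c.1 0) (y 0)) (tA t (c.1 0) (y 1)) (tA t (c.1 0) (y 2))) i +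
      tA t (b8 c i) ((0 : ZMod 8 → HR t.D) i)) < 0
  rw [e1]
  have hm : ∀ j, y j = tI t (c.1 0) (Hc 𝒜 c (tA t (c.1 0) (y j))) := fun j => by
    rw [← Pr_apply]
    exact (hy' j).symm
  have hm2 : ∀ j, tA t (c.1 0) (y j) ∈ NEG.Kc 𝒜 c := fun j => by
    rw [hm j, tA_tI]
    exact Hc_mem _ _
  refine H8_av_lt hB (rv_mem (hm2 0) (hm2 1) (hm2 2)) (rv_ne ?_)
  rintro ⟨z0, z1, z2⟩
  have h4 : ∀ j, tA t (c.1 0) (y j) = 0 := by
    intro j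
    fin_cases j
    · exact z0
    · exact z1
    · exact z2
  have h3 : ∀ j, y j = 0 := by
    intro j
    rw [hm j, h4, map_zero, map_zero]
  have h5 : y = 0 := funext h3
  rw [h5, norm_zero] at hn'
  exact zero_ne_one hn'

/-- **compactness** -/
theorem exists_delta (t : TEmb 𝒜) (hB : Bl M) (e : Emb n 𝒜) {κ : ℕ} (hk : 𝒜.HK κ) :
    ∃ δ : ℝ, 0 < δ ∧ ∀ (c : Gs M) (y : Fin 3 → HR t.D), (∀ j, Pr t c (y j) = y j) → ‖y‖ = 1 → ∀ z : ZMod 8 → HR t.D,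
      ‖z‖ < δ → GH t hB c (y, z) < 0 := by
  have hf : Continuous fun z : (ZMod 8 → HR t.D) × (Gs M × (Fin 3 → HR t.D)) => ((z.2.1, (z.2.2, z.1)) :
      Gs M × ((Fin 3 → HR t.D) × (ZMod 8 → HR t.D))) :=
    (continuous_fst.comp continuous_snd).prodMk ((continuous_snd.comp continuous_snd).prodMk continuous_fst)
  obtain ⟨G, hG⟩ : ∃ G : (ZMod 8 → HR t.D) × (Gs M × (Fin 3 → HR t.D)) → ℝ, G = fun z => GH t hB z.2.1 (z.2.2, z.1) := ⟨_, rfl⟩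
  have h2 : Continuous G := by
    rw [hG]
    exact Continuous.comp (g := fun z : Gs M × ((Fin 3 → HR t.D) × (ZMod 8 → HR t.D)) => GH t hB z.1 z.2)
      (f := fun z : (ZMod 8 → HR t.D) × (Gs M × (Fin 3 → HR t.D)) => ((z.2.1, (z.2.2, z.1)) :
      Gs M × ((Fin 3 → HR t.D) × (ZMod 8 → HR t.D)))) (cont_GH t hB e) hf
  have hG0 : ∀ p ∈ SB (𝒜 := 𝒜) t, G (0, p) < 0 := by
    intro p hp
    rw [hG]
    exact GH_neg t hB (c := p.1) (y := p.2) hp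
  have h1 : ∀ᶠ z in 𝓝 (0 : ZMod 8 → HR t.D), ∀ p ∈ SB (𝒜 := 𝒜) t, G (z, p) < 0 :=
    (isCompact_SB t hB e hk).eventually_forall_of_forall_eventually (x₀ := (0 : ZMod 8 → HR t.D))
      (P := fun z p => G (z, p) < 0) fun p hp => h2.continuousAt.eventually (gt_mem_nhds (hG0 p hp))
  obtain ⟨δ, hδ, h3⟩ := Metric.eventually_nhds_iff.1 h1
  refine ⟨δ, hδ, fun c y hy hn z hz => ?_⟩
  have h4 := h3 (y := z) (by rw [dist_zero_right]; exact hz) (c, y) ⟨hy, hn⟩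
  rw [hG] at h4
  exact h4

/-- **bumps of small support: negative up to the rotations of the arcs** -/
theorem H8_bmp_lt (t : TEmb 𝒜) (hB : Bl M) (e : Emb n 𝒜) {κ : ℕ} (hk : 𝒜.HK κ) :
    ∃ ε0 : ℝ, 0 < ε0 ∧ ∀ {ε : ℝ} {h : ℝ → ℝ}, ε ≤ ε0 → OD.Bmp h ε → ∫ s in (-(π / 2))..π / 2, h s = 1 →
      ∀ (c : Gs M) (k0 k1 k2 : Eu n), k0 ∈ NEG.Kc 𝒜 c → k1 ∈ NEG.Kc 𝒜 c → k2 ∈ NEG.Kc 𝒜 c → ¬(k0 = 0 ∧ k1 = 0 ∧ k2 = 0) →
        ∀ τ ∈ Icc (0 : ℝ) 1, H8 𝒜 c (fun i => (1 - τ) • XE t hB c (Yb t hB e hk h c (tI t (c.1 0) k0) (tI t (c.1 0) k1)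
          (tI t (c.1 0) k2)) i + τ • av 𝒜 hB c (rv k0 k1 k2) i) < 0 := by
  obtain ⟨δ, hδ, h1⟩ := exists_delta t hB e hk
  obtain ⟨ε0, hε0, h2⟩ := int_near t hB e hk (η := δ / 6) (by positivity)
  refine ⟨ε0, hε0, fun {ε h} hε hh hm c k0 k1 k2 m0 m1 m2 hne τ hτ => ?_⟩
  obtain ⟨y, hy⟩ : ∃ y : Fin 3 → HR t.D, y = ![tI t (c.1 0) k0, tI t (c.1 0) k1, tI t (c.1 0) k2] := ⟨_, rfl⟩
  have y0 : y 0 = tI t (c.1 0) k0 := by rw [hy]; rfl
  have y1 : y 1 = tI t (c.1 0) k1 := by rw [hy]; rfl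
  have y2 : y 2 = tI t (c.1 0) k2 := by rw [hy]; rfl
  have hyP : ∀ j, Pr t c (y j) = y j := by
    intro j
    fin_cases j
    · show Pr t c (y 0) = y 0
      rw [y0, Pr_tI t c m0]
    · show Pr t c (y 1) = y 1
      rw [y1, Pr_tI t c m1]
    · show Pr t c (y 2) = y 2
      rw [y2, Pr_tI t c m2]
  have hyne : y ≠ 0 := by
    intro h0
    have z0 : tI t (c.1 0) k0 = 0 := by rw [← y0, h0]; rfl
    have z1 : tI t (c.1 0) k1 = 0 := by rw [← y1, h0]; rfl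
    have z2 : tI t (c.1 0) k2 = 0 := by rw [← y2, h0]; rfl
    refine hne ⟨?_, ?_, ?_⟩
    · rw [← tA_tI t (c.1 0) k0, z0, map_zero]
    · rw [← tA_tI t (c.1 0) k1, z1, map_zero]
    · rw [← tA_tI t (c.1 0) k2, z2, map_zero]
  obtain ⟨N, hN⟩ : ∃ N, N = ‖y‖ := ⟨_, rfl⟩
  have hN0 : 0 < N := by rw [hN]; exact norm_pos_iff.2 hyne
  -- the differences
  obtain ⟨d, hd⟩ : ∃ d : ZMod 8 → HR t.D, d = fun i => (∫ b in (0 : ℝ)..π, Ph t hB h (t8 i) c (y 0) (y 1) (y 2) (t8 i + b)) -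
    GM t hB (t8 i) c 0 ((-1 : ℝ) ^ cn i • ab (y 0) (y 1) (y 2) (0 + cn i * π)) := ⟨_, rfl⟩
  have hdn : ∀ i, ‖d i‖ ≤ δ / 2 * N := fun i => by
    rw [hd]
    refine (h2 hε hh hm i c (y 0) (y 1) (y 2)).trans ?_
    have f0 : ‖y 0‖ ≤ N := by rw [hN]; exact norm_le_pi_norm y 0
    have f1 : ‖y 1‖ ≤ N := by rw [hN]; exact norm_le_pi_norm y 1
    have f2 : ‖y 2‖ ≤ N := by rw [hN]; exact norm_le_pi_norm y 2
    nlinarith
  have hXE : ∀ i, XE t hB c (Yb t hB e hk h c (tI t (c.1 0) k0) (tI t (c.1 0) k1) (tI t (c.1 0) k2)) i =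
      av 𝒜 hB c (rv k0 k1 k2) i + tA t (b8 c i) (d i) := fun i => by
    rw [XE_Yb t hB e hk hh.cont, av_eq t hB c m0 m1 m2, hd, y0, y1, y2, ← map_add, add_sub_cancel]
  obtain ⟨z, hz⟩ : ∃ z : ZMod 8 → HR t.D, z = fun i => (N⁻¹ * (1 - τ)) • d i := ⟨_, rfl⟩
  have hzn : ‖z‖ < δ := by
    have h3 : ‖z‖ ≤ δ / 2 := by
      refine (pi_norm_le_iff_of_nonneg (by positivity)).2 fun i => ?_
      rw [hz]
      show ‖(N⁻¹ * (1 - τ)) • d i‖ ≤ δ / 2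
      have h4 : 0 ≤ 1 - τ := by linarith [hτ.2]
      have h5 : 0 ≤ N⁻¹ := inv_nonneg.2 hN0.le
      rw [norm_smul, Real.norm_eq_abs, abs_of_nonneg (mul_nonneg h5 h4)]
      have h6 : N⁻¹ * (1 - τ) ≤ N⁻¹ * 1 := mul_le_mul_of_nonneg_left (by linarith [hτ.1]) h5
      calc N⁻¹ * (1 - τ) * ‖d i‖ ≤ N⁻¹ * 1 * (δ / 2 * N) := mul_le_mul h6 (hdn i) (norm_nonneg _) (by positivity)
        _ = δ / 2 := by field_simp
    linarith
  have h3 := h1 c (N⁻¹ • y) (fun j => by rw [Pi.smul_apply, map_smul, hyP]) (by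
    rw [norm_smul, norm_inv, Real.norm_of_nonneg hN0.le, ← hN, inv_mul_cancel₀ hN0.ne']) z hzn
  unfold GH at h3
  have h4 : (fun i => (1 - τ) • XE t hB c (Yb t hB e hk h c (tI t (c.1 0) k0) (tI t (c.1 0) k1) (tI t (c.1 0) k2)) i +
      τ • av 𝒜 hB c (rv k0 k1 k2) i) = N • (fun i => av 𝒜 hB c (rv (tA t (c.1 0) ((N⁻¹ • y) 0)) (tA t (c.1 0) ((N⁻¹ • y) 1))
        (tA t (c.1 0) ((N⁻¹ • y) 2))) i + tA t (b8 c i) (z i)) := by
    funext i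
    rw [Pi.smul_apply, Pi.smul_apply, Pi.smul_apply, Pi.smul_apply, y0, y1, y2, map_smul, map_smul, map_smul, tA_tI, tA_tI, tA_tI,
      av_smul, hXE, hz, map_smul]
    rw [smul_add N, smul_smul, smul_smul, ← mul_assoc, mul_inv_cancel₀ hN0.ne', one_mul]
    module
  rw [h4, H8_smul]
  exact mul_neg_of_pos_of_neg (by positivity) h3

end Pool.Agent.Lib.MP_ccbbf6_gt.K7.DP
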