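import Pool.Agent.Lib.MP_ccbbf6_gt.L5.NC2

/-!
# `κ = 7`, block F: the energy of 8-gons near the doubled geodesic, HQ0 (helper95)

* `t8 i = π / 4 + i π / 2`, `b8 c i = c (t8 i)` the doubled geodesic, `E8 x = ∑ d(x i, x (i + 1))²`; `E8_b8 : E8 (b8 c) = 2 π²`.
* `f8 𝒜 c u = E8 (fun i => ψ_(b8 c i)⁻¹ (u i))`, smooth at `0`, `fderiv_f8 : D f8 = 0` (critical point).
* `B8 𝒜 c a b` the second derivative, symmetric, `H8 𝒜 c a = B8 𝒜 c a a`.
-/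

set_option autoImplicit false
set_option linter.unusedSectionVars false

open Set Filter Topology Metric Real Module
open scoped ContDiff RealInnerProductSpace

noncomputable section

namespace Pool.Agent.Lib.MP_ccbbf6_gt.K7.HQ

open Geo L4 L4.ORI L5

variable {n : ℕ} {M : Type} [MetricSpace M] [CompactSpace M] {𝒜 : SDist n M}

/-- the times of the vertices -/
def t8 (i : ZMod 8) : ℝ := π / 4 + i.val * (π / 2)

/-- the doubled geodesic -/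
def b8 (c : Gs M) (i : ZMod 8) : M := c.1 (t8 i)

/-- the energy of an 8-gon -/
def E8 (x : ZMod 8 → M) : ℝ := ∑ i, dist (x i) (x (i + 1)) ^ 2

theorem t8_succ (i : ZMod 8) : t8 (i + 1) = t8 i + π / 2 ∨ t8 (i + 1) + 4 * π = t8 i + π / 2 := by
  unfold t8
  have h1 : ((i + 1 : ZMod 8)).val = (i.val + 1) % 8 := ZMod.val_add i 1
  have h2 : i.val < 8 := ZMod.val_lt i
  rcases Nat.lt_or_ge (i.val + 1) 8 with h3 | h3
  · left
    rw [h1, Nat.mod_eq_of_lt h3]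
    push_cast
    ring
  · right
    have h4 : i.val = 7 := by omega
    rw [h1, h4]
    norm_num
    ring

include 𝒜 in
theorem per4 (hB : Bl M) (c : Gs M) (t : ℝ) : c.1 (t + 4 * π) = c.1 t := by
  rw [show t + 4 * π = t + 2 * π + 2 * π by ring, IsGeo.closed 𝒜 hB c.2, IsGeo.closed 𝒜 hB c.2]

/-- the next vertex -/
theorem b8_succ (𝒜 : SDist n M) (hB : Bl M) (c : Gs M) (i : ZMod 8) : b8 c (i + 1) = c.1 (t8 i + π / 2) := by
  unfold b8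
  rcases t8_succ i with h | h
  · rw [h]
  · rw [← h, per4 (𝒜 := 𝒜) hB]

/-- the previous vertex -/
theorem b8_pred (𝒜 : SDist n M) (hB : Bl M) (c : Gs M) (i : ZMod 8) : b8 c i = c.1 (t8 (i + 1) - π / 2) := by
  unfold b8
  rcases t8_succ i with h | h
  · rw [h, add_sub_cancel_right]
  · rw [show t8 (i + 1) - π / 2 = t8 i - 4 * π by linarith, ← per4 (𝒜 := 𝒜) hB c (t8 i - 4 * π), sub_add_cancel]

theorem gs_dist (c : Gs M) {s t : ℝ} (h : |s - t| ≤ π) : dist (c.1 s) (c.1 t) = |s - t| := c.2 s t h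

theorem dist_b8 (𝒜 : SDist n M) (hB : Bl M) (c : Gs M) (i : ZMod 8) : dist (b8 c i) (b8 c (i + 1)) = π / 2 := by
  rw [b8_succ 𝒜 hB]
  have h1 : t8 i - (t8 i + π / 2) = -(π / 2) := by ring
  have h2 : |t8 i - (t8 i + π / 2)| = π / 2 := by rw [h1, abs_neg, abs_of_pos (by positivity)]
  unfold b8
  rw [gs_dist c (by rw [h2]; linarith [Real.pi_pos]), h2]

theorem E8_b8 (𝒜 : SDist n M) (hB : Bl M) (c : Gs M) : E8 (b8 c) = 2 * π ^ 2 := by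
  unfold E8
  simp only [dist_b8 𝒜 hB]
  rw [Finset.sum_const, Finset.card_univ, ZMod.card, nsmul_eq_mul]
  push_cast
  ring

/-! ### the logarithm along a geodesic -/

theorem c_add (hB : Bl M) (c : Gs M) (t s : ℝ) : c.1 (t + s) = 𝒜.Ex (c.1 t) (s • 𝒜.vel c.1 t) := by
  have h1 := gs_Ex 𝒜 hB (shift t c) s
  have h2 : (shift t c).1 s = c.1 (t + s) := by
    show c.1 (s + t) = c.1 (t + s)
    rw [add_comm]
  have h3 : (shift t c).1 0 = c.1 t := by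
    show c.1 (0 + t) = c.1 t
    rw [zero_add]
  have h4 : 𝒜.vel (shift t c).1 0 = 𝒜.vel c.1 t := by rw [NEG.nc2_vel_shift, zero_add]
  have h5 : ‖𝒜.vel c.1 t‖ = 1 := by rw [← h4]; exact vel_norm 𝒜 _
  rw [h2, h3, h4, rad_unit s h5] at h1
  exact h1

theorem vel_norm' (c : Gs M) (t : ℝ) : ‖𝒜.vel c.1 t‖ = 1 := by
  have h4 : 𝒜.vel (shift t c).1 0 = 𝒜.vel c.1 t := by rw [NEG.nc2_vel_shift, zero_add]
  rw [← h4]
  exact vel_norm 𝒜 _

/-- first derivative of `d² / 2` at a geodesic -/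
theorem fderiv_F_geo (hB : Bl M) (c : Gs M) (t : ℝ) {s : ℝ} (hs : |s| < π) (a : Eu n) :
    fderiv ℝ (𝒜.F (c.1 t) (c.1 (t + s))) (0, 0) (a, 0) = -(s * ⟪𝒜.vel c.1 t, a⟫) := by
  have hd : dist (c.1 t) (c.1 (t + s)) < π := by
    have h1 : |t - (t + s)| = |s| := by rw [show t - (t + s) = -s by ring, abs_neg]
    rw [gs_dist c (by rw [h1]; exact hs.le), h1]
    exact hs
  have hF : ContDiffAt ℝ ∞ (𝒜.F (c.1 t) (c.1 (t + s))) (0, 0) := contDiffAt_F 𝒜 hB hd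
  rw [← exc_partial1 (hF.differentiableAt (by simp)) a, c_add (𝒜 := 𝒜) hB c t s]
  have h2 : ‖s • 𝒜.vel c.1 t‖ < π := by rw [norm_smul, vel_norm', mul_one]; exact hs
  rw [fderiv_F_Ex 𝒜 hB (c.1 t) h2 a, real_inner_smul_left]

theorem F_swap (p q : M) : 𝒜.F p q = fun z => 𝒜.F q p (z.2, z.1) := by
  funext z
  unfold SDist.F SDist.f
  simp only
  rw [dist_comm]

theorem fderiv_F_swap {p q : M} (h : DifferentiableAt ℝ (𝒜.F q p) ((0 : Eu n), (0 : Eu n))) (b : Eu n) :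
    fderiv ℝ (𝒜.F p q) (0, 0) (0, b) = fderiv ℝ (𝒜.F q p) (0, 0) (b, 0) := by
  have h1 : HasFDerivAt (fun z : Eu n × Eu n => 𝒜.F q p (z.2, z.1)) ((fderiv ℝ (𝒜.F q p) (0, 0)).comp
      ((ContinuousLinearMap.snd ℝ (Eu n) (Eu n)).prod (ContinuousLinearMap.fst ℝ (Eu n) (Eu n)))) (0, 0) := by
    have h2 : HasFDerivAt (fun z : Eu n × Eu n => (z.2, z.1))
        ((ContinuousLinearMap.snd ℝ (Eu n) (Eu n)).prod (ContinuousLinearMap.fst ℝ (Eu n) (Eu n))) ((0 : Eu n), (0 : Eu n)) :=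
      hasFDerivAt_snd.prodMk hasFDerivAt_fst
    exact HasFDerivAt.comp (g := 𝒜.F q p) (f := fun z : Eu n × Eu n => (z.2, z.1)) ((0 : Eu n), (0 : Eu n)) h.hasFDerivAt h2
  rw [F_swap, h1.fderiv]
  rfl

/-! ### the energy in charts -/

/-- the energy in the charts centered at the vertices of the doubled geodesic -/
def f8 (𝒜 : SDist n M) (c : Gs M) (u : ZMod 8 → Eu n) : ℝ := E8 fun i => (𝒜.ψ (b8 c i)).symm (u i)

theorem f8_eq (c : Gs M) (u : ZMod 8 → Eu n) : f8 𝒜 c u = ∑ i, 2 * 𝒜.F (b8 c i) (b8 c (i + 1)) (u i, u (i + 1)) := by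
  unfold f8 E8 SDist.F SDist.f
  refine Finset.sum_congr rfl fun i _ => ?_
  simp only
  ring

theorem f8_zero (hB : Bl M) (c : Gs M) : f8 𝒜 c 0 = 2 * π ^ 2 := by
  rw [← E8_b8 𝒜 hB c]
  unfold f8
  congr 1
  funext i
  show (𝒜.ψ (b8 c i)).symm 0 = b8 c i
  rw [← 𝒜.zero (b8 c i), (𝒜.ψ (b8 c i)).left_inv (𝒜.mem _)]

/-- the projection to two neighbouring vertices -/
def pr2 (n : ℕ) (i : ZMod 8) : (ZMod 8 → Eu n) →L[ℝ] Eu n × Eu n :=
  (ContinuousLinearMap.proj i).prod (ContinuousLinearMap.proj (i + 1))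

theorem pr2_apply (i : ZMod 8) (u : ZMod 8 → Eu n) : pr2 n i u = (u i, u (i + 1)) := rfl

theorem cdF (hB : Bl M) (c : Gs M) (i : ZMod 8) : ContDiffAt ℝ ∞ (𝒜.F (b8 c i) (b8 c (i + 1))) ((0 : Eu n), (0 : Eu n)) :=
  contDiffAt_F 𝒜 hB (by rw [dist_b8 𝒜 hB]; linarith [Real.pi_pos])

theorem contDiffAt_f8 (hB : Bl M) (c : Gs M) : ContDiffAt ℝ ∞ (f8 𝒜 c) 0 := by
  have h1 : f8 𝒜 c = fun u => ∑ i, 2 * 𝒜.F (b8 c i) (b8 c (i + 1)) (pr2 n i u) := funext fun u => f8_eq c u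
  rw [h1]
  refine ContDiffAt.sum fun i _ => contDiffAt_const.mul ?_
  exact ContDiffAt.comp (g := 𝒜.F (b8 c i) (b8 c (i + 1))) (f := fun u => pr2 n i u) (0 : ZMod 8 → Eu n) (cdF hB c i)
    (pr2 n i).contDiff.contDiffAt

/-- **the doubled geodesic is a critical point of the energy** -/
theorem fderiv_f8 (hB : Bl M) (c : Gs M) : fderiv ℝ (f8 𝒜 c) 0 = 0 := by
  have h1 : f8 𝒜 c = fun u => ∑ i, 2 * 𝒜.F (b8 c i) (b8 c (i + 1)) (pr2 n i u) := funext fun u => f8_eq c u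
  have h2 : ∀ i : ZMod 8, HasFDerivAt (fun u => 2 * 𝒜.F (b8 c i) (b8 c (i + 1)) (pr2 n i u))
      ((2 : ℝ) • (fderiv ℝ (𝒜.F (b8 c i) (b8 c (i + 1))) (0, 0)).comp (pr2 n i)) 0 := fun i => by
    have h3 : HasFDerivAt (𝒜.F (b8 c i) (b8 c (i + 1))) (fderiv ℝ (𝒜.F (b8 c i) (b8 c (i + 1))) (0, 0)) (pr2 n i 0) :=
      ((cdF hB c i).differentiableAt (by simp)).hasFDerivAt
    exact (HasFDerivAt.comp (g := 𝒜.F (b8 c i) (b8 c (i + 1))) (f := fun u => pr2 n i u) (0 : ZMod 8 → Eu n) h3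
      (pr2 n i).hasFDerivAt).const_mul 2
  have h3 : HasFDerivAt (f8 𝒜 c) (∑ i, (2 : ℝ) • (fderiv ℝ (𝒜.F (b8 c i) (b8 c (i + 1))) (0, 0)).comp (pr2 n i)) 0 := by
    rw [h1]
    exact HasFDerivAt.fun_sum fun i _ => h2 i
  rw [h3.fderiv]
  ext1 a
  have hpi := Real.pi_pos
  have h4 : ∀ i : ZMod 8, fderiv ℝ (𝒜.F (b8 c i) (b8 c (i + 1))) (0, 0) (a i, a (i + 1)) =
      -(π / 2 * ⟪𝒜.vel c.1 (t8 i), a i⟫) + π / 2 * ⟪𝒜.vel c.1 (t8 (i + 1)), a (i + 1)⟫ := fun i => by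
    have e1 : ((a i, a (i + 1)) : Eu n × Eu n) = (a i, 0) + (0, a (i + 1)) := by
      rw [Prod.mk_add_mk, add_zero, zero_add]
    rw [e1, map_add]
    congr 1
    · rw [b8_succ 𝒜 hB]
      exact fderiv_F_geo hB c (t8 i) (by rw [abs_of_pos (by positivity)]; linarith) (a i)
    · have h5 : DifferentiableAt ℝ (𝒜.F (b8 c (i + 1)) (b8 c i)) ((0 : Eu n), (0 : Eu n)) :=
        (contDiffAt_F 𝒜 hB (by rw [dist_comm, dist_b8 𝒜 hB]; linarith)).differentiableAt (by simp)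
      rw [fderiv_F_swap h5, b8_pred 𝒜 hB c i]
      have h6 := fderiv_F_geo (𝒜 := 𝒜) hB c (t8 (i + 1)) (s := -(π / 2)) (by rw [abs_neg, abs_of_pos (by positivity)]; linarith)
        (a (i + 1))
      rw [← sub_eq_add_neg] at h6
      refine h6.trans ?_
      ring
  have h5 : (∑ i, (2 : ℝ) • (fderiv ℝ (𝒜.F (b8 c i) (b8 c (i + 1))) (0, 0)).comp (pr2 n i)) a =
      ∑ i : ZMod 8, (π * ⟪𝒜.vel c.1 (t8 (i + 1)), a (i + 1)⟫ - π * ⟪𝒜.vel c.1 (t8 i), a i⟫) := by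
    rw [sum_apply]
    refine Finset.sum_congr rfl fun i _ => ?_
    show (2 : ℝ) • fderiv ℝ (𝒜.F (b8 c i) (b8 c (i + 1))) (0, 0) (a i, a (i + 1)) = _
    rw [h4, smul_eq_mul]
    ring
  show _ = (0 : ℝ)
  rw [h5, Finset.sum_sub_distrib, sub_eq_zero]
  exact Equiv.sum_comp (Equiv.addRight (1 : ZMod 8)) fun i => π * ⟪𝒜.vel c.1 (t8 i), a i⟫

/-- the second derivative of the energy at the doubled geodesic -/
def B8 (𝒜 : SDist n M) (c : Gs M) : (ZMod 8 → Eu n) →L[ℝ] (ZMod 8 → Eu n) →L[ℝ] ℝ := fderiv ℝ (fderiv ℝ (f8 𝒜 c)) 0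

/-- the quadratic form -/
def H8 (𝒜 : SDist n M) (c : Gs M) (a : ZMod 8 → Eu n) : ℝ := B8 𝒜 c a a

theorem B8_symm (hB : Bl M) (c : Gs M) (a b : ZMod 8 → Eu n) : B8 𝒜 c a b = B8 𝒜 c b a := by
  have h1 : IsSymmSndFDerivAt ℝ (f8 𝒜 c) 0 := ((contDiffAt_f8 hB c).of_le (m := 2) (by norm_cast)).isSymmSndFDerivAt
    (by simp)
  exact h1 a b

theorem H8_smul (c : Gs M) (r : ℝ) (a : ZMod 8 → Eu n) : H8 𝒜 c (r • a) = r ^ 2 * H8 𝒜 c a := by
  unfold H8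
  rw [map_smul, map_smul]
  show r • (r • B8 𝒜 c a a) = _
  rw [smul_eq_mul, smul_eq_mul]
  ring

theorem H8_add (hB : Bl M) (c : Gs M) (a b : ZMod 8 → Eu n) :
    H8 𝒜 c (a + b) = H8 𝒜 c a + 2 * B8 𝒜 c a b + H8 𝒜 c b := by
  unfold H8
  rw [map_add, map_add]
  show B8 𝒜 c a a + B8 𝒜 c b a + (B8 𝒜 c a b + B8 𝒜 c b b) = _
  rw [B8_symm hB c b a]
  ring

/-! ### the rotation by four vertices -/

theorem b8_four (𝒜 : SDist n M) (hB : Bl M) (c : Gs M) (i : ZMod 8) : b8 c (i + 4) = b8 c i := by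
  have h1 := b8_succ 𝒜 hB c
  have hk : ∀ (k : ℕ) (i : ZMod 8), b8 c (i + k) = c.1 (t8 i + k * (π / 2)) := by
    intro k
    induction k with
    | zero => intro i; simp [b8]
    | succ k ih =>
      intro i
      have h2 : i + ((k + 1 : ℕ) : ZMod 8) = (i + 1) + (k : ZMod 8) := by push_cast; ring
      rw [h2, ih (i + 1)]
      have h3 : ((k + 1 : ℕ) : ℝ) * (π / 2) = k * (π / 2) + π / 2 := by push_cast; ring
      rw [h3]
      rcases t8_succ i with h | h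
      · rw [h, show t8 i + π / 2 + k * (π / 2) = t8 i + (k * (π / 2) + π / 2) by ring]
      · rw [← per4 (𝒜 := 𝒜) hB c (t8 (i + 1) + k * (π / 2)),
          show t8 (i + 1) + k * (π / 2) + 4 * π = t8 i + (k * (π / 2) + π / 2) by linarith]
  have h2 := hk 4 i
  push_cast at h2
  rw [h2, show t8 i + 4 * (π / 2) = t8 i + 2 * π by ring, IsGeo.closed 𝒜 hB c.2]
  rfl

/-- the rotation of the vectors by four vertices -/
def R4 (n : ℕ) : (ZMod 8 → Eu n) →L[ℝ] (ZMod 8 → Eu n) := ContinuousLinearMap.pi fun i => ContinuousLinearMap.proj (i + 4)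

theorem R4_apply (a : ZMod 8 → Eu n) (i : ZMod 8) : R4 n a i = a (i + 4) := rfl

theorem E8_four (x : ZMod 8 → M) : E8 (fun i => x (i + 4)) = E8 x := by
  unfold E8
  have h1 := Equiv.sum_comp (Equiv.addRight (4 : ZMod 8)) fun i => dist (x i) (x (i + 1)) ^ 2
  rw [← h1]
  refine Finset.sum_congr rfl fun i _ => ?_
  show dist (x (i + 4)) (x (i + 1 + 4)) ^ 2 = dist (x (i + 4)) (x (i + 4 + 1)) ^ 2
  rw [add_right_comm]

theorem f8_R4 (hB : Bl M) (c : Gs M) (u : ZMod 8 → Eu n) : f8 𝒜 c (R4 n u) = f8 𝒜 c u := by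
  unfold f8
  have h1 := E8_four fun i => (𝒜.ψ (b8 c i)).symm (u i)
  rw [← h1]
  congr 1
  funext i
  rw [R4_apply, b8_four 𝒜 hB]

theorem B8_R4 (hB : Bl M) (c : Gs M) (a b : ZMod 8 → Eu n) : B8 𝒜 c (R4 n a) (R4 n b) = B8 𝒜 c a b := by
  have hf := (contDiffAt_f8 (𝒜 := 𝒜) hB c).of_le (m := 2) (by norm_cast)
  have h0 : R4 n (0 : ZMod 8 → Eu n) = 0 := map_zero _
  have h1 : fderiv ℝ (f8 𝒜 c) =ᶠ[𝓝 0] fun u => (fderiv ℝ (f8 𝒜 c) (R4 n u)).comp (R4 n) := by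
    have e1 : ∀ᶠ u in 𝓝 (0 : ZMod 8 → Eu n), DifferentiableAt ℝ (f8 𝒜 c) (R4 n u) := by
      have e2 : ∀ᶠ u in 𝓝 (R4 n (0 : ZMod 8 → Eu n)), DifferentiableAt ℝ (f8 𝒜 c) u := by
        rw [h0]
        exact (hf.eventually (by simp)).mono fun u hu => hu.differentiableAt (by simp)
      exact (R4 n).continuous.continuousAt.eventually e2
    filter_upwards [e1] with u hu
    have e3 : HasFDerivAt (fun u => f8 𝒜 c (R4 n u)) ((fderiv ℝ (f8 𝒜 c) (R4 n u)).comp (R4 n)) u :=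
      hu.hasFDerivAt.comp u (R4 n).hasFDerivAt
    have e4 : (fun u => f8 𝒜 c (R4 n u)) = f8 𝒜 c := funext fun u => f8_R4 hB c u
    rw [e4] at e3
    exact e3.fderiv
  have h2 : DifferentiableAt ℝ (fderiv ℝ (f8 𝒜 c)) 0 := (hf.fderiv_right (m := 1) (by norm_num)).differentiableAt (by simp)
  have h3 : HasFDerivAt (fun u => fderiv ℝ (f8 𝒜 c) (R4 n u)) ((B8 𝒜 c).comp (R4 n)) 0 := by
    have e1 : HasFDerivAt (fderiv ℝ (f8 𝒜 c)) (B8 𝒜 c) (R4 n (0 : ZMod 8 → Eu n)) := by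
      rw [h0]
      exact h2.hasFDerivAt
    exact e1.comp (0 : ZMod 8 → Eu n) (R4 n).hasFDerivAt
  have h4 : HasFDerivAt (fun u => (fderiv ℝ (f8 𝒜 c) (R4 n u)).comp (R4 n))
      (((ContinuousLinearMap.compL ℝ (ZMod 8 → Eu n) (ZMod 8 → Eu n) ℝ).flip (R4 n)).comp ((B8 𝒜 c).comp (R4 n))) 0 :=
    ((ContinuousLinearMap.compL ℝ (ZMod 8 → Eu n) (ZMod 8 → Eu n) ℝ).flip (R4 n)).hasFDerivAt.comp (0 : ZMod 8 → Eu n) h3
  have h5 := (h4.congr_of_eventuallyEq h1).fderiv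
  have h6 : B8 𝒜 c = ((ContinuousLinearMap.compL ℝ (ZMod 8 → Eu n) (ZMod 8 → Eu n) ℝ).flip (R4 n)).comp ((B8 𝒜 c).comp (R4 n)) :=
    h5
  conv_rhs => rw [h6]
  rfl

/-- invariant and anti-invariant vectors are orthogonal -/
theorem B8_orth (hB : Bl M) (c : Gs M) {a b : ZMod 8 → Eu n} (ha : ∀ i, a (i + 4) = a i) (hb : ∀ i, b (i + 4) = -b i) :
    B8 𝒜 c a b = 0 := by
  have h1 := B8_R4 (𝒜 := 𝒜) hB c a b
  have h2 : R4 n a = a := funext ha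
  have h3 : R4 n b = -b := funext hb
  rw [h2, h3, map_neg] at h1
  linarith

end Pool.Agent.Lib.MP_ccbbf6_gt.K7.HQ
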