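import Pool.Agent.Lib.MP_ccbbf6_gt.K7.GJ1
import Pool.Agent.Lib.MP_ccbbf6_gt.K7.HQ0

/-!
# `κ = 7`, density path, part 6a: the 8-gon of velocities of a density (helper92)
-/

set_option autoImplicit false
set_option linter.unusedSectionVars false

open Set Filter Topology Metric Real Module
open scoped ContDiff RealInnerProductSpace

noncomputable section

namespace Pool.Agent.Lib.MP_ccbbf6_gt.K7.DP

open L4 Geo L4.ORI L5 L5.NEG RG HQ GG

variable {n : ℕ} {M : Type} [MetricSpace M] [CompactSpace M] {𝒜 : SDist n M}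

/-- the 8-gon of velocities of a density `Y` (with values in the spaces `K`) along `c`, no projection to `K` -/
def XE (t : TEmb 𝒜) (hB : Bl M) (c : Gs M) (Y : ℝ → HR t.D) (i : ZMod 8) : Eu n :=
  ∫ b in (0 : ℝ)..π, JG 𝒜 hB (shift (t8 i) c) b (tA t ((shift b (shift (t8 i) c)).1 0) (Y (t8 i + b)))

end Pool.Agent.Lib.MP_ccbbf6_gt.K7.DP
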