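import Pool.Agent.Lib.MP_ccbbf6_gt.K7.GG3

/-!
# Level 5, kappa = 7, block G, GG4: the steps from `μ = 0` to `μ = 1/2` (abstract) (helper2)

`Ust O a μ h l z` : `l` steps `z ↦ z + a H_μ z` at `μ, μ + h, ..`. `exists_steps` : the constants depend only on `CJ`, `C`, `δ`.
-/

set_option autoImplicit false
set_option linter.unusedSectionVars false
set_option linter.unusedVariables false

open Set Filter Topology Metric Real MeasureTheory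
open scoped InnerProductSpace ComplexConjugate

noncomputable section

namespace Pool.Agent.Lib.MP_ccbbf6_gt.K7.GG

/-! ### real numbers -/

theorem real_step {N Q F F' M C2 C3 K h CH ρ : ℝ} (hN : 0 ≤ N) (hQ : 0 ≤ Q) (hQN : Q ≤ CH * N) (hFQ : F ≤ Q * N)
    (hρ : ρ * N ^ 2 ≤ F) (hρ0 : 0 ≤ ρ) (hK : 0 < K) (hC2 : 0 ≤ C2) (hC3 : 0 ≤ C3) (hCH : 0 ≤ CH) (hh : 0 ≤ h) (hC2h : C2 * h ≤ 1)
    (hF' : F - h * C2 * (N * Q) + 2 * h * K * Q ^ 2 - C3 * h ^ 2 * N ^ 2 ≤ F') (hM : M = N ^ 2 + 2 * (h * K) * F + (h * K) ^ 2 * Q ^ 2)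
    (hρ' : 0 ≤ ρ * (1 - C2 * h) - h * (C2 ^ 2 / (8 * K) + (C3 + K ^ 2 * CH ^ 3) * h)) :
    (ρ * (1 - C2 * h) - h * (C2 ^ 2 / (8 * K) + (C3 + K ^ 2 * CH ^ 3) * h)) * M ≤ F' := by
  obtain ⟨ε, hε⟩ : ∃ ε, ε = C2 ^ 2 / (8 * K) + (C3 + K ^ 2 * CH ^ 3) * h := ⟨_, rfl⟩
  rw [← hε] at hρ' ⊢
  rcases hN.eq_or_lt with h0 | h0
  · subst h0
    have hQ0 : Q = 0 := le_antisymm (by linarith) hQ
    subst hQ0
    have hF0 : F = 0 := le_antisymm (by linarith) (by linarith)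
    subst hF0
    rw [hM]
    have : (0 : ℝ) ^ 2 + 2 * (h * K) * 0 + (h * K) ^ 2 * 0 ^ 2 = 0 := by ring
    rw [this, mul_zero]
    linarith
  · obtain ⟨f, hf⟩ : ∃ f, f = F / N ^ 2 := ⟨_, rfl⟩
    obtain ⟨x, hx⟩ : ∃ x, x = Q / N := ⟨_, rfl⟩
    have hFf : F = f * N ^ 2 := by
      rw [hf]
      field_simp
    have hQx : Q = x * N := by
      rw [hx]
      field_simp
    have hN2 : 0 < N ^ 2 := by positivity
    have hx0 : 0 ≤ x := by rw [hx]; positivity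
    have hxC : x ≤ CH := by
      rw [hx, div_le_iff₀ h0]
      exact hQN
    have hfx : f ≤ x := by
      rw [hf, hx, div_le_div_iff₀ hN2 h0]
      have := mul_le_mul_of_nonneg_right hFQ h0.le
      linarith
    have hρf : ρ ≤ f := by
      rw [hf, le_div_iff₀ hN2]
      exact hρ
    have hf0 : 0 ≤ f := hρ0.trans hρf
    have hM' : M = N ^ 2 * (1 + 2 * (h * K) * f + (h * K) ^ 2 * x ^ 2) := by
      rw [hM, hFf, hQx]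
      ring
    have hM0 : 0 ≤ 1 + 2 * (h * K) * f + (h * K) ^ 2 * x ^ 2 := by positivity
    have h1 : ρ * (1 - C2 * h) - h * ε ≤ f * (1 - C2 * h) - h * ε := by
      have := mul_le_mul_of_nonneg_right hρf (by linarith : 0 ≤ 1 - C2 * h)
      linarith
    have hε0 : 0 ≤ ε := by rw [hε]; positivity
    -- the main inequality
    have h2 : (f * (1 - C2 * h) - h * ε) * (1 + 2 * (h * K) * f + (h * K) ^ 2 * x ^ 2) ≤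
        f - h * C2 * x + 2 * h * K * x ^ 2 - C3 * h ^ 2 := by
      have e1 : f * (1 - C2 * h) - h * ε ≤ f := by
        have : 0 ≤ f * (C2 * h) := by positivity
        have : 0 ≤ h * ε := by positivity
        linarith
      have e2 : (f * (1 - C2 * h) - h * ε) * (2 * (h * K) * f + (h * K) ^ 2 * x ^ 2) ≤ f * (2 * (h * K) * f + (h * K) ^ 2 * x ^ 2) :=
        mul_le_mul_of_nonneg_right e1 (by positivity)
      have e3 : C2 * (x - f) - 2 * K * (x - f) ^ 2 ≤ C2 ^ 2 / (8 * K) := by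
        rw [le_div_iff₀ (by positivity)]
        linarith [sq_nonneg (4 * K * (x - f) - C2)]
      have e4 : (x - f) ^ 2 ≤ x ^ 2 - f ^ 2 := by
        have := mul_nonneg hf0 (sub_nonneg.2 hfx)
        linarith
      have e5 : x ^ 2 * f ≤ CH ^ 3 := by
        have : x ^ 2 * f ≤ CH ^ 2 * CH := mul_le_mul (pow_le_pow_left₀ hx0 hxC 2) (hfx.trans hxC) hf0 (by positivity)
        linarith [this, pow_succ CH 2]
      have e6 : C2 * (x - f) - 2 * K * (x ^ 2 - f ^ 2) + K ^ 2 * (x ^ 2 * f) * h + C3 * h ≤ ε := by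
        have e7 : 2 * K * (x - f) ^ 2 ≤ 2 * K * (x ^ 2 - f ^ 2) := mul_le_mul_of_nonneg_left e4 (by positivity)
        have e8 : K ^ 2 * (x ^ 2 * f) * h ≤ K ^ 2 * CH ^ 3 * h :=
          mul_le_mul_of_nonneg_right (mul_le_mul_of_nonneg_left e5 (by positivity)) hh
        rw [hε]
        linarith
      have e9 := mul_le_mul_of_nonneg_left e6 hh
      linarith
    calc _ ≤ (f * (1 - C2 * h) - h * ε) * M := mul_le_mul_of_nonneg_right h1 (by rw [hM']; positivity)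
      _ = N ^ 2 * ((f * (1 - C2 * h) - h * ε) * (1 + 2 * (h * K) * f + (h * K) ^ 2 * x ^ 2)) := by rw [hM']; ring
      _ ≤ N ^ 2 * (f - h * C2 * x + 2 * h * K * x ^ 2 - C3 * h ^ 2) := mul_le_mul_of_nonneg_left h2 hN2.le
      _ = F - h * C2 * (N * Q) + 2 * h * K * Q ^ 2 - C3 * h ^ 2 * N ^ 2 := by rw [hFf, hQx]; ring
      _ ≤ F' := hF'

theorem exp_le_pow {x : ℝ} (h0 : 0 ≤ x) (h1 : x ≤ 1 / 2) (j : ℕ) : Real.exp (-(2 * (x * j))) ≤ (1 - x) ^ j := by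
  have h2 : Real.exp (-(2 * x)) ≤ 1 - x := by
    have h3 : 1 + 2 * x ≤ Real.exp (2 * x) := by linarith [Real.add_one_le_exp (2 * x)]
    rw [Real.exp_neg]
    have h4 : 0 < Real.exp (2 * x) := Real.exp_pos _
    rw [inv_le_iff_one_le_mul₀ h4]
    nlinarith
  have h5 : Real.exp (-(2 * (x * j))) = Real.exp (-(2 * x)) ^ j := by
    rw [← Real.exp_nat_mul]
    congr 1
    ring
  rw [h5]
  exact pow_le_pow_left₀ (Real.exp_pos _).le h2 j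

theorem hm_bound {a b CJ : ℝ} (hC0 : 0 ≤ CJ) (hb : 0 ≤ b) (h : a ≤ CJ * π * b) : a ≤ 4 * CJ * b := by
  have h1 : CJ * π ≤ CJ * 4 := mul_le_mul_of_nonneg_left pi_le_four hC0
  have h2 := mul_le_mul_of_nonneg_right h1 hb
  linarith

variable {H : Type} [NormedAddCommGroup H] [InnerProductSpace ℂ H] [CompleteSpace H]

namespace OD

/-- one step -/
def Stp (O : OD H) (a μ : ℝ) (z : ℝ → H) : ℝ → H := fun s => z s + (a : ℂ) • O.Hm μ z s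

/-- the steps -/
def Ust (O : OD H) (a μ h : ℝ) : ℕ → (ℝ → H) → (ℝ → H)
  | 0, z => z
  | j + 1, z => Stp O a (μ + j * h) (Ust O a μ h j z)

variable {O : OD H} {z z' w : ℝ → H}

theorem Den.stp (hz : O.Den z) (a μ : ℝ) : O.Den (Stp O a μ z) := hz.add ((Den_Hm hz μ).smul _)

theorem Den.ust (hz : O.Den z) (a μ h : ℝ) : ∀ j, O.Den (Ust O a μ h j z)
  | 0 => hz
  | j + 1 => (Den.ust hz a μ h j).stp a _

theorem n2_stp (hz : O.Den z) (a μ : ℝ) :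
    n2 (Stp O a μ z) = nr z ^ 2 + 2 * a * O.Fm μ z z + a ^ 2 * nr (O.Hm μ z) ^ 2 := by
  unfold Stp
  rw [n2_quad hz.cont (cont_Hm hz.cont μ), int_Hm hz, nr_sq, nr_sq]

/-- lower bound of the form after a partial step -/
theorem Fm_stp_ge {CJ C μ μ0 K h σ : ℝ} (hC0 : 0 ≤ CJ) (hC : ∀ s r, ‖O.J s r‖ ≤ CJ) (hCC : 0 ≤ C) (hW : Win O C μ) (hz : O.Den z)
    (h0 : 0 < μ0) (h1 : μ0 ≤ μ) (h2 : μ ≤ 1 / 2) (hF : 0 ≤ O.Fm μ z z) (hK : 0 ≤ K) (hh : 0 ≤ h) (hh1 : h ≤ 1 / 2)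
    (hσ0 : 0 ≤ σ) (hσ1 : σ ≤ 1) :
    O.Fm μ z z - h * (2 * C / Real.sin (π * μ0 / 2)) * (nr z * nr (O.Hm μ z)) + 2 * (σ * (h * K)) * nr (O.Hm μ z) ^ 2 -
      (8 * CJ + 8 * K * CJ * (4 * CJ) + 2 * CJ * K ^ 2 * (4 * CJ) ^ 2) * h ^ 2 * nr z ^ 2 ≤
        O.Fm (μ + h) (Stp O (σ * (h * K)) μ z) (Stp O (σ * (h * K)) μ z) := by
  have hw := Den_Hm hz μ
  unfold Stp
  rw [Fm_quad hz hw]
  obtain ⟨N, hN⟩ : ∃ N, N = nr z := ⟨_, rfl⟩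
  obtain ⟨Q, hQ⟩ : ∃ Q, Q = nr (O.Hm μ z) := ⟨_, rfl⟩
  have hN0 : 0 ≤ N := by rw [hN]; exact nr_nonneg _
  have hQ0 : 0 ≤ Q := by rw [hQ]; exact nr_nonneg _
  have hQN : Q ≤ 4 * CJ * N := by
    rw [hQ, hN]
    exact hm_bound hC0 (nr_nonneg _) (nr_Hm_le hC0 hC hz μ)
  have e1 := abs_le.1 (Fm_taylor hC0 hC hz hz μ hh hh1)
  have e2 := abs_le.1 (Fm_lip hC0 hC hw hz μ hh)
  have e3 := abs_le.1 (abs_Fm_le hC0 hC hw hw (μ + h))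
  have e4 := Dm_ge hCC hW hz h0 h1 h2 hF
  have e5 := Fm_Hm hz μ
  rw [← nr_sq] at e5
  rw [← hN] at e1 e2 e4 ⊢
  rw [← hQ] at e2 e3 e4 e5 ⊢
  obtain ⟨C2, hC2⟩ : ∃ C2, C2 = 2 * C / Real.sin (π * μ0 / 2) := ⟨_, rfl⟩
  rw [← hC2] at e4 ⊢
  have f1 : O.Fm μ z z - h * (C2 * (N * Q)) - 8 * CJ * h ^ 2 * (N * N) ≤ O.Fm (μ + h) z z := by
    have := mul_le_mul_of_nonneg_left e4 hh
    linarith [e1.1]
  have f2 : Q ^ 2 - 4 * CJ * h * (4 * CJ * N * N) ≤ O.Fm (μ + h) (O.Hm μ z) z := by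
    have g1 : 4 * CJ * h * (Q * N) ≤ 4 * CJ * h * (4 * CJ * N * N) :=
      mul_le_mul_of_nonneg_left (mul_le_mul_of_nonneg_right hQN hN0) (by positivity)
    linarith [e2.1]
  have f3 : -(2 * CJ * ((4 * CJ * N) * (4 * CJ * N))) ≤ O.Fm (μ + h) (O.Hm μ z) (O.Hm μ z) := by
    have g1 : 2 * CJ * (Q * Q) ≤ 2 * CJ * ((4 * CJ * N) * (4 * CJ * N)) :=
      mul_le_mul_of_nonneg_left (mul_le_mul hQN hQN hQ0 (by positivity)) (by positivity)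
    linarith [e3.1]
  have hσh : 0 ≤ σ * (h * K) := by positivity
  have g2 := mul_le_mul_of_nonneg_left f2 (by positivity : 0 ≤ 2 * (σ * (h * K)))
  have g3 := mul_le_mul_of_nonneg_left f3 (by positivity : 0 ≤ (σ * (h * K)) ^ 2)
  have g4 : 2 * (σ * (h * K)) * (4 * CJ * h * (4 * CJ * N * N)) ≤ (8 * K * CJ * (4 * CJ)) * h ^ 2 * N ^ 2 := by
    have : σ * (8 * K * CJ * (4 * CJ) * h ^ 2 * N ^ 2) ≤ 1 * (8 * K * CJ * (4 * CJ) * h ^ 2 * N ^ 2) :=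
      mul_le_mul_of_nonneg_right hσ1 (by positivity)
    linarith
  have g5 : (σ * (h * K)) ^ 2 * (2 * CJ * ((4 * CJ * N) * (4 * CJ * N))) ≤ 2 * CJ * K ^ 2 * (4 * CJ) ^ 2 * h ^ 2 * N ^ 2 := by
    have h3 : σ ^ 2 ≤ 1 := pow_le_one₀ hσ0 hσ1
    have : σ ^ 2 * (2 * CJ * K ^ 2 * (4 * CJ) ^ 2 * h ^ 2 * N ^ 2) ≤ 1 * (2 * CJ * K ^ 2 * (4 * CJ) ^ 2 * h ^ 2 * N ^ 2) :=
      mul_le_mul_of_nonneg_right h3 (by positivity)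
    linarith
  linarith

/-- the step theorem for one orbit -/
structure Steps (δ μ0 K h : ℝ) (m : ℕ) (δ' : ℝ) (O : OD H) : Prop where
  start : ∀ z, O.Den z → δ * n2 z ≤ O.Fm 0 z z → (δ / 2) * n2 z ≤ O.Fm μ0 z z
  run : ∀ j l : ℕ, j + l ≤ m → ∀ z, O.Den z → (δ / 8) * n2 z ≤ O.Fm (μ0 + j * h) z z →
    δ' * n2 (Ust O (h * K) (μ0 + j * h) h l z) ≤
      O.Fm (μ0 + (j + l : ℕ) * h) (Ust O (h * K) (μ0 + j * h) h l z) (Ust O (h * K) (μ0 + j * h) h l z) ∧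
      n2 z ≤ n2 (Ust O (h * K) (μ0 + j * h) h l z)
  path : ∀ j : ℕ, j + 1 ≤ m → ∀ z, O.Den z → (δ / 2) * n2 z ≤ O.Fm (μ0 + j * h) z z → ∀ σ : ℝ, 0 ≤ σ → σ ≤ 1 →
    (δ / 8) * n2 (Stp O (σ * (h * K)) (μ0 + j * h) z) ≤
      O.Fm (μ0 + (j + 1 : ℕ) * h) (Stp O (σ * (h * K)) (μ0 + j * h) z) (Stp O (σ * (h * K)) (μ0 + j * h) z) ∧
      n2 z ≤ n2 (Stp O (σ * (h * K)) (μ0 + j * h) z)

end OD

/-- the constants -/
private theorem steps_consts {CJ C δ : ℝ} (hC0 : 0 ≤ CJ) (hCC : 0 ≤ C) (hδ : 0 < δ) :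
    ∃ (μ0 K h : ℝ) (m : ℕ) (C2 C3 η ε : ℝ), 0 < μ0 ∧ μ0 ≤ 1 / 4 ∧ 4 * CJ * μ0 ≤ δ / 2 ∧ C2 = 2 * C / Real.sin (π * μ0 / 2) ∧
      0 ≤ C2 ∧ η = (δ / 8) * Real.exp (-C2) ∧ 0 < η ∧ 0 < K ∧
      C3 = 8 * CJ + 8 * K * CJ * (4 * CJ) + 2 * CJ * K ^ 2 * (4 * CJ) ^ 2 ∧ 0 ≤ C3 ∧ 0 < h ∧ μ0 + m * h = 1 / 2 ∧ h ≤ 1 / 4 ∧
      C2 * h ≤ 1 / 4 ∧ (C2 * (4 * CJ) + C3) * h ≤ δ / 8 ∧ 2 * (h * K) * (4 * CJ) + (h * K) ^ 2 * (4 * CJ) ^ 2 ≤ 1 ∧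
      ε = C2 ^ 2 / (8 * K) + (C3 + K ^ 2 * (4 * CJ) ^ 3) * h ∧ ε ≤ η / 4 ∧ 0 ≤ ε := by
  obtain ⟨μ0, hμ0⟩ : ∃ μ0, μ0 = min (1 / 4) (δ / (8 * (CJ + 1))) := ⟨_, rfl⟩
  have hμpos : 0 < μ0 := by rw [hμ0]; exact lt_min (by norm_num) (by positivity)
  have hμ4 : μ0 ≤ 1 / 4 := by rw [hμ0]; exact min_le_left _ _
  have hμδ : 4 * CJ * μ0 ≤ δ / 2 := by
    have h1 : μ0 ≤ δ / (8 * (CJ + 1)) := by rw [hμ0]; exact min_le_right _ _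
    rw [le_div_iff₀ (by positivity)] at h1
    linarith
  clear hμ0
  obtain ⟨C2, hC2⟩ : ∃ C2, C2 = 2 * C / Real.sin (π * μ0 / 2) := ⟨_, rfl⟩
  have hC2n : 0 ≤ C2 := by
    have hs0 : 0 < Real.sin (π * μ0 / 2) := Real.sin_pos_of_pos_of_lt_pi (by positivity) (by
      have := mul_le_mul_of_nonneg_left hμ4 pi_pos.le
      linarith [pi_pos])
    rw [hC2]
    positivity
  obtain ⟨η, hη⟩ : ∃ η, η = (δ / 8) * Real.exp (-C2) := ⟨_, rfl⟩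
  have hηp : 0 < η := by rw [hη]; positivity
  obtain ⟨K, hK, hKη⟩ : ∃ K : ℝ, 0 < K ∧ C2 ^ 2 / (8 * K) ≤ η / 8 := by
    have hK : 0 < C2 ^ 2 / η + 1 := by positivity
    refine ⟨C2 ^ 2 / η + 1, hK, ?_⟩
    have h1 : C2 ^ 2 ≤ η * (C2 ^ 2 / η + 1) := by
      rw [mul_add, mul_one, mul_div_cancel₀ _ hηp.ne']
      linarith
    rw [div_le_div_iff₀ (by positivity) (by norm_num)]
    linarith
  obtain ⟨C3, hC3⟩ : ∃ C3, C3 = 8 * CJ + 8 * K * CJ * (4 * CJ) + 2 * CJ * K ^ 2 * (4 * CJ) ^ 2 := ⟨_, rfl⟩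
  have hC3n : 0 ≤ C3 := by rw [hC3]; positivity
  obtain ⟨B, hB⟩ : ∃ B, B = C3 + K ^ 2 * (4 * CJ) ^ 3 := ⟨_, rfl⟩
  have hB0 : 0 ≤ B := by rw [hB]; positivity
  obtain ⟨E, hE⟩ : ∃ E, E = C2 * (4 * CJ) + C3 := ⟨_, rfl⟩
  have hE0 : 0 ≤ E := by rw [hE]; positivity
  obtain ⟨T4, hT4⟩ : ∃ T, T = 2 * K * (4 * CJ) + K ^ 2 * (4 * CJ) ^ 2 := ⟨_, rfl⟩
  obtain ⟨G, hG⟩ : ∃ G, G = K ^ 2 * (4 * CJ) ^ 2 := ⟨_, rfl⟩
  have hG0 : 0 ≤ G := by rw [hG]; positivity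
  have hT40 : 0 ≤ T4 := by rw [hT4]; positivity
  obtain ⟨T2, hT2⟩ : ∃ T, T = 8 * B / η := ⟨_, rfl⟩
  have hT20 : 0 ≤ T2 := by rw [hT2]; positivity
  obtain ⟨T3, hT3⟩ : ∃ T, T = 4 * E / δ := ⟨_, rfl⟩
  have hT30 : 0 ≤ T3 := by rw [hT3]; positivity
  obtain ⟨m, hm⟩ := exists_nat_gt (2 * C2 + T2 + T3 + T4 + 2)
  have hm0 : (0 : ℝ) < m := lt_trans (by linarith) hm
  obtain ⟨h, hh⟩ : ∃ h, h = (1 / 2 - μ0) / m := ⟨_, rfl⟩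
  have hhp : 0 < h := by
    rw [hh]
    exact div_pos (by linarith) hm0
  have hmh : μ0 + m * h = 1 / 2 := by
    rw [hh]
    field_simp
    ring
  have hall : (2 * C2 + T2 + T3 + T4 + 2) * h ≤ 1 / 2 := by
    have h1 : m * h ≤ 1 / 2 := by linarith
    exact (mul_le_mul_of_nonneg_right hm.le hhp.le).trans h1
  have k1 : 0 ≤ C2 * h := mul_nonneg hC2n hhp.le
  have k2 : 0 ≤ T2 * h := mul_nonneg hT20 hhp.le
  have k3 : 0 ≤ T3 * h := mul_nonneg hT30 hhp.le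
  have k4 : 0 ≤ T4 * h := mul_nonneg hT40 hhp.le
  clear hm hm0 hh
  have q1 : h ≤ 1 / 4 := by linarith
  have q2 : C2 * h ≤ 1 / 4 := by linarith
  have q3 : B * h ≤ η / 8 := by
    have h1 : T2 * h ≤ 1 / 2 := by linarith
    rw [hT2, div_mul_eq_mul_div, div_le_iff₀ hηp] at h1
    linarith
  have q4 : E * h ≤ δ / 8 := by
    have h1 : T3 * h ≤ 1 / 2 := by linarith
    rw [hT3, div_mul_eq_mul_div, div_le_iff₀ hδ] at h1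
    linarith
  have q5 : 2 * (h * K) * (4 * CJ) + (h * K) ^ 2 * (4 * CJ) ^ 2 ≤ 1 := by
    have h2 : T4 * h ≤ 1 / 2 := by linarith
    have h1 : G * (h * h) ≤ G * (h * 1) := mul_le_mul_of_nonneg_left (mul_le_mul_of_nonneg_left (by linarith) hhp.le) hG0
    have h3 : T4 = 2 * K * (4 * CJ) + G := by rw [hT4, hG]
    have h4 : 2 * (h * K) * (4 * CJ) + (h * K) ^ 2 * (4 * CJ) ^ 2 = 2 * K * (4 * CJ) * h + G * (h * h) := by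
      rw [hG]
      ring
    have h5 : T4 * h = 2 * K * (4 * CJ) * h + G * (h * 1) := by rw [h3]; ring
    rw [h4]
    linarith
  refine ⟨μ0, K, h, m, C2, C3, η, C2 ^ 2 / (8 * K) + B * h, hμpos, hμ4, hμδ, hC2, hC2n, hη, hηp, hK, hC3, hC3n, hhp, hmh, q1, q2,
    by rw [← hE]; exact q4, q5, by rw [hB], by linarith, ?_⟩
  have k5 : 0 ≤ B * h := mul_nonneg hB0 hhp.le
  positivity

section steps

variable {H : Type} [NormedAddCommGroup H] [InnerProductSpace ℂ H] [CompleteSpace H] {O : OD H}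
variable {CJ C δ μ0 K h C2 C3 η ε : ℝ} {m : ℕ}

private theorem steps_one (hC0 : 0 ≤ CJ) (hCC : 0 ≤ C) (hJ : ∀ s r, ‖O.J s r‖ ≤ CJ) (hμpos : 0 < μ0)
    (hC2 : C2 = 2 * C / Real.sin (π * μ0 / 2)) (hC2n : 0 ≤ C2) (hηp : 0 < η) (hK : 0 < K)
    (hC3 : C3 = 8 * CJ + 8 * K * CJ * (4 * CJ) + 2 * CJ * K ^ 2 * (4 * CJ) ^ 2) (hC3n : 0 ≤ C3) (hhp : 0 < h)
    (q1 : h ≤ 1 / 4) (q2 : C2 * h ≤ 1 / 4) (hε' : C2 ^ 2 / (8 * K) + (C3 + K ^ 2 * (4 * CJ) ^ 3) * h = ε) (hεη : ε ≤ η / 4)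
    (hε0 : 0 ≤ ε) {μ ρ : ℝ} {y : ℝ → H} (hz' : O.Den y) (hμ1 : μ0 ≤ μ) (hμ2 : μ ≤ 1 / 2) (hW : OD.Win O C μ) (hρη : η / 2 ≤ ρ)
    (h1 : ρ * OD.n2 y ≤ O.Fm μ y y) :
    (ρ * (1 - C2 * h) - h * ε) * OD.n2 (OD.Stp O (h * K) μ y) ≤ O.Fm (μ + h) (OD.Stp O (h * K) μ y) (OD.Stp O (h * K) μ y) ∧
      OD.n2 y ≤ OD.n2 (OD.Stp O (h * K) μ y) := by
  have hρ0 : 0 ≤ ρ := by linarith
  have hF0 : 0 ≤ O.Fm μ y y := (mul_nonneg hρ0 (OD.n2_nonneg y)).trans h1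
  have g1 := OD.Fm_stp_ge (σ := 1) hC0 hJ hCC hW hz' hμpos hμ1 hμ2 hF0 hK.le hhp.le (by linarith) (by norm_num) (le_refl _)
  rw [one_mul, ← hC2, ← hC3] at g1
  have g2 := OD.n2_stp hz' (h * K) μ
  have hQN : OD.nr (O.Hm μ y) ≤ 4 * CJ * OD.nr y :=
    hm_bound hC0 (OD.nr_nonneg _) (OD.nr_Hm_le hC0 hJ hz' μ)
  have hFQ := OD.Fm_le_mul hz' hz' μ
  have hN0 := OD.nr_nonneg y
  have hQ0 := OD.nr_nonneg (O.Hm μ y)
  have hn2 := OD.nr_sq y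
  rw [← hn2] at h1
  obtain ⟨N, hN⟩ : ∃ N, N = OD.nr y := ⟨_, rfl⟩
  obtain ⟨Q, hQ⟩ : ∃ Q, Q = OD.nr (O.Hm μ y) := ⟨_, rfl⟩
  obtain ⟨F, hF⟩ : ∃ F, F = O.Fm μ y y := ⟨_, rfl⟩
  obtain ⟨F', hF'⟩ : ∃ F', F' = O.Fm (μ + h) (OD.Stp O (h * K) μ y) (OD.Stp O (h * K) μ y) := ⟨_, rfl⟩
  obtain ⟨M, hM⟩ : ∃ M, M = OD.n2 (OD.Stp O (h * K) μ y) := ⟨_, rfl⟩
  rw [← hn2, ← hM]
  simp only [← hN, ← hQ, ← hF, ← hF', ← hM] at h1 g1 g2 hQN hFQ hN0 hQ0 hF0 ⊢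
  clear hN hQ hF hF' hM hn2 hJ hW hz' hC2 hC3
  have g3 : 0 ≤ ρ * (1 - C2 * h) - h * (C2 ^ 2 / (8 * K) + (C3 + K ^ 2 * (4 * CJ) ^ 3) * h) := by
    rw [hε']
    have e1 : ρ * (1 / 2) ≤ ρ * (1 - C2 * h) := mul_le_mul_of_nonneg_left (by linarith) hρ0
    have e2 : h * ε ≤ 1 / 4 * (η / 4) := mul_le_mul q1 hεη hε0 (by norm_num)
    linarith
  have g4 := real_step (N := N) (Q := Q) (F := F) hN0 hQ0 hQN hFQ h1 hρ0 hK hC2n hC3n (by positivity) hhp.le (by linarith)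
    (F' := F') (by linarith) g2 g3
  rw [hε'] at g4
  refine ⟨g4, ?_⟩
  rw [g2]
  have e1 : 0 ≤ 2 * (h * K) * F := by positivity
  have e2 : 0 ≤ (h * K) ^ 2 * Q ^ 2 := by positivity
  linarith

private theorem steps_bound (hη : η = (δ / 8) * Real.exp (-C2)) (hδ : 0 < δ) (hηp : 0 < η) (hC2n : 0 ≤ C2) (hμpos : 0 < μ0)
    (hhp : 0 < h) (q2 : C2 * h ≤ 1 / 4) (hmh : μ0 + m * h = 1 / 2) (hεη : ε ≤ η / 4) (hε0 : 0 ≤ ε) {i : ℕ} (hi : i ≤ m) :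
    η / 2 ≤ (δ / 8) * (1 - C2 * h) ^ i - i * (h * ε) := by
  have hmono : (i : ℝ) * h ≤ 1 / 2 := by
    have h1 : (i : ℝ) ≤ m := by exact_mod_cast hi
    have h2 : (i : ℝ) * h ≤ m * h := mul_le_mul_of_nonneg_right h1 hhp.le
    linarith
  have h1 := exp_le_pow (mul_nonneg hC2n hhp.le) (by linarith) i
  have h2 : Real.exp (-C2) ≤ Real.exp (-(2 * (C2 * h * i))) := by
    refine Real.exp_le_exp.2 (neg_le_neg ?_)
    have := mul_le_mul_of_nonneg_left hmono hC2n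
    linarith
  have h3 : η ≤ (δ / 8) * (1 - C2 * h) ^ i := by
    rw [hη]
    exact mul_le_mul_of_nonneg_left (h2.trans h1) (by positivity)
  have h4 : (i : ℝ) * (h * ε) ≤ 1 / 2 * (η / 4) := by
    rw [← mul_assoc]
    exact mul_le_mul hmono hεη hε0 (by norm_num)
  linarith

private theorem steps_run (hC0 : 0 ≤ CJ) (hCC : 0 ≤ C) (hδ : 0 < δ) (hJ : ∀ s r, ‖O.J s r‖ ≤ CJ) (hμpos : 0 < μ0)
    (hC2 : C2 = 2 * C / Real.sin (π * μ0 / 2)) (hC2n : 0 ≤ C2) (hη : η = (δ / 8) * Real.exp (-C2)) (hηp : 0 < η) (hK : 0 < K)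
    (hC3 : C3 = 8 * CJ + 8 * K * CJ * (4 * CJ) + 2 * CJ * K ^ 2 * (4 * CJ) ^ 2) (hC3n : 0 ≤ C3) (hhp : 0 < h)
    (hmh : μ0 + m * h = 1 / 2)
    (q1 : h ≤ 1 / 4) (q2 : C2 * h ≤ 1 / 4) (hε' : C2 ^ 2 / (8 * K) + (C3 + K ^ 2 * (4 * CJ) ^ 3) * h = ε) (hεη : ε ≤ η / 4)
    (hε0 : 0 ≤ ε) (hWin : ∀ μ, 0 ≤ μ → μ ≤ 1 / 2 → OD.Win O C μ) {j : ℕ} {z : ℝ → H} (hz : O.Den z)
    (hF : (δ / 8) * OD.n2 z ≤ O.Fm (μ0 + j * h) z z) (i : ℕ) (hi : j + i ≤ m) :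
    ((δ / 8) * (1 - C2 * h) ^ i - i * (h * ε)) * OD.n2 (OD.Ust O (h * K) (μ0 + j * h) h i z) ≤
      O.Fm (μ0 + (j + i : ℕ) * h) (OD.Ust O (h * K) (μ0 + j * h) h i z) (OD.Ust O (h * K) (μ0 + j * h) h i z) ∧
    OD.n2 z ≤ OD.n2 (OD.Ust O (h * K) (μ0 + j * h) h i z) := by
  induction i with
  | zero =>
    rw [add_zero, pow_zero, Nat.cast_zero, zero_mul, sub_zero, mul_one]
    exact ⟨hF, le_refl _⟩
  | succ i ih =>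
    obtain ⟨h1, h2⟩ := ih (by omega)
    have hz' := hz.ust (h * K) (μ0 + j * h) h i
    obtain ⟨y, hy⟩ : ∃ y, y = OD.Ust O (h * K) (μ0 + j * h) h i z := ⟨_, rfl⟩
    have hs : OD.Ust O (h * K) (μ0 + j * h) h (i + 1) z = OD.Stp O (h * K) (μ0 + (j + i : ℕ) * h) y := by
      rw [hy]
      show OD.Stp O (h * K) (μ0 + j * h + i * h) _ = _
      congr 1
      push_cast
      ring
    rw [hs]
    rw [← hy] at h1 h2 hz'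
    obtain ⟨μ, hμ⟩ : ∃ μ : ℝ, μ = μ0 + (j + i : ℕ) * h := ⟨_, rfl⟩
    have hμ' : μ0 + (j + (i + 1) : ℕ) * h = μ + h := by
      rw [hμ]
      push_cast
      ring
    rw [hμ', ← hμ]
    rw [← hμ] at h1
    have hji : ((j + i : ℕ) : ℝ) * h ≤ 1 / 2 - μ0 := by
      have h3 : ((j + i : ℕ) : ℝ) ≤ m := by exact_mod_cast (by omega : j + i ≤ m)
      have h4 := mul_le_mul_of_nonneg_right h3 hhp.le
      linarith
    have hμ1 : μ0 ≤ μ := by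
      rw [hμ]
      have : 0 ≤ ((j + i : ℕ) : ℝ) * h := by positivity
      linarith
    have hμ2 : μ ≤ 1 / 2 := by rw [hμ]; linarith
    have hb := steps_bound hη hδ hηp hC2n hμpos hhp q2 hmh hεη hε0 (i := i) (by omega)
    obtain ⟨g4, g5⟩ := steps_one hC0 hCC hJ hμpos hC2 hC2n hηp hK hC3 hC3n hhp q1 q2 hε' hεη hε0 hz' hμ1 hμ2
      (hWin μ (by linarith) hμ2) hb h1
    refine ⟨?_, h2.trans g5⟩
    refine le_trans (mul_le_mul_of_nonneg_right ?_ (OD.n2_nonneg _)) g4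
    rw [pow_succ]
    push_cast
    have e1 : 0 ≤ i * (h * ε) * (C2 * h) := by positivity
    linarith

private theorem steps_path (hC0 : 0 ≤ CJ) (hCC : 0 ≤ C) (hδ : 0 < δ) (hJ : ∀ s r, ‖O.J s r‖ ≤ CJ) (hμpos : 0 < μ0)
    (hC2 : C2 = 2 * C / Real.sin (π * μ0 / 2)) (hC2n : 0 ≤ C2) (hK : 0 < K)
    (hC3 : C3 = 8 * CJ + 8 * K * CJ * (4 * CJ) + 2 * CJ * K ^ 2 * (4 * CJ) ^ 2) (hC3n : 0 ≤ C3) (hhp : 0 < h)
    (q1 : h ≤ 1 / 4) (q4 : (C2 * (4 * CJ) + C3) * h ≤ δ / 8)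
    (q5 : 2 * (h * K) * (4 * CJ) + (h * K) ^ 2 * (4 * CJ) ^ 2 ≤ 1) {μ : ℝ} {z : ℝ → H} (hz : O.Den z) (hμ1 : μ0 ≤ μ)
    (hμ2 : μ ≤ 1 / 2) (hW : OD.Win O C μ) (hF : (δ / 2) * OD.n2 z ≤ O.Fm μ z z) {σ : ℝ} (hσ0 : 0 ≤ σ) (hσ1 : σ ≤ 1) :
    (δ / 8) * OD.n2 (OD.Stp O (σ * (h * K)) μ z) ≤
      O.Fm (μ + h) (OD.Stp O (σ * (h * K)) μ z) (OD.Stp O (σ * (h * K)) μ z) ∧
      OD.n2 z ≤ OD.n2 (OD.Stp O (σ * (h * K)) μ z) := by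
  have hF0 : 0 ≤ O.Fm μ z z := (mul_nonneg (by positivity) (OD.n2_nonneg z)).trans hF
  have g1 := OD.Fm_stp_ge (σ := σ) hC0 hJ hCC hW hz hμpos hμ1 hμ2 hF0 hK.le hhp.le (by linarith) hσ0 hσ1
  rw [← hC2, ← hC3] at g1
  have g2 := OD.n2_stp hz (σ * (h * K)) μ
  have hQN : OD.nr (O.Hm μ z) ≤ 4 * CJ * OD.nr z :=
    hm_bound hC0 (OD.nr_nonneg _) (OD.nr_Hm_le hC0 hJ hz μ)
  have hN0 := OD.nr_nonneg z
  have hQ0 := OD.nr_nonneg (O.Hm μ z)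
  have hFQ := OD.Fm_le_mul hz hz μ
  rw [← OD.nr_sq] at hF
  rw [g2, ← OD.nr_sq z]
  obtain ⟨N, hN⟩ : ∃ N, N = OD.nr z := ⟨_, rfl⟩
  obtain ⟨Q, hQ⟩ : ∃ Q, Q = OD.nr (O.Hm μ z) := ⟨_, rfl⟩
  obtain ⟨F, hFd⟩ : ∃ F, F = O.Fm μ z z := ⟨_, rfl⟩
  obtain ⟨F', hF'⟩ : ∃ F', F' = O.Fm (μ + h) (OD.Stp O (σ * (h * K)) μ z) (OD.Stp O (σ * (h * K)) μ z) := ⟨_, rfl⟩
  simp only [← hN, ← hQ, ← hFd, ← hF'] at g1 hQN hF hFQ hN0 hQ0 hF0 ⊢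
  clear hN hQ hFd hF' g2 hJ hW hz hC2 hC3
  obtain ⟨a, ha⟩ : ∃ a, a = σ * (h * K) := ⟨_, rfl⟩
  obtain ⟨a0, ha0⟩ : ∃ a0, a0 = h * K := ⟨_, rfl⟩
  have hah : 0 ≤ a0 := by rw [ha0]; positivity
  have e0 : a ≤ a0 := by rw [ha, ← ha0]; exact mul_le_of_le_one_left hah hσ1
  have e00 : 0 ≤ a := by rw [ha, ← ha0]; exact mul_nonneg hσ0 hah
  rw [← ha0] at q5
  rw [← ha] at g1 ⊢
  clear ha ha0
  have e1 : 2 * a * F + a ^ 2 * Q ^ 2 ≤ N ^ 2 := by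
    have f1 : F ≤ 4 * CJ * N ^ 2 := by
      have := mul_le_mul_of_nonneg_right hQN hN0
      linarith
    have f2 : Q ^ 2 ≤ (4 * CJ) ^ 2 * N ^ 2 := by
      rw [← mul_pow]
      exact pow_le_pow_left₀ hQ0 hQN 2
    have f3 : 2 * a * F ≤ 2 * a0 * (4 * CJ * N ^ 2) :=
      mul_le_mul (by linarith) f1 hF0 (by positivity)
    have f4 : a ^ 2 * Q ^ 2 ≤ a0 ^ 2 * ((4 * CJ) ^ 2 * N ^ 2) :=
      mul_le_mul (pow_le_pow_left₀ e00 e0 2) f2 (by positivity) (by positivity)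
    have f5 := mul_le_mul_of_nonneg_right q5 (sq_nonneg N)
    linarith
  have e2 : (δ / 4) * N ^ 2 ≤ F' := by
    have f1 : h * C2 * (N * Q) ≤ h * C2 * (4 * CJ * N ^ 2) := by
      refine mul_le_mul_of_nonneg_left ?_ (mul_nonneg hhp.le hC2n)
      have := mul_le_mul_of_nonneg_left hQN hN0
      linarith
    have f2 : C3 * h ^ 2 * N ^ 2 ≤ C3 * h * N ^ 2 := by
      refine mul_le_mul_of_nonneg_right (mul_le_mul_of_nonneg_left ?_ hC3n) (sq_nonneg N)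
      have := mul_le_mul_of_nonneg_left q1 hhp.le
      linarith
    have f3 : (C2 * (4 * CJ) + C3) * h * N ^ 2 ≤ δ / 8 * N ^ 2 := mul_le_mul_of_nonneg_right q4 (sq_nonneg N)
    have f4 : 0 ≤ 2 * a * Q ^ 2 := by positivity
    have f5 : 0 ≤ δ * N ^ 2 := by positivity
    linarith
  refine ⟨?_, ?_⟩
  · have f1 : N ^ 2 + 2 * a * F + a ^ 2 * Q ^ 2 ≤ 2 * N ^ 2 := by linarith
    have f2 := mul_le_mul_of_nonneg_left f1 (by positivity : 0 ≤ δ / 8)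
    linarith
  · have f1 : 0 ≤ 2 * a * F := by positivity
    have f2 : 0 ≤ a ^ 2 * Q ^ 2 := by positivity
    linarith

end steps

/-- **the steps**: the constants depend only on `CJ`, `C`, `δ` -/
theorem exists_steps {CJ C δ : ℝ} (hC0 : 0 ≤ CJ) (hCC : 0 ≤ C) (hδ : 0 < δ) :
    ∃ (μ0 K h : ℝ) (m : ℕ) (δ' : ℝ), 0 < μ0 ∧ μ0 < 1 / 2 ∧ 0 < K ∧ 0 < h ∧ μ0 + m * h = 1 / 2 ∧ 0 < δ' ∧
      ∀ (H : Type) [NormedAddCommGroup H] [InnerProductSpace ℂ H] [CompleteSpace H] (O : OD H),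
        (∀ s r, ‖O.J s r‖ ≤ CJ) → (∀ μ, 0 ≤ μ → μ ≤ 1 / 2 → OD.Win O C μ) → OD.Steps δ μ0 K h m δ' O := by
  obtain ⟨μ0, K, h, m, C2, C3, η, ε, hμpos, hμ4, hμδ, hC2, hC2n, hη, hηp, hK, hC3, hC3n, hhp, hmh, q1, q2, q4, q5, hε, hεη, hε0⟩ :=
    steps_consts hC0 hCC hδ
  refine ⟨μ0, K, h, m, η / 2, hμpos, by linarith, hK, hhp, hmh, by positivity, ?_⟩
  intro H _ _ _ O hJ hWin
  refine ⟨?_, ?_, ?_⟩
  · -- the start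
    intro z hz hF
    have h1 := abs_le.1 (OD.Fm_lip hC0 hJ hz hz 0 hμpos.le)
    rw [zero_add, ← pow_two, OD.nr_sq] at h1
    have h2 : 4 * CJ * μ0 * OD.n2 z ≤ δ / 2 * OD.n2 z := mul_le_mul_of_nonneg_right hμδ (OD.n2_nonneg z)
    linarith [h1.1]
  · -- the run
    intro j l hl z hz hF
    obtain ⟨h1, h2⟩ := steps_run hC0 hCC hδ hJ hμpos hC2 hC2n hη hηp hK hC3 hC3n hhp hmh q1 q2 hε.symm hεη hε0 hWin hz hF l hl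
    have hb := steps_bound hη hδ hηp hC2n hμpos hhp q2 hmh hεη hε0 (i := l) (by omega)
    exact ⟨le_trans (mul_le_mul_of_nonneg_right hb (OD.n2_nonneg _)) h1, h2⟩
  · -- the path
    intro j hj z hz hF σ hσ0 hσ1
    have hμ' : μ0 + (j + 1 : ℕ) * h = μ0 + j * h + h := by
      push_cast
      ring
    rw [hμ']
    have hji : (j : ℝ) * h ≤ 1 / 2 - μ0 := by
      have h3 : (j : ℝ) ≤ m := by exact_mod_cast (by omega : j ≤ m)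
      have h4 := mul_le_mul_of_nonneg_right h3 hhp.le
      linarith
    have hj0 : 0 ≤ (j : ℝ) * h := by positivity
    exact steps_path hC0 hCC hδ hJ hμpos hC2 hC2n hK hC3 hC3n hhp q1 q4 q5 hz (by linarith) (by linarith)
      (hWin _ (by linarith) (by linarith)) hF hσ0 hσ1

end Pool.Agent.Lib.MP_ccbbf6_gt.K7.GG
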