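import Pool.Agent.Lib.MP_ccbbf6_gt.K7.DP5
import Pool.Agent.Lib.MP_ccbbf6_gt.K7.DP6a
import Pool.Agent.Lib.MP_ccbbf6_gt.K7.GG4
import Pool.Agent.Lib.MP_ccbbf6_gt.K7.GJ2

/-!
# `κ = 7`, density path, part 7: smooth families of densities

`F` : parameters, `σ : F → Gs M` a smooth family of geodesics; a smooth family of densities is `u : F → ℝ → HC t.D` (or `HR t.D`)
with `ContDiff ℝ ∞ fun p : F × ℝ => u p.1 p.2`. All constructions of the density path preserve smooth families.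

Proofs: `Jr_smooth`, `Tr_smooth`, `Pr_smooth` (GJ1) along `(v, s) ↦ shift s (σ v)` (`SmGAt` of shifts: `SmG.shift` / `SmGAt.shift`),
`cxL` is linear (hence smooth), `contDiff_param` (L4/SM3) for the integrals over `r ∈ [0, π]` with parameters `(v, s)`.
-/

set_option autoImplicit false
set_option linter.unusedSectionVars false

open Set Filter Topology Metric Real Module
open scoped ContDiff RealInnerProductSpace

noncomputable section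

namespace Pool.Agent.Lib.MP_ccbbf6_gt.K7.DP

open L4 Geo L4.ORI L5 L5.NEG RG HQ GG

variable {n : ℕ} {M : Type} [MetricSpace M] [CompactSpace M] {𝒜 : SDist n M} [Nonempty (Gs M)]
variable (t : TEmb 𝒜) (hB : Bl M) (e : Emb n 𝒜) {κ : ℕ} (hk : 𝒜.HK κ)
variable {F : Type} [NormedAddCommGroup F] [NormedSpace ℝ F] {σ : F → Gs M}

section base

variable {G : Type} [NormedAddCommGroup G] [NormedSpace ℝ G]

include hB in
theorem sf_sh (hσ : ∀ v, SmGAt 𝒜 σ v) {g : G → F} {r : G → ℝ} (hg : ContDiff ℝ ∞ g) (hr : ContDiff ℝ ∞ r) (u : G) :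
    SmGAt 𝒜 (fun v => shift (r v) (σ (g v))) u :=
  SmGAt.shift hB (SmGAt.comp (hσ (g u)) hg.contDiffAt) hr.contDiffAt

include hk in
theorem sf_Jr (hσ : ∀ v, SmGAt 𝒜 σ v) {g : G → F} {r b : G → ℝ} (hg : ContDiff ℝ ∞ g) (hr : ContDiff ℝ ∞ r)
    (hb : ContDiff ℝ ∞ b) : ContDiff ℝ ∞ fun v => Jr t hB (shift (r v) (σ (g v))) (b v) :=
  contDiff_iff_contDiffAt.2 fun u => Jr_smooth t hB hk (sf_sh hB hσ hg hr u) hb.contDiffAt

include hk in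
theorem sf_Tr (hσ : ∀ v, SmGAt 𝒜 σ v) {g : G → F} {r : G → ℝ} (hg : ContDiff ℝ ∞ g) (hr : ContDiff ℝ ∞ r) :
    ContDiff ℝ ∞ fun v => Tr t hB (shift (r v) (σ (g v))) :=
  contDiff_iff_contDiffAt.2 fun u => Tr_smooth t hB hk (sf_sh hB hσ hg hr u)

include hB hk in
theorem sf_Pr (hσ : ∀ v, SmGAt 𝒜 σ v) {g : G → F} {r : G → ℝ} (hg : ContDiff ℝ ∞ g) (hr : ContDiff ℝ ∞ r) :
    ContDiff ℝ ∞ fun v => Pr t (shift (r v) (σ (g v))) :=
  contDiff_iff_contDiffAt.2 fun u => Pr_smooth t hB hk (sf_sh hB hσ hg hr u)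

theorem sf_cxL {D : ℕ} {A : G → HR D →L[ℝ] HR D} {z : G → HC D} (hA : ContDiff ℝ ∞ A) (hz : ContDiff ℝ ∞ z) :
    ContDiff ℝ ∞ fun v => cxL D (A v) (z v) := by
  have h1 : ContDiff ℝ ∞ fun v => cx D (A v (reH D (z v))) := (cx D).contDiff.comp (hA.clm_apply ((reH D).contDiff.comp hz))
  have h2 : ContDiff ℝ ∞ fun v => cx D (A v (imH D (z v))) := (cx D).contDiff.comp (hA.clm_apply ((imH D).contDiff.comp hz))
  exact h1.add (h2.const_smul Complex.I)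

theorem sf_exp {g : G → ℝ} (hg : ContDiff ℝ ∞ g) : ContDiff ℝ ∞ fun v => Complex.exp (Complex.I * ((g v : ℝ) : ℂ)) := by
  have h1 : ContDiff ℝ ∞ fun v => ((g v : ℝ) : ℂ) := Complex.ofRealCLM.contDiff.comp hg
  exact (contDiff_const.mul h1).cexp

end base

theorem sf_er (hσ : ∀ v, SmGAt 𝒜 σ v) {Y : F → ℝ → HR t.D} (hY : ContDiff ℝ ∞ fun p : F × ℝ => Y p.1 p.2) :
    ContDiff ℝ ∞ fun p : F × ℝ => (orb t hB e hk (σ p.1)).er (Y p.1) p.2 := by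
  have h1 : ContDiff ℝ ∞ fun q : (F × ℝ) × ℝ => Jr t hB (shift q.1.2 (σ q.1.1)) q.2 :=
    sf_Jr t hB hk hσ (contDiff_fst.comp contDiff_fst) (contDiff_snd.comp contDiff_fst) contDiff_snd
  have h2 : ContDiff ℝ ∞ fun q : (F × ℝ) × ℝ => Y q.1.1 (q.1.2 + q.2) :=
    hY.comp ((contDiff_fst.comp contDiff_fst).prodMk ((contDiff_snd.comp contDiff_fst).add contDiff_snd))
  exact contDiff_param (h1.clm_apply h2) 0 π

theorem sf_Hm (hσ : ∀ v, SmGAt 𝒜 σ v) {u : F → ℝ → HC t.D} (hu : ContDiff ℝ ∞ fun p : F × ℝ => u p.1 p.2) (μ : ℝ) :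
    ContDiff ℝ ∞ fun p : F × ℝ => (orb t hB e hk (σ p.1)).od.Hm μ (u p.1) p.2 := by
  have h1 : ContDiff ℝ ∞ fun q : (F × ℝ) × ℝ => Jr t hB (shift q.1.2 (σ q.1.1)) q.2 :=
    sf_Jr t hB hk hσ (contDiff_fst.comp contDiff_fst) (contDiff_snd.comp contDiff_fst) contDiff_snd
  have h2 : ContDiff ℝ ∞ fun q : (F × ℝ) × ℝ => u q.1.1 (q.1.2 + q.2) :=
    hu.comp ((contDiff_fst.comp contDiff_fst).prodMk ((contDiff_snd.comp contDiff_fst).add contDiff_snd))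
  have h3 : ContDiff ℝ ∞ fun q : (F × ℝ) × ℝ => (starRingEnd ℂ) (ph μ q.2) := by
    have h4 : ContDiff ℝ ∞ fun q : (F × ℝ) × ℝ => μ * (π / 2 - q.2) := contDiff_const.mul (contDiff_const.sub contDiff_snd)
    exact Complex.conjCLE.contDiff.comp (sf_exp h4)
  have h5 := contDiff_param (h3.smul (sf_cxL h1 h2)) 0 π
  exact h5.const_smul (-(1 / 2) : ℝ)

theorem sf_stp (hσ : ∀ v, SmGAt 𝒜 σ v) {u : F → ℝ → HC t.D} (hu : ContDiff ℝ ∞ fun p : F × ℝ => u p.1 p.2) {a : F → ℝ}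
    (ha : ContDiff ℝ ∞ a) (μ : ℝ) :
    ContDiff ℝ ∞ fun p : F × ℝ => OD.Stp (orb t hB e hk (σ p.1)).od (a p.1) μ (u p.1) p.2 := by
  have h1 : ContDiff ℝ ∞ fun p : F × ℝ => ((a p.1 : ℝ) : ℂ) := Complex.ofRealCLM.contDiff.comp (ha.comp contDiff_fst)
  exact hu.add (h1.smul (sf_Hm t hB e hk hσ hu μ))

theorem sf_ust (hσ : ∀ v, SmGAt 𝒜 σ v) {u : F → ℝ → HC t.D} (hu : ContDiff ℝ ∞ fun p : F × ℝ => u p.1 p.2) (a μ h : ℝ) (l : ℕ) :
    ContDiff ℝ ∞ fun p : F × ℝ => OD.Ust (orb t hB e hk (σ p.1)).od a μ h l (u p.1) p.2 := by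
  induction l with
  | zero => exact hu
  | succ l ih =>
    exact sf_stp t hB e hk hσ (u := fun v => OD.Ust (orb t hB e hk (σ v)).od a μ h l (u v)) ih (a := fun _ => a) contDiff_const
      (μ + l * h)

theorem sf_tw {u : F → ℝ → HC t.D} (hu : ContDiff ℝ ∞ fun p : F × ℝ => u p.1 p.2) (μ : ℝ) :
    ContDiff ℝ ∞ fun p : F × ℝ => RD.tw μ (u p.1) p.2 := by
  have h1 : ContDiff ℝ ∞ fun p : F × ℝ => μ * p.2 := contDiff_const.mul contDiff_snd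
  exact (sf_exp h1).smul hu

/-- the bump densities -/
theorem sf_bmp (hσ : ∀ v, SmGAt 𝒜 σ v) {h : ℝ → ℝ} (hh : ContDiff ℝ ∞ h) {v : F → HC t.D} (hv : ContDiff ℝ ∞ v) :
    ContDiff ℝ ∞ fun p : F × ℝ => OD.bmp (orb t hB e hk (σ p.1)).od h (v p.1) p.2 := by
  have hs : ContDiff ℝ ∞ fun p : F × ℝ => p.2 - π := contDiff_snd.sub contDiff_const
  have h1 : ContDiff ℝ ∞ fun p : F × ℝ => ((h p.2 : ℝ) : ℂ) := Complex.ofRealCLM.contDiff.comp (hh.comp contDiff_snd)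
  have h2 : ContDiff ℝ ∞ fun p : F × ℝ => ((h (p.2 - π) : ℝ) : ℂ) := Complex.ofRealCLM.contDiff.comp (hh.comp hs)
  have h3 : ContDiff ℝ ∞ fun p : F × ℝ => Pr t (shift p.2 (σ p.1)) := sf_Pr t hB hk hσ contDiff_fst contDiff_snd
  have h4 : ContDiff ℝ ∞ fun p : F × ℝ => Pr t (shift (p.2 - π) (σ p.1)) := sf_Pr t hB hk hσ contDiff_fst hs
  have h5 : ContDiff ℝ ∞ fun p : F × ℝ => Tr t hB (shift (p.2 - π) (σ p.1)) := sf_Tr t hB hk hσ contDiff_fst hs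
  have hv' : ContDiff ℝ ∞ fun p : F × ℝ => v p.1 := hv.comp contDiff_fst
  exact (h1.smul (sf_cxL h3 hv')).sub (h2.smul (sf_cxL h5 (sf_cxL h4 hv')))

include hB in
/-- the traces of sections with parameters -/
theorem sf_ts (hσ : ∀ v, SmGAt 𝒜 σ v) {w : F → Gs M → Eu n}
    (hw : ∀ {F' : Type} [NormedAddCommGroup F'] [NormedSpace ℝ F'] {τ : F' → Gs M} {g : F' → F} {u : F'} {p : M},
      SmGAt 𝒜 τ u → ContDiffAt ℝ ∞ g u → (τ u).1 0 ∈ (𝒜.ψ p).source →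
      SmV 𝒜 p (fun v => (τ v).1 0) (fun v => w (g v) (τ v)) u) :
    ContDiff ℝ ∞ fun p : F × ℝ => ts t (w p.1) (σ p.1) p.2 := by
  refine contDiff_iff_contDiffAt.2 fun q => ?_
  have h1 : SmGAt 𝒜 (fun p : F × ℝ => shift p.2 (σ p.1)) q := sf_sh hB hσ contDiff_fst contDiff_snd q
  have h2 := hw (p := (shift q.2 (σ q.1)).1 0) h1 (contDiff_fst (𝕜 := ℝ) (E := F) (F := ℝ)).contDiffAt (𝒜.mem _)
  exact sm_tI t h1.1 (𝒜.mem _) h2

/-- twice the odd part -/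
theorem sf_odd (hσ : ∀ v, SmGAt 𝒜 σ v) {Y : F → ℝ → HR t.D} (hY : ContDiff ℝ ∞ fun p : F × ℝ => Y p.1 p.2) :
    ContDiff ℝ ∞ fun p : F × ℝ => Y p.1 p.2 - (orb t hB e hk (σ p.1)).T (p.2 - π) (Y p.1 (p.2 - π)) := by
  have hs : ContDiff ℝ ∞ fun p : F × ℝ => p.2 - π := contDiff_snd.sub contDiff_const
  have h5 : ContDiff ℝ ∞ fun p : F × ℝ => Tr t hB (shift (p.2 - π) (σ p.1)) := sf_Tr t hB hk hσ contDiff_fst hs
  have h2 : ContDiff ℝ ∞ fun p : F × ℝ => Y p.1 (p.2 - π) := hY.comp (contDiff_fst.prodMk hs)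
  exact hY.sub (h5.clm_apply h2)

/-- the 8-gons of velocities -/
theorem smV_XE (hσ : ∀ v, SmGAt 𝒜 σ v) {Y : F → ℝ → HR t.D} (hY : ContDiff ℝ ∞ fun p : F × ℝ => Y p.1 p.2) (i : ZMod 8)
    {u : F} {p : M} (hp : b8 (σ u) i ∈ (𝒜.ψ p).source) :
    SmV 𝒜 p (fun v => b8 (σ v) i) (fun v => XE t hB (σ v) (Y v) i) u := by
  have hb8 : ∀ v, b8 (σ v) i = (shift (t8 i) (σ v)).1 0 := fun v => by
    show (σ v).1 (t8 i) = (σ v).1 (0 + t8 i)
    rw [zero_add]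
  obtain ⟨f, hf⟩ : ∃ f : F × ℝ → HR t.D, f = fun q => tI t ((shift (t8 i) (σ q.1)).1 0)
      (JG 𝒜 hB (shift (t8 i) (σ q.1)) q.2 (tA t ((shift q.2 (shift (t8 i) (σ q.1))).1 0) (Y q.1 (t8 i + q.2)))) := ⟨_, rfl⟩
  have hfs : ContDiff ℝ ∞ f := by
    rw [hf]
    refine contDiff_iff_contDiffAt.2 fun q => ?_
    have h1 : SmGAt 𝒜 (fun q : F × ℝ => shift (t8 i) (σ q.1)) q := sf_sh hB hσ contDiff_fst contDiff_const q
    have h2 : SmGAt 𝒜 (fun q : F × ℝ => shift q.2 (shift (t8 i) (σ q.1))) q := SmGAt.shift hB h1 contDiffAt_snd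
    have h3 : ContDiff ℝ ∞ fun q : F × ℝ => Y q.1 (t8 i + q.2) :=
      hY.comp (contDiff_fst.prodMk (contDiff_const.add contDiff_snd))
    have h4 := smV_tA t h2.1 (𝒜.mem _) h3.contDiffAt (u := q)
    have h5 := smV_JG hB h1 (contDiffAt_snd (𝕜 := ℝ) (E := F) (F := ℝ)) (𝒜.mem _) (𝒜.mem _) h4
    exact sm_tI t h1.1 (𝒜.mem _) h5
  have hI := contDiff_param hfs 0 π
  have hXE : ∀ v, XE t hB (σ v) (Y v) i = tA t (b8 (σ v) i) (∫ b in (0 : ℝ)..π, f (v, b)) := by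
    intro v
    have hc : Continuous fun b => f (v, b) := hfs.continuous.comp (Continuous.prodMk_right v)
    rw [← ContinuousLinearMap.intervalIntegral_comp_comm (tA t (b8 (σ v) i)) (hc.intervalIntegrable 0 π)]
    unfold XE
    refine intervalIntegral.integral_congr fun b _ => ?_
    show _ = tA t (b8 (σ v) i) (f (v, b))
    rw [hf, hb8]
    exact (tA_tI t _ _).symm
  have hx : SmAt 𝒜 (fun v => b8 (σ v) i) u := by
    have h1 : SmGAt 𝒜 (fun v : F => shift (t8 i) (σ v)) u := sf_sh hB hσ contDiff_id contDiff_const u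
    have h2 : (fun v => b8 (σ v) i) = fun v => (shift (t8 i) (σ v)).1 0 := funext hb8
    rw [h2]
    exact h1.1
  have h6 := smV_tA t hx hp (hI.contDiffAt (x := u))
  refine SmV.congr h6 (Eventually.of_forall fun v => ?_)
  exact (hXE v)

end Pool.Agent.Lib.MP_ccbbf6_gt.K7.DP
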