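import Pool.Agent.Lib.MP_ccbbf6_gt.K7.AP
import Pool.Agent.Lib.MP_ccbbf6_gt.K7.DP10
import Pool.Agent.Lib.MP_ccbbf6_gt.K7.DP7

/-!
# `κ = 7`, density path, DP12d: admissible paths from bumps to rotations of arcs (helper78)

* `SmK Q k` : the section `k y ∈ T_(c 0) M` over the sphere bundle `spN 𝒜 Q` is smooth along plots.
* `smA_bmp`, `smA_av` : the 8-gons of velocities of bump densities / of rotations of arcs are smooth along plots.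
* `ap_bmp` : from the bump densities of small support to the rotations `rv k0 k1 k2` of the arcs.
* `ap_sub` : from `rv` to `rv - rv 0`.
* `ap_scale` : positive multiples.
-/

set_option autoImplicit false
set_option linter.unusedSectionVars false

open Set Filter Topology Metric Real Module
open scoped ContDiff RealInnerProductSpace

noncomputable section

namespace Pool.Agent.Lib.MP_ccbbf6_gt.K7.DP

open L4 Geo L4.ORI L5 L5.NEG RG HQ GG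

variable {n N' : ℕ} {M : Type} [MetricSpace M] [CompactSpace M] {𝒜 : SDist n M} {Q : Gs M → Eu N' →L[ℝ] Eu N'}

/-- smooth sections `k y ∈ T_(c 0) M` over the sphere bundle `spN 𝒜 Q` -/
def SmK (Q : Gs M → Eu N' →L[ℝ] Eu N') (k : (spN 𝒜 Q).pt → Eu n) : Prop :=
  ∀ (m : ℕ) (p : (spN 𝒜 Q).Plot m) (u : FR.V m),
    SmV 𝒜 ((p.1 u).1.1.1 0) (fun v => (p.1 v).1.1.1 0) (fun v => k (p.1 v)) u

theorem smG_plot {m : ℕ} (p : (spN 𝒜 Q).Plot m) (v : FR.V m) : SmGAt 𝒜 (fun v => (p.1 v).1.1) v :=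
  SmG.atP (σ := fun v => (p.1 v).1.1) p.2.1 v

/-- fields which do not depend on the parameter of the path -/
theorem smA_const {a : (spN 𝒜 Q).pt → ZMod 8 → Eu n}
    (h : ∀ (m : ℕ) (p : (spN 𝒜 Q).Plot m) (u : FR.V m) (i : ZMod 8),
      SmV 𝒜 (b8 (p.1 u).1.1 i) (fun v => b8 (p.1 v).1.1 i) (fun v => a (p.1 v) i) u) : FC.SmA Q fun _ => a :=
  fun m p u i => SmV.comp (f := fun v : FR.V m × ℝ => v.1) (h m p u.1 i) contDiffAt_fst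

/-! ### linearity of the rotation fields -/

theorem JA_add (hB : Bl M) (c : Gs M) (t : ℝ) (w w' : Eu n) : JA 𝒜 hB c t (w + w') = JA 𝒜 hB c t w + JA 𝒜 hB c t w' := by
  rw [← JG_eq_JA, ← JG_eq_JA, ← JG_eq_JA, JG_add]

theorem JA_smul (hB : Bl M) (c : Gs M) (t r : ℝ) (w : Eu n) : JA 𝒜 hB c t (r • w) = r • JA 𝒜 hB c t w := by
  rw [← JG_eq_JA, ← JG_eq_JA, JG_smul]

theorem av_lin (hB : Bl M) (c : Gs M) (r r' : Fin 4 → Eu n) (x y : ℝ) (i : ZMod 8) :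
    x • av 𝒜 hB c r i + y • av 𝒜 hB c r' i = av 𝒜 hB c (fun j => x • r j + y • r' j) i := by
  unfold av
  rw [JA_add, JA_smul, JA_smul]

/-- adding a constant rotation does not change `H8` -/
theorem H8_add_const (hB : Bl M) (c : Gs M) (r : Fin 4 → Eu n) (w : Eu n) :
    H8 𝒜 c (av 𝒜 hB c fun j => r j + w) = H8 𝒜 c (av 𝒜 hB c r) := by
  have h1 : (av 𝒜 hB c fun j => r j + w) = av 𝒜 hB c r + fun i => JA 𝒜 hB c (t8 i) w := by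
    funext i
    show JA 𝒜 hB c (t8 i) (r (arc i) + w) = JA 𝒜 hB c (t8 i) (r (arc i)) + JA 𝒜 hB c (t8 i) w
    rw [JA_add]
  have h2 : H8 𝒜 c (fun i => JA 𝒜 hB c (t8 i) w) = 0 := B8_const hB c w _
  rw [h1, H8_add hB, h2, B8_symm hB, B8_const hB c w]
  ring

theorem rv_ned {k0 k1 k2 : Eu n} (h : ¬(k0 = 0 ∧ k1 = 0 ∧ k2 = 0)) : ∃ i j, rv k0 k1 k2 i ≠ rv k0 k1 k2 j := by
  by_contra hcon
  push Not at hcon
  have h02 : -k0 + k2 = -k0 - k2 := hcon 0 2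
  have h13 : k0 - k1 = k0 + k1 := hcon 1 3
  have h01 : -k0 + k2 = k0 - k1 := hcon 0 1
  have e2 : k2 = 0 := by
    have h3 : (2 : ℝ) • k2 = 0 := by
      have h4 : (2 : ℝ) • k2 = (-k0 + k2) - (-k0 - k2) := by rw [two_smul]; abel
      rw [h4, h02, sub_self]
    exact (smul_eq_zero.1 h3).resolve_left two_ne_zero
  have e1 : k1 = 0 := by
    have h3 : (2 : ℝ) • k1 = 0 := by
      have h4 : (2 : ℝ) • k1 = (k0 + k1) - (k0 - k1) := by rw [two_smul]; abel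
      rw [h4, h13, sub_self]
    exact (smul_eq_zero.1 h3).resolve_left two_ne_zero
  have e0 : k0 = 0 := by
    have h3 : (2 : ℝ) • k0 = 0 := by
      have h4 : (2 : ℝ) • k0 = (k0 - k1) - (-k0 + k2) + (k1 + k2) := by rw [two_smul]; abel
      rw [h4, h01, sub_self, e1, e2, add_zero, add_zero]
    exact (smul_eq_zero.1 h3).resolve_left two_ne_zero
  exact h ⟨e0, e1, e2⟩

theorem rv_memd {c : Gs M} {k0 k1 k2 : Eu n} (h0 : k0 ∈ NEG.Kc 𝒜 c) (h1 : k1 ∈ NEG.Kc 𝒜 c) (h2 : k2 ∈ NEG.Kc 𝒜 c) (j : Fin 4) :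
    rv k0 k1 k2 j ∈ NEG.Kc 𝒜 c := by
  fin_cases j
  · exact Submodule.add_mem _ (Submodule.neg_mem _ h0) h2
  · exact Submodule.sub_mem _ h0 h1
  · exact Submodule.sub_mem _ (Submodule.neg_mem _ h0) h2
  · exact Submodule.add_mem _ h0 h1

/-! ### smoothness along plots -/

section smooth

theorem smK_rv {k0 k1 k2 : (spN 𝒜 Q).pt → Eu n} (h0 : SmK Q k0) (h1 : SmK Q k1) (h2 : SmK Q k2) (j : Fin 4) :
    SmK Q fun y => rv (k0 y) (k1 y) (k2 y) j := by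
  intro m p u
  fin_cases j
  · exact SmV.add (SmV.neg' (h0 m p u)) (h2 m p u)
  · exact SmV.sub' (h0 m p u) (h1 m p u)
  · exact SmV.sub' (SmV.neg' (h0 m p u)) (h2 m p u)
  · exact SmV.add (h0 m p u) (h1 m p u)

theorem SmK.sub {k k' : (spN 𝒜 Q).pt → Eu n} (h : SmK Q k) (h' : SmK Q k') : SmK Q fun y => k y - k' y :=
  fun m p u => SmV.sub' (h m p u) (h' m p u)

/-- rotations of arcs are smooth along plots -/
theorem smA_av (hB : Bl M) {r : (spN 𝒜 Q).pt → Fin 4 → Eu n} (hr : ∀ j, SmK Q fun y => r y j) :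
    FC.SmA Q fun _ y => av 𝒜 hB y.1.1 (r y) := by
  refine smA_const fun m p u i => ?_
  obtain ⟨σ, hσ⟩ : ∃ σ : FR.V m → Gs M, σ = fun v => (p.1 v).1.1 := ⟨_, rfl⟩
  have hσ' : ∀ v, SmGAt 𝒜 σ v := fun v => by
    rw [hσ]
    exact smG_plot p v
  have hb8 : ∀ v, b8 (σ v) i = (shift (t8 i) (σ v)).1 0 := fun v => by
    show (σ v).1 (t8 i) = (σ v).1 (0 + t8 i)
    rw [zero_add]
  have h1 : SmGAt 𝒜 (fun v => shift (t8 i) (σ v)) u := SmGAt.shift hB (hσ' u) contDiffAt_const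
  have h2 : SmV 𝒜 ((σ u).1 0) (fun v => (shift (-t8 i) (shift (t8 i) (σ v))).1 0) (fun v => r (p.1 v) (arc i)) u := by
    simp only [shift_shift_neg]
    rw [hσ]
    exact hr (arc i) m p u
  have h3 := smV_JG hB h1 (b := fun _ => -t8 i) contDiffAt_const (p := b8 (σ u) i) (q := (σ u).1 0)
    (by rw [← hb8]; exact 𝒜.mem _) (by simp only [shift_shift_neg]; exact 𝒜.mem _) h2
  simp only [JG_eq_JA] at h3
  have h4 : SmV 𝒜 (b8 (σ u) i) (fun v => b8 (σ v) i) (fun v => JA 𝒜 hB (σ v) (t8 i) (r (p.1 v) (arc i))) u := by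
    rw [show (fun v => b8 (σ v) i) = fun v => (shift (t8 i) (σ v)).1 0 from funext hb8]
    exact h3
  rw [hσ] at h4
  exact h4

variable [Nonempty (Gs M)]

/-- the bump densities are smooth along plots -/
theorem smA_bmp (t : TEmb 𝒜) (hB : Bl M) (e : Emb n 𝒜) {κ : ℕ} (hk : 𝒜.HK κ) {h : ℝ → ℝ} (hh : ContDiff ℝ ∞ h)
    {k0 k1 k2 : (spN 𝒜 Q).pt → Eu n} (h0 : SmK Q k0) (h1 : SmK Q k1) (h2 : SmK Q k2) :
    FC.SmA Q fun _ y => XE t hB y.1.1 (Yb t hB e hk h y.1.1 (tI t (y.1.1.1 0) (k0 y)) (tI t (y.1.1.1 0) (k1 y))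
      (tI t (y.1.1.1 0) (k2 y))) := by
  refine smA_const fun m p u i => ?_
  have hσ : ∀ v, SmGAt 𝒜 (fun v => (p.1 v).1.1) v := smG_plot p
  have hk' : ∀ {k : (spN 𝒜 Q).pt → Eu n}, SmK Q k → ContDiff ℝ ∞ fun v => tI t ((p.1 v).1.1.1 0) (k (p.1 v)) := fun {k} hk => by
    rw [contDiff_iff_contDiffAt]
    exact fun v => sm_tI t (hσ v).1 (𝒜.mem _) (hk m p v)
  have hY : ContDiff ℝ ∞ fun q : FR.V m × ℝ => Yb t hB e hk h (p.1 q.1).1.1 (tI t ((p.1 q.1).1.1.1 0) (k0 (p.1 q.1)))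
      (tI t ((p.1 q.1).1.1.1 0) (k1 (p.1 q.1))) (tI t ((p.1 q.1).1.1.1 0) (k2 (p.1 q.1))) q.2 := by
    have a0 : ContDiff ℝ ∞ fun v => cx t.D (tI t ((p.1 v).1.1.1 0) (k0 (p.1 v))) := (cx t.D).contDiff.comp (hk' h0)
    have a1 : ContDiff ℝ ∞ fun v => cx t.D (tI t ((p.1 v).1.1.1 0) (k1 (p.1 v))) := (cx t.D).contDiff.comp (hk' h1)
    have a2 : ContDiff ℝ ∞ fun v => cx t.D (tI t ((p.1 v).1.1.1 0) (k2 (p.1 v))) := (cx t.D).contDiff.comp (hk' h2)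
    have a3 := a1.add (a2.const_smul Complex.I)
    have b0 := sf_bmp t hB e hk hσ hh a0
    have b1 := sf_bmp t hB e hk hσ hh a3
    have b2 := sf_tw (t := t) (u := fun v => OD.bmp (orb t hB e hk (p.1 v).1.1).od h
      (cx t.D (tI t ((p.1 v).1.1.1 0) (k1 (p.1 v))) + Complex.I • cx t.D (tI t ((p.1 v).1.1.1 0) (k2 (p.1 v))))) b1 (1 / 2)
    exact ((reH t.D).contDiff.comp b0).add ((reH t.D).contDiff.comp b2)
  exact smV_XE t hB hσ hY i (𝒜.mem _)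

end smooth

/-! ### the admissible paths -/

/-- **positive multiples** -/
theorem ap_scale {a : (spN 𝒜 Q).pt → ZMod 8 → Eu n} (ha : FC.SmA Q fun _ => a) (hn : ∀ y, H8 𝒜 y.1.1 (a y) < 0) {lam : ℝ}
    (hl : 0 < lam) : FC.AP Q a fun y i => lam • a y i := by
  refine FC.AP.lin ha (fun m p u i => (ha m p u i).smul (f := fun _ => lam) contDiffAt_const) fun τ hτ y => ?_
  have h1 : (fun i => (1 - τ) • a y i + τ • lam • a y i) = ((1 - τ) + τ * lam) • a y := by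
    funext i
    show _ = ((1 - τ) + τ * lam) • a y i
    rw [add_smul, mul_smul]
  have h2 : 0 < (1 - τ) + τ * lam := by
    rcases hτ.1.eq_or_lt with h | h
    · rw [← h]
      norm_num
    · have := mul_pos h hl
      linarith [hτ.2]
  rw [h1, H8_smul]
  exact mul_neg_of_pos_of_neg (pow_pos h2 2) (hn y)

/-- the path `rv - τ • rv 0` -/
theorem ap_sub_gen (hB : Bl M) {r : (spN 𝒜 Q).pt → Fin 4 → Eu n} (hr : ∀ j, SmK Q fun y => r y j) {w : (spN 𝒜 Q).pt → Eu n}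
    (hw : SmK Q w) (hn : ∀ y, H8 𝒜 y.1.1 (av 𝒜 hB y.1.1 (r y)) < 0) :
    FC.AP Q (fun y => av 𝒜 hB y.1.1 (r y)) fun y => av 𝒜 hB y.1.1 fun j => r y j - w y := by
  refine FC.AP.lin (smA_av hB hr) (smA_av hB fun j => (hr j).sub hw) fun τ hτ y => ?_
  have h1 : (fun i => (1 - τ) • av 𝒜 hB y.1.1 (r y) i + τ • av 𝒜 hB y.1.1 (fun j => r y j - w y) i) =
      av 𝒜 hB y.1.1 fun j => r y j + (-τ) • w y := by
    funext i
    rw [av_lin]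
    refine congrFun (congrArg _ (funext fun j => ?_)) i
    rw [smul_sub, neg_smul, sub_smul, one_smul]
    abel
  rw [h1, H8_add_const]
  exact hn y

/-- **from `rv` to `rv - rv 0`** -/
theorem ap_sub (hB : Bl M) {k0 k1 k2 : (spN 𝒜 Q).pt → Eu n} (hK0 : ∀ y, k0 y ∈ NEG.Kc 𝒜 y.1.1) (hK1 : ∀ y, k1 y ∈ NEG.Kc 𝒜 y.1.1)
    (hK2 : ∀ y, k2 y ∈ NEG.Kc 𝒜 y.1.1) (h0 : SmK Q k0) (h1 : SmK Q k1) (h2 : SmK Q k2)
    (hne : ∀ y, ¬(k0 y = 0 ∧ k1 y = 0 ∧ k2 y = 0)) :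
    FC.AP Q (fun y => av 𝒜 hB y.1.1 (rv (k0 y) (k1 y) (k2 y)))
      fun y => av 𝒜 hB y.1.1 fun j => rv (k0 y) (k1 y) (k2 y) j - rv (k0 y) (k1 y) (k2 y) 0 :=
  ap_sub_gen hB (smK_rv h0 h1 h2) (smK_rv h0 h1 h2 0) fun y =>
    H8_av_lt hB (rv_memd (hK0 y) (hK1 y) (hK2 y)) (rv_ned (hne y))

variable [Nonempty (Gs M)]

/-- **from the bumps to the rotations of the arcs** -/
theorem ap_bmp_of (t : TEmb 𝒜) (hB : Bl M) (e : Emb n 𝒜) {κ : ℕ} (hk : 𝒜.HK κ) {h : ℝ → ℝ} (hh : ContDiff ℝ ∞ h)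
    (hlt : ∀ (c : Gs M) (k0 k1 k2 : Eu n), k0 ∈ NEG.Kc 𝒜 c → k1 ∈ NEG.Kc 𝒜 c → k2 ∈ NEG.Kc 𝒜 c → ¬(k0 = 0 ∧ k1 = 0 ∧ k2 = 0) →
        ∀ τ ∈ Icc (0 : ℝ) 1, H8 𝒜 c (fun i => (1 - τ) • XE t hB c (Yb t hB e hk h c (tI t (c.1 0) k0) (tI t (c.1 0) k1)
          (tI t (c.1 0) k2)) i + τ • av 𝒜 hB c (rv k0 k1 k2) i) < 0)
    {k0 k1 k2 : (spN 𝒜 Q).pt → Eu n} (hK0 : ∀ y, k0 y ∈ NEG.Kc 𝒜 y.1.1) (hK1 : ∀ y, k1 y ∈ NEG.Kc 𝒜 y.1.1)
    (hK2 : ∀ y, k2 y ∈ NEG.Kc 𝒜 y.1.1) (h0 : SmK Q k0) (h1 : SmK Q k1) (h2 : SmK Q k2)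
    (hne : ∀ y, ¬(k0 y = 0 ∧ k1 y = 0 ∧ k2 y = 0)) :
    FC.AP Q (fun y => XE t hB y.1.1 (Yb t hB e hk h y.1.1 (tI t (y.1.1.1 0) (k0 y)) (tI t (y.1.1.1 0) (k1 y))
      (tI t (y.1.1.1 0) (k2 y)))) fun y => av 𝒜 hB y.1.1 (rv (k0 y) (k1 y) (k2 y)) :=
  FC.AP.lin (smA_bmp t hB e hk hh h0 h1 h2) (smA_av hB (smK_rv h0 h1 h2)) fun τ hτ y =>
    hlt y.1.1 _ _ _ (hK0 y) (hK1 y) (hK2 y) (hne y) τ hτ

/-- **from the bumps of small support to the rotations of the arcs** -/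
theorem ap_bmp (t : TEmb 𝒜) (hB : Bl M) (e : Emb n 𝒜) {κ : ℕ} (hk : 𝒜.HK κ) :
    ∃ ε0 : ℝ, 0 < ε0 ∧ ∀ {ε : ℝ} {h : ℝ → ℝ}, ε ≤ ε0 → OD.Bmp h ε → ContDiff ℝ ∞ h → ∫ s in (-(π / 2))..π / 2, h s = 1 →
      ∀ {N' : ℕ} {Q : Gs M → Eu N' →L[ℝ] Eu N'} {k0 k1 k2 : (spN 𝒜 Q).pt → Eu n}, (∀ y, k0 y ∈ NEG.Kc 𝒜 y.1.1) →
        (∀ y, k1 y ∈ NEG.Kc 𝒜 y.1.1) → (∀ y, k2 y ∈ NEG.Kc 𝒜 y.1.1) → SmK Q k0 → SmK Q k1 → SmK Q k2 →
        (∀ y, ¬(k0 y = 0 ∧ k1 y = 0 ∧ k2 y = 0)) →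
        FC.AP Q (fun y => XE t hB y.1.1 (Yb t hB e hk h y.1.1 (tI t (y.1.1.1 0) (k0 y)) (tI t (y.1.1.1 0) (k1 y))
          (tI t (y.1.1.1 0) (k2 y)))) fun y => av 𝒜 hB y.1.1 (rv (k0 y) (k1 y) (k2 y)) := by
  obtain ⟨ε0, hε0, H⟩ := H8_bmp_lt t hB e hk
  refine ⟨ε0, hε0, fun {ε h} hε hb hh hI {N' Q k0 k1 k2} hK0 hK1 hK2 h0 h1 h2 hne => ?_⟩
  exact ap_bmp_of t hB e hk hh (H hε hb hI) hK0 hK1 hK2 h0 h1 h2 hne

end Pool.Agent.Lib.MP_ccbbf6_gt.K7.DP
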