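import Pool.Agent.Lib.MP_ccbbf6_gt.K7.DP11
import Pool.Agent.Lib.MP_ccbbf6_gt.K7.DP11d
import Pool.Agent.Lib.MP_ccbbf6_gt.K7.DP12d
import Pool.Agent.Lib.MP_ccbbf6_gt.K7.GJ7

/-!
# `κ = 7`, density path, part 12i: the chain between the two ends (helper25)

* `hch_of` : from the chain of densities to the chain from the first variations of the joint family to the
  velocities of the midpoints of `ΦY`.
-/

set_option autoImplicit false
set_option linter.unusedSectionVars false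

open Set Filter Topology Metric Real Module
open scoped ContDiff RealInnerProductSpace

noncomputable section

namespace Pool.Agent.Lib.MP_ccbbf6_gt.K7.DP

open L4 Geo L4.ORI L4.FR L5 L5.NEG RG HQ GG FC K7

variable {n : ℕ} {M : Type} [MetricSpace M] [CompactSpace M] {𝒜 : SDist n M}

/-- the end of a chain -/
theorem end_of {N' : ℕ} {Q : Gs M → Eu N' →L[ℝ] Eu N'} {a b : (spN 𝒜 Q).pt → ZMod 8 → Eu n}
    (h : Relation.TransGen (AP Q) a b) : SmA Q (fun _ => b) ∧ ∀ y, H8 𝒜 y.1.1 (b y) < 0 := by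
  cases h with
  | single h => exact h.right
  | tail _ h => exact h.right

variable {N : ℕ} {P : Gs M → Eu N →L[ℝ] Eu N} {CR : Eu (N + (N + N)) → Gs M → M} {hB : Bl M} {e : Emb n 𝒜}
  {Φ : e.Q → (Eu N →L[ℝ] EuclideanSpace ℝ (Fin e.q))}

/-- the rotations of the arcs of a point of `Y` -/
def rY (𝒜 : SDist n M) (hB : Bl M) (C : Eu N → Gs M → M) (c : Gs M) (x : Eu (N + (N + N))) : Fin 4 → Eu n :=
  rv ((-(1 / 4) : ℝ) • evc 𝒜 hB C c (q0 x)) ((-(1 / 4) : ℝ) • evc 𝒜 hB C c (q1 x)) ((-(1 / 4) : ℝ) • evc 𝒜 hB C c (q2 x))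

/-- **the chain between the two ends** -/
theorem hch_of {t : TEmb 𝒜} {U : Gs M → (Eu N →L[ℝ] HC t.D)} (hJ : JFam hB e Φ (kGo t U) CR)
    (hch : Relation.TransGen (AP (P3 P))
      (fun (y : (spY 𝒜 P).pt) => XE t hB y.1.1 (fun s => ts t (kf e Φ (q0 y.1.2)) y.1.1 s +
        reH t.D (RD.tw (1 / 2) (zc t U (q1 y.1.2) (q2 y.1.2) y.1.1) s)))
      (fun y => av 𝒜 hB y.1.1 (fun j => rY 𝒜 hB (resC CR) y.1.1 y.1.2 j - rY 𝒜 hB (resC CR) y.1.1 y.1.2 0)))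
    {l : ℝ} (hl : 0 < l) :
    Relation.TransGen (AP (P3 P)) (fun (y : (spY 𝒜 P).pt) i => X1 𝒜 CR (shift (t8 i) y.1.1) ((rt N).r (t8 i) y.1.2))
      (fun y => av 𝒜 hB y.1.1 (rk fun j => LB 𝒜 hB (resC CR) (l • B0) j y.1.1 y.1.2)) := by
  -- the start
  have h1 : (fun (y : (spY 𝒜 P).pt) i => X1 𝒜 CR (shift (t8 i) y.1.1) ((rt N).r (t8 i) y.1.2)) =
      fun (y : (spY 𝒜 P).pt) => XE t hB y.1.1 (fun s => ts t (kf e Φ (q0 y.1.2)) y.1.1 s +
        reH t.D (RD.tw (1 / 2) (zc t U (q1 y.1.2) (q2 y.1.2) y.1.1) s)) := by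
    funext y i
    refine X1_XE t hJ (z := zc t U) (fun x y c => rfl) (fun x y c s => ?_) y.1.1 y.1.2 i
    rw [zc_shift, tw_rot]
  -- the end
  obtain ⟨h2, h3⟩ := end_of hch
  have h4 := ap_scale h2 h3 (lam := l / (6 * (1 / 4))) (by positivity)
  rw [h1]
  refine hch.tail ?_
  have h6 : (fun (y : (spY 𝒜 P).pt) => av 𝒜 hB y.1.1 (rk fun j => LB 𝒜 hB (resC CR) (l • B0) j y.1.1 y.1.2)) =
      fun y i => (l / (6 * (1 / 4))) • av 𝒜 hB y.1.1
        (fun j => rY 𝒜 hB (resC CR) y.1.1 y.1.2 j - rY 𝒜 hB (resC CR) y.1.1 y.1.2 0) i := by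
    funext y i
    rw [rk_LB' l (by norm_num : (1 / 4 : ℝ) ≠ 0) y.1.1 y.1.2 rfl rfl rfl]
    exact JA_smul hB y.1.1 (t8 i) _ _
  rw [h6]
  exact h4

end Pool.Agent.Lib.MP_ccbbf6_gt.K7.DP
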