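import Pool.Agent.Lib.MP_ccbbf6_gt.K7.RG9

/-!
# `κ = 7`, block G3, part 11: the package `Geo7` (helper93)

`Geo7 𝒜 κ hB` : negative bundle, filling with length control, joint family, shortening of the doubled geodesics.
`exists_Geo7` : from the twisted densities (`GKer`, blocks G1, G2) and the length control of the filling (`FillL`).
-/

set_option autoImplicit false
set_option linter.unusedSectionVars false

open Set Filter Topology Metric Real Module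
open scoped ContDiff RealInnerProductSpace

noncomputable section

namespace Pool.Agent.Lib.MP_ccbbf6_gt.K7.RG

open L4 Geo L4.ORI L4.FR L5 L5.NEG

variable {n : ℕ} {M : Type} [MetricSpace M] [CompactSpace M]

/-- the geometric data of the doubled geodesics -/
structure Geo7 (𝒜 : SDist n M) (κ : ℕ) (hB : Bl M) where
  N : ℕ
  P : Gs M → Eu N →L[ℝ] Eu N
  CR : Eu (N + (N + N)) → Gs M → M
  f : Gs M → Eu N → M
  hN : NegData 𝒜 κ hB (resC CR) P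
  hF : FillP 𝒜 (resC CR) P f
  fL : FillL P f
  D : RFam hN hF
  /-- the twisted densities and the joint family -/
  e : Emb n 𝒜
  Φ : e.Q → (Eu N →L[ℝ] EuclideanSpace ℝ (Fin e.q))
  hΦ : ContDiff ℝ ∞ Φ
  kG : Eu N → Eu N → Gs M → Eu n
  hG : GKer 𝒜 hB P kG
  hJ : JFam hB e Φ kG CR

variable {𝒜 : SDist n M}

/-- the twisted densities may satisfy any further property `X` -/
theorem exists_Geo7X [Nonempty (Gs M)] (hB : Bl M) (e : Emb n 𝒜) {κ : ℕ} (hk : 𝒜.HK κ)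
    (X : ∀ (e : Emb n 𝒜) (N : ℕ), (e.Q → (Eu N →L[ℝ] EuclideanSpace ℝ (Fin e.q))) → (Gs M → Eu N →L[ℝ] Eu N) →
      (Eu N → Eu N → Gs M → Eu n) → Prop)
    (HG : ∀ (N : ℕ) (Φ : e.Q → (Eu N →L[ℝ] EuclideanSpace ℝ (Fin e.q))) (C : Eu N → Gs M → M) (P : Gs M → Eu N →L[ℝ] Eu N),
      ContDiff ℝ ∞ Φ → NegData 𝒜 κ hB C P → (∀ c ξ, QB 𝒜 C c ξ ξ = QW 𝒜 hB (kf e Φ ξ) c) →
      ∃ kG : Eu N → Eu N → Gs M → Eu n, GKer 𝒜 hB P kG ∧ X e N Φ P kG)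
    (HL : ∀ (N : ℕ) (C : Eu N → Gs M → M) (P : Gs M → Eu N →L[ℝ] Eu N), NegData 𝒜 κ hB C P →
      ∃ f : Gs M → Eu N → M, FillP 𝒜 C P f ∧ FillL P f) : ∃ G : Geo7 𝒜 κ hB, G.e = e ∧ X G.e G.N G.Φ G.P G.kG := by
  obtain ⟨N, Φ, P, hΦ, hneg⟩ := exists_negK hB e hk
  obtain ⟨C0, hC0, hQ0⟩ := pfam_kf hB e hk hΦ
  obtain ⟨kG, hG, hX⟩ := HG N Φ C0 P hΦ (hneg C0 hC0 hQ0) hQ0
  obtain ⟨CR, h⟩ := exists_jfam (e := e) hk hΦ hG
  have hN := hneg (resC CR) (pfam_res hB h.fam) (QB_res hG h)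
  obtain ⟨f, hF, hL⟩ := HL N (resC CR) P hN
  obtain ⟨D⟩ := exists_RFam hG h hN hF hL
  exact ⟨⟨N, P, CR, f, hN, hF, hL, D, e, Φ, hΦ, kG, hG, h⟩, rfl, hX⟩

theorem exists_Geo7 [Nonempty (Gs M)] (hB : Bl M) (e : Emb n 𝒜) {κ : ℕ} (hk : 𝒜.HK κ)
    (HG : ∀ (N : ℕ) (Φ : e.Q → (Eu N →L[ℝ] EuclideanSpace ℝ (Fin e.q))) (C : Eu N → Gs M → M) (P : Gs M → Eu N →L[ℝ] Eu N),
      ContDiff ℝ ∞ Φ → NegData 𝒜 κ hB C P → (∀ c ξ, QB 𝒜 C c ξ ξ = QW 𝒜 hB (kf e Φ ξ) c) →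
      ∃ kG : Eu N → Eu N → Gs M → Eu n, GKer 𝒜 hB P kG)
    (HL : ∀ (N : ℕ) (C : Eu N → Gs M → M) (P : Gs M → Eu N →L[ℝ] Eu N), NegData 𝒜 κ hB C P →
      ∃ f : Gs M → Eu N → M, FillP 𝒜 C P f ∧ FillL P f) : Nonempty (Geo7 𝒜 κ hB) := by
  obtain ⟨G, -⟩ := exists_Geo7X hB e hk (fun _ _ _ _ _ => True) (fun N Φ C P h1 h2 h3 => by
    obtain ⟨kG, h⟩ := HG N Φ C P h1 h2 h3
    exact ⟨kG, h, trivial⟩) HL
  exact ⟨G⟩

end Pool.Agent.Lib.MP_ccbbf6_gt.K7.RG
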