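import Pool.Agent.Lib.MP_ccbbf6_gt.K7.DP12h
import Pool.Agent.Lib.MP_ccbbf6_gt.K7.DP12i
import Pool.Agent.Lib.MP_ccbbf6_gt.K7.RG11

/-!
# `κ = 7`, density path, part 12j: the chain for the joint family (helper25)

* `chain_gx` : from the densities of the joint family to the rotations of the arcs.
* `hch_gx`, `hch_geo` : the hypothesis `hch` of `FC8.hRel`.
-/

set_option autoImplicit false
set_option linter.unusedSectionVars false

open Set Filter Topology Metric Real Module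
open scoped ContDiff RealInnerProductSpace

noncomputable section

namespace Pool.Agent.Lib.MP_ccbbf6_gt.K7.DP

open L4 Geo L4.ORI L4.FR L5 L5.NEG RG HQ GG FC K7

variable {n : ℕ} {M : Type} [MetricSpace M] [CompactSpace M] {𝒜 : SDist n M} [Nonempty (Gs M)]

variable {t : TEmb 𝒜} {hB : Bl M} {e : Emb n 𝒜} {κ : ℕ} {hk : 𝒜.HK κ} {N : ℕ}
  {Φ : e.Q → (Eu N →L[ℝ] EuclideanSpace ℝ (Fin e.q))} {P : Gs M → Eu N →L[ℝ] Eu N} {kG : Eu N → Eu N → Gs M → Eu n}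
  {CR : Eu (N + (N + N)) → Gs M → M}

section

variable (X : GXd t hB e hk N Φ P kG)

/-- the values of the evaluations are smooth -/
theorem smK_tA {v : (spY 𝒜 P).pt → HR t.D} (hv : ∀ (k : ℕ) (p : (spY 𝒜 P).Plot k), ContDiff ℝ ∞ fun u : FR.V k => v (p.1 u))
    {k : (spY 𝒜 P).pt → Eu n} (hk : ∀ y, v y = tI t (y.1.1.1 0) (k y)) (hB : Bl M) : SmK (P3 P) k := by
  intro m p u
  have h1 : SmAt 𝒜 (fun v : FR.V m => (p.1 v).1.1.1 0) u := (smG_plot p u).ev hB (t := fun _ => 0) contDiffAt_const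
  have h2 := smV_tA t h1 (𝒜.mem _) (y := fun w : FR.V m => v (p.1 w)) ((hv m p).contDiffAt)
  have h3 : (fun w : FR.V m => tA t ((p.1 w).1.1.1 0) (v (p.1 w))) = fun w => k (p.1 w) := by
    funext w
    rw [hk, tA_tI]
  rw [h3] at h2
  exact h2

include X

theorem smK_k0 : SmK (P3 P) fun (y : (spY 𝒜 P).pt) => kj X (q0 y.1.2) y.1.1 :=
  smK_tA (t := t) (v := fun y => reH t.D (vN X y)) (fun k p => (reH t.D).contDiff.comp (sm_Hm0 t hB e hk (s_z0 X) 0 k p))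
    (fun y => by rw [vN_eq X, reH_cx]) hB

theorem smK_k1 : SmK (P3 P) fun (y : (spY 𝒜 P).pt) => kj X (q1 y.1.2) y.1.1 :=
  smK_tA (t := t) (v := fun y => reH t.D (vG X y)) (fun k p => (reH t.D).contDiff.comp (sm_Hm0 t hB e hk (s_zG X) 0 k p))
    (fun y => by rw [vG_eq X, reH_mk]) hB

theorem smK_k2 : SmK (P3 P) fun (y : (spY 𝒜 P).pt) => kj X (q2 y.1.2) y.1.1 :=
  smK_tA (t := t) (v := fun y => imH t.D (vG X y)) (fun k p => (imH t.D).contDiff.comp (sm_Hm0 t hB e hk (s_zG X) 0 k p))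
    (fun y => by rw [vG_eq X, imH_mk]) hB

theorem kj_not (y : (spY 𝒜 P).pt) :
    ¬(kj X (q0 y.1.2) y.1.1 = 0 ∧ kj X (q1 y.1.2) y.1.1 = 0 ∧ kj X (q2 y.1.2) y.1.1 = 0) := by
  rintro ⟨h0, h1, h2⟩
  refine q_ne y ⟨?_, ?_, ?_⟩
  · by_contra h
    exact kj_ne X (mem_q y).1 h h0
  · by_contra h
    exact kj_ne X (mem_q y).2.1 h h1
  · by_contra h
    exact kj_ne X (mem_q y).2.2 h h2

/-- the rotations of the arcs of the evaluations -/
theorem ap_arcs : AP (P3 P) (aD t hB (fun y s => reH t.D (bN X y s)) (bG X))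
    (fun (y : (spY 𝒜 P).pt) => av 𝒜 hB y.1.1 (rv (kj X (q0 y.1.2) y.1.1) (kj X (q1 y.1.2) y.1.1) (kj X (q2 y.1.2) y.1.1))) := by
  have h := ap_bmp_of t hB e hk X.g_smooth X.arcs (Q := P3 P) (k0 := fun (y : (spY 𝒜 P).pt) => kj X (q0 y.1.2) y.1.1)
    (k1 := fun y => kj X (q1 y.1.2) y.1.1) (k2 := fun y => kj X (q2 y.1.2) y.1.1) (fun y => kj_mem X _ _)
    (fun y => kj_mem X _ _) (fun y => kj_mem X _ _) (smK_k0 X) (smK_k1 X) (smK_k2 X) (kj_not X)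
  have h1 : aD t hB (fun (y : (spY 𝒜 P).pt) s => reH t.D (bN X y s)) (bG X) =
      fun (y : (spY 𝒜 P).pt) => XE t hB y.1.1 (Yb t hB e hk X.g y.1.1 (tI t (y.1.1.1 0) (kj X (q0 y.1.2) y.1.1))
        (tI t (y.1.1.1 0) (kj X (q1 y.1.2) y.1.1)) (tI t (y.1.1.1 0) (kj X (q2 y.1.2) y.1.1))) := by
    funext y i
    refine congrArg (fun Y => XE t hB y.1.1 Y i) (funext fun s => ?_)
    show reH t.D (bN X y s) + reH t.D (RD.tw (1 / 2) (bG X y) s) = _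
    have e1 : bN X y s = OD.bmp (orb t hB e hk y.1.1).od X.g (cx t.D (tI t (y.1.1.1 0) (kj X (q0 y.1.2) y.1.1))) s := by
      show OD.bmp (orb t hB e hk y.1.1).od X.g (vN X y) s = _
      rw [vN_eq X]
    have e2 : bG X y = OD.bmp (orb t hB e hk y.1.1).od X.g (cx t.D (tI t (y.1.1.1 0) (kj X (q1 y.1.2) y.1.1)) +
        Complex.I • cx t.D (tI t (y.1.1.1 0) (kj X (q2 y.1.2) y.1.1))) := by
      funext s
      show OD.bmp (orb t hB e hk y.1.1).od X.g (vG X y) s = _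
      rw [vG_eq X]
    rw [e1, e2]
    rfl
  rw [h1]
  exact h

/-- **the chain from the densities to the rotations of the arcs** -/
theorem chain_gx : Relation.TransGen (AP (P3 P)) (aD t hB (w0 t e Φ P) (uG X))
    (fun (y : (spY 𝒜 P).pt) => av 𝒜 hB y.1.1 (fun j =>
      rv (kj X (q0 y.1.2) y.1.1) (kj X (q1 y.1.2) y.1.1) (kj X (q2 y.1.2) y.1.1) j -
      rv (kj X (q0 y.1.2) y.1.1) (kj X (q1 y.1.2) y.1.1) (kj X (q2 y.1.2) y.1.1) 0)) := by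
  exact ((chain_dens X).tail (ap_arcs X)).tail (ap_sub hB (fun y => kj_mem X _ _) (fun y => kj_mem X _ _) (fun y => kj_mem X _ _) (smK_k0 X) (smK_k1 X)
    (smK_k2 X) (kj_not X))

/-- **the chain for the joint family** -/
theorem hch_gx (hG : GKer 𝒜 hB P kG) (hJ : JFam hB e Φ kG CR) {l : ℝ} (hl : 0 < l) :
    Relation.TransGen (AP (P3 P)) (fun (y : (spY 𝒜 P).pt) i => X1 𝒜 CR (shift (t8 i) y.1.1) ((rt N).r (t8 i) y.1.2))
      (fun y => av 𝒜 hB y.1.1 (rk fun j => LB 𝒜 hB (resC CR) (l • B0) j y.1.1 y.1.2)) := by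
  have hJ' : JFam hB e Φ (kGo t (Uop t hB (X.h * X.K) X.mu0 X.h X.m (Z0 t hB e Φ))) CR := by
    rw [← X.hkG]
    exact hJ
  refine hch_of hJ' ?_ hl
  have h := chain_gx X
  have h1 : aD t hB (w0 t e Φ P) (uG X) = fun (y : (spY 𝒜 P).pt) => XE t hB y.1.1 (fun s => ts t (kf e Φ (q0 y.1.2)) y.1.1 s +
      reH t.D (RD.tw (1 / 2) (zc t (Uop t hB (X.h * X.K) X.mu0 X.h X.m (Z0 t hB e Φ)) (q1 y.1.2) (q2 y.1.2) y.1.1) s)) := by
    funext y i
    unfold aD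
    have e1 : uG X y = zc t (Uop t hB (X.h * X.K) X.mu0 X.h X.m (Z0 t hB e Φ)) (q1 y.1.2) (q2 y.1.2) y.1.1 :=
      Ust_zc e hk (gsec_Z0 t hB e hk X.hΦ) _ _ _ _ _ _ _
    rw [e1]
    rfl
  have h2 : ∀ (y : (spY 𝒜 P).pt), rv (kj X (q0 y.1.2) y.1.1) (kj X (q1 y.1.2) y.1.1) (kj X (q2 y.1.2) y.1.1) =
      rY 𝒜 hB (resC CR) y.1.1 y.1.2 := by
    intro y
    unfold rY kj
    rw [evc_res hG hJ, evc_res hG hJ, evc_res hG hJ]
  simp only [h2] at h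
  rw [h1] at h
  exact h

end

/-- **the hypothesis `hch` of `FC8.hRel` for the geometric data** -/
theorem hch_geo (G : Geo7 𝒜 κ hB) {t : TEmb 𝒜} (X : GXd t hB G.e hk G.N G.Φ G.P G.kG) {l : ℝ} (hl : 0 < l) :
    Relation.TransGen (AP (P3 G.P))
      (fun (y : (spY 𝒜 G.P).pt) i => X1 𝒜 G.CR (shift (t8 i) y.1.1) ((rt G.N).r (t8 i) y.1.2))
      (fun y => av 𝒜 hB y.1.1 (rk fun j => LB 𝒜 hB (resC G.CR) (l • B0) j y.1.1 y.1.2)) :=
  hch_gx X G.hG G.hJ hl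

end Pool.Agent.Lib.MP_ccbbf6_gt.K7.DP
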