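import Pool.Agent.Lib.MP_ccbbf6_gt.K7.ASM7e
import Pool.Agent.Lib.MP_ccbbf6_gt.K7.DP12e
import Pool.Agent.Lib.MP_ccbbf6_gt.K7.DP12j

/-!
# `κ = 7`, `n = 16`: **the Cayley plane** (helper56)

`model_seven` : a Blaschke manifold of dimension `16` whose linked spheres have dimension `8` is the Cayley plane.
-/

set_option autoImplicit false
set_option maxSynthPendingDepth 3

open Set Filter Topology Real Matrix MeasureTheory
open scoped ContDiff RealInnerProductSpace

noncomputable section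

namespace Pool.Agent.Lib.MP_ccbbf6_gt.K7.ASM

open Geo L4 L4.ORI L4.FR L5 L5.NEG GysD RG PN SU HQ

variable {M : Type} [MetricSpace M] [CompactSpace M] [MeasurableSpace M] [BorelSpace M] [Nonempty M]

theorem model_seven' {𝒜 : SDist (15 + 1) M} (hB : Bl M) (hk : 𝒜.HK 7) : Blaschke.IsModel 16 7 M := by
  obtain ⟨t⟩ := exists_TEmb 𝒜
  have := nonempty_Gs hB hk
  exact model_seven_ofX (hB := hB) hk (fun e N Φ P kG => Nonempty (DP.GXd t hB e hk N Φ P kG))
    (fun e N Φ C P h1 h2 h3 => DP.exists_GX t hB e hk N Φ C P h1 h2 h3) fun G ⟨X⟩ => hypC_of G fun l hl => DP.hch_geo G X hl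

/-- **`κ = 7`, `n = 16`: the model** -/
theorem model_seven {n : ℕ} {𝒜 : SDist n M} (hn : n = 16) (hB : Bl M) (hk : 𝒜.HK 7) : Blaschke.IsModel 16 7 M := by
  subst hn
  exact model_seven' hB hk

end Pool.Agent.Lib.MP_ccbbf6_gt.K7.ASM
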