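import Pool.Agent.Lib.MP_ccbbf6_gt.K7.HQ0

/-!
# `κ = 7`, block F-C: admissible paths of vector fields along the vertices of the doubled geodesics (helper28)

* `SmA X` : `X τ y i ∈ T_(b8 (y.1.1) i) M` is smooth in `(τ, y)` (charts centered at the point itself; `SmV.chart` changes the chart).
* `AP a a'` : a smooth path from `a` to `a'` through fields with `H8 < 0` (for `0 ≤ τ ≤ 1`).
* `AP.mk'` : smoothness at `0 ≤ τ ≤ 1` suffices; `AP.lin` : linear paths.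
-/

set_option autoImplicit false
set_option linter.unusedSectionVars false

open Set Filter Topology Metric Real Module
open scoped ContDiff RealInnerProductSpace

noncomputable section

namespace Pool.Agent.Lib.MP_ccbbf6_gt.K7.FC

open Geo L4 L4.ORI L4.FR L5 L5.NEG K7 HQ

variable {n N : ℕ} {M : Type} [MetricSpace M] [CompactSpace M] {𝒜 : SDist n M} {P : Gs M → Eu N →L[ℝ] Eu N}

/-- smooth at `u = (z, τ)`, along the plot `p` -/
def SmX (P : Gs M → Eu N →L[ℝ] Eu N) (X : ℝ → (spN 𝒜 P).pt → ZMod 8 → Eu n) {k : ℕ} (p : (spN 𝒜 P).Plot k)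
    (u : FR.V k × ℝ) : Prop :=
  ∀ i : ZMod 8, SmV 𝒜 (b8 (p.1 u.1).1.1 i) (fun v : FR.V k × ℝ => b8 (p.1 v.1).1.1 i) (fun v => X v.2 (p.1 v.1) i) u

/-- smooth families of vector fields along the vertices -/
def SmA (P : Gs M → Eu N →L[ℝ] Eu N) (X : ℝ → (spN 𝒜 P).pt → ZMod 8 → Eu n) : Prop :=
  ∀ (k : ℕ) (p : (spN 𝒜 P).Plot k) (u : FR.V k × ℝ), SmX P X p u

/-- **admissible paths** -/
def AP (P : Gs M → Eu N →L[ℝ] Eu N) (a a' : (spN 𝒜 P).pt → ZMod 8 → Eu n) : Prop :=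
  ∃ X : ℝ → (spN 𝒜 P).pt → ZMod 8 → Eu n, SmA P X ∧ X 0 = a ∧ X 1 = a' ∧
    ∀ τ ∈ Icc (0 : ℝ) 1, ∀ y, H8 𝒜 y.1.1 (X τ y) < 0

/-- reparametrisation -/
theorem SmX.re {X : ℝ → (spN 𝒜 P).pt → ZMod 8 → Eu n} {k : ℕ} {p : (spN 𝒜 P).Plot k} {u : FR.V k × ℝ} {φ : ℝ → ℝ}
    (hφ : ContDiff ℝ ∞ φ) (h : SmX P X p (u.1, φ u.2)) : SmX P (fun τ => X (φ τ)) p u := fun i =>
  SmV.comp (f := fun v : FR.V k × ℝ => (v.1, φ v.2)) (h i) (contDiff_fst.prodMk (hφ.comp contDiff_snd)).contDiffAt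

/-- smoothness for `0 ≤ τ ≤ 1` is enough -/
theorem AP.mk' {a a' : (spN 𝒜 P).pt → ZMod 8 → Eu n} (X : ℝ → (spN 𝒜 P).pt → ZMod 8 → Eu n)
    (h : ∀ (k : ℕ) (p : (spN 𝒜 P).Plot k) (u : FR.V k × ℝ), 0 ≤ u.2 → u.2 ≤ 1 → SmX P X p u) (h0 : X 0 = a) (h1 : X 1 = a')
    (hn : ∀ τ ∈ Icc (0 : ℝ) 1, ∀ y, H8 𝒜 y.1.1 (X τ y) < 0) : AP P a a' := by
  refine ⟨fun τ => X (Real.smoothTransition τ), fun k p u => SmX.re Real.smoothTransition.contDiff
    (h k p _ (Real.smoothTransition.nonneg _) (Real.smoothTransition.le_one _)), ?_, ?_, fun τ _ y => hn _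
      ⟨Real.smoothTransition.nonneg _, Real.smoothTransition.le_one _⟩ y⟩
  · show X (Real.smoothTransition 0) = a
    rw [Real.smoothTransition.zero, h0]
  · show X (Real.smoothTransition 1) = a'
    rw [Real.smoothTransition.one, h1]

theorem AP.symm {a a' : (spN 𝒜 P).pt → ZMod 8 → Eu n} (h : AP P a a') : AP P a' a := by
  obtain ⟨X, hX, h0, h1, hn⟩ := h
  refine ⟨fun τ => X (1 - τ), fun k p u => SmX.re (contDiff_const.sub contDiff_id) (hX k p _), ?_, ?_, fun τ hτ y =>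
    hn _ ⟨by linarith [hτ.2], by linarith [hτ.1]⟩ y⟩
  · show X (1 - 0) = a'
    rw [sub_zero, h1]
  · show X (1 - 1) = a
    rw [sub_self, h0]

/-- linear paths -/
theorem AP.lin {a a' : (spN 𝒜 P).pt → ZMod 8 → Eu n} (ha : SmA P fun _ => a) (ha' : SmA P fun _ => a')
    (hn : ∀ τ ∈ Icc (0 : ℝ) 1, ∀ y, H8 𝒜 y.1.1 (fun i => (1 - τ) • a y i + τ • a' y i) < 0) : AP P a a' := by
  refine ⟨fun τ y i => (1 - τ) • a y i + τ • a' y i, fun k p u i => ?_, ?_, ?_, hn⟩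
  · exact ((ha k p u i).smul (f := fun v : FR.V k × ℝ => 1 - v.2) (contDiffAt_const.sub contDiffAt_snd)).add
      ((ha' k p u i).smul (f := fun v : FR.V k × ℝ => v.2) contDiffAt_snd)
  · funext y i
    show (1 - (0 : ℝ)) • a y i + (0 : ℝ) • a' y i = a y i
    rw [sub_zero, one_smul, zero_smul, add_zero]
  · funext y i
    show (1 - (1 : ℝ)) • a y i + (1 : ℝ) • a' y i = a' y i
    rw [sub_self, one_smul, zero_smul, zero_add]

/-- ends of an admissible path -/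
theorem AP.left {a a' : (spN 𝒜 P).pt → ZMod 8 → Eu n} (h : AP P a a') :
    SmA P (fun _ => a) ∧ ∀ y, H8 𝒜 y.1.1 (a y) < 0 := by
  obtain ⟨X, hX, h0, -, hn⟩ := h
  refine ⟨fun k p u => ?_, fun y => ?_⟩
  · have h1 := SmX.re (u := u) (φ := fun _ => 0) contDiff_const (hX k p (u.1, 0))
    rw [← h0]
    exact h1
  · rw [← h0]
    exact hn 0 ⟨le_rfl, zero_le_one⟩ y

theorem AP.right {a a' : (spN 𝒜 P).pt → ZMod 8 → Eu n} (h : AP P a a') :
    SmA P (fun _ => a') ∧ ∀ y, H8 𝒜 y.1.1 (a' y) < 0 := h.symm.left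

end Pool.Agent.Lib.MP_ccbbf6_gt.K7.FC
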