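import Pool.Agent.Lib.MP_ccbbf6_gt.ML

/-!
# kappa = 7: the arithmetic end, part 1: a certified search (helper92)

`noRoot A B C p`: the quadratic equation `A x ^ 2 + B x + C = 0` has no integer root with `p x`.
-/

set_option autoImplicit false

namespace Pool.Agent.Lib.MP_ccbbf6_gt.K7.AR

/-- a bit -/
def tb (m k : ℕ) : Bool := Nat.beq (Nat.mod (Nat.shiftRight m k) 2) 1

/-- the modulus -/
def MM : ℕ := 308893897664704599158312117196480

/-- the number is a square modulo all small moduli -/
def ms (D : ℕ) : Bool := cond (tb 144680414395695635 (Nat.mod D 64)) (cond (tb 288872697407275667 (Nat.mod D 63)) (cond (tb 20863489977805260307 (Nat.mod D 65)) (cond (tb 571 (Nat.mod D 11)) (cond (tb 107287 (Nat.mod D 17)) (cond (tb 199411 (Nat.mod D 19)) (cond (tb 340831 (Nat.mod D 23)) (cond (tb 303908791 (Nat.mod D 31)) (cond (tb 332473075 (Nat.mod D 29)) (cond (tb 96068509339 (Nat.mod D 37)) (cond (tb 1870503675703 (Nat.mod D 41)) (cond (tb 3678700564051 (Nat.mod D 43)) (cond (tb 4626135339999 (Nat.mod D 47)) (cond (tb 5310023542746835 (Nat.mod D 53)) (cond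 (tb 156326468341437115 (Nat.mod D 59)) (cond (tb 1662926210933060155 (Nat.mod D 61)) (cond (tb 61808106872519771731 (Nat.mod D 67)) (cond (tb 20052041432995567487 (Nat.mod D 71)) (cond (tb 9059857384996697084767 (Nat.mod D 73)) (cond (tb 89932533647391829339959 (Nat.mod D 79)) (true) false) false) false) false) false) false) false) false) false) false) false) false) false) false) false) false) false) false) false) false

theorem tb_sq {m k : ℕ} (hm : 0 < m) (h : (List.range m).all (fun x => tb k (x * x % m)) = true) (hM : m ∣ MM) {D : ℕ} {y : ℤ}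
    (hD : (MM : ℤ) ∣ D - y * y) : tb k (Nat.mod D m) = true := by
  have hm' : (0 : ℤ) < m := by exact_mod_cast hm
  have h1 : (0 : ℤ) ≤ y % m := Int.emod_nonneg _ hm'.ne'
  obtain ⟨z, hz⟩ := Int.eq_ofNat_of_zero_le h1
  have h2 : z < m := by
    have h3 := Int.emod_lt_of_pos y hm'
    rw [hz] at h3
    exact_mod_cast h3
  have h3 := List.all_eq_true.1 h z (List.mem_range.2 h2)
  have h4 : (m : ℤ) ∣ D - (z : ℤ) * z := by
    have h5 : (m : ℤ) ∣ D - y * y := (Int.natCast_dvd_natCast.2 hM).trans hD
    have h6 : (m : ℤ) ∣ y - z := by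
      have := Int.dvd_sub_self_of_emod_eq hz
      rw [← neg_sub, dvd_neg]
      exact this
    have h7 : (D : ℤ) - (z : ℤ) * z = (D - y * y) + (y - z) * (y + z) := by ring
    rw [h7]
    exact dvd_add h5 (Dvd.dvd.mul_right h6 _)
  have h5 : Nat.mod D m = z * z % m := by
    change D % m = z * z % m
    have h6 : ((D : ℤ) % m) = (((z * z : ℕ) : ℤ)) % m := by
      have h7 : ((z * z : ℕ) : ℤ) ≡ (D : ℤ) [ZMOD (m : ℤ)] := by
        rw [Nat.cast_mul]
        exact Int.modEq_iff_dvd.2 h4
      exact h7.symm
    exact_mod_cast h6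
  rw [h5]
  exact h3

theorem ms_sq {D : ℕ} {y : ℤ} (hD : (MM : ℤ) ∣ D - y * y) : ms D = true := by
  have h0 : tb 144680414395695635 (Nat.mod D 64) = true := tb_sq (by decide) (by decide +kernel) (by decide +kernel) hD
  have h1 : tb 288872697407275667 (Nat.mod D 63) = true := tb_sq (by decide) (by decide +kernel) (by decide +kernel) hD
  have h2 : tb 20863489977805260307 (Nat.mod D 65) = true := tb_sq (by decide) (by decide +kernel) (by decide +kernel) hD
  have h3 : tb 571 (Nat.mod D 11) = true := tb_sq (by decide) (by decide +kernel) (by decide +kernel) hD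
  have h4 : tb 107287 (Nat.mod D 17) = true := tb_sq (by decide) (by decide +kernel) (by decide +kernel) hD
  have h5 : tb 199411 (Nat.mod D 19) = true := tb_sq (by decide) (by decide +kernel) (by decide +kernel) hD
  have h6 : tb 340831 (Nat.mod D 23) = true := tb_sq (by decide) (by decide +kernel) (by decide +kernel) hD
  have h7 : tb 303908791 (Nat.mod D 31) = true := tb_sq (by decide) (by decide +kernel) (by decide +kernel) hD
  have h8 : tb 332473075 (Nat.mod D 29) = true := tb_sq (by decide) (by decide +kernel) (by decide +kernel) hD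
  have h9 : tb 96068509339 (Nat.mod D 37) = true := tb_sq (by decide) (by decide +kernel) (by decide +kernel) hD
  have h10 : tb 1870503675703 (Nat.mod D 41) = true := tb_sq (by decide) (by decide +kernel) (by decide +kernel) hD
  have h11 : tb 3678700564051 (Nat.mod D 43) = true := tb_sq (by decide) (by decide +kernel) (by decide +kernel) hD
  have h12 : tb 4626135339999 (Nat.mod D 47) = true := tb_sq (by decide) (by decide +kernel) (by decide +kernel) hD
  have h13 : tb 5310023542746835 (Nat.mod D 53) = true := tb_sq (by decide) (by decide +kernel) (by decide +kernel) hD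
  have h14 : tb 156326468341437115 (Nat.mod D 59) = true := tb_sq (by decide) (by decide +kernel) (by decide +kernel) hD
  have h15 : tb 1662926210933060155 (Nat.mod D 61) = true := tb_sq (by decide) (by decide +kernel) (by decide +kernel) hD
  have h16 : tb 61808106872519771731 (Nat.mod D 67) = true := tb_sq (by decide) (by decide +kernel) (by decide +kernel) hD
  have h17 : tb 20052041432995567487 (Nat.mod D 71) = true := tb_sq (by decide) (by decide +kernel) (by decide +kernel) hD
  have h18 : tb 9059857384996697084767 (Nat.mod D 73) = true := tb_sq (by decide) (by decide +kernel) (by decide +kernel) hD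
  have h19 : tb 89932533647391829339959 (Nat.mod D 79) = true := tb_sq (by decide) (by decide +kernel) (by decide +kernel) hD
  unfold ms
  rw [h0, h1, h2, h3, h4, h5, h6, h7, h8, h9, h10, h11, h12, h13, h14, h15, h16, h17, h18, h19]
  rfl

/-- Newton iteration -/
def nw (D : ℕ) : ℕ → ℕ → ℕ
  | 0, x => x
  | f + 1, x => nw D f ((x + D / x) / 2)

/-- a candidate for the integer part of the square root -/
def rt (D : ℕ) : ℕ :=
  let x := nw D 9 (2 ^ (D.log2 / 2 + 1))
  if x * x ≤ D then x else x - 1

/-- the quotient does not satisfy `p` -/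
def chk (A n : ℤ) (p : ℤ → Bool) : Bool := if n % (2 * A) = 0 then !(p (n / (2 * A))) else true

/-- exact test -/
def ex (D : ℕ) (A B : ℤ) (p : ℤ → Bool) : Bool :=
  let r := rt D
  if r * r < D then decide (D < (r + 1) * (r + 1))
  else if r * r = D then chk A (-B + r) p && chk A (-B - r) p
  else false

/-- no integer root with `p` -/
def noRoot (A B C : ℤ) (p : ℤ → Bool) : Bool :=
  let D := B * B - 4 * A * C
  match D with
  | Int.negSucc _ => true
  | Int.ofNat n => ex n A B p

theorem chk_of {A n x : ℤ} {p : ℤ → Bool} (h : chk A n p = true) (hA : A ≠ 0) (hn : n = 2 * A * x) : p x = false := by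
  have h2 : (2 * A : ℤ) ≠ 0 := mul_ne_zero two_ne_zero hA
  have h3 : n % (2 * A) = 0 := by rw [hn]; exact Int.mul_emod_right _ _
  have h4 : n / (2 * A) = x := by rw [hn]; exact Int.mul_ediv_cancel_left _ h2
  unfold chk at h
  rw [if_pos h3, h4] at h
  cases hp : p x
  · rfl
  · rw [hp] at h
    exact absurd h (by decide)

theorem ex_of {D : ℕ} {A B x : ℤ} {p : ℤ → Bool} (h : ex D A B p = true) (hA : A ≠ 0)
    (hD : ((2 * A * x + B).natAbs) * ((2 * A * x + B).natAbs) = D) : p x = false := by
  set y := (2 * A * x + B).natAbs with hy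
  unfold ex at h
  dsimp only at h
  set r := rt D with hr
  by_cases h1 : r * r < D
  · rw [if_pos h1] at h
    have h2 := of_decide_eq_true h
    exfalso
    rw [← hD] at h1 h2
    have h3 : r < y := lt_of_mul_self_lt_mul_self₀ (Nat.zero_le _) h1
    have h4 : y < r + 1 := lt_of_mul_self_lt_mul_self₀ (Nat.zero_le _) h2
    omega
  · rw [if_neg h1] at h
    by_cases h2 : r * r = D
    · rw [if_pos h2] at h
      have h3 : r = y := by
        have h4 : r * r = y * y := by rw [h2, hD]
        exact Nat.mul_self_inj.1 h4
      obtain ⟨h5, h6⟩ := Bool.and_eq_true_iff.1 h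
      have h7 : (r : ℤ) = 2 * A * x + B ∨ (r : ℤ) = -(2 * A * x + B) := by
        rw [h3, hy]
        rcases Int.natAbs_eq (2 * A * x + B) with h8 | h8
        · left; omega
        · right; omega
      rcases h7 with h7 | h7
      · exact chk_of h5 hA (by rw [h7]; ring)
      · exact chk_of h6 hA (by rw [h7]; ring)
    · rw [if_neg h2] at h
      exact absurd h (by decide)

theorem noRoot_of {A B C : ℤ} {p : ℤ → Bool} (h : noRoot A B C p = true) (hA : A ≠ 0) {x : ℤ}
    (hx : A * x ^ 2 + B * x + C = 0) : p x = false := by
  have h1 : B * B - 4 * A * C = ((((2 * A * x + B).natAbs) * ((2 * A * x + B).natAbs) : ℕ) : ℤ) := by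
    rw [Nat.cast_mul, Int.natCast_natAbs, abs_mul_abs_self]
    linear_combination (-4 * A) * hx
  unfold noRoot at h
  dsimp only at h
  rw [h1] at h
  exact ex_of h hA rfl

/-- test a function on `[lo, lo + len)` by bisection -/
def rg (f : ℕ → Bool) (n : ℕ) : ℕ → ℕ → Bool :=
  Nat.rec (fun _ len => Nat.beq len 0)
    (fun _ ih lo len => cond (Nat.beq len 0) true (cond (Nat.beq len 1) (f lo)
      (cond (ih lo (Nat.div len 2)) (ih (Nat.add lo (Nat.div len 2)) (Nat.sub len (Nat.div len 2))) false))) n

theorem rg_of (f : ℕ → Bool) : ∀ n lo len : ℕ, rg f n lo len = true → ∀ i, lo ≤ i → i < lo + len → f i = true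
  | 0, lo, len, h, i, h1, h2 => by
    have h3 : len = 0 := Nat.eq_of_beq_eq_true h
    omega
  | n + 1, lo, len, h, i, h1, h2 => by
    change cond (Nat.beq len 0) true (cond (Nat.beq len 1) (f lo)
      (cond (rg f n lo (len / 2)) (rg f n (lo + len / 2) (len - len / 2)) false)) = true at h
    by_cases h3 : len = 0
    · omega
    · have h3' : Nat.beq len 0 = false := by
        cases hb : Nat.beq len 0
        · rfl
        · exact absurd (Nat.eq_of_beq_eq_true hb) h3
      rw [h3', cond_false] at h
      by_cases h4 : len = 1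
      · rw [h4] at h
        have h5 : i = lo := by omega
        rw [h5]; exact h
      · have h4' : Nat.beq len 1 = false := by
          cases hb : Nat.beq len 1
          · rfl
          · exact absurd (Nat.eq_of_beq_eq_true hb) h4
        rw [h4', cond_false] at h
        cases h5 : rg f n lo (len / 2)
        · rw [h5, cond_false] at h
          exact absurd h Bool.false_ne_true
        · rw [h5, cond_true] at h
          by_cases h7 : i < lo + len / 2
          · exact rg_of f n _ _ h5 i h1 h7
          · exact rg_of f n _ _ h i (by omega) (by omega)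

end Pool.Agent.Lib.MP_ccbbf6_gt.K7.AR
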