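import Pool.Agent.Lib.MP_ccbbf6_gt.K7.AR01

/-!
# kappa = 7: the arithmetic end, part 2: the finite checks (helper92)
-/

set_option autoImplicit false

namespace Pool.Agent.Lib.MP_ccbbf6_gt.K7.AR

/-- sign -/
def sgn (b : Bool) : ℤ := cond b 1 (-1)

/-- condition on the unknown `c` for the first equation -/
def pP (g R c : ℤ) : Bool :=
  decide (90000 ≤ c * c) && (decide (36 * (g.natAbs ^ 3 : ℕ) ≤ c * c) &&
    (decide (R % 4 = 1) || decide ((7 * c * c + 32 * c + 85 * g - R) % 4 = 1)))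

/-- one test for the first equation -/
def tP (g de : ℤ) : Bool :=
  noRoot de (4098 * g - 96 * ((1364 * g - de) / 21))
    (3 * ((1364 * g - de) / 21) * ((1364 * g - de) / 21) - 255 * g * ((1364 * g - de) / 21) - 9216 * g)
    (pP g ((1364 * g - de) / 21))

/-- sieve, then test -/
def sv (t : ℕ → Bool) (a b c u : ℕ) : Bool :=
  cond (ms (Nat.add (Nat.mul (Nat.add (Nat.mul a u) b) u) c)) (cond (Nat.beq u 0) true (t u)) true

/-- residue modulo `MM` -/
def rM (x : ℤ) : ℕ := (x % (MM : ℤ)).toNat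

/-- all tests for `|de| = d`, `g` in the class `r` modulo 4 -/
def wP (s1 s2 : Bool) (r : ℤ) (d : ℕ) : Bool :=
  (fun (u0 a b c : ℕ) => rg (fun j => sv (fun u => tP (sgn s2 * u) (sgn s1 * d)) a b c (Nat.add u0 (Nat.mul 84 j))) 20 0
      (Nat.add (Nat.div 158100 (Nat.mul (Nat.mul d d) 84)) 1))
    ((64 * (-(sgn s2 * (sgn s1 * d))) + 21 * (sgn s2 * r)) % 84).toNat
    (rM (24680724201 + 84413868 * (sgn s1 * d)))
    (rM (sgn s2 * (93576672 * (sgn s1 * d) + 138621 * (sgn s1 * d) ^ 2)))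
    (rM (112896 * (sgn s1 * d) ^ 2 - 147 * (sgn s1 * d) ^ 3))

/-- all tests for `|de| = d` -/
def xP (d : ℕ) : Bool :=
  cond (Nat.beq d 0) true (wP true true 1 d && (wP true true 2 d && (wP true false 1 d && (wP true false 2 d &&
    (wP false true 1 d && (wP false true 2 d && (wP false false 1 d && wP false false 2 d)))))))

theorem xP_true : rg xP 20 0 400 = true := by decide +kernel

end Pool.Agent.Lib.MP_ccbbf6_gt.K7.AR
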