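import Pool.Agent.Lib.MP_ccbbf6_gt.K7.AR02

/-!
# kappa = 7: the arithmetic end, part 3: the finite check for the second equation (helper92)
-/

set_option autoImplicit false

namespace Pool.Agent.Lib.MP_ccbbf6_gt.K7.AR

/-- condition on the unknown `c` for the second equation -/
def pM (g k c : ℤ) : Bool :=
  decide (90000 ≤ c * c) && (decide (36 * (g.natAbs ^ 3 : ℕ) ≤ c * c) &&
    ((decide (k % 3 = 0) && decide (k / 3 % 4 = 1)) ||
      (decide ((-(149 * c * c - 96 * c + 255 * g) - k) % 3 = 0) &&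
        decide ((-(149 * c * c - 96 * c + 255 * g) - k) / 3 % 4 = 1))))

/-- one test for the second equation -/
def tM (g de : ℤ) : Bool :=
  noRoot de (-96 * ((28668 * g + de) / 149) + 61434 * g)
    (((28668 * g + de) / 149) * ((28668 * g + de) / 149) + 255 * g * ((28668 * g + de) / 149) - 27648 * g)
    (pM g ((28668 * g + de) / 149))

/-- all tests for `|de| = d`, `g` in the class `r` modulo 4 -/
def wM (s1 s2 : Bool) (r : ℤ) (d : ℕ) : Bool :=
  (fun (u0 a b c : ℕ) => rg (fun j => sv (fun u => tM (sgn s2 * u) (sgn s1 * d)) a b c (Nat.add u0 (Nat.mul 596 j))) 20 0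
      (Nat.add (Nat.div 61650000 (Nat.mul (Nat.mul d d) 596)) 1))
    ((448 * (72 * (sgn s2 * (sgn s1 * d))) + 149 * (sgn s2 * r)) % 596).toNat
    (rM (227447517570405561 + -42428217519684 * (sgn s1 * d)))
    (rM (sgn s2 * (6805481752224 * (sgn s1 * d) + -2116443531 * (sgn s1 * d) ^ 2)))
    (rM (51151104 * (sgn s1 * d) ^ 2 + -22201 * (sgn s1 * d) ^ 3))

/-- the class of `de` modulo 12 -/
def cM (s1 : Bool) (d : ℕ) : Bool :=
  Nat.beq (((sgn s1 * d) % 12).toNat) 3 || (Nat.beq (((sgn s1 * d) % 12).toNat) 0 || Nat.beq (((sgn s1 * d) % 12).toNat) 8)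

/-- all tests for `|de| = d` -/
def xM (d : ℕ) : Bool :=
  cond (Nat.beq d 0) true
    ((cond (cM true d) (wM true true 0 d && (wM true true 3 d && (wM true false 0 d && wM true false 3 d))) true) &&
     (cond (cM false d) (wM false true 0 d && (wM false true 3 d && (wM false false 0 d && wM false false 3 d))) true))

theorem xM_true : rg xM 20 0 7853 = true := by decide +kernel

end Pool.Agent.Lib.MP_ccbbf6_gt.K7.AR
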