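import Pool.Agent.Lib.MP_ccbbf6_gt.K7.AR02

/-!
# kappa = 7: the arithmetic end, part 4: small values of `c` (helper92)
-/

set_option autoImplicit false

namespace Pool.Agent.Lib.MP_ccbbf6_gt.K7.AR

/-- condition on the unknown `N` -/
def pB (g c N : ℤ) : Bool := decide (N % 4 = 1) && !(decide (g = 1) && decide (c = -6))

/-- the tests for given `g`, `c` -/
def tB (g c : ℤ) : Bool :=
  cond (decide (39 * ((g.natAbs ^ 3 : ℕ) : ℤ) ≤ ((3 * g + c * c).natAbs : ℤ)))
    (cond (ms (rM ((21 * c * c + 96 * c + 255 * g) * (21 * c * c + 96 * c + 255 * g) + 12 * (g * (9216 - 4098 * c - 1364 * c * c)))))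
      (noRoot 3 (-(21 * c * c + 96 * c + 255 * g)) (-(g * (9216 - 4098 * c - 1364 * c * c))) (pB g c)) true &&
     cond (ms (rM ((149 * c * c - 96 * c + 255 * g) * (149 * c * c - 96 * c + 255 * g) + 12 * (g * (9216 - 20478 * c + 9556 * c * c)))))
      (noRoot 3 (149 * c * c - 96 * c + 255 * g) (-(g * (9216 - 20478 * c + 9556 * c * c))) (pB g c)) true) true

/-- all tests for given `c` -/
def uB (i : ℕ) : Bool := rg (fun j => cond (Nat.beq j 13) true (tB ((j : ℤ) - 13) ((i : ℤ) - 300))) 10 0 27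

theorem uB_true : rg uB 20 0 601 = true := by decide +kernel

end Pool.Agent.Lib.MP_ccbbf6_gt.K7.AR
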