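import Pool.Agent.Lib.MP_ccbbf6_gt.ML

/-!
# kappa = 7: the arithmetic end, part 5: the size of the small root (helper92)
-/

set_option autoImplicit false

namespace Pool.Agent.Lib.MP_ccbbf6_gt.K7.AR

theorem G_le {x G : ℝ} (hx : 300 ≤ x) (hG : 36 * G ^ 3 ≤ x ^ 2) : G ≤ 455 / 10000 * x := by
  by_contra h
  push Not at h
  have h0 : (0 : ℝ) ≤ 455 / 10000 * x := by linarith
  have h1 : (455 / 10000 * x) ^ 3 < G ^ 3 := pow_lt_pow_left₀ h h0 (by norm_num)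
  have h2 : x ^ 2 * (36 * (455 / 10000) ^ 3 * x) < x ^ 2 * 1 := by nlinarith [h1, hG]
  have h3 : (0 : ℝ) < x ^ 2 := by positivity
  have h4 := lt_of_mul_lt_mul_left h2 h3.le
  norm_num at h4
  linarith

/-- the smaller root of `δ ^ 2 + S δ + P = 0` -/
theorem bd {S P d1 d2 G x u l κ : ℝ} (hs : d1 + d2 = -S) (hp : d1 * d2 = P) (hle : |d1| ≤ |d2|)
    (hS : l * x ^ 2 ≤ |S|) (hP : |P| ≤ u * G * x) (hx : 300 ≤ x) (hG0 : 0 ≤ G) (hG : 36 * G ^ 3 ≤ x ^ 2)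
    (hl : 0 < l) (hu : 0 < u) (hul : 2 * u * (455 / 10000) ≤ 9 * (l * l)) (hκ : u ^ 2 ≤ κ * (36 * (9999 / 10000 * l) ^ 2)) :
    d1 ^ 2 * G ≤ κ := by
  have hGx := G_le hx hG
  have hx0 : 0 < x := by linarith
  have h1 : |S| ≤ |d1| + |d2| := by
    have : |S| = |d1 + d2| := by rw [hs, abs_neg]
    rw [this]
    exact abs_add_le _ _
  have h2 : l * x ^ 2 ≤ 2 * |d2| := by linarith
  have h3 : |d1| * |d2| ≤ u * G * x := by
    rw [← abs_mul, hp]
    exact hP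
  have h4 : |d1| * (l * x ^ 2) ≤ 2 * (u * G * x) := by
    have := mul_le_mul_of_nonneg_left h2 (abs_nonneg d1)
    linarith
  -- |d1| ≤ 9 l
  have h5 : |d1| * (l * x ^ 2) ≤ 9 * l * (l * x ^ 2) := by
    have h6 : 2 * (u * G * x) ≤ 2 * u * (455 / 10000) * x ^ 2 := by nlinarith [mul_le_mul_of_nonneg_left hGx (mul_pos hu hx0).le]
    have h7 : 2 * u * (455 / 10000) * x ^ 2 ≤ 9 * (l * l) * x ^ 2 := mul_le_mul_of_nonneg_right hul (by positivity)
    nlinarith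
  have h6 : |d1| ≤ 9 * l := le_of_mul_le_mul_right h5 (by positivity)
  have h70 : (90000 : ℝ) ≤ x ^ 2 := by nlinarith
  have h71 : 9 * l ≤ 1 / 10000 * l * x ^ 2 := by
    have := mul_le_mul_of_nonneg_left h70 (show (0 : ℝ) ≤ 1 / 10000 * l by positivity)
    linarith
  have h7 : 9999 / 10000 * l * x ^ 2 ≤ |d2| := by linarith
  have h8 : |d1| * (9999 / 10000 * l * x ^ 2) ≤ u * G * x := (mul_le_mul_of_nonneg_left h7 (abs_nonneg d1)).trans h3
  have h9 : |d1| * (9999 / 10000 * l * x) ≤ u * G := by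
    have h10 : (|d1| * (9999 / 10000 * l * x)) * x ≤ (u * G) * x := by nlinarith [h8]
    exact le_of_mul_le_mul_right h10 hx0
  have h10 : (|d1| * (9999 / 10000 * l * x)) ^ 2 ≤ (u * G) ^ 2 := pow_le_pow_left₀ (by positivity) h9 2
  have h11 : d1 ^ 2 * G * ((9999 / 10000 * l) ^ 2 * x ^ 2) ≤ κ * ((9999 / 10000 * l) ^ 2 * x ^ 2) := by
    have h12 : d1 ^ 2 * (9999 / 10000 * l * x) ^ 2 ≤ u ^ 2 * G ^ 2 := by
      rw [← sq_abs d1]
      nlinarith [h10]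
    have h13 : d1 ^ 2 * (9999 / 10000 * l * x) ^ 2 * G ≤ u ^ 2 * G ^ 2 * G := mul_le_mul_of_nonneg_right h12 hG0
    have h14 : u ^ 2 * G ^ 3 ≤ κ * (36 * (9999 / 10000 * l) ^ 2) * G ^ 3 := mul_le_mul_of_nonneg_right hκ (by positivity)
    have hκ0 : 0 ≤ κ := by
      by_contra hc
      push Not at hc
      have : κ * (36 * (9999 / 10000 * l) ^ 2) < 0 := mul_neg_of_neg_of_pos hc (by positivity)
      nlinarith [sq_nonneg u]
    have h15 : κ * (9999 / 10000 * l) ^ 2 * (36 * G ^ 3) ≤ κ * (9999 / 10000 * l) ^ 2 * x ^ 2 :=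
      mul_le_mul_of_nonneg_left hG (by positivity)
    nlinarith
  exact le_of_mul_le_mul_right h11 (by positivity)

end Pool.Agent.Lib.MP_ccbbf6_gt.K7.AR
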