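import Pool.Agent.Lib.MP_ccbbf6_gt.K7.AR03

/-!
# kappa = 7: the arithmetic end, part 6: soundness of the checks (helper92)
-/

set_option autoImplicit false

namespace Pool.Agent.Lib.MP_ccbbf6_gt.K7.AR

theorem rM_dvd (x : ℤ) : (MM : ℤ) ∣ (rM x : ℤ) - x := by
  have h0 : (0 : ℤ) < (MM : ℤ) := by
    unfold MM
    norm_num
  unfold rM
  rw [Int.toNat_of_nonneg (Int.emod_nonneg _ h0.ne')]
  have h1 := Int.emod_add_mul_ediv x (MM : ℤ)
  exact ⟨-(x / (MM : ℤ)), by linear_combination h1⟩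

theorem sgn_mul (b : Bool) : sgn b * sgn b = 1 := by cases b <;> rfl

theorem exists_sgn (x : ℤ) : ∃ b : Bool, x = sgn b * (x.natAbs : ℤ) := by
  rcases Int.natAbs_eq x with h | h
  · exact ⟨true, by change x = 1 * (x.natAbs : ℤ); omega⟩
  · exact ⟨false, by change x = -1 * (x.natAbs : ℤ); omega⟩

/-- the sieve lets squares pass -/
theorem sv_of {t : ℕ → Bool} {a b c : ℤ} {u : ℕ} {A B C : ℕ} (hu : u ≠ 0) (hA : (MM : ℤ) ∣ A - a) (hB : (MM : ℤ) ∣ B - b)
    (hC : (MM : ℤ) ∣ C - c) (h : sv t A B C u = true) {y : ℤ} (hy : (a * u + b) * u + c = y * y) : t u = true := by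
  have h1 : ms (Nat.add (Nat.mul (Nat.add (Nat.mul A u) B) u) C) = true := by
    refine ms_sq (y := y) ?_
    change (MM : ℤ) ∣ (((A * u + B) * u + C : ℕ) : ℤ) - y * y
    rw [← hy]
    push_cast
    have h2 : ((A : ℤ) * u + B) * u + C - ((a * u + b) * u + c) = (A - a) * (u * u) + (B - b) * u + (C - c) := by ring
    rw [h2]
    exact dvd_add (dvd_add (Dvd.dvd.mul_right hA _) (Dvd.dvd.mul_right hB _)) hC
  have h2 : Nat.beq u 0 = false := by
    cases hb : Nat.beq u 0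
    · rfl
    · exact absurd (Nat.eq_of_beq_eq_true hb) hu
  unfold sv at h
  rw [h1, cond_true, h2, cond_false] at h
  exact h

/-- an arithmetic progression -/
theorem prog {u m : ℕ} {v : ℤ} (hm : 0 < m) (h : (m : ℤ) ∣ u - v) : ∃ j : ℕ, u = (v % (m : ℤ)).toNat + m * j := by
  have hm' : (0 : ℤ) < m := by exact_mod_cast hm
  refine ⟨u / m, ?_⟩
  have h1 : (u : ℤ) % m = v % m := ((Int.modEq_iff_dvd).2 h).symm
  have h2 : ((u % m : ℕ) : ℤ) = v % m := by
    rw [← h1]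
    norm_cast
  rw [← h2, Int.toNat_natCast]
  exact (Nat.mod_add_div u m).symm

theorem wP_of {s1 s2 : Bool} {r : ℤ} {d u : ℕ} (h : wP s1 s2 r d = true) (hd : d ≠ 0) (hu : u ≠ 0)
    (hr : (4 : ℤ) ∣ sgn s2 * u - r) (h21 : (21 : ℤ) ∣ 1364 * (sgn s2 * u) - sgn s1 * d)
    (hK : d * d * u ≤ 158100) {c : ℤ}
    (hc : 147 * (sgn s1 * d) * c ^ 2 + (672 * (sgn s1 * d) - 314202 * (sgn s2 * u)) * c +
      ((sgn s1 * d) ^ 2 - 943 * (sgn s2 * u) * (sgn s1 * d) - 574244 * (sgn s2 * u) ^ 2 - 1354752 * (sgn s2 * u)) = 0) :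
    tP (sgn s2 * u) (sgn s1 * d) = true := by
  set de : ℤ := sgn s1 * d with hde
  have hs2 := sgn_mul s2
  obtain ⟨j, hj⟩ := prog (u := u) (m := 84) (v := 64 * (-(sgn s2 * de)) + 21 * (sgn s2 * r)) (by norm_num) (by
    obtain ⟨x, hx⟩ := hr
    obtain ⟨y, hy⟩ := h21
    have e1 : (u : ℤ) - r * sgn s2 = 4 * (sgn s2 * x) := by linear_combination sgn s2 * hx - (u : ℤ) * hs2
    have e2 : 1364 * (u : ℤ) - sgn s2 * de = 21 * (sgn s2 * y) := by linear_combination sgn s2 * hy - 1364 * (u : ℤ) * hs2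
    have e3 : (21 : ℤ) ∣ u + sgn s2 * de := by
      refine ⟨65 * u - sgn s2 * y, ?_⟩
      linear_combination -e2
    obtain ⟨z, hz⟩ := e3
    have e4 : (4 : ℤ) ∣ (u : ℤ) - (64 * (-(sgn s2 * de)) + 21 * (sgn s2 * r)) := by
      refine ⟨16 * (sgn s2 * de) + sgn s2 * x - 5 * (sgn s2 * r), ?_⟩
      linear_combination e1
    have e5 : (21 : ℤ) ∣ (u : ℤ) - (64 * (-(sgn s2 * de)) + 21 * (sgn s2 * r)) := by
      refine ⟨64 * z - 3 * u - sgn s2 * r, ?_⟩
      linear_combination 64 * hz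
    have e6 : IsCoprime (4 : ℤ) 21 := by
      refine ⟨-5, 1, ?_⟩
      norm_num
    have e7 := e6.mul_dvd e4 e5
    have e8 : (4 * 21 : ℤ) = ((84 : ℕ) : ℤ) := by norm_num
    rw [e8] at e7
    exact e7)
  unfold wP at h
  beta_reduce at h
  have h1 := rg_of _ _ _ _ h j (Nat.zero_le _) (by
    rw [zero_add]
    change j < 158100 / (d * d * 84) + 1
    have h2 : 0 < d * d * 84 := by positivity
    rw [Nat.lt_succ_iff, Nat.le_div_iff_mul_le h2]
    have h3 : 84 * j ≤ u := by rw [hj]; exact Nat.le_add_left _ _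
    calc j * (d * d * 84) = d * d * (84 * j) := by ring
      _ ≤ d * d * u := Nat.mul_le_mul_left _ h3
      _ ≤ 158100 := hK)
  have h2 : Nat.add ((64 * (-(sgn s2 * (sgn s1 * d))) + 21 * (sgn s2 * r)) % 84).toNat (Nat.mul 84 j) = u := by
    rw [hj]
    rfl
  rw [h2] at h1
  refine sv_of hu (rM_dvd _) (rM_dvd _) (rM_dvd _) h1 (y := 147 * de * c + 336 * de - 157101 * (sgn s2 * u)) ?_
  linear_combination (-147 * de) * hc - (24680724201 + 84413868 * de) * (u : ℤ) ^ 2 * hs2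

theorem wM_of {s1 s2 : Bool} {r : ℤ} {d u : ℕ} (h : wM s1 s2 r d = true) (hd : d ≠ 0) (hu : u ≠ 0)
    (hr : (4 : ℤ) ∣ sgn s2 * u - r) (h149 : (149 : ℤ) ∣ 28668 * (sgn s2 * u) + sgn s1 * d)
    (hK : d * d * u ≤ 61650000) {c : ℤ}
    (hc : 22201 * (sgn s1 * d) * c ^ 2 + (-14304 * (sgn s1 * d) + 953829162 * (sgn s2 * u)) * c +
      ((sgn s1 * d) ^ 2 + 95331 * (sgn s2 * u) * (sgn s1 * d) + 1911094884 * (sgn s2 * u) ^ 2 - 613813248 * (sgn s2 * u)) = 0) :
    tM (sgn s2 * u) (sgn s1 * d) = true := by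
  set de : ℤ := sgn s1 * d with hde
  have hs2 := sgn_mul s2
  obtain ⟨j, hj⟩ := prog (u := u) (m := 596) (v := 448 * (72 * (sgn s2 * de)) + 149 * (sgn s2 * r)) (by norm_num) (by
    obtain ⟨x, hx⟩ := hr
    obtain ⟨y, hy⟩ := h149
    have e1 : (u : ℤ) - r * sgn s2 = 4 * (sgn s2 * x) := by linear_combination sgn s2 * hx - (u : ℤ) * hs2
    have e2 : 28668 * (u : ℤ) + sgn s2 * de = 149 * (sgn s2 * y) := by linear_combination sgn s2 * hy - 28668 * (u : ℤ) * hs2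
    have e3 : (149 : ℤ) ∣ u - 72 * (sgn s2 * de) := by
      refine ⟨13853 * u - 72 * (sgn s2 * y), ?_⟩
      linear_combination -72 * e2
    obtain ⟨z, hz⟩ := e3
    have e4 : (4 : ℤ) ∣ (u : ℤ) - (448 * (72 * (sgn s2 * de)) + 149 * (sgn s2 * r)) := by
      refine ⟨-(112 * (72 * (sgn s2 * de))) + sgn s2 * x - 37 * (sgn s2 * r), ?_⟩
      linear_combination e1
    have e5 : (149 : ℤ) ∣ (u : ℤ) - (448 * (72 * (sgn s2 * de)) + 149 * (sgn s2 * r)) := by
      refine ⟨448 * z - 3 * u - sgn s2 * r, ?_⟩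
      linear_combination 448 * hz
    have e6 : IsCoprime (4 : ℤ) 149 := by
      refine ⟨-37, 1, ?_⟩
      norm_num
    have e7 := e6.mul_dvd e4 e5
    have e8 : (4 * 149 : ℤ) = ((596 : ℕ) : ℤ) := by norm_num
    rw [e8] at e7
    exact e7)
  unfold wM at h
  beta_reduce at h
  have h1 := rg_of _ _ _ _ h j (Nat.zero_le _) (by
    rw [zero_add]
    change j < 61650000 / (d * d * 596) + 1
    have h2 : 0 < d * d * 596 := by positivity
    rw [Nat.lt_succ_iff, Nat.le_div_iff_mul_le h2]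
    have h3 : 596 * j ≤ u := by rw [hj]; exact Nat.le_add_left _ _
    calc j * (d * d * 596) = d * d * (596 * j) := by ring
      _ ≤ d * d * u := Nat.mul_le_mul_left _ h3
      _ ≤ 61650000 := hK)
  have h2 : Nat.add ((448 * (72 * (sgn s2 * (sgn s1 * d))) + 149 * (sgn s2 * r)) % 596).toNat (Nat.mul 596 j) = u := by
    rw [hj]
    rfl
  rw [h2] at h1
  refine sv_of hu (rM_dvd _) (rM_dvd _) (rM_dvd _) h1 (y := 22201 * de * c - 7152 * de + 476914581 * (sgn s2 * u)) ?_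
  linear_combination (-22201 * de) * hc - (227447517570405561 + -42428217519684 * de) * (u : ℤ) ^ 2 * hs2

end Pool.Agent.Lib.MP_ccbbf6_gt.K7.AR
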