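import Pool.Agent.Lib.MP_ccbbf6_gt.K7.AR06

/-!
# kappa = 7: the arithmetic end, part 7: the Diophantine theorem (helper92)
-/

set_option autoImplicit false

namespace Pool.Agent.Lib.MP_ccbbf6_gt.K7.AR

theorem xP_of {d : ℕ} (h : xP d = true) (hd : d ≠ 0) (s1 s2 : Bool) {r : ℤ} (hr : r = 1 ∨ r = 2) :
    wP s1 s2 r d = true := by
  have h1 : Nat.beq d 0 = false := by
    cases hb : Nat.beq d 0
    · rfl
    · exact absurd (Nat.eq_of_beq_eq_true hb) hd
  unfold xP at h
  rw [h1, cond_false] at h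
  simp only [Bool.and_eq_true] at h
  obtain ⟨a1, a2, a3, a4, a5, a6, a7, a8⟩ := h
  rcases hr with hr | hr
  · subst hr
    cases s1
    · cases s2
      · exact a7
      · exact a5
    · cases s2
      · exact a3
      · exact a1
  · subst hr
    cases s1
    · cases s2
      · exact a8
      · exact a6
    · cases s2
      · exact a4
      · exact a2

theorem xM_of {d : ℕ} (h : xM d = true) (hd : d ≠ 0) (s1 s2 : Bool) (hc : cM s1 d = true) {r : ℤ} (hr : r = 0 ∨ r = 3) :
    wM s1 s2 r d = true := by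
  have h1 : Nat.beq d 0 = false := by
    cases hb : Nat.beq d 0
    · rfl
    · exact absurd (Nat.eq_of_beq_eq_true hb) hd
  unfold xM at h
  rw [h1, cond_false] at h
  obtain ⟨h2, h3⟩ := Bool.and_eq_true_iff.1 h
  cases s1
  · rw [hc, cond_true] at h3
    simp only [Bool.and_eq_true] at h3
    obtain ⟨a1, a2, a3, a4⟩ := h3
    rcases hr with hr | hr
    · subst hr
      cases s2
      · exact a3
      · exact a1
    · subst hr
      cases s2
      · exact a4
      · exact a2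
  · rw [hc, cond_true] at h2
    simp only [Bool.and_eq_true] at h2
    obtain ⟨a1, a2, a3, a4⟩ := h2
    rcases hr with hr | hr
    · subst hr
      cases s2
      · exact a3
      · exact a1
    · subst hr
      cases s2
      · exact a4
      · exact a2

theorem plus_large {g c R : ℤ} (hE : 3 * R ^ 2 - (21 * c ^ 2 + 96 * c + 255 * g) * R - g * (9216 - 4098 * c - 1364 * c ^ 2) = 0)
    (hg : g ≠ 0) (h36 : 36 * ((g.natAbs ^ 3 : ℕ) : ℤ) ≤ c * c) (h9 : 90000 ≤ c * c) (hpar : g % 4 = 1 ∨ g % 4 = 2)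
    (hmod : R % 4 = 1 ∨ (7 * c * c + 32 * c + 85 * g - R) % 4 = 1)
    (hsm : (1364 * g - 21 * R).natAbs * (1364 * g - 21 * R).natAbs * g.natAbs ≤ 158100) (hne : 1364 * g - 21 * R ≠ 0) : False := by
  set de : ℤ := 1364 * g - 21 * R with hde
  obtain ⟨s1, hs1⟩ := exists_sgn de
  obtain ⟨s2, hs2⟩ := exists_sgn g
  set d := de.natAbs with hd
  set u := g.natAbs with hu
  have hd0 : d ≠ 0 := Int.natAbs_ne_zero.2 hne
  have hu0 : u ≠ 0 := Int.natAbs_ne_zero.2 hg
  have h400 : d < 400 := by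
    by_contra hc'
    push Not at hc'
    have h1 : 400 * 400 * 1 ≤ d * d * u := Nat.mul_le_mul (Nat.mul_le_mul hc' hc') (Nat.one_le_iff_ne_zero.2 hu0)
    omega
  have hx := rg_of _ _ _ _ xP_true d (Nat.zero_le _) (by omega)
  obtain ⟨r, hr, hr4⟩ : ∃ r : ℤ, (r = 1 ∨ r = 2) ∧ (4 : ℤ) ∣ g - r := by
    rcases hpar with h | h
    · exact ⟨1, Or.inl rfl, by omega⟩
    · exact ⟨2, Or.inr rfl, by omega⟩
  have hw := xP_of hx hd0 s1 s2 hr
  have hR : (1364 * g - de) / 21 = R := by omega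
  have ht : tP g de = true := by
    have := wP_of hw hd0 hu0 (by rw [← hs2]; exact hr4) (by rw [← hs1, ← hs2]; exact ⟨R, by rw [hde]; ring⟩) hsm (c := c)
      (by rw [← hs1, ← hs2, hde]; linear_combination 147 * hE)
    rw [← hs1, ← hs2] at this
    exact this
  unfold tP at ht
  rw [hR] at ht
  have h1 := noRoot_of ht hne (x := c) (by rw [hde]; linear_combination hE)
  have h2 : pP g R c = true := by
    unfold pP
    rw [Bool.and_eq_true, Bool.and_eq_true, Bool.or_eq_true]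
    refine ⟨decide_eq_true h9, decide_eq_true h36, ?_⟩
    rcases hmod with h | h
    · exact Or.inl (decide_eq_true h)
    · exact Or.inr (decide_eq_true h)
  rw [h1] at h2
  exact absurd h2 (by decide)

theorem minus_large {g c k : ℤ} (hE : k ^ 2 + (149 * c ^ 2 - 96 * c + 255 * g) * k - 3 * g * (9216 - 20478 * c + 9556 * c ^ 2) = 0)
    (hg : g ≠ 0) (h36 : 36 * ((g.natAbs ^ 3 : ℕ) : ℤ) ≤ c * c) (h9 : 90000 ≤ c * c) (hpar : g % 4 = 0 ∨ g % 4 = 3)
    (hmod : (k % 3 = 0 ∧ k / 3 % 4 = 1) ∨ ((-(149 * c * c - 96 * c + 255 * g) - k) % 3 = 0 ∧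
      (-(149 * c * c - 96 * c + 255 * g) - k) / 3 % 4 = 1))
    (hcl : (149 * k - 28668 * g) % 12 = 3 ∨ (149 * k - 28668 * g) % 12 = 0 ∨ (149 * k - 28668 * g) % 12 = 8)
    (hsm : (149 * k - 28668 * g).natAbs * (149 * k - 28668 * g).natAbs * g.natAbs ≤ 61650000)
    (hne : 149 * k - 28668 * g ≠ 0) : False := by
  set de : ℤ := 149 * k - 28668 * g with hde
  obtain ⟨s1, hs1⟩ := exists_sgn de
  obtain ⟨s2, hs2⟩ := exists_sgn g
  set d := de.natAbs with hd
  set u := g.natAbs with hu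
  have hd0 : d ≠ 0 := Int.natAbs_ne_zero.2 hne
  have hu0 : u ≠ 0 := Int.natAbs_ne_zero.2 hg
  have h400 : d < 7853 := by
    by_contra hc'
    push Not at hc'
    have h1 : 7853 * 7853 * 1 ≤ d * d * u := Nat.mul_le_mul (Nat.mul_le_mul hc' hc') (Nat.one_le_iff_ne_zero.2 hu0)
    omega
  have hx := rg_of _ _ _ _ xM_true d (Nat.zero_le _) (by omega)
  obtain ⟨r, hr, hr4⟩ : ∃ r : ℤ, (r = 0 ∨ r = 3) ∧ (4 : ℤ) ∣ g - r := by
    rcases hpar with h | h
    · exact ⟨0, Or.inl rfl, by omega⟩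
    · exact ⟨3, Or.inr rfl, by omega⟩
  have hcM : cM s1 d = true := by
    unfold cM
    rw [← hs1]
    rcases hcl with h | h | h <;> rw [h] <;> rfl
  have hw := xM_of hx hd0 s1 s2 hcM hr
  have hk : (28668 * g + de) / 149 = k := by omega
  have ht : tM g de = true := by
    have := wM_of hw hd0 hu0 (by rw [← hs2]; exact hr4) (by rw [← hs1, ← hs2]; exact ⟨k, by rw [hde]; ring⟩) hsm (c := c)
      (by rw [← hs1, ← hs2, hde]; linear_combination 22201 * hE)
    rw [← hs1, ← hs2] at this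
    exact this
  unfold tM at ht
  rw [hk] at ht
  have h1 := noRoot_of ht hne (x := c) (by rw [hde]; linear_combination hE)
  have h2 : pM g k c = true := by
    unfold pM
    rw [Bool.and_eq_true, Bool.and_eq_true, Bool.or_eq_true, Bool.and_eq_true, Bool.and_eq_true]
    refine ⟨decide_eq_true h9, decide_eq_true h36, ?_⟩
    rcases hmod with h | h
    · exact Or.inl ⟨decide_eq_true h.1, decide_eq_true h.2⟩
    · exact Or.inr ⟨decide_eq_true h.1, decide_eq_true h.2⟩
  rw [h1] at h2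
  exact absurd h2 (by decide)

end Pool.Agent.Lib.MP_ccbbf6_gt.K7.AR
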