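import Pool.Agent.Lib.MP_ccbbf6_gt.K7.AR04
import Pool.Agent.Lib.MP_ccbbf6_gt.K7.AR05
import Pool.Agent.Lib.MP_ccbbf6_gt.K7.AR06

/-!
# kappa = 7: the arithmetic end, part 8: the Diophantine theorem, end (helper92)
-/

set_option autoImplicit false

namespace Pool.Agent.Lib.MP_ccbbf6_gt.K7.AR

/-- `P` and `M` equations -/
def EP (g c N : ℤ) : Prop := 3 * N ^ 2 - (21 * c ^ 2 + 96 * c + 255 * g) * N - g * (9216 - 4098 * c - 1364 * c ^ 2) = 0

def EM (g c N : ℤ) : Prop := 3 * N ^ 2 + (149 * c ^ 2 - 96 * c + 255 * g) * N - g * (9216 - 20478 * c + 9556 * c ^ 2) = 0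

theorem tB_of {g c N : ℤ} (h : tB g c = true) (hV : 39 * ((g.natAbs ^ 3 : ℕ) : ℤ) ≤ ((3 * g + c * c).natAbs : ℤ))
    (hE : EP g c N ∨ EM g c N) (hN : N % 4 = 1) : g = 1 ∧ c = -6 := by
  unfold tB at h
  rw [decide_eq_true hV, cond_true, Bool.and_eq_true] at h
  have key : pB g c N = false → g = 1 ∧ c = -6 := by
    intro h1
    unfold pB at h1
    rw [decide_eq_true hN, Bool.true_and, Bool.not_eq_false', Bool.and_eq_true] at h1
    exact ⟨of_decide_eq_true h1.1, of_decide_eq_true h1.2⟩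
  apply key
  rcases hE with hE | hE
  · have h1 := h.1
    have h2 : ms (rM ((21 * c * c + 96 * c + 255 * g) * (21 * c * c + 96 * c + 255 * g) + 12 * (g * (9216 - 4098 * c - 1364 * c * c)))) = true := by
      refine ms_sq (y := 6 * N - (21 * c * c + 96 * c + 255 * g)) ?_
      have h3 := rM_dvd ((21 * c * c + 96 * c + 255 * g) * (21 * c * c + 96 * c + 255 * g) + 12 * (g * (9216 - 4098 * c - 1364 * c * c)))
      have h4 : (6 * N - (21 * c * c + 96 * c + 255 * g)) * (6 * N - (21 * c * c + 96 * c + 255 * g)) =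
          (21 * c * c + 96 * c + 255 * g) * (21 * c * c + 96 * c + 255 * g) + 12 * (g * (9216 - 4098 * c - 1364 * c * c)) := by
        unfold EP at hE
        linear_combination 12 * hE
      rw [h4]
      exact h3
    rw [h2, cond_true] at h1
    refine noRoot_of h1 (by norm_num) ?_
    unfold EP at hE
    linear_combination hE
  · have h1 := h.2
    have h2 : ms (rM ((149 * c * c - 96 * c + 255 * g) * (149 * c * c - 96 * c + 255 * g) + 12 * (g * (9216 - 20478 * c + 9556 * c * c)))) = true := by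
      refine ms_sq (y := 6 * N + (149 * c * c - 96 * c + 255 * g)) ?_
      have h3 := rM_dvd ((149 * c * c - 96 * c + 255 * g) * (149 * c * c - 96 * c + 255 * g) + 12 * (g * (9216 - 20478 * c + 9556 * c * c)))
      have h4 : (6 * N + (149 * c * c - 96 * c + 255 * g)) * (6 * N + (149 * c * c - 96 * c + 255 * g)) =
          (149 * c * c - 96 * c + 255 * g) * (149 * c * c - 96 * c + 255 * g) + 12 * (g * (9216 - 20478 * c + 9556 * c * c)) := by
        unfold EM at hE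
        linear_combination 12 * hE
      rw [h4]
      exact h3
    rw [h2, cond_true] at h1
    refine noRoot_of h1 (by norm_num) ?_
    unfold EM at hE
    linear_combination hE

theorem small {g c N : ℤ} (hg : g ≠ 0) (hc1 : -300 < c) (hc2 : c < 300)
    (hV : 39 * ((g.natAbs ^ 3 : ℕ) : ℤ) ≤ ((3 * g + c * c).natAbs : ℤ))
    (hE : EP g c N ∨ EM g c N) (hN : N % 4 = 1) : g = 1 ∧ c = -6 := by
  have h1 : c * c < 90000 := by nlinarith
  have h2 : 39 * g.natAbs ^ 3 ≤ 3 * g.natAbs + 90000 := by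
    have h3 : ((3 * g + c * c).natAbs : ℤ) ≤ 3 * (g.natAbs : ℤ) + 90000 := by
      rw [Int.natCast_natAbs, Int.natCast_natAbs]
      refine (abs_add_le _ _).trans ?_
      rw [abs_mul, abs_of_nonneg (mul_self_nonneg c)]
      norm_num
      exact h1.le
    have h4 := hV.trans h3
    exact_mod_cast h4
  have h3 : g.natAbs < 14 := by
    by_contra hc'
    push Not at hc'
    have h4 : 14 * 14 * g.natAbs ≤ g.natAbs * g.natAbs * g.natAbs := Nat.mul_le_mul (Nat.mul_le_mul hc' hc') le_rfl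
    have h5 : g.natAbs ^ 3 = g.natAbs * g.natAbs * g.natAbs := by ring
    rw [h5] at h2
    omega
  have h4 := rg_of _ _ _ _ uB_true (c + 300).toNat (Nat.zero_le _) (by omega)
  unfold uB at h4
  have h5 := rg_of _ _ _ _ h4 (g + 13).toNat (Nat.zero_le _) (by omega)
  have h6 : (((g + 13).toNat : ℕ) : ℤ) - 13 = g := by omega
  have h7 : (((c + 300).toNat : ℕ) : ℤ) - 300 = c := by omega
  have h8 : Nat.beq (g + 13).toNat 13 = false := by
    cases hb : Nat.beq (g + 13).toNat 13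
    · rfl
    · have := Nat.eq_of_beq_eq_true hb
      omega
  rw [h6, h7, h8, cond_false] at h5
  exact tB_of h5 hV hE hN

/-- sizes -/
theorem sizes {g c : ℤ} (hg : g ≠ 0) (hc : 300 ≤ |c|) (hV : 39 * ((g.natAbs ^ 3 : ℕ) : ℤ) ≤ ((3 * g + c * c).natAbs : ℤ)) :
    36 * ((g.natAbs ^ 3 : ℕ) : ℤ) ≤ c * c ∧ 90000 ≤ c * c ∧ (300 : ℝ) ≤ |(c : ℝ)| ∧ 36 * |(g : ℝ)| ^ 3 ≤ |(c : ℝ)| ^ 2 ∧
      (1 : ℝ) ≤ |(g : ℝ)| := by
  have h0 : 1 ≤ g.natAbs := Nat.one_le_iff_ne_zero.2 (Int.natAbs_ne_zero.2 hg)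
  have h1 : ((3 * g + c * c).natAbs : ℤ) ≤ 3 * (g.natAbs : ℤ) + c * c := by
    rw [Int.natCast_natAbs, Int.natCast_natAbs]
    refine (abs_add_le _ _).trans ?_
    rw [abs_mul, abs_of_nonneg (mul_self_nonneg c)]
    norm_num
  have h2 : g.natAbs ≤ g.natAbs ^ 3 := Nat.le_self_pow (by norm_num) _
  have h3 : 36 * ((g.natAbs ^ 3 : ℕ) : ℤ) ≤ c * c := by
    have h4 := hV.trans h1
    have h5 : (g.natAbs : ℤ) ≤ ((g.natAbs ^ 3 : ℕ) : ℤ) := by exact_mod_cast h2
    linarith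
  have h4 : 90000 ≤ c * c := by
    rw [← abs_mul_abs_self c]
    nlinarith
  refine ⟨h3, h4, ?_, ?_, ?_⟩
  · exact_mod_cast hc
  · have h5 : ((36 * ((g.natAbs ^ 3 : ℕ) : ℤ) : ℤ) : ℝ) ≤ ((c * c : ℤ) : ℝ) := by exact_mod_cast h3
    push_cast at h5
    rw [sq_abs]
    linarith
  · have h5 : ((1 : ℕ) : ℝ) ≤ ((g.natAbs : ℕ) : ℝ) := by exact_mod_cast h0
    rw [Nat.cast_natAbs, Int.cast_abs] at h5
    simpa using h5

theorem toK {de g : ℤ} {K : ℕ} (h : (de : ℝ) ^ 2 * |(g : ℝ)| ≤ K) : de.natAbs * de.natAbs * g.natAbs ≤ K := by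
  have h1 : (((de.natAbs * de.natAbs * g.natAbs : ℕ)) : ℝ) ≤ ((K : ℕ) : ℝ) := by
    push_cast
    rw [Nat.cast_natAbs, Nat.cast_natAbs, Int.cast_abs, Int.cast_abs, abs_mul_abs_self]
    calc (de : ℝ) * de * |(g : ℝ)| = (de : ℝ) ^ 2 * |(g : ℝ)| := by ring
      _ ≤ K := h
  exact_mod_cast h1

/-- the bound for the first equation -/
theorem bdP {g c d1 d2 : ℤ} (hx : (300 : ℝ) ≤ |(c : ℝ)|) (hG : 36 * |(g : ℝ)| ^ 3 ≤ |(c : ℝ)| ^ 2)
    (hs : d1 + d2 = -(147 * c ^ 2 + 672 * c - 943 * g)) (hp : d1 * d2 = -(g * (314202 * c + 574244 * g + 1354752)))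
    (hle : |d1| ≤ |d2|) : d1.natAbs * d1.natAbs * g.natAbs ≤ 158100 := by
  refine toK ?_
  have hGx := G_le hx hG
  have hG0 : 0 ≤ |(g : ℝ)| := abs_nonneg _
  refine bd (S := 147 * (c : ℝ) ^ 2 + 672 * c - 943 * g) (P := -((g : ℝ) * (314202 * c + 574244 * g + 1354752))) (d2 := (d2 : ℝ))
    (x := |(c : ℝ)|) (u := 344900) (l := 1446 / 10) (by exact_mod_cast hs) (by exact_mod_cast hp) (by exact_mod_cast hle) ?_ ?_ hx hG0 hG
    (by norm_num) (by norm_num) (by norm_num) (by norm_num)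
  · refine le_trans ?_ (le_abs_self _)
    have h1 := neg_abs_le (c : ℝ)
    have h2 := le_abs_self (g : ℝ)
    rw [← sq_abs (c : ℝ)]
    nlinarith
  · rw [abs_neg, abs_mul]
    have h1 : |314202 * (c : ℝ) + 574244 * g + 1354752| ≤ 314202 * |(c : ℝ)| + 574244 * |(g : ℝ)| + 1354752 := by
      refine (abs_add_le _ _).trans ?_
      refine add_le_add ((abs_add_le _ _).trans ?_) ?_
      · rw [abs_mul, abs_mul]
        norm_num
      · norm_num
    have h2 : 314202 * |(c : ℝ)| + 574244 * |(g : ℝ)| + 1354752 ≤ 344900 * |(c : ℝ)| := by nlinarith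
    calc |(g : ℝ)| * |314202 * (c : ℝ) + 574244 * g + 1354752| ≤ |(g : ℝ)| * (344900 * |(c : ℝ)|) :=
          mul_le_mul_of_nonneg_left (h1.trans h2) hG0
      _ = 344900 * |(g : ℝ)| * |(c : ℝ)| := by ring

/-- the bound for the second equation -/
theorem bdM {g c d1 d2 : ℤ} (hx : (300 : ℝ) ≤ |(c : ℝ)|) (hG : 36 * |(g : ℝ)| ^ 3 ≤ |(c : ℝ)| ^ 2)
    (hs : d1 + d2 = -(22201 * c ^ 2 - 14304 * c + 95331 * g))
    (hp : d1 * d2 = 3 * (g * (317943054 * c + 637031628 * g - 204604416)))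
    (hle : |d1| ≤ |d2|) : d1.natAbs * d1.natAbs * g.natAbs ≤ 61650000 := by
  refine toK ?_
  have hGx := G_le hx hG
  have hG0 : 0 ≤ |(g : ℝ)| := abs_nonneg _
  refine bd (S := 22201 * (c : ℝ) ^ 2 - 14304 * c + 95331 * g) (P := 3 * ((g : ℝ) * (317943054 * c + 637031628 * g - 204604416)))
    (d2 := (d2 : ℝ)) (x := |(c : ℝ)|) (u := 1042840000) (l := 221388 / 10) (by exact_mod_cast hs) (by exact_mod_cast hp)
    (by exact_mod_cast hle) ?_ ?_ hx hG0 hG (by norm_num) (by norm_num) (by norm_num) (by norm_num)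
  · refine le_trans ?_ (le_abs_self _)
    have h1 := le_abs_self (c : ℝ)
    have h2 := neg_abs_le (g : ℝ)
    rw [← sq_abs (c : ℝ)]
    nlinarith
  · rw [abs_mul, abs_mul]
    have h1 : |317943054 * (c : ℝ) + 637031628 * g - 204604416| ≤ 317943054 * |(c : ℝ)| + 637031628 * |(g : ℝ)| + 204604416 := by
      refine (abs_sub _ _).trans ?_
      refine add_le_add ((abs_add_le _ _).trans ?_) ?_
      · rw [abs_mul, abs_mul]
        norm_num
      · norm_num
    have h2 : 3 * (317943054 * |(c : ℝ)| + 637031628 * |(g : ℝ)| + 204604416) ≤ 1042840000 * |(c : ℝ)| := by nlinarith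
    calc |(3 : ℝ)| * (|(g : ℝ)| * |317943054 * (c : ℝ) + 637031628 * g - 204604416|) ≤
          3 * (|(g : ℝ)| * (317943054 * |(c : ℝ)| + 637031628 * |(g : ℝ)| + 204604416)) := by
            rw [abs_of_pos (by norm_num : (0 : ℝ) < 3)]
            exact mul_le_mul_of_nonneg_left (mul_le_mul_of_nonneg_left h1 hG0) (by norm_num)
      _ = |(g : ℝ)| * (3 * (317943054 * |(c : ℝ)| + 637031628 * |(g : ℝ)| + 204604416)) := by ring
      _ ≤ |(g : ℝ)| * (1042840000 * |(c : ℝ)|) := mul_le_mul_of_nonneg_left h2 hG0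
      _ = 1042840000 * |(g : ℝ)| * |(c : ℝ)| := by ring

end Pool.Agent.Lib.MP_ccbbf6_gt.K7.AR
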