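import Pool.Agent.Lib.MP_ccbbf6_gt.K7.AR07
import Pool.Agent.Lib.MP_ccbbf6_gt.K7.AR08

/-!
# kappa = 7: the arithmetic end, part 9: the result (helper92)
-/

set_option autoImplicit false

namespace Pool.Agent.Lib.MP_ccbbf6_gt.K7.AR

theorem large {g c N : ℤ} (hg : g ≠ 0) (hc : 300 ≤ |c|)
    (hV : 39 * ((g.natAbs ^ 3 : ℕ) : ℤ) ≤ ((3 * g + c * c).natAbs : ℤ))
    (hE : EP g c N ∨ EM g c N) (hN : N % 4 = 1) : False := by
  obtain ⟨h36, h9, hx, hG, hg1⟩ := sizes hg hc hV
  have hGx := G_le hx hG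
  have hcz : (c : ℝ) ≠ 0 := by
    intro h
    rw [h, abs_zero] at hx
    linarith
  have hgr : (g : ℝ) ≠ 0 := by exact_mod_cast hg
  rcases hE with hE | hE
  · unfold EP at hE
    have h4 : ∀ g c N : ZMod 4, N = 1 → 3 * N ^ 2 - (21 * c ^ 2 + 96 * c + 255 * g) * N - g * (9216 - 4098 * c - 1364 * c ^ 2) = 0 →
        g = 1 ∨ g = 2 := by decide
    have hN4 : ((N : ℤ) : ZMod 4) = 1 := by
      have : (4 : ℤ) ∣ N - 1 := by omega
      have h5 := (ZMod.intCast_zmod_eq_zero_iff_dvd (N - 1) 4).2 (by exact_mod_cast this)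
      push_cast at h5
      exact sub_eq_zero.1 h5
    have hE4 : 3 * ((N : ℤ) : ZMod 4) ^ 2 - (21 * ((c : ℤ) : ZMod 4) ^ 2 + 96 * ((c : ℤ) : ZMod 4) + 255 * ((g : ℤ) : ZMod 4)) * ((N : ℤ) : ZMod 4) -
        ((g : ℤ) : ZMod 4) * (9216 - 4098 * ((c : ℤ) : ZMod 4) - 1364 * ((c : ℤ) : ZMod 4) ^ 2) = 0 := by
      have := congrArg (fun z : ℤ => (z : ZMod 4)) hE
      push_cast at this
      exact this
    have hg4 : g % 4 = 1 ∨ g % 4 = 2 := by
      rcases h4 _ _ _ hN4 hE4 with h | h
      · left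
        have h5 : (((g - 1 : ℤ)) : ZMod 4) = 0 := by push_cast; rw [h]; ring
        have h6 := (ZMod.intCast_zmod_eq_zero_iff_dvd (g - 1) 4).1 h5
        omega
      · right
        have h5 : (((g - 2 : ℤ)) : ZMod 4) = 0 := by push_cast; rw [h]; ring
        have h6 := (ZMod.intCast_zmod_eq_zero_iff_dvd (g - 2) 4).1 h5
        omega
    -- the two roots
    set N' : ℤ := 7 * c * c + 32 * c + 85 * g - N with hN'
    have hE' : 3 * N' ^ 2 - (21 * c ^ 2 + 96 * c + 255 * g) * N' - g * (9216 - 4098 * c - 1364 * c ^ 2) = 0 := by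
      rw [hN']
      linear_combination hE
    have hs : (1364 * g - 21 * N) + (1364 * g - 21 * N') = -(147 * c ^ 2 + 672 * c - 943 * g) := by rw [hN']; ring
    have hp : (1364 * g - 21 * N) * (1364 * g - 21 * N') = -(g * (314202 * c + 574244 * g + 1354752)) := by
      rw [hN']
      linear_combination (-147) * hE
    have hP0 : g * (314202 * c + 574244 * g + 1354752) ≠ 0 := by
      refine mul_ne_zero hg ?_
      intro h
      have h5 : 314202 * (c : ℝ) + 574244 * g + 1354752 = 0 := by exact_mod_cast h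
      have h6 : 314202 * |(c : ℝ)| ≤ 574244 * |(g : ℝ)| + 1354752 := by
        have h7 : 314202 * (c : ℝ) = -(574244 * g + 1354752) := by linarith
        have h8 : |314202 * (c : ℝ)| = |574244 * (g : ℝ) + 1354752| := by rw [h7, abs_neg]
        rw [abs_mul] at h8
        have h9 : |574244 * (g : ℝ) + 1354752| ≤ 574244 * |(g : ℝ)| + 1354752 := by
          refine (abs_add_le _ _).trans ?_
          rw [abs_mul]
          norm_num
        rw [← h8] at h9
        norm_num at h9
        linarith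
      nlinarith
    have hne : 1364 * g - 21 * N ≠ 0 ∧ 1364 * g - 21 * N' ≠ 0 := by
      constructor
      · intro h
        rw [h, zero_mul] at hp
        exact hP0 (by linarith)
      · intro h
        rw [h, mul_zero] at hp
        exact hP0 (by linarith)
    rcases le_total |1364 * g - 21 * N| |1364 * g - 21 * N'| with hle | hle
    · exact plus_large hE hg h36 h9 hg4 (Or.inl hN) (bdP hx hG hs hp hle) hne.1
    · refine plus_large hE' hg h36 h9 hg4 (Or.inr ?_) (bdP hx hG (by rw [add_comm]; exact hs) (by rw [mul_comm]; exact hp) hle) hne.2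
      rw [hN', sub_sub_cancel]
      exact hN
  · unfold EM at hE
    have h4 : ∀ g c N : ZMod 4, N = 1 → 3 * N ^ 2 + (149 * c ^ 2 - 96 * c + 255 * g) * N - g * (9216 - 20478 * c + 9556 * c ^ 2) = 0 →
        (g = 0 ∨ g = 3) ∧ -(149 * c ^ 2 - 96 * c + 255 * g) - 3 * N = 0 := by decide
    have hN4 : ((N : ℤ) : ZMod 4) = 1 := by
      have : (4 : ℤ) ∣ N - 1 := by omega
      have h5 := (ZMod.intCast_zmod_eq_zero_iff_dvd (N - 1) 4).2 (by exact_mod_cast this)
      push_cast at h5
      exact sub_eq_zero.1 h5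
    have hE4 : 3 * ((N : ℤ) : ZMod 4) ^ 2 + (149 * ((c : ℤ) : ZMod 4) ^ 2 - 96 * ((c : ℤ) : ZMod 4) + 255 * ((g : ℤ) : ZMod 4)) * ((N : ℤ) : ZMod 4) -
        ((g : ℤ) : ZMod 4) * (9216 - 20478 * ((c : ℤ) : ZMod 4) + 9556 * ((c : ℤ) : ZMod 4) ^ 2) = 0 := by
      have := congrArg (fun z : ℤ => (z : ZMod 4)) hE
      push_cast at this
      exact this
    obtain ⟨hg4', hk4⟩ := h4 _ _ _ hN4 hE4
    have hg4 : g % 4 = 0 ∨ g % 4 = 3 := by
      rcases hg4' with h | h
      · left
        have h6 := (ZMod.intCast_zmod_eq_zero_iff_dvd g 4).1 h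
        omega
      · right
        have h5 : (((g - 3 : ℤ)) : ZMod 4) = 0 := by push_cast; rw [h]; ring
        have h6 := (ZMod.intCast_zmod_eq_zero_iff_dvd (g - 3) 4).1 h5
        omega
    -- the two roots
    set k1 : ℤ := 3 * N with hk1
    set k2 : ℤ := -(149 * c * c - 96 * c + 255 * g) - 3 * N with hk2
    have hk2' : (4 : ℤ) ∣ k2 := by
      have h5 : ((k2 : ℤ) : ZMod 4) = 0 := by
        rw [hk2]
        push_cast
        rw [← hk4]
        ring
      exact_mod_cast (ZMod.intCast_zmod_eq_zero_iff_dvd k2 4).1 h5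
    have hE1 : k1 ^ 2 + (149 * c ^ 2 - 96 * c + 255 * g) * k1 - 3 * g * (9216 - 20478 * c + 9556 * c ^ 2) = 0 := by
      rw [hk1]
      linear_combination 3 * hE
    have hE2 : k2 ^ 2 + (149 * c ^ 2 - 96 * c + 255 * g) * k2 - 3 * g * (9216 - 20478 * c + 9556 * c ^ 2) = 0 := by
      rw [hk2]
      linear_combination 3 * hE
    have hs : (149 * k1 - 28668 * g) + (149 * k2 - 28668 * g) = -(22201 * c ^ 2 - 14304 * c + 95331 * g) := by rw [hk1, hk2]; ring
    have hp : (149 * k1 - 28668 * g) * (149 * k2 - 28668 * g) = 3 * (g * (317943054 * c + 637031628 * g - 204604416)) := by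
      rw [hk1, hk2]
      linear_combination (-66603) * hE
    have hP0 : g * (317943054 * c + 637031628 * g - 204604416) ≠ 0 := by
      refine mul_ne_zero hg ?_
      intro h
      have h5 : 317943054 * (c : ℝ) + 637031628 * g - 204604416 = 0 := by exact_mod_cast h
      have h6 : 317943054 * |(c : ℝ)| ≤ 637031628 * |(g : ℝ)| + 204604416 := by
        have h7 : 317943054 * (c : ℝ) = -(637031628 * g - 204604416) := by linarith
        have h8 : |317943054 * (c : ℝ)| = |637031628 * (g : ℝ) - 204604416| := by rw [h7, abs_neg]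
        rw [abs_mul] at h8
        have h9 : |637031628 * (g : ℝ) - 204604416| ≤ 637031628 * |(g : ℝ)| + 204604416 := by
          refine (abs_sub _ _).trans ?_
          rw [abs_mul]
          norm_num
        rw [← h8] at h9
        norm_num at h9
        linarith
      nlinarith
    have hne : 149 * k1 - 28668 * g ≠ 0 ∧ 149 * k2 - 28668 * g ≠ 0 := by
      constructor
      · intro h
        rw [h, zero_mul] at hp
        exact hP0 (by linarith)
      · intro h
        rw [h, mul_zero] at hp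
        exact hP0 (by linarith)
    have hc3 : c * c % 3 = 0 ∨ c * c % 3 = 1 := by
      have h5 : c % 3 = 0 ∨ c % 3 = 1 ∨ c % 3 = 2 := by omega
      rcases h5 with h | h | h <;> simp [Int.mul_emod, h]
    rcases le_total |149 * k1 - 28668 * g| |149 * k2 - 28668 * g| with hle | hle
    · refine minus_large hE1 hg h36 h9 hg4 (Or.inl ⟨?_, ?_⟩) (Or.inl ?_) (bdM hx hG hs hp hle) hne.1
      · omega
      · omega
      · omega
    · refine minus_large hE2 hg h36 h9 hg4 (Or.inr ⟨?_, ?_⟩) ?_ (bdM hx hG (by rw [add_comm]; exact hs) (by rw [mul_comm]; exact hp) hle) hne.2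
      · rw [hk2]
        omega
      · rw [hk2]
        omega
      · obtain ⟨z, hz⟩ := hk2'
        have h6 : k2 % 3 = c * c % 3 := by
          rw [hk2]
          have h7 : -(149 * c * c - 96 * c + 255 * g) - 3 * N = c * c + 3 * (-(50 * (c * c)) + 32 * c - 85 * g - N) := by ring
          rw [h7, Int.add_mul_emod_self_left]
        right
        rcases hc3 with h | h
        · left; omega
        · right; omega

/-- **the Diophantine theorem** -/
theorem core {g c N : ℤ} (hg : g ≠ 0) (hV : 39 * ((g.natAbs ^ 3 : ℕ) : ℤ) ≤ ((3 * g + c * c).natAbs : ℤ))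
    (hE : EP g c N ∨ EM g c N) (hN : N % 4 = 1) : g = 1 ∧ c = -6 := by
  by_cases hc : 300 ≤ |c|
  · exact (large hg hc hV hE hN).elim
  · push Not at hc
    obtain ⟨h1, h2⟩ := abs_lt.1 hc
    exact small hg h1 h2 hV hE hN

end Pool.Agent.Lib.MP_ccbbf6_gt.K7.AR
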