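import Pool.Agent.Lib.MP_ccbbf6_gt.K7.AR09

/-!
# kappa = 7: the arithmetic end, part 10: the final statement (helper92)
-/

set_option autoImplicit false

namespace Pool.Agent.Lib.MP_ccbbf6_gt.K7

open AR

theorem ar6 {al be a1 a2 t t' s : ℝ} {A1 A2 A3 B H : ℤ} (ha1 : a1 = A1) (hbe : be = B) (ha2 : a2 + 6 * H = A2)
    (hal : al + be * H / 2 = A3) (hs : s = 1 ∨ s = -1) (ht : t' = 3 ∨ t' = -3) (h0 : al ≠ 0)
    (hV : 78 * (2 * |al| ^ 3) ≤ |be ^ 2 - 12 * al|)
    (e1 : ((1 / 64 - a1 / 16 + a2 / 4 - al) * t - (3 - be) * t' * al / 12) / 2 = s * (4 - 1 / 1024) * (al * be / 24))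
    (e2 : ((1 / 64 - a1 / 16 + a2 / 4 - al) * t' + (3 - be) * t - (3 - be) * t' * be / 12) / 2 =
      -(s * (4 - 1 / 64) * ((12 * al - be ^ 2) / 24))) : al = -1 ∧ be = -12 := by
  -- integers
  set h : ℤ := B * H - 2 * A3 with hh
  set N : ℤ := 1 - 4 * A1 + 16 * A2 - 96 * H - 64 * A3 + 32 * (B * H) with hN
  have hal' : al = -(h : ℝ) / 2 := by
    rw [hh]
    push_cast
    rw [← hbe, ← hal]
    ring
  have hN' : (1 / 64 - a1 / 16 + a2 / 4 - al) = (N : ℝ) / 64 := by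
    rw [hN]
    push_cast
    rw [← hbe, ← hal, ← ha1, ← ha2]
    ring
  rw [hN'] at e1 e2
  have hN4 : N % 4 = 1 := by omega
  -- the integer equation
  have hE : (12 * N ^ 2 - (21 * B ^ 2 + 192 * B + 510 * h) * N - 2 * h * (3 - B) * (3072 + 341 * B) = 0) ∨
      (12 * N ^ 2 - (-149 * B ^ 2 + 192 * B - 510 * h) * N - 2 * h * (3 - B) * (3072 - 2389 * B) = 0) := by
    have key : (12 * (N : ℝ) ^ 2 - (21 * (B : ℝ) ^ 2 + 192 * B + 510 * h) * N - 2 * h * (3 - B) * (3072 + 341 * B) = 0) ∨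
        (12 * (N : ℝ) ^ 2 - (-149 * (B : ℝ) ^ 2 + 192 * B - 510 * h) * N - 2 * h * (3 - B) * (3072 - 2389 * B) = 0) := by
      rw [hal', hbe] at e1 e2
      rcases hs with hs | hs <;> rcases ht with ht | ht <;> rw [hs, ht] at e1 e2
      · left
        linear_combination (32768 * (N : ℝ) / 64) * e2 - 32768 * (3 - (B : ℝ)) * e1
      · right
        linear_combination (-(32768 * (N : ℝ) / 64)) * e2 + 32768 * (3 - (B : ℝ)) * e1
      · right
        linear_combination (32768 * (N : ℝ) / 64) * e2 - 32768 * (3 - (B : ℝ)) * e1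
      · left
        linear_combination (-(32768 * (N : ℝ) / 64)) * e2 + 32768 * (3 - (B : ℝ)) * e1
    rcases key with key | key
    · left
      exact_mod_cast key
    · right
      exact_mod_cast key
  -- parity
  have hN1 : ((N : ℤ) : ZMod 4) = 1 := by
    have : (4 : ℤ) ∣ N - 1 := by omega
    have h5 := (ZMod.intCast_zmod_eq_zero_iff_dvd (N - 1) 4).2 (by exact_mod_cast this)
    push_cast at h5
    exact sub_eq_zero.1 h5
  have hpar : (((B : ℤ) : ZMod 4) = 0 ∨ ((B : ℤ) : ZMod 4) = 2) ∧ (((h : ℤ) : ZMod 4) = 0 ∨ ((h : ℤ) : ZMod 4) = 2) := by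
    have d1 : ∀ h B N : ZMod 4, N = 1 → 12 * N ^ 2 - (21 * B ^ 2 + 192 * B + 510 * h) * N - 2 * h * (3 - B) * (3072 + 341 * B) = 0 →
        (B = 0 ∨ B = 2) ∧ (h = 0 ∨ h = 2) := by decide
    have d2 : ∀ h B N : ZMod 4, N = 1 → 12 * N ^ 2 - (-149 * B ^ 2 + 192 * B - 510 * h) * N - 2 * h * (3 - B) * (3072 - 2389 * B) = 0 →
        (B = 0 ∨ B = 2) ∧ (h = 0 ∨ h = 2) := by decide
    rcases hE with hE | hE
    · refine d1 h B N hN1 ?_
      have := congrArg (fun z : ℤ => (z : ZMod 4)) hE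
      push_cast at this
      exact this
    · refine d2 h B N hN1 ?_
      have := congrArg (fun z : ℤ => (z : ZMod 4)) hE
      push_cast at this
      exact this
  have hB2 : (2 : ℤ) ∣ B := by
    rcases hpar.1 with h1 | h1
    · have h6 := (ZMod.intCast_zmod_eq_zero_iff_dvd B 4).1 h1
      omega
    · have h5 : (((B - 2 : ℤ)) : ZMod 4) = 0 := by push_cast; rw [h1]; ring
      have h6 := (ZMod.intCast_zmod_eq_zero_iff_dvd (B - 2) 4).1 h5
      omega
  have hh2 : (2 : ℤ) ∣ h := by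
    rcases hpar.2 with h1 | h1
    · have h6 := (ZMod.intCast_zmod_eq_zero_iff_dvd h 4).1 h1
      omega
    · have h5 : (((h - 2 : ℤ)) : ZMod 4) = 0 := by push_cast; rw [h1]; ring
      have h6 := (ZMod.intCast_zmod_eq_zero_iff_dvd (h - 2) 4).1 h5
      omega
  obtain ⟨c, hc⟩ := hB2
  obtain ⟨g, hg⟩ := hh2
  have hg0 : g ≠ 0 := by
    intro hz
    apply h0
    rw [hal', hg, hz]
    norm_num
  have halg : al = -(g : ℝ) := by
    rw [hal', hg]
    push_cast
    ring
  have hbec : be = 2 * (c : ℝ) := by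
    rw [hbe, hc]
    push_cast
    ring
  have hE2 : EP g c N ∨ EM g c N := by
    rcases hE with hE | hE
    · left
      have h4 : 4 * (3 * N ^ 2 - (21 * c ^ 2 + 96 * c + 255 * g) * N - g * (9216 - 4098 * c - 1364 * c ^ 2)) = 0 := by
        rw [hc, hg] at hE
        linear_combination hE
      exact (mul_eq_zero.1 h4).resolve_left (by norm_num)
    · right
      have h4 : 4 * (3 * N ^ 2 + (149 * c ^ 2 - 96 * c + 255 * g) * N - g * (9216 - 20478 * c + 9556 * c ^ 2)) = 0 := by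
        rw [hc, hg] at hE
        linear_combination hE
      exact (mul_eq_zero.1 h4).resolve_left (by norm_num)
  have hV2 : 39 * ((g.natAbs ^ 3 : ℕ) : ℤ) ≤ ((3 * g + c * c).natAbs : ℤ) := by
    have h1 : (39 : ℝ) * |(g : ℝ)| ^ 3 ≤ |3 * (g : ℝ) + c * c| := by
      rw [halg, hbec, abs_neg] at hV
      have h2 : (2 * (c : ℝ)) ^ 2 - 12 * -(g : ℝ) = 4 * (3 * g + c * c) := by ring
      rw [h2, abs_mul, abs_of_pos (by norm_num : (0 : ℝ) < 4)] at hV
      linarith
    have h2 : ((39 * |g| ^ 3 : ℤ) : ℝ) ≤ ((|3 * g + c * c| : ℤ) : ℝ) := by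
      push_cast
      exact h1
    have h3 : 39 * |g| ^ 3 ≤ |3 * g + c * c| := by exact_mod_cast h2
    rw [Int.natCast_natAbs]
    push_cast
    exact h3
  obtain ⟨h1, h2⟩ := core hg0 hV2 hE2 hN4
  rw [halg, hbec, h1, h2]
  norm_num

/-- **the arithmetic end for kappa = 7** -/
theorem ar {al be a1 a2 b t t' s : ℝ} {A1 A2 A3 B H : ℤ} (ha1 : a1 = A1) (hbe : be = B) (ha2 : a2 + b * H = A2)
    (hal : al + be * H / 2 = A3) (hb : b = 6 ∨ b = -6) (hs : s = 1 ∨ s = -1) (ht : t' = 3 ∨ t' = -3) (h0 : al ≠ 0)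
    (hV : 78 * (2 * |al| ^ 3) ≤ |be ^ 2 - 12 * al|)
    (e1 : ((1 / 64 - a1 / 16 + a2 / 4 - al) * t - (b / 2 - be) * t' * al / 12) / 2 = s * (4 - 1 / 1024) * (al * be / 24))
    (e2 : ((1 / 64 - a1 / 16 + a2 / 4 - al) * t' + (b / 2 - be) * t - (b / 2 - be) * t' * be / 12) / 2 =
      -(s * (4 - 1 / 64) * ((12 * al - be ^ 2) / 24))) : al = -1 ∧ be = -2 * b := by
  rcases hb with hb | hb
  · rw [hb] at ha2 e1 e2 ⊢
    norm_num at e1 e2
    have := ar6 ha1 hbe ha2 hal hs ht h0 hV (t := t) (by linear_combination e1) (by linear_combination e2)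
    exact ⟨this.1, by rw [this.2]; norm_num⟩
  · rw [hb] at ha2 e1 e2 ⊢
    have := ar6 (al := al) (be := -be) (a1 := a1) (a2 := a2) (t := t) (t' := -t') (s := -s) (A1 := A1) (A2 := A2) (A3 := A3)
      (B := -B) (H := -H) ha1 (by push_cast; rw [hbe]) (by push_cast; linear_combination ha2) (by push_cast; linear_combination hal)
      (by rcases hs with h | h <;> [right; left] <;> rw [h]; norm_num) (by rcases ht with h | h <;> [right; left] <;> rw [h]; norm_num)
      h0 (by rw [neg_sq]; exact hV) (by linear_combination e1) (by linear_combination -e2)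
    exact ⟨this.1, by linarith [this.2]⟩

end Pool.Agent.Lib.MP_ccbbf6_gt.K7
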