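import Pool.Agent.Lib.MP_ccbbf6_gt.K7.UA2

/-!
# `κ = 7`, the interface between the vanishing theorem and the level 1 and level 2 arguments (helper53)

`VanD M u L` : on every space of loops in the class `L` the universal form `TT` of degree 29 is `k1 e^7 ub xb + k2 e^11 xb` up to the
derivative of a natural basic form, zero on constant loops.
-/

set_option autoImplicit false
set_option maxSynthPendingDepth 3

open Set Filter Topology MeasureTheory
open scoped TensorProduct ContDiff

noncomputable section

namespace Pool.Agent.Lib.MP_ccbbf6_gt.K7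

open L4 L4.FR L5

variable {X Y Z M : Space} {k l n : ℕ} {i j : ℕ}

/-- contraction and average commute -/
theorem i_AO (c : Circ X) (A : Om X) : iO c (AO c A) = AO c (iO c A) :=
  Om_ext fun k p => by
    rw [i_A, on_K, on_pull]
    have h6 : c.a.pl p.up = c.op p := rfl
    rw [h6, on_A, on_i, op_op, on_cmp, cs_sh, ← pb_comp, sh_sl, ts_zero, pb_id]
    rfl

/-- connections of a circle action -/
structure Cnn (c : Circ X) (A : Om X) : Prop where
  deg : Deg 1 A
  i : iO c A = 1
  id : iO c (dO X A) = 0

namespace Cnn

variable {c : Circ X} {c' : Circ Y} {A : Om X} (h : Cnn c A)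

include h in
theorem s : sO X A = -A := Deg_odd (j := 0) h.deg

include h in
theorem Deg_e : Deg 2 (dO X A) := Deg_d h.deg

include h in
theorem s_e : sO X (dO X A) = dO X A := Deg_even (j := 1) h.Deg_e

theorem d_e : dO X (dO X A) = 0 := d_d _

include h in
theorem Bas_e : Bas c (dO X A) := Bas_closed c h.id (d_d _)

include h in
theorem inv : Inv c A := fun t => by
  have h1 : Bas c (A - AO c A) := by
    refine Bas_of c ?_ ?_
    · have h2 : iO c (AO c A) = 1 := by rw [i_AO, h.i, A_one]
      rw [map_sub, h.i, h2, sub_self]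
    · rw [map_sub, map_sub, A_d, A_bas c h.Bas_e, sub_self]
  have h2 : A = (A - AO c A) + AO c A := by abel
  rw [h2, map_add, Bas_inv c h1 t, A_inv c A t]

/-- pull back of a connection -/
theorem pull (h : Cnn c A) {g : SMap Y X} (hg : Eqv c' c g) : Cnn c' (g.pull A) where
  deg := Deg_pull g h.deg
  i := by rw [i_nat hg, h.i, map_one]
  id := by rw [pull_d, i_nat hg, h.id, map_zero]

/-- half of a connection is a connection for the orbits run twice -/
theorem dbl (h : Cnn c A) : Cnn (dblc c) ((2⁻¹ : ℝ) • A) where
  deg := Deg_smul _ h.deg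
  i := by rw [map_smul, i_dbl, h.i, smul_smul, inv_mul_cancel₀ two_ne_zero, one_smul]
  id := by rw [map_smul, map_smul, i_dbl, h.id, smul_zero, smul_zero]

end Cnn

/-- **the vanishing theorem** : on families of loops of the class `L` the form `TT` of degree 29 is a combination of
`e^7 ub xb` and `e^11 xb` up to the derivative of a natural basic form `NP`, zero on families of constant loops -/
structure VanD (M : Space) (u : Om M) (L : ∀ {X : Space}, Circ X → SMap X M → Prop) where
  /-- the first constant -/
  k1 : ℝ
  /-- the second constant -/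
  k2 : ℝ
  /-- the primitive -/
  NP : ∀ {X : Space}, Circ X → Om X → SMap X M → Om X
  bas : ∀ {X : Space} {c : Circ X} {A : Om X} {f : SMap X M}, Cnn c A → L c f → Bas c (NP c A f)
  deg : ∀ {X : Space} {c : Circ X} {A : Om X} {f : SMap X M}, Cnn c A → L c f → Deg 28 (NP c A f)
  d_NP : ∀ {X : Space} {c : Circ X} {A : Om X} {f : SMap X M}, Cnn c A → L c f →
    dO X (NP c A f) = TT c f u - k1 • (dO X A ^ 7 * (ub c f u * xb c f u)) - k2 • (dO X A ^ 11 * xb c f u)
  nat : ∀ {X Y : Space} {c : Circ X} {c' : Circ Y} {A : Om X} {f : SMap X M} {g : SMap Y X}, Cnn c A → L c f →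
    Eqv c' c g → NP c' (g.pull A) (f.comp g) = g.pull (NP c A f)
  const : ∀ {X : Space} {c : Circ X} {A : Om X} {f : SMap X M}, Cnn c A → IMap c f → NP c A f = 0

/-- the form which `VanD` makes exact -/
def TD (M : Space) (u : Om M) (k1 k2 : ℝ) {X : Space} (c : Circ X) (A : Om X) (f : SMap X M) : Om X :=
  TT c f u - k1 • (dO X A ^ 7 * (ub c f u * xb c f u)) - k2 • (dO X A ^ 11 * xb c f u)

end Pool.Agent.Lib.MP_ccbbf6_gt.K7
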