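import Pool.Agent.Lib.MP_ccbbf6_gt.K7.EV
import Pool.Agent.Lib.MP_ccbbf6_gt.K7.VD
import Pool.Agent.Lib.MP_ccbbf6_gt.L5.EGH

/-!
# `κ = 7`, block CH, part 1: the Euler form of `G = L ⊗ N_C` (helper13)

`N` an invariant bundle of rank `7` over a space with circle action `c` and connection `A`, `a = A / 2` the connection of
the orbits run twice, `L` the line bundle with connection `-2 π i a`:

* `eG` : the Euler form of `L ⊗ N_C`, closed, basic, of degree `14`;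
* `Xe_eG` : its class `-(1/2) e^3 (A' e^4 + B' y)` in terms of the Pontryagin classes `p_1`, `p_2`, `p_3` of `N`.
-/

set_option autoImplicit false
set_option maxSynthPendingDepth 3
set_option linter.unusedSectionVars false

open Matrix

noncomputable section

namespace Pool.Agent.Lib.MP_ccbbf6_gt.K7.CH

open L4 L4.FR L5 L5.EGC L5.EGH

variable {X Y : Space} {c : Circ X} {q : ℕ} {ι : Type} [Fintype ι] [DecidableEq ι] {P : Matrix ι ι (SF X)} {A : Om X}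

/-- half of the connection -/
abbrev hf (A : Om X) : Om X := (2⁻¹ : ℝ) • A

theorem s_hf (hA : Cnn c A) : sO X (hf A) = -hf A := by
  unfold hf
  rw [map_smul, hA.s, smul_neg]

theorem Deg_hf (hA : Cnn c A) : Deg 1 (hf A) := Deg_smul _ hA.deg

theorem id_hf (hA : Cnn c A) : iO c (dO X (hf A)) = 0 := by
  unfold hf
  rw [map_smul, map_smul, hA.id, smul_zero]

/-- the Euler form of `G = L ⊗ N_C` -/
def eG (hA : Cnn c A) (hP : P * P = P) (hs : Pᵀ = P) : Om X := eC (φ := FO X) 7 (s_hf hA) hP hs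

variable (hA : Cnn c A) (hP : P * P = P) (hs : Pᵀ = P)

theorem Deg_eG : Deg 14 (eG hA hP hs) := Deg_eC (q := 7) (s_hf hA) (Deg_hf hA) hP hs

theorem d_eG (ht : trace P = ((7 : ℕ) : SF X)) : dO X (eG hA hP hs) = 0 := dO_eC (s_hf hA) hP hs ht

theorem Bas_eG (ht : trace P = ((7 : ℕ) : SF X)) (hI : ∀ i j, InvF c (P i j)) : Bas c (eG hA hP hs) :=
  Bas_eC (s_hf hA) hP hs ht hI (id_hf hA)

theorem ptf_zero {A' B : Type} [CommRing A'] [Algebra ℝ A'] [Ring B] [Algebra ℝ B] {G : GDA B} {φ : Fun0 A' G}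
    {P : Matrix ι ι A'} (hP : P * P = P) : ptf φ hP 0 = 1 := by
  unfold ptf GDA.cf
  rw [mul_zero, pow_zero, inv_one, one_smul, elc_zero]
  rfl

/-- the Euler form in terms of the Pontryagin forms -/
theorem eG_eq (ht : trace P = ((7 : ℕ) : SF X)) : eG hA hP hs = -((1 / 128 : ℝ) • dO X A ^ 7 -
    (1 / 32 : ℝ) • (dO X A ^ 5 * ptf (FO X) hP 1) + (1 / 8 : ℝ) • (dO X A ^ 3 * ptf (FO X) hP 2) -
    (1 / 2 : ℝ) • (dO X A * ptf (FO X) hP 3)) := by
  have h1 := eC_eq (φ := FO X) IC.Pts_FO (s_hf hA) hP hs ht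
  unfold eG
  rw [h1]
  have e0 : (GO X).d (hf A) = (2⁻¹ : ℝ) • dO X A := map_smul (dO X) _ _
  rw [e0]
  simp only [Nat.reduceDiv, Nat.reduceAdd, Finset.sum_range_succ, Finset.sum_range_zero, zero_add, mul_zero, Nat.sub_zero,
    mul_one, Nat.reduceSub, Nat.reduceMul, pow_zero, pow_one, ptf_zero, smul_pow, smul_mul_assoc, smul_smul]
  module

/-- **the class of the Euler form of `G`** -/
theorem Xe_eG (ht : trace P = ((7 : ℕ) : SF X)) {y : Om X} {a1 a2 b al be : ℝ}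
    (h1 : Xe c (ptf (FO X) hP 1 - a1 • dO X A ^ 2))
    (h2 : Xe c (ptf (FO X) hP 2 - (a2 • dO X A ^ 4 + (2 * b) • y)))
    (h3 : Xe c (ptf (FO X) hP 3 - (al • dO X A ^ 6 + be • (dO X A ^ 2 * y)))) :
    Xe c (eG hA hP hs + (1 / 2 : ℝ) • (dO X A ^ 3 * ((1 / 64 - a1 / 16 + a2 / 4 - al) • dO X A ^ 4 + (b / 2 - be) • y))) := by
  have hB : ∀ k, Bas c (dO X A ^ k) := fun k => Bas_pow c hA.Bas_e k
  have hs : ∀ k, sO X (dO X A ^ k) = dO X A ^ k := fun k => by rw [map_pow, hA.s_e]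
  have hd : ∀ k, dO X (dO X A ^ k) = 0 := fun k => d_pow_zero (d_d _) k
  have k1 := Xe_smul (1 / 32) (mul_Xe h1 (hB 5) (hs 5) (hd 5))
  have k2 := Xe_smul (-(1 / 8)) (mul_Xe h2 (hB 3) (hs 3) (hd 3))
  have k3 := Xe_smul (1 / 2) (mul_Xe h3 (hB 1) (hs 1) (hd 1))
  have k := Xe_add (Xe_add k1 k2) k3
  rw [eG_eq hA hP _ ht]
  rw [pow_one] at k
  have e1 : dO X A ^ 5 * dO X A ^ 2 = dO X A ^ 7 := by rw [← pow_add]
  have e2 : dO X A ^ 3 * dO X A ^ 4 = dO X A ^ 7 := by rw [← pow_add]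
  have e3 : dO X A * dO X A ^ 6 = dO X A ^ 7 := by rw [← pow_succ']
  have e4 : dO X A * (dO X A ^ 2 * y) = dO X A ^ 3 * y := by rw [← mul_assoc, ← pow_succ']
  simp only [mul_sub, mul_add, mul_smul_comm, e1, e2, e3, e4] at k ⊢
  have e5 : ∀ u v w x z : Om X, (1 / 32 : ℝ) • (u - a1 • x) + (-(1 / 8) : ℝ) • (v - (a2 • x + (2 * b) • z)) +
      (1 / 2 : ℝ) • (w - (al • x + be • z)) = -((1 / 128 : ℝ) • x - (1 / 32 : ℝ) • u + (1 / 8 : ℝ) • v -
    (1 / 2 : ℝ) • w) + (1 / 2 : ℝ) • ((1 / 64 - a1 / 16 + a2 / 4 - al) • x + (b / 2 - be) • z) := by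
    intro u v w x z
    module
  rwa [e5] at k

end Pool.Agent.Lib.MP_ccbbf6_gt.K7.CH
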