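import Pool.Agent.Lib.MP_ccbbf6_gt.K7.EV
import Pool.Agent.Lib.MP_ccbbf6_gt.K7.VD
import Pool.Agent.Lib.MP_ccbbf6_gt.L5.PHN1

/-!
# `κ = 7`, block E, part 0: sphere bundles with a circle action and a closed Euler form (helper53)

* `EB N Y G` : sphere bundle `B : SBun N Y G`, `N` even, with compatible circle actions and a closed basic form `f` of degree `N`,
  `∫ f = 2`, odd under the antipode; `EB.PI_bas`, `EB.PI_Xe`;
* `Bas_dbl` : the same basic forms for orbits run twice.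
-/

set_option autoImplicit false
set_option maxSynthPendingDepth 3

open Set Filter Topology MeasureTheory
open scoped TensorProduct ContDiff

noncomputable section

namespace Pool.Agent.Lib.MP_ccbbf6_gt.K7

open L4 L4.FR L5

variable {X Y Z M G : Space} {k l n : ℕ} {i j : ℕ}

/-! ### Orbits run twice -/

theorem i_dbl_zero {c : Circ X} {w : Om X} : iO (dblc c) w = 0 ↔ iO c w = 0 := by
  rw [i_dbl]
  constructor
  · intro h
    have h1 : (2 : ℝ)⁻¹ • (2 : ℝ) • iO c w = 0 := by rw [h, smul_zero]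
    rwa [smul_smul, inv_mul_cancel₀ two_ne_zero, one_smul] at h1
  · intro h
    rw [h, smul_zero]

theorem Bas_dbl {c : Circ X} {w : Om X} : Bas (dblc c) w ↔ Bas c w := by
  constructor
  · intro h
    exact Bas_of c (i_dbl_zero.1 (Bas_i _ h)) (i_dbl_zero.1 (Bas_i _ (Bas_d _ h)))
  · intro h
    exact Bas_of _ (i_dbl_zero.2 (Bas_i _ h)) (i_dbl_zero.2 (Bas_i _ (Bas_d _ h)))

theorem Xe_dbl {c : Circ X} {w : Om X} : Xe (dblc c) w ↔ Xe c w := by
  constructor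
  · rintro ⟨y, hy, e⟩
    exact ⟨y, Bas_dbl.1 hy, e⟩
  · rintro ⟨y, hy, e⟩
    exact ⟨y, Bas_dbl.2 hy, e⟩

theorem Eqv_dbl {c : Circ X} {c' : Circ Y} {g : SMap X Y} (h : Eqv c c' g) : Eqv (dblc c) (dblc c') g :=
  fun x s => h x (2 * s)

theorem xRc_dbl (c : Circ X) : xRc (dblc c) = dblc (xRc c) := rfl

/-! ### Sphere bundles -/

/-- a sphere bundle of odd rank with circle actions and a closed basic Euler form -/
structure EB (N : ℕ) (Y G : Space) where
  hN : 1 ≤ N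
  ev : Even N
  B : SBun N Y G
  cY : Circ Y
  cG : Circ G
  pic : Eqv cY cG B.pi
  antc : Eqv cY cY B.ant
  PI_i : ∀ θ, iO cY θ = 0 → iO cG (B.PI θ) = 0
  f : Om Y
  fd : Deg N f
  df : dO Y f = 0
  jf : iO cY f = 0
  f2 : B.PI f = algebraMap ℝ (Om G) 2
  fa : B.ant.pull f = -f
  /-- a connection on the base -/
  A : Om G
  cA : Cnn cG A

namespace EB

variable {N : ℕ} (b : EB N Y G)

include b in
theorem sgn : (-1 : ℝ) ^ N = 1 := b.ev.neg_one_pow

theorem PI_d (θ : Om Y) : b.B.PI (dO Y θ) = dO G (b.B.PI θ) := by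
  rw [b.B.PI_d, b.sgn, one_smul]

theorem PI_s (θ : Om Y) : b.B.PI (sO Y θ) = sO G (b.B.PI θ) := by
  rw [b.B.PI_s, b.sgn, one_smul]

theorem PI_ant (θ : Om Y) : b.B.PI (b.B.ant.pull θ) = -b.B.PI θ := by
  rw [L5.PI_ant, pow_succ, b.sgn, one_mul, neg_smul, one_smul]

theorem PI_zero : b.B.PI 0 = 0 := by
  have h := b.B.PI_smul 0 0
  rwa [zero_smul, zero_smul] at h

/-- fibre integration, linear -/
def P : Om Y →ₗ[ℝ] Om G where
  toFun := b.B.PI
  map_add' := b.B.PI_add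
  map_smul' r x := b.B.PI_smul r x

theorem P_apply (θ : Om Y) : b.P θ = b.B.PI θ := rfl

theorem P_d (θ : Om Y) : b.P (dO Y θ) = dO G (b.P θ) := b.PI_d θ

theorem P_ant (θ : Om Y) : b.P (b.B.ant.pull θ) = -b.P θ := b.PI_ant θ

theorem P_mulr (θ : Om Y) (w : Om G) : b.P (θ * b.B.pi.pull w) = b.P θ * w := b.B.PI_mulr w θ

theorem P_f (w : Om G) : b.P (b.f * b.B.pi.pull w) = (2 : ℝ) • w := by
  rw [P_mulr, P_apply, b.f2, ← Algebra.smul_def]

theorem ant_pi (w : Om G) : b.B.ant.pull (b.B.pi.pull w) = b.B.pi.pull w := by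
  rw [← pull_comp]
  have h : b.B.pi.comp b.B.ant = b.B.pi := SMap_ext fun x => b.B.pi_ant x
  rw [h]

theorem P_pi (w : Om G) : b.P (b.B.pi.pull w) = 0 := by
  have h := b.P_ant (b.B.pi.pull w)
  rw [ant_pi] at h
  have h2 : (2 : ℝ) • b.P (b.B.pi.pull w) = 0 := by
    rw [two_smul]
    nth_rewrite 1 [h]
    exact neg_add_cancel _
  have h3 : (2 : ℝ)⁻¹ • (2 : ℝ) • b.P (b.B.pi.pull w) = 0 := by rw [h2, smul_zero]
  rwa [smul_smul, inv_mul_cancel₀ two_ne_zero, one_smul] at h3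

theorem bas_f : Bas b.cY b.f := Bas_closed b.cY b.jf b.df

theorem s_f : sO Y b.f = b.f := by
  rw [Deg_s b.fd, b.sgn, one_smul]

theorem PI_bas {w : Om Y} (h : Bas b.cY w) : Bas b.cG (b.P w) := by
  refine Bas_of b.cG (b.PI_i _ (Bas_i _ h)) ?_
  rw [← P_d]
  exact b.PI_i _ (Bas_i _ (Bas_d _ h))

theorem PI_Xe {w : Om Y} (h : Xe b.cY w) : Xe b.cG (b.P w) := by
  obtain ⟨y, hy, e⟩ := h
  exact ⟨b.P y, b.PI_bas hy, by rw [e, P_d]⟩

theorem bas_pi {w : Om G} (h : Bas b.cG w) : Bas b.cY (b.B.pi.pull w) := Bas_nat b.pic h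

theorem Xe_pi {w : Om G} (h : Xe b.cG w) : Xe b.cY (b.B.pi.pull w) := Xe_nat b.pic h

/-- the same bundle with all orbits run twice -/
def dbl : EB N Y G where
  hN := b.hN
  ev := b.ev
  B := b.B
  cY := dblc b.cY
  cG := dblc b.cG
  pic := Eqv_dbl b.pic
  antc := Eqv_dbl b.antc
  PI_i θ h := i_dbl_zero.2 (b.PI_i θ (i_dbl_zero.1 h))
  f := b.f
  fd := b.fd
  df := b.df
  jf := i_dbl_zero.2 b.jf
  f2 := b.f2
  fa := b.fa
  A := (2⁻¹ : ℝ) • b.A
  cA := b.cA.dbl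

end EB

/-- the sphere bundle of the negative bundle -/
def ebX {X G M F : Space} {N N' m q : ℕ} (P : NegB X G M F N N' m q) : EB N' X G where
  hN := P.hN1
  ev := by
    have h1 := P.hq
    have h2 := P.hq2
    exact ⟨q - 1, by omega⟩
  B := P.B
  cY := P.c
  cG := P.cG
  pic := P.pic
  antc := P.antc
  PI_i := P.PI_i
  f := P.f
  fd := P.fd
  df := P.df
  jf := P.jf
  f2 := P.f2
  fa := P.fa
  A := P.η
  cA := ⟨P.η1, P.iη, P.idη⟩

end Pool.Agent.Lib.MP_ccbbf6_gt.K7
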