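import Pool.Agent.Lib.MP_ccbbf6_gt.K7.C03
import Pool.Agent.Lib.MP_ccbbf6_gt.K7.GY0

/-!
# `κ = 7`, block E, part 3: the data of the doubled geodesics and the level 2 identity (helper53)

* `TD` : closed, basic, natural; `K_TD`;
* `GysD P L` : the geometric data (rank 21 bundle over `UM`, the shortened doubled geodesics `R`);
* `GysD.om` : the form of degree 28 on `Y`; `GysD.phi8` its fibre integral;
* `GysD.main` : `e(G) phi8 ~ D W(e, y)`.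
-/

set_option autoImplicit false
set_option maxSynthPendingDepth 3

open Set Filter Topology MeasureTheory
open scoped TensorProduct ContDiff

noncomputable section

namespace Pool.Agent.Lib.MP_ccbbf6_gt.K7

open L4 L4.FR L5

variable {X Y Z M G F : Space} {k l n : ℕ} {i j : ℕ}

/-! ### The form `TD` -/

section TD

variable {u : Om M} {k1 k2 : ℝ} {c : Circ X} {A : Om X} {f : SMap X M}

theorem TD_nat {c' : Circ Y} {g : SMap Y X} (h : Eqv c' c g) :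
    TD M u k1 k2 c' (g.pull A) (f.comp g) = g.pull (TD M u k1 k2 c A f) := by
  unfold TD
  rw [TT_nat h, ub_nat h, xb_nat h, map_sub, map_sub, map_smul, map_smul, map_mul, map_mul, map_mul, map_pow, map_pow,
    pull_d]

theorem Bas_TD (hA : Cnn c A) (Du : Deg (2 * 3 + 2) u) (du : dO M u = 0) (u3 : u ^ 3 = 0) :
    Bas c (TD M u k1 k2 c A f) :=
  Bas_sub c (Bas_sub c (Bas_TT Du du u3) (Bas_smul c _ (Bas_mul c (Bas_pow c hA.Bas_e 7) (Bas_ux Du du))))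
    (Bas_smul c _ (Bas_mul c (Bas_pow c hA.Bas_e 11) (Bas_xb du)))

theorem d_TD (hA : Cnn c A) (Du : Deg (2 * 3 + 2) u) (du : dO M u = 0) (u3 : u ^ 3 = 0) :
    dO X (TD M u k1 k2 c A f) = 0 := by
  have h : ∀ (m : ℕ) (w : Om X), dO X w = 0 → dO X (dO X A ^ m * w) = 0 := fun m w hw => by
    rw [d_mul, d_pow_zero (d_d _), zero_mul, zero_add, hw, mul_zero]
  unfold TD
  rw [map_sub, map_sub, map_smul, map_smul, d_TT Du du u3, h 7 _ (d_ux Du du), h 11 _ (d_xb du), smul_zero, smul_zero,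
    sub_zero, sub_zero]

theorem Deg_TD (hA : Cnn c A) (Du : Deg (2 * 3 + 2) u) : Deg 29 (TD M u k1 k2 c A f) := by
  have h1 := Deg_TT (c := c) (f := f) Du
  have h2 := Deg_mul (Deg_pow hA.Deg_e 7) (Deg_mul (Deg_ub (c := c) (f := f) Du) (Deg_xb (c := c) (f := f) Du))
  have h3 := Deg_mul (Deg_pow hA.Deg_e 11) (Deg_xb (c := c) (f := f) Du)
  exact Deg_sub (Deg_sub h1 (Deg_smul _ h2)) (Deg_smul _ h3)

theorem K_TD (hA : Cnn c A) (Fm : SMap X.xR M) :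
    KO X (TD M u k1 k2 (xRc c) ((pO X).pull A) Fm) =
      TTh c Fm u - k1 • (dO X A ^ 7 * uxh c Fm u) - k2 • (dO X A ^ 11 * xbh c Fm u) := by
  have h7 : sO X (dO X A ^ 7) = dO X A ^ 7 := by rw [map_pow, hA.s_e]
  have h11 : sO X (dO X A ^ 11) = dO X A ^ 11 := by rw [map_pow, hA.s_e]
  have e7 : (pO X).pull (dO X A) ^ 7 = (pO X).pull (dO X A ^ 7) := (map_pow _ _ _).symm
  have e11 : (pO X).pull (dO X A) ^ 11 = (pO X).pull (dO X A ^ 11) := (map_pow _ _ _).symm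
  unfold TD
  rw [map_sub, map_sub, map_smul, map_smul, pull_d, e7, e11, K_mul, K_mul, h7, h11]
  rfl

/-- the derivative of the homotopy operator -/
theorem d_K_TD (hA : Cnn c A) (Du : Deg (2 * 3 + 2) u) (du : dO M u = 0) (u3 : u ^ 3 = 0) (Fm : SMap X.xR M) :
    dO X (KO X (TD M u k1 k2 (xRc c) ((pO X).pull A) Fm)) =
      TD M u k1 k2 c A (Fm.comp (jO X 1)) - TD M u k1 k2 c A (Fm.comp (jO X 0)) := by
  have h1 := d_K (TD M u k1 k2 (xRc c) ((pO X).pull A) Fm)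
  have hC : Cnn (xRc c) ((pO X).pull A) := hA.pull (Eqv_p c)
  rw [d_TD hC Du du u3, map_zero, add_zero] at h1
  rw [h1, ← TD_nat (Eqv_j c 1), ← TD_nat (Eqv_j c 0), j_p, j_p]

/-- orbits run twice -/
theorem K_TD_dbl (hA : Cnn c A) (Du : Deg (2 * 3 + 2) u) (du : dO M u = 0) (Fm : SMap X.xR M) :
    KO X (TD M u k1 k2 (xRc (dblc c)) ((pO X).pull ((2⁻¹ : ℝ) • A)) Fm) =
      (4 : ℝ) • TTh c Fm u - (k1 / 64) • (dO X A ^ 7 * uxh c Fm u) - (k2 / 1024) • (dO X A ^ 11 * xbh c Fm u) := by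
  rw [K_TD hA.dbl]
  have e1 : TTh (dblc c) Fm u = (4 : ℝ) • TTh c Fm u := by
    unfold TTh
    rw [xRc_dbl, TT_dbl Du du, map_smul]
  have e2 : uxh (dblc c) Fm u = (2 : ℝ) • uxh c Fm u := by
    unfold uxh
    rw [xRc_dbl, ux_dbl, map_smul]
  have e3 : xbh (dblc c) Fm u = (2 : ℝ) • xbh c Fm u := by
    unfold xbh
    rw [xRc_dbl, xb_dbl, map_smul]
  rw [e1, e2, e3, map_smul, smul_pow, smul_pow, smul_mul_smul_comm, smul_mul_smul_comm, smul_smul, smul_smul]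
  congr 2
  · congr 1
    congr 1
    ring
  · congr 1
    ring

end TD

/-! ### The data -/

/-- the geometric data of the doubled geodesics -/
structure GysD (P : NegB X G M F 15 6 2 4) (L : ∀ {X : Space}, Circ X → SMap X M → Prop) where
  /-- unit sphere bundle of `N + G`, rank 21, over `UM` -/
  Y : Space
  b : EB 20 Y G
  hc : b.cG = dblc P.cG
  /-- inclusion of the unit sphere bundle of `N` -/
  j : SMap X Y
  hj : b.B.pi.comp j = P.B.pi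
  hjc : Eqv (dblc P.c) b.cY j
  /-- the Euler form of `G` -/
  eG : Om G
  De : Deg 14 eG
  de : dO G eG = 0
  be : Bas P.cG eG
  hf : Xe P.c (j.pull b.f - P.f * P.B.pi.pull eG)
  /-- the shortening of the doubled geodesics -/
  R : SMap Y.xR M
  R0 : ∀ y, R.1 (y, 0) = P.D.foot.1 (b.B.pi.1 y)
  σ1 : ℝ → ℝ
  σ2 : ℝ → ℝ
  s1 : ContDiff ℝ ∞ σ1
  s2 : ContDiff ℝ ∞ σ2
  Rj : ∀ x s, R.1 (j.1 x, s) = P.fl.1 (x, σ1 s)
  σ10 : σ1 0 = 1 / 2
  σ20 : σ2 0 = σ1 1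
  σ21 : σ2 1 = 1
  L1 : L (xRc P.c) P.fl
  L2 : L b.cY (R.comp (jO Y 1))
  L3 : L (xRc (dblc P.c)) (P.fl.comp (rp X σ2 s2))

namespace GysD

variable {P : NegB X G M F 15 6 2 4} {L : ∀ {X : Space}, Circ X → SMap X M → Prop} (D : GysD P L)

/-- the phi side -/
abbrev PP (P : NegB X G M F 15 6 2 4) : PhiK X M 2 4 := P.toPhiK

theorem cE (P : NegB X G M F 15 6 2 4) : Cnn P.cG P.η := ⟨P.η1, P.iη, P.idη⟩

theorem cE2 : Cnn D.b.cG ((2⁻¹ : ℝ) • P.η) := by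
  rw [D.hc]
  exact (cE P).dbl

/-- the connection on `Y` -/
def AY : Om D.Y := D.b.B.pi.pull ((2⁻¹ : ℝ) • P.η)

theorem cY : Cnn D.b.cY D.AY := D.cE2.pull D.b.pic

theorem Du : Deg (2 * 3 + 2) (PP P).u := (PP P).uq
theorem du : dO M (PP P).u = 0 := (PP P).du
theorem u3 : (PP P).u ^ 3 = 0 := (PP P).up

variable (V : VanD M (PP P).u L)

/-- the form of degree 28 on `Y` -/
def om : Om D.Y := V.NP D.b.cY D.AY (D.R.comp (jO D.Y 1)) -
  KO D.Y (TD M (PP P).u V.k1 V.k2 (xRc D.b.cY) ((pO D.Y).pull D.AY) D.R)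

/-- its fibre integral, degree 8 -/
def phi8 : Om G := D.b.P (D.om V)

theorem Deg_om : Deg 28 (D.om V) := by
  have hC : Cnn (xRc D.b.cY) ((pO D.Y).pull D.AY) := D.cY.pull (Eqv_p D.b.cY)
  exact Deg_sub (V.deg D.cY D.L2) (Deg_K (Deg_TD hC Du))

theorem Bas_om : Bas D.b.cY (D.om V) := by
  have hC : Cnn (xRc D.b.cY) ((pO D.Y).pull D.AY) := D.cY.pull (Eqv_p D.b.cY)
  exact Bas_sub _ (V.bas D.cY D.L2) (Bas_K (Bas_TD hC Du du u3))

/-- the form on the base -/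
def T0 : Om G := TD M (PP P).u V.k1 V.k2 D.b.cG ((2⁻¹ : ℝ) • P.η) P.D.foot

theorem d_om : dO D.Y (D.om V) = D.b.B.pi.pull (D.T0 V) := by
  have h0 : D.R.comp (jO D.Y 0) = P.D.foot.comp D.b.B.pi := SMap_ext fun y => D.R0 y
  unfold om T0
  rw [map_sub, V.d_NP D.cY D.L2, d_K_TD D.cY Du du u3, h0, ← TD_nat D.b.pic]
  unfold TD AY
  abel

/-! ### The family over `X × R` -/

/-- the connection on `X` for the doubled orbits -/
def AX (P : NegB X G M F 15 6 2 4) : Om X := P.B.pi.pull ((2⁻¹ : ℝ) • P.η)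

theorem AX_eq : AX P = (2⁻¹ : ℝ) • (PP P).η := by
  unfold AX
  rw [map_smul]
  rfl

theorem cX : Cnn (dblc P.c) (AX P) := by
  rw [AX_eq]
  exact (PK.cnn (PP P)).dbl

theorem j_AY : D.j.pull D.AY = AX P := by
  unfold AY AX
  rw [← pull_comp, D.hj]

/-- the form of degree 29 of the doubled family over `X × R` -/
def Th (k1 k2 : ℝ) (P : NegB X G M F 15 6 2 4) : Om X.xR :=
  TD M (PP P).u k1 k2 (xRc (dblc P.c)) ((pO X).pull (AX P)) P.fl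

theorem cXR : Cnn (xRc (dblc P.c)) ((pO X).pull (AX P)) := cX.pull (Eqv_p (dblc P.c))

theorem Bas_Th (k1 k2 : ℝ) : Bas (xRc (dblc P.c)) (Th k1 k2 P) := Bas_TD cXR Du du u3

theorem d_Th (k1 k2 : ℝ) : dO _ (Th k1 k2 P) = 0 := d_TD cXR Du du u3

/-- the pull back to a path -/
theorem Th_rp (k1 k2 : ℝ) {σ : ℝ → ℝ} (hσ : ContDiff ℝ ∞ σ) :
    TD M (PP P).u k1 k2 (xRc (dblc P.c)) ((pO X).pull (AX P)) (P.fl.comp (rp X σ hσ)) =
      (rp X σ hσ).pull (Th k1 k2 P) := by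
  unfold Th
  rw [← TD_nat (Eqv_rp (dblc P.c) hσ), ← pull_comp (pO X), rp_p]

/-- the primitive at time `r` -/
def Hr (k1 k2 : ℝ) (P : NegB X G M F 15 6 2 4) (r : ℝ) : Om X := (jO X r).pull (HO X (Th k1 k2 P))

theorem K_path (k1 k2 : ℝ) {σ : ℝ → ℝ} (hσ : ContDiff ℝ ∞ σ) :
    Xe (dblc P.c) (KO X ((rp X σ hσ).pull (Th k1 k2 P)) - (Hr k1 k2 P (σ 1) - Hr k1 k2 P (σ 0))) := by
  obtain ⟨y, hy, e⟩ := K_rp (Bas_Th (P := P) k1 k2) (d_Th k1 k2) hσ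
  refine ⟨y, hy, ?_⟩
  rw [e]
  unfold Hr
  abel

theorem Hr_zero (k1 k2 : ℝ) : Hr k1 k2 P 0 = 0 := HO_j0 _

theorem Hr_one (k1 k2 : ℝ) : Hr k1 k2 P 1 = KO X (Th k1 k2 P) := HO_j1 _

/-- step (2) : the pull back of `om` to `X` -/
theorem j_om : Xe (dblc P.c) (D.j.pull (D.om V) + (Hr V.k1 V.k2 P 1 - Hr V.k1 V.k2 P (1 / 2))) := by
  have hR1 : (D.R.comp (jO D.Y 1)).comp D.j = (P.fl.comp (rp X D.σ2 D.s2)).comp (jO X 0) := SMap_ext fun x => by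
    change D.R.1 (D.j.1 x, 1) = P.fl.1 (x, D.σ2 0)
    rw [D.Rj, D.σ20]
  have hR : D.R.comp D.j.up = P.fl.comp (rp X D.σ1 D.s1) := SMap_ext fun z => D.Rj z.1 z.2
  -- the form over the second path
  obtain ⟨N, hN⟩ : ∃ N, N = V.NP (xRc (dblc P.c)) ((pO X).pull (AX P)) (P.fl.comp (rp X D.σ2 D.s2)) := ⟨_, rfl⟩
  have hb : Bas (xRc (dblc P.c)) N := by rw [hN]; exact V.bas cXR D.L3
  have hd : dO _ N = (rp X D.σ2 D.s2).pull (Th V.k1 V.k2 P) := by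
    rw [hN, V.d_NP cXR D.L3, ← Th_rp]
    rfl
  have h0 : D.j.pull (V.NP D.b.cY D.AY (D.R.comp (jO D.Y 1))) = (jO X 0).pull N := by
    rw [← V.nat D.cY D.L2 D.hjc, hN, ← V.nat cXR D.L3 (Eqv_j (dblc P.c) 0), j_p, j_AY, hR1]
  have h1 : (jO X 1).pull N = 0 := by
    rw [hN, ← V.nat cXR D.L3 (Eqv_j (dblc P.c) 1), j_p]
    refine V.const cX ?_
    intro x s
    have e1 : ∀ y, ((P.fl.comp (rp X D.σ2 D.s2)).comp (jO X 1)).1 y = (P.fl.comp (jO X 1)).1 y := fun y => by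
      change P.fl.1 (y, D.σ2 1) = P.fl.1 (y, 1)
      rw [D.σ21]
    rw [e1, e1]
    exact P.fl1 x (2 * s)
  have h2 := d_K N
  rw [hd, h1, zero_sub] at h2
  -- the form over the first path
  have h3 : D.j.pull (KO D.Y (TD M (PP P).u V.k1 V.k2 (xRc D.b.cY) ((pO D.Y).pull D.AY) D.R)) =
      KO X ((rp X D.σ1 D.s1).pull (Th V.k1 V.k2 P)) := by
    rw [← K_up, ← TD_nat (Eqv_up D.hjc), hR, ← Th_rp]
    congr 2
    have e2 : (pO D.Y).comp D.j.up = D.j.comp (pO X) := SMap_ext fun _ => rfl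
    rw [← pull_comp, e2, pull_comp, j_AY]
  have h4 := K_path (P := P) V.k1 V.k2 D.s1
  have h5 := K_path (P := P) V.k1 V.k2 D.s2
  rw [D.σ10] at h4
  rw [D.σ20, D.σ21] at h5
  have h6 : D.j.pull (D.om V) = -(dO X (KO X N) + KO X ((rp X D.σ2 D.s2).pull (Th V.k1 V.k2 P))) -
      KO X ((rp X D.σ1 D.s1).pull (Th V.k1 V.k2 P)) := by
    unfold om
    rw [map_sub, h0, h3, h2, neg_neg]
  have h7 := Xe_neg (Xe_add (Xe_add h4 h5) (Xe_d (c := dblc P.c) (Bas_K hb)))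
  have h8 : D.j.pull (D.om V) + (Hr V.k1 V.k2 P 1 - Hr V.k1 V.k2 P (1 / 2)) =
      -(KO X ((rp X D.σ1 D.s1).pull (Th V.k1 V.k2 P)) - (Hr V.k1 V.k2 P (D.σ1 1) - Hr V.k1 V.k2 P (1 / 2)) +
        (KO X ((rp X D.σ2 D.s2).pull (Th V.k1 V.k2 P)) - (Hr V.k1 V.k2 P 1 - Hr V.k1 V.k2 P (D.σ1 1))) +
        dO X (KO X N)) := by
    rw [h6]
    abel
  rw [h8]
  exact h7

/-- the antipode and the family -/
theorem Th_ant (k1 k2 : ℝ) : P.B.ant.up.pull (Th k1 k2 P) = (rO X).pull (Th k1 k2 P) := by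
  unfold Th
  have hr : Eqv (xRc (dblc P.c)) (xRc (dblc P.c)) (rO X) := fun _ _ => rfl
  have ha : Eqv (xRc (dblc P.c)) (xRc (dblc P.c)) P.B.ant.up := Eqv_up fun x s => P.antc x (2 * s)
  have e1 : P.fl.comp P.B.ant.up = P.fl.comp (rO X) := SMap_ext fun z => P.flτ z.1 z.2
  rw [← TD_nat hr, ← TD_nat ha, e1]
  congr 1
  have e2 : (pO X).comp P.B.ant.up = P.B.ant.comp (pO X) := SMap_ext fun _ => rfl
  have e3 : (pO X).comp (rO X) = pO X := SMap_ext fun _ => rfl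
  rw [← pull_comp, ← pull_comp, e2, e3, pull_comp]
  congr 1
  exact P.ant_pi _

/-- step (3) -/
theorem ant_H (k1 k2 : ℝ) :
    Xe (dblc P.c) (P.B.ant.pull (Hr k1 k2 P (1 / 2)) - (Hr k1 k2 P (1 / 2) - Hr k1 k2 P 1)) := by
  have hσ : ContDiff ℝ ∞ fun s : ℝ => s / 2 := by fun_prop
  have hσ' : ContDiff ℝ ∞ fun s : ℝ => 1 - s / 2 := by fun_prop
  have h1 := K_path (P := P) k1 k2 hσ
  have h2 := K_path (P := P) k1 k2 hσ'
  have ha : Eqv (dblc P.c) (dblc P.c) P.B.ant := fun x s => P.antc x (2 * s)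
  have h3 : P.B.ant.pull (KO X ((rp X _ hσ).pull (Th k1 k2 P))) = KO X ((rp X _ hσ').pull (Th k1 k2 P)) := by
    rw [← K_up, ← pull_comp]
    have e1 : (rp X _ hσ).comp P.B.ant.up = P.B.ant.up.comp (rp X _ hσ) := SMap_ext fun _ => rfl
    have e2 : (rO X).comp (rp X _ hσ) = rp X _ hσ' := SMap_ext fun _ => rfl
    rw [e1, pull_comp, Th_ant, ← pull_comp, e2]
  have e0 : (0 : ℝ) / 2 = 0 := by norm_num
  have e3 : (1 : ℝ) - 0 / 2 = 1 := by norm_num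
  have e4 : (1 : ℝ) - 1 / 2 = 1 / 2 := by norm_num
  rw [e0, Hr_zero, sub_zero] at h1
  rw [e3, e4] at h2
  have h4 := Xe_sub h2 (Xe_nat ha h1)
  rw [map_sub, h3] at h4
  have e5 : KO X ((rp X _ hσ').pull (Th k1 k2 P)) - (Hr k1 k2 P (1 / 2) - Hr k1 k2 P 1) -
      (KO X ((rp X _ hσ').pull (Th k1 k2 P)) - P.B.ant.pull (Hr k1 k2 P (1 / 2))) =
      P.B.ant.pull (Hr k1 k2 P (1 / 2)) - (Hr k1 k2 P (1 / 2) - Hr k1 k2 P 1) := by
    abel
  rwa [e5] at h4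

end GysD

end Pool.Agent.Lib.MP_ccbbf6_gt.K7
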