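import Pool.Agent.Lib.MP_ccbbf6_gt.K7.C04
import Pool.Agent.Lib.MP_ccbbf6_gt.K7.GY3

/-!
# `κ = 7`, block E, part 6: the volume (helper53)

`vol7` : `2 |α|^3 |∫ η (dη)^15| = ε^2 |β^2 - 12 α|`.
-/

set_option autoImplicit false
set_option maxSynthPendingDepth 3

open Set Filter Topology MeasureTheory
open scoped TensorProduct ContDiff

noncomputable section

namespace Pool.Agent.Lib.MP_ccbbf6_gt.K7

open L4 L4.FR L5

variable {X Y Z M G F : Space} {k l n : ℕ} {i j : ℕ}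

namespace GysD

variable {P : NegB X G M F 15 6 2 4}

/-- **the volume** -/
theorem vol7 {d : ℝ} (hd : (PP P).Ex ((PP P).θ - d • (PP P).f)) (hd1 : d ^ 2 = 1) {al be : ℝ}
    (hα : (PP P).Ex ((PP P).f ^ 2 - al • (PP P).e ^ (2 * 4 - 2) - be • ((PP P).e ^ (4 - 2) * (PP P).yy)))
    (hfub : ∀ (Θ : Om G) (r : ℝ), Deg 15 Θ → dO G Θ = P.D.x ^ 2 → P.D.bM.PI Θ = algebraMap ℝ (Om M) r →
      |P.TG (P.D.x ^ 2 * Θ)| = |P.D.eps| * |r|) (he : P.D.eps ≠ 0) :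
    al * PK.Wn (PP P) ≠ 0 ∧
      2 * |al| ^ 3 * |P.TG (P.η * dO G P.η ^ 15)| = P.D.eps ^ 2 * |be ^ 2 - 12 * al| := by
  obtain ⟨σ, ξ, hσN, -, -, -, hσ, hPσ⟩ := P.D.exists_sig
  have hd0 : d ≠ 0 := by
    rintro rfl
    norm_num at hd1
  have hθ := PK.θQ_sq hd hα
  rw [hd1, one_mul, one_mul] at hθ
  have hI : ∀ w, (PP P).I ((PP P).f * P.B.pi.pull w) = 2 * P.TG w := fun w => by
    change P.TG (P.B.PI (P.f * P.B.pi.pull w)) = 2 * P.TG w
    rw [P.PI_f_mul, map_smul, smul_eq_mul]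
  have hx : P.D.foot.pull (PP P).u = P.D.x := by
    rw [P.D.x_def]
    rfl
  have h1 := PK.W_base hI hθ hd (ft := P.D.foot) P.flh (σ := σ) (by rw [hσ, hx])
  have h2 := PK.v0_base hI hd (η0 := P.η) rfl
  have h3 := PK.vol_eq hθ
  have h4 := hfub σ _ hσN hσ hPσ
  rw [hx] at h1
  have h5 : |3 * P.TG (P.D.x ^ 2 * σ)| = P.D.eps ^ 2 := by
    have h3' : |((2 : ℕ) : ℝ) + 1| = 3 := by norm_num
    rw [abs_mul, h4, abs_neg, abs_div, h3', ← sq_abs P.D.eps, abs_of_pos (by norm_num : (0 : ℝ) < 3)]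
    ring
  have h6 : P.TG (P.D.x ^ 2 * σ) ≠ 0 := by
    intro h0
    rw [h0, mul_zero, abs_zero] at h5
    exact he (pow_eq_zero_iff two_ne_zero |>.1 h5.symm)
  refine ⟨?_, ?_⟩
  · rw [h1]
    exact mul_ne_zero (mul_ne_zero (by norm_num) hd0) h6
  · rw [h1, h2] at h3
    have h7 : 2 * al ^ 3 * P.TG (P.η * dO G P.η ^ 15) = 3 * P.TG (P.D.x ^ 2 * σ) * (be ^ 2 - 12 * al) := by
      have h8 : (2 * d) * (2 * al ^ 3 * P.TG (P.η * dO G P.η ^ 15)) =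
          (2 * d) * (3 * P.TG (P.D.x ^ 2 * σ) * (be ^ 2 - 12 * al)) := by
        linear_combination h3
      exact mul_left_cancel₀ (mul_ne_zero two_ne_zero hd0) h8
    have h9 := congrArg abs h7
    rw [abs_mul, abs_mul, abs_pow, abs_mul, h5, abs_two] at h9
    exact h9

end GysD

end Pool.Agent.Lib.MP_ccbbf6_gt.K7
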