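import Pool.Agent.Lib.MP_ccbbf6_gt.K7.HK3
import Pool.Agent.Lib.MP_ccbbf6_gt.L5.IA08

/-!
# `κ = 7`, block H (integrality), HK2: the contraction of families of dimension `≤ κ` (helper95)

* `exists_generic_q` : a point at distance `< π` from all the points of a smooth family of dimension `k ≤ κ` (helper91's IA08).
* `hasHpy_K` : every plot of `spG 𝒜` of dimension `≤ κ` lies in the domain of a homotopy whose end is one point.
-/

set_option autoImplicit false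
set_option linter.unusedSectionVars false

open Set Filter Topology Metric Real Module MeasureTheory
open scoped ContDiff RealInnerProductSpace

noncomputable section

namespace Pool.Agent.Lib.MP_ccbbf6_gt.K7.HM

open Geo L4 L4.ORI L5 L5.PE L5.IA

variable {n κ : ℕ} {M : Type} [MetricSpace M] [CompactSpace M] {𝒜 : SDist n M}

/-- a point at distance less than `π` from all the points of a smooth family of dimension `k ≤ κ` -/
theorem exists_generic_q (hB : Bl M) (hk : 𝒜.HK κ) {k : ℕ} (hκ : k ≤ κ) {p : FR.V k → M} (hp : Sm 𝒜 p) :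
    ∃ q : M, ∀ y, dist q (p y) < π := by
  by_contra hcon
  have hbad : ∀ q : M, ∃ y, dist q (p y) = π := by
    intro q
    by_contra h
    apply hcon
    refine ⟨q, fun y => lt_of_le_of_ne (hB.diam _ _) fun h1 => h ⟨y, h1⟩⟩
  obtain ⟨q₀, hq₀⟩ : ∃ q : M, q = p 0 := ⟨_, rfl⟩
  -- the dimension
  have hn : k ≤ n := by
    obtain ⟨y, hy⟩ := hbad q₀
    have hv0 : lg 𝒜 (p y) q₀ ≠ 0 := by
      intro h
      have h1 := norm_lg (𝒜 := 𝒜) hB (p y) q₀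
      rw [h, norm_zero, dist_comm, hy] at h1
      exact pi_pos.ne h1
    have h1 : finrank ℝ (𝒜.PV (p y) (lg 𝒜 (p y) q₀)) = κ + 1 := finrank_PV 𝒜 hB hk (p y) hv0
    have h2 := Submodule.finrank_le (𝒜.PV (p y) (lg 𝒜 (p y) q₀))
    rw [h1, finrank_euclideanSpace_fin] at h2
    omega
  -- coordinates
  obtain ⟨Y, J, hYJ⟩ : ∃ (Y : Eu n →L[ℝ] (Fin k → ℝ)) (J : (Fin k → ℝ) →L[ℝ] Eu n), ∀ y, Y (J y) = y := by
    have hs : Function.Surjective ((LinearMap.funLeft ℝ ℝ (Fin.castLE hn)).comp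
        (EuclideanSpace.equiv (Fin n) ℝ : Eu n →ₗ[ℝ] (Fin n → ℝ))) := by
      have h1 := LinearMap.funLeft_surjective_of_injective ℝ ℝ (Fin.castLE hn) (Fin.castLE_injective hn)
      rw [LinearMap.coe_comp]
      exact h1.comp (EuclideanSpace.equiv (Fin n) ℝ).surjective
    obtain ⟨g, hg⟩ := LinearMap.exists_rightInverse_of_surjective _ (LinearMap.range_eq_top.2 hs)
    refine ⟨LinearMap.toContinuousLinearMap ((LinearMap.funLeft ℝ ℝ (Fin.castLE hn)).comp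
      (EuclideanSpace.equiv (Fin n) ℝ : Eu n →ₗ[ℝ] (Fin n → ℝ))), LinearMap.toContinuousLinearMap g, fun y => ?_⟩
    exact congrArg (fun L : (Fin k → ℝ) →ₗ[ℝ] (Fin k → ℝ) => L y) hg
  -- countable cover
  have hU : ∀ y₀ : FR.V k, {y | p y ∈ (𝒜.ψ (p y₀)).source} ∈ 𝓝 y₀ := fun y₀ =>
    (hp y₀).cont.eventually ((𝒜.ψ (p y₀)).open_source.mem_nhds (𝒜.mem _))
  obtain ⟨s, hs, hcov⟩ := TopologicalSpace.countable_cover_nhds hU
  obtain ⟨g, hg⟩ : ∃ g : FR.V k → Eu n → Eu n, g = fun y₀ z => 𝒜.ψ q₀ (ia08_T Y J 𝒜 p y₀ z) := ⟨_, rfl⟩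
  obtain ⟨O, hO⟩ : ∃ O : FR.V k → Set (Eu n), O = fun y₀ => {z | z ∈ ia08_O Y J 𝒜 p y₀ ∧ ia08_T Y J 𝒜 p y₀ z ∈ (𝒜.ψ q₀).source} :=
    ⟨_, rfl⟩
  have hnull : ∀ y₀, (volume : Measure (Eu n)) (g y₀ '' O y₀) = 0 := by
    intro y₀
    rw [hg, hO]
    refine addHaar_image_eq_zero_of_det_fderivWithin_eq_zero volume
      (f' := fun z => fderiv ℝ (fun z => 𝒜.ψ q₀ (ia08_T Y J 𝒜 p y₀ z)) z) (fun z hz => ?_) (fun z hz => ?_)
    · exact (ia08_det hB hYJ hp hz.1 hz.2).1.hasFDerivWithinAt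
    · exact (ia08_det hB hYJ hp hz.1 hz.2).2
  have hsub : (𝒜.ψ q₀).target ⊆ ⋃ y₀ ∈ s, g y₀ '' O y₀ := by
    intro x hx
    obtain ⟨y, hy⟩ := hbad ((𝒜.ψ q₀).symm x)
    have h1 : y ∈ ⋃ y₀ ∈ s, {y | p y ∈ (𝒜.ψ (p y₀)).source} := by
      rw [hcov]
      exact mem_univ y
    obtain ⟨y₀, hy₀, h2⟩ := mem_iUnion₂.1 h1
    obtain ⟨z, hz, hT⟩ := ia08_cover hB hk hκ hYJ p h2 hy
    refine mem_iUnion₂.2 ⟨y₀, hy₀, z, ?_, ?_⟩
    · rw [hO]
      refine ⟨hz, ?_⟩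
      rw [hT]
      exact (𝒜.ψ q₀).map_target hx
    · rw [hg]
      show 𝒜.ψ q₀ (ia08_T Y J 𝒜 p y₀ z) = x
      rw [hT, (𝒜.ψ q₀).right_inv hx]
  have h0 : (volume : Measure (Eu n)) (𝒜.ψ q₀).target = 0 :=
    measure_mono_null hsub ((measure_biUnion_null_iff hs).2 fun y₀ _ => hnull y₀)
  have hpos : 0 < (volume : Measure (Eu n)) (𝒜.ψ q₀).target :=
    (𝒜.ψ q₀).open_target.measure_pos volume ⟨𝒜.ψ q₀ q₀, (𝒜.ψ q₀).map_source (𝒜.mem q₀)⟩
  exact hpos.ne' h0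

variable {E : Type*} [NormedAddCommGroup E] [NormedSpace ℝ E]

/-- the way to a point -/
def wk (𝒜 : SDist n M) (q x : M) (τ : ℝ) : M := rat 𝒜 x q τ

theorem smAt_wk (hB : Bl M) {q : M} {x : E → M} {τ : E → ℝ} {u : E} (hx : SmAt 𝒜 x u) (hτ : ContDiffAt ℝ ∞ τ u)
    (hq : dist q (x u) < π) : SmAt 𝒜 (fun v => wk 𝒜 q (x v) (τ v)) u := by
  unfold wk
  refine smAt_rat hB hx (smAt_const q u) hτ ?_
  rw [dist_comm]
  exact hq

/-- the domain -/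
def OK (𝒜 : SDist n M) (e : Emb n 𝒜) (q : M) (a : EuclideanSpace ℝ (Fin e.q)) : Set (Gs M) :=
  {c | dist q (c.1 0) < π ∧ (∀ τ ∈ Icc (0 : ℝ) 1, (1 - τ) • 𝒜.vel c.1 0 + τ • va e a (c.1 0) ≠ 0) ∧
    ∀ τ ∈ Icc (0 : ℝ) 1, va e a (wk 𝒜 q (c.1 0) τ) ≠ 0}

theorem openU_OK (hB : Bl M) (e : Emb n 𝒜) (q : M) (a : EuclideanSpace ℝ (Fin e.q)) :
    OpenU (spG 𝒜) (OK 𝒜 e q a) := by
  intro k p
  obtain ⟨σ, hσ⟩ : ∃ σ : FR.V k → Gs M, σ = p.1 := ⟨_, rfl⟩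
  have hσs : SmG 𝒜 σ := by rw [hσ]; exact p.2
  rw [← hσ]
  change IsOpen {z | σ z ∈ OK 𝒜 e q a}
  rw [isOpen_iff_mem_nhds]
  rintro z0 ⟨h1, h2, h3⟩
  have hpr : ∀ τ : ℝ, SmGA 𝒜 (fun y : FR.V k × ℝ => σ y.1) (z0, τ) := fun τ =>
    SmGA.comp (σ := σ) (f := fun y : FR.V k × ℝ => y.1) (v := (z0, τ)) (hσs.at z0) contDiffAt_fst
  have e1 : ∀ᶠ z in 𝓝 z0, dist q ((σ z).1 0) < π :=
    (continuousAt_const.dist (hσs.1 z0).1).eventually (gt_mem_nhds h1)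
  have e2 : ∀ᶠ z in 𝓝 z0, ∀ τ ∈ Icc (0 : ℝ) 1, (1 - τ) • 𝒜.vel (σ z).1 0 + τ • va e a ((σ z).1 0) ≠ 0 := by
    refine isCompact_Icc.eventually_forall_of_forall_eventually fun τ hτ => ?_
    exact SmV_ne (x := fun y : FR.V k × ℝ => (σ y.1).1 0)
      (w := fun y : FR.V k × ℝ => (1 - y.2) • 𝒜.vel (σ y.1).1 0 + y.2 • va e a ((σ y.1).1 0))
      (smV_Ro hB e a (hpr τ) contDiffAt_snd) (h2 τ hτ)
  have e3 : ∀ᶠ z in 𝓝 z0, ∀ τ ∈ Icc (0 : ℝ) 1, va e a (wk 𝒜 q ((σ z).1 0) τ) ≠ 0 := by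
    refine isCompact_Icc.eventually_forall_of_forall_eventually fun τ hτ => ?_
    have h4 : SmAt 𝒜 (fun y : FR.V k × ℝ => wk 𝒜 q ((σ y.1).1 0) y.2) (z0, τ) :=
      smAt_wk hB (hpr τ).1 contDiffAt_snd h1
    exact SmV_ne (x := fun y : FR.V k × ℝ => wk 𝒜 q ((σ y.1).1 0) y.2)
      (w := fun y : FR.V k × ℝ => va e a (wk 𝒜 q ((σ y.1).1 0) y.2)) (smV_va a h4 (𝒜.mem _)) (h3 τ hτ)
  filter_upwards [e1, e2, e3] with z z1 z2 z3
  exact ⟨z1, z2, z3⟩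

open Classical in
/-- the homotopy -/
def FK (hB : Bl M) (e : Emb n 𝒜) (q : M) (a : EuclideanSpace ℝ (Fin e.q)) {e0 : Eu n} (he0 : ‖e0‖ = 1) (c : Gs M) (s : ℝ) : Gs M :=
  if s ≤ 1 / 2 then Ro hB e a c (smoothTransition (3 * s)) else
    sa hB e a he0 (wk 𝒜 q (c.1 0) (smoothTransition (3 * s - 2)))

theorem smG_FK (hB : Bl M) (e : Emb n 𝒜) (q : M) (a : EuclideanSpace ℝ (Fin e.q)) {e0 : Eu n} (he0 : ‖e0‖ = 1)
    {k : ℕ} {σ : FR.V k → Gs M} (hσ : SmG 𝒜 σ) (hO : ∀ z, σ z ∈ OK 𝒜 e q a) {s : FR.V k → ℝ} (hs : ContDiff ℝ ∞ s) :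
    SmG 𝒜 fun z => FK hB e q a he0 (σ z) (s z) := by
  refine smG_of fun z => ?_
  have hc : ContinuousAt s z := hs.continuous.continuousAt
  rcases lt_or_ge (s z) (2 / 3) with h | h
  · have h1 : ContDiffAt ℝ ∞ (fun z => smoothTransition (3 * s z)) z :=
      (smoothTransition.contDiff.comp (contDiff_const.mul hs)).contDiffAt
    refine (smGA_Ro hB e a (hσ.at z) h1 ((hO z).2.1 _ (st_mem _))).congr ?_
    filter_upwards [hc.eventually (gt_mem_nhds h)] with y hy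
    unfold FK
    split_ifs with h2
    · rfl
    · have h3 : smoothTransition (3 * s y - 2) = 0 := smoothTransition.zero_of_nonpos (by linarith)
      have h4 : smoothTransition (3 * s y) = 1 := smoothTransition.one_of_one_le (by linarith [not_le.1 h2])
      have h5 : wk 𝒜 q ((σ y).1 0) 0 = (σ y).1 0 := rat_zero hB _ _
      have h6 := (hO y).2.2 0 ⟨le_rfl, zero_le_one⟩
      rw [h5] at h6
      rw [h3, h4, h5, Ro_one hB e a he0 _ h6]
  · have h1 : ContDiffAt ℝ ∞ (fun z => smoothTransition (3 * s z - 2)) z :=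
      (smoothTransition.contDiff.comp ((contDiff_const.mul hs).sub contDiff_const)).contDiffAt
    have h2 : SmAt 𝒜 (fun y => wk 𝒜 q ((σ y).1 0) (smoothTransition (3 * s y - 2))) z :=
      smAt_wk hB (hσ.1 z) h1 (hO z).1
    refine (smGA_sa hB e a he0 h2 ((hO z).2.2 _ (st_mem _))).congr ?_
    filter_upwards [hc.eventually (lt_mem_nhds (show (1 / 2 : ℝ) < s z by linarith))] with y hy
    unfold FK
    rw [if_neg (not_le.2 hy)]

theorem FK_zero (hB : Bl M) (e : Emb n 𝒜) (q : M) (a : EuclideanSpace ℝ (Fin e.q)) {e0 : Eu n} (he0 : ‖e0‖ = 1) (c : Gs M) :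
    FK hB e q a he0 c 0 = c := by
  unfold FK
  rw [if_pos (by norm_num), mul_zero, smoothTransition.zero_of_nonpos le_rfl, Ro_zero]

theorem FK_one (hB : Bl M) (e : Emb n 𝒜) (q : M) (a : EuclideanSpace ℝ (Fin e.q)) {e0 : Eu n} (he0 : ‖e0‖ = 1) (c : Gs M) :
    FK hB e q a he0 c 1 = sa hB e a he0 q := by
  have h5 : wk 𝒜 q (c.1 0) 1 = q := rat_one hB _ _
  unfold FK
  rw [if_neg (by norm_num), smoothTransition.one_of_one_le (by norm_num), h5]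

/-- **the contraction** -/
def HpyK (hB : Bl M) (e : Emb n 𝒜) (q : M) (a : EuclideanSpace ℝ (Fin e.q)) {e0 : Eu n} (he0 : ‖e0‖ = 1) : Hpy (spG 𝒜) 0 :=
  Hpy.of_const (openU_OK hB e q a)
    ⟨fun z => FK hB e q a he0 z.1.1 z.2, fun _ P => smG_FK hB e q a he0 P.2.1 (fun z => (P.1 z).1.2) P.2.2⟩
    (fun x => FK_zero hB e q a he0 x.1) (fun x y => (FK_one hB e q a he0 x.1).trans (FK_one hB e q a he0 y.1).symm)

/-- **families of dimension `≤ κ` are contractible** -/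
theorem hasHpy_K (hB : Bl M) (hk : 𝒜.HK κ) (e : Emb n 𝒜) {m : ℕ} (hm : m + 1 < n) (hκ : m ≤ κ) : HasHpy (spG 𝒜) 0 m := by
  intro k hkm p
  obtain ⟨σ, hσ⟩ : ∃ σ : FR.V k → Gs M, σ = p.1 := ⟨_, rfl⟩
  have hσs : SmG 𝒜 σ := by rw [hσ]; exact p.2
  obtain ⟨q, hq⟩ := exists_generic_q hB hk (hkm.trans hκ) hσs.1
  have hy : Sm 𝒜 fun z : FR.V (k + 1) => wk 𝒜 q ((σ (FR.pr k z)).1 0) (smoothTransition (z (Fin.last k))) := fun z => by
    refine smAt_wk hB (x := fun z : FR.V (k + 1) => (σ (FR.pr k z)).1 0) ?_ ?_ (hq _)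
    · exact SmAt.comp (g := fun z => (σ z).1 0) (f := FR.pr k) (hσs.1 _) (FR.pr k).smooth.contDiffAt
    · exact (smoothTransition.contDiff.comp (contDiff_apply ℝ ℝ (Fin.last k))).contDiffAt
  obtain ⟨a, ha1, ha2⟩ := exists_generic_a hB e (by omega : k + 1 < n) (by omega : k + 1 < n) hσs hy
  obtain ⟨e0, he0⟩ : ∃ v : Eu n, ‖v‖ = 1 := ⟨EuclideanSpace.single ⟨0, by omega⟩ 1, by simp⟩
  refine ⟨HpyK hB e q a he0, fun z => ?_⟩
  have h0 : σ z ∈ OK 𝒜 e q a := by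
    refine ⟨hq z, fun τ hτ h => ?_, fun τ hτ => ?_⟩
    · rcases hτ.1.eq_or_lt with h1 | h1
      · rw [← h1, sub_zero, one_smul, zero_smul, add_zero] at h
        exact vel_ne 𝒜 _ h
      · refine ha1 z (-(τ⁻¹ * (1 - τ))) ?_
        have h2 : τ • va e a ((σ z).1 0) = -((1 - τ) • 𝒜.vel (σ z).1 0) := eq_neg_of_add_eq_zero_right h
        have h3 : va e a ((σ z).1 0) = τ⁻¹ • τ • va e a ((σ z).1 0) := by
          rw [smul_smul, inv_mul_cancel₀ h1.ne', one_smul]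
        rw [h3, h2, smul_neg, smul_smul, neg_smul]
    · obtain ⟨t, -, ht⟩ := intermediate_value_Icc (zero_le_one' ℝ) smoothTransition.continuous.continuousOn
        (show τ ∈ Icc (smoothTransition 0) (smoothTransition 1) by
          rw [smoothTransition.zero_of_nonpos le_rfl, smoothTransition.one_of_one_le le_rfl]
          exact hτ)
      have h2 := ha2 (Fin.snoc z t)
      rw [FR.pr_snoc, Fin.snoc_last, ht] at h2
      exact h2
  rw [hσ] at h0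
  exact h0

end Pool.Agent.Lib.MP_ccbbf6_gt.K7.HM
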