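import Pool.Agent.Lib.MP_ccbbf6_gt.K7.HK3
import Pool.Agent.Lib.MP_ccbbf6_gt.L5.IB7

/-!
# `κ = 7`, block H (integrality), HS: the sphere cube (helper95)

`exists_sphere` : a cube `w` of dimension `κ + 1` in `spG 𝒜` with all faces thin of order `0` and `|∫_w foot^* u| = 1`.
-/

set_option autoImplicit false
set_option linter.unusedSectionVars false

open Set Filter Topology Metric Real Module
open scoped ContDiff RealInnerProductSpace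

noncomputable section

namespace Pool.Agent.Lib.MP_ccbbf6_gt.K7.HM

open Geo L4 L4.ORI L4.FR L5 L5.PE L5.IA

variable {n κ : ℕ} {M : Type} [MetricSpace M] [CompactSpace M] {𝒜 : SDist n M}

/-- a field without zeros on a family of points -/
theorem exists_generic_a' (e : Emb n 𝒜) {l : ℕ} (hl : l < n) {y : FR.V l → M} (hy : L4.Sm 𝒜 y) :
    ∃ a : EuclideanSpace ℝ (Fin e.q), ∀ z, va e a (y z) ≠ 0 := by
  have h2 : dimH {a | ∃ z : FR.V l, QQ e (y z) (a - 0) = 0} < finrank ℝ (EuclideanSpace ℝ (Fin e.q)) := by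
    refine gen_dimH (N := n) ?_ (fun z => QQ_QQ _) (fun z => QQ_rank _) contDiff_const hl
    rw [contDiff_iff_contDiffAt]
    exact fun z => contDiffAt_QQ (hy z)
  obtain ⟨a, -, ha2⟩ := exists_not_mem2 h2 h2
  refine ⟨a, fun z => va_ne fun h => ha2 ⟨z, ?_⟩⟩
  rw [sub_zero]
  exact h

/-- there is a frame -/
theorem exists_fr (hn : 0 < n) (hB : Bl M) (hk : 𝒜.HK κ) (x : M) : Nonempty (spVF 𝒜 κ).pt := by
  obtain ⟨v, hv⟩ : ∃ v : Eu n, ‖v‖ = 1 := ⟨EuclideanSpace.single ⟨0, hn⟩ 1, by simp⟩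
  obtain ⟨Q, -⟩ : ∃ Q : (spG 𝒜).Plot 0, Q.1 0 = gvg 𝒜 hB x _ hv := ⟨⟨fun _ => gvg 𝒜 hB x _ hv, ⟨sm_const _, sm_const _⟩⟩, rfl⟩
  obtain ⟨_, R, -, -⟩ := LLift_f0V (𝒜 := 𝒜) hB hk 0 Q 0
  exact ⟨R.1 0⟩

/-- **the sphere cube** -/
theorem exists_sphere (hn : κ + 1 < n) (hκ : 1 ≤ κ) (hB : Bl M) (hk : 𝒜.HK κ) (e : Emb n 𝒜) (x : M) {u : Om (spM 𝒜)}
    {g : (spVF 𝒜 κ).pt → ℝ} (hU : UD 𝒜 hB κ u g) :
    ∃ w : (spG 𝒜).Plot (κ + 1), Good w ∧ |cI (κ + 1) (Om.on ((L4.foot hB 0).pull u) w)| = 1 := by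
  obtain ⟨f⟩ := exists_fr (by omega) hB hk x
  obtain ⟨Φ, hΦ1, -, hΦ3⟩ := IB.exists_sweep (𝒜 := 𝒜) hB hκ hU.closed hU.deg f
  rw [hU.gV_eq', hU.one] at hΦ3
  obtain ⟨y, hy⟩ : ∃ y : FR.V (κ + 1) → M, y = Φ.1 := ⟨_, rfl⟩
  have hys : L4.Sm 𝒜 y := by rw [hy]; exact Φ.2
  obtain ⟨a, ha⟩ := exists_generic_a' e hn hys
  rw [hy] at ha
  obtain ⟨e0, he0⟩ : ∃ v : Eu n, ‖v‖ = 1 := ⟨EuclideanSpace.single ⟨0, by omega⟩ 1, by simp⟩
  obtain ⟨w, hw⟩ : ∃ w : (spG 𝒜).Plot (κ + 1), ∀ z, w.1 z = sa hB e a he0 (Φ.1 z) :=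
    ⟨(saM hB e a he0).pl (⟨fun z => ⟨Φ.1 z, ha z⟩, Φ.2⟩ : (sub (spM 𝒜) {p | va (M := M) e a p ≠ 0}).Plot (κ + 1)), fun z => rfl⟩
  refine ⟨w, fun i => Or.inr ⟨0, by omega, ?_, ?_⟩, ?_⟩
  · intro z
    refine ⟨w.cmp ⟨fun _ => cst i 0 0, contDiff_const⟩, ⟨fun _ => 0, contDiff_const⟩, Eventually.of_forall fun y' => ?_⟩
    change w.1 (Function.update y' i 0) = w.1 (Function.update 0 i 0)
    rw [hw, hw, hΦ1 _ ⟨i, Or.inl (by rw [Function.update_self])⟩, hΦ1 _ ⟨i, Or.inl (by rw [Function.update_self])⟩]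
  · intro z
    refine ⟨w.cmp ⟨fun _ => cst i 1 0, contDiff_const⟩, ⟨fun _ => 0, contDiff_const⟩, Eventually.of_forall fun y' => ?_⟩
    change w.1 (Function.update y' i 1) = w.1 (Function.update 0 i 1)
    rw [hw, hw, hΦ1 _ ⟨i, Or.inr (by rw [Function.update_self])⟩, hΦ1 _ ⟨i, Or.inr (by rw [Function.update_self])⟩]
  · rw [on_pull]
    have h1 : (L4.foot hB 0).pl w = Φ := Plot_ext fun z => by
      change (w.1 z).1 0 = Φ.1 z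
      rw [hw]
      exact sa_foot hB e a he0 _
    rw [h1]
    exact hΦ3

end Pool.Agent.Lib.MP_ccbbf6_gt.K7.HM
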