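import Pool.Agent.Lib.MP_ccbbf6_gt.K7.HM3

/-!
# `κ = 7`, block H (integrality), HX1: the integers (helper95)

`int_abs` : `X` a space with a circle action `c`, `A` a connection form (`iO c A = a₀`, `a₀² = 1`), `e = dA`, `y` a closed basic form of
degree `8`, `P₁ = a₁ e² + d(basic)`, `P₂ = a₂ e⁴ + 2 b y + d(basic)`, `P₃ = α e⁶ + β e² y + d(basic)` forms with integral periods on the cubes with
good faces. Then `a₁`, `β`, `a₂ + b H`, `α + β H / 2` are integers, `H = 2 ∫_{w₈} y`.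
-/

set_option autoImplicit false
set_option maxSynthPendingDepth 3

open Set Filter Topology MeasureTheory
open scoped ContDiff

noncomputable section

namespace Pool.Agent.Lib.MP_ccbbf6_gt.K7.HM

open L4 L4.FR L5 L5.IA

variable {X : Space} {k l r r' m : ℕ} {j : ℕ} {c : Circ X}

theorem topE_zero_one : topE 0 (1 : Ex 0) = 1 := by
  have h3 := topE_ιMulti (k := 0) (fun i => i.elim0)
  rw [ExteriorAlgebra.ιMulti_apply, List.ofFn_zero, List.prod_nil] at h3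
  rw [h3]
  exact Matrix.det_fin_zero

theorem cI_zero_one : cI 0 (1 : Fm 0) = 1 := by
  unfold cI
  have h1 : ∀ x : V 0, topE 0 (FR.ev x (1 : Fm 0)) = 1 := fun x => by rw [map_one, topE_zero_one]
  simp only [h1]
  rw [setIntegral_const, smul_eq_mul, mul_one]
  have h2 : (Icc (0 : V 0) 1) = univ := by
    ext x
    simp only [mem_univ, iff_true]
    exact ⟨fun i => i.elim0, fun i => i.elim0⟩
  rw [h2, Measure.real, volume_pi, Measure.pi_univ]
  simp

/-- the power of the curvature -/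
theorem Deg_epow {A : Om X} (hA : Deg 1 A) (n : ℕ) : Deg (2 * n) ((dO X A) ^ n) := Deg_pow (Deg_d hA) n

theorem d_epow (A : Om X) (n : ℕ) : dO X ((dO X A) ^ n) = 0 := by
  induction n with
  | zero => rw [pow_zero, d_one]
  | succ n ih => rw [pow_succ, d_mul, ih, zero_mul, d_d, mul_zero, add_zero]

/-- **one reduction** -/
theorem Nxt.red_pow {w : X.Plot k} {W : X.Plot (k + 1 + 1)} (hN : Nxt c w W) {A y : Om X} (hA : Deg 1 A) {a : ℝ}
    (hi : iO c A = algebraMap ℝ (Om X) a) (he : Bas c (dO X A)) (n : ℕ) {i : ℕ} (hy : Deg i y) (hk : k = 2 * n + i)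
    (hB : Bas c y) (hd : dO X y = 0) :
    cI (k + 1 + 1) (Om.on ((dO X A) ^ (n + 1) * y) W) = a * cI k (Om.on ((dO X A) ^ n * y) w) := by
  subst hk
  have h1 : (dO X A) ^ (n + 1) * y = dO X A * ((dO X A) ^ n * y) := by rw [pow_succ', mul_assoc]
  rw [h1]
  refine hN.red hA hi (Deg_mul (Deg_epow hA n) hy) (Bas_mul c (Bas_pow c he n) hB) ?_
  rw [d_mul, d_epow A, hd, zero_mul, mul_zero, add_zero]

/-- exact forms on good cubes which are powers of the curvature -/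
theorem Good.epow {w : X.Plot (2 * m + 1 + 1)} (hG : Good w) {A : Om X} (hA : Deg 1 A) :
    cI (2 * m + 1 + 1) (Om.on ((dO X A) ^ (m + 1)) w) = 0 := by
  have h1 : (dO X A) ^ (m + 1) = dO X (A * (dO X A) ^ m) := by
    rw [d_mul, d_epow A, mul_zero, add_zero, pow_succ']
  have h2 : Deg (2 * m + 1) (A * (dO X A) ^ m) := by
    have h3 := Deg_mul hA (Deg_epow hA m)
    rwa [add_comm] at h3
  rw [h1]
  exact hG.exact h2

/-- the integral over a stage of `F + d(basic)` -/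
theorem Nxt.add_basic {w : X.Plot k} {W : X.Plot (k + 1 + 1)} (hN : Nxt c w W) {F ξ : Om X} (hξ : Deg (k + 1) ξ)
    (hb : Bas c ξ) : cI (k + 1 + 1) (Om.on (F + dO X ξ) W) = cI (k + 1 + 1) (Om.on F W) := by
  rw [on_add, cI_add, hN.basic hξ hb, add_zero]

/-- **the integers of block H** -/
theorem int_abs {A y P1 P2 P3 ξ1 ξ2 ξ3 : Om X} {a0 a1 a2 b al be : ℝ} (ha0 : a0 ^ 2 = 1) (hA : Deg 1 A)
    (hi : iO c A = algebraMap ℝ (Om X) a0) (he : Bas c (dO X A)) (hy : Deg 8 y) (hyb : Bas c y) (hyd : dO X y = 0)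
    (h1 : P1 = a1 • (dO X A) ^ 2 + dO X ξ1) (hξ1 : Deg 3 ξ1) (hb1 : Bas c ξ1)
    (h2 : P2 = a2 • (dO X A) ^ 4 + (2 * b) • y + dO X ξ2) (hξ2 : Deg 7 ξ2) (hb2 : Bas c ξ2)
    (h3 : P3 = al • (dO X A) ^ 6 + be • ((dO X A) ^ 2 * y) + dO X ξ3) (hξ3 : Deg 11 ξ3) (hb3 : Bas c ξ3)
    (I1 : ∀ w : X.Plot 4, (∀ i, FCX c w i) → ∃ m : ℤ, cI 4 (Om.on P1 w) = m)
    (I2 : ∀ w : X.Plot 8, (∀ i, FCX c w i) → ∃ m : ℤ, cI 8 (Om.on P2 w) = m)
    (I3 : ∀ w : X.Plot 12, (∀ i, FCX c w i) → ∃ m : ℤ, cI 12 (Om.on P3 w) = m)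
    (hK : HasHpy X 0 7) (hH : HasHpy X 8 13) (w0 : X.Plot 0)
    (hP : ∀ (w4 : X.Plot 4) (w6 : X.Plot 6) (w8 : X.Plot 8), Nxt c w4 w6 → Nxt c w6 w8 → ∃ H : ℤ, 2 * cI 8 (Om.on y w8) = H)
    {w8S : X.Plot 8} (hG : Good w8S) (hS : |cI 8 (Om.on y w8S)| = 1) :
    ∃ A1 A2 A3 B H : ℤ, a1 = A1 ∧ be = B ∧ a2 + b * H = A2 ∧ al + be * H / 2 = A3 := by
  have ha4 : a0 ^ 4 = 1 := by
    have : a0 ^ 4 = (a0 ^ 2) ^ 2 := by ring
    rw [this, ha0, one_pow]
  have ha6 : a0 ^ 6 = 1 := by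
    have : a0 ^ 6 = (a0 ^ 2) ^ 3 := by ring
    rw [this, ha0, one_pow]
  have hone : Deg 0 (1 : Om X) := Deg_one
  have hob : Bas c (1 : Om X) := Bas_one c
  -- the first chain
  obtain ⟨w2, w4, w6, w8, w10, w12, n2, n4, n6, n8, n10, n12⟩ := exists_chain hK hH c w0
  have e2 : cI 2 (Om.on ((dO X A) ^ 1 * 1) w2) = a0 := by
    have h4 := n2.red_pow hA hi he 0 hone rfl hob (d_one)
    rw [pow_zero, one_mul, on_one, cI_zero_one] at h4
    exact h4.trans (mul_one a0)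
  have e4 : cI 4 (Om.on ((dO X A) ^ 2 * 1) w4) = a0 ^ 2 := by
    have h4 := n4.red_pow hA hi he 1 hone rfl hob (d_one)
    rw [e2] at h4
    exact h4.trans (by ring)
  have e6 : cI 6 (Om.on ((dO X A) ^ 3 * 1) w6) = a0 ^ 3 := by
    have h4 := n6.red_pow hA hi he 2 hone rfl hob (d_one)
    rw [e4] at h4
    exact h4.trans (by ring)
  have e8 : cI 8 (Om.on ((dO X A) ^ 4 * 1) w8) = a0 ^ 4 := by
    have h4 := n8.red_pow hA hi he 3 hone rfl hob (d_one)
    rw [e6] at h4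
    exact h4.trans (by ring)
  have e10 : cI 10 (Om.on ((dO X A) ^ 5 * 1) w10) = a0 ^ 5 := by
    have h4 := n10.red_pow hA hi he 4 hone rfl hob (d_one)
    rw [e8] at h4
    exact h4.trans (by ring)
  have e12 : cI 12 (Om.on ((dO X A) ^ 6 * 1) w12) = a0 ^ 6 := by
    have h4 := n12.red_pow hA hi he 5 hone rfl hob (d_one)
    rw [e10] at h4
    exact h4.trans (by ring)
  rw [mul_one] at e4 e8 e12
  -- the form `y`
  obtain ⟨H, hH2⟩ := hP w4 w6 w8 n6 n8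
  have y10 : cI 10 (Om.on ((dO X A) ^ 1 * y) w10) = a0 * cI 8 (Om.on y w8) := by
    have h4 := n10.red_pow hA hi he 0 hy rfl hyb hyd
    rw [pow_zero, one_mul] at h4
    exact h4
  have y12 : cI 12 (Om.on ((dO X A) ^ 2 * y) w12) = cI 8 (Om.on y w8) := by
    have h4 := n12.red_pow hA hi he 1 hy rfl hyb hyd
    rw [y10] at h4
    refine h4.trans ?_
    rw [← mul_assoc, ← sq, ha0, one_mul]
  -- the second chain
  obtain ⟨v10, v12, m10, m12⟩ := exists_chain8 hH c hG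
  have f8 : cI 8 (Om.on ((dO X A) ^ 4 * 1) w8S) = 0 := by
    rw [mul_one]
    exact hG.epow (m := 3) hA
  have f10 : cI 10 (Om.on ((dO X A) ^ 5 * 1) v10) = 0 := by
    have h4 := m10.red_pow hA hi he 4 hone rfl hob (d_one)
    rw [f8, mul_zero] at h4
    exact h4
  have f12 : cI 12 (Om.on ((dO X A) ^ 6 * 1) v12) = 0 := by
    have h4 := m12.red_pow hA hi he 5 hone rfl hob (d_one)
    rw [f10, mul_zero] at h4
    exact h4
  rw [mul_one] at f12
  have g10 : cI 10 (Om.on ((dO X A) ^ 1 * y) v10) = a0 * cI 8 (Om.on y w8S) := by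
    have h4 := m10.red_pow hA hi he 0 hy rfl hyb hyd
    rw [pow_zero, one_mul] at h4
    exact h4
  have g12 : cI 12 (Om.on ((dO X A) ^ 2 * y) v12) = cI 8 (Om.on y w8S) := by
    have h4 := m12.red_pow hA hi he 1 hy rfl hyb hyd
    rw [g10] at h4
    refine h4.trans ?_
    rw [← mul_assoc, ← sq, ha0, one_mul]
  -- the integers
  obtain ⟨A1, hA1⟩ := I1 w4 n4.fcx
  obtain ⟨A2, hA2⟩ := I2 w8 n8.fcx
  obtain ⟨A3, hA3⟩ := I3 w12 n12.fcx
  obtain ⟨B, hB⟩ := I3 v12 m12.fcx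
  have r1 : cI 4 (Om.on P1 w4) = a1 := by
    rw [h1]
    refine (n4.add_basic hξ1 hb1).trans ?_
    change cI 4 (a1 • Om.on ((dO X A) ^ 2) w4) = a1
    rw [cI_smul, e4, ha0, mul_one]
  have r2 : cI 8 (Om.on P2 w8) = a2 + 2 * b * cI 8 (Om.on y w8) := by
    rw [h2]
    refine (n8.add_basic hξ2 hb2).trans ?_
    change cI 8 (a2 • Om.on ((dO X A) ^ 4) w8 + (2 * b) • Om.on y w8) = _
    rw [cI_add, cI_smul, cI_smul, e8, ha4, mul_one]
  have r3 : cI 12 (Om.on P3 w12) = al + be * cI 8 (Om.on y w8) := by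
    rw [h3]
    refine (n12.add_basic hξ3 hb3).trans ?_
    change cI 12 (al • Om.on ((dO X A) ^ 6) w12 + be • Om.on ((dO X A) ^ 2 * y) w12) = _
    rw [cI_add, cI_smul, cI_smul, e12, ha6, mul_one, y12]
  have r4 : cI 12 (Om.on P3 v12) = be * cI 8 (Om.on y w8S) := by
    rw [h3]
    refine (m12.add_basic hξ3 hb3).trans ?_
    change cI 12 (al • Om.on ((dO X A) ^ 6) v12 + be • Om.on ((dO X A) ^ 2 * y) v12) = _
    rw [cI_add, cI_smul, cI_smul, f12, mul_zero, zero_add, g12]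
  rw [r1] at hA1
  rw [r2] at hA2
  rw [r3] at hA3
  rw [r4] at hB
  have hy2 : cI 8 (Om.on y w8) = H / 2 := by linarith
  rcases (abs_eq zero_le_one).1 hS with hS | hS
  · refine ⟨A1, A2, A3, B, H, hA1, ?_, ?_, ?_⟩
    · rw [hS, mul_one] at hB
      exact hB
    · rw [← hA2, hy2]
      ring
    · rw [← hA3, hy2]
      ring
  · refine ⟨A1, A2, A3, -B, H, hA1, ?_, ?_, ?_⟩
    · rw [hS] at hB
      push_cast
      linarith
    · rw [← hA2, hy2]
      ring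
    · rw [← hA3, hy2]
      ring

end Pool.Agent.Lib.MP_ccbbf6_gt.K7.HM
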