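import Pool.Agent.Lib.MP_ccbbf6_gt.K7.HM3
import Pool.Agent.Lib.MP_ccbbf6_gt.L5.IM6

/-!
# `κ = 7`, block H (integrality), HX2: the Pontryagin forms have integral periods on the cubes of the machine (helper95)

`pont hP k = (2 π)^(-2k) e_(2k)(F_P)`, `P` a projection matrix over `SF X`; `int_pont` : if `P` is invariant and symmetric of trace `r ≥ 2 k`,
the integral over a `4 k`-cube with `FCX` faces is an integer. `Deg_pont` : its degree.
-/

set_option autoImplicit false
set_option maxSynthPendingDepth 3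
set_option linter.unusedSectionVars false

open Set Filter Topology MeasureTheory Matrix
open scoped ContDiff Real

noncomputable section

namespace Pool.Agent.Lib.MP_ccbbf6_gt.K7.HM

open L4 L4.FR L5 L5.IA

variable {X : Space} {k r : ℕ} {c : Circ X} {ι : Type} [Fintype ι] [DecidableEq ι]

/-- the `k`-th Pontryagin form -/
def pont {P : Matrix ι ι (SF X)} (hP : P * P = P) (k : ℕ) : Om X :=
  ((2 * π) ^ (2 * k))⁻¹ • ((GDA.cf ((FO X).idem hP) (2 * k) : (GO X).Zc) : Om X)

theorem Deg_mm {i j : ℕ} {A B : Matrix ι ι (Om X)} (hA : ∀ a b, Deg i (A a b)) (hB : ∀ a b, Deg j (B a b)) (a b : ι) :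
    Deg (i + j) ((A * B) a b) := by
  rw [Matrix.mul_apply]
  have h : ∀ s : Finset ι, Deg (i + j) (∑ c ∈ s, A a c * B c b) := by
    intro s
    induction s using Finset.induction_on with
    | empty => rw [Finset.sum_empty]; exact Deg_zero
    | insert c s hd1 ih => rw [Finset.sum_insert hd1]; exact Deg_add (Deg_mul (hA a c) (hB c b)) ih
  exact h _

theorem Deg_psf (P : Matrix ι ι (SF X)) (j : ℕ) : Deg (2 * j) ((GO X).ps (P.map (FO X).f) j) := by
  have h0 : ∀ a b, Deg 0 ((P.map (FO X).f) a b) := fun a b k p => Dg_fc _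
  have h1 : ∀ a b, Deg 1 ((GO X).D (P.map (FO X).f) a b) := fun a b => Deg_d (h0 a b)
  have h2 : ∀ a b, Deg 2 ((GO X).R (P.map (FO X).f) a b) := fun a b => Deg_mm h1 h1 a b
  have h3 : ∀ (j : ℕ) (a b : ι), Deg (2 * j) (((P.map (FO X).f) * (GO X).R (P.map (FO X).f) ^ j) a b) := by
    intro j
    induction j with
    | zero => intro a b; rw [pow_zero, Matrix.mul_one]; exact h0 a b
    | succ j ih => intro a b; rw [pow_succ, ← Matrix.mul_assoc]; exact Deg_mm ih h2 a b
  unfold GDA.ps Matrix.trace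
  have h : ∀ s : Finset ι, Deg (2 * j)
      (∑ c ∈ s, Matrix.diag ((P.map (FO X).f) * (GO X).R (P.map (FO X).f) ^ j) c) := by
    intro s
    induction s using Finset.induction_on with
    | empty => rw [Finset.sum_empty]; exact Deg_zero
    | insert c s hd1 ih => rw [Finset.sum_insert hd1]; exact Deg_add (h3 j c c) ih
  exact h _

theorem Deg_sumZ {j : ℕ} {α : Type*} (s : Finset α) {f : α → (GO X).Zc} (h : ∀ a ∈ s, Deg j ((f a : (GO X).Zc) : Om X)) :
    Deg j ((∑ a ∈ s, f a : (GO X).Zc) : Om X) := by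
  classical
  induction s using Finset.induction_on with
  | empty => exact Deg_zero
  | insert c s hc ih =>
    rw [Finset.sum_insert hc]
    exact Deg_add (h c (Finset.mem_insert_self c s)) (ih fun a ha => h a (Finset.mem_insert_of_mem ha))

theorem Deg_cf {P : Matrix ι ι (SF X)} (hP : P * P = P) (j : ℕ) :
    Deg (2 * j) ((GDA.cf ((FO X).idem hP) j : (GO X).Zc) : Om X) := by
  unfold GDA.cf
  induction j using Nat.strong_induction_on with
  | _ j ih =>
    rcases j with _ | m
    · rw [elc_zero]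
      exact Deg_one
    · rw [elc_succ]
      refine Deg_smul _ (Deg_sumZ _ fun k hk => ?_)
      have hk' := Finset.mem_range.1 hk
      have h1 : Deg (2 * (m + 1)) ((elc (GDA.zps ((FO X).idem hP)) (m - k) * GDA.zps ((FO X).idem hP) (k + 1) : (GO X).Zc) : Om X) := by
        have h2 := Deg_mul (ih (m - k) (by omega)) (Deg_psf P (k + 1))
        have h3 : 2 * (m - k) + 2 * (k + 1) = 2 * (m + 1) := by omega
        rw [h3] at h2
        exact h2
      rcases Nat.even_or_odd k with h2 | h2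
      · rw [h2.neg_one_pow, one_mul]
        exact h1
      · rw [h2.neg_one_pow, neg_one_mul]
        exact Deg_neg h1

theorem Deg_pont {P : Matrix ι ι (SF X)} (hP : P * P = P) (k : ℕ) : Deg (2 * (2 * k)) (pont hP k) := Deg_smul _ (Deg_cf hP (2 * k))

theorem FCX.fc {P : Matrix ι ι (SF X)} (hinv : ∀ i j x s, (P i j).1 (c.a.1 (x, s)) = (P i j).1 x) {n : ℕ} {w : X.Plot n}
    {i : Fin n} (h : FCX c w i) : IC.FC (IC.entR (P.map (FHom.on w).g)) i := by
  rcases h with h | h
  · left
    intro x _ a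
    exact congrArg (P a.1 a.2).1 (h x)
  · right
    intro x _ hx
    obtain ⟨v, hv, hv1, hv2⟩ := h x hx
    exact ⟨v, hv, hv1, fun a => hv2 ⟨P a.1 a.2, fun x s => hinv a.1 a.2 x s⟩⟩

/-- **integrality of the Pontryagin forms on the cubes of the machine** -/
theorem int_pont (hk : 1 ≤ k) (hr : 2 * k ≤ r) {P : Matrix ι ι (SF X)} (hP : P * P = P) (hs : Pᵀ = P)
    (ht : trace P = (r : SF X)) (hinv : ∀ i j x s, (P i j).1 (c.a.1 (x, s)) = (P i j).1 x) {n : ℕ} (hn : n = 2 * (2 * k))
    (w : X.Plot n) (hF : ∀ i, FCX c w i) : ∃ m : ℤ, cI n (Om.on (pont hP k) w) = m := by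
  subst hn
  obtain ⟨m, hm⟩ := IC.int_cfX hk hr hP hs ht w fun i => (hF i).fc hinv
  refine ⟨m, ?_⟩
  have h1 : Om.on (pont hP k) w = ((2 * π) ^ (2 * k))⁻¹ • Om.on ((GDA.cf ((FO X).idem hP) (2 * k) : (GO X).Zc) : Om X) w := rfl
  rw [h1, cI_smul, hm, ← mul_assoc, inv_mul_cancel₀, one_mul]
  have := Real.pi_pos
  positivity

end Pool.Agent.Lib.MP_ccbbf6_gt.K7.HM
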