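import Pool.Agent.Lib.MP_ccbbf6_gt.K7.EV
import Pool.Agent.Lib.MP_ccbbf6_gt.K7.HK2
import Pool.Agent.Lib.MP_ccbbf6_gt.K7.HS
import Pool.Agent.Lib.MP_ccbbf6_gt.K7.HX1
import Pool.Agent.Lib.MP_ccbbf6_gt.K7.HX2
import Pool.Agent.Lib.MP_ccbbf6_gt.L5.DGP
import Pool.Agent.Lib.MP_ccbbf6_gt.L5.NX1

/-!
# `κ = 7`, block H (integrality), HX3: the theorem of block H (helper95)

`int_H` : `UM` of a Blaschke manifold with `n = 16`, `κ = 7`; `A` a contact form with `i A = ± 1`, `e = dA`; `y` a closed basic form of degree `8`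
with `y = foot^* u + d ξ`; `p_1(N) ~ a₁ e²`, `p_2(N) ~ a₂ e⁴ + 2 b y`, `p_3(N) ~ α e⁶ + β e² y` modulo `d (basic forms)`. Then
`a₁`, `β`, `a₂ + b H`, `α + β H / 2` are integers, `H` an integer. Hypothesis `hP` is block HP (helper18): `2 ∫ y` is an integer on the
eight-dimensional cubes of the machine.
-/

set_option autoImplicit false
set_option maxSynthPendingDepth 3
set_option linter.unusedSectionVars false

open Set Filter Topology MeasureTheory Matrix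
open scoped ContDiff Real

noncomputable section

namespace Pool.Agent.Lib.MP_ccbbf6_gt.K7.HM

open L4 L4.FR L5 L5.IA L5.NEG Geo

section

variable {X : Space} {c : Circ X} {j : ℕ}

theorem Bas_dp {ξ : Om X} (h : Bas c ξ) (j : ℕ) : Bas c (dpO X j ξ) := fun k p => by
  rw [on_dp, on_dp, h k p, dpF_pb]

/-- primitives of the right degree -/
theorem Xe_prim {w : Om X} (h : Xe c w) (hw : Deg (j + 1) w) : ∃ ξ : Om X, Deg j ξ ∧ Bas c ξ ∧ w = dO X ξ := by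
  obtain ⟨ξ, hb, h1⟩ := h
  exact ⟨dpO X j ξ, Deg_dp j ξ, Bas_dp hb j, by rw [← dp_d, ← h1, dp_same hw]⟩

end

variable {n : ℕ} {M : Type} [MetricSpace M] [CompactSpace M] {𝒜 : SDist n M} {N κ : ℕ} {C : Eu N → Gs M → M}
  {P : Gs M → Eu N →L[ℝ] Eu N} {hB : Bl M}

/-- the `j`-th Pontryagin form of the negative bundle -/
def pjN (hN : NegData 𝒜 κ hB C P) (j : ℕ) : Om (spG 𝒜) := pont (mG_idem hN) j

/-- **the theorem of block H** -/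
theorem int_H {𝒜 : SDist 16 M} {hB : Bl M} {N : ℕ} {C : Eu N → Gs M → M} {P : Gs M → Eu N →L[ℝ] Eu N}
    (hk : 𝒜.HK 7) (e : Emb 16 𝒜) (x : M) {u : Om (spM 𝒜)} {g : (spVF 𝒜 7).pt → ℝ} (hU : UD 𝒜 hB 7 u g)
    (hN : NegData 𝒜 7 hB C P) {A y : Om (spG 𝒜)} {a0 a1 a2 b al be : ℝ} (ha0 : a0 ^ 2 = 1) (hA : Deg 1 A)
    (hi : iO (circPhi hB 𝒜) A = algebraMap ℝ (Om (spG 𝒜)) a0) (he : Bas (circPhi hB 𝒜) (dO (spG 𝒜) A)) (hy : Deg 8 y)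
    (hyb : Bas (circPhi hB 𝒜) y) (hyd : dO (spG 𝒜) y = 0) (hyu : ∃ ξ, y = (L4.foot hB 0).pull u + dO (spG 𝒜) ξ)
    (h1 : Xe (circPhi hB 𝒜) (pjN hN 1 - a1 • (dO (spG 𝒜) A) ^ 2))
    (h2 : Xe (circPhi hB 𝒜) (pjN hN 2 - (a2 • (dO (spG 𝒜) A) ^ 4 + (2 * b) • y)))
    (h3 : Xe (circPhi hB 𝒜) (pjN hN 3 - (al • (dO (spG 𝒜) A) ^ 6 + be • ((dO (spG 𝒜) A) ^ 2 * y))))
    (hP : ∀ (w4 : (spG 𝒜).Plot 4) (w6 : (spG 𝒜).Plot 6) (w8 : (spG 𝒜).Plot 8), Nxt (circPhi hB 𝒜) w4 w6 →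
      Nxt (circPhi hB 𝒜) w6 w8 → ∃ H : ℤ, 2 * cI 8 (Om.on y w8) = H) :
    ∃ A1 A2 A3 B H : ℤ, a1 = A1 ∧ be = B ∧ a2 + b * H = A2 ∧ al + be * H / 2 = A3 := by
  have De : ∀ m, Deg (2 * m) ((dO (spG 𝒜) A) ^ m) := fun m => Deg_epow hA m
  have De2 : Deg 4 ((dO (spG 𝒜) A) ^ 2) := De 2
  have De4 : Deg 8 ((dO (spG 𝒜) A) ^ 4) := De 4
  have De6 : Deg 12 ((dO (spG 𝒜) A) ^ 6) := De 6
  have De8 : Deg (4 + 8) ((dO (spG 𝒜) A) ^ 2 * y) := Deg_mul De2 hy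
  have De8' : Deg 12 ((dO (spG 𝒜) A) ^ 2 * y) := De8
  have p1 : Deg 4 (pjN hN 1) := Deg_pont (mG_idem hN) 1
  have p2 : Deg 8 (pjN hN 2) := Deg_pont (mG_idem hN) 2
  have p3 : Deg 12 (pjN hN 3) := Deg_pont (mG_idem hN) 3
  have r1 : Deg 4 (pjN hN 1 - a1 • (dO (spG 𝒜) A) ^ 2) := Deg_sub p1 (Deg_smul _ De2)
  have r2 : Deg 8 (pjN hN 2 - (a2 • (dO (spG 𝒜) A) ^ 4 + (2 * b) • y)) := Deg_sub p2 (Deg_add (Deg_smul _ De4) (Deg_smul _ hy))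
  have r3 : Deg 12 (pjN hN 3 - (al • (dO (spG 𝒜) A) ^ 6 + be • ((dO (spG 𝒜) A) ^ 2 * y))) :=
    Deg_sub p3 (Deg_add (Deg_smul _ De6) (Deg_smul _ De8'))
  -- primitives
  obtain ⟨ξ1, d1, b1, e1⟩ := Xe_prim (j := 3) h1 r1
  obtain ⟨ξ2, d2, b2, e2⟩ := Xe_prim (j := 7) h2 r2
  obtain ⟨ξ3, d3, b3, e3⟩ := Xe_prim (j := 11) h3 r3
  -- the sphere
  obtain ⟨w8S, hG, hS⟩ := exists_sphere (by norm_num) (by norm_num) hB hk e x hU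
  obtain ⟨ξ, hξ⟩ := hyu
  have hS' : |cI 8 (Om.on y w8S)| = 1 := by
    have hd : Deg (7 + 1) (y - (L4.foot hB 0).pull u) := Deg_sub hy (Deg_pull _ hU.deg)
    obtain ⟨ξ', hξ', h4⟩ := exists_prim_Deg (show y - (L4.foot hB 0).pull u = dO _ ξ by rw [hξ, add_sub_cancel_left]) hd
    have h5 : y = (L4.foot hB 0).pull u + dO _ ξ' := by rw [← h4, add_sub_cancel]
    have h6 : cI 8 (Om.on y w8S) = cI 8 (Om.on ((L4.foot hB 0).pull u) w8S) := by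
      rw [h5, on_add, cI_add]
      have h7 : cI (7 + 1) (Om.on (dO (spG 𝒜) ξ') w8S) = 0 := hG.exact hξ'
      rw [show cI 8 (Om.on (dO (spG 𝒜) ξ') w8S) = 0 from h7, add_zero]
    rw [h6]
    exact hS
  -- a point
  obtain ⟨w0⟩ : Nonempty ((spG 𝒜).Plot 0) := by
    obtain ⟨v, hv⟩ : ∃ v : Eu 16, ‖v‖ = 1 := ⟨EuclideanSpace.single 0 1, by simp⟩
    exact ⟨⟨fun _ => gvg 𝒜 hB x v hv, ⟨sm_const _, sm_const _⟩⟩⟩
  have hinv : ∀ i j (z : (spG 𝒜).pt) s, (mG hN i j).1 ((circPhi hB 𝒜).a.1 (z, s)) = (mG hN i j).1 z := by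
    intro i j z s
    change etN (P (shift (2 * π * s) z)) i j = etN (P z) i j
    rw [hN.inv]
  have I1 : ∀ w : (spG 𝒜).Plot 4, (∀ i, FCX (circPhi hB 𝒜) w i) → ∃ m : ℤ, cI 4 (Om.on (pjN hN 1) w) = m := fun w hF =>
    int_pont (k := 1) (r := 7) (by norm_num) (by norm_num) (mG_idem hN) (mG_symm hN) (mG_trace hN) hinv rfl w hF
  have I2 : ∀ w : (spG 𝒜).Plot 8, (∀ i, FCX (circPhi hB 𝒜) w i) → ∃ m : ℤ, cI 8 (Om.on (pjN hN 2) w) = m := fun w hF =>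
    int_pont (k := 2) (r := 7) (by norm_num) (by norm_num) (mG_idem hN) (mG_symm hN) (mG_trace hN) hinv rfl w hF
  have I3 : ∀ w : (spG 𝒜).Plot 12, (∀ i, FCX (circPhi hB 𝒜) w i) → ∃ m : ℤ, cI 12 (Om.on (pjN hN 3) w) = m := fun w hF =>
    int_pont (k := 3) (r := 7) (by norm_num) (by norm_num) (mG_idem hN) (mG_symm hN) (mG_trace hN) hinv rfl w hF
  have hK : HasHpy (spG 𝒜) 0 7 := hasHpy_K hB hk e (by norm_num) (by norm_num)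
  have hH : HasHpy (spG 𝒜) 8 13 := hasHpy_H hB hk e (by norm_num)
  have q1 : pjN hN 1 = a1 • (dO (spG 𝒜) A) ^ 2 + dO (spG 𝒜) ξ1 := by rw [← e1, add_sub_cancel]
  have q2 : pjN hN 2 = a2 • (dO (spG 𝒜) A) ^ 4 + (2 * b) • y + dO (spG 𝒜) ξ2 := by rw [← e2, add_sub_cancel]
  have q3 : pjN hN 3 = al • (dO (spG 𝒜) A) ^ 6 + be • ((dO (spG 𝒜) A) ^ 2 * y) + dO (spG 𝒜) ξ3 := by
    rw [← e3, add_sub_cancel]
  exact int_abs ha0 hA hi he hy hyb hyd q1 d1 b1 q2 d2 b2 q3 d3 b3 I1 I2 I3 hK hH w0 hP hG hS'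

end Pool.Agent.Lib.MP_ccbbf6_gt.K7.HM
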