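import Pool.Agent.Lib.MP_ccbbf6_gt.K7.HP5
import Pool.Agent.Lib.MP_ccbbf6_gt.K7.HX3

/-!
# `κ = 7`, block H (integrality), HX4: block H with block HP (helper95)

`int_H7` : the theorem of block H for a negative bundle with its data `Q : NegB`; the only hypotheses on `y` are degree, closed, basic and
`pi^* y = (x_- + x_+) / 2 + d (basic)`.
-/

set_option autoImplicit false
set_option maxSynthPendingDepth 3
set_option linter.unusedSectionVars false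

open Set Filter Topology MeasureTheory Matrix
open scoped ContDiff Real

noncomputable section

namespace Pool.Agent.Lib.MP_ccbbf6_gt.K7.HM

open L4 L4.FR L5 L5.IA L5.NEG Geo

variable {M : Type} [MetricSpace M] [CompactSpace M]

/-- `y` and `foot^* u` have the same class in the cohomology of `UM` -/
theorem foot_y {n : ℕ} {𝒜 : SDist n M} {hB : Bl M} {N : ℕ} {C : Eu N → Gs M → M} {P : Gs M → Eu N →L[ℝ] Eu N}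
    {f : Gs M → Eu N → M} {κ : ℕ} (hN : NegData 𝒜 κ hB C P) (hF : FillP 𝒜 C P f) {F : Space} {n' N' m q : ℕ}
    (Q : NegB (spN 𝒜 P) (spG 𝒜) (spM 𝒜) F n' N' m q) (hpi : Q.B.pi = prN 𝒜 P) (hfl : Q.fl = FN hF)
    (hc : Q.c = circN hB hN) (du : dO (spM 𝒜) Q.D.u = 0) {y : Om (spG 𝒜)}
    (hy : ∃ e, Bas Q.c e ∧ Q.B.pi.pull y = (1 / 2 : ℝ) • (wt Q.fl Q.D.u 1 + wt Q.fl Q.D.u 0) + dO _ e) :
    ∃ ξ, y = (L4.foot hB 0).pull Q.D.u + dO (spG 𝒜) ξ := by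
  rw [hpi, hfl, hc] at hy
  obtain ⟨u, hu⟩ : ∃ u, u = Q.D.u := ⟨_, rfl⟩
  rw [← hu] at du hy ⊢
  obtain ⟨e, he, hye⟩ := hy
  have hx1 : wt (FN hF) u 1 = (zpN hF).pull u := by
    unfold FR.wt
    rw [← pull_comp, FN_one]
  have hx0 : wt (FN hF) u 0 = (antN 𝒜 P).pull ((zpN hF).pull u) := by
    unfold FR.wt
    rw [← pull_comp, FN_zero, zmN_eq, pull_comp]
  obtain ⟨θ, hθ⟩ : ∃ θ, (prN 𝒜 P).pull y = (prN 𝒜 P).pull ((L4.foot hB 0).pull u) + dO (spN 𝒜 P) θ := by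
    refine ⟨(1 / 2 : ℝ) • (b0 (hmN hF) u + (antN 𝒜 P).pull (b0 (hmN hF) u)) + e, ?_⟩
    rw [hye, hx1, hx0, map_add, map_smul, map_add, pull_d, HP.d_hmN hN hF du, map_sub, HP.pr_ant]
    rw [smul_add, smul_add, smul_sub, smul_sub]
    have h4 : (prN 𝒜 P).pull ((L4.foot hB 0).pull u) = (1 / 2 : ℝ) • (prN 𝒜 P).pull ((L4.foot hB 0).pull u) +
        (1 / 2 : ℝ) • (prN 𝒜 P).pull ((L4.foot hB 0).pull u) := by
      rw [← add_smul]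
      norm_num
    generalize (prN 𝒜 P).pull ((L4.foot hB 0).pull u) = x at h4 ⊢
    generalize (1 / 2 : ℝ) • x = x2 at h4 ⊢
    rw [h4]
    abel
  have hPI : ∀ w : Om (spG 𝒜), Q.B.PI (Q.Ψ * (prN 𝒜 P).pull w) = w := fun w => by
    rw [← hpi, Q.B.PI_mulr, Q.Ψ1, one_mul]
  refine ⟨Q.B.PI (Q.Ψ * θ), ?_⟩
  have h3 : sO _ Q.Ψ = Q.Ψ := by rw [Deg_s Q.ΨD, Q.sgnN, one_smul]
  have h5 : dO (spN 𝒜 P) θ = (prN 𝒜 P).pull (y - (L4.foot hB 0).pull u) := by rw [map_sub, hθ]; abel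
  rw [← Q.PI_dP, d_mul, Q.Ψd, zero_mul, zero_add, h3, h5, hPI, add_sub_cancel]

/-- **block H for `κ = 7`** -/
theorem int_H7 {𝒜 : SDist 16 M} {hB : Bl M} {N : ℕ} {C : Eu N → Gs M → M} {P : Gs M → Eu N →L[ℝ] Eu N}
    {f : Gs M → Eu N → M} (hk : 𝒜.HK 7) (e : Emb 16 𝒜) (x : M) (hN : NegData 𝒜 7 hB C P) (hF : FillP 𝒜 C P f)
    {F : Space} {n' m q : ℕ} (Q : NegB (spN 𝒜 P) (spG 𝒜) (spM 𝒜) F n' 6 m q) (hpi : Q.B.pi = prN 𝒜 P)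
    (hfl : Q.fl = FN hF) (hc : Q.c = circN hB hN) {g : (spVF 𝒜 7).pt → ℝ} (hU : UD 𝒜 hB 7 Q.D.u g)
    {A y : Om (spG 𝒜)} {a0 a1 a2 b al be : ℝ} (ha0 : a0 ^ 2 = 1) (hA : Deg 1 A)
    (hi : iO (circPhi hB 𝒜) A = algebraMap ℝ (Om (spG 𝒜)) a0) (he : Bas (circPhi hB 𝒜) (dO (spG 𝒜) A)) (hy : Deg 8 y)
    (hyb : Bas (circPhi hB 𝒜) y) (hyd : dO (spG 𝒜) y = 0)
    (hyx : ∃ e, Bas Q.c e ∧ Q.B.pi.pull y = (1 / 2 : ℝ) • (wt Q.fl Q.D.u 1 + wt Q.fl Q.D.u 0) + dO _ e)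
    (h1 : Xe (circPhi hB 𝒜) (pjN hN 1 - a1 • (dO (spG 𝒜) A) ^ 2))
    (h2 : Xe (circPhi hB 𝒜) (pjN hN 2 - (a2 • (dO (spG 𝒜) A) ^ 4 + (2 * b) • y)))
    (h3 : Xe (circPhi hB 𝒜) (pjN hN 3 - (al • (dO (spG 𝒜) A) ^ 6 + be • ((dO (spG 𝒜) A) ^ 2 * y)))) :
    ∃ A1 A2 A3 B H : ℤ, a1 = A1 ∧ be = B ∧ a2 + b * H = A2 ∧ al + be * H / 2 = A3 :=
  int_H hk e x hU hN ha0 hA hi he hy hyb hyd (foot_y hN hF Q hpi hfl hc hU.closed hyx) h1 h2 h3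
    fun _ _ _ n6 n8 => HP.int_2Y7 hk (by norm_num) hN hF Q hpi hfl hc hU hy hyx n6 n8

end Pool.Agent.Lib.MP_ccbbf6_gt.K7.HM
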