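import Pool.Agent.Lib.MP_ccbbf6_gt.K7.PN1
import Pool.Agent.Lib.MP_ccbbf6_gt.L5.PHN8
import Pool.Agent.Lib.MP_ccbbf6_gt.L5.TE5

/-!
# `κ = 7`, block p(N), part 2: the Pontryagin forms of the negative bundle (helper56)

* `Deg_ptf`, `d_ptf`, `Bas_ptf` : the Pontryagin forms `EGC.ptf` are closed and basic for invariant projections;
* `cl_ptN` : `p_k(N) = g^* p_k(V)` in the cohomology of `UM`;
* `negB7` : the instance of `NegB` for `κ = 7`, `n = 16`;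
* `exists_pN` : `p_1(N) ~ a1 e^2`, `p_2(N) ~ a2 e^4 + 2 b y`, `p_3(N) ~ α e^6 + β e^2 y`, `f^2 ~ α e^6 + β e^2 y`,
  `θ ~ d f`, `d^2 = 1`, all modulo `d` of basic forms; `b` is the number of the three point formula.
-/

set_option autoImplicit false
set_option maxSynthPendingDepth 3

open Set Filter Topology Real Matrix
open scoped ContDiff RealInnerProductSpace

noncomputable section

namespace Pool.Agent.Lib.MP_ccbbf6_gt.K7.PN

open Geo L4 L4.ORI L4.FR L5 L5.NEG GysD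

/-! ### Pontryagin forms -/

section forms

variable {X : Space} {ι : Type} [Fintype ι] [DecidableEq ι]

theorem Deg_mmP {i j : ℕ} {A B : Matrix ι ι (Om X)} (hA : ∀ a b, Deg i (A a b)) (hB : ∀ a b, Deg j (B a b)) (a b : ι) :
    Deg (i + j) ((A * B) a b) := by
  rw [Matrix.mul_apply]
  have h : ∀ s : Finset ι, Deg (i + j) (∑ c ∈ s, A a c * B c b) := by
    intro s
    induction s using Finset.induction_on with
    | empty => rw [Finset.sum_empty]; exact Deg_zero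
    | insert c s hd1 ih => rw [Finset.sum_insert hd1]; exact Deg_add (Deg_mul (hA a c) (hB c b)) ih
  exact h _

theorem Deg_psP (P : Matrix ι ι (SF X)) (j : ℕ) : Deg (2 * j) ((GO X).ps (P.map (FO X).f) j) := by
  have h0 : ∀ a b, Deg 0 ((P.map (FO X).f) a b) := fun a b k p => Dg_fc _
  have h1 : ∀ a b, Deg 1 ((GO X).D (P.map (FO X).f) a b) := fun a b => Deg_d (h0 a b)
  have h2 : ∀ a b, Deg 2 ((GO X).R (P.map (FO X).f) a b) := fun a b => Deg_mmP h1 h1 a b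
  have h3 : ∀ (j : ℕ) (a b : ι), Deg (2 * j) (((P.map (FO X).f) * (GO X).R (P.map (FO X).f) ^ j) a b) := by
    intro j
    induction j with
    | zero => intro a b; rw [pow_zero, Matrix.mul_one]; exact h0 a b
    | succ j ih => intro a b; rw [pow_succ, ← Matrix.mul_assoc]; exact Deg_mmP ih h2 a b
  unfold GDA.ps Matrix.trace
  have h : ∀ s : Finset ι, Deg (2 * j)
      (∑ c ∈ s, Matrix.diag ((P.map (FO X).f) * (GO X).R (P.map (FO X).f) ^ j) c) := by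
    intro s
    induction s using Finset.induction_on with
    | empty => rw [Finset.sum_empty]; exact Deg_zero
    | insert c s hd1 ih => rw [Finset.sum_insert hd1]; exact Deg_add (h3 j c c) ih
  exact h _

theorem Deg_sumZP {j : ℕ} {α : Type*} (s : Finset α) {f : α → (GO X).Zc}
    (h : ∀ a ∈ s, Deg j ((f a : (GO X).Zc) : Om X)) : Deg j ((∑ a ∈ s, f a : (GO X).Zc) : Om X) := by
  classical
  induction s using Finset.induction_on with
  | empty => exact Deg_zero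
  | insert c s hc ih =>
    rw [Finset.sum_insert hc]
    exact Deg_add (h c (Finset.mem_insert_self c s)) (ih fun a ha => h a (Finset.mem_insert_of_mem ha))

theorem Deg_cfP {P : Matrix ι ι (SF X)} (hP : P * P = P) (j : ℕ) :
    Deg (2 * j) ((GDA.cf ((FO X).idem hP) j : (GO X).Zc) : Om X) := by
  unfold GDA.cf
  induction j using Nat.strong_induction_on with
  | _ j ih =>
    rcases j with _ | m
    · rw [elc_zero]
      exact Deg_one
    · rw [elc_succ]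
      refine Deg_smul _ (Deg_sumZP _ fun k hk => ?_)
      have hk' := Finset.mem_range.1 hk
      have h1 : Deg (2 * (m + 1))
          ((elc (GDA.zps ((FO X).idem hP)) (m - k) * GDA.zps ((FO X).idem hP) (k + 1) : (GO X).Zc) : Om X) := by
        have h2 := Deg_mul (ih (m - k) (by omega)) (Deg_psP P (k + 1))
        have h3 : 2 * (m - k) + 2 * (k + 1) = 2 * (m + 1) := by omega
        rw [h3] at h2
        exact h2
      rcases Nat.even_or_odd k with h2 | h2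
      · rw [h2.neg_one_pow, one_mul]
        exact h1
      · rw [h2.neg_one_pow, neg_one_mul]
        exact Deg_neg h1

theorem Deg_ptf {P : Matrix ι ι (SF X)} (hP : P * P = P) (k : ℕ) : Deg (2 * (2 * k)) (EGC.ptf (FO X) hP k) :=
  Deg_smul _ (Deg_cfP hP (2 * k))

theorem d_ptf {P : Matrix ι ι (SF X)} (hP : P * P = P) (k : ℕ) : dO X (EGC.ptf (FO X) hP k) = 0 := by
  unfold EGC.ptf
  rw [map_smul]
  have h : dO X ((GDA.cf ((FO X).idem hP) (2 * k) : (GO X).Zc) : Om X) = 0 :=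
    (GDA.cf ((FO X).idem hP) (2 * k) : (GO X).Zc).2.2
  rw [h, smul_zero]

theorem s_ptf {P : Matrix ι ι (SF X)} (hP : P * P = P) (k : ℕ) :
    sO X (EGC.ptf (FO X) hP k) = EGC.ptf (FO X) hP k := Deg_even (Deg_ptf hP k)

theorem Bas_ptf {c : Circ X} {P : Matrix ι ι (SF X)} (hP : P * P = P)
    (hI : ∀ i j x s, (P i j).1 (c.a.1 (x, s)) = (P i j).1 x) (k : ℕ) : Bas c (EGC.ptf (FO X) hP k) := by
  obtain ⟨Q, hQ⟩ : ∃ Q : Matrix ι ι (SB c), Q.map (FHom.inc c).g = P := ⟨Matrix.of fun i j => ⟨P i j, hI i j⟩, rfl⟩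
  have hQ2 : Q * Q = Q := by
    have h1 : (Q * Q).map (FHom.inc c).g = Q.map (FHom.inc c).g := by rw [Matrix.map_mul, hQ, hP]
    ext i j : 1
    exact Subtype.ext (congrFun (congrFun h1 i) j)
  subst hQ
  have h1 := (FHom.inc c).ptf hQ2 k hP
  rw [← h1]
  exact (bas_iff _ _).2 (EGC.ptf (FB c) hQ2 k).2

/-- the class of the Pontryagin form -/
theorem cl_ptf {P : Matrix ι ι (SF X)} (hP : P * P = P) (k : ℕ) :
    GDA.cl (G := GO X) (EGC.ptf (FO X) hP k) (s_ptf hP k) (d_ptf hP k) =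
      (((2 * Real.pi) ^ (2 * k))⁻¹ : ℝ) • elc (hpb hP) (2 * k) := by
  have h1 : elc (hpb hP) (2 * k) = GDA.hc ((FO X).idem hP) (2 * k) := rfl
  rw [h1, ← GDA.mk_cf]
  rfl

end forms

/-! ### the classes of the negative bundle -/

section classes

variable {n κ N : ℕ} {M : Type} [MetricSpace M] [CompactSpace M] {𝒜 : SDist n M} {C : Eu N → Gs M → M}
  {P : Gs M → Eu N →L[ℝ] Eu N}

theorem elc_N (t : TEmb 𝒜) (hB : Bl M) (hk : 𝒜.HK κ) (hL : LocV 𝒜 κ) (hN : NegData 𝒜 κ hB C P) (h0 : 0 < κ) (j : ℕ) :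
    elc (hpb (mG_idem hN)) j = (GHom.pull (gF (𝒜 := 𝒜) hB)).he (elc (hpb (TE.PV_idem t hB hk hL)) j) := by
  rw [map_elc]
  exact elc_congr (fun k => TE.hpb_N t hB hk hL hN h0 (Nat.succ_ne_zero k)) j

theorem inv_mG {hB : Bl M} (hN : NegData 𝒜 κ hB C P) (i j : Fin N) (z : (spG 𝒜).pt) (s : ℝ) :
    (mG hN i j).1 ((circPhi hB 𝒜).a.1 (z, s)) = (mG hN i j).1 z := by
  change etN (P (shift (2 * π * s) z)) i j = etN (P z) i j
  rw [hN.inv]

/-- the Pontryagin forms of the negative bundle -/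
abbrev pN {hB : Bl M} (hN : NegData 𝒜 κ hB C P) (k : ℕ) : Om (spG 𝒜) := EGC.ptf (FO (spG 𝒜)) (mG_idem hN) k

theorem Bas_pN {hB : Bl M} (hN : NegData 𝒜 κ hB C P) (k : ℕ) : Bas (circPhi hB 𝒜) (pN hN k) :=
  Bas_ptf (mG_idem hN) (inv_mG hN) k

end classes

section coh

variable {K κ m : ℕ} {M G F : Space} (D : CohD K κ m M G F)

theorem he_k1' : (GHom.pull D.g).he D.k1 = GDA.cl (G := GO G) D.x D.sx D.dx := by
  unfold CohD.k1 CohD.ku
  rw [GHom.he_cl, GHom.he_cl]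
  exact GDA.cl_congr (D.g_p1 D.u) _ _

theorem he_k2' : (GHom.pull D.g).he D.k2 = GDA.cl (G := GO G) D.x D.sx D.dx := by
  unfold CohD.k2 CohD.ku
  rw [GHom.he_cl, GHom.he_cl]
  refine GDA.cl_eq.2 ⟨D.psi, ?_⟩
  have h1 := D.d_psi
  have h2 : D.g.pull (D.p2.pull D.u) = D.y := D.g_p2 D.u
  show D.g.pull (D.p2.pull D.u) = D.x + dO G D.psi
  rw [h2, h1, add_sub_cancel]

end coh

/-! ### `κ = 7` -/

section seven

variable {R : ℕ} {M : Type} [MetricSpace M] [CompactSpace M] {𝒜 : SDist (15 + 1) M} {hB : Bl M}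
  {C : Eu R → Gs M → M} {P : Gs M → Eu R →L[ℝ] Eu R} {f : Gs M → Eu R → M}

/-- **`p_2(N) = 2 b x`** in the cohomology of `UM` -/
theorem pN_two (D : GeoD 𝒜 hB 7 2) (t : TEmb 𝒜) (hN : NegData 𝒜 7 hB C P) {b : ℝ}
    (h : PowerSeries.coeff 1 (PTd 4 (TE.PV_idem t hB D.hk D.hL)) = b • (D.coh.k1 + D.coh.k2)) :
    ∃ ξ, pN hN 2 - (2 * b) • D.coh.x = dO (spG 𝒜) ξ := by
  have h1 := cl_ptf (mG_idem hN) 2
  rw [elc_N t hB D.hk D.hL hN (by norm_num), ← map_smul] at h1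
  unfold PTd at h
  rw [coeff_PTs, show 4 * 1 = 2 * 2 from rfl] at h
  rw [h, map_smul, map_add] at h1
  have h2 : (GHom.pull (gF (𝒜 := 𝒜) hB)).he D.coh.k1 = GDA.cl (G := GO (spG 𝒜)) D.coh.x D.coh.sx D.coh.dx :=
    he_k1' D.coh
  have h3 : (GHom.pull (gF (𝒜 := 𝒜) hB)).he D.coh.k2 = GDA.cl (G := GO (spG 𝒜)) D.coh.x D.coh.sx D.coh.dx :=
    he_k2' D.coh
  rw [h2, h3, ← two_smul ℝ, smul_smul, GDA.cl_smul, GDA.cl_eq] at h1
  obtain ⟨ξ, hξ⟩ := h1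
  refine ⟨ξ, ?_⟩
  have h4 : pN hN 2 = (b * 2) • D.coh.x + dO (spG 𝒜) ξ := hξ
  rw [h4, mul_comm 2 b, add_sub_cancel_left]

variable [MeasurableSpace M] [BorelSpace M]

/-- the instance of `NegB` for `κ = 7` -/
def negB7 (D : GeoD 𝒜 hB 7 2) (hN : NegData 𝒜 7 hB C P) (hF : FillP 𝒜 C P f) (hC : PFam 𝒜 C)
    {b : OBun 7 (Eu (15 + 1)) (spG 𝒜)} (hb : KBun b) :
    NegB (spN 𝒜 P) (spG 𝒜) (spM 𝒜) (spF 𝒜) 15 6 2 4 :=
  negBG (l := 3) D (by norm_num) hN hF hC hb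

variable (D : GeoD 𝒜 hB 7 2) (hN : NegData 𝒜 7 hB C P) (hF : FillP 𝒜 C P f) (hC : PFam 𝒜 C)
  {bk : OBun 7 (Eu (15 + 1)) (spG 𝒜)} (hb : KBun bk)

theorem negB7_deg {g : (spVF 𝒜 7).pt → ℝ} (hU : UD 𝒜 hB 7 D.u g) :
    ∃ r : ℝ, |r| = 2 ∧ (negB7 D hN hF hC hb).B.PI (iO (negB7 D hN hF hC hb).c (AO (negB7 D hN hF hC hb).c
      (b0 (negB7 D hN hF hC hb).fl (negB7 D hN hF hC hb).D.u))) = algebraMap ℝ (Om (spG 𝒜)) r := by
  obtain ⟨r0, hr0⟩ := (negB7 D hN hF hC hb).exists_r0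
  obtain ⟨a, ha, h1⟩ := PI_ptN (K := 6) (by omega) D.hk hN hb hr0
    (gvg 𝒜 hB D.f0.1.1 (D.f0.1.2 0) (D.f0.2.2.1 0))
  obtain ⟨r, hr, h2⟩ := deg_one (by norm_num) hB D.hk ⟨3, rfl⟩ hN hF hU ha
  rw [h1 r h2] at hr0
  exact ⟨r, hr, hr0⟩

/-- **block p(N)** -/
theorem exists_pN (t : TEmb 𝒜) {g : (spVF 𝒜 7).pt → ℝ} (hU : UD 𝒜 hB 7 D.u g) {b : ℝ}
    (h : PowerSeries.coeff 1 (PTd 4 (TE.PV_idem t hB D.hk D.hL)) = b • (D.coh.k1 + D.coh.k2)) :
    ∃ d a1 a2 al be : ℝ, d ^ 2 = 1 ∧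
      (PP (negB7 D hN hF hC hb)).Ex ((PP (negB7 D hN hF hC hb)).θ - d • (PP (negB7 D hN hF hC hb)).f) ∧
      Xe (circPhi hB 𝒜) (pN hN 1 - a1 • eB (negB7 D hN hF hC hb) ^ 2) ∧
      Xe (circPhi hB 𝒜) (pN hN 2 - (a2 • eB (negB7 D hN hF hC hb) ^ 4 + (2 * b) • yG (negB7 D hN hF hC hb))) ∧
      Xe (circPhi hB 𝒜) (pN hN 3 - (al • eB (negB7 D hN hF hC hb) ^ 6 +
        be • (eB (negB7 D hN hF hC hb) ^ 2 * yG (negB7 D hN hF hC hb)))) ∧
      (PP (negB7 D hN hF hC hb)).Ex ((PP (negB7 D hN hF hC hb)).f ^ 2 -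
        al • (PP (negB7 D hN hF hC hb)).e ^ (2 * 4 - 2) -
        be • ((PP (negB7 D hN hF hC hb)).e ^ (4 - 2) * (PP (negB7 D hN hF hC hb)).yy)) := by
  obtain ⟨r, hr, hr2⟩ := negB7_deg D hN hF hC hb hU
  obtain ⟨d, hd, hd2⟩ := D_sq (negB7 D hN hF hC hb) hr hr2
  obtain ⟨a1, h1⟩ := base_two (negB7 D hN hF hC hb) (w := pN hN 1) (Deg_ptf _ 1) (Bas_pN hN 1) (d_ptf _ 1)
  obtain ⟨a2, t2, h2⟩ := base_four (negB7 D hN hF hC hb) (w := pN hN 2) (Deg_ptf _ 2) (Bas_pN hN 2) (d_ptf _ 2)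
  obtain ⟨al, be, h3⟩ := base_six (negB7 D hN hF hC hb) (w := pN hN 3) (Deg_ptf _ 3) (Bas_pN hN 3) (d_ptf _ 3)
  obtain ⟨ξ, hξ⟩ := pN_two D t hN h
  have ht : t2 = 2 * b := coef8 (negB7 D hN hF hC hb) h2 hξ
  rw [ht] at h2
  refine ⟨d, a1, a2, al, be, hd, hd2, h1, h2, h3, ?_⟩
  refine fsq (negB7 D hN hF hC hb) h3 ?_
  obtain ⟨y, hy, e⟩ := fNG_sq (m := 3) D.hk hN hb
  refine ⟨y, hy, ?_⟩
  have h4 : (negB7 D hN hF hC hb).f ^ 2 = fNG (m := 3) D.hk hN hb ^ 2 := neg_pow_two _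
  rw [h4]
  exact e

end seven

end Pool.Agent.Lib.MP_ccbbf6_gt.K7.PN
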