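import Pool.Agent.Lib.MP_ccbbf6_gt.K7.AR10
import Pool.Agent.Lib.MP_ccbbf6_gt.K7.CHE1
import Pool.Agent.Lib.MP_ccbbf6_gt.K7.GY6
import Pool.Agent.Lib.MP_ccbbf6_gt.K7.HX4
import Pool.Agent.Lib.MP_ccbbf6_gt.K7.PN2
import Pool.Agent.Lib.MP_ccbbf6_gt.L5.COH5

/-!
# `κ = 7`, the volume bound from the blocks (helper56)

`PN.volume7` : `|∫ η (dη)^15| ≤ 78` for a Blaschke manifold with `n = 16`, `κ = 7`, from block p(N) (PN2), block H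
(helper95), block E (helper53, GY5, GY6), block CH (helper13, CHE1) and the arithmetic end (helper92, AR). The hypotheses
left: the data `DG : GysD`, `V : VanD`, the Euler form of `DG`, block F (`phi8`), block b (`b = ± 6`).
-/

set_option autoImplicit false
set_option maxSynthPendingDepth 3

open Set Filter Topology Real Matrix
open scoped ContDiff RealInnerProductSpace

noncomputable section

namespace Pool.Agent.Lib.MP_ccbbf6_gt.K7.PN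

open Geo L4 L4.ORI L4.FR L5 L5.NEG GysD

variable {R : ℕ} {M : Type} [MetricSpace M] [CompactSpace M] {𝒜 : SDist (15 + 1) M} {hB : Bl M}
  {C : Eu R → Gs M → M} {P : Gs M → Eu R →L[ℝ] Eu R} {f : Gs M → Eu R → M} [MeasurableSpace M] [BorelSpace M]
  (D : GeoD 𝒜 hB 7 2) (hN : NegData 𝒜 7 hB C P) (hF : FillP 𝒜 C P f) (hC : PFam 𝒜 C)
  {bk : OBun 7 (Eu (15 + 1)) (spG 𝒜)} (hb : KBun bk)

omit [MeasurableSpace M] [BorelSpace M] in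
theorem cA7 : Cnn (circPhi hB 𝒜) (AL hB 𝒜) := ⟨AL_deg hB, AL_i hB, AL_id hB⟩

/-- **block H for the data of `negB7`** -/
theorem int7 (e : Emb 16 𝒜) {g : (spVF 𝒜 7).pt → ℝ} (hU : UD 𝒜 hB 7 D.u g) {a1 a2 b al be : ℝ}
    (h1 : Xe (circPhi hB 𝒜) (pN hN 1 - a1 • eB (negB7 D hN hF hC hb) ^ 2))
    (h2 : Xe (circPhi hB 𝒜) (pN hN 2 - (a2 • eB (negB7 D hN hF hC hb) ^ 4 + (2 * b) • yG (negB7 D hN hF hC hb))))
    (h3 : Xe (circPhi hB 𝒜) (pN hN 3 - (al • eB (negB7 D hN hF hC hb) ^ 6 +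
      be • (eB (negB7 D hN hF hC hb) ^ 2 * yG (negB7 D hN hF hC hb))))) :
    ∃ A1 A2 A3 B H : ℤ, a1 = A1 ∧ be = B ∧ a2 + b * H = A2 ∧ al + be * H / 2 = A3 := by
  refine HM.int_H7 (b := b) D.hk e D.f0.1.1 hN hF (negB7 D hN hF hC hb) rfl rfl rfl hU (a0 := 1) (A := AL hB 𝒜)
    (y := yG (negB7 D hN hF hC hb)) (one_pow 2) (AL_deg hB) ?_ (Bas_eB (negB7 D hN hF hC hb))
    (Deg_yG (negB7 D hN hF hC hb)) (Bas_yG (negB7 D hN hF hC hb)) (d_yG (negB7 D hN hF hC hb)) ?_ h1 h2 h3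
  · rw [map_one]
    exact AL_i hB
  · obtain ⟨y, hy, e1⟩ := yy_pi (negB7 D hN hF hC hb)
    refine ⟨-y, ?_, ?_⟩
    · rw [← neg_one_smul ℝ y]
      exact Bas_smul _ _ hy
    · have e2 : (PP (negB7 D hN hF hC hb)).yy = (1 / 2 : ℝ) • (wt (negB7 D hN hF hC hb).fl (negB7 D hN hF hC hb).D.u 0 +
          wt (negB7 D hN hF hC hb).fl (negB7 D hN hF hC hb).D.u 1) := rfl
      rw [map_neg, ← e1, e2, add_comm (wt _ _ 1)]
      abel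

theorem sq_eq_one_iff_of_side {x : ℝ} (h : x ^ 2 = 1) : x = 1 ∨ x = -1 := by
  have h1 : (x - 1) * (x + 1) = 0 := by linear_combination h
  rcases mul_eq_zero.1 h1 with h2 | h2
  · left
    linarith
  · right
    linarith

/-- the end -/
theorem end7 {al be a1 a2 b t t' s T ε : ℝ} {A1 A2 A3 B H : ℤ} (i1 : a1 = A1) (i2 : be = B) (i3 : a2 + b * H = A2)
    (i4 : al + be * H / 2 = A3) (hb6 : b = 6 ∨ b = -6) (hs : s = 1 ∨ s = -1) (ht : t' = 3 ∨ t' = -3) (hal0 : al ≠ 0)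
    (he : |ε| ≤ 1) (v2 : 2 * |al| ^ 3 * T = ε ^ 2 * |be ^ 2 - 12 * al|)
    (q1 : ((1 / 64 - a1 / 16 + a2 / 4 - al) * t - (b / 2 - be) * t' * al / 12) / 2 =
      s * ((4 - 1 / 1024) * (al * be / 24)))
    (q2 : ((1 / 64 - a1 / 16 + a2 / 4 - al) * t' + (b / 2 - be) * t - (b / 2 - be) * t' * be / 12) / 2 =
      -(s * ((4 - 1 / 64) * ((12 * al - be ^ 2) / 24)))) : T ≤ 78 := by
  by_contra hcon
  have h78 : 78 ≤ T := (not_le.1 hcon).le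
  have he2 : ε ^ 2 ≤ 1 := by
    rw [← sq_abs]
    nlinarith [abs_nonneg ε]
  have hV : 78 * (2 * |al| ^ 3) ≤ |be ^ 2 - 12 * al| := by
    have k1 : 78 * (2 * |al| ^ 3) ≤ 2 * |al| ^ 3 * T := by
      rw [mul_comm 78]
      exact mul_le_mul_of_nonneg_left h78 (by positivity)
    have k2 : ε ^ 2 * |be ^ 2 - 12 * al| ≤ 1 * |be ^ 2 - 12 * al| :=
      mul_le_mul_of_nonneg_right he2 (abs_nonneg _)
    linarith
  obtain ⟨r1, r2⟩ := ar i1 i2 i3 i4 hb6 hs ht hal0 hV (t := t) (by linear_combination q1) (by linear_combination q2)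
  apply hcon
  have k3 : be ^ 2 - 12 * al = 156 := by
    rw [r1, r2]
    rcases hb6 with hb6 | hb6 <;> rw [hb6] <;> norm_num
  rw [k3, r1] at v2
  norm_num at v2
  linarith

/-- **the volume bound for `κ = 7`** -/
theorem volume7 (e : Emb 16 𝒜) (t : TEmb 𝒜) {g : (spVF 𝒜 7).pt → ℝ} (hU : UD 𝒜 hB 7 D.u g) {p : M}
    {ψ : Om (spR (15 + 1))} {Bf : Fm (15 + 1)} (hc : ConcD 𝒜 hB 7 2 p ψ Bf D.u) (he : |D.coh.eps| ≤ 1) {b : ℝ}
    (h : PowerSeries.coeff 1 (PTd 4 (TE.PV_idem t hB D.hk D.hL)) = b • (D.coh.k1 + D.coh.k2))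
    (hb6 : b = 6 ∨ b = -6) {L : ∀ {X : Space}, Circ X → SMap X (spM 𝒜) → Prop} (DG : GysD (negB7 D hN hF hC hb) L)
    (V : VanD (spM 𝒜) D.u L) {ν : ℝ} (hν : ν ^ 2 = 1)
    (hG : Xe (circPhi hB 𝒜) (DG.eG - ν • CH.eG (cA7 (hB := hB)) (mG_idem hN) (mG_symm hN))) {t' : ℝ}
    (ht : t' = 3 ∨ t' = -3) {z : Om (spG 𝒜)} (hz : Deg 7 z)
    (hphi : DG.phi8 V - t' • (negB7 D hN hF hC hb).D.foot.pull (negB7 D hN hF hC hb).D.u = dO (spG 𝒜) z) :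
    |TG hB (AL hB 𝒜 * dO _ (AL hB 𝒜) ^ 15)| ≤ 78 := by
  obtain ⟨d, a1, a2, al, be, hd, hd2, h1, h2, h3, hα⟩ := exists_pN D hN hF hC hb t hU h
  obtain ⟨A1, A2, A3, B, H, i1, i2, i3, i4⟩ := int7 D hN hF hC hb e hU h1 h2 h3
  obtain ⟨v1, v2⟩ := vol7 (P := negB7 D hN hF hC hb) hd2 hd hα (fun Θ r hΘ hdΘ hr => by
    refine D.hfub hc (a := D.coh.u ^ 2) hΘ ?_ ?_ hr
    · have h3 := Deg_pow D.Du 2
      exact h3
    · rw [map_pow]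
      exact hdΘ) D.coh.eps0
  have v2' : 2 * |al| ^ 3 * |TG hB (AL hB 𝒜 * dO _ (AL hB 𝒜) ^ 15)| = D.coh.eps ^ 2 * |be ^ 2 - 12 * al| := v2
  -- the Euler form
  have h4 := CH.Xe_eG (cA7 (hB := hB)) (mG_idem hN) (mG_symm hN) (mG_trace hN) h1 h2 h3
  have hG2 : Xe (negB7 D hN hF hC hb).cG (DG.eG - (-ν / 2) • (eB (negB7 D hN hF hC hb) ^ 3 *
      ((1 / 64 - a1 / 16 + a2 / 4 - al) • eB (negB7 D hN hF hC hb) ^ 4 +
        (b / 2 - be) • yG (negB7 D hN hF hC hb)))) := by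
    have h5 := Xe_add hG (Xe_smul ν h4)
    obtain ⟨W, hW⟩ : ∃ W, W = eB (negB7 D hN hF hC hb) ^ 3 *
      ((1 / 64 - a1 / 16 + a2 / 4 - al) • eB (negB7 D hN hF hC hb) ^ 4 +
        (b / 2 - be) • yG (negB7 D hN hF hC hb)) := ⟨_, rfl⟩
    have h6 : Xe (circPhi hB 𝒜) (DG.eG - ν • CH.eG (cA7 (hB := hB)) (mG_idem hN) (mG_symm hN) +
        ν • (CH.eG (cA7 (hB := hB)) (mG_idem hN) (mG_symm hN) + (1 / 2 : ℝ) • W)) := by
      rw [hW]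
      exact h5
    have h7 : DG.eG - ν • CH.eG (cA7 (hB := hB)) (mG_idem hN) (mG_symm hN) +
        ν • (CH.eG (cA7 (hB := hB)) (mG_idem hN) (mG_symm hN) + (1 / 2 : ℝ) • W) = DG.eG - (-ν / 2) • W := by
      module
    rw [h7] at h6
    rw [← hW]
    exact h6
  have hν2 : (-ν) ^ 2 = 1 := by rw [neg_sq, hν]
  obtain ⟨t0, q1, q2⟩ := level2 DG V hd2 hd hα v1 hν2 hG2 hz hphi
  -- the end
  obtain ⟨T, hT⟩ : ∃ T, T = |TG hB (AL hB 𝒜 * dO _ (AL hB 𝒜) ^ 15)| := ⟨_, rfl⟩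
  rw [← hT] at v2' ⊢
  have hs : -ν * d = 1 ∨ -ν * d = -1 := by
    have k0 : (-ν * d) ^ 2 = 1 := by rw [mul_pow, hν2, hd, one_mul]
    exact sq_eq_one_iff_of_side k0
  have hal0 : al ≠ 0 := left_ne_zero_of_mul v1
  exact end7 i1 i2 i3 i4 hb6 hs ht hal0 he v2' q1 q2

end Pool.Agent.Lib.MP_ccbbf6_gt.K7.PN
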