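import Pool.Agent.Lib.MP_ccbbf6_gt.K7.RG8
import Pool.Agent.Lib.MP_ccbbf6_gt.L5.NY

/-!
# `κ = 7`, block G3, part 9: the shortening of the doubled geodesics (helper93)

`RFam` : the maps and paths of `GysD` with Lipschitz constants; `exists_RFam`.
Input: `FillL` (length control of the smooth filling).
-/

set_option autoImplicit false
set_option linter.unusedSectionVars false

open Set Filter Topology Metric Real Module
open scoped ContDiff RealInnerProductSpace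

noncomputable section

namespace Pool.Agent.Lib.MP_ccbbf6_gt.K7.RG

open L4 Geo L4.ORI L4.FR L5 L5.NEG

variable {n : ℕ} {M : Type} [MetricSpace M] [CompactSpace M] {𝒜 : SDist n M} {N κ : ℕ}
  {P : Gs M → Eu N →L[ℝ] Eu N} {kG : Eu N → Eu N → Gs M → Eu n} {CR : Eu (N + (N + N)) → Gs M → M}
  {hB : Bl M} {e : Emb n 𝒜} {Φ : e.Q → (Eu N →L[ℝ] EuclideanSpace ℝ (Fin e.q))} {f : Gs M → Eu N → M}

/-- length control of the filling -/
def FillL (P : Gs M → Eu N →L[ℝ] Eu N) (f : Gs M → Eu N → M) : Prop :=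
  ∀ r : ℝ, 0 < r → ∃ Λ : ℝ, 0 ≤ Λ ∧ Λ < 1 ∧ ∀ c x, P c x = x → r ≤ ‖x‖ → CO.Lip Λ (fun t => f (shift t c) x)

/-- the shortening of the doubled geodesics, all constants of Lipschitz -/
structure RFam (hN : NegData 𝒜 κ hB (resC CR) P) (hF : FillP 𝒜 (resC CR) P f) where
  R : SMap (spY 𝒜 P).xR (spM 𝒜)
  σ1 : ℝ → ℝ
  σ2 : ℝ → ℝ
  s1 : ContDiff ℝ ∞ σ1
  s2 : ContDiff ℝ ∞ σ2
  R0 : ∀ y, R.1 (y, 0) = (foot hB 0).1 ((prY 𝒜 P).1 y)
  Rj : ∀ x s, R.1 ((jY 𝒜 P).1 x, s) = (FN hF).1 (x, σ1 s)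
  σ10 : σ1 0 = 1 / 2
  σ20 : σ2 0 = σ1 1
  σ21 : σ2 1 = 1
  Λ : ℝ
  Λ0 : 0 ≤ Λ
  Λ1 : Λ < 1
  L1 : ∀ x s, CO.Lip (M := M) 1 (fun t => (FN hF).1 ((circN hB hN).a.1 (x, (2 * π)⁻¹ * t), s))
  L2 : ∀ y, CO.Lip (M := M) Λ (fun t => R.1 ((circY hB hN).a.1 (y, (4 * π)⁻¹ * t), 1))
  L3 : ∀ x s, CO.Lip (M := M) Λ (fun t => (FN hF).1 ((circN hB hN).a.1 (x, (2 * π)⁻¹ * t), σ2 s))
  /-- the speed of the family -/
  a : ℝ
  a0 : 0 < a
  form : ∀ y s, R.1 (y, s) = Cxr (M := M) 𝒜 (rt N) CR ((a * Real.smoothTransition s) • y.1.2) y.1.1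
  ε : ℝ
  ε0 : 0 < ε
  lipAll : ∀ y s, CO.Lip (M := M) √(1 - (a * Real.smoothTransition s) ^ 2 * ε)
    (fun t => R.1 ((circY hB hN).a.1 (y, (4 * π)⁻¹ * t), s))

theorem Lip_mono {Λ Λ' : ℝ} (h : Λ ≤ Λ') {c : ℝ → M} (hc : CO.Lip Λ c) : CO.Lip Λ' c := fun s t =>
  (hc s t).trans (mul_le_mul_of_nonneg_right h (abs_nonneg _))

/-- the map `R` -/
def RY [Nonempty (Gs M)] (hB : Bl M) (e : Emb n 𝒜) (P : Gs M → Eu N →L[ℝ] Eu N) (h : PFamR 𝒜 (rt N) CR) {ρ : ℝ → ℝ}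
    (hρ : ContDiff ℝ ∞ ρ) : SMap (spY 𝒜 P).xR (spM 𝒜) :=
  ⟨fun z => (Cxr (M := M) 𝒜 (rt N) CR (ρ z.2 • z.1.1.2) z.1.1.1 : M), fun _ p => by
    intro u
    exact h.smooth_Cxr hB e (σ := fun v => (p.1 v).1.1.1) (x := fun v => ρ (p.1 v).2 • (p.1 v).1.1.2) (SmG.atP p.2.1.1 u)
      ((hρ.contDiffAt.comp u p.2.2.contDiffAt).smul p.2.1.2.contDiffAt)⟩

theorem exists_RFam [Nonempty (Gs M)] (hG : GKer 𝒜 hB P kG) (h : JFam hB e Φ kG CR) (hN : NegData 𝒜 κ hB (resC CR) P)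
    (hF : FillP 𝒜 (resC CR) P f) (hL : FillL P f) : Nonempty (RFam hN hF) := by
  have hπ := Real.pi_pos
  obtain ⟨θ, r, hθ, hr, hnear⟩ := hF.near
  obtain ⟨δ, hδ, hpos⟩ := pos_BQ hG h hN
  obtain ⟨θ₀, hθ₀, hlip⟩ := h.fam.lip_Cxr hB e per_rt (ε := δ / (4 * π)) (by positivity)
  obtain ⟨r1, hr1d⟩ : ∃ r1, r1 = min (min r (1 / 2)) (θ₀ / (2 * θ)) := ⟨_, rfl⟩
  have hr1 : 0 < r1 := by rw [hr1d]; positivity
  have hr1r : r1 ≤ r := by rw [hr1d]; exact (min_le_left _ _).trans (min_le_left _ _)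
  have hr12 : r1 ≤ 1 / 2 := by rw [hr1d]; exact (min_le_left _ _).trans (min_le_right _ _)
  have hr1θ : θ * r1 < θ₀ := by
    have h1 : r1 ≤ θ₀ / (2 * θ) := by rw [hr1d]; exact min_le_right _ _
    have h2 : θ * r1 ≤ θ * (θ₀ / (2 * θ)) := mul_le_mul_of_nonneg_left h1 hθ.le
    have h3 : θ * (θ₀ / (2 * θ)) = θ₀ / 2 := by field_simp
    rw [h3] at h2
    linarith
  obtain ⟨Λ3, k0, k1, hΛ3⟩ := hL r1 hr1
  -- the path
  obtain ⟨ρ, hρd⟩ : ∃ ρ : ℝ → ℝ, ρ = fun s => r1 * Real.smoothTransition s := ⟨_, rfl⟩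
  have hρ : ContDiff ℝ ∞ ρ := by rw [hρd]; exact contDiff_const.mul Real.smoothTransition.contDiff
  have hρ0 : ρ 0 = 0 := by rw [hρd]; simp only [Real.smoothTransition.zero, mul_zero]
  have hρ1 : ρ 1 = r1 := by rw [hρd]; simp only [Real.smoothTransition.one, mul_one]
  have hρn : ∀ s, 0 ≤ ρ s := fun s => by
    rw [hρd]
    exact mul_nonneg hr1.le (Real.smoothTransition.nonneg _)
  have hρl : ∀ s, ρ s ≤ r1 := fun s => by
    rw [hρd]
    exact mul_le_of_le_one_right hr1.le (Real.smoothTransition.le_one _)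
  have hρθ : ContDiff ℝ ∞ (fun s => θ * ρ s) := contDiff_const.mul hρ
  -- the Lipschitz constant of the doubled geodesics
  obtain ⟨Λ2, hΛ2⟩ : ∃ Λ2, Λ2 = √(1 - (θ * r1) ^ 2 * (δ / (4 * π))) := ⟨_, rfl⟩
  have hΛ2n : 0 ≤ Λ2 := by rw [hΛ2]; exact Real.sqrt_nonneg _
  have hΛ21 : Λ2 < 1 := by
    rw [hΛ2, Real.sqrt_lt' one_pos, one_pow]
    have : 0 < (θ * r1) ^ 2 * (δ / (4 * π)) := by positivity
    linarith
  have hall : ∀ (y : (spY 𝒜 P).pt) (s : ℝ), CO.Lip (M := M) √(1 - (θ * r1 * Real.smoothTransition s) ^ 2 * (δ / (4 * π)))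
      (fun t => (RY hB e P h.fam hρθ).1 ((circY hB hN).a.1 (y, (4 * π)⁻¹ * t), s)) := by
    intro y s
    have ea : θ * r1 * Real.smoothTransition s = θ * ρ s := by rw [hρd]; ring
    have e0 : (fun t => (RY hB e P h.fam hρθ).1 ((circY hB hN).a.1 (y, (4 * π)⁻¹ * t), s)) =
        fun t => Cxr 𝒜 (rt N) CR ((rt N).r t ((θ * ρ s) • y.1.2)) (shift t y.1.1) := by
      funext t
      show Cxr 𝒜 (rt N) CR ((θ * ρ s) • (rt N).r (4 * π * ((4 * π)⁻¹ * t)) y.1.2) (shift (4 * π * ((4 * π)⁻¹ * t)) y.1.1) = _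
      rw [← mul_assoc, mul_inv_cancel₀ (by positivity), one_mul, map_smul]
    rw [e0, ea]
    have hab : |θ * ρ s| < θ₀ := by
      rw [abs_of_nonneg (mul_nonneg hθ.le (hρn s))]
      exact (mul_le_mul_of_nonneg_left (hρl s) hθ.le).trans_lt hr1θ
    have h1 := hlip (θ * ρ s) hab y.1.1 y.1.2 y.2.2.le
    refine Lip_mono ?_ h1
    refine Real.sqrt_le_sqrt ?_
    have h2 := hpos y.1.1 y.1.2 y.2.1
    have hn : ‖y.1.2‖ = 1 := y.2.2
    rw [hn, one_pow, mul_one] at h2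
    have h3 : (2 * π)⁻¹ * δ ≤ (2 * π)⁻¹ * BQ 𝒜 (rt N) CR y.1.1 y.1.2 y.1.2 := mul_le_mul_of_nonneg_left h2 (by positivity)
    have h4 : (θ * ρ s) ^ 2 * ((2 * π)⁻¹ * δ) ≤ (θ * ρ s) ^ 2 * ((2 * π)⁻¹ * BQ 𝒜 (rt N) CR y.1.1 y.1.2 y.1.2) :=
      mul_le_mul_of_nonneg_left h3 (by positivity)
    have h5 : (2 * π)⁻¹ * δ = 2 * (δ / (4 * π)) := by field_simp; ring
    rw [h5] at h4
    have h6 : 0 ≤ (θ * ρ s) ^ 2 * (δ / (4 * π)) := by positivity
    linarith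
  refine ⟨{
    R := RY hB e P h.fam hρθ
    σ1 := fun s => (1 + ρ s) / 2
    σ2 := fun s => (1 + r1) / 2 + (1 - r1) / 2 * Real.smoothTransition s
    s1 := (contDiff_const.add hρ).div_const 2
    s2 := contDiff_const.add (contDiff_const.mul Real.smoothTransition.contDiff)
    R0 := fun y => ?_
    Rj := fun x s => ?_
    σ10 := by
      simp only [hρ0]
      norm_num
    σ20 := by simp only [Real.smoothTransition.zero, mul_zero, add_zero, hρ1]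
    σ21 := by
      simp only [Real.smoothTransition.one, mul_one]
      ring
    Λ := max Λ2 Λ3
    Λ0 := le_max_of_le_left hΛ2n
    Λ1 := max_lt hΛ21 k1
    L1 := fun x s => ?_
    L2 := fun y => ?_
    L3 := fun x s => ?_
    a := θ * r1
    a0 := mul_pos hθ hr1
    form := fun y s => ?_
    ε := δ / (4 * π)
    ε0 := by positivity
    lipAll := hall }⟩
  · show Cxr 𝒜 (rt N) CR ((θ * ρ 0) • y.1.2) y.1.1 = y.1.1.1 0
    rw [hρ0, mul_zero, zero_smul]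
    exact h.fam.Cxr_zero hB y.1.1
  · show Cxr 𝒜 (rt N) CR ((θ * ρ s) • j0 x.1.2) x.1.1 = f x.1.1 ((2 * ((1 + ρ s) / 2) - 1) • x.1.2)
    have e1 : 2 * ((1 + ρ s) / 2) - 1 = ρ s := by ring
    have e2 : (θ * ρ s) • j0 x.1.2 = j0 (θ • ρ s • x.1.2) := by rw [← map_smul, smul_smul]
    rw [e1, e2, Cx_res hB e h.fam]
    refine (hnear x.1.1 (ρ s • x.1.2) (InP_smul x.2.1 _) ?_).symm
    rw [norm_smul, x.2.2, mul_one, Real.norm_eq_abs, abs_of_nonneg (hρn s)]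
    exact (hρl s).trans hr1r
  · -- loops of the filling
    have e0 : (fun t => (FN hF).1 ((circN hB hN).a.1 (x, (2 * π)⁻¹ * t), s)) =
        fun t => f (shift t x.1.1) ((2 * s - 1) • x.1.2) := by
      funext t
      show f (shift (2 * π * ((2 * π)⁻¹ * t)) x.1.1) ((2 * s - 1) • x.1.2) = _
      rw [← mul_assoc, mul_inv_cancel₀ (by positivity), one_mul]
    rw [e0]
    have hP : P x.1.1 ((2 * s - 1) • x.1.2) = (2 * s - 1) • x.1.2 := InP_smul x.2.1 _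
    rcases eq_or_ne ((2 * s - 1) • x.1.2) 0 with h0 | h0
    · have e1 : ∀ t, f (shift t x.1.1) 0 = x.1.1.1 t := by
        intro t
        rw [hnear _ 0 (map_zero (P _)) (by rw [norm_zero]; exact hr.le), smul_zero, (pfam_res hB h.fam).Cx_zero]
        show x.1.1.1 (0 + t) = _
        rw [zero_add]
      intro a b
      simp only [h0, e1]
      rw [one_mul]
      exact x.1.1.2.dist_le a b
    · obtain ⟨Λ, m0, m1, hm⟩ := hL ‖(2 * s - 1) • x.1.2‖ (norm_pos_iff.2 h0)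
      exact Lip_mono m1.le (hm x.1.1 _ hP le_rfl)
  · -- the doubled geodesics
    have h1 := hall y 1
    rw [Real.smoothTransition.one, mul_one, ← hΛ2] at h1
    exact Lip_mono (le_max_left _ _) h1
  · -- the second path
    have e0 : (fun t => (FN hF).1 ((circN hB hN).a.1 (x, (2 * π)⁻¹ * t), (1 + r1) / 2 + (1 - r1) / 2 * Real.smoothTransition s)) =
        fun t => f (shift t x.1.1) ((r1 + (1 - r1) * Real.smoothTransition s) • x.1.2) := by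
      funext t
      show f (shift (2 * π * ((2 * π)⁻¹ * t)) x.1.1)
        ((2 * ((1 + r1) / 2 + (1 - r1) / 2 * Real.smoothTransition s) - 1) • x.1.2) = _
      rw [← mul_assoc, mul_inv_cancel₀ (by positivity), one_mul]
      congr 2
      ring
    rw [e0]
    refine Lip_mono (le_max_right _ _) (hΛ3 x.1.1 _ (InP_smul x.2.1 _) ?_)
    have h1 : 0 ≤ (1 - r1) * Real.smoothTransition s := mul_nonneg (by linarith) (Real.smoothTransition.nonneg _)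
    have hn : ‖x.1.2‖ = 1 := x.2.2
    rw [norm_smul, hn, mul_one, Real.norm_eq_abs, abs_of_nonneg (by linarith)]
    linarith
  · show Cxr 𝒜 (rt N) CR ((θ * ρ s) • y.1.2) y.1.1 = Cxr 𝒜 (rt N) CR ((θ * r1 * Real.smoothTransition s) • y.1.2) y.1.1
    rw [hρd, mul_assoc]

end Pool.Agent.Lib.MP_ccbbf6_gt.K7.RG
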