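import Pool.Agent.Lib.MP_ccbbf6_gt.K7.UA1b
import Pool.Agent.Lib.MP_ccbbf6_gt.K7.UA1c
import Pool.Agent.Lib.MP_ccbbf6_gt.L5.CWo

/-!
# `κ = 7`, block UA, part 2: the universal forms of a family of loops (helper25)

`c : Circ X`, `f : SMap X M` : the loops `t ↦ f (a_t x)`; `u` closed form on `M` of degree `2 q + 2` with `u ^ 3 = 0`.

* `ub` = average of `f^* u`; `xb = ι ub` (degree `2 q + 1`); `lam`, `mu`; `xp = ι (average of mu)` (degree `6 q + 4`), `d xp = - 3 ub^2 xb`;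
* `TT = xb xp` (degree `8 q + 5`): closed, basic; `Deg_TT`, `d_TT`, `Bas_TT`; `ubxb = ub xb`: closed, basic.
* naturality `ub_nat`, `xb_nat`, `xp_nat`, `TT_nat`; constant loops: `xb_const`, `TT_const`;
* homotopy: `TT_htpy`, `xb_htpy`, `ux_htpy`; orbits run twice: `xb_dbl`, `TT_dbl`.
-/

set_option autoImplicit false
set_option maxSynthPendingDepth 3

open Set Filter Topology MeasureTheory
open scoped TensorProduct ContDiff

noncomputable section

namespace Pool.Agent.Lib.MP_ccbbf6_gt.K7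

open L4 L4.FR L5

variable {X Y Z M : Space} {k l n : ℕ} {i j : ℕ}

/-! ### Algebra -/

theorem odd_sq {x : Om X} (h : sO X x = -x) : x * x = 0 := by
  have h1 := odd_comm' h x
  rw [h, neg_mul] at h1
  have h2 : (2 : ℝ) • (x * x) = 0 := by
    rw [two_smul]
    nth_rewrite 1 [h1]
    exact neg_add_cancel _
  calc x * x = (2 : ℝ)⁻¹ • (2 : ℝ) • (x * x) := (inv_smul_smul₀ two_ne_zero _).symm
    _ = 0 := by rw [h2, smul_zero]

/-- `a^2 + a b + b^2` -/
def P2 (a b : Om X) : Om X := a ^ 2 + a * b + b ^ 2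

theorem P2_mul {a b : Om X} (h : a * b = b * a) : (a - b) * P2 a b = a ^ 3 - b ^ 3 := by
  have h1 : a * (a * b) = b * a ^ 2 := by rw [pow_two, ← mul_assoc b, ← h, mul_assoc, h, ← mul_assoc, h, mul_assoc]
  have h2 : a * b ^ 2 = b * (a * b) := by rw [pow_two, ← mul_assoc, h, mul_assoc, ← h]
  unfold P2
  rw [sub_mul, mul_add, mul_add, mul_add, mul_add, h1, h2, ← pow_succ', ← pow_succ']
  abel

theorem d_even_mul {a b : Om X} (ha : sO X a = a) (da : dO X a = 0) (db : dO X b = 0) : dO X (a * b) = 0 := by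
  rw [d_mul, da, db, zero_mul, mul_zero, add_zero]

theorem d_pow' {a : Om X} (ha : sO X a = a) (da : dO X a = 0) (m : ℕ) : dO X (a ^ m) = 0 := by
  induction m with
  | zero => rw [pow_zero, d_one]
  | succ m ih => rw [pow_succ', d_even_mul ha da ih]

theorem d_P2 {a b : Om X} (ha : sO X a = a) (hb : sO X b = b) (da : dO X a = 0) (db : dO X b = 0) :
    dO X (P2 a b) = 0 := by
  unfold P2
  rw [map_add, map_add, d_pow' ha da, d_pow' hb db, d_even_mul ha da db, add_zero, add_zero]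

theorem s_P2 {a b : Om X} (ha : sO X a = a) (hb : sO X b = b) : sO X (P2 a b) = P2 a b := by
  unfold P2
  rw [map_add, map_add, map_pow, map_pow, map_mul, ha, hb]

theorem i_even_mul {c : Circ X} {a b : Om X} (ha : sO X a = a) : iO c (a * b) = iO c a * b + a * iO c b := by
  rw [i_mul, ha]

theorem i_cube {c : Circ X} {a : Om X} (ha : sO X a = a) : iO c (a ^ 3) = (3 : ℝ) • (a ^ 2 * iO c a) := by
  have h1 : iO c (a ^ 2) = (2 : ℝ) • (a * iO c a) := by
    rw [pow_two, i_even_mul ha, ← even_comm' ha (iO c a), two_smul]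
  have h2 : sO X (a ^ 2) = a ^ 2 := by rw [map_pow, ha]
  rw [pow_succ, i_even_mul h2, h1, smul_mul_assoc, mul_assoc, ← even_comm' ha (iO c a), ← mul_assoc, ← pow_two]
  module

/-! ### Definitions -/

section defs

variable (c : Circ X) (f : SMap X M) (u : Om M)

/-- the average of `f^* u` -/
def ub : Om X := AO c (f.pull u)

/-- the transgression of `u`, degree `2 q + 1` -/
def xb : Om X := iO c (ub c f u)

/-- `∫_0^1 λ_s ds`, `λ_s = ∫_0^s ι u_r dr` -/
def lam : Om X := KO X ((1 - sF X) * c.a.pull (f.pull u))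

/-- primitive of `ub ^ 3` -/
def mu : Om X := lam c f u * P2 (ub c f u) (f.pull u)

/-- degree `6 q + 4` -/
def xp : Om X := iO c (AO c (mu c f u))

/-- the form of degree `8 q + 5` -/
def TT : Om X := xb c f u * xp c f u

end defs

variable {c : Circ X} {f : SMap X M} {u : Om M} {q : ℕ}

theorem s_u (Du : Deg (2 * q + 2) u) : sO M u = u := Deg_even (j := q + 1) Du

theorem s_fu (Du : Deg (2 * q + 2) u) : sO X (f.pull u) = f.pull u := by rw [pull_s, s_u Du]

theorem d_fu (du : dO M u = 0) : dO X (f.pull u) = 0 := by rw [pull_d, du, map_zero]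

theorem Deg_ub (Du : Deg (2 * q + 2) u) : Deg (2 * q + 2) (ub c f u) := Deg_A c (Deg_pull f Du)

theorem s_ub (Du : Deg (2 * q + 2) u) : sO X (ub c f u) = ub c f u := Deg_even (j := q + 1) (Deg_ub Du)

theorem d_ub (du : dO M u = 0) : dO X (ub c f u) = 0 := by
  unfold ub
  rw [A_d, d_fu du, map_zero]

theorem Inv_ub : Inv c (ub c f u) := A_inv c _

theorem Deg_xb (Du : Deg (2 * q + 2) u) : Deg (2 * q + 1) (xb c f u) := Deg_i c (Deg_ub Du)

theorem s_xb (Du : Deg (2 * q + 2) u) : sO X (xb c f u) = -xb c f u := Deg_odd (j := q) (Deg_xb Du)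

theorem i_xb : iO c (xb c f u) = 0 := i_i c _

theorem d_xb (du : dO M u = 0) : dO X (xb c f u) = 0 := by
  unfold xb
  rw [cartan c Inv_ub, d_ub du, map_zero, neg_zero]

theorem xb_sq (Du : Deg (2 * q + 2) u) : xb c f u * xb c f u = 0 := odd_sq (s_xb Du)

theorem Bas_xb (du : dO M u = 0) : Bas c (xb c f u) := Bas_closed c i_xb (d_xb du)

theorem xb_eq : xb c f u = KO X (c.a.pull (f.pull u)) := i_A c _

/-- `d lam = ub - f^* u` -/
theorem d_lam (Du : Deg (2 * q + 2) u) (du : dO M u = 0) : dO X (lam c f u) = ub c f u - f.pull u := by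
  obtain ⟨w, hw⟩ : ∃ w, w = c.a.pull (f.pull u) := ⟨_, rfl⟩
  have dw : dO _ w = 0 := by rw [hw, pull_d, d_fu du, map_zero]
  have h0 : (jO X 0).pull w = f.pull u := by
    rw [hw, ← pull_comp]
    have : c.a.comp (jO X 0) = SMap.id X := SMap_ext fun x => c.zero x
    rw [this, pull_id]
  have h1 : ub c f u = QO X w := by rw [hw]; rfl
  have h2 := d_K ((1 - sF X) * w)
  have h3 : dO X.xR ((1 - sF X) * w) = -(dO _ (sF X) * w) := by
    rw [d_mul, dw, mul_zero, add_zero, map_sub, d_one, zero_sub, neg_mul]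
  have h4 : (jO X 1).pull ((1 - sF X) * w) = 0 := by
    rw [map_mul, map_sub, map_one, sF_j, map_one, sub_self, zero_mul]
  have h5 : (jO X 0).pull ((1 - sF X) * w) = f.pull u := by
    rw [map_mul, map_sub, map_one, sF_j, map_zero, sub_zero, one_mul, h0]
  rw [h3, h4, h5, map_neg, K_ds, ← h1] at h2
  have h6 : lam c f u = KO X ((1 - sF X) * w) := by rw [hw]; rfl
  rw [h6]
  have h7 : dO X (KO X ((1 - sF X) * w)) = 0 - f.pull u + ub c f u := by rw [← h2]; abel
  rw [h7]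
  abel

theorem Deg_lam (Du : Deg (2 * q + 2) u) : Deg (2 * q + 1) (lam c f u) := by
  refine Deg_K ?_
  have h := Deg_mul (Deg_sub (Deg_one (X := X.xR)) Deg_sF) (Deg_pull c.a (Deg_pull f Du))
  rwa [zero_add] at h

theorem Deg_P2 {a b : Om X} (ha : Deg i a) (hb : Deg i b) : Deg (2 * i) (P2 a b) := by
  have h1 := Deg_pow ha 2
  have h2 := Deg_pow hb 2
  have h3 := Deg_mul ha hb
  rw [mul_comm i 2] at h1 h2
  rw [← two_mul] at h3
  exact Deg_add (Deg_add h1 h3) h2

theorem Deg_mu (Du : Deg (2 * q + 2) u) : Deg (6 * q + 5) (mu c f u) := by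
  have h := Deg_mul (Deg_lam (c := c) (f := f) Du) (Deg_P2 (Deg_ub (c := c) (f := f) Du) (Deg_pull f Du))
  have e : 2 * q + 1 + 2 * (2 * q + 2) = 6 * q + 5 := by ring
  rwa [e] at h

theorem d_mu (Du : Deg (2 * q + 2) u) (du : dO M u = 0) (u3 : u ^ 3 = 0) : dO X (mu c f u) = ub c f u ^ 3 := by
  unfold mu
  rw [d_mul, d_P2 (s_ub Du) (s_fu Du) (d_ub du) (d_fu du), mul_zero, add_zero, d_lam Du du,
    P2_mul (even_comm' (s_ub Du) _), ← map_pow, u3, map_zero, sub_zero]

theorem Deg_xp (Du : Deg (2 * q + 2) u) : Deg (6 * q + 4) (xp c f u) := Deg_i c (Deg_A c (Deg_mu Du))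

theorem s_xp (Du : Deg (2 * q + 2) u) : sO X (xp c f u) = xp c f u := by
  have h := Deg_xp (c := c) (f := f) Du
  have e : 6 * q + 4 = 2 * (3 * q + 2) := by ring
  rw [e] at h
  exact Deg_even h

theorem i_xp : iO c (xp c f u) = 0 := i_i c _

/-- `d xp = - 3 ub^2 xb` -/
theorem d_xp (Du : Deg (2 * q + 2) u) (du : dO M u = 0) (u3 : u ^ 3 = 0) :
    dO X (xp c f u) = -((3 : ℝ) • (ub c f u ^ 2 * xb c f u)) := by
  unfold xp
  rw [cartan c (A_inv c _), A_d, d_mu Du du u3, A_of_inv (Inv_pow Inv_ub 3), i_cube (s_ub Du)]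
  rfl

theorem Deg_TT (Du : Deg (2 * q + 2) u) : Deg (8 * q + 5) (TT c f u) := by
  have h := Deg_mul (Deg_xb (c := c) (f := f) Du) (Deg_xp (c := c) (f := f) Du)
  have e : 2 * q + 1 + (6 * q + 4) = 8 * q + 5 := by ring
  rwa [e] at h

theorem d_TT (Du : Deg (2 * q + 2) u) (du : dO M u = 0) (u3 : u ^ 3 = 0) : dO X (TT c f u) = 0 := by
  unfold TT
  have h2 : sO X (ub c f u ^ 2) = ub c f u ^ 2 := by rw [map_pow, s_ub Du]
  rw [d_mul, d_xb du, zero_mul, zero_add, s_xb Du, d_xp Du du u3, neg_mul_neg, mul_smul_comm, ← mul_assoc,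
    ← even_comm' h2 (xb c f u), mul_assoc, xb_sq Du, mul_zero, smul_zero]

theorem i_TT : iO c (TT c f u) = 0 := by
  unfold TT
  rw [i_mul, i_xb, i_xp, zero_mul, mul_zero, add_zero]

theorem Bas_TT (Du : Deg (2 * q + 2) u) (du : dO M u = 0) (u3 : u ^ 3 = 0) : Bas c (TT c f u) :=
  Bas_closed c i_TT (d_TT Du du u3)

theorem s_TT (Du : Deg (2 * q + 2) u) : sO X (TT c f u) = -TT c f u := by
  unfold TT
  rw [map_mul, s_xb Du, s_xp Du, neg_mul]

theorem d_ux (Du : Deg (2 * q + 2) u) (du : dO M u = 0) : dO X (ub c f u * xb c f u) = 0 :=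
  d_even_mul (s_ub Du) (d_ub du) (d_xb du)

theorem i_ux (Du : Deg (2 * q + 2) u) : iO c (ub c f u * xb c f u) = 0 := by
  rw [i_even_mul (s_ub Du), i_xb, mul_zero, add_zero]
  exact xb_sq Du

theorem Bas_ux (Du : Deg (2 * q + 2) u) (du : dO M u = 0) : Bas c (ub c f u * xb c f u) :=
  Bas_closed c (i_ux Du) (d_ux Du du)

/-! ### Naturality -/

section nat

variable {c' : Circ Y} {g : SMap Y X}

theorem ub_nat (h : Eqv c' c g) : ub c' (f.comp g) u = g.pull (ub c f u) := by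
  unfold ub
  rw [pull_comp, A_nat h]

theorem xb_nat (h : Eqv c' c g) : xb c' (f.comp g) u = g.pull (xb c f u) := by
  unfold xb
  rw [ub_nat h, i_nat h]

theorem ca_nat (h : Eqv c' c g) : c'.a.pull ((f.comp g).pull u) = g.up.pull (c.a.pull (f.pull u)) := by
  rw [← pull_comp, ← pull_comp, ← pull_comp]
  have e : (f.comp g).comp c'.a = (f.comp c.a).comp g.up := SMap_ext fun x => congrArg f.1 (h x.1 x.2)
  have e2 : (f.comp c.a).comp g.up = f.comp (c.a.comp g.up) := rfl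
  rw [e, e2]

theorem lam_nat (h : Eqv c' c g) : lam c' (f.comp g) u = g.pull (lam c f u) := by
  unfold lam
  have e : (1 - sF Y) * g.up.pull (c.a.pull (f.pull u)) = g.up.pull ((1 - sF X) * c.a.pull (f.pull u)) := by
    rw [map_mul, map_sub, map_one, sF_nat]
  rw [ca_nat h, e, K_up]

theorem P2_nat (a b : Om X) : P2 (g.pull a) (g.pull b) = g.pull (P2 a b) := by
  unfold P2
  rw [map_add, map_add, map_mul, map_pow, map_pow]

theorem mu_nat (h : Eqv c' c g) : mu c' (f.comp g) u = g.pull (mu c f u) := by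
  unfold mu
  rw [lam_nat h, ub_nat h, pull_comp, P2_nat, map_mul]

theorem xp_nat (h : Eqv c' c g) : xp c' (f.comp g) u = g.pull (xp c f u) := by
  unfold xp
  rw [mu_nat h, A_nat h, i_nat h]

theorem TT_nat (h : Eqv c' c g) : TT c' (f.comp g) u = g.pull (TT c f u) := by
  unfold TT
  rw [xb_nat h, xp_nat h, map_mul]

end nat

/-! ### Constant loops -/

theorem xb_const (h : IMap c f) : xb c f u = 0 := by
  unfold xb ub
  rw [A_bas c (Bas_pull c h u), Bas_i c (Bas_pull c h u)]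

theorem TT_const (h : IMap c f) : TT c f u = 0 := by
  unfold TT
  rw [xb_const h, zero_mul]

/-! ### Homotopy -/

section htpy

variable {c' : Circ Y}

/-- the homotopy operator applied to a natural form -/
theorem htpy_gen (W : ∀ {X : Space} (c : Circ X) (f : SMap X M), Om X)
    (nat : ∀ {X Y : Space} {c : Circ X} {c' : Circ Y} {f : SMap X M} {g : SMap Y X}, Eqv c' c g →
      W c' (f.comp g) = g.pull (W c f)) (bas : ∀ {X : Space} (c : Circ X) (f : SMap X M), Bas c (W c f))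
    (cl : ∀ {X : Space} (c : Circ X) (f : SMap X M), dO X (W c f) = 0) (c : Circ X) (F : SMap X.xR M) :
    Bas c (KO X (W (xRc c) F)) ∧
      dO X (KO X (W (xRc c) F)) = W c (F.comp (jO X 1)) - W c (F.comp (jO X 0)) := by
  refine ⟨Bas_K (bas _ _), ?_⟩
  have h := d_K (W (xRc c) F)
  rw [cl, map_zero, add_zero] at h
  rw [h, nat (Eqv_j c 1), nat (Eqv_j c 0)]

/-- homotopy operator for `TT` -/
def TTh (c : Circ X) (F : SMap X.xR M) (u : Om M) : Om X := KO X (TT (xRc c) F u)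

theorem TT_htpy (Du : Deg (2 * q + 2) u) (du : dO M u = 0) (u3 : u ^ 3 = 0) (c : Circ X) (F : SMap X.xR M) :
    Bas c (TTh c F u) ∧ dO X (TTh c F u) = TT c (F.comp (jO X 1)) u - TT c (F.comp (jO X 0)) u :=
  htpy_gen (W := fun c f => TT c f u) (fun h => TT_nat h) (fun _ _ => Bas_TT Du du u3) (fun _ _ => d_TT Du du u3) c F

theorem Deg_TTh (Du : Deg (2 * q + 2) u) (c : Circ X) (F : SMap X.xR M) : Deg (8 * q + 4) (TTh c F u) :=
  Deg_K (Deg_TT Du)

theorem TTh_nat {g : SMap Y X} (h : Eqv c' c g) (F : SMap X.xR M) :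
    TTh c' (F.comp g.up) u = g.pull (TTh c F u) := by
  unfold TTh
  rw [TT_nat (Eqv_up h), K_up]

theorem TTh_const {F : SMap X.xR M} (h : IMap (xRc c) F) : TTh c F u = 0 := by
  unfold TTh
  rw [TT_const h, map_zero]

/-- homotopy operator for `xb` -/
def xbh (c : Circ X) (F : SMap X.xR M) (u : Om M) : Om X := KO X (xb (xRc c) F u)

theorem xb_htpy (du : dO M u = 0) (c : Circ X) (F : SMap X.xR M) :
    Bas c (xbh c F u) ∧ dO X (xbh c F u) = xb c (F.comp (jO X 1)) u - xb c (F.comp (jO X 0)) u :=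
  htpy_gen (W := fun c f => xb c f u) (fun h => xb_nat h) (fun _ _ => Bas_xb du) (fun _ _ => d_xb du) c F

theorem Deg_xbh (Du : Deg (2 * q + 2) u) (c : Circ X) (F : SMap X.xR M) : Deg (2 * q) (xbh c F u) :=
  Deg_K (Deg_xb Du)

/-- homotopy operator for `ub xb` -/
def uxh (c : Circ X) (F : SMap X.xR M) (u : Om M) : Om X := KO X (ub (xRc c) F u * xb (xRc c) F u)

theorem ux_htpy (Du : Deg (2 * q + 2) u) (du : dO M u = 0) (c : Circ X) (F : SMap X.xR M) :
    Bas c (uxh c F u) ∧ dO X (uxh c F u) = ub c (F.comp (jO X 1)) u * xb c (F.comp (jO X 1)) u -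
      ub c (F.comp (jO X 0)) u * xb c (F.comp (jO X 0)) u :=
  htpy_gen (W := fun c f => ub c f u * xb c f u) (fun h => by rw [ub_nat h, xb_nat h, map_mul]) (fun _ _ => Bas_ux Du du)
    (fun _ _ => d_ux Du du) c F

theorem Deg_uxh (Du : Deg (2 * q + 2) u) (c : Circ X) (F : SMap X.xR M) : Deg (4 * q + 2) (uxh c F u) := by
  refine Deg_K ?_
  have h := Deg_mul (Deg_ub (c := xRc c) (f := F) Du) (Deg_xb (c := xRc c) (f := F) Du)
  have e : 2 * q + 2 + (2 * q + 1) = 4 * q + 2 + 1 := by ring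
  rwa [e] at h

end htpy

/-! ### Orbits run twice -/

theorem ub_dbl : ub (dblc c) f u = ub c f u := A_dbl _

theorem xb_dbl : xb (dblc c) f u = (2 : ℝ) • xb c f u := by
  unfold xb
  rw [ub_dbl, i_dbl]

theorem lam_dbl : lam (dblc c) f u = lam c f u + (2⁻¹ : ℝ) • xb c f u := by
  unfold lam
  rw [K_dbl, xb_eq]

theorem xp_dbl (Du : Deg (2 * q + 2) u) (du : dO M u = 0) :
    xp (dblc c) f u = (2 : ℝ) • xp c f u - xb c f u * iO c (AO c (P2 (ub c f u) (f.pull u))) := by
  unfold xp mu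
  rw [A_dbl, i_dbl, lam_dbl, ub_dbl, add_mul, smul_mul_assoc, map_add, map_smul, A_mul c (Bas_xb du), map_add, map_smul,
    i_mul, i_xb, zero_mul, zero_add, s_xb Du, smul_add, smul_smul, mul_inv_cancel₀ two_ne_zero, one_smul, neg_mul,
    sub_eq_add_neg]

/-- **orbits run twice** -/
theorem TT_dbl (Du : Deg (2 * q + 2) u) (du : dO M u = 0) : TT (dblc c) f u = (4 : ℝ) • TT c f u := by
  unfold TT
  rw [xb_dbl, xp_dbl Du du, mul_sub, smul_mul_smul_comm, smul_mul_assoc, ← mul_assoc, xb_sq Du, zero_mul, smul_zero,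
    sub_zero]
  norm_num

theorem ux_dbl : ub (dblc c) f u * xb (dblc c) f u = (2 : ℝ) • (ub c f u * xb c f u) := by
  rw [ub_dbl, xb_dbl, mul_smul_comm]

end Pool.Agent.Lib.MP_ccbbf6_gt.K7
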