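import Pool.Agent.Lib.MP_ccbbf6_gt.K7.SSx
import Pool.Agent.Lib.MP_ccbbf6_gt.L5.INTn

/-!
# `κ = 7`, block B5: closed forms on `K1 = S(V) x_FM S(V)` (helper25)

`b : G → F` a bundle of odd spheres `S^κ`, `ψ` an angular form (`PI ψ = 1`, `d ψ` a pull back from `F`), `K1 = G x_F G`. A closed form `ζ` on `K1` which is exact on the diagonal and whose fibre integral over the
second factor is exact is exact.
-/

set_option autoImplicit false
set_option maxSynthPendingDepth 3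

open Set Filter Topology MeasureTheory Real
open scoped ContDiff

noncomputable section

namespace Pool.Agent.Lib.MP_ccbbf6_gt.K7

open L4 L4.FR L5

variable {κ : ℕ} {G F S B : Space}

theorem ant_ant {N : ℕ} (b : SBun N S B) (θ : Om S) : b.ant.pull (b.ant.pull θ) = θ := by
  refine LLift.inj (q := b.q1) b.lift1 ?_
  rw [← pull_comp, ← pull_comp]
  have e : (b.ant.comp b.ant).comp b.q1 = b.q1 := SMap_ext fun f => by
    show b.ant.1 (b.ant.1 (b.ptm.1 ⟨(f, Pi.single 0 1), e1_ne N⟩)) = b.ptm.1 ⟨(f, Pi.single 0 1), e1_ne N⟩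
    rw [b.ant_pt, b.ant_pt]
    exact congrArg b.ptm.1 (Subtype.ext (Prod.ext rfl (neg_neg _)))
  show (b.q1.pull ((b.ant.comp b.ant).pull θ)) = b.q1.pull θ
  rw [← pull_comp, e]

theorem PI_pi {N : ℕ} (b : SBun N S B) (hN : 1 ≤ N) (a : Om B) : b.PI (b.pi.pull a) = 0 := by
  rw [← mul_one (b.pi.pull a), b.PI_mul, b.PI_low Deg_one hN, mul_zero]

section K1

variable (b : SBun κ G F) (g : SMap G F) (hb : ∀ c, b.pi.1 c = g.1 c)

/-- the diagonal -/
def dgn : SMap G (fp g b.pi) := fpM (SMap.id G) (SMap.id G) fun c => (hb c).symm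

/-- the difference of the two angular forms -/
def tau (ψ : Om G) : Om (fp g b.pi) := (fp2 g b.pi).pull ψ - (fp1 g b.pi).pull ψ

variable {b g} {ψ : Om G} (Dψ : Deg κ ψ)

include Dψ in
theorem Deg_tau : Deg κ (tau b g ψ) := Deg_sub (Deg_pull _ Dψ) (Deg_pull _ Dψ)

include hb in
theorem d_tau {a : Om F} (dψ : dO G ψ = g.pull a) : dO _ (tau b g ψ) = 0 := by
  have e : b.pi = g := SMap_ext hb
  unfold tau
  rw [map_sub, pull_d, pull_d, dψ, ← pull_comp, ← pull_comp, fp_comm]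
  rw [← e, sub_self]

theorem dgn_tau : (dgn b g hb).pull (tau b g ψ) = 0 := by
  unfold tau
  rw [map_sub, ← pull_comp, ← pull_comp]
  exact sub_self _

omit Dψ in
theorem PI_tau (hκ : 1 ≤ κ) (h1 : b.PI ψ = 1) : (b.pull g).PI (tau b g ψ) = 1 := by
  unfold tau
  rw [sub_eq_add_neg, (b.pull g).PI_add, b.PI_pull g, h1, map_one]
  have h2 : (b.pull g).PI ((fp1 g b.pi).pull ψ) = 0 := PI_pi (b.pull g) hκ ψ
  have h3 : (b.pull g).PI (-(fp1 g b.pi).pull ψ) = -(b.pull g).PI ((fp1 g b.pi).pull ψ) := by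
    rw [← neg_one_smul ℝ, (b.pull g).PI_smul, neg_one_smul]
  rw [h3, h2, neg_zero, add_zero]

include Dψ hb in
/-- **exactness on `K1`** -/
theorem K1_ex (hκ : 1 ≤ κ) (hodd : Odd κ) (h1 : b.PI ψ = 1) {a : Om F} (dψ : dO G ψ = g.pull a) {j : ℤ}
    {ζ : Om (fp g b.pi)} (hζ : DZ j ζ) (dζ : dO _ ζ = 0) {θ : Om G} (hθ : DZ (j - 1) θ)
    (dθ : dO G θ = (dgn b g hb).pull ζ) {μ : Om G} (hμ : DZ (j - κ - 1) μ) (dμ : dO G μ = (b.pull g).PI ζ) :
    ∃ φ : Om (fp g b.pi), DZ (j - 1) φ ∧ dO _ φ = ζ := by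
  have hev : (-1 : ℝ) ^ (κ + 1) = 1 := (hodd.add_odd odd_one).neg_one_pow
  have hP : (b.pull g).PI ((b.pull g).ant.pull (tau b g ψ)) = 1 := by
    rw [PI_ant (b.pull g), hev, one_smul, PI_tau hκ h1]
  have hd0 : dO _ ((b.pull g).ant.pull (tau b g ψ)) = (b.pull g).pi.pull 0 := by
    rw [pull_d, d_tau hb dψ, map_zero, map_zero]
  obtain ⟨η, hη, e⟩ := (b.pull g).SSx hκ (Deg_pull _ (Deg_tau Dψ)) hP hd0 hζ dζ
  rw [hev, one_smul, ant_ant] at e
  obtain ⟨ν, hν⟩ : ∃ ν, ν = (b.pull g).PI ((b.pull g).ant.pull (tau b g ψ) * ζ) := ⟨_, rfl⟩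
  rw [← hν, ← dμ] at e
  have hpi : (b.pull g).pi = fp1 g b.pi := rfl
  rw [hpi] at e
  have hid : ∀ x : Om G, (dgn b g hb).pull ((fp1 g b.pi).pull x) = x := fun x => by
    rw [← pull_comp]
    exact pull_id x
  have hνd : ν = dO G (θ - (dgn b g hb).pull η) := by
    have e2 := congrArg (dgn b g hb).pull e
    rw [map_add, map_add, map_mul, hid, dgn_tau, zero_mul, add_zero, ← pull_d, ← dθ] at e2
    rw [map_sub, e2]
    abel
  have hst : sO _ (tau b g ψ) = -tau b g ψ := by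
    have := Deg_s (Deg_tau (b := b) (g := g) Dψ)
    rw [this, hodd.neg_one_pow, neg_one_smul]
  refine ⟨(fp1 g b.pi).pull (θ - (dgn b g hb).pull η) - tau b g ψ * (fp1 g b.pi).pull μ + η, ?_, ?_⟩
  · refine DZ_add (DZ_sub (DZ_pull _ (DZ_sub hθ (DZ_pull _ hη))) ?_) hη
    exact (DZ_mul (DZ_nat.2 (Deg_tau Dψ)) (DZ_pull _ hμ)).cast (by ring)
  · rw [map_add, map_sub, pull_d, ← hνd, d_mul, d_tau hb dψ, zero_mul, zero_add, hst, neg_mul, sub_neg_eq_add, pull_d]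
    exact e.symm

end K1

end Pool.Agent.Lib.MP_ccbbf6_gt.K7
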