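import Pool.Agent.Lib.MP_ccbbf6_gt.K7.VX2
import Pool.Agent.Lib.MP_ccbbf6_gt.K7.VXK

/-!
# `κ = 7`, block B4/B5, file VXG: relative exactness on the small 4-gons (helper25)
-/

set_option autoImplicit false
set_option maxSynthPendingDepth 3
set_option linter.unusedSectionVars false

open Set Filter Topology Metric Real Module
open scoped ContDiff RealInnerProductSpace

noncomputable section

namespace Pool.Agent.Lib.MP_ccbbf6_gt.K7

open Geo L4 L4.ORI L4.FR L5 L5.NEG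

variable {n κ : ℕ} {M : Type} [MetricSpace M] [CompactSpace M] {𝒜 : SDist n M} {δ ε η s0 : ℝ} {k : ℕ}

/-! ### The cut-off function -/

/-- cut-off function on the small 4-gons -/
def chi2 (𝒜 : SDist n M) (δ η ε : ℝ) (x : (spXe 𝒜 δ η).pt) : ℝ :=
  Real.smoothTransition ((dist (x.1.1 0) (x.1.1 2) - (π - 7 * ε / 4)) / (ε / 2))

theorem chi2_zero (hε : 0 < ε) {x : (spXe 𝒜 δ η).pt} (h : dist (x.1.1 0) (x.1.1 2) ≤ π - 7 * ε / 4) : chi2 𝒜 δ η ε x = 0 :=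
  Real.smoothTransition.zero_of_nonpos (div_nonpos_of_nonpos_of_nonneg (by linarith) (by linarith))

theorem chi2_one (hε : 0 < ε) {x : (spXe 𝒜 δ η).pt} (h : π - 5 * ε / 4 ≤ dist (x.1.1 0) (x.1.1 2)) : chi2 𝒜 δ η ε x = 1 :=
  Real.smoothTransition.one_of_one_le (by rw [le_div_iff₀ (by linarith)]; linarith)

theorem cont_d (p : (spXe 𝒜 δ η).Plot k) : Continuous fun u => dist ((p.1 u).1.1 0) ((p.1 u).1.1 2) :=
  ((p.2 0).continuous).dist ((p.2 2).continuous)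

theorem chi2_smooth (hB : Bl M) (hε : 0 < ε) (hε2 : 2 * ε < π) (k : ℕ) (p : (spXe 𝒜 δ η).Plot k) :
    ContDiff ℝ ∞ fun u => chi2 𝒜 δ η ε (p.1 u) := by
  rw [contDiff_iff_contDiffAt]
  intro u
  have hc := (cont_d p).continuousAt (x := u)
  rcases lt_or_ge (dist ((p.1 u).1.1 0) ((p.1 u).1.1 2)) (π - 7 * ε / 4) with h | h
  · refine ContDiffAt.congr_of_eventuallyEq (f := fun _ => (0 : ℝ)) contDiffAt_const ?_
    filter_upwards [hc.eventually (gt_mem_nhds h)] with v hv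
    exact chi2_zero hε (le_of_lt hv)
  rcases lt_or_ge (π - 5 * ε / 4) (dist ((p.1 u).1.1 0) ((p.1 u).1.1 2)) with h' | h'
  · refine ContDiffAt.congr_of_eventuallyEq (f := fun _ => (1 : ℝ)) contDiffAt_const ?_
    filter_upwards [hc.eventually (lt_mem_nhds h')] with v hv
    exact chi2_one hε (le_of_lt hv)
  · have h3 : ContDiffAt ℝ ∞ (fun v => dist ((p.1 v).1.1 0) ((p.1 v).1.1 2)) u :=
      al_dist hB (p.2 0 u) (p.2 2 u) (by show 0 < dist ((p.1 u).1.1 0) ((p.1 u).1.1 2); linarith)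
        (by show dist ((p.1 u).1.1 0) ((p.1 u).1.1 2) < π; linarith)
    exact Real.smoothTransition.contDiff.contDiffAt.comp u ((h3.sub contDiffAt_const).div_const _)

theorem chi2_c1 (hε : 0 < ε) (k : ℕ) (p : (spXe 𝒜 δ η).Plot k) (x : V k) (h : p.1 x ∉ W1 𝒜 δ η (π - 2 * ε)) :
    ∀ᶠ y in 𝓝 x, chi2 𝒜 δ η ε (p.1 y) = 0 := by
  have h1 : dist ((p.1 x).1.1 0) ((p.1 x).1.1 2) < π - 7 * ε / 4 := by
    have h2 : dist ((p.1 x).1.1 0) ((p.1 x).1.1 2) ≤ π - 2 * ε := not_lt.1 h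
    linarith
  filter_upwards [((cont_d p).continuousAt (x := x)).eventually (gt_mem_nhds h1)] with v hv
  exact chi2_zero hε (le_of_lt hv)

theorem chi2_c0 (hε : 0 < ε) (k : ℕ) (p : (spXe 𝒜 δ η).Plot k) (x : V k) (h : p.1 x ∉ W0 𝒜 δ η (π - ε)) :
    ∀ᶠ y in 𝓝 x, chi2 𝒜 δ η ε (p.1 y) = 1 := by
  have h1 : π - 5 * ε / 4 < dist ((p.1 x).1.1 0) ((p.1 x).1.1 2) := by
    have h2 : π - ε ≤ dist ((p.1 x).1.1 0) ((p.1 x).1.1 2) := not_lt.1 h
    linarith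
  filter_upwards [((cont_d p).continuousAt (x := x)).eventually (lt_mem_nhds h1)] with v hv
  exact chi2_one hε (le_of_lt hv)

/-! ### `K1` in the space of all 4-gons -/

section

variable (hB : Bl M) (b : SBun κ (spG 𝒜) (spF 𝒜)) (hb : ∀ c, b.pi.1 c = (gF hB).1 c)

/-- `K1` as a family of 4-gons -/
def kapX (hδ2 : δ ≤ π / 2) : SMap (spK1 hB b) (spX 𝒜 δ) := (inU (spX 𝒜 δ) (Uη 𝒜 δ 1)).comp (kap hB b hb hδ2 one_pos)

theorem kapX_eq (hδ2 : δ ≤ π / 2) (hη : 0 < η) :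
    (inU (spX 𝒜 δ) (Uη 𝒜 δ η)).comp (kap hB b hb hδ2 hη) = kapX hB b hb hδ2 := rfl

/-- the diagonal shrinks to constant 4-gons -/
def dgH (hδ2 : δ ≤ π / 2) : SMap (spG 𝒜).xR (spX 𝒜 δ) :=
  ⟨fun z => ⟨quad2 (M := M) z.1 (π * Real.smoothTransition z.2), fun i => by
    have h0 := Real.smoothTransition.nonneg z.2
    have h1 := Real.smoothTransition.le_one z.2
    rw [quad2_side z.1 (by positivity) (by nlinarith [pi_pos])]
    nlinarith [pi_pos]⟩, fun k p i => by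
    have h1 : ContDiff ℝ ∞ fun u => Real.smoothTransition (p.1 u).2 := Real.smoothTransition.contDiff.comp p.2.2
    by_cases hi0 : i = 0
    · subst hi0
      exact SmG.ev' hB p.2.1 (contDiff_const (c := (0 : ℝ)))
    by_cases hi2 : i = 2
    · subst hi2
      exact SmG.ev' hB p.2.1 (contDiff_const.mul h1)
    · have e : (fun u => (quad2 (M := M) (p.1 u).1 (π * Real.smoothTransition (p.1 u).2)) i) =
          fun u => ((p.1 u).1 : Gs M).1 (π * Real.smoothTransition (p.1 u).2 / 2) := funext fun u => by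
        unfold quad2
        rw [if_neg hi0, if_neg hi2]
      show L4.Sm 𝒜 (fun u => (quad2 (M := M) (p.1 u).1 (π * Real.smoothTransition (p.1 u).2)) i)
      rw [e]
      exact SmG.ev' hB p.2.1 ((contDiff_const.mul h1).div_const 2)⟩

theorem quad_dgn (c : Gs M) : quad2 c π = quad c c := by
  funext i
  unfold quad2 quad
  by_cases h0 : i = 0
  · rw [if_pos h0, if_pos h0]
  by_cases h2 : i = 2
  · subst h2
    rfl
  · rw [if_neg h0, if_neg h0, if_neg h2, ite_self]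

/-- a closed form which vanishes on the constant 4-gons is exact on the diagonal -/
theorem dgn_ex (hδ2 : δ ≤ π / 2) (h : δ ≤ π) {j : ℤ} {w : Om (spX 𝒜 δ)} (hw : DZ j w) (dw : dO _ w = 0)
    (kw : (kX 𝒜 h).pull w = 0) :
    ∃ θ : Om (spG 𝒜), DZ (j - 1) θ ∧ dO _ θ = (dgn b (gF hB) hb).pull ((kapX hB b hb hδ2).pull w) := by
  have hr : HRel (kE (spG 𝒜)) ((kX 𝒜 h).comp (foot hB 0)) ((kapX hB b hb hδ2).comp (dgn b (gF hB) hb)) := by
    refine HRel.homE (dgH hB hδ2) (fun c => Subtype.ext ?_) (fun c => Subtype.ext ?_)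
    · show quad2 (M := M) c (π * Real.smoothTransition 0) = fun _ => (c : Gs M).1 0
      funext i
      rw [Real.smoothTransition.zero, mul_zero]
      unfold quad2
      split_ifs
      · rfl
      · rfl
      · rw [zero_div]
    · show quad2 (M := M) c (π * Real.smoothTransition 1) = quad (M := M) c c
      rw [Real.smoothTransition.one, mul_one, quad_dgn]
  obtain ⟨θ, h1, _, h3⟩ := hr j w hw dw
  refine ⟨θ, h1, ?_⟩
  rw [h3, pull_comp, pull_comp, kw, map_zero, sub_zero]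

/-- **relative exactness on the small 4-gons** -/
theorem RX_small (hk : 𝒜.HK κ) (hκ : 1 ≤ κ) (hodd : Odd κ) {ψ : Om (spG 𝒜)} (Dψ : Deg κ ψ) (h1 : b.PI ψ = 1)
    {a : Om (spF 𝒜)} (dψ : dO _ ψ = (gF hB).pull a) (hδ : 0 < δ) (hδ4 : δ ≤ π / 4) (h : δ ≤ π) :
    ∃ (η : ℝ) (hη : 0 < η), ∀ (j : ℤ) (w : Om (spX 𝒜 δ)), DZ j w → dO _ w = 0 → (kX 𝒜 h).pull w = 0 →
      ∀ μ : Om (spG 𝒜), DZ (j - κ - 1) μ →
        dO _ μ = (b.pull (gF hB)).PI ((kapX hB b hb (hδ4.trans (by linarith [pi_pos]))).pull w) →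
          RX (kXe 𝒜 h hη) j ((inU (spX 𝒜 δ) (Uη 𝒜 δ η)).pull w) := by
  have hπ := pi_pos
  obtain ⟨ε0, hε0, hgood⟩ := good_near 𝒜 hB hk (s0 := π / 12) (by positivity)
  obtain ⟨ε, hεd⟩ : ∃ ε, ε = min ε0 (π / 4) := ⟨_, rfl⟩
  have hε : 0 < ε := by rw [hεd]; exact lt_min hε0 (by positivity)
  have hε1 : ε ≤ ε0 := by rw [hεd]; exact min_le_left _ _
  have hε3 : ε ≤ π / 4 := by rw [hεd]; exact min_le_right _ _
  have hε2 : 2 * ε < π := by linarith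
  have ha : 0 < π - ε := by linarith
  have hδ2 : δ ≤ π / 2 := by linarith
  have hη0 : 0 < ε ^ 2 / 2 := by positivity
  have hη : ε ^ 2 / 2 < ε ^ 2 := by nlinarith [sq_nonneg ε, pow_pos hε 2]
  have hG : GoodW 𝒜 δ (ε ^ 2 / 2) ε (π / 12) := fun x => by
    refine hgood ε hε hε1 _ ?_ (le_of_lt x.2)
    have h5 : en x.1.1.1 < π ^ 2 + ε ^ 2 / 2 := x.1.2
    linarith
  refine ⟨ε ^ 2 / 2, hη0, fun j w hw dw kw μ hμ dμ => ?_⟩
  obtain ⟨θ, hθ, dθ⟩ := dgn_ex hB b hb hδ2 h hw dw kw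
  obtain ⟨φ, hφ, dφ⟩ := K1_ex (b := b) (g := gF hB) hb Dψ hκ hodd h1 dψ (DZ_pull _ hw) (by rw [pull_d, dw, map_zero])
    hθ dθ hμ dμ
  -- `U1`
  obtain ⟨z, hz, _, dz⟩ := rel_U1 hB b hb hG hk (by positivity) hδ (by linarith) hδ2 hη0 j w hw dw
  -- `U0`
  obtain ⟨z0, hz0, kz0, dz0⟩ := RX_U0 hB hδ hδ2 hε hη0 hη h ha (w := (inU (spX 𝒜 δ) (Uη 𝒜 δ (ε ^ 2 / 2))).pull w)
    (DZ_pull _ hw) (by rw [pull_d, dw, map_zero]) (by
      rw [← pull_comp]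
      exact kw)
  obtain ⟨z1, hz1d⟩ : ∃ z1, z1 = (rK hB b hb hG hk).pull φ - z := ⟨_, rfl⟩
  have hz1 : DZ (j - 1) z1 := by rw [hz1d]; exact DZ_sub (DZ_pull _ hφ) hz
  have dz1 : dO _ z1 = (inU (spXe 𝒜 δ (ε ^ 2 / 2)) (W1 𝒜 δ (ε ^ 2 / 2) (π - 2 * ε))).pull
      ((inU (spX 𝒜 δ) (Uη 𝒜 δ (ε ^ 2 / 2))).pull w) := by
    rw [hz1d, map_sub, pull_d, dφ, dz, ← pull_comp, ← pull_comp]
    have e : ((kapX hB b hb hδ2).comp (rK hB b hb hG hk)) =
      (inU (spX 𝒜 δ) (Uη 𝒜 δ (ε ^ 2 / 2))).comp ((kap hB b hb hδ2 hη0).comp (rK hB b hb hG hk)) := rfl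
    rw [e]
    abel
  -- the correction
  obtain ⟨f, hf⟩ : ∃ f, f = (resS (spXe 𝒜 δ (ε ^ 2 / 2)) (inter_subset_left (s := W0 𝒜 δ (ε ^ 2 / 2) (π - ε))
      (t := W1 𝒜 δ (ε ^ 2 / 2) (π - 2 * ε)))).pull z0 - (resS (spXe 𝒜 δ (ε ^ 2 / 2)) inter_subset_right).pull z1 := ⟨_, rfl⟩
  have Df : DZ (j - 1) f := by rw [hf]; exact DZ_sub (DZ_pull _ hz0) (DZ_pull _ hz1)
  have df : dO _ f = 0 := by
    rw [hf, map_sub, pull_d, pull_d, dz0, dz1, ← pull_comp, ← pull_comp (inU (spXe 𝒜 δ (ε ^ 2 / 2)) (W1 𝒜 δ (ε ^ 2 / 2) (π - 2 * ε))),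
      inU_resS, inU_resS, sub_self]
  obtain ⟨κ0, hκ0, _, dκ0⟩ := rel_U01 hB hG hδ hδ2 hη0 hη hε hε2 (j - 1) f Df df
  rw [pull_id, pull_comp, pull_comp] at dκ0
  obtain ⟨z1', hz1'⟩ : ∃ z1', z1' = z1 + (dir1 hB hG).pull ((sgM hB hδ2 hη0 hε hε2).pull f) := ⟨_, rfl⟩
  refine RX_glue (open_W0 _) (open_W1 _) (χ := chi2 𝒜 δ (ε ^ 2 / 2) ε) (chi2_smooth hB hε hε2) (chi2_c1 hε) (chi2_c0 hε)
    (k := kXe 𝒜 h hη0) (fun x hx => ?_) (k0 := kW0 𝒜 h hη0 ha) (fun x => rfl) (fun x => ?_) (z0 := z0) (z1 := z1') (κ := -κ0)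
    hz0 ?_ (DZ_neg (hκ0.cast (by ring))) dz0 ?_ kz0 ?_
  · have hx' : π - 2 * ε < dist (α := M) x x := hx
    rw [dist_self] at hx'
    linarith
  · rcases lt_or_ge (dist (x.1.1 0) (x.1.1 2)) (π - ε) with hx | hx
    · exact Or.inl hx
    · refine Or.inr ?_
      show π - 2 * ε < dist (x.1.1 0) (x.1.1 2)
      linarith
  · rw [hz1']
    exact DZ_add hz1 (DZ_pull _ (DZ_pull _ Df))
  · rw [hz1', map_add, dz1, pull_d, pull_d, df, map_zero, map_zero, add_zero]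
  · rw [map_neg, dκ0, hz1', map_add, neg_sub, hf]
    abel

end

end Pool.Agent.Lib.MP_ccbbf6_gt.K7
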