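import Pool.Agent.Lib.MP_ccbbf6_gt.K7.KT
import Pool.Agent.Lib.MP_ccbbf6_gt.K7.UA2
import Pool.Agent.Lib.MP_ccbbf6_gt.K7.VXG
import Pool.Agent.Lib.MP_ccbbf6_gt.L4.Cmp2

/-!
# `κ = 7`, block B5, file KX1: the form `xb` on `K1` (helper25, skeleton)

The polygon of `quad c c'` is the geodesic `c` from `c 0` to `c π` and back along `c'`, with a time change. So `xb = ∫_loop u = ψ (c) - ψ (c')`, `ψ = b0 (fRho hB) u`.
PROOFS.
(1) `tg t = ⌊t⌋ + s1 (fract t)` is smooth (as `contDiff_sg`: locally constant near the integers).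
(2) `plg_quad1` : for `0 ≤ t ≤ 2` the polygon of `quad c c'` is `c (π * (tg t / 2))`; `plg_quad2` : for `2 ≤ t ≤ 4` it is `c' (π * (2 - tg t / 2))` (`plg_apply`, `rat_geo`, floor `= 0, 1, 2, 3` (or `4`: `x 0`), `c' 0 = c 0`, `c' π = c π`).
(3) `xb_K1` : `xb_eq`, `K_up`: pull back of `xb` by `P : spK1 → spL` is `KO (Fm^* u)` with `Fm (z, s) = (P z) (4 s)`. `K_split`; first half: `Fm ∘ Rph (s/2) = fRho ∘ fp1.up ∘ Rph (tg (2 s) / 2)` for `0 < s < 1` (`K_congr`), `K_time` (`tg 0 = 0`, `tg 2 = 2`): `Jt 1 - Jt 0 = KO`, `K_up`: `fp1^* b0`. Second half: the same with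
    `1 - tg (2 s)/2`: `Jt 0 - Jt 1`: `- fp2^* b0`.
(4) `ux_K1` : `ub * xb = f^* u * xb + d (lam * xb)` (`d_lam`, `d_xb`, `d_mul`), pull back; `fL ∘ P = foot 0 ∘ fp1`.
-/

set_option autoImplicit false
set_option maxSynthPendingDepth 3
set_option linter.unusedSectionVars false

open Set Filter Topology Metric Real Module
open scoped ContDiff RealInnerProductSpace

noncomputable section

namespace Pool.Agent.Lib.MP_ccbbf6_gt.K7

open Geo L4 L4.ORI L4.FR L5 L5.NEG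

variable {n κ : ℕ} {M : Type} [MetricSpace M] [CompactSpace M] {𝒜 : SDist n M} {δ : ℝ} {k : ℕ}

/-- the time change `i + s ↦ i + s1 s` -/
def tg (t : ℝ) : ℝ := ⌊t⌋ + s1 (Int.fract t)

private theorem KX1_near (i : ℤ) {t : ℝ} (h : |t - i| < 1 / 4) : tg t = i := by
  rw [abs_lt] at h
  unfold tg
  rcases le_or_gt (i : ℝ) t with h1 | h1
  · have h2 : ⌊t⌋ = i := by
      rw [Int.floor_eq_iff]
      exact ⟨h1, by linarith [h.2]⟩
    have h0 := h.2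
    rw [Int.fract, h2, s1_zero (by linarith), add_zero]
  · have h2 : ⌊t⌋ = i - 1 := by
      rw [Int.floor_eq_iff]
      push_cast
      exact ⟨by linarith [h.1], by linarith⟩
    have h0 := h.1
    rw [Int.fract, h2, s1_one (by push_cast; linarith)]
    push_cast
    ring

theorem contDiff_tg : ContDiff ℝ ∞ tg := by
  rw [contDiff_iff_contDiffAt]
  intro t0
  rcases (Int.fract_nonneg t0).lt_or_eq with h | h
  · have h1 : ContDiffAt ℝ ∞ (fun t : ℝ => (⌊t0⌋ : ℝ) + s1 (t - ⌊t0⌋)) t0 :=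
      (contDiff_const.add (contDiff_s1.comp (contDiff_id.sub contDiff_const))).contDiffAt
    refine h1.congr_of_eventuallyEq ?_
    filter_upwards [floor_near h] with t ht
    unfold tg
    rw [Int.fract, ht]
  · have h1 : ContDiffAt ℝ ∞ (fun _ : ℝ => (⌊t0⌋ : ℝ)) t0 := contDiffAt_const
    refine h1.congr_of_eventuallyEq ?_
    have e : t0 = ⌊t0⌋ := by
      have h2 := Int.floor_add_fract t0
      rw [← h, add_zero] at h2
      exact h2.symm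
    filter_upwards [Metric.ball_mem_nhds t0 (show (0 : ℝ) < 1 / 4 by norm_num)] with t ht
    rw [Metric.mem_ball, Real.dist_eq] at ht
    exact KX1_near ⌊t0⌋ (by rw [← e]; exact ht)

theorem tg_int (i : ℤ) : tg i = i := by
  unfold tg
  rw [Int.floor_intCast, Int.fract_intCast, s1_zero (by norm_num), add_zero]

section

variable (hB : Bl M) (b : SBun κ (spG 𝒜) (spF 𝒜)) (hb : ∀ c, b.pi.1 c = (gF hB).1 c) (hδ : 0 < δ) (hδ2 : δ ≤ π / 2)

/-- `K1` as a family of loops -/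
def PK1 : SMap (spK1 hB b) (spL 𝒜 δ) := (plg hB hδ).comp (kapX hB b hb hδ2)

private theorem KX1_val (z : (spK1 hB b).pt) (t : ℝ) (i : ℤ) (hi : ⌊t⌋ = i) :
    ((PK1 hB b hb hδ hδ2).1 z).1 t = rat 𝒜 (quad (z.1.1 : Gs M) z.1.2 ((i : ℤ) : ZMod 4))
      (quad (z.1.1 : Gs M) z.1.2 (((i : ℤ) : ZMod 4) + 1)) (s1 (t - i)) := by
  have h := plg_apply hB hδ ((kapX hB b hb hδ2).1 z) t
  rw [Int.fract, hi] at h
  exact h

private theorem KX1_tg (t : ℝ) (i : ℤ) (hi : ⌊t⌋ = i) : tg t = i + s1 (t - i) := by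
  unfold tg
  rw [Int.fract, hi]

private theorem KX1_z1 : (((0 : ℤ) : ZMod 4) = 0) ∧ (((0 : ℤ) : ZMod 4) + 1 = 1) ∧ (((1 : ℤ) : ZMod 4) = 1) ∧
    (((1 : ℤ) : ZMod 4) + 1 = 2) ∧ (((2 : ℤ) : ZMod 4) = 2) ∧ (((2 : ℤ) : ZMod 4) + 1 = 3) ∧
    (((3 : ℤ) : ZMod 4) = 3) ∧ (((3 : ℤ) : ZMod 4) + 1 = 0) ∧ (((4 : ℤ) : ZMod 4) = 0) := by
  decide

theorem plg_quad1 (z : (spK1 hB b).pt) {t : ℝ} (h0 : 0 ≤ t) (h1 : t ≤ 2) :
    ((PK1 hB b hb hδ hδ2).1 z).1 t = (z.1.1 : Gs M).1 (π * (tg t / 2)) := by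
  obtain ⟨e0, e0', e1, e1', e2, e2', e3, e3', e4⟩ := KX1_z1
  have hp := Real.pi_pos
  rcases lt_or_ge t 1 with h | h
  · have hf : ⌊t⌋ = 0 := by
      rw [Int.floor_eq_iff]
      push_cast
      exact ⟨h0, by linarith⟩
    rw [KX1_val hB b hb hδ hδ2 z t 0 hf, KX1_tg t 0 hf, e0', e0, quad_0, quad_1,
      rat_geo hB _ (by rw [sub_zero, abs_of_pos (by positivity)]; linarith)]
    exact congrArg (z.1.1 : Gs M).1 (by push_cast; ring)
  rcases h1.lt_or_eq with h1 | h1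
  · have hf : ⌊t⌋ = 1 := by
      rw [Int.floor_eq_iff]
      push_cast
      exact ⟨h, by linarith⟩
    rw [KX1_val hB b hb hδ hδ2 z t 1 hf, KX1_tg t 1 hf, e1', e1, quad_1, quad_2,
      rat_geo hB _ (by rw [abs_of_pos (by linarith)]; linarith)]
    exact congrArg (z.1.1 : Gs M).1 (by push_cast; ring)
  · have hf : ⌊t⌋ = 2 := by
      rw [h1]
      exact Int.floor_ofNat 2
    rw [KX1_val hB b hb hδ hδ2 z t 2 hf, KX1_tg t 2 hf, e2', e2, quad_2, quad_3, h1]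
    have e : s1 ((2 : ℝ) - ((2 : ℤ) : ℝ)) = 0 := s1_zero (by push_cast; norm_num)
    rw [e, rat_zero hB]
    exact congrArg (z.1.1 : Gs M).1 (by push_cast; ring)

theorem plg_quad2 (z : (spK1 hB b).pt) {t : ℝ} (h0 : 2 ≤ t) (h1 : t ≤ 4) :
    ((PK1 hB b hb hδ hδ2).1 z).1 t = (z.1.2 : Gs M).1 (π * (2 - tg t / 2)) := by
  obtain ⟨e0, e0', e1, e1', e2, e2', e3, e3', e4⟩ := KX1_z1
  obtain ⟨k0, k1⟩ := K1_ends hB b hb z
  have hp := Real.pi_pos
  rcases lt_or_ge t 3 with h | h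
  · have hf : ⌊t⌋ = 2 := by
      rw [Int.floor_eq_iff]
      push_cast
      exact ⟨h0, by linarith⟩
    rw [KX1_val hB b hb hδ hδ2 z t 2 hf, KX1_tg t 2 hf, e2', e2, quad_2, quad_3, ← k1,
      rat_geo hB _ (by rw [abs_of_neg (by linarith)]; linarith)]
    exact congrArg (z.1.2 : Gs M).1 (by push_cast; ring)
  rcases h1.lt_or_eq with h1 | h1
  · have hf : ⌊t⌋ = 3 := by
      rw [Int.floor_eq_iff]
      push_cast
      exact ⟨h, by linarith⟩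
    rw [KX1_val hB b hb hδ hδ2 z t 3 hf, KX1_tg t 3 hf, e3', e3, quad_3, quad_0, ← k0,
      rat_geo hB _ (by rw [abs_of_neg (by linarith)]; linarith)]
    exact congrArg (z.1.2 : Gs M).1 (by push_cast; ring)
  · have hf : ⌊t⌋ = 4 := by
      rw [h1]
      exact Int.floor_ofNat 4
    rw [KX1_val hB b hb hδ hδ2 z t 4 hf, KX1_tg t 4 hf, e4, quad_0, h1]
    have e : s1 ((4 : ℝ) - ((4 : ℤ) : ℝ)) = 0 := s1_zero (by push_cast; norm_num)
    rw [e, rat_zero hB, ← k0]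
    exact congrArg (z.1.2 : Gs M).1 (by push_cast; ring)

private def KX1_f1 (s : ℝ) : ℝ := tg (2 * s) / 2

private def KX1_f2 (s : ℝ) : ℝ := 2 - tg (2 + 2 * s) / 2

private theorem KX1_c1 : ContDiff ℝ ∞ KX1_f1 :=
  (contDiff_tg.comp (contDiff_const.mul contDiff_id)).div_const 2

private theorem KX1_c2 : ContDiff ℝ ∞ KX1_f2 :=
  contDiff_const.sub ((contDiff_tg.comp (contDiff_const.add (contDiff_const.mul contDiff_id))).div_const 2)

private theorem KX1_f10 : KX1_f1 0 = 0 := by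
  have h := tg_int 0
  rw [Int.cast_zero] at h
  unfold KX1_f1
  rw [mul_zero, h, zero_div]

private theorem KX1_f11 : KX1_f1 1 = 1 := by
  have h := tg_int 2
  push_cast at h
  unfold KX1_f1
  rw [mul_one, h]
  norm_num

private theorem KX1_f20 : KX1_f2 0 = 1 := by
  have h := tg_int 2
  push_cast at h
  unfold KX1_f2
  rw [mul_zero, add_zero, h]
  norm_num

private theorem KX1_f21 : KX1_f2 1 = 0 := by
  have h := tg_int 4
  push_cast at h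
  unfold KX1_f2
  rw [show (2 : ℝ) + 2 * 1 = 4 by norm_num, h]
  norm_num

/-- **`xb` on `K1`** -/
theorem xb_K1 (u : Om (spM 𝒜)) : (PK1 hB b hb hδ hδ2).pull (xb (cL 𝒜 δ) (fL 𝒜 δ) u) = -tau b (gF hB) (b0 (fRho hB) u) := by
  obtain ⟨P, hP⟩ : ∃ P, P = PK1 hB b hb hδ hδ2 := ⟨_, rfl⟩
  rw [← hP]
  have e0 : P.pull (xb (cL 𝒜 δ) (fL 𝒜 δ) u) = KO _ ((((fL 𝒜 δ).comp (cL 𝒜 δ).a).comp P.up).pull u) := by
    rw [xb_eq, ← K_up, pull_comp, pull_comp]
  have h1 : KO _ ((Rph (spK1 hB b) (contDiff_mulc (1 / 2))).pull ((((fL 𝒜 δ).comp (cL 𝒜 δ).a).comp P.up).pull u)) =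
      (fp1 (gF hB) b.pi).pull (b0 (fRho hB) u) := by
    have e1 : KO _ (((((fL 𝒜 δ).comp (cL 𝒜 δ).a).comp P.up).comp (Rph (spK1 hB b) (contDiff_mulc (1 / 2)))).pull u) =
        KO _ (((fRho hB).comp ((fp1 (gF hB) b.pi).up.comp (Rph (spK1 hB b) KX1_c1))).pull u) := by
      refine K_congr (fun z s hs0 hs1 => ?_) u
      show ((P.1 z).1 : ℝ → M) (0 + 4 * (s * (1 / 2))) = (z.1.1 : Gs M).1 (π * (tg (2 * s) / 2))
      rw [show 0 + 4 * (s * (1 / 2)) = 2 * s by ring, hP]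
      exact plg_quad1 hB b hb hδ hδ2 z (by linarith) (by linarith)
    rw [← pull_comp, e1, pull_comp, pull_comp, K_time, KX1_f10, KX1_f11, Jt_one, Jt_zero, sub_zero]
    rfl
  have h2 : KO _ ((Rph (spK1 hB b) (φ := fun s => 1 / 2 + s * (1 / 2)) (contDiff_const.add (contDiff_mulc _))).pull
      ((((fL 𝒜 δ).comp (cL 𝒜 δ).a).comp P.up).pull u)) = -(fp2 (gF hB) b.pi).pull (b0 (fRho hB) u) := by
    have e1 : KO _ (((((fL 𝒜 δ).comp (cL 𝒜 δ).a).comp P.up).comp (Rph (spK1 hB b) (φ := fun s => 1 / 2 + s * (1 / 2))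
        (contDiff_const.add (contDiff_mulc _)))).pull u) =
        KO _ (((fRho hB).comp ((fp2 (gF hB) b.pi).up.comp (Rph (spK1 hB b) KX1_c2))).pull u) := by
      refine K_congr (fun z s hs0 hs1 => ?_) u
      show ((P.1 z).1 : ℝ → M) (0 + 4 * (1 / 2 + s * (1 / 2))) = (z.1.2 : Gs M).1 (π * (2 - tg (2 + 2 * s) / 2))
      rw [show 0 + 4 * (1 / 2 + s * (1 / 2)) = 2 + 2 * s by ring, hP]
      exact plg_quad2 hB b hb hδ hδ2 z (by linarith) (by linarith)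
    rw [← pull_comp, e1, pull_comp, pull_comp, K_time, KX1_f20, KX1_f21, Jt_one, Jt_zero, zero_sub]
    rfl
  rw [e0, K_split, h1, h2]
  unfold tau
  abel

/-- **`ub xb` on `K1`** -/
theorem ux_K1 {u : Om (spM 𝒜)} {q : ℕ} (Du : Deg (2 * q + 2) u) (du : dO _ u = 0) : ∃ ρ : Om (spK1 hB b), Deg (4 * q + 2) ρ ∧
    (PK1 hB b hb hδ hδ2).pull (ub (cL 𝒜 δ) (fL 𝒜 δ) u * xb (cL 𝒜 δ) (fL 𝒜 δ) u) =
      -((fp1 (gF hB) b.pi).pull ((foot hB 0).pull u) * tau b (gF hB) (b0 (fRho hB) u)) + dO _ ρ := by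
  obtain ⟨P, hP⟩ : ∃ P, P = PK1 hB b hb hδ hδ2 := ⟨_, rfl⟩
  refine ⟨P.pull (lam (cL 𝒜 δ) (fL 𝒜 δ) u * xb (cL 𝒜 δ) (fL 𝒜 δ) u), ?_, ?_⟩
  · have h := Deg_pull P (Deg_mul (Deg_lam (c := cL 𝒜 δ) (f := fL 𝒜 δ) Du) (Deg_xb (c := cL 𝒜 δ) (f := fL 𝒜 δ) Du))
    rwa [show 2 * q + 1 + (2 * q + 1) = 4 * q + 2 by ring] at h
  · have hx := xb_K1 hB b hb hδ hδ2 u
    have e : (fL 𝒜 δ).comp P = (foot hB 0).comp (fp1 (gF hB) b.pi) := SMap_ext fun z => by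
      show ((P.1 z).1 : ℝ → M) 0 = (z.1.1 : Gs M).1 0
      rw [hP, plg_quad1 hB b hb hδ hδ2 z le_rfl (by norm_num)]
      have h := tg_int 0
      rw [Int.cast_zero] at h
      rw [h, zero_div, mul_zero]
    rw [← hP] at hx ⊢
    rw [pull_d, d_mul, d_lam Du du, d_xb du, mul_zero, add_zero, ← pull_comp, ← e, pull_comp, map_mul, map_mul, map_sub,
      hx]
    noncomm_ring

end

end Pool.Agent.Lib.MP_ccbbf6_gt.K7
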