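import Pool.Agent.Lib.MP_ccbbf6_gt.K7.HR
import Pool.Agent.Lib.MP_ccbbf6_gt.L5.PHI01

/-!
# `κ = 7`, block B1: peeling (helper25)

`L` with a circle action `c`, `k : K → L` the constant loops. `T` closed, basic, of degree `2 m - 1`, zero on `K`.
If every closed form of degree `2 j + 1 < 2 m - 1 + 2`, zero on `K`, is a multiple of `y j` modulo `d (forms which vanish on K)`
then on every `S^1`-space over `L` with a connection `A`, `e = dA`:
`T = ∑ s_j e^(m - 1 - j) y_j + d η`, `η = etaV l g A` basic, natural, zero on constant loops.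
-/

set_option autoImplicit false
set_option maxSynthPendingDepth 3

open Set Filter Topology MeasureTheory
open scoped TensorProduct ContDiff

noncomputable section

namespace Pool.Agent.Lib.MP_ccbbf6_gt.K7

open L4 L4.FR L5

variable {X Y Y' Z M K W : Space} {k l n N : ℕ} {i j : ℤ}

/-- the natural form `∑ (dA)^i (g^* E_i - A g^* T_(i+1))` -/
def etaV (l : List (Om X × Om X)) (g : SMap Y X) (A : Om Y) : Om Y := match l with
  | [] => 0
  | p :: l => (g.pull p.1 - A * g.pull p.2) + dO Y A * etaV l g A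

theorem etaV_nat (l : List (Om X × Om X)) (g : SMap Y X) (A : Om Y) (t : SMap Y' Y) :
    etaV l (g.comp t) (t.pull A) = t.pull (etaV l g A) := by
  induction l with
  | nil => exact (map_zero _).symm
  | cons p l ih =>
    unfold etaV
    rw [ih, map_add, map_sub, map_mul, map_mul, pull_d, pull_comp, pull_comp]

theorem etaV_const {l : List (Om X × Om X)} {k : SMap K X} (hl : ∀ p ∈ l, k.pull p.1 = 0 ∧ k.pull p.2 = 0)
    (g : SMap Y X) (A : Om Y) {t : SMap W Y} {t0 : SMap W K} (ht : ∀ x, g.1 (t.1 x) = k.1 (t0.1 x)) :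
    t.pull (etaV l g A) = 0 := by
  have e : ∀ {x : Om X}, k.pull x = 0 → t.pull (g.pull x) = 0 := fun {x} hx => by
    rw [← pull_comp, SMap_ext (f := g.comp t) (g := k.comp t0) ht, pull_comp, hx, map_zero]
  induction l with
  | nil => exact map_zero _
  | cons p l ih =>
    have h1 := hl p List.mem_cons_self
    unfold etaV
    rw [map_add, map_sub, map_mul, map_mul, e h1.1, e h1.2, ih fun q hq => hl q (List.mem_cons_of_mem p hq)]
    rw [mul_zero, mul_zero, sub_zero, add_zero]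

theorem DZ_pow {θ : Om X} (h : DZ j θ) (n : ℕ) : DZ (n * j) (θ ^ n) := by
  induction n with
  | zero => rw [pow_zero]; exact DZ_one.cast (by simp)
  | succ n ih => rw [pow_succ]; exact (DZ_mul ih h).cast (by push_cast; ring)

/-- the output of the peeling process -/
def PeelOut (c : Circ X) (k : SMap K X) (y : ℕ → Om X) (m : ℕ) (T : Om X) (s : ℕ → ℝ) (l : List (Om X × Om X)) : Prop :=
  (∀ p ∈ l, k.pull p.1 = 0 ∧ k.pull p.2 = 0) ∧
      ∀ {Y : Space} (c' : Circ Y) (g : SMap Y X) (_ : Eqv c' c g) (A : Om Y) (_ : iO c' A = 1) (_ : Deg 1 A)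
        (_ : iO c' (dO Y A) = 0), Bas c' (etaV l g A) ∧ DZ (2 * m - 2) (etaV l g A) ∧
        dO Y (etaV l g A) = g.pull T - ∑ j ∈ Finset.range m, s j • (dO Y A ^ (m - 1 - j) * g.pull (y j))

/-- **one step of peeling** -/
theorem peel_succ {c : Circ X} {k : SMap K X} {y : ℕ → Om X} {m : ℕ} (by_ : Bas c (y m))
    (hvan : ∀ w : Om X, DZ (2 * m + 1) w → dO X w = 0 → k.pull w = 0 → ∃ s : ℝ, RX k (2 * m + 1) (w - s • y m))
    (hk : ∀ x s, c.a.1 (k.1 x, s) = k.1 x)
    (ih : ∀ T : Om X, DZ (2 * m - 1) T → Bas c T → dO X T = 0 → k.pull T = 0 → ∃ s l, PeelOut c k y m T s l)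
    {T : Om X} (hT : DZ (2 * m + 1) T) (bT : Bas c T) (dT : dO X T = 0) (kT : k.pull T = 0) :
    ∃ (s : ℕ → ℝ) (l : List (Om X × Om X)) (E0 : Om X), PeelOut c k y (m + 1) T s l ∧ DZ (2 * m) E0 ∧ k.pull E0 = 0 ∧
      dO X E0 = T - s m • y m ∧
      ∀ {Y : Space} (c' : Circ Y) (g : SMap Y X) (_ : Eqv c' c g) (A : Om Y) (_ : iO c' A = 1) (_ : Deg 1 A)
        (_ : iO c' (dO Y A) = 0), ∃ ρ : Om Y, DZ (2 * m - 1) ρ ∧ etaV l g A - g.pull E0 = dO Y ρ -
          ∑ j ∈ Finset.range m, s j • (A * (dO Y A ^ (m - 1 - j) * g.pull (y j))) := by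
  obtain ⟨s, ζ, hζ, kζ, dζ⟩ := hvan T hT dT kT
  have hζ' : DZ (2 * m) ζ := hζ.cast (by ring)
  have e : c.a.comp k.up = k.comp (pO K) := SMap_ext fun z => hk z.1 z.2
  have kA : k.pull (AO c ζ) = 0 := by
    rw [AO_eq, ← Q_up, ← pull_comp, e, pull_comp, kζ, map_zero, map_zero]
  have kI : k.pull (iO c (AO c ζ)) = 0 := by
    rw [i_A, ← K_up, ← pull_comp, e, pull_comp, kζ, map_zero, map_zero]
  have bw : Bas c (T - s • y m) := Bas_sub _ bT (Bas_smul _ _ by_)
  have dT' : dO X (iO c (AO c ζ)) = 0 := by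
    rw [cartan c (A_inv c ζ), A_d, dζ, A_bas c bw, Bas_i c bw, neg_zero]
  obtain ⟨s', l, hl, H⟩ := ih (iO c (AO c ζ)) (DZ_i c (DZ_A c hζ')) (Bas_closed c (i_i c _) dT') dT' kI
  have hE : dO X (AO c ζ) = T - s • y m := by rw [A_d, dζ, A_bas c bw]
  refine ⟨fun j => if j = m then s else s' j, (AO c ζ, iO c (AO c ζ)) :: l, AO c ζ, ⟨fun p hp => ?_, ?_⟩, DZ_A c hζ', kA, ?_, ?_⟩
  · rcases List.mem_cons.1 hp with rfl | hp
    · exact ⟨kA, kI⟩
    · exact hl p hp
  · intro Y c' g hg A hA DA hA2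
    obtain ⟨h1, h2, h3⟩ := H c' g hg A hA DA hA2
    have hw : Bas c' (g.pull (T - s • y m)) := Bas_nat hg bw
    have hx : dO Y (g.pull ζ) = g.pull (T - s • y m) := by rw [pull_d, dζ]
    obtain ⟨_, _, h4, h5⟩ := bas_prim hA hA2 hw hx
    rw [A_nat hg, i_nat hg] at h4 h5
    have be : Bas c' (dO Y A) := Bas_of c' hA2 (by rw [d_d, map_zero])
    have De : DZ 2 (dO Y A) := DZ_d (DZ_of DA rfl)
    refine ⟨Bas_add _ h4 (Bas_mul _ be h1), ?_, ?_⟩
    · refine DZ_add (DZ_sub ((DZ_pull g (DZ_A c hζ')).cast (by push_cast; ring)) ?_) ?_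
      · exact (DZ_mul (DZ_of DA rfl) (DZ_pull g (DZ_i c (DZ_A c hζ')))).cast (by push_cast; ring)
      · exact (DZ_mul De h2).cast (by push_cast; ring)
    · have hs : sO Y (dO Y A) = dO Y A := Deg_even (j := 1) (Deg_d DA)
      unfold etaV
      rw [map_add, d_mul, d_d, zero_mul, zero_add, hs, h3, Finset.sum_range_succ]
      dsimp only
      rw [if_pos rfl, Nat.add_sub_cancel, Nat.sub_self, pow_zero, one_mul, mul_sub, Finset.mul_sum]
      have h6 : ∀ j ∈ Finset.range m, (if j = m then s else s' j) • (dO Y A ^ (m - j) * g.pull (y j)) =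
          dO Y A * s' j • (dO Y A ^ (m - 1 - j) * g.pull (y j)) := fun j hj => by
        have hj' := Finset.mem_range.1 hj
        rw [if_neg hj'.ne, mul_smul_comm, ← mul_assoc, ← pow_succ', show m - 1 - j + 1 = m - j by omega]
      rw [Finset.sum_congr rfl h6]
      have h7 := h5
      rw [map_sub, map_smul] at h7
      have h8 : dO Y (g.pull (AO c ζ) - A * g.pull (iO c (AO c ζ))) =
          g.pull T - s • g.pull (y m) - dO Y A * g.pull (iO c (AO c ζ)) := by
        rw [h7]; abel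
      rw [h8]
      abel
  · rw [hE]
    dsimp only
    rw [if_pos rfl]
  · intro Y c' g hg A hA DA hA2
    obtain ⟨h1, h2, h3⟩ := H c' g hg A hA DA hA2
    refine ⟨A * etaV l g A, (DZ_mul (DZ_of DA rfl) h2).cast (by push_cast; ring), ?_⟩
    have hs : sO Y A = -A := Deg_odd (j := 0) DA
    have h6 : ∀ j ∈ Finset.range m, (if j = m then s else s' j) • (A * (dO Y A ^ (m - 1 - j) * g.pull (y j))) =
        A * s' j • (dO Y A ^ (m - 1 - j) * g.pull (y j)) := fun j hj => by
      rw [if_neg (Finset.mem_range.1 hj).ne, mul_smul_comm]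
    have h9 : etaV ((AO c ζ, iO c (AO c ζ)) :: l) g A =
        (g.pull (AO c ζ) - A * g.pull (iO c (AO c ζ))) + dO Y A * etaV l g A := rfl
    rw [h9]
    dsimp only
    rw [Finset.sum_congr rfl h6, ← Finset.mul_sum, d_mul, hs, h3, neg_mul, mul_sub]
    abel

/-- **Peeling** -/
theorem peel {c : Circ X} {k : SMap K X} {y : ℕ → Om X} (m : ℕ) (by_ : ∀ j < m, Bas c (y j))
    (hvan : ∀ j < m, ∀ w : Om X, DZ (2 * j + 1) w → dO X w = 0 → k.pull w = 0 →
      ∃ s : ℝ, RX k (2 * j + 1) (w - s • y j))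
    (hk : ∀ x s, c.a.1 (k.1 x, s) = k.1 x)
    {T : Om X} (hT : DZ (2 * m - 1) T) (bT : Bas c T) (dT : dO X T = 0) (kT : k.pull T = 0) :
    ∃ s l, PeelOut c k y m T s l := by
  induction m generalizing T with
  | zero =>
    have hT0 : T = 0 := hT.2 (by norm_num)
    refine ⟨fun _ => 0, [], fun p hp => absurd hp List.not_mem_nil, fun c' g _ A _ _ _ => ⟨?_, DZ_zero, ?_⟩⟩
    · change Bas c' (0 : Om _)
      rw [← zero_smul ℝ (1 : Om _)]
      exact Bas_smul _ _ (Bas_one _)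
    · rw [hT0, map_zero, Finset.range_zero, Finset.sum_empty, sub_zero]
      exact map_zero _
  | succ m ih =>
    obtain ⟨s, l, _, h, _⟩ := peel_succ (by_ m (Nat.lt_succ_self m)) (hvan m (Nat.lt_succ_self m)) hk
      (fun T hT bT dT kT => ih (fun j hj => by_ j (Nat.lt_succ_of_lt hj)) (fun j hj => hvan j (Nat.lt_succ_of_lt hj)) hT bT dT kT)
      (hT.cast (by push_cast; ring)) bT dT kT
    exact ⟨s, l, h⟩

end Pool.Agent.Lib.MP_ccbbf6_gt.K7
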