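import Pool.Agent.Lib.MP_ccbbf6_gt.K7.CH1
import Pool.Agent.Lib.MP_ccbbf6_gt.K7.KX1
import Pool.Agent.Lib.MP_ccbbf6_gt.K7.PE

/-!
# `κ = 7`, block B: **the vanishing theorem** (helper25)

On the space `spL 𝒜 δ` of loops whose quarter arcs have length at most `π - δ`:
`TT = k1 e^7 ub xb + k2 e^11 xb + d η` on every `S^1`-space over `spL` with a connection, `η = etaV l g A` basic, natural, zero on constant loops.
-/

set_option autoImplicit false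
set_option maxSynthPendingDepth 3
set_option linter.unusedSectionVars false

open Set Filter Topology Metric Real Module
open scoped ContDiff RealInnerProductSpace

noncomputable section

namespace Pool.Agent.Lib.MP_ccbbf6_gt.K7

open Geo L4 L4.ORI L4.FR L5 L5.NEG

variable {n : ℕ} {M : Type} [MetricSpace M] [CompactSpace M] {𝒜 : SDist n M} {δ : ℝ} {k : ℕ}

/-- the two forms which generate the odd cohomology of the space of short loops relative to the constant ones -/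
def yL (𝒜 : SDist n M) (δ : ℝ) (u : Om (spM 𝒜)) (m : ℕ) : Om (spL 𝒜 δ) :=
  if m = 7 then ub (cL 𝒜 δ) (fL 𝒜 δ) u * xb (cL 𝒜 δ) (fL 𝒜 δ) u else if m = 3 then xb (cL 𝒜 δ) (fL 𝒜 δ) u else 0

/-- the trivial action -/
def trC (X : Space) : Circ X where
  a := pO X
  zero _ := rfl
  add _ _ _ := rfl
  one _ _ := rfl

theorem Eqv_kL (h : δ ≤ π) : Eqv (trC (spM 𝒜)) (cL 𝒜 δ) (kL 𝒜 h) := fun _ _ => rfl

theorem kL_xb (h : δ ≤ π) (u : Om (spM 𝒜)) : (kL 𝒜 h).pull (xb (cL 𝒜 δ) (fL 𝒜 δ) u) = 0 := by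
  rw [← xb_nat (Eqv_kL h)]
  exact xb_const fun _ _ => rfl

theorem kL_TT (h : δ ≤ π) (u : Om (spM 𝒜)) : (kL 𝒜 h).pull (TT (cL 𝒜 δ) (fL 𝒜 δ) u) = 0 := by
  rw [← TT_nat (Eqv_kL h)]
  exact TT_const fun _ _ => rfl

section

variable (hB : Bl M) (D : CohD 15 7 2 (spM 𝒜) (spG 𝒜) (spF 𝒜)) (hf : D.fR = fRho hB) (hg : D.g = gF hB)

include hg in
theorem hbV' (c : (spG 𝒜).pt) : D.bV.pi.1 c = (gF hB).1 c := by
  rw [D.hbV, hg]

include hf in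
theorem RX_step (hk : 𝒜.HK 7) (hδ : 0 < δ) (hδ4 : δ ≤ π / 4) (h : δ ≤ π) {j : ℤ} {w : Om (spL 𝒜 δ)} (hw : DZ j w)
    (dw : dO _ w = 0) (kw : (kL 𝒜 h).pull w = 0) {μ : Om (spG 𝒜)} (hμ : DZ (j - 7 - 1) μ)
    (dμ : dO _ μ = (D.bV.pull (gF hB)).PI
      ((PK1 hB D.bV (hbV' hB D hg) hδ (hδ4.trans (by linarith [pi_pos]))).pull w)) : RX (kL 𝒜 h) j w := by
  have Dψ : Deg 7 (b0 (fRho hB) D.u) := by rw [← hf]; exact D.Deg_psi
  have h1 : D.bV.PI (b0 (fRho hB) D.u) = 1 := by rw [← hf]; exact D.V1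
  have dψ : dO _ (b0 (fRho hB) D.u) = (gF hB).pull (D.p2.pull D.u - D.p1.pull D.u) := by
    have h2 := D.d_psi
    unfold CohD.psi at h2
    rw [← hf, h2, map_sub, ← hg, D.g_p1, D.g_p2, ← D.x_def, ← D.y_def]
  obtain ⟨η, hη, H⟩ := RX_small hB D.bV (hbV' hB D hg) hk (by norm_num) (by decide) Dψ h1 dψ hδ hδ4 h
  refine RX.retract (i := plg hB hδ) (b := smp 𝒜 δ) (rel_L hB hδ h) (k' := kX 𝒜 h) (fun x : M => smp_kL h x) hw dw ?_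
  refine RX_bir hB hδ h hη (DZ_pull _ hw) (by rw [pull_d, dw, map_zero]) ?_
  refine H j _ (DZ_pull _ hw) (by rw [pull_d, dw, map_zero]) ?_ μ hμ ?_
  · rw [← pull_comp, SMap_ext (f := (plg hB hδ).comp (kX 𝒜 h)) (g := kL 𝒜 h) (fun x : M => plg_kX hB hδ h x), kw]
  · rw [dμ, ← pull_comp]
    rfl

include hf in
theorem foot_x : (foot hB 0).pull D.u = D.x := by
  rw [D.x_def]
  have e : foot hB 0 = D.foot := SMap_ext fun c => by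
    show (c : Gs M).1 0 = (D.fR.1 (c, 0) : M)
    rw [hf]
    show (c : Gs M).1 0 = (c : Gs M).1 (π * 0)
    rw [mul_zero]
  rw [e]

theorem PI_zero' {N : ℕ} {S B : Space} (b : SBun N S B) : b.PI 0 = 0 := by
  have := b.PI_smul 0 0
  rwa [zero_smul, zero_smul] at this

include hf hg in
/-- **the odd cohomology of the space of short loops, relative to the constant ones** -/
theorem hvanL (hk : 𝒜.HK 7) (hδ : 0 < δ) (hδ4 : δ ≤ π / 4) (h : δ ≤ π) (cG : ∀ θ : Om (spG 𝒜), Deg 0 θ → dO _ θ = 0 →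
    ∃ c : ℝ, θ = algebraMap ℝ (Om (spG 𝒜)) c) (p0 : (spM 𝒜).Plot 0) {m : ℕ} (hm : m < 15) {w : Om (spL 𝒜 δ)}
    (hw : DZ (2 * m + 1) w) (dw : dO _ w = 0) (kw : (kL 𝒜 h).pull w = 0) :
    ∃ s : ℝ, RX (kL 𝒜 h) (2 * m + 1) (w - s • yL 𝒜 δ D.u m) := by
  have hδ2 : δ ≤ π / 2 := hδ4.trans (by linarith [pi_pos])
  obtain ⟨P, hP⟩ : ∃ P, P = PK1 hB D.bV (hbV' hB D hg) hδ hδ2 := ⟨_, rfl⟩
  obtain ⟨w1, hw1⟩ : ∃ w1, w1 = (D.bV.pull (gF hB)).PI (P.pull w) := ⟨_, rfl⟩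
  have Dw1 : DZ (2 * m - 6) w1 := by
    rw [hw1]
    exact (DZ_PI _ (DZ_pull _ hw)).cast (by push_cast; ring)
  have dw1 : dO _ w1 = 0 := by
    rw [hw1, SBun.PI_d, pull_d, dw, map_zero, PI_zero', smul_zero]
  have h7 : (2 : ℕ) * 3 + 2 = 7 + 1 := by norm_num
  have Du : Deg (2 * 3 + 2) D.u := by rw [h7]; exact D.Du
  -- the case without correction
  have key : ∀ μ : Om (spG 𝒜), DZ (2 * m - 7) μ → dO _ μ = w1 → yL 𝒜 δ D.u m = 0 →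
      ∃ s : ℝ, RX (kL 𝒜 h) (2 * m + 1) (w - s • yL 𝒜 δ D.u m) := fun μ hμ dμ hy => by
    refine ⟨0, ?_⟩
    rw [zero_smul, sub_zero]
    refine RX_step hB D hf hg hk hδ hδ4 h hw dw kw (μ := μ) (hμ.cast (by ring)) ?_
    rw [dμ, hw1, hP]
  have y0 : m ≠ 7 → m ≠ 3 → yL 𝒜 δ D.u m = 0 := fun h1 h2 => by
    unfold yL
    rw [if_neg h1, if_neg h2]
  rcases Nat.lt_or_ge m 3 with h3 | h3
  · refine key 0 DZ_zero ?_ (y0 (by omega) (by omega))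
    rw [Dw1.2 (by omega), map_zero]
  rcases eq_or_ne m 3 with e3 | e3
  · subst e3
    obtain ⟨r, hr⟩ := cG w1 (Dw1.deg (by norm_num)) dw1
    have hy : yL 𝒜 δ D.u 3 = xb (cL 𝒜 δ) (fL 𝒜 δ) D.u := by
      unfold yL
      rw [if_neg (by norm_num), if_pos rfl]
    have h1 : D.bV.PI (b0 (fRho hB) D.u) = 1 := by rw [← hf]; exact D.V1
    have hx := xb_K1 hB D.bV (hbV' hB D hg) hδ hδ2 D.u
    rw [← hP] at hx
    refine ⟨-r, ?_⟩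
    rw [hy]
    have Dx : DZ (2 * (3 : ℕ) + 1) (xb (cL 𝒜 δ) (fL 𝒜 δ) D.u) := DZ_of (Deg_xb Du) (by norm_num)
    refine RX_step hB D hf hg hk hδ hδ4 h (DZ_sub hw (DZ_smul _ Dx)) (by rw [map_sub, map_smul, dw, d_xb D.du, smul_zero, sub_zero])
      ?_ (μ := 0) DZ_zero ?_
    · rw [map_sub, map_smul, kw, kL_xb, smul_zero, sub_zero]
    · rw [← hP, map_zero, map_sub, map_smul, hx, smul_neg, neg_smul, neg_neg, sub_eq_add_neg, SBun.PI_add, ← hw1, hr,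
        ← neg_one_smul ℝ (r • tau D.bV (gF hB) (b0 (fRho hB) D.u)), SBun.PI_smul, SBun.PI_smul, PI_tau (by norm_num) h1,
        neg_one_smul, Algebra.algebraMap_eq_smul_one, add_neg_cancel]
  rcases eq_or_ne m 7 with e7 | e7
  · subst e7
    obtain ⟨r, η, Dη, e⟩ := D.H3_x (Dw1.deg (i := 7 + 1) (by norm_num)) dw1
    have hy : yL 𝒜 δ D.u 7 = ub (cL 𝒜 δ) (fL 𝒜 δ) D.u * xb (cL 𝒜 δ) (fL 𝒜 δ) D.u := by
      unfold yL
      rw [if_pos rfl]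
    have h1 : D.bV.PI (b0 (fRho hB) D.u) = 1 := by rw [← hf]; exact D.V1
    obtain ⟨ρ, Dρ, hx⟩ := ux_K1 hB D.bV (hbV' hB D hg) hδ hδ2 Du D.du
    rw [← hP, foot_x hB D hf] at hx
    have hPy : (D.bV.pull (gF hB)).PI (P.pull (yL 𝒜 δ D.u 7)) = -D.x - dO _ ((D.bV.pull (gF hB)).PI ρ) := by
      have h2 : (D.bV.pull (gF hB)).PI ((fp1 (gF hB) D.bV.pi).pull D.x * tau D.bV (gF hB) (b0 (fRho hB) D.u)) = D.x := by
        have h3 := (D.bV.pull (gF hB)).PI_mul D.x (tau D.bV (gF hB) (b0 (fRho hB) D.u))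
        rw [PI_tau (by norm_num) h1, mul_one] at h3
        have h4 : ∀ N : ℕ, (sO (spG 𝒜))^[N] D.x = D.x := fun N => by
          induction N with
          | zero => rfl
          | succ N ih => rw [Function.iterate_succ_apply, D.sx, ih]
        rw [h4] at h3
        exact h3
      rw [hy, hx, SBun.PI_add, ← neg_one_smul ℝ, SBun.PI_smul, h2, SBun.PI_d, neg_one_smul]
      have h5 : (-1 : ℝ) ^ 7 = -1 := by norm_num
      rw [h5, neg_one_smul, sub_neg_eq_add]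
    refine ⟨-r, ?_⟩
    have Dy : DZ (2 * (7 : ℕ) + 1) (yL 𝒜 δ D.u 7) := by
      rw [hy]
      exact DZ_of (Deg_mul (Deg_ub Du) (Deg_xb Du)) (by norm_num)
    have dy : dO _ (yL 𝒜 δ D.u 7) = 0 := by rw [hy, d_ux Du D.du]
    refine RX_step hB D hf hg hk hδ hδ4 h (DZ_sub hw (DZ_smul _ Dy)) (by rw [map_sub, map_smul, dw, dy, smul_zero, sub_zero])
      ?_ (μ := η - r • (D.bV.pull (gF hB)).PI ρ) ?_ ?_
    · rw [map_sub, map_smul, kw, hy, map_mul, kL_xb, mul_zero, smul_zero, sub_zero]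
    · refine (DZ_sub (DZ_of Dη (j := 7) (by norm_num)) (DZ_smul _ ((DZ_PI _ (DZ_of Dρ rfl)).cast ?_))).cast ?_
      · norm_num
      · norm_num
    · have e1 : P.pull (w - -r • yL 𝒜 δ D.u 7) = P.pull w + r • P.pull (yL 𝒜 δ D.u 7) := by
        rw [map_sub, map_smul, neg_smul, sub_neg_eq_add]
      rw [← hP, e1, SBun.PI_add, SBun.PI_smul, hPy, ← hw1, e, map_sub (dO _), map_smul (dO _), smul_sub, smul_neg]
      abel
  · obtain ⟨i, rfl⟩ : ∃ i, m = i + 3 := ⟨m - 3, by omega⟩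
    obtain ⟨η, Dη, e⟩ := CH1 D p0 (i := i) (by omega) (by omega) (by omega) (Dw1.deg (by push_cast; ring)) dw1
    refine key η (Dη.cast (by push_cast; ring)) e.symm (y0 e7 e3)

include hf hg in
/-- **the vanishing theorem** -/
theorem VAN (hk : 𝒜.HK 7) (hδ : 0 < δ) (hδ4 : δ ≤ π / 4) (h : δ ≤ π) (cG : ∀ θ : Om (spG 𝒜), Deg 0 θ → dO _ θ = 0 →
    ∃ c : ℝ, θ = algebraMap ℝ (Om (spG 𝒜)) c) (p0 : (spM 𝒜).Plot 0) :
    ∃ (k1 k2 : ℝ) (l : List (Om (spL 𝒜 δ) × Om (spL 𝒜 δ))) (E0 : Om (spL 𝒜 δ)),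
      (∀ p ∈ l, (kL 𝒜 h).pull p.1 = 0 ∧ (kL 𝒜 h).pull p.2 = 0) ∧ Deg 28 E0 ∧ (kL 𝒜 h).pull E0 = 0 ∧
      dO _ E0 = TT (cL 𝒜 δ) (fL 𝒜 δ) D.u ∧
      ∀ {Y : Space} (c' : Circ Y) (g : SMap Y (spL 𝒜 δ)) (_ : Eqv c' (cL 𝒜 δ) g) (A : Om Y) (_ : iO c' A = 1) (_ : Deg 1 A)
        (_ : iO c' (dO Y A) = 0), Bas c' (etaV l g A) ∧ Deg 28 (etaV l g A) ∧
        dO Y (etaV l g A) = g.pull (TT (cL 𝒜 δ) (fL 𝒜 δ) D.u) -
          k1 • (dO Y A ^ 7 * g.pull (ub (cL 𝒜 δ) (fL 𝒜 δ) D.u * xb (cL 𝒜 δ) (fL 𝒜 δ) D.u)) -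
          k2 • (dO Y A ^ 11 * g.pull (xb (cL 𝒜 δ) (fL 𝒜 δ) D.u)) ∧
        ∃ ρ : Om Y, Deg 27 ρ ∧ etaV l g A +
          k1 • (A * (dO Y A ^ 6 * g.pull (ub (cL 𝒜 δ) (fL 𝒜 δ) D.u * xb (cL 𝒜 δ) (fL 𝒜 δ) D.u))) +
          k2 • (A * (dO Y A ^ 10 * g.pull (xb (cL 𝒜 δ) (fL 𝒜 δ) D.u))) = g.pull E0 + dO Y ρ := by
  have h7 : (2 : ℕ) * 3 + 2 = 7 + 1 := by norm_num
  have Du : Deg (2 * 3 + 2) D.u := by rw [h7]; exact D.Du
  have u3 : D.u ^ 3 = 0 := D.un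
  have hy : ∀ j, Bas (cL 𝒜 δ) (yL 𝒜 δ D.u j) ∧ dO _ (yL 𝒜 δ D.u j) = 0 := fun j => by
    unfold yL
    split_ifs
    · exact ⟨Bas_ux Du D.du, d_ux Du D.du⟩
    · exact ⟨Bas_xb D.du, d_xb D.du⟩
    · refine ⟨?_, map_zero _⟩
      rw [← zero_smul ℝ (1 : Om (spL 𝒜 δ))]
      exact Bas_smul _ _ (Bas_one _)
  have hv : ∀ j : ℕ, j < 15 → ∀ w : Om (spL 𝒜 δ), DZ (2 * j + 1) w → dO _ w = 0 → (kL 𝒜 h).pull w = 0 →
      ∃ s : ℝ, RX (kL 𝒜 h) (2 * j + 1) (w - s • yL 𝒜 δ D.u j) := fun j hj w hw dw kw =>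
    hvanL hB D hf hg hk hδ hδ4 h cG p0 hj hw dw kw
  obtain ⟨s, l, E0, ⟨hl, H⟩, DE, kE0, dE, H'⟩ := peel_succ (c := cL 𝒜 δ) (k := kL 𝒜 h) (y := yL 𝒜 δ D.u) (m := 14) (hy 14).1
    (hv 14 (by norm_num)) (fun x s => rfl) (fun T hT bT dT kT => peel 14 (fun j _ => (hy j).1)
      (fun j hj => hv j (hj.trans (by norm_num))) (fun x s => rfl) hT bT dT kT)
    (T := TT (cL 𝒜 δ) (fL 𝒜 δ) D.u) (DZ_of (Deg_TT Du) (by norm_num)) (Bas_TT Du D.du u3) (d_TT Du D.du u3) (kL_TT h D.u)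
  have h8 : yL 𝒜 δ D.u 7 = ub (cL 𝒜 δ) (fL 𝒜 δ) D.u * xb (cL 𝒜 δ) (fL 𝒜 δ) D.u := by
    unfold yL
    rw [if_pos rfl]
  have h9 : yL 𝒜 δ D.u 3 = xb (cL 𝒜 δ) (fL 𝒜 δ) D.u := by
    unfold yL
    rw [if_neg (by norm_num), if_pos rfl]
  have hy0 : ∀ j, j ≠ 7 → j ≠ 3 → yL 𝒜 δ D.u j = 0 := fun j a b => by
    unfold yL
    rw [if_neg a, if_neg b]
  refine ⟨s 7, s 3, l, E0, hl, DE.deg (by norm_num), kE0, ?_, fun {Y} c' g hgE A hA DA hA2 => ?_⟩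
  · rw [dE, hy0 14 (by norm_num) (by norm_num), smul_zero, sub_zero]
  obtain ⟨h1, h2, h3⟩ := H c' g hgE A hA DA hA2
  have key : ∀ (N : ℕ) (B : Om Y), 8 ≤ N → ∑ j ∈ Finset.range N, s j • (B * (dO Y A ^ (14 - j) * g.pull (yL 𝒜 δ D.u j))) =
      s 3 • (B * (dO Y A ^ 11 * g.pull (yL 𝒜 δ D.u 3))) + s 7 • (B * (dO Y A ^ 7 * g.pull (yL 𝒜 δ D.u 7))) := fun N B hN => by
    have h6 : ({3, 7} : Finset ℕ) ⊆ Finset.range N := fun x hx => by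
      rw [Finset.mem_insert, Finset.mem_singleton] at hx
      rw [Finset.mem_range]
      omega
    rw [← Finset.sum_subset h6 (fun j _ hj => by
      rw [Finset.mem_insert, Finset.mem_singleton, not_or] at hj
      rw [hy0 j hj.2 hj.1, map_zero, mul_zero, mul_zero, smul_zero]), Finset.sum_pair (by norm_num)]
  have key' : ∀ (N : ℕ) (B : Om Y), 8 ≤ N → ∑ j ∈ Finset.range N, s j • (B * (dO Y A ^ (13 - j) * g.pull (yL 𝒜 δ D.u j))) =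
      s 3 • (B * (dO Y A ^ 10 * g.pull (yL 𝒜 δ D.u 3))) + s 7 • (B * (dO Y A ^ 6 * g.pull (yL 𝒜 δ D.u 7))) := fun N B hN => by
    have h6 : ({3, 7} : Finset ℕ) ⊆ Finset.range N := fun x hx => by
      rw [Finset.mem_insert, Finset.mem_singleton] at hx
      rw [Finset.mem_range]
      omega
    rw [← Finset.sum_subset h6 (fun j _ hj => by
      rw [Finset.mem_insert, Finset.mem_singleton, not_or] at hj
      rw [hy0 j hj.2 hj.1, map_zero, mul_zero, mul_zero, smul_zero]), Finset.sum_pair (by norm_num)]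
  refine ⟨h1, h2.deg (by norm_num), ?_, ?_⟩
  · have h5 := key 15 1 (by norm_num)
    simp only [one_mul] at h5
    rw [h3]
    show g.pull (TT (cL 𝒜 δ) (fL 𝒜 δ) D.u) - ∑ j ∈ Finset.range 15, s j • (dO Y A ^ (14 - j) * g.pull (yL 𝒜 δ D.u j)) = _
    rw [h5, h8, h9]
    abel
  · obtain ⟨ρ, Dρ, hρ⟩ := H' c' g hgE A hA DA hA2
    refine ⟨ρ, Dρ.deg (by norm_num), ?_⟩
    have h5 := key' 14 A (by norm_num)
    have h10 : etaV l g A - g.pull E0 = dO Y ρ -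
        ∑ j ∈ Finset.range 14, s j • (A * (dO Y A ^ (13 - j) * g.pull (yL 𝒜 δ D.u j))) := hρ
    rw [h5, h8, h9] at h10
    rw [← sub_eq_zero] at h10 ⊢
    rw [← h10]
    abel

end

end Pool.Agent.Lib.MP_ccbbf6_gt.K7
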