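import Pool.Agent.Lib.MP_ccbbf6_gt.K7.LO
import Pool.Agent.Lib.MP_ccbbf6_gt.K7.VAN
import Pool.Agent.Lib.MP_ccbbf6_gt.K7.VD

/-!
# `κ = 7`, block B: the vanishing theorem in the form `VanD` (helper25)

`Lc 𝒜 δ c f` : the orbits of `c`, seen through `f`, are loops all of whose quarter arcs have length at most `π - δ` (`LC δ`, period `4`).
`van_D` : `VanD (spM 𝒜) D.u (Lc 𝒜 δ)` for every `0 < δ ≤ π / 4`.
-/

set_option autoImplicit false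
set_option maxSynthPendingDepth 3
set_option linter.unusedSectionVars false

open Set Filter Topology Metric Real Module
open scoped ContDiff RealInnerProductSpace

noncomputable section

namespace Pool.Agent.Lib.MP_ccbbf6_gt.K7

open Geo L4 L4.ORI L4.FR L5 L5.NEG

variable {n : ℕ} {M : Type} [MetricSpace M] [CompactSpace M] {𝒜 : SDist n M} {δ : ℝ} {k : ℕ} {X Y : Space}

/-- families of loops with short quarter arcs -/
def Lc (𝒜 : SDist n M) (δ : ℝ) {X : Space} (c : Circ X) (f : SMap X (spM 𝒜)) : Prop :=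
  ∀ x, LC (M := M) δ (fun t => f.1 (c.a.1 (x, t / 4)))

/-- the classifying map of a family of loops -/
def gLc {c : Circ X} {f : SMap X (spM 𝒜)} (h : Lc 𝒜 δ c f) : SMap X (spL 𝒜 δ) :=
  ⟨fun x => ⟨fun t => f.1 (c.a.1 (x, t / 4)), fun t => by
      show f.1 (c.a.1 (x, (t + 4) / 4)) = f.1 (c.a.1 (x, t / 4))
      rw [show (t + 4) / 4 = t / 4 + 1 by ring, c.one], h x⟩, fun k p => by
    have h1 := ((f.comp c.a).pl p.up).2
    have h2 : ContDiff ℝ ∞ (fun z : V k × ℝ => (Fin.snoc z.1 (z.2 / 4) : V (k + 1))) :=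
      contDiff_snoc.comp (contDiff_fst.prodMk (contDiff_snd.div_const _))
    have h3 := L4.Sm.comp (M := M) (𝒜 := 𝒜) (g := ((f.comp c.a).pl p.up).1) (f := fun z : V k × ℝ => (Fin.snoc z.1 (z.2 / 4) : V (k + 1))) h1 h2
    have e : (fun z : V k × ℝ => ((f.comp c.a).pl p.up).1 (Fin.snoc z.1 (z.2 / 4) : V (k + 1))) =
        fun z : V k × ℝ => f.1 (c.a.1 (p.1 z.1, z.2 / 4)) := funext fun z => by
      show f.1 (c.a.1 (p.1 (pr k (Fin.snoc z.1 (z.2 / 4))), (Fin.snoc z.1 (z.2 / 4) : V (k + 1)) (Fin.last k))) =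
        f.1 (c.a.1 (p.1 z.1, z.2 / 4))
      rw [pr_snoc, Fin.snoc_last]
    rw [e] at h3
    exact h3⟩

theorem fL_gLc {c : Circ X} {f : SMap X (spM 𝒜)} (h : Lc 𝒜 δ c f) : (fL 𝒜 δ).comp (gLc h) = f :=
  SMap_ext fun x => by
    show (f.1 (c.a.1 (x, 0 / 4)) : M) = f.1 x
    rw [zero_div, c.zero]

theorem Eqv_gLc {c : Circ X} {f : SMap X (spM 𝒜)} (h : Lc 𝒜 δ c f) : Eqv c (cL 𝒜 δ) (gLc h) := fun x s =>
  Subtype.ext (funext fun t => by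
    show (f.1 (c.a.1 (c.a.1 (x, s), t / 4)) : M) = f.1 (c.a.1 (x, (t + 4 * s) / 4))
    rw [c.add, show s + t / 4 = (t + 4 * s) / 4 by ring])

theorem Lc_nat {c : Circ X} {c' : Circ Y} {f : SMap X (spM 𝒜)} {g : SMap Y X} (h : Lc 𝒜 δ c f) (hg : Eqv c' c g) :
    Lc 𝒜 δ c' (f.comp g) := fun y => by
  have h1 := h (g.1 y)
  have h2 : (fun t => ((f.comp g).1 (c'.a.1 (y, t / 4)) : M)) = fun t => f.1 (c.a.1 (g.1 y, t / 4)) := funext fun t => by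
    show (f.1 (g.1 (c'.a.1 (y, t / 4))) : M) = _
    rw [hg]
  rw [h2]
  exact h1

theorem gLc_nat {c : Circ X} {c' : Circ Y} {f : SMap X (spM 𝒜)} {g : SMap Y X} (h : Lc 𝒜 δ c f) (hg : Eqv c' c g) :
    gLc (Lc_nat h hg) = (gLc h).comp g := SMap_ext fun y => Subtype.ext (funext fun t => by
  show (f.1 (g.1 (c'.a.1 (y, t / 4))) : M) = f.1 (c.a.1 (g.1 y, t / 4))
  rw [hg])

theorem gLc_const (hδ : δ ≤ π) {c : Circ X} {f : SMap X (spM 𝒜)} (h : Lc 𝒜 δ c f) (hf : IMap c f) : gLc h = (kL 𝒜 hδ).comp f :=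
  SMap_ext fun x => Subtype.ext (funext fun t => by
    show (f.1 (c.a.1 (x, t / 4)) : M) = f.1 x
    rw [hf])

open Classical in
/-- the primitive -/
def NPv (l : List (Om (spL 𝒜 δ) × Om (spL 𝒜 δ))) {X : Space} (c : Circ X) (A : Om X) (f : SMap X (spM 𝒜)) : Om X :=
  if h : Lc 𝒜 δ c f then etaV l (gLc h) A else 0

theorem NPv_eq (l : List (Om (spL 𝒜 δ) × Om (spL 𝒜 δ))) {c : Circ X} {A : Om X} {f : SMap X (spM 𝒜)} (h : Lc 𝒜 δ c f) :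
    NPv l c A f = etaV l (gLc h) A := dif_pos h

theorem iL_gLc {c : Circ X} {f : SMap X (spM 𝒜)} (h : Lc 𝒜 δ c f) : (iL 𝒜 δ).comp (gLc h) = gLO c f :=
  SMap_ext fun x => Subtype.ext (funext fun t => by
    show f.1 (c.a.1 (x, t / 2 / 4)) = f.1 (c.a.1 (x, t / 8))
    rw [show t / 2 / 4 = t / 8 by ring])

/-- **the vanishing theorem**, with the form `E0` on the space of short loops which computes the primitive non-equivariantly -/
theorem van_E (hB : Bl M) (D : CohD 15 7 2 (spM 𝒜) (spG 𝒜) (spF 𝒜)) (hf : D.fR = fRho hB) (hg : D.g = gF hB)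
    (hk : 𝒜.HK 7) (hδ : 0 < δ) (hδ4 : δ ≤ π / 4) (hδ1 : δ ≤ π) (cG : ∀ θ : Om (spG 𝒜), Deg 0 θ → dO _ θ = 0 →
    ∃ c : ℝ, θ = algebraMap ℝ (Om (spG 𝒜)) c) (p0 : (spM 𝒜).Plot 0) :
    ∃ (V : VanD (spM 𝒜) D.u (Lc 𝒜 δ)) (E0 : Om (spL 𝒜 δ)), Deg 28 E0 ∧ (kL 𝒜 hδ1).pull E0 = 0 ∧
      dO _ E0 = (iL 𝒜 δ).pull (TT (cLO 𝒜) (fLO 𝒜) D.u) ∧
      ∀ {X : Space} {c : Circ X} {A : Om X} {f : SMap X (spM 𝒜)} (_ : Cnn c A) (h : Lc 𝒜 δ c f), ∃ z : Om X, Deg 27 z ∧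
        V.NP c A f + V.k1 • (A * (dO X A ^ 6 * (ub c f D.u * xb c f D.u))) + V.k2 • (A * (dO X A ^ 10 * xb c f D.u)) =
          (gLc h).pull E0 + dO X z := by
  obtain ⟨k1, k2, l, E0, hl, DE, kE, dE, H⟩ := VAN hB D hf hg hk hδ hδ4 hδ1 cG p0
  have key : ∀ {X : Space} {c : Circ X} {A : Om X} {f : SMap X (spM 𝒜)} (hA : Cnn c A) (h : Lc 𝒜 δ c f),
      Bas c (NPv l c A f) ∧ Deg 28 (NPv l c A f) ∧ dO X (NPv l c A f) = TT c f D.u -
        k1 • (dO X A ^ 7 * (ub c f D.u * xb c f D.u)) - k2 • (dO X A ^ 11 * xb c f D.u) ∧ ∃ z : Om X, Deg 27 z ∧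
        NPv l c A f + k1 • (A * (dO X A ^ 6 * (ub c f D.u * xb c f D.u))) + k2 • (A * (dO X A ^ 10 * xb c f D.u)) =
          (gLc h).pull E0 + dO X z := by
    intro X c A f hA h
    have h1 := H c (gLc h) (Eqv_gLc h) A hA.i hA.deg hA.id
    rw [map_mul, ← TT_nat (Eqv_gLc h), ← ub_nat (Eqv_gLc h), ← xb_nat (Eqv_gLc h), fL_gLc] at h1
    rw [NPv_eq l h]
    exact h1
  refine ⟨{
    k1 := k1
    k2 := k2
    NP := NPv l
    bas := fun hA h => (key hA h).1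
    deg := fun hA h => (key hA h).2.1
    d_NP := fun hA h => (key hA h).2.2.1
    nat := fun {X Y c c' A f g} hA h hg' => by
      rw [NPv_eq l h, NPv_eq l (Lc_nat h hg'), gLc_nat h hg', etaV_nat]
    const := fun {X c A f} hA hf' => by
      by_cases h : Lc 𝒜 δ c f
      · rw [NPv_eq l h, gLc_const hδ1 h hf']
        have h2 := etaV_const hl ((kL 𝒜 hδ1).comp f) A (t := SMap.id X) (t0 := f) fun x => rfl
        rwa [pull_id] at h2
      · exact dif_neg h }, E0, DE, kE, ?_, fun hA h => (key hA h).2.2.2⟩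
  rw [dE, TT_iL]

/-- **the vanishing theorem** -/
theorem van_D (hB : Bl M) (D : CohD 15 7 2 (spM 𝒜) (spG 𝒜) (spF 𝒜)) (hf : D.fR = fRho hB) (hg : D.g = gF hB)
    (hk : 𝒜.HK 7) (hδ : 0 < δ) (hδ4 : δ ≤ π / 4) (cG : ∀ θ : Om (spG 𝒜), Deg 0 θ → dO _ θ = 0 →
    ∃ c : ℝ, θ = algebraMap ℝ (Om (spG 𝒜)) c) (p0 : (spM 𝒜).Plot 0) : Nonempty (VanD (spM 𝒜) D.u (Lc 𝒜 δ)) := by
  obtain ⟨V, _⟩ := van_E hB D hf hg hk hδ hδ4 (hδ4.trans (by linarith [pi_pos])) cG p0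
  exact ⟨V⟩

end Pool.Agent.Lib.MP_ccbbf6_gt.K7
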