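import Pool.Agent.Lib.MP_ccbbf6_gt.K7.CHE5
import Pool.Agent.Lib.MP_ccbbf6_gt.K7.PN3
import Pool.Agent.Lib.MP_ccbbf6_gt.K7.RG9
import Pool.Agent.Lib.MP_ccbbf6_gt.K7.VI

/-!
# `κ = 7`, assembly, part a: the data `GysD` of the doubled geodesics (helper56)

`gysD7` : the instance of `GysD` from the shortening `RFam` (helper93) and the sphere bundle `ebY` (helper13).
`exists_nu` : the sign. `volume7G` : the volume bound for this instance; left: block F (`phi8`), block b.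
-/

set_option autoImplicit false
set_option maxSynthPendingDepth 3

open Set Filter Topology Real Matrix
open scoped ContDiff RealInnerProductSpace

noncomputable section

namespace Pool.Agent.Lib.MP_ccbbf6_gt.K7.ASM

open Geo L4 L4.ORI L4.FR L5 L5.NEG GysD RG PN

variable {R : ℕ} {M : Type} [MetricSpace M] [CompactSpace M] {𝒜 : SDist (15 + 1) M} {hB : Bl M}
  {CR : Eu (R + (R + R)) → Gs M → M} {P : Gs M → Eu R →L[ℝ] Eu R} {f : Gs M → Eu R → M}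
  [MeasurableSpace M] [BorelSpace M]
  (D : GeoD 𝒜 hB 7 2) {hN : NegData 𝒜 7 hB (resC CR) P} {hF : FillP 𝒜 (resC CR) P f} (RF : RFam hN hF)
  {bk : OBun 7 (Eu (15 + 1)) (spG 𝒜)} (hb : KBun bk)

/-- **the data of the doubled geodesics** -/
def gysD7 {ν : ℝ} (hν : L5.fn (spN 𝒜 P) (CH.sgX D.hk hN hb) = algebraMap ℝ _ ν) {δ : ℝ}
    (h1 : Lc 𝒜 δ (xRc (circN hB hN)) (FN hF)) (h2 : Lc 𝒜 δ (circY hB hN) (RF.R.comp (jO (spY 𝒜 P) 1)))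
    (h3 : Lc 𝒜 δ (xRc (dblc (circN hB hN))) ((FN hF).comp (rp (spN 𝒜 P) RF.σ2 RF.s2))) :
    GysD (negB7 D hN hF hN.fam hb) (Lc 𝒜 δ) where
  Y := spY 𝒜 P
  b := CH.ebY D.hk hN hb (cA7 (hB := hB))
  hc := rfl
  j := jY 𝒜 P
  hj := jY_pr 𝒜 P
  hjc := jY_eqv hB hN
  eG := ν • CH.eG (cA7 (hB := hB)) (mG_idem hN) (mG_symm hN)
  De := CH.Deg_nG hN (cA7 (hB := hB)) ν
  de := CH.d_nG hN (cA7 (hB := hB)) ν
  be := CH.Bas_nG hN (cA7 (hB := hB)) ν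
  hf := by
    have h := CH.hf_ebY D.hk hN hb (cA7 (hB := hB)) hν
    have h' : (jY 𝒜 P).pull (CH.ebY D.hk hN hb (cA7 (hB := hB))).f -
        (negB7 D hN hF hN.fam hb).f * (negB7 D hN hF hN.fam hb).B.pi.pull
          (ν • CH.eG (cA7 (hB := hB)) (mG_idem hN) (mG_symm hN)) = 0 := sub_eq_zero.2 h
    rw [h']
    exact Xe_zero
  R := RF.R
  R0 y := by
    rw [RF.R0 y]
    show ((prY 𝒜 P).1 y).1 0 = ((prY 𝒜 P).1 y).1 (π * 0)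
    rw [mul_zero]
  σ1 := RF.σ1
  σ2 := RF.σ2
  s1 := RF.s1
  s2 := RF.s2
  Rj := RF.Rj
  σ10 := RF.σ10
  σ20 := RF.σ20
  σ21 := RF.σ21
  L1 := h1
  L2 := h2
  L3 := h3

theorem exists_nu (hF : FillP 𝒜 (resC CR) P f) :
    ∃ ν : ℝ, ν ^ 2 = 1 ∧ L5.fn (spN 𝒜 P) (CH.sgX D.hk hN hb) = algebraMap ℝ _ ν :=
  CH.sg_const D.hk hN hb fun _ h hd => (negB7 D hN hF hN.fam hb).xc h hd

/-- **the volume bound** -/
theorem volume7G (e : Emb 16 𝒜) (t : TEmb 𝒜) {g : (spVF 𝒜 7).pt → ℝ} (hU : UD 𝒜 hB 7 D.u g) {p : M}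
    {ψ : Om (spR (15 + 1))} {Bf : Fm (15 + 1)} (hc : ConcD 𝒜 hB 7 2 p ψ Bf D.u) (he : |D.coh.eps| ≤ 1) {b : ℝ}
    (h : PowerSeries.coeff 1 (PTd 4 (TE.PV_idem t hB D.hk D.hL)) = b • (D.coh.k1 + D.coh.k2))
    (hb6 : b ^ 2 = 36) {ν : ℝ} (hν1 : ν ^ 2 = 1)
    (hν : L5.fn (spN 𝒜 P) (CH.sgX D.hk hN hb) = algebraMap ℝ _ ν) {δ : ℝ}
    (h1 : Lc 𝒜 δ (xRc (circN hB hN)) (FN hF)) (h2 : Lc 𝒜 δ (circY hB hN) (RF.R.comp (jO (spY 𝒜 P) 1)))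
    (h3 : Lc 𝒜 δ (xRc (dblc (circN hB hN))) ((FN hF).comp (rp (spN 𝒜 P) RF.σ2 RF.s2)))
    (V : VanD (spM 𝒜) D.u (Lc 𝒜 δ))
    (hphi : ∃ t' : ℝ, (t' = 3 ∨ t' = -3) ∧ ∃ z : Om (spG 𝒜), Deg 7 z ∧ (gysD7 D RF hb hν h1 h2 h3).phi8 V -
      t' • (negB7 D hN hF hN.fam hb).D.foot.pull (negB7 D hN hF hN.fam hb).D.u = dO (spG 𝒜) z) :
    |TG hB (AL hB 𝒜 * dO _ (AL hB 𝒜) ^ 15)| ≤ 78 := by
  obtain ⟨t', ht, z, hz, hphi⟩ := hphi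
  have hb6' : b = 6 ∨ b = -6 := by
    have h0 : (b - 6) * (b + 6) = 0 := by linear_combination hb6
    rcases mul_eq_zero.1 h0 with h0 | h0
    · left
      linarith
    · right
      linarith
  refine volume7 D hN hF hN.fam hb e t hU hc he h hb6' (gysD7 D RF hb hν h1 h2 h3) V hν1 ?_ ht hz hphi
  have h0 : (gysD7 D RF hb hν h1 h2 h3).eG - ν • CH.eG (cA7 (hB := hB)) (mG_idem hN) (mG_symm hN) = 0 := sub_self _
  rw [h0]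
  exact Xe_zero

end Pool.Agent.Lib.MP_ccbbf6_gt.K7.ASM
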