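import Pool.Agent.Lib.MP_ccbbf6_gt.K7.C01
import Pool.Agent.Lib.MP_ccbbf6_gt.K7.RG9
import Pool.Agent.Lib.MP_ccbbf6_gt.K7.VI

/-!
# `κ = 7`, block G3, part 10: the length classes of `GysD` (helper93)

`RFam.exists_delta` : one `0 < δ ≤ π / 4` such that `L1`, `L2`, `L3` of `GysD` hold with `L = Lc 𝒜 δ`.
-/

set_option autoImplicit false
set_option linter.unusedSectionVars false

open Set Filter Topology Metric Real Module
open scoped ContDiff RealInnerProductSpace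

noncomputable section

namespace Pool.Agent.Lib.MP_ccbbf6_gt.K7.RG

open L4 Geo L4.ORI L4.FR L5 L5.NEG

variable {n : ℕ} {M : Type} [MetricSpace M] [CompactSpace M] {𝒜 : SDist n M} {N κ : ℕ}
  {P : Gs M → Eu N →L[ℝ] Eu N} {CR : Eu (N + (N + N)) → Gs M → M} {hB : Bl M} {f : Gs M → Eu N → M}

theorem LC_of_Lip {M : Type*} [MetricSpace M] {α : ℝ → M} {Λ a δ : ℝ} (h : CO.Lip Λ α) (ha : 0 ≤ a) (hδ : Λ * a ≤ π - δ) :
    LC δ (fun t => α (a * t)) := by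
  refine ⟨fun t => Λ * (a * t), fun s t hst => ?_, fun s => ?_⟩
  · have h1 := h (a * s) (a * t)
    have h2 : |a * s - a * t| = a * t - a * s := by
      rw [abs_sub_comm, abs_of_nonneg]
      have := mul_le_mul_of_nonneg_left hst ha
      linarith
    rw [h2] at h1
    linarith
  · have : Λ * (a * (s + 1)) - Λ * (a * s) = Λ * a := by ring
    rw [this]
    exact hδ

variable {hN : NegData 𝒜 κ hB (resC CR) P} {hF : FillP 𝒜 (resC CR) P f} (D : RFam hN hF)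

include D in
theorem RFam.Lc1 {δ : ℝ} (hδ : δ ≤ π / 4) : Lc 𝒜 δ (xRc (circN hB hN)) (FN hF) := fun x => by
  have h := LC_of_Lip (δ := δ) (a := π / 2) (D.L1 x.1 x.2) (by positivity) (by linarith [Real.pi_pos])
  have e : (fun t => ((FN hF).1 ((xRc (circN hB hN)).a.1 (x, t / 4)) : M)) =
      fun t => (FN hF).1 ((circN hB hN).a.1 (x.1, (2 * π)⁻¹ * (π / 2 * t)), x.2) := by
    funext t
    have h1 : (2 * π)⁻¹ * (π / 2 * t) = t / 4 := by
      have := Real.pi_pos.ne'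
      field_simp
      ring
    rw [h1]
    rfl
  show LC (M := M) δ _
  rw [e]
  exact h

theorem RFam.Lc2 {δ : ℝ} (hδ : δ ≤ π * (1 - D.Λ)) : Lc 𝒜 δ (circY hB hN) (D.R.comp (jO (spY 𝒜 P) 1)) := fun y => by
  have h := LC_of_Lip (δ := δ) (a := π) (D.L2 y) Real.pi_pos.le (by linarith)
  have e : (fun t => ((D.R.comp (jO (spY 𝒜 P) 1)).1 ((circY hB hN).a.1 (y, t / 4)) : M)) =
      fun t => D.R.1 ((circY hB hN).a.1 (y, (4 * π)⁻¹ * (π * t)), 1) := by
    funext t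
    have h1 : (4 * π)⁻¹ * (π * t) = t / 4 := by
      have := Real.pi_pos.ne'
      field_simp
    rw [h1]
    rfl
  show LC (M := M) δ _
  rw [e]
  exact h

theorem RFam.Lc3 {δ : ℝ} (hδ : δ ≤ π * (1 - D.Λ)) :
    Lc 𝒜 δ (xRc (dblc (circN hB hN))) ((FN hF).comp (rp (spN 𝒜 P) D.σ2 D.s2)) := fun x => by
  have h := LC_of_Lip (δ := δ) (a := π) (D.L3 x.1 x.2) Real.pi_pos.le (by linarith)
  have e : (fun t => (((FN hF).comp (rp (spN 𝒜 P) D.σ2 D.s2)).1 ((xRc (dblc (circN hB hN))).a.1 (x, t / 4)) : M)) =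
      fun t => (FN hF).1 ((circN hB hN).a.1 (x.1, (2 * π)⁻¹ * (π * t)), D.σ2 x.2) := by
    funext t
    have h1 : (2 * π)⁻¹ * (π * t) = 2 * (t / 4) := by
      have := Real.pi_pos.ne'
      field_simp
      ring
    rw [h1]
    rfl
  show LC (M := M) δ _
  rw [e]
  exact h

theorem RFam.exists_delta : ∃ δ : ℝ, 0 < δ ∧ δ ≤ π / 4 ∧ Lc 𝒜 δ (xRc (circN hB hN)) (FN hF) ∧
    Lc 𝒜 δ (circY hB hN) (D.R.comp (jO (spY 𝒜 P) 1)) ∧
    Lc 𝒜 δ (xRc (dblc (circN hB hN))) ((FN hF).comp (rp (spN 𝒜 P) D.σ2 D.s2)) := by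
  have hπ := Real.pi_pos
  refine ⟨min (π / 4) (π * (1 - D.Λ)), lt_min (by positivity) (mul_pos hπ (by linarith [D.Λ1])), min_le_left _ _,
    D.Lc1 (min_le_left _ _), D.Lc2 (min_le_right _ _), D.Lc3 (min_le_right _ _)⟩

end Pool.Agent.Lib.MP_ccbbf6_gt.K7.RG
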