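import Pool.Agent.Lib.MP_ccbbf6_gt.K7.VOL7a
import Pool.Agent.Lib.MP_ccbbf6_gt.L5.VOLb

/-!
# `κ = 7`, `n = 16`: from the bound of the volume to the model space
-/

set_option autoImplicit false
set_option maxSynthPendingDepth 3

open MeasureTheory Measure Set Filter Topology Metric Real Module
open scoped ContDiff RealInnerProductSpace ENNReal

noncomputable section

namespace Pool.Agent.Lib.MP_ccbbf6_gt.K7

open Geo L4 L4.FR L5

/-- the bound of the volume for `κ = 7`, `n = 16`, from the bound of `∫ η (dη) ^ 15` -/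
theorem vol_le_seven {M : Type} [MetricSpace M] [CompactSpace M] [MeasurableSpace M]
    [BorelSpace M] {𝒜 : SDist 16 M} (hB : Bl M)
    (h : |TG hB (AL hB 𝒜 * dO _ (AL hB 𝒜) ^ 15)| ≤ 78) :
    (μHE[16] : Measure M) univ ≤ Blaschke.modelVolume 16 7 := by
  have hfin : (μHE[16] : Measure M) univ ≠ ⊤ := by
    have := finite_of_sdist 𝒜
    exact measure_ne_top _ _
  refine final_ennreal7 hfin (le_trans (le_of_eq ?_) h)
  rw [abs_TG_AL (by omega) hB]
  push_cast
  ring

/-- **`κ = 7`, `n = 16`**: from the bound of `∫ η (dη) ^ 15` to the model. -/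
theorem isModel_seven {M : Type} [MetricSpace M] [CompactSpace M] [MeasurableSpace M]
    [BorelSpace M] [Nonempty M] (𝒜 : SDist 16 M) (hB : Bl M) (h7 : 𝒜.HK 7)
    (h : |TG hB (AL hB 𝒜 * dO _ (AL hB 𝒜) ^ 15)| ≤ 78) :
    Blaschke.IsModel 16 7 M :=
  isModel_of_le (by omega) 𝒜 hB (by omega) h7 (vol_le_seven hB h)

end Pool.Agent.Lib.MP_ccbbf6_gt.K7
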