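import Pool.Agent.Lib.MP_ccbbf6_gt.K7.ASM7a
import Pool.Agent.Lib.MP_ccbbf6_gt.K7.RG10
import Pool.Agent.Lib.MP_ccbbf6_gt.K7.RG11
import Pool.Agent.Lib.MP_ccbbf6_gt.K7.VOL7b
import Pool.Agent.Lib.MP_ccbbf6_gt.L5.GED
import Pool.Agent.Lib.MP_ccbbf6_gt.L5.KBI
import Pool.Agent.Lib.MP_ccbbf6_gt.L5.TP16
import Pool.Agent.Lib.MP_ccbbf6_gt.L5.UOR15

/-!
# `κ = 7`, `n = 16`, assembly, part b (helper56)

`model_seven_of` : the model space, from block b (`b ^ 2 = 36`), the package `Geo7` (blocks G1, G2, HL) and block F.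
-/

set_option autoImplicit false
set_option maxSynthPendingDepth 3

open Set Filter Topology Real Matrix MeasureTheory
open scoped ContDiff RealInnerProductSpace

noncomputable section

namespace Pool.Agent.Lib.MP_ccbbf6_gt.K7.ASM

open Geo L4 L4.ORI L4.FR L5 L5.NEG GysD RG PN

variable {M : Type} [MetricSpace M] [CompactSpace M] {𝒜 : SDist (15 + 1) M} {hB : Bl M}

/-- what is known of the generator besides the fields of `GeoD` -/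
structure Gd7 (D : GeoD 𝒜 hB 7 2) : Prop where
  hU : ∃ g : (spVF 𝒜 7).pt → ℝ, UD 𝒜 hB 7 D.u g
  hc : ∃ (p : M) (ψ : Om (spR (15 + 1))) (Bf : Fm (15 + 1)), ConcD 𝒜 hB 7 2 p ψ Bf D.u
  he : |D.coh.eps| ≤ 1

/-- block b : the number of the three point formula -/
def HypB (𝒜 : SDist (15 + 1) M) (hB : Bl M) : Prop :=
  ∀ (D : GeoD 𝒜 hB 7 2) (_ : Gd7 D) (t : TEmb 𝒜) {b : ℝ} {P : PowerSeries ℝ},
    PowerSeries.constantCoeff P = 1 → PTd 4 (TE.PM_idem t (Nat.succ_pos 15)) = evS D.coh.ku P →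
    PTd 4 (TE.PV_idem t hB D.hk D.hL) = Asr b D.coh.k1 D.coh.k2 →
    (∀ j ≤ 2, PowerSeries.coeff j (P * (1 + 2 * PowerSeries.C b * PowerSeries.X)) =
      PowerSeries.coeff j (Aser b ^ 3)) → b ^ 2 = 36

theorem coeff_Asr_one {R : Type*} [CommRing R] [Algebra ℝ R] (b : ℝ) (x y : R) :
    PowerSeries.coeff 1 (Asr b x y) = b • (x + y) := by
  unfold Asr
  rw [map_add, map_add, PowerSeries.coeff_C_mul, PowerSeries.coeff_C_mul, PowerSeries.coeff_one,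
    PowerSeries.coeff_X, PowerSeries.coeff_X_pow, if_neg (by norm_num), if_pos rfl, if_neg (by norm_num), mul_one,
    mul_zero, add_zero, zero_add]

variable [MeasurableSpace M] [BorelSpace M]

/-- block F : the form `phi8` of the doubled geodesics -/
def HypF (𝒜 : SDist (15 + 1) M) (hB : Bl M) (G : Geo7 𝒜 7 hB) : Prop :=
  ∀ (D : GeoD 𝒜 hB 7 2) (_ : Gd7 D) (hb : KBun (bKo hB D.hk D.hL D.Deg_b D.orV D.hκ)) {ν : ℝ}
    (hν : L5.fn (spN 𝒜 G.P) (CH.sgX D.hk G.hN hb) = algebraMap ℝ _ ν) {δ : ℝ} (_ : 0 < δ) (_ : δ ≤ π / 4)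
    (h1 : Lc 𝒜 δ (xRc (circN hB G.hN)) (FN G.hF)) (h2 : Lc 𝒜 δ (circY hB G.hN) (G.D.R.comp (jO (spY 𝒜 G.P) 1)))
    (h3 : Lc 𝒜 δ (xRc (dblc (circN hB G.hN))) ((FN G.hF).comp (rp (spN 𝒜 G.P) G.D.σ2 G.D.s2))),
    ∃ (V : VanD (spM 𝒜) D.u (Lc 𝒜 δ)) (t' : ℝ), (t' = 3 ∨ t' = -3) ∧ ∃ z : Om (spG 𝒜), Deg 7 z ∧
      (gysD7 D G.D hb hν h1 h2 h3).phi8 V -
        t' • (negB7 D G.hN G.hF G.hN.fam hb).D.foot.pull (negB7 D G.hN G.hF G.hN.fam hb).D.u = dO (spG 𝒜) z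

/-- **`κ = 7`, `n = 16`: the model** -/
theorem model_seven_of [Nonempty M] (hB : Bl M) (hk : 𝒜.HK 7) (Hb : HypB 𝒜 hB) (G : Geo7 𝒜 7 hB) (HF : HypF 𝒜 hB G) :
    Blaschke.IsModel 16 7 M := by
  obtain ⟨p⟩ : Nonempty M := inferInstance
  obtain ⟨o, ho, g, hh, hU⟩ := exists_UDG (𝒜 := 𝒜) (l := 3) (by norm_num) hB hk p
  obtain ⟨m, hm, hdim, hD⟩ := exists_GeoD (𝒜 := 𝒜) (hB := hB) (κ := 7) hk (by decide) (by norm_num) hU p
  obtain rfl : m = 2 := by omega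
  obtain ⟨D, hu, k, hk1⟩ := hD le_rfl
  obtain ⟨t⟩ := exists_TEmb 𝒜
  obtain ⟨e⟩ := exists_emb 𝒜
  have hb : KBun (bKo hB D.hk D.hL D.Deg_b D.orV D.hκ) := KBun_bKo hB D.hk D.hL D.Deg_b D.orV D.hκ
  obtain ⟨b, Ps, c1, c2, c3, -, -, c5⟩ := D.three_point_all (n := 3) (K := 0) t
  have hU' : UD 𝒜 hB 7 D.u g := by
    rw [hu]
    exact hU
  have hc : ConcD 𝒜 hB 7 2 p (psPG (l := 3) hB hk ho) (BBp (psPG (l := 3) hB hk ho)) D.u := by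
    rw [hu]
    exact concD_uM hB hdim (by omega) ⟨3, rfl⟩ (angDG (l := 3) hB hk ho) hh
  have he : |D.coh.eps| ≤ 1 := by
    rw [abs_mul] at hk1
    have h2 : (1 : ℝ) ≤ |(k : ℝ)| := by
      have h3 : k ≠ 0 := by
        rintro rfl
        simp at hk1
      have h4 : (1 : ℤ) ≤ |k| := Int.one_le_abs h3
      exact_mod_cast h4
    nlinarith [abs_nonneg D.coh.eps]
  have hG : Gd7 D := ⟨⟨g, hU'⟩, ⟨p, _, _, hc⟩, he⟩
  have hb2 : b ^ 2 = 36 := Hb D hG t c1 c2 c3 c5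
  have h8 : PowerSeries.coeff 1 (PTd 4 (TE.PV_idem t hB D.hk D.hL)) = b • (D.coh.k1 + D.coh.k2) := by
    have h9 : PTd 4 (TE.PV_idem t hB D.hk D.hL) = Asr b D.coh.k1 D.coh.k2 := c3
    rw [h9, coeff_Asr_one]
  obtain ⟨ν, hν1, hν⟩ := exists_nu D hb G.hF
  obtain ⟨δ, hδ, hδ4, h1, h2, h3⟩ := G.D.exists_delta
  obtain ⟨V, hphi⟩ := HF D hG hb hν hδ hδ4 h1 h2 h3
  exact isModel_seven 𝒜 hB hk (volume7G D G.D hb e t hU' hc he h8 hb2 hν1 hν h1 h2 h3 V hphi)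

end Pool.Agent.Lib.MP_ccbbf6_gt.K7.ASM
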