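import Pool.Agent.Lib.MP_ccbbf6_gt.K7.KT
import Pool.Agent.Lib.MP_ccbbf6_gt.L5.INTf

/-!
# `κ = 7`, block F, file RAD3: Fubini for `JX` (helper25, skeleton)

`snM X N : (X.xV N).xR → X.xV (N + 1)`, `((x, ξ), r) ↦ (x, snoc ξ r)`; `KL` = integration over `r ∈ [-3, 3]`.
PROOFS.
(1) `JX_succ` : `Om_ext`; on a plot `P`: left `Jn k (N+1) (on Θ (P.xV (N+1))) = Jc k N (KK (k + N) (pb (scM k (N+1)) (on Θ (P.xV (N+1)))))` by definition (`rfl`/`show`); right `Jn k N (on (KL ..) (P.xV N)) = Jc k N (pb (scM k N) (KK (k + N) (on Θ ((snM.comp ..).pl (P.xV N).up))))` (`on_K`, `on_pull`).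
    `pb (scM k N) (KK x) = KK (pb (scM k N ⊕ id) x)` (naturality of `KK`: `KK_nat`-type lemma in FRd, used for `K_up`/`J_nat`), and the two compositions of maps agree: `(P.xV (N+1)).cmp (scM k (N+1)) = ((snM..).pl (P.xV N).up).cmp (..)`: `Plot_ext`, both are `w ↦ (P (hd w), 6 tl w - 3)`.
(2) `asO` : `(x, ξ) ↦ ((x, hd ξ), tl ξ)`. `JX_add` : induction on `L`. `L = 0`: `JX 0` is the pull back by `x ↦ (x, 0)` (`Jn k 0 = pb (scM k 0)`, `Jc k 0 = id`). Step: `JX (L+1) (X.xV N) Θ = JX L (X.xV N) (KL ..)` by `JX_succ`, induction hypothesis for the form `KL ..` on `(X.xV N).xV L`, `K_up` (it is `rfl`) and `JX_succ` for `X`, `N + L`: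
    `(snM (X.xV N) L).comp (asO X N L).up = (asO X N (L+1)).comp (snM X (N + L))` (`SMap_ext`; `Fin.snoc`, `hdM`, `tlM` of `snoc`).
(3) `KL_K` : `KL θ = ∫` in terms of `Jt` : `K_time` (K7/KT) with `φ r = 6 r - 3`: `KL θ = Jt 3 θ - Jt (-3) θ`.
-/

set_option autoImplicit false
set_option maxSynthPendingDepth 3

open Set Filter Topology MeasureTheory
open scoped ContDiff

noncomputable section

namespace Pool.Agent.Lib.MP_ccbbf6_gt.K7

open L4 L4.FR L5

variable {k l N L : ℕ} {X Y : Space}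

/-- `((x, ξ), r) ↦ (x, snoc ξ r)` -/
def snM (X : Space) (N : ℕ) : SMap (X.xV N).xR (X.xV (N + 1)) :=
  ⟨fun z => (z.1.1, (Fin.snoc z.1.2 z.2 : V (N + 1))), fun _ p => ⟨p.2.1.1, contDiff_snoc.comp (p.2.1.2.prodMk p.2.2)⟩⟩

theorem contDiff_63 : ContDiff ℝ ∞ fun r : ℝ => 6 * r - 3 := (contDiff_const.mul contDiff_id).sub contDiff_const

/-- integration over `r ∈ [-3, 3]` -/
def KL (X : Space) (θ : Om X.xR) : Om X := KO X ((Rph X contDiff_63).pull θ)

theorem KL_K (θ : Om X.xR) : KL X θ = Jt X 3 θ - Jt X (-3) θ := by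
  have h := K_time (X := X) contDiff_63 θ
  have h1 : (6 * 1 - 3 : ℝ) = 3 := by norm_num
  have h0 : (6 * 0 - 3 : ℝ) = -3 := by norm_num
  rw [h1, h0] at h
  exact h

private theorem RAD3_hd (ξ : V (N + L)) (r : ℝ) : hdM N (L + 1) (Fin.snoc ξ r : V (N + L + 1)) = hdM N L ξ :=
  funext fun i => Fin.snoc_castSucc (α := fun _ => ℝ) r ξ (Fin.castAdd L i)

private theorem RAD3_tl (ξ : V (N + L)) (r : ℝ) :
    tlM N (L + 1) (Fin.snoc ξ r : V (N + L + 1)) = (Fin.snoc (tlM N L ξ) r : V (L + 1)) := by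
  funext i
  refine Fin.lastCases ?_ (fun i => ?_) i
  · rw [Fin.snoc_last]
    exact Fin.snoc_last (α := fun _ => ℝ) r ξ
  · rw [Fin.snoc_castSucc]
    exact Fin.snoc_castSucc (α := fun _ => ℝ) r ξ (Fin.natAdd N i)

private theorem RAD3_hds (w : V (k + N)) : hdM k N (scM k N w) = hdM k N w :=
  hdM_append (hdM k N w) (fun i => 6 * tlM k N w i - 3)

private theorem RAD3_tls (w : V (k + N)) : tlM k N (scM k N w) = fun i => 6 * tlM k N w i - 3 :=
  tlM_append (hdM k N w) (fun i => 6 * tlM k N w i - 3)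

private theorem RAD3_sn (w : V (k + N + 1)) :
    (fun i => 6 * tlM k (N + 1) w i - 3 : V (N + 1)) =
      (Fin.snoc (fun i => 6 * tlM k N (pr (k + N) w) i - 3 : V N) (6 * w (Fin.last (k + N)) - 3) : V (N + 1)) := by
  funext i
  refine Fin.lastCases ?_ (fun i => ?_) i
  · rw [Fin.snoc_last]
    rfl
  · rw [Fin.snoc_castSucc]
    rfl

/-- **Fubini, one variable** -/
theorem JX_succ (Θ : Om (X.xV (N + 1))) : JX (N + 1) X Θ = JX N X (KL _ ((snM X N).pull Θ)) := by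
  refine Om_ext fun k P => ?_
  rw [on_JX, on_JX]
  show Jc k N (KK (k + N) (pb (scM k (N + 1)) (Om.on Θ (P.xV (N + 1))))) =
    Jc k N (pb (scM k N) (KK (k + N) (Om.on Θ ((snM X N).pl ((Rph (X.xV N) contDiff_63).pl (P.xV N).up)))))
  have h : (P.xV (N + 1)).cmp (scM k (N + 1)) =
      ((snM X N).pl ((Rph (X.xV N) contDiff_63).pl (P.xV N).up)).cmp (scM k N).up := by
    refine Plot_ext fun w => ?_
    show (P.1 (hdM k (N + 1) (scM k (N + 1) w)), tlM k (N + 1) (scM k (N + 1) w)) =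
      (P.1 (hdM k N (pr (k + N) ((scM k N).up w))),
        (Fin.snoc (tlM k N (pr (k + N) ((scM k N).up w))) (6 * ((scM k N).up w) (Fin.last (k + N)) - 3) : V (N + 1)))
    have e1 : pr (k + N) ((scM k N).up w) = scM k N (pr (k + N) w) := pr_snoc _ _
    have e2 : ((scM k N).up w) (Fin.last (k + N)) = w (Fin.last (k + N)) := Fin.snoc_last (α := fun _ => ℝ) _ _
    rw [e1, e2, RAD3_hds, RAD3_tls, RAD3_hds, RAD3_tls]
    exact Prod.ext rfl (RAD3_sn w)
  have h2 : pb (scM k (N + 1)) (Om.on Θ (P.xV (N + 1))) =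
      pb (scM k N).up (Om.on Θ ((snM X N).pl ((Rph (X.xV N) contDiff_63).pl (P.xV N).up))) := by
    rw [← on_cmp, ← on_cmp, h]
  rw [h2, KK_up]

/-- `(x, ξ) ↦ ((x, hd ξ), tl ξ)` -/
def asO (X : Space) (N L : ℕ) : SMap (X.xV (N + L)) ((X.xV N).xV L) :=
  ⟨fun z => ((z.1, hdM N L z.2), tlM N L z.2), fun _ p => ⟨⟨p.2.1, (hdM N L).smooth.comp p.2.2⟩, (tlM N L).smooth.comp p.2.2⟩⟩

/-- **Fubini** -/
theorem JX_add (Θ : Om ((X.xV N).xV L)) : JX (N + L) X ((asO X N L).pull Θ) = JX N X (JX L (X.xV N) Θ) := by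
  induction L with
  | zero =>
    refine Om_ext fun k P => ?_
    show Jn k N (Om.on Θ ((asO X N 0).pl (P.xV N))) = Jn k N (pb (scM (k + N) 0) (Om.on Θ ((P.xV N).xV 0)))
    have h1 : scM (k + N) 0 = FR.Sm.id (k + N) := Sm.ext fun w => hdM_append (N := 0) _ _
    have h2 : (asO X N 0).pl (P.xV N) = (P.xV N).xV 0 := Plot_ext fun w => Prod.ext rfl (funext fun i => i.elim0)
    have h3 : pb (scM (k + N) 0) (Om.on Θ ((P.xV N).xV 0)) = Om.on Θ ((P.xV N).xV 0) := by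
      rw [h1]
      exact pb_id _
    rw [h3, h2]
  | succ L ih =>
    have h1 := JX_succ (X := X) (N := N + L) ((asO X N (L + 1)).pull Θ)
    have h2 : KL _ ((snM X (N + L)).pull ((asO X N (L + 1)).pull Θ)) =
        (asO X N L).pull (KL _ ((snM (X.xV N) L).pull Θ)) := by
      have e : (asO X N (L + 1)).comp (snM X (N + L)) = (snM (X.xV N) L).comp (asO X N L).up := by
        refine SMap_ext fun z => ?_
        show ((z.1.1, hdM N (L + 1) (Fin.snoc z.1.2 z.2 : V (N + L + 1))),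
          tlM N (L + 1) (Fin.snoc z.1.2 z.2 : V (N + L + 1))) =
          ((z.1.1, hdM N L z.1.2), (Fin.snoc (tlM N L z.1.2) z.2 : V (L + 1)))
        rw [RAD3_hd, RAD3_tl]
      rw [← pull_comp, e]
      rfl
    rw [JX_succ, ← ih, ← h2]
    exact h1

end Pool.Agent.Lib.MP_ccbbf6_gt.K7
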