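import Pool.Agent.Lib.MP_ccbbf6_gt.K7.RAD2
import Pool.Agent.Lib.MP_ccbbf6_gt.K7.RAD3

/-!
# `κ = 7`, block F, file RAD4: **integral over the sphere of a form supported in a cap** (helper25, skeleton)

`E : X × (R^(N+1) - 0) → S` homogeneous of degree `0`, `w` a form on `S` such that `E^* w` is supported in the cone `6 |ξ| ≤ r` (`(ξ, r) ∈ R^N × R`). Then `SI (N+1) X (E^* w) = JX N X ((x, ξ) ↦ E (x, (ξ, 3)))^* w`.
PROOF. `rr r` = smooth function with `rr r = 3 / r` for `r ≥ 1/2`, `zt r` = cut off: `0` for `r ≤ 1/2`, `1` for `r ≥ 3/4`. `θ := (sgC)^* E^* w` (form on `X.xV N`, supported in `|ξ| ≤ 1/2`: `SuppB`), `prC : X.xV (N+1) → X.xV N`, `(x, (ξ, r)) ↦ (x, rr r • ξ)`, `Tt := zt(r) * prC^* θ`.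
(1) `Tt_cut` : `cutX (E^* w) = dch * Tt`: at points with `|y| < 1` or `> 2` both vanish. Let `1 ≤ |y| ≤ 2`, `y = (ξ, r)`. If `r > 3/4` then near `y` `E (x, (ξ, r)) = E (x, (3/r) (ξ, r)) = E (x, ((3/r) ξ, 3))` (homogeneity), `zt = 1`: the two forms agree near `y` (on local plots of `X.xP (N+1)`). If `r ≤ 3/4`: `y` is not in the cone (`|y|^2 = |ξ|^2 + r^2 ≤ r^2 (1 + 1/36) < 1`), so `E^* w = 0` at `y`, and `Tt = 0` at `y`: if `r ≥ 1/2` then
    `|(3/r) ξ| > 1/2` (`SuppB θ`); if `r < 1/2` `zt = 0` near `y`.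
(2) `g := chiX (N+1) X - (chi r)` (function): `g * Tt` and `g * dO Tt` are radial: where `g ≠ 0` and `Tt ≠ 0` near the point we have `r > 3/4` (for `r ≤ 3/4` in the support of `Tt`: `|y| < 1`, `chi |y| = 0`, `chi r = 0`), and there `Tt = prC^* θ` near the point with `prC (x, λ y) = prC (x, y)`: `ctr (vv y)` of the value of a pull back by `prC` is the pull back of the contraction with `d prC (y) = 0` (`ctr_ev_pb`). Same for `dO Tt = prC^* (dO θ)` near such points.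
    `g * Tt` is `VSO`: `Tt` is supported in the cone (for `r > 1/2`), `g = 0` for `r ≥ 2`. So `JX (dO (g * Tt)) = ± dO (JX (g Tt)) = 0`, `JX (g * dO Tt) = 0`: `JX (dO g * Tt) = 0`, that is `SI (E^* w) = JX (dch * Tt) = JX (dO (chi r) * Tt)`.
(3) `JX_succ` (RAD3): `= JX N X (KL ((snM)^* (dO (chi r) * Tt)))`. `dO (chi r) * Tt = dO (chi r * Tt) - chi r * dO Tt`; `KL (dO Ψ) = Ψ|_{r = 3} - Ψ|_{r = -3} - dO (KL Ψ)` (`d_K`, `Rph`), `Ψ|_{-3} = 0`, `Ψ|_3 = θ` (`rr 3 = 1`, `zt 3 = 1`, `chi 3 = 1`). `JX N (dO (KL Ψ)) = ± dO (JX N (KL Ψ)) = ± dO (JX (N+1) Ψ)` and `JX (N+1) (chi r * Tt) = 0`, `JX (N+1) (chi r * dO Tt) = 0` (`JX_rad`, as in (2): where `chi r ≠ 0`: `r ≥ 1`).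
    `VSO (KL Ψ)`: support in `|ξ| ≤ 1/2` as `r ≤ 3`.
-/

set_option autoImplicit false
set_option maxSynthPendingDepth 3

open Set Filter Topology MeasureTheory
open scoped ContDiff

noncomputable section

namespace Pool.Agent.Lib.MP_ccbbf6_gt.K7

open L4 L4.FR L5

variable {k l N L : ℕ} {X Y S : Space}

theorem snoc3_ne (ξ : V N) : (Fin.snoc ξ 3 : V (N + 1)) ≠ 0 := fun h => by
  have h1 := congrFun h (Fin.last N)
  rw [Fin.snoc_last] at h1
  exact absurd h1 (by norm_num)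

/-- `(x, ξ) ↦ (x, (ξ, 3))` -/
def sgC (X : Space) (N : ℕ) : SMap (X.xV N) (X.xP (N + 1)) :=
  ⟨fun z => ⟨(z.1, (Fin.snoc z.2 3 : V (N + 1))), snoc3_ne z.2⟩, fun _ p => ⟨p.2.1, contDiff_snoc.comp (p.2.2.prodMk contDiff_const)⟩⟩

/-- homogeneous maps -/
def HomO (E : SMap (X.xP (N + 1)) S) : Prop := ∀ (x : X.pt) (ξ : V (N + 1)) (hξ : ξ ≠ 0) (r : ℝ) (hr : 0 < r),
  E.1 ⟨(x, r • ξ), smul_ne_zero hr.ne' hξ⟩ = E.1 ⟨(x, ξ), hξ⟩

/-- support in the cone `6 |ξ| ≤ r` -/
def SuppC (Θ : Om (X.xP (N + 1))) : Prop := ∀ (k : ℕ) (p : (X.xP (N + 1)).Plot k) (z : V k),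
  (p.1 z).1.2 (Fin.last N) < 6 * ‖toE (fun i : Fin N => (p.1 z).1.2 i.castSucc)‖ ∨ (p.1 z).1.2 (Fin.last N) ≤ 0 →
    ev z (Om.on Θ p) = 0

/-- a form near a cap gives a form with support in `|ξ| ≤ 1/2` -/
theorem SuppB_cap {E : SMap (X.xP (N + 1)) S} {w : Om S} (hs : SuppC (E.pull w)) : SuppB ((E.comp (sgC X N)).pull w) := by
  intro k p z hz
  refine hs k ((sgC X N).pl p) z (Or.inl ?_)
  have h1 : (((sgC X N).pl p).1 z).1.2 = (Fin.snoc (p.1 z).2 3 : V (N + 1)) := rfl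
  rw [h1, Fin.snoc_last]
  have h2 : (fun i : Fin N => (Fin.snoc (p.1 z).2 3 : V (N + 1)) i.castSucc) = (p.1 z).2 := by
    funext i
    rw [Fin.snoc_castSucc]
  rw [h2]
  linarith

/-! ### auxiliary functions -/

private def R4D (r : ℝ) : ℝ := Real.smoothTransition (4 * r - 1) * r + (1 - Real.smoothTransition (4 * r - 1))

private theorem R4D_pos (r : ℝ) : 0 < R4D r := by
  unfold R4D
  have h0 := Real.smoothTransition.nonneg (4 * r - 1)
  have h1 := Real.smoothTransition.le_one (4 * r - 1)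
  by_cases h : r ≤ 1 / 4
  · rw [Real.smoothTransition.zero_of_nonpos (by linarith)]
    norm_num
  · push Not at h
    have h2 := mul_nonneg h0 (sub_nonneg.2 h.le)
    linarith

private theorem R4D_eq {r : ℝ} (h : 1 / 2 ≤ r) : R4D r = r := by
  unfold R4D
  rw [Real.smoothTransition.one_of_one_le (by linarith)]
  ring

private theorem R4D_smooth : ContDiff ℝ ∞ R4D := by
  have h1 : ContDiff ℝ ∞ fun r : ℝ => Real.smoothTransition (4 * r - 1) :=
    Real.smoothTransition.contDiff.comp ((contDiff_const.mul contDiff_id).sub contDiff_const)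
  exact (h1.mul contDiff_id).add (contDiff_const.sub h1)

/-- `3 / r` for `r ≥ 1/2` -/
private def R4rr (r : ℝ) : ℝ := 3 / R4D r

private theorem R4rr_eq {r : ℝ} (h : 1 / 2 ≤ r) : R4rr r = 3 / r := by
  unfold R4rr
  rw [R4D_eq h]

private theorem R4rr_smooth : ContDiff ℝ ∞ R4rr := contDiff_const.div R4D_smooth fun r => (R4D_pos r).ne'

/-- the cut off -/
private def R4z (r : ℝ) : ℝ := Real.smoothTransition (4 * r - 2)

private theorem R4z_smooth : ContDiff ℝ ∞ R4z :=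
  Real.smoothTransition.contDiff.comp ((contDiff_const.mul contDiff_id).sub contDiff_const)

private theorem R4z_zero {r : ℝ} (h : r ≤ 1 / 2) : R4z r = 0 := Real.smoothTransition.zero_of_nonpos (by linarith)

private theorem R4z_one {r : ℝ} (h : 3 / 4 ≤ r) : R4z r = 1 := Real.smoothTransition.one_of_one_le (by linarith)

/-- functions of the last coordinate -/
private def R4f (X : Space) (N : ℕ) (f : ℝ → ℝ) (hf : ContDiff ℝ ∞ f) : Om (X.xV (N + 1)) :=
  fO (fun z => f (z.2 (Fin.last N))) fun _ p => hf.comp (contDiff_pi.1 p.2.2 (Fin.last N))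

private theorem R4_evf (f : ℝ → ℝ) (hf : ContDiff ℝ ∞ f) (p : (X.xV (N + 1)).Plot k) (z : V k) :
    ev z (Om.on (R4f X N f hf) p) = algebraMap ℝ (Ex k) (f ((p.1 z).2 (Fin.last N))) := ev_fO _ _ p z

private theorem R4_degf (f : ℝ → ℝ) (hf : ContDiff ℝ ∞ f) : Deg 0 (R4f X N f hf) := fun _ _ => Dg_fc _

/-- `(x, (ξ, r)) ↦ (x, rr r • ξ)` -/
private def R4p (X : Space) (N : ℕ) : SMap (X.xV (N + 1)) (X.xV N) :=
  ⟨fun z => (z.1, R4rr (z.2 (Fin.last N)) • pr N z.2), fun _ p => ⟨p.2.1,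
    (R4rr_smooth.comp (contDiff_pi.1 p.2.2 (Fin.last N))).smul ((pr N).smooth.comp p.2.2)⟩⟩

/-- the extension of the form -/
private def R4T (θ : Om (X.xV N)) : Om (X.xV (N + 1)) := R4f X N R4z R4z_smooth * (R4p X N).pull θ

private theorem R4_cr (p : (X.xV (N + 1)).Plot k) : Continuous fun y : V k => (p.1 y).2 (Fin.last N) :=
  (contDiff_pi.1 p.2.2 (Fin.last N)).continuous

private theorem R4_cx (p : (X.xV (N + 1)).Plot k) : Continuous fun y : V k => ‖toE (pr N (p.1 y).2)‖ :=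
  (contDiff_toE.continuous.comp ((pr N).smooth.continuous.comp p.2.2.continuous)).norm

private theorem R4_van {θ : Om (X.xV N)} (hs : SuppB θ) (p : (X.xV (N + 1)).Plot k) (z : V k)
    (h : (p.1 z).2 (Fin.last N) < 6 * ‖toE (pr N (p.1 z).2)‖ ∨ (p.1 z).2 (Fin.last N) < 1 / 2) :
    ev z (Om.on (R4T θ) p) = 0 := by
  unfold R4T
  rw [on_mul, map_mul]
  by_cases h2 : (p.1 z).2 (Fin.last N) < 1 / 2
  · rw [R4_evf, R4z_zero h2.le, map_zero, zero_mul]
  · have h3 := h.resolve_right h2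
    push Not at h2
    have h5 : 1 / 2 < ‖toE (((R4p X N).pl p).1 z).2‖ := by
      show 1 / 2 < ‖toE (R4rr ((p.1 z).2 (Fin.last N)) • pr N (p.1 z).2)‖
      have h4 : toE (R4rr ((p.1 z).2 (Fin.last N)) • pr N (p.1 z).2) =
        R4rr ((p.1 z).2 (Fin.last N)) • toE (pr N (p.1 z).2) := rfl
      rw [h4, norm_smul, R4rr_eq h2, Real.norm_eq_abs, abs_of_pos (by positivity)]
      have h6 : 0 < (p.1 z).2 (Fin.last N) := by linarith
      rw [div_mul_eq_mul_div, lt_div_iff₀ h6]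
      linarith
    rw [on_pull, hs k ((R4p X N).pl p) z h5, mul_zero]

private theorem R4_vand {θ : Om (X.xV N)} (hs : SuppB θ) (p : (X.xV (N + 1)).Plot k) (z : V k)
    (h : (p.1 z).2 (Fin.last N) < 6 * ‖toE (pr N (p.1 z).2)‖ ∨ (p.1 z).2 (Fin.last N) < 1 / 2) :
    ev z (Om.on (dO _ (R4T θ)) p) = 0 := by
  rw [on_d]
  have h1 : ∀ᶠ y in 𝓝 z, ev y (Om.on (R4T θ) p) = ev y (0 : Fm k) := by
    rcases h with h | h
    · have h2 : Continuous fun y : V k => 6 * ‖toE (pr N (p.1 y).2)‖ := continuous_const.mul (R4_cx p)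
      filter_upwards [(R4_cr p).continuousAt.eventually_lt h2.continuousAt h] with y hy
      rw [R4_van hs p y (Or.inl hy), map_zero]
    · filter_upwards [(R4_cr p).continuousAt.eventually (gt_mem_nhds h)] with y hy
      rw [R4_van hs p y (Or.inr hy), map_zero]
  rw [ev_dd_congr h1, map_zero, map_zero]

private theorem R4_near (θ : Om (X.xV N)) (p : (X.xV (N + 1)).Plot k) (z : V k) (h : 3 / 4 < (p.1 z).2 (Fin.last N)) :
    ev z (Om.on (R4T θ) p) = ev z (Om.on ((R4p X N).pull θ) p) := by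
  unfold R4T
  rw [on_mul, map_mul, R4_evf, R4z_one h.le, map_one, one_mul]

private theorem R4_neard (θ : Om (X.xV N)) (p : (X.xV (N + 1)).Plot k) (z : V k) (h : 3 / 4 < (p.1 z).2 (Fin.last N)) :
    ev z (Om.on (dO _ (R4T θ)) p) = ev z (Om.on ((R4p X N).pull (dO _ θ)) p) := by
  rw [on_d, ← pull_d, on_d]
  refine ev_dd_congr ?_
  filter_upwards [(R4_cr p).continuousAt.eventually (lt_mem_nhds h)] with y hy
  exact R4_near θ p y hy

/-! ### radial forms -/

private def R4g (k N : ℕ) : FR.Sm (k + (N + 1)) (k + N) :=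
  ⟨fun w => Fin.append (hdM k (N + 1) w) (R4rr (tlM k (N + 1) w (Fin.last N)) • pr N (tlM k (N + 1) w)),
    contDiff_append (hdM k (N + 1)).smooth
      ((R4rr_smooth.comp (contDiff_pi.1 (tlM k (N + 1)).smooth (Fin.last N))).smul
        ((pr N).smooth.comp (tlM k (N + 1)).smooth))⟩

private theorem R4g_apply (w : V (k + (N + 1))) : R4g k N w =
    Fin.append (hdM k (N + 1) w) (R4rr (tlM k (N + 1) w (Fin.last N)) • pr N (tlM k (N + 1) w)) := rfl

private theorem R4_pl (P : X.Plot k) : (R4p X N).pl (P.xV (N + 1)) = (P.xV N).cmp (R4g k N) :=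
  Plot_ext fun w => by
    show (P.1 (hdM k (N + 1) w), R4rr (tlM k (N + 1) w (Fin.last N)) • pr N (tlM k (N + 1) w)) =
      (P.1 (hdM k N (R4g k N w)), tlM k N (R4g k N w))
    rw [R4g_apply, hdM_append, tlM_append]

private theorem R4_vv (ξ : V N) : vv k ξ = EUL.phi (Fin.append (0 : V k) ξ) := by
  refine LinearMap.ext fun a => ?_
  rw [EUL.phi_apply, Fin.sum_univ_add]
  unfold vv
  rw [LinearMap.sum_apply]
  simp only [Fin.append_left, Fin.append_right, Pi.zero_apply, zero_mul, Finset.sum_const_zero, zero_add]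
  rfl

private theorem R4_fd (w : V (k + (N + 1))) (h : 1 / 2 < tlM k (N + 1) w (Fin.last N)) :
    fderiv ℝ (R4g k N : V (k + (N + 1)) → V (k + N)) w (Fin.append (0 : V k) (tlM k (N + 1) w)) = 0 := by
  obtain ⟨y, hy⟩ : ∃ y : V (N + 1), y = tlM k (N + 1) w := ⟨_, rfl⟩
  rw [← hy] at h ⊢
  have h1 : HasDerivAt (fun t : ℝ => R4g k N (w + t • Fin.append (0 : V k) y))
      (fderiv ℝ (R4g k N : V (k + (N + 1)) → V (k + N)) w (Fin.append (0 : V k) y)) 0 :=
    ((R4g k N).diff w).hasFDerivAt.hasLineDerivAt (Fin.append (0 : V k) y)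
  have h2 : ∀ᶠ t : ℝ in 𝓝 0, R4g k N (w + t • Fin.append (0 : V k) y) = R4g k N w := by
    have hc : Continuous fun t : ℝ => (1 + t) * y (Fin.last N) :=
      (continuous_const.add continuous_id).mul continuous_const
    have h0 : 1 / 2 < (1 + (0 : ℝ)) * y (Fin.last N) := by rw [add_zero, one_mul]; exact h
    filter_upwards [hc.continuousAt.eventually (lt_mem_nhds h0)] with t ht
    have e1 : w + t • Fin.append (0 : V k) y = Fin.append (hdM k (N + 1) w) ((1 + t) • y) := by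
      funext i
      refine Fin.addCases (fun i => ?_) (fun i => ?_) i
      · rw [Pi.add_apply, Pi.smul_apply, Fin.append_left, Fin.append_left, Pi.zero_apply, smul_zero, add_zero]
        rfl
      · rw [Pi.add_apply, Pi.smul_apply, Fin.append_right, Fin.append_right, Pi.smul_apply, smul_eq_mul, smul_eq_mul, hy]
        have h3 : w (Fin.natAdd k i) = tlM k (N + 1) w i := rfl
        rw [h3]
        ring
    rw [e1, R4g_apply, R4g_apply, hdM_append, tlM_append, ← hy]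
    congr 1
    have h4 : ((1 + t) • y) (Fin.last N) = (1 + t) * y (Fin.last N) := rfl
    have h5 : pr N ((1 + t) • y) = (1 + t) • pr N y := rfl
    rw [h4, R4rr_eq ht.le, R4rr_eq h.le, h5, smul_smul]
    congr 1
    have h6 : y (Fin.last N) ≠ 0 := by
      intro h7
      rw [h7] at h
      norm_num at h
    have h7 : 1 + t ≠ 0 := by
      intro h8
      rw [h8, zero_mul] at ht
      norm_num at ht
    field_simp
  have h3 : HasDerivAt (fun t : ℝ => R4g k N (w + t • Fin.append (0 : V k) y)) 0 0 :=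
    (hasDerivAt_const (0 : ℝ) (R4g k N w)).congr_of_eventuallyEq h2
  exact h1.unique h3

private theorem R4_K3 (θ : Om (X.xV N)) (P : X.Plot k) (w : V (k + (N + 1))) (h : 1 / 2 < tlM k (N + 1) w (Fin.last N)) :
    ctr (vv k (tlM k (N + 1) w)) (ev w (Om.on ((R4p X N).pull θ) (P.xV (N + 1)))) = 0 := by
  rw [on_pull, R4_pl, on_cmp, R4_vv, EUL.ctr_ev_pb, R4_fd w h]
  have h1 : EUL.phi (0 : V (k + N)) = (0 : ℝ) • EUL.phi (0 : V (k + N)) := by rw [← EUL.phi_smul, zero_smul]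
  rw [h1, EUL.ctr_smul, zero_smul, map_zero]

private theorem R4_rad {f : Om (X.xV (N + 1))} (hf : Deg 0 f) {θ : Om (X.xV (N + 1))}
    (h : ∀ (k : ℕ) (P : X.Plot k) (w : V (k + (N + 1))), ev w (Om.on f (P.xV (N + 1))) = 0 ∨
      ctr (vv k (tlM k (N + 1) w)) (ev w (Om.on θ (P.xV (N + 1)))) = 0) : RadO (f * θ) := by
  intro k P w
  rw [on_mul, map_mul]
  rcases h k P w with h | h
  · rw [h, zero_mul, map_zero]
  · rw [← Dg_fn (hf _ (P.xV (N + 1))), ev_fc, ← Algebra.smul_def, map_smul, h, smul_zero]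

private theorem R4_norm (y : V (N + 1)) : ‖toE y‖ ^ 2 = ‖toE (pr N y)‖ ^ 2 + y (Fin.last N) ^ 2 := by
  rw [EuclideanSpace.norm_sq_eq, EuclideanSpace.norm_sq_eq, Fin.sum_univ_castSucc]
  simp only [Real.norm_eq_abs, sq_abs]
  rfl

private theorem R4_geo (y : V (N + 1)) (h1 : 1 ≤ ‖toE y‖) (h2 : y (Fin.last N) ≤ 3 / 4) :
    y (Fin.last N) < 6 * ‖toE (pr N y)‖ ∨ y (Fin.last N) ≤ 0 := by
  by_contra h
  push Not at h
  have h3 := R4_norm y
  have h4 := norm_nonneg (toE (pr N y))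
  obtain ⟨a, ha⟩ : ∃ a, a = ‖toE (pr N y)‖ := ⟨_, rfl⟩
  obtain ⟨r, hr⟩ : ∃ r, r = y (Fin.last N) := ⟨_, rfl⟩
  rw [← ha, ← hr] at h3 h
  rw [← ha] at h4
  rw [← hr] at h2
  have h5 : a ^ 2 ≤ (1 / 8) ^ 2 := pow_le_pow_left₀ h4 (by linarith) 2
  have h6 : r ^ 2 ≤ (3 / 4) ^ 2 := pow_le_pow_left₀ (by linarith) h2 2
  have h7 : (1 : ℝ) ≤ ‖toE y‖ ^ 2 := one_le_pow₀ h1
  norm_num at h5 h6
  linarith

/-! ### the cut off form -/

private theorem R4_cut {E : SMap (X.xP (N + 1)) S} (hE : HomO E) {w : Om S} (hs : SuppC (E.pull w)) :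
    cutX (E.pull w) = dch (N + 1) X * R4T ((E.comp (sgC X N)).pull w) := by
  refine ext_unique (open_neZ X (N + 1)) ?_ ?_
  · rw [inU_cutX, map_mul]
    refine Om_ext fun k p => ev_ext fun z => ?_
    rw [on_mul, on_mul, map_mul, map_mul]
    by_cases h : ‖toE (p.1 z).1.2‖ < 1 ∨ 2 < ‖toE (p.1 z).1.2‖
    · have h1 : ev z (Om.on ((inU (X.xV (N + 1)) (neZ X (N + 1))).pull (dch (N + 1) X)) p) = 0 :=
        ev_dch ((inU (X.xV (N + 1)) (neZ X (N + 1))).pl p) z h
      rw [h1, zero_mul, zero_mul]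
    · push Not at h
      congr 1
      obtain ⟨q, hq⟩ : ∃ q, q = (inU (X.xV (N + 1)) (neZ X (N + 1))).pl p := ⟨_, rfl⟩
      have hqv : ∀ y, q.1 y = (p.1 y).1 := fun y => by rw [hq]; rfl
      have h0 : Om.on ((inU (X.xV (N + 1)) (neZ X (N + 1))).pull (R4T ((E.comp (sgC X N)).pull w))) p =
          Om.on (R4T ((E.comp (sgC X N)).pull w)) q := by rw [hq]; rfl
      rw [h0]
      by_cases h3 : 3 / 4 < (p.1 z).1.2 (Fin.last N)
      · rw [R4_near _ q z (by rw [hqv]; exact h3)]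
        refine on_germ w ?_
        have h4 := (R4_cr q).continuousAt.eventually (lt_mem_nhds (show 3 / 4 < (q.1 z).2 (Fin.last N) by
          rw [hqv]; exact h3))
        filter_upwards [h4] with y hy
        rw [hqv] at hy
        have h5 : (0 : ℝ) < (p.1 y).1.2 (Fin.last N) := by linarith
        have h6 := hE (p.1 y).1.1 (p.1 y).1.2 (p.1 y).2 (3 / (p.1 y).1.2 (Fin.last N)) (by positivity)
        show E.1 (p.1 y) = E.1 ((sgC X N).1 ((R4p X N).1 (q.1 y)))
        have h7 : E.1 (p.1 y) = E.1 ⟨((p.1 y).1.1, (p.1 y).1.2), (p.1 y).2⟩ := rfl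
        rw [h7, ← h6]
        refine congrArg E.1 (Subtype.ext (Prod.ext ?_ ?_))
        · rw [hqv]
          rfl
        · rw [hqv]
          show (3 / (p.1 y).1.2 (Fin.last N)) • (p.1 y).1.2 =
            (Fin.snoc (R4rr ((p.1 y).1.2 (Fin.last N)) • pr N (p.1 y).1.2) 3 : V (N + 1))
          rw [R4rr_eq (by linarith)]
          funext i
          refine Fin.lastCases ?_ (fun i => ?_) i
          · rw [Fin.snoc_last, Pi.smul_apply, smul_eq_mul]
            exact div_mul_cancel₀ _ h5.ne'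
          · rw [Fin.snoc_castSucc]
            rfl
      · have h4 := R4_geo (p.1 z).1.2 h.1 (not_lt.1 h3)
        rw [R4_van (SuppB_cap hs) q z (by
          rw [hqv]
          rcases h4 with h4 | h4
          · exact Or.inl h4
          · exact Or.inr (by linarith)), hs k p z h4]
  · intro k p x hx
    have h1 : (p.1 x).2 = 0 := by_contra fun h => hx h
    have h2 : ‖toE (p.1 x).2‖ < 1 := by
      rw [h1]
      show ‖(WithLp.toLp 2 (0 : V (N + 1)) : EuclideanSpace ℝ (Fin (N + 1)))‖ < 1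
      rw [WithLp.toLp_zero, norm_zero]
      exact one_pos
    rw [ev_cutX _ p x (Or.inl h2), on_mul, map_mul, ev_dch p x (Or.inl h2), zero_mul]

private theorem R4_JXd {L : ℕ} {Θ : Om (X.xV L)} (h : VSO Θ) (h0 : JX L X Θ = 0) : JX L X (dO _ Θ) = 0 := by
  have h1 := JX_d h
  rw [h0, map_zero] at h1
  have h2 : ((-1 : ℝ) ^ L) • JX L X (dO _ Θ) = 0 := h1.symm
  exact (smul_eq_zero.1 h2).resolve_left (pow_ne_zero _ (by norm_num))

/-- **integral over the sphere of a form supported in a cap** -/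
theorem SI_cap (hN : 1 ≤ N) {E : SMap (X.xP (N + 1)) S} (hE : HomO E) {w : Om S} (hs : SuppC (E.pull w)) :
    SI (N + 1) X (E.pull w) = JX N X ((E.comp (sgC X N)).pull w) := by
  obtain ⟨θ, hθ⟩ : ∃ θ, θ = (E.comp (sgC X N)).pull w := ⟨_, rfl⟩
  have hB : SuppB θ := by rw [hθ]; exact SuppB_cap hs
  rw [SI_def, R4_cut hE hs, ← hθ]
  obtain ⟨T, hT⟩ : ∃ T, T = R4T θ := ⟨_, rfl⟩
  obtain ⟨c, hc⟩ : ∃ c, c = R4f X N chi contDiff_chi := ⟨_, rfl⟩
  have hcd : Deg 0 c := by rw [hc]; exact R4_degf _ _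
  have hFd : Deg 0 (chiX (N + 1) X) := fun _ _ => Dg_fc _
  have hevc : ∀ (k : ℕ) (p : (X.xV (N + 1)).Plot k) (z : V k), ev z (Om.on c p) =
      algebraMap ℝ (Ex k) (chi ((p.1 z).2 (Fin.last N))) := fun k p z => by rw [hc]; exact R4_evf _ _ p z
  have hevF : ∀ (k : ℕ) (p : (X.xV (N + 1)).Plot k) (z : V k), ev z (Om.on (chiX (N + 1) X) p) =
      algebraMap ℝ (Ex k) (chi ‖toE (p.1 z).2‖) := fun k p z => ev_fO _ _ p z
  -- radial forms
  have hr1 : RadO (c * dO _ T) := by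
    refine R4_rad hcd fun k P w => ?_
    by_cases h : 1 < tlM k (N + 1) w (Fin.last N)
    · right
      rw [hT, R4_neard θ (P.xV (N + 1)) w (show 3 / 4 < tlM k (N + 1) w (Fin.last N) by linarith)]
      exact R4_K3 _ P w (by linarith)
    · left
      have hP : ((P.xV (N + 1)).1 w).2 = tlM k (N + 1) w := rfl
      rw [hevc, hP, chi_zero (not_lt.1 h), map_zero]
  have hr2 : RadO (c * T) := by
    refine R4_rad hcd fun k P w => ?_
    by_cases h : 1 < tlM k (N + 1) w (Fin.last N)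
    · right
      rw [hT, R4_near θ (P.xV (N + 1)) w (show 3 / 4 < tlM k (N + 1) w (Fin.last N) by linarith)]
      exact R4_K3 _ P w (by linarith)
    · left
      have hP : ((P.xV (N + 1)).1 w).2 = tlM k (N + 1) w := rfl
      rw [hevc, hP, chi_zero (not_lt.1 h), map_zero]
  have hG : ∀ (k : ℕ) (P : X.Plot k) (w : V (k + (N + 1))), ¬ 3 / 4 < tlM k (N + 1) w (Fin.last N) →
      ev w (Om.on (chiX (N + 1) X - c) (P.xV (N + 1))) = 0 ∨
      (tlM k (N + 1) w (Fin.last N) < 6 * ‖toE (pr N (tlM k (N + 1) w))‖ ∨ tlM k (N + 1) w (Fin.last N) < 1 / 2) := by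
    intro k P w h
    push Not at h
    have hP : ((P.xV (N + 1)).1 w).2 = tlM k (N + 1) w := rfl
    by_cases h1 : ‖toE (tlM k (N + 1) w)‖ ≤ 1
    · left
      rw [on_sub, map_sub, hevF, hevc, hP, chi_zero h1, chi_zero (by linarith), sub_self]
    · right
      rcases R4_geo _ (le_of_lt (not_le.1 h1)) h with h2 | h2
      · exact Or.inl h2
      · exact Or.inr (by linarith)
  have hr3 : RadO ((chiX (N + 1) X - c) * dO _ T) := by
    refine R4_rad (Deg_sub hFd hcd) fun k P w => ?_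
    by_cases h : 3 / 4 < tlM k (N + 1) w (Fin.last N)
    · right
      rw [hT, R4_neard θ (P.xV (N + 1)) w h]
      exact R4_K3 _ P w (by linarith)
    · rcases hG k P w h with h1 | h1
      · exact Or.inl h1
      · right
        rw [hT, R4_vand hB (P.xV (N + 1)) w h1, map_zero]
  have hr4 : RadO ((chiX (N + 1) X - c) * T) := by
    refine R4_rad (Deg_sub hFd hcd) fun k P w => ?_
    by_cases h : 3 / 4 < tlM k (N + 1) w (Fin.last N)
    · right
      rw [hT, R4_near θ (P.xV (N + 1)) w h]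
      exact R4_K3 _ P w (by linarith)
    · rcases hG k P w h with h1 | h1
      · exact Or.inl h1
      · right
        rw [hT, R4_van hB (P.xV (N + 1)) w h1, map_zero]
  have hN1 : 1 ≤ N + 1 := by omega
  -- vertical supports
  have hV1 : VSO ((chiX (N + 1) X - c) * T) := by
    intro k P w hw
    obtain ⟨i, hi⟩ := hw
    have hP : ((P.xV (N + 1)).1 w).2 = tlM k (N + 1) w := rfl
    rw [on_mul, map_mul]
    have h1 : ‖(toE (tlM k (N + 1) w)) i‖ ≤ ‖toE (tlM k (N + 1) w)‖ := PiLp.norm_apply_le (toE (tlM k (N + 1) w)) i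
    have h2 : ‖(toE (tlM k (N + 1) w)) i‖ = |tlM k (N + 1) w i| := Real.norm_eq_abs _
    rw [h2] at h1
    by_cases h : 2 ≤ tlM k (N + 1) w (Fin.last N)
    · rw [on_sub, map_sub, hevF, hevc, hP, chi_one h, chi_one (by linarith), sub_self, zero_mul]
    · push Not at h
      rw [hT, R4_van hB (P.xV (N + 1)) w, mul_zero]
      rw [hP]
      by_cases h3 : tlM k (N + 1) w (Fin.last N) < 1 / 2
      · exact Or.inr h3
      · left
        push Not at h3
        have h4 := R4_norm (tlM k (N + 1) w)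
        have h5 : (3 : ℝ) ^ 2 ≤ ‖toE (tlM k (N + 1) w)‖ ^ 2 := pow_le_pow_left₀ (by norm_num) (by linarith) 2
        have h6 : (tlM k (N + 1) w (Fin.last N)) ^ 2 ≤ 2 ^ 2 := pow_le_pow_left₀ (by linarith) h.le 2
        by_contra h7
        push Not at h7
        have h8 : ‖toE (pr N (tlM k (N + 1) w))‖ ^ 2 ≤ (1 / 3) ^ 2 := pow_le_pow_left₀ (norm_nonneg _) (by linarith) 2
        norm_num at h5 h6 h8
        linarith
  -- step 2
  have e1 : dch (N + 1) X * T = dO _ c * T + dO _ ((chiX (N + 1) X - c) * T) - (chiX (N + 1) X - c) * dO _ T := by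
    have h1 : sO _ (chiX (N + 1) X - c) = chiX (N + 1) X - c := Deg_even (j := 0) (Deg_sub hFd hcd)
    rw [d_mul, h1, map_sub, sub_mul]
    show dO _ (chiX (N + 1) X) * T = _
    abel
  have e2 : dO _ c * T = dO _ (c * T) - c * dO _ T := by
    have h1 : sO _ c = c := Deg_even (j := 0) hcd
    rw [d_mul, h1, add_sub_cancel_right]
  rw [← hT, e1, map_sub, map_add, JX_rad hN1 hr3, sub_zero, R4_JXd hV1 (JX_rad hN1 hr4), add_zero, e2, map_sub,
    JX_rad hN1 hr1, sub_zero, JX_succ, ← pull_d]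
  -- step 3
  obtain ⟨Ψ, hΨ⟩ : ∃ Ψ, Ψ = (snM X N).pull (c * T) := ⟨_, rfl⟩
  rw [← hΨ]
  have h3 : ((Rph (X.xV N) contDiff_63).comp (jO _ 1)) = jO (X.xV N) 3 := SMap_ext fun z => by
    show (z, 6 * (1 : ℝ) - 3) = (z, (3 : ℝ))
    norm_num
  have h4 : ((Rph (X.xV N) contDiff_63).comp (jO _ 0)) = jO (X.xV N) (-3) := SMap_ext fun z => by
    show (z, 6 * (0 : ℝ) - 3) = (z, (-3 : ℝ))
    norm_num
  have e3 : KL _ (dO _ Ψ) = (jO (X.xV N) 3).pull Ψ - (jO (X.xV N) (-3)).pull Ψ - dO _ (KL _ Ψ) := by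
    have h5 := d_K ((Rph (X.xV N) contDiff_63).pull Ψ)
    rw [← pull_comp, ← pull_comp, h3, h4, pull_d] at h5
    rw [← h5]
    unfold KL
    abel
  have e4 : (jO (X.xV N) 3).pull Ψ = θ := by
    refine Om_ext fun k p => ev_ext fun z => ?_
    obtain ⟨q, hq⟩ : ∃ q, q = (snM X N).pl ((jO (X.xV N) 3).pl p) := ⟨_, rfl⟩
    have hq1 : ∀ y, (q.1 y).2 = (Fin.snoc (p.1 y).2 3 : V (N + 1)) := fun y => by rw [hq]; rfl
    have hq0 : ∀ y, (q.1 y).1 = (p.1 y).1 := fun y => by rw [hq]; rfl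
    have h5 : Om.on ((jO (X.xV N) 3).pull Ψ) p = Om.on c q * Om.on T q := by rw [hΨ, hq]; rfl
    rw [h5, map_mul, hevc, hq1, Fin.snoc_last, chi_one (by norm_num), map_one, one_mul, hT,
      R4_near θ q z (by rw [hq1, Fin.snoc_last]; norm_num), on_pull]
    congr 2
    refine Plot_ext fun y => Prod.ext (hq0 y) ?_
    show R4rr ((q.1 y).2 (Fin.last N)) • pr N (q.1 y).2 = (p.1 y).2
    rw [hq1, Fin.snoc_last, pr_snoc, R4rr_eq (by norm_num), div_self (by norm_num), one_smul]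
  have e5 : (jO (X.xV N) (-3)).pull Ψ = 0 := by
    refine Om_ext fun k p => ev_ext fun z => ?_
    obtain ⟨q, hq⟩ : ∃ q, q = (snM X N).pl ((jO (X.xV N) (-3)).pl p) := ⟨_, rfl⟩
    have hq1 : ∀ y, (q.1 y).2 = (Fin.snoc (p.1 y).2 (-3) : V (N + 1)) := fun y => by rw [hq]; rfl
    have h5 : Om.on ((jO (X.xV N) (-3)).pull Ψ) p = Om.on c q * Om.on T q := by rw [hΨ, hq]; rfl
    rw [h5, map_mul, hevc, hq1, Fin.snoc_last, chi_zero (by norm_num), map_zero, zero_mul, on_zero, map_zero]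
  have hV2 : VSO (KL _ Ψ) := by
    intro k P w hw
    obtain ⟨i, hi⟩ := hw
    refine (Module.forall_dual_apply_eq_zero_iff ℝ _).1 fun L => ?_
    unfold KL
    rw [on_K, on_pull]
    have h5 := INTe_KK (L : Ex (k + N) →ₗ[ℝ] ℝ) w (Om.on Ψ ((Rph (X.xV N) contDiff_63).pl (P.xV N).up))
    have h6 : ∫ s in (0 : ℝ)..1, (L : Ex (k + N) →ₗ[ℝ] ℝ) (kil (k + N) (ctr (lst (k + N)) (ev (Fin.snoc w s)
        (Om.on Ψ ((Rph (X.xV N) contDiff_63).pl (P.xV N).up))))) = ∫ s in (0 : ℝ)..1, (0 : ℝ) := by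
      refine intervalIntegral.integral_congr fun s hs => ?_
      rw [uIcc_of_le zero_le_one] at hs
      obtain ⟨q, hq⟩ : ∃ q, q = (snM X N).pl ((Rph (X.xV N) contDiff_63).pl (P.xV N).up) := ⟨_, rfl⟩
      have hq1 : (q.1 (Fin.snoc w s)).2 = (Fin.snoc (tlM k N w) (6 * s - 3) : V (N + 1)) := by
        rw [hq]
        show (Fin.snoc (tlM k N (pr (k + N) (Fin.snoc w s)))
          (6 * (Fin.snoc w s : V (k + N + 1)) (Fin.last (k + N)) - 3) : V (N + 1)) = _
        rw [pr_snoc, Fin.snoc_last]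
      have h7 : Om.on Ψ ((Rph (X.xV N) contDiff_63).pl (P.xV N).up) = Om.on c q * Om.on T q := by rw [hΨ, hq]; rfl
      have h8 : ev (Fin.snoc w s) (Om.on c q * Om.on T q) = 0 := by
        rw [map_mul, hT, R4_van hB q (Fin.snoc w s), mul_zero]
        left
        rw [hq1, Fin.snoc_last, pr_snoc]
        have h9 : ‖(toE (tlM k N w)) i‖ ≤ ‖toE (tlM k N w)‖ := PiLp.norm_apply_le (toE (tlM k N w)) i
        have h10 : ‖(toE (tlM k N w)) i‖ = |tlM k N w i| := Real.norm_eq_abs _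
        rw [h10] at h9
        linarith [hs.2]
      show (L : Ex (k + N) →ₗ[ℝ] ℝ) (kil (k + N) (ctr (lst (k + N)) (ev (Fin.snoc w s)
        (Om.on Ψ ((Rph (X.xV N) contDiff_63).pl (P.xV N).up))))) = 0
      rw [h7, h8, map_zero, map_zero, map_zero]
    rw [h6, intervalIntegral.integral_zero] at h5
    exact h5
  have e6 : JX N X (KL _ Ψ) = 0 := by
    rw [hΨ, ← JX_succ]
    exact JX_rad hN1 hr2
  rw [e3, map_sub, e4, e5, sub_zero, R4_JXd hV2 e6, sub_zero]

end Pool.Agent.Lib.MP_ccbbf6_gt.K7
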