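import Pool.Agent.Lib.MP_ccbbf6_gt.K7.FB1
import Pool.Agent.Lib.MP_ccbbf6_gt.K7.RAD4
import Pool.Agent.Lib.MP_ccbbf6_gt.L5.INTn

/-!
# `κ = 7`, block F, part B3: the space `K2` of four geodesics and its fibre integral in coordinates (helper53)

`bV : SBun 7 B F`. `T2 = {(c1, c2)}`, `T3`, `T4 = {(c1, c2, c3, c4)}` over `F`; `J4 : Om (T4 bV) → Om B` integrates over `c4, c3, c2`.
`Fra bV` : frames `Z → B` of the fibres adapted to the direction; `q_J4` : in the frames `J4` is the iterated integral over `(R^7)^3`, for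
forms supported near the diagonal `(c, -c, c, -c)`.
-/

set_option autoImplicit false
set_option maxSynthPendingDepth 3

open Set Filter Topology MeasureTheory
open scoped TensorProduct ContDiff

noncomputable section

namespace Pool.Agent.Lib.MP_ccbbf6_gt.K7

open L4 L4.FR L5

variable {X Y Z Z' M G F S B A : Space} {k l n N : ℕ} {i j : ℕ}

/-! ### Norms -/

theorem tsq {N : ℕ} (x : V N) : ‖toE x‖ ^ 2 = ∑ i, x i ^ 2 := by
  have h := EuclideanSpace.norm_eq (toE x)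
  rw [h, Real.sq_sqrt (Finset.sum_nonneg fun i _ => sq_nonneg _)]
  refine Finset.sum_congr rfl fun i _ => ?_
  rw [Real.norm_eq_abs, sq_abs]
  rfl

theorem tsq_snoc {N : ℕ} (x : V N) (c : ℝ) : ‖toE (Fin.snoc x c : V (N + 1))‖ ^ 2 = ‖toE x‖ ^ 2 + c ^ 2 := by
  rw [tsq, tsq, Fin.sum_univ_castSucc, Fin.snoc_last]
  simp only [Fin.snoc_castSucc]

theorem tsq_last {N : ℕ} (x : V (N + 1)) :
    ‖toE x‖ ^ 2 = ‖toE (fun i : Fin N => x i.castSucc)‖ ^ 2 + x (Fin.last N) ^ 2 := by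
  rw [tsq, tsq, Fin.sum_univ_castSucc]

theorem tsq_add {a b : ℕ} (x : V (a + b)) : ‖toE x‖ ^ 2 = ‖toE (hdM a b x)‖ ^ 2 + ‖toE (tlM a b x)‖ ^ 2 := by
  rw [tsq, tsq, tsq, Fin.sum_univ_add]
  rfl

theorem norm_toE_pos {N : ℕ} {x : V N} (h : x ≠ 0) : 0 < ‖toE x‖ := by
  refine norm_pos_iff.2 fun h0 => h (funext fun i => ?_)
  exact congrFun (congrArg (fun v : EuclideanSpace ℝ (Fin N) => (v : Fin N → ℝ)) h0) i

/-- the angle outside the cone -/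
theorem cone_lt {N : ℕ} {x : V (N + 1)} (hx : x ≠ 0)
    (h : x (Fin.last N) < 6 * ‖toE (fun i : Fin N => x i.castSucc)‖ ∨ x (Fin.last N) ≤ 0) :
    x (Fin.last N) / ‖toE x‖ < 99 / 100 := by
  have h1 := norm_toE_pos hx
  have h2 := tsq_last x
  have h3 : 0 ≤ ‖toE (fun i : Fin N => x i.castSucc)‖ := norm_nonneg _
  obtain ⟨r, hr⟩ : ∃ r, r = x (Fin.last N) := ⟨_, rfl⟩
  obtain ⟨m, hm⟩ : ∃ m, m = ‖toE x‖ := ⟨_, rfl⟩
  obtain ⟨t, ht⟩ : ∃ t, t = ‖toE (fun i : Fin N => x i.castSucc)‖ := ⟨_, rfl⟩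
  rw [← hr, ← ht] at h
  rw [← hr, ← hm, ← ht] at h2
  rw [← hm] at h1
  rw [← ht] at h3
  rw [← hr, ← hm, div_lt_iff₀ h1]
  rcases le_or_gt r 0 with h4 | h4
  · have : 0 < 99 / 100 * m := by positivity
    linarith
  · have h5 : r < 6 * t := h.resolve_right (not_le.2 h4)
    by_contra hcon
    rw [not_lt] at hcon
    nlinarith

/-- the function of the distance to the diagonal -/
theorem far_one {t c : ℝ} (hc : 0 < c) (h : c ^ 2 = t + 9) (ht : 0 ≤ t) : 0 ≤ 1 - 3 / c := by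
  rw [sub_nonneg, div_le_one hc]
  nlinarith

theorem far_two {t c : ℝ} (hc : 0 < c) (h : c ^ 2 = t + 9) (ht : 0 ≤ t) : min t (1 / 4) / 20 ≤ 1 - 3 / c := by
  have h1 : 3 ≤ c := by nlinarith
  rw [le_sub_iff_add_le, ← le_sub_iff_add_le', div_le_iff₀ hc]
  rcases le_total t (1 / 4) with h2 | h2
  · rw [min_eq_left h2]
    have h4 : c ≤ 3 + t / 6 := by nlinarith
    nlinarith
  · rw [min_eq_right h2]
    have h4 : (3041 : ℝ) / 1000 ≤ c := by nlinarith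
    nlinarith

theorem far_three {t1 t2 t3 c1 c2 c3 : ℝ} (h1 : 0 < c1) (h2 : 0 < c2) (h3 : 0 < c3) (e1 : c1 ^ 2 = t1 + 9) (e2 : c2 ^ 2 = t2 + 9)
    (e3 : c3 ^ 2 = t3 + 9) (k1 : 0 ≤ t1) (k2 : 0 ≤ t2) (k3 : 0 ≤ t3) (h : 1 / 4 < t1 + t2 + t3) :
    1 / 100 < (1 - 3 / c1) + (1 - 3 / c2) + (1 - 3 / c3) := by
  have a1 := far_two h1 e1 k1
  have a2 := far_two h2 e2 k2
  have a3 := far_two h3 e3 k3
  have b1 : 0 ≤ min t1 (1 / 4) := le_min k1 (by norm_num)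
  have b2 : 0 ≤ min t2 (1 / 4) := le_min k2 (by norm_num)
  have b3 : 0 ≤ min t3 (1 / 4) := le_min k3 (by norm_num)
  have h4 : 1 / 4 ≤ min t1 (1 / 4) + min t2 (1 / 4) + min t3 (1 / 4) := by
    rcases le_total t1 (1 / 4) with c | c
    · rcases le_total t2 (1 / 4) with c' | c'
      · rcases le_total t3 (1 / 4) with c'' | c''
        · rw [min_eq_left c, min_eq_left c', min_eq_left c'']
          exact h.le
        · rw [min_eq_right c'']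
          linarith
      · rw [min_eq_right c']
        linarith
    · rw [min_eq_right c]
      linarith
  linarith

/-! ### Frames of a pull back -/

/-- the point with coordinates `ξ` in the fibre over `f (q' z)` -/
def ptF (bV : SBun 7 B F) {f : SMap A F} (q' : SMap Z' A) (φ' : SMap Z' bV.F) (h : ∀ z, f.1 (q'.1 z) = bV.q.1 (φ'.1 z)) :
    SMap (Z'.xP 8) (fp f bV.pi) :=
  fpM (q'.comp (pP Z' 8)) (bV.ptm.comp (φ'.xP 8)) fun w => by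
    change f.1 (q'.1 w.1.1) = bV.pi.1 (bV.ptm.1 ((φ'.xP 8).1 w))
    rw [bV.pi_pt, h]
    rfl

theorem ptF_fst (bV : SBun 7 B F) {f : SMap A F} (q' : SMap Z' A) (φ' : SMap Z' bV.F)
    (h : ∀ z, f.1 (q'.1 z) = bV.q.1 (φ'.1 z)) (w : (Z'.xP 8).pt) : (fp1 f bV.pi).1 ((ptF bV q' φ' h).1 w) = q'.1 w.1.1 := rfl

/-- fibre integrals in frames -/
theorem q_fr {N : ℕ} (b : SBun N S B) (r : SMap Z' b.F) (θ : Om S) :
    (b.q.comp r).pull (b.PI θ) = SI (N + 1) Z' ((b.ptm.comp (r.xP (N + 1))).pull θ) := by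
  rw [pull_comp, b.q_PI, ← SI_nat, ← pull_comp]

theorem q_step (bV : SBun 7 B F) {f : SMap A F} (q' : SMap Z' A) (φ' : SMap Z' bV.F)
    (h : ∀ z, f.1 (q'.1 z) = bV.q.1 (φ'.1 z)) (θ : Om (fp f bV.pi)) :
    q'.pull ((bV.pull f).PI θ) = SI 8 Z' ((ptF bV q' φ' h).pull θ) :=
  q_fr (bV.pull f) (fpM (f := f) (g := bV.q) q' φ' h) θ

/-- the same point in rotated coordinates -/
def ptC (bV : SBun 7 B F) {f : SMap A F} (q' : SMap Z' A) (φ' : SMap Z' bV.F) (h : ∀ z, f.1 (q'.1 z) = bV.q.1 (φ'.1 z))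
    {C : Matrix (Fin (7 + 1)) (Fin (7 + 1)) ℝ} (hC : C.transpose * C = 1) : SMap (Z'.xP (7 + 1)) (fp f bV.pi) :=
  (ptF bV q' φ' h).comp (frP (fun _ _ _ _ => contDiff_const) fun _ => hC)

theorem det_or {n : ℕ} {A : Matrix (Fin n) (Fin n) ℝ} (hA : A.transpose * A = 1) : A.det = 1 ∨ A.det = -1 := by
  have h4 := congrArg Matrix.det hA
  rw [Matrix.det_mul, Matrix.det_transpose, Matrix.det_one] at h4
  exact mul_self_eq_one_iff.1 h4

theorem det_abs {n : ℕ} {A : Matrix (Fin n) (Fin n) ℝ} (hA : A.transpose * A = 1) : |A.det| = 1 := by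
  rcases det_or hA with h | h <;> rw [h] <;> norm_num

theorem det_sq {n : ℕ} {A : Matrix (Fin n) (Fin n) ℝ} (hA : A.transpose * A = 1) : A.det * A.det = 1 := by
  rcases det_or hA with h | h <;> rw [h] <;> norm_num

theorem q_stepC (bV : SBun 7 B F) {f : SMap A F} (q' : SMap Z' A) (φ' : SMap Z' bV.F)
    (h : ∀ z, f.1 (q'.1 z) = bV.q.1 (φ'.1 z)) {C : Matrix (Fin (7 + 1)) (Fin (7 + 1)) ℝ} (hC : C.transpose * C = 1)
    (θ : Om (fp f bV.pi)) :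
    q'.pull ((bV.pull f).PI θ) = C.det • SI (7 + 1) Z' ((ptC bV q' φ' h hC).pull θ) := by
  have h1 := SI_frP (X := Z') (A := fun _ => C) (fun _ _ _ _ => contDiff_const) (fun _ => hC) (det_abs hC) (fun _ => rfl)
    ((ptF bV q' φ' h).pull θ)
  rw [← pull_comp] at h1
  have h2 : SI (7 + 1) Z' ((ptC bV q' φ' h hC).pull θ) = C.det • SI (7 + 1) Z' ((ptF bV q' φ' h).pull θ) := h1
  rw [h2, smul_smul, det_sq hC, one_smul]
  exact q_step bV q' φ' h θ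

theorem homO_ptF (bV : SBun 7 B F) {f : SMap A F} (q' : SMap Z' A) (φ' : SMap Z' bV.F)
    (h : ∀ z, f.1 (q'.1 z) = bV.q.1 (φ'.1 z)) : HomO (ptF bV q' φ' h) := fun x ξ hξ r hr =>
  Subtype.ext (Prod.ext rfl (bV.hom (φ'.1 x) ξ hξ r hr))

theorem homO_ptC (bV : SBun 7 B F) {f : SMap A F} (q' : SMap Z' A) (φ' : SMap Z' bV.F)
    (h : ∀ z, f.1 (q'.1 z) = bV.q.1 (φ'.1 z)) {C : Matrix (Fin (7 + 1)) (Fin (7 + 1)) ℝ} (hC : C.transpose * C = 1) :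
    HomO (ptC bV q' φ' h hC) := fun x ξ hξ r hr => by
  have h1 := homO_ptF bV q' φ' h x (C.mulVec ξ) (mulVec_ne hC hξ) r hr
  refine Eq.trans ?_ h1
  refine congrArg (ptF bV q' φ' h).1 (Subtype.ext (Prod.ext rfl ?_))
  exact Matrix.mulVec_smul C r ξ

/-- the reflection in the last coordinate -/
def rfM (N : ℕ) : Matrix (Fin (N + 1)) (Fin (N + 1)) ℝ := Matrix.diagonal (Fin.snoc (fun _ : Fin N => (1 : ℝ)) (-1) : Fin (N + 1) → ℝ)

theorem rfM_sq (N : ℕ) : (rfM N).transpose * rfM N = 1 := by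
  unfold rfM
  rw [Matrix.diagonal_transpose, Matrix.diagonal_mul_diagonal, ← Matrix.diagonal_one]
  congr 1
  funext i
  refine Fin.lastCases ?_ (fun i => ?_) i
  · rw [Fin.snoc_last]
    norm_num
  · rw [Fin.snoc_castSucc]
    norm_num

theorem rfM_det (N : ℕ) : (rfM N).det = -1 := by
  unfold rfM
  rw [Matrix.det_diagonal, Fin.prod_univ_castSucc, Fin.snoc_last]
  simp only [Fin.snoc_castSucc, Finset.prod_const_one, one_mul]

theorem rfM_last {N : ℕ} (x : V (N + 1)) : (rfM N).mulVec x (Fin.last N) = -x (Fin.last N) := by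
  unfold rfM
  rw [Matrix.mulVec_diagonal, Fin.snoc_last, neg_one_mul]

theorem rfM_cast {N : ℕ} (x : V (N + 1)) (i : Fin N) : (rfM N).mulVec x i.castSucc = x i.castSucc := by
  unfold rfM
  rw [Matrix.mulVec_diagonal, Fin.snoc_castSucc, one_mul]

theorem rfM_norm {N : ℕ} (x : V (N + 1)) : ‖toE ((rfM N).mulVec x)‖ = ‖toE x‖ := by
  have h1 : ‖toE ((rfM N).mulVec x)‖ ^ 2 = ‖toE x‖ ^ 2 := by
    rw [tsq_last, tsq_last, rfM_last, neg_sq]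
    simp only [rfM_cast]
  exact (pow_left_inj₀ (norm_nonneg _) (norm_nonneg _) two_ne_zero).1 h1

theorem SmM_const {N : ℕ} (A : Matrix (Fin N) (Fin N) ℝ) : SmM (X := X) (fun _ => A) := fun _ _ _ _ => contDiff_const

/-- the reflection of the fibre coordinates -/
def rfX (X : Space) (N : ℕ) : SMap (X.xP (N + 1)) (X.xP (N + 1)) := frP (SmM_const (rfM N)) fun _ => rfM_sq N

theorem SI_rfX (Θ : Om (X.xP (N + 1))) : SI (N + 1) X Θ = -SI (N + 1) X ((rfX X N).pull Θ) := by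
  have h := SI_frP (X := X) (SmM_const (rfM N)) (fun _ => rfM_sq N) (s := -1) (by norm_num) (fun _ => rfM_det N) Θ
  rw [rfX, h, neg_smul, one_smul, neg_neg]

theorem homO_rfX {E : SMap (X.xP (N + 1)) S} (h : HomO E) : HomO (E.comp (rfX X N)) := fun x ξ hξ r hr => by
  have h1 := h x ((rfM N).mulVec ξ) (mulVec_ne (rfM_sq N) hξ) r hr
  refine Eq.trans ?_ h1
  refine congrArg E.1 (Subtype.ext (Prod.ext rfl ?_))
  exact Matrix.mulVec_smul (rfM N) r ξ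

theorem rfX_sgC (X : Space) (N : ℕ) : (rfX X N).comp (sgC X N) = conM X N (c := -3) (by norm_num) :=
  SMap_ext fun z => Subtype.ext (Prod.ext rfl (funext fun i => by
    change (rfM N).mulVec (Fin.snoc z.2 3 : V (N + 1)) i = (Fin.snoc z.2 (-3) : V (N + 1)) i
    refine Fin.lastCases ?_ (fun i => ?_) i
    · rw [rfM_last, Fin.snoc_last, Fin.snoc_last]
    · rw [rfM_cast, Fin.snoc_castSucc, Fin.snoc_castSucc]))

theorem sgC_eq (X : Space) (N : ℕ) : sgC X N = conM X N (c := 3) (by norm_num) := SMap_ext fun _ => rfl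

/-! ### The tower -/

section tower

variable (bV : SBun 7 B F)

/-- pairs of geodesics with the same end points -/
abbrev T2 : Space := fp bV.pi bV.pi

abbrev g2 : SMap (T2 bV) F := bV.pi.comp (fp1 bV.pi bV.pi)

abbrev T3 : Space := fp (g2 bV) bV.pi

abbrev g3 : SMap (T3 bV) F := (g2 bV).comp (fp1 (g2 bV) bV.pi)

/-- quadruples of geodesics with the same end points -/
abbrev T4 : Space := fp (g3 bV) bV.pi

/-- integration over `c4`, `c3`, `c2` -/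
def J4 (θ : Om (T4 bV)) : Om B := (bV.pull bV.pi).PI ((bV.pull (g2 bV)).PI ((bV.pull (g3 bV)).PI θ))

/-- `(c1, c2, c3) ↦ (c1, c3)` -/
def r3 : SMap (T3 bV) (T2 bV) :=
  fpM ((fp1 bV.pi bV.pi).comp (fp1 (g2 bV) bV.pi)) (fp2 (g2 bV) bV.pi) fun w => w.2

/-- `(c1, c2, c3, c4) ↦ (c1, c4)` -/
def r4 : SMap (T4 bV) (T2 bV) :=
  fpM (((fp1 bV.pi bV.pi).comp (fp1 (g2 bV) bV.pi)).comp (fp1 (g3 bV) bV.pi)) (fp2 (g3 bV) bV.pi) fun w => w.2

end tower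

/-- frames adapted to the direction, inner products -/
structure Fra (bV : SBun 7 B F) where
  /-- the inner product of the directions -/
  ip : (T2 bV).pt → ℝ
  ip_sm : ∀ (k : ℕ) (p : (T2 bV).Plot k), ContDiff ℝ ∞ fun x => ip (p.1 x)
  ip_le : ∀ w, |ip w| ≤ 1
  /-- the frames -/
  Z : Space
  q : SMap Z B
  hq : LLift q
  φ : SMap Z bV.F
  hφ : ∀ z, bV.pi.1 (q.1 z) = bV.q.1 (φ.1 z)
  /-- a change of the order of the vectors of the frame -/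
  C : Matrix (Fin (7 + 1)) (Fin (7 + 1)) ℝ
  hC : C.transpose * C = 1
  /-- the last vector of the frame is the direction of `q z` -/
  hip : ∀ w, ip ((ptC bV q φ hφ hC).1 w) = w.1.2 (Fin.last 7) / ‖toE w.1.2‖

namespace Fra

variable {bV : SBun 7 B F} (K : Fra bV)

def pt2 : SMap (K.Z.xP (7 + 1)) (T2 bV) := ptC bV K.q K.φ K.hφ K.hC

def px2 : SMap (K.Z.xV 7) (T2 bV) := K.pt2.comp (conM K.Z 7 (c := -3) (by norm_num))

theorem h3 (w : (K.Z.xV 7).pt) : (g2 bV).1 (K.px2.1 w) = bV.q.1 ((K.φ.comp (pV K.Z 7)).1 w) := K.hφ w.1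

def pt3 : SMap ((K.Z.xV 7).xP (7 + 1)) (T3 bV) := ptC bV K.px2 (K.φ.comp (pV K.Z 7)) K.h3 K.hC

def px3 : SMap ((K.Z.xV 7).xV 7) (T3 bV) := K.pt3.comp (conM (K.Z.xV 7) 7 (c := 3) (by norm_num))

theorem h4 (w : ((K.Z.xV 7).xV 7).pt) :
    (g3 bV).1 (K.px3.1 w) = bV.q.1 (((K.φ.comp (pV K.Z 7)).comp (pV (K.Z.xV 7) 7)).1 w) := K.h3 w.1

def pt4 : SMap (((K.Z.xV 7).xV 7).xP (7 + 1)) (T4 bV) :=
  ptC bV K.px3 ((K.φ.comp (pV K.Z 7)).comp (pV (K.Z.xV 7) 7)) K.h4 K.hC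

def px4 : SMap (((K.Z.xV 7).xV 7).xV 7) (T4 bV) := K.pt4.comp (conM ((K.Z.xV 7).xV 7) 7 (c := -3) (by norm_num))

/-- the function `(1 + <c1, c2>) + (1 - <c1, c3>) + (1 + <c1, c4>)` -/
def hh (w : (T4 bV).pt) : ℝ :=
  (1 + K.ip ((fp1 (g2 bV) bV.pi).1 ((fp1 (g3 bV) bV.pi).1 w))) + (1 - K.ip ((r3 bV).1 ((fp1 (g3 bV) bV.pi).1 w))) +
    (1 + K.ip ((r4 bV).1 w))

/-- the first two terms -/
def hh3 (w : (T3 bV).pt) : ℝ := (1 + K.ip ((fp1 (g2 bV) bV.pi).1 w)) + (1 - K.ip ((r3 bV).1 w))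

theorem hh_eq (w : (T4 bV).pt) : K.hh w = K.hh3 ((fp1 (g3 bV) bV.pi).1 w) + (1 + K.ip ((r4 bV).1 w)) := rfl

theorem ip1 (w : (T2 bV).pt) : 0 ≤ 1 + K.ip w := by
  have := (abs_le.1 (K.ip_le w)).1
  linarith

theorem ip2 (w : (T2 bV).pt) : 0 ≤ 1 - K.ip w := by
  have := (abs_le.1 (K.ip_le w)).2
  linarith

theorem hh3_nn (w : (T3 bV).pt) : 0 ≤ K.hh3 w := add_nonneg (K.ip1 _) (K.ip2 _)

theorem hh_nn (w : (T4 bV).pt) : 0 ≤ K.hh w := add_nonneg (K.hh3_nn _) (K.ip1 _)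

theorem hh_sm (k : ℕ) (p : (T4 bV).Plot k) : ContDiff ℝ ∞ fun x => K.hh (p.1 x) := by
  have h1 := K.ip_sm k ((fp1 (g2 bV) bV.pi).pl ((fp1 (g3 bV) bV.pi).pl p))
  have h2 := K.ip_sm k ((r3 bV).pl ((fp1 (g3 bV) bV.pi).pl p))
  have h3 := K.ip_sm k ((r4 bV).pl p)
  exact ((contDiff_const.add h1).add (contDiff_const.sub h2)).add (contDiff_const.add h3)

theorem ip_pt2 (w : (K.Z.xP (7 + 1)).pt) : K.ip (K.pt2.1 w) = w.1.2 (Fin.last 7) / ‖toE w.1.2‖ := K.hip w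

theorem ip_pt3 (w : ((K.Z.xV 7).xP (7 + 1)).pt) : K.ip ((r3 bV).1 (K.pt3.1 w)) = w.1.2 (Fin.last 7) / ‖toE w.1.2‖ :=
  K.hip ⟨(w.1.1.1, w.1.2), w.2⟩

theorem ip_pt4 (w : (((K.Z.xV 7).xV 7).xP (7 + 1)).pt) : K.ip ((r4 bV).1 (K.pt4.1 w)) = w.1.2 (Fin.last 7) / ‖toE w.1.2‖ :=
  K.hip ⟨(w.1.1.1.1, w.1.2), w.2⟩

variable {θ : Om (T4 bV)}

/-- the first integration -/
theorem st4 (hθ : Zr (T4 bV) {w | 1 / 100 < K.hh w} θ) :
    K.px3.pull ((bV.pull (g3 bV)).PI θ) = K.C.det • -JX 7 _ (K.px4.pull θ) := by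
  have hs : SuppC ((K.pt4.comp (rfX _ 7)).pull θ) := fun k p z hz => by
    rw [on_pull]
    refine hθ k _ z ?_
    change 1 / 100 < K.hh (K.pt4.1 ((rfX ((K.Z.xV 7).xV 7) 7).1 (p.1 z)))
    rw [hh_eq, ip_pt4]
    have h1 := K.hh3_nn ((fp1 (g3 bV) bV.pi).1 (K.pt4.1 ((rfX ((K.Z.xV 7).xV 7) 7).1 (p.1 z))))
    have h2 := cone_lt (p.1 z).2 hz
    change 1 / 100 < _ + (1 + (rfM 7).mulVec (p.1 z).1.2 (Fin.last 7) / ‖toE ((rfM 7).mulVec (p.1 z).1.2)‖)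
    rw [rfM_last, rfM_norm, neg_div]
    linarith
  rw [q_stepC bV K.px3 _ K.h4 K.hC, SI_rfX, ← pull_comp]
  have h1 := SI_cap (by norm_num) (homO_rfX (homO_ptC bV K.px3 _ K.h4 K.hC)) hs
  have h2 : SI (7 + 1) _ ((K.pt4.comp (rfX _ 7)).pull θ) = JX 7 _ (K.px4.pull θ) := by
    refine h1.trans ?_
    have e : (K.pt4.comp (rfX _ 7)).comp (sgC _ 7) = K.px4 := by
      have e1 := rfX_sgC ((K.Z.xV 7).xV 7) 7
      have e2 : (K.pt4.comp (rfX _ 7)).comp (sgC _ 7) = K.pt4.comp ((rfX _ 7).comp (sgC _ 7)) := rfl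
      rw [e2, e1]
      rfl
    exact congrArg (fun f : SMap (((K.Z.xV 7).xV 7).xV 7) (T4 bV) => JX 7 _ (f.pull θ)) e
  exact congrArg (fun x => K.C.det • -x) h2

/-- the second integration -/
theorem st3 {θ : Om (T3 bV)} (hθ : Zr (T3 bV) {w | 1 / 100 < K.hh3 w} θ) :
    K.px2.pull ((bV.pull (g2 bV)).PI θ) = K.C.det • JX 7 _ (K.px3.pull θ) := by
  have hs : SuppC (K.pt3.pull θ) := fun k p z hz => by
    rw [on_pull]
    refine hθ k _ z ?_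
    change 1 / 100 < (1 + K.ip ((fp1 (g2 bV) bV.pi).1 (K.pt3.1 (p.1 z)))) + (1 - K.ip ((r3 bV).1 (K.pt3.1 (p.1 z))))
    rw [ip_pt3]
    have h1 := K.ip1 ((fp1 (g2 bV) bV.pi).1 ((K.pt3).1 (p.1 z)))
    have h2 := cone_lt (p.1 z).2 hz
    linarith
  rw [q_stepC bV K.px2 _ K.h3 K.hC]
  have h1 := SI_cap (by norm_num) (homO_ptC bV K.px2 _ K.h3 K.hC) hs
  have e : K.pt3.comp (sgC _ 7) = K.px3 := by
    rw [sgC_eq]
    rfl
  have h2 := h1.trans (congrArg (fun f : SMap ((K.Z.xV 7).xV 7) (T3 bV) => JX 7 _ (f.pull θ)) e)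
  exact congrArg (fun x => K.C.det • x) h2

/-- the third integration -/
theorem st2 {θ : Om (T2 bV)} (hθ : Zr (T2 bV) {w | 1 / 100 < 1 + K.ip w} θ) :
    K.q.pull ((bV.pull bV.pi).PI θ) = K.C.det • -JX 7 _ (K.px2.pull θ) := by
  have hs : SuppC ((K.pt2.comp (rfX _ 7)).pull θ) := fun k p z hz => by
    rw [on_pull]
    refine hθ k _ z ?_
    change 1 / 100 < 1 + K.ip (K.pt2.1 ((rfX K.Z 7).1 (p.1 z)))
    rw [ip_pt2]
    have h2 := cone_lt (p.1 z).2 hz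
    change 1 / 100 < 1 + (rfM 7).mulVec (p.1 z).1.2 (Fin.last 7) / ‖toE ((rfM 7).mulVec (p.1 z).1.2)‖
    rw [rfM_last, rfM_norm, neg_div]
    linarith
  rw [q_stepC bV K.q _ K.hφ K.hC, SI_rfX, ← pull_comp]
  have h1 := SI_cap (by norm_num) (homO_rfX (homO_ptC bV K.q _ K.hφ K.hC)) hs
  have h2 : SI (7 + 1) _ ((K.pt2.comp (rfX _ 7)).pull θ) = JX 7 _ (K.px2.pull θ) := by
    refine h1.trans ?_
    have e : (K.pt2.comp (rfX _ 7)).comp (sgC _ 7) = K.px2 := by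
      have e1 := rfX_sgC K.Z 7
      have e2 : (K.pt2.comp (rfX _ 7)).comp (sgC _ 7) = K.pt2.comp ((rfX _ 7).comp (sgC _ 7)) := rfl
      rw [e2, e1]
      rfl
    exact congrArg (fun f : SMap (K.Z.xV 7) (T2 bV) => JX 7 _ (f.pull θ)) e
  exact congrArg (fun x => K.C.det • -x) h2

/-- **the fibre integral in coordinates** -/
theorem q_J4 (hθ : Zr (T4 bV) {w | 1 / 100 < K.hh w} θ) :
    K.q.pull (J4 bV θ) = K.C.det • JX 7 _ (JX 7 _ (JX 7 _ (K.px4.pull θ))) := by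
  have z3 : Zr (T3 bV) {w | 1 / 100 < K.hh3 w} ((bV.pull (g3 bV)).PI θ) := by
    refine Zr_mono (Zr_PI (bV.pull (g3 bV)) hθ) fun w hw s hs => ?_
    change 1 / 100 < K.hh s
    have h1 : (fp1 (g3 bV) bV.pi).1 s = w := hs
    rw [hh_eq, h1]
    have h2 := K.ip1 ((r4 bV).1 s)
    have h3 : 1 / 100 < K.hh3 w := hw
    linarith
  have z2 : Zr (T2 bV) {w | 1 / 100 < 1 + K.ip w} ((bV.pull (g2 bV)).PI ((bV.pull (g3 bV)).PI θ)) := by
    refine Zr_mono (Zr_PI (bV.pull (g2 bV)) z3) fun w hw s hs => ?_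
    have h1 : (fp1 (g2 bV) bV.pi).1 s = w := hs
    change 1 / 100 < (1 + K.ip ((fp1 (g2 bV) bV.pi).1 s)) + (1 - K.ip ((r3 bV).1 s))
    rw [h1]
    have h2 := K.ip2 ((r3 bV).1 s)
    have h3 : 1 / 100 < 1 + K.ip w := hw
    linarith
  unfold J4
  rw [K.st2 z2, K.st3 z3, K.st4 hθ]
  rcases det_or K.hC with h | h
  · simp only [h, one_smul, map_neg, neg_neg]
  · simp only [h, neg_one_smul, map_neg, neg_neg]

/-- `(z, x) ↦ (z, x', x'', x''')` -/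
def sp (Z : Space) : SMap (Z.xV (7 + 7 + 7)) (((Z.xV 7).xV 7).xV 7) := ((asO Z 7 7).xV 7).comp (asO Z (7 + 7) 7)

/-- renaming of the coordinates -/
def cst (Z : Space) {a b : ℕ} (h : a = b) : SMap (Z.xV a) (Z.xV b) :=
  ⟨fun z => (z.1, fun i => z.2 (Fin.cast h.symm i)), fun _ p => ⟨p.2.1, contDiff_pi.2 fun i => contDiff_pi.1 p.2.2 _⟩⟩

theorem JX_cst (Z : Space) {a b : ℕ} (h : a = b) (Θ : Om (Z.xV b)) : JX a Z ((cst Z h).pull Θ) = JX b Z Θ := by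
  subst h
  have e : cst Z (rfl : a = a) = SMap.id _ := SMap_ext fun _ => rfl
  rw [e, pull_id]

theorem norm_cst {a b : ℕ} (h : a = b) (x : V a) : ‖toE (fun i : Fin b => x (Fin.cast h.symm i))‖ = ‖toE x‖ := by
  subst h
  rfl

/-- the chart of `K2` around the diagonal -/
def ΦZ : SMap (K.Z.xV (20 + 1)) (T4 bV) := (K.px4.comp (sp K.Z)).comp (cst K.Z (by norm_num))

theorem JX_21 (Z : Space) (Θ : Om (((Z.xV 7).xV 7).xV 7)) :
    JX (7 + 7 + 7) Z ((sp Z).pull Θ) = JX 7 _ (JX 7 _ (JX 7 _ Θ)) := by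
  have h1 : (sp Z).pull Θ = (asO Z (7 + 7) 7).pull (((asO Z 7 7).xV 7).pull Θ) := pull_comp _ _ _
  have h2 := JX_add (X := Z) (N := 7 + 7) (L := 7) (((asO Z 7 7).xV 7).pull Θ)
  have h3 := JX_add (X := Z) (N := 7) (L := 7) (JX 7 _ Θ)
  have h4 := JX_nat (N := 7) (asO Z 7 7) Θ
  rw [h4, h3] at h2
  rw [h1, h2]

theorem q_J4' (hθ : Zr (T4 bV) {w | 1 / 100 < K.hh w} θ) :
    K.q.pull (J4 bV θ) = K.C.det • JX (20 + 1) _ (K.ΦZ.pull θ) := by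
  have h1 : K.ΦZ.pull θ = (cst K.Z (by norm_num)).pull ((sp K.Z).pull (K.px4.pull θ)) := by
    rw [← pull_comp, ← pull_comp]
    rfl
  rw [K.q_J4 hθ, h1, JX_cst, JX_21]

/-- far from the diagonal -/
theorem far' (w : (K.Z.xV (7 + 7 + 7)).pt) (hw : 1 / 2 < ‖toE w.2‖) : 1 / 100 < K.hh ((K.px4.comp (sp K.Z)).1 w) := by
  obtain ⟨x2, e2⟩ : ∃ x2 : V 7, x2 = hdM 7 7 (hdM (7 + 7) 7 w.2) := ⟨_, rfl⟩
  obtain ⟨x3, e3⟩ : ∃ x3 : V 7, x3 = tlM 7 7 (hdM (7 + 7) 7 w.2) := ⟨_, rfl⟩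
  obtain ⟨x4, e4⟩ : ∃ x4 : V 7, x4 = tlM (7 + 7) 7 w.2 := ⟨_, rfl⟩
  have hn : ‖toE w.2‖ ^ 2 = ‖toE x2‖ ^ 2 + ‖toE x3‖ ^ 2 + ‖toE x4‖ ^ 2 := by
    have h1 := tsq_add (a := 7 + 7) (b := 7) w.2
    have h2 := tsq_add (a := 7) (b := 7) (hdM (7 + 7) 7 w.2)
    rw [← e2, ← e3] at h2
    rw [← e4, h2] at h1
    exact h1
  have k2 : K.ip ((fp1 (g2 bV) bV.pi).1 ((fp1 (g3 bV) bV.pi).1 ((K.px4.comp (sp K.Z)).1 w))) = -(3 / ‖toE (Fin.snoc x2 (-3) : V 8)‖) := by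
    have h1 := K.ip_pt2 ((conM K.Z 7 (c := -3) (by norm_num)).1 (w.1, x2))
    have h2 : (fp1 (g2 bV) bV.pi).1 ((fp1 (g3 bV) bV.pi).1 ((K.px4.comp (sp K.Z)).1 w)) =
        K.pt2.1 ((conM K.Z 7 (c := -3) (by norm_num)).1 (w.1, x2)) := by
      rw [e2]
      rfl
    rw [h2, h1]
    change (Fin.snoc x2 (-3) : V 8) (Fin.last 7) / ‖toE (Fin.snoc x2 (-3) : V 8)‖ = _
    rw [Fin.snoc_last, neg_div]
  have k3 : K.ip ((r3 bV).1 ((fp1 (g3 bV) bV.pi).1 ((K.px4.comp (sp K.Z)).1 w))) = 3 / ‖toE (Fin.snoc x3 3 : V 8)‖ := by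
    have h1 := K.ip_pt3 ((conM (K.Z.xV 7) 7 (c := 3) (by norm_num)).1 ((w.1, x2), x3))
    have h2 : (fp1 (g3 bV) bV.pi).1 ((K.px4.comp (sp K.Z)).1 w) =
        K.pt3.1 ((conM (K.Z.xV 7) 7 (c := 3) (by norm_num)).1 ((w.1, x2), x3)) := by
      rw [e2, e3]
      rfl
    rw [h2, h1]
    change (Fin.snoc x3 3 : V 8) (Fin.last 7) / ‖toE (Fin.snoc x3 3 : V 8)‖ = _
    rw [Fin.snoc_last]
  have k4 : K.ip ((r4 bV).1 ((K.px4.comp (sp K.Z)).1 w)) = -(3 / ‖toE (Fin.snoc x4 (-3) : V 8)‖) := by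
    have h1 := K.ip_pt4 ((conM ((K.Z.xV 7).xV 7) 7 (c := -3) (by norm_num)).1 (((w.1, x2), x3), x4))
    have h2 : (K.px4.comp (sp K.Z)).1 w = K.pt4.1 ((conM ((K.Z.xV 7).xV 7) 7 (c := -3) (by norm_num)).1 (((w.1, x2), x3), x4)) := by
      rw [e2, e3, e4]
      rfl
    rw [h2, h1]
    change (Fin.snoc x4 (-3) : V 8) (Fin.last 7) / ‖toE (Fin.snoc x4 (-3) : V 8)‖ = _
    rw [Fin.snoc_last, neg_div]
  have hpos : ∀ (x : V 7) (c : ℝ), c ≠ 0 → 0 < ‖toE (Fin.snoc x c : V 8)‖ := fun x c hc => by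
    refine norm_toE_pos fun h => hc ?_
    have h1 := congrFun h (Fin.last 7)
    rw [Fin.snoc_last] at h1
    exact h1
  have hsq : ∀ (x : V 7) (c : ℝ), c ^ 2 = 9 → ‖toE (Fin.snoc x c : V 8)‖ ^ 2 = ‖toE x‖ ^ 2 + 9 := fun x c hc => by
    rw [← hc]
    exact tsq_snoc x c
  have h := far_three (hpos x2 (-3) (by norm_num)) (hpos x3 3 (by norm_num)) (hpos x4 (-3) (by norm_num))
    (hsq x2 (-3) (by norm_num)) (hsq x3 3 (by norm_num)) (hsq x4 (-3) (by norm_num)) (sq_nonneg _) (sq_nonneg _)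
    (sq_nonneg _) (by rw [← hn]; nlinarith [norm_nonneg (toE w.2)])
  unfold hh
  rw [k2, k3, k4]
  linarith

theorem far (w : (K.Z.xV (20 + 1)).pt) (hw : 1 / 2 < ‖toE w.2‖) : 1 / 100 < K.hh (K.ΦZ.1 w) := by
  have h1 : 20 + 1 = 7 + 7 + 7 := by norm_num
  exact K.far' ((cst K.Z h1).1 w) (by
    change 1 / 2 < ‖toE (fun i : Fin (7 + 7 + 7) => w.2 (Fin.cast h1.symm i))‖
    rw [norm_cst h1]
    exact hw)

end Fra

end Pool.Agent.Lib.MP_ccbbf6_gt.K7
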