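import Pool.Agent.Lib.MP_ccbbf6_gt.K7.RAD2
import Pool.Agent.Lib.MP_ccbbf6_gt.L5.INTg

/-!
# `κ = 7`, block F, file RAD5: linear change of the fibre coordinates with a variable matrix (helper53)

`JX_linM` : `JX N X ((x, ξ) ↦ (x, A(x) ξ))^* Ω = s • JX N X Ω` if `0 < s det A(x)`, `s = 1` or `s = -1`, for forms with compact support in the
fibres.
-/

set_option autoImplicit false
set_option maxSynthPendingDepth 3

open Set Filter Topology MeasureTheory
open scoped ContDiff

noncomputable section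

namespace Pool.Agent.Lib.MP_ccbbf6_gt.K7

open L4 L4.FR L5

variable {k l N : ℕ} {X Y : Space}

private theorem RAD5_cp_hd {A : V k → Matrix (Fin N) (Fin N) ℝ} (hA : ∀ i j, ContDiff ℝ ∞ fun z => A z i j)
    (j : Fin k) : (frM A hA).cp (Fin.castAdd N j) = co (Fin.castAdd N j) := by
  apply Cs_ext
  intro x
  exact Fin.append_left (hdM k N x) ((A (hdM k N x)).mulVec (tlM k N x)) j

private theorem RAD5_cp_tl {A : V k → Matrix (Fin N) (Fin N) ℝ} (hA : ∀ i j, ContDiff ℝ ∞ fun z => A z i j)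
    (j : Fin N) : (frM A hA).cp (Fin.natAdd k j) =
      ∑ l, (hdM k N).pull (mkC (fun z => A z j l) (hA j l)) * co (Fin.natAdd k l) := by
  apply Cs_ext
  intro x
  have h1 : ((frM A hA).cp (Fin.natAdd k j) : V (k + N) → ℝ) x = (A (hdM k N x)).mulVec (tlM k N x) j :=
    Fin.append_right (hdM k N x) ((A (hdM k N x)).mulVec (tlM k N x)) j
  rw [h1, AddSubmonoidClass.coe_finsetSum, Finset.sum_apply]
  rfl

private theorem RAD5_pd_pull (f : Cs k) (i : Fin N) : pd (Fin.natAdd k i) ((hdM k N).pull f) = 0 := by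
  rw [pd_pull]
  refine Finset.sum_eq_zero fun j _ => ?_
  have h1 : (hdM k N).cp j = co (Fin.castAdd N j) := rfl
  rw [h1, pd_co, if_neg, mul_zero]
  intro h
  have h2 := congrArg Fin.val h
  simp only [Fin.val_natAdd, Fin.val_castAdd] at h2
  omega

private theorem RAD5_pd_tl {A : V k → Matrix (Fin N) (Fin N) ℝ} (hA : ∀ i j, ContDiff ℝ ∞ fun z => A z i j)
    (i j : Fin N) : pd (Fin.natAdd k i) ((frM A hA).cp (Fin.natAdd k j)) =
      (hdM k N).pull (mkC (fun z => A z j i) (hA j i)) := by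
  rw [RAD5_cp_tl, map_sum, Finset.sum_eq_single i]
  · rw [pd_mul, RAD5_pd_pull, zero_mul, zero_add, pd_co, if_pos rfl, mul_one]
  · intro l _ hl
    rw [pd_mul, RAD5_pd_pull, zero_mul, zero_add, pd_co, if_neg, mul_zero]
    intro h
    exact hl ((Fin.natAdd_injective N k) h).symm
  · intro h
    exact absurd (Finset.mem_univ i) h

/-- the horizontal part of the transpose -/
private def RAD5_C {A : V k → Matrix (Fin N) (Fin N) ℝ} (hA : ∀ i j, ContDiff ℝ ∞ fun z => A z i j)
    (w : V (k + N)) : V N →ₗ[ℝ] V k where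
  toFun b i := ∑ j, b j * (pd (Fin.castAdd N i) ((frM A hA).cp (Fin.natAdd k j)) : V (k + N) → ℝ) w
  map_add' v w := by
    funext i
    change ∑ j, (v j + w j) * _ = ∑ j, _ + ∑ j, _
    rw [← Finset.sum_add_distrib]
    exact Finset.sum_congr rfl fun j _ => add_mul _ _ _
  map_smul' r v := by
    funext i
    change ∑ j, (r * v j) * _ = r * ∑ j, _
    rw [Finset.mul_sum]
    exact Finset.sum_congr rfl fun j _ => mul_assoc _ _ _

private theorem RAD5_tr {A : V k → Matrix (Fin N) (Fin N) ℝ} (hA : ∀ i j, ContDiff ℝ ∞ fun z => A z i j)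
    (z : V k) (ξ : V N) (a : V k) (b : V N) : tr (frM A hA) (Fin.append z ξ) (Fin.append a b) =
      Fin.append (a + RAD5_C hA (Fin.append z ξ) b) (Matrix.toLin' (A z).transpose b) := by
  funext i
  have h0 : tr (frM A hA) (Fin.append z ξ) (Fin.append a b) i =
      ∑ j, (Fin.append a b : V (k + N)) j * (pd i ((frM A hA).cp j) : V (k + N) → ℝ) (Fin.append z ξ) := rfl
  rw [h0, Fin.sum_univ_add]
  refine Fin.addCases (fun i => ?_) (fun i => ?_) i
  · rw [Fin.append_left, Pi.add_apply]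
    refine congrArg₂ (· + ·) ?_ ?_
    · rw [Finset.sum_eq_single i]
      · rw [Fin.append_left, RAD5_cp_hd, pd_co, if_pos rfl]
        exact mul_one _
      · intro j _ hj
        rw [RAD5_cp_hd, pd_co, if_neg]
        · exact mul_zero _
        · intro h
          exact hj ((Fin.castAdd_injective k N) h).symm
      · intro h
        exact absurd (Finset.mem_univ i) h
    · refine Finset.sum_congr rfl fun j _ => ?_
      rw [Fin.append_right]
  · rw [Fin.append_right]
    have h1 : ∑ j : Fin k, (Fin.append a b : V (k + N)) (Fin.castAdd N j) *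
        (pd (Fin.natAdd k i) ((frM A hA).cp (Fin.castAdd N j)) : V (k + N) → ℝ) (Fin.append z ξ) = 0 := by
      refine Finset.sum_eq_zero fun j _ => ?_
      rw [RAD5_cp_hd, pd_co, if_neg]
      · exact mul_zero _
      · intro h
        have h2 := congrArg Fin.val h
        simp only [Fin.val_natAdd, Fin.val_castAdd] at h2
        omega
    rw [h1, zero_add]
    change _ = ∑ j, (A z).transpose i j * b j
    refine Finset.sum_congr rfl fun j _ => ?_
    rw [Fin.append_right, RAD5_pd_tl]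
    change b j * A (hdM k N (Fin.append z ξ)) j i = A z j i * b j
    rw [hdM_append, mul_comm]

/-- change of the linear coordinates in the fibres, the determinant has constant sign -/
theorem J_frG {A : V k → Matrix (Fin N) (Fin N) ℝ} (hA : ∀ i j, ContDiff ℝ ∞ fun z => A z i j) {s : ℝ}
    (hs : s = 1 ∨ s = -1) (hd : ∀ z, 0 < s * (A z).det) {x : Fm (k + N)} (hx : VS x) (hx' : VS (pb (frM A hA) x)) :
    Jn k N (pb (frM A hA) x) = s • Jn k N x := by
  rw [← sub_eq_zero]
  refine ev_fun_inj fun L z => ?_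
  rw [map_sub, map_sub, map_smul, map_smul, smul_eq_mul, ev_J hx', ev_J hx, sub_eq_zero]
  obtain ⟨g, hg⟩ : ∃ g : V N → ℝ, g = fun ξ => L (tN k N (ev (Fin.append z ξ) x)) := ⟨_, rfl⟩
  have hgc : Continuous g := by
    have h1 := (contDiff_coef (L.comp (tN k N)) x).continuous
    have h2 : Continuous fun ξ : V N => (Fin.append z ξ : V (k + N)) :=
      (contDiff_append contDiff_const contDiff_id).continuous
    rw [hg]
    exact h1.comp h2
  have hint : ∀ ξ : V N, L (tN k N (ev (Fin.append z ξ) (pb (frM A hA) x))) =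
      (A z).det * g ((A z).mulVec ξ) := by
    intro ξ
    have h1 : frM A hA (Fin.append z ξ) = Fin.append z ((A z).mulVec ξ) := by
      change (Fin.append (hdM k N (Fin.append z ξ))
        ((A (hdM k N (Fin.append z ξ))).mulVec (tlM k N (Fin.append z ξ))) : V (k + N)) = _
      rw [hdM_append, tlM_append]
    rw [ev_pb, tN_map (RAD5_tr hA z ξ), h1, map_smul, LinearMap.det_toLin', Matrix.det_transpose,
      smul_eq_mul, hg]
  have hdet : (A z).det ≠ 0 := by
    have h1 := hd z
    intro h0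
    rw [h0, mul_zero] at h1
    exact lt_irrefl _ h1
  have hsd : (A z).det * |(A z).det|⁻¹ = s := by
    have h1 := hd z
    have h2 : |(A z).det| = s * (A z).det := by
      rcases hs with h | h
      · rw [h, one_mul] at h1 ⊢
        exact abs_of_pos h1
      · rw [h, neg_one_mul] at h1 ⊢
        exact abs_of_neg (neg_pos.1 h1)
    have h3 : s * s = 1 := by rcases hs with h | h <;> rw [h] <;> norm_num
    have h4 : s ≠ 0 := by rcases hs with h | h <;> rw [h] <;> norm_num
    rw [h2, ← div_eq_mul_inv, div_eq_iff (mul_ne_zero h4 hdet), ← mul_assoc, h3, one_mul]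
  have hcont : Continuous (Matrix.toLin' (A z)) := LinearMap.continuous_of_finiteDimensional _
  have hsub : ∫ ξ : V N, g ((A z).mulVec ξ) = |(A z).det|⁻¹ * ∫ ξ : V N, g ξ := by
    have h1 : ∫ ξ : V N, g ((A z).mulVec ξ) = ∫ η, g η ∂(Measure.map (Matrix.toLin' (A z)) (volume : Measure (V N))) := by
      rw [integral_map hcont.aemeasurable hgc.aestronglyMeasurable]
      rfl
    rw [h1, Real.map_matrix_volume_pi_eq_smul_volume_pi hdet, integral_smul_measure, abs_inv,
      ENNReal.toReal_ofReal (inv_nonneg.2 (abs_nonneg _)), smul_eq_mul]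
  have hfin : ∫ ξ : V N, L (tN k N (ev (Fin.append z ξ) (pb (frM A hA) x))) = (A z).det * ∫ ξ : V N, g ((A z).mulVec ξ) := by
    rw [← integral_const_mul]
    exact integral_congr_ae (Filter.Eventually.of_forall hint)
  rw [hfin, hsub, ← mul_assoc, hsd, hg]

/-- the map `(x, ξ) ↦ (x, A(x) ξ)` on `X × R^N` -/
def linM {A : X.pt → Matrix (Fin N) (Fin N) ℝ} (hA : SmM A) : SMap (X.xV N) (X.xV N) :=
  ⟨fun z => (z.1, (A z.1).mulVec z.2), fun k p =>
    ⟨p.2.1, contDiff_mulVec (A := fun x => A (p.1 x).1) (fun i j => hA k ⟨fun x => (p.1 x).1, p.2.1⟩ i j) p.2.2⟩⟩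

/-- **linear change of the fibre coordinates** -/
theorem JX_linM {A : X.pt → Matrix (Fin N) (Fin N) ℝ} (hA : SmM A) {s : ℝ} (hs : s = 1 ∨ s = -1)
    (hd : ∀ x, 0 < s * (A x).det) {Ω : Om (X.xV N)} (h : VSO Ω) (h' : VSO ((linM hA).pull Ω)) :
    JX N X ((linM hA).pull Ω) = s • JX N X Ω := by
  refine Om_ext fun k P => ?_
  have hA' : ∀ i j, ContDiff ℝ ∞ fun z => A (P.1 z) i j := fun i j => hA k P i j
  have h3 : (linM hA).pl (P.xV N) = (P.xV N).cmp (frM (fun z => A (P.1 z)) hA') := by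
    refine Plot_ext fun w => ?_
    show (P.1 (hdM k N w), (A (P.1 (hdM k N w))).mulVec (tlM k N w)) =
      (P.1 (hdM k N (frM (fun z => A (P.1 z)) hA' w)), tlM k N (frM (fun z => A (P.1 z)) hA' w))
    have h4 : hdM k N (frM (fun z => A (P.1 z)) hA' w) = hdM k N w := hdM_append _ _
    have h5 : tlM k N (frM (fun z => A (P.1 z)) hA' w) = (A (P.1 (hdM k N w))).mulVec (tlM k N w) :=
      tlM_append _ _
    rw [h4, h5]
  have h6 : Om.on ((linM hA).pull Ω) (P.xV N) = pb (frM (fun z => A (P.1 z)) hA') (Om.on Ω (P.xV N)) := by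
    rw [on_pull, h3, on_cmp]
  have h7 : VS (pb (frM (fun z => A (P.1 z)) hA') (Om.on Ω (P.xV N))) := by
    rw [← h6]
    exact h' k P
  rw [on_JX, h6, J_frG hA' hs (fun z => hd (P.1 z)) (h k P) h7, on_smul, on_JX]

theorem VSO_SuppB {Ω : Om (X.xV N)} (h : SuppB Ω) : VSO Ω := fun k P w hw => by
  obtain ⟨i, hi⟩ := hw
  refine h _ (P.xV N) w ?_
  show 1 / 2 < ‖toE (tlM k N w)‖
  have h1 : ‖(toE (tlM k N w)) i‖ ≤ ‖toE (tlM k N w)‖ := PiLp.norm_apply_le (toE (tlM k N w)) i
  have h2 : ‖(toE (tlM k N w)) i‖ = |tlM k N w i| := Real.norm_eq_abs _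
  rw [h2] at h1
  linarith

theorem SuppB_linM {A : X.pt → Matrix (Fin N) (Fin N) ℝ} (hA : SmM A) (h1 : ∀ x (ξ : V N), ‖toE ξ‖ ≤ ‖toE ((A x).mulVec ξ)‖)
    {Ω : Om (X.xV N)} (h : SuppB Ω) : SuppB ((linM hA).pull Ω) := fun k p z hz => by
  rw [on_pull]
  exact h k _ z (lt_of_lt_of_le hz (h1 _ _))

end Pool.Agent.Lib.MP_ccbbf6_gt.K7
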