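import Pool.Agent.Lib.MP_ccbbf6_gt.K7.FA1
import Pool.Agent.Lib.MP_ccbbf6_gt.K7.FB3
import Pool.Agent.Lib.MP_ccbbf6_gt.K7.RAD5

/-!
# `κ = 7`, block F, part B4: the family `rho_K` and its fibre integral (helper53)

* `YK K b` : the sphere bundle `Y` in the coordinates of `Fra`; `YK.main` : `b.PI (KO (Φ^* θ)) = ± J4 θ`;
* `ShU` : shortening of the loops of `T4` away from the diagonal; `Tc` : the cut off form; `FB` : the fibre integral of `rho_K`.
-/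

set_option autoImplicit false
set_option maxSynthPendingDepth 3

open Set Filter Topology MeasureTheory
open scoped TensorProduct ContDiff

noncomputable section

namespace Pool.Agent.Lib.MP_ccbbf6_gt.K7

open L4 L4.FR L5

variable {X Y Z Z' M G F S B A : Space} {k l n N : ℕ} {i j : ℕ}

/-- the bundle `Y` in coordinates -/
structure YK {bV : SBun 7 B F} (K : Fra bV) (b : SBun 20 Y B) where
  /-- common frames of `V` and of `Y` -/
  Z : Space
  g : SMap Z K.Z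
  hg : LLift (K.q.comp g)
  ψ : SMap Z b.F
  hψ : ∀ z, b.q.1 (ψ.1 z) = K.q.1 (g.1 z)
  /-- the matrix of the identification of the fibres of `Y` with `K^3` -/
  A : Z.pt → Matrix (Fin (20 + 1)) (Fin (20 + 1)) ℝ
  hA : SmM A
  hA1 : ∀ (z : Z.pt) (ξ : V (20 + 1)), ‖toE ξ‖ ≤ ‖toE ((A z).mulVec ξ)‖
  /-- the sign of the determinant -/
  sA : ℝ
  hsA : sA = 1 ∨ sA = -1
  hdA : ∀ z, 0 < sA * (A z).det
  /-- `(y, s) ↦ (c, nrm (- 3 c + s y2), nrm (3 c + s y3), nrm (- 3 c + s y4))` -/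
  Φ : SMap Y.xR (T4 bV)
  hΦ : ∀ (z : Z.pt) (ξ : V (20 + 1)) (hξ : ξ ≠ 0) (s : ℝ),
    Φ.1 (b.ptm.1 ⟨(ψ.1 z, ξ), hξ⟩, s) = K.ΦZ.1 (g.1 z, (s * ‖toE ξ‖⁻¹) • (A z).mulVec ξ)

namespace YK

variable {bV : SBun 7 B F} {K : Fra bV} {b : SBun 20 Y B} (D : YK K b)

/-- the sign -/
def sg : ℝ := D.sA * K.C.det

theorem sg_or : D.sg = 1 ∨ D.sg = -1 := by
  unfold sg
  rcases D.hsA with h | h <;> rcases det_or K.hC with h' | h' <;> rw [h, h'] <;> norm_num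

/-- **the fibre integral over `Y`** -/
theorem main {θ : Om (T4 bV)} (hθ : Zr (T4 bV) {w | 1 / 100 < K.hh w} θ) (dθ : dO _ θ = 0) :
    b.PI (KO Y (D.Φ.pull θ)) = D.sg • J4 bV θ := by
  refine D.hg.inj ?_
  have hsg : D.sg * K.C.det = D.sA := by
    unfold sg
    rw [mul_assoc, det_sq K.hC, mul_one]
  have hr : (K.q.comp D.g).pull (D.sg • J4 bV θ) = D.sA • JX (20 + 1) D.Z ((D.g.xV (20 + 1)).pull (K.ΦZ.pull θ)) := by
    rw [pull_comp, map_smul, K.q_J4' hθ, smul_smul, hsg, map_smul, JX_nat]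
  rw [hr]
  have e0 : K.q.comp D.g = b.q.comp D.ψ := SMap_ext fun z => (D.hψ z).symm
  have e1 : D.Φ.comp (b.ptm.comp (D.ψ.xP (20 + 1))).up =
      ((K.ΦZ.comp (D.g.xV (20 + 1))).comp (linM D.hA)).comp (polM D.Z (20 + 1)) := by
    refine SMap_ext fun z => (D.hΦ z.1.1.1 z.1.1.2 z.1.2 z.2).trans ?_
    refine congrArg K.ΦZ.1 (Prod.ext rfl ?_)
    exact (Matrix.mulVec_smul (D.A z.1.1.1) _ z.1.1.2).symm
  have hs : SuppB ((D.g.xV (20 + 1)).pull (K.ΦZ.pull θ)) := fun k p z hz => by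
    rw [on_pull, on_pull]
    exact hθ k _ z (K.far _ hz)
  have hs' : SuppB ((linM D.hA).pull ((D.g.xV (20 + 1)).pull (K.ΦZ.pull θ))) := SuppB_linM D.hA D.hA1 hs
  have hd : dO _ ((linM D.hA).pull ((D.g.xV (20 + 1)).pull (K.ΦZ.pull θ))) = 0 := by
    rw [pull_d, pull_d, pull_d, dθ, map_zero, map_zero, map_zero]
  have h1 := polar (by norm_num) hs' hd
  have h3 := JX_linM D.hA D.hsA D.hdA (VSO_SuppB hs) (VSO_SuppB hs')
  rw [← h3, ← h1]
  have h2 : (K.q.comp D.g).pull (b.PI (KO Y (D.Φ.pull θ))) = (b.q.comp D.ψ).pull (b.PI (KO Y (D.Φ.pull θ))) := by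
    rw [← e0]
  rw [h2, q_fr, ← K_up, ← pull_comp, e1, pull_comp, pull_comp, pull_comp]

end YK

/-! ### The cut off -/

theorem contDiff_ct (a b : ℝ) : ContDiff ℝ ∞ fun t : ℝ => Real.smoothTransition ((t - a) / (b - a)) :=
  Real.smoothTransition.contDiff.comp ((contDiff_id.sub contDiff_const).div_const _)

/-- the loops of `T4` and their shortening away from the diagonal -/
structure ShU {u : Om M} (W : Pln M u) {bV : SBun 7 B F} (K : Fra bV) where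
  /-- the loops -/
  e : SMap (T4 bV) W.Λ
  η : ℝ
  hη : η < 1 / 100
  /-- the shortening -/
  H : W.Rl (sub (T4 bV) {w | η < K.hh w})
  hst : ∀ w, H.r.1 (w, 0) = e.1 w.1

namespace ShU

variable {u : Om M} {W : Pln M u} {bV : SBun 7 B F} {K : Fra bV} (D : ShU W K)

abbrev U : Set (T4 bV).pt := {w | D.η < K.hh w}

theorem hU : OpenU (T4 bV) D.U :=
  OpenU_lt (fun _ _ => continuous_const) fun k p => (K.hh_sm k p).continuous

def a : ℝ := (2 * D.η + 1 / 100) / 3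

def b : ℝ := (D.η + 2 / 100) / 3

theorem h1 : D.η < D.a := by
  have := D.hη
  unfold a
  linarith

theorem h2 : D.a < D.b := by
  have := D.hη
  unfold a b
  linarith

theorem h3 : D.b < 1 / 100 := by
  have := D.hη
  unfold b
  linarith

/-- the cut off function -/
def ct (t : ℝ) : ℝ := Real.smoothTransition ((t - D.a) / (D.b - D.a))

theorem ct_zero {t : ℝ} (h : t ≤ D.a) : D.ct t = 0 :=
  Real.smoothTransition.zero_of_nonpos (div_nonpos_of_nonpos_of_nonneg (by linarith) (by linarith [D.h2]))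

theorem ct_one {t : ℝ} (h : D.b ≤ t) : D.ct t = 1 :=
  Real.smoothTransition.one_of_one_le (by
    rw [le_div_iff₀ (by linarith [D.h2])]
    linarith)

theorem ct_sm : ContDiff ℝ ∞ D.ct := contDiff_ct D.a D.b

theorem cF_sm (k : ℕ) (p : (T4 bV).Plot k) : ContDiff ℝ ∞ fun x => D.ct (K.hh (p.1 x)) := D.ct_sm.comp (K.hh_sm k p)

/-- the cut off function on `T4` -/
def cF : Om (T4 bV) := fO (fun w => D.ct (K.hh w)) D.cF_sm

theorem van : Van (T4 bV) D.U ((inU (T4 bV) D.U).pull D.cF * D.H.om) :=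
  Van_mul (Van_fO D.hU D.cF_sm fun k p x hx => by
    have hx' : K.hh (p.1 x) ≤ D.η := not_lt.1 hx
    have hc := (K.hh_sm k p).continuous
    filter_upwards [hc.continuousAt.eventually (gt_mem_nhds (lt_of_le_of_lt hx' D.h1))] with y hy
    exact D.ct_zero hy.le) _

/-- the cut off primitive -/
def ζ : Om (T4 bV) := ext0 D.hU _ D.van

theorem res_ζ : (inU (T4 bV) D.U).pull D.ζ = (inU (T4 bV) D.U).pull D.cF * D.H.om := ext0_res D.hU D.van

theorem Deg_cF : Deg 0 D.cF := fun _ _ => Dg_fc _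

theorem s_cF : sO _ D.cF = D.cF := Deg_even (j := 0) D.Deg_cF

theorem Deg_ζ : Deg 28 D.ζ := by
  have h := Deg_mul (Deg_pull (inU (T4 bV) D.U) D.Deg_cF) D.H.Deg_om
  rw [zero_add] at h
  exact Deg_ext0 D.hU D.van h

/-- the cut off form -/
def Tc : Om (T4 bV) := D.e.pull W.T - dO _ D.ζ

theorem d_Tc : dO _ D.Tc = 0 := by
  unfold Tc
  rw [map_sub, pull_d, W.dT, map_zero, d_d, sub_zero]

theorem res_Tc : (inU (T4 bV) D.U).pull D.Tc =
    (1 - (inU (T4 bV) D.U).pull D.cF) * (D.e.comp (inU (T4 bV) D.U)).pull W.T -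
      (inU (T4 bV) D.U).pull (dO _ D.cF) * D.H.om := by
  have h1 : D.H.st = D.e.comp (inU (T4 bV) D.U) := SMap_ext fun w => D.hst w
  unfold Tc
  rw [map_sub, ← pull_d, D.res_ζ, d_mul, pull_d, pull_s, D.s_cF, D.H.d_om, h1, ← pull_comp, sub_mul, one_mul]
  abel

theorem Zr_Tc : Zr (T4 bV) {w | 1 / 100 < K.hh w} D.Tc := fun k p z hz => by
  have hz1 : 1 / 100 < K.hh (p.1 z) := hz
  have hU : p.1 z ∈ D.U := lt_trans (lt_trans D.h1 (lt_trans D.h2 D.h3)) hz1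
  have hc := (K.hh_sm k p).continuous
  have hn : ∀ᶠ y in 𝓝 z, D.ct (K.hh (p.1 y)) = 1 := by
    filter_upwards [hc.continuousAt.eventually (lt_mem_nhds (lt_trans D.h3 hz1))] with y hy
    exact D.ct_one hy.le
  have e1 : ev z (Om.on D.cF p) = 1 := by
    refine (ev_fO _ _ p z).trans ?_
    rw [hn.self_of_nhds, map_one]
  have e2 : ev z (Om.on (dO _ D.cF) p) = 0 := by
    rw [on_d]
    have h1 : ev z (dd k (Om.on D.cF p)) = ev z (dd k (algebraMap ℝ (Fm k) 1)) := by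
      refine ev_dd_congr ?_
      filter_upwards [hn] with y hy
      refine (ev_fO _ _ p y).trans ?_
      rw [hy]
      exact ((ev y).commutes 1).symm
    rw [h1, map_one, dd_one, map_zero]
  rw [← vAt_res D.hU D.Tc p hU, D.res_Tc]
  obtain ⟨P, hP⟩ := locPl_of D.hU p hU
  rw [vAt_eq (vU_inj _ _) _ P hP, on_sub, on_mul, on_mul, on_sub, on_one, map_sub, map_mul, map_mul, map_sub, map_one]
  have e3 : ev z (Om.on ((inU (T4 bV) D.U).pull D.cF) P) = 1 := by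
    rw [← vAt_eq (vU_inj _ _) _ P hP, vAt_res D.hU D.cF p hU, e1]
  have e4 : ev z (Om.on ((inU (T4 bV) D.U).pull (dO _ D.cF)) P) = 0 := by
    rw [← vAt_eq (vU_inj _ _) _ P hP, vAt_res D.hU (dO _ D.cF) p hU, e2]
  rw [e3, e4, sub_self, zero_mul, zero_mul, sub_zero]

end ShU

theorem PI_zeroB {N : ℕ} (b : SBun N S B) : b.PI 0 = 0 := by
  have h := b.PI_smul 0 0
  rwa [zero_smul, zero_smul] at h

theorem PI_sub' {N : ℕ} (b : SBun N S B) (x y : Om S) : b.PI (x - y) = b.PI x - b.PI y := by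
  have h := b.PI_smul (-1) y
  rw [neg_one_smul, neg_one_smul] at h
  rw [sub_eq_add_neg, b.PI_add, h, ← sub_eq_add_neg]

theorem PI_d7 (b : SBun 7 S B) (x : Om S) : b.PI (dO S x) = -dO B (b.PI x) := by
  have h := b.PI_d x
  have h1 : (-1 : ℝ) ^ 7 = -1 := by norm_num
  rw [h1, neg_one_smul] at h
  rw [h, neg_neg]

theorem PI_neg' {N : ℕ} (b : SBun N S B) (x : Om S) : b.PI (-x) = -b.PI x := by
  have h := b.PI_smul (-1) x
  rwa [neg_one_smul, neg_one_smul] at h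

theorem J4_sub (bV : SBun 7 B F) (x y : Om (T4 bV)) : J4 bV (x - y) = J4 bV x - J4 bV y := by
  unfold J4
  rw [PI_sub', PI_sub', PI_sub']

theorem J4_d (bV : SBun 7 B F) (x : Om (T4 bV)) : J4 bV (dO _ x) = -dO B (J4 bV x) := by
  unfold J4
  rw [PI_d7 (bV.pull (g3 bV)), PI_neg', PI_d7 (bV.pull (g2 bV)), neg_neg, PI_d7 (bV.pull bV.pi)]

theorem Deg_J4 (bV : SBun 7 B F) {x : Om (T4 bV)} (h : Deg (j + 7 + 7 + 7) x) : Deg j (J4 bV x) :=
  (bV.pull bV.pi).Deg_PI ((bV.pull (g2 bV)).Deg_PI ((bV.pull (g3 bV)).Deg_PI h))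

/-- the family `rho_K` -/
structure RhoK {u : Om M} {W : Pln M u} {bV : SBun 7 B F} {K : Fra bV} (D : ShU W K) {b : EB 20 Y B} (E : YK K b.B) where
  /-- the end of the first part -/
  ΦU : SMap Y (sub (T4 bV) D.U)
  hΦU : ∀ y, (ΦU.1 y).1 = E.Φ.1 (y, 1)
  far : ∀ y, 1 / 100 ≤ K.hh (E.Φ.1 (y, 1))
  /-- the diagonal -/
  dg : SMap B (T4 bV)
  hdg : ∀ y, E.Φ.1 (y, 0) = dg.1 (b.B.pi.1 y)
  /-- the concatenation -/
  R : W.Rl Y
  hR : KO Y (R.r.pull W.T) = KO Y ((D.e.comp E.Φ).pull W.T) + KO Y ((D.H.r.comp ΦU.up).pull W.T)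
  hRe : ∀ y, R.e.1 y = D.H.e.1 (ΦU.1 y)

/-- **(F-B)** -/
theorem RhoK.FB {u : Om M} {W : Pln M u} {bV : SBun 7 B F} {K : Fra bV} {D : ShU W K} {b : EB 20 Y B} {E : YK K b.B}
    (R : RhoK D E) : ∃ z : Om B, Deg 7 z ∧ b.P R.R.om + E.sg • J4 bV (D.e.pull W.T) = dO B z := by
  have h1 : R.R.om = R.ΦU.pull D.H.om - KO Y (E.Φ.pull (D.e.pull W.T)) := by
    have e1 : R.R.e = D.H.e.comp R.ΦU := SMap_ext R.hRe
    have e2 : R.R.om = R.R.e.pull W.E - KO Y (R.R.r.pull W.T) := rfl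
    have e3 : D.H.om = D.H.e.pull W.E - KO _ (D.H.r.pull W.T) := rfl
    rw [e2, e3, map_sub, ← K_up, R.hR, e1, pull_comp, pull_comp, pull_comp]
    abel
  have h2 : D.e.pull W.T = D.Tc + dO _ D.ζ := by
    unfold ShU.Tc
    abel
  have h3 : (jO Y 1).pull (E.Φ.pull D.ζ) = R.ΦU.pull D.H.om := by
    have e1 : E.Φ.comp (jO Y 1) = (inU (T4 bV) D.U).comp R.ΦU := SMap_ext fun y => (R.hΦU y).symm
    have e2 : R.ΦU.pull ((inU (T4 bV) D.U).pull D.cF) = 1 := by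
      refine Om_ext fun k p => ev_ext fun z => ?_
      have e3 : Om.on (R.ΦU.pull ((inU (T4 bV) D.U).pull D.cF)) p =
          Om.on D.cF ((inU (T4 bV) D.U).pl (R.ΦU.pl p)) := rfl
      rw [e3, on_one, map_one]
      refine (ev_fO _ _ _ z).trans ?_
      have e4 : D.ct (K.hh (((inU (T4 bV) D.U).pl (R.ΦU.pl p)).1 z)) = 1 := by
        refine D.ct_one ?_
        have e5 : ((inU (T4 bV) D.U).pl (R.ΦU.pl p)).1 z = E.Φ.1 (p.1 z, 1) := R.hΦU (p.1 z)
        rw [e5]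
        exact D.h3.le.trans (R.far _)
      rw [e4, map_one]
    rw [← pull_comp, e1, pull_comp, D.res_ζ, map_mul, e2, one_mul]
  have h4 : (jO Y 0).pull (E.Φ.pull D.ζ) = b.B.pi.pull (R.dg.pull D.ζ) := by
    have e1 : E.Φ.comp (jO Y 0) = R.dg.comp b.B.pi := SMap_ext R.hdg
    rw [← pull_comp, e1, pull_comp]
  have h5 := d_K (E.Φ.pull D.ζ)
  rw [h3, h4, pull_d] at h5
  have h6 : R.R.om = dO _ (KO Y (E.Φ.pull D.ζ)) - KO Y (E.Φ.pull D.Tc) + b.B.pi.pull (R.dg.pull D.ζ) := by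
    rw [h1, h2, map_add, map_add]
    have h7 : R.ΦU.pull D.H.om = dO _ (KO Y (E.Φ.pull D.ζ)) + KO Y (E.Φ.pull (dO _ D.ζ)) + b.B.pi.pull (R.dg.pull D.ζ) := by
      rw [h5]
      abel
    rw [h7]
    abel
  have h8 := E.main D.Zr_Tc D.d_Tc
  have h9 : J4 bV D.Tc = J4 bV (D.e.pull W.T) + dO B (J4 bV D.ζ) := by
    unfold ShU.Tc
    rw [J4_sub, J4_d, sub_neg_eq_add]
  refine ⟨b.P (KO Y (E.Φ.pull D.ζ)) - E.sg • J4 bV D.ζ, Deg_sub (b.B.Deg_PI (j := 7) (Deg_K (Deg_pull _ D.Deg_ζ)))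
    (Deg_smul _ (Deg_J4 bV (j := 7) D.Deg_ζ)), ?_⟩
  have h10 : b.P (KO Y (E.Φ.pull D.Tc)) = E.sg • J4 bV D.Tc := h8
  rw [h6, map_add, map_sub, b.P_d, b.P_pi, h10, h9, map_sub, map_smul, smul_add, add_zero]
  abel

end Pool.Agent.Lib.MP_ccbbf6_gt.K7
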