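import Pool.Agent.Lib.MP_ccbbf6_gt.K7.FA2
import Pool.Agent.Lib.MP_ccbbf6_gt.K7.FB4

/-!
# `κ = 7`, block F, part B5: assembly of the formal half (helper53)

`hF_of` : from the comparison `RR ~ rho_K` (F-C) and the integral of `T` over the fibres of `K2 → UM` (F-D) to the input `hF` of the level 2
identity, `t' = 3` or `t' = -3`.
-/

set_option autoImplicit false
set_option maxSynthPendingDepth 3

open Set Filter Topology MeasureTheory
open scoped TensorProduct ContDiff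

noncomputable section

namespace Pool.Agent.Lib.MP_ccbbf6_gt.K7

open L4 L4.FR L5

variable {X M G F : Space}

namespace GysD

variable {P : NegB X G M F 15 6 2 4} {L : ∀ {X : Space}, Circ X → SMap X M → Prop} (D : GysD P L)
variable {V : VanD M (PP P).u L} (W : LoopD V)

/-- **the input `hF`** -/
theorem hF_of {bV : SBun 7 G F} {K : Fra bV} {Sh : ShU W.toPln K} {E : YK K D.b.B} (R : RhoK Sh E)
    (hRel : Pln.Rl.RelP D.b.B.pi (D.RR W) R.R) {s : ℝ} (hs : s = 1 ∨ s = -1)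
    (hJ : ∃ z : Om G, Deg 7 z ∧ J4 bV (Sh.e.pull W.T) - (3 * s) • P.D.foot.pull P.D.u = dO G z) :
    ∃ t' : ℝ, (t' = 3 ∨ t' = -3) ∧ ∃ z : Om G, Deg 7 z ∧ D.phi8 V - t' • P.D.foot.pull P.D.u = dO G z := by
  obtain ⟨z1, k1, h1⟩ := D.phi8_Rl W
  obtain ⟨z2, k2, h2⟩ := Pln.Rl.RelP.P hRel
  obtain ⟨z3, k3, h3⟩ := R.FB
  obtain ⟨z4, k4, h4⟩ := hJ
  refine ⟨-(3 * (E.sg * s)), ?_, z1 + z2 + z3 - E.sg • z4, Deg_sub (Deg_add (Deg_add k1 k2) k3) (Deg_smul _ k4), ?_⟩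
  · rcases E.sg_or with h | h <;> rcases hs with h' | h' <;> rw [h, h'] <;> norm_num
  · rw [map_sub, map_add, map_add, map_smul, ← h1, ← h2, ← h3, ← h4, smul_sub, smul_smul]
    have e : E.sg * (3 * s) = 3 * (E.sg * s) := by ring
    rw [e, neg_smul]
    abel

end GysD

end Pool.Agent.Lib.MP_ccbbf6_gt.K7
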