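import Pool.Agent.Lib.MP_ccbbf6_gt.K7.FB3
import Pool.Agent.Lib.MP_ccbbf6_gt.L5.INTs

/-!
# `κ = 7`, block F, part B6: the frames of `V` as frames adapted to the direction (helper53)

`fraV : Fra (bV hB hk hL hΨ h0 hκ)` : `Z` = positive frames `(a_0, .., a_7)` of `V`, `q` = the geodesic with direction `a_0`,
`ip (c1, c2) = <vel c1 0, vel c2 0>`.
-/

set_option autoImplicit false
set_option maxSynthPendingDepth 3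

open Set Filter Topology MeasureTheory
open scoped TensorProduct ContDiff RealInnerProductSpace

noncomputable section

namespace Pool.Agent.Lib.MP_ccbbf6_gt.K7

open L4 L4.FR L4.ORI L5 Geo

/-- orthogonal matrices preserve the norm -/
theorem toE_mulVec {N : ℕ} {A : Matrix (Fin N) (Fin N) ℝ} (h : A.transpose * A = 1) (ξ : V N) :
    ‖toE (A.mulVec ξ)‖ = ‖toE ξ‖ := by
  have h1 : ‖toE (A.mulVec ξ)‖ ^ 2 = ‖toE ξ‖ ^ 2 := by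
    rw [tsq, tsq]
    have h2 : dotProduct (A.mulVec ξ) (A.mulVec ξ) = dotProduct ξ ξ := by
      rw [Matrix.dotProduct_mulVec, ← Matrix.mulVec_transpose, Matrix.mulVec_mulVec, h, Matrix.one_mulVec]
    have h3 : ∀ η : V N, ∑ i, η i ^ 2 = dotProduct η η := fun η => Finset.sum_congr rfl fun i _ => pow_two (η i)
    rw [h3, h3, h2]
  exact (pow_left_inj₀ (norm_nonneg _) (norm_nonneg _) two_ne_zero).1 h1

/-- cyclic change of the coordinates: `(x_1, .., x_N, r) ↦ (r, x_1, .., x_N)` -/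
def cyc (N : ℕ) : Matrix (Fin (N + 1)) (Fin (N + 1)) ℝ :=
  (1 : Matrix (Fin (N + 1)) (Fin (N + 1)) ℝ).submatrix (finRotate (N + 1)).symm (Equiv.refl _)

theorem cyc_sq (N : ℕ) : (cyc N).transpose * cyc N = 1 := by
  unfold cyc
  rw [Matrix.transpose_submatrix, Matrix.transpose_one, Matrix.submatrix_mul_equiv, Matrix.one_mul,
    Matrix.submatrix_one_equiv]

theorem cyc_mulVec {N : ℕ} (ξ : V (N + 1)) (i : Fin (N + 1)) : (cyc N).mulVec ξ i = ξ ((finRotate (N + 1)).symm i) := by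
  have h : (cyc N).mulVec ξ i = ((1 : Matrix (Fin (N + 1)) (Fin (N + 1)) ℝ).mulVec ξ) ((finRotate (N + 1)).symm i) := rfl
  rw [h, Matrix.one_mulVec]

theorem cyc_zero {N : ℕ} (ξ : V (N + 1)) : (cyc N).mulVec ξ 0 = ξ (Fin.last N) := by
  rw [cyc_mulVec]
  refine congrArg ξ ?_
  rw [Equiv.symm_apply_eq, finRotate_last]

theorem cyc_succ {N : ℕ} (ξ : V (N + 1)) (i : Fin N) : (cyc N).mulVec ξ i.succ = ξ i.castSucc := by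
  rw [cyc_mulVec]
  refine congrArg ξ ?_
  rw [Equiv.symm_apply_eq]
  exact (finRotate_of_lt i.2).symm

variable {n : ℕ} {M : Type} [MetricSpace M] [CompactSpace M]

section fra

variable {𝒜 : SDist n M} (hB : Bl M) {κ : ℕ} (hk : 𝒜.HK κ) (hL : LocV 𝒜 κ) {Ψ : Om (spG 𝒜)} (hΨ : Deg κ Ψ)
  (h0 : OrV hB hk hL Ψ) (hκ : 1 ≤ κ)

theorem fra_foot (w : (fp (bV hB hk hL hΨ h0 hκ).pi (bV hB hk hL hΨ h0 hκ).pi).pt) : w.1.2.1 0 = w.1.1.1 0 :=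
  congrArg (fun t : (spF 𝒜).pt => t.1.1) w.2.symm

/-- the inner product of the directions -/
def fra_ip (w : (fp (bV hB hk hL hΨ h0 hκ).pi (bV hB hk hL hΨ h0 hκ).pi).pt) : ℝ :=
  ⟪𝒜.vel w.1.1.1 0, 𝒜.vel w.1.2.1 0⟫

theorem fra_sm {k : ℕ} (p : (fp (bV hB hk hL hΨ h0 hκ).pi (bV hB hk hL hΨ h0 hκ).pi).Plot k) :
    ContDiff ℝ ∞ fun x => fra_ip hB hk hL hΨ h0 hκ (p.1 x) := by
  rw [contDiff_iff_contDiffAt]
  intro z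
  have h1 : SmV 𝒜 ((p.1 z).1.1.1 0) (fun v => (p.1 v).1.1.1 0) (fun v => 𝒜.vel (p.1 v).1.1.1 0) z :=
    smV_G hB ((fp1 _ _).pl p) z
  have h2 : SmV 𝒜 ((p.1 z).1.2.1 0) (fun v => (p.1 v).1.2.1 0) (fun v => 𝒜.vel (p.1 v).1.2.1 0) z :=
    smV_G hB ((fp2 _ _).pl p) z
  have h3 : (fun v => (p.1 v).1.2.1 0) = fun v => (p.1 v).1.1.1 0 := funext fun v => fra_foot hB hk hL hΨ h0 hκ (p.1 v)
  rw [h3, fra_foot hB hk hL hΨ h0 hκ (p.1 z)] at h2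
  exact (vTM 𝒜).inn (p := (foot hB 0).pl ((fp1 _ _).pl p)) h1 h2

theorem fra_le (w : (fp (bV hB hk hL hΨ h0 hκ).pi (bV hB hk hL hΨ h0 hκ).pi).pt) : |fra_ip hB hk hL hΨ h0 hκ w| ≤ 1 := by
  have h := abs_real_inner_le_norm (𝒜.vel w.1.1.1 0) (𝒜.vel w.1.2.1 0)
  rw [vel_norm, vel_norm, one_mul] at h
  exact h

/-- the velocity of the geodesic with coordinates `ξ` -/
theorem vel_ptm (z : (bV hB hk hL hΨ h0 hκ).F.pt) (ξ : V (κ + 1)) (hξ : ξ ≠ 0) :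
    𝒜.vel ((bV hB hk hL hΨ h0 hκ).ptm.1 ⟨(z, ξ), hξ⟩).1 0 = ‖toE ξ‖⁻¹ • ∑ i, ξ i • z.1.2 i :=
  (gvg_vel 𝒜 hB ((bVo hB hk hL hΨ h0).ptm.1 ⟨(z, ξ), hξ⟩).1.1.1.1 ((bVo hB hk hL hΨ h0).ptm.1 ⟨(z, ξ), hξ⟩).1.2
    ((bVo hB hk hL hΨ h0).ptm.1 ⟨(z, ξ), hξ⟩).2.2).2

theorem norm_e1 (N : ℕ) : ‖toE (Pi.single 0 1 : V (N + 1))‖ = 1 := by
  have h : ‖toE (Pi.single 0 1 : V (N + 1))‖ ^ 2 = 1 ^ 2 := by
    rw [tsq, Finset.sum_eq_single 0]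
    · rw [Pi.single_eq_same]
    · intro i _ hi
      rw [Pi.single_eq_of_ne hi]
      norm_num
    · intro h
      exact absurd (Finset.mem_univ _) h
  exact (pow_left_inj₀ (norm_nonneg _) zero_le_one two_ne_zero).1 h

/-- the velocity of the first vector of a frame -/
theorem vel_q1 (z : (bV hB hk hL hΨ h0 hκ).F.pt) : 𝒜.vel ((bV hB hk hL hΨ h0 hκ).q1.1 z).1 0 = z.1.2 0 := by
  have h := vel_ptm hB hk hL hΨ h0 hκ z (Pi.single 0 1) (e1_ne κ)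
  refine h.trans ?_
  rw [norm_e1, inv_one, one_smul, Finset.sum_eq_single 0]
  · rw [Pi.single_eq_same, one_smul]
  · intro i _ hi
    rw [Pi.single_eq_of_ne hi, zero_smul]
  · intro h
    exact absurd (Finset.mem_univ _) h

theorem fra_hip (z : (bV hB hk hL hΨ h0 hκ).F.pt) (ξ : V (κ + 1)) (hξ : ξ ≠ 0) :
    ⟪𝒜.vel ((bV hB hk hL hΨ h0 hκ).q1.1 z).1 0, 𝒜.vel ((bV hB hk hL hΨ h0 hκ).ptm.1 ⟨(z, ξ), hξ⟩).1 0⟫ =
      ξ 0 / ‖toE ξ‖ := by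
  have ho : Orthonormal ℝ z.1.2 := z.2.1.2
  rw [vel_q1, vel_ptm, real_inner_smul_right, ho.inner_right_fintype, div_eq_mul_inv, mul_comm]

end fra

/-- **the frames of `V`** -/
def fraV {𝒜 : SDist n M} (hB : Bl M) (hk : 𝒜.HK 7) (hL : LocV 𝒜 7) {Ψ : Om (spG 𝒜)} (hΨ : Deg 7 Ψ)
    (h0 : OrV hB hk hL Ψ) (hκ : 1 ≤ 7) : Fra (bV hB hk hL hΨ h0 hκ) where
  ip := fra_ip hB hk hL hΨ h0 hκ
  ip_sm _ p := fra_sm hB hk hL hΨ h0 hκ p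
  ip_le := fra_le hB hk hL hΨ h0 hκ
  Z := (bV hB hk hL hΨ h0 hκ).F
  q := (bV hB hk hL hΨ h0 hκ).q1
  hq := (bV hB hk hL hΨ h0 hκ).lift1
  φ := SMap.id _
  hφ z := (bV hB hk hL hΨ h0 hκ).pi_pt _
  C := cyc 7
  hC := cyc_sq 7
  hip w := by
    have h1 := fra_hip hB hk hL hΨ h0 hκ w.1.1 ((cyc 7).mulVec w.1.2) (mulVec_ne (cyc_sq 7) w.2)
    rw [cyc_zero, toE_mulVec (cyc_sq 7)] at h1
    exact h1

variable {𝒜 : SDist n M} (hB : Bl M) (hk : 𝒜.HK 7) (hL : LocV 𝒜 7) {Ψ : Om (spG 𝒜)} (hΨ : Deg 7 Ψ)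
  (h0 : OrV hB hk hL Ψ) (hκ : 1 ≤ 7)

theorem fraV_ip (w : (T2 (bV hB hk hL hΨ h0 hκ)).pt) :
    (fraV hB hk hL hΨ h0 hκ).ip w = ⟪𝒜.vel w.1.1.1 0, 𝒜.vel w.1.2.1 0⟫ := rfl

theorem fraV_hh (w : (T4 (bV hB hk hL hΨ h0 hκ)).pt) : (fraV hB hk hL hΨ h0 hκ).hh w =
    (1 + ⟪𝒜.vel w.1.1.1.1.1.1.1 0, 𝒜.vel w.1.1.1.1.1.2.1 0⟫) + (1 - ⟪𝒜.vel w.1.1.1.1.1.1.1 0, 𝒜.vel w.1.1.1.2.1 0⟫) +
      (1 + ⟪𝒜.vel w.1.1.1.1.1.1.1 0, 𝒜.vel w.1.2.1 0⟫) := rfl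

end Pool.Agent.Lib.MP_ccbbf6_gt.K7
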