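import Pool.Agent.Lib.MP_ccbbf6_gt.K7.SU1
import Pool.Agent.Lib.MP_ccbbf6_gt.L4.SM4

/-!
# `κ = 7`, block F, file SU2: the energy is smaller than `2 π² - ε` away from the diagonal (helper18)

`hhG c = (1 + ⟪v0, v1⟫) + (1 - ⟪v0, v2⟫) + (1 + ⟪v0, v3⟫)`, `v j` the direction of `c j` at `0`.
`gap` : for `0 < η` there is `0 < ε` with `E8 (k8 c) ≤ 2 π² - ε` if `η ≤ hhG c`.
-/

set_option autoImplicit false
set_option maxSynthPendingDepth 3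
set_option linter.unusedSectionVars false

open Set Filter Topology Metric Real Module
open scoped ContDiff RealInnerProductSpace

noncomputable section

namespace Pool.Agent.Lib.MP_ccbbf6_gt.K7.SU

open Geo L4 L4.ORI L4.FR L5 K7 HQ

variable {n : ℕ} {M : Type} [MetricSpace M] [CompactSpace M]

/-- continuity of the inner product of logarithms -/
theorem tendsto_ilg (𝒜 : SDist n M) (hB : Bl M) {ι : Type*} {l : Filter ι} {x y z : ι → M} {x' y' z' : M}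
    (hx : Tendsto x l (𝓝 x')) (hy : Tendsto y l (𝓝 y')) (hz : Tendsto z l (𝓝 z')) (hd : dist x' y' < π)
    (hd' : dist x' z' < π) :
    Tendsto (fun i => ⟪lg 𝒜 (x i) (y i), lg 𝒜 (x i) (z i)⟫) l (𝓝 ⟪lg 𝒜 x' y', lg 𝒜 x' z'⟫) := by
  have h0 : ∀ p : M, (0 : Eu n) ∈ (𝒜.ψ p).target := fun p => by
    rw [← 𝒜.zero p]
    exact (𝒜.ψ p).map_source (𝒜.mem p)
  have hX : SmAt 𝒜 (fun w : (Eu n × Eu n) × Eu n => (𝒜.ψ x').symm w.1.1) ((0, 0), 0) :=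
    smAt_symm (contDiff_fst.comp contDiff_fst).contDiffAt (h0 x')
  have hY : SmAt 𝒜 (fun w : (Eu n × Eu n) × Eu n => (𝒜.ψ y').symm w.1.2) ((0, 0), 0) :=
    smAt_symm (contDiff_snd.comp contDiff_fst).contDiffAt (h0 y')
  have hZ : SmAt 𝒜 (fun w : (Eu n × Eu n) × Eu n => (𝒜.ψ z').symm w.2) ((0, 0), 0) :=
    smAt_symm contDiff_snd.contDiffAt (h0 z')
  have hp : (𝒜.ψ x').symm (0 : Eu n) ∈ (𝒜.ψ x').source := (𝒜.ψ x').map_target (h0 x')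
  have hV1 := smV_lg hB hX hp hY (by
    show dist ((𝒜.ψ x').symm 0) ((𝒜.ψ y').symm 0) < π
    rw [symm_zero', symm_zero']
    exact hd)
  have hV2 := smV_lg hB hX hp hZ (by
    show dist ((𝒜.ψ x').symm 0) ((𝒜.ψ z').symm 0) < π
    rw [symm_zero', symm_zero']
    exact hd')
  have hR := (SmV.inner hX hp hV1 hV2).continuousAt
  have hψ : ∀ {x : ι → M} {x' : M}, Tendsto x l (𝓝 x') → Tendsto (fun i => 𝒜.ψ x' (x i)) l (𝓝 0) := fun {x x'} hx => by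
    rw [← 𝒜.zero x']
    exact ((𝒜.ψ x').continuousAt (𝒜.mem x')).tendsto.comp hx
  have hc : Tendsto (fun i => ((𝒜.ψ x' (x i), 𝒜.ψ y' (y i)), 𝒜.ψ z' (z i))) l (𝓝 (((0 : Eu n), (0 : Eu n)), (0 : Eu n))) :=
    ((hψ hx).prodMk_nhds (hψ hy)).prodMk_nhds (hψ hz)
  have h1 := hR.tendsto.comp hc
  have h2 : (⟪lg 𝒜 ((𝒜.ψ x').symm (0 : Eu n)) ((𝒜.ψ y').symm (0 : Eu n)), lg 𝒜 ((𝒜.ψ x').symm (0 : Eu n)) ((𝒜.ψ z').symm (0 : Eu n))⟫ : ℝ) =
      ⟪lg 𝒜 x' y', lg 𝒜 x' z'⟫ := by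
    rw [symm_zero', symm_zero', symm_zero']
  rw [← h2]
  refine h1.congr' ?_
  filter_upwards [hx.eventually ((𝒜.ψ x').open_source.mem_nhds (𝒜.mem _)),
    hy.eventually ((𝒜.ψ y').open_source.mem_nhds (𝒜.mem _)),
    hz.eventually ((𝒜.ψ z').open_source.mem_nhds (𝒜.mem _))] with i hi hi' hi''
  show ⟪lg 𝒜 ((𝒜.ψ x').symm (𝒜.ψ x' (x i))) ((𝒜.ψ y').symm (𝒜.ψ y' (y i))),
    lg 𝒜 ((𝒜.ψ x').symm (𝒜.ψ x' (x i))) ((𝒜.ψ z').symm (𝒜.ψ z' (z i)))⟫ = _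
  rw [(𝒜.ψ x').left_inv hi, (𝒜.ψ y').left_inv hi', (𝒜.ψ z').left_inv hi'']

variable {𝒜 : SDist n M}

/-- the inner product of directions -/
theorem ip_eq (hB : Bl M) {c c' : Gs M} (h : c'.1 0 = c.1 0) : ⟪𝒜.vel c.1 0, 𝒜.vel c'.1 0⟫ =
    (π / 2)⁻¹ * ((π / 2)⁻¹ * ⟪lg 𝒜 (c.1 0) (c.1 (π / 2)), lg 𝒜 (c.1 0) (c'.1 (π / 2))⟫) := by
  have hp := Real.pi_pos
  have hl : |π / 2| < π := by rw [abs_of_pos (by linarith)]; linarith
  have h1 := lg_geo (𝒜 := 𝒜) hB c hl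
  have h2 := lg_geo (𝒜 := 𝒜) hB c' hl
  rw [h] at h2
  rw [h1, h2, inner_smul_left, inner_smul_right]
  have h3 : (starRingEnd ℝ) (π / 2) = π / 2 := rfl
  rw [h3]
  have h4 : π / 2 ≠ 0 := by positivity
  field_simp

/-- the distance to the diagonal -/
def hhG (𝒜 : SDist n M) (c : Fin 4 → Gs M) : ℝ :=
  (1 + ⟪𝒜.vel (c 0).1 0, 𝒜.vel (c 1).1 0⟫) + (1 - ⟪𝒜.vel (c 0).1 0, 𝒜.vel (c 2).1 0⟫) +
    (1 + ⟪𝒜.vel (c 0).1 0, 𝒜.vel (c 3).1 0⟫)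

theorem cont_ip (hB : Bl M) (j : Fin 4) :
    ContinuousOn (fun c : Fin 4 → Gs M => ⟪𝒜.vel (c 0).1 0, 𝒜.vel (c j).1 0⟫) {c | Ends c} := by
  have hp := Real.pi_pos
  have ev : ∀ (j : Fin 4) (t : ℝ), Continuous (fun c : Fin 4 → Gs M => (c j).1 t) := fun j t =>
    (gs_continuous_ev_at t).comp (continuous_apply j)
  have h1 : ContinuousOn (fun c : Fin 4 → Gs M => (π / 2)⁻¹ * ((π / 2)⁻¹ *
      ⟪lg 𝒜 ((c 0).1 0) ((c 0).1 (π / 2)), lg 𝒜 ((c 0).1 0) ((c j).1 (π / 2))⟫)) {c | Ends c} := by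
    refine continuousOn_const.mul (continuousOn_const.mul ?_)
    intro c hc
    refine tendsto_ilg 𝒜 hB ((ev 0 0).continuousAt.tendsto.mono_left nhdsWithin_le_nhds)
      ((ev 0 (π / 2)).continuousAt.tendsto.mono_left nhdsWithin_le_nhds)
      ((ev j (π / 2)).continuousAt.tendsto.mono_left nhdsWithin_le_nhds) ?_ ?_
    · rw [gdist (c 0) (by linarith) (by linarith)]
      linarith
    · have hc' : Ends c := hc
      rw [← hc'.1 j, gdist (c j) (by linarith) (by linarith)]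
      linarith
  exact h1.congr fun c hc => ip_eq hB ((show Ends c from hc).1 j)

theorem closed_Ends : IsClosed {c : Fin 4 → Gs M | Ends c} := by
  have ev : ∀ (j : Fin 4) (t : ℝ), Continuous (fun c : Fin 4 → Gs M => (c j).1 t) := fun j t =>
    (gs_continuous_ev_at t).comp (continuous_apply j)
  have h1 : {c : Fin 4 → Gs M | Ends c} = (⋂ j, {c | (c j).1 0 = (c 0).1 0}) ∩ ⋂ j, {c | (c j).1 π = (c 0).1 π} := by
    ext c
    simp only [Ends, Set.mem_ofPred_eq, mem_inter_iff, mem_iInter]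
  rw [h1]
  exact (isClosed_iInter fun j => isClosed_eq (ev j 0) (ev 0 0)).inter
    (isClosed_iInter fun j => isClosed_eq (ev j π) (ev 0 π))

theorem cont_hhG (hB : Bl M) : ContinuousOn (hhG 𝒜) {c | Ends c} :=
  (((continuousOn_const.add (cont_ip hB 1)).add (continuousOn_const.sub (cont_ip hB 2)))).add
    (continuousOn_const.add (cont_ip hB 3))

theorem cont_E8k8 : Continuous (fun c : Fin 4 → Gs M => E8 (k8 c)) := by
  have ev : ∀ (j : Fin 4) (t : ℝ), Continuous (fun c : Fin 4 → Gs M => (c j).1 t) := fun j t =>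
    (gs_continuous_ev_at t).comp (continuous_apply j)
  simp only [E8_k8]
  exact continuous_const.add ((((((ev 0 _).dist (ev 1 _)).pow 2).add (((ev 1 _).dist (ev 2 _)).pow 2)).add
    (((ev 2 _).dist (ev 3 _)).pow 2)).add (((ev 3 _).dist (ev 0 _)).pow 2))

/-- the direction of the reversed geodesic -/
theorem vel_rev0 (hB : Bl M) (c : Gs M) : 𝒜.vel (rev c).1 0 = -𝒜.vel c.1 0 := by
  have hp := Real.pi_pos
  have h1 := lg_geo (𝒜 := 𝒜) hB (rev c) (a := π / 2) (by rw [abs_of_pos (by linarith)]; linarith)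
  have h2 := lg_geo (𝒜 := 𝒜) hB c (a := -(π / 2)) (by rw [abs_neg, abs_of_pos (by linarith)]; linarith)
  have e0 : (rev c).1 0 = c.1 0 := by
    show c.1 (-0) = c.1 0
    rw [neg_zero]
  have e1 : (rev c).1 (π / 2) = c.1 (-(π / 2)) := rfl
  rw [e0, e1, h2] at h1
  have h3 : π / 2 ≠ 0 := by positivity
  have h4 : (π / 2) • 𝒜.vel (rev c).1 0 = (π / 2) • -𝒜.vel c.1 0 := by
    rw [← h1, neg_smul, smul_neg]
  exact smul_right_injective (Eu n) h3 h4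

theorem hhG_zero (hB : Bl M) {c : Fin 4 → Gs M} (h1 : c 1 = rev (c 0)) (h2 : c 2 = c 0) (h3 : c 3 = rev (c 0)) :
    hhG 𝒜 c = 0 := by
  unfold hhG
  rw [h1, h2, h3, vel_rev0 hB, inner_neg_right, real_inner_self_eq_norm_sq, vel_norm 𝒜 (c 0)]
  norm_num

/-- **the gap** -/
theorem gap (𝒜 : SDist n M) (hB : Bl M) {η : ℝ} (hη : 0 < η) :
    ∃ ε : ℝ, 0 < ε ∧ ∀ c : Fin 4 → Gs M, Ends c → η ≤ hhG 𝒜 c → E8 (k8 c) ≤ 2 * π ^ 2 - ε := by
  have hS : IsCompact ({c : Fin 4 → Gs M | Ends c} ∩ hhG 𝒜 ⁻¹' Ici η) :=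
    ((cont_hhG hB).preimage_isClosed_of_isClosed closed_Ends isClosed_Ici).isCompact
  rcases eq_empty_or_nonempty ({c : Fin 4 → Gs M | Ends c} ∩ hhG 𝒜 ⁻¹' Ici η) with h0 | h0
  · exact ⟨1, one_pos, fun c hc h => absurd (show c ∈ ({c : Fin 4 → Gs M | Ends c} ∩ hhG 𝒜 ⁻¹' Ici η) from ⟨hc, h⟩)
      (by rw [h0]; exact notMem_empty _)⟩
  · obtain ⟨m, ⟨hm, hm'⟩, hmax⟩ := hS.exists_isMaxOn h0 cont_E8k8.continuousOn
    have h1 : E8 (k8 m) < 2 * π ^ 2 := by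
      refine lt_of_le_of_ne (E8_k8_le hm) fun h => ?_
      obtain ⟨e1, e2, e3⟩ := E8_k8_eq 𝒜 hB hm h
      have h2 := hhG_zero (𝒜 := 𝒜) hB e1 e2 e3
      have h3 : η ≤ hhG 𝒜 m := hm'
      linarith
    refine ⟨2 * π ^ 2 - E8 (k8 m), by linarith, fun c hc h => ?_⟩
    have h2 : E8 (k8 c) ≤ E8 (k8 m) := hmax ⟨hc, h⟩
    linarith

end Pool.Agent.Lib.MP_ccbbf6_gt.K7.SU
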