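import Pool.Agent.Lib.MP_ccbbf6_gt.K7.LO

/-!
# `κ = 7`, block F, file OG1: 8-gons, loops of period `8`, chord homotopy (helper25)

* `hT_ell` : the length function of the chord homotopy (as `LC_hT` of LP1, for all step sizes `m`).
* `spX8 𝒜 d` : 8-gons with sides at most `π - d`; `spX8q 𝒜 d δ` : moreover the sum of two consecutive sides is at most `π - δ`.
* `spOd 𝒜 d` : loops of period `8` with unit arcs at most `π - d`; `spOq 𝒜 d δ` : moreover arcs of length two (quarter arcs) at most `π - δ`.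
-/

set_option autoImplicit false
set_option maxSynthPendingDepth 3
set_option linter.unusedSectionVars false

open Set Filter Topology Metric Real Module
open scoped ContDiff RealInnerProductSpace

noncomputable section

namespace Pool.Agent.Lib.MP_ccbbf6_gt.K7

open Geo L4 L4.ORI L4.FR L5

section ell

variable {n : ℕ} {M : Type*} [MetricSpace M] [CompactSpace M] {𝒜 : SDist n M} {δ τ d : ℝ} {c : ℝ → M}

/-- **the length function of the chord homotopy** -/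
theorem hT_ell (hB : Bl M) {ℓ : ℝ → ℝ} (ha : ∀ s t, s ≤ t → dist (c s) (c t) ≤ ℓ t - ℓ s) (h0 : 0 ≤ τ) (h1 : τ ≤ 1) :
    ∃ L : ℝ → ℝ, (∀ s t, s ≤ t → dist (hT 𝒜 τ c s) (hT 𝒜 τ c t) ≤ L t - L s) ∧
      ∀ (m : ℕ) (K : ℝ), (∀ s, ℓ (s + m) - ℓ s ≤ K) → ∀ s, L (s + m) - L s ≤ K := by
  obtain ⟨L, hL⟩ : ∃ L : ℝ → ℝ, ∀ t, L t = (1 - s1 (Int.fract t)) * ℓ ⌊t⌋ + (s1 (Int.fract t) - 1) * ℓ (⌊t⌋ + τ) +
      ℓ (⌊t⌋ + τ + (1 - τ) * s2 (Int.fract t)) := ⟨_, fun _ => rfl⟩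
  have hA : ∀ (m : ℤ) (s : ℝ), (m : ℝ) ≤ s → s ≤ (m : ℝ) + 1 / 2 →
      hT 𝒜 τ c s = rat 𝒜 (c m) (c (m + τ)) (s1 (s - m)) ∧ L s = (1 - s1 (s - m)) * ℓ m + s1 (s - m) * ℓ (m + τ) := by
    intro m s k1 k2
    have hf : ⌊s⌋ = m := Int.floor_eq_iff.2 ⟨k1, by linarith⟩
    have hr : Int.fract s = s - m := by
      unfold Int.fract
      rw [hf]
    have hz : s2 (s - m) = 0 := s2_zero (by linarith)
    constructor
    · unfold hT
      rw [hf, hr, hz, mul_zero, add_zero]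
    · rw [hL, hf, hr, hz, mul_zero, add_zero]
      ring
  have hC : ∀ (m : ℤ) (s : ℝ), (m : ℝ) + 1 / 2 ≤ s → s ≤ (m : ℝ) + 1 →
      hT 𝒜 τ c s = c (m + τ + (1 - τ) * s2 (s - m)) ∧ L s = ℓ (m + τ + (1 - τ) * s2 (s - m)) := by
    intro m s k1 k2
    rcases lt_or_eq_of_le k2 with k3 | k3
    · have hf : ⌊s⌋ = m := Int.floor_eq_iff.2 ⟨by linarith, k3⟩
      have hr : Int.fract s = s - m := by
        unfold Int.fract
        rw [hf]
      have hz : s1 (s - m) = 1 := s1_one (by linarith)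
      constructor
      · unfold hT
        rw [hf, hr, hz, rat_one hB]
      · rw [hL, hf, hr, hz]
        ring
    · have hf : ⌊s⌋ = m + 1 := by
        rw [k3, Int.floor_add_one, Int.floor_intCast]
      have hr : Int.fract s = 0 := by
        unfold Int.fract
        rw [hf, k3]
        push_cast
        ring
      have hz : s1 0 = 0 := s1_zero (by norm_num)
      have hz2 : s2 0 = 0 := s2_zero (by norm_num)
      have hz3 : s2 (s - m) = 1 := s2_one (by linarith)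
      have e : (m : ℝ) + τ + (1 - τ) * 1 = ((m + 1 : ℤ) : ℝ) := by
        push_cast
        ring
      constructor
      · unfold hT
        rw [hf, hr, hz, rat_zero hB, hz3, e]
      · rw [hL, hf, hr, hz, hz2, hz3, e, mul_zero, add_zero]
        ring
  refine ⟨L, fun s t hst => ?_, fun m K hb s => ?_⟩
  · refine LC_local (c := hT 𝒜 τ c) (ℓ := L) ?_ hst
    intro i s t k1 k2 k3
    rcases Int.even_or_odd' i with ⟨m, hm | hm⟩
    · rw [hm] at k1 k3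
      push_cast at k1 k3
      obtain ⟨p1, p2⟩ := hA m s (by linarith) (by linarith)
      obtain ⟨q1, q2⟩ := hA m t (by linarith) (by linarith)
      rw [p1, p2, q1, q2, dist_rat_rat hB _ _ (s1_nonneg _) (s1_le _) (s1_nonneg _) (s1_le _)]
      have hmono : s1 (s - m) ≤ s1 (t - m) := s1_mono (by linarith)
      rw [abs_of_nonpos (by linarith)]
      have k4 := ha m (m + τ) (by linarith)
      have k5 := mul_le_mul_of_nonneg_left k4 (show 0 ≤ -(s1 (s - m) - s1 (t - m)) by linarith)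
      refine k5.trans (le_of_eq ?_)
      ring
    · rw [hm] at k1 k3
      push_cast at k1 k3
      obtain ⟨p1, p2⟩ := hC m s (by linarith) (by linarith)
      obtain ⟨q1, q2⟩ := hC m t (by linarith) (by linarith)
      rw [p1, p2, q1, q2]
      refine ha _ _ ?_
      have hmono : s2 (s - m) ≤ s2 (t - m) := s2_mono (by linarith)
      have k4 := mul_le_mul_of_nonneg_left hmono (show 0 ≤ 1 - τ by linarith)
      linarith
  · rw [hL, hL, Int.floor_add_natCast, Int.fract_add_natCast]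
    push_cast
    rcases s_or (Int.fract s) with k1 | k1
    · rw [k1, mul_zero, add_zero, add_zero]
      have k2 := hb ⌊s⌋
      have k3 := hb (⌊s⌋ + τ)
      have e1 : ((⌊s⌋ : ℝ) + m + τ) = (⌊s⌋ : ℝ) + τ + m := by ring
      rw [e1]
      have k4 := mul_le_mul_of_nonneg_left k2 (show 0 ≤ 1 - s1 (Int.fract s) by linarith [s1_le (Int.fract s)])
      have k5 := mul_le_mul_of_nonneg_left k3 (s1_nonneg (Int.fract s))
      linarith
    · rw [k1]
      have k2 := hb (⌊s⌋ + τ + (1 - τ) * s2 (Int.fract s))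
      have e1 : ((⌊s⌋ : ℝ) + m + τ + (1 - τ) * s2 (Int.fract s)) = (⌊s⌋ : ℝ) + τ + (1 - τ) * s2 (Int.fract s) + m := by
        ring
      rw [e1]
      linarith

/-- unit arcs at most `π - d`, arcs of length `2` at most `π - δ` -/
def LQ (d δ : ℝ) (c : ℝ → M) : Prop :=
  ∃ ℓ : ℝ → ℝ, (∀ s t, s ≤ t → dist (c s) (c t) ≤ ℓ t - ℓ s) ∧ (∀ s, ℓ (s + 1) - ℓ s ≤ π - d) ∧ ∀ s, ℓ (s + 2) - ℓ s ≤ π - δ

omit [CompactSpace M] in
theorem LQ.toLC (h : LQ d δ c) : LC d c := by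
  obtain ⟨ℓ, a, b, _⟩ := h
  exact ⟨ℓ, a, b⟩

omit [CompactSpace M] in
/-- in the parametrisation of period `4` -/
theorem LQ.dbl (h : LQ d δ c) : LC δ fun t => c (2 * t) := by
  obtain ⟨ℓ, a, _, b⟩ := h
  exact ⟨fun t => ℓ (2 * t), fun s t hst => a _ _ (by linarith), fun s => by
    show ℓ (2 * (s + 1)) - ℓ (2 * s) ≤ π - δ
    rw [show 2 * (s + 1) = 2 * s + 2 by ring]
    exact b _⟩

theorem LQ_hT (hB : Bl M) (h : LQ d δ c) (h0 : 0 ≤ τ) (h1 : τ ≤ 1) : LQ d δ (hT 𝒜 τ c) := by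
  obtain ⟨ℓ, a, b, b'⟩ := h
  obtain ⟨L, hL, hm⟩ := hT_ell (𝒜 := 𝒜) hB a h0 h1
  refine ⟨L, hL, fun s => ?_, fun s => ?_⟩
  · have h2 := hm 1 (π - d) (fun s => by rw [Nat.cast_one]; exact b s) s
    rwa [Nat.cast_one] at h2
  · have h2 := hm 2 (π - δ) (fun s => by rw [Nat.cast_ofNat]; exact b' s) s
    rwa [Nat.cast_ofNat] at h2

omit [CompactSpace M] in
theorem LQ_comp (h : LQ d δ c) {φ : ℝ → ℝ} (hφ : Monotone φ) (h1 : ∀ s, φ (s + 1) = φ s + 1) :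
    LQ d δ fun t => c (φ t) := by
  obtain ⟨ℓ, a, b, b'⟩ := h
  refine ⟨fun t => ℓ (φ t), fun s t hst => a _ _ (hφ hst), fun s => ?_, fun s => ?_⟩
  · show ℓ (φ (s + 1)) - ℓ (φ s) ≤ π - d
    rw [h1]
    exact b _
  · show ℓ (φ (s + 2)) - ℓ (φ s) ≤ π - δ
    rw [show s + 2 = s + 1 + 1 by ring, h1, h1, show φ s + 1 + 1 = φ s + 2 by ring]
    exact b' _

omit [CompactSpace M] in
theorem LQ_step {x : ℤ → M} (h : ∀ i, dist (x i) (x (i + 1)) ≤ π - d)
    (h' : ∀ i, dist (x i) (x (i + 1)) + dist (x (i + 1)) (x (i + 1 + 1)) ≤ π - δ) : LQ d δ fun t => x ⌊t⌋ := by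
  obtain ⟨L, hL⟩ := exists_L fun i => dist (x i) (x (i + 1))
  have key : ∀ a b : ℤ, a ≤ b → dist (x a) (x b) ≤ L b - L a := by
    intro a b hab
    induction b, hab using Int.leInduction with
    | base => rw [dist_self, sub_self]
    | succ b hb ih =>
      have h1 := dist_triangle (x a) (x b) (x (b + 1))
      have h2 := hL b
      linarith
  refine ⟨fun t => L ⌊t⌋, fun s t hst => key _ _ (Int.floor_le_floor hst), fun s => ?_, fun s => ?_⟩
  · show L ⌊s + 1⌋ - L ⌊s⌋ ≤ π - d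
    rw [Int.floor_add_one, hL]
    exact h _
  · show L ⌊s + 2⌋ - L ⌊s⌋ ≤ π - δ
    have e : ⌊s + 2⌋ = ⌊s⌋ + 1 + 1 := by
      rw [show s + 2 = s + 1 + 1 by ring, Int.floor_add_one, Int.floor_add_one]
    have h1 := hL ⌊s⌋
    have h2 := hL (⌊s⌋ + 1)
    rw [e]
    linarith [h' ⌊s⌋]

omit [CompactSpace M] in
theorem LQ_of_Lip {c : ℝ → M} {K : ℝ} (h : ∀ s t, dist (c s) (c t) ≤ K * |s - t|) (h1 : K ≤ π - d) (h2 : 2 * K ≤ π - δ) :
    LQ d δ c := by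
  refine ⟨fun t => K * t, fun s t hst => ?_, fun s => ?_, fun s => ?_⟩
  · have h3 := h s t
    rw [abs_of_nonpos (by linarith)] at h3
    linarith
  · show K * (s + 1) - K * s ≤ π - d
    linarith
  · show K * (s + 2) - K * s ≤ π - δ
    linarith

theorem hT_per8 (hc : ∀ t, c (t + 8) = c t) (t : ℝ) : hT 𝒜 τ c (t + 8) = hT 𝒜 τ c t := by
  unfold hT
  have h1 : ⌊t + 8⌋ = ⌊t⌋ + 8 := Int.floor_add_ofNat t 8
  have h2 : Int.fract (t + 8) = Int.fract t := Int.fract_add_ofNat t 8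
  rw [h1, h2]
  push_cast
  have h3 : (⌊t⌋ : ℝ) + 8 + τ + (1 - τ) * s2 (Int.fract t) = (⌊t⌋ : ℝ) + τ + (1 - τ) * s2 (Int.fract t) + 8 := by ring
  rw [h3, hc, hc]

end ell

variable {n : ℕ} {M : Type} [MetricSpace M] [CompactSpace M] {𝒜 : SDist n M} {d δ : ℝ}

/-- 8-gons with sides at most `π - d` -/
def spX8 (𝒜 : SDist n M) (d : ℝ) : Space where
  pt := {x : ZMod 8 → M // ∀ i, dist (x i) (x (i + 1)) ≤ π - d}
  Pl _ := {p | ∀ i, L4.Sm 𝒜 (fun u => (p u).1 i)}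
  pre := fun {_ _ p} hp g i => L4.Sm.comp (g := fun u => (p u).1 i) (hp i) g.smooth

/-- 8-gons with sides at most `π - d` and pairs of consecutive sides at most `π - δ` -/
def spX8q (𝒜 : SDist n M) (d δ : ℝ) : Space where
  pt := {x : ZMod 8 → M // (∀ i, dist (x i) (x (i + 1)) ≤ π - d) ∧
    ∀ i, dist (x i) (x (i + 1)) + dist (x (i + 1)) (x (i + 1 + 1)) ≤ π - δ}
  Pl _ := {p | ∀ i, L4.Sm 𝒜 (fun u => (p u).1 i)}
  pre := fun {_ _ p} hp g i => L4.Sm.comp (g := fun u => (p u).1 i) (hp i) g.smooth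

/-- loops of period `8` with unit arcs at most `π - d` -/
def spOd (𝒜 : SDist n M) (d : ℝ) : Space where
  pt := {c : ℝ → M // (∀ t, c (t + 8) = c t) ∧ LC d c}
  Pl k := {p | L4.Sm 𝒜 (fun z : V k × ℝ => (p z.1).1 z.2)}
  pre := fun {k l p} hp g => by
    have h : ContDiff ℝ ∞ (fun z : V k × ℝ => ((g z.1 : V l), z.2)) := (g.smooth.comp contDiff_fst).prodMk contDiff_snd
    exact L4.Sm.comp (g := fun z : V l × ℝ => (p z.1).1 z.2) hp h

/-- loops of period `8` with unit arcs at most `π - d` and quarter arcs at most `π - δ` -/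
def spOq (𝒜 : SDist n M) (d δ : ℝ) : Space where
  pt := {c : ℝ → M // (∀ t, c (t + 8) = c t) ∧ LQ d δ c}
  Pl k := {p | L4.Sm 𝒜 (fun z : V k × ℝ => (p z.1).1 z.2)}
  pre := fun {k l p} hp g => by
    have h : ContDiff ℝ ∞ (fun z : V k × ℝ => ((g z.1 : V l), z.2)) := (g.smooth.comp contDiff_fst).prodMk contDiff_snd
    exact L4.Sm.comp (g := fun z : V l × ℝ => (p z.1).1 z.2) hp h

/-- inclusions -/
def iOd (𝒜 : SDist n M) (d : ℝ) : SMap (spOd 𝒜 d) (spO 𝒜) := ⟨fun c => ⟨c.1, c.2.1⟩, fun _ p => p.2⟩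

def iOq (𝒜 : SDist n M) (d δ : ℝ) : SMap (spOq 𝒜 d δ) (spOd 𝒜 d) := ⟨fun c => ⟨c.1, c.2.1, c.2.2.toLC⟩, fun _ p => p.2⟩

def iXq (𝒜 : SDist n M) (d δ : ℝ) : SMap (spX8q 𝒜 d δ) (spX8 𝒜 d) := ⟨fun x => ⟨x.1, x.2.1⟩, fun _ p => p.2⟩

/-- loops of `spOq` in the parametrisation of period `4` -/
def jOq (𝒜 : SDist n M) (d δ : ℝ) : SMap (spOq 𝒜 d δ) (spL 𝒜 δ) :=
  ⟨fun c => ⟨fun t => c.1 (2 * t), fun t => by
      show c.1 (2 * (t + 4)) = c.1 (2 * t)
      rw [show 2 * (t + 4) = 2 * t + 8 by ring]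
      exact c.2.1 _, c.2.2.dbl⟩, fun k p => by
    exact L4.Sm.comp (g := fun z : V k × ℝ => (p.1 z.1).1 z.2) (f := fun z : V k × ℝ => (z.1, 2 * z.2)) p.2
      (contDiff_fst.prodMk (contDiff_const.mul contDiff_snd))⟩

theorem iL_jOq : (iL 𝒜 δ).comp (jOq 𝒜 d δ) = (iOd 𝒜 d).comp (iOq 𝒜 d δ) := SMap_ext fun c =>
  Subtype.ext (funext fun t => by
    show c.1 (2 * (t / 2)) = c.1 t
    rw [show 2 * (t / 2) = t by ring])

/-- the step function of an 8-gon -/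
def stc8 (x : ZMod 8 → M) (t : ℝ) : M := x ((⌊t⌋ : ℤ) : ZMod 8)

theorem stc8_per (x : ZMod 8 → M) (t : ℝ) : stc8 x (t + 8) = stc8 x t := by
  unfold stc8
  have h : ⌊t + 8⌋ = ⌊t⌋ + 8 := Int.floor_add_ofNat t 8
  have h8 : ((8 : ℤ) : ZMod 8) = 0 := rfl
  rw [h, Int.cast_add, h8, add_zero]

theorem LC_stc8 {x : ZMod 8 → M} (h : ∀ i, dist (x i) (x (i + 1)) ≤ π - d) : LC d (stc8 x) :=
  LC_step (x := fun i : ℤ => x (i : ZMod 8)) fun i => by
    rw [Int.cast_add, Int.cast_one]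
    exact h _

theorem LQ_stc8 {x : ZMod 8 → M} (h : ∀ i, dist (x i) (x (i + 1)) ≤ π - d)
    (h' : ∀ i, dist (x i) (x (i + 1)) + dist (x (i + 1)) (x (i + 1 + 1)) ≤ π - δ) : LQ d δ (stc8 x) :=
  LQ_step (x := fun i : ℤ => x (i : ZMod 8)) (fun i => by
    rw [Int.cast_add, Int.cast_one]
    exact h _) fun i => by
    rw [Int.cast_add (i + 1), Int.cast_add i, Int.cast_one]
    exact h' _

theorem stc8_int (x : ZMod 8 → M) (i : ℤ) : stc8 x i = x (i : ZMod 8) := by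
  unfold stc8
  rw [Int.floor_intCast]

theorem stc8_int1 (x : ZMod 8 → M) (i : ℤ) : stc8 x ((i : ℝ) + 1) = x ((i : ZMod 8) + 1) := by
  unfold stc8
  rw [Int.floor_add_one, Int.floor_intCast, Int.cast_add, Int.cast_one]

theorem sm_poly8 (hB : Bl M) {E : Type*} [NormedAddCommGroup E] [NormedSpace ℝ E] {x : E → ZMod 8 → M}
    (hx : ∀ i, L4.Sm 𝒜 fun u => x u i) (h : ∀ u i, dist (x u i) (x u (i + 1)) < π) :
    L4.Sm 𝒜 (fun z : E × ℝ => hT 𝒜 1 (stc8 (x z.1)) z.2) := by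
  refine sm_hT1 hB (c := fun z => stc8 (x z)) (fun i => ?_) (fun z i => ?_)
  · simp only [stc8_int]
    exact hx _
  · show dist (stc8 (x z) i) (stc8 (x z) ((i : ℝ) + 1)) < π
    rw [stc8_int, stc8_int1]
    exact h _ _

/-- the polygon with vertices `x i` -/
def plg8 (hB : Bl M) (hd : 0 < d) : SMap (spX8 𝒜 d) (spOd 𝒜 d) :=
  ⟨fun x => ⟨hT 𝒜 1 (stc8 x.1), hT_per8 (stc8_per x.1), LC_hT hB (LC_stc8 x.2) zero_le_one le_rfl⟩, fun k p => by
    exact sm_poly8 (E := V k) hB (x := fun u => (p.1 u).1) p.2 fun u i => by linarith [(p.1 u).2 i]⟩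

/-- short polygons -/
def plgq (hB : Bl M) (hd : 0 < d) : SMap (spX8q 𝒜 d δ) (spOq 𝒜 d δ) :=
  ⟨fun x => ⟨hT 𝒜 1 (stc8 x.1), hT_per8 (stc8_per x.1), LQ_hT hB (LQ_stc8 x.2.1 x.2.2) zero_le_one le_rfl⟩, fun k p => by
    exact sm_poly8 (E := V k) hB (x := fun u => (p.1 u).1) p.2 fun u i => by linarith [(p.1 u).2.1 i]⟩

theorem iOq_plgq (hB : Bl M) (hd : 0 < d) : (iOq 𝒜 d δ).comp (plgq hB hd) = (plg8 hB hd).comp (iXq 𝒜 d δ) := rfl

theorem plg8_apply (hB : Bl M) (hd : 0 < d) (x : (spX8 𝒜 d).pt) (t : ℝ) : ((plg8 hB hd).1 x).1 t =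
    rat 𝒜 (x.1 ((⌊t⌋ : ℤ) : ZMod 8)) (x.1 (((⌊t⌋ : ℤ) : ZMod 8) + 1)) (s1 (Int.fract t)) := by
  show hT 𝒜 1 (stc8 x.1) t = _
  rw [hT_one, stc8_int, stc8_int1]

/-- `c (val i) = c i` for integers -/
theorem per_val8 {c : ℝ → M} (hc : ∀ t, c (t + 8) = c t) (i : ℤ) : c (((i : ZMod 8).val : ℕ) : ℝ) = c i := by
  have h1 : (((i : ZMod 8).val : ℕ) : ℤ) = i % 8 := ZMod.val_intCast i
  have h2 : ((((i : ZMod 8).val : ℕ) : ℤ) : ℝ) + ((i / 8 : ℤ) : ℝ) * 8 = i := by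
    rw [h1]
    have h5 : i % 8 + i / 8 * 8 = i := by omega
    exact_mod_cast h5
  have h3 : Function.Periodic c 8 := hc
  rw [← h2]
  have h4 := (h3.int_mul (i / 8)) ((((i : ZMod 8).val : ℕ) : ℤ) : ℝ)
  rw [h4]
  rfl

theorem val_succ {c : ℝ → M} (hc : ∀ t, c (t + 8) = c t) (i : ZMod 8) : c (((i + 1).val : ℕ) : ℝ) = c ((i.val : ℝ) + 1) := by
  have h1 : ((i.val : ℤ) : ZMod 8) = i := by
    rw [Int.cast_natCast, ZMod.natCast_zmod_val]
  have h2 := per_val8 hc ((i.val : ℤ) + 1)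
  rw [Int.cast_add, Int.cast_one, h1] at h2
  rw [h2]
  push_cast
  rfl

/-- samples at the integers -/
def smp8 (𝒜 : SDist n M) (d : ℝ) : SMap (spOd 𝒜 d) (spX8 𝒜 d) :=
  ⟨fun c => ⟨fun i => c.1 (i.val : ℝ), fun i => by
    show dist (c.1 (i.val : ℝ)) (c.1 ((i + 1).val : ℝ)) ≤ π - d
    rw [val_succ c.2.1]
    exact LC_dist c.2.2 (by linarith) le_rfl⟩, fun k p i => by
    exact L4.Sm.comp (g := fun z : V k × ℝ => (p.1 z.1).1 z.2) (f := fun u : V k => (u, (i.val : ℝ))) p.2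
      (contDiff_id.prodMk contDiff_const)⟩

theorem LQ_pair {c : ℝ → M} (h : LQ d δ c) (s : ℝ) : dist (c s) (c (s + 1)) + dist (c (s + 1)) (c (s + 1 + 1)) ≤ π - δ := by
  obtain ⟨ℓ, a, _, b⟩ := h
  have h1 := a s (s + 1) (by linarith)
  have h2 := a (s + 1) (s + 1 + 1) (by linarith)
  have h3 := b s
  rw [show s + 2 = s + 1 + 1 by ring] at h3
  linarith

/-- samples of short loops -/
def smpq (𝒜 : SDist n M) (d δ : ℝ) : SMap (spOq 𝒜 d δ) (spX8q 𝒜 d δ) :=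
  ⟨fun c => ⟨fun i => c.1 (i.val : ℝ), fun i => by
    show dist (c.1 (i.val : ℝ)) (c.1 ((i + 1).val : ℝ)) ≤ π - d
    rw [val_succ c.2.1]
    exact LC_dist c.2.2.toLC (by linarith) le_rfl, fun i => by
    show dist (c.1 (i.val : ℝ)) (c.1 ((i + 1).val : ℝ)) + dist (c.1 ((i + 1).val : ℝ)) (c.1 ((i + 1 + 1).val : ℝ)) ≤ π - δ
    have h1 := val_succ c.2.1 (i + 1)
    have h2 := val_succ c.2.1 i
    obtain ⟨m, hm⟩ : ∃ m : ℤ, (m : ZMod 8) = i := ⟨i.val, by rw [Int.cast_natCast, ZMod.natCast_zmod_val]⟩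
    have h3 : c.1 (((i + 1 + 1).val : ℕ) : ℝ) = c.1 ((i.val : ℝ) + 1 + 1) := by
      have h4 := per_val8 c.2.1 ((i.val : ℤ) + 1 + 1)
      have h5 : ((i.val : ℤ) : ZMod 8) = i := by rw [Int.cast_natCast, ZMod.natCast_zmod_val]
      rw [Int.cast_add, Int.cast_add, Int.cast_one, h5] at h4
      rw [h4]
      push_cast
      rfl
    rw [h3, h2]
    exact LQ_pair c.2.2 _⟩, fun k p i => by
    exact L4.Sm.comp (g := fun z : V k × ℝ => (p.1 z.1).1 z.2) (f := fun u : V k => (u, (i.val : ℝ))) p.2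
      (contDiff_id.prodMk contDiff_const)⟩

theorem smp8_iOq : (smp8 𝒜 d).comp (iOq 𝒜 d δ) = (iXq 𝒜 d δ).comp (smpq 𝒜 d δ) := rfl

theorem plg8_smp8 (hB : Bl M) (hd : 0 < d) (c : (spOd 𝒜 d).pt) (t : ℝ) :
    ((plg8 hB hd).1 ((smp8 𝒜 d).1 c)).1 t = hT 𝒜 1 c.1 t := by
  have h1 : (((⌊t⌋ : ℤ) : ZMod 8) + 1) = (((⌊t⌋ + 1 : ℤ)) : ZMod 8) := by rw [Int.cast_add, Int.cast_one]
  have h2 : (((⌊t⌋ + 1 : ℤ)) : ℝ) = (⌊t⌋ : ℝ) + 1 := by push_cast; ring
  rw [plg8_apply, hT_one, h1]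
  show rat 𝒜 (c.1 ((((⌊t⌋ : ℤ) : ZMod 8).val : ℕ) : ℝ)) (c.1 ((((⌊t⌋ + 1 : ℤ) : ZMod 8).val : ℕ) : ℝ)) _ = _
  rw [per_val8 c.2.1, per_val8 c.2.1, h2]

/-- the chord homotopy from `c ∘ sg` to the polygon -/
def homO1 (hB : Bl M) (hd : 0 < d) : SMap (spOd 𝒜 d).xR (spOd 𝒜 d) :=
  ⟨fun z => ⟨hT 𝒜 (Real.smoothTransition z.2) z.1.1, hT_per8 z.1.2.1,
    LC_hT hB z.1.2.2 (Real.smoothTransition.nonneg _) (Real.smoothTransition.le_one _)⟩, fun k p => by
    refine sm_hT (E := V k) hB hd (c := fun z => (p.1 z).1.1) (τ := fun z => Real.smoothTransition (p.1 z).2) p.2.1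
      (fun z => (p.1 z).1.2.2) (Real.smoothTransition.contDiff.comp p.2.2) (fun z => Real.smoothTransition.nonneg _)
      (fun z => Real.smoothTransition.le_one _)⟩

/-- the same on short loops -/
def homO1q (hB : Bl M) (hd : 0 < d) : SMap (spOq 𝒜 d δ).xR (spOq 𝒜 d δ) :=
  ⟨fun z => ⟨hT 𝒜 (Real.smoothTransition z.2) z.1.1, hT_per8 z.1.2.1,
    LQ_hT hB z.1.2.2 (Real.smoothTransition.nonneg _) (Real.smoothTransition.le_one _)⟩, fun k p => by
    refine sm_hT (E := V k) hB hd (c := fun z => (p.1 z).1.1) (τ := fun z => Real.smoothTransition (p.1 z).2) p.2.1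
      (fun z => (p.1 z).1.2.2.toLC) (Real.smoothTransition.contDiff.comp p.2.2) (fun z => Real.smoothTransition.nonneg _)
      (fun z => Real.smoothTransition.le_one _)⟩

theorem sgr_add8 (r t : ℝ) : sgr r (t + 8) = sgr r t + 8 := by
  rw [show t + 8 = t + 4 + 4 by ring, sgr_add4, sgr_add4]
  ring

theorem contDiff_sgr {E : Type*} [NormedAddCommGroup E] [NormedSpace ℝ E] {r : E → ℝ} (hr : ContDiff ℝ ∞ r) :
    ContDiff ℝ ∞ (fun z : E × ℝ => sgr (Real.smoothTransition (r z.1)) z.2) := by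
  have h1 : ContDiff ℝ ∞ (fun z : E × ℝ => Real.smoothTransition (r z.1)) :=
    Real.smoothTransition.contDiff.comp (hr.comp contDiff_fst)
  exact ((contDiff_const.sub h1).mul contDiff_snd).add (h1.mul (contDiff_sg.comp contDiff_snd))

/-- the time change homotopy -/
def homO0 (𝒜 : SDist n M) (d : ℝ) : SMap (spOd 𝒜 d).xR (spOd 𝒜 d) :=
  ⟨fun z => ⟨fun t => z.1.1 (sgr (Real.smoothTransition z.2) t), fun t => by
      show z.1.1 (sgr _ (t + 8)) = z.1.1 (sgr _ t)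
      rw [sgr_add8]
      exact z.1.2.1 _,
    LC_comp z.1.2.2 (sgr_mono (Real.smoothTransition.nonneg _) (Real.smoothTransition.le_one _)) (sgr_add _)⟩,
    fun k p => by
    exact L4.Sm.comp (g := fun z : V k × ℝ => (p.1 z.1).1.1 z.2) p.2.1 (contDiff_fst.prodMk (contDiff_sgr p.2.2))⟩

/-- the same on short loops -/
def homO0q (𝒜 : SDist n M) (d δ : ℝ) : SMap (spOq 𝒜 d δ).xR (spOq 𝒜 d δ) :=
  ⟨fun z => ⟨fun t => z.1.1 (sgr (Real.smoothTransition z.2) t), fun t => by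
      show z.1.1 (sgr _ (t + 8)) = z.1.1 (sgr _ t)
      rw [sgr_add8]
      exact z.1.2.1 _,
    LQ_comp z.1.2.2 (sgr_mono (Real.smoothTransition.nonneg _) (Real.smoothTransition.le_one _)) (sgr_add _)⟩,
    fun k p => by
    exact L4.Sm.comp (g := fun z : V k × ℝ => (p.1 z.1).1.1 z.2) p.2.1 (contDiff_fst.prodMk (contDiff_sgr p.2.2))⟩

theorem homO0_zero : (homO0 𝒜 d).comp (jO _ 0) = SMap.id _ := SMap_ext fun c => Subtype.ext (funext fun t => by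
  show c.1 (sgr (Real.smoothTransition 0) t) = c.1 t
  rw [Real.smoothTransition.zero]
  unfold sgr
  rw [zero_mul, add_zero, sub_zero, one_mul])

theorem homO0q_zero : (homO0q 𝒜 d δ).comp (jO _ 0) = SMap.id _ := SMap_ext fun c => Subtype.ext (funext fun t => by
  show c.1 (sgr (Real.smoothTransition 0) t) = c.1 t
  rw [Real.smoothTransition.zero]
  unfold sgr
  rw [zero_mul, add_zero, sub_zero, one_mul])

theorem homO0_one (hB : Bl M) (hd : 0 < d) : (homO0 𝒜 d).comp (jO _ 1) = (homO1 hB hd).comp (jO _ 0) :=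
  SMap_ext fun c => Subtype.ext (funext fun t => by
    show c.1 (sgr (Real.smoothTransition 1) t) = hT 𝒜 (Real.smoothTransition 0) c.1 t
    rw [Real.smoothTransition.zero, Real.smoothTransition.one, hT_zero hB]
    unfold sgr
    rw [sub_self, zero_mul, zero_add, one_mul])

theorem homO0q_one (hB : Bl M) (hd : 0 < d) : (homO0q 𝒜 d δ).comp (jO _ 1) = (homO1q hB hd).comp (jO _ 0) :=
  SMap_ext fun c => Subtype.ext (funext fun t => by
    show c.1 (sgr (Real.smoothTransition 1) t) = hT 𝒜 (Real.smoothTransition 0) c.1 t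
    rw [Real.smoothTransition.zero, Real.smoothTransition.one, hT_zero hB]
    unfold sgr
    rw [sub_self, zero_mul, zero_add, one_mul])

theorem homO1_one (hB : Bl M) (hd : 0 < d) : (homO1 (𝒜 := 𝒜) hB hd).comp (jO _ 1) = (plg8 hB hd).comp (smp8 𝒜 d) :=
  SMap_ext fun c => Subtype.ext (funext fun t => by
    show hT 𝒜 (Real.smoothTransition 1) c.1 t = ((plg8 hB hd).1 ((smp8 𝒜 d).1 c)).1 t
    rw [Real.smoothTransition.one, plg8_smp8])

theorem homO1q_one (hB : Bl M) (hd : 0 < d) : (homO1q (𝒜 := 𝒜) (δ := δ) hB hd).comp (jO _ 1) =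
    (plgq hB hd).comp (smpq 𝒜 d δ) :=
  SMap_ext fun c => Subtype.ext (funext fun t => by
    show hT 𝒜 (Real.smoothTransition 1) c.1 t = ((plg8 hB hd).1 ((smp8 𝒜 d).1 ((iOq 𝒜 d δ).1 c))).1 t
    rw [Real.smoothTransition.one, plg8_smp8]
    rfl)

end Pool.Agent.Lib.MP_ccbbf6_gt.K7
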