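import Pool.Agent.Lib.MP_ccbbf6_gt.K7.HQ0
import Pool.Agent.Lib.MP_ccbbf6_gt.K7.OG1

/-!
# `κ = 7`, block F, file OG2: Birkhoff shortening of 8-gons (helper25, skeleton)

`bt8 𝒜 t x i` = the point at fraction `t / 2` of the side `x i, x (i + 1)`.
PROOFS (as in K7/BK1 for 4-gons).
(1) `exists_iter2` : on the compact set `K ∩ Z` (closed in `K`) the continuous function `E x - E (f x)` is positive, so `≥ ε0 > 0` (`IsCompact.exists_isMinOn`; empty case: `N = 0`). If `f^[N] x ∈ Z` then `f^[j] x ∈ Z` for all `j ≤ N` (`h3`), so `E (f^[N] x) ≤ E x - N ε0`;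
    `E` is bounded above and below on `K` (`IsCompact.exists_isMinOn`, `exists_isMaxOn`): impossible for large `N`.
(2) `E8_bir_eq` : as `en_bir_eq` (BK1): equality gives `l i = l (i+1)` for all `i` (`l i = dist (x i) (x (i+1))`, from `((l i + l (i+1))/2)^2 = l i^2/2 + l(i+1)^2/2 - ((l i - l (i+1))/2)^2`) and `dist (m i) (m (i+1)) = l` (`m i = bt8 1 x i`). If `l = 0`: done. Otherwise `straight` (RT) at `x (i+1)` with `p = m i`, `q = m (i+1)` gives `c i : Gs M` with `c i 0 = x (i+1)`, `c i (-l) = x i`, `c i l = x (i+2)`;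
    `c (i+1)` and `shift l (c i)` agree at `0` and `-l`: `IsGeo.unique` (`0 < l < π`), so `c (i+1) = shift l (c i)`, hence `c 0 (8 l) = c 0 0` (indices in `ZMod 8`). With `8 l^2 = E8 x < 2 π^2`: `l < π / 2`, `0 < 8 l < 4 π`. `dist (c 0) (c s) = s` (`s ≤ π`), `= 2 π - s` (`π ≤ s ≤ 2 π`, `gs_dist_long`), `gs_period`: so `8 l = 2 π`.
(3) `iter8` : `exists_iter2` with `K = {x | (∀ i, dist (x i) (x (i+1)) ≤ π - d) ∧ E8 x ≤ 2 π^2 - ε}` (closed in a compact space), `f = bt8 𝒜 1` (continuous on `K`: `tendsto_rat`), `E = E8`, `Z = {x | ∃ i, π - δ ≤ dist (x i) (x (i+1)) + dist (x (i+1)) (x (i+1+1))}` (closed: finite union). `h2`: `E8_bir_le`, `E8_bir_eq` (all sides `≤ π / 4`, pairs `≤ π / 2 < π - δ`); `h3`: `bt8_side` twice.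
-/

set_option autoImplicit false
set_option maxSynthPendingDepth 3
set_option linter.unusedSectionVars false

open Set Filter Topology Metric Real Module
open scoped ContDiff RealInnerProductSpace

noncomputable section

namespace Pool.Agent.Lib.MP_ccbbf6_gt.K7

open Geo L4 L4.ORI L4.FR L5 HQ

/-- abstract compactness lemma: descents leave a closed set -/
theorem exists_iter2 {T : Type*} [TopologicalSpace T] {K : Set T} (hK : IsCompact K) {f : T → T} (hm : ∀ x ∈ K, f x ∈ K)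
    (hf : ContinuousOn f K) {E : T → ℝ} (hE : ContinuousOn E K) {Z : Set T} (hZ : IsClosed Z)
    (h1 : ∀ x ∈ K, E (f x) ≤ E x) (h2 : ∀ x ∈ K, x ∈ Z → E (f x) < E x) (h3 : ∀ x ∈ K, x ∉ Z → f x ∉ Z) :
    ∃ N : ℕ, ∀ x ∈ K, f^[N] x ∉ Z := by
  have hKZ : IsCompact (K ∩ Z) := hK.inter_right hZ
  rcases (K ∩ Z).eq_empty_or_nonempty with he | he
  · refine ⟨0, fun x hx hz => ?_⟩
    have h4 : x ∈ K ∩ Z := ⟨hx, hz⟩
    rw [he] at h4
    exact h4
  · have hg : ContinuousOn (fun x => E x - E (f x)) (K ∩ Z) :=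
      (hE.sub (hE.comp hf hm)).mono inter_subset_left
    obtain ⟨x₀, hx₀, hmin⟩ := hKZ.exists_isMinOn he hg
    have hε : 0 < E x₀ - E (f x₀) := sub_pos.2 (h2 x₀ hx₀.1 hx₀.2)
    obtain ⟨x₁, hx₁, hmax⟩ := hK.exists_isMaxOn (he.mono inter_subset_left) hE
    obtain ⟨x₂, hx₂, hmin₂⟩ := hK.exists_isMinOn (he.mono inter_subset_left) hE
    have hi : ∀ (N : ℕ) (x : T), x ∈ K → f^[N] x ∈ K := by
      intro N
      induction N with
      | zero => intro x hx; exact hx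
      | succ N ih => intro x hx; rw [Function.iterate_succ_apply]; exact ih _ (hm x hx)
    have hz : ∀ (N : ℕ) (x : T), x ∈ K → f^[N] x ∈ Z → x ∈ Z := by
      intro N
      induction N with
      | zero => intro x _ h; exact h
      | succ N ih =>
        intro x hx h
        rw [Function.iterate_succ_apply] at h
        by_contra hxz
        exact h3 x hx hxz (ih (f x) (hm x hx) h)
    have key : ∀ (N : ℕ) (x : T), x ∈ K → f^[N] x ∈ Z → E (f^[N] x) ≤ E x - N * (E x₀ - E (f x₀)) := by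
      intro N
      induction N with
      | zero => intro x _ _; simp
      | succ N ih =>
        intro x hx ha
        have h4 : x ∈ Z := hz (N + 1) x hx ha
        rw [Function.iterate_succ_apply] at ha ⊢
        have h5 := ih (f x) (hm x hx) ha
        have h6 : E x₀ - E (f x₀) ≤ E x - E (f x) := hmin (show x ∈ K ∩ Z from ⟨hx, h4⟩)
        push_cast
        linarith
    obtain ⟨N, hN⟩ := exists_nat_gt ((E x₁ - E x₂) / (E x₀ - E (f x₀)))
    rw [div_lt_iff₀ hε] at hN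
    refine ⟨N, fun x hx hxz => ?_⟩
    have h4 := key N x hx hxz
    have h5 : E x ≤ E x₁ := hmax hx
    have h6 : E x₂ ≤ E (f^[N] x) := hmin₂ (hi N x hx)
    linarith

variable {n : ℕ} {M : Type} [MetricSpace M] [CompactSpace M] {𝒜 : SDist n M} {d δ ε : ℝ}

/-- the points at fraction `t / 2` of the sides -/
def bt8 (𝒜 : SDist n M) (t : ℝ) (x : ZMod 8 → M) (i : ZMod 8) : M := rat 𝒜 (x i) (x (i + 1)) (t / 2)

theorem bt8_side (hB : Bl M) {t : ℝ} (h0 : 0 ≤ t) (h1 : t ≤ 1) (x : ZMod 8 → M) (i : ZMod 8) :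
    dist (bt8 𝒜 t x i) (bt8 𝒜 t x (i + 1)) ≤ (1 - t / 2) * dist (x i) (x (i + 1)) + t / 2 * dist (x (i + 1)) (x (i + 1 + 1)) := by
  have h2 : dist (bt8 𝒜 t x i) (x (i + 1)) = (1 - t / 2) * dist (x i) (x (i + 1)) :=
    dist_rat_right hB (x i) (x (i + 1)) (by linarith) (by linarith)
  have h3 : dist (x (i + 1)) (bt8 𝒜 t x (i + 1)) = t / 2 * dist (x (i + 1)) (x (i + 1 + 1)) :=
    dist_rat hB (x (i + 1)) (x (i + 1 + 1)) (by linarith) (by linarith)
  rw [← h2, ← h3]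
  exact dist_triangle _ _ _

theorem bt8_zero (hB : Bl M) (x : ZMod 8 → M) : bt8 𝒜 0 x = x := by
  funext i
  unfold bt8
  rw [zero_div, rat_zero hB]

theorem bt8_mem (hB : Bl M) {t : ℝ} (h0 : 0 ≤ t) (h1 : t ≤ 1) {x : ZMod 8 → M} (hx : ∀ i, dist (x i) (x (i + 1)) ≤ π - d)
    (i : ZMod 8) : dist (bt8 𝒜 t x i) (bt8 𝒜 t x (i + 1)) ≤ π - d := by
  have h2 := bt8_side (𝒜 := 𝒜) hB h0 h1 x i
  have h3 := mul_le_mul_of_nonneg_left (hx i) (show 0 ≤ 1 - t / 2 by linarith)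
  have h4 := mul_le_mul_of_nonneg_left (hx (i + 1)) (show 0 ≤ t / 2 by linarith)
  nlinarith

theorem bt8_pair (hB : Bl M) {t : ℝ} (h0 : 0 ≤ t) (h1 : t ≤ 1) {x : ZMod 8 → M}
    (hx : ∀ i, dist (x i) (x (i + 1)) + dist (x (i + 1)) (x (i + 1 + 1)) ≤ π - δ) (i : ZMod 8) :
    dist (bt8 𝒜 t x i) (bt8 𝒜 t x (i + 1)) + dist (bt8 𝒜 t x (i + 1)) (bt8 𝒜 t x (i + 1 + 1)) ≤ π - δ := by
  have h2 := bt8_side (𝒜 := 𝒜) hB h0 h1 x i
  have h2' := bt8_side (𝒜 := 𝒜) hB h0 h1 x (i + 1)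
  have h3 := mul_le_mul_of_nonneg_left (hx i) (show 0 ≤ 1 - t / 2 by linarith)
  have h4 := mul_le_mul_of_nonneg_left (hx (i + 1)) (show 0 ≤ t / 2 by linarith)
  nlinarith

theorem E8_bt8_le (hB : Bl M) {t : ℝ} (h0 : 0 ≤ t) (h1 : t ≤ 1) (x : ZMod 8 → M) : E8 (bt8 𝒜 t x) ≤ E8 x := by
  have h2 : ∑ i : ZMod 8, dist (x (i + 1)) (x (i + 1 + 1)) ^ 2 = ∑ i : ZMod 8, dist (x i) (x (i + 1)) ^ 2 :=
    Equiv.sum_comp (Equiv.addRight (1 : ZMod 8)) (fun i => dist (x i) (x (i + 1)) ^ 2)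
  have h3 : ∀ i : ZMod 8, dist (bt8 𝒜 t x i) (bt8 𝒜 t x (i + 1)) ^ 2 ≤
      (1 - t / 2) * dist (x i) (x (i + 1)) ^ 2 + t / 2 * dist (x (i + 1)) (x (i + 1 + 1)) ^ 2 := by
    intro i
    have h4 := bt8_side (𝒜 := 𝒜) hB h0 h1 x i
    have h5 := pow_le_pow_left₀ dist_nonneg h4 2
    refine h5.trans ?_
    have h6 : 0 ≤ (1 - t / 2) * (t / 2) := mul_nonneg (by linarith) (by linarith)
    nlinarith [mul_nonneg h6 (sq_nonneg (dist (x i) (x (i + 1)) - dist (x (i + 1)) (x (i + 1 + 1))))]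
  have h5 : E8 (bt8 𝒜 t x) ≤ ∑ i : ZMod 8, ((1 - t / 2) * dist (x i) (x (i + 1)) ^ 2 +
      t / 2 * dist (x (i + 1)) (x (i + 1 + 1)) ^ 2) := Finset.sum_le_sum fun i _ => h3 i
  rw [Finset.sum_add_distrib, ← Finset.mul_sum, ← Finset.mul_sum, h2] at h5
  unfold E8 at h5 ⊢
  linarith

/-- a broken geodesic with sides `l` and no corners lies on a geodesic -/
private theorem OG2b_poly_geo (𝒜 : SDist n M) (hB : Bl M) {y : ℕ → M} {l : ℝ} (hl : 0 < l) (hl1 : l < π) (hy : ∀ k, dist (y k) (y (k + 1)) = l)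
    (hm : ∀ k, dist (rat 𝒜 (y k) (y (k + 1)) (1 / 2)) (rat 𝒜 (y (k + 1)) (y (k + 2)) (1 / 2)) = l) :
    ∃ c : Gs M, ∀ k : ℕ, c.1 (k * l) = y k := by
  have hne : y 0 ≠ y 1 := fun h => by
    have h1 := hy 0
    rw [zero_add, ← h, dist_self] at h1
    linarith
  obtain ⟨c, hc0, hc1⟩ := exists_gs 𝒜 hB hne
  have hy0 : dist (y 0) (y 1) = l := hy 0
  rw [hy0] at hc1
  have key : ∀ k : ℕ, c.1 (k * l) = y k ∧ c.1 ((k + 1 : ℕ) * l) = y (k + 1) := by
    intro k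
    induction k with
    | zero =>
      refine ⟨?_, ?_⟩
      · rw [Nat.cast_zero, zero_mul, hc0]
      · rw [zero_add, Nat.cast_one, one_mul, hc1]
    | succ k ih =>
      refine ⟨ih.2, ?_⟩
      have hp1 := dist_rat (𝒜 := 𝒜) hB (y k) (y (k + 1)) (t := 1 / 2) (by norm_num) (by norm_num)
      have hp2 := dist_rat_right (𝒜 := 𝒜) hB (y k) (y (k + 1)) (t := 1 / 2) (by norm_num) (by norm_num)
      have hq1 := dist_rat (𝒜 := 𝒜) hB (y (k + 1)) (y (k + 2)) (t := 1 / 2) (by norm_num) (by norm_num)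
      have hq2 := dist_rat_right (𝒜 := 𝒜) hB (y (k + 1)) (y (k + 2)) (t := 1 / 2) (by norm_num) (by norm_num)
      have hk := hy k
      have hk1 : dist (y (k + 1)) (y (k + 2)) = l := hy (k + 1)
      obtain ⟨e, he0, he1, he2⟩ := straight 𝒜 hB (x := y k) (y := y (k + 1)) (z := y (k + 2))
        (p := rat 𝒜 (y k) (y (k + 1)) (1 / 2)) (q := rat 𝒜 (y (k + 1)) (y (k + 2)) (1 / 2))
        (by rw [hp1, hp2]; ring) (by rw [hq1, hq2]; ring) (by rw [hk]; exact hl1) (by rw [hk1]; exact hl1)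
        (fun h => by rw [h, dist_self, hk] at hp2; linarith)
        (fun h => by rw [h, dist_self, hk1] at hq1; linarith)
        (by rw [hm k, hp2, hq1, hk, hk1]; ring) (by rw [hm k]; exact hl1)
      rw [hk] at he1
      rw [hk1] at he2
      have hu := IsGeo.unique 𝒜 (c := fun t => c.1 (t + (k + 1 : ℕ) * l)) (c' := e.1) (c.2.shift _) e.2 (a := 0) (b := -l)
        (by linarith) (by rw [zero_sub, neg_neg, abs_of_pos hl]; exact hl1)
        (by
          show c.1 (0 + (k + 1 : ℕ) * l) = e.1 0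
          rw [zero_add, ih.2, he0])
        (by
          show c.1 (-l + (k + 1 : ℕ) * l) = e.1 (-l)
          have h4 : -l + (k + 1 : ℕ) * l = k * l := by
            push_cast
            ring
          rw [he1, h4, ih.1])
      have h3 : c.1 (l + (k + 1 : ℕ) * l) = e.1 l := congrFun hu l
      have h4 : l + (k + 1 : ℕ) * l = (k + 1 + 1 : ℕ) * l := by
        push_cast
        ring
      rw [he2, h4] at h3
      exact h3
  exact ⟨c, fun k => (key k).1⟩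

/-- a closed geodesic of length less than `4 π` has length `2 π` -/
private theorem OG2b_closed_len (𝒜 : SDist n M) (hB : Bl M) (c : Gs M) {s : ℝ} (h0 : 0 < s) (h1 : s < 4 * π) (h : c.1 s = c.1 0) :
    s = 2 * π := by
  have hpi := Real.pi_pos
  rcases le_total s π with h2 | h2
  · have h3 := c.2 s 0 (by rw [sub_zero, abs_of_pos h0]; exact h2)
    rw [h, dist_self, sub_zero, abs_of_pos h0] at h3
    linarith
  rcases le_total s (2 * π) with h3 | h3
  · have h4 := gs_dist_long 𝒜 hB c h2 h3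
    rw [h, dist_self] at h4
    linarith
  · have h4 := gs_period 𝒜 hB c (s - 2 * π)
    rw [sub_add_cancel, h] at h4
    rcases le_total (s - 2 * π) π with h5 | h5
    · have h6 := c.2 (s - 2 * π) 0 (by rw [sub_zero, abs_of_nonneg (by linarith)]; exact h5)
      rw [← h4, dist_self, sub_zero, abs_of_nonneg (by linarith)] at h6
      linarith
    · have h6 := gs_dist_long 𝒜 hB c h5 (by linarith)
      rw [← h4, dist_self] at h6
      linarith

/-- equality in the Birkhoff step -/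
private theorem OG2b_bir_rig (hB : Bl M) {N : ℕ} [NeZero N] {x : ZMod N → M}
    (h : ∑ i : ZMod N, dist (rat 𝒜 (x i) (x (i + 1)) (1 / 2)) (rat 𝒜 (x (i + 1)) (x (i + 1 + 1)) (1 / 2)) ^ 2 =
      ∑ i : ZMod N, dist (x i) (x (i + 1)) ^ 2) (i : ZMod N) :
    dist (x (i + 1)) (x (i + 1 + 1)) = dist (x i) (x (i + 1)) ∧
      dist (rat 𝒜 (x i) (x (i + 1)) (1 / 2)) (rat 𝒜 (x (i + 1)) (x (i + 1 + 1)) (1 / 2)) = dist (x i) (x (i + 1)) := by
  have h1 : ∑ i : ZMod N, dist (x (i + 1)) (x (i + 1 + 1)) ^ 2 = ∑ i : ZMod N, dist (x i) (x (i + 1)) ^ 2 :=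
    Equiv.sum_comp (Equiv.addRight (1 : ZMod N)) (fun i => dist (x i) (x (i + 1)) ^ 2)
  have hside : ∀ i : ZMod N, dist (rat 𝒜 (x i) (x (i + 1)) (1 / 2)) (rat 𝒜 (x (i + 1)) (x (i + 1 + 1)) (1 / 2)) ≤
      (dist (x i) (x (i + 1)) + dist (x (i + 1)) (x (i + 1 + 1))) / 2 := by
    intro i
    have h2 := dist_rat_right (𝒜 := 𝒜) hB (x i) (x (i + 1)) (t := 1 / 2) (by norm_num) (by norm_num)
    have h3 := dist_rat (𝒜 := 𝒜) hB (x (i + 1)) (x (i + 1 + 1)) (t := 1 / 2) (by norm_num) (by norm_num)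
    have h4 := dist_triangle (rat 𝒜 (x i) (x (i + 1)) (1 / 2)) (x (i + 1)) (rat 𝒜 (x (i + 1)) (x (i + 1 + 1)) (1 / 2))
    linarith
  have hnn : ∀ i : ZMod N, (dist (x i) (x (i + 1)) - dist (x (i + 1)) (x (i + 1 + 1))) ^ 2 / 4 ≤
      dist (x i) (x (i + 1)) ^ 2 / 2 + dist (x (i + 1)) (x (i + 1 + 1)) ^ 2 / 2 -
        dist (rat 𝒜 (x i) (x (i + 1)) (1 / 2)) (rat 𝒜 (x (i + 1)) (x (i + 1 + 1)) (1 / 2)) ^ 2 := by
    intro i
    have h4 := pow_le_pow_left₀ dist_nonneg (hside i) 2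
    nlinarith
  have hsum : ∑ i : ZMod N, (dist (x i) (x (i + 1)) ^ 2 / 2 + dist (x (i + 1)) (x (i + 1 + 1)) ^ 2 / 2 -
        dist (rat 𝒜 (x i) (x (i + 1)) (1 / 2)) (rat 𝒜 (x (i + 1)) (x (i + 1 + 1)) (1 / 2)) ^ 2) = 0 := by
    rw [Finset.sum_sub_distrib, Finset.sum_add_distrib, ← Finset.sum_div, ← Finset.sum_div, h1, h]
    ring
  have hz := (Finset.sum_eq_zero_iff_of_nonneg (fun i _ => le_trans (by positivity) (hnn i))).1 hsum i (Finset.mem_univ _)
  have h5 := hnn i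
  rw [hz] at h5
  have h6 : dist (x i) (x (i + 1)) - dist (x (i + 1)) (x (i + 1 + 1)) = 0 := by
    have h7 : (dist (x i) (x (i + 1)) - dist (x (i + 1)) (x (i + 1 + 1))) ^ 2 = 0 :=
      le_antisymm (by linarith) (sq_nonneg _)
    exact pow_eq_zero_iff (by norm_num) |>.1 h7
  have h8 : dist (x (i + 1)) (x (i + 1 + 1)) = dist (x i) (x (i + 1)) := by linarith
  refine ⟨h8, ?_⟩
  rw [h8] at hz
  have h9 : dist (rat 𝒜 (x i) (x (i + 1)) (1 / 2)) (rat 𝒜 (x (i + 1)) (x (i + 1 + 1)) (1 / 2)) ^ 2 =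
      dist (x i) (x (i + 1)) ^ 2 := by linarith
  exact (sq_eq_sq₀ dist_nonneg dist_nonneg).1 h9

/-- **rigidity** -/
theorem E8_bir_eq (hB : Bl M) {x : ZMod 8 → M} (hx : ∀ i, dist (x i) (x (i + 1)) < π) (h : E8 (bt8 𝒜 1 x) = E8 x)
    (hE : E8 x < 2 * π ^ 2) (i : ZMod 8) : dist (x i) (x (i + 1)) ≤ π / 4 := by
  have hpi := Real.pi_pos
  have hr := OG2b_bir_rig (𝒜 := 𝒜) (N := 8) (x := x) hB h
  have hl : ∀ k : ℕ, dist (x (k : ZMod 8)) (x ((k : ZMod 8) + 1)) = dist (x 0) (x 1) := by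
    intro k
    induction k with
    | zero => rw [Nat.cast_zero, zero_add]
    | succ k ih =>
      rw [Nat.cast_succ, (hr (k : ZMod 8)).1, ih]
  have hl' : ∀ i : ZMod 8, dist (x i) (x (i + 1)) = dist (x 0) (x 1) := by
    intro i
    have h1 := hl i.val
    rw [ZMod.natCast_zmod_val] at h1
    exact h1
  rcases eq_or_lt_of_le (dist_nonneg : 0 ≤ dist (x 0) (x 1)) with h0 | h0
  · rw [hl' i, ← h0]
    linarith
  have hlt : dist (x 0) (x 1) < π := by
    have h1 := hx 0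
    rw [zero_add] at h1
    exact h1
  obtain ⟨c, hc⟩ := OG2b_poly_geo 𝒜 hB (y := fun k : ℕ => x (k : ZMod 8)) h0 hlt (fun k => by
      show dist (x (k : ZMod 8)) (x ((k + 1 : ℕ) : ZMod 8)) = _
      rw [Nat.cast_succ]
      exact hl k) (fun k => by
      show dist (rat 𝒜 (x (k : ZMod 8)) (x ((k + 1 : ℕ) : ZMod 8)) (1 / 2))
        (rat 𝒜 (x ((k + 1 : ℕ) : ZMod 8)) (x ((k + 2 : ℕ) : ZMod 8)) (1 / 2)) = _
      have h2 : ((k + 2 : ℕ) : ZMod 8) = (k : ZMod 8) + 1 + 1 := by push_cast; ring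
      rw [Nat.cast_succ, h2, (hr (k : ZMod 8)).2, hl k])
  have hc0 : c.1 (((0 : ℕ) : ℝ) * dist (x 0) (x 1)) = x ((0 : ℕ) : ZMod 8) := hc 0
  have hc8 : c.1 (((8 : ℕ) : ℝ) * dist (x 0) (x 1)) = x ((8 : ℕ) : ZMod 8) := hc 8
  have h8 : ((8 : ℕ) : ZMod 8) = ((0 : ℕ) : ZMod 8) := by
    rw [Nat.cast_zero]
    exact ZMod.natCast_self 8
  rw [h8, ← hc0] at hc8
  have hE2 : E8 x = 8 * dist (x 0) (x 1) ^ 2 := by
    unfold E8
    rw [Finset.sum_congr rfl (fun i _ => by rw [hl' i]), Finset.sum_const, Finset.card_univ, ZMod.card, nsmul_eq_mul]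
    norm_num
  have h2 : dist (x 0) (x 1) < π / 2 := by
    by_contra hn
    have h3 := not_lt.1 hn
    rw [hE2] at hE
    nlinarith
  have h4 := OG2b_closed_len 𝒜 hB c (s := ((8 : ℕ) : ℝ) * dist (x 0) (x 1)) (by push_cast; linarith)
    (by push_cast; linarith) (by
      rw [hc8, Nat.cast_zero, zero_mul])
  push_cast at h4
  rw [hl' i]
  linarith

/-- **finitely many steps make the arcs short** -/
theorem iter8 (𝒜 : SDist n M) (hB : Bl M) (hd : 0 < d) (hδ : δ < π / 2) (hε : 0 < ε) : ∃ N : ℕ, ∀ x : ZMod 8 → M,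
    (∀ i, dist (x i) (x (i + 1)) ≤ π - d) → E8 x ≤ 2 * π ^ 2 - ε → ∀ i,
      dist ((bt8 𝒜 1)^[N] x i) ((bt8 𝒜 1)^[N] x (i + 1)) + dist ((bt8 𝒜 1)^[N] x (i + 1)) ((bt8 𝒜 1)^[N] x (i + 1 + 1)) ≤
        π - δ := by
  have hpi := Real.pi_pos
  have hc1 : ∀ i : ZMod 8, Continuous fun x : ZMod 8 → M => dist (x i) (x (i + 1)) := fun i =>
    (continuous_apply i).dist (continuous_apply (i + 1))
  have hen : Continuous (E8 : (ZMod 8 → M) → ℝ) :=
    continuous_finsetSum _ fun i _ => (hc1 i).pow 2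
  have hcl : IsClosed {x : ZMod 8 → M | (∀ i, dist (x i) (x (i + 1)) ≤ π - d) ∧ E8 x ≤ 2 * π ^ 2 - ε} := by
    refine IsClosed.and ?_ (isClosed_le hen continuous_const)
    rw [Set.ofPred_forall]
    exact isClosed_iInter fun i => isClosed_le (hc1 i) continuous_const
  have hZ : IsClosed {x : ZMod 8 → M | ∃ i, π - δ ≤ dist (x i) (x (i + 1)) + dist (x (i + 1)) (x (i + 1 + 1))} := by
    rw [Set.ofPred_exists]
    exact isClosed_iUnion_of_finite fun i => isClosed_le continuous_const ((hc1 i).add (hc1 (i + 1)))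
  obtain ⟨N, hN⟩ := exists_iter2 hcl.isCompact (f := bt8 𝒜 1) (fun x hx => ⟨bt8_mem hB zero_le_one le_rfl hx.1,
      (E8_bt8_le hB zero_le_one le_rfl x).trans hx.2⟩)
    (by
      refine continuousOn_pi.2 fun i x hx => ?_
      show Tendsto (fun y : ZMod 8 → M => rat 𝒜 (y i) (y (i + 1)) (1 / 2)) _ (𝓝 (rat 𝒜 (x i) (x (i + 1)) (1 / 2)))
      exact tendsto_rat 𝒜 hB ((continuous_apply i).continuousAt.tendsto.mono_left nhdsWithin_le_nhds)
        ((continuous_apply (i + 1)).continuousAt.tendsto.mono_left nhdsWithin_le_nhds) tendsto_const_nhds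
        (by have h2 : dist (x i) (x (i + 1)) ≤ π - d := hx.1 i
            linarith))
    (E := E8) hen.continuousOn hZ (fun x _ => E8_bt8_le hB zero_le_one le_rfl x)
    (fun x hx hz => by
      refine lt_of_le_of_ne (E8_bt8_le hB zero_le_one le_rfl x) fun he => ?_
      obtain ⟨i, hi⟩ := hz
      have h2 : ∀ i, dist (x i) (x (i + 1)) < π := fun i => by
        have h3 : dist (x i) (x (i + 1)) ≤ π - d := hx.1 i
        linarith
      have h3 : E8 x < 2 * π ^ 2 := by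
        have h4 : E8 x ≤ 2 * π ^ 2 - ε := hx.2
        linarith
      have h4 := E8_bir_eq hB h2 he h3 i
      have h5 := E8_bir_eq hB h2 he h3 (i + 1)
      linarith)
    (fun x _ hz hfz => by
      obtain ⟨i, hi⟩ := hfz
      have h2 : ∀ i, dist (x i) (x (i + 1)) + dist (x (i + 1)) (x (i + 1 + 1)) < π - δ := fun i =>
        not_le.1 fun h => hz ⟨i, h⟩
      have h3 := bt8_side (𝒜 := 𝒜) hB zero_le_one le_rfl x i
      have h4 := bt8_side (𝒜 := 𝒜) hB zero_le_one le_rfl x (i + 1)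
      have h5 := h2 i
      have h6 := h2 (i + 1)
      linarith)
  refine ⟨N, fun x hx hE i => ?_⟩
  have h2 := hN x ⟨hx, hE⟩
  by_contra hn
  exact h2 ⟨i, (not_le.1 hn).le⟩

/-- the shortening homotopy -/
def bH8 (hB : Bl M) (hd : 0 < d) : SMap (spX8 𝒜 d).xR (spX8 𝒜 d) :=
  ⟨fun z => ⟨bt8 𝒜 (Real.smoothTransition z.2) z.1.1, bt8_mem hB (Real.smoothTransition.nonneg _)
    (Real.smoothTransition.le_one _) z.1.2⟩, fun k p i u => by
    refine smAt_rat hB (p.2.1 i u) (p.2.1 (i + 1) u) ?_ ?_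
    · exact ((Real.smoothTransition.contDiff.comp p.2.2).div_const 2).contDiffAt
    · linarith [(p.1 u).1.2 i]⟩

/-- the same for short 8-gons -/
def bHq (hB : Bl M) (hd : 0 < d) : SMap (spX8q 𝒜 d δ).xR (spX8q 𝒜 d δ) :=
  ⟨fun z => ⟨bt8 𝒜 (Real.smoothTransition z.2) z.1.1, bt8_mem hB (Real.smoothTransition.nonneg _)
    (Real.smoothTransition.le_one _) z.1.2.1, bt8_pair hB (Real.smoothTransition.nonneg _)
    (Real.smoothTransition.le_one _) z.1.2.2⟩, fun k p i u => by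
    refine smAt_rat hB (p.2.1 i u) (p.2.1 (i + 1) u) ?_ ?_
    · exact ((Real.smoothTransition.contDiff.comp p.2.2).div_const 2).contDiffAt
    · linarith [(p.1 u).1.2.1 i]⟩

theorem iXq_bHq (hB : Bl M) (hd : 0 < d) : (iXq 𝒜 d δ).comp (bHq hB hd) = (bH8 hB hd).comp (iXq 𝒜 d δ).up := rfl

/-- one step -/
def bM8 (hB : Bl M) (hd : 0 < d) : SMap (spX8 𝒜 d) (spX8 𝒜 d) := (bH8 hB hd).comp (jO _ 1)

def bMq (hB : Bl M) (hd : 0 < d) : SMap (spX8q 𝒜 d δ) (spX8q 𝒜 d δ) := (bHq hB hd).comp (jO _ 1)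

theorem bM8_apply (hB : Bl M) (hd : 0 < d) (x : (spX8 𝒜 d).pt) : ((bM8 hB hd).1 x).1 = bt8 𝒜 1 x.1 := by
  show bt8 𝒜 (Real.smoothTransition 1) x.1 = _
  rw [Real.smoothTransition.one]

theorem bH8_zero (hB : Bl M) (hd : 0 < d) : (bH8 hB hd).comp (jO _ 0) = SMap.id (spX8 𝒜 d) := SMap_ext fun x =>
  Subtype.ext (by
    show bt8 𝒜 (Real.smoothTransition 0) x.1 = x.1
    rw [Real.smoothTransition.zero, bt8_zero hB])

theorem bHq_zero (hB : Bl M) (hd : 0 < d) : (bHq hB hd).comp (jO _ 0) = SMap.id (spX8q 𝒜 d δ) := SMap_ext fun x =>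
  Subtype.ext (by
    show bt8 𝒜 (Real.smoothTransition 0) x.1 = x.1
    rw [Real.smoothTransition.zero, bt8_zero hB])

theorem E8_bH8_le (hB : Bl M) (hd : 0 < d) (x : (spX8 𝒜 d).pt) (t : ℝ) : E8 ((bH8 hB hd).1 (x, t)).1 ≤ E8 x.1 :=
  E8_bt8_le hB (Real.smoothTransition.nonneg _) (Real.smoothTransition.le_one _) x.1

theorem itM_bM8 (hB : Bl M) (hd : 0 < d) (N : ℕ) (x : (spX8 𝒜 d).pt) :
    ((itM (bM8 hB hd) N).1 x).1 = (bt8 𝒜 1)^[N] x.1 := by
  induction N with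
  | zero => rfl
  | succ N ih =>
    rw [Function.iterate_succ_apply', ← ih]
    exact bM8_apply hB hd _

theorem E8_itM_le (hB : Bl M) (hd : 0 < d) (N : ℕ) (x : (spX8 𝒜 d).pt) : E8 ((itM (bM8 hB hd) N).1 x).1 ≤ E8 x.1 := by
  induction N with
  | zero => exact le_rfl
  | succ N ih => exact (E8_bH8_le hB hd ((itM (bM8 hB hd) N).1 x) 1).trans ih

end Pool.Agent.Lib.MP_ccbbf6_gt.K7
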