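import Pool.Agent.Lib.MP_ccbbf6_gt.K7.FB3
import Pool.Agent.Lib.MP_ccbbf6_gt.K7.HQ0
import Pool.Agent.Lib.MP_ccbbf6_gt.K7.OG1
import Pool.Agent.Lib.MP_ccbbf6_gt.L5.INTr

/-!
# `κ = 7`, block F, file SU1: the 8-gon of four half geodesics, energy after rotation (helper18)

* `Ends c` : four geodesics `c 0 .. c 3` with the same end points `(c j) 0`, `(c j) π`.
* `q8 c = (c0 0, c0 (π/2), c0 π, c1 (π/2), c1 0, c2 (π/2), c2 π, c3 (π/2))`; `k8 c` = the midpoints of the sides.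
* `E8_k8_le : E8 (k8 c) ≤ 2 π²`; equality iff `c1 = rev c0`, `c2 = c0`, `c3 = rev c0`.
* `e2 : SMap (T4 b) (spOd 𝒜 d)` (`d ≤ π/2`) the loop.
-/

set_option autoImplicit false
set_option maxSynthPendingDepth 3
set_option linter.unusedSectionVars false

open Set Filter Topology Metric Real Module
open scoped ContDiff RealInnerProductSpace

noncomputable section

namespace Pool.Agent.Lib.MP_ccbbf6_gt.K7.SU

open Geo L4 L4.ORI L4.FR L5 K7 HQ

section geo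

variable {n : ℕ} {M : Type} [MetricSpace M] [CompactSpace M]

/-- four geodesics with the same end points -/
def Ends (c : Fin 4 → Gs M) : Prop := (∀ j, (c j).1 0 = (c 0).1 0) ∧ ∀ j, (c j).1 π = (c 0).1 π

/-- the 8-gon of four geodesics -/
def q8 (c : Fin 4 → Gs M) : ZMod 8 → M :=
  (![(c 0).1 0, (c 0).1 (π / 2), (c 0).1 π, (c 1).1 (π / 2), (c 1).1 0, (c 2).1 (π / 2), (c 2).1 π, (c 3).1 (π / 2)] :
    Fin 8 → M)

/-- the midpoints of the sides -/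
def k8 (c : Fin 4 → Gs M) : ZMod 8 → M :=
  (![(c 0).1 (π / 4), (c 0).1 (3 * π / 4), (c 1).1 (3 * π / 4), (c 1).1 (π / 4), (c 2).1 (π / 4), (c 2).1 (3 * π / 4),
    (c 3).1 (3 * π / 4), (c 3).1 (π / 4)] : Fin 8 → M)

theorem z8 (i : ZMod 8) : i = 0 ∨ i = 1 ∨ i = 2 ∨ i = 3 ∨ i = 4 ∨ i = 5 ∨ i = 6 ∨ i = 7 := by
  revert i
  decide

theorem gdist (c : Gs M) {a b : ℝ} (h0 : a ≤ b) (h1 : b - a ≤ π) : dist (c.1 a) (c.1 b) = b - a := by
  have h2 : |a - b| = b - a := by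
    rw [abs_sub_comm, abs_of_nonneg (by linarith)]
  rw [c.2 a b (by rw [h2]; exact h1), h2]

theorem q8_side {c : Fin 4 → Gs M} (hc : Ends c) (i : ZMod 8) : dist (q8 c i) (q8 c (i + 1)) = π / 2 := by
  have hp := Real.pi_pos
  have up : ∀ c : Gs M, dist (c.1 0) (c.1 (π / 2)) = π / 2 := fun c => by
    rw [gdist c (by linarith) (by linarith), sub_zero]
  have dn : ∀ c : Gs M, dist (c.1 (π / 2)) (c.1 π) = π / 2 := fun c => by
    rw [gdist c (by linarith) (by linarith)]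
    ring
  rcases z8 i with rfl | rfl | rfl | rfl | rfl | rfl | rfl | rfl
  · exact up (c 0)
  · exact dn (c 0)
  · show dist ((c 0).1 π) ((c 1).1 (π / 2)) = π / 2
    rw [← hc.2 1, dist_comm]
    exact dn (c 1)
  · show dist ((c 1).1 (π / 2)) ((c 1).1 0) = π / 2
    rw [dist_comm]
    exact up (c 1)
  · show dist ((c 1).1 0) ((c 2).1 (π / 2)) = π / 2
    rw [hc.1 1, ← hc.1 2]
    exact up (c 2)
  · exact dn (c 2)
  · show dist ((c 2).1 π) ((c 3).1 (π / 2)) = π / 2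
    rw [hc.2 2, ← hc.2 3, dist_comm]
    exact dn (c 3)
  · show dist ((c 3).1 (π / 2)) ((c 0).1 0) = π / 2
    rw [← hc.1 3, dist_comm]
    exact up (c 3)

theorem E8_k8 (c : Fin 4 → Gs M) : E8 (k8 c) = π ^ 2 + (dist ((c 0).1 (3 * π / 4)) ((c 1).1 (3 * π / 4)) ^ 2 +
    dist ((c 1).1 (π / 4)) ((c 2).1 (π / 4)) ^ 2 + dist ((c 2).1 (3 * π / 4)) ((c 3).1 (3 * π / 4)) ^ 2 +
    dist ((c 3).1 (π / 4)) ((c 0).1 (π / 4)) ^ 2) := by
  have hp := Real.pi_pos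
  have h1 : E8 (k8 c) = dist ((c 0).1 (π / 4)) ((c 0).1 (3 * π / 4)) ^ 2 + dist ((c 0).1 (3 * π / 4)) ((c 1).1 (3 * π / 4)) ^ 2 +
      dist ((c 1).1 (3 * π / 4)) ((c 1).1 (π / 4)) ^ 2 + dist ((c 1).1 (π / 4)) ((c 2).1 (π / 4)) ^ 2 +
      dist ((c 2).1 (π / 4)) ((c 2).1 (3 * π / 4)) ^ 2 + dist ((c 2).1 (3 * π / 4)) ((c 3).1 (3 * π / 4)) ^ 2 +
      dist ((c 3).1 (3 * π / 4)) ((c 3).1 (π / 4)) ^ 2 + dist ((c 3).1 (π / 4)) ((c 0).1 (π / 4)) ^ 2 :=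
    Fin.sum_univ_eight (fun i : Fin 8 => dist (k8 c i) (k8 c (Fin.add i 1)) ^ 2)
  have h2 : ∀ c : Gs M, dist (c.1 (π / 4)) (c.1 (3 * π / 4)) = π / 2 := fun c => by
    rw [gdist c (by linarith) (by linarith)]
    ring
  rw [h1, dist_comm ((c 1).1 (3 * π / 4)) ((c 1).1 (π / 4)), dist_comm ((c 3).1 (3 * π / 4)) ((c 3).1 (π / 4)), h2, h2, h2, h2]
  ring

/-- the four corner chords -/
theorem chord0 {c c' : Gs M} (h : c'.1 0 = c.1 0) : dist (c.1 (π / 4)) (c'.1 (π / 4)) ≤ π / 2 := by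
  have hp := Real.pi_pos
  have h1 := dist_triangle (c.1 (π / 4)) (c.1 0) (c'.1 (π / 4))
  rw [dist_comm (c.1 (π / 4)) (c.1 0), gdist c (by linarith) (by linarith), ← h, gdist c' (by linarith) (by linarith)] at h1
  linarith

theorem chordπ {c c' : Gs M} (h : c'.1 π = c.1 π) : dist (c.1 (3 * π / 4)) (c'.1 (3 * π / 4)) ≤ π / 2 := by
  have hp := Real.pi_pos
  have h1 := dist_triangle (c.1 (3 * π / 4)) (c.1 π) (c'.1 (3 * π / 4))
  rw [gdist c (by linarith) (by linarith), ← h, dist_comm (c'.1 π) (c'.1 (3 * π / 4)), gdist c' (by linarith) (by linarith)] at h1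
  linarith

variable {𝒜 : SDist n M}

/-- no corner at `0` -/
theorem opp0 (𝒜 : SDist n M) (hB : Bl M) {c c' : Gs M} (h0 : c'.1 0 = c.1 0)
    (h : dist (c.1 (π / 4)) (c'.1 (π / 4)) = π / 2) : c' = rev c := by
  have hp := Real.pi_pos
  have d1 : ∀ c : Gs M, dist (c.1 (π / 2)) (c.1 (π / 4)) = π / 4 := fun c => by
    rw [dist_comm, gdist c (by linarith) (by linarith)]
    ring
  have d2 : ∀ c : Gs M, dist (c.1 (π / 4)) (c.1 0) = π / 4 := fun c => by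
    rw [dist_comm, gdist c (by linarith) (by linarith)]
    ring
  have d3 : ∀ c : Gs M, dist (c.1 (π / 2)) (c.1 0) = π / 2 := fun c => by
    rw [dist_comm, gdist c (by linarith) (by linarith)]
    ring
  have d2' : dist (c.1 0) (c'.1 (π / 4)) = π / 4 := by rw [← h0, dist_comm]; exact d2 c'
  have d3' : dist (c.1 0) (c'.1 (π / 2)) = π / 2 := by rw [← h0, dist_comm]; exact d3 c'
  obtain ⟨g, g1, g2, g3⟩ := straight 𝒜 hB (x := c.1 (π / 2)) (y := c.1 0) (z := c'.1 (π / 2)) (p := c.1 (π / 4)) (q := c'.1 (π / 4))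
    (by rw [d1, d2, d3]; ring) (by rw [d2', dist_comm, d1, d3']; ring) (by rw [d3]; linarith) (by rw [d3']; linarith)
    (fun h' => by have := d2 c; rw [h', dist_self] at this; linarith) (fun h' => by rw [h', dist_self] at d2'; linarith)
    (by rw [h, d2, d2']; ring) (by rw [h]; linarith)
  rw [d3] at g2
  rw [d3'] at g3
  have e1 : g.1 = (rev c).1 := IsGeo.unique 𝒜 g.2 (rev c).2 (a := 0) (b := -(π / 2)) (by linarith) (by
    rw [sub_neg_eq_add, zero_add, abs_of_pos (by linarith)]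
    linarith) (by
    rw [g1]
    show c.1 0 = c.1 (-0)
    rw [neg_zero]) (by
    rw [g2]
    show c.1 (π / 2) = c.1 (-(-(π / 2)))
    rw [neg_neg])
  have e2 : g.1 = c'.1 := IsGeo.unique 𝒜 g.2 c'.2 (a := 0) (b := π / 2) (by linarith) (by
    rw [zero_sub, abs_neg, abs_of_pos (by linarith)]
    linarith) (by rw [g1, h0]) g3
  exact Subtype.ext (e2.symm.trans e1)

/-- no corner at `π` -/
theorem oppπ (𝒜 : SDist n M) (hB : Bl M) {c c' : Gs M} (h0 : c'.1 π = c.1 π)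
    (h : dist (c.1 (3 * π / 4)) (c'.1 (3 * π / 4)) = π / 2) : c' = rev c := by
  have e : ∀ (c : Gs M) (t : ℝ), (rev (shift π c)).1 t = c.1 (-t + π) := fun _ _ => rfl
  have h1 := opp0 𝒜 hB (c := rev (shift π c)) (c' := rev (shift π c')) (by
    rw [e, e, neg_zero, zero_add, h0]) (by
    rw [e, e, show -(π / 4) + π = 3 * π / 4 by ring, h])
  refine Subtype.ext (funext fun t => ?_)
  have h2 := congrArg (fun g : Gs M => g.1 (π - t)) h1
  change c'.1 (-(π - t) + π) = c.1 (-(-(π - t)) + π) at h2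
  rw [show -(π - t) + π = t by ring, show -(-(π - t)) + π = -t + 2 * π by ring, gs_period 𝒜 hB] at h2
  exact h2

theorem E8_k8_le {c : Fin 4 → Gs M} (hc : Ends c) : E8 (k8 c) ≤ 2 * π ^ 2 := by
  have hp := Real.pi_pos
  have h1 := chordπ (c := c 0) (c' := c 1) (hc.2 1)
  have h2 := chord0 (c := c 1) (c' := c 2) ((hc.1 2).trans (hc.1 1).symm)
  have h3 := chordπ (c := c 2) (c' := c 3) ((hc.2 3).trans (hc.2 2).symm)
  have h4 := chord0 (c := c 3) (c' := c 0) (hc.1 3).symm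
  have k1 := pow_le_pow_left₀ dist_nonneg h1 2
  have k2 := pow_le_pow_left₀ dist_nonneg h2 2
  have k3 := pow_le_pow_left₀ dist_nonneg h3 2
  have k4 := pow_le_pow_left₀ dist_nonneg h4 2
  rw [E8_k8]
  nlinarith

/-- the equality case -/
theorem E8_k8_eq (𝒜 : SDist n M) (hB : Bl M) {c : Fin 4 → Gs M} (hc : Ends c) (h : E8 (k8 c) = 2 * π ^ 2) :
    c 1 = rev (c 0) ∧ c 2 = c 0 ∧ c 3 = rev (c 0) := by
  have hp := Real.pi_pos
  have h1 := chordπ (c := c 0) (c' := c 1) (hc.2 1)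
  have h2 := chord0 (c := c 1) (c' := c 2) ((hc.1 2).trans (hc.1 1).symm)
  have h3 := chordπ (c := c 2) (c' := c 3) ((hc.2 3).trans (hc.2 2).symm)
  have h4 := chord0 (c := c 3) (c' := c 0) (hc.1 3).symm
  have k1 := pow_le_pow_left₀ dist_nonneg h1 2
  have k2 := pow_le_pow_left₀ dist_nonneg h2 2
  have k3 := pow_le_pow_left₀ dist_nonneg h3 2
  have k4 := pow_le_pow_left₀ dist_nonneg h4 2
  rw [E8_k8] at h
  have q : ∀ {d : ℝ}, 0 ≤ d → (π / 2) ^ 2 ≤ d ^ 2 → d ≤ π / 2 → d = π / 2 := fun {d} d0 d1 d2 =>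
    le_antisymm d2 ((pow_le_pow_iff_left₀ (by linarith) d0 two_ne_zero).1 d1)
  have e1 := oppπ 𝒜 hB (hc.2 1) (q dist_nonneg (by nlinarith) h1)
  have e2 := opp0 𝒜 hB ((hc.1 2).trans (hc.1 1).symm) (q dist_nonneg (by nlinarith) h2)
  have e3 := oppπ 𝒜 hB ((hc.2 3).trans (hc.2 2).symm) (q dist_nonneg (by nlinarith) h3)
  have e4 : c 2 = c 0 := by
    rw [e2, e1]
    refine Subtype.ext (funext fun t => ?_)
    show (c 0).1 (- -t) = (c 0).1 t
    rw [neg_neg]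
  exact ⟨e1, e4, by rw [e3, e4]⟩

end geo

section T4

variable {n : ℕ} {M : Type} [MetricSpace M] [CompactSpace M] {𝒜 : SDist n M} {d : ℝ}
variable (b : SBun 7 (spG 𝒜) (spF 𝒜))

/-- the four geodesics -/
def g4 (w : (T4 b).pt) : Fin 4 → Gs M := ![w.1.1.1.1.1.1, w.1.1.1.1.1.2, w.1.1.1.2, w.1.2]

theorem Ends_g4 (hB : Bl M) (hb : ∀ c, b.pi.1 c = (gF hB).1 c) (w : (T4 b).pt) : Ends (g4 b w) := by
  have h2 : b.pi.1 w.1.1.1.1.1.1 = b.pi.1 w.1.1.1.1.1.2 := w.1.1.1.1.2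
  have h3 : b.pi.1 w.1.1.1.1.1.1 = b.pi.1 w.1.1.1.2 := w.1.1.2
  have h4 : b.pi.1 w.1.1.1.1.1.1 = b.pi.1 w.1.2 := w.2
  rw [hb, hb] at h2 h3 h4
  constructor
  · intro j
    fin_cases j
    · rfl
    · exact (congrArg (fun y : (spF 𝒜).pt => y.1.1) h2).symm
    · exact (congrArg (fun y : (spF 𝒜).pt => y.1.1) h3).symm
    · exact (congrArg (fun y : (spF 𝒜).pt => y.1.1) h4).symm
  · intro j
    fin_cases j
    · rfl
    · exact (congrArg (fun y : (spF 𝒜).pt => y.1.2) h2).symm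
    · exact (congrArg (fun y : (spF 𝒜).pt => y.1.2) h3).symm
    · exact (congrArg (fun y : (spF 𝒜).pt => y.1.2) h4).symm

theorem g4_sm {k : ℕ} (p : (T4 b).Plot k) (j : Fin 4) : SmG 𝒜 fun u => g4 b (p.1 u) j := by
  fin_cases j
  · exact p.2.1.1.1
  · exact p.2.1.1.2
  · exact p.2.1.2
  · exact p.2.2

/-- the 8-gon of a quadruple -/
def Q8 (hB : Bl M) (hb : ∀ c, b.pi.1 c = (gF hB).1 c) (hd : d ≤ π / 2) : SMap (T4 b) (spX8 𝒜 d) :=
  ⟨fun w => ⟨q8 (g4 b w), fun i => by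
    rw [q8_side (Ends_g4 b hB hb w)]
    linarith⟩, fun k p => by
    intro i
    rcases z8 i with rfl | rfl | rfl | rfl | rfl | rfl | rfl | rfl
    · exact SmG.ev' hB (g4_sm b p 0) contDiff_const
    · exact SmG.ev' hB (g4_sm b p 0) contDiff_const
    · exact SmG.ev' hB (g4_sm b p 0) contDiff_const
    · exact SmG.ev' hB (g4_sm b p 1) contDiff_const
    · exact SmG.ev' hB (g4_sm b p 1) contDiff_const
    · exact SmG.ev' hB (g4_sm b p 2) contDiff_const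
    · exact SmG.ev' hB (g4_sm b p 2) contDiff_const
    · exact SmG.ev' hB (g4_sm b p 3) contDiff_const⟩

/-- **the loop of four half geodesics** -/
def e2 (hB : Bl M) (hb : ∀ c, b.pi.1 c = (gF hB).1 c) (hd0 : 0 < d) (hd : d ≤ π / 2) : SMap (T4 b) (spOd 𝒜 d) :=
  (plg8 hB hd0).comp (Q8 b hB hb hd)

theorem e2_apply (hB : Bl M) (hb : ∀ c, b.pi.1 c = (gF hB).1 c) (hd0 : 0 < d) (hd : d ≤ π / 2) (w : (T4 b).pt) (t : ℝ) :
    ((e2 b hB hb hd0 hd).1 w).1 t =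
      rat 𝒜 (q8 (g4 b w) ((⌊t⌋ : ℤ) : ZMod 8)) (q8 (g4 b w) (((⌊t⌋ : ℤ) : ZMod 8) + 1)) (s1 (Int.fract t)) :=
  plg8_apply hB hd0 _ t

end T4

end Pool.Agent.Lib.MP_ccbbf6_gt.K7.SU
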