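import Pool.Agent.Lib.MP_ccbbf6_gt.K7.FA1
import Pool.Agent.Lib.MP_ccbbf6_gt.K7.OG2
import Pool.Agent.Lib.MP_ccbbf6_gt.K7.SU1

/-!
# `κ = 7`, block F, file SU3: concatenation of paths of loops, rotation, the shortening path of an 8-gon (helper18)

* `catO F1 F2 h` : concatenation of two paths of loops; `K_catO`.
* `rotd` : rotation of loops.
* `Bh N` : the path of the polygons from `x` to `B^N x`.
* `hom8 N` : from a loop `c` through `c ∘ (· + 3/8)`, its polygon, to the polygon of `B^N`.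
-/

set_option autoImplicit false
set_option maxSynthPendingDepth 3
set_option linter.unusedSectionVars false

open Set Filter Topology Metric Real Module
open scoped ContDiff RealInnerProductSpace

noncomputable section

namespace Pool.Agent.Lib.MP_ccbbf6_gt.K7.SU

open Geo L4 L4.ORI L4.FR L5 K7 HQ

variable {n : ℕ} {M : Type} [MetricSpace M] [CompactSpace M] {𝒜 : SDist n M} {d δ : ℝ} {X Y : Space}

/-! ### Concatenation -/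

def ph1 (s : ℝ) : ℝ := Real.smoothTransition (3 * s)

def ph2 (s : ℝ) : ℝ := Real.smoothTransition (3 * s - 2)

theorem contDiff_ph1 : ContDiff ℝ ∞ ph1 := Real.smoothTransition.contDiff.comp (contDiff_const.mul contDiff_id)

theorem contDiff_ph2 : ContDiff ℝ ∞ ph2 :=
  Real.smoothTransition.contDiff.comp ((contDiff_const.mul contDiff_id).sub contDiff_const)

theorem ph1_one {s : ℝ} (h : 1 / 3 ≤ s) : ph1 s = 1 := Real.smoothTransition.one_of_one_le (by linarith)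

theorem ph1_zero {s : ℝ} (h : s ≤ 0) : ph1 s = 0 := Real.smoothTransition.zero_of_nonpos (by linarith)

theorem ph2_zero {s : ℝ} (h : s ≤ 2 / 3) : ph2 s = 0 := Real.smoothTransition.zero_of_nonpos (by linarith)

theorem ph2_one {s : ℝ} (h : 1 ≤ s) : ph2 s = 1 := Real.smoothTransition.one_of_one_le (by linarith)

/-- **concatenation of paths of loops** -/
def catO (F1 F2 : SMap Y.xR (spO 𝒜)) (h : ∀ y, F1.1 (y, 1) = F2.1 (y, 0)) : SMap Y.xR (spO 𝒜) :=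
  ⟨fun z => if z.2 < 1 / 2 then F1.1 (z.1, ph1 z.2) else F2.1 (z.1, ph2 z.2), fun k p => by
    have q1 := F1.2 k ⟨fun u => ((p.1 u).1, ph1 (p.1 u).2), p.2.1, contDiff_ph1.comp p.2.2⟩
    have q2 := F2.2 k ⟨fun u => ((p.1 u).1, ph2 (p.1 u).2), p.2.1, contDiff_ph2.comp p.2.2⟩
    have hs : Continuous fun z : V k × ℝ => (p.1 z.1).2 := p.2.2.continuous.comp continuous_fst
    intro w
    show SmAt 𝒜 (fun z : V k × ℝ => (if (p.1 z.1).2 < 1 / 2 then F1.1 ((p.1 z.1).1, ph1 (p.1 z.1).2)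
      else F2.1 ((p.1 z.1).1, ph2 (p.1 z.1).2) : (spO 𝒜).pt).1 z.2) w
    rcases lt_or_ge (p.1 w.1).2 (1 / 2) with h0 | h0
    · refine SmAt.congr (q1 w) ?_
      filter_upwards [hs.continuousAt.eventually (gt_mem_nhds h0)] with z hz
      rw [if_pos hz]
    · refine SmAt.congr (q2 w) ?_
      filter_upwards [hs.continuousAt.eventually (lt_mem_nhds (show 1 / 3 < (p.1 w.1).2 by linarith))] with z hz
      split_ifs with h1
      · rw [ph1_one hz.le, h, ← ph2_zero (s := (p.1 z.1).2) (by linarith)]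
      · rfl⟩

theorem catO_zero (F1 F2 : SMap Y.xR (spO 𝒜)) (h : ∀ y, F1.1 (y, 1) = F2.1 (y, 0)) (y : Y.pt) :
    (catO F1 F2 h).1 (y, 0) = F1.1 (y, 0) := by
  show (if (0 : ℝ) < 1 / 2 then F1.1 (y, ph1 0) else F2.1 (y, ph2 0)) = _
  rw [if_pos (by norm_num), ph1_zero le_rfl]

theorem catO_one (F1 F2 : SMap Y.xR (spO 𝒜)) (h : ∀ y, F1.1 (y, 1) = F2.1 (y, 0)) (y : Y.pt) :
    (catO F1 F2 h).1 (y, 1) = F2.1 (y, 1) := by
  show (if (1 : ℝ) < 1 / 2 then F1.1 (y, ph1 1) else F2.1 (y, ph2 1)) = _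
  rw [if_neg (by norm_num), ph2_one le_rfl]

theorem K_catO (F1 F2 : SMap Y.xR (spO 𝒜)) (h : ∀ y, F1.1 (y, 1) = F2.1 (y, 0)) (θ : Om (spO 𝒜)) :
    KO Y ((catO F1 F2 h).pull θ) = KO Y (F1.pull θ) + KO Y (F2.pull θ) := by
  refine K_cat contDiff_ph1 contDiff_ph2 (ph1_zero le_rfl) (ph1_one (by norm_num)) (ph2_zero (by norm_num))
    (ph2_one le_rfl) (fun x s _ hs => ?_) (fun x s hs _ => ?_) θ
  · show (if s < 1 / 2 then F1.1 (x, ph1 s) else F2.1 (x, ph2 s)) = _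
    rw [if_pos hs]
  · show (if s < 1 / 2 then F1.1 (x, ph1 s) else F2.1 (x, ph2 s)) = _
    rw [if_neg (by linarith)]

/-! ### Rotation -/

theorem spOd_ext {c c' : (spOd 𝒜 d).pt} (h : ∀ t, c.1 t = c'.1 t) : c = c' := Subtype.ext (funext h)

theorem spO_ext {c c' : (spO 𝒜).pt} (h : ∀ t, c.1 t = c'.1 t) : c = c' := Subtype.ext (funext h)

/-- rotation of loops -/
def rotd (𝒜 : SDist n M) (d : ℝ) : SMap (spOd 𝒜 d).xR (spOd 𝒜 d) :=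
  ⟨fun z => ⟨fun t => z.1.1 (t + z.2), fun t => by
      show z.1.1 (t + 8 + z.2) = z.1.1 (t + z.2)
      rw [show t + 8 + z.2 = t + z.2 + 8 by ring]
      exact z.1.2.1 _,
    LC_comp z.1.2.2 (φ := fun t => t + z.2) (fun a b h => by show a + z.2 ≤ b + z.2; linarith)
      (fun s => by show s + 1 + z.2 = s + z.2 + 1; ring)⟩,
    fun k p => by
    exact L4.Sm.comp (g := fun z : V k × ℝ => (p.1 z.1).1.1 z.2) (f := fun z : V k × ℝ => (z.1, z.2 + (p.1 z.1).2)) p.2.1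
      (contDiff_fst.prodMk (contDiff_snd.add (p.2.2.comp contDiff_fst)))⟩

theorem rotd_apply (c : (spOd 𝒜 d).pt) (s t : ℝ) : ((rotd 𝒜 d).1 (c, s)).1 t = c.1 (t + s) := rfl

/-- the rotation path -/
def rotH (𝒜 : SDist n M) (d : ℝ) : SMap (spOd 𝒜 d).xR (spOd 𝒜 d) :=
  (rotd 𝒜 d).comp (Rph (spOd 𝒜 d) (φ := fun s => s * (3 / 8)) (contDiff_id.mul contDiff_const))

/-- the end of the rotation -/
def rotE (𝒜 : SDist n M) (d : ℝ) : SMap (spOd 𝒜 d) (spOd 𝒜 d) := (rotd 𝒜 d).comp (jO _ (3 / 8))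

theorem rotH_zero (c : (spOd 𝒜 d).pt) : (rotH 𝒜 d).1 (c, 0) = c := spOd_ext fun t => by
  show c.1 (t + 0 * (3 / 8)) = c.1 t
  rw [zero_mul, add_zero]

theorem rotH_one (c : (spOd 𝒜 d).pt) : (rotH 𝒜 d).1 (c, 1) = (rotE 𝒜 d).1 c := spOd_ext fun t => by
  show c.1 (t + 1 * (3 / 8)) = c.1 (t + 3 / 8)
  rw [one_mul]

/-! ### The Birkhoff path -/

/-- the path of polygons from `x` to `B^N x` -/
theorem exists_Bh (hB : Bl M) (hd : 0 < d) (N : ℕ) : ∃ F : SMap (spX8 𝒜 d).xR (spO 𝒜),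
    (∀ x, F.1 (x, 0) = (iOd 𝒜 d).1 ((plg8 hB hd).1 x)) ∧
      ∀ x, F.1 (x, 1) = (iOd 𝒜 d).1 ((plg8 hB hd).1 ((itM (bM8 hB hd) N).1 x)) := by
  induction N with
  | zero => exact ⟨((iOd 𝒜 d).comp (plg8 hB hd)).comp (pO _), fun _ => rfl, fun _ => rfl⟩
  | succ N ih =>
    obtain ⟨F, h0, h1⟩ := ih
    obtain ⟨G, hG⟩ : ∃ G : SMap (spX8 𝒜 d).xR (spO 𝒜), G = ((iOd 𝒜 d).comp (plg8 hB hd)).comp
      ((bH8 hB hd).comp (itM (bM8 hB hd) N).up) := ⟨_, rfl⟩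
    have g0 : ∀ x, G.1 (x, 0) = (iOd 𝒜 d).1 ((plg8 hB hd).1 ((itM (bM8 hB hd) N).1 x)) := fun x => by
      have h2 := congrArg (fun f : SMap (spX8 𝒜 d) (spX8 𝒜 d) => f.1 ((itM (bM8 hB hd) N).1 x)) (bH8_zero (𝒜 := 𝒜) hB hd)
      rw [hG]
      exact congrArg (fun y => (iOd 𝒜 d).1 ((plg8 hB hd).1 y)) h2
    refine ⟨catO F G fun x => by rw [h1, g0], fun x => by rw [catO_zero, h0], fun x => ?_⟩
    rw [catO_one, hG]
    rfl

/-- the whole path -/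
theorem exists_hom8 (hB : Bl M) (hd : 0 < d) (N : ℕ) : ∃ F : SMap (spOd 𝒜 d).xR (spO 𝒜),
    (∀ c, F.1 (c, 0) = (iOd 𝒜 d).1 c) ∧
      ∀ c, F.1 (c, 1) = (iOd 𝒜 d).1 ((plg8 hB hd).1 ((itM (bM8 hB hd) N).1 ((smp8 𝒜 d).1 ((rotE 𝒜 d).1 c)))) := by
  obtain ⟨B, b0, b1⟩ := exists_Bh (𝒜 := 𝒜) hB hd N
  obtain ⟨F1, f1⟩ : ∃ F : SMap (spOd 𝒜 d).xR (spO 𝒜), F = (iOd 𝒜 d).comp (rotH 𝒜 d) := ⟨_, rfl⟩
  obtain ⟨F2, f2⟩ : ∃ F : SMap (spOd 𝒜 d).xR (spO 𝒜), F = (iOd 𝒜 d).comp ((homO0 𝒜 d).comp (rotE 𝒜 d).up) := ⟨_, rfl⟩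
  obtain ⟨F3, f3⟩ : ∃ F : SMap (spOd 𝒜 d).xR (spO 𝒜), F = (iOd 𝒜 d).comp ((homO1 hB hd).comp (rotE 𝒜 d).up) := ⟨_, rfl⟩
  obtain ⟨F4, f4⟩ : ∃ F : SMap (spOd 𝒜 d).xR (spO 𝒜), F = B.comp ((smp8 𝒜 d).comp (rotE 𝒜 d)).up := ⟨_, rfl⟩
  have e10 : ∀ c, F1.1 (c, 0) = (iOd 𝒜 d).1 c := fun c => by
    rw [f1]
    exact congrArg (iOd 𝒜 d).1 (rotH_zero c)
  have e11 : ∀ c, F1.1 (c, 1) = (iOd 𝒜 d).1 ((rotE 𝒜 d).1 c) := fun c => by
    rw [f1]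
    exact congrArg (iOd 𝒜 d).1 (rotH_one c)
  have e20 : ∀ c, F2.1 (c, 0) = (iOd 𝒜 d).1 ((rotE 𝒜 d).1 c) := fun c => by
    rw [f2]
    exact congrArg (fun f : SMap (spOd 𝒜 d) (spOd 𝒜 d) => (iOd 𝒜 d).1 (f.1 ((rotE 𝒜 d).1 c))) homO0_zero
  have e21 : ∀ c, F2.1 (c, 1) = F3.1 (c, 0) := fun c => by
    rw [f2, f3]
    exact congrArg (fun f : SMap (spOd 𝒜 d) (spOd 𝒜 d) => (iOd 𝒜 d).1 (f.1 ((rotE 𝒜 d).1 c))) (homO0_one hB hd)
  have e31 : ∀ c, F3.1 (c, 1) = F4.1 (c, 0) := fun c => by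
    rw [f3, f4]
    refine Eq.trans ?_ (b0 ((smp8 𝒜 d).1 ((rotE 𝒜 d).1 c))).symm
    exact congrArg (fun f : SMap (spOd 𝒜 d) (spOd 𝒜 d) => (iOd 𝒜 d).1 (f.1 ((rotE 𝒜 d).1 c))) (homO1_one hB hd)
  have e41 : ∀ c, F4.1 (c, 1) = (iOd 𝒜 d).1 ((plg8 hB hd).1 ((itM (bM8 hB hd) N).1 ((smp8 𝒜 d).1 ((rotE 𝒜 d).1 c)))) :=
    fun c => by
    rw [f4]
    exact b1 _
  obtain ⟨G3, g30, g31⟩ : ∃ G : SMap (spOd 𝒜 d).xR (spO 𝒜), (∀ c, G.1 (c, 0) = F3.1 (c, 0)) ∧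
      ∀ c, G.1 (c, 1) = F4.1 (c, 1) := ⟨catO F3 F4 e31, catO_zero _ _ _, catO_one _ _ _⟩
  obtain ⟨G2, g20, g21⟩ : ∃ G : SMap (spOd 𝒜 d).xR (spO 𝒜), (∀ c, G.1 (c, 0) = F2.1 (c, 0)) ∧
      ∀ c, G.1 (c, 1) = G3.1 (c, 1) := ⟨catO F2 G3 fun c => by rw [e21, g30], catO_zero _ _ _, catO_one _ _ _⟩
  refine ⟨catO F1 G2 fun c => by rw [e11, g20, e20], fun c => by rw [catO_zero, e10], fun c => ?_⟩
  rw [catO_one, g21, g31, e41]

/-! ### The loops of `K2` -/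

theorem s1_mid : s1 (3 / 8) = 1 / 2 := by
  have h : s1 (3 / 8) = Real.smoothTransition (1 / 2) := by
    unfold s1
    norm_num
  rw [h]
  unfold Real.smoothTransition
  have h1 : (1 : ℝ) - 1 / 2 = 1 / 2 := by norm_num
  have h2 : 0 < expNegInvGlue (1 / 2 : ℝ) := expNegInvGlue.pos_of_pos (by norm_num)
  rw [h1]
  field_simp
  norm_num

variable (b : SBun 7 (spG 𝒜) (spF 𝒜))

theorem mid_q8 (𝒜 : SDist n M) (hB : Bl M) {c : Fin 4 → Gs M} (hc : Ends c) (i : ZMod 8) :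
    rat 𝒜 (q8 c i) (q8 c (i + 1)) (1 / 2) = k8 c i := by
  have hp := Real.pi_pos
  have r1 : ∀ c : Gs M, rat 𝒜 (c.1 0) (c.1 (π / 2)) (1 / 2) = c.1 (π / 4) := fun c => by
    rw [rat_geo hB c (by rw [sub_zero, abs_of_pos (by linarith)]; linarith)]
    exact congrArg c.1 (by ring)
  have r2 : ∀ c : Gs M, rat 𝒜 (c.1 (π / 2)) (c.1 π) (1 / 2) = c.1 (3 * π / 4) := fun c => by
    rw [rat_geo hB c (by rw [abs_of_pos (by linarith)]; linarith)]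
    exact congrArg c.1 (by ring)
  have r3 : ∀ c : Gs M, rat 𝒜 (c.1 π) (c.1 (π / 2)) (1 / 2) = c.1 (3 * π / 4) := fun c => by
    rw [rat_geo hB c (by rw [abs_of_neg (by linarith)]; linarith)]
    exact congrArg c.1 (by ring)
  have r4 : ∀ c : Gs M, rat 𝒜 (c.1 (π / 2)) (c.1 0) (1 / 2) = c.1 (π / 4) := fun c => by
    rw [rat_geo hB c (by rw [abs_of_neg (by linarith)]; linarith)]
    exact congrArg c.1 (by ring)
  rcases z8 i with rfl | rfl | rfl | rfl | rfl | rfl | rfl | rfl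
  · exact r1 (c 0)
  · exact r2 (c 0)
  · show rat 𝒜 ((c 0).1 π) ((c 1).1 (π / 2)) (1 / 2) = (c 1).1 (3 * π / 4)
    rw [← hc.2 1]
    exact r3 (c 1)
  · exact r4 (c 1)
  · show rat 𝒜 ((c 1).1 0) ((c 2).1 (π / 2)) (1 / 2) = (c 2).1 (π / 4)
    rw [hc.1 1, ← hc.1 2]
    exact r1 (c 2)
  · exact r2 (c 2)
  · show rat 𝒜 ((c 2).1 π) ((c 3).1 (π / 2)) (1 / 2) = (c 3).1 (3 * π / 4)
    rw [hc.2 2, ← hc.2 3]
    exact r3 (c 3)
  · show rat 𝒜 ((c 3).1 (π / 2)) ((c 0).1 0) (1 / 2) = (c 3).1 (π / 4)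
    rw [← hc.1 3]
    exact r4 (c 3)

/-- the samples after the rotation -/
theorem smp_e2 (hB : Bl M) (hb : ∀ c, b.pi.1 c = (gF hB).1 c) (hd0 : 0 < d) (hd : d ≤ π / 2) (w : (T4 b).pt) :
    ((smp8 𝒜 d).1 ((rotE 𝒜 d).1 ((e2 b hB hb hd0 hd).1 w))).1 = k8 (g4 b w) := by
  funext i
  show ((e2 b hB hb hd0 hd).1 w).1 ((i.val : ℝ) + 3 / 8) = k8 (g4 b w) i
  have h1 : ⌊(i.val : ℝ) + 3 / 8⌋ = (i.val : ℤ) := by
    rw [Int.floor_eq_iff]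
    push_cast
    constructor <;> linarith
  have h2 : Int.fract ((i.val : ℝ) + 3 / 8) = 3 / 8 := by
    unfold Int.fract
    rw [h1]
    push_cast
    ring
  have h3 : (((i.val : ℤ) : ℤ) : ZMod 8) = i := by rw [Int.cast_natCast, ZMod.natCast_zmod_val]
  rw [e2_apply, h1, h2, h3, s1_mid]
  exact mid_q8 𝒜 hB (Ends_g4 b hB hb w) i

end Pool.Agent.Lib.MP_ccbbf6_gt.K7.SU
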