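import Pool.Agent.Lib.MP_ccbbf6_gt.K7.FB4
import Pool.Agent.Lib.MP_ccbbf6_gt.K7.SU2
import Pool.Agent.Lib.MP_ccbbf6_gt.K7.SU3

/-!
# `κ = 7`, block F, file SU4: **the loops of `K2` away from the diagonal are short** (helper18)

* `exists_sh` : the path of loops from `e2 w` to short loops, on `U`, if `η ≤ hhG` on `U`.
* `exists_ShU` : the structure `ShU` of FB4, for `Λ = spO 𝒜`, `S = spL 𝒜 δ`, `i = iL 𝒜 δ`; its loops are `iOd ∘ e2`.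
-/

set_option autoImplicit false
set_option maxSynthPendingDepth 3
set_option linter.unusedSectionVars false

open Set Filter Topology Metric Real Module
open scoped ContDiff RealInnerProductSpace

noncomputable section

namespace Pool.Agent.Lib.MP_ccbbf6_gt.K7.SU

open Geo L4 L4.ORI L4.FR L5 K7 HQ

variable {n : ℕ} {M : Type} [MetricSpace M] [CompactSpace M] {𝒜 : SDist n M} {d δ : ℝ} {X Y : Space}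
variable (b : SBun 7 (spG 𝒜) (spF 𝒜))

/-- **the shortening away from the diagonal** -/
theorem exists_sh (hB : Bl M) (hb : ∀ c, b.pi.1 c = (gF hB).1 c) (hd0 : 0 < d) (hd : d ≤ π / 2) (hδ : δ < π / 2) {η : ℝ}
    (hη : 0 < η) {U : Set (T4 b).pt} (hU : ∀ w ∈ U, η ≤ hhG 𝒜 (g4 b w)) :
    ∃ (r : SMap (sub (T4 b) U).xR (spO 𝒜)) (e : SMap (sub (T4 b) U) (spL 𝒜 δ)),
      (∀ w, r.1 (w, 1) = (iL 𝒜 δ).1 (e.1 w)) ∧ ∀ w, r.1 (w, 0) = (iOd 𝒜 d).1 ((e2 b hB hb hd0 hd).1 w.1) := by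
  obtain ⟨ε, hε, hgap⟩ := gap 𝒜 hB hη
  obtain ⟨N, hN⟩ := iter8 𝒜 hB hd0 hδ hε
  obtain ⟨F, f0, f1⟩ := exists_hom8 (𝒜 := 𝒜) hB hd0 N
  have hq : ∀ w : (sub (T4 b) U).pt, ∀ i,
      dist (((itM (bM8 hB hd0) N).1 ((smp8 𝒜 d).1 ((rotE 𝒜 d).1 ((e2 b hB hb hd0 hd).1 w.1)))).1 i)
          (((itM (bM8 hB hd0) N).1 ((smp8 𝒜 d).1 ((rotE 𝒜 d).1 ((e2 b hB hb hd0 hd).1 w.1)))).1 (i + 1)) +
        dist (((itM (bM8 hB hd0) N).1 ((smp8 𝒜 d).1 ((rotE 𝒜 d).1 ((e2 b hB hb hd0 hd).1 w.1)))).1 (i + 1))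
          (((itM (bM8 hB hd0) N).1 ((smp8 𝒜 d).1 ((rotE 𝒜 d).1 ((e2 b hB hb hd0 hd).1 w.1)))).1 (i + 1 + 1)) ≤ π - δ := by
    intro w i
    rw [itM_bM8]
    refine hN _ ((smp8 𝒜 d).1 ((rotE 𝒜 d).1 ((e2 b hB hb hd0 hd).1 w.1))).2 ?_ i
    rw [smp_e2]
    exact hgap _ (Ends_g4 b hB hb w.1) (hU _ w.2)
  obtain ⟨e, he⟩ : ∃ e : SMap (sub (T4 b) U) (spX8q 𝒜 d δ), ∀ w, (e.1 w).1 =
      ((itM (bM8 hB hd0) N).1 ((smp8 𝒜 d).1 ((rotE 𝒜 d).1 ((e2 b hB hb hd0 hd).1 w.1)))).1 :=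
    ⟨⟨fun w => ⟨((itM (bM8 hB hd0) N).1 ((smp8 𝒜 d).1 ((rotE 𝒜 d).1 ((e2 b hB hb hd0 hd).1 w.1)))).1,
      ((itM (bM8 hB hd0) N).1 ((smp8 𝒜 d).1 ((rotE 𝒜 d).1 ((e2 b hB hb hd0 hd).1 w.1)))).2, hq w⟩, fun k p =>
      ((itM (bM8 hB hd0) N).comp ((smp8 𝒜 d).comp ((rotE 𝒜 d).comp ((e2 b hB hb hd0 hd).comp (inU (T4 b) U))))).2 k p⟩,
      fun _ => rfl⟩
  refine ⟨F.comp ((e2 b hB hb hd0 hd).comp (inU (T4 b) U)).up, (jOq 𝒜 d δ).comp ((plgq hB hd0).comp e), fun w => ?_,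
    fun w => f0 _⟩
  have h1 : (iL 𝒜 δ).1 ((jOq 𝒜 d δ).1 ((plgq hB hd0).1 (e.1 w))) = (iOd 𝒜 d).1 ((iOq 𝒜 d δ).1 ((plgq hB hd0).1 (e.1 w))) :=
    congrArg (fun f : SMap (spOq 𝒜 d δ) (spO 𝒜) => f.1 ((plgq hB hd0).1 (e.1 w))) (iL_jOq (𝒜 := 𝒜) (d := d) (δ := δ))
  have h2 : (iOq 𝒜 d δ).1 ((plgq hB hd0).1 (e.1 w)) = (plg8 hB hd0).1 ((iXq 𝒜 d δ).1 (e.1 w)) := rfl
  have h3 : (iXq 𝒜 d δ).1 (e.1 w) = (itM (bM8 hB hd0) N).1 ((smp8 𝒜 d).1 ((rotE 𝒜 d).1 ((e2 b hB hb hd0 hd).1 w.1))) :=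
    Subtype.ext (he w)
  refine (f1 _).trans ?_
  refine Eq.trans ?_ h1.symm
  rw [h2, h3]
  rfl

variable {b}

/-- the function `hh` -/
theorem hh_hhG (K : Fra b) (hip : ∀ w : (T2 b).pt, K.ip w = ⟪𝒜.vel (w.1.1 : Gs M).1 0, 𝒜.vel (w.1.2 : Gs M).1 0⟫)
    (w : (T4 b).pt) : K.hh w = hhG 𝒜 (g4 b w) := by
  unfold Fra.hh
  rw [hip, hip, hip]
  rfl

/-- **`ShU`** -/
theorem exists_ShU (hB : Bl M) (hb : ∀ c, b.pi.1 c = (gF hB).1 c) (K : Fra b)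
    (hip : ∀ w : (T2 b).pt, K.ip w = ⟪𝒜.vel (w.1.1 : Gs M).1 0, 𝒜.vel (w.1.2 : Gs M).1 0⟫)
    (hd0 : 0 < d) (hd : d ≤ π / 2) (hδ : δ < π / 2) {u : Om (spM 𝒜)}
    {cΛ : Circ (spO 𝒜)} {fΛ : SMap (spO 𝒜) (spM 𝒜)} {Du : Deg (2 * 3 + 2) u} {du : dO (spM 𝒜) u = 0} {u3 : u ^ 3 = 0}
    {E : Om (spL 𝒜 δ)} {dE : dO (spL 𝒜 δ) E = (iL 𝒜 δ).pull (TT cΛ fΛ u)} {DE : Deg 28 E} :
    ∃ S : ShU (⟨spO 𝒜, cΛ, fΛ, spL 𝒜 δ, iL 𝒜 δ, Du, du, u3, E, dE, DE⟩ : Pln (spM 𝒜) u) K,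
      S.e = (iOd 𝒜 d).comp (e2 b hB hb hd0 hd) := by
  obtain ⟨r, e, h1, h0⟩ := exists_sh b hB hb hd0 hd hδ (η := 1 / 200) (by norm_num) (U := {w | 1 / 200 < K.hh w})
    (fun w hw => by
      rw [← hh_hhG K hip]
      exact le_of_lt hw)
  exact ⟨⟨(iOd 𝒜 d).comp (e2 b hB hb hd0 hd), 1 / 200, by norm_num, ⟨r, e, h1⟩, h0⟩, rfl⟩

end Pool.Agent.Lib.MP_ccbbf6_gt.K7.SU
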