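import Pool.Agent.Lib.MP_ccbbf6_gt.K7.FC2
import Pool.Agent.Lib.MP_ccbbf6_gt.K7.SU4

/-!
# `κ = 7`, block F-C, file FC3: from loops to 8-gons (helper28)

* `om1_loop` : the form of a family of loops = the form of the family of its samples.
* `exists_ShU'` : the structure `ShU` with the description of its path (`GS`).
* `RhoK_PE` : the form of `rho_K` = the form of the family of the 8-gons `k8`.
-/

set_option autoImplicit false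
set_option maxSynthPendingDepth 3
set_option linter.unusedSectionVars false

open Set Filter Topology Metric Real Module
open scoped ContDiff RealInnerProductSpace

noncomputable section

namespace Pool.Agent.Lib.MP_ccbbf6_gt.K7.FC

open Geo L4 L4.ORI L4.FR L5 K7 HQ SU

variable {n : ℕ} {M : Type} [MetricSpace M] [CompactSpace M] {𝒜 : SDist n M} {d δ : ℝ} {X Y Z B : Space}

/-- rotation of short loops -/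
def rotq (𝒜 : SDist n M) (d δ : ℝ) : SMap (spOq 𝒜 d δ).xR (spOq 𝒜 d δ) :=
  ⟨fun z => ⟨fun t => z.1.1 (t + z.2), fun t => by
      show z.1.1 (t + 8 + z.2) = z.1.1 (t + z.2)
      rw [show t + 8 + z.2 = t + z.2 + 8 by ring]
      exact z.1.2.1 _,
    LQ_comp z.1.2.2 (φ := fun t => t + z.2) (fun a b h => by show a + z.2 ≤ b + z.2; linarith)
      (fun s => by show s + 1 + z.2 = s + z.2 + 1; ring)⟩,
    fun k p => by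
    exact L4.Sm.comp (g := fun z : V k × ℝ => (p.1 z.1).1.1 z.2) (f := fun z : V k × ℝ => (z.1, z.2 + (p.1 z.1).2)) p.2.1
      (contDiff_fst.prodMk (contDiff_snd.add (p.2.2.comp contDiff_fst)))⟩

theorem iOq_rotq : (iOq 𝒜 d δ).comp (rotq 𝒜 d δ) = (rotd 𝒜 d).comp (iOq 𝒜 d δ).up := rfl

/-- rotation by `r` -/
def rE (𝒜 : SDist n M) (d r : ℝ) : SMap (spOd 𝒜 d) (spOd 𝒜 d) := (rotd 𝒜 d).comp (jO _ r)

/-- rotation by `r` -/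
def rEq (𝒜 : SDist n M) (d δ r : ℝ) : SMap (spOq 𝒜 d δ) (spOq 𝒜 d δ) := (rotq 𝒜 d δ).comp (jO _ r)

/-- the samples of a loop at the times `i + r` -/
def smr (𝒜 : SDist n M) (d r : ℝ) : SMap (spOd 𝒜 d) (spX8 𝒜 d) := (smp8 𝒜 d).comp (rE 𝒜 d r)

theorem smr_apply (r : ℝ) (c : (spOd 𝒜 d).pt) (i : ZMod 8) : ((smr 𝒜 d r).1 c).1 i = c.1 ((i.val : ℝ) + r) := rfl

/-- the form of a family of loops which ends in short loops -/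
def om1 (T : Om (spO 𝒜)) (E : Om (spL 𝒜 δ)) (ρ : SMap Y.xR (spOd 𝒜 d)) (q : SMap Y (spOq 𝒜 d δ)) : Om Y :=
  q.pull ((jOq 𝒜 d δ).pull E) - KO Y (((iOd 𝒜 d).comp ρ).pull T)

theorem om1_step (pB : SMap Y B) {T : Om (spO 𝒜)} {E : Om (spL 𝒜 δ)} (dT : dO _ T = 0) (DT : Deg 29 T)
    (dE : dO _ E = (iL 𝒜 δ).pull T) (DE : Deg 28 E) {ρ : SMap Y.xR (spOd 𝒜 d)} {q : SMap Y (spOq 𝒜 d δ)}
    (hq : ∀ y, ρ.1 (y, 1) = (iOq 𝒜 d δ).1 (q.1 y)) (k : SMap B (spOd 𝒜 d)) (hk : ∀ y, ρ.1 (y, 0) = k.1 (pB.1 y))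
    (H : SMap (spOd 𝒜 d).xR (spOd 𝒜 d)) (Hq : SMap (spOq 𝒜 d δ).xR (spOq 𝒜 d δ))
    (hH : (iOq 𝒜 d δ).comp Hq = H.comp (iOq 𝒜 d δ).up) :
    PE pB (om1 T E ((H.comp (jO _ 1)).comp ρ) ((Hq.comp (jO _ 1)).comp q))
      (om1 T E ((H.comp (jO _ 0)).comp ρ) ((Hq.comp (jO _ 0)).comp q)) := by
  obtain ⟨Q, hQ⟩ : ∃ Q : SMap Y.xR.xR (spO 𝒜), Q = (iOd 𝒜 d).comp (H.comp ρ.up) := ⟨_, rfl⟩
  obtain ⟨σ, hσ⟩ : ∃ σ : SMap Y.xR (spL 𝒜 δ), σ = (jOq 𝒜 d δ).comp (Hq.comp q.up) := ⟨_, rfl⟩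
  have h1 := PE.sq (pB := pB) dT DT Q ((iOd 𝒜 d).comp (H.comp k.up)) fun y t => by
    rw [hQ]
    exact congrArg (fun c => (iOd 𝒜 d).1 (H.1 (c, t))) (hk y)
  have h2 : Q.comp (jO Y 1).up = (iL 𝒜 δ).comp σ := by
    have e1 : (iL 𝒜 δ).comp σ = ((iL 𝒜 δ).comp (jOq 𝒜 d δ)).comp (Hq.comp q.up) := by rw [hσ]; rfl
    have e2 : ((iOd 𝒜 d).comp (iOq 𝒜 d δ)).comp (Hq.comp q.up) = (iOd 𝒜 d).comp (((iOq 𝒜 d δ).comp Hq).comp q.up) := rfl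
    rw [e1, iL_jOq, e2, hH, hQ]
    refine SMap_ext fun z => ?_
    exact congrArg (fun c => (iOd 𝒜 d).1 (H.1 (c, z.2))) (hq z.1)
  have h3 := PE.path pB dE DE σ
  rw [← h2] at h3
  have h4 := h3.sub h1
  have e3 : om1 T E ((H.comp (jO _ 1)).comp ρ) ((Hq.comp (jO _ 1)).comp q) =
      (σ.comp (jO Y 1)).pull E - KO Y ((Q.comp (jO Y.xR 1)).pull T) := by
    rw [hσ, hQ]
    rfl
  have e4 : om1 T E ((H.comp (jO _ 0)).comp ρ) ((Hq.comp (jO _ 0)).comp q) =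
      (σ.comp (jO Y 0)).pull E - KO Y ((Q.comp (jO Y.xR 0)).pull T) := by
    rw [hσ, hQ]
    rfl
  rw [e3, e4]
  refine h4.trans (PE.of_eq pB ?_)
  abel

theorem comp_id_d (ρ : SMap Y.xR (spOd 𝒜 d)) : (SMap.id (spOd 𝒜 d)).comp ρ = ρ := rfl

theorem comp_id_q (q : SMap Y (spOq 𝒜 d δ)) : (SMap.id (spOq 𝒜 d δ)).comp q = q := rfl

/-- **from loops to the 8-gon of the samples** -/
theorem om1_loop (pB : SMap Y B) (hB : Bl M) (hd : 0 < d) {T : Om (spO 𝒜)} {E : Om (spL 𝒜 δ)} (dT : dO _ T = 0)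
    (DT : Deg 29 T) (dE : dO _ E = (iL 𝒜 δ).pull T) (DE : Deg 28 E) {ρ : SMap Y.xR (spOd 𝒜 d)} {q : SMap Y (spOq 𝒜 d δ)}
    (hq : ∀ y, ρ.1 (y, 1) = (iOq 𝒜 d δ).1 (q.1 y)) (k : SMap B (spOd 𝒜 d)) (hk : ∀ y, ρ.1 (y, 0) = k.1 (pB.1 y)) (r : ℝ)
    {b : Om Y} (hb : IsB hB hd T E (((smr 𝒜 d r).comp ρ).comp (jO Y 1)) b) :
    PE pB (om1 T E ρ q) (b - KO Y (((pg 𝒜 hB hd).comp ((smr 𝒜 d r).comp ρ)).pull T)) := by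
  -- rotation
  obtain ⟨ρ1, e1⟩ : ∃ ρ1 : SMap Y.xR (spOd 𝒜 d), ρ1 = (rE 𝒜 d r).comp ρ := ⟨_, rfl⟩
  obtain ⟨q1, f1⟩ : ∃ q1 : SMap Y (spOq 𝒜 d δ), q1 = (rEq 𝒜 d δ r).comp q := ⟨_, rfl⟩
  have s1 : PE pB (om1 T E ρ1 q1) (om1 T E ρ q) := by
    have h := om1_step pB dT DT dE DE hq k hk ((rotd 𝒜 d).comp (Rph _ (contDiff_mulc r)))
      ((rotq 𝒜 d δ).comp (Rph _ (contDiff_mulc r))) rfl
    have a1 : (((rotd 𝒜 d).comp (Rph _ (contDiff_mulc r))).comp (jO _ 1)).comp ρ = ρ1 := by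
      rw [e1]
      refine SMap_ext fun z => ?_
      show (rotd 𝒜 d).1 (ρ.1 z, 1 * r) = (rotd 𝒜 d).1 (ρ.1 z, r)
      rw [one_mul]
    have a2 : (((rotq 𝒜 d δ).comp (Rph _ (contDiff_mulc r))).comp (jO _ 1)).comp q = q1 := by
      rw [f1]
      refine SMap_ext fun z => ?_
      show (rotq 𝒜 d δ).1 (q.1 z, 1 * r) = (rotq 𝒜 d δ).1 (q.1 z, r)
      rw [one_mul]
    have a3 : (((rotd 𝒜 d).comp (Rph _ (contDiff_mulc r))).comp (jO _ 0)).comp ρ = ρ := by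
      refine SMap_ext fun z => spOd_ext fun t => ?_
      show (ρ.1 z).1 (t + 0 * r) = (ρ.1 z).1 t
      rw [zero_mul, add_zero]
    have a4 : (((rotq 𝒜 d δ).comp (Rph _ (contDiff_mulc r))).comp (jO _ 0)).comp q = q := by
      refine SMap_ext fun z => Subtype.ext (funext fun t => ?_)
      show (q.1 z).1 (t + 0 * r) = (q.1 z).1 t
      rw [zero_mul, add_zero]
    rw [a1, a2, a3, a4] at h
    exact h
  have hq1 : ∀ y, ρ1.1 (y, 1) = (iOq 𝒜 d δ).1 (q1.1 y) := fun y => by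
    rw [e1, f1]
    exact congrArg (fun c => (rotd 𝒜 d).1 (c, r)) (hq y)
  have hk1 : ∀ y, ρ1.1 (y, 0) = ((rE 𝒜 d r).comp k).1 (pB.1 y) := fun y => by
    rw [e1]
    exact congrArg (fun c => (rotd 𝒜 d).1 (c, r)) (hk y)
  -- time change and chords
  have s2 := om1_step pB dT DT dE DE hq1 _ hk1 (homO0 𝒜 d) (homO0q 𝒜 d δ) rfl
  have s3 := om1_step pB dT DT dE DE hq1 _ hk1 (homO1 hB hd) (homO1q (δ := δ) hB hd) rfl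
  rw [homO0_zero, homO0q_zero, homO0_one hB hd, homO0q_one hB hd, comp_id_d, comp_id_q] at s2
  rw [homO1_one hB hd, homO1q_one hB hd] at s3
  have s4 := (s3.trans s2).trans s1
  -- the end
  have hb' : IsB hB hd T E (((smr 𝒜 d r).comp ρ).comp (jO Y 1))
      (((smpq 𝒜 d δ).comp q1).pull ((sg 𝒜 δ hB hd).pull E)) := by
    refine ⟨0, (smpq 𝒜 d δ).comp q1, ?_, ?_⟩
    · have h5 : (iXq 𝒜 d δ).comp ((smpq 𝒜 d δ).comp q1) = (smp8 𝒜 d).comp ((iOq 𝒜 d δ).comp q1) := rfl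
      rw [h5]
      refine SMap_ext fun y => ?_
      have h6 := congrArg (smp8 𝒜 d).1 (hq1 y)
      rw [e1] at h6
      exact h6.symm
    · have h7 : kap hB hd T 0 = 0 := rfl
      rw [h7, map_zero, sub_zero]
  have s5 := hb'.pe (pB := pB) hb dE DE
  have e5 : om1 T E (((plg8 hB hd).comp (smp8 𝒜 d)).comp ρ1) (((plgq hB hd).comp (smpq 𝒜 d δ)).comp q1) =
      ((smpq 𝒜 d δ).comp q1).pull ((sg 𝒜 δ hB hd).pull E) - KO Y (((pg 𝒜 hB hd).comp ((smr 𝒜 d r).comp ρ)).pull T) := by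
    rw [e1]
    rfl
  rw [e5] at s4
  exact s4.symm.trans (s5.sub (PE.refl pB _))

/-! ### `K2` -/

section K2

variable {bV : SBun 7 (spG 𝒜) (spF 𝒜)} {u : Om (spM 𝒜)}
  {cΛ : Circ (spO 𝒜)} {fΛ : SMap (spO 𝒜) (spM 𝒜)} {Du : Deg (2 * 3 + 2) u} {du : dO (spM 𝒜) u = 0} {u3 : u ^ 3 = 0}
  {E : Om (spL 𝒜 δ)} {dE : dO (spL 𝒜 δ) E = (iL 𝒜 δ).pull (TT cΛ fΛ u)} {DE : Deg 28 E}

/-- the description of the shortening -/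
structure GS (hB : Bl M) (hd : 0 < d) {K : Fra bV}
    (S : ShU (⟨spO 𝒜, cΛ, fΛ, spL 𝒜 δ, iL 𝒜 δ, Du, du, u3, E, dE, DE⟩ : Pln (spM 𝒜) u) K)
    (e2 : SMap (T4 bV) (spOd 𝒜 d)) : Prop where
  he : S.e = (iOd 𝒜 d).comp e2
  desc : ∃ (P3 F : SMap (spOd 𝒜 d).xR (spO 𝒜)) (N : ℕ) (x' : SMap (sub (T4 bV) S.U) (spX8q 𝒜 d δ)),
    (∀ c, P3.1 (c, 0) = (iOd 𝒜 d).1 c) ∧ (∀ c, P3.1 (c, 1) = (pg 𝒜 hB hd).1 ((smr 𝒜 d (3 / 8)).1 c)) ∧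
    (∀ T : Om (spO 𝒜), KO _ (F.pull T) = KO _ (P3.pull T) + (smr 𝒜 d (3 / 8)).pull (kap hB hd T N)) ∧
    S.H.r = F.comp (e2.comp (inU (T4 bV) S.U)).up ∧ S.H.e = (sg 𝒜 δ hB hd).comp x' ∧
    (iXq 𝒜 d δ).comp x' = (itM (bM8 hB hd) N).comp ((smr 𝒜 d (3 / 8)).comp (e2.comp (inU (T4 bV) S.U)))

theorem exists_ShU' (hB : Bl M) (hb : ∀ c, bV.pi.1 c = (gF hB).1 c) (K : Fra bV)
    (hip : ∀ w : (T2 bV).pt, K.ip w = ⟪𝒜.vel (w.1.1 : Gs M).1 0, 𝒜.vel (w.1.2 : Gs M).1 0⟫)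
    (hd0 : 0 < d) (hd : d ≤ π / 2) (hδ : δ < π / 2) :
    ∃ S : ShU (⟨spO 𝒜, cΛ, fΛ, spL 𝒜 δ, iL 𝒜 δ, Du, du, u3, E, dE, DE⟩ : Pln (spM 𝒜) u) K,
      GS hB hd0 S (e2 bV hB hb hd0 hd) := by
  obtain ⟨ε, hε, hgap⟩ := gap 𝒜 hB (η := 1 / 200) (by norm_num)
  obtain ⟨N, hN⟩ := iter8 𝒜 hB hd0 hδ hε
  obtain ⟨P3, p0, p1, hF⟩ := exists_F 𝒜 hB hd0
  obtain ⟨F, f0, f1, f2⟩ := hF N
  obtain ⟨U, hU⟩ : ∃ U : Set (T4 bV).pt, U = {w | 1 / 200 < K.hh w} := ⟨_, rfl⟩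
  have hUh : ∀ w ∈ U, 1 / 200 ≤ hhG 𝒜 (g4 bV w) := fun w hw => by
    rw [← hh_hhG K hip]
    rw [hU] at hw
    exact le_of_lt hw
  have hq : ∀ w : (sub (T4 bV) U).pt, ∀ i,
      dist (((itM (bM8 hB hd0) N).1 ((smp8 𝒜 d).1 ((rotE 𝒜 d).1 ((e2 bV hB hb hd0 hd).1 w.1)))).1 i)
          (((itM (bM8 hB hd0) N).1 ((smp8 𝒜 d).1 ((rotE 𝒜 d).1 ((e2 bV hB hb hd0 hd).1 w.1)))).1 (i + 1)) +
        dist (((itM (bM8 hB hd0) N).1 ((smp8 𝒜 d).1 ((rotE 𝒜 d).1 ((e2 bV hB hb hd0 hd).1 w.1)))).1 (i + 1))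
          (((itM (bM8 hB hd0) N).1 ((smp8 𝒜 d).1 ((rotE 𝒜 d).1 ((e2 bV hB hb hd0 hd).1 w.1)))).1 (i + 1 + 1)) ≤ π - δ := by
    intro w i
    rw [itM_bM8]
    refine hN _ ((smp8 𝒜 d).1 ((rotE 𝒜 d).1 ((e2 bV hB hb hd0 hd).1 w.1))).2 ?_ i
    rw [smp_e2]
    exact hgap _ (Ends_g4 bV hB hb w.1) (hUh _ w.2)
  obtain ⟨x', hx'⟩ : ∃ x' : SMap (sub (T4 bV) U) (spX8q 𝒜 d δ), (iXq 𝒜 d δ).comp x' =
      (itM (bM8 hB hd0) N).comp ((smr 𝒜 d (3 / 8)).comp ((e2 bV hB hb hd0 hd).comp (inU (T4 bV) U))) :=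
    ⟨⟨fun w => ⟨((itM (bM8 hB hd0) N).1 ((smp8 𝒜 d).1 ((rotE 𝒜 d).1 ((e2 bV hB hb hd0 hd).1 w.1)))).1,
      ((itM (bM8 hB hd0) N).1 ((smp8 𝒜 d).1 ((rotE 𝒜 d).1 ((e2 bV hB hb hd0 hd).1 w.1)))).2, hq w⟩, fun k p =>
      ((itM (bM8 hB hd0) N).comp ((smp8 𝒜 d).comp ((rotE 𝒜 d).comp ((e2 bV hB hb hd0 hd).comp (inU (T4 bV) U))))).2 k p⟩,
      rfl⟩
  have h1 : ∀ w, (F.comp ((e2 bV hB hb hd0 hd).comp (inU (T4 bV) U)).up).1 (w, 1) =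
      (iL 𝒜 δ).1 (((sg 𝒜 δ hB hd0).comp x').1 w) := fun w => by
    have h2 := congrArg (fun f : SMap (spX8q 𝒜 d δ) (spO 𝒜) => f.1 (x'.1 w)) (iL_sg (𝒜 := 𝒜) (δ := δ) hB hd0)
    have h3 := congrArg (fun f : SMap (sub (T4 bV) U) (spX8 𝒜 d) => (pg 𝒜 hB hd0).1 (f.1 w)) hx'
    exact (f1 _).trans (h3.symm.trans h2.symm)
  have h0 : ∀ w, (F.comp ((e2 bV hB hb hd0 hd).comp (inU (T4 bV) U)).up).1 (w, 0) =
      ((iOd 𝒜 d).comp (e2 bV hB hb hd0 hd)).1 w.1 := fun w => f0 _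
  subst hU
  exact ⟨⟨(iOd 𝒜 d).comp (e2 bV hB hb hd0 hd), 1 / 200, by norm_num,
    ⟨F.comp ((e2 bV hB hb hd0 hd).comp (inU (T4 bV) _)).up, (sg 𝒜 δ hB hd0).comp x', h1⟩, h0⟩,
    ⟨rfl, P3, F, N, x', p0, p1, f2, rfl, rfl, hx'⟩⟩

/-- **the form of `rho_K`** -/
theorem RhoK_PE (hB : Bl M) (hd : 0 < d) {K : Fra bV}
    {S : ShU (⟨spO 𝒜, cΛ, fΛ, spL 𝒜 δ, iL 𝒜 δ, Du, du, u3, E, dE, DE⟩ : Pln (spM 𝒜) u) K}
    {e2 : SMap (T4 bV) (spOd 𝒜 d)} (hS : GS hB hd S e2) {bY : EB 20 Y (spG 𝒜)} {EY : YK K bY.B} (R : RhoK S EY)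
    {b : Om Y} (hb : IsB hB hd (TT cΛ fΛ u) E (((smr 𝒜 d (3 / 8)).comp (e2.comp EY.Φ)).comp (jO Y 1)) b) :
    PE bY.B.pi R.R.om (b - KO Y (((pg 𝒜 hB hd).comp ((smr 𝒜 d (3 / 8)).comp (e2.comp EY.Φ))).pull (TT cΛ fΛ u))) := by
  obtain ⟨P3, F, N, x', p0, p1, f2, hr, he, hx⟩ := hS.desc
  have dT : dO _ (TT cΛ fΛ u) = 0 := d_TT Du du u3
  have DT : Deg 29 (TT cΛ fΛ u) := by
    have h := Deg_TT (c := cΛ) (f := fΛ) Du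
    exact h
  obtain ⟨T, hT⟩ : ∃ T, T = TT cΛ fΛ u := ⟨_, rfl⟩
  rw [← hT] at hb dT DT ⊢
  have dE' : dO _ E = (iL 𝒜 δ).pull T := by rw [hT]; exact dE
  obtain ⟨ρ, hρ⟩ : ∃ ρ : SMap Y.xR (spOd 𝒜 d), ρ = e2.comp EY.Φ := ⟨_, rfl⟩
  rw [← hρ] at hb ⊢
  have hin : (e2.comp (inU (T4 bV) S.U)).comp R.ΦU = ρ.comp (jO Y 1) := by
    rw [hρ]
    refine SMap_ext fun y => ?_
    exact congrArg e2.1 (R.hΦU y)
  -- the form of `R`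
  have h1 : R.R.om = (x'.comp R.ΦU).pull ((sg 𝒜 δ hB hd).pull E) - (KO Y (((iOd 𝒜 d).comp ρ).pull T) +
      (KO Y ((P3.comp (ρ.comp (jO Y 1)).up).pull T) + (ρ.comp (jO Y 1)).pull ((smr 𝒜 d (3 / 8)).pull (kap hB hd T N)))) := by
    have e1 : R.R.e = S.H.e.comp R.ΦU := SMap_ext R.hRe
    have e2' : R.R.om = R.R.e.pull E - KO Y (R.R.r.pull (TT cΛ fΛ u)) := rfl
    have e3 : KO Y (R.R.r.pull (TT cΛ fΛ u)) = KO Y ((S.e.comp EY.Φ).pull (TT cΛ fΛ u)) +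
      KO Y ((S.H.r.comp R.ΦU.up).pull (TT cΛ fΛ u)) := R.hR
    have e4 : (F.comp (e2.comp (inU (T4 bV) S.U)).up).comp R.ΦU.up =
      F.comp ((e2.comp (inU (T4 bV) S.U)).comp R.ΦU).up := rfl
    rw [e2', e3, e1, he, hr, e4, hin, hS.he, ← hT, pull_comp F, K_up, f2, map_add, ← K_up, ← pull_comp P3, hρ]
    rfl
  -- the square
  have h2 := PE.sq (pB := bY.B.pi) dT DT (P3.comp ρ.up) (P3.comp (e2.comp R.dg).up) fun y t => by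
    rw [hρ]
    exact congrArg (fun w => P3.1 (e2.1 w, t)) (R.hdg y)
  have e5 : (P3.comp ρ.up).comp (jO Y.xR 1) = (pg 𝒜 hB hd).comp ((smr 𝒜 d (3 / 8)).comp ρ) := SMap_ext fun z => p1 _
  have e6 : (P3.comp ρ.up).comp (jO Y.xR 0) = (iOd 𝒜 d).comp ρ := SMap_ext fun z => p0 _
  have e7 : (P3.comp ρ.up).comp (jO Y 1).up = P3.comp (ρ.comp (jO Y 1)).up := rfl
  rw [e5, e6, e7] at h2
  -- the end
  have h3 : IsB hB hd T E (((smr 𝒜 d (3 / 8)).comp ρ).comp (jO Y 1))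
      ((x'.comp R.ΦU).pull ((sg 𝒜 δ hB hd).pull E) -
        (ρ.comp (jO Y 1)).pull ((smr 𝒜 d (3 / 8)).pull (kap hB hd T N))) := by
    refine ⟨N, x'.comp R.ΦU, ?_, rfl⟩
    have h4 := congrArg (fun f : SMap (sub (T4 bV) S.U) (spX8 𝒜 d) => f.comp R.ΦU) hx
    have h5 : ((itM (bM8 hB hd) N).comp ((smr 𝒜 d (3 / 8)).comp (e2.comp (inU (T4 bV) S.U)))).comp R.ΦU =
      (itM (bM8 hB hd) N).comp ((smr 𝒜 d (3 / 8)).comp ((e2.comp (inU (T4 bV) S.U)).comp R.ΦU)) := rfl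
    refine h4.trans ?_
    show ((itM (bM8 hB hd) N).comp ((smr 𝒜 d (3 / 8)).comp (e2.comp (inU (T4 bV) S.U)))).comp R.ΦU = _
    rw [h5, hin]
    rfl
  have h6 := (h3.pe (pB := bY.B.pi) hb dE' DE).sub h2.symm
  rw [h1]
  refine PE.trans (PE.of_eq _ ?_) h6
  abel

end K2

end Pool.Agent.Lib.MP_ccbbf6_gt.K7.FC
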