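import Pool.Agent.Lib.MP_ccbbf6_gt.K7.FA2
import Pool.Agent.Lib.MP_ccbbf6_gt.K7.OG2
import Pool.Agent.Lib.MP_ccbbf6_gt.K7.VI

/-!
# `κ = 7`, block F, file OG3: relative families of loops from families of 8-gons (helper25)

* `catO` : concatenation of two paths in `spO 𝒜`, `K_catO`.
* `PrO 𝒜 δ u`, `PrO.W : Pln (spM 𝒜) u` : the spaces `spO`, `spL δ` with a primitive; `loopD` : `LoopD V`.
* `mkO Q R e` : family of loops in `spOd` with short end `e` in `spOq`; `mkO_step`.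
* `rel8` : `plg8 ∘ B^N ∘ g` for a family `g` of 8-gons with `E8 ≤ 2 π^2 - ε` at the end; `rel8_hom`, `rel8_hom01`, `rel8_shrink`, `rel8_time`; `link8`.
-/

set_option autoImplicit false
set_option maxSynthPendingDepth 3
set_option linter.unusedSectionVars false

open Set Filter Topology Metric Real Module
open scoped ContDiff RealInnerProductSpace

noncomputable section

namespace Pool.Agent.Lib.MP_ccbbf6_gt.K7

open Geo L4 L4.ORI L4.FR L5 HQ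

variable {n : ℕ} {M : Type} [MetricSpace M] [CompactSpace M] {𝒜 : SDist n M} {d δ ε : ℝ} {k : ℕ} {Y B : Space}

/-! ### Concatenation -/

theorem cO_f1 : ContDiff ℝ ∞ fun s : ℝ => Real.smoothTransition (3 * s) :=
  Real.smoothTransition.contDiff.comp (contDiff_const.mul contDiff_id)

theorem cO_f2 : ContDiff ℝ ∞ fun s : ℝ => Real.smoothTransition (3 * s - 2) :=
  Real.smoothTransition.contDiff.comp ((contDiff_const.mul contDiff_id).sub contDiff_const)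

/-- the underlying map -/
def catF (F1 F2 : Y.xR.pt → (spO 𝒜).pt) (z : Y.xR.pt) : (spO 𝒜).pt :=
  if z.2 < 1 / 2 then F1 (z.1, Real.smoothTransition (3 * z.2)) else F2 (z.1, Real.smoothTransition (3 * z.2 - 2))

theorem catF_lo {F1 F2 : Y.xR.pt → (spO 𝒜).pt} (h : ∀ y, F1 (y, 1) = F2 (y, 0)) {z : Y.xR.pt} (hz : z.2 < 2 / 3) :
    catF F1 F2 z = F1 (z.1, Real.smoothTransition (3 * z.2)) := by
  unfold catF
  split_ifs with h1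
  · rfl
  · have e1 : Real.smoothTransition (3 * z.2) = 1 := Real.smoothTransition.one_of_one_le (by linarith)
    have e2 : Real.smoothTransition (3 * z.2 - 2) = 0 := Real.smoothTransition.zero_of_nonpos (by linarith)
    rw [e1, e2]
    exact (h z.1).symm

theorem catF_hi {F1 F2 : Y.xR.pt → (spO 𝒜).pt} (h : ∀ y, F1 (y, 1) = F2 (y, 0)) {z : Y.xR.pt} (hz : 1 / 3 < z.2) :
    catF F1 F2 z = F2 (z.1, Real.smoothTransition (3 * z.2 - 2)) := by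
  unfold catF
  split_ifs with h1
  · have e1 : Real.smoothTransition (3 * z.2) = 1 := Real.smoothTransition.one_of_one_le (by linarith)
    have e2 : Real.smoothTransition (3 * z.2 - 2) = 0 := Real.smoothTransition.zero_of_nonpos (by linarith)
    rw [e1, e2]
    exact h z.1
  · rfl

/-- **concatenation of two paths of loops** -/
def catO (F1 F2 : SMap Y.xR (spO 𝒜)) (h : ∀ y, F1.1 (y, 1) = F2.1 (y, 0)) : SMap Y.xR (spO 𝒜) :=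
  ⟨catF F1.1 F2.1, fun k p => by
    intro z
    have hc : Continuous fun w : V k × ℝ => (p.1 w.1).2 := p.2.2.continuous.comp continuous_fst
    rcases lt_or_ge (p.1 z.1).2 (2 / 3) with h1 | h1
    · have h2 := ((F1.comp (Rph Y cO_f1)).pl p).2 z
      refine SmAt.congr h2 ?_
      filter_upwards [hc.continuousAt.eventually (gt_mem_nhds h1)] with w hw
      exact congrArg (fun c : (spO 𝒜).pt => c.1 w.2) (catF_lo h hw)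
    · have h2 := ((F2.comp (Rph Y cO_f2)).pl p).2 z
      refine SmAt.congr h2 ?_
      filter_upwards [hc.continuousAt.eventually (lt_mem_nhds (show 1 / 3 < (p.1 z.1).2 by linarith))] with w hw
      exact congrArg (fun c : (spO 𝒜).pt => c.1 w.2) (catF_hi h hw)⟩

theorem catO_zero {F1 F2 : SMap Y.xR (spO 𝒜)} (h : ∀ y, F1.1 (y, 1) = F2.1 (y, 0)) (y : Y.pt) :
    (catO F1 F2 h).1 (y, 0) = F1.1 (y, 0) := by
  show catF F1.1 F2.1 (y, 0) = _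
  rw [catF_lo h (by norm_num), mul_zero, Real.smoothTransition.zero]

theorem catO_one {F1 F2 : SMap Y.xR (spO 𝒜)} (h : ∀ y, F1.1 (y, 1) = F2.1 (y, 0)) (y : Y.pt) :
    (catO F1 F2 h).1 (y, 1) = F2.1 (y, 1) := by
  show catF F1.1 F2.1 (y, 1) = _
  rw [catF_hi h (by norm_num), show (3 * 1 - 2 : ℝ) = 1 by norm_num, Real.smoothTransition.one]

theorem K_catO {F1 F2 : SMap Y.xR (spO 𝒜)} (h : ∀ y, F1.1 (y, 1) = F2.1 (y, 0)) (θ : Om (spO 𝒜)) :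
    KO Y ((catO F1 F2 h).pull θ) = KO Y (F1.pull θ) + KO Y (F2.pull θ) := by
  refine K_cat cO_f1 cO_f2 ?_ ?_ ?_ ?_ (fun y s _ hs => catF_lo h (z := (y, s)) ?_)
    (fun y s hs _ => catF_hi h (z := (y, s)) ?_) θ
  · show Real.smoothTransition (3 * 0) = 0
    rw [mul_zero, Real.smoothTransition.zero]
  · exact Real.smoothTransition.one_of_one_le (by norm_num)
  · exact Real.smoothTransition.zero_of_nonpos (by norm_num)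
  · exact Real.smoothTransition.one_of_one_le (by norm_num)
  · show s < 2 / 3
    linarith
  · show 1 / 3 < s
    linarith

/-! ### The spaces of loops with a primitive -/

/-- the primitive on the short loops -/
structure PrO (𝒜 : SDist n M) (δ : ℝ) (u : Om (spM 𝒜)) where
  Du : Deg (2 * 3 + 2) u
  du : dO _ u = 0
  u3 : u ^ 3 = 0
  E : Om (spL 𝒜 δ)
  dE : dO _ E = (iL 𝒜 δ).pull (TT (cLO 𝒜) (fLO 𝒜) u)
  DE : Deg 28 E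

variable {u : Om (spM 𝒜)}

/-- the data `Pln` -/
def PrO.W (Q : PrO 𝒜 δ u) : Pln (spM 𝒜) u where
  Λ := spO 𝒜
  cΛ := cLO 𝒜
  fΛ := fLO 𝒜
  S := spL 𝒜 δ
  i := iL 𝒜 δ
  Du := Q.Du
  du := Q.du
  u3 := Q.u3
  E := Q.E
  dE := Q.dE
  Deg_E := Q.DE

/-- the data `LoopD` -/
def PrO.loopD (Q : PrO 𝒜 δ u) {V : VanD (spM 𝒜) u (Lc 𝒜 δ)}
    (H : ∀ {X : Space} {c : Circ X} {A : Om X} {f : SMap X (spM 𝒜)} (_ : Cnn c A) (h : Lc 𝒜 δ c f), ∃ z : Om X, Deg 27 z ∧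
        V.NP c A f + V.k1 • (A * (dO X A ^ 6 * (ub c f u * xb c f u))) + V.k2 • (A * (dO X A ^ 10 * xb c f u)) =
          (gLc h).pull Q.E + dO X z) : LoopD V where
  toPln := Q.W
  gO := fun c f => gLO c f
  gO_eqv := fun c f => Eqv_gLO c f
  gO_f := fun c f => fLO_gLO c f
  gO_nat := fun hg f => gLO_nat f hg
  gL := fun _ _ h => gLc h
  gL_i := fun _ _ h => iL_gLc h
  peel := fun {X c A f} hA h => by
    obtain ⟨w, h1, h2⟩ := H hA h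
    refine ⟨w, h1, ?_⟩
    unfold ZZ
    rw [← add_assoc]
    exact h2

/-! ### Families of loops in `spOd` with short ends -/

/-- swap of the last two variables -/
def swX (Y : Space) : SMap Y.xR.xR Y.xR.xR := ⟨fun z => ((z.1.1, z.2), z.1.2), fun _ p => ⟨⟨p.2.1.1, p.2.2⟩, p.2.1.2⟩⟩

variable (Q : PrO 𝒜 δ u)

/-- a family of loops with unit arcs at most `π - d` and short ends -/
def mkO (R : SMap Y.xR (spOd 𝒜 d)) (e : SMap Y (spOq 𝒜 d δ)) (h : ∀ y, R.1 (y, 1) = (iOq 𝒜 d δ).1 (e.1 y)) : Q.W.Rl Y where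
  r := (iOd 𝒜 d).comp R
  e := (jOq 𝒜 d δ).comp e
  he := fun y => by
    have h1 := congrArg (fun f : SMap (spOq 𝒜 d δ) (spO 𝒜) => f.1 (e.1 y)) (iL_jOq (𝒜 := 𝒜) (d := d) (δ := δ))
    show (iOd 𝒜 d).1 (R.1 (y, 1)) = (iL 𝒜 δ).1 ((jOq 𝒜 d δ).1 (e.1 y))
    rw [h]
    exact h1.symm

variable {Q} {π' : SMap Y B}

/-- a homotopy applied to all loops -/
theorem mkO_step (π' : SMap Y B) (h : SMap (spOd 𝒜 d).xR (spOd 𝒜 d)) (hq : SMap (spOq 𝒜 d δ).xR (spOq 𝒜 d δ))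
    (hh : (iOq 𝒜 d δ).comp hq = h.comp (iOq 𝒜 d δ).up) {R : SMap Y.xR (spOd 𝒜 d)} {e : SMap Y (spOq 𝒜 d δ)}
    (he : ∀ y, R.1 (y, 1) = (iOq 𝒜 d δ).1 (e.1 y)) {k0 : SMap B (spOd 𝒜 d)} (hs : ∀ y, R.1 (y, 0) = k0.1 (π'.1 y))
    {R0 R1 : SMap Y.xR (spOd 𝒜 d)} {e0 e1 : SMap Y (spOq 𝒜 d δ)} (he0 : ∀ y, R0.1 (y, 1) = (iOq 𝒜 d δ).1 (e0.1 y))
    (he1 : ∀ y, R1.1 (y, 1) = (iOq 𝒜 d δ).1 (e1.1 y)) (a0 : ∀ z, R0.1 z = h.1 (R.1 z, 0)) (a1 : ∀ z, R1.1 z = h.1 (R.1 z, 1))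
    (b0 : ∀ y, e0.1 y = hq.1 (e.1 y, 0)) (b1 : ∀ y, e1.1 y = hq.1 (e.1 y, 1)) :
    Pln.Rl.RelP π' (mkO Q R0 e0 he0) (mkO Q R1 e1 he1) := by
  refine Pln.Rl.homP' (W := Q.W) π' ((iOd 𝒜 d).comp (h.comp (R.up.comp (swX Y)))) ((jOq 𝒜 d δ).comp (hq.comp e.up))
    ((iOd 𝒜 d).comp (h.comp k0.up)) (fun z => ?_) (fun y t => ?_) (fun y s => ?_) (fun y s => ?_) (fun y => ?_) (fun y => ?_)
  · have h1 := congrArg (fun f : SMap (spOq 𝒜 d δ) (spO 𝒜) => f.1 (hq.1 (e.1 z.1, z.2))) (iL_jOq (𝒜 := 𝒜) (d := d) (δ := δ))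
    have h2 := congrArg (fun f : SMap (spOq 𝒜 d δ).xR (spOd 𝒜 d) => f.1 (e.1 z.1, z.2)) hh
    show (iOd 𝒜 d).1 (h.1 (R.1 (z.1, 1), z.2)) = (iL 𝒜 δ).1 ((jOq 𝒜 d δ).1 (hq.1 (e.1 z.1, z.2)))
    rw [he]
    exact (h1.trans (congrArg (iOd 𝒜 d).1 h2)).symm
  · show (iOd 𝒜 d).1 (h.1 (R.1 (y, 0), t)) = (iOd 𝒜 d).1 (h.1 (k0.1 (π'.1 y), t))
    rw [hs]
  · show (iOd 𝒜 d).1 (h.1 (R.1 (y, s), 0)) = (iOd 𝒜 d).1 (R0.1 (y, s))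
    rw [a0]
  · show (iOd 𝒜 d).1 (h.1 (R.1 (y, s), 1)) = (iOd 𝒜 d).1 (R1.1 (y, s))
    rw [a1]
  · show (jOq 𝒜 d δ).1 (hq.1 (e.1 y, 0)) = (jOq 𝒜 d δ).1 (e0.1 y)
    rw [b0]
  · show (jOq 𝒜 d δ).1 (hq.1 (e.1 y, 1)) = (jOq 𝒜 d δ).1 (e1.1 y)
    rw [b1]

/-! ### Families of 8-gons -/

/-- `N` steps make all 8-gons with `E8 ≤ 2 π^2 - ε` short -/
def It8 (𝒜 : SDist n M) (d δ ε : ℝ) (N : ℕ) : Prop := ∀ x : ZMod 8 → M,
    (∀ i, dist (x i) (x (i + 1)) ≤ π - d) → E8 x ≤ 2 * π ^ 2 - ε → ∀ i,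
      dist ((bt8 𝒜 1)^[N] x i) ((bt8 𝒜 1)^[N] x (i + 1)) + dist ((bt8 𝒜 1)^[N] x (i + 1)) ((bt8 𝒜 1)^[N] x (i + 1 + 1)) ≤
        π - δ

variable (hB : Bl M) (hd : 0 < d) {N : ℕ}

/-- the short ends -/
def Bq (hN : It8 𝒜 d δ ε N) (h : SMap Y (spX8 𝒜 d)) (hE : ∀ y, E8 (h.1 y).1 ≤ 2 * π ^ 2 - ε) : SMap Y (spX8q 𝒜 d δ) :=
  ⟨fun y => ⟨((itM (bM8 hB hd) N).1 (h.1 y)).1, ((itM (bM8 hB hd) N).1 (h.1 y)).2, by
      rw [itM_bM8]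
      exact hN _ (h.1 y).2 (hE y)⟩, fun k p => ((itM (bM8 hB hd) N).comp h).2 k p⟩

/-- a family of polygons -/
def mkG (g : SMap Y.xR (spX8 𝒜 d)) (e : SMap Y (spX8q 𝒜 d δ)) (h : ∀ y, g.1 (y, 1) = (iXq 𝒜 d δ).1 (e.1 y)) : Q.W.Rl Y :=
  mkO Q ((plg8 hB hd).comp g) ((plgq hB hd).comp e) fun y => congrArg (plg8 hB hd).1 (h y)

/-- **the relative family of loops of a family of 8-gons** -/
def rel8 (Q : PrO 𝒜 δ u) (hN : It8 𝒜 d δ ε N) (g : SMap Y.xR (spX8 𝒜 d)) (hE : ∀ y, E8 (g.1 (y, 1)).1 ≤ 2 * π ^ 2 - ε) : Q.W.Rl Y :=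
  mkG hB hd ((itM (bM8 hB hd) N).comp g) (Bq hB hd hN (g.comp (jO Y 1)) hE) fun _ => rfl

theorem rel8_pull {Z : Space} (hN : It8 𝒜 d δ ε N) (g : SMap Y.xR (spX8 𝒜 d)) (hE : ∀ y, E8 (g.1 (y, 1)).1 ≤ 2 * π ^ 2 - ε)
    (f : SMap Z Y) : (rel8 hB hd Q hN g hE).pull f = rel8 hB hd Q hN (g.comp f.up) fun z => hE (f.1 z) := rfl

/-- the homotopy lemma -/
theorem rel8_hom (π' : SMap Y B) (hN : It8 𝒜 d δ ε N) (G : SMap Y.xR.xR (spX8 𝒜 d)) (hE : ∀ z, E8 (G.1 (z, 1)).1 ≤ 2 * π ^ 2 - ε)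
    (k : SMap B.xR (spX8 𝒜 d)) (hs : ∀ y t, G.1 ((y, t), 0) = k.1 (π'.1 y, t)) :
    Pln.Rl.RelP π' (rel8 hB hd Q hN (G.comp (jO Y 1).up) fun y => hE (y, 1))
      (rel8 hB hd Q hN (G.comp (jO Y 0).up) fun y => hE (y, 0)) :=
  Pln.Rl.homP (W := Q.W) π' (rel8 hB hd Q hN G hE)
    ((iOd 𝒜 d).comp ((plg8 hB hd).comp ((itM (bM8 hB hd) N).comp k))) fun y t => by
      show (iOd 𝒜 d).1 ((plg8 hB hd).1 ((itM (bM8 hB hd) N).1 (G.1 ((y, t), 0)))) = _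
      rw [hs]
      rfl

theorem rel8_congr (hN : It8 𝒜 d δ ε N) {g g' : SMap Y.xR (spX8 𝒜 d)} (hE : ∀ y, E8 (g.1 (y, 1)).1 ≤ 2 * π ^ 2 - ε)
    (hE' : ∀ y, E8 (g'.1 (y, 1)).1 ≤ 2 * π ^ 2 - ε) (h : ∀ y s, 0 < s → s ≤ 1 → g.1 (y, s) = g'.1 (y, s)) :
    (rel8 hB hd Q hN g hE).om = (rel8 hB hd Q hN g' hE').om := by
  refine Pln.Rl.congr (fun y s h0 h1 => ?_) (fun y => ?_)
  · show (iOd 𝒜 d).1 ((plg8 hB hd).1 ((itM (bM8 hB hd) N).1 (g.1 (y, s)))) =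
      (iOd 𝒜 d).1 ((plg8 hB hd).1 ((itM (bM8 hB hd) N).1 (g'.1 (y, s))))
    rw [h y s h0 h1.le]
  · have h2 : (Bq hB hd hN (g.comp (jO Y 1)) hE).1 y = (Bq hB hd hN (g'.comp (jO Y 1)) hE').1 y := by
      refine Subtype.ext ?_
      show ((itM (bM8 hB hd) N).1 (g.1 (y, 1))).1 = ((itM (bM8 hB hd) N).1 (g'.1 (y, 1))).1
      rw [h y 1 one_pos le_rfl]
    show (jOq 𝒜 d δ).1 ((plgq hB hd).1 ((Bq hB hd hN (g.comp (jO Y 1)) hE).1 y)) =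
      (jOq 𝒜 d δ).1 ((plgq hB hd).1 ((Bq hB hd hN (g'.comp (jO Y 1)) hE').1 y))
    rw [h2]

/-- change of time -/
theorem rel8_time (hN : It8 𝒜 d δ ε N) {g g' : SMap Y.xR (spX8 𝒜 d)} (hE : ∀ y, E8 (g.1 (y, 1)).1 ≤ 2 * π ^ 2 - ε)
    (hE' : ∀ y, E8 (g'.1 (y, 1)).1 ≤ 2 * π ^ 2 - ε) {φ : ℝ → ℝ} (hφ : ContDiff ℝ ∞ φ) (φ0 : φ 0 = 0) (φ1 : φ 1 = 1)
    (h : ∀ y s, 0 < s → s ≤ 1 → g'.1 (y, s) = g.1 (y, φ s)) : (rel8 hB hd Q hN g' hE').om = (rel8 hB hd Q hN g hE).om := by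
  refine Pln.Rl.time hφ φ0 φ1 (fun y s h0 h1 => ?_) (fun y => ?_)
  · show (iOd 𝒜 d).1 ((plg8 hB hd).1 ((itM (bM8 hB hd) N).1 (g'.1 (y, s)))) =
      (iOd 𝒜 d).1 ((plg8 hB hd).1 ((itM (bM8 hB hd) N).1 (g.1 (y, φ s))))
    rw [h y s h0 h1.le]
  · have h2 : (Bq hB hd hN (g'.comp (jO Y 1)) hE').1 y = (Bq hB hd hN (g.comp (jO Y 1)) hE).1 y := by
      refine Subtype.ext ?_
      show ((itM (bM8 hB hd) N).1 (g'.1 (y, 1))).1 = ((itM (bM8 hB hd) N).1 (g.1 (y, 1))).1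
      rw [h y 1 one_pos le_rfl, φ1]
    show (jOq 𝒜 d δ).1 ((plgq hB hd).1 ((Bq hB hd hN (g'.comp (jO Y 1)) hE').1 y)) =
      (jOq 𝒜 d δ).1 ((plgq hB hd).1 ((Bq hB hd hN (g.comp (jO Y 1)) hE).1 y))
    rw [h2]

/-- the homotopy lemma, parameter in `[0, 1]` -/
theorem rel8_hom01 (π' : SMap Y B) (hN : It8 𝒜 d δ ε N) (G : SMap Y.xR.xR (spX8 𝒜 d))
    (hE : ∀ y t, 0 ≤ t → t ≤ 1 → E8 (G.1 ((y, t), 1)).1 ≤ 2 * π ^ 2 - ε)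
    (k : SMap B.xR (spX8 𝒜 d)) (hs : ∀ y t, 0 ≤ t → t ≤ 1 → G.1 ((y, t), 0) = k.1 (π'.1 y, t)) {g0 g1 : SMap Y.xR (spX8 𝒜 d)}
    (h0 : ∀ y s, g0.1 (y, s) = G.1 ((y, 0), s)) (h1 : ∀ y s, g1.1 (y, s) = G.1 ((y, 1), s))
    (hE0 : ∀ y, E8 (g0.1 (y, 1)).1 ≤ 2 * π ^ 2 - ε) (hE1 : ∀ y, E8 (g1.1 (y, 1)).1 ≤ 2 * π ^ 2 - ε) :
    Pln.Rl.RelP π' (rel8 hB hd Q hN g1 hE1) (rel8 hB hd Q hN g0 hE0) := by
  obtain ⟨st, hst⟩ : ∃ st : SMap Y.xR Y.xR, st = Rph Y (φ := Real.smoothTransition) Real.smoothTransition.contDiff := ⟨_, rfl⟩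
  obtain ⟨sb, hsb⟩ : ∃ sb : SMap B.xR B.xR, sb = Rph B (φ := Real.smoothTransition) Real.smoothTransition.contDiff := ⟨_, rfl⟩
  have key := rel8_hom (Q := Q) hB hd π' hN (G.comp st.up) (fun z => by
    rw [hst]
    exact hE z.1 _ (Real.smoothTransition.nonneg _) (Real.smoothTransition.le_one _)) (k.comp sb) (fun y t => by
    rw [hst, hsb]
    exact hs y _ (Real.smoothTransition.nonneg _) (Real.smoothTransition.le_one _))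
  refine Pln.Rl.RelP.trans (Pln.Rl.RelP.of_eq ?_) (key.trans (Pln.Rl.RelP.of_eq ?_))
  · refine rel8_congr hB hd hN _ _ fun y s _ _ => ?_
    rw [h1, hst]
    show G.1 ((y, 1), s) = G.1 ((y, Real.smoothTransition 1), s)
    rw [Real.smoothTransition.one]
  · refine rel8_congr hB hd hN _ _ fun y s _ _ => ?_
    rw [h0, hst]
    show G.1 ((y, Real.smoothTransition 0), s) = G.1 ((y, 0), s)
    rw [Real.smoothTransition.zero]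

/-- shrinking the parameter interval -/
theorem rel8_shrink (π' : SMap Y B) (hN : It8 𝒜 d δ ε N) {g : SMap Y.xR (spX8 𝒜 d)} {s0 : ℝ} (hs1 : s0 ≤ 1)
    (hE : ∀ y s, s0 ≤ s → s ≤ 1 → E8 (g.1 (y, s)).1 ≤ 2 * π ^ 2 - ε) {k0 : SMap B (spX8 𝒜 d)}
    (hs : ∀ y, g.1 (y, 0) = k0.1 (π'.1 y)) :
    Pln.Rl.RelP π' (rel8 hB hd Q hN g fun y => hE y 1 hs1 le_rfl)
      (rel8 hB hd Q hN (g.comp (Rph Y (contDiff_mulc s0))) fun y => hE y (1 * s0) (by rw [one_mul]) (by rw [one_mul]; exact hs1)) := by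
  obtain ⟨m, hm⟩ : ∃ m : SMap Y.xR.xR Y.xR, m = ⟨fun z => (z.1.1, z.2 * (s0 + z.1.2 * (1 - s0))), fun _ p =>
    ⟨p.2.1.1, p.2.2.mul (contDiff_const.add (p.2.1.2.mul contDiff_const))⟩⟩ := ⟨_, rfl⟩
  refine rel8_hom01 hB hd π' hN (g.comp m) (fun y t h0 h1 => ?_) (k0.comp (pO B)) (fun y t h0 h1 => ?_) (fun y s => ?_)
    (fun y s => ?_) _ _
  · rw [hm]
    refine hE y _ ?_ ?_
    · show s0 ≤ 1 * (s0 + t * (1 - s0))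
      nlinarith
    · show 1 * (s0 + t * (1 - s0)) ≤ 1
      nlinarith
  · rw [hm]
    show g.1 (y, 0 * (s0 + t * (1 - s0))) = k0.1 (π'.1 y)
    rw [zero_mul, hs]
  · rw [hm]
    show g.1 (y, s * s0) = g.1 (y, s * (s0 + 0 * (1 - s0)))
    rw [zero_mul, add_zero]
  · rw [hm]
    show g.1 (y, s) = g.1 (y, s * (s0 + 1 * (1 - s0)))
    rw [one_mul, add_sub_cancel, mul_one]

/-! ### Families of loops and their 8-gons -/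

/-- one Birkhoff step -/
theorem mkG_step (π' : SMap Y B) {g : SMap Y.xR (spX8 𝒜 d)} {e : SMap Y (spX8q 𝒜 d δ)} (h : ∀ y, g.1 (y, 1) = (iXq 𝒜 d δ).1 (e.1 y))
    {k0 : SMap B (spX8 𝒜 d)} (hs : ∀ y, g.1 (y, 0) = k0.1 (π'.1 y)) :
    Pln.Rl.RelP π' (mkG (Q := Q) hB hd g e h) (mkG hB hd ((bM8 hB hd).comp g) ((bMq hB hd).comp e) fun y => by
      show (bM8 hB hd).1 (g.1 (y, 1)) = _
      rw [h]
      rfl) := by
  refine Pln.Rl.homP' (W := Q.W) π' ((iOd 𝒜 d).comp ((plg8 hB hd).comp ((bH8 hB hd).comp (g.up.comp (swX Y)))))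
    ((jOq 𝒜 d δ).comp ((plgq hB hd).comp ((bHq hB hd).comp e.up)))
    ((iOd 𝒜 d).comp ((plg8 hB hd).comp ((bH8 hB hd).comp k0.up))) (fun z => ?_) (fun y t => ?_) (fun y s => ?_) (fun y s => rfl)
    (fun y => ?_) (fun y => rfl)
  · have h1 := congrArg (fun f : SMap (spOq 𝒜 d δ) (spO 𝒜) => f.1 ((plgq hB hd).1 ((bHq hB hd).1 (e.1 z.1, z.2))))
      (iL_jOq (𝒜 := 𝒜) (d := d) (δ := δ))
    show (iOd 𝒜 d).1 ((plg8 hB hd).1 ((bH8 hB hd).1 (g.1 (z.1, 1), z.2))) =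
      (iL 𝒜 δ).1 ((jOq 𝒜 d δ).1 ((plgq hB hd).1 ((bHq hB hd).1 (e.1 z.1, z.2))))
    rw [h]
    exact h1.symm
  · show (iOd 𝒜 d).1 ((plg8 hB hd).1 ((bH8 hB hd).1 (g.1 (y, 0), t))) =
      (iOd 𝒜 d).1 ((plg8 hB hd).1 ((bH8 hB hd).1 (k0.1 (π'.1 y), t)))
    rw [hs]
  · have h1 := congrArg (fun f : SMap (spX8 𝒜 d) (spX8 𝒜 d) => f.1 (g.1 (y, s))) (bH8_zero (𝒜 := 𝒜) hB hd)
    exact congrArg (fun x => (iOd 𝒜 d).1 ((plg8 hB hd).1 x)) h1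
  · have h1 := congrArg (fun f : SMap (spX8q 𝒜 d δ) (spX8q 𝒜 d δ) => f.1 (e.1 y)) (bHq_zero (𝒜 := 𝒜) (δ := δ) hB hd)
    exact congrArg (fun x => (jOq 𝒜 d δ).1 ((plgq hB hd).1 x)) h1

theorem itM_q (N : ℕ) : (iXq 𝒜 d δ).comp (itM (bMq hB hd) N) = (itM (bM8 hB hd) N).comp (iXq 𝒜 d δ) := by
  induction N with
  | zero => rfl
  | succ N ih => exact congrArg (fun f : SMap (spX8q 𝒜 d δ) (spX8 𝒜 d) => (bM8 hB hd).comp f) ih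

/-- many Birkhoff steps -/
theorem mkG_it (π' : SMap Y B) {g : SMap Y.xR (spX8 𝒜 d)} {e : SMap Y (spX8q 𝒜 d δ)} (h : ∀ y, g.1 (y, 1) = (iXq 𝒜 d δ).1 (e.1 y))
    {k0 : SMap B (spX8 𝒜 d)} (hs : ∀ y, g.1 (y, 0) = k0.1 (π'.1 y)) (N : ℕ) :
    Pln.Rl.RelP π' (mkG (Q := Q) hB hd g e h) (mkG hB hd ((itM (bM8 hB hd) N).comp g) ((itM (bMq hB hd) N).comp e) fun y => by
      have h1 := congrArg (fun f : SMap (spX8q 𝒜 d δ) (spX8 𝒜 d) => f.1 (e.1 y)) (itM_q (𝒜 := 𝒜) (δ := δ) hB hd N)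
      show (itM (bM8 hB hd) N).1 (g.1 (y, 1)) = _
      rw [h]
      exact h1.symm) := by
  induction N with
  | zero => exact Pln.Rl.RelP.refl
  | succ N ih =>
    refine ih.trans ?_
    exact mkG_step hB hd π' _ (k0 := (itM (bM8 hB hd) N).comp k0) fun y => by
      show (itM (bM8 hB hd) N).1 (g.1 (y, 0)) = (itM (bM8 hB hd) N).1 (k0.1 (π'.1 y))
      rw [hs]

/-- **a family of loops is homotopic to the family of its 8-gons** -/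
theorem link8 (π' : SMap Y B) (hN : It8 𝒜 d δ ε N) {R : SMap Y.xR (spOd 𝒜 d)} {e : SMap Y (spOq 𝒜 d δ)}
    (he : ∀ y, R.1 (y, 1) = (iOq 𝒜 d δ).1 (e.1 y)) {k0 : SMap B (spOd 𝒜 d)} (hs : ∀ y, R.1 (y, 0) = k0.1 (π'.1 y))
    (hE : ∀ y, E8 ((smp8 𝒜 d).1 (R.1 (y, 1))).1 ≤ 2 * π ^ 2 - ε) :
    Pln.Rl.RelP π' (mkO Q R e he) (rel8 hB hd Q hN ((smp8 𝒜 d).comp R) hE) := by
  have e1 : ∀ c : (spOd 𝒜 d).pt, (homO0 𝒜 d).1 (c, 0) = c := fun c =>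
    congrArg (fun f : SMap (spOd 𝒜 d) (spOd 𝒜 d) => f.1 c) homO0_zero
  have e1q : ∀ c : (spOq 𝒜 d δ).pt, (homO0q 𝒜 d δ).1 (c, 0) = c := fun c =>
    congrArg (fun f : SMap (spOq 𝒜 d δ) (spOq 𝒜 d δ) => f.1 c) homO0q_zero
  have e2 : ∀ c : (spOd 𝒜 d).pt, (homO0 𝒜 d).1 (c, 1) = (homO1 hB hd).1 (c, 0) := fun c =>
    congrArg (fun f : SMap (spOd 𝒜 d) (spOd 𝒜 d) => f.1 c) (homO0_one hB hd)
  have e2q : ∀ c : (spOq 𝒜 d δ).pt, (homO0q 𝒜 d δ).1 (c, 1) = (homO1q hB hd).1 (c, 0) := fun c =>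
    congrArg (fun f : SMap (spOq 𝒜 d δ) (spOq 𝒜 d δ) => f.1 c) (homO0q_one hB hd)
  have e3 : ∀ c : (spOd 𝒜 d).pt, (homO1 (𝒜 := 𝒜) hB hd).1 (c, 1) = (plg8 hB hd).1 ((smp8 𝒜 d).1 c) := fun c =>
    congrArg (fun f : SMap (spOd 𝒜 d) (spOd 𝒜 d) => f.1 c) (homO1_one hB hd)
  have e3q : ∀ c : (spOq 𝒜 d δ).pt, (homO1q (𝒜 := 𝒜) hB hd).1 (c, 1) = (plgq hB hd).1 ((smpq 𝒜 d δ).1 c) := fun c =>
    congrArg (fun f : SMap (spOq 𝒜 d δ) (spOq 𝒜 d δ) => f.1 c) (homO1q_one hB hd)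
  have a1 : ∀ y, ((homO1 hB hd).comp ((jO _ 0).comp R)).1 (y, 1) =
      (iOq 𝒜 d δ).1 (((homO1q hB hd).comp ((jO _ 0).comp e)).1 y) := fun y => by
    show (homO1 hB hd).1 (R.1 (y, 1), 0) = _
    rw [he]
    rfl
  have a2 : ∀ y, (((smp8 𝒜 d).comp R)).1 (y, 1) = (iXq 𝒜 d δ).1 (((smpq 𝒜 d δ).comp e).1 y) := fun y => by
    show (smp8 𝒜 d).1 (R.1 (y, 1)) = _
    rw [he]
    rfl
  have k1 : Pln.Rl.RelP π' (mkO Q R e he) (mkO Q ((homO1 hB hd).comp ((jO _ 0).comp R)) ((homO1q hB hd).comp ((jO _ 0).comp e)) a1) :=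
    mkO_step π' (homO0 𝒜 d) (homO0q 𝒜 d δ) rfl he hs he a1 (fun z => (e1 _).symm) (fun z => (e2 _).symm)
      (fun y => (e1q _).symm) (fun y => (e2q _).symm)
  have k2 : Pln.Rl.RelP π' (mkO Q ((homO1 hB hd).comp ((jO _ 0).comp R)) ((homO1q hB hd).comp ((jO _ 0).comp e)) a1)
      (mkG hB hd ((smp8 𝒜 d).comp R) ((smpq 𝒜 d δ).comp e) a2) :=
    mkO_step π' (homO1 hB hd) (homO1q hB hd) rfl he hs a1 _ (fun z => rfl) (fun z => (e3 _).symm)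
      (fun y => rfl) (fun y => (e3q _).symm)
  refine k1.trans (k2.trans ((mkG_it hB hd π' a2 (k0 := (smp8 𝒜 d).comp k0) (fun y => ?_) N).trans (Pln.Rl.RelP.of_eq ?_)))
  · show (smp8 𝒜 d).1 (R.1 (y, 0)) = (smp8 𝒜 d).1 (k0.1 (π'.1 y))
    rw [hs]
  · refine Pln.Rl.congr (fun y s _ _ => rfl) fun y => ?_
    have h2 : (itM (bMq hB hd) N).1 ((smpq 𝒜 d δ).1 (e.1 y)) = (Bq hB hd hN (((smp8 𝒜 d).comp R).comp (jO Y 1)) hE).1 y := by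
      refine Subtype.ext ?_
      have h1 := congrArg (fun f : SMap (spX8q 𝒜 d δ) (spX8 𝒜 d) => (f.1 ((smpq 𝒜 d δ).1 (e.1 y))).1)
        (itM_q (𝒜 := 𝒜) (δ := δ) hB hd N)
      refine h1.trans ?_
      show ((itM (bM8 hB hd) N).1 ((iXq 𝒜 d δ).1 ((smpq 𝒜 d δ).1 (e.1 y)))).1 = ((itM (bM8 hB hd) N).1 ((smp8 𝒜 d).1 (R.1 (y, 1)))).1
      rw [he]
      rfl
    exact congrArg (fun x => (jOq 𝒜 d δ).1 ((plgq hB hd).1 x)) h2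

end Pool.Agent.Lib.MP_ccbbf6_gt.K7
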