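import Pool.Agent.Lib.MP_ccbbf6_gt.K7.FB4
import Pool.Agent.Lib.MP_ccbbf6_gt.K7.SU2
import Pool.Agent.Lib.MP_ccbbf6_gt.K7.SU3
import Pool.Agent.Lib.MP_ccbbf6_gt.L4.AL

/-!
# `κ = 7`, block F, file SU5: the family `rho_K` (helper18)

* `dg : SMap (spG 𝒜) (T4 b)` the diagonal `c ↦ (c, rev c, c, rev c)`; `eq_dg` : `hh w = 0` iff `w` is in the diagonal.
* `exists_RhoK` : the structure `RhoK` of FB4.
-/

set_option autoImplicit false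
set_option maxSynthPendingDepth 3
set_option linter.unusedSectionVars false

open Set Filter Topology Metric Real Module
open scoped ContDiff RealInnerProductSpace

noncomputable section

namespace Pool.Agent.Lib.MP_ccbbf6_gt.K7.SU

open Geo L4 L4.ORI L4.FR L5 K7 HQ

section norms

theorem snoc_norm0 (c : ℝ) (hc : c = 3 ∨ c = -3) : ‖toE (Fin.snoc (fun _ : Fin 7 => (0 : ℝ)) c : V 8)‖ = 3 := by
  have h1 : ‖toE (Fin.snoc (fun _ : Fin 7 => (0 : ℝ)) c : V 8)‖ ^ 2 = 3 ^ 2 := by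
    rw [tsq_snoc, tsq]
    simp only [ne_eq, OfNat.ofNat_ne_zero, not_false_eq_true, zero_pow, Finset.sum_const_zero, zero_add]
    rcases hc with h | h
    · rw [h]
    · rw [h]
      norm_num
  exact (pow_left_inj₀ (norm_nonneg _) (by norm_num) two_ne_zero).1 h1

variable {B F : Space} {bV : SBun 7 B F} (K : Fra bV)

/-- the base point of the chart is in the diagonal -/
theorem hh_zero (z : K.Z.pt) : K.hh (K.ΦZ.1 (z, 0)) = 0 := by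
  have k2 : K.ip ((fp1 (g2 bV) bV.pi).1 ((fp1 (g3 bV) bV.pi).1 (K.ΦZ.1 (z, 0)))) =
      -3 / ‖toE (Fin.snoc (fun _ : Fin 7 => (0 : ℝ)) (-3) : V 8)‖ := by
    have h1 := K.ip_pt2 ((conM K.Z 7 (c := -3) (by norm_num)).1 (z, fun _ => 0))
    refine Eq.trans ?_ (h1.trans ?_)
    · rfl
    · change (Fin.snoc (fun _ : Fin 7 => (0 : ℝ)) (-3) : V 8) (Fin.last 7) / _ = _
      rw [Fin.snoc_last]
      rfl
  have k3 : K.ip ((r3 bV).1 ((fp1 (g3 bV) bV.pi).1 (K.ΦZ.1 (z, 0)))) =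
      3 / ‖toE (Fin.snoc (fun _ : Fin 7 => (0 : ℝ)) 3 : V 8)‖ := by
    have h1 := K.ip_pt3 ((conM (K.Z.xV 7) 7 (c := 3) (by norm_num)).1 ((z, fun _ => 0), fun _ => 0))
    refine Eq.trans ?_ (h1.trans ?_)
    · rfl
    · change (Fin.snoc (fun _ : Fin 7 => (0 : ℝ)) 3 : V 8) (Fin.last 7) / _ = _
      rw [Fin.snoc_last]
      rfl
  have k4 : K.ip ((r4 bV).1 (K.ΦZ.1 (z, 0))) =
      -3 / ‖toE (Fin.snoc (fun _ : Fin 7 => (0 : ℝ)) (-3) : V 8)‖ := by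
    have h1 := K.ip_pt4 ((conM ((K.Z.xV 7).xV 7) 7 (c := -3) (by norm_num)).1 (((z, fun _ => 0), fun _ => 0), fun _ => 0))
    refine Eq.trans ?_ (h1.trans ?_)
    · rfl
    · change (Fin.snoc (fun _ : Fin 7 => (0 : ℝ)) (-3) : V 8) (Fin.last 7) / _ = _
      rw [Fin.snoc_last]
      rfl
  unfold Fra.hh
  rw [k2, k3, k4, snoc_norm0 (-3) (Or.inr rfl), snoc_norm0 3 (Or.inl rfl)]
  norm_num

/-- covering of the fibres by the coordinates -/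
theorem cover {Y : Space} (b : SBun 20 Y B) (E : YK K b) {y : Y.pt} (hy : (fun _ : V 0 => y) ∈ Y.Pl 0) :
    ∃ (z : E.Z.pt) (ξ : V (20 + 1)) (hξ : ξ ≠ 0), b.ptm.1 ⟨(E.ψ.1 z, ξ), hξ⟩ = y ∧ K.q.1 (E.g.1 z) = b.pi.1 y := by
  obtain ⟨p, hp⟩ : ∃ p : Y.Plot 0, ∀ x, p.1 x = y := ⟨⟨fun _ => y, hy⟩, fun _ => rfl⟩
  obtain ⟨h1, P1, -, e1⟩ := b.lift1 0 p 0
  obtain ⟨h2, P2, -, e2⟩ := E.hg 0 (b.pi.pl p) 0
  have f1 : ∀ x, (b.ptm.comp (e1M b.F 20)).1 (P1.1 x) = y := fun x => by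
    have h := congrArg (fun r : Y.Plot 0 => r.1 x) e1
    exact h.trans (hp _)
  have f2 : ∀ x, K.q.1 (E.g.1 (P2.1 x)) = b.pi.1 y := fun x => by
    have h := congrArg (fun r : B.Plot 0 => r.1 x) e2
    refine h.trans ?_
    show b.pi.1 (p.1 _) = _
    rw [hp]
  have f3 : b.q.pl (E.ψ.pl P2) = b.q.pl P1 := Plot_ext fun x => by
    show b.q.1 (E.ψ.1 (P2.1 x)) = b.q.1 (P1.1 x)
    rw [E.hψ, f2, ← f1 x]
    exact b.pi_pt _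
  obtain ⟨A, -, -, hA, hc⟩ := b.change 0 (E.ψ.pl P2) P1 f3
  have h3 := hc 0 (Pi.single 0 1) (e1_ne 20)
  exact ⟨P2.1 0, (A 0).mulVec (Pi.single 0 1), mulVec_ne (hA 0) (e1_ne 20), h3.symm.trans (f1 0), f2 0⟩

theorem norm_smul_V {N : ℕ} (r : ℝ) (x : V N) : ‖toE (r • x)‖ = |r| * ‖toE x‖ := norm_smul r (toE x)

end norms

variable {n : ℕ} {M : Type} [MetricSpace M] [CompactSpace M] {𝒜 : SDist n M} {d δ : ℝ}

/-- opposite directions -/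
theorem rev_of_ip (hB : Bl M) {c c' : Gs M} (h : c'.1 0 = c.1 0) (hi : ⟪𝒜.vel c.1 0, 𝒜.vel c'.1 0⟫ = (-1 : ℝ)) : c' = rev c := by
  have e0 : (rev c).1 0 = c.1 0 := by
    show c.1 (-0) = c.1 0
    rw [neg_zero]
  refine eq_of_vel' 𝒜 (h.trans e0.symm) ?_
  rw [vel_rev0 hB]
  have h1 : ‖𝒜.vel c.1 0 + 𝒜.vel c'.1 0‖ ^ 2 = 0 := by
    rw [norm_add_sq_real, hi, vel_norm, vel_norm]
    norm_num
  have h2 : 𝒜.vel c.1 0 + 𝒜.vel c'.1 0 = 0 := norm_eq_zero.1 (pow_eq_zero_iff two_ne_zero |>.1 h1)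
  exact (neg_eq_of_add_eq_zero_right h2).symm

theorem eq_of_ip {c c' : Gs M} (h : c'.1 0 = c.1 0) (hi : ⟪𝒜.vel c.1 0, 𝒜.vel c'.1 0⟫ = (1 : ℝ)) : c' = c := by
  refine eq_of_vel' 𝒜 h ?_
  have h1 : ‖𝒜.vel c.1 0 - 𝒜.vel c'.1 0‖ ^ 2 = 0 := by
    rw [norm_sub_sq_real, hi, vel_norm, vel_norm]
    norm_num
  have h2 : 𝒜.vel c.1 0 - 𝒜.vel c'.1 0 = 0 := norm_eq_zero.1 (pow_eq_zero_iff two_ne_zero |>.1 h1)
  exact (sub_eq_zero.1 h2).symm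

/-- constants are plots (hypothesis `hY` of `exists_RhoK`; `spY 𝒜 P = spN 𝒜 (P3 P)`) -/
theorem spN_const {N : ℕ} {P : Gs M → Eu N →L[ℝ] Eu N} (y : (NEG.spN 𝒜 P).pt) (k : ℕ) :
    (fun _ : V k => y) ∈ (NEG.spN 𝒜 P).Pl k :=
  ⟨⟨fun _ => ⟨continuousAt_const, contDiffAt_const⟩, fun _ => ⟨continuousAt_const, contDiffAt_const⟩⟩, contDiff_const⟩

variable (b : SBun 7 (spG 𝒜) (spF 𝒜))

theorem pi_rev (hB : Bl M) (hb : ∀ c, b.pi.1 c = (gF hB).1 c) (c : Gs M) : b.pi.1 c = b.pi.1 (rev c) := by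
  rw [hb, hb]
  refine Subtype.ext (Prod.ext ?_ ?_)
  · show c.1 0 = c.1 (-0)
    rw [neg_zero]
  · show c.1 π = c.1 (-π)
    rw [← gs_period 𝒜 hB c (-π)]
    exact congrArg c.1 (by ring)

/-- **the diagonal** -/
def dg (hB : Bl M) (hb : ∀ c, b.pi.1 c = (gF hB).1 c) : SMap (spG 𝒜) (T4 b) :=
  fpM (f := g3 b) (g := b.pi) (fpM (f := g2 b) (g := b.pi)
    (fpM (f := b.pi) (g := b.pi) (SMap.id _) (revF hB) fun c => pi_rev b hB hb c) (SMap.id _) fun _ => rfl) (revF hB)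
    fun c => pi_rev b hB hb c

theorem eq_dg (hB : Bl M) (hb : ∀ c, b.pi.1 c = (gF hB).1 c) (K : Fra b)
    (hip : ∀ w : (T2 b).pt, K.ip w = ⟪𝒜.vel (w.1.1 : Gs M).1 0, 𝒜.vel (w.1.2 : Gs M).1 0⟫) {w : (T4 b).pt}
    (h : K.hh w = 0) : w = (dg b hB hb).1 w.1.1.1.1.1.1 := by
  have hE := Ends_g4 b hB hb w
  have t1 := K.ip1 ((fp1 (g2 b) b.pi).1 ((fp1 (g3 b) b.pi).1 w))
  have t2 := K.ip2 ((r3 b).1 ((fp1 (g3 b) b.pi).1 w))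
  have t3 := K.ip1 ((r4 b).1 w)
  unfold Fra.hh at h
  have e1 : K.ip ((fp1 (g2 b) b.pi).1 ((fp1 (g3 b) b.pi).1 w)) = -1 := by linarith
  have e2 : K.ip ((r3 b).1 ((fp1 (g3 b) b.pi).1 w)) = 1 := by linarith
  have e3 : K.ip ((r4 b).1 w) = -1 := by linarith
  rw [hip] at e1 e2 e3
  have c1 : w.1.1.1.1.1.2 = rev (w.1.1.1.1.1.1 : Gs M) := rev_of_ip (𝒜 := 𝒜) hB (hE.1 1) e1
  have c2 : w.1.1.1.2 = w.1.1.1.1.1.1 := eq_of_ip (𝒜 := 𝒜) (hE.1 2) e2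
  have c3 : w.1.2 = rev (w.1.1.1.1.1.1 : Gs M) := rev_of_ip (𝒜 := 𝒜) hB (hE.1 3) e3
  exact Subtype.ext (Prod.ext (Subtype.ext (Prod.ext (Subtype.ext (Prod.ext rfl c1)) c2)) c3)

variable {b}

/-- **`RhoK`** -/
theorem exists_RhoK (hB : Bl M) (hb : ∀ c, b.pi.1 c = (gF hB).1 c) (K : Fra b)
    (hip : ∀ w : (T2 b).pt, K.ip w = ⟪𝒜.vel (w.1.1 : Gs M).1 0, 𝒜.vel (w.1.2 : Gs M).1 0⟫)
    {u : Om (spM 𝒜)}
    {cΛ : Circ (spO 𝒜)} {fΛ : SMap (spO 𝒜) (spM 𝒜)} {Du : Deg (2 * 3 + 2) u} {du : dO (spM 𝒜) u = 0} {u3 : u ^ 3 = 0}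
    {E : Om (spL 𝒜 δ)} {dE : dO (spL 𝒜 δ) E = (iL 𝒜 δ).pull (TT cΛ fΛ u)} {DE : Deg 28 E}
    (S : ShU (⟨spO 𝒜, cΛ, fΛ, spL 𝒜 δ, iL 𝒜 δ, Du, du, u3, E, dE, DE⟩ : Pln (spM 𝒜) u) K)
    {Y : Space} {bY : EB 20 Y (spG 𝒜)} (EY : YK K bY.B) (hY : ∀ y : Y.pt, (fun _ : V 0 => y) ∈ Y.Pl 0) :
    ∃ R : RhoK S EY, ∃ h, R.R.r = catO (𝒜 := 𝒜) (S.e.comp EY.Φ) (S.H.r.comp R.ΦU.up) h := by
  have far : ∀ y, 1 / 100 < K.hh (EY.Φ.1 (y, 1)) := by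
    intro y
    obtain ⟨z, ξ, hξ, h1, -⟩ := cover K bY.B EY (hY y)
    rw [← h1, EY.hΦ]
    refine K.far _ ?_
    show 1 / 2 < ‖toE ((1 * ‖toE ξ‖⁻¹) • (EY.A z).mulVec ξ)‖
    have h2 := norm_toE_pos hξ
    have h3 := EY.hA1 z ξ
    rw [norm_smul_V, one_mul, abs_of_pos (inv_pos.2 h2)]
    have h4 : ‖toE ξ‖⁻¹ * ‖toE ξ‖ = 1 := inv_mul_cancel₀ h2.ne'
    have h5 := mul_le_mul_of_nonneg_left h3 (inv_pos.2 h2).le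
    linarith
  have hη := S.hη
  obtain ⟨ΦU, hΦU⟩ : ∃ ΦU : SMap Y (sub (T4 b) S.U), ∀ y, (ΦU.1 y).1 = EY.Φ.1 (y, 1) :=
    ⟨⟨fun y => ⟨EY.Φ.1 (y, 1), show S.η < K.hh _ by linarith [far y]⟩, fun k p => (EY.Φ.comp (jO Y 1)).2 k p⟩, fun _ => rfl⟩
  have hcat : ∀ y, (S.e.comp EY.Φ).1 (y, 1) = (S.H.r.comp ΦU.up).1 (y, 0) := fun y => by
    refine Eq.trans ?_ (S.hst (ΦU.1 y)).symm
    rw [hΦU]
    rfl
  refine ⟨⟨ΦU, hΦU, fun y => (far y).le, dg b hB hb, fun y => ?_, ⟨catO (𝒜 := 𝒜) (S.e.comp EY.Φ) (S.H.r.comp ΦU.up) hcat,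
    S.H.e.comp ΦU, fun y => ?_⟩, K_catO _ _ hcat _, fun _ => rfl⟩, hcat, rfl⟩
  · obtain ⟨z, ξ, hξ, h1, h2⟩ := cover K bY.B EY (hY y)
    have h3 : EY.Φ.1 (y, 0) = K.ΦZ.1 (EY.g.1 z, 0) := by
      rw [← h1, EY.hΦ, zero_mul, zero_smul]
    rw [h3, eq_dg b hB hb K hip (hh_zero K _), ← h2]
    rfl
  · exact (catO_one _ _ hcat y).trans (S.H.he (ΦU.1 y))

end Pool.Agent.Lib.MP_ccbbf6_gt.K7.SU
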