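import Pool.Agent.Lib.MP_ccbbf6_gt.K7.ASM7b
import Pool.Agent.Lib.MP_ccbbf6_gt.K7.FB5
import Pool.Agent.Lib.MP_ccbbf6_gt.K7.FB6
import Pool.Agent.Lib.MP_ccbbf6_gt.K7.FC3
import Pool.Agent.Lib.MP_ccbbf6_gt.K7.OG3
import Pool.Agent.Lib.MP_ccbbf6_gt.K7.SU5

/-!
# `κ = 7`, assembly, part c: block F from the comparison (F-C) and the fibre integral (F-D) (helper56)

`exists_PrO` : the vanishing theorem with class maps; `KD`, `e2D` : the frames and the loops of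
`K2 → UM`; `RRD` : the shortening `R` of the doubled geodesics; `HypC`, `HypJ` : the remaining hypotheses; `hypF_of`.
-/

set_option autoImplicit false
set_option maxSynthPendingDepth 3

open Set Filter Topology Real Matrix MeasureTheory
open scoped ContDiff RealInnerProductSpace

noncomputable section

namespace Pool.Agent.Lib.MP_ccbbf6_gt.K7.ASM

open Geo L4 L4.ORI L4.FR L5 L5.NEG GysD RG PN SU

variable {M : Type} [MetricSpace M] [CompactSpace M] {𝒜 : SDist (15 + 1) M} {hB : Bl M} {δ : ℝ}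

section W

variable (D : GeoD 𝒜 hB 7 2)

theorem u3 : D.u ^ 3 = 0 :=
  D.coh.big (Deg_pow D.Du 3) (by norm_num)

/-- **the vanishing theorem with class maps** -/
theorem exists_PrO (hδ : 0 < δ) (hδ4 : δ ≤ π / 4) : ∃ (V : VanD (spM 𝒜) D.u (Lc 𝒜 δ)) (Q : PrO 𝒜 δ D.u),
    ∀ {X : Space} {c : Circ X} {A : Om X} {f : SMap X (spM 𝒜)} (_ : Cnn c A) (h : Lc 𝒜 δ c f), ∃ z : Om X, Deg 27 z ∧
      V.NP c A f + V.k1 • (A * (dO X A ^ 6 * (ub c f D.u * xb c f D.u))) + V.k2 • (A * (dO X A ^ 10 * xb c f D.u)) =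
        (gLc h).pull Q.E + dO X z := by
  have hδ1 : δ ≤ π := hδ4.trans (by linarith [pi_pos])
  obtain ⟨V, E0, DE, kE, dE, H⟩ := van_E hB D.coh rfl rfl D.hk hδ hδ4 hδ1 D.cG
    ((foot hB 0).pl ⟨fun _ => gvg 𝒜 hB D.f0.1.1 (D.f0.1.2 0) (D.f0.2.2.1 0), ⟨sm_const _, sm_const _⟩⟩)
  exact ⟨V, ⟨D.Du, D.du, u3 D, E0, dE, DE⟩, fun hA h => H hA h⟩

/-- the frames of `V` -/
def KD : Fra D.B2 := fraV hB D.hk D.hL D.Deg_b D.orV D.hκ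

theorem hbD (c : (spG 𝒜).pt) : D.B2.pi.1 c = (gF hB).1 c := rfl

theorem hipD (w : (T2 D.B2).pt) : (KD D).ip w = ⟪𝒜.vel (w.1.1 : Gs M).1 0, 𝒜.vel (w.1.2 : Gs M).1 0⟫ := rfl

/-- the loops of `K2 → UM` -/
def e2D {d : ℝ} (hd0 : 0 < d) (hd : d ≤ π / 2) : SMap (T4 D.B2) (spO 𝒜) :=
  (iOd 𝒜 d).comp (e2 D.B2 hB (hbD D) hd0 hd)

end W

variable [MeasurableSpace M] [BorelSpace M]

/-- block F-D : the fibre integral of `T` -/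
def HypJ (𝒜 : SDist (15 + 1) M) (hB : Bl M) : Prop :=
  ∀ (D : GeoD 𝒜 hB 7 2) (_ : Gd7 D) {d : ℝ} (hd0 : 0 < d) (hd : d ≤ π / 2), ∃ s : ℝ, (s = 1 ∨ s = -1) ∧
    ∃ z : Om (spG 𝒜), Deg 7 z ∧
      J4 D.B2 ((e2D D hd0 hd).pull (TT (cLO 𝒜) (fLO 𝒜) D.u)) - (3 * s) • D.coh.foot.pull D.u = dO (spG 𝒜) z

/-- the shortening of the doubled geodesics as a relative family -/
def RRD {D : GeoD 𝒜 hB 7 2} (G : Geo7 𝒜 7 hB) (Q : PrO 𝒜 δ D.u)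
    (h2 : Lc 𝒜 δ (circY hB G.hN) (G.D.R.comp (jO (spY 𝒜 G.P) 1))) : Q.W.Rl (spY 𝒜 G.P) :=
  ⟨gLO (xRc (circY hB G.hN)) G.D.R, gLc h2, fun y => by
    have h3 := gLO_nat G.D.R (Eqv_j (circY hB G.hN) 1)
    exact (congrArg (fun f : SMap (spY 𝒜 G.P) (spO 𝒜) => f.1 y) (h3.symm.trans (iL_gLc h2).symm))⟩

/-- block F-C : the comparison with the family `rho_K` -/
def HypC (𝒜 : SDist (15 + 1) M) (hB : Bl M) (G : Geo7 𝒜 7 hB) : Prop :=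
  ∀ (D : GeoD 𝒜 hB 7 2) (_ : Gd7 D) (hb : KBun (bKo hB D.hk D.hL D.Deg_b D.orV D.hκ)) {ν : ℝ}
    (hν : L5.fn (spN 𝒜 G.P) (CH.sgX D.hk G.hN hb) = algebraMap ℝ _ ν) {δ : ℝ} (_ : 0 < δ) (_ : δ ≤ π / 4)
    (h1 : Lc 𝒜 δ (xRc (circN hB G.hN)) (FN G.hF)) (h2 : Lc 𝒜 δ (circY hB G.hN) (G.D.R.comp (jO (spY 𝒜 G.P) 1)))
    (h3 : Lc 𝒜 δ (xRc (dblc (circN hB G.hN))) ((FN G.hF).comp (rp (spN 𝒜 G.P) G.D.σ2 G.D.s2))),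
    ∃ (d : ℝ) (hd0 : 0 < d) (hd : d ≤ π / 2) (EY : YK (KD D) (gysD7 D G.D hb hν h1 h2 h3).b.B),
      ∀ (Q : PrO 𝒜 δ D.u) (S : ShU Q.W (KD D)) (_ : FC.GS (Du := Q.Du) (du := Q.du) (u3 := Q.u3) (dE := Q.dE) (DE := Q.DE)
        hB hd0 S (e2 D.B2 hB (hbD D) hd0 hd)) (R : RhoK S EY),
        Pln.Rl.RelP (gysD7 D G.D hb hν h1 h2 h3).b.B.pi (RRD G Q h2) R.R

/-- **block F** -/
theorem hypF_of (G : Geo7 𝒜 7 hB) (HC : HypC 𝒜 hB G) (HJ : HypJ 𝒜 hB) : HypF 𝒜 hB G := by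
  intro D hG hb ν hν δ hδ hδ4 h1 h2 h3
  obtain ⟨V, Q, H⟩ := exists_PrO D hδ hδ4
  obtain ⟨d, hd0, hd, EY, hC⟩ := HC D hG hb hν hδ hδ4 h1 h2 h3
  obtain ⟨S, hS⟩ := FC.exists_ShU' hB (hbD D) (KD D) (hipD D) hd0 hd (hδ4.trans_lt (by linarith [pi_pos]))
    (cΛ := cLO 𝒜) (fΛ := fLO 𝒜) (Du := Q.Du) (du := Q.du) (u3 := Q.u3) (dE := Q.dE) (DE := Q.DE)
  obtain ⟨R, h, hR⟩ := exists_RhoK hB (hbD D) (KD D) (hipD D) S EY fun y => spN_const y 0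
  obtain ⟨s, hs, z, hz, hJ⟩ := HJ D hG hd0 hd
  refine ⟨V, (gysD7 D G.D hb hν h1 h2 h3).hF_of (Q.loopD H) R (hC Q S hS R) hs ⟨z, hz, ?_⟩⟩
  rw [hS.he]
  exact hJ

/-- **`κ = 7`, `n = 16`: the model** -/
theorem model_seven_of' [Nonempty M] (hk : 𝒜.HK 7) (Hb : HypB 𝒜 hB) (G : Geo7 𝒜 7 hB) (HC : HypC 𝒜 hB G)
    (HJ : HypJ 𝒜 hB) : Blaschke.IsModel 16 7 M :=
  model_seven_of hB hk Hb G (hypF_of G HC HJ)

end Pool.Agent.Lib.MP_ccbbf6_gt.K7.ASM
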