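import Pool.Agent.Lib.MP_ccbbf6_gt.K7.FL5
import Pool.Agent.Lib.MP_ccbbf6_gt.L5.ZCx

/-!
# `κ = 7`, block FL, part 6: **the smooth filling with length control** (helper18; for helper93's block RG)

`exists_fillPL`: a filling `f` of the negative bundle (`FillP`) such that for every `r > 0` there is `L < 1` with
`t ↦ f (shift t c) x` `L`-Lipschitz for all `c`, `x` in the fibre with `r ≤ ‖x‖`, and `1`-Lipschitz for all `x`.
-/

set_option autoImplicit false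
set_option linter.unusedSectionVars false

open Set Filter Topology Metric Real Module
open scoped ContDiff RealInnerProductSpace

noncomputable section

namespace Pool.Agent.Lib.MP_ccbbf6_gt.K7.FL

open Geo L4 L4.ORI L5 L5.NEG

variable {n : ℕ} {M : Type*} [MetricSpace M] [CompactSpace M] {𝒜 : SDist n M}

/-- the map on the total space, strong form, with uniform length control -/
theorem exists_fillSL [Nonempty (Gs M)] (hB : Bl M) (e : Emb n 𝒜) {κ N : ℕ} {C : Eu N → Gs M → M} {P : Gs M → Eu N →L[ℝ] Eu N}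
    (hN : NegData 𝒜 κ hB C P) : ∃ F : Eu N → Gs M → M,
      (∀ (E : Type) [NormedAddCommGroup E] [NormedSpace ℝ E] (σ : E → Gs M) (x : E → Eu N) (u : E), SmGAt 𝒜 σ u →
        ContDiffAt ℝ ∞ x u → SmAt 𝒜 (fun v => F (x v) (σ v)) u) ∧
      (∀ x c, F (P c x) c = F x c) ∧
      (∃ ρ, 0 < ρ ∧ ∀ x c, P c x = x → ‖x‖ ≤ ρ → F x c = Cx 𝒜 C x c) ∧
      (∀ x c, P c x = x → 1 ≤ ‖x‖ → F x c = F (‖x‖⁻¹ • x) c) ∧
      (∀ x c t, P c x = x → 1 ≤ ‖x‖ → F x (shift t c) = F x c) ∧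
      (∀ x c, P c x = x → x ≠ 0 → ∀ s s', dist (F x (shift s c)) (F x (shift s' c)) < π) ∧
      (∀ r, 0 < r → ∃ L : ℝ, 0 ≤ L ∧ L < 1 ∧ ∀ c x, P c x = x → r ≤ ‖x‖ → CO.Lip L (fun t => F x (shift t c))) ∧
      (∀ c x, P c x = x → CO.Lip 1 (fun t => F x (shift t c))) := by
  have hπ := Real.pi_pos
  obtain ⟨δ, hδ, hpos⟩ := hN.pos
  obtain ⟨θ₀, hθ₀, hlip⟩ := hN.fam.lip_Cx hB e (ε := δ / (2 * π)) (by positivity)
  refine exists_totalL hB hN.pb (Co := fun x c => Cx 𝒜 C x c) hθ₀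
    (fun E _ _ σ x u hσ hx _ => hN.fam.smooth_Cx hB e hσ hx) (fun r hr => ?_) (fun c => ?_)
  · refine ⟨√(1 - r ^ 2 * (δ / (2 * π))), Real.sqrt_nonneg _, ?_, fun c x hx hrx hxR => ?_⟩
    · rw [Real.sqrt_lt' one_pos, one_pow]
      have : 0 < r ^ 2 * (δ / (2 * π)) := by positivity
      linarith
    · obtain ⟨θ, hθd⟩ : ∃ θ, θ = ‖x‖ := ⟨_, rfl⟩
      have hθ : 0 < θ := by rw [hθd]; linarith
      have hxi : ‖θ⁻¹ • x‖ = 1 := by
        rw [norm_smul, norm_inv, Real.norm_eq_abs, abs_of_pos hθ, ← hθd, inv_mul_cancel₀ hθ.ne']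
      have hxP : P c (θ⁻¹ • x) = θ⁻¹ • x := by rw [map_smul, hx]
      have h2 := hlip θ (by rw [abs_of_pos hθ, hθd]; exact hxR) c (θ⁻¹ • x) hxi.le
      have h3 := hpos c (θ⁻¹ • x) hxP
      rw [hxi, one_pow, mul_one] at h3
      have h4 : θ • θ⁻¹ • x = x := by rw [smul_smul, mul_inv_cancel₀ hθ.ne', one_smul]
      rw [h4] at h2
      intro s t
      refine (h2 s t).trans (mul_le_mul_of_nonneg_right (Real.sqrt_le_sqrt ?_) (abs_nonneg _))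
      have h5 : π⁻¹ * δ ≤ π⁻¹ * QB 𝒜 C c (θ⁻¹ • x) (θ⁻¹ • x) := mul_le_mul_of_nonneg_left h3 (by positivity)
      have h6 : θ ^ 2 * (π⁻¹ * δ) ≤ θ ^ 2 * (π⁻¹ * QB 𝒜 C c (θ⁻¹ • x) (θ⁻¹ • x)) :=
        mul_le_mul_of_nonneg_left h5 (by positivity)
      have h7 : θ ^ 2 * (π⁻¹ * δ) = 2 * (θ ^ 2 * (δ / (2 * π))) := by
        field_simp
      rw [h7] at h6
      have h8 : δ / (2 * π) * θ ^ 2 = θ ^ 2 * (δ / (2 * π)) := mul_comm _ _
      have h9 : r ^ 2 ≤ θ ^ 2 := pow_le_pow_left₀ hr.le (by rw [hθd]; exact hrx) 2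
      have h10 : r ^ 2 * (δ / (2 * π)) ≤ θ ^ 2 * (δ / (2 * π)) := mul_le_mul_of_nonneg_right h9 (by positivity)
      rw [h8]
      linarith
  · have h2 := hlip 0 (by rw [abs_zero]; exact hθ₀) c 0 (by rw [norm_zero]; exact zero_le_one)
    have h3 : √(1 - (0 : ℝ) ^ 2 * (π⁻¹ * QB 𝒜 C c (0 : Eu N) (0 : Eu N)) + δ / (2 * π) * (0 : ℝ) ^ 2) = 1 := by
      rw [show (1 - (0 : ℝ) ^ 2 * (π⁻¹ * QB 𝒜 C c (0 : Eu N) (0 : Eu N)) + δ / (2 * π) * (0 : ℝ) ^ 2) = 1 by ring, Real.sqrt_one]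
    rw [h3, zero_smul] at h2
    exact h2

/-- **The smooth filling with length control.** -/
theorem exists_fillPL [Nonempty (Gs M)] (hB : Bl M) (e : Emb n 𝒜) {κ N : ℕ} {C : Eu N → Gs M → M} {P : Gs M → Eu N →L[ℝ] Eu N}
    (hN : NegData 𝒜 κ hB C P) : ∃ f : Gs M → Eu N → M, FillP 𝒜 C P f ∧
      (∀ r : ℝ, 0 < r → ∃ L : ℝ, 0 ≤ L ∧ L < 1 ∧ ∀ (c : Gs M) (x : Eu N), P c x = x → r ≤ ‖x‖ →
        CO.Lip L (fun t => f (shift t c) x)) ∧
      (∀ (c : Gs M) (x : Eu N), P c x = x → CO.Lip 1 (fun t => f (shift t c) x)) := by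
  obtain ⟨F, f1, -, ⟨ρ, hρ, f3⟩, f4, f5, f6, f7, f8⟩ := exists_fillSL hB e hN
  refine ⟨fun c x => F x c, ⟨?_, ?_, ?_, ?_, ?_⟩, f7, f8⟩
  · intro F' _ _ σ x hσ hx _ u
    exact f1 F' σ x u (hσ.atP u) hx.contDiffAt
  · refine ⟨1, ρ, one_pos, hρ, fun c x hx h => ?_⟩
    rw [one_smul]
    exact f3 x c hx h
  · exact fun c x hx h => f4 x c hx h
  · exact fun c x t hx h => f5 x c t hx h
  · exact fun c x hx h0 a b => f6 x c hx h0 a b

end Pool.Agent.Lib.MP_ccbbf6_gt.K7.FL
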