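import Pool.Agent.Lib.MP_ccbbf6_gt.K7.PF5
import Pool.Agent.Lib.MP_ccbbf6_gt.L5.COH4

/-!
# `κ = 7`, block F-D, part 6: the input `hJ` for the bundle `UM → FM` of a Blaschke manifold (helper79)
-/

set_option autoImplicit false
set_option maxSynthPendingDepth 3
set_option linter.unusedSectionVars false

open Set Filter Topology Metric Real Module
open scoped ContDiff RealInnerProductSpace

noncomputable section

namespace Pool.Agent.Lib.MP_ccbbf6_gt.K7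

open Geo L4 L4.ORI L4.FR L5 SU HQ

variable {N : ℕ} {M : Type} [MetricSpace M] [CompactSpace M] {𝒜 : SDist (N + 1) M} {hB : Bl M}

/-- **(F-D)** -/
theorem hJ_geo (D : GeoD 𝒜 hB 7 2) {d : ℝ} (hb : ∀ c, D.B2.pi.1 c = (gF hB).1 c) (hd0 : 0 < d) (hd : d ≤ π / 2) :
    ∃ s : ℝ, (s = 1 ∨ s = -1) ∧ ∃ z : Om (spG 𝒜), Deg 7 z ∧
      J4 D.B2 (((iOd 𝒜 d).comp (e2 D.B2 hB hb hd0 hd)).pull (TT (cLO 𝒜) (fLO 𝒜) D.u)) - (3 * s) • D.coh.foot.pull D.u =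
        dO (spG 𝒜) z := by
  have e : D.coh.foot = foot hB 0 := SMap_ext fun c => by
    show c.1 (π * 0) = c.1 0
    rw [mul_zero]
  obtain ⟨z, h1, h2⟩ := J4_e2 hB D.B2 hb hd0 hd (u := D.u) D.Du D.du D.V1'
  refine ⟨-1, Or.inr rfl, z, h1, ?_⟩
  rw [e]
  exact h2

end Pool.Agent.Lib.MP_ccbbf6_gt.K7
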