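import Pool.Agent.Lib.MP_ccbbf6_gt.K7.ASM7c
import Pool.Agent.Lib.MP_ccbbf6_gt.K7.FL6
import Pool.Agent.Lib.MP_ccbbf6_gt.K7.PF6
import Pool.Agent.Lib.MP_ccbbf6_gt.L5.RG10

/-!
# `κ = 7`, assembly, part d: blocks b, F-D and HL are discharged (helper56)

`hypB` (helper67), `hypJ` (helper79), `exists_fillPL` (helper18). `model_seven_ofX` : left are the twisted densities `HG` (with any
further property `X`) and the comparison `HypC` for the package `Geo7`.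
-/

set_option autoImplicit false
set_option maxSynthPendingDepth 3

open Set Filter Topology Real Matrix MeasureTheory
open scoped ContDiff RealInnerProductSpace

noncomputable section

namespace Pool.Agent.Lib.MP_ccbbf6_gt.K7.ASM

open Geo L4 L4.ORI L4.FR L5 L5.NEG GysD RG PN SU

variable {M : Type} [MetricSpace M] [CompactSpace M] {𝒜 : SDist (15 + 1) M} {hB : Bl M}

/-- block F-D -/
theorem hypJ (𝒜 : SDist (15 + 1) M) (hB : Bl M) : HypJ 𝒜 hB := fun D _ _ hd0 hd => hJ_geo D (hbD D) hd0 hd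

variable [MeasurableSpace M] [BorelSpace M]

/-- block b -/
theorem hypB (𝒜 : SDist (15 + 1) M) (hB : Bl M) : HypB 𝒜 hB := fun D hG t _ _ c1 c2 c3 c5 => by
  obtain ⟨p, ψ, Bf, hc⟩ := hG.hc
  exact L5.RG.b_sq D t hc c1 c2 c3 c5

/-- from the comparison `HypC` for one package -/
theorem model_seven_ofC [Nonempty M] (hk : 𝒜.HK 7) (G : Geo7 𝒜 7 hB) (HC : HypC 𝒜 hB G) : Blaschke.IsModel 16 7 M :=
  model_seven_of' hk (hypB 𝒜 hB) G HC (hypJ 𝒜 hB)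

omit [MeasurableSpace M] [BorelSpace M] in
theorem nonempty_Gs [Nonempty M] (hB : Bl M) (hk : 𝒜.HK 7) : Nonempty (Gs M) := by
  obtain ⟨p⟩ : Nonempty M := inferInstance
  obtain ⟨o, ho, g, hh, hU⟩ := exists_UDG (𝒜 := 𝒜) (l := 3) (by norm_num) hB hk p
  obtain ⟨m, hm, hdim, hD⟩ := exists_GeoD (𝒜 := 𝒜) (hB := hB) (κ := 7) hk (by decide) (by norm_num) hU p
  obtain rfl : m = 2 := by omega
  obtain ⟨D, -⟩ := hD le_rfl
  exact ⟨gvg 𝒜 hB D.f0.1.1 (D.f0.1.2 0) (D.f0.2.2.1 0)⟩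

/-- from the twisted densities and the comparison `HypC` -/
theorem model_seven_ofX [Nonempty M] (hk : 𝒜.HK 7)
    (X : ∀ (e : Emb (15 + 1) 𝒜) (N : ℕ), (e.Q → (Eu N →L[ℝ] EuclideanSpace ℝ (Fin e.q))) → (Gs M → Eu N →L[ℝ] Eu N) →
      (Eu N → Eu N → Gs M → Eu (15 + 1)) → Prop)
    (HG : ∀ (e : Emb (15 + 1) 𝒜) (N : ℕ) (Φ : e.Q → (Eu N →L[ℝ] EuclideanSpace ℝ (Fin e.q))) (C : Eu N → Gs M → M)
      (P : Gs M → Eu N →L[ℝ] Eu N), ContDiff ℝ ∞ Φ → NegData 𝒜 7 hB C P →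
      (∀ c ξ, QB 𝒜 C c ξ ξ = QW 𝒜 hB (kf e Φ ξ) c) → ∃ kG : Eu N → Eu N → Gs M → Eu (15 + 1), GKer 𝒜 hB P kG ∧ X e N Φ P kG)
    (HC : ∀ G : Geo7 𝒜 7 hB, X G.e G.N G.Φ G.P G.kG → HypC 𝒜 hB G) : Blaschke.IsModel 16 7 M := by
  obtain ⟨e⟩ := exists_emb 𝒜
  have := nonempty_Gs hB hk
  obtain ⟨G, -, hX⟩ := exists_Geo7X (𝒜 := 𝒜) hB e hk X (HG e) fun N C P hN => by
    obtain ⟨f, h1, h2, h3⟩ := FL.exists_fillPL hB e hN
    exact ⟨f, h1, h2⟩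
  exact model_seven_ofC hk G (HC G hX)

end Pool.Agent.Lib.MP_ccbbf6_gt.K7.ASM
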