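import Pool.Agent.Lib.MP_ccbbf6_gt.K7.DP4
import Pool.Agent.Lib.MP_ccbbf6_gt.K7.SU2

/-!
# `κ = 7`, density path, part 11b: the midpoints of the sides of a quadruple near the diagonal (helper25)

* `k8_ra` : the midpoints of the quadruple `(c, nrm (- 3 c + s y2), nrm (3 c + s y3), nrm (- 3 c + s y4))` are the rotated
  arcs `ra` with `r = (0, - y2 / 3, y3 / 3, - y4 / 3)`.
* `vel8_k8` : hence their velocities are `av`.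
* `k8_lt` : `E8 < 2 π ^ 2` away from the diagonal.
-/

set_option autoImplicit false
set_option linter.unusedSectionVars false

open Set Filter Topology Metric Real Module
open scoped ContDiff RealInnerProductSpace

noncomputable section

namespace Pool.Agent.Lib.MP_ccbbf6_gt.K7.DP

open Geo L4 L4.ORI L5 L5.NEG HQ SU

variable {n : ℕ} {M : Type} [MetricSpace M] [CompactSpace M] {𝒜 : SDist n M}

theorem nrm_neg' {w : Eu n} : nrm (-w) = -nrm w := by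
  unfold nrm
  rw [norm_neg, smul_neg]

theorem nrm_pos {w : Eu n} {a : ℝ} (ha : 0 < a) : nrm (a • w) = nrm w := by
  unfold nrm
  rw [norm_smul, Real.norm_eq_abs, abs_of_pos ha, smul_smul, mul_inv, mul_assoc, mul_comm (‖w‖⁻¹) a, ← mul_assoc,
    inv_mul_cancel₀ ha.ne', one_mul]

theorem gw_of_vel (hB : Bl M) {c g : Gs M} {w : Eu n} (hw : w ≠ 0) (h0 : g.1 0 = c.1 0) (hv : 𝒜.vel g.1 0 = nrm w) :
    g = gw 𝒜 hB c w :=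
  eq_of_vel' 𝒜 (by rw [h0, gw_zero]) (by rw [hv, gw_vel 𝒜 hB c hw])

theorem gw_pos (hB : Bl M) (c : Gs M) {w : Eu n} (hw : w ≠ 0) {a : ℝ} (ha : 0 < a) : gw 𝒜 hB c (a • w) = gw 𝒜 hB c w := by
  refine gw_of_vel hB hw (gw_zero 𝒜 hB c _) ?_
  rw [gw_vel 𝒜 hB c (smul_ne_zero ha.ne' hw), nrm_pos ha]

theorem gw_neg (hB : Bl M) (c : Gs M) {w : Eu n} (hw : w ≠ 0) : gw 𝒜 hB c (-w) = rev (gw 𝒜 hB c w) := by
  refine eq_of_vel' 𝒜 ?_ ?_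
  · rw [gw_zero]
    show c.1 0 = (gw 𝒜 hB c w).1 (-0)
    rw [neg_zero, gw_zero]
  · rw [vel_rev0 hB, gw_vel 𝒜 hB c (neg_ne_zero.2 hw), gw_vel 𝒜 hB c hw, nrm_neg']

/-- the odd geodesics -/
theorem gw_m3 (hB : Bl M) {c g : Gs M} {y : Eu n} (hy : ⟪𝒜.vel c.1 0, y⟫ = 0) (s : ℝ) (h0 : g.1 0 = c.1 0)
    (hv : 𝒜.vel g.1 0 = nrm ((-3 : ℝ) • 𝒜.vel c.1 0 + s • y)) :
    g = rev (gw 𝒜 hB c (𝒜.vel c.1 0 + s • (-(1 / 3 : ℝ) • y))) := by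
  have h1 : 𝒜.vel c.1 0 + s • (-(1 / 3 : ℝ) • y) ≠ 0 := by
    refine add_ne c (a := -(1 / 3 : ℝ) • y) ?_ s
    rw [real_inner_smul_right, hy, mul_zero]
  have h2 : (-3 : ℝ) • 𝒜.vel c.1 0 + s • y = (3 : ℝ) • -(𝒜.vel c.1 0 + s • (-(1 / 3 : ℝ) • y)) := by
    rw [smul_neg, smul_add, smul_smul, smul_smul, neg_add, ← neg_smul, ← neg_smul]
    congr 2
    ring
  have h3 : (-3 : ℝ) • 𝒜.vel c.1 0 + s • y ≠ 0 := by
    rw [h2]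
    exact smul_ne_zero (by norm_num) (neg_ne_zero.2 h1)
  rw [gw_of_vel hB h3 h0 hv, h2, gw_pos hB c (neg_ne_zero.2 h1) (by norm_num), gw_neg hB c h1]

/-- the even geodesics -/
theorem gw_p3 (hB : Bl M) {c g : Gs M} {y : Eu n} (hy : ⟪𝒜.vel c.1 0, y⟫ = 0) (s : ℝ) (h0 : g.1 0 = c.1 0)
    (hv : 𝒜.vel g.1 0 = nrm ((3 : ℝ) • 𝒜.vel c.1 0 + s • y)) :
    g = gw 𝒜 hB c (𝒜.vel c.1 0 + s • ((1 / 3 : ℝ) • y)) := by
  have h1 : 𝒜.vel c.1 0 + s • ((1 / 3 : ℝ) • y) ≠ 0 := by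
    refine add_ne c (a := (1 / 3 : ℝ) • y) ?_ s
    rw [real_inner_smul_right, hy, mul_zero]
  have h2 : (3 : ℝ) • 𝒜.vel c.1 0 + s • y = (3 : ℝ) • (𝒜.vel c.1 0 + s • ((1 / 3 : ℝ) • y)) := by
    rw [smul_add, smul_smul, smul_smul]
    congr 2
    ring
  have h3 : (3 : ℝ) • 𝒜.vel c.1 0 + s • y ≠ 0 := by
    rw [h2]
    exact smul_ne_zero (by norm_num) h1
  rw [gw_of_vel hB h3 h0 hv, h2, gw_pos hB c h1 (by norm_num)]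

/-- the rotations of the arcs of a quadruple -/
def rk (y : Fin 3 → Eu n) : Fin 4 → Eu n := ![0, -(1 / 3 : ℝ) • y 0, (1 / 3 : ℝ) • y 1, -(1 / 3 : ℝ) • y 2]

/-- the quadruple `(c, nrm (- 3 c + s y2), nrm (3 c + s y3), nrm (- 3 c + s y4))` -/
structure Qd (𝒜 : SDist n M) (c : Gs M) (y : Fin 3 → Eu n) (s : ℝ) (g : Fin 4 → Gs M) : Prop where
  z0 : g 0 = c
  z1 : (g 1).1 0 = c.1 0
  z2 : (g 2).1 0 = c.1 0
  z3 : (g 3).1 0 = c.1 0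
  v1 : 𝒜.vel (g 1).1 0 = nrm ((-3 : ℝ) • 𝒜.vel c.1 0 + s • y 0)
  v2 : 𝒜.vel (g 2).1 0 = nrm ((3 : ℝ) • 𝒜.vel c.1 0 + s • y 1)
  v3 : 𝒜.vel (g 3).1 0 = nrm ((-3 : ℝ) • 𝒜.vel c.1 0 + s • y 2)

/-- **the midpoints of the sides are the rotated arcs** -/
theorem k8_ra (hB : Bl M) {c : Gs M} {y : Fin 3 → Eu n} (hy : ∀ j, ⟪𝒜.vel c.1 0, y j⟫ = 0) {s : ℝ} {g : Fin 4 → Gs M}
    (h : Qd 𝒜 c y s g) : k8 g = ra 𝒜 hB c (rk y) s := by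
  have e0 : c = gw 𝒜 hB c (𝒜.vel c.1 0 + s • (0 : Eu n)) := by
    rw [smul_zero, add_zero, gw_vel_self]
  have e1 := gw_m3 hB (hy 0) s h.z1 h.v1
  have e2 := gw_p3 hB (hy 1) s h.z2 h.v2
  have e3 := gw_m3 hB (hy 2) s h.z3 h.v3
  have hper : ∀ (g : Gs M) (t : ℝ), g.1 (t + 2 * π) = g.1 t := fun g t => by
    have := per_nat 𝒜 hB g t 1
    rw [Nat.cast_one, one_mul] at this
    exact this
  have hv : ∀ j : ℕ, j < 8 → ((j : ZMod 8)).val = j := fun j hj => ZMod.val_cast_of_lt hj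
  funext i
  show k8 g i = (gw 𝒜 hB c (𝒜.vel c.1 0 + s • rk y (arc i))).1 (t8 i)
  unfold t8
  rcases z8 i with rfl | rfl | rfl | rfl | rfl | rfl | rfl | rfl
  · show (g 0).1 (π / 4) = (gw 𝒜 hB c (𝒜.vel c.1 0 + s • (0 : Eu n))).1 (π / 4 + ((0 : ℕ) : ℝ) * (π / 2))
    rw [h.z0, ← e0]
    push_cast
    ring_nf
  · show (g 0).1 (3 * π / 4) = (gw 𝒜 hB c (𝒜.vel c.1 0 + s • (0 : Eu n))).1 (π / 4 + ((1 : ℕ) : ℝ) * (π / 2))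
    rw [h.z0, ← e0]
    push_cast
    ring_nf
  · show (g 1).1 (3 * π / 4) = (gw 𝒜 hB c (𝒜.vel c.1 0 + s • (-(1 / 3 : ℝ) • y 0))).1 (π / 4 + ((2 : ℕ) : ℝ) * (π / 2))
    rw [e1]
    show (gw 𝒜 hB c _).1 (-(3 * π / 4)) = _
    rw [← hper]
    push_cast
    ring_nf
  · show (g 1).1 (π / 4) = (gw 𝒜 hB c (𝒜.vel c.1 0 + s • (-(1 / 3 : ℝ) • y 0))).1 (π / 4 + ((3 : ℕ) : ℝ) * (π / 2))
    rw [e1]
    show (gw 𝒜 hB c _).1 (-(π / 4)) = _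
    rw [← hper]
    push_cast
    ring_nf
  · show (g 2).1 (π / 4) = (gw 𝒜 hB c (𝒜.vel c.1 0 + s • ((1 / 3 : ℝ) • y 1))).1 (π / 4 + ((4 : ℕ) : ℝ) * (π / 2))
    rw [e2, ← hper]
    push_cast
    ring_nf
  · show (g 2).1 (3 * π / 4) = (gw 𝒜 hB c (𝒜.vel c.1 0 + s • ((1 / 3 : ℝ) • y 1))).1 (π / 4 + ((5 : ℕ) : ℝ) * (π / 2))
    rw [e2, ← hper]
    push_cast
    ring_nf
  · show (g 3).1 (3 * π / 4) = (gw 𝒜 hB c (𝒜.vel c.1 0 + s • (-(1 / 3 : ℝ) • y 2))).1 (π / 4 + ((6 : ℕ) : ℝ) * (π / 2))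
    rw [e3]
    show (gw 𝒜 hB c _).1 (-(3 * π / 4)) = _
    rw [← hper, ← hper]
    push_cast
    ring_nf
  · show (g 3).1 (π / 4) = (gw 𝒜 hB c (𝒜.vel c.1 0 + s • (-(1 / 3 : ℝ) • y 2))).1 (π / 4 + ((7 : ℕ) : ℝ) * (π / 2))
    rw [e3]
    show (gw 𝒜 hB c _).1 (-(π / 4)) = _
    rw [← hper, ← hper]
    push_cast
    ring_nf

/-- **the velocities of the midpoints** -/
theorem vel8_k8 (hB : Bl M) {c : Gs M} {y : Fin 3 → Eu n} (hy : ∀ j, ⟪𝒜.vel c.1 0, y j⟫ = 0) {g : ℝ → Fin 4 → Gs M}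
    (h : ∀ s, Qd 𝒜 c y s (g s)) : vel8 𝒜 (fun s => k8 (g s)) = av 𝒜 hB c (rk y) := by
  have h1 : (fun s => k8 (g s)) = ra 𝒜 hB c (rk y) := funext fun s => k8_ra hB hy (h s)
  rw [h1, vel8_ra]

/-- rotations by different angles are different -/
theorem rot_inj (hB : Bl M) {c : Gs M} {a : Eu n} (ha : ⟪𝒜.vel c.1 0, a⟫ = 0) {s : ℝ} (hs : s ≠ 0)
    (h : gw 𝒜 hB c (𝒜.vel c.1 0 + s • a) = c) : a = 0 := by
  have h1 := add_ne c ha s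
  have h2 := gw_vel 𝒜 hB c h1
  rw [h] at h2
  have h3 : ⟪𝒜.vel c.1 0, a⟫ = ‖𝒜.vel c.1 0 + s • a‖⁻¹ * (s * ⟪a, a⟫) := by
    conv_lhs => rw [h2]
    unfold nrm
    rw [real_inner_smul_left, inner_add_left, ha, zero_add, real_inner_smul_left]
  rw [ha] at h3
  have h4 : ‖𝒜.vel c.1 0 + s • a‖⁻¹ ≠ 0 := inv_ne_zero (norm_ne_zero_iff.2 h1)
  rcases mul_eq_zero.1 h3.symm with h5 | h5
  · exact absurd h5 h4
  · rcases mul_eq_zero.1 h5 with h6 | h6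
    · exact absurd h6 hs
    · exact inner_self_eq_zero.1 h6

theorem rev_inj {c c' : Gs M} (h : rev c = rev c') : c = c' := by
  have h1 := congrArg rev h
  have h2 : ∀ c : Gs M, rev (rev c) = c := fun c => Subtype.ext (funext fun t => by
    show c.1 (- -t) = c.1 t
    rw [neg_neg])
  rwa [h2, h2] at h1

/-- **the energy away from the diagonal** -/
theorem k8_lt (hB : Bl M) {c : Gs M} {y : Fin 3 → Eu n} (hy : ∀ j, ⟪𝒜.vel c.1 0, y j⟫ = 0) {s : ℝ} (hs : s ≠ 0)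
    {g : Fin 4 → Gs M} (h : Qd 𝒜 c y s g) (hE : Ends g) (hne : y ≠ 0) : E8 (k8 g) < 2 * π ^ 2 := by
  refine lt_of_le_of_ne (E8_k8_le hE) fun he => hne ?_
  obtain ⟨e1, e2, e3⟩ := E8_k8_eq 𝒜 hB hE he
  rw [h.z0] at e1 e2 e3
  rw [gw_m3 hB (hy 0) s h.z1 h.v1] at e1
  rw [gw_p3 hB (hy 1) s h.z2 h.v2] at e2
  rw [gw_m3 hB (hy 2) s h.z3 h.v3] at e3
  have hi : ∀ (j : Fin 3) (a : ℝ), ⟪𝒜.vel c.1 0, a • y j⟫ = 0 := fun j a => by rw [real_inner_smul_right, hy, mul_zero]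
  have k1 := rot_inj hB (hi 0 _) hs (rev_inj e1)
  have k2 := rot_inj hB (hi 1 _) hs e2
  have k3 := rot_inj hB (hi 2 _) hs (rev_inj e3)
  funext j
  fin_cases j
  · exact (smul_eq_zero.1 k1).resolve_left (by norm_num)
  · exact (smul_eq_zero.1 k2).resolve_left (by norm_num)
  · exact (smul_eq_zero.1 k3).resolve_left (by norm_num)

end Pool.Agent.Lib.MP_ccbbf6_gt.K7.DP
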