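import Pool.Agent.Lib.MP_ccbbf6_gt.K7.HQ1
import Pool.Agent.Lib.MP_ccbbf6_gt.L4.SM4

/-!
# `κ = 7`, block F: the energy of 8-gons near the doubled geodesic, HQ2 (helper95)

* `LocC X` : every point of `X` has a plot which covers a neighbourhood.
* `gl_global` : **(GL)** over a compact space with `LocC`.
* `spN` is compact and has `LocC`; `gl_spN` : (GL) over the sphere bundle `spN 𝒜 P` of any smooth bundle of projections `P`.
-/

set_option autoImplicit false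
set_option linter.unusedSectionVars false

open Set Filter Topology Metric Real Module
open scoped ContDiff RealInnerProductSpace

noncomputable section

namespace Pool.Agent.Lib.MP_ccbbf6_gt.K7.HQ

open Geo L4 L4.ORI L4.FR L5 L5.NEG

variable {n : ℕ} {M : Type} [MetricSpace M] [CompactSpace M] {𝒜 : SDist n M}

/-- every point has a plot which covers a neighbourhood -/
def LocC (X : Space) [TopologicalSpace X.pt] : Prop :=
  ∀ x : X.pt, ∃ (k : ℕ) (p : X.Plot k) (z : FR.V k), p.1 z = x ∧ 𝓝 x ≤ map p.1 (𝓝 z)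

/-- the map `((z, τ), s) ↦ (z, s, τ)` -/
def arr (k : ℕ) (w : (FR.V k × ℝ) × ℝ) : FR.V (k + 1 + 1) :=
  Fin.snoc (α := fun _ => ℝ) (Fin.snoc (α := fun _ => ℝ) w.1.1 w.2) w.1.2

theorem arr_last (k : ℕ) (w : (FR.V k × ℝ) × ℝ) : arr k w (Fin.last (k + 1)) = w.1.2 := by
  unfold arr
  rw [Fin.snoc_last]

theorem arr_mid (k : ℕ) (w : (FR.V k × ℝ) × ℝ) : arr k w (Fin.last k).castSucc = w.2 := by
  unfold arr
  rw [Fin.snoc_castSucc, Fin.snoc_last]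

theorem arr_cast (k : ℕ) (w : (FR.V k × ℝ) × ℝ) (i : Fin k) : arr k w i.castSucc.castSucc = w.1.1 i := by
  unfold arr
  rw [Fin.snoc_castSucc, Fin.snoc_castSucc]

theorem contDiff_arr (k : ℕ) : ContDiff ℝ ∞ (arr k) := by
  rw [contDiff_pi]
  intro i
  refine Fin.lastCases ?_ (fun i => Fin.lastCases ?_ (fun i => ?_) i) i
  · simp only [arr_last]
    exact contDiff_snd.comp contDiff_fst
  · simp only [arr_mid]
    exact contDiff_snd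
  · simp only [arr_cast]
    exact (contDiff_apply ℝ ℝ i).comp (contDiff_fst.comp contDiff_fst)

/-- values in `M` -/
def vM {X : Space} (G : SMap X (spM 𝒜)) (x : X.pt) : M := G.1 x

/-- components of maps to `M` along a plot -/
theorem smAt_G {X : Space} {k : ℕ} (p : X.Plot k) (G : SMap X.xR.xR (spM 𝒜)) (w : (FR.V k × ℝ) × ℝ) :
    SmAt 𝒜 (fun w : (FR.V k × ℝ) × ℝ => vM G ((p.1 w.1.1, w.2), w.1.2)) w := by
  have h1 : L4.Sm 𝒜 (fun y : FR.V (k + 1 + 1) => vM G (p.up.up.1 y)) := (G.pl p.up.up).2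
  have h2 := SmAt.comp (g := fun y : FR.V (k + 1 + 1) => vM G (p.up.up.1 y)) (f := fun w => arr k w) (v := w) (h1 _)
    (contDiff_arr k).contDiffAt
  refine h2.congr (Eventually.of_forall fun w => ?_)
  show vM G ((p.1 w.1.1, w.2), w.1.2) = vM G (p.up.up.1 (arr k w))
  congr 1
  have e1 : pr k (pr (k + 1) (arr k w)) = w.1.1 := funext fun i => arr_cast k w i
  have e2 : (pr (k + 1) (arr k w)) (Fin.last k) = w.2 := arr_mid k w
  have e3 : arr k w (Fin.last (k + 1)) = w.1.2 := arr_last k w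
  show ((p.1 w.1.1, w.2), w.1.2) = ((p.1 (pr k (pr (k + 1) (arr k w))), (pr (k + 1) (arr k w)) (Fin.last k)),
    arr k w (Fin.last (k + 1)))
  rw [e1, e2, e3]

/-- **(GL)** -/
theorem gl_global {X : Space} [TopologicalSpace X.pt] [CompactSpace X.pt] (hL : LocC X) (hB : Bl M) (σ : X.pt → Gs M)
    (G : ZMod 8 → SMap X.xR.xR (spM 𝒜))
    (h0 : ∀ x, ∀ τ ∈ Icc (0 : ℝ) 1, (fun i => vM (G i) ((x, 0), τ)) = b8 (σ x))
    (hn : ∀ x, ∀ τ ∈ Icc (0 : ℝ) 1, H8 𝒜 (σ x) (vel8 𝒜 fun s i => vM (G i) ((x, s), τ)) < 0) :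
    ∃ ε s0 : ℝ, 0 < ε ∧ 0 < s0 ∧ ∀ x, ∀ τ ∈ Icc (0 : ℝ) 1, ∀ s, |s| ≤ s0 →
      E8 (fun i => vM (G i) ((x, s), τ)) ≤ 2 * π ^ 2 - ε * s ^ 2 := by
  have hcomp : IsCompact ((univ : Set X.pt) ×ˢ Icc (0 : ℝ) 1) := isCompact_univ.prod isCompact_Icc
  obtain ⟨ε, s0, hε, hs0, h1⟩ : ∃ ε s0 : ℝ, 0 < ε ∧ 0 < s0 ∧ ∀ z ∈ (univ : Set X.pt) ×ˢ Icc (0 : ℝ) 1, z.2 ∈ Icc (0 : ℝ) 1 →
      ∀ s, |s| ≤ s0 → E8 (fun i => vM (G i) ((z.1, s), z.2)) ≤ 2 * π ^ 2 - ε * s ^ 2 := by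
    refine hcomp.induction_on (p := fun S => ∃ ε s0 : ℝ, 0 < ε ∧ 0 < s0 ∧ ∀ z ∈ S, z.2 ∈ Icc (0 : ℝ) 1 →
      ∀ s, |s| ≤ s0 → E8 (fun i => vM (G i) ((z.1, s), z.2)) ≤ 2 * π ^ 2 - ε * s ^ 2) ?_ ?_ ?_ ?_
    · exact ⟨1, 1, one_pos, one_pos, fun z hz => hz.elim⟩
    · rintro S T hST ⟨ε, s0, hε, hs0, h1⟩
      exact ⟨ε, s0, hε, hs0, fun z hz => h1 z (hST hz)⟩
    · rintro S T ⟨ε, s0, hε, hs0, h1⟩ ⟨ε', s0', hε', hs0', h1'⟩
      refine ⟨min ε ε', min s0 s0', lt_min hε hε', lt_min hs0 hs0', ?_⟩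
      rintro z (hz | hz) hz2 s hs
      · refine (h1 z hz hz2 s (hs.trans (min_le_left _ _))).trans ?_
        have := mul_le_mul_of_nonneg_right (min_le_left ε ε') (sq_nonneg s)
        linarith
      · refine (h1' z hz hz2 s (hs.trans (min_le_right _ _))).trans ?_
        have := mul_le_mul_of_nonneg_right (min_le_right ε ε') (sq_nonneg s)
        linarith
    · rintro ⟨x, τ⟩ ⟨-, hτ⟩
      obtain ⟨k, p, z, hpz, hcov⟩ := hL x
      obtain ⟨ε, s0, hε, hs0, h1⟩ := gl_local (𝒜 := 𝒜) hB (σ := fun w : FR.V k × ℝ => σ (p.1 w.1))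
        (x := fun (w : FR.V k × ℝ) s i => vM (G i) ((p.1 w.1, s), w.2)) (u := (z, τ)) (fun i => smAt_G p (G i) _)
        (by simp only [hpz]; exact h0 x τ hτ) (by simp only [hpz]; exact hn x τ hτ)
      have h2 : ∀ᶠ w in 𝓝 x ×ˢ 𝓝 τ, w.2 ∈ Icc (0 : ℝ) 1 →
          ∀ s, |s| ≤ s0 → E8 (fun i => vM (G i) ((w.1, s), w.2)) ≤ 2 * π ^ 2 - ε * s ^ 2 := by
        rw [nhds_prod_eq] at h1
        obtain ⟨pa, ha, pb, hb, h3⟩ := eventually_prod_iff.1 h1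
        have h4 : p.1 '' {y | pa y} ∈ 𝓝 x := hcov (image_mem_map ha)
        filter_upwards [prod_mem_prod h4 hb] with w hw hw2 s hs
        obtain ⟨⟨y, hy, hyw⟩, hwb⟩ := hw
        have h5 := h3 (x := y) hy hwb
        simp only [hyw] at h5
        exact h5 (h0 w.1 w.2 hw2) s hs
      refine ⟨{w | w.2 ∈ Icc (0 : ℝ) 1 → ∀ s, |s| ≤ s0 → E8 (fun i => vM (G i) ((w.1, s), w.2)) ≤ 2 * π ^ 2 - ε * s ^ 2},
        mem_nhdsWithin_of_mem_nhds ?_, ε, s0, hε, hs0, fun w hw => hw⟩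
      rw [nhds_prod_eq]
      exact h2
  exact ⟨ε, s0, hε, hs0, fun x τ hτ s hs => h1 (x, τ) ⟨mem_univ _, hτ⟩ hτ s hs⟩

/-! ### the sphere bundle of a bundle of projections -/

section spN

variable {N : ℕ} {P : Gs M → Eu N →L[ℝ] Eu N}

instance : TopologicalSpace (spN 𝒜 P).pt :=
  inferInstanceAs (TopologicalSpace {z : Gs M × Eu N // InP P z.1 z.2 ∧ ‖z.2‖ = 1})

/-- a smooth family of projections is continuous -/
theorem continuous_P [Nonempty (Gs M)] (hB : Bl M) (e : Emb n 𝒜)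
    (hsm : ∀ {F : Type} [NormedAddCommGroup F] [NormedSpace ℝ F] {σ : F → Gs M} {u : F}, SmGAt 𝒜 σ u →
      ContDiffAt ℝ ∞ (fun v => P (σ v)) u) : Continuous P := by
  rw [continuous_iff_continuousAt]
  intro c
  have h1 : ContinuousAt (fun y => P (e.RR y)) (e.EE c) := (hsm (e.smG_RR hB (e.EE_mem c))).continuousAt
  have h2 : ContinuousAt (fun c => P (e.RR (e.EE c))) c :=
    ContinuousAt.comp (g := fun y => P (e.RR y)) (f := e.EE) h1 e.continuous_EE.continuousAt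
  refine h2.congr (Eventually.of_forall fun c => ?_)
  show P (e.RR (e.EE c)) = P c
  rw [e.RR_EE hB]

theorem compact_spN [Nonempty (Gs M)] (hB : Bl M) (e : Emb n 𝒜)
    (hsm : ∀ {F : Type} [NormedAddCommGroup F] [NormedSpace ℝ F] {σ : F → Gs M} {u : F}, SmGAt 𝒜 σ u →
      ContDiffAt ℝ ∞ (fun v => P (σ v)) u) : CompactSpace (spN 𝒜 P).pt := by
  have h1 : IsCompact {z : Gs M × Eu N | InP P z.1 z.2 ∧ ‖z.2‖ = 1} := by
    have hP := continuous_P (𝒜 := 𝒜) hB e hsm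
    have h2 : IsCompact ((univ : Set (Gs M)) ×ˢ sphere (0 : Eu N) 1) := isCompact_univ.prod (isCompact_sphere _ _)
    refine h2.of_isClosed_subset ?_ fun z hz => ⟨mem_univ _, mem_sphere_zero_iff_norm.2 hz.2⟩
    have c1 : IsClosed {z : Gs M × Eu N | P z.1 z.2 = z.2} :=
      isClosed_eq ((hP.comp continuous_fst).clm_apply continuous_snd) continuous_snd
    have c2 : IsClosed {z : Gs M × Eu N | ‖z.2‖ = 1} := isClosed_eq continuous_snd.norm continuous_const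
    exact c1.inter c2
  exact isCompact_iff_compactSpace.1 h1

theorem locC_spN [Nonempty (Gs M)] (hB : Bl M) (e : Emb n 𝒜)
    (hsm : ∀ {F : Type} [NormedAddCommGroup F] [NormedSpace ℝ F] {σ : F → Gs M} {u : F}, SmGAt 𝒜 σ u →
      ContDiffAt ℝ ∞ (fun v => P (σ v)) u) (hid : ∀ c x, P c (P c x) = P c x) : LocC (spN 𝒜 P) := by
  rintro ⟨⟨c0, ξ0⟩, h1, h2⟩
  have h1' : P c0 ξ0 = ξ0 := h1
  have h2' : ‖ξ0‖ = 1 := h2
  -- the neighbourhood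
  obtain ⟨W, hW⟩ : ∃ W : Set (e.Q × Eu N), W = {w | w.1 ∈ e.UU ∧ P (e.RR w.1) w.2 ≠ 0} := ⟨_, rfl⟩
  have hWn : W ∈ 𝓝 (e.EE c0, ξ0) := by
    have c1 : ContinuousAt (fun w : e.Q × Eu N => P (e.RR w.1) w.2) (e.EE c0, ξ0) := by
      have c2 : ContinuousAt (fun y => P (e.RR y)) (e.EE c0) := (hsm (e.smG_RR hB (e.EE_mem c0))).continuousAt
      have c3 : ContinuousAt (fun w : e.Q × Eu N => P (e.RR w.1)) (e.EE c0, ξ0) :=
        ContinuousAt.comp (g := fun y => P (e.RR y)) (f := Prod.fst) c2 continuousAt_fst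
      exact c3.clm_apply continuousAt_snd
    have c4 : P (e.RR (e.EE c0)) ξ0 ≠ 0 := by
      rw [e.RR_EE hB, h1']
      intro h
      rw [h, norm_zero] at h2'
      exact zero_ne_one h2'
    rw [hW]
    filter_upwards [continuousAt_fst.preimage_mem_nhds (e.isOpen_UU.mem_nhds (e.EE_mem c0)), c1.eventually_ne c4] with w h3 h4
    exact ⟨h3, h4⟩
  obtain ⟨β, hβ, hβW, hβe⟩ := exists_to_ball ((e.EE c0, ξ0) : e.Q × Eu N) hWn
  rw [hW] at hβW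
  -- coordinates
  obtain ⟨k, hk⟩ : ∃ k, k = finrank ℝ (e.Q × Eu N) := ⟨_, rfl⟩
  obtain ⟨L⟩ : Nonempty (FR.V k ≃L[ℝ] (e.Q × Eu N)) := by
    refine ⟨ContinuousLinearEquiv.ofFinrankEq ?_⟩
    rw [hk, finrank_fintype_fun_eq_card, Fintype.card_fin]
  -- the plot
  have hne : ∀ w, ‖P (e.RR (β w).1) (β w).2‖ ≠ 0 := fun w => norm_ne_zero_iff.2 (hβW w).2
  have sG : ∀ z : FR.V k, SmGAt 𝒜 (fun z : FR.V k => e.RR (β (L z)).1) z := fun z =>
    SmGAt.comp (σ := e.RR) (f := fun z : FR.V k => (β (L z)).1) (e.smG_RR hB (hβW (L z)).1)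
      ((contDiff_fst.comp (hβ.comp L.contDiff)).contDiffAt)
  have sP : ContDiff ℝ ∞ fun z : FR.V k => P (e.RR (β (L z)).1) (β (L z)).2 := by
    rw [contDiff_iff_contDiffAt]
    exact fun z => (hsm (sG z)).clm_apply ((contDiff_snd.comp (hβ.comp L.contDiff)).contDiffAt)
  have sN : ContDiff ℝ ∞ fun z : FR.V k => ‖P (e.RR (β (L z)).1) (β (L z)).2‖⁻¹ • P (e.RR (β (L z)).1) (β (L z)).2 := by
    rw [contDiff_iff_contDiffAt]
    intro z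
    have e1 : ContDiffAt ℝ ∞ (fun z : FR.V k => ‖P (e.RR (β (L z)).1) (β (L z)).2‖) z :=
      sP.contDiffAt.norm ℝ (hβW (L z)).2
    exact (e1.inv (hne (L z))).smul sP.contDiffAt
  obtain ⟨p, hp⟩ : ∃ p : (spN 𝒜 P).Plot k, ∀ z, p.1 z = (⟨(e.RR (β (L z)).1,
      ‖P (e.RR (β (L z)).1) (β (L z)).2‖⁻¹ • P (e.RR (β (L z)).1) (β (L z)).2), by
        constructor
        · show P _ _ = _
          rw [map_smul, hid]
        · show ‖‖P (e.RR (β (L z)).1) (β (L z)).2‖⁻¹ • P (e.RR (β (L z)).1) (β (L z)).2‖ = 1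
          rw [norm_smul, norm_inv, norm_norm, inv_mul_cancel₀ (hne (L z))]⟩ : (spN 𝒜 P).pt) :=
    ⟨⟨_, ⟨fun z => (sG z).1, fun z => (sG z).2⟩, sN⟩, fun _ => rfl⟩
  -- the section
  obtain ⟨j, hj⟩ : ∃ j : (spN 𝒜 P).pt → FR.V k, ∀ y, j y = L.symm (e.EE y.1.1, y.1.2) := ⟨_, fun _ => rfl⟩
  have hjc : Continuous j := by
    have e1 : j = fun y => L.symm (e.EE y.1.1, y.1.2) := funext hj
    rw [e1]
    have e2 : Continuous fun y : (spN 𝒜 P).pt => y.1.1 := continuous_fst.comp continuous_subtype_val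
    have e3 : Continuous fun y : (spN 𝒜 P).pt => y.1.2 := continuous_snd.comp continuous_subtype_val
    exact L.symm.continuous.comp ((e.continuous_EE.comp e2).prodMk e3)
  have hpj : ∀ y : (spN 𝒜 P).pt, β (L (j y)) = L (j y) → p.1 (j y) = y := by
    rintro ⟨⟨c, ξ⟩, h3, h4⟩ h5
    have h3' : P c ξ = ξ := h3
    have h4' : ‖ξ‖ = 1 := h4
    have h6 : L (j ⟨(c, ξ), h3, h4⟩) = (e.EE c, ξ) := by rw [hj, L.apply_symm_apply]
    rw [hp]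
    refine Subtype.ext (Prod.ext ?_ ?_)
    · show e.RR (β (L (j ⟨(c, ξ), h3, h4⟩))).1 = c
      rw [h5, h6]
      exact e.RR_EE hB c
    · show ‖P (e.RR (β (L (j ⟨(c, ξ), h3, h4⟩))).1) (β (L (j ⟨(c, ξ), h3, h4⟩))).2‖⁻¹ •
        P (e.RR (β (L (j ⟨(c, ξ), h3, h4⟩))).1) (β (L (j ⟨(c, ξ), h3, h4⟩))).2 = ξ
      rw [h5, h6]
      simp only
      rw [e.RR_EE hB, h3', h4', inv_one, one_smul]
  have hev : ∀ᶠ y in 𝓝 (⟨(c0, ξ0), h1, h2⟩ : (spN 𝒜 P).pt), β (L (j y)) = L (j y) := by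
    have e1 : Tendsto (fun y => L (j y)) (𝓝 (⟨(c0, ξ0), h1, h2⟩ : (spN 𝒜 P).pt)) (𝓝 (e.EE c0, ξ0)) := by
      have e2 : L (j ⟨(c0, ξ0), h1, h2⟩) = (e.EE c0, ξ0) := by rw [hj, L.apply_symm_apply]
      rw [← e2]
      exact (L.continuous.comp hjc).continuousAt
    exact e1.eventually hβe
  refine ⟨k, p, j ⟨(c0, ξ0), h1, h2⟩, hpj _ hev.self_of_nhds, ?_⟩
  intro U hU
  have h3 : j ⁻¹' (p.1 ⁻¹' U) ∈ 𝓝 (⟨(c0, ξ0), h1, h2⟩ : (spN 𝒜 P).pt) := hjc.continuousAt.preimage_mem_nhds hU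
  filter_upwards [h3, hev] with y h4 h5
  have h6 : p.1 (j y) ∈ U := h4
  rwa [hpj y h5] at h6

/-- **(GL) over the sphere bundle** -/
theorem gl_spN [Nonempty (Gs M)] (hB : Bl M) (e : Emb n 𝒜)
    (hsm : ∀ {F : Type} [NormedAddCommGroup F] [NormedSpace ℝ F] {σ : F → Gs M} {u : F}, SmGAt 𝒜 σ u →
      ContDiffAt ℝ ∞ (fun v => P (σ v)) u) (hid : ∀ c x, P c (P c x) = P c x)
    (G : ZMod 8 → SMap (spN 𝒜 P).xR.xR (spM 𝒜))
    (h0 : ∀ x : (spN 𝒜 P).pt, ∀ τ ∈ Icc (0 : ℝ) 1, (fun i => vM (G i) ((x, 0), τ)) = b8 x.1.1)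
    (hn : ∀ x : (spN 𝒜 P).pt, ∀ τ ∈ Icc (0 : ℝ) 1, H8 𝒜 x.1.1 (vel8 𝒜 fun s i => vM (G i) ((x, s), τ)) < 0) :
    ∃ ε s0 : ℝ, 0 < ε ∧ 0 < s0 ∧ ∀ x, ∀ τ ∈ Icc (0 : ℝ) 1, ∀ s, |s| ≤ s0 →
      E8 (fun i => vM (G i) ((x, s), τ)) ≤ 2 * π ^ 2 - ε * s ^ 2 := by
  have := compact_spN (𝒜 := 𝒜) hB e hsm
  exact gl_global (locC_spN hB e hsm hid) hB (fun x => x.1.1) G h0 hn

end spN

end Pool.Agent.Lib.MP_ccbbf6_gt.K7.HQ
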