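import Pool.Agent.Lib.MP_ccbbf6_gt.K7.FC4
import Pool.Agent.Lib.MP_ccbbf6_gt.K7.HQ2

/-!
# `κ = 7`, block F-C, file FC5: families of 8-gons given by their vertices (helper28)

* `cont_vM`, `exists_side` : continuity and compactness.
* `Fam x φ g` : `g (y, s) = x (y, φ s)`.
* `homF` : homotopies of families given by their vertices.
* `Lk x x'` : the forms of the rescaled families agree; `Lk_of_G`.
-/

set_option autoImplicit false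
set_option maxSynthPendingDepth 3
set_option linter.unusedSectionVars false

open Set Filter Topology Metric Real Module
open scoped ContDiff RealInnerProductSpace

noncomputable section

namespace Pool.Agent.Lib.MP_ccbbf6_gt.K7.FC

open Geo L4 L4.ORI L4.FR L5 L5.NEG K7 HQ SU

variable {n : ℕ} {M : Type} [MetricSpace M] [CompactSpace M] {𝒜 : SDist n M} {d δ : ℝ}

section top

variable {Y : Space} [TopologicalSpace Y.pt]

theorem cont_vM (hL : LocC Y) (G : SMap Y.xR.xR (spM 𝒜)) :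
    Continuous (fun w : (Y.pt × ℝ) × ℝ => vM G ((w.1.1, w.2), w.1.2)) := by
  rw [continuous_iff_continuousAt]
  rintro ⟨⟨x, τ⟩, s⟩
  obtain ⟨k, p, z, hpz, hcov⟩ := hL x
  have h1 := (smAt_G p G ((z, τ), s)).1
  have h2 : 𝓝 ((x, τ), s) ≤ map (Prod.map (Prod.map p.1 id) id) (𝓝 ((z, τ), s)) := by
    have e1 : map (Prod.map p.1 (id : ℝ → ℝ)) (𝓝 z ×ˢ 𝓝 τ) = map p.1 (𝓝 z) ×ˢ 𝓝 τ := by
      rw [← Filter.prod_map_map_eq', Filter.map_id]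
    have e2 : map (Prod.map (Prod.map p.1 (id : ℝ → ℝ)) (id : ℝ → ℝ)) ((𝓝 z ×ˢ 𝓝 τ) ×ˢ 𝓝 s) =
        (map p.1 (𝓝 z) ×ˢ 𝓝 τ) ×ˢ 𝓝 s := by
      rw [← Filter.prod_map_map_eq', e1, Filter.map_id]
    rw [nhds_prod_eq, nhds_prod_eq, nhds_prod_eq, nhds_prod_eq, e2]
    exact Filter.prod_mono (Filter.prod_mono hcov le_rfl) le_rfl
  have h3 : Tendsto (fun w : (Y.pt × ℝ) × ℝ => vM G ((w.1.1, w.2), w.1.2))
      (map (Prod.map (Prod.map p.1 id) id) (𝓝 ((z, τ), s))) (𝓝 (vM G ((x, s), τ))) := by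
    rw [tendsto_map'_iff, ← hpz]
    exact h1
  exact h3.mono_left h2

/-- sides near the start -/
theorem exists_side [CompactSpace Y.pt] (hL : LocC Y) (hB : Bl M) (σ : Y.pt → Gs M) (G : ZMod 8 → SMap Y.xR.xR (spM 𝒜))
    (h0 : ∀ x, ∀ τ ∈ Icc (0 : ℝ) 1, (fun i => vM (G i) ((x, 0), τ)) = b8 (σ x)) :
    ∃ r : ℝ, 0 < r ∧ ∀ x, ∀ τ ∈ Icc (0 : ℝ) 1, ∀ s, |s| ≤ r → ∀ i,
      dist (vM (G i) ((x, s), τ)) (vM (G (i + 1)) ((x, s), τ)) ≤ 3 * π / 4 := by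
  have hπ := Real.pi_pos
  obtain ⟨O, hO⟩ : ∃ O : Set ((Y.pt × ℝ) × ℝ), O = ⋂ i : ZMod 8,
    {w | dist (vM (G i) ((w.1.1, w.2), w.1.2)) (vM (G (i + 1)) ((w.1.1, w.2), w.1.2)) < 3 * π / 4} := ⟨_, rfl⟩
  have hOo : IsOpen O := by
    rw [hO]
    exact isOpen_iInter_of_finite fun i => isOpen_lt ((cont_vM hL (G i)).dist (cont_vM hL (G (i + 1)))) continuous_const
  have hsub : ((univ : Set Y.pt) ×ˢ Icc (0 : ℝ) 1) ×ˢ ({0} : Set ℝ) ⊆ O := by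
    rintro ⟨⟨x, τ⟩, s⟩ ⟨⟨-, hτ⟩, hs⟩
    rw [mem_singleton_iff] at hs
    simp only at hs hτ
    subst hs
    rw [hO, mem_iInter]
    intro i
    have h2 := congrFun (h0 x τ hτ)
    show dist (vM (G i) ((x, 0), τ)) (vM (G (i + 1)) ((x, 0), τ)) < 3 * π / 4
    rw [h2 i, h2 (i + 1), dist_b8 𝒜 hB]
    linarith
  obtain ⟨u, v, -, hv, hu1, hv1, huv⟩ := generalized_tube_lemma (isCompact_univ.prod isCompact_Icc) isCompact_singleton hOo hsub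
  obtain ⟨r, hr, hrv⟩ := Metric.isOpen_iff.1 hv 0 (hv1 (mem_singleton 0))
  refine ⟨r / 2, by positivity, fun x τ hτ s hs i => ?_⟩
  have h3 : s ∈ v := hrv (by
    rw [Metric.mem_ball, Real.dist_eq, sub_zero]
    linarith)
  have h4 := huv (mk_mem_prod (hu1 (mk_mem_prod (mem_univ x) hτ)) h3)
  rw [hO, mem_iInter] at h4
  exact le_of_lt (h4 i)

end top

/-! ### the family of the doubled geodesics -/

/-- the vertices of the doubled geodesics -/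
def b8M (𝒜 : SDist n M) (hB : Bl M) (hd : d ≤ π / 2) : SMap (spG 𝒜) (spX8 𝒜 d) :=
  ⟨fun c => ⟨b8 c, fun i => by
    rw [dist_b8 𝒜 hB]
    linarith⟩, fun k p i u => smAt_b8 hB (SmG.atP p.2 u) i⟩

section fam

variable {Y B : Space} {pB : SMap Y (spG 𝒜)} {hB : Bl M} {hd : 0 < d} {T : Om (spO 𝒜)} {E : Om (spL 𝒜 δ)}

/-- `g (y, s) = x (y, φ s)` -/
def Fam (x : ZMod 8 → SMap Y.xR (spM 𝒜)) (φ : ℝ → ℝ) (g : SMap Y.xR (spX8 𝒜 d)) : Prop :=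
  ∀ y s i, (g.1 (y, s)).1 i = vM (x i) (y, φ s)

theorem Fam.uniq {x : ZMod 8 → SMap Y.xR (spM 𝒜)} {φ : ℝ → ℝ} {g g' : SMap Y.xR (spX8 𝒜 d)} (h : Fam x φ g) (h' : Fam x φ g') :
    g = g' := SMap_ext fun z => Subtype.ext (funext fun i => (h z.1 z.2 i).trans (h' z.1 z.2 i).symm)

theorem exists_Fam (x : ZMod 8 → SMap Y.xR (spM 𝒜)) {φ : ℝ → ℝ} (hφ : ContDiff ℝ ∞ φ)
    (h : ∀ y s i, dist (vM (x i) (y, φ s)) (vM (x (i + 1)) (y, φ s)) ≤ π - d) :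
    ∃ g : SMap Y.xR (spX8 𝒜 d), Fam x φ g :=
  ⟨⟨fun z => ⟨fun i => vM (x i) (z.1, φ z.2), fun i => h z.1 z.2 i⟩, fun k p i =>
    ((x i).comp (Rph Y hφ)).2 k p⟩, fun _ _ _ => rfl⟩

/-- the slice `τ` of a homotopy -/
def slc (G : ZMod 8 → SMap Y.xR.xR (spM 𝒜)) (τ : ℝ) : ZMod 8 → SMap Y.xR (spM 𝒜) := fun i => (G i).comp (jO Y.xR τ)

theorem slc_apply (G : ZMod 8 → SMap Y.xR.xR (spM 𝒜)) (τ : ℝ) (i : ZMod 8) (y : Y.pt) (s : ℝ) :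
    vM (slc G τ i) (y, s) = vM (G i) ((y, s), τ) := rfl

/-- the smooth interpolation of the parameters -/
def itp (φ0 φ1 : ℝ → ℝ) (t s : ℝ) : ℝ := (1 - Real.smoothTransition t) * φ0 s + Real.smoothTransition t * φ1 s

/-- **homotopies of families given by their vertices** -/
theorem homF (dT : dO _ T = 0) (DT : Deg 29 T) (dE : dO _ E = (iL 𝒜 δ).pull T) (DE : Deg 28 E) (hδ : δ < π / 2)
    (hd2 : d ≤ π / 4) (G : ZMod 8 → SMap Y.xR.xR (spM 𝒜)) {φ0 φ1 : ℝ → ℝ} (h0 : ContDiff ℝ ∞ φ0) (h1 : ContDiff ℝ ∞ φ1)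
    (z0 : φ0 0 = 0) (z1 : φ1 0 = 0)
    (hst : ∀ y, ∀ τ ∈ Icc (0 : ℝ) 1, (fun i => vM (G i) ((y, 0), τ)) = b8 (pB.1 y))
    (hside : ∀ y s i, ∀ τ ∈ Icc (0 : ℝ) 1, ∀ t ∈ Icc (0 : ℝ) 1,
      dist (vM (G i) ((y, (1 - t) * φ0 s + t * φ1 s), τ)) (vM (G (i + 1)) ((y, (1 - t) * φ0 s + t * φ1 s), τ)) ≤ 3 * π / 4)
    {ε : ℝ} (hε : 0 < ε) (hen : ∀ y, ∀ τ ∈ Icc (0 : ℝ) 1, ∀ t ∈ Icc (0 : ℝ) 1,
      E8 (fun i => vM (G i) ((y, (1 - t) * φ0 1 + t * φ1 1), τ)) ≤ 2 * π ^ 2 - ε)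
    {g0 g1 : SMap Y.xR (spX8 𝒜 d)} (f0 : Fam (slc G 0) φ0 g0) (f1 : Fam (slc G 1) φ1 g1) {b0 b1 : Om Y}
    (hb0 : IsB hB hd T E (g0.comp (jO Y 1)) b0) (hb1 : IsB hB hd T E (g1.comp (jO Y 1)) b1) :
    PE pB (om8 hB hd T g1 b1) (om8 hB hd T g0 b0) := by
  have hπ := Real.pi_pos
  have hm : ∀ t, Real.smoothTransition t ∈ Icc (0 : ℝ) 1 := fun t => ⟨Real.smoothTransition.nonneg _, Real.smoothTransition.le_one _⟩
  obtain ⟨GG, hGG⟩ : ∃ GG : SMap Y.xR.xR (spX8 𝒜 d), ∀ y t s i, (GG.1 ((y, t), s)).1 i =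
      vM (G i) ((y, itp φ0 φ1 t s), Real.smoothTransition t) := by
    refine ⟨⟨fun z => ⟨fun i => vM (G i) ((z.1.1, itp φ0 φ1 z.1.2 z.2), Real.smoothTransition z.1.2), fun i => ?_⟩,
      fun k p i => ?_⟩, fun _ _ _ _ => rfl⟩
    · have h := hside z.1.1 z.2 i _ (hm z.1.2) _ (hm z.1.2)
      exact h.trans (by linarith)
    · have hs : ContDiff ℝ ∞ fun u => Real.smoothTransition (p.1 u).1.2 := Real.smoothTransition.contDiff.comp p.2.1.2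
      exact (G i).2 k ⟨fun u => (((p.1 u).1.1, itp φ0 φ1 (p.1 u).1.2 (p.1 u).2), Real.smoothTransition (p.1 u).1.2),
        ⟨p.2.1.1, ((contDiff_const.sub hs).mul (h0.comp p.2.2)).add (hs.mul (h1.comp p.2.2))⟩, hs⟩
  refine homG (hB := hB) (hd := hd) dT DT dE DE hδ (G := GG) ((b8M 𝒜 hB (by linarith)).comp (pO _)) hε (fun y t => ?_)
    (fun z => ?_) (fun y s => ?_) (fun y s => ?_) hb0 hb1
  · refine Subtype.ext (funext fun i => ?_)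
    rw [hGG]
    have e : itp φ0 φ1 t 0 = 0 := by
      unfold itp
      rw [z0, z1, mul_zero, mul_zero, add_zero]
    rw [e]
    exact congrFun (hst y _ (hm t)) i
  · have e : (GG.1 (z, 1)).1 = fun i => vM (G i) ((z.1, itp φ0 φ1 z.2 1), Real.smoothTransition z.2) :=
      funext fun i => hGG z.1 z.2 1 i
    rw [e]
    exact hen z.1 _ (hm _) _ (hm _)
  · refine Subtype.ext (funext fun i => ?_)
    rw [hGG, f0 y s i, slc_apply]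
    have e : itp φ0 φ1 0 s = φ0 s := by
      unfold itp
      rw [Real.smoothTransition.zero, sub_zero, one_mul, zero_mul, add_zero]
    rw [e, Real.smoothTransition.zero]
  · refine Subtype.ext (funext fun i => ?_)
    rw [hGG, f1 y s i, slc_apply]
    have e : itp φ0 φ1 1 s = φ1 s := by
      unfold itp
      rw [Real.smoothTransition.one, sub_self, one_mul, zero_mul, zero_add]
    rw [e, Real.smoothTransition.one]

/-- constant homotopy -/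
def cstG (x : ZMod 8 → SMap Y.xR (spM 𝒜)) : ZMod 8 → SMap Y.xR.xR (spM 𝒜) := fun i => (x i).comp (pO Y.xR)

/-- **change of the parameter** -/
theorem homR (dT : dO _ T = 0) (DT : Deg 29 T) (dE : dO _ E = (iL 𝒜 δ).pull T) (DE : Deg 28 E) (hδ : δ < π / 2)
    (hd2 : d ≤ π / 4) (x : ZMod 8 → SMap Y.xR (spM 𝒜)) {φ0 φ1 : ℝ → ℝ} (h0 : ContDiff ℝ ∞ φ0) (h1 : ContDiff ℝ ∞ φ1)
    (z0 : φ0 0 = 0) (z1 : φ1 0 = 0) (hst : ∀ y, (fun i => vM (x i) (y, 0)) = b8 (pB.1 y))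
    (hside : ∀ y s i, ∀ t ∈ Icc (0 : ℝ) 1,
      dist (vM (x i) (y, (1 - t) * φ0 s + t * φ1 s)) (vM (x (i + 1)) (y, (1 - t) * φ0 s + t * φ1 s)) ≤ 3 * π / 4)
    {ε : ℝ} (hε : 0 < ε) (hen : ∀ y, ∀ t ∈ Icc (0 : ℝ) 1,
      E8 (fun i => vM (x i) (y, (1 - t) * φ0 1 + t * φ1 1)) ≤ 2 * π ^ 2 - ε)
    {g0 g1 : SMap Y.xR (spX8 𝒜 d)} (f0 : Fam x φ0 g0) (f1 : Fam x φ1 g1) {b0 b1 : Om Y}
    (hb0 : IsB hB hd T E (g0.comp (jO Y 1)) b0) (hb1 : IsB hB hd T E (g1.comp (jO Y 1)) b1) :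
    PE pB (om8 hB hd T g1 b1) (om8 hB hd T g0 b0) :=
  homF dT DT dE DE hδ hd2 (cstG x) h0 h1 z0 z1 (fun y _ _ => hst y) (fun y s i _ _ t ht => hside y s i t ht) hε
    (fun y _ _ t ht => hen y t ht) f0 f1 hb0 hb1

end fam

end Pool.Agent.Lib.MP_ccbbf6_gt.K7.FC
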