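import Pool.Agent.Lib.MP_ccbbf6_gt.K7.RG6
import Pool.Agent.Lib.MP_ccbbf6_gt.L5.DG2

namespace Pool.Agent.Lib.MP_ccbbf6_gt.K7.HQ
end Pool.Agent.Lib.MP_ccbbf6_gt.K7.HQ

/-!
# `κ = 7`, block F-C, file FCg: the germ lemma (skeleton of helper28, for helper77)

PROOFS.
`vel_rat` : `𝒜.vel c 0` is the derivative of `s ↦ 𝒜.ψ (c 0) (c s)` at `0`. Both `x ∘ φ` and `x' ∘ φ` have the velocity `v` at `0` and the same foot; so in the chart `ψ (x 0)` their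
difference is `o(s)`, hence `dist (x (φ s)) (x' (φ s)) = o(s)` (`dist p q ≤ C ‖ψ p - ψ q‖` near `x 0`: the symm of the chart is Lipschitz for `dist` near `0`; or use `𝒜.F` / `contDiffAt_dsq`:
`dist (x s) (x' s) ^ 2` is smooth, vanishes at `0` to second order with second derivative `2 ‖v - v'‖^2 = 0`); `dist (x (φ s)) (rat (x (φ s)) (x' (φ s)) τ) = τ dist ..` (`dist_rat`), so
`rat ..` and `x ∘ φ` differ by `o(s)` in the chart (`‖ψ p - ψ q‖ ≤ C dist p q` near `x 0`).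
`smooth_P3`, `idem_P3` : `P3 P c z = mk3 (P c (q0 z)) (P c (q1 z)) (P c (q2 z))`, sums of compositions of `P c` with constant continuous linear maps.
-/

set_option autoImplicit false
set_option linter.unusedSectionVars false

open Set Filter Topology Metric Real Module
open scoped ContDiff RealInnerProductSpace

noncomputable section

namespace Pool.Agent.Lib.MP_ccbbf6_gt.K7.FC

open Geo L4 L4.ORI L4.FR L5 L5.NEG K7 HQ RG

variable {n : ℕ} {M : Type} [MetricSpace M] [CompactSpace M] {𝒜 : SDist n M}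

/-- **the germ lemma** -/
theorem vel_rat (hB : Bl M) {x x' : ℝ → M} (hx : SmAt 𝒜 x 0) (hx' : SmAt 𝒜 x' 0) (h0 : x 0 = x' 0)
    (hv : 𝒜.vel x 0 = 𝒜.vel x' 0) {φ : ℝ → ℝ} (hφ : ContDiff ℝ ∞ φ) (φ0 : φ 0 = 0) (φ1 : deriv φ 0 = 1) {τ : ℝ}
    (t0 : 0 ≤ τ) (t1 : τ ≤ 1) : 𝒜.vel (fun s => rat 𝒜 (x (φ s)) (x' (φ s)) τ) 0 = 𝒜.vel x 0 := by
  obtain ⟨p, hp⟩ : ∃ p, p = x 0 := ⟨_, rfl⟩
  have hp' : x' 0 = p := by rw [← h0, hp]
  have hz : (0 : Eu n) ∈ (𝒜.ψ p).target := by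
    have h1 := (𝒜.ψ p).map_source (𝒜.mem p)
    rwa [𝒜.zero] at h1
  -- the geodesic ratio in the chart
  obtain ⟨Ψ, hΨ⟩ : ∃ Ψ : Eu n × Eu n → Eu n, Ψ = fun z => 𝒜.ψ p (rat 𝒜 ((𝒜.ψ p).symm z.1) ((𝒜.ψ p).symm z.2) τ) := ⟨_, rfl⟩
  have hs1 : SmAt 𝒜 (fun z : Eu n × Eu n => (𝒜.ψ p).symm z.1) (0, 0) := smAt_symm contDiffAt_fst hz
  have hs2 : SmAt 𝒜 (fun z : Eu n × Eu n => (𝒜.ψ p).symm z.2) (0, 0) := smAt_symm contDiffAt_snd hz
  have hΨs : ContDiffAt ℝ ∞ Ψ (0, 0) := by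
    have h1 := smAt_rat hB hs1 hs2 (contDiffAt_const (c := τ)) (by
      change dist ((𝒜.ψ p).symm 0) ((𝒜.ψ p).symm 0) < π
      rw [dist_self]
      exact Real.pi_pos)
    have h2 := h1.2
    have h3 : (fun v : Eu n × Eu n => rat 𝒜 ((𝒜.ψ p).symm v.1) ((𝒜.ψ p).symm v.2) τ) (0, 0) = p := by
      change rat 𝒜 ((𝒜.ψ p).symm 0) ((𝒜.ψ p).symm 0) τ = p
      rw [symm_zero', rat_self hB]
    rw [h3] at h2
    rw [hΨ]
    exact h2
  have hΨd : HasFDerivAt Ψ (fderiv ℝ Ψ (0, 0)) (0, 0) := (hΨs.differentiableAt (by simp)).hasFDerivAt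
  -- on the diagonal
  have hdiag : ∀ v : Eu n, fderiv ℝ Ψ (0, 0) (v, v) = v := by
    intro v
    have h1 : HasDerivAt (fun t : ℝ => (t • v, t • v)) (v, v) 0 := by
      have h2 : HasDerivAt (fun t : ℝ => t • v) v 0 := by
        have := (hasDerivAt_id (0 : ℝ)).smul_const v
        rwa [one_smul] at this
      exact h2.prodMk h2
    have h2 : HasDerivAt (fun t : ℝ => Ψ (t • v, t • v)) (fderiv ℝ Ψ (0, 0) (v, v)) 0 := by
      have h3 : HasFDerivAt Ψ (fderiv ℝ Ψ (0, 0)) ((0 : ℝ) • v, (0 : ℝ) • v) := by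
        rw [zero_smul]
        exact hΨd
      exact h3.comp_hasDerivAt 0 h1
    have h3 : (fun t : ℝ => Ψ (t • v, t • v)) =ᶠ[𝓝 0] fun t => t • v := by
      have h4 : ContinuousAt (fun t : ℝ => t • v) 0 := (continuous_id.smul continuous_const).continuousAt
      have h5 : (𝒜.ψ p).target ∈ 𝓝 ((0 : ℝ) • v) := by
        rw [zero_smul]
        exact (𝒜.ψ p).open_target.mem_nhds hz
      filter_upwards [h4.eventually h5] with t ht
      rw [hΨ]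
      change 𝒜.ψ p (rat 𝒜 ((𝒜.ψ p).symm (t • v)) ((𝒜.ψ p).symm (t • v)) τ) = t • v
      rw [rat_self hB, (𝒜.ψ p).right_inv ht]
    have h4 : HasDerivAt (fun t : ℝ => t • v) v 0 := by
      have := (hasDerivAt_id (0 : ℝ)).smul_const v
      rwa [one_smul] at this
    exact (h2.congr_of_eventuallyEq h3.symm).unique h4
  -- the two curves
  have hcur : ∀ y : ℝ → M, SmAt 𝒜 y 0 → y 0 = p → HasDerivAt (fun s => 𝒜.ψ p (y (φ s))) (𝒜.vel y 0) 0 := by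
    intro y hy hy0
    have h1 : HasDerivAt (fun s => 𝒜.ψ p (y s)) (𝒜.vel y 0) (φ 0) := by
      rw [φ0]
      have h2 := hy.2
      rw [hy0] at h2
      have h3 := (h2.differentiableAt (by simp)).hasDerivAt
      have h4 : 𝒜.vel y 0 = deriv (fun s => 𝒜.ψ p (y s)) 0 := by
        unfold SDist.vel
        rw [hy0]
      rw [h4]
      exact h3
    have h2 : HasDerivAt φ 1 0 := by
      have h3 := ((hφ.differentiable (by simp)) 0).hasDerivAt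
      rwa [φ1] at h3
    have h3 := h1.scomp 0 h2
    rwa [one_smul] at h3
  have hcx := hcur x hx hp.symm
  have hcx' := hcur x' hx' hp'
  rw [← hv] at hcx'
  have hφc : ContinuousAt φ 0 := hφ.continuous.continuousAt
  have hΨ2 : HasDerivAt (fun s => Ψ (𝒜.ψ p (x (φ s)), 𝒜.ψ p (x' (φ s)))) (𝒜.vel x 0) 0 := by
    have h1 : HasFDerivAt Ψ (fderiv ℝ Ψ (0, 0)) (𝒜.ψ p (x (φ 0)), 𝒜.ψ p (x' (φ 0))) := by
      rw [φ0, ← hp, hp', 𝒜.zero]
      exact hΨd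
    have h2 := h1.comp_hasDerivAt 0 (hcx.prodMk hcx')
    rw [hdiag] at h2
    exact h2
  have hsrc : ∀ y : ℝ → M, SmAt 𝒜 y 0 → y 0 = p → ∀ᶠ s in 𝓝 0, y (φ s) ∈ (𝒜.ψ p).source := by
    intro y hy hy0
    have h1 : ContinuousAt (fun s => y (φ s)) 0 := by
      refine ContinuousAt.comp (g := y) ?_ hφc
      rw [φ0]
      exact hy.1
    have h2 : (𝒜.ψ p).source ∈ 𝓝 (y (φ 0)) := by
      rw [φ0, hy0]
      exact (𝒜.ψ p).open_source.mem_nhds (𝒜.mem p)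
    exact h1.eventually h2
  have hev : (fun s => 𝒜.ψ p (rat 𝒜 (x (φ s)) (x' (φ s)) τ)) =ᶠ[𝓝 0] fun s => Ψ (𝒜.ψ p (x (φ s)), 𝒜.ψ p (x' (φ s))) := by
    filter_upwards [hsrc x hx hp.symm, hsrc x' hx' hp'] with s h1 h2
    rw [hΨ]
    change _ = 𝒜.ψ p (rat 𝒜 ((𝒜.ψ p).symm (𝒜.ψ p (x (φ s)))) ((𝒜.ψ p).symm (𝒜.ψ p (x' (φ s)))) τ)
    rw [(𝒜.ψ p).left_inv h1, (𝒜.ψ p).left_inv h2]
  have hbase : (fun s => rat 𝒜 (x (φ s)) (x' (φ s)) τ) 0 = p := by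
    change rat 𝒜 (x (φ 0)) (x' (φ 0)) τ = p
    rw [φ0, ← h0, ← hp, rat_self hB]
  have hvel : 𝒜.vel (fun s => rat 𝒜 (x (φ s)) (x' (φ s)) τ) 0 =
      deriv (fun s => 𝒜.ψ p (rat 𝒜 (x (φ s)) (x' (φ s)) τ)) 0 := by
    unfold SDist.vel
    rw [hbase]
  rw [hvel]
  exact (hΨ2.congr_of_eventuallyEq hev).deriv

variable {N : ℕ} {P : Gs M → Eu N →L[ℝ] Eu N}

theorem smooth_P3 (hsm : ∀ {F : Type} [NormedAddCommGroup F] [NormedSpace ℝ F] {σ : F → Gs M} {u : F}, SmGAt 𝒜 σ u →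
      ContDiffAt ℝ ∞ (fun v => P (σ v)) u) {F : Type} [NormedAddCommGroup F] [NormedSpace ℝ F] {σ : F → Gs M} {u : F}
    (h : SmGAt 𝒜 σ u) : ContDiffAt ℝ ∞ (fun v => P3 P (σ v)) u := by
  have h1 := hsm h
  have h2 : ∀ (j : Eu N →L[ℝ] Eu (N + (N + N))) (q : Eu (N + (N + N)) →L[ℝ] Eu N),
      ContDiffAt ℝ ∞ (fun v => j.comp ((P (σ v)).comp q)) u := fun j q =>
    contDiffAt_const.clm_comp (h1.clm_comp contDiffAt_const)
  exact (h2 j0 q0).add ((h2 j1 q1).add (h2 j2 q2))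

theorem idem_P3 (hid : ∀ c x, P c (P c x) = P c x) (c : Gs M) (z : Eu (N + (N + N))) : P3 P c (P3 P c z) = P3 P c z := by
  rw [P3_apply, q0_P3, q1_P3, q2_P3, hid, hid, hid, ← P3_apply]

end Pool.Agent.Lib.MP_ccbbf6_gt.K7.FC
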