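import Pool.Agent.Lib.MP_ccbbf6_gt.K7.AP
import Pool.Agent.Lib.MP_ccbbf6_gt.K7.FC5
import Pool.Agent.Lib.MP_ccbbf6_gt.K7.FCg

/-!
# `κ = 7`, block F-C, file FC6: links between germs of families of 8-gons (helper28)

* `near_spN` : sides and energy near the doubled geodesics, uniformly.
* `Lk x x'` : the forms of the families `x (y, s1 st s)` and `x' (y, s1 st s)` agree for small `s1`.
* `Lk_of_G` (homotopies with `H8 < 0`), `Lk_re` (change of the parameter), `Lk_germ` (only the velocities matter),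
  `Lk_chain` (chains of admissible paths).
-/

set_option autoImplicit false
set_option maxSynthPendingDepth 3
set_option linter.unusedSectionVars false

open Set Filter Topology Metric Real Module
open scoped ContDiff RealInnerProductSpace

noncomputable section

namespace Pool.Agent.Lib.MP_ccbbf6_gt.K7.FC

open Geo L4 L4.ORI L4.FR L5 L5.NEG K7 HQ SU

variable {n : ℕ} {M : Type} [MetricSpace M] [CompactSpace M] {𝒜 : SDist n M} {d δ : ℝ}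

/-- `s ↦ s1 st(s)` -/
def sc (s1 : ℝ) (s : ℝ) : ℝ := s1 * Real.smoothTransition s

theorem contDiff_sc (s1 : ℝ) : ContDiff ℝ ∞ (sc s1) := contDiff_const.mul Real.smoothTransition.contDiff

theorem sc_zero (s1 : ℝ) : sc s1 0 = 0 := by
  unfold sc
  rw [Real.smoothTransition.zero, mul_zero]

theorem sc_one (s1 : ℝ) : sc s1 1 = s1 := by
  unfold sc
  rw [Real.smoothTransition.one, mul_one]

theorem sc_nonneg {s1 : ℝ} (h : 0 ≤ s1) (s : ℝ) : 0 ≤ sc s1 s := mul_nonneg h (Real.smoothTransition.nonneg s)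

theorem sc_le {s1 : ℝ} (h : 0 ≤ s1) (s : ℝ) : sc s1 s ≤ s1 := mul_le_of_le_one_right h (Real.smoothTransition.le_one s)

section link

variable {Y : Space} {pB : SMap Y (spG 𝒜)} {hB : Bl M} {hd : 0 < d} {T : Om (spO 𝒜)} {E : Om (spL 𝒜 δ)}

/-- sides and energy near the start -/
def Near (G : ZMod 8 → SMap Y.xR.xR (spM 𝒜)) (ε r : ℝ) : Prop :=
  ∀ y, ∀ τ ∈ Icc (0 : ℝ) 1, ∀ s, |s| ≤ r → (∀ i, dist (vM (G i) ((y, s), τ)) (vM (G (i + 1)) ((y, s), τ)) ≤ 3 * π / 4) ∧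
    E8 (fun i => vM (G i) ((y, s), τ)) ≤ 2 * π ^ 2 - ε * s ^ 2

/-- **links** -/
def Lk (pB : SMap Y (spG 𝒜)) (hB : Bl M) (hd : 0 < d) (T : Om (spO 𝒜)) (E : Om (spL 𝒜 δ))
    (x x' : ZMod 8 → SMap Y.xR (spM 𝒜)) : Prop :=
  ∃ s0 : ℝ, 0 < s0 ∧ ∀ s1, 0 < s1 → s1 ≤ s0 → ∃ (g g' : SMap Y.xR (spX8 𝒜 d)) (b b' : Om Y),
    Fam x (sc s1) g ∧ Fam x' (sc s1) g' ∧ IsB hB hd T E (g.comp (jO Y 1)) b ∧ IsB hB hd T E (g'.comp (jO Y 1)) b' ∧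
      PE pB (om8 hB hd T g b) (om8 hB hd T g' b')

theorem Lk.symm {x x' : ZMod 8 → SMap Y.xR (spM 𝒜)} (h : Lk pB hB hd T E x x') : Lk pB hB hd T E x' x := by
  obtain ⟨s0, h0, h1⟩ := h
  refine ⟨s0, h0, fun s1 a b => ?_⟩
  obtain ⟨g, g', c, c', f1, f2, f3, f4, f5⟩ := h1 s1 a b
  exact ⟨g', g, c', c, f2, f1, f4, f3, f5.symm⟩

theorem Lk.trans (dE : dO _ E = (iL 𝒜 δ).pull T) (DE : Deg 28 E) {x x' x'' : ZMod 8 → SMap Y.xR (spM 𝒜)}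
    (h : Lk pB hB hd T E x x') (h' : Lk pB hB hd T E x' x'') : Lk pB hB hd T E x x'' := by
  obtain ⟨s0, h0, h1⟩ := h
  obtain ⟨s0', h0', h1'⟩ := h'
  refine ⟨min s0 s0', lt_min h0 h0', fun s1 a b => ?_⟩
  obtain ⟨g, g', c, c', f1, f2, f3, f4, f5⟩ := h1 s1 a (b.trans (min_le_left _ _))
  obtain ⟨k, k', e, e', m1, m2, m3, m4, m5⟩ := h1' s1 a (b.trans (min_le_right _ _))
  have h2 : g' = k := f2.uniq m1
  subst h2
  exact ⟨g, k', c, e', f1, m2, f3, m4, (f5.trans (om8_uniq f4 m3 dE DE)).trans m5⟩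

theorem Lk_of_G (dT : dO _ T = 0) (DT : Deg 29 T) (dE : dO _ E = (iL 𝒜 δ).pull T) (DE : Deg 28 E) (hδ : δ < π / 2)
    (hd2 : d ≤ π / 4) (G : ZMod 8 → SMap Y.xR.xR (spM 𝒜))
    (hst : ∀ y, ∀ τ ∈ Icc (0 : ℝ) 1, (fun i => vM (G i) ((y, 0), τ)) = b8 (pB.1 y)) {ε r : ℝ} (hε : 0 < ε) (hr : 0 < r)
    (hG : Near G ε r) : Lk pB hB hd T E (slc G 0) (slc G 1) := by
  have hπ := Real.pi_pos
  refine ⟨r, hr, fun s1 h0 h1 => ?_⟩
  have hab : ∀ s, |sc s1 s| ≤ r := fun s => by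
    rw [abs_of_nonneg (sc_nonneg h0.le s)]
    exact (sc_le h0.le s).trans h1
  have hc : ∀ s t : ℝ, (1 - t) * sc s1 s + t * sc s1 s = sc s1 s := fun s t => by ring
  obtain ⟨g, hg⟩ := exists_Fam (d := d) (slc G 0) (contDiff_sc s1) fun y s i =>
    ((hG y 0 ⟨le_rfl, zero_le_one⟩ _ (hab s)).1 i).trans (by linarith)
  obtain ⟨g', hg'⟩ := exists_Fam (d := d) (slc G 1) (contDiff_sc s1) fun y s i =>
    ((hG y 1 ⟨zero_le_one, le_rfl⟩ _ (hab s)).1 i).trans (by linarith)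
  have hen : ∀ y, ∀ τ ∈ Icc (0 : ℝ) 1, E8 (fun i => vM (G i) ((y, sc s1 1), τ)) ≤ 2 * π ^ 2 - ε * s1 ^ 2 := fun y τ hτ => by
    have h := (hG y τ hτ _ (hab 1)).2
    rwa [sc_one] at h ⊢
  have hpos : 0 < ε * s1 ^ 2 := by positivity
  obtain ⟨b, hb⟩ := exists_isB hB hd hδ T E (g.comp (jO Y 1)) hpos fun y => by
    have e : ((g.comp (jO Y 1)).1 y).1 = fun i => vM (G i) ((y, sc s1 1), 0) := funext fun i => hg y 1 i
    rw [e]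
    exact hen y 0 ⟨le_rfl, zero_le_one⟩
  obtain ⟨b', hb'⟩ := exists_isB hB hd hδ T E (g'.comp (jO Y 1)) hpos fun y => by
    have e : ((g'.comp (jO Y 1)).1 y).1 = fun i => vM (G i) ((y, sc s1 1), 1) := funext fun i => hg' y 1 i
    rw [e]
    exact hen y 1 ⟨zero_le_one, le_rfl⟩
  refine ⟨g, g', b, b', hg, hg', hb, hb', PE.symm ?_⟩
  refine homF dT DT dE DE hδ hd2 G (contDiff_sc s1) (contDiff_sc s1) (sc_zero s1) (sc_zero s1) hst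
    (fun y s i τ hτ t _ => ?_) hpos (fun y τ hτ t _ => ?_) hg hg' hb hb'
  · rw [hc]
    exact (hG y τ hτ _ (hab s)).1 i
  · rw [hc]
    exact hen y τ hτ

/-- the family with another parameter -/
def reM (x : ZMod 8 → SMap Y.xR (spM 𝒜)) {φ : ℝ → ℝ} (hφ : ContDiff ℝ ∞ φ) : ZMod 8 → SMap Y.xR (spM 𝒜) :=
  fun i => (x i).comp (Rph Y hφ)

theorem reM_apply (x : ZMod 8 → SMap Y.xR (spM 𝒜)) {φ : ℝ → ℝ} (hφ : ContDiff ℝ ∞ φ) (i : ZMod 8) (y : Y.pt) (s : ℝ) :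
    vM (reM x hφ i) (y, s) = vM (x i) (y, φ s) := rfl

/-- **change of the parameter** -/
theorem Lk_re (dT : dO _ T = 0) (DT : Deg 29 T) (dE : dO _ E = (iL 𝒜 δ).pull T) (DE : Deg 28 E) (hδ : δ < π / 2)
    (hd2 : d ≤ π / 4) {x : ZMod 8 → SMap Y.xR (spM 𝒜)} (hst : ∀ y, (fun i => vM (x i) (y, 0)) = b8 (pB.1 y)) {ε r : ℝ}
    (hε : 0 < ε) (hr : 0 < r) (hG : Near (cstG x) ε r) {φ : ℝ → ℝ} (hφ : ContDiff ℝ ∞ φ) (φ0 : φ 0 = 0)
    (hφr : ∀ s, |φ s| ≤ r) {r' : ℝ} (hr' : 0 < r') (hφp : ∀ s, 0 < s → s ≤ r' → 0 < φ s) :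
    Lk pB hB hd T E x (reM x hφ) := by
  have hπ := Real.pi_pos
  refine ⟨min r r', lt_min hr hr', fun s1 h0 h1 => ?_⟩
  have hab : ∀ s, |sc s1 s| ≤ r := fun s => by
    rw [abs_of_nonneg (sc_nonneg h0.le s)]
    exact (sc_le h0.le s).trans (h1.trans (min_le_left _ _))
  have hφ1 : 0 < φ s1 := hφp s1 h0 (h1.trans (min_le_right _ _))
  have I0 : (0 : ℝ) ∈ Icc (0 : ℝ) 1 := ⟨le_rfl, zero_le_one⟩
  obtain ⟨g, hg⟩ := exists_Fam (d := d) x (contDiff_sc s1) fun y s i =>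
    ((hG y 0 I0 _ (hab s)).1 i).trans (by linarith)
  obtain ⟨g', hg'⟩ := exists_Fam (d := d) x (hφ.comp (contDiff_sc s1)) fun y s i =>
    ((hG y 0 I0 _ (hφr (sc s1 s))).1 i).trans (by linarith)
  have hg'' : Fam (reM x hφ) (sc s1) g' := hg'
  obtain ⟨m, hm⟩ : ∃ m, m = min s1 (φ s1) := ⟨_, rfl⟩
  have hm0 : 0 < m := by rw [hm]; exact lt_min h0 hφ1
  have hpos : 0 < ε * m ^ 2 := by positivity
  have hcomb : ∀ s, ∀ t ∈ Icc (0 : ℝ) 1, |(1 - t) * sc s1 s + t * (φ ∘ sc s1) s| ≤ r := fun s t ht => by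
    have h2 := abs_add_le ((1 - t) * sc s1 s) (t * (φ ∘ sc s1) s)
    rw [abs_mul, abs_mul, abs_of_nonneg (show 0 ≤ 1 - t by linarith [ht.2]), abs_of_nonneg ht.1] at h2
    have h3 := mul_le_mul_of_nonneg_left (hab s) (show 0 ≤ 1 - t by linarith [ht.2])
    have h4 : t * |(φ ∘ sc s1) s| ≤ t * r := mul_le_mul_of_nonneg_left (hφr (sc s1 s)) ht.1
    linarith
  have hen : ∀ y, ∀ t ∈ Icc (0 : ℝ) 1,
      E8 (fun i => vM (x i) (y, (1 - t) * sc s1 1 + t * (φ ∘ sc s1) 1)) ≤ 2 * π ^ 2 - ε * m ^ 2 := fun y t ht => by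
    have h2 := (hG y 0 I0 _ (hcomb 1 t ht)).2
    have h3 : m ≤ (1 - t) * sc s1 1 + t * (φ ∘ sc s1) 1 := by
      have e1 : (φ ∘ sc s1) 1 = φ s1 := by
        show φ (sc s1 1) = φ s1
        rw [sc_one]
      rw [e1, sc_one]
      have h4 : m ≤ s1 := by rw [hm]; exact min_le_left _ _
      have h5 : m ≤ φ s1 := by rw [hm]; exact min_le_right _ _
      have h6 := mul_le_mul_of_nonneg_left h4 (show 0 ≤ 1 - t by linarith [ht.2])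
      have h7 := mul_le_mul_of_nonneg_left h5 ht.1
      linarith
    have h8 : m ^ 2 ≤ ((1 - t) * sc s1 1 + t * (φ ∘ sc s1) 1) ^ 2 := pow_le_pow_left₀ hm0.le h3 2
    have h9 := mul_le_mul_of_nonneg_left h8 hε.le
    refine le_trans h2 ?_
    linarith
  obtain ⟨b, hb⟩ := exists_isB hB hd hδ T E (g.comp (jO Y 1)) hpos fun y => by
    have e : ((g.comp (jO Y 1)).1 y).1 = fun i => vM (x i) (y, (1 - 0) * sc s1 1 + 0 * (φ ∘ sc s1) 1) := funext fun i => by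
      rw [sub_zero, one_mul, zero_mul, add_zero]
      exact hg y 1 i
    rw [e]
    exact hen y 0 I0
  obtain ⟨b', hb'⟩ := exists_isB hB hd hδ T E (g'.comp (jO Y 1)) hpos fun y => by
    have e : ((g'.comp (jO Y 1)).1 y).1 = fun i => vM (x i) (y, (1 - 1) * sc s1 1 + 1 * (φ ∘ sc s1) 1) := funext fun i => by
      rw [sub_self, zero_mul, one_mul, zero_add]
      exact hg' y 1 i
    rw [e]
    exact hen y 1 ⟨zero_le_one, le_rfl⟩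
  refine ⟨g, g', b, b', hg, hg'', hb, hb', PE.symm ?_⟩
  exact homR dT DT dE DE hδ hd2 x (contDiff_sc s1) (hφ.comp (contDiff_sc s1)) (sc_zero s1)
    (by show φ (sc s1 0) = 0; rw [sc_zero, φ0]) hst (fun y s i t ht => (hG y 0 I0 _ (hcomb s t ht)).1 i) hpos hen hg hg' hb hb'

end link

/-! ### over the sphere bundle -/

section spN

variable {N : ℕ} {P : Gs M → Eu N →L[ℝ] Eu N}

/-- smooth bundle of projections -/
structure PSm (𝒜 : SDist n M) (P : Gs M → Eu N →L[ℝ] Eu N) : Prop where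
  sm : ∀ {F : Type} [NormedAddCommGroup F] [NormedSpace ℝ F] {σ : F → Gs M} {u : F}, SmGAt 𝒜 σ u →
      ContDiffAt ℝ ∞ (fun v => P (σ v)) u
  id : ∀ c x, P c (P c x) = P c x

/-- constants are plots -/
theorem spN_cst (y : (spN 𝒜 P).pt) (k : ℕ) : (fun _ : V k => y) ∈ (spN 𝒜 P).Pl k :=
  ⟨⟨fun _ => ⟨continuousAt_const, contDiffAt_const⟩, fun _ => ⟨continuousAt_const, contDiffAt_const⟩⟩, contDiff_const⟩

variable [Nonempty (Gs M)] {hB : Bl M} {hd : 0 < d} {T : Om (spO 𝒜)} {E : Om (spL 𝒜 δ)}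

theorem near_spN (hB : Bl M) (e : Emb n 𝒜) (hP : PSm 𝒜 P) (G : ZMod 8 → SMap (spN 𝒜 P).xR.xR (spM 𝒜))
    (h0 : ∀ x : (spN 𝒜 P).pt, ∀ τ ∈ Icc (0 : ℝ) 1, (fun i => vM (G i) ((x, 0), τ)) = b8 x.1.1)
    (hn : ∀ x : (spN 𝒜 P).pt, ∀ τ ∈ Icc (0 : ℝ) 1, H8 𝒜 x.1.1 (vel8 𝒜 fun s i => vM (G i) ((x, s), τ)) < 0) :
    ∃ ε r : ℝ, 0 < ε ∧ 0 < r ∧ Near G ε r := by
  have := compact_spN (𝒜 := 𝒜) hB e hP.sm
  obtain ⟨ε, s0, hε, hs0, h1⟩ := gl_spN hB e hP.sm hP.id G h0 hn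
  obtain ⟨r, hr, h2⟩ := exists_side (locC_spN hB e hP.sm hP.id) hB (fun x : (spN 𝒜 P).pt => x.1.1) G h0
  exact ⟨ε, min s0 r, hε, lt_min hs0 hr, fun y τ hτ s hs => ⟨fun i => h2 y τ hτ s (hs.trans (min_le_right _ _)) i,
    h1 y τ hτ s (hs.trans (min_le_left _ _))⟩⟩

variable {pB : SMap (spN 𝒜 P) (spG 𝒜)}

theorem Lk_of_H (e : Emb n 𝒜) (hP : PSm 𝒜 P) (hp : ∀ y : (spN 𝒜 P).pt, pB.1 y = y.1.1) (dT : dO _ T = 0) (DT : Deg 29 T)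
    (dE : dO _ E = (iL 𝒜 δ).pull T) (DE : Deg 28 E) (hδ : δ < π / 2)
    (hd2 : d ≤ π / 4) (G : ZMod 8 → SMap (spN 𝒜 P).xR.xR (spM 𝒜))
    (h0 : ∀ x : (spN 𝒜 P).pt, ∀ τ ∈ Icc (0 : ℝ) 1, (fun i => vM (G i) ((x, 0), τ)) = b8 x.1.1)
    (hn : ∀ x : (spN 𝒜 P).pt, ∀ τ ∈ Icc (0 : ℝ) 1, H8 𝒜 x.1.1 (vel8 𝒜 fun s i => vM (G i) ((x, s), τ)) < 0) :
    Lk pB hB hd T E (slc G 0) (slc G 1) := by
  obtain ⟨ε, r, hε, hr, hG⟩ := near_spN hB e hP G h0 hn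
  exact Lk_of_G dT DT dE DE hδ hd2 G (fun y τ hτ => by rw [hp]; exact h0 y τ hτ) hε hr hG

/-- distance of two families near the start -/
theorem exists_dist (hB : Bl M) (e : Emb n 𝒜) (hP : PSm 𝒜 P) (x x' : ZMod 8 → SMap (spN 𝒜 P).xR (spM 𝒜))
    (h0 : ∀ y : (spN 𝒜 P).pt, ∀ i, vM (x i) (y, 0) = vM (x' i) (y, 0)) :
    ∃ r : ℝ, 0 < r ∧ ∀ y s, |s| ≤ r → ∀ i, dist (vM (x i) (y, s)) (vM (x' i) (y, s)) < π := by
  have hπ := Real.pi_pos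
  have := compact_spN (𝒜 := 𝒜) hB e hP.sm
  have hL := locC_spN (P := P) hB e hP.sm hP.id
  obtain ⟨O, hO⟩ : ∃ O : Set (((spN 𝒜 P).pt × ℝ) × ℝ), O = ⋂ i : ZMod 8,
    {w | dist (vM (cstG x i) ((w.1.1, w.2), w.1.2)) (vM (cstG x' i) ((w.1.1, w.2), w.1.2)) < π} := ⟨_, rfl⟩
  have hOo : IsOpen O := by
    rw [hO]
    exact isOpen_iInter_of_finite fun i => isOpen_lt ((cont_vM hL (cstG x i)).dist (cont_vM hL (cstG x' i))) continuous_const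
  have hsub : ((univ : Set (spN 𝒜 P).pt) ×ˢ ({0} : Set ℝ)) ×ˢ ({0} : Set ℝ) ⊆ O := by
    rintro ⟨⟨y, τ⟩, s⟩ ⟨⟨-, hτ⟩, hs⟩
    rw [mem_singleton_iff] at hs
    simp only at hs hτ
    subst hs
    rw [hO, mem_iInter]
    intro i
    show dist (vM (x i) (y, 0)) (vM (x' i) (y, 0)) < π
    rw [h0 y i, dist_self]
    exact hπ
  obtain ⟨u, v, -, hv, hu1, hv1, huv⟩ := generalized_tube_lemma (isCompact_univ.prod isCompact_singleton) isCompact_singleton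
    hOo hsub
  obtain ⟨r, hr, hrv⟩ := Metric.isOpen_iff.1 hv 0 (hv1 (mem_singleton 0))
  refine ⟨r / 2, by positivity, fun y s hs i => ?_⟩
  have h3 : s ∈ v := hrv (by
    rw [Metric.mem_ball, Real.dist_eq, sub_zero]
    linarith)
  have h4 := huv (mk_mem_prod (hu1 (mk_mem_prod (mem_univ y) (mem_singleton 0))) h3)
  rw [hO, mem_iInter] at h4
  exact h4 i

theorem smAt_line {Y : Space} (x : SMap Y.xR (spM 𝒜)) {y : Y.pt} (hy : ∀ k, (fun _ : V k => y) ∈ Y.Pl k) (s : ℝ) :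
    SmAt 𝒜 (fun s => vM x (y, s)) s := by
  have h1 : L4.Sm 𝒜 (fun u : V 1 => vM x (y, u 0)) :=
    x.2 1 ⟨fun u => (y, u 0), hy 1, contDiff_apply ℝ ℝ (0 : Fin 1)⟩
  exact SmAt.comp (g := fun u : V 1 => vM x (y, u 0)) (f := fun s : ℝ => (fun _ => s : V 1)) (v := s) (h1 _)
    (contDiff_pi.2 fun _ => contDiff_id).contDiffAt

/-- **only the velocities matter** -/
theorem Lk_germ (e : Emb n 𝒜) (hP : PSm 𝒜 P) (hp : ∀ y : (spN 𝒜 P).pt, pB.1 y = y.1.1) (dT : dO _ T = 0) (DT : Deg 29 T)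
    (dE : dO _ E = (iL 𝒜 δ).pull T) (DE : Deg 28 E) (hδ : δ < π / 2)
    (hd2 : d ≤ π / 4) {x x' : ZMod 8 → SMap (spN 𝒜 P).xR (spM 𝒜)}
    (hst : ∀ y : (spN 𝒜 P).pt, (fun i => vM (x i) (y, 0)) = b8 y.1.1)
    (hst' : ∀ y : (spN 𝒜 P).pt, (fun i => vM (x' i) (y, 0)) = b8 y.1.1)
    (hv : ∀ y : (spN 𝒜 P).pt, vel8 𝒜 (fun s i => vM (x i) (y, s)) = vel8 𝒜 (fun s i => vM (x' i) (y, s)))
    (hn : ∀ y : (spN 𝒜 P).pt, H8 𝒜 y.1.1 (vel8 𝒜 fun s i => vM (x i) (y, s)) < 0) : Lk pB hB hd T E x x' := by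
  have hπ := Real.pi_pos
  have hc : ∀ (y : (spN 𝒜 P).pt) (k : ℕ), (fun _ : V k => y) ∈ (spN 𝒜 P).Pl k := fun y k => spN_cst y k
  obtain ⟨ε, r, hε, hr, hG⟩ := near_spN hB e hP (cstG x) (fun y _ _ => hst y) (fun y _ _ => hn y)
  obtain ⟨ε', r', hε', hr', hG'⟩ := near_spN hB e hP (cstG x') (fun y _ _ => hst' y)
    (fun y _ _ => by
      have h := hn y
      rw [hv y] at h
      exact h)
  have h00 : ∀ y : (spN 𝒜 P).pt, ∀ i, vM (x i) (y, 0) = vM (x' i) (y, 0) := fun y i =>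
    (congrFun (hst y) i).trans (congrFun (hst' y) i).symm
  obtain ⟨r2, hr2, hD⟩ := exists_dist hB e hP x x' h00
  obtain ⟨ρ, hρ⟩ : ∃ ρ, ρ = min (min r r') r2 := ⟨_, rfl⟩
  have hρ0 : 0 < ρ := by rw [hρ]; exact lt_min (lt_min hr hr') hr2
  have hρr : ρ ≤ r := by rw [hρ]; exact (min_le_left _ _).trans (min_le_left _ _)
  have hρr' : ρ ≤ r' := by rw [hρ]; exact (min_le_left _ _).trans (min_le_right _ _)
  have hρ2 : ρ ≤ r2 := by rw [hρ]; exact min_le_right _ _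
  obtain ⟨φ, hφd⟩ : ∃ φ : ℝ → ℝ, φ = fun s => ρ * Real.sin (ρ⁻¹ * s) := ⟨_, rfl⟩
  have hφ : ContDiff ℝ ∞ φ := by
    rw [hφd]
    exact contDiff_const.mul (Real.contDiff_sin.comp (contDiff_const.mul contDiff_id))
  have φ0 : φ 0 = 0 := by rw [hφd]; simp only [mul_zero, Real.sin_zero]
  have hφ1 : deriv φ 0 = 1 := by
    have h1 : HasDerivAt (fun s : ℝ => ρ⁻¹ * s) ρ⁻¹ 0 := by
      have h := (hasDerivAt_id (0 : ℝ)).const_mul ρ⁻¹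
      rwa [mul_one] at h
    have h2 : HasDerivAt (fun s : ℝ => ρ * Real.sin (ρ⁻¹ * s)) (ρ * (Real.cos (ρ⁻¹ * 0) * ρ⁻¹)) 0 := h1.sin.const_mul ρ
    rw [hφd, h2.deriv, mul_zero, Real.cos_zero, one_mul, mul_inv_cancel₀ hρ0.ne']
  have hφb : ∀ s, |φ s| ≤ ρ := fun s => by
    rw [hφd]
    show |ρ * Real.sin (ρ⁻¹ * s)| ≤ ρ
    rw [abs_mul, abs_of_pos hρ0]
    exact mul_le_of_le_one_right hρ0.le (Real.abs_sin_le_one _)
  have hφp : ∀ s, 0 < s → s ≤ ρ → 0 < φ s := fun s h1 h2 => by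
    rw [hφd]
    refine mul_pos hρ0 (Real.sin_pos_of_pos_of_lt_pi (by positivity) ?_)
    have h3 : ρ⁻¹ * s ≤ ρ⁻¹ * ρ := mul_le_mul_of_nonneg_left h2 (inv_pos.2 hρ0).le
    rw [inv_mul_cancel₀ hρ0.ne'] at h3
    linarith [Real.pi_gt_three]
  -- the interpolation
  obtain ⟨G, hGd⟩ : ∃ G : ZMod 8 → SMap (spN 𝒜 P).xR.xR (spM 𝒜), ∀ i y s τ, vM (G i) ((y, s), τ) =
      rat 𝒜 (vM (x i) (y, φ s)) (vM (x' i) (y, φ s)) (Real.smoothTransition τ) := by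
    refine ⟨fun i => ⟨fun z => (rat 𝒜 (vM (x i) (z.1.1, φ z.1.2)) (vM (x' i) (z.1.1, φ z.1.2))
      (Real.smoothTransition z.2) : M), fun k p => ?_⟩, fun _ _ _ _ => rfl⟩
    intro u
    have q1 : L4.Sm 𝒜 (fun u => vM (x i) ((p.1 u).1.1, φ (p.1 u).1.2)) :=
      (x i).2 k ⟨fun u => ((p.1 u).1.1, φ (p.1 u).1.2), p.2.1.1, hφ.comp p.2.1.2⟩
    have q2 : L4.Sm 𝒜 (fun u => vM (x' i) ((p.1 u).1.1, φ (p.1 u).1.2)) :=
      (x' i).2 k ⟨fun u => ((p.1 u).1.1, φ (p.1 u).1.2), p.2.1.1, hφ.comp p.2.1.2⟩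
    exact smAt_rat hB (q1 u) (q2 u) (Real.smoothTransition.contDiff.comp p.2.2).contDiffAt
      (hD _ _ ((hφb _).trans hρ2) i)
  have m0 : ∀ (p : M) (t : ℝ), 0 ≤ t → t ≤ 1 → rat 𝒜 p p t = p := fun p t a b => by
    have h := dist_rat (𝒜 := 𝒜) hB p p a b
    rw [dist_self, mul_zero] at h
    exact (dist_eq_zero.1 h).symm
  have hst2 : ∀ y : (spN 𝒜 P).pt, ∀ τ ∈ Icc (0 : ℝ) 1, (fun i => vM (G i) ((y, 0), τ)) = b8 y.1.1 := fun y τ _ =>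
    funext fun i => by
      rw [hGd, φ0, ← h00 y i, m0 _ _ (Real.smoothTransition.nonneg _) (Real.smoothTransition.le_one _)]
      exact congrFun (hst y) i
  have hvel : ∀ (y : (spN 𝒜 P).pt) (τ : ℝ), vel8 𝒜 (fun s i => vM (G i) ((y, s), τ)) =
      vel8 𝒜 (fun s i => vM (x i) (y, s)) := fun y τ => funext fun i => by
    have h1 := vel_rat (𝒜 := 𝒜) hB (x := fun s => vM (x i) (y, s)) (x' := fun s => vM (x' i) (y, s))
      (smAt_line (x i) (hc y) 0) (smAt_line (x' i) (hc y) 0) (h00 y i) (congrFun (hv y) i) hφ φ0 hφ1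
      (Real.smoothTransition.nonneg τ) (Real.smoothTransition.le_one τ)
    have h2 : (fun s => vM (G i) ((y, s), τ)) = fun s => rat 𝒜 (vM (x i) (y, φ s)) (vM (x' i) (y, φ s))
      (Real.smoothTransition τ) := funext fun s => hGd i y s τ
    show 𝒜.vel (fun s => vM (G i) ((y, s), τ)) 0 = 𝒜.vel (fun s => vM (x i) (y, s)) 0
    rw [h2]
    exact h1
  have k1 := Lk_of_H (hB := hB) (hd := hd) e hP hp dT DT dE DE hδ hd2 G hst2 (fun y τ _ => by rw [hvel]; exact hn y)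
  have e0 : slc G 0 = reM x hφ := funext fun i => SMap_ext fun z => by
    show vM (G i) ((z.1, z.2), 0) = vM (x i) (z.1, φ z.2)
    rw [hGd, Real.smoothTransition.zero, rat_zero hB]
  have e1 : slc G 1 = reM x' hφ := funext fun i => SMap_ext fun z => by
    show vM (G i) ((z.1, z.2), 1) = vM (x' i) (z.1, φ z.2)
    rw [hGd, Real.smoothTransition.one, rat_one hB]
  rw [e0, e1] at k1
  have k0 := Lk_re (pB := pB) (hB := hB) (hd := hd) dT DT dE DE hδ hd2 (fun y => by rw [hp]; exact hst y) hε hr hG hφ φ0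
    (fun s => (hφb s).trans hρr) hρ0 hφp
  have k2 := Lk_re (pB := pB) (hB := hB) (hd := hd) dT DT dE DE hδ hd2 (fun y => by rw [hp]; exact hst' y) hε' hr' hG' hφ φ0
    (fun s => (hφb s).trans hρr') hρ0 hφp
  exact (k0.trans dE DE k1).trans dE DE k2.symm

/-! ### admissible paths -/

/-- the family `Ex (s a)` -/
theorem exists_exG (hB : Bl M) {X : ℝ → (spN 𝒜 P).pt → ZMod 8 → Eu n} (hX : SmA P X) :
    ∃ G : ZMod 8 → SMap (spN 𝒜 P).xR.xR (spM 𝒜), ∀ i y s τ, vM (G i) ((y, s), τ) = ex8 𝒜 y.1.1 (X τ y) s i := by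
  refine ⟨fun i => ⟨fun z => (ex8 𝒜 z.1.1.1.1 (X z.2 z.1.1) z.1.2 i : M), fun k p => ?_⟩, fun _ _ _ _ => rfl⟩
  intro u
  obtain ⟨q, hq⟩ : ∃ q : (spN 𝒜 P).Plot k, ∀ v, q.1 v = (p.1 v).1.1 := ⟨⟨fun v => (p.1 v).1.1, p.2.1.1⟩, fun _ => rfl⟩
  have hσ : SmGAt 𝒜 (fun v : V k × ℝ => (q.1 v.1).1.1) (u, (p.1 u).2) :=
    SmGAt.comp (σ := fun v : V k => (q.1 v).1.1) (f := fun v : V k × ℝ => v.1) (SmG.atP q.2.1 u) contDiffAt_fst
  have h1 := smAt_ex8 (𝒜 := 𝒜) hB (σ := fun v : V k × ℝ => (q.1 v.1).1.1) (a := fun v : V k × ℝ => X v.2 (q.1 v.1))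
    hσ (fun i => hX k q (u, (p.1 u).2) i) (p.1 u).1.2 i
  have h2 : ContDiffAt ℝ ∞ (fun v : V k => ((v, (p.1 v).2), (p.1 v).1.2)) u :=
    ((contDiff_id.prodMk p.2.2).prodMk p.2.1.2).contDiffAt
  have h3 := SmAt.comp (g := fun z : (V k × ℝ) × ℝ => ex8 𝒜 (q.1 z.1.1).1.1 (X z.1.2 (q.1 z.1.1)) z.2 i)
    (f := fun v : V k => ((v, (p.1 v).2), (p.1 v).1.2)) (v := u) h1 h2
  refine h3.congr (Eventually.of_forall fun v => ?_)
  show ex8 𝒜 (p.1 v).1.1.1.1 (X (p.1 v).2 (p.1 v).1.1) (p.1 v).1.2 i = ex8 𝒜 (q.1 v).1.1 (X (p.1 v).2 (q.1 v)) (p.1 v).1.2 i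
  rw [hq]

/-- the family `Ex (s a)` -/
def IsEx (a : (spN 𝒜 P).pt → ZMod 8 → Eu n) (x : ZMod 8 → SMap (spN 𝒜 P).xR (spM 𝒜)) : Prop :=
  ∀ i y s, vM (x i) (y, s) = ex8 𝒜 y.1.1 (a y) s i

theorem IsEx.uniq {a : (spN 𝒜 P).pt → ZMod 8 → Eu n} {x x' : ZMod 8 → SMap (spN 𝒜 P).xR (spM 𝒜)} (h : IsEx a x)
    (h' : IsEx a x') : x = x' := funext fun i => SMap_ext fun z => (h i z.1 z.2).trans (h' i z.1 z.2).symm

theorem Lk_AP (e : Emb n 𝒜) (hP : PSm 𝒜 P) (hp : ∀ y : (spN 𝒜 P).pt, pB.1 y = y.1.1) (dT : dO _ T = 0) (DT : Deg 29 T)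
    (dE : dO _ E = (iL 𝒜 δ).pull T) (DE : Deg 28 E) (hδ : δ < π / 2)
    (hd2 : d ≤ π / 4) {a a' : (spN 𝒜 P).pt → ZMod 8 → Eu n} (h : AP P a a') :
    ∃ x x', IsEx a x ∧ IsEx a' x' ∧ Lk pB hB hd T E x x' := by
  obtain ⟨X, hX, h0, h1, hn⟩ := h
  obtain ⟨G, hG⟩ := exists_exG hB hX
  refine ⟨slc G 0, slc G 1, fun i y s => ?_, fun i y s => ?_, ?_⟩
  · rw [slc_apply, hG, h0]
  · rw [slc_apply, hG, h1]
  · refine Lk_of_H e hP hp dT DT dE DE hδ hd2 G (fun y τ _ => ?_) (fun y τ hτ => ?_)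
    · have h2 : (fun i => vM (G i) ((y, 0), τ)) = ex8 𝒜 y.1.1 (X τ y) 0 := funext fun i => hG i y 0 τ
      rw [h2, ex8_zero hB]
    · have h2 : (fun (s : ℝ) (i : ZMod 8) => vM (G i) ((y, s), τ)) = ex8 𝒜 y.1.1 (X τ y) :=
        funext fun s => funext fun i => hG i y s τ
      rw [h2, vel8_ex8 hB]
      exact hn τ hτ y

/-- **chains of admissible paths** -/
theorem Lk_chain (e : Emb n 𝒜) (hP : PSm 𝒜 P) (hp : ∀ y : (spN 𝒜 P).pt, pB.1 y = y.1.1) (dT : dO _ T = 0) (DT : Deg 29 T)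
    (dE : dO _ E = (iL 𝒜 δ).pull T) (DE : Deg 28 E) (hδ : δ < π / 2)
    (hd2 : d ≤ π / 4) {a a' : (spN 𝒜 P).pt → ZMod 8 → Eu n} (h : Relation.TransGen (AP P) a a') :
    ∃ x x', IsEx a x ∧ IsEx a' x' ∧ Lk pB hB hd T E x x' := by
  induction h with
  | single h => exact Lk_AP e hP hp dT DT dE DE hδ hd2 h
  | tail _ h ih =>
    obtain ⟨x, x', h1, h2, h3⟩ := ih
    obtain ⟨z, z', h4, h5, h6⟩ := Lk_AP (pB := pB) (hB := hB) (hd := hd) e hP hp dT DT dE DE hδ hd2 h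
    have h7 : x' = z := h2.uniq h4
    subst h7
    exact ⟨x, z', h1, h5, h3.trans dE DE h6⟩

/-- **from the velocities at the two ends and a chain of admissible paths to the link** -/
theorem Lk_main (e : Emb n 𝒜) (hP : PSm 𝒜 P) (hp : ∀ y : (spN 𝒜 P).pt, pB.1 y = y.1.1) (dT : dO _ T = 0) (DT : Deg 29 T)
    (dE : dO _ E = (iL 𝒜 δ).pull T) (DE : Deg 28 E) (hδ : δ < π / 2)
    (hd2 : d ≤ π / 4) {a a' : (spN 𝒜 P).pt → ZMod 8 → Eu n} (h : Relation.TransGen (AP P) a a')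
    {x x' : ZMod 8 → SMap (spN 𝒜 P).xR (spM 𝒜)} (hst : ∀ y : (spN 𝒜 P).pt, (fun i => vM (x i) (y, 0)) = b8 y.1.1)
    (hst' : ∀ y : (spN 𝒜 P).pt, (fun i => vM (x' i) (y, 0)) = b8 y.1.1)
    (hv : ∀ y : (spN 𝒜 P).pt, vel8 𝒜 (fun s i => vM (x i) (y, s)) = a y)
    (hv' : ∀ y : (spN 𝒜 P).pt, vel8 𝒜 (fun s i => vM (x' i) (y, s)) = a' y) : Lk pB hB hd T E x x' := by
  have hl : ∀ y : (spN 𝒜 P).pt, H8 𝒜 y.1.1 (a y) < 0 := by
    obtain ⟨c, h1, -⟩ := Relation.TransGen.head'_iff.1 h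
    exact h1.left.2
  have hr : ∀ y : (spN 𝒜 P).pt, H8 𝒜 y.1.1 (a' y) < 0 := by
    obtain ⟨c, -, h1⟩ := Relation.TransGen.tail'_iff.1 h
    exact h1.right.2
  obtain ⟨z, z', h1, h2, h3⟩ := Lk_chain (pB := pB) (hB := hB) (hd := hd) e hP hp dT DT dE DE hδ hd2 h
  have key : ∀ {a : (spN 𝒜 P).pt → ZMod 8 → Eu n} {x z : ZMod 8 → SMap (spN 𝒜 P).xR (spM 𝒜)}, IsEx a z →
      (∀ y : (spN 𝒜 P).pt, (fun i => vM (x i) (y, 0)) = b8 y.1.1) →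
      (∀ y : (spN 𝒜 P).pt, vel8 𝒜 (fun s i => vM (x i) (y, s)) = a y) → (∀ y : (spN 𝒜 P).pt, H8 𝒜 y.1.1 (a y) < 0) →
      Lk pB hB hd T E x z := by
    intro a x z hz hx hvx hn
    have e1 : ∀ y : (spN 𝒜 P).pt, (fun (s : ℝ) (i : ZMod 8) => vM (z i) (y, s)) = ex8 𝒜 y.1.1 (a y) := fun y =>
      funext fun s => funext fun i => hz i y s
    refine Lk_germ e hP hp dT DT dE DE hδ hd2 hx (fun y => ?_) (fun y => ?_) (fun y => ?_)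
    · have e2 : (fun i => vM (z i) (y, 0)) = ex8 𝒜 y.1.1 (a y) 0 := funext fun i => hz i y 0
      rw [e2, ex8_zero hB]
    · rw [hvx, e1, vel8_ex8 hB]
    · rw [hvx]
      exact hn y
  exact ((key h1 hst hv hl).trans dE DE h3).trans dE DE (key h2 hst' hv' hr).symm

end spN

end Pool.Agent.Lib.MP_ccbbf6_gt.K7.FC
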