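import Pool.Agent.Lib.MP_ccbbf6_gt.K7.FC3
import Pool.Agent.Lib.MP_ccbbf6_gt.K7.FC6

/-!
# `κ = 7`, block F-C, file FC7: the ends (helper28)

* `exists_gap` : energy below `2 π²` on `[s1, A]`, uniformly.
* `end_link` : a family `x (y, φ0 s)` and the rescaled family `x (y, s1 st s)`.
* `link8` : from two families with linked germs to `PE`.
* `Kend` : the family `k8 (g4 (Φ (y, s)))`.
-/

set_option autoImplicit false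
set_option maxSynthPendingDepth 3
set_option linter.unusedSectionVars false

open Set Filter Topology Metric Real Module
open scoped ContDiff RealInnerProductSpace

noncomputable section

namespace Pool.Agent.Lib.MP_ccbbf6_gt.K7.FC

open Geo L4 L4.ORI L4.FR L5 L5.NEG K7 HQ SU

variable {n : ℕ} {M : Type} [MetricSpace M] [CompactSpace M] {𝒜 : SDist n M} {d δ : ℝ}

section spN

variable {N : ℕ} {P : Gs M → Eu N →L[ℝ] Eu N} [Nonempty (Gs M)] {hB : Bl M} {hd : 0 < d} {T : Om (spO 𝒜)}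
  {E : Om (spL 𝒜 δ)} {pB : SMap (spN 𝒜 P) (spG 𝒜)}

theorem cont_E8 (hB : Bl M) (e : Emb n 𝒜) (hP : PSm 𝒜 P) (x : ZMod 8 → SMap (spN 𝒜 P).xR (spM 𝒜)) :
    Continuous fun w : (spN 𝒜 P).pt × ℝ => E8 (fun i => vM (x i) (w.1, w.2)) := by
  have hL := locC_spN (P := P) hB e hP.sm hP.id
  have h1 : ∀ i, Continuous fun w : (spN 𝒜 P).pt × ℝ => vM (x i) (w.1, w.2) := fun i => by
    have h2 := cont_vM hL (cstG x i)
    have h3 : Continuous fun w : (spN 𝒜 P).pt × ℝ => ((w.1, (0 : ℝ)), w.2) := by fun_prop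
    exact h2.comp h3
  unfold E8
  exact continuous_finsetSum _ fun i _ => ((h1 i).dist (h1 (i + 1))).pow 2

theorem exists_gap (hB : Bl M) (e : Emb n 𝒜) (hP : PSm 𝒜 P) {x : ZMod 8 → SMap (spN 𝒜 P).xR (spM 𝒜)} {s1 A : ℝ}
    (h : ∀ y s, s1 ≤ s → s ≤ A → E8 (fun i => vM (x i) (y, s)) < 2 * π ^ 2) :
    ∃ ε : ℝ, 0 < ε ∧ ∀ y s, s1 ≤ s → s ≤ A → E8 (fun i => vM (x i) (y, s)) ≤ 2 * π ^ 2 - ε := by
  have := compact_spN (𝒜 := 𝒜) hB e hP.sm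
  have hc : IsCompact ((univ : Set (spN 𝒜 P).pt) ×ˢ Icc s1 A) := isCompact_univ.prod isCompact_Icc
  rcases ((univ : Set (spN 𝒜 P).pt) ×ˢ Icc s1 A).eq_empty_or_nonempty with h0 | h0
  · refine ⟨1, one_pos, fun y s h1 h2 => ?_⟩
    have h3 : (y, s) ∈ (univ : Set (spN 𝒜 P).pt) ×ˢ Icc s1 A := ⟨mem_univ _, h1, h2⟩
    rw [h0] at h3
    exact absurd h3 (notMem_empty _)
  · obtain ⟨w0, hw0, hb⟩ := hc.exists_isMaxOn h0 (cont_E8 hB e hP x).continuousOn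
    have ha := h w0.1 w0.2 hw0.2.1 hw0.2.2
    refine ⟨2 * π ^ 2 - E8 (fun i => vM (x i) (w0.1, w0.2)), by linarith, fun y s h1 h2 => ?_⟩
    have h3 : E8 (fun i => vM (x i) (y, s)) ≤ E8 (fun i => vM (x i) (w0.1, w0.2)) :=
      hb (show (y, s) ∈ (univ : Set (spN 𝒜 P).pt) ×ˢ Icc s1 A from ⟨mem_univ _, h1, h2⟩)
    linarith

/-- **a family and its germ** -/
theorem end_link (e : Emb n 𝒜) (hP : PSm 𝒜 P) (hp : ∀ y : (spN 𝒜 P).pt, pB.1 y = y.1.1) (dT : dO _ T = 0) (DT : Deg 29 T)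
    (dE : dO _ E = (iL 𝒜 δ).pull T) (DE : Deg 28 E) (hδ : δ < π / 2) (hd2 : d ≤ π / 4)
    {x : ZMod 8 → SMap (spN 𝒜 P).xR (spM 𝒜)} (hst : ∀ y : (spN 𝒜 P).pt, (fun i => vM (x i) (y, 0)) = b8 y.1.1)
    {φ0 : ℝ → ℝ} (h0 : ContDiff ℝ ∞ φ0) (z0 : φ0 0 = 0) {A : ℝ} (hA : φ0 1 = A) {D : Set ℝ}
    (hD : ∀ s1, 0 < s1 → s1 ≤ A → ∀ s, ∀ t ∈ Icc (0 : ℝ) 1, (1 - t) * φ0 s + t * sc s1 s ∈ D)
    (hside : ∀ y, ∀ σ ∈ D, ∀ i, dist (vM (x i) (y, σ)) (vM (x (i + 1)) (y, σ)) ≤ 3 * π / 4)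
    (hE : ∀ y s, 0 < s → s ≤ A → E8 (fun i => vM (x i) (y, s)) < 2 * π ^ 2) {s1 : ℝ} (hs0 : 0 < s1) (hs1 : s1 ≤ A)
    {g0 g1 : SMap (spN 𝒜 P).xR (spX8 𝒜 d)} {b0 b1 : Om (spN 𝒜 P)} (f0 : Fam x φ0 g0) (f1 : Fam x (sc s1) g1)
    (hb0 : IsB hB hd T E (g0.comp (jO _ 1)) b0) (hb1 : IsB hB hd T E (g1.comp (jO _ 1)) b1) :
    PE pB (om8 hB hd T g1 b1) (om8 hB hd T g0 b0) := by
  obtain ⟨ε, hε, hgap⟩ := exists_gap hB e hP (x := x) (s1 := s1) (A := A) fun y s a b => hE y s (by linarith) b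
  refine homR dT DT dE DE hδ hd2 x h0 (contDiff_sc s1) z0 (sc_zero s1) (fun y => by rw [hp]; exact hst y)
    (fun y s i t ht => hside y _ (hD s1 hs0 hs1 s t ht) i) hε (fun y t ht => hgap y _ ?_ ?_) f0 f1 hb0 hb1
  · rw [hA, sc_one]
    nlinarith [mul_nonneg (show 0 ≤ 1 - t by linarith [ht.2]) (show 0 ≤ A - s1 by linarith)]
  · rw [hA, sc_one]
    nlinarith [mul_nonneg ht.1 (show 0 ≤ A - s1 by linarith)]

/-- one end: a family of 8-gons with its parameter -/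
structure End (x : ZMod 8 → SMap (spN 𝒜 P).xR (spM 𝒜)) (φ0 : ℝ → ℝ) (A : ℝ) (D : Set ℝ) : Prop where
  st : ∀ y : (spN 𝒜 P).pt, (fun i => vM (x i) (y, 0)) = b8 y.1.1
  sm : ContDiff ℝ ∞ φ0
  z0 : φ0 0 = 0
  one : φ0 1 = A
  pos : 0 < A
  mem : ∀ s1, 0 < s1 → s1 ≤ A → ∀ s, ∀ t ∈ Icc (0 : ℝ) 1, (1 - t) * φ0 s + t * sc s1 s ∈ D
  side : ∀ y, ∀ σ ∈ D, ∀ i, dist (vM (x i) (y, σ)) (vM (x (i + 1)) (y, σ)) ≤ 3 * π / 4
  en : ∀ y s, 0 < s → s ≤ A → E8 (fun i => vM (x i) (y, s)) < 2 * π ^ 2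

theorem End.exists_b (e : Emb n 𝒜) (hP : PSm 𝒜 P) {x : ZMod 8 → SMap (spN 𝒜 P).xR (spM 𝒜)} {φ0 : ℝ → ℝ} {A : ℝ} {D : Set ℝ}
    (h : End x φ0 A D) (hδ : δ < π / 2) (T : Om (spO 𝒜)) (E : Om (spL 𝒜 δ)) {g : SMap (spN 𝒜 P).xR (spX8 𝒜 d)}
    (f0 : Fam x φ0 g) : ∃ b, IsB hB hd T E (g.comp (jO _ 1)) b := by
  obtain ⟨ε, hε, hgap⟩ := exists_gap hB e hP (x := x) (s1 := A) (A := A) fun y s a b => h.en y s (by linarith [h.pos]) b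
  refine exists_isB hB hd hδ T E _ hε fun y => ?_
  have e1 : ((g.comp (jO (spN 𝒜 P) 1)).1 y).1 = fun i => vM (x i) (y, A) := funext fun i => by
    rw [← h.one]
    exact f0 y 1 i
  rw [e1]
  exact hgap y A le_rfl le_rfl

/-- **two ends with linked germs** -/
theorem link8 (e : Emb n 𝒜) (hP : PSm 𝒜 P) (hp : ∀ y : (spN 𝒜 P).pt, pB.1 y = y.1.1) (dT : dO _ T = 0) (DT : Deg 29 T)
    (dE : dO _ E = (iL 𝒜 δ).pull T) (DE : Deg 28 E) (hδ : δ < π / 2) (hd2 : d ≤ π / 4)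
    {x x' : ZMod 8 → SMap (spN 𝒜 P).xR (spM 𝒜)} (hl : Lk pB hB hd T E x x') {φ φ' : ℝ → ℝ} {A A' : ℝ} {D D' : Set ℝ}
    (h : End x φ A D) (h' : End x' φ' A' D') {g g' : SMap (spN 𝒜 P).xR (spX8 𝒜 d)} (f : Fam x φ g) (f' : Fam x' φ' g')
    {b b' : Om (spN 𝒜 P)} (hb : IsB hB hd T E (g.comp (jO _ 1)) b) (hb' : IsB hB hd T E (g'.comp (jO _ 1)) b') :
    PE pB (om8 hB hd T g b) (om8 hB hd T g' b') := by
  obtain ⟨s0, h0, h1⟩ := hl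
  obtain ⟨k, k', c, c', f1, f2, f3, f4, f5⟩ := h1 (min s0 (min A A')) (lt_min h0 (lt_min h.pos h'.pos)) (min_le_left _ _)
  have hpos : 0 < min s0 (min A A') := lt_min h0 (lt_min h.pos h'.pos)
  have a1 : min s0 (min A A') ≤ A := (min_le_right _ _).trans (min_le_left _ _)
  have a2 : min s0 (min A A') ≤ A' := (min_le_right _ _).trans (min_le_right _ _)
  have l1 := end_link e hP hp dT DT dE DE hδ hd2 h.st h.sm h.z0 h.one h.mem h.side h.en hpos a1 f f1 hb f3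
  have l2 := end_link e hP hp dT DT dE DE hδ hd2 h'.st h'.sm h'.z0 h'.one h'.mem h'.side h'.en hpos a2 f' f2 hb' f4
  exact (l1.symm.trans f5).trans l2

end spN

/-! ### the end `K2` -/

/-- the vertices of an 8-gon -/
def vx8 (𝒜 : SDist n M) (d : ℝ) (i : ZMod 8) : SMap (spX8 𝒜 d) (spM 𝒜) := ⟨fun x => (x.1 i : M), fun _ p => p.2 i⟩

theorem k8_side (𝒜 : SDist n M) (hB : Bl M) {bV : SBun 7 (spG 𝒜) (spF 𝒜)} (hb : ∀ c, bV.pi.1 c = (gF hB).1 c)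
    (w : (T4 bV).pt) (i : ZMod 8) : dist (k8 (g4 bV w) i) (k8 (g4 bV w) (i + 1)) ≤ π / 2 := by
  have hπ := Real.pi_pos
  have h1 := ((smp8 𝒜 (π / 2)).1 ((rotE 𝒜 (π / 2)).1 ((e2 bV hB hb (by linarith) le_rfl).1 w))).2 i
  rw [smp_e2] at h1
  linarith

section Kend

variable {N : ℕ} {P : Gs M → Eu N →L[ℝ] Eu N} {bV : SBun 7 (spG 𝒜) (spF 𝒜)}

/-- the family `k8 (g4 (Φ (y, s)))` as a family of vertices -/
def xK (hB : Bl M) (hb : ∀ c, bV.pi.1 c = (gF hB).1 c) (hd0 : 0 < d) (hd : d ≤ π / 2) (Φ : SMap (spN 𝒜 P).xR (T4 bV))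
    (i : ZMod 8) : SMap (spN 𝒜 P).xR (spM 𝒜) :=
  (vx8 𝒜 d i).comp ((smr 𝒜 d (3 / 8)).comp ((e2 bV hB hb hd0 hd).comp Φ))

theorem xK_eq (hB : Bl M) (hb : ∀ c, bV.pi.1 c = (gF hB).1 c) (hd0 : 0 < d) (hd : d ≤ π / 2)
    (Φ : SMap (spN 𝒜 P).xR (T4 bV)) (i : ZMod 8) (y : (spN 𝒜 P).pt) (s : ℝ) :
    vM (xK hB hb hd0 hd Φ i) (y, s) = k8 (g4 bV (Φ.1 (y, s))) i :=
  congrFun (smp_e2 bV hB hb hd0 hd (Φ.1 (y, s))) i

theorem Fam_xK (hB : Bl M) (hb : ∀ c, bV.pi.1 c = (gF hB).1 c) (hd0 : 0 < d) (hd : d ≤ π / 2)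
    (Φ : SMap (spN 𝒜 P).xR (T4 bV)) :
    Fam (xK hB hb hd0 hd Φ) id ((smr 𝒜 d (3 / 8)).comp ((e2 bV hB hb hd0 hd).comp Φ)) := fun _ _ _ => rfl

theorem End_xK (hB : Bl M) (hb : ∀ c, bV.pi.1 c = (gF hB).1 c) (hd0 : 0 < d) (hd : d ≤ π / 2)
    {Φ : SMap (spN 𝒜 P).xR (T4 bV)} (hst : ∀ y : (spN 𝒜 P).pt, k8 (g4 bV (Φ.1 (y, 0))) = b8 y.1.1)
    (hE : ∀ y s, 0 < s → s ≤ 1 → E8 (k8 (g4 bV (Φ.1 (y, s)))) < 2 * π ^ 2) :
    End (xK hB hb hd0 hd Φ) id 1 univ where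
  st := fun y => by
    have e : (fun i => vM (xK hB hb hd0 hd Φ i) (y, 0)) = k8 (g4 bV (Φ.1 (y, 0))) := funext fun i => xK_eq hB hb hd0 hd Φ i y 0
    rw [e]
    exact hst y
  sm := contDiff_id
  z0 := rfl
  one := rfl
  pos := one_pos
  mem := fun _ _ _ _ _ _ => mem_univ _
  side := fun y σ _ i => by
    rw [xK_eq, xK_eq]
    have h := k8_side 𝒜 hB hb (Φ.1 (y, σ)) i
    linarith [Real.pi_pos]
  en := fun y s h0 h1 => by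
    have e : (fun i => vM (xK hB hb hd0 hd Φ i) (y, s)) = k8 (g4 bV (Φ.1 (y, s))) := funext fun i => xK_eq hB hb hd0 hd Φ i y s
    rw [e]
    exact hE y s h0 h1

end Kend

end Pool.Agent.Lib.MP_ccbbf6_gt.K7.FC
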