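import Pool.Agent.Lib.MP_ccbbf6_gt.K7.DP11
import Pool.Agent.Lib.MP_ccbbf6_gt.K7.DP11b
import Pool.Agent.Lib.MP_ccbbf6_gt.K7.FC7
import Pool.Agent.Lib.MP_ccbbf6_gt.K7.RG9
import Pool.Agent.Lib.MP_ccbbf6_gt.K7.VI

/-!
# `κ = 7`, block F-C, file FC8: the comparison of the two shortenings (helper28)

* `rR`, `qR` : the shortening of the doubled geodesics as a family of loops in `spOd`, its end in `spOq`.
* `xRv` : its vertices, `End_xRv`, `Fam_xRv`.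
* `hRel` : the relative families `R` and `rho_K` agree up to exact forms and forms of the base, from a chain of admissible
  paths between the velocities of the two ends.
-/

set_option autoImplicit false
set_option maxSynthPendingDepth 3
set_option linter.unusedSectionVars false

open Set Filter Topology Metric Real Module
open scoped ContDiff RealInnerProductSpace

noncomputable section

namespace Pool.Agent.Lib.MP_ccbbf6_gt.K7.FC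

open Geo L4 L4.ORI L4.FR L5 L5.NEG K7 HQ SU RG

variable {n κ N : ℕ} {M : Type} [MetricSpace M] [CompactSpace M] {𝒜 : SDist n M} {d δ : ℝ}
  {P : Gs M → Eu N →L[ℝ] Eu N} {CR : Eu (N + (N + N)) → Gs M → M} {hB : Bl M} {f : Gs M → Eu N → M}

omit [CompactSpace M] in
theorem LC_of_K {c : ℝ → M} {K : ℝ} (h : ∀ s t, dist (c s) (c t) ≤ K * |s - t|) (h1 : K ≤ π - d) : LC d c := by
  refine ⟨fun t => K * t, fun s t hst => ?_, fun s => ?_⟩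
  · have h3 := h s t
    rw [abs_of_nonpos (by linarith)] at h3
    linarith
  · show K * (s + 1) - K * s ≤ π - d
    linarith

/-- every value of the parameter -/
theorem exists_sc {a σ : ℝ} (h0 : 0 ≤ σ) (h1 : σ ≤ a) : ∃ s, sc a s = σ := by
  have hc : ContinuousOn (sc a) (Icc 0 1) := (contDiff_sc a).continuous.continuousOn
  have h := intermediate_value_Icc zero_le_one hc
  rw [sc_zero, sc_one] at h
  obtain ⟨s, -, hs⟩ := h ⟨h0, h1⟩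
  exact ⟨s, hs⟩

section Rend

variable {hN : NegData 𝒜 κ hB (resC CR) P} {hF : FillP 𝒜 (resC CR) P f}

/-- the negative bundle is a smooth bundle of projections -/
theorem PSm_neg {L : ℕ} {C : Eu L → Gs M → M} {P : Gs M → Eu L →L[ℝ] Eu L} (hN : NegData 𝒜 κ hB C P) : PSm 𝒜 P :=
  ⟨fun h => hN.smooth h, hN.idem⟩

/-- the Lipschitz constant -/
def lR (D : RFam hN hF) (s : ℝ) : ℝ := √(1 - (sc D.a s) ^ 2 * D.ε)

theorem lR_nonneg (D : RFam hN hF) (s : ℝ) : 0 ≤ lR D s := Real.sqrt_nonneg _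

theorem lR_le (D : RFam hN hF) (s : ℝ) : lR D s ≤ 1 := by
  have h := Real.sqrt_le_sqrt (show 1 - (sc D.a s) ^ 2 * D.ε ≤ 1 by nlinarith [mul_nonneg (sq_nonneg (sc D.a s)) D.ε0.le])
  rwa [Real.sqrt_one] at h

theorem lR_lt (D : RFam hN hF) {s : ℝ} (h : 0 < sc D.a s) : lR D s < 1 := by
  unfold lR
  rw [Real.sqrt_lt' one_pos, one_pow]
  have : 0 < (sc D.a s) ^ 2 * D.ε := mul_pos (pow_pos h 2) D.ε0
  linarith

theorem lipR (D : RFam hN hF) (y : (spY 𝒜 P).pt) (s t t' : ℝ) :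
    dist (α := M) (D.R.1 ((circY hB hN).a.1 (y, t / 8), s)) (D.R.1 ((circY hB hN).a.1 (y, t' / 8), s)) ≤
      (lR D s * (π / 2)) * |t - t'| := by
  have h := D.lipAll y s (π / 2 * t) (π / 2 * t')
  have e : ∀ t : ℝ, (4 * π)⁻¹ * (π / 2 * t) = t / 8 := fun t => by
    have := Real.pi_pos
    field_simp
    ring
  simp only [e] at h
  have e2 : |π / 2 * t - π / 2 * t'| = π / 2 * |t - t'| := by
    rw [← mul_sub, abs_mul, abs_of_pos (by positivity)]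
  rw [e2, ← mul_assoc] at h
  exact h

/-- the shortening as a family of loops -/
def rR (D : RFam hN hF) (hd : d ≤ π / 2) : SMap (spY 𝒜 P).xR (spOd 𝒜 d) :=
  ⟨fun z => ⟨((gLO (xRc (circY hB hN)) D.R).1 z).1, ((gLO (xRc (circY hB hN)) D.R).1 z).2,
    LC_of_K (K := lR D z.2 * (π / 2)) (fun s t => lipR D z.1 z.2 s t) (by
      have h := mul_le_mul_of_nonneg_right (lR_le D z.2) (show 0 ≤ π / 2 by positivity)
      linarith)⟩, (gLO (xRc (circY hB hN)) D.R).2⟩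

theorem iOd_rR (D : RFam hN hF) (hd : d ≤ π / 2) : (iOd 𝒜 d).comp (rR D hd) = gLO (xRc (circY hB hN)) D.R := rfl

/-- the end of the shortening -/
def qR (D : RFam hN hF) (h2 : Lc 𝒜 δ (circY hB hN) (D.R.comp (jO (spY 𝒜 P) 1))) : SMap (spY 𝒜 P) (spOq 𝒜 δ δ) :=
  ⟨fun y => ⟨((gLO (circY hB hN) (D.R.comp (jO (spY 𝒜 P) 1))).1 y).1, ((gLO (circY hB hN) (D.R.comp (jO (spY 𝒜 P) 1))).1 y).2, by
      obtain ⟨ℓ, a, b⟩ := h2 y
      have hm : ∀ s t, s ≤ t → ℓ s ≤ ℓ t := fun s t hst => by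
        have := (dist_nonneg).trans (a s t hst)
        linarith
      refine ⟨fun t => ℓ (t / 2), fun s t hst => ?_, fun s => ?_, fun s => ?_⟩
      · have h3 := a (s / 2) (t / 2) (by linarith)
        have e : ∀ t : ℝ, t / 2 / 4 = t / 8 := fun t => by ring
        simp only [e] at h3
        exact h3
      · show ℓ ((s + 1) / 2) - ℓ (s / 2) ≤ π - δ
        have h3 := b (s / 2)
        have h4 := hm ((s + 1) / 2) (s / 2 + 1) (by linarith)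
        linarith
      · show ℓ ((s + 2) / 2) - ℓ (s / 2) ≤ π - δ
        rw [show (s + 2) / 2 = s / 2 + 1 by ring]
        exact b _⟩, (gLO (circY hB hN) (D.R.comp (jO (spY 𝒜 P) 1))).2⟩

theorem jOq_qR (D : RFam hN hF) (h2 : Lc 𝒜 δ (circY hB hN) (D.R.comp (jO (spY 𝒜 P) 1))) :
    (jOq 𝒜 δ δ).comp (qR D h2) = gLc h2 := SMap_ext fun y => Subtype.ext (funext fun t => by
  show D.R.1 ((circY hB hN).a.1 (y, 2 * t / 8), 1) = D.R.1 ((circY hB hN).a.1 (y, t / 4), 1)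
  rw [show 2 * t / 8 = t / 4 by ring])

theorem rR_one (D : RFam hN hF) (hd : δ ≤ π / 2) (h2 : Lc 𝒜 δ (circY hB hN) (D.R.comp (jO (spY 𝒜 P) 1)))
    (y : (spY 𝒜 P).pt) : (rR D hd).1 (y, 1) = (iOq 𝒜 δ δ).1 ((qR D h2).1 y) := rfl

/-- the doubled geodesics -/
def kR (𝒜 : SDist n M) (hB : Bl M) (hd : d ≤ π / 2) : SMap (spG 𝒜) (spOd 𝒜 d) :=
  ⟨fun c => ⟨((gLO (dblc (circPhi hB 𝒜)) (foot hB 0)).1 c).1, ((gLO (dblc (circPhi hB 𝒜)) (foot hB 0)).1 c).2,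
    LC_of_K (K := π / 2) (fun s t => by
      show dist (c.1 (0 + 2 * π * (2 * (s / 8)))) (c.1 (0 + 2 * π * (2 * (t / 8)))) ≤ _
      refine (c.2.dist_le _ _).trans (le_of_eq ?_)
      rw [show 0 + 2 * π * (2 * (s / 8)) - (0 + 2 * π * (2 * (t / 8))) = π / 2 * (s - t) by ring, abs_mul,
        abs_of_pos (by positivity)]) (by linarith)⟩, (gLO (dblc (circPhi hB 𝒜)) (foot hB 0)).2⟩

theorem rR_zero (D : RFam hN hF) (hd : d ≤ π / 2) (y : (spY 𝒜 P).pt) : (rR D hd).1 (y, 0) = (kR 𝒜 hB hd).1 ((prY 𝒜 P).1 y) :=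
  Subtype.ext (funext fun t => by
    show D.R.1 ((circY hB hN).a.1 (y, t / 8), 0) = (foot hB 0).1 ((dblc (circPhi hB 𝒜)).a.1 ((prY 𝒜 P).1 y, t / 8))
    rw [D.R0, circY_pr])

variable [Nonempty (Gs M)]

/-- the vertices -/
def xRv (hB : Bl M) (e : Emb n 𝒜) (P : Gs M → Eu N →L[ℝ] Eu N) (h : PFamR 𝒜 (rt N) CR) (i : ZMod 8) :
    SMap (spY 𝒜 P).xR (spM 𝒜) :=
  ⟨fun z => (Cxr (M := M) 𝒜 (rt N) CR ((rt N).r (t8 i) (z.2 • z.1.1.2)) (shift (t8 i) z.1.1.1) : M), fun k p => by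
    intro u
    exact h.smooth_Cxr hB e (σ := fun v : V k => shift (t8 i) (p.1 v).1.1.1)
      (x := fun v : V k => (rt N).r (t8 i) ((p.1 v).2 • (p.1 v).1.1.2)) ((SmG.atP p.2.1.1 u).shift hB contDiffAt_const)
      ((rt N).smooth_ap contDiffAt_const (p.2.2.contDiffAt.smul p.2.1.2.contDiffAt))⟩

theorem xRv_apply (e : Emb n 𝒜) (h : PFamR 𝒜 (rt N) CR) (i : ZMod 8) (y : (spY 𝒜 P).pt) (s : ℝ) :
    vM (xRv hB e P h i) (y, s) = Cxr (M := M) 𝒜 (rt N) CR ((rt N).r (t8 i) (s • y.1.2)) (shift (t8 i) y.1.1) := rfl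

theorem xRv_sc (e : Emb n 𝒜) (h : PFamR 𝒜 (rt N) CR) (D : RFam hN hF) (i : ZMod 8) (y : (spY 𝒜 P).pt) (s : ℝ) :
    vM (xRv hB e P h i) (y, sc D.a s) = D.R.1 ((circY hB hN).a.1 (y, ((i.val : ℝ) + 1 / 2) / 8), s) := by
  rw [xRv_apply, D.form]
  have e1 : t8 i = 4 * π * (((i.val : ℝ) + 1 / 2) / 8) := by
    unfold t8
    ring
  rw [e1, circY_apply, map_smul]
  rfl

/-- the vertices are the samples of the shortening -/
theorem Fam_xRv (e : Emb n 𝒜) (h : PFamR 𝒜 (rt N) CR) (D : RFam hN hF) (hd : d ≤ π / 2) :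
    Fam (xRv hB e P h) (sc D.a) ((smr 𝒜 d (1 / 2)).comp (rR D hd)) := fun y s i => by
  rw [xRv_sc e h D]
  rfl

theorem side_xRv (e : Emb n 𝒜) (h : PFamR 𝒜 (rt N) CR) (D : RFam hN hF) (y : (spY 𝒜 P).pt) (s : ℝ) (i : ZMod 8) :
    dist (vM (xRv hB e P h i) (y, sc D.a s)) (vM (xRv hB e P h (i + 1)) (y, sc D.a s)) ≤ lR D s * (π / 2) := by
  obtain ⟨c, hc⟩ : ∃ c : ℝ → M, ∀ t, c t = D.R.1 ((circY hB hN).a.1 (y, (t + 1 / 2) / 8), s) := ⟨fun _ => _, fun _ => rfl⟩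
  have hper : ∀ t : ℝ, c (t + 8) = c t := fun t => by
    rw [hc, hc, show (t + 8 + 1 / 2) / 8 = (t + 1 / 2) / 8 + 1 by ring, (circY hB hN).one]
  have h1 := val_succ hper i
  rw [hc, hc] at h1
  rw [xRv_sc e h D, xRv_sc e h D, h1]
  have h2 := lipR D y s ((i.val : ℝ) + 1 / 2) ((i.val : ℝ) + 1 + 1 / 2)
  rw [show (i.val : ℝ) + 1 / 2 - ((i.val : ℝ) + 1 + 1 / 2) = -1 by ring, abs_neg, abs_one, mul_one] at h2
  exact h2

/-- **the end `R`** -/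
theorem End_xRv (e : Emb n 𝒜) (h : PFamR 𝒜 (rt N) CR) (D : RFam hN hF) :
    End (xRv hB e P h) (sc D.a) D.a (Icc 0 D.a) where
  st := fun y => funext fun i => by
    rw [xRv_apply, zero_smul, map_zero, h.Cxr_zero hB]
    show y.1.1.1 (0 + t8 i) = y.1.1.1 (t8 i)
    rw [zero_add]
  sm := contDiff_sc _
  z0 := sc_zero _
  one := sc_one _
  pos := D.a0
  mem := fun s1 h0 h1 s t ht => by
    have a1 := sc_nonneg D.a0.le s
    have a2 := sc_le D.a0.le s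
    have a3 := sc_nonneg h0.le s
    have a4 := (sc_le h0.le s).trans h1
    have b1 : 0 ≤ 1 - t := by linarith [ht.2]
    refine ⟨add_nonneg (mul_nonneg b1 a1) (mul_nonneg ht.1 a3), ?_⟩
    have c1 := mul_le_mul_of_nonneg_left a2 b1
    have c2 := mul_le_mul_of_nonneg_left a4 ht.1
    linarith
  side := fun y σ hσ i => by
    obtain ⟨s, rfl⟩ := exists_sc hσ.1 hσ.2
    have h1 := side_xRv e h D y s i
    have h2 := mul_le_mul_of_nonneg_right (lR_le D s) (show 0 ≤ π / 2 by positivity)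
    linarith [Real.pi_pos]
  en := fun y σ h0 h1 => by
    obtain ⟨s, rfl⟩ := exists_sc h0.le h1
    have h2 : lR D s < 1 := lR_lt D h0
    have h3 : ∀ i : ZMod 8, dist (vM (xRv hB e P h i) (y, sc D.a s)) (vM (xRv hB e P h (i + 1)) (y, sc D.a s)) ^ 2 ≤
        (lR D s * (π / 2)) ^ 2 := fun i => pow_le_pow_left₀ dist_nonneg (side_xRv e h D y s i) 2
    have h4 : E8 (fun i => vM (xRv hB e P h i) (y, sc D.a s)) ≤ ∑ _i : ZMod 8, (lR D s * (π / 2)) ^ 2 :=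
      Finset.sum_le_sum fun i _ => h3 i
    rw [Finset.sum_const, Finset.card_univ, ZMod.card] at h4
    have h5 : (lR D s) ^ 2 < 1 := by
      have := lR_nonneg D s
      nlinarith
    have h6 : (8 : ℕ) • (lR D s * (π / 2)) ^ 2 = (lR D s) ^ 2 * (2 * π ^ 2) := by
      rw [nsmul_eq_mul]
      push_cast
      ring
    rw [h6] at h4
    have h7 : 0 < 2 * π ^ 2 := by positivity
    have h8 := mul_lt_mul_of_pos_right h5 h7
    linarith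

theorem vel8_xRv (e : Emb n 𝒜) (h : PFamR 𝒜 (rt N) CR) (y : (spY 𝒜 P).pt) :
    vel8 𝒜 (fun s i => vM (xRv hB e P h i) (y, s)) = fun i => X1 𝒜 CR (shift (t8 i) y.1.1) ((rt N).r (t8 i) y.1.2) :=
  DP.vel8_Cxr hB h y.1.1 y.1.2

/-! ### the comparison -/

variable {bV : SBun 7 (spG 𝒜) (spF 𝒜)} {u : Om (spM 𝒜)} {Du : Deg (2 * 3 + 2) u} {du : dO (spM 𝒜) u = 0} {u3 : u ^ 3 = 0}
  {E : Om (spL 𝒜 δ)} {dE : dO (spL 𝒜 δ) E = (iL 𝒜 δ).pull (TT (cLO 𝒜) (fLO 𝒜) u)} {DE : Deg 28 E}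

/-- **the comparison of the two shortenings**, from a chain of admissible paths -/
theorem hRel (e : Emb n 𝒜) (hP : PSm 𝒜 P) (D : RFam hN hF) (h : PFamR 𝒜 (rt N) CR) (hδ : 0 < δ) (hδ4 : δ ≤ π / 4)
    (hd : δ ≤ π / 2) (h2 : Lc 𝒜 δ (circY hB hN) (D.R.comp (jO (spY 𝒜 P) 1))) (hb : ∀ c, bV.pi.1 c = (gF hB).1 c)
    {K : Fra bV} {S : ShU (⟨spO 𝒜, cLO 𝒜, fLO 𝒜, spL 𝒜 δ, iL 𝒜 δ, Du, du, u3, E, dE, DE⟩ : Pln (spM 𝒜) u) K}
    (hS : GS hB hδ S (e2 bV hB hb hδ hd)) {bY : EB 20 (spY 𝒜 P) (spG 𝒜)}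
    (hp : ∀ y : (spY 𝒜 P).pt, bY.B.pi.1 y = y.1.1) {EY : YK K bY.B} (R : RhoK S EY)
    {Q : (spY 𝒜 P).pt → Fin 3 → Eu n} (hQ : ∀ y s, DP.Qd 𝒜 y.1.1 (Q y) s (g4 bV (EY.Φ.1 (y, s))))
    (hQp : ∀ (y : (spY 𝒜 P).pt) j, ⟪𝒜.vel y.1.1.1 0, Q y j⟫ = 0) (hQ0 : ∀ y, Q y ≠ 0)
    (hch : Relation.TransGen (AP (P3 P)) (fun (y : (spY 𝒜 P).pt) i => X1 𝒜 CR (shift (t8 i) y.1.1) ((rt N).r (t8 i) y.1.2))
      (fun y => DP.av 𝒜 hB y.1.1 (DP.rk (Q y))))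
    {RR : (⟨spO 𝒜, cLO 𝒜, fLO 𝒜, spL 𝒜 δ, iL 𝒜 δ, Du, du, u3, E, dE, DE⟩ : Pln (spM 𝒜) u).Rl (spY 𝒜 P)}
    (hRr : RR.r = gLO (xRc (circY hB hN)) D.R) (hRe : RR.e = gLc h2) : Pln.Rl.RelP bY.B.pi RR R.R := by
  have hπ := Real.pi_pos
  have hP3 : PSm 𝒜 (P3 P) := ⟨fun hσ => smooth_P3 hP.sm hσ, fun c z => idem_P3 hP.id c z⟩
  have dT : dO _ (TT (cLO 𝒜) (fLO 𝒜) u) = 0 := d_TT Du du u3
  have DT : Deg 29 (TT (cLO 𝒜) (fLO 𝒜) u) := by
    have h := Deg_TT (c := cLO 𝒜) (f := fLO 𝒜) Du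
    exact h
  have hδ2 : δ < π / 2 := by linarith
  -- the end `R`
  have E0 := End_xRv (P := P) e h D
  have F0 := Fam_xRv (P := P) e h D hd
  obtain ⟨b, hb0⟩ := E0.exists_b (hB := hB) (hd := hδ) e hP3 hδ2 (TT (cLO 𝒜) (fLO 𝒜) u) E F0
  -- the end `K2`
  have hst : ∀ y : (spY 𝒜 P).pt, k8 (g4 bV (EY.Φ.1 (y, 0))) = b8 y.1.1 := fun y => by
    rw [DP.k8_ra hB (hQp y) (hQ y 0)]
    exact DP.ra_zero hB _ _
  have E1 := End_xK (P := P3 P) (d := δ) hB hb hδ hd (Φ := EY.Φ) hst fun y s h0 _ =>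
    DP.k8_lt hB (hQp y) h0.ne' (hQ y s) (Ends_g4 bV hB hb _) (hQ0 y)
  have F1 := Fam_xK (P := P3 P) (d := δ) hB hb hδ hd EY.Φ
  obtain ⟨b', hb1⟩ := E1.exists_b (hB := hB) (hd := hδ) e hP3 hδ2 (TT (cLO 𝒜) (fLO 𝒜) u) E F1
  -- the link
  have hl := Lk_main (pB := bY.B.pi) (hB := hB) (hd := hδ) e hP3 hp dT DT dE DE hδ2 hδ4 hch E0.st E1.st
    (fun y => vel8_xRv e h y) (fun y => by
      have h3 := DP.vel8_k8 hB (hQp y) (hQ y)
      rw [← h3]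
      congr 1
      funext s i
      exact xK_eq hB hb hδ hd EY.Φ i y s)
  have k1 := link8 e hP3 hp dT DT dE DE hδ2 hδ4 hl E0 E1 F0 F1 hb0 hb1
  -- the two forms
  have k2 := om1_loop bY.B.pi hB hδ dT DT dE DE (rR_one D hd h2) (kR 𝒜 hB hd) (fun y => by
    rw [rR_zero, hp]
    rfl) (1 / 2) hb0
  have k3 := RhoK_PE hB hδ hS R hb1
  have k4 : RR.om = om1 (TT (cLO 𝒜) (fLO 𝒜) u) E (rR D hd) (qR D h2) := by
    have e1 : RR.om = RR.e.pull E - KO _ (RR.r.pull (TT (cLO 𝒜) (fLO 𝒜) u)) := rfl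
    rw [e1, hRr, hRe, ← jOq_qR]
    rfl
  rw [relP_iff, k4]
  exact (k2.trans k1).trans k3.symm

end Rend

end Pool.Agent.Lib.MP_ccbbf6_gt.K7.FC
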