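import Pool.Agent.Lib.MP_ccbbf6_gt.K7.ASM7d
import Pool.Agent.Lib.MP_ccbbf6_gt.K7.DP11d
import Pool.Agent.Lib.MP_ccbbf6_gt.K7.FC8

/-!
# `κ = 7`, assembly, part e: the comparison `HypC` from the chain of admissible paths (helper56)

`HypK` : the chain between the velocities of the two ends (density path); `hypC_of` : `HypK → HypC`.
-/

set_option autoImplicit false
set_option maxSynthPendingDepth 3

open Set Filter Topology Real Matrix MeasureTheory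
open scoped ContDiff RealInnerProductSpace

noncomputable section

namespace Pool.Agent.Lib.MP_ccbbf6_gt.K7.ASM

open Geo L4 L4.ORI L4.FR L5 L5.NEG GysD RG PN SU HQ CH

variable {M : Type} [MetricSpace M] [CompactSpace M] {𝒜 : SDist (15 + 1) M} {hB : Bl M}

/-- the chain of admissible paths between the velocities of the shortening `R` and of the family `k8` over `K2` -/
def HypK (𝒜 : SDist (15 + 1) M) (hB : Bl M) (G : Geo7 𝒜 7 hB) : Prop := ∀ l : ℝ, 0 < l →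
  Relation.TransGen (FC.AP (P3 G.P))
    (fun (y : (spY 𝒜 G.P).pt) i => X1 𝒜 G.CR (shift (t8 i) y.1.1) ((rt G.N).r (t8 i) y.1.2))
    (fun y => DP.av 𝒜 hB y.1.1 (DP.rk fun j => LB 𝒜 hB (resC G.CR) (l • DP.B0) j y.1.1 y.1.2))

theorem LB_ne (G : Geo7 𝒜 7 hB) {B : Matrix (Fin 3) (Fin 3) ℝ} (hE : ExpB 𝒜 hB (resC G.CR) G.P B) (y : (spY 𝒜 G.P).pt) :
    (fun j => LB 𝒜 hB (resC G.CR) B j y.1.1 y.1.2) ≠ 0 := by
  intro h0
  have h1 := hE y.1.1 y.1.2 (inP3_iff.1 y.2.1)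
  have h2 : ∑ j : Fin 3, ‖LB 𝒜 hB (resC G.CR) B j y.1.1 y.1.2‖ ^ 2 = 0 := by
    refine Finset.sum_eq_zero fun j _ => ?_
    have h3 : LB 𝒜 hB (resC G.CR) B j y.1.1 y.1.2 = 0 := congrFun h0 j
    rw [h3, norm_zero]
    norm_num
  rw [h2, y.2.2] at h1
  norm_num at h1

variable [MeasurableSpace M] [BorelSpace M]

/-- **block F-C** -/
theorem hypC_of (G : Geo7 𝒜 7 hB) (HK : HypK 𝒜 hB G) : HypC 𝒜 hB G := by
  intro D hG hb ν hν δ hδ hδ4 h1 h2 h3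
  have hne : Nonempty (Gs M) := ⟨gvg 𝒜 hB D.f0.1.1 (D.f0.1.2 0) (D.f0.2.2.1 0)⟩
  have hdet : DP.B0.det ≠ 0 := by
    rw [DP.B0_det]
    norm_num
  obtain ⟨l, hl, hE'⟩ := exists_ExpB (hB := hB) G.e D.hk G.hN hdet
  have hE := hE' l le_rfl
  have hd : 0 < (-1 : ℝ) * (l • DP.B0).det := by
    rw [Matrix.det_smul, DP.B0_det, Fintype.card_fin]
    have : 0 < l ^ 3 := pow_pos hl 3
    linarith
  refine ⟨δ, hδ, hδ4.trans (by linarith [pi_pos]),
    ykY (l • DP.B0) D.hk G.hN D.hL D.Deg_b D.orV D.hκ hb hE (Or.inr rfl) hd, fun Q S hS R => ?_⟩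
  exact FC.hRel G.e (FC.PSm_neg G.hN) G.D G.hJ.fam hδ hδ4 (hδ4.trans (by linarith [pi_pos])) h2 (hbD D) hS
    (fun _ => rfl) R (Q := fun y j => LB 𝒜 hB (resC G.CR) (l • DP.B0) j y.1.1 y.1.2)
    (fun y s => DP.qd_phi3 D.hk D.hL D.Deg_b D.orV D.hκ (kY (l • DP.B0) D.hk G.hN 0) (kY (l • DP.B0) D.hk G.hN 1)
      (kY (l • DP.B0) D.hk G.hN 2) (y, s) s _ rfl rfl rfl)
    (fun y j => DP.LB_perp (l • DP.B0) j _ _) (fun y => LB_ne G hE y) (HK l hl) rfl rfl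

/-- from the chain for one package -/
theorem model_seven_ofK [Nonempty M] (hk : 𝒜.HK 7) (G : Geo7 𝒜 7 hB) (HK : HypK 𝒜 hB G) : Blaschke.IsModel 16 7 M :=
  model_seven_ofC hk G (hypC_of G HK)

end Pool.Agent.Lib.MP_ccbbf6_gt.K7.ASM
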