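import Pool.Agent.Lib.MP_ccbbf6_gt.K7.RT

/-!
# `κ = 7`, block B3, file BK1: Birkhoff shortening of 4-gons, metric part (helper25, skeleton)

`bt 𝒜 t x i` = point at fraction `t / 2` of the side `x i, x (i + 1)`; `en x = ∑ d(x i, x (i+1))^2`.
PROOFS.
(1) `bt_side` : triangle inequality through `x (i + 1)`: `dist (bt t x i) (x (i+1)) = (1 - t/2) l i` (`dist_rat_right`), `dist (x (i+1)) (bt t x (i+1)) = (t/2) l (i+1)` (`dist_rat`).
(2) `en_bir_le` : `((l i + l (i+1))/2)^2 = l i^2/2 + l(i+1)^2/2 - ((l i - l (i+1))/2)^2`, sum over `ZMod 4` (`Fin.sum_univ_four` after `show`, or `Fintype.sum_equiv (Equiv.addRight 1)` for `∑ l (i+1)^2 = ∑ l i^2`).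
(3) `en_bir_eq` : equality in (2) gives `l i = l (i+1)` for all `i` and `dist (m i) (m (i+1)) = l` (`m i = bt 1 x i`). If `l = 0`: `en x = 0`. Otherwise `straight` (RT) at `x (i+1)` with `p = m i`, `q = m (i+1)` gives `c i : Gs M` with `c i 0 = x (i+1)`, `c i (-l) = x i`, `c i l = x (i+2)`;
    `c (i+1)` and `shift l (c i)` agree at `0` and `-l`: `IsGeo.unique` (`0 < l < π`), so `c (i+1) = shift l (c i)`, hence `shift (4 l) (c 0) = c 4 = c 0` (indices in `ZMod 4`), `c 0 (4 l) = c 0 0`. With `0 < 4 l < 4 π`: `dist (c 0) (c s) = s` (`s ≤ π`), `= 2 π - s` (`π ≤ s ≤ 2 π`, `gs_dist_long`),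
    `gs_period`: so `4 l = 2 π` and `en x = 4 (π/2)^2 = π^2`.
(4) `exists_iter` (abstract): `g x = E x - E (f x)` is continuous and positive on the compact set `K ∩ {a ≤ E}` (closed in `K`: `ContinuousOn.preimage_isClosed_of_isClosed` or `IsCompact.inter_right` on the subtype), so `g ≥ ε0 > 0` there (`IsCompact.exists_isMinOn`; empty case trivial);
    if `a ≤ E (f^[N] x)` then `a ≤ E (f^[j] x)` for all `j ≤ N` and `0 ≤ E (f^[N] x) ≤ E x - N ε0`; `E` is bounded above on `K`.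
(5) `iter_bir` : `K = {x : ZMod 4 → M | ∀ i, dist (x i) (x (i+1)) ≤ π - δ}` is closed in a compact space; `f = bt 𝒜 1` is continuous on `K` (`tendsto_rat`, `continuousOn_pi`, `ContinuousOn` from `Tendsto` along `𝓝[K] x`), maps `K` to `K` by (1); `a = π^2 + η` with (2), (3) (`en x ≥ π^2 + η` is neither `0` nor `π^2`).
-/

set_option autoImplicit false
set_option linter.unusedSectionVars false

open Set Filter Topology Metric Real Module
open scoped ContDiff RealInnerProductSpace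

noncomputable section

namespace Pool.Agent.Lib.MP_ccbbf6_gt.K7

open Geo L4 L4.ORI L5

/-- abstract compactness lemma for descents -/
theorem exists_iter {T : Type*} [TopologicalSpace T] {K : Set T} (hK : IsCompact K) {f : T → T} (hm : ∀ x ∈ K, f x ∈ K)
    (hf : ContinuousOn f K) {E : T → ℝ} (hE : ContinuousOn E K) (h0 : ∀ x ∈ K, 0 ≤ E x) (h1 : ∀ x ∈ K, E (f x) ≤ E x) {a : ℝ}
    (h2 : ∀ x ∈ K, a ≤ E x → E (f x) < E x) : ∃ N : ℕ, ∀ x ∈ K, E (f^[N] x) < a := by
  have hmono : ∀ (N : ℕ) (x : T), x ∈ K → E (f^[N] x) ≤ E x := by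
    intro N
    induction N with
    | zero => intro x _; exact le_rfl
    | succ N ih =>
      intro x hx
      rw [Function.iterate_succ_apply]
      exact (ih (f x) (hm x hx)).trans (h1 x hx)
  have hA : IsCompact (Subtype.val '' {x : K | a ≤ E x}) := by
    have := isCompact_iff_compactSpace.1 hK
    have hc : Continuous fun x : K => E x := continuousOn_iff_continuous_domRestrict.1 hE
    exact ((isClosed_Ici.preimage hc).isCompact).image continuous_subtype_val
  have hAK : Subtype.val '' {x : K | a ≤ E x} ⊆ K := by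
    rintro _ ⟨x, _, rfl⟩
    exact x.2
  have hmem : ∀ x ∈ K, a ≤ E x → x ∈ Subtype.val '' {x : K | a ≤ E x} := fun x hx h => ⟨⟨x, hx⟩, h, rfl⟩
  rcases (Subtype.val '' {x : K | a ≤ E x}).eq_empty_or_nonempty with he | he
  · refine ⟨0, fun x hx => ?_⟩
    by_contra hlt
    have h3 := hmem x hx (not_lt.1 hlt)
    rw [he] at h3
    exact h3
  · have hg : ContinuousOn (fun x => E x - E (f x)) (Subtype.val '' {x : K | a ≤ E x}) :=
      (hE.sub (hE.comp hf hm)).mono hAK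
    obtain ⟨x₀, hx₀, hmin⟩ := hA.exists_isMinOn he hg
    have hε : 0 < E x₀ - E (f x₀) := by
      obtain ⟨y, hy, hyx⟩ := hx₀
      have := h2 y.1 y.2 hy
      rw [← hyx]
      linarith
    obtain ⟨x₁, hx₁, hmax⟩ := hK.exists_isMaxOn (he.mono hAK) hE
    have key : ∀ (N : ℕ) (x : T), x ∈ K → a ≤ E (f^[N] x) → E (f^[N] x) ≤ E x - N * (E x₀ - E (f x₀)) := by
      intro N
      induction N with
      | zero => intro x _ _; simp
      | succ N ih =>
        intro x hx ha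
        rw [Function.iterate_succ_apply] at ha ⊢
        have h3 := ih (f x) (hm x hx) ha
        have h4 : a ≤ E x := ha.trans ((hmono N (f x) (hm x hx)).trans (h1 x hx))
        have h5 : E x₀ - E (f x₀) ≤ E x - E (f x) := hmin (hmem x hx h4)
        push_cast
        linarith
    obtain ⟨N, hN⟩ := exists_nat_gt (E x₁ / (E x₀ - E (f x₀)))
    rw [div_lt_iff₀ hε] at hN
    refine ⟨N, fun x hx => ?_⟩
    by_contra hlt
    have h3 := key N x hx (not_lt.1 hlt)
    have h4 : E x ≤ E x₁ := hmax hx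
    have h5 : 0 ≤ E (f^[N] x) := by
      refine h0 _ ?_
      have hi : ∀ (N : ℕ) (x : T), x ∈ K → f^[N] x ∈ K := by
        intro N
        induction N with
        | zero => intro x hx; exact hx
        | succ N ih => intro x hx; rw [Function.iterate_succ_apply]; exact ih _ (hm x hx)
      exact hi N x hx
    linarith

variable {n : ℕ} {M : Type*} [MetricSpace M]

/-- the energy of a 4-gon -/
def en (x : ZMod 4 → M) : ℝ := ∑ i, dist (x i) (x (i + 1)) ^ 2

theorem en_nonneg (x : ZMod 4 → M) : 0 ≤ en x := Finset.sum_nonneg fun _ _ => sq_nonneg _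

variable [CompactSpace M] (𝒜 : SDist n M)

/-- the points at fraction `t / 2` of the sides -/
def bt (t : ℝ) (x : ZMod 4 → M) (i : ZMod 4) : M := rat 𝒜 (x i) (x (i + 1)) (t / 2)

variable {𝒜} {δ η : ℝ}

theorem bt_side (hB : Bl M) {t : ℝ} (h0 : 0 ≤ t) (h1 : t ≤ 1) (x : ZMod 4 → M) (i : ZMod 4) :
    dist (bt 𝒜 t x i) (bt 𝒜 t x (i + 1)) ≤ (1 - t / 2) * dist (x i) (x (i + 1)) + t / 2 * dist (x (i + 1)) (x (i + 1 + 1)) := by
  have h2 : dist (bt 𝒜 t x i) (x (i + 1)) = (1 - t / 2) * dist (x i) (x (i + 1)) :=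
    dist_rat_right hB (x i) (x (i + 1)) (by linarith) (by linarith)
  have h3 : dist (x (i + 1)) (bt 𝒜 t x (i + 1)) = t / 2 * dist (x (i + 1)) (x (i + 1 + 1)) :=
    dist_rat hB (x (i + 1)) (x (i + 1 + 1)) (by linarith) (by linarith)
  rw [← h2, ← h3]
  exact dist_triangle _ _ _

theorem en_bir_le (hB : Bl M) (x : ZMod 4 → M) : en (bt 𝒜 1 x) ≤ en x := by
  have h1 : ∑ i : ZMod 4, dist (x (i + 1)) (x (i + 1 + 1)) ^ 2 = ∑ i : ZMod 4, dist (x i) (x (i + 1)) ^ 2 :=
    Equiv.sum_comp (Equiv.addRight (1 : ZMod 4)) (fun i => dist (x i) (x (i + 1)) ^ 2)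
  have h2 : ∀ i : ZMod 4, dist (bt 𝒜 1 x i) (bt 𝒜 1 x (i + 1)) ^ 2 ≤
      dist (x i) (x (i + 1)) ^ 2 / 2 + dist (x (i + 1)) (x (i + 1 + 1)) ^ 2 / 2 := by
    intro i
    have h3 := bt_side (𝒜 := 𝒜) hB zero_le_one le_rfl x i
    have h4 := pow_le_pow_left₀ dist_nonneg h3 2
    refine h4.trans ?_
    nlinarith [sq_nonneg (dist (x i) (x (i + 1)) - dist (x (i + 1)) (x (i + 1 + 1)))]
  have h5 : en (bt 𝒜 1 x) ≤ ∑ i : ZMod 4, (dist (x i) (x (i + 1)) ^ 2 / 2 +
      dist (x (i + 1)) (x (i + 1 + 1)) ^ 2 / 2) := Finset.sum_le_sum fun i _ => h2 i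
  rw [Finset.sum_add_distrib, ← Finset.sum_div, ← Finset.sum_div, h1] at h5
  unfold en at h5 ⊢
  linarith

/-- a broken geodesic with sides `l` and no corners lies on a geodesic -/
theorem poly_geo (𝒜 : SDist n M) (hB : Bl M) {y : ℕ → M} {l : ℝ} (hl : 0 < l) (hl1 : l < π) (hy : ∀ k, dist (y k) (y (k + 1)) = l)
    (hm : ∀ k, dist (rat 𝒜 (y k) (y (k + 1)) (1 / 2)) (rat 𝒜 (y (k + 1)) (y (k + 2)) (1 / 2)) = l) :
    ∃ c : Gs M, ∀ k : ℕ, c.1 (k * l) = y k := by
  have hne : y 0 ≠ y 1 := fun h => by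
    have h1 := hy 0
    rw [zero_add, ← h, dist_self] at h1
    linarith
  obtain ⟨c, hc0, hc1⟩ := exists_gs 𝒜 hB hne
  have hy0 : dist (y 0) (y 1) = l := hy 0
  rw [hy0] at hc1
  have key : ∀ k : ℕ, c.1 (k * l) = y k ∧ c.1 ((k + 1 : ℕ) * l) = y (k + 1) := by
    intro k
    induction k with
    | zero =>
      refine ⟨?_, ?_⟩
      · rw [Nat.cast_zero, zero_mul, hc0]
      · rw [zero_add, Nat.cast_one, one_mul, hc1]
    | succ k ih =>
      refine ⟨ih.2, ?_⟩
      have hp1 := dist_rat (𝒜 := 𝒜) hB (y k) (y (k + 1)) (t := 1 / 2) (by norm_num) (by norm_num)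
      have hp2 := dist_rat_right (𝒜 := 𝒜) hB (y k) (y (k + 1)) (t := 1 / 2) (by norm_num) (by norm_num)
      have hq1 := dist_rat (𝒜 := 𝒜) hB (y (k + 1)) (y (k + 2)) (t := 1 / 2) (by norm_num) (by norm_num)
      have hq2 := dist_rat_right (𝒜 := 𝒜) hB (y (k + 1)) (y (k + 2)) (t := 1 / 2) (by norm_num) (by norm_num)
      have hk := hy k
      have hk1 : dist (y (k + 1)) (y (k + 2)) = l := hy (k + 1)
      obtain ⟨e, he0, he1, he2⟩ := straight 𝒜 hB (x := y k) (y := y (k + 1)) (z := y (k + 2))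
        (p := rat 𝒜 (y k) (y (k + 1)) (1 / 2)) (q := rat 𝒜 (y (k + 1)) (y (k + 2)) (1 / 2))
        (by rw [hp1, hp2]; ring) (by rw [hq1, hq2]; ring) (by rw [hk]; exact hl1) (by rw [hk1]; exact hl1)
        (fun h => by rw [h, dist_self, hk] at hp2; linarith)
        (fun h => by rw [h, dist_self, hk1] at hq1; linarith)
        (by rw [hm k, hp2, hq1, hk, hk1]; ring) (by rw [hm k]; exact hl1)
      rw [hk] at he1
      rw [hk1] at he2
      have hu := IsGeo.unique 𝒜 (c := fun t => c.1 (t + (k + 1 : ℕ) * l)) (c' := e.1) (c.2.shift _) e.2 (a := 0) (b := -l)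
        (by linarith) (by rw [zero_sub, neg_neg, abs_of_pos hl]; exact hl1)
        (by
          show c.1 (0 + (k + 1 : ℕ) * l) = e.1 0
          rw [zero_add, ih.2, he0])
        (by
          show c.1 (-l + (k + 1 : ℕ) * l) = e.1 (-l)
          have h4 : -l + (k + 1 : ℕ) * l = k * l := by
            push_cast
            ring
          rw [he1, h4, ih.1])
      have h3 : c.1 (l + (k + 1 : ℕ) * l) = e.1 l := congrFun hu l
      have h4 : l + (k + 1 : ℕ) * l = (k + 1 + 1 : ℕ) * l := by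
        push_cast
        ring
      rw [he2, h4] at h3
      exact h3
  exact ⟨c, fun k => (key k).1⟩

/-- a closed geodesic of length less than `4 π` has length `2 π` -/
theorem closed_len (𝒜 : SDist n M) (hB : Bl M) (c : Gs M) {s : ℝ} (h0 : 0 < s) (h1 : s < 4 * π) (h : c.1 s = c.1 0) :
    s = 2 * π := by
  have hpi := Real.pi_pos
  rcases le_total s π with h2 | h2
  · have h3 := c.2 s 0 (by rw [sub_zero, abs_of_pos h0]; exact h2)
    rw [h, dist_self, sub_zero, abs_of_pos h0] at h3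
    linarith
  rcases le_total s (2 * π) with h3 | h3
  · have h4 := gs_dist_long 𝒜 hB c h2 h3
    rw [h, dist_self] at h4
    linarith
  · have h4 := gs_period 𝒜 hB c (s - 2 * π)
    rw [sub_add_cancel, h] at h4
    rcases le_total (s - 2 * π) π with h5 | h5
    · have h6 := c.2 (s - 2 * π) 0 (by rw [sub_zero, abs_of_nonneg (by linarith)]; exact h5)
      rw [← h4, dist_self, sub_zero, abs_of_nonneg (by linarith)] at h6
      linarith
    · have h6 := gs_dist_long 𝒜 hB c h5 (by linarith)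
      rw [← h4, dist_self] at h6
      linarith

/-- equality in the Birkhoff step -/
theorem bir_rig (hB : Bl M) {N : ℕ} [NeZero N] {x : ZMod N → M}
    (h : ∑ i : ZMod N, dist (rat 𝒜 (x i) (x (i + 1)) (1 / 2)) (rat 𝒜 (x (i + 1)) (x (i + 1 + 1)) (1 / 2)) ^ 2 =
      ∑ i : ZMod N, dist (x i) (x (i + 1)) ^ 2) (i : ZMod N) :
    dist (x (i + 1)) (x (i + 1 + 1)) = dist (x i) (x (i + 1)) ∧
      dist (rat 𝒜 (x i) (x (i + 1)) (1 / 2)) (rat 𝒜 (x (i + 1)) (x (i + 1 + 1)) (1 / 2)) = dist (x i) (x (i + 1)) := by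
  have h1 : ∑ i : ZMod N, dist (x (i + 1)) (x (i + 1 + 1)) ^ 2 = ∑ i : ZMod N, dist (x i) (x (i + 1)) ^ 2 :=
    Equiv.sum_comp (Equiv.addRight (1 : ZMod N)) (fun i => dist (x i) (x (i + 1)) ^ 2)
  have hside : ∀ i : ZMod N, dist (rat 𝒜 (x i) (x (i + 1)) (1 / 2)) (rat 𝒜 (x (i + 1)) (x (i + 1 + 1)) (1 / 2)) ≤
      (dist (x i) (x (i + 1)) + dist (x (i + 1)) (x (i + 1 + 1))) / 2 := by
    intro i
    have h2 := dist_rat_right (𝒜 := 𝒜) hB (x i) (x (i + 1)) (t := 1 / 2) (by norm_num) (by norm_num)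
    have h3 := dist_rat (𝒜 := 𝒜) hB (x (i + 1)) (x (i + 1 + 1)) (t := 1 / 2) (by norm_num) (by norm_num)
    have h4 := dist_triangle (rat 𝒜 (x i) (x (i + 1)) (1 / 2)) (x (i + 1)) (rat 𝒜 (x (i + 1)) (x (i + 1 + 1)) (1 / 2))
    linarith
  have hnn : ∀ i : ZMod N, (dist (x i) (x (i + 1)) - dist (x (i + 1)) (x (i + 1 + 1))) ^ 2 / 4 ≤
      dist (x i) (x (i + 1)) ^ 2 / 2 + dist (x (i + 1)) (x (i + 1 + 1)) ^ 2 / 2 -
        dist (rat 𝒜 (x i) (x (i + 1)) (1 / 2)) (rat 𝒜 (x (i + 1)) (x (i + 1 + 1)) (1 / 2)) ^ 2 := by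
    intro i
    have h4 := pow_le_pow_left₀ dist_nonneg (hside i) 2
    nlinarith
  have hsum : ∑ i : ZMod N, (dist (x i) (x (i + 1)) ^ 2 / 2 + dist (x (i + 1)) (x (i + 1 + 1)) ^ 2 / 2 -
        dist (rat 𝒜 (x i) (x (i + 1)) (1 / 2)) (rat 𝒜 (x (i + 1)) (x (i + 1 + 1)) (1 / 2)) ^ 2) = 0 := by
    rw [Finset.sum_sub_distrib, Finset.sum_add_distrib, ← Finset.sum_div, ← Finset.sum_div, h1, h]
    ring
  have hz := (Finset.sum_eq_zero_iff_of_nonneg (fun i _ => le_trans (by positivity) (hnn i))).1 hsum i (Finset.mem_univ _)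
  have h5 := hnn i
  rw [hz] at h5
  have h6 : dist (x i) (x (i + 1)) - dist (x (i + 1)) (x (i + 1 + 1)) = 0 := by
    have h7 : (dist (x i) (x (i + 1)) - dist (x (i + 1)) (x (i + 1 + 1))) ^ 2 = 0 :=
      le_antisymm (by linarith) (sq_nonneg _)
    exact pow_eq_zero_iff (by norm_num) |>.1 h7
  have h8 : dist (x (i + 1)) (x (i + 1 + 1)) = dist (x i) (x (i + 1)) := by linarith
  refine ⟨h8, ?_⟩
  rw [h8] at hz
  have h9 : dist (rat 𝒜 (x i) (x (i + 1)) (1 / 2)) (rat 𝒜 (x (i + 1)) (x (i + 1 + 1)) (1 / 2)) ^ 2 =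
      dist (x i) (x (i + 1)) ^ 2 := by linarith
  exact (sq_eq_sq₀ dist_nonneg dist_nonneg).1 h9

/-- **rigidity for `N`-gons**: all sides equal `l`, and `N l = 2 π` or `l = 0` -/
theorem bir_rigid (hB : Bl M) {N : ℕ} [NeZero N] {x : ZMod N → M} (hx : ∀ i, dist (x i) (x (i + 1)) < π)
    (h : ∑ i : ZMod N, dist (rat 𝒜 (x i) (x (i + 1)) (1 / 2)) (rat 𝒜 (x (i + 1)) (x (i + 1 + 1)) (1 / 2)) ^ 2 =
      ∑ i : ZMod N, dist (x i) (x (i + 1)) ^ 2) (hN : N * dist (x 0) (x 1) < 4 * π) :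
    ∃ l : ℝ, (∀ i, dist (x i) (x (i + 1)) = l) ∧ (l = 0 ∨ N * l = 2 * π) := by
  have hr := bir_rig hB h
  have hl : ∀ k : ℕ, dist (x (k : ZMod N)) (x ((k : ZMod N) + 1)) = dist (x 0) (x 1) := by
    intro k
    induction k with
    | zero => rw [Nat.cast_zero, zero_add]
    | succ k ih =>
      rw [Nat.cast_succ, (hr (k : ZMod N)).1, ih]
  have hl' : ∀ i : ZMod N, dist (x i) (x (i + 1)) = dist (x 0) (x 1) := by
    intro i
    have h1 := hl i.val
    rw [ZMod.natCast_zmod_val] at h1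
    exact h1
  refine ⟨dist (x 0) (x 1), hl', ?_⟩
  rcases eq_or_lt_of_le (dist_nonneg : 0 ≤ dist (x 0) (x 1)) with h0 | h0
  · exact Or.inl h0.symm
  right
  have hlt : dist (x 0) (x 1) < π := by
    have h1 := hx 0
    rw [zero_add] at h1
    exact h1
  obtain ⟨c, hc⟩ := poly_geo 𝒜 hB (y := fun k : ℕ => x (k : ZMod N)) h0 hlt (fun k => by
      show dist (x (k : ZMod N)) (x ((k + 1 : ℕ) : ZMod N)) = _
      rw [Nat.cast_succ]
      exact hl k) (fun k => by
      show dist (rat 𝒜 (x (k : ZMod N)) (x ((k + 1 : ℕ) : ZMod N)) (1 / 2))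
        (rat 𝒜 (x ((k + 1 : ℕ) : ZMod N)) (x ((k + 2 : ℕ) : ZMod N)) (1 / 2)) = _
      have h2 : ((k + 2 : ℕ) : ZMod N) = (k : ZMod N) + 1 + 1 := by push_cast; ring
      rw [Nat.cast_succ, h2, (hr (k : ZMod N)).2, hl k])
  have hc0 := hc 0
  have hcN := hc N
  simp only [Nat.cast_zero, zero_mul, CharP.cast_eq_zero] at hc0 hcN
  exact closed_len 𝒜 hB c (mul_pos (Nat.cast_pos.2 (Nat.pos_of_ne_zero (NeZero.ne N))) h0) hN (by rw [hcN, hc0])

/-- **rigidity** -/
theorem en_bir_eq (hB : Bl M) {x : ZMod 4 → M} (hx : ∀ i, dist (x i) (x (i + 1)) < π) (h : en (bt 𝒜 1 x) = en x) :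
    en x = 0 ∨ en x = π ^ 2 := by
  obtain ⟨l, hl, h1⟩ := bir_rigid (𝒜 := 𝒜) hB hx h (by
    have h2 := hx 0
    rw [zero_add] at h2
    push_cast
    linarith)
  have h2 : en x = 4 * l ^ 2 := by
    unfold en
    rw [Finset.sum_congr rfl (fun i _ => by rw [hl i]), Finset.sum_const, Finset.card_univ, ZMod.card, nsmul_eq_mul]
    norm_num
  rcases h1 with h1 | h1
  · left
    rw [h2, h1]
    norm_num
  · right
    have h3 : l = π / 2 := by
      push_cast at h1
      linarith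
    rw [h2, h3]
    ring

/-- **finitely many steps lead below the level `π^2 + η`** -/
theorem iter_bir (𝒜 : SDist n M) (hB : Bl M) (hδ : 0 < δ) (hη : 0 < η) : ∃ N : ℕ, ∀ x : ZMod 4 → M,
    (∀ i, dist (x i) (x (i + 1)) ≤ π - δ) → en ((bt 𝒜 1)^[N] x) < π ^ 2 + η := by
  have hpi := Real.pi_pos
  have hcl : IsClosed {x : ZMod 4 → M | ∀ i, dist (x i) (x (i + 1)) ≤ π - δ} := by
    rw [Set.ofPred_forall]
    exact isClosed_iInter fun i => isClosed_le ((continuous_apply i).dist (continuous_apply (i + 1))) continuous_const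
  have hen : Continuous (en : (ZMod 4 → M) → ℝ) :=
    continuous_finsetSum _ fun i _ => ((continuous_apply i).dist (continuous_apply (i + 1))).pow 2
  obtain ⟨N, hN⟩ := exists_iter (K := {x : ZMod 4 → M | ∀ i, dist (x i) (x (i + 1)) ≤ π - δ}) hcl.isCompact
    (f := bt 𝒜 1) (fun x hx i => by
      have h1 := bt_side (𝒜 := 𝒜) hB zero_le_one le_rfl x i
      have h2 : dist (x i) (x (i + 1)) ≤ π - δ := hx i
      have h3 : dist (x (i + 1)) (x (i + 1 + 1)) ≤ π - δ := hx (i + 1)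
      linarith)
    (by
      refine continuousOn_pi.2 fun i x hx => ?_
      show Tendsto (fun y : ZMod 4 → M => rat 𝒜 (y i) (y (i + 1)) (1 / 2)) _ (𝓝 (rat 𝒜 (x i) (x (i + 1)) (1 / 2)))
      exact tendsto_rat 𝒜 hB ((continuous_apply i).continuousAt.tendsto.mono_left nhdsWithin_le_nhds)
        ((continuous_apply (i + 1)).continuousAt.tendsto.mono_left nhdsWithin_le_nhds) tendsto_const_nhds
        (by have h2 : dist (x i) (x (i + 1)) ≤ π - δ := hx i
            linarith))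
    (E := en) hen.continuousOn (fun x _ => en_nonneg x) (fun x _ => en_bir_le hB x) (a := π ^ 2 + η)
    (fun x hx ha => by
      refine lt_of_le_of_ne (en_bir_le hB x) fun he => ?_
      rcases en_bir_eq hB (fun i => by
        have h2 : dist (x i) (x (i + 1)) ≤ π - δ := hx i
        linarith) he with h1 | h1
      · rw [h1] at ha
        nlinarith
      · rw [h1] at ha
        linarith)
  exact ⟨N, fun x hx => hN x hx⟩

end Pool.Agent.Lib.MP_ccbbf6_gt.K7
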