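import Pool.Agent.Lib.MP_ccbbf6_gt.K7.LP1

/-!
# `κ = 7`, block B2, file LP2: smoothness of the chord homotopy (helper25, skeleton)

PROOFS. At the point `(z0, t0)`, `i = ⌊t0⌋`, `s0 = Int.fract t0`.
(A) `0 < s0`: near `t0` the floor is `i` and `Int.fract t = t - i`. `smAt_rat hB` with `x = c z.1 i`, `y = c z.1 (i + τ z.1 + (1 - τ z.1) * s2 (z.2 - i))` (composition of the smooth family with a smooth map `z ↦ (z.1, ...)`: `SmAt.comp`), `t = s1 (z.2 - i)` (`contDiff_s1`); the distance is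
    at most `π - δ < π` by `LC_dist` (`0 ≤ τ + (1 - τ) s2 ≤ 1`). `SmAt.congr` with eventual equality.
(B) `s0 = 0`, `t0 = i`: for `|t - i| < 1/4` the value is `c z i`: if `t ≥ i` then `s1 (t - i) = 0` (`rat_zero`); if `t < i` then `⌊t⌋ = i - 1`, `Int.fract t = t - i + 1 > 3/4`, `s1 = s2 = 1` (`rat_one`), `i - 1 + τ + (1 - τ) = i`. So it is eventually equal to the smooth map `z ↦ c z.1 i`.
`sm_hT1` is the same with `τ = 1` (only the values at the integers are used).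
-/

set_option autoImplicit false

open Set Filter Topology Metric Real Module
open scoped ContDiff RealInnerProductSpace

noncomputable section

namespace Pool.Agent.Lib.MP_ccbbf6_gt.K7

open Geo L4 L4.ORI L5

variable {n : ℕ} {M : Type*} [MetricSpace M] [CompactSpace M] {𝒜 : SDist n M} {δ : ℝ}
  {E : Type*} [NormedAddCommGroup E] [NormedSpace ℝ E]

theorem floor_near {t0 : ℝ} (h : 0 < Int.fract t0) : ∀ᶠ t in 𝓝 t0, ⌊t⌋ = ⌊t0⌋ := by
  have e : (⌊t0⌋ : ℝ) + Int.fract t0 = t0 := Int.floor_add_fract t0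
  have h1 : (⌊t0⌋ : ℝ) < t0 := by linarith
  have h2 : t0 < (⌊t0⌋ : ℝ) + 1 := Int.lt_floor_add_one t0
  filter_upwards [Ioo_mem_nhds h1 h2] with t ht
  rw [Int.floor_eq_iff]
  exact ⟨ht.1.le, ht.2⟩

/-- the floor to the left of an integer -/
theorem floor_left {i : ℤ} {t : ℝ} (h : |t - i| < 1 / 4) (h0 : t < i) : ⌊t⌋ = i - 1 := by
  obtain ⟨h1, h2⟩ := abs_lt.1 h
  rw [Int.floor_eq_iff]
  push_cast
  exact ⟨by linarith, by linarith⟩

/-- the floor to the right of an integer -/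
theorem floor_right {i : ℤ} {t : ℝ} (h : |t - i| < 1 / 4) (h0 : (i : ℝ) ≤ t) : ⌊t⌋ = i := by
  obtain ⟨h1, h2⟩ := abs_lt.1 h
  rw [Int.floor_eq_iff]
  exact ⟨h0, by linarith⟩

theorem fract_of_floor {i : ℤ} {t : ℝ} (h : ⌊t⌋ = i) : Int.fract t = t - i := by
  rw [← h]
  exact (Int.self_sub_floor t).symm

/-- near an integer -/
theorem hT_near_int (hB : Bl M) {c : ℝ → M} {τ : ℝ} (i : ℤ) {t : ℝ} (h : |t - i| < 1 / 4) : hT 𝒜 τ c t = c i := by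
  obtain ⟨h1, h2⟩ := abs_lt.1 h
  unfold hT
  rcases lt_or_ge t (i : ℝ) with h0 | h0
  · have hf := floor_left h h0
    have hr := fract_of_floor hf
    rw [hr, hf]
    push_cast
    rw [s1_one (by linarith), s2_one (by linarith), rat_one hB]
    congr 1
    ring
  · have hf := floor_right h h0
    have hr := fract_of_floor hf
    rw [hr, hf, s1_zero (by linarith), rat_zero hB]

theorem near_int (i : ℤ) {t0 : ℝ} (h : t0 = i) : ∀ᶠ t : ℝ in 𝓝 t0, |t - (i : ℝ)| < 1 / 4 := by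
  have h1 : t0 - 1 / 4 < t0 := by linarith
  have h2 : t0 < t0 + 1 / 4 := by linarith
  filter_upwards [Ioo_mem_nhds h1 h2] with t ht
  rw [abs_lt]
  exact ⟨by linarith [ht.1], by linarith [ht.2]⟩

theorem int_of_fract {t0 : ℝ} (h : ¬ 0 < Int.fract t0) : t0 = (⌊t0⌋ : ℝ) := by
  have e : (⌊t0⌋ : ℝ) + Int.fract t0 = t0 := Int.floor_add_fract t0
  have e2 := Int.fract_nonneg t0
  linarith [not_lt.1 h]

/-- **the chord homotopy is smooth** -/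
theorem sm_hT (hB : Bl M) (hδ : 0 < δ) {c : E → ℝ → M} (hc : Sm 𝒜 (fun z : E × ℝ => c z.1 z.2)) (hL : ∀ z, LC δ (c z))
    {τ : E → ℝ} (hτ : ContDiff ℝ ∞ τ) (h0 : ∀ z, 0 ≤ τ z) (h1 : ∀ z, τ z ≤ 1) :
    Sm 𝒜 (fun z : E × ℝ => hT 𝒜 (τ z.1) (c z.1) z.2) := by
  rintro ⟨z0, t0⟩
  by_cases hf : 0 < Int.fract t0
  · have ha : SmAt 𝒜 (fun z : E × ℝ => c z.1 (⌊t0⌋ : ℝ)) (z0, t0) :=
      (hc.comp (f := fun z : E × ℝ => (z.1, (⌊t0⌋ : ℝ))) (contDiff_fst.prodMk contDiff_const)) (z0, t0)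
    have hs : ContDiff ℝ ∞ (fun z : E × ℝ => z.2 - (⌊t0⌋ : ℝ)) := contDiff_snd.sub contDiff_const
    have hg : ContDiff ℝ ∞ (fun z : E × ℝ => (⌊t0⌋ : ℝ) + τ z.1 + (1 - τ z.1) * s2 (z.2 - (⌊t0⌋ : ℝ))) :=
      (contDiff_const.add (hτ.comp contDiff_fst)).add ((contDiff_const.sub (hτ.comp contDiff_fst)).mul (contDiff_s2.comp hs))
    have hb : SmAt 𝒜 (fun z : E × ℝ => c z.1 ((⌊t0⌋ : ℝ) + τ z.1 + (1 - τ z.1) * s2 (z.2 - (⌊t0⌋ : ℝ)))) (z0, t0) :=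
      (hc.comp (f := fun z : E × ℝ => (z.1, (⌊t0⌋ : ℝ) + τ z.1 + (1 - τ z.1) * s2 (z.2 - (⌊t0⌋ : ℝ)))) (contDiff_fst.prodMk hg)) (z0, t0)
    have hd : dist (c z0 (⌊t0⌋ : ℝ)) (c z0 ((⌊t0⌋ : ℝ) + τ z0 + (1 - τ z0) * s2 (t0 - (⌊t0⌋ : ℝ)))) < π := by
      have h2 := s2_nonneg (t0 - (⌊t0⌋ : ℝ))
      have h3 := s2_le (t0 - (⌊t0⌋ : ℝ))
      have h4 : 0 ≤ (1 - τ z0) * s2 (t0 - (⌊t0⌋ : ℝ)) := mul_nonneg (by linarith [h1 z0]) h2
      have h5 : (1 - τ z0) * s2 (t0 - (⌊t0⌋ : ℝ)) ≤ (1 - τ z0) * 1 := mul_le_mul_of_nonneg_left h3 (by linarith [h1 z0])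
      have h6 := LC_dist (hL z0) (s := (⌊t0⌋ : ℝ)) (t := (⌊t0⌋ : ℝ) + τ z0 + (1 - τ z0) * s2 (t0 - (⌊t0⌋ : ℝ)))
        (by linarith [h0 z0]) (by linarith)
      linarith
    refine (smAt_rat hB ha hb (contDiff_s1.comp hs).contDiffAt hd).congr ?_
    have hev : ∀ᶠ z : E × ℝ in 𝓝 (z0, t0), ⌊z.2⌋ = ⌊t0⌋ := continuousAt_snd.eventually (floor_near hf)
    filter_upwards [hev] with z hz
    show rat 𝒜 _ _ _ = rat 𝒜 _ _ _
    rw [fract_of_floor hz, hz]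
    rfl
  · have e := int_of_fract hf
    have ha : SmAt 𝒜 (fun z : E × ℝ => c z.1 (⌊t0⌋ : ℝ)) (z0, t0) :=
      (hc.comp (f := fun z : E × ℝ => (z.1, (⌊t0⌋ : ℝ))) (contDiff_fst.prodMk contDiff_const)) (z0, t0)
    refine ha.congr ?_
    have hev : ∀ᶠ z : E × ℝ in 𝓝 (z0, t0), |z.2 - (⌊t0⌋ : ℝ)| < 1 / 4 := continuousAt_snd.eventually (near_int ⌊t0⌋ e)
    filter_upwards [hev] with z hz
    exact hT_near_int hB ⌊t0⌋ hz

/-- **smoothness of polygons** -/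
theorem sm_hT1 (hB : Bl M) {c : E → ℝ → M} (hc : ∀ i : ℤ, Sm 𝒜 (fun z : E => c z i))
    (hL : ∀ (z : E) (i : ℤ), dist (c z i) (c z ((i : ℝ) + 1)) < π) : Sm 𝒜 (fun z : E × ℝ => hT 𝒜 1 (c z.1) z.2) := by
  rintro ⟨z0, t0⟩
  by_cases hf : 0 < Int.fract t0
  · have ha : SmAt 𝒜 (fun z : E × ℝ => c z.1 (⌊t0⌋ : ℝ)) (z0, t0) :=
      ((hc ⌊t0⌋).comp (f := fun z : E × ℝ => z.1) contDiff_fst) (z0, t0)
    have hs : ContDiff ℝ ∞ (fun z : E × ℝ => z.2 - (⌊t0⌋ : ℝ)) := contDiff_snd.sub contDiff_const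
    have hb : SmAt 𝒜 (fun z : E × ℝ => c z.1 ((⌊t0⌋ : ℝ) + 1)) (z0, t0) := by
      have h2 := ((hc (⌊t0⌋ + 1)).comp (f := fun z : E × ℝ => z.1) contDiff_fst) (z0, t0)
      push_cast at h2
      exact h2
    refine (smAt_rat hB ha hb (contDiff_s1.comp hs).contDiffAt (hL z0 ⌊t0⌋)).congr ?_
    have hev : ∀ᶠ z : E × ℝ in 𝓝 (z0, t0), ⌊z.2⌋ = ⌊t0⌋ := continuousAt_snd.eventually (floor_near hf)
    filter_upwards [hev] with z hz
    rw [hT_one, fract_of_floor hz, hz]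
    rfl
  · have e := int_of_fract hf
    have ha : SmAt 𝒜 (fun z : E × ℝ => c z.1 (⌊t0⌋ : ℝ)) (z0, t0) :=
      ((hc ⌊t0⌋).comp (f := fun z : E × ℝ => z.1) contDiff_fst) (z0, t0)
    refine ha.congr ?_
    have hev : ∀ᶠ z : E × ℝ in 𝓝 (z0, t0), |z.2 - (⌊t0⌋ : ℝ)| < 1 / 4 := continuousAt_snd.eventually (near_int ⌊t0⌋ e)
    filter_upwards [hev] with z hz
    exact hT_near_int hB ⌊t0⌋ hz

/-- the linear homotopy of the time change -/
def sgr (r t : ℝ) : ℝ := (1 - r) * t + r * sg t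

theorem contDiff_sg : ContDiff ℝ ∞ sg := by
  rw [contDiff_iff_contDiffAt]
  intro t0
  by_cases hf : 0 < Int.fract t0
  · have hs : ContDiff ℝ ∞ (fun t : ℝ => (⌊t0⌋ : ℝ) + s2 (t - (⌊t0⌋ : ℝ))) :=
      contDiff_const.add (contDiff_s2.comp (contDiff_id.sub contDiff_const))
    refine hs.contDiffAt.congr_of_eventuallyEq ?_
    filter_upwards [floor_near hf] with t ht
    unfold sg
    rw [fract_of_floor ht, ht]
  · have e := int_of_fract hf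
    refine (contDiff_const (c := (⌊t0⌋ : ℝ))).contDiffAt.congr_of_eventuallyEq ?_
    filter_upwards [near_int ⌊t0⌋ e] with t ht
    obtain ⟨h1, h2⟩ := abs_lt.1 ht
    unfold sg
    rcases lt_or_ge t (⌊t0⌋ : ℝ) with h0 | h0
    · have hf2 := floor_left ht h0
      have hr := fract_of_floor hf2
      rw [hr, hf2]
      push_cast
      rw [s2_one (by linarith)]
      ring
    · have hf2 := floor_right ht h0
      have hr := fract_of_floor hf2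
      rw [hr, hf2, s2_zero (by linarith), add_zero]

theorem sgr_mono {r : ℝ} (h0 : 0 ≤ r) (h1 : r ≤ 1) : Monotone (sgr r) := fun a b h => by
  have h2 := sg_mono h
  unfold sgr
  nlinarith [mul_le_mul_of_nonneg_left h (sub_nonneg.2 h1), mul_le_mul_of_nonneg_left h2 h0]

theorem sgr_add (r t : ℝ) : sgr r (t + 1) = sgr r t + 1 := by
  unfold sgr
  rw [sg_add]
  ring

theorem sgr_add4 (r t : ℝ) : sgr r (t + 4) = sgr r t + 4 := by
  rw [show t + 4 = t + 1 + 1 + 1 + 1 by ring, sgr_add, sgr_add, sgr_add, sgr_add]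
  ring

end Pool.Agent.Lib.MP_ccbbf6_gt.K7
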