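import Pool.Agent.Lib.MP_ccbbf6_gt.K7.HR
import Pool.Agent.Lib.MP_ccbbf6_gt.K7.LP2

/-!
# `κ = 7`, block B2, file LP3: the space of loops with short quarter arcs and the space of 4-gons (helper25)

* `spL 𝒜 δ` : loops of period `4` with `LC δ`; circle action `(c, s) ↦ c (· + 4 s)`; foot map `c ↦ c 0`; constant loops `kL`.
* `spX 𝒜 δ` : 4-gons with sides at most `π - δ`; constant ones `kX`.
* `smp : spL → spX` (samples at the integers), `plg : spX → spL` (polygon with a flat time change), `smp ∘ plg = id`, `plg ∘ smp ~ id` rel constants.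
-/

set_option autoImplicit false
set_option maxSynthPendingDepth 3
set_option linter.unusedSectionVars false

open Set Filter Topology Metric Real Module
open scoped ContDiff RealInnerProductSpace

noncomputable section

namespace Pool.Agent.Lib.MP_ccbbf6_gt.K7

open Geo L4 L4.ORI L4.FR L5

variable {n : ℕ} {M : Type} [MetricSpace M] [CompactSpace M] {𝒜 : SDist n M} {δ : ℝ}

/-- loops (period `4`) all of whose quarter arcs have length at most `π - δ` -/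
def spL (𝒜 : SDist n M) (δ : ℝ) : Space where
  pt := {c : ℝ → M // (∀ t, c (t + 4) = c t) ∧ LC δ c}
  Pl k := {p | L4.Sm 𝒜 (fun z : V k × ℝ => (p z.1).1 z.2)}
  pre := fun {k l p} hp g => by
    have h : ContDiff ℝ ∞ (fun z : V k × ℝ => ((g z.1 : V l), z.2)) := (g.smooth.comp contDiff_fst).prodMk contDiff_snd
    exact L4.Sm.comp (g := fun z : V l × ℝ => (p z.1).1 z.2) hp h

/-- 4-gons with sides at most `π - δ` -/
def spX (𝒜 : SDist n M) (δ : ℝ) : Space where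
  pt := {x : ZMod 4 → M // ∀ i, dist (x i) (x (i + 1)) ≤ π - δ}
  Pl _ := {p | ∀ i, L4.Sm 𝒜 (fun u => (p u).1 i)}
  pre := fun {_ _ p} hp g i => L4.Sm.comp (g := fun u => (p u).1 i) (hp i) g.smooth

theorem LC_const (h : δ ≤ π) (x : M) : LC δ fun _ => x :=
  ⟨fun _ => 0, fun _ _ _ => by rw [dist_self, sub_self], fun _ => by linarith⟩

/-- constant loops -/
def kL (𝒜 : SDist n M) (h : δ ≤ π) : SMap (spM 𝒜) (spL 𝒜 δ) :=
  ⟨fun x : M => ⟨fun _ => x, fun _ => rfl, LC_const h x⟩, fun k p => by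
    exact L4.Sm.comp (M := M) (g := fun u : V k => p.1 u) (f := fun z : V k × ℝ => z.1) p.2 contDiff_fst⟩

/-- constant 4-gons -/
def kX (𝒜 : SDist n M) (h : δ ≤ π) : SMap (spM 𝒜) (spX 𝒜 δ) :=
  ⟨fun x : M => ⟨fun _ => x, fun _ => by rw [dist_self]; linarith⟩, fun _ p _ => p.2⟩

/-- the foot point of a loop -/
def fL (𝒜 : SDist n M) (δ : ℝ) : SMap (spL 𝒜 δ) (spM 𝒜) := ⟨fun c => c.1 0, fun k p => by
  exact L4.Sm.comp (g := fun z : V k × ℝ => (p.1 z.1).1 z.2) (f := fun u : V k => (u, (0 : ℝ))) p.2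
    (contDiff_id.prodMk contDiff_const)⟩

theorem LC_shift {c : ℝ → M} (h : LC δ c) (a : ℝ) : LC δ fun t => c (t + a) :=
  LC_comp h (φ := fun t => t + a) (fun _ _ hst => by linarith) fun s => by ring

/-- the circle action -/
def cL (𝒜 : SDist n M) (δ : ℝ) : Circ (spL 𝒜 δ) where
  a := ⟨fun z => ⟨fun t => z.1.1 (t + 4 * z.2), fun t => by
      show z.1.1 (t + 4 + 4 * z.2) = z.1.1 (t + 4 * z.2)
      rw [show t + 4 + 4 * z.2 = (t + 4 * z.2) + 4 by ring]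
      exact z.1.2.1 _, LC_shift z.1.2.2 _⟩, fun k p => by
    exact L4.Sm.comp (g := fun z : V k × ℝ => (p.1 z.1).1.1 z.2) (f := fun z : V k × ℝ => (z.1, z.2 + 4 * (p.1 z.1).2))
      p.2.1 (contDiff_fst.prodMk (contDiff_snd.add (contDiff_const.mul (p.2.2.comp contDiff_fst))))⟩
  zero c := Subtype.ext (funext fun t => by
    show c.1 (t + 4 * 0) = c.1 t
    rw [mul_zero, add_zero])
  add c s t := Subtype.ext (funext fun r => by
    show c.1 (r + 4 * t + 4 * s) = c.1 (r + 4 * (s + t))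
    ring_nf)
  one c s := Subtype.ext (funext fun r => by
    show c.1 (r + 4 * (s + 1)) = c.1 (r + 4 * s)
    rw [show r + 4 * (s + 1) = r + 4 * s + 4 by ring]
    exact c.2.1 _)

/-- the step function of a 4-gon -/
def stc (x : ZMod 4 → M) (t : ℝ) : M := x ((⌊t⌋ : ℤ) : ZMod 4)

theorem stc_per (x : ZMod 4 → M) (t : ℝ) : stc x (t + 4) = stc x t := by
  unfold stc
  have h : ⌊t + 4⌋ = ⌊t⌋ + 4 := Int.floor_add_ofNat t 4
  have h4 : ((4 : ℤ) : ZMod 4) = 0 := rfl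
  rw [h, Int.cast_add, h4, add_zero]

theorem LC_stc {x : ZMod 4 → M} (h : ∀ i, dist (x i) (x (i + 1)) ≤ π - δ) : LC δ (stc x) :=
  LC_step (x := fun i : ℤ => x (i : ZMod 4)) fun i => by
    rw [Int.cast_add, Int.cast_one]
    exact h _

theorem stc_int (x : ZMod 4 → M) (i : ℤ) : stc x i = x (i : ZMod 4) := by
  unfold stc
  rw [Int.floor_intCast]

theorem stc_int1 (x : ZMod 4 → M) (i : ℤ) : stc x ((i : ℝ) + 1) = x ((i : ZMod 4) + 1) := by
  unfold stc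
  rw [Int.floor_add_one, Int.floor_intCast, Int.cast_add, Int.cast_one]

/-- the polygon with vertices `x i` -/
def plg (hB : Bl M) (hδ : 0 < δ) : SMap (spX 𝒜 δ) (spL 𝒜 δ) :=
  ⟨fun x => ⟨hT 𝒜 1 (stc x.1), hT_per (stc_per x.1), LC_hT hB (LC_stc x.2) zero_le_one le_rfl⟩, fun k p => by
    refine sm_hT1 (E := V k) hB (c := fun z => stc (p.1 z).1) (fun i => ?_) (fun z i => ?_)
    · simp only [stc_int]
      exact p.2 _
    · show dist (stc (p.1 z).1 i) (stc (p.1 z).1 ((i : ℝ) + 1)) < π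
      rw [stc_int, stc_int1]
      linarith [(p.1 z).2 (i : ZMod 4)]⟩

theorem plg_apply (hB : Bl M) (hδ : 0 < δ) (x : (spX 𝒜 δ).pt) (t : ℝ) : ((plg hB hδ).1 x).1 t =
    rat 𝒜 (x.1 ((⌊t⌋ : ℤ) : ZMod 4)) (x.1 (((⌊t⌋ : ℤ) : ZMod 4) + 1)) (s1 (Int.fract t)) := by
  show hT 𝒜 1 (stc x.1) t = _
  rw [hT_one, stc_int, stc_int1]

/-- samples at the integers -/
def smp (𝒜 : SDist n M) (δ : ℝ) : SMap (spL 𝒜 δ) (spX 𝒜 δ) :=
  ⟨fun c => ⟨fun i => c.1 (i.val : ℝ), fun i => by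
    have h1 : c.1 ((i + 1).val : ℝ) = c.1 ((i.val : ℝ) + 1) := by
      fin_cases i
      · show c.1 ((1 : ℕ) : ℝ) = c.1 (((0 : ℕ) : ℝ) + 1)
        norm_num
      · show c.1 ((2 : ℕ) : ℝ) = c.1 (((1 : ℕ) : ℝ) + 1)
        norm_num
      · show c.1 ((3 : ℕ) : ℝ) = c.1 (((2 : ℕ) : ℝ) + 1)
        norm_num
      · show c.1 ((0 : ℕ) : ℝ) = c.1 (((3 : ℕ) : ℝ) + 1)
        have := c.2.1 0
        norm_num at this ⊢
        exact this.symm
    show dist (c.1 (i.val : ℝ)) (c.1 ((i + 1).val : ℝ)) ≤ π - δ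
    rw [h1]
    exact LC_dist c.2.2 (by linarith) le_rfl⟩, fun k p i => by
    exact L4.Sm.comp (g := fun z : V k × ℝ => (p.1 z.1).1 z.2) (f := fun u : V k => (u, (i.val : ℝ))) p.2
      (contDiff_id.prodMk contDiff_const)⟩

/-- `c (val i) = c i` for integers -/
theorem per_val {c : ℝ → M} (hc : ∀ t, c (t + 4) = c t) (i : ℤ) : c (((i : ZMod 4).val : ℕ) : ℝ) = c i := by
  have h1 : (((i : ZMod 4).val : ℕ) : ℤ) = i % 4 := ZMod.val_intCast i
  have h2 : ((((i : ZMod 4).val : ℕ) : ℤ) : ℝ) + ((i / 4 : ℤ) : ℝ) * 4 = i := by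
    rw [h1]
    have h5 : i % 4 + i / 4 * 4 = i := by omega
    exact_mod_cast h5
  have h3 : Function.Periodic c 4 := hc
  rw [← h2]
  have h4 := (h3.int_mul (i / 4)) ((((i : ZMod 4).val : ℕ) : ℤ) : ℝ)
  rw [h4]
  rfl

theorem plg_smp (hB : Bl M) (hδ : 0 < δ) (c : (spL 𝒜 δ).pt) (t : ℝ) :
    ((plg hB hδ).1 ((smp 𝒜 δ).1 c)).1 t = hT 𝒜 1 c.1 t := by
  have h1 : (((⌊t⌋ : ℤ) : ZMod 4) + 1) = (((⌊t⌋ + 1 : ℤ)) : ZMod 4) := by rw [Int.cast_add, Int.cast_one]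
  have h2 : (((⌊t⌋ + 1 : ℤ)) : ℝ) = (⌊t⌋ : ℝ) + 1 := by push_cast; ring
  rw [plg_apply, hT_one, h1]
  show rat 𝒜 (c.1 ((((⌊t⌋ : ℤ) : ZMod 4).val : ℕ) : ℝ)) (c.1 ((((⌊t⌋ + 1 : ℤ) : ZMod 4).val : ℕ) : ℝ)) _ = _
  rw [per_val c.2.1, per_val c.2.1, h2]

theorem smp_kL (h : δ ≤ π) (x : M) : (smp 𝒜 δ).1 ((kL 𝒜 h).1 x) = (kX 𝒜 h).1 x := rfl

theorem plg_kX (hB : Bl M) (hδ : 0 < δ) (h : δ ≤ π) (x : M) : (plg hB hδ).1 ((kX 𝒜 h).1 x) = (kL 𝒜 h).1 x :=
  Subtype.ext (funext fun t => by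
    rw [plg_apply]
    show rat 𝒜 x x _ = x
    rw [rat_self hB])

/-- the chord homotopy from `c ∘ sg` to the polygon -/
def hom1 (hB : Bl M) (hδ : 0 < δ) : SMap (spL 𝒜 δ).xR (spL 𝒜 δ) :=
  ⟨fun z => ⟨hT 𝒜 (Real.smoothTransition z.2) z.1.1, hT_per z.1.2.1,
    LC_hT hB z.1.2.2 (Real.smoothTransition.nonneg _) (Real.smoothTransition.le_one _)⟩, fun k p => by
    refine sm_hT (E := V k) hB hδ (c := fun z => (p.1 z).1.1) (τ := fun z => Real.smoothTransition (p.1 z).2) p.2.1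
      (fun z => (p.1 z).1.2.2) (Real.smoothTransition.contDiff.comp p.2.2) (fun z => Real.smoothTransition.nonneg _)
      (fun z => Real.smoothTransition.le_one _)⟩

/-- the time change homotopy -/
def hom0 (𝒜 : SDist n M) (δ : ℝ) : SMap (spL 𝒜 δ).xR (spL 𝒜 δ) :=
  ⟨fun z => ⟨fun t => z.1.1 (sgr (Real.smoothTransition z.2) t), fun t => by
      show z.1.1 (sgr _ (t + 4)) = z.1.1 (sgr _ t)
      rw [sgr_add4]
      exact z.1.2.1 _,
    LC_comp z.1.2.2 (sgr_mono (Real.smoothTransition.nonneg _) (Real.smoothTransition.le_one _)) (sgr_add _)⟩,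
    fun k p => by
    have h1 : ContDiff ℝ ∞ (fun z : V k × ℝ => Real.smoothTransition (p.1 z.1).2) :=
      Real.smoothTransition.contDiff.comp (p.2.2.comp contDiff_fst)
    have h2 : ContDiff ℝ ∞ (fun z : V k × ℝ => sgr (Real.smoothTransition (p.1 z.1).2) z.2) :=
      ((contDiff_const.sub h1).mul contDiff_snd).add (h1.mul (contDiff_sg.comp contDiff_snd))
    exact L4.Sm.comp (g := fun z : V k × ℝ => (p.1 z.1).1.1 z.2) p.2.1 (contDiff_fst.prodMk h2)⟩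

/-- **loops and 4-gons** -/
theorem rel_L (hB : Bl M) (hδ : 0 < δ) (h : δ ≤ π) :
    HRel (kL 𝒜 h) (SMap.id (spL 𝒜 δ)) ((plg hB hδ).comp (smp 𝒜 δ)) := by
  have h0 : HRel (kL 𝒜 h) (SMap.id (spL 𝒜 δ)) ((hom1 hB hδ).comp (jO _ 0)) := by
    refine HRel.hom (hom0 𝒜 δ) (fun c => Subtype.ext (funext fun t => ?_)) (fun c => Subtype.ext (funext fun t => ?_))
      (fun x t => rfl)
    · show c.1 (sgr (Real.smoothTransition 0) t) = c.1 t
      rw [Real.smoothTransition.zero]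
      unfold sgr
      rw [zero_mul, add_zero, sub_zero, one_mul]
    · show c.1 (sgr (Real.smoothTransition 1) t) = hT 𝒜 (Real.smoothTransition 0) c.1 t
      rw [Real.smoothTransition.zero, Real.smoothTransition.one, hT_zero hB]
      unfold sgr
      rw [sub_self, zero_mul, zero_add, one_mul]
  refine HRel.trans h0 (HRel.hom (hom1 hB hδ) (fun c => rfl) (fun c => Subtype.ext (funext fun t => ?_))
    (fun x t => Subtype.ext (funext fun r => ?_)))
  · show hT 𝒜 (Real.smoothTransition 1) c.1 t = ((plg hB hδ).1 ((smp 𝒜 δ).1 c)).1 t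
    rw [Real.smoothTransition.one, plg_smp]
  · show hT (M := M) 𝒜 (Real.smoothTransition t) (fun _ => x) r = hT (M := M) 𝒜 (Real.smoothTransition 0) (fun _ => x) r
    rw [hT_const hB, hT_const hB]

end Pool.Agent.Lib.MP_ccbbf6_gt.K7
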