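import Pool.Agent.Lib.MP_ccbbf6_gt.K7.BK1
import Pool.Agent.Lib.MP_ccbbf6_gt.K7.LP3

/-!
# `κ = 7`, block B3, file BK2: reduction to the 4-gons of energy less than `π^2 + η` (helper25)
-/

set_option autoImplicit false
set_option maxSynthPendingDepth 3
set_option linter.unusedSectionVars false

open Set Filter Topology Metric Real Module
open scoped ContDiff RealInnerProductSpace

noncomputable section

namespace Pool.Agent.Lib.MP_ccbbf6_gt.K7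

open Geo L4 L4.ORI L4.FR L5

variable {n : ℕ} {M : Type} [MetricSpace M] [CompactSpace M] {𝒜 : SDist n M} {δ η : ℝ} {k : ℕ}

theorem bt_mem (hB : Bl M) {t : ℝ} (h0 : 0 ≤ t) (h1 : t ≤ 1) {x : ZMod 4 → M} (hx : ∀ i, dist (x i) (x (i + 1)) ≤ π - δ)
    (i : ZMod 4) : dist (bt 𝒜 t x i) (bt 𝒜 t x (i + 1)) ≤ π - δ := by
  have h2 := bt_side (𝒜 := 𝒜) hB h0 h1 x i
  have h3 := mul_le_mul_of_nonneg_left (hx i) (show 0 ≤ 1 - t / 2 by linarith)
  have h4 := mul_le_mul_of_nonneg_left (hx (i + 1)) (show 0 ≤ t / 2 by linarith)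
  nlinarith

/-- the shortening homotopy -/
def birH (hB : Bl M) (hδ : 0 < δ) : SMap (spX 𝒜 δ).xR (spX 𝒜 δ) :=
  ⟨fun z => ⟨bt 𝒜 (Real.smoothTransition z.2) z.1.1, bt_mem hB (Real.smoothTransition.nonneg _)
    (Real.smoothTransition.le_one _) z.1.2⟩, fun k p i u => by
    refine smAt_rat hB (p.2.1 i u) (p.2.1 (i + 1) u) ?_ ?_
    · exact ((Real.smoothTransition.contDiff.comp p.2.2).div_const 2).contDiffAt
    · linarith [(p.1 u).1.2 i]⟩

/-- one step -/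
def birM (hB : Bl M) (hδ : 0 < δ) : SMap (spX 𝒜 δ) (spX 𝒜 δ) := (birH hB hδ).comp (jO _ 1)

theorem birM_apply (hB : Bl M) (hδ : 0 < δ) (x : (spX 𝒜 δ).pt) : ((birM hB hδ).1 x).1 = bt 𝒜 1 x.1 := by
  show bt 𝒜 (Real.smoothTransition 1) x.1 = _
  rw [Real.smoothTransition.one]

theorem bt_zero (hB : Bl M) (x : ZMod 4 → M) : bt 𝒜 0 x = x := by
  funext i
  unfold bt
  rw [zero_div, rat_zero hB]

theorem birH_const (hB : Bl M) (hδ : 0 < δ) (h : δ ≤ π) (x : M) (t : ℝ) : (birH hB hδ).1 ((kX 𝒜 h).1 x, t) = (kX 𝒜 h).1 x :=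
  Subtype.ext (funext fun _ => rat_self hB x _)

theorem rel_bir (hB : Bl M) (hδ : 0 < δ) (h : δ ≤ π) (N : ℕ) :
    HRel (kX 𝒜 h) (SMap.id (spX 𝒜 δ)) (itM (birM hB hδ) N) := by
  refine HRel.it (fun x => birH_const hB hδ h x 1) (HRel.hom (birH hB hδ) (fun x => Subtype.ext ?_) (fun x => rfl)
    (fun x t => ?_)) N
  · show bt 𝒜 (Real.smoothTransition 0) x.1 = x.1
    rw [Real.smoothTransition.zero, bt_zero hB]
  · rw [birH_const, birH_const]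

theorem itM_bir (hB : Bl M) (hδ : 0 < δ) (N : ℕ) (x : (spX 𝒜 δ).pt) :
    ((itM (birM hB hδ) N).1 x).1 = (bt 𝒜 1)^[N] x.1 := by
  induction N with
  | zero => rfl
  | succ N ih =>
    rw [Function.iterate_succ_apply', ← ih]
    exact birM_apply hB hδ _

/-- 4-gons of energy less than `π^2 + η` -/
def Uη (𝒜 : SDist n M) (δ η : ℝ) : Set (spX 𝒜 δ).pt := {x | en x.1 < π ^ 2 + η}

/-- 4-gons of energy less than `π^2 + η` -/
abbrev spXe (𝒜 : SDist n M) (δ η : ℝ) : Space := sub (spX 𝒜 δ) (Uη 𝒜 δ η)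

theorem en_const (x : M) : en (fun _ : ZMod 4 => x) = 0 := by
  unfold en
  simp

/-- constant 4-gons -/
def kXe (𝒜 : SDist n M) (h : δ ≤ π) (hη : 0 < η) : SMap (spM 𝒜) (spXe 𝒜 δ η) :=
  ⟨fun x : M => ⟨(kX 𝒜 h).1 x, by
    show en (fun _ : ZMod 4 => x) < π ^ 2 + η
    rw [en_const]
    positivity⟩, fun k p => (kX 𝒜 h).2 k p⟩

/-- **reduction** : a closed form on the space of 4-gons which is exact rel constants on the small ones is exact rel constants -/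
theorem RX_bir (hB : Bl M) (hδ : 0 < δ) (h : δ ≤ π) (hη : 0 < η) {j : ℤ} {w : Om (spX 𝒜 δ)} (hw : DZ j w)
    (dw : dO _ w = 0) (hx : RX (kXe 𝒜 h hη) j ((inU (spX 𝒜 δ) (Uη 𝒜 δ η)).pull w)) : RX (kX 𝒜 h) j w := by
  obtain ⟨N, hN⟩ := iter_bir 𝒜 hB hδ hη
  have hmem : ∀ x : (spX 𝒜 δ).pt, (itM (birM hB hδ) N).1 x ∈ Uη 𝒜 δ η := fun x => by
    show en ((itM (birM hB hδ) N).1 x).1 < π ^ 2 + η
    rw [itM_bir]
    exact hN x.1 x.2
  refine RX.retract (i := inU (spX 𝒜 δ) (Uη 𝒜 δ η))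
    (b := ⟨fun x => ⟨(itM (birM hB hδ) N).1 x, hmem x⟩, fun k p => (itM (birM hB hδ) N).2 k p⟩)
    (rel_bir hB hδ h N) (k' := kXe 𝒜 h hη) (fun x => ?_) hw dw hx
  refine Subtype.ext ?_
  show (itM (birM hB hδ) N).1 ((kX 𝒜 h).1 x) = (kX 𝒜 h).1 x
  rw [itM_apply]
  exact Function.iterate_fixed (birH_const hB hδ h x 1) N

end Pool.Agent.Lib.MP_ccbbf6_gt.K7
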