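import Pool.Agent.Lib.MP_ccbbf6_gt.K7.UA1b
import Pool.Agent.Lib.MP_ccbbf6_gt.L5.INTk
import Pool.Agent.Lib.MP_ccbbf6_gt.L5.PHI02

/-!
# `κ = 7`, block C, part 1: primitives along the last variable (helper53)

* `HO X Θ` : `∫_0^r Θ` on `X × R`; `d_HO`, `HO_j0`, `HO_j1`, `Bas_HO`, `Deg_HO`;
* `rp σ` : `(x, s) ↦ (x, σ s)`; `K_rp` : `K` along a path depends only on the end points up to basic exact forms;
* `A_K` : averages and `K` in different variables commute.
-/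

set_option autoImplicit false
set_option maxSynthPendingDepth 3

open Set Filter Topology MeasureTheory
open scoped TensorProduct ContDiff

noncomputable section

namespace Pool.Agent.Lib.MP_ccbbf6_gt.K7

open L4 L4.FR L5

variable {X Y Z M : Space} {k l n : ℕ} {i j : ℕ}

/-! ### Primitives along the last variable -/

/-- `∫_0^r Θ` -/
def HO (X : Space) (Θ : Om X.xR) : Om X.xR := KO X.xR ((mulM X).pull Θ)

theorem HO_add (Θ Θ' : Om X.xR) : HO X (Θ + Θ') = HO X Θ + HO X Θ' := by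
  unfold HO
  rw [map_add, map_add]

theorem HO_smul (r : ℝ) (Θ : Om X.xR) : HO X (r • Θ) = r • HO X Θ := by
  unfold HO
  rw [map_smul, map_smul]

theorem d_HO {Θ : Om X.xR} (h : dO _ Θ = 0) : dO _ (HO X Θ) = Θ - (pO X).pull ((jO X 0).pull Θ) := by
  have h1 := d_K ((mulM X).pull Θ)
  have h2 : dO _ ((mulM X).pull Θ) = 0 := by rw [pull_d, h, map_zero]
  have e1 : (mulM X).comp (jO _ 1) = SMap.id _ := SMap_ext fun z => Prod.ext rfl (mul_one z.2)
  have e0 : (mulM X).comp (jO _ 0) = (jO _ 0).comp (pO _) := SMap_ext fun z => Prod.ext rfl (mul_zero z.2)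
  have h3 : (jO X.xR 1).pull ((mulM X).pull Θ) = Θ := by rw [← pull_comp, e1, pull_id]
  have h4 : (jO X.xR 0).pull ((mulM X).pull Θ) = (pO _).pull ((jO X 0).pull Θ) := by
    rw [← pull_comp, e0, pull_comp]
  rw [h2, map_zero, add_zero, h3, h4] at h1
  exact h1

theorem HO_j0 (Θ : Om X.xR) : (jO X 0).pull (HO X Θ) = 0 := by
  unfold HO
  rw [← K_up, ← pull_comp]
  have e0 : (mulM X).comp (jO X 0).up = (jO X 0).comp (pO _) := SMap_ext fun z => Prod.ext rfl (zero_mul z.2)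
  rw [e0, pull_comp, K_p]

theorem HO_j1 (Θ : Om X.xR) : (jO X 1).pull (HO X Θ) = KO X Θ := by
  unfold HO
  rw [← K_up, ← pull_comp]
  have e0 : (mulM X).comp (jO X 1).up = SMap.id _ := SMap_ext fun z => Prod.ext rfl (one_mul z.2)
  rw [e0, pull_id]

theorem Deg_HO {Θ : Om X.xR} (h : Deg (j + 1) Θ) : Deg j (HO X Θ) := Deg_K (Deg_pull _ h)

theorem s_HO (Θ : Om X.xR) : sO _ (HO X Θ) = -HO X (sO _ Θ) := by
  unfold HO
  rw [K_s, pull_s]

variable {c : Circ X} {c' : Circ Y}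

theorem Eqv_mulM (c : Circ X) : Eqv (xRc (xRc c)) (xRc c) (mulM X) := fun _ _ => rfl

theorem Bas_HO {Θ : Om X.xR} (h : Bas (xRc c) Θ) : Bas (xRc c) (HO X Θ) := Bas_K (Bas_nat (Eqv_mulM c) h)

/-- `(x, s) ↦ (x, σ s)` -/
def rp (X : Space) (σ : ℝ → ℝ) (hσ : ContDiff ℝ ∞ σ) : SMap X.xR X.xR :=
  ⟨fun z => (z.1, σ z.2), fun _ p => ⟨p.2.1, hσ.comp p.2.2⟩⟩

theorem Eqv_rp (c : Circ X) {σ : ℝ → ℝ} (hσ : ContDiff ℝ ∞ σ) : Eqv (xRc c) (xRc c) (rp X σ hσ) := fun _ _ => rfl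

theorem rp_j {σ : ℝ → ℝ} (hσ : ContDiff ℝ ∞ σ) (t : ℝ) : (rp X σ hσ).comp (jO X t) = jO X (σ t) :=
  SMap_ext fun _ => rfl

theorem rp_p {σ : ℝ → ℝ} (hσ : ContDiff ℝ ∞ σ) : (pO X).comp (rp X σ hσ) = pO X := SMap_ext fun _ => rfl

/-- `K` along a path: the primitive at the end points -/
theorem K_rp {Θ : Om X.xR} (hb : Bas (xRc c) Θ) (hd : dO _ Θ = 0) {σ : ℝ → ℝ} (hσ : ContDiff ℝ ∞ σ) :
    ∃ y, Bas c y ∧ KO X ((rp X σ hσ).pull Θ) =
      (jO X (σ 1)).pull (HO X Θ) - (jO X (σ 0)).pull (HO X Θ) + dO X y := by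
  obtain ⟨w, hw⟩ : ∃ w, w = (rp X σ hσ).pull (HO X Θ) := ⟨_, rfl⟩
  have h1 : (rp X σ hσ).pull Θ = dO _ w + (pO X).pull ((jO X 0).pull Θ) := by
    rw [hw, pull_d, d_HO hd, map_sub]
    have h2 : (rp X σ hσ).pull ((pO X).pull ((jO X 0).pull Θ)) = (pO X).pull ((jO X 0).pull Θ) := by
      rw [← pull_comp (pO X), rp_p]
    rw [h2]
    abel
  refine ⟨-KO X w, ?_, ?_⟩
  · have h3 : Bas (xRc c) w := by
      rw [hw]
      exact Bas_nat (Eqv_rp c hσ) (Bas_HO hb)
    have := Bas_smul c (-1) (Bas_K h3)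
    rwa [neg_one_smul] at this
  · have h4 := d_K w
    have h5 : ∀ t, (jO X t).pull w = (jO X (σ t)).pull (HO X Θ) := fun t => by
      rw [hw, ← pull_comp, rp_j]
    rw [h5, h5] at h4
    rw [h1, map_add, K_p, add_zero, map_neg, ← h4]
    abel

/-- the values of a closed basic form at two times differ by a basic exact form -/
theorem j_sub {Θ : Om X.xR} (hb : Bas (xRc c) Θ) (hd : dO _ Θ = 0) (s t : ℝ) :
    ∃ y, Bas c y ∧ (jO X t).pull Θ - (jO X s).pull Θ = dO X y := by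
  have hσ : ContDiff ℝ ∞ fun r : ℝ => s + (t - s) * r := by fun_prop
  refine ⟨KO X ((rp X _ hσ).pull Θ), Bas_K (Bas_nat (Eqv_rp c hσ) hb), ?_⟩
  have h1 := d_K ((rp X _ hσ).pull Θ)
  have h2 : dO _ ((rp X _ hσ).pull Θ) = 0 := by rw [pull_d, hd, map_zero]
  have e1 : s + (t - s) * 1 = t := by ring
  have e0 : s + (t - s) * 0 = s := by ring
  rw [h2, map_zero, add_zero, ← pull_comp, ← pull_comp, rp_j, rp_j, e1, e0] at h1
  exact h1.symm

/-! ### Averages and `K` -/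

theorem cont_ev_all (ψ : Ex n →ₗ[ℝ] ℝ) (x : Fm n) : Continuous fun p => ψ (ev p x) := by
  induction x using Fm_tind with
  | hf f a =>
    have h : ∀ p, ψ (ev p (tm f a)) = (f : V n → ℝ) p * ψ a := fun p => by
      rw [ev_tm, map_smul, smul_eq_mul]
    simp only [h]
    exact (Cs_smooth f).continuous.mul continuous_const
  | ha x y hx hy =>
    simp only [map_add]
    exact hx.add hy

theorem Q0_Q0_sw (v : Fm (k + 1 + 1)) : Q0 k (Q0 (k + 1) (pb (sw k) v)) = Q0 k (Q0 (k + 1) v) := by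
  rw [← sub_eq_zero]
  refine ev_fun_inj fun φ z => ?_
  rw [map_sub, map_sub, ev_Q0, ev_Q0, sub_eq_zero]
  have e : ∀ (w : Fm (k + 1 + 1)) (s : ℝ), φ (ev z (pb (sl k s) (Q0 (k + 1) w))) =
      ∫ t in (0 : ℝ)..1, φ (ev z (pb (sl k s) (pb (sl (k + 1) t) w))) := by
    intro w s
    rw [← Q0_up, ev_Q0]
    refine intervalIntegral.integral_congr fun t _ => ?_
    change φ (ev z (pb (sl k t) (pb (sl k s).up w))) = φ (ev z (pb (sl k s) (pb (sl (k + 1) t) w)))
    rw [← pb_comp, ← pb_comp]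
    have h : (sl k s).up.comp (sl k t) = (sl (k + 1) t).comp (sl k s) := by
      refine FR.Sm.ext fun x => ?_
      change (Fin.snoc (sl k s (pr k (Fin.snoc x t))) ((Fin.snoc x t : V (k + 1)) (Fin.last k)) : V (k + 1 + 1)) =
        Fin.snoc (Fin.snoc x s : V (k + 1)) t
      rw [pr_snoc, Fin.snoc_last]
      rfl
    rw [h]
  simp only [e]
  have e2 : ∀ s t : ℝ, φ (ev z (pb (sl k s) (pb (sl (k + 1) t) (pb (sw k) v)))) =
      φ (ev z (pb (sl k t) (pb (sl (k + 1) s) v))) := by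
    intro s t
    rw [← pb_comp, ← pb_comp, ← pb_comp]
    have h : (sw k).comp ((sl (k + 1) t).comp (sl k s)) = (sl (k + 1) s).comp (sl k t) := by
      refine FR.Sm.ext fun x => ?_
      exact sw_snoc x s t
    rw [h]
  simp only [e2]
  have hc : Continuous (Function.uncurry fun s t : ℝ => φ (ev z (pb (sl k s) (pb (sl (k + 1) t) v)))) := by
    have h1 : ∀ p : ℝ × ℝ, Function.uncurry (fun s t : ℝ => φ (ev z (pb (sl k s) (pb (sl (k + 1) t) v)))) p =
        (φ.comp ((kil k).toLinearMap.comp (kil (k + 1)).toLinearMap))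
          (ev (Fin.snoc (Fin.snoc z p.1 : V (k + 1)) p.2 : V (k + 1 + 1)) v) := by
      intro p
      change φ (ev z (pb (sl k p.1) (pb (sl (k + 1) p.2) v))) = φ (kil k (kil (k + 1) _))
      rw [ev_slP, ev_slP]
    have h2 : (Function.uncurry fun s t : ℝ => φ (ev z (pb (sl k s) (pb (sl (k + 1) t) v)))) = _ := funext h1
    rw [h2]
    have h3 : Continuous fun p : ℝ × ℝ => (Fin.snoc (Fin.snoc z p.1 : V (k + 1)) p.2 : V (k + 1 + 1)) := by
      have h4 : Continuous fun p : ℝ × ℝ => (Fin.snoc z p.1 : V (k + 1)) :=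
        (contDiff_snoc (k := k)).continuous.comp (continuous_const.prodMk continuous_fst)
      exact (contDiff_snoc (k := k + 1)).continuous.comp (h4.prodMk continuous_snd)
    exact (cont_ev_all _ v).comp h3
  exact intervalIntegral_intervalIntegral_swap
    ((hc.continuousOn.integrableOn_compact (isCompact_uIcc.prod isCompact_uIcc)).mono_set
      (Set.prod_mono uIoc_subset_uIcc uIoc_subset_uIcc)) |>.symm

/-- averages and `K` commute -/
theorem A_K (c : Circ X) (Θ : Om X.xR) : AO c (KO X Θ) = KO X (AO (xRc c) Θ) :=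
  Om_ext fun k p => by
    have h1 : (lst k).comp (ini (k + 1)) = lst' k := rfl
    rw [on_A, on_K, up_op, on_cmp, on_K, on_A, KK_apply, cs_sw, Q0_Q0_sw, KK_apply, cs, cn_Q0, h1]

end Pool.Agent.Lib.MP_ccbbf6_gt.K7
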