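import Pool.Agent.Lib.MP_ccbbf6_gt.K7.UA1
import Pool.Agent.Lib.MP_ccbbf6_gt.L4.Cmp2
import Pool.Agent.Lib.MP_ccbbf6_gt.L5.PHI01

/-!
# `κ = 7`, the commutative ring of even forms and the ring of even closed basic forms modulo exact ones (helper53)

* `Ev X` : even forms, a commutative algebra; `dE` the differential as a derivation `Ev X → Om X`;
* `Jb c`, `Qb c` : even closed basic forms modulo derivatives of basic forms; `Xe c` : the relation.
-/

set_option autoImplicit false
set_option maxSynthPendingDepth 3

open Set Filter Topology MeasureTheory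
open scoped TensorProduct ContDiff

noncomputable section

namespace Pool.Agent.Lib.MP_ccbbf6_gt.K7

open L4 L4.FR L5

variable {X Y Z M : Space} {k l n : ℕ} {i j : ℕ}

/-- even forms -/
def Ev (X : Space) : Subalgebra ℝ (Om X) where
  carrier := {w | sO X w = w}
  mul_mem' := fun {a b} ha hb => by
    change sO X (a * b) = a * b
    rw [map_mul, show sO X a = a from ha, show sO X b = b from hb]
  add_mem' := fun {a b} ha hb => by
    change sO X (a + b) = a + b
    rw [map_add, show sO X a = a from ha, show sO X b = b from hb]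
  algebraMap_mem' := fun r => AlgHom.commutes _ _

instance (priority := 3000) EvCR (X : Space) : CommRing (Ev X) :=
  { (inferInstance : Ring (Ev X)) with
    mul_comm := fun a _ => Subtype.ext (even_comm' a.2 _) }

instance (priority := 3000) EvRing (X : Space) : Ring (Ev X) := (EvCR X).toRing

instance (priority := 3000) EvCSR (X : Space) : CommSemiring (Ev X) := (EvCR X).toCommSemiring

instance (priority := 3000) EvSR (X : Space) : Semiring (Ev X) := (EvRing X).toSemiring

instance (priority := 3000) EvNAS (X : Space) : NonAssocSemiring (Ev X) := (EvSR X).toNonAssocSemiring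

instance (priority := 3000) EvNUNAS (X : Space) : NonUnitalNonAssocSemiring (Ev X) := (EvNAS X).toNonUnitalNonAssocSemiring

instance (priority := 3000) EvNUNAR (X : Space) : NonUnitalNonAssocRing (Ev X) := inferInstance

instance (priority := 3000) EvACG (X : Space) : AddCommGroup (Ev X) := (EvRing X).toAddCommGroup

instance (priority := 3000) EvACM (X : Space) : AddCommMonoid (Ev X) := (EvNUNAS X).toAddCommMonoid

instance (priority := 3000) EvMonoid (X : Space) : Monoid (Ev X) := (EvSR X).toMonoid

instance (priority := 3000) EvMul (X : Space) : Mul (Ev X) := (EvNUNAS X).toMul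

instance (priority := 3000) EvAdd (X : Space) : Add (Ev X) := (EvACM X).toAdd

instance (priority := 3000) EvZero (X : Space) : Zero (Ev X) := (EvACM X).toZero

instance (priority := 3000) EvOne (X : Space) : One (Ev X) := (EvNAS X).toOne

instance (priority := 3000) EvNeg (X : Space) : Neg (Ev X) := (EvRing X).toNeg

instance (priority := 3000) EvSub (X : Space) : Sub (Ev X) := (EvRing X).toSub

instance (priority := 3000) EvNPow (X : Space) : NPow (Ev X) := (EvMonoid X).toNPow

instance (priority := 3000) EvPow (X : Space) : Pow (Ev X) ℕ := @NPow.toPow (Ev X) (EvNPow X)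

instance (priority := 3000) EvAlg (X : Space) : Algebra ℝ (Ev X) := (Ev X).algebra

instance (priority := 3000) EvMod (X : Space) : Module ℝ (Ev X) := (EvAlg X).toModule

instance (priority := 3000) EvSMul (X : Space) : SMul ℝ (Ev X) := (EvAlg X).toSMul

instance (priority := 3000) EvModOm (X : Space) : Module (Ev X) (Om X) := (Ev X).moduleLeft

instance (priority := 3000) EvTower (X : Space) : IsScalarTower ℝ (Ev X) (Om X) := inferInstance

theorem Ev_smul (w : Ev X) (x : Om X) : w • x = (w : Om X) * x := rfl

theorem Ev_ext {a b : Ev X} (h : (a : Om X) = b) : a = b := Subtype.ext h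

/-- the differential on even forms -/
def dE (X : Space) : Derivation ℝ (Ev X) (Om X) where
  toLinearMap := (dO X).comp (Ev X).val.toLinearMap
  map_one_eq_zero' := d_one
  leibniz' a b := by
    change dO X ((a : Om X) * b) = a • dO X b + b • dO X a
    have ha : sO X (a : Om X) = a := a.2
    rw [d_mul, ha, Ev_smul, Ev_smul, even_comm' b.2 (dO X a), add_comm]

theorem dE_apply (a : Ev X) : dE X a = dO X a := rfl

/-- a homogeneous form of even degree -/
def mkE {w : Om X} (h : sO X w = w) : Ev X := ⟨w, h⟩

theorem mkE_coe {w : Om X} (h : sO X w = w) : ((mkE h : Ev X) : Om X) = w := rfl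

/-! ### Closed basic forms modulo derivatives of basic forms -/

variable (c : Circ X)

/-- derivatives of basic forms -/
def Xe (w : Om X) : Prop := ∃ y, Bas c y ∧ w = dO X y

variable {c}

theorem Bas_zero : Bas c (0 : Om X) := fun k p => by rw [on_zero, on_zero, map_zero]

theorem Bas_neg {w : Om X} (h : Bas c w) : Bas c (-w) := by
  have := Bas_smul c (-1) h
  rwa [neg_one_smul] at this

theorem Xe_zero : Xe c 0 := ⟨0, Bas_zero, by rw [map_zero]⟩

theorem Xe_add {w w' : Om X} (h : Xe c w) (h' : Xe c w') : Xe c (w + w') := by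
  obtain ⟨y, hy, e1⟩ := h
  obtain ⟨z, hz, e2⟩ := h'
  exact ⟨y + z, Bas_add c hy hz, by rw [map_add, e1, e2]⟩

theorem Xe_smul (r : ℝ) {w : Om X} (h : Xe c w) : Xe c (r • w) := by
  obtain ⟨y, hy, e1⟩ := h
  exact ⟨r • y, Bas_smul c r hy, by rw [map_smul, e1]⟩

theorem Xe_neg {w : Om X} (h : Xe c w) : Xe c (-w) := by
  have := Xe_smul (-1) h
  rwa [neg_one_smul] at this

theorem Xe_sub {w w' : Om X} (h : Xe c w) (h' : Xe c w') : Xe c (w - w') := by
  rw [sub_eq_add_neg]
  exact Xe_add h (Xe_neg h')

theorem Xe_mul {w v : Om X} (h : Xe c w) (hv : Bas c v) (hdv : dO X v = 0) : Xe c (w * v) := by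
  obtain ⟨y, hy, e1⟩ := h
  exact ⟨y * v, Bas_mul c hy hv, by rw [d_mul, hdv, mul_zero, add_zero, e1]⟩

theorem mul_Xe {w v : Om X} (h : Xe c w) (hv : Bas c v) (hsv : sO X v = v) (hdv : dO X v = 0) : Xe c (v * w) := by
  rw [even_comm' hsv]
  exact Xe_mul h hv hdv

theorem Xe_d {y : Om X} (h : Bas c y) : Xe c (dO X y) := ⟨y, h, rfl⟩

theorem Xe_nat {c' : Circ Y} {g : SMap Y X} (hg : Eqv c' c g) {w : Om X} (h : Xe c w) : Xe c' (g.pull w) := by
  obtain ⟨y, hy, e1⟩ := h
  exact ⟨g.pull y, Bas_nat hg hy, by rw [e1, pull_d]⟩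

/-! ### Named instances of the rings -/

instance (priority := 3000) RbCR (c : Circ X) : CommRing (Rb c) := inferInstance

instance (priority := 3000) RbRing (c : Circ X) : Ring (Rb c) := (RbCR c).toRing

instance (priority := 3000) RbCSR (c : Circ X) : CommSemiring (Rb c) := (RbCR c).toCommSemiring

instance (priority := 3000) RbSR (c : Circ X) : Semiring (Rb c) := (RbRing c).toSemiring

instance (priority := 3000) RbNAS (c : Circ X) : NonAssocSemiring (Rb c) := (RbSR c).toNonAssocSemiring

instance (priority := 3000) RbNUNAS (c : Circ X) : NonUnitalNonAssocSemiring (Rb c) := (RbNAS c).toNonUnitalNonAssocSemiring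

instance (priority := 3000) RbNUNAR (c : Circ X) : NonUnitalNonAssocRing (Rb c) := inferInstance

instance (priority := 3000) RbACG (c : Circ X) : AddCommGroup (Rb c) := (RbRing c).toAddCommGroup

instance (priority := 3000) RbACM (c : Circ X) : AddCommMonoid (Rb c) := (RbNUNAS c).toAddCommMonoid

instance (priority := 3000) RbMonoid (c : Circ X) : Monoid (Rb c) := (RbSR c).toMonoid

instance (priority := 3000) RbMul (c : Circ X) : Mul (Rb c) := (RbNUNAS c).toMul

instance (priority := 3000) RbAdd (c : Circ X) : Add (Rb c) := (RbACM c).toAdd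

instance (priority := 3000) RbZero (c : Circ X) : Zero (Rb c) := (RbACM c).toZero

instance (priority := 3000) RbOne (c : Circ X) : One (Rb c) := (RbNAS c).toOne

instance (priority := 3000) RbNeg (c : Circ X) : Neg (Rb c) := (RbRing c).toNeg

instance (priority := 3000) RbSub (c : Circ X) : Sub (Rb c) := (RbRing c).toSub

instance (priority := 3000) RbNPow (c : Circ X) : NPow (Rb c) := (RbMonoid c).toNPow

instance (priority := 3000) RbPow (c : Circ X) : Pow (Rb c) ℕ := @NPow.toPow (Rb c) (RbNPow c)

instance (priority := 3000) RbAlg (c : Circ X) : Algebra ℝ (Rb c) := (Rb c).algebra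

instance (priority := 3000) RbMod (c : Circ X) : Module ℝ (Rb c) := (RbAlg c).toModule

instance (priority := 3000) RbSMul (c : Circ X) : SMul ℝ (Rb c) := (RbAlg c).toSMul

instance (priority := 3000) RbModOm (c : Circ X) : Module (Rb c) (Om X) := (Rb c).moduleLeft

instance (priority := 3000) RbTower (c : Circ X) : IsScalarTower ℝ (Rb c) (Om X) := inferInstance

theorem Bas_Rb (w : Rb c) : Bas c (w : Om X) := Bas_closed c w.2.2.2 w.2.2.1

/-- constructor -/
def mkR {w : Om X} (hs : sO X w = w) (hd : dO X w = 0) (hb : Bas c w) : Rb c := ⟨w, hs, hd, Bas_i c hb⟩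

theorem mkR_coe {w : Om X} (hs : sO X w = w) (hd : dO X w = 0) (hb : Bas c w) : ((mkR hs hd hb : Rb c) : Om X) = w := rfl

variable (c)

/-- the ideal of the exact forms -/
def Jb : Ideal (Rb c) where
  carrier := {w | Xe c (w : Om X)}
  add_mem' := fun h h' => Xe_add h h'
  zero_mem' := Xe_zero
  smul_mem' := fun a w h => mul_Xe h (Bas_Rb a) a.2.1 a.2.2.1

/-- the ring of classes -/
abbrev Qb : Type _ := Rb c ⧸ Jb c

instance (priority := 3000) QbCR : CommRing (Qb c) := Ideal.Quotient.commRing (Jb c)

instance (priority := 3000) QbRing  : Ring (Qb c) := (QbCR c).toRing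

instance (priority := 3000) QbCSR  : CommSemiring (Qb c) := (QbCR c).toCommSemiring

instance (priority := 3000) QbSR  : Semiring (Qb c) := (QbRing c).toSemiring

instance (priority := 3000) QbNAS  : NonAssocSemiring (Qb c) := (QbSR c).toNonAssocSemiring

instance (priority := 3000) QbNUNAS  : NonUnitalNonAssocSemiring (Qb c) := (QbNAS c).toNonUnitalNonAssocSemiring

instance (priority := 3000) QbNUNAR  : NonUnitalNonAssocRing (Qb c) := inferInstance

instance (priority := 3000) QbACG  : AddCommGroup (Qb c) := (QbRing c).toAddCommGroup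

instance (priority := 3000) QbACM  : AddCommMonoid (Qb c) := (QbNUNAS c).toAddCommMonoid

instance (priority := 3000) QbMonoid  : Monoid (Qb c) := (QbSR c).toMonoid

instance (priority := 3000) QbMul  : Mul (Qb c) := (QbNUNAS c).toMul

instance (priority := 3000) QbAdd  : Add (Qb c) := (QbACM c).toAdd

instance (priority := 3000) QbZero  : Zero (Qb c) := (QbACM c).toZero

instance (priority := 3000) QbOne  : One (Qb c) := (QbNAS c).toOne

instance (priority := 3000) QbNeg  : Neg (Qb c) := (QbRing c).toNeg

instance (priority := 3000) QbSub  : Sub (Qb c) := (QbRing c).toSub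

instance (priority := 3000) QbNPow  : NPow (Qb c) := (QbMonoid c).toNPow

instance (priority := 3000) QbPow  : Pow (Qb c) ℕ := @NPow.toPow (Qb c) (QbNPow c)

instance (priority := 3000) QbAlg  : Algebra ℝ (Qb c) := Ideal.instAlgebraQuotient ℝ (Jb c)

instance (priority := 3000) QbMod  : Module ℝ (Qb c) := (QbAlg c).toModule

instance (priority := 3000) QbSMul  : SMul ℝ (Qb c) := (QbAlg c).toSMul

instance (priority := 3000) QbAH : AddHomClass (Rb c →ₐ[ℝ] Qb c) (Rb c) (Qb c) := inferInstance

instance (priority := 3000) QbMA : MulActionHomClass (Rb c →ₐ[ℝ] Qb c) ℝ (Rb c) (Qb c) := inferInstance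

/-- the class -/
def cl : Rb c →ₐ[ℝ] Qb c := Ideal.Quotient.mkₐ ℝ (Jb c)

variable {c}

theorem cl_eq_zero {w : Rb c} : cl c w = 0 ↔ Xe c (w : Om X) := Ideal.Quotient.eq_zero_iff_mem

theorem cl_eq {w v : Rb c} : cl c w = cl c v ↔ Xe c ((w : Om X) - v) := by
  rw [← sub_eq_zero, ← map_sub, cl_eq_zero]
  rfl

end Pool.Agent.Lib.MP_ccbbf6_gt.K7
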