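import Pool.Agent.Lib.MP_ccbbf6_gt.K7.C01
import Pool.Agent.Lib.MP_ccbbf6_gt.K7.EV
import Pool.Agent.Lib.MP_ccbbf6_gt.K7.VD

/-!
# `κ = 7`, block C, part 2: the homotopy calculus of `xb`, `ub xb`, `TT` between two families of constant loops (helper53)

`F` a family of loops over `X × R`, constant for `r = 0` and `r = 1`; `K1 = xbh`, `yy` the mean of the two maps:
* `uxh ~ K1 yy`, `TTh ~ - (1/2) e K1^3 yy` modulo derivatives of basic forms;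
* `a1 - a0 + e K1 ~ 0`.
-/

set_option autoImplicit false
set_option maxSynthPendingDepth 3

open Set Filter Topology MeasureTheory
open scoped TensorProduct ContDiff

noncomputable section

namespace Pool.Agent.Lib.MP_ccbbf6_gt.K7

open L4 L4.FR L5

variable {X Y Z M : Space} {k l n : ℕ} {i j : ℕ}

/-! ### Abstract identities -/

section abs

variable {R S T M' : Type*} [CommRing R] [Algebra ℝ R] [AddCommGroup M'] [Module ℝ M'] [Module R M'] [IsScalarTower ℝ R M']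
  [Ring S] [Algebra ℝ S] [Ring T] [Algebra ℝ T]

theorem ab_PB (D : Derivation ℝ R M') {Y g e : R} {x : M'} (dY : D Y = 0) (dg : D g = x) (de : D e = 0) :
    D (Y * g - (2⁻¹ : ℝ) • (e * (g * g))) = (Y - e * g) • x := by
  rw [map_sub, Derivation.map_smul, Derivation.leibniz, Derivation.leibniz, Derivation.leibniz, dY, dg, de]
  match_scalars
  algebra

omit [Algebra ℝ R] [Module ℝ M'] [IsScalarTower ℝ R M'] in
theorem ab_sq {b w : R} {x : M'} (h : b • x = w • x) : b ^ 2 • x = w ^ 2 • x := by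
  rw [pow_two, pow_two, mul_smul, h, smul_comm, h, mul_smul]

theorem ab_PT (D : Derivation ℝ R M') {Y g e x' : R} {x : M'} (dY : D Y = 0) (dg : D g = x) (de : D e = 0)
    (dx : D x' = -((3 : ℝ) • ((Y - e * g) ^ 2 • x))) :
    D (g * x' + (3 / 2 : ℝ) • (g ^ 2 * Y ^ 2) - (2 : ℝ) • (e * (g ^ 3 * Y)) + (3 / 4 : ℝ) • (e ^ 2 * g ^ 4)) = x' • x := by
  rw [map_add, map_sub, map_add, Derivation.map_smul, Derivation.map_smul, Derivation.map_smul]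
  simp only [Derivation.leibniz, Derivation.leibniz_pow, dY, dg, de, dx]
  match_scalars
  algebra

theorem ab_mPB (φ : S →ₐ[ℝ] T) {Y g p : S} {Y' g' p' : T} (h1 : φ Y = Y') (h2 : φ g = g') (h3 : φ p = p') :
    φ (Y * g - (2⁻¹ : ℝ) • (p * (g * g))) = Y' * g' - (2⁻¹ : ℝ) • (p' * (g' * g')) := by
  rw [map_sub, map_mul, map_smul, map_mul, map_mul, h1, h2, h3]

theorem ab_mPT (φ : S →ₐ[ℝ] T) {Y g p x : S} {Y' g' p' : T} (h1 : φ Y = Y') (h2 : φ g = g') (h3 : φ p = p')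
    (h4 : φ x = 0) :
    φ (g * x + (3 / 2 : ℝ) • (g ^ 2 * Y ^ 2) - (2 : ℝ) • (p * (g ^ 3 * Y)) + (3 / 4 : ℝ) • (p ^ 2 * g ^ 4)) =
      (3 / 2 : ℝ) • (g' ^ 2 * Y' ^ 2) - (2 : ℝ) • (p' * (g' ^ 3 * Y')) + (3 / 4 : ℝ) • (p' ^ 2 * g' ^ 4) := by
  rw [map_add, map_sub, map_add, map_mul, h4, mul_zero, zero_add, map_smul, map_smul, map_smul, map_mul, map_mul,
    map_mul, map_mul, map_pow, map_pow, map_pow, map_pow, map_pow, h1, h2, h3]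

theorem ab_eB (ι : R →ₐ[ℝ] T) {K e a0 a1 : R} {K' e' b0 b1 : T} (h1 : ι K = K') (h2 : ι e = e') (h3 : ι a0 = b0)
    (h4 : ι a1 = b1) : K' * ((2⁻¹ : ℝ) • (b0 + b1)) =
    ((b1 + (2⁻¹ : ℝ) • (e' * K')) * ((2⁻¹ : ℝ) • K') - (2⁻¹ : ℝ) • (e' * (((2⁻¹ : ℝ) • K') * ((2⁻¹ : ℝ) • K')))) -
    ((b0 - (2⁻¹ : ℝ) • (e' * K')) * (-((2⁻¹ : ℝ) • K')) - (2⁻¹ : ℝ) • (e' * (-((2⁻¹ : ℝ) • K') * -((2⁻¹ : ℝ) • K')))) := by
  have h : K * ((2⁻¹ : ℝ) • (a0 + a1)) =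
    ((a1 + (2⁻¹ : ℝ) • (e * K)) * ((2⁻¹ : ℝ) • K) - (2⁻¹ : ℝ) • (e * (((2⁻¹ : ℝ) • K) * ((2⁻¹ : ℝ) • K)))) -
    ((a0 - (2⁻¹ : ℝ) • (e * K)) * (-((2⁻¹ : ℝ) • K)) - (2⁻¹ : ℝ) • (e * (-((2⁻¹ : ℝ) • K) * -((2⁻¹ : ℝ) • K)))) := by
    algebra
  have := congrArg ι h
  simpa only [map_mul, map_sub, map_add, map_neg, map_smul, h1, h2, h3, h4] using this

theorem ab_eT (ι : R →ₐ[ℝ] T) {K e a0 a1 : R} {K' e' b0 b1 : T} (h1 : ι K = K') (h2 : ι e = e') (h3 : ι a0 = b0)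
    (h4 : ι a1 = b1) :
    ((3 / 2 : ℝ) • (((2⁻¹ : ℝ) • K') ^ 2 * (b1 + (2⁻¹ : ℝ) • (e' * K')) ^ 2) -
      (2 : ℝ) • (e' * (((2⁻¹ : ℝ) • K') ^ 3 * (b1 + (2⁻¹ : ℝ) • (e' * K')))) +
      (3 / 4 : ℝ) • (e' ^ 2 * ((2⁻¹ : ℝ) • K') ^ 4)) -
    ((3 / 2 : ℝ) • ((-((2⁻¹ : ℝ) • K')) ^ 2 * (b0 - (2⁻¹ : ℝ) • (e' * K')) ^ 2) -
      (2 : ℝ) • (e' * ((-((2⁻¹ : ℝ) • K')) ^ 3 * (b0 - (2⁻¹ : ℝ) • (e' * K')))) +
      (3 / 4 : ℝ) • (e' ^ 2 * (-((2⁻¹ : ℝ) • K')) ^ 4)) + (2⁻¹ : ℝ) • (e' * (K' ^ 3 * ((2⁻¹ : ℝ) • (b0 + b1)))) =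
    (3 / 8 : ℝ) • ((b1 - b0 + e' * K') * (K' ^ 2 * (b0 + b1))) := by
  have h : ((3 / 2 : ℝ) • (((2⁻¹ : ℝ) • K) ^ 2 * (a1 + (2⁻¹ : ℝ) • (e * K)) ^ 2) -
      (2 : ℝ) • (e * (((2⁻¹ : ℝ) • K) ^ 3 * (a1 + (2⁻¹ : ℝ) • (e * K)))) +
      (3 / 4 : ℝ) • (e ^ 2 * ((2⁻¹ : ℝ) • K) ^ 4)) -
    ((3 / 2 : ℝ) • ((-((2⁻¹ : ℝ) • K)) ^ 2 * (a0 - (2⁻¹ : ℝ) • (e * K)) ^ 2) -
      (2 : ℝ) • (e * ((-((2⁻¹ : ℝ) • K)) ^ 3 * (a0 - (2⁻¹ : ℝ) • (e * K)))) +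
      (3 / 4 : ℝ) • (e ^ 2 * (-((2⁻¹ : ℝ) • K)) ^ 4)) + (2⁻¹ : ℝ) • (e * (K ^ 3 * ((2⁻¹ : ℝ) • (a0 + a1)))) =
    (3 / 8 : ℝ) • ((a1 - a0 + e * K) * (K ^ 2 * (a0 + a1))) := by
    algebra
  have := congrArg ι h
  simpa only [map_mul, map_sub, map_add, map_neg, map_smul, map_pow, h1, h2, h3, h4] using this

theorem ab_vB (ι : R →ₐ[ℝ] T) {Y g p : R} {Y' g' p' : T} (h1 : ι Y = Y') (h2 : ι g = g') (h3 : ι p = p') :
    Y' * g' - (2⁻¹ : ℝ) • (p' * (g' * g')) = ι (Y * g - (2⁻¹ : ℝ) • (p * (g * g))) := by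
  rw [map_sub, map_mul, map_smul, map_mul, map_mul, h1, h2, h3]

theorem ab_vT (ι : R →ₐ[ℝ] T) {Y g p x : R} {Y' g' p' x' : T} (h1 : ι Y = Y') (h2 : ι g = g') (h3 : ι p = p')
    (h4 : ι x = x') :
    g' * x' + (3 / 2 : ℝ) • (g' ^ 2 * Y' ^ 2) - (2 : ℝ) • (p' * (g' ^ 3 * Y')) + (3 / 4 : ℝ) • (p' ^ 2 * g' ^ 4) =
    ι (g * x + (3 / 2 : ℝ) • (g ^ 2 * Y ^ 2) - (2 : ℝ) • (p * (g ^ 3 * Y)) + (3 / 4 : ℝ) • (p ^ 2 * g ^ 4)) := by
  rw [map_add, map_sub, map_add, map_mul, map_smul, map_smul, map_smul, map_mul, map_mul,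
    map_mul, map_mul, map_pow, map_pow, map_pow, map_pow, map_pow, h1, h2, h3, h4]

theorem ab_s {G : Type*} [AddCommGroup G] {P0 P1 k t z w : G} (h1 : t + k = P1 - P0) (e3 : P1 - P0 + z = w) :
    t + z = w - k := by
  rw [← e3, ← h1]
  abel

theorem ab_s2 {G : Type*} [AddCommGroup G] {P0 P1 k t z : G} (h1 : t + k = P1 - P0) (e3 : z = P1 - P0) :
    t - z = -k := by
  rw [e3, ← h1]
  abel

end abs

/-- the inclusion of the even forms -/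
def vE (X : Space) : Ev X →ₐ[ℝ] Om X := (Ev X).val

theorem dE_vE (z : Ev X) : dO X (vE X z) = dE X z := rfl

theorem vE_mk {w : Om X} (h : sO X w = w) : vE X (mkE h) = w := rfl

/-! ### Constant loops -/

theorem K_one_sub : KO X (1 - sF X) = 0 :=
  Om_ext fun k p => by
    rw [on_K, on_sub, on_one, on_sF_up, KK_apply]
    have h4 : (1 : Fm (k + 1)) - fc (k + 1) (co (Fin.last k)) = fc (k + 1) (1 - co (Fin.last k)) := by
      rw [map_sub, map_one]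
    rw [h4, cs, cn_fc, map_zero, on_zero]

variable {c : Circ X} {f : SMap X M} {u : Om M} {q : ℕ}

theorem lam_const (h : IMap c f) : lam c f u = 0 := by
  unfold lam
  have h1 : c.a.pull (f.pull u) = (pO X).pull (f.pull u) := by
    rw [← pull_comp, ← pull_comp]
    have e : f.comp c.a = f.comp (pO X) := SMap_ext fun z => h z.1 z.2
    rw [e]
  rw [h1, KO_mulr, K_one_sub, zero_mul]

theorem xp_const (h : IMap c f) : xp c f u = 0 := by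
  unfold xp mu
  rw [lam_const h, zero_mul, map_zero, map_zero]

theorem ub_const (h : IMap c f) : ub c f u = f.pull u := A_bas c (Bas_pull c h u)

/-! ### The forms on `X × R` -/

/-- the data -/
structure Hty (c : Circ X) (A : Om X) (F : SMap X.xR M) (u : Om M) (q : ℕ) : Prop where
  cA : Cnn c A
  F0 : IMap c (F.comp (jO X 0))
  F1 : IMap c (F.comp (jO X 1))
  Du : Deg (2 * q + 2) u
  du : dO M u = 0
  u3 : u ^ 3 = 0

/-- the primitive of `xb` -/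
def gg (c : Circ X) (F : SMap X.xR M) (u : Om M) : Om X.xR :=
  HO X (xb (xRc c) F u) - (2⁻¹ : ℝ) • (pO X).pull (xbh c F u)

/-- basic part of `ub` -/
def yb (c : Circ X) (A : Om X) (f : SMap X M) (u : Om M) : Om X := ub c f u - A * xb c f u

/-- the closed form -/
def Yb (c : Circ X) (A : Om X) (F : SMap X.xR M) (u : Om M) : Om X.xR :=
  yb (xRc c) ((pO X).pull A) F u + (pO X).pull (dO X A) * gg c F u

/-- the value at an end -/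
def ae (F : SMap X.xR M) (u : Om M) (t : ℝ) : Om X := (F.comp (jO X t)).pull u

theorem Bas_yb {A : Om X} (hA : Cnn c A) (Du : Deg (2 * q + 2) u) (du : dO M u = 0) :
    Bas c (yb c A f u) ∧ dO X (yb c A f u) = -(dO X A * xb c f u) := by
  have h1 : dO X (yb c A f u) = -(dO X A * xb c f u) := by
    unfold yb
    rw [map_sub, d_ub du, d_mul, d_xb du, mul_zero, add_zero, zero_sub]
  refine ⟨Bas_of c ?_ ?_, h1⟩
  · unfold yb
    rw [map_sub, i_mul, i_xb, hA.i, mul_zero, add_zero, one_mul]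
    exact sub_self _
  · rw [h1, map_neg, i_mul, hA.id, i_xb, zero_mul, mul_zero, add_zero, neg_zero]

theorem s_yb {A : Om X} (hA : Cnn c A) (Du : Deg (2 * q + 2) u) : sO X (yb c A f u) = yb c A f u := by
  unfold yb
  rw [map_sub, s_ub Du, map_mul, hA.s, s_xb Du, neg_mul_neg]

/-- `ub xb = yb xb` -/
theorem ub_xb {A : Om X} (Du : Deg (2 * q + 2) u) : ub c f u * xb c f u = yb c A f u * xb c f u := by
  unfold yb
  rw [sub_mul, mul_assoc, xb_sq Du, mul_zero, sub_zero]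

section

variable {A : Om X} {F : SMap X.xR M} (h : Hty c A F u q)

include h

theorem x_j0 : (jO X 0).pull (xb (xRc c) F u) = 0 := by
  rw [← xb_nat (Eqv_j c 0), xb_const h.F0]

theorem x_j1 : (jO X 1).pull (xb (xRc c) F u) = 0 := by
  rw [← xb_nat (Eqv_j c 1), xb_const h.F1]

theorem xp_j0 : (jO X 0).pull (xp (xRc c) F u) = 0 := by
  rw [← xp_nat (Eqv_j c 0), xp_const h.F0]

theorem xp_j1 : (jO X 1).pull (xp (xRc c) F u) = 0 := by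
  rw [← xp_nat (Eqv_j c 1), xp_const h.F1]

theorem yb_j0 : (jO X 0).pull (yb (xRc c) ((pO X).pull A) F u) = ae F u 0 := by
  unfold yb ae
  rw [map_sub, map_mul, x_j0 h, mul_zero, sub_zero, ← ub_nat (Eqv_j c 0), ub_const h.F0]

theorem yb_j1 : (jO X 1).pull (yb (xRc c) ((pO X).pull A) F u) = ae F u 1 := by
  unfold yb ae
  rw [map_sub, map_mul, x_j1 h, mul_zero, sub_zero, ← ub_nat (Eqv_j c 1), ub_const h.F1]

theorem Bas_K1 : Bas c (xbh c F u) := (xb_htpy h.du c F).1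

theorem d_K1 : dO X (xbh c F u) = 0 := by
  rw [(xb_htpy h.du c F).2, xb_const h.F1, xb_const h.F0, sub_zero]

theorem Deg_K1 : Deg (2 * q) (xbh c F u) := Deg_xbh h.Du c F

theorem s_K1 : sO X (xbh c F u) = xbh c F u := Deg_even (Deg_K1 h)

theorem d_gg : dO _ (gg c F u) = xb (xRc c) F u := by
  unfold gg
  rw [map_sub, d_HO (d_xb h.du), x_j0 h, map_zero, sub_zero, map_smul, pull_d, d_K1 h, map_zero, smul_zero, sub_zero]

theorem Bas_gg : Bas (xRc c) (gg c F u) :=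
  Bas_sub _ (Bas_HO (Bas_xb h.du)) (Bas_smul _ _ (Bas_nat (Eqv_p c) (Bas_K1 h)))

theorem s_gg : sO _ (gg c F u) = gg c F u := by
  unfold gg
  rw [map_sub, s_HO, s_xb h.Du, map_smul, pull_s, s_K1 h]
  congr 1
  unfold HO
  rw [map_neg, map_neg, neg_neg]

omit h in
theorem gg_j0 : (jO X 0).pull (gg c F u) = -((2⁻¹ : ℝ) • xbh c F u) := by
  unfold gg
  rw [map_sub, HO_j0, map_smul, j_p, zero_sub]

omit h in
theorem gg_j1 : (jO X 1).pull (gg c F u) = (2⁻¹ : ℝ) • xbh c F u := by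
  unfold gg
  rw [map_sub, HO_j1, map_smul, j_p]
  change xbh c F u - _ = _
  module

theorem Cp : Cnn (xRc c) ((pO X).pull A) := h.cA.pull (Eqv_p c)

theorem d_Yb : dO _ (Yb c A F u) = 0 := by
  unfold Yb
  rw [map_add, (Bas_yb (Cp h) h.Du h.du).2, d_mul, pull_d, pull_d, d_d, d_gg h, pull_s, h.cA.s_e, map_zero, zero_mul,
    zero_add, neg_add_cancel]

theorem Bas_Yb : Bas (xRc c) (Yb c A F u) :=
  Bas_add _ (Bas_yb (Cp h) h.Du h.du).1 (Bas_mul _ (Bas_nat (Eqv_p c) h.cA.Bas_e) (Bas_gg h))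

theorem s_Yb : sO _ (Yb c A F u) = Yb c A F u := by
  unfold Yb
  rw [map_add, s_yb (Cp h) h.Du, map_mul, pull_s, h.cA.s_e, s_gg h]

theorem Yb_j0 : (jO X 0).pull (Yb c A F u) = ae F u 0 - (2⁻¹ : ℝ) • (dO X A * xbh c F u) := by
  unfold Yb
  rw [map_add, yb_j0 h, map_mul, j_p, gg_j0, mul_neg, mul_smul_comm, sub_eq_add_neg]

theorem Yb_j1 : (jO X 1).pull (Yb c A F u) = ae F u 1 + (2⁻¹ : ℝ) • (dO X A * xbh c F u) := by
  unfold Yb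
  rw [map_add, yb_j1 h, map_mul, j_p, gg_j1, mul_smul_comm]

/-- `a1 - a0 + e K1` is exact -/
theorem ae_sub : Xe c (ae F u 1 - ae F u 0 + dO X A * xbh c F u) := by
  obtain ⟨y, hy, e1⟩ := j_sub (Bas_Yb h) (d_Yb h) 0 1
  refine ⟨y, hy, ?_⟩
  rw [← e1, Yb_j0 h, Yb_j1 h]
  module

/-! ### `ub xb` -/

/-- the primitive of `ub xb` -/
def PB (c : Circ X) (A : Om X) (F : SMap X.xR M) (u : Om M) : Om X.xR :=
  Yb c A F u * gg c F u - (2⁻¹ : ℝ) • ((pO X).pull (dO X A) * (gg c F u * gg c F u))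

theorem Bas_PB : Bas (xRc c) (PB c A F u) :=
  Bas_sub _ (Bas_mul _ (Bas_Yb h) (Bas_gg h)) (Bas_smul _ _ (Bas_mul _ (Bas_nat (Eqv_p c) h.cA.Bas_e)
    (Bas_mul _ (Bas_gg h) (Bas_gg h))))

omit h in
theorem d_pe : dO _ ((pO X).pull (dO X A)) = 0 := by rw [pull_d, d_d, map_zero]

theorem s_pe : sO _ ((pO X).pull (dO X A)) = (pO X).pull (dO X A) := by rw [pull_s, h.cA.s_e]

theorem ub_sm : ub (xRc c) F u * xb (xRc c) F u = (mkE (s_Yb h) - mkE (s_pe h) * mkE (s_gg h) : Ev X.xR) • xb (xRc c) F u := by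
  rw [ub_xb (A := (pO X).pull A) h.Du, Ev_smul]
  refine congrArg (· * xb (xRc c) F u) ?_
  change _ = Yb c A F u - (pO X).pull (dO X A) * gg c F u
  unfold Yb
  abel

theorem d_PB : dO _ (PB c A F u) = ub (xRc c) F u * xb (xRc c) F u := by
  have e1 : PB c A F u = vE X.xR (mkE (s_Yb h) * mkE (s_gg h) - (2⁻¹ : ℝ) • (mkE (s_pe h) * (mkE (s_gg h) * mkE (s_gg h)))) :=
    ab_vB _ (vE_mk _) (vE_mk _) (vE_mk _)
  rw [ub_sm h, e1, dE_vE]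
  exact ab_PB (dE X.xR) (d_Yb h) (d_gg h) d_pe

/-- the mean of the two end maps -/
def ym (F : SMap X.xR M) (u : Om M) : Om X := (2⁻¹ : ℝ) • (ae F u 0 + ae F u 1)

theorem s_ae (t : ℝ) : sO X (ae F u t) = ae F u t := s_fu h.Du

theorem d_ae (t : ℝ) : dO X (ae F u t) = 0 := d_fu h.du

theorem Bas_ae0 : Bas c (ae F u 0) := Bas_pull c h.F0 u

theorem Bas_ae1 : Bas c (ae F u 1) := Bas_pull c h.F1 u

theorem s_ym : sO X (ym F u) = ym F u := by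
  unfold ym
  rw [map_smul, map_add, s_ae h, s_ae h]

theorem d_ym : dO X (ym F u) = 0 := by
  unfold ym
  rw [map_smul, map_add, d_ae h, d_ae h, add_zero, smul_zero]

theorem Bas_ym : Bas c (ym F u) := Bas_smul c _ (Bas_add c (Bas_ae0 h) (Bas_ae1 h))

theorem PB_j0 : (jO X 0).pull (PB c A F u) = (ae F u 0 - (2⁻¹ : ℝ) • (dO X A * xbh c F u)) * -((2⁻¹ : ℝ) • xbh c F u) -
    (2⁻¹ : ℝ) • (dO X A * (-((2⁻¹ : ℝ) • xbh c F u) * -((2⁻¹ : ℝ) • xbh c F u))) :=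
  ab_mPB _ (Yb_j0 h) gg_j0 (j_p _ _)

theorem PB_j1 : (jO X 1).pull (PB c A F u) = (ae F u 1 + (2⁻¹ : ℝ) • (dO X A * xbh c F u)) * ((2⁻¹ : ℝ) • xbh c F u) -
    (2⁻¹ : ℝ) • (dO X A * (((2⁻¹ : ℝ) • xbh c F u) * ((2⁻¹ : ℝ) • xbh c F u))) :=
  ab_mPB _ (Yb_j1 h) gg_j1 (j_p _ _)

/-- `uxh = K1 yy` up to the derivative of a basic form -/
theorem ux_K : Xe c (uxh c F u - xbh c F u * ym F u) := by
  have h1 : uxh c F u + dO X (KO X (PB c A F u)) = (jO X 1).pull (PB c A F u) - (jO X 0).pull (PB c A F u) := by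
    rw [← d_K (PB c A F u), d_PB h, add_comm]
    rfl
  refine ⟨-KO X (PB c A F u), Bas_neg (Bas_K (Bas_PB h)), ?_⟩
  rw [map_neg]
  refine ab_s2 h1 ?_
  rw [PB_j0 h, PB_j1 h]
  exact ab_eB (vE X) (vE_mk (s_K1 h)) (vE_mk h.cA.s_e) (vE_mk (s_ae h 0)) (vE_mk (s_ae h 1))

/-! ### `TT` -/

/-- the primitive of `TT` -/
def PT (c : Circ X) (A : Om X) (F : SMap X.xR M) (u : Om M) : Om X.xR :=
  gg c F u * xp (xRc c) F u + (3 / 2 : ℝ) • (gg c F u ^ 2 * Yb c A F u ^ 2) -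
    (2 : ℝ) • ((pO X).pull (dO X A) * (gg c F u ^ 3 * Yb c A F u)) +
    (3 / 4 : ℝ) • ((pO X).pull (dO X A) ^ 2 * gg c F u ^ 4)

omit h in
theorem Bas_xp (c : Circ X) {f : SMap X M} (Du : Deg (2 * q + 2) u) (du : dO M u = 0) (u3 : u ^ 3 = 0) :
    Bas c (xp c f u) := by
  refine Bas_of c i_xp ?_
  have h2 : sO X (ub c f u ^ 2) = ub c f u ^ 2 := by rw [map_pow, s_ub Du]
  have h3 : iO c (ub c f u ^ 2) * xb c f u = 0 := by
    rw [pow_two, i_even_mul (s_ub Du), add_mul, mul_assoc, mul_assoc, even_comm' (s_ub Du) (xb c f u)]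
    change xb c f u * (xb c f u * _) + ub c f u * (xb c f u * xb c f u) = 0
    rw [← mul_assoc, xb_sq Du, zero_mul, mul_zero, add_zero]
  rw [d_xp Du du u3, map_neg, map_smul, i_even_mul h2, h3, i_xb, mul_zero, add_zero, smul_zero, neg_zero]

theorem Bas_PT : Bas (xRc c) (PT c A F u) := by
  have hg := Bas_gg h
  have hY := Bas_Yb h
  have he := Bas_nat (Eqv_p c) h.cA.Bas_e
  have hx := Bas_xp (xRc c) (f := F) h.Du h.du h.u3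
  exact Bas_add _ (Bas_sub _ (Bas_add _ (Bas_mul _ hg hx) (Bas_smul _ _ (Bas_mul _ (Bas_pow _ hg 2) (Bas_pow _ hY 2))))
    (Bas_smul _ _ (Bas_mul _ he (Bas_mul _ (Bas_pow _ hg 3) hY)))) (Bas_smul _ _ (Bas_mul _ (Bas_pow _ he 2) (Bas_pow _ hg 4)))

theorem d_PT : dO _ (PT c A F u) = TT (xRc c) F u := by
  have hbx : (mkE (s_ub (c := xRc c) (f := F) h.Du) : Ev X.xR) • xb (xRc c) F u =
      (mkE (s_Yb h) - mkE (s_pe h) * mkE (s_gg h) : Ev X.xR) • xb (xRc c) F u := ub_sm h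
  have dx : dE X.xR (mkE (s_xp (c := xRc c) (f := F) h.Du)) =
      -((3 : ℝ) • ((mkE (s_Yb h) - mkE (s_pe h) * mkE (s_gg h) : Ev X.xR) ^ 2 • xb (xRc c) F u)) := by
    rw [← ab_sq hbx]
    exact d_xp h.Du h.du h.u3
  have e2 : TT (xRc c) F u = (mkE (s_xp (c := xRc c) (f := F) h.Du) : Ev X.xR) • xb (xRc c) F u :=
    (even_comm' (s_xp h.Du) _).symm
  have e1 : PT c A F u = vE X.xR (mkE (s_gg h) * mkE (s_xp (c := xRc c) (f := F) h.Du) +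
      (3 / 2 : ℝ) • (mkE (s_gg h) ^ 2 * mkE (s_Yb h) ^ 2) - (2 : ℝ) • (mkE (s_pe h) * (mkE (s_gg h) ^ 3 * mkE (s_Yb h))) +
      (3 / 4 : ℝ) • (mkE (s_pe h) ^ 2 * mkE (s_gg h) ^ 4)) :=
    ab_vT _ (vE_mk _) (vE_mk _) (vE_mk _) (vE_mk _)
  rw [e2, e1, dE_vE]
  exact ab_PT (dE X.xR) (d_Yb h) (d_gg h) d_pe dx

theorem PT_j0 : (jO X 0).pull (PT c A F u) =
    (3 / 2 : ℝ) • ((-((2⁻¹ : ℝ) • xbh c F u)) ^ 2 * (ae F u 0 - (2⁻¹ : ℝ) • (dO X A * xbh c F u)) ^ 2) -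
      (2 : ℝ) • (dO X A * ((-((2⁻¹ : ℝ) • xbh c F u)) ^ 3 * (ae F u 0 - (2⁻¹ : ℝ) • (dO X A * xbh c F u)))) +
      (3 / 4 : ℝ) • (dO X A ^ 2 * (-((2⁻¹ : ℝ) • xbh c F u)) ^ 4) :=
  ab_mPT _ (Yb_j0 h) gg_j0 (j_p _ _) (xp_j0 h)

theorem PT_j1 : (jO X 1).pull (PT c A F u) =
    (3 / 2 : ℝ) • (((2⁻¹ : ℝ) • xbh c F u) ^ 2 * (ae F u 1 + (2⁻¹ : ℝ) • (dO X A * xbh c F u)) ^ 2) -
      (2 : ℝ) • (dO X A * (((2⁻¹ : ℝ) • xbh c F u) ^ 3 * (ae F u 1 + (2⁻¹ : ℝ) • (dO X A * xbh c F u)))) +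
      (3 / 4 : ℝ) • (dO X A ^ 2 * ((2⁻¹ : ℝ) • xbh c F u) ^ 4) :=
  ab_mPT _ (Yb_j1 h) gg_j1 (j_p _ _) (xp_j1 h)

/-- **`TTh = - (1/2) e K1^3 yy`** up to the derivative of a basic form -/
theorem TT_K : Xe c (TTh c F u + (2⁻¹ : ℝ) • (dO X A * (xbh c F u ^ 3 * ym F u))) := by
  have h1 : TTh c F u + dO X (KO X (PT c A F u)) = (jO X 1).pull (PT c A F u) - (jO X 0).pull (PT c A F u) := by
    rw [← d_K (PT c A F u), d_PT h, add_comm]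
    rfl
  obtain ⟨b, hb, hbe⟩ := ae_sub h
  have e3 : (jO X 1).pull (PT c A F u) - (jO X 0).pull (PT c A F u) + (2⁻¹ : ℝ) • (dO X A * (xbh c F u ^ 3 * ym F u)) =
      (3 / 8 : ℝ) • (dO X b * (xbh c F u ^ 2 * (ae F u 0 + ae F u 1))) := by
    rw [← hbe, PT_j0 h, PT_j1 h]
    exact ab_eT (vE X) (vE_mk (s_K1 h)) (vE_mk h.cA.s_e) (vE_mk (s_ae h 0)) (vE_mk (s_ae h 1))
  have e5 : Xe c (dO X b * (xbh c F u ^ 2 * (ae F u 0 + ae F u 1))) := by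
    refine Xe_mul (Xe_d hb) (Bas_mul c (Bas_pow c (Bas_K1 h) 2) (Bas_add c (Bas_ae0 h) (Bas_ae1 h))) ?_
    rw [d_mul, d_pow_zero (d_K1 h), map_add, d_ae h, d_ae h, add_zero, mul_zero, zero_mul, add_zero]
  rw [ab_s h1 e3]
  exact Xe_sub (Xe_smul _ e5) (Xe_d (Bas_K (Bas_PT h)))

end

end Pool.Agent.Lib.MP_ccbbf6_gt.K7
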