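import Pool.Agent.Lib.MP_ccbbf6_gt.K7.C02
import Pool.Agent.Lib.MP_ccbbf6_gt.L5.PHI06

/-!
# `κ = 7`, block C, part 3: the ring of the phi side, `m = 2`, generator of degree 8 (helper53)

`P : PhiK X M 2 4`.  Classes `eQ, θQ, fQ, yQ, AQ, BQ` in `Qb P.c` and their relations; the functional `Jr`;
`K1 = - θ`, `TTh ~ k1 e^7 uxh + k2 e^11 xbh` with `k1 = - (12 a - b^2) / 24`, `k2 = a b / 24`, `a = D^2 α`, `b = D^2 β`.
-/

set_option autoImplicit false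
set_option maxSynthPendingDepth 3

open Set Filter Topology MeasureTheory
open scoped TensorProduct ContDiff

noncomputable section

namespace Pool.Agent.Lib.MP_ccbbf6_gt.K7

open L4 L4.FR L5

variable {X Y Z M : Space} {k l n : ℕ} {i j : ℕ}

/-! ### Abstract identities -/

section abs

variable {R Q : Type*} [CommRing R] [Algebra ℝ R] [CommRing Q] [Algebra ℝ Q] (π : R →ₐ[ℝ] Q) {e y θ A B f : R} {D α β a b : ℝ}

theorem ab_y (h : y = (1 / 2 : ℝ) • (B + A)) : π y = (1 / 2 : ℝ) • (π B + π A) := by rw [h, map_smul, map_add]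

theorem ab_3 (h : A ^ 3 = 0) : π A ^ 3 = 0 := by rw [← map_pow, h, map_zero]

theorem ab_AB (h : π (A - B) = π (e * θ)) : π A - π B = π e * π θ := by rwa [map_sub, map_mul] at h

theorem ab_hQ (h : π ((B ^ 2 + B * A + A ^ 2) * θ) = 0) : (π B ^ 2 + π B * π A + π A ^ 2) * π θ = 0 := by
  rwa [map_mul, map_add, map_add, map_mul, map_pow, map_pow] at h

theorem ab_θQ (h : π θ = π (D • f)) : π θ = D • π f := by rwa [map_smul] at h

theorem ab_fQ (h : π (f ^ 2) = π (α • e ^ 6 + β • (e ^ 2 * y))) : π f ^ 2 = α • π e ^ 6 + β • (π e ^ 2 * π y) := by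
  rwa [map_add, map_smul, map_smul, map_mul, map_pow, map_pow, map_pow] at h

theorem ab_sqq (h1 : θ = D • f) (h2 : f ^ 2 = α • e ^ 6 + β • (e ^ 2 * y)) :
    θ ^ 2 = (D ^ 2 * α) • e ^ 6 + (D ^ 2 * β) • (e ^ 2 * y) := by
  rw [h1, smul_pow, h2, smul_add, smul_smul, smul_smul]

theorem ab_rel (h : θ ^ 2 = a • e ^ 6 + b • (e ^ 2 * y)) (h1 : (B ^ 2 + B * A + A ^ 2) * θ = 0) (h2 : A - B = e * θ)
    (h3 : y = (1 / 2 : ℝ) • (B + A)) : ((12 : ℝ) • y ^ 2 + a • e ^ 8 + b • (e ^ 4 * y)) * θ = 0 := by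
  have hA : A = y + (1 / 2 : ℝ) • (e * θ) := by
    rw [← h2, h3]
    module
  have hB : B = y - (1 / 2 : ℝ) • (e * θ) := by
    rw [← h2, h3]
    module
  rw [hA, hB] at h1
  linear_combination (norm := algebra) (4 : ℝ) • h1 - (e ^ 2 * θ) * h

theorem ab_θy3 (h1 : (B ^ 2 + B * A + A ^ 2) * θ = 0) (h3 : y = (1 / 2 : ℝ) • (B + A)) (hB : B ^ 3 = 0) :
    θ * y ^ 3 = 0 := by
  rw [h3]
  linear_combination (norm := algebra) (1 / 8 : ℝ) • ((A + (2 : ℝ) • B) * h1 - θ * hB)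

theorem ab_TT (h : π θ ^ 2 = a • π e ^ 6 + b • (π e ^ 2 * π y))
    (h2 : ((12 : ℝ) • π y ^ 2 + a • π e ^ 8 + b • (π e ^ 4 * π y)) * π θ = 0) :
    π ((2⁻¹ : ℝ) • (e * (θ ^ 3 * y)) + (-(12 * a - b ^ 2) / 24) • (e ^ 7 * (θ * y)) + (a * b / 24) • (e ^ 11 * θ)) = 0 := by
  rw [map_add, map_add, map_smul, map_smul, map_smul, map_mul, map_mul, map_pow, map_mul, map_mul, map_pow, map_mul,
    map_pow]
  linear_combination (norm := algebra) ((1 / 2 : ℝ) • (π e * π θ * π y)) * h + ((b / 24 : ℝ) • π e ^ 3) * h2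

theorem ab_grp {V : Type*} [AddCommGroup V] [Module ℝ V] {p q r t w x : V} {c1 c2 : ℝ} (h : x = -r) :
    (2⁻¹ : ℝ) • p + c1 • q + c2 • r + (t - (2⁻¹ : ℝ) • p) - c1 • (w + q) = t - c1 • w - c2 • x := by
  rw [h]
  module

theorem ab_fsub {V : Type*} [AddCommGroup V] {p q r : V} : p - (q + r) = p - q - r := sub_add_eq_sub_sub p q r

theorem ab_J0 (τ : R →ₐ[ℝ] R) (J : R →ₗ[ℝ] ℝ) (hJ : ∀ r, J (τ r) = -J r) (he : τ e = e) (hA : τ A = B) (hB : τ B = A) :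
    J (e ^ 2 * (A ^ 2 * B ^ 2)) = 0 := by
  have h := hJ (e ^ 2 * (A ^ 2 * B ^ 2))
  rw [map_mul τ, map_mul τ, map_pow τ, map_pow τ, map_pow τ, hA, hB, he, mul_comm (B ^ 2)] at h
  linarith

theorem ab_J1 (τ : R →ₐ[ℝ] R) (J : R →ₗ[ℝ] ℝ) (hJ : ∀ r, J (τ r) = -J r) (he : τ e = e) (hA : τ A = B) (hB : τ B = A) :
    J (e ^ 6 * (A * B ^ 2)) = -J (e ^ 6 * (A ^ 2 * B)) := by
  have h := hJ (e ^ 6 * (A ^ 2 * B))
  rw [map_mul τ, map_mul τ, map_pow τ, map_pow τ, hA, hB, he, mul_comm (B ^ 2)] at h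
  exact h

end abs

namespace PK

variable (P : PhiK X M 2 4)

theorem cnn : Cnn P.c P.η := ⟨P.η1, P.iη, P.idη⟩

theorem hty : Hty P.c P.η P.F P.u 3 where
  cA := cnn P
  F0 := P.F0
  F1 := P.F1
  Du := P.uq
  du := P.du
  u3 := P.up

theorem Ex_iff (w : Om X) : P.Ex w ↔ Xe P.c w := Iff.rfl

/-- `K1 = - θ` -/
theorem K1_eq : xbh P.c P.F P.u = -P.θ := by
  have h1 : P.θ = iO P.c (AO P.c (KO X (P.F.pull P.u))) := rfl
  have h2 : xbh P.c P.F P.u = KO X (iO (xRc P.c) (AO (xRc P.c) (P.F.pull P.u))) := rfl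
  rw [h1, h2, A_K, i_K, neg_neg]

theorem ae0 : ae P.F P.u 0 = P.xm := by
  unfold ae
  rw [pull_comp]
  rfl

theorem ae1 : ae P.F P.u 1 = P.xp := by
  unfold ae
  rw [pull_comp]
  rfl

theorem ym_eq : ym P.F P.u = P.yy := by
  unfold ym PhiK.yy
  rw [ae0, ae1]
  norm_num

/-! ### Elements of the ring -/

/-- the curvature -/
def eR : Rb P.c := ⟨P.e, P.s_e, P.de, Bas_i P.c P.bas_e⟩
/-- `ι β` -/
def θR : Rb P.c := ⟨P.θ, P.s_θ, P.d_θ, P.i_θ⟩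
/-- the Euler form -/
def fR : Rb P.c := ⟨P.f, P.s_f, P.df, P.jf⟩
/-- `x_+` -/
def AR : Rb P.c := ⟨P.xp, P.s_xp, P.d_xp, Bas_i P.c P.bas_xp⟩
/-- `x_-` -/
def BR : Rb P.c := ⟨P.xm, P.s_xm, P.d_xm, Bas_i P.c P.bas_xm⟩
/-- the mean -/
def yR : Rb P.c := ⟨P.yy, P.s_yy, P.d_yy, Bas_i P.c P.bas_yy⟩

/-- class of the curvature -/
def eQ : Qb P.c := cl P.c (eR P)
/-- class of `ι β` -/
def θQ : Qb P.c := cl P.c (θR P)
/-- class of the Euler form -/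
def fQ : Qb P.c := cl P.c (fR P)
/-- class of `x_+` -/
def AQ : Qb P.c := cl P.c (AR P)
/-- class of `x_-` -/
def BQ : Qb P.c := cl P.c (BR P)
/-- class of the mean -/
def yQ : Qb P.c := cl P.c (yR P)

theorem AR3 : AR P ^ 3 = 0 := by
  apply Subtype.ext
  change P.xp ^ 3 = 0
  unfold PhiK.xp wt
  have h := P.up
  rw [← map_pow, ← map_pow]
  have h' : P.u ^ 3 = 0 := h
  rw [h', map_zero, map_zero]

theorem BR3 : BR P ^ 3 = 0 := by
  apply Subtype.ext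
  change P.xm ^ 3 = 0
  unfold PhiK.xm wt
  have h := P.up
  rw [← map_pow, ← map_pow]
  have h' : P.u ^ 3 = 0 := h
  rw [h', map_zero, map_zero]

theorem yR_eq : yR P = (1 / 2 : ℝ) • (BR P + AR P) := rfl

theorem yQ_eq : yQ P = (1 / 2 : ℝ) • (BQ P + AQ P) := ab_y (cl P.c) (yR_eq P)

theorem AQ3 : AQ P ^ 3 = 0 := ab_3 (cl P.c) (AR3 P)

theorem BQ3 : BQ P ^ 3 = 0 := ab_3 (cl P.c) (BR3 P)

theorem AB : AQ P - BQ P = eQ P * θQ P := ab_AB (cl P.c) (cl_eq.2 P.xpm)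

theorem hQ : (BQ P ^ 2 + BQ P * AQ P + AQ P ^ 2) * θQ P = 0 := by
  refine ab_hQ (cl P.c) (cl_eq_zero.2 ?_)
  have h : ((((BR P) ^ 2 + BR P * AR P + AR P ^ 2) * θR P : Rb P.c) : Om X) = P.h * P.θ := by
    change (P.xm ^ 2 + P.xm * P.xp + P.xp ^ 2) * P.θ = P.h * P.θ
    refine congrArg (· * P.θ) ?_
    unfold PhiK.h
    rw [Finset.sum_range_succ, Finset.sum_range_succ, Finset.sum_range_one]
    simp only [Nat.sub_zero, pow_zero, one_mul, Nat.sub_self, mul_one, pow_one]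
    have : 2 - 1 = 1 := rfl
    rw [this, pow_one]
    abel
  rw [h]
  exact P.hθ

variable {P} {D α β : ℝ}

theorem θQ_eq (hD : P.Ex (P.θ - D • P.f)) : θQ P = D • fQ P := ab_θQ (cl P.c) (cl_eq.2 hD)

theorem fQ_sq (hα : P.Ex (P.f ^ 2 - α • P.e ^ (2 * 4 - 2) - β • (P.e ^ (4 - 2) * P.yy))) :
    fQ P ^ 2 = α • eQ P ^ 6 + β • (eQ P ^ 2 * yQ P) := by
  refine ab_fQ (cl P.c) (cl_eq.2 ?_)
  have e1 : ((fR P ^ 2 : Rb P.c) : Om X) - ((α • eR P ^ 6 + β • (eR P ^ 2 * yR P) : Rb P.c) : Om X) =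
      P.f ^ 2 - α • P.e ^ (2 * 4 - 2) - β • (P.e ^ (4 - 2) * P.yy) := by
    change P.f ^ 2 - (α • P.e ^ 6 + β • (P.e ^ 2 * P.yy)) = P.f ^ 2 - α • P.e ^ 6 - β • (P.e ^ 2 * P.yy)
    exact ab_fsub
  rw [e1]
  exact hα

theorem θQ_sq (hD : P.Ex (P.θ - D • P.f))
    (hα : P.Ex (P.f ^ 2 - α • P.e ^ (2 * 4 - 2) - β • (P.e ^ (4 - 2) * P.yy))) :
    θQ P ^ 2 = (D ^ 2 * α) • eQ P ^ 6 + (D ^ 2 * β) • (eQ P ^ 2 * yQ P) := ab_sqq (θQ_eq hD) (fQ_sq hα)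

/-- the relation of degree 16 times `θ` -/
theorem rel {a b : ℝ} (h : θQ P ^ 2 = a • eQ P ^ 6 + b • (eQ P ^ 2 * yQ P)) :
    ((12 : ℝ) • yQ P ^ 2 + a • eQ P ^ 8 + b • (eQ P ^ 4 * yQ P)) * θQ P = 0 := ab_rel h (hQ P) (AB P) (yQ_eq P)

/-- `θ y^3 = 0` -/
theorem θy3 : θQ P * yQ P ^ 3 = 0 := ab_θy3 (hQ P) (yQ_eq P) (BQ3 P)

/-! ### The transgressions of the family -/

variable (P)

/-- `e^7 uxh` in degree 28 -/
theorem uxh_cl : Xe P.c (P.e ^ 7 * uxh P.c P.F P.u + P.e ^ 7 * (P.θ * P.yy)) := by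
  have h := ux_K (hty P)
  rw [K1_eq, ym_eq, neg_mul, sub_neg_eq_add] at h
  rw [← mul_add]
  exact mul_Xe h (Bas_pow P.c P.bas_e 7) (by rw [map_pow, P.s_e]) (d_pow_zero P.de 7)

theorem TTh_cl : Xe P.c (TTh P.c P.F P.u - (2⁻¹ : ℝ) • (P.e * (P.θ ^ 3 * P.yy))) := by
  have h := TT_K (hty P)
  rw [K1_eq, ym_eq] at h
  have e1 : (-P.θ) ^ 3 = -P.θ ^ 3 := by
    rw [neg_pow]
    norm_num
  rw [e1, neg_mul, mul_neg, smul_neg, ← sub_eq_add_neg] at h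
  exact h

variable {P}

/-- **the class of `TTh`** -/
theorem TTh_eq {a b : ℝ} (h : θQ P ^ 2 = a • eQ P ^ 6 + b • (eQ P ^ 2 * yQ P)) :
    Xe P.c (TTh P.c P.F P.u - (-(12 * a - b ^ 2) / 24) • (P.e ^ 7 * uxh P.c P.F P.u) -
      (a * b / 24) • (P.e ^ 11 * xbh P.c P.F P.u)) := by
  have h1 : cl P.c ((2⁻¹ : ℝ) • (eR P * (θR P ^ 3 * yR P)) +
      (-(12 * a - b ^ 2) / 24) • (eR P ^ 7 * (θR P * yR P)) + (a * b / 24) • (eR P ^ 11 * θR P)) = 0 :=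
    ab_TT (cl P.c) h (rel h)
  rw [cl_eq_zero] at h1
  have h3 : Xe P.c ((2⁻¹ : ℝ) • (P.e * (P.θ ^ 3 * P.yy)) + (-(12 * a - b ^ 2) / 24) • (P.e ^ 7 * (P.θ * P.yy)) +
      (a * b / 24) • (P.e ^ 11 * P.θ)) := h1
  have h4 := Xe_sub (Xe_add h3 (TTh_cl P)) (Xe_smul (-(12 * a - b ^ 2) / 24) (uxh_cl P))
  rwa [ab_grp (by rw [K1_eq, mul_neg] : P.e ^ 11 * xbh P.c P.F P.u = -(P.e ^ 11 * P.θ))] at h4

/-! ### The functional -/

variable (P)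

/-- `∫ w η` -/
def Jr : Rb P.c →ₗ[ℝ] ℝ where
  toFun w := P.I ((w : Om X) * P.η)
  map_add' w v := by
    change P.I (((w : Om X) + v) * P.η) = _
    rw [add_mul, map_add]
  map_smul' r w := by
    change P.I ((r • (w : Om X)) * P.η) = _
    rw [smul_mul_assoc, map_smul, RingHom.id_apply]

theorem Jr_apply (w : Rb P.c) : Jr P w = P.I ((w : Om X) * P.η) := rfl

variable {P}

/-- basic exact forms integrate to `0` -/
theorem Jr_zero {w : Rb P.c} (h : cl P.c w = 0) : Jr P w = 0 := by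
  obtain ⟨y, hy, e⟩ := cl_eq_zero.1 h
  rw [Jr_apply, e]
  have h1 := P.I_d (y * P.η)
  rw [d_mul, map_add] at h1
  have h2 : P.I (sO X y * dO X P.η) = 0 := by
    refine P.I_i _ ?_
    rw [i_mul, P.idη, mul_zero, add_zero]
    have h3 : iO P.c (sO X y) = 0 := by
      have := i_s P.c y
      rw [Bas_i P.c hy, map_zero] at this
      exact neg_eq_zero.1 this.symm
    rw [h3, zero_mul]
  rw [h2, add_zero] at h1
  exact h1

theorem Jr_congr {w v : Rb P.c} (h : cl P.c w = cl P.c v) : Jr P w = Jr P v := by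
  rw [← sub_eq_zero, ← map_sub]
  refine Jr_zero ?_
  rw [map_sub, h, sub_self]

/-- the involution on the ring -/
def τR : Rb P.c →ₐ[ℝ] Rb P.c where
  toFun r := ⟨P.τ.pull r, by rw [pull_s, r.2.1], by rw [pull_d, r.2.2.1, map_zero], by
    rw [← i_eqv P.c P.c P.τc, r.2.2.2, map_zero]⟩
  map_one' := Subtype.ext (map_one _)
  map_mul' r s := Subtype.ext (map_mul _ _ _)
  map_zero' := Subtype.ext (map_zero _)
  map_add' r s := Subtype.ext (map_add _ _ _)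
  commutes' r := Subtype.ext (AlgHom.commutes _ _)

theorem Jr_τ (r : Rb P.c) : Jr P (τR r) = -Jr P r := by
  rw [Jr_apply, Jr_apply]
  change P.I (P.τ.pull (r : Om X) * P.η) = _
  conv_lhs => rw [← P.τη]
  rw [← map_mul, P.I_τ]

theorem τR_e : τR (eR P) = eR P := Subtype.ext P.τe
theorem τR_A : τR (AR P) = BR P := Subtype.ext P.τxp
theorem τR_B : τR (BR P) = AR P := Subtype.ext P.τxm

theorem J0 : Jr P (eR P ^ 2 * (AR P ^ 2 * BR P ^ 2)) = 0 :=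
  ab_J0 (e := eR P) (A := AR P) (B := BR P) (τR (P := P)) (Jr P) (fun r => Jr_τ (P := P) r) (τR_e (P := P)) (τR_A (P := P))
    (τR_B (P := P))

theorem J1 : Jr P (eR P ^ 6 * (AR P * BR P ^ 2)) = -Jr P (eR P ^ 6 * (AR P ^ 2 * BR P)) :=
  ab_J1 (e := eR P) (A := AR P) (B := BR P) (τR (P := P)) (Jr P) (fun r => Jr_τ (P := P) r) (τR_e (P := P)) (τR_A (P := P))
    (τR_B (P := P))

end PK

end Pool.Agent.Lib.MP_ccbbf6_gt.K7
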