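import Pool.Agent.Lib.MP_ccbbf6_gt.K7.C03
import Pool.Agent.Lib.MP_ccbbf6_gt.L5.PHI04

/-!
# `κ = 7`, block C, part 4: the numbers of the phi side and the constants of the vanishing theorem (helper53)

`v0 = ∫ θ e^15 η`, `v1 = ∫ θ e^11 y η`, `v2 = ∫ θ e^7 y^2 η`, `W = ∫ e^6 x_+^2 x_- η`:
`v2 = W / 2`, `12 v2 + a v0 + b v1 = 0`, `a v1 + b v2 = 0`, `a W = 3 ∫ θ x_+^2 s`, `ds = x_+^2`.
-/

set_option autoImplicit false
set_option maxSynthPendingDepth 3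

open Set Filter Topology MeasureTheory
open scoped TensorProduct ContDiff

noncomputable section

namespace Pool.Agent.Lib.MP_ccbbf6_gt.K7

open L4 L4.FR L5

variable {X Y Z M : Space} {k l n : ℕ} {i j : ℕ}

/-! ### Abstract identities -/

section abs

variable {R Q : Type*} [CommRing R] [Algebra ℝ R] [CommRing Q] [Algebra ℝ Q] (π : R →ₐ[ℝ] Q) (J : R →ₗ[ℝ] ℝ)
  {e y θ A B : R} {a b s t : ℝ}

theorem ab_v2 (hJ : ∀ {w v}, π w = π v → J w = J v) (h2 : π A - π B = π e * π θ) (h3 : π y = (1 / 2 : ℝ) • (π B + π A))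
    (hA : π A ^ 3 = 0) (hB : π B ^ 3 = 0) (J1 : J (e ^ 6 * (A * B ^ 2)) = -J (e ^ 6 * (A ^ 2 * B))) :
    J (θ * (e ^ 7 * y ^ 2)) = J (e ^ 6 * (A ^ 2 * B)) / 2 := by
  have h1 : π (θ * (e ^ 7 * y ^ 2)) = π ((1 / 4 : ℝ) • (e ^ 6 * (A ^ 2 * B) - e ^ 6 * (A * B ^ 2))) := by
    rw [map_mul, map_mul, map_pow, map_pow, map_smul, map_sub, map_mul, map_mul, map_pow, map_pow, map_mul, map_mul,
      map_pow, map_pow, h3]
    linear_combination (norm := algebra) (-(1 / 4 : ℝ) • (π e ^ 6 * (π B + π A) ^ 2)) * h2 +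
      (1 / 4 : ℝ) • (π e ^ 6 * hA) - (1 / 4 : ℝ) • (π e ^ 6 * hB)
  rw [hJ h1, map_smul, map_sub, J1, smul_eq_mul]
  ring

theorem ab_rel0 (hJ : ∀ {w}, π w = 0 → J w = 0)
    (h2 : ((12 : ℝ) • π y ^ 2 + a • π e ^ 8 + b • (π e ^ 4 * π y)) * π θ = 0) :
    12 * J (θ * (e ^ 7 * y ^ 2)) + a * J (θ * e ^ 15) + b * J (θ * (e ^ 11 * y)) = 0 := by
  have h1 : π ((12 : ℝ) • (θ * (e ^ 7 * y ^ 2)) + a • (θ * e ^ 15) + b • (θ * (e ^ 11 * y))) = 0 := by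
    rw [map_add, map_add, map_smul, map_smul, map_smul, map_mul, map_mul, map_mul, map_mul, map_mul, map_pow, map_pow,
      map_pow, map_pow]
    linear_combination (norm := algebra) π e ^ 7 * h2
  have h3 := hJ h1
  rw [map_add, map_add, map_smul, map_smul, map_smul] at h3
  exact h3

theorem ab_rel1 (hJ : ∀ {w}, π w = 0 → J w = 0)
    (h2 : ((12 : ℝ) • π y ^ 2 + a • π e ^ 8 + b • (π e ^ 4 * π y)) * π θ = 0) (h3 : π θ * π y ^ 3 = 0) :
    a * J (θ * (e ^ 11 * y)) + b * J (θ * (e ^ 7 * y ^ 2)) = 0 := by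
  have h1 : π (a • (θ * (e ^ 11 * y)) + b • (θ * (e ^ 7 * y ^ 2))) = 0 := by
    rw [map_add, map_smul, map_smul, map_mul, map_mul, map_mul, map_mul, map_pow, map_pow, map_pow]
    linear_combination (norm := algebra) (π e ^ 3 * π y) * h2 - ((12 : ℝ) • π e ^ 3) * h3
  have h3 := hJ h1
  rw [map_add, map_smul, map_smul] at h3
  exact h3

theorem ab_n3 (hJ : ∀ {w v}, π w = π v → J w = J v) (h : π θ ^ 2 = a • π e ^ 6 + b • (π e ^ 2 * π y))
    (h3 : π y = (1 / 2 : ℝ) • (π B + π A)) (hA : π A ^ 3 = 0) (J0 : J (e ^ 2 * (A ^ 2 * B ^ 2)) = 0) :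
    J (θ ^ 2 * (A ^ 2 * B)) = a * J (e ^ 6 * (A ^ 2 * B)) := by
  have h1 : π (θ ^ 2 * (A ^ 2 * B)) = π (a • (e ^ 6 * (A ^ 2 * B)) + (b / 2) • (e ^ 2 * (A ^ 2 * B ^ 2))) := by
    rw [map_mul, map_mul, map_pow, map_pow, map_add, map_smul, map_smul, map_mul, map_mul, map_mul, map_mul, map_pow,
      map_pow, map_pow, map_pow, h, h3]
    linear_combination (norm := algebra) ((b / 2) • (π e ^ 2 * π B)) * hA
  rw [hJ h1, map_add, map_smul, map_smul, J0, smul_zero, add_zero]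
  rfl

theorem ab_i1 (hJ : ∀ {w}, π w = 0 → J w = 0) (h : s • (π e ^ 7 * (π y * π θ)) + t • (π e ^ 11 * π θ) = 0) :
    s * J (θ * (e ^ 11 * y)) + t * J (θ * e ^ 15) = 0 := by
  have e1 : π (s • (θ * (e ^ 11 * y)) + t • (θ * e ^ 15)) = 0 := by
    rw [map_add, map_smul, map_smul, map_mul, map_mul, map_mul, map_pow, map_pow]
    linear_combination (norm := algebra) π e ^ 4 * h
  have h3 := hJ e1
  rw [map_add, map_smul, map_smul] at h3
  exact h3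

theorem ab_i2 (hJ : ∀ {w}, π w = 0 → J w = 0) (h : s • (π e ^ 7 * (π y * π θ)) + t • (π e ^ 11 * π θ) = 0) :
    s * J (θ * (e ^ 7 * y ^ 2)) + t * J (θ * (e ^ 11 * y)) = 0 := by
  have e1 : π (s • (θ * (e ^ 7 * y ^ 2)) + t • (θ * (e ^ 11 * y))) = 0 := by
    rw [map_add, map_smul, map_smul, map_mul, map_mul, map_mul, map_mul, map_pow, map_pow, map_pow]
    linear_combination (norm := algebra) π y * h
  have h3 := hJ e1
  rw [map_add, map_smul, map_smul] at h3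
  exact h3

theorem ab_k (h : π (s • (e ^ 7 * (y * θ)) + t • (e ^ 11 * θ)) = 0) :
    s • (π e ^ 7 * (π y * π θ)) + t • (π e ^ 11 * π θ) = 0 := by
  rwa [map_add, map_smul, map_smul, map_mul, map_mul, map_mul, map_pow, map_pow] at h

theorem ab_kg {V : Type*} [AddCommGroup V] [Module ℝ V] {w q T x p : V} {k1 k2 q1 q2 : ℝ} (h : x = -p) :
    (k1 - q1) • (w + q) - (T - q1 • w - q2 • x - (T - k1 • w - k2 • x)) = (k1 - q1) • q + (k2 - q2) • p := by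
  rw [h]
  module

/-- the computation in the calculus -/
theorem ab_norm {V : Type*} [AddCommGroup V] [Module ℝ V] [Module R V] [IsScalarTower ℝ R V] (K : Calc R V) {β ζ η s : V}
    (h1 : K.d β = (A - B) • K.u) (h2 : K.d ζ = -((B ^ 2 + B * A + A ^ 2) * θ) • K.u) (h3 : K.d s = A ^ 2 • K.u)
    (h4 : K.ι ζ = 0) (h5 : K.ι (β - θ • η) = 0) (hA : A ^ 3 = 0) :
    K.I (((3 : ℝ) • (A ^ 2 * θ)) • s) = K.I ((θ ^ 2 * (A ^ 2 * B)) • η) := by
  have hd : K.d ((((2 : ℝ) • A + B) * θ) • β - ζ) = ((3 : ℝ) • (A ^ 2 * θ)) • K.u := by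
    rw [map_sub, map_smul, h1, h2, neg_smul, sub_neg_eq_add, smul_smul, ← add_smul]
    congr 1
    algebra
  have e3 := K.stokes _ _ _ _ 1 hd h3
  rw [one_mul, one_mul] at e3
  have e4 : K.I ((A ^ 2) • ζ) = 0 := K.I_ι _ (by rw [map_smul, h4, smul_zero])
  have e5 : (A ^ 2) • ((((2 : ℝ) • A + B) * θ) • β - ζ) = (A ^ 2 * B * θ) • β - (A ^ 2) • ζ := by
    rw [smul_sub, smul_smul]
    congr 2
    linear_combination (norm := algebra) (2 : ℝ) • (hA * θ)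
  have e6 : K.I ((A ^ 2 * B * θ) • (β - θ • η)) = 0 := K.I_ι _ (by rw [map_smul, h5, smul_zero])
  rw [smul_sub, map_sub, smul_smul, sub_eq_zero] at e6
  rw [e5, map_sub, e4, sub_zero, e6] at e3
  rw [e3]
  congr 2
  ring

end abs

namespace PK

variable (P : PhiK X M 2 4)

/-- `∫ e^6 x_+^2 x_- η` -/
def Wn : ℝ := Jr P (eR P ^ 6 * (AR P ^ 2 * BR P))
/-- `∫ θ e^15 η` -/
def v0 : ℝ := Jr P (θR P * eR P ^ 15)
/-- `∫ θ e^11 y η` -/
def v1 : ℝ := Jr P (θR P * (eR P ^ 11 * yR P))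
/-- `∫ θ e^7 y^2 η` -/
def v2 : ℝ := Jr P (θR P * (eR P ^ 7 * yR P ^ 2))

theorem v2_eq : v2 P = Wn P / 2 :=
  ab_v2 (cl P.c) (Jr P) (fun h => Jr_congr h) (AB P) (yQ_eq P) (AQ3 P) (BQ3 P) (J1 (P := P))

variable {P}

theorem rel0 {a b : ℝ} (h : θQ P ^ 2 = a • eQ P ^ 6 + b • (eQ P ^ 2 * yQ P)) :
    12 * v2 P + a * v0 P + b * v1 P = 0 := ab_rel0 (cl P.c) (Jr P) (fun h => Jr_zero h) (rel h)

theorem rel1 {a b : ℝ} (h : θQ P ^ 2 = a • eQ P ^ 6 + b • (eQ P ^ 2 * yQ P)) : a * v1 P + b * v2 P = 0 :=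
  ab_rel1 (cl P.c) (Jr P) (fun h => Jr_zero h) (rel h) θy3

variable (P)

/-- the calculus -/
def Kc : Calc (Rb P.c) (Om X) := Cal P.c P.I P.I_d P.I_i P.I_e

/-- the normalisation -/
theorem norm_aux {s : Om X} (hs : dO X s = P.xp ^ 2) :
    3 * P.I (P.θ * (P.xp ^ 2 * s)) = Jr P (θR P ^ 2 * (AR P ^ 2 * BR P)) := by
  have hζ : dO X (iO P.c P.ζ) = -(P.h * P.θ) := by
    have h1 : dO X (iO P.c P.ζ) = -iO P.c (dO X P.ζ) := by
      unfold PhiK.ζ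
      rw [cartan P.c (A_inv P.c _)]
    rw [h1, P.d_ζ, i_mul, Bas_i P.c P.bas_h, zero_mul, zero_add, P.s_h]
    rfl
  have hh : P.h = ((BR P ^ 2 + BR P * AR P + AR P ^ 2 : Rb P.c) : Om X) := by
    unfold PhiK.h
    rw [Finset.sum_range_succ, Finset.sum_range_succ, Finset.sum_range_one]
    simp only [Nat.sub_zero, pow_zero, one_mul, Nat.sub_self, mul_one, pow_one]
    have : 2 - 1 = 1 := rfl
    rw [this, pow_one]
    change _ = P.xm ^ 2 + P.xm * P.xp + P.xp ^ 2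
    abel
  have e1 : dO X P.β = (AR P - BR P) • (1 : Om X) := by
    rw [P.d_β, Rb_smul, mul_one]
    rfl
  have e2 : dO X (iO P.c P.ζ) = -((BR P ^ 2 + BR P * AR P + AR P ^ 2) * θR P) • (1 : Om X) := by
    rw [hζ, Rb_smul, mul_one, hh]
    rfl
  have e3 : dO X s = (AR P ^ 2 : Rb P.c) • (1 : Om X) := by
    rw [hs, Rb_smul, mul_one]
    rfl
  have e5 : iO P.c (P.β - θR P • P.η) = 0 := by
    rw [map_sub, Rb_smul, i_mul, (θR P).2.2.2, zero_mul, zero_add, (θR P).2.1, P.iη, mul_one]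
    exact sub_self _
  have h := ab_norm (Kc P) (β := P.β) (ζ := iO P.c P.ζ) (η := P.η) (s := s) e1 e2 e3 (i_i P.c _) e5 (AR3 P)
  have e4 : (((3 : ℝ) • (AR P ^ 2 * θR P) : Rb P.c) • s : Om X) = (3 : ℝ) • (P.θ * (P.xp ^ 2 * s)) := by
    rw [Rb_smul]
    change ((3 : ℝ) • (P.xp ^ 2 * P.θ)) * s = _
    rw [smul_mul_assoc, ← even_comm' P.s_θ, mul_assoc]
  rw [e4] at h
  exact ((map_smul P.I _ _).trans (smul_eq_mul _ _)).symm.trans h

variable {P}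

theorem norm3 {a b : ℝ} (h : θQ P ^ 2 = a • eQ P ^ 6 + b • (eQ P ^ 2 * yQ P)) {s : Om X} (hs : dO X s = P.xp ^ 2) :
    3 * P.I (P.θ * (P.xp ^ 2 * s)) = a * Wn P := by
  rw [norm_aux P hs]
  exact ab_n3 (cl P.c) (Jr P) (fun h => Jr_congr h) h (yQ_eq P) (AQ3 P) (J0 (P := P))

variable (P)

/-- transport of a primitive from the middle map to `z_+` -/
theorem exists_s {s0 : Om X} (hs : dO X s0 = P.xh ^ 2) :
    ∃ s, dO X s = P.xp ^ 2 ∧ P.I (P.f * (P.xp ^ 2 * s)) = P.I (P.f * (P.xh ^ 2 * s0)) := by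
  have e0 : wt (P.F.comp (PhiD.hf X)) P.u 0 = P.xh := by
    unfold PhiK.xh wt
    have h : P.F.comp ((PhiD.hf X).comp (jO X 0)) = P.F.comp (jO X (1 / 2)) := SMap_ext fun x => by
      change P.F.1 (x, (1 + 0) / 2) = P.F.1 (x, 1 / 2)
      norm_num
    rw [← pull_comp, ← pull_comp, ← h]
    rfl
  have e1 : wt (P.F.comp (PhiD.hf X)) P.u 1 = P.xp := by
    unfold PhiK.xp wt
    have h : P.F.comp ((PhiD.hf X).comp (jO X 1)) = P.F.comp (jO X 1) := SMap_ext fun x => by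
      change P.F.1 (x, (1 + 1) / 2) = P.F.1 (x, 1)
      norm_num
    rw [← pull_comp, ← pull_comp, ← h]
    rfl
  obtain ⟨s, h1, h2⟩ := hopf_ev (P.F.comp (PhiD.hf X)) P.us P.du P.I P.I_d P.up one_le_two P.df (s0 := s0)
    (by rw [e0, hs])
  rw [e1] at h1 h2
  rw [e0] at h2
  exact ⟨s, h1, h2⟩

variable {P}

/-- the number for `θ` is `D` times the number for `f` -/
theorem U_eq {D : ℝ} (hD : P.Ex (P.θ - D • P.f)) {s : Om X} (hs : dO X s = P.xp ^ 2) :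
    P.I (P.θ * (P.xp ^ 2 * s)) = D * P.I (P.f * (P.xp ^ 2 * s)) := by
  obtain ⟨y, hy, e⟩ := hD
  have e1 : P.θ = D • P.f + dO X y := by rw [← e]; abel
  rw [e1, add_mul, map_add, smul_mul_assoc, map_smul, smul_eq_mul]
  have h1 := P.I_d (y * (P.xp ^ 2 * s))
  have h2 : dO X (P.xp ^ 2 * s) = 0 := by
    have h3 : P.xp ^ 3 = 0 := congrArg Subtype.val (AR3 P)
    rw [d_mul, d_pow_zero P.d_xp, zero_mul, zero_add, map_pow, P.s_xp, hs, ← pow_add]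
    have h4 : 2 + 2 = 3 + 1 := rfl
    rw [h4, pow_add, h3, zero_mul]
  rw [d_mul, h2, mul_zero, add_zero] at h1
  rw [h1, add_zero]

/-- the first number -/
theorem v0_eq {D : ℝ} (hD : P.Ex (P.θ - D • P.f)) : v0 P = D * P.I (P.f * (P.η * P.e ^ 15)) := by
  have h1 : cl P.c (θR P * eR P ^ 15) = cl P.c (D • (fR P * eR P ^ 15)) := by
    rw [map_mul, map_smul, map_mul]
    change θQ P * _ = D • (fQ P * _)
    rw [θQ_eq hD, smul_mul_assoc]
  have e15 : sO X (P.e ^ 15) = P.e ^ 15 := by rw [map_pow, P.s_e]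
  unfold v0
  rw [Jr_congr h1, map_smul, smul_eq_mul, Jr_apply]
  congr 2
  change P.f * P.e ^ 15 * P.η = P.f * (P.η * P.e ^ 15)
  rw [mul_assoc, even_comm' e15 P.η]

/-! ### The numbers over the base -/

section base

variable {G : Space} {pr : SMap X G} {T : Om G →ₗ[ℝ] ℝ} (hI : ∀ w, P.I (P.f * pr.pull w) = 2 * T w)

include hI

theorem v0_base {D : ℝ} (hD : P.Ex (P.θ - D • P.f)) {η0 : Om G} (hη : P.η = pr.pull η0) :
    v0 P = 2 * D * T (η0 * dO G η0 ^ 15) := by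
  have e1 : P.η * P.e ^ 15 = pr.pull (η0 * dO G η0 ^ 15) := by
    rw [map_mul, map_pow, ← pull_d, ← hη]
    rfl
  rw [v0_eq hD, e1, hI]
  ring

theorem W_base {a b : ℝ} (h : θQ P ^ 2 = a • eQ P ^ 6 + b • (eQ P ^ 2 * yQ P)) {D : ℝ} (hD : P.Ex (P.θ - D • P.f))
    {ft : SMap G M} (h0 : ∀ x, P.F.1 (x, 1 / 2) = ft.1 (pr.1 x)) {σ : Om G} (hσ : dO G σ = ft.pull P.u ^ 2) :
    a * Wn P = 6 * D * T (ft.pull P.u ^ 2 * σ) := by
  have hxh : P.xh = pr.pull (ft.pull P.u) := by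
    unfold PhiK.xh wt
    have h : P.F.comp (jO X (1 / 2)) = ft.comp pr := SMap_ext h0
    rw [← pull_comp, h, pull_comp]
  obtain ⟨s, hs, hs2⟩ := exists_s P (s0 := pr.pull σ) (by rw [pull_d, hσ, map_pow, hxh])
  rw [← norm3 h hs, U_eq hD hs, hs2, hxh, ← map_pow, ← map_mul, hI]
  ring

end base

/-! ### The constants of the vanishing theorem -/

/-- `(v1^2 - v0 v2) a = 12 v2^2` -/
theorem det_eq {a b : ℝ} (h : θQ P ^ 2 = a • eQ P ^ 6 + b • (eQ P ^ 2 * yQ P)) :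
    a * (v1 P ^ 2 - v0 P * v2 P) = 12 * v2 P ^ 2 := by
  have h0 := rel0 h
  have h1 := rel1 h
  linear_combination v1 P * h1 - v2 P * h0

/-- two combinations `s e^7 y θ + t e^11 θ` which agree have the same coefficients -/
theorem indep {a b : ℝ} (h : θQ P ^ 2 = a • eQ P ^ 6 + b • (eQ P ^ 2 * yQ P)) (hW : a * Wn P ≠ 0) {s t : ℝ}
    (hst : s • (eQ P ^ 7 * (yQ P * θQ P)) + t • (eQ P ^ 11 * θQ P) = 0) : s = 0 ∧ t = 0 := by
  have h1 : s * v1 P + t * v0 P = 0 := ab_i1 (cl P.c) (Jr P) (fun h => Jr_zero h) hst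
  have h2 : s * v2 P + t * v1 P = 0 := ab_i2 (cl P.c) (Jr P) (fun h => Jr_zero h) hst
  have hd := det_eq h
  have hv := v2_eq P
  have ha : a ≠ 0 := left_ne_zero_of_mul hW
  have hw : Wn P ≠ 0 := right_ne_zero_of_mul hW
  have hv2 : v2 P ≠ 0 := by
    rw [hv]
    exact div_ne_zero hw two_ne_zero
  have hdet : v1 P ^ 2 - v0 P * v2 P ≠ 0 := by
    intro h0
    rw [h0, mul_zero] at hd
    have : v2 P ^ 2 ≠ 0 := pow_ne_zero 2 hv2
    apply this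
    linarith
  constructor
  · have h3 : s * (v1 P ^ 2 - v0 P * v2 P) = 0 := by linear_combination v1 P * h1 - v0 P * h2
    exact (mul_eq_zero.1 h3).resolve_right hdet
  · have h3 : t * (v1 P ^ 2 - v0 P * v2 P) = 0 := by linear_combination v1 P * h2 - v2 P * h1
    exact (mul_eq_zero.1 h3).resolve_right hdet

/-- **the volume** : `2 a^3 v0 = a W (b^2 - 12 a)` -/
theorem vol_eq {a b : ℝ} (h : θQ P ^ 2 = a • eQ P ^ 6 + b • (eQ P ^ 2 * yQ P)) :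
    2 * a ^ 3 * v0 P = a * Wn P * (b ^ 2 - 12 * a) := by
  have h0 := rel0 h
  have h1 := rel1 h
  have hv := v2_eq P
  linear_combination 2 * a ^ 2 * h0 - 2 * a * b * h1 + 2 * a * (b ^ 2 - 12 * a) * hv

variable {L : ∀ {X : Space}, Circ X → SMap X M → Prop}

/-- the vanishing theorem on the family -/
theorem TTh_van (V : VanD M P.u L) (hL : L (xRc P.c) P.F) :
    Xe P.c (TTh P.c P.F P.u - V.k1 • (P.e ^ 7 * uxh P.c P.F P.u) - V.k2 • (P.e ^ 11 * xbh P.c P.F P.u)) := by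
  have hC : Cnn (xRc P.c) ((pO X).pull P.η) := (cnn P).pull (Eqv_p P.c)
  obtain ⟨N, hN⟩ : ∃ N, N = V.NP (xRc P.c) ((pO X).pull P.η) P.F := ⟨_, rfl⟩
  have hb : Bas (xRc P.c) N := by rw [hN]; exact V.bas hC hL
  have hd : dO _ N = TT (xRc P.c) P.F P.u - V.k1 • ((pO X).pull P.e ^ 7 * (ub (xRc P.c) P.F P.u * xb (xRc P.c) P.F P.u)) -
      V.k2 • ((pO X).pull P.e ^ 11 * xb (xRc P.c) P.F P.u) := by
    rw [hN, V.d_NP hC hL, pull_d]
    rfl
  have h0 : (jO X 0).pull N = 0 := by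
    rw [hN, ← V.nat hC hL (Eqv_j P.c 0), j_p]
    exact V.const (cnn P) P.F0
  have h1 : (jO X 1).pull N = 0 := by
    rw [hN, ← V.nat hC hL (Eqv_j P.c 1), j_p]
    exact V.const (cnn P) P.F1
  have h2 := d_K N
  have e7 : sO X (P.e ^ 7) = P.e ^ 7 := by rw [map_pow, P.s_e]
  have e11 : sO X (P.e ^ 11) = P.e ^ 11 := by rw [map_pow, P.s_e]
  rw [h0, h1, sub_zero, hd, map_sub, map_sub, map_smul, map_smul, ← map_pow, ← map_pow, K_mul, K_mul, e7, e11] at h2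
  refine ⟨-KO X N, Bas_neg (Bas_K hb), ?_⟩
  rw [map_neg]
  exact eq_neg_of_add_eq_zero_right h2

/-- **the constants of the vanishing theorem** -/
theorem k_eq {a b : ℝ} (h : θQ P ^ 2 = a • eQ P ^ 6 + b • (eQ P ^ 2 * yQ P)) (hW : a * Wn P ≠ 0)
    (V : VanD M P.u L) (hL : L (xRc P.c) P.F) : V.k1 = -(12 * a - b ^ 2) / 24 ∧ V.k2 = a * b / 24 := by
  obtain ⟨q1, hq1⟩ : ∃ q1, q1 = -(12 * a - b ^ 2) / 24 := ⟨_, rfl⟩
  obtain ⟨q2, hq2⟩ : ∃ q2, q2 = a * b / 24 := ⟨_, rfl⟩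
  have h1 := TTh_eq h
  have h2 := TTh_van V hL
  rw [← hq1, ← hq2] at h1 ⊢
  have h3 := Xe_sub h1 h2
  have h4 := uxh_cl P
  have h5 : Xe P.c (((V.k1 - q1) • (P.e ^ 7 * (P.yy * P.θ)) + (V.k2 - q2) • (P.e ^ 11 * P.θ))) := by
    have h6 := Xe_sub (Xe_smul (V.k1 - q1) h4) h3
    rw [even_comm' P.s_yy P.θ]
    rwa [ab_kg (by rw [K1_eq, mul_neg] : P.e ^ 11 * xbh P.c P.F P.u = -(P.e ^ 11 * P.θ))] at h6
  have h7 : (V.k1 - q1) • (eQ P ^ 7 * (yQ P * θQ P)) + (V.k2 - q2) • (eQ P ^ 11 * θQ P) = 0 := by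
    have h8 : cl P.c ((V.k1 - q1) • (eR P ^ 7 * (yR P * θR P)) + (V.k2 - q2) • (eR P ^ 11 * θR P)) = 0 :=
      cl_eq_zero.2 h5
    exact ab_k (cl P.c) h8
  obtain ⟨r1, r2⟩ := indep h hW h7
  exact ⟨by linarith, by linarith⟩

end PK

end Pool.Agent.Lib.MP_ccbbf6_gt.K7
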