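import Pool.Agent.Lib.MP_ccbbf6_gt.K7.SSx
import Pool.Agent.Lib.MP_ccbbf6_gt.L5.COH3

/-!
# `κ = 7`, block B5, file CH1: `H^(2i)(UM) = 0` for `1 ≤ i ≤ 11`, `i ≠ 4` (helper25)

`N = 15`, `κ = 7`, `m = 2`. For `2 i < 15` : (H3) and (H2'). For `2 i ≥ 16` : `SSx` for `UM → M` with `Ψ = -(3/eps) σ`, `d Ψ` a multiple of `foot^* u^2`.
-/

set_option autoImplicit false
set_option maxSynthPendingDepth 3

open Set Filter Topology MeasureTheory Real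
open scoped ContDiff

noncomputable section

namespace Pool.Agent.Lib.MP_ccbbf6_gt.K7

open L4 L4.FR L5

variable {M G F : Space}

theorem CH1_low (D : CohD 15 7 2 M G F) {i : ℕ} (h1 : 1 ≤ i) (h7 : i ≤ 7) (h4 : i ≠ 4) {ζ : Om G}
    (hζ : Deg (2 * i) ζ) (dζ : dO G ζ = 0) : ∃ η : Om G, DZ (2 * i - 1) η ∧ ζ = dO G η := by
  obtain ⟨w, η, hw, dw, hη, e⟩ := D.H3 hζ (by omega) dζ
  obtain ⟨i', hi'⟩ : ∃ i', 2 * i = i' + 1 := ⟨2 * i - 1, by omega⟩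
  rw [hi'] at hw
  obtain ⟨η', hη', e'⟩ := D.H2' dw hw (by omega)
  refine ⟨D.foot.pull η' + η, DZ_add (DZ_of (i := i') (Deg_pull _ hη') (by omega)) (DZ_of (i := i') (hη i' hi') (by omega)), ?_⟩
  rw [map_add, pull_d, ← e', ← e]

theorem CH1_high (D : CohD 15 7 2 M G F) (p0 : M.Plot 0) {i : ℕ} (h8 : 8 ≤ i) (h11 : i ≤ 11) {ζ : Om G}
    (hζ : Deg (2 * i) ζ) (dζ : dO G ζ = 0) : ∃ η : Om G, DZ (2 * i - 1) η ∧ ζ = dO G η := by
  obtain ⟨σ, _, Dσ, _, _, _, dσ, Pσ⟩ := D.exists_sig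
  have he := D.eps0
  obtain ⟨r, hr⟩ : ∃ r : ℝ, r = -(3 / D.eps) := ⟨_, rfl⟩
  have hP : D.bM.PI (r • σ) = 1 := by
    rw [D.bM.PI_smul, Pσ, ← map_one (algebraMap ℝ (Om M)), Algebra.algebraMap_eq_smul_one, smul_smul,
      Algebra.algebraMap_eq_smul_one, hr]
    congr 1
    push_cast
    field_simp
    norm_num
  have hd : dO G (r • σ) = D.bM.pi.pull (r • D.u ^ 2) := by
    rw [map_smul, dσ, D.pi_M, map_smul, map_pow, ← D.x_def]
  have hζ' : DZ (2 * i) ζ := DZ_of hζ (by push_cast; ring)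
  obtain ⟨η, hη, e⟩ := D.bM.SSx (by norm_num) (Deg_smul r Dσ) hP hd hζ' dζ
  obtain ⟨i', hi'⟩ : ∃ i', 2 * i = i' + 16 := ⟨2 * i - 16, by omega⟩
  have hPζ : Deg (i' + 1) (D.bM.PI ζ) := D.bM.Deg_PI (by rw [← hi'.trans (by ring : i' + 16 = i' + 1 + 15)]; exact hζ)
  have dPζ : dO M (D.bM.PI ζ) = 0 := by
    have h := D.PIM_d ζ
    rw [dζ] at h
    rw [h]
    have h0 : D.bM.PI (0 : Om G) = 0 := by
      have := D.bM.PI_smul 0 0
      rwa [zero_smul, zero_smul] at this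
    rw [h0, neg_zero]
  obtain ⟨μ, hμ, eμ⟩ := D.H2' dPζ hPζ (by omega)
  have hev : (-1 : ℝ) ^ (15 + 1) = 1 := by norm_num
  rw [hev, one_smul, eμ] at e
  obtain ⟨a, ha⟩ : ∃ a, a = r • D.u ^ 2 := ⟨_, rfl⟩
  have Da : Deg 16 a := by rw [ha]; exact Deg_smul r (Deg_pow D.Du 2)
  obtain ⟨P, hPd⟩ : ∃ P, P = D.bM.ant.pull (r • σ) := ⟨_, rfl⟩
  have DP : Deg 15 P := by rw [hPd]; exact Deg_pull _ (Deg_smul r Dσ)
  have sP : sO G P = -P := Deg_odd (j := 7) DP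
  have dP : dO G P = D.bM.pi.pull a := by
    have e1 : D.bM.pi.comp D.bM.ant = D.bM.pi := SMap_ext fun s => D.bM.pi_ant s
    rw [hPd, pull_d, hd, ← pull_comp, e1, ha]
  have e2 : P * D.bM.pi.pull (dO M μ) = D.bM.pi.pull (a * μ) - dO G (P * D.bM.pi.pull μ) := by
    rw [d_mul, dP, sP, map_mul, pull_d]
    noncomm_ring
  obtain ⟨W, hW⟩ : ∃ W, W = D.bM.PI (r • σ * ζ) + a * μ := ⟨_, rfl⟩
  have DW : Deg (2 * i) W := by
    rw [hW]
    refine Deg_add (D.bM.Deg_PI ?_) ?_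
    · rw [add_comm]
      exact Deg_mul (Deg_smul r Dσ) hζ
    · rw [hi', add_comm]
      exact Deg_mul Da hμ
  have e3 : ζ = D.bM.pi.pull W + dO G (η - P * D.bM.pi.pull μ) := by
    rw [← hPd, e2] at e
    rw [e, hW, map_add, map_sub]
    abel
  have Dη : DZ (2 * i - 1) (η - P * D.bM.pi.pull μ) := by
    refine DZ_sub hη ?_
    refine DZ_of (Deg_mul DP (Deg_pull _ hμ)) ?_
    omega
  rcases Nat.lt_or_ge 8 i with h | h
  · have hW0 : W = 0 := D.big DW (by omega)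
    refine ⟨_, Dη, ?_⟩
    rw [e3, hW0, map_zero, zero_add]
  · have hi8 : i = 8 := by omega
    subst hi8
    have dW : dO M W = 0 := D.big (Deg_d DW) (by norm_num)
    obtain ⟨η2, hη2, e4⟩ := D.H2 p0 dW (j := 2) (by norm_num) (by
      have : (7 + 1) * 2 = 2 * 8 := by norm_num
      rw [this]
      exact DW)
    obtain ⟨s, hs⟩ : ∃ s : ℝ, s = D.eps⁻¹ * D.TM p0 (D.u ^ (2 - 2) * W) := ⟨_, rfl⟩
    refine ⟨s • σ + D.bM.pi.pull η2 + (η - P * D.bM.pi.pull μ), ?_, ?_⟩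
    · refine DZ_add (DZ_add (DZ_smul _ (DZ_of Dσ (by norm_num))) (DZ_pull _ (DZ_of (hη2 15 (by norm_num)) (by norm_num)))) Dη
    · have e5 : D.bM.pi.pull (D.u ^ 2) = dO G σ := by rw [dσ, D.pi_M, map_pow, ← D.x_def]
      rw [map_add, map_add, map_smul, ← e5, pull_d, ← map_smul, ← map_add]
      rw [← hs] at e4
      rw [← e4]
      exact e3

/-- **the cohomology of `UM`** -/
theorem CH1 (D : CohD 15 7 2 M G F) (p0 : M.Plot 0) {i : ℕ} (h1 : 1 ≤ i) (h11 : i ≤ 11) (h4 : i ≠ 4) {ζ : Om G}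
    (hζ : Deg (2 * i) ζ) (dζ : dO G ζ = 0) : ∃ η : Om G, DZ (2 * i - 1) η ∧ ζ = dO G η := by
  rcases Nat.lt_or_ge i 8 with h | h
  · exact CH1_low D h1 (by omega) h4 hζ dζ
  · exact CH1_high D p0 h h11 hζ dζ

end Pool.Agent.Lib.MP_ccbbf6_gt.K7
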