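import Pool.Agent.Lib.MP_ccbbf6_gt.K7.RG6
import Pool.Agent.Lib.MP_ccbbf6_gt.L5.OT1

/-!
# `κ = 7`, block CH, part 2: the bundle `N ⊕ N ⊕ N` as an oriented bundle (helper13)

* `b3 b` : the oriented bundle `W ⊕ W ⊕ W` in `Eu (N + (N + N))` of an oriented bundle `b` with fibres `W` in `Eu N`;
* `det_rt` : rotations preserve positive frames.
-/

set_option autoImplicit false
set_option linter.unusedSectionVars false
set_option maxSynthPendingDepth 3

open Set Filter Topology Metric Real Module Matrix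
open scoped ContDiff RealInnerProductSpace

noncomputable section

namespace Pool.Agent.Lib.MP_ccbbf6_gt.K7.CH

open Geo L4 L4.ORI L4.FR L5 L5.NEG RG

/-! ### Gram matrices of frames -/

section gram

variable {E : Type} [NormedAddCommGroup E] [InnerProductSpace ℝ E] {R : ℕ}

/-- Gram matrix -/
def Gm (a a' : Fin R → E) : Matrix (Fin R) (Fin R) ℝ := Matrix.of fun i j => inner ℝ (a i) (a' j)

theorem Gm_mul (hR : 0 < R) {W : Submodule ℝ E} (hW : finrank ℝ W = R) {a : Fin R → E} (ha : OFr W a) {x : Fin R → E}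
    (hx : ∀ i, x i ∈ W) (y : Fin R → E) : Gm x y = Gm x a * Gm a y := by
  ext i j
  rw [Matrix.mul_apply]
  have h := frame_expand hR hW ha (hx i)
  change inner ℝ (x i) (y j) = ∑ k, inner ℝ (x i) (a k) * inner ℝ (a k) (y j)
  conv_lhs => rw [← h]
  rw [sum_inner]
  refine Finset.sum_congr rfl fun k _ => ?_
  rw [real_inner_smul_left, real_inner_comm]

theorem Gm_tr (a a' : Fin R → E) : (Gm a a')ᵀ = Gm a' a := by
  ext i j
  exact real_inner_comm _ _

theorem Gm_det_comm (a a' : Fin R → E) : (Gm a a').det = (Gm a' a).det := by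
  rw [← Gm_tr, Matrix.det_transpose]

theorem Gm_self {W : Submodule ℝ E} {a : Fin R → E} (ha : OFr W a) : Gm a a = 1 := by
  ext i j
  change inner ℝ (a i) (a j) = _
  rw [orthonormal_iff_ite.1 ha.2 i j, Matrix.one_apply]

theorem Gm_pm (hR : 0 < R) {W : Submodule ℝ E} (hW : finrank ℝ W = R) {a a' : Fin R → E} (ha : OFr W a)
    (ha' : OFr W a') : (Gm a a').det = 1 ∨ (Gm a a').det = -1 := by
  have h := congrArg Matrix.det (Gm_mul hR hW ha' ha.1 a)
  rw [Gm_self ha, Matrix.det_one, Matrix.det_mul, Gm_det_comm a' a] at h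
  exact mul_self_eq_one_iff.1 h.symm

end gram

/-! ### three copies -/

section triple

variable {r N : ℕ}

/-- the index set -/
def e3 (r : ℕ) : Fin r ⊕ (Fin r ⊕ Fin r) ≃ Fin (r + (r + r)) :=
  (Equiv.sumCongr (Equiv.refl _) finSumFinEquiv).trans finSumFinEquiv

theorem e3_l (i : Fin r) : e3 r (Sum.inl i) = Fin.castAdd (r + r) i := rfl

theorem e3_m (i : Fin r) : e3 r (Sum.inr (Sum.inl i)) = Fin.natAdd r (Fin.castAdd r i) := rfl

theorem e3_r (i : Fin r) : e3 r (Sum.inr (Sum.inr i)) = Fin.natAdd r (Fin.natAdd r i) := rfl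

/-- the frame of three copies -/
def fr3 (w : Fin r → Eu N) : Fin (r + (r + r)) → Eu (N + (N + N)) :=
  Fin.append (fun i => j0 (w i)) (Fin.append (fun i => j1 (w i)) fun i => j2 (w i))

theorem fr3_l (w : Fin r → Eu N) (i : Fin r) : fr3 w (e3 r (Sum.inl i)) = j0 (w i) := Fin.append_left _ _ i

theorem fr3_m (w : Fin r → Eu N) (i : Fin r) : fr3 w (e3 r (Sum.inr (Sum.inl i))) = j1 (w i) :=
  (Fin.append_right _ _ _).trans (Fin.append_left _ _ i)

theorem fr3_r (w : Fin r → Eu N) (i : Fin r) : fr3 w (e3 r (Sum.inr (Sum.inr i))) = j2 (w i) :=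
  (Fin.append_right _ _ _).trans (Fin.append_right _ _ i)

theorem ip00 (x y : Eu N) : ⟪j0 x, j0 y⟫ = ⟪x, y⟫ := by
  rw [inner_q, q0_j0, q0_j0, q1_j0, q2_j0, inner_zero_left, inner_zero_left, add_zero, add_zero]

theorem ip11 (x y : Eu N) : ⟪j1 x, j1 y⟫ = ⟪x, y⟫ := by
  rw [inner_q, q0_j1, q1_j1, q1_j1, q2_j1, inner_zero_left, inner_zero_left, add_zero, zero_add]

theorem ip22 (x y : Eu N) : ⟪j2 x, j2 y⟫ = ⟪x, y⟫ := by
  rw [inner_q, q0_j2, q1_j2, q2_j2, q2_j2, inner_zero_left, inner_zero_left, zero_add, zero_add]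

theorem ip01 (x y : Eu N) : ⟪j0 x, j1 y⟫ = 0 := by
  rw [inner_q, q0_j1, q1_j0, q2_j0, inner_zero_left, inner_zero_left, inner_zero_right, add_zero, add_zero]

theorem ip02 (x y : Eu N) : ⟪j0 x, j2 y⟫ = 0 := by
  rw [inner_q, q0_j2, q1_j0, q2_j0, inner_zero_left, inner_zero_left, inner_zero_right, add_zero, add_zero]

theorem ip12 (x y : Eu N) : ⟪j1 x, j2 y⟫ = 0 := by
  rw [inner_q, q0_j2, q1_j2, q2_j1, inner_zero_left, inner_zero_right, inner_zero_right, add_zero, add_zero]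

theorem ip10 (x y : Eu N) : ⟪j1 x, j0 y⟫ = 0 := by rw [real_inner_comm, ip01]
theorem ip20 (x y : Eu N) : ⟪j2 x, j0 y⟫ = 0 := by rw [real_inner_comm, ip02]
theorem ip21 (x y : Eu N) : ⟪j2 x, j1 y⟫ = 0 := by rw [real_inner_comm, ip12]

theorem Gm_fr3 (w w' : Fin r → Eu N) : (Gm (fr3 w) (fr3 w')).submatrix (e3 r) (e3 r) =
    fromBlocks (Gm w w') 0 0 (fromBlocks (Gm w w') 0 0 (Gm w w')) := by
  ext i j
  change ⟪fr3 w (e3 r i), fr3 w' (e3 r j)⟫ = _
  rcases i with i | i | i <;> rcases j with j | j | j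
  · rw [fr3_l, fr3_l, ip00]
    rfl
  · rw [fr3_l, fr3_m, ip01]
    rfl
  · rw [fr3_l, fr3_r, ip02]
    rfl
  · rw [fr3_m, fr3_l, ip10]
    rfl
  · rw [fr3_m, fr3_m, ip11]
    rfl
  · rw [fr3_m, fr3_r, ip12]
    rfl
  · rw [fr3_r, fr3_l, ip20]
    rfl
  · rw [fr3_r, fr3_m, ip21]
    rfl
  · rw [fr3_r, fr3_r, ip22]
    rfl

theorem det_fr3 (w w' : Fin r → Eu N) : (Gm (fr3 w) (fr3 w')).det = (Gm w w').det * ((Gm w w').det * (Gm w w').det) := by
  rw [← Matrix.det_submatrix_equiv_self (e3 r), Gm_fr3, Matrix.det_fromBlocks_zero₂₁, Matrix.det_fromBlocks_zero₂₁]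

/-- three copies of a subspace -/
def W3 (W : Submodule ℝ (Eu N)) : Submodule ℝ (Eu (N + (N + N))) where
  carrier := {z | q0 z ∈ W ∧ q1 z ∈ W ∧ q2 z ∈ W}
  add_mem' := fun {x y} hx hy => ⟨by rw [map_add]; exact W.add_mem hx.1 hy.1,
    by rw [map_add]; exact W.add_mem hx.2.1 hy.2.1, by rw [map_add]; exact W.add_mem hx.2.2 hy.2.2⟩
  zero_mem' := ⟨by rw [map_zero]; exact W.zero_mem, by rw [map_zero]; exact W.zero_mem,
    by rw [map_zero]; exact W.zero_mem⟩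
  smul_mem' := fun c x hx => ⟨by rw [map_smul]; exact W.smul_mem _ hx.1,
    by rw [map_smul]; exact W.smul_mem _ hx.2.1, by rw [map_smul]; exact W.smul_mem _ hx.2.2⟩

theorem mem_W3 {W : Submodule ℝ (Eu N)} {z : Eu (N + (N + N))} : z ∈ W3 W ↔ q0 z ∈ W ∧ q1 z ∈ W ∧ q2 z ∈ W := Iff.rfl

theorem j0_mem {W : Submodule ℝ (Eu N)} {x : Eu N} (h : x ∈ W) : j0 x ∈ W3 W := by
  rw [mem_W3, q0_j0, q1_j0, q2_j0]
  exact ⟨h, W.zero_mem, W.zero_mem⟩

theorem j1_mem {W : Submodule ℝ (Eu N)} {x : Eu N} (h : x ∈ W) : j1 x ∈ W3 W := by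
  rw [mem_W3, q0_j1, q1_j1, q2_j1]
  exact ⟨W.zero_mem, h, W.zero_mem⟩

theorem j2_mem {W : Submodule ℝ (Eu N)} {x : Eu N} (h : x ∈ W) : j2 x ∈ W3 W := by
  rw [mem_W3, q0_j2, q1_j2, q2_j2]
  exact ⟨W.zero_mem, W.zero_mem, h⟩

/-- three copies as a product -/
def W3e (W : Submodule ℝ (Eu N)) : W3 W ≃ₗ[ℝ] (W × (W × W)) where
  toFun z := (⟨q0 z.1, z.2.1⟩, (⟨q1 z.1, z.2.2.1⟩, ⟨q2 z.1, z.2.2.2⟩))
  map_add' x y := Prod.ext (Subtype.ext (map_add q0 x.1 y.1))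
    (Prod.ext (Subtype.ext (map_add q1 x.1 y.1)) (Subtype.ext (map_add q2 x.1 y.1)))
  map_smul' c x := Prod.ext (Subtype.ext (map_smul q0 c x.1))
    (Prod.ext (Subtype.ext (map_smul q1 c x.1)) (Subtype.ext (map_smul q2 c x.1)))
  invFun z := ⟨mk3 z.1.1 z.2.1.1 z.2.2.1, by
    rw [mem_W3, q0_mk3, q1_mk3, q2_mk3]
    exact ⟨z.1.2, z.2.1.2, z.2.2.2⟩⟩
  left_inv z := Subtype.ext (mk3_q z.1)
  right_inv z := Prod.ext (Subtype.ext (q0_mk3 _ _ _)) (Prod.ext (Subtype.ext (q1_mk3 _ _ _)) (Subtype.ext (q2_mk3 _ _ _)))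

theorem finrank_W3 {W : Submodule ℝ (Eu N)} (hW : finrank ℝ W = r) : finrank ℝ (W3 W) = r + (r + r) := by
  rw [(W3e W).finrank_eq, Module.finrank_prod, Module.finrank_prod, hW]

theorem OFr_fr3 {W : Submodule ℝ (Eu N)} {w : Fin r → Eu N} (h : OFr W w) : OFr (W3 W) (fr3 w) := by
  constructor
  · intro i
    obtain ⟨i, rfl⟩ := (e3 r).surjective i
    rcases i with i | i | i
    · rw [fr3_l]
      exact j0_mem (h.1 i)
    · rw [fr3_m]
      exact j1_mem (h.1 i)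
    · rw [fr3_r]
      exact j2_mem (h.1 i)
  · rw [orthonormal_iff_ite]
    intro i j
    obtain ⟨i, rfl⟩ := (e3 r).surjective i
    obtain ⟨j, rfl⟩ := (e3 r).surjective j
    have h1 := congrFun (congrFun (Gm_fr3 w w) i) j
    rw [Gm_self h] at h1
    have h2 : (fromBlocks (1 : Matrix (Fin r) (Fin r) ℝ) 0 0
        (fromBlocks (1 : Matrix (Fin r) (Fin r) ℝ) 0 0 (1 : Matrix (Fin r) (Fin r) ℝ))) = 1 := by
      rw [fromBlocks_one, fromBlocks_one]
    rw [h2, Matrix.one_apply] at h1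
    refine h1.trans ?_
    simp only [(e3 r).injective.eq_iff]

/-- positive frames of three copies -/
def pos3 {B : Space} (b : OBun r (Eu N) B) (x : B.pt) (a : Fin (r + (r + r)) → Eu (N + (N + N))) : Prop :=
  ∃ w : Fin r → Eu N, OFr (b.W x) w ∧ b.pos x w ∧ (Gm a (fr3 w)).det = 1

theorem three_pos (h0 : 0 < r) : 0 < r + (r + r) := by omega

theorem pos3_iff {B : Space} (b : OBun r (Eu N) B) (h0 : 0 < r) {x : B.pt} {a : Fin (r + (r + r)) → Eu (N + (N + N))}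
    (ha : OFr (W3 (b.W x)) a) {w : Fin r → Eu N} (hw : OFr (b.W x) w) (hp : b.pos x w) :
    pos3 b x a ↔ (Gm a (fr3 w)).det = 1 := by
  constructor
  · rintro ⟨w', hw', hp', h⟩
    have h1 : (Gm w' w).det = 1 := (b.pos_iff x w' w hw' hw hp').1 hp
    rw [Gm_mul (three_pos h0) (finrank_W3 (b.rank x)) (OFr_fr3 hw') ha.1 (fr3 w), Matrix.det_mul, h, det_fr3, h1]
    norm_num
  · intro h
    exact ⟨w, hw, hp, h⟩

/-- **three copies of an oriented bundle** -/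
def b3 {B : Space} (b : OBun r (Eu N) B) (hb : TBun b) (h0 : 0 < r) : OBun (r + (r + r)) (Eu (N + (N + N))) B where
  toVFld := triv _ B
  W x := W3 (b.W x)
  pos x a := pos3 b x a
  rank x := finrank_W3 (b.rank x)
  pos_iff x a a' ha ha' hp := by
    obtain ⟨w, hw, hp2, h1⟩ := hp
    rw [pos3_iff b h0 ha' hw hp2, Gm_mul (three_pos h0) (finrank_W3 (b.rank x)) ha ha'.1 (fr3 w), Matrix.det_mul, h1,
      mul_one, Gm_det_comm]
    rfl
  loc p z := by
    obtain ⟨w, hw⟩ := b.loc p z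
    refine ⟨fun y => fr3 (w y), ?_⟩
    filter_upwards [hw] with y hy
    refine ⟨OFr_fr3 hy.1, ⟨w y, hy.1, hy.2.1, ?_⟩, fun i => ?_⟩
    · rw [Gm_self (OFr_fr3 hy.1), Matrix.det_one]
    · change ContDiffAt ℝ ∞ (fun v => fr3 (w v) i) y
      obtain ⟨i, rfl⟩ := (e3 r).surjective i
      rcases i with i | i | i
      · simp only [fr3_l]
        exact (j0 (N := N)).contDiff.contDiffAt.comp y (hb.sAt p _ y (hy.2.2 i))
      · simp only [fr3_m]
        exact (j1 (N := N)).contDiff.contDiffAt.comp y (hb.sAt p _ y (hy.2.2 i))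
      · simp only [fr3_r]
        exact (j2 (N := N)).contDiff.contDiffAt.comp y (hb.sAt p _ y (hy.2.2 i))

theorem tb3 {B : Space} (b : OBun r (Eu N) B) (hb : TBun b) (h0 : 0 < r) : TBun (b3 b hb h0) where
  sAt _ _ _ h := h
  cst := hb.cst

/-! ### rotations -/

theorem ip_rt (t : ℝ) (x y : Eu (N + (N + N))) : ⟪(rt N).r t x, (rt N).r t y⟫ = ⟪x, y⟫ := by
  rw [real_inner_eq_norm_add_mul_self_sub_norm_mul_self_sub_norm_mul_self_div_two,
    real_inner_eq_norm_add_mul_self_sub_norm_mul_self_sub_norm_mul_self_div_two, ← map_add, (rt N).norm, (rt N).norm,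
    (rt N).norm]

theorem rt_mem {W : Submodule ℝ (Eu N)} (t : ℝ) {z : Eu (N + (N + N))} (h : z ∈ W3 W) : (rt N).r t z ∈ W3 W := by
  rw [mem_W3, rt_apply, q0_mk3, q1_mk3, q2_mk3]
  exact ⟨h.1, W.sub_mem (W.smul_mem _ h.2.1) (W.smul_mem _ h.2.2), W.add_mem (W.smul_mem _ h.2.1) (W.smul_mem _ h.2.2)⟩

theorem OFr_rt {R : ℕ} {W : Submodule ℝ (Eu N)} (t : ℝ) {a : Fin R → Eu (N + (N + N))} (h : OFr (W3 W) a) :
    OFr (W3 W) fun i => (rt N).r t (a i) := by
  refine ⟨fun i => rt_mem t (h.1 i), ?_⟩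
  rw [orthonormal_iff_ite]
  intro i j
  rw [ip_rt, orthonormal_iff_ite.1 h.2 i j]

theorem Gm_rt {R : ℕ} (t : ℝ) (a a' : Fin R → Eu (N + (N + N))) :
    Gm (fun i => (rt N).r t (a i)) (fun i => (rt N).r t (a' i)) = Gm a a' := by
  ext i j
  exact ip_rt t _ _

/-- rotations preserve the orientation -/
theorem det_rt {R : ℕ} (hR : 0 < R) {W : Submodule ℝ (Eu N)} (hW : finrank ℝ (W3 W) = R) {f : Fin R → Eu (N + (N + N))}
    (hf : OFr (W3 W) f) (t : ℝ) : (Gm (fun i => (rt N).r t (f i)) f).det = 1 := by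
  have h1 : ∀ s t : ℝ, (Gm (fun i => (rt N).r (s + t) (f i)) f).det =
      (Gm (fun i => (rt N).r t (f i)) f).det * (Gm (fun i => (rt N).r s (f i)) f).det := by
    intro s t
    have h2 : (fun i => (rt N).r (s + t) (f i)) = fun i => (rt N).r s ((rt N).r t (f i)) := by
      funext i
      rw [(rt N).add]
    rw [h2, Gm_mul hR hW (OFr_rt s hf) (OFr_rt s (OFr_rt t hf)).1 f, Matrix.det_mul, Gm_rt]
  have h2 := h1 (t / 2) (t / 2)
  rw [add_halves] at h2
  rcases Gm_pm hR hW (OFr_rt t hf) hf with h3 | h3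
  · exact h3
  · rw [h3] at h2
    nlinarith [mul_self_nonneg (Gm (fun i => (rt N).r (t / 2) (f i)) f).det]

theorem det_rt' {R : ℕ} (hR : 0 < R) {W : Submodule ℝ (Eu N)} (hW : finrank ℝ (W3 W) = R)
    {a f : Fin R → Eu (N + (N + N))} (ha : OFr (W3 W) a) (hf : OFr (W3 W) f) (t : ℝ) :
    (Gm (fun i => (rt N).r t (a i)) f).det = (Gm a f).det := by
  rw [Gm_mul hR hW (OFr_rt t hf) (OFr_rt t ha).1 f, Matrix.det_mul, Gm_rt, det_rt hR hW hf, mul_one]

end triple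

end Pool.Agent.Lib.MP_ccbbf6_gt.K7.CH
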