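import Pool.Agent.Lib.MP_ccbbf6_gt.K7.CHE2
import Pool.Agent.Lib.MP_ccbbf6_gt.L5.INTn
import Pool.Agent.Lib.MP_ccbbf6_gt.L5.IOb
import Pool.Agent.Lib.MP_ccbbf6_gt.L5.NX2

/-!
# `κ = 7`, block CH, part 3: the sphere bundle of `N ⊕ N ⊕ N` (helper13)

* `bY` : the oriented bundle of rank `21` over `UM`; `sY` : its sphere bundle, with total space `spY`;
* `i_sY` : fibre integration is equivariant for `circY` and the geodesic flow run twice;
* `pm_bY` : its projection in blocks; `orY0` : its orientation tensor, index set `Fin N ⊕ (Fin N ⊕ Fin N)`.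
-/

set_option autoImplicit false
set_option linter.unusedSectionVars false
set_option maxSynthPendingDepth 3

open Set Filter Topology Metric Real Module Matrix
open scoped ContDiff RealInnerProductSpace

noncomputable section

namespace Pool.Agent.Lib.MP_ccbbf6_gt.K7.CH

open Geo L4 L4.ORI L4.FR L5 L5.NEG RG

theorem z7 : 0 < 7 := by norm_num

theorem z21 : 0 < 21 := by norm_num

section space

variable {n : ℕ} {M : Type} [MetricSpace M] [CompactSpace M] {𝒜 : SDist n M} {N : ℕ} {C : Eu N → Gs M → M}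
  {P : Gs M → Eu N →L[ℝ] Eu N} {hB : Bl M} (hk : 𝒜.HK 7) (hN : NegData 𝒜 7 hB C P)
  {b : OBun 7 (Eu n) (spG 𝒜)} (hb : KBun b)

/-- three copies of the negative bundle -/
def bY : OBun 21 (Eu (N + (N + N))) (spG 𝒜) := b3 (bN z7 hk hN hb) (tbN z7 hk hN hb) z7

theorem tbY : TBun (bY hk hN hb) := tb3 (bN z7 hk hN hb) (tbN z7 hk hN hb) z7

theorem bY_W (c : Gs M) : (bY hk hN hb).W c = W3 (WN P c) := rfl

/-- `spY` is the unit sphere bundle of `bY` -/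
def toSY : SMap (spY 𝒜 P) (bY hk hN hb).S :=
  ⟨fun z => ⟨z.1, inP3_iff.1 z.2.1, z.2.2⟩, fun _ p => ⟨p.2.1, fun _ => p.2.2.contDiffAt⟩⟩

/-- inverse -/
def ofSY : SMap (bY hk hN hb).S (spY 𝒜 P) :=
  ⟨fun z => ⟨z.1, inP3_iff.2 z.2.1, z.2.2⟩, fun _ p => ⟨p.2.1, contDiff_iff_contDiffAt.2 p.2.2⟩⟩

/-- the fibres are invariant -/
theorem bN_inv2 (x : (spG 𝒜).pt) (s : ℝ) :
    (bN z7 hk hN hb).W ((dblc (circPhi hB 𝒜)).a.1 (x, s)) = (bN z7 hk hN hb).W x :=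
  bN_inv z7 hk hN hb x (2 * s)

theorem circFY_mem (z : (bY hk hN hb).F.pt) (s : ℝ) :
    OFr ((bY hk hN hb).W ((dblc (circPhi hB 𝒜)).a.1 (z.1.1, s))) (fun i => (rt N).r (4 * π * s) (z.1.2 i)) ∧
      (bY hk hN hb).pos ((dblc (circPhi hB 𝒜)).a.1 (z.1.1, s)) (fun i => (rt N).r (4 * π * s) (z.1.2 i)) := by
  have hf : OFr (W3 ((bN z7 hk hN hb).W z.1.1)) z.1.2 := z.2.1
  have hW := bN_inv2 (hB := hB) hk hN hb z.1.1 s
  constructor
  · change OFr (W3 ((bN z7 hk hN hb).W _)) _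
    rw [hW]
    exact OFr_rt _ hf
  · obtain ⟨w, hw, hp, h1⟩ := z.2.2
    refine ⟨w, ?_, ?_, ?_⟩
    · rw [hW]
      exact hw
    · exact (OT.pos_inv (bN z7 hk hN hb) (tbN z7 hk hN hb) z7 (dblc (circPhi hB 𝒜)) (bN_inv2 hk hN hb) z.1.1 s hw).2 hp
    · have h2 := det_rt' (three_pos z7) (finrank_W3 ((bN z7 hk hN hb).rank z.1.1)) hf (OFr_fr3 hw) (4 * π * s)
      exact h2.trans h1

/-- the lifted flow on the frames -/
def circFY : Circ (bY hk hN hb).F where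
  a := ⟨fun z => ⟨((dblc (circPhi hB 𝒜)).a.1 (z.1.1.1, z.2), fun i => (rt N).r (4 * π * z.2) (z.1.1.2 i)),
      circFY_mem hk hN hb z.1 z.2⟩,
    fun k p => ⟨(dblc (circPhi hB 𝒜)).a.2 k ⟨fun u => ((p.1 u).1.1.1, (p.1 u).2), p.2.1.1, p.2.2⟩,
      fun i z => (rt N).smooth_ap (contDiffAt_const.mul p.2.2.contDiffAt) (p.2.1.2 i z)⟩⟩
  zero := fun z => Subtype.ext (Prod.ext ((dblc (circPhi hB 𝒜)).zero _) (funext fun i => by
    change (rt N).r (4 * π * 0) (z.1.2 i) = z.1.2 i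
    rw [mul_zero, (rt N).zero]))
  add := fun z s t => Subtype.ext (Prod.ext ((dblc (circPhi hB 𝒜)).add _ _ _) (funext fun i => by
    change (rt N).r (4 * π * t) ((rt N).r (4 * π * s) (z.1.2 i)) = (rt N).r (4 * π * (s + t)) (z.1.2 i)
    rw [← (rt N).add]
    ring_nf))
  one := fun z t => Subtype.ext (Prod.ext ((dblc (circPhi hB 𝒜)).one _ _) (funext fun i => by
    change (rt N).r (4 * π * (t + 1)) (z.1.2 i) = (rt N).r (4 * π * t) (z.1.2 i)
    rw [mul_add, mul_one, (rt N).add, per_rt]))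

/-- **the sphere bundle** -/
def sY : SBun 20 (spY 𝒜 P) (spG 𝒜) :=
  (OBun.sb (N := 20) (bY hk hN hb) (by norm_num)).iso (ofSY hk hN hb) (toSY hk hN hb) (fun _ => rfl) (fun _ => rfl)

theorem sY_pi : (sY hk hN hb).pi = prY 𝒜 P := rfl

theorem sY_ant : (sY hk hN hb).ant = antY 𝒜 P := rfl

theorem PI_sY (θ : Om (spY 𝒜 P)) : (sY hk hN hb).PI θ =
    (OBun.sb (N := 20) (bY hk hN hb) (by norm_num)).PI ((ofSY hk hN hb).pull θ) :=
  (OBun.sb (N := 20) (bY hk hN hb) (by norm_num)).PI_iso (ofSY hk hN hb) (toSY hk hN hb) (fun _ => rfl) (fun _ => rfl) θ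

/-- fibre integration is equivariant -/
theorem i_sY (θ : Om (spY 𝒜 P)) : iO (dblc (circPhi hB 𝒜)) ((sY hk hN hb).PI θ) =
    (-1 : ℝ) ^ 20 • (sY hk hN hb).PI (iO (circY hB hN) θ) := by
  refine (sY hk hN hb).i_PI (dblc (circPhi hB 𝒜)) (circY hB hN) (circFY hk hN hb) (fun _ _ => rfl) (fun z s => ?_) θ
  refine Subtype.ext (Prod.ext ?_ ?_)
  · change shift (2 * π * (2 * s)) z.1.1.1.1 = shift (4 * π * s) z.1.1.1.1
    ring_nf
  · change ‖toE z.1.2‖⁻¹ • ∑ i, z.1.2 i • (rt N).r (4 * π * s) (z.1.1.1.2 i) =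
      (rt N).r (4 * π * s) (‖toE z.1.2‖⁻¹ • ∑ i, z.1.2 i • z.1.1.1.2 i)
    rw [map_smul, map_sum]
    congr 1
    exact Finset.sum_congr rfl fun i _ => (map_smul _ _ _).symm

theorem i_sY_zero (θ : Om (spY 𝒜 P)) (h : iO (circY hB hN) θ = 0) :
    iO (dblc (circPhi hB 𝒜)) ((sY hk hN hb).PI θ) = 0 := by
  rw [i_sY, h]
  have h3 := (sY hk hN hb).PI_smul 0 0
  rw [zero_smul, zero_smul] at h3
  rw [h3, smul_zero]

end space

/-! ### the projection and the orientation in blocks -/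

section blocks

variable {r N : ℕ} {B : Space} {ι ι' : Type} [Fintype ι] [DecidableEq ι] [Fintype ι'] [DecidableEq ι']

theorem q0_e3 (z : Eu (N + (N + N))) (i : Fin N) : z (e3 N (Sum.inl i)) = q0 z i := rfl

theorem q1_e3 (z : Eu (N + (N + N))) (i : Fin N) : z (e3 N (Sum.inr (Sum.inl i))) = q1 z i := rfl

theorem q2_e3 (z : Eu (N + (N + N))) (i : Fin N) : z (e3 N (Sum.inr (Sum.inr i))) = q2 z i := rfl

theorem pW_W3 {W : Submodule ℝ (Eu N)} (h0 : 0 < r) (hW : finrank ℝ W = r) {w : Fin r → Eu N} (hw : OFr W w) :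
    (OT.pW (W3 W)).submatrix (e3 N) (e3 N) = fromBlocks (OT.pW W) 0 0 (fromBlocks (OT.pW W) 0 0 (OT.pW W)) := by
  ext i j
  have h1 : OT.pW (W3 W) (e3 N i) (e3 N j) = ∑ k, fr3 w k (e3 N i) * fr3 w k (e3 N j) :=
    OT.pW_eq (three_pos h0) (finrank_W3 hW) (OFr_fr3 hw) _ _
  have h2 : ∑ k, fr3 w k (e3 N i) * fr3 w k (e3 N j) =
      ∑ k, j0 (w k) (e3 N i) * j0 (w k) (e3 N j) + (∑ k, j1 (w k) (e3 N i) * j1 (w k) (e3 N j) +
        ∑ k, j2 (w k) (e3 N i) * j2 (w k) (e3 N j)) := by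
    rw [← (e3 r).sum_comp, Fintype.sum_sum_type, Fintype.sum_sum_type]
    simp only [fr3_l, fr3_m, fr3_r]
  have h3 : ∀ l m : Fin N, OT.pW W l m = ∑ k, w k l * w k m := fun l m => OT.pW_eq h0 hW hw l m
  have hz : ∀ i : Fin N, (0 : Eu N) i = 0 := fun _ => rfl
  change OT.pW (W3 W) (e3 N i) (e3 N j) = _
  rw [h1, h2]
  rcases i with i | i | i <;> rcases j with j | j | j <;>
    simp only [q0_e3, q1_e3, q2_e3, q0_j0, q0_j1, q0_j2, q1_j0, q1_j1, q1_j2, q2_j0, q2_j1, q2_j2, hz, mul_zero, zero_mul,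
      Finset.sum_const_zero, add_zero, zero_add, fromBlocks_apply₁₁, fromBlocks_apply₁₂, fromBlocks_apply₂₁,
      fromBlocks_apply₂₂, h3, Matrix.zero_apply]

theorem IsOr_sub {R : ℕ} {Q : Matrix ι ι ℝ} {o : (Fin R → ι) → ℝ} (e : ι' ≃ ι) (h : IsOr R Q o) :
    IsOr R (Q.submatrix e e) (fun I => o fun k => e (I k)) := by
  obtain ⟨a, h1, h2, h3⟩ := h
  refine ⟨fun j l => a j (e l), fun i j => ?_, fun l m => h2 _ _, fun I => h3 _⟩
  rw [← h1 i j]
  exact e.sum_comp fun l => a i l * a j l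

theorem Sec_sub {A : Type*} [CommRing A] {Q : Matrix ι ι A} {y : ι → A} (e : ι' ≃ ι) (h : Sec Q y) :
    Sec (Q.submatrix e e) fun l => y (e l) := by
  constructor
  · funext i
    have h1 := congrFun h.pr (e i)
    rw [Matrix.mulVec, dotProduct] at h1
    rw [Matrix.mulVec, dotProduct, ← h1]
    exact e.sum_comp fun l => Q (e i) l * y l
  · rw [← h.un]
    exact e.sum_comp fun l => y l * y l

theorem or_sub (b : OBun r (EuclideanSpace ℝ (Fin N)) B) (hb : TBun b) (h0 : 0 < r) (e : ι ≃ Fin N) :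
    Or r ((OT.pm b hb h0).submatrix e e) (fun I => OT.ot b hb h0 fun k => e (I k)) :=
  Or.of_pt fun x => (IsOr_sub e (OT.isOr b hb h0 x)).or

end blocks

end Pool.Agent.Lib.MP_ccbbf6_gt.K7.CH
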