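import Pool.Agent.Lib.MP_ccbbf6_gt.K7.CHE1
import Pool.Agent.Lib.MP_ccbbf6_gt.K7.CHE3
import Pool.Agent.Lib.MP_ccbbf6_gt.K7.GY0
import Pool.Agent.Lib.MP_ccbbf6_gt.L5.EGP

/-!
# `κ = 7`, block CH, part 4: the form of the sphere bundle of `N ⊕ (L ⊗ N_C)` (helper13)

* `fX` : the form over a space `X` with a map to `UM` and a section of `N ⊕ N ⊕ N`; `fX_pull`, `PI_fS`;
* `fYY` : the form over `spY`; closed, horizontal, of degree `20`, odd, `∫ = -2`;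
* `ebY` : the sphere bundle with `f = -fYY`.
-/

set_option autoImplicit false
set_option linter.unusedSectionVars false
set_option maxSynthPendingDepth 3

open Set Filter Topology Metric Real Module Matrix
open scoped ContDiff RealInnerProductSpace

noncomputable section

namespace Pool.Agent.Lib.MP_ccbbf6_gt.K7.CH

open Geo L4 L4.ORI L4.FR L5 L5.NEG RG

/-- the index set -/
abbrev IY (N : ℕ) : Type := Fin N ⊕ (Fin N ⊕ Fin N)

variable {n : ℕ} {M : Type} [MetricSpace M] [CompactSpace M] {𝒜 : SDist n M} {N : ℕ} {C : Eu N → Gs M → M}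
  {P : Gs M → Eu N →L[ℝ] Eu N} {hB : Bl M} (hk : 𝒜.HK 7) (hN : NegData 𝒜 7 hB C P)
  {b : OBun 7 (Eu n) (spG 𝒜)} (hb : KBun b)

/-- the projection in blocks -/
theorem pm_bY : (OT.pm (bY hk hN hb) (tbY hk hN hb) z21).submatrix (e3 N) (e3 N) = EGH.P3 (mG hN) := by
  refine L5.SF_mat_ext fun x => ?_
  obtain ⟨w, hw, -⟩ := OT.exists_pos (bN z7 hk hN hb) (tbN z7 hk hN hb) x
  have h1 : (OT.pW (W3 (WN P x))).submatrix (e3 N) (e3 N) =
      fromBlocks (OT.pW (WN P x)) 0 0 (fromBlocks (OT.pW (WN P x)) 0 0 (OT.pW (WN P x))) :=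
    pW_W3 z7 (finrank_WN hN x) hw
  rw [pW_WN hN] at h1
  have h2 : (EGH.P3 (mG hN)).map (vl (X := spG 𝒜) x) = EGH.P3 ((mG hN).map (vl (X := spG 𝒜) x)) := EGH.P3_mapg _
  rw [h2]
  exact h1

/-- the orientation tensor over the base -/
def oY0 (I : Fin 21 → IY N) : SF (spG 𝒜) := OT.ot (bY hk hN hb) (tbY hk hN hb) z21 fun k => e3 N (I k)

theorem orY0 : Or 21 (EGH.P3 (mG hN)) (oY0 hk hN hb) := by
  rw [← pm_bY hk hN hb]
  exact or_sub (bY hk hN hb) (tbY hk hN hb) z21 (e3 N)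

section gen

variable {X Y : Space} {A : Om (spG 𝒜)}

/-- the projection over `X` -/
def PX (hN : NegData 𝒜 7 hB C P) (f : SMap X (spG 𝒜)) : Matrix (Fin N) (Fin N) (SF X) := (mG hN).map (FHom.pull f).g

theorem PX_idem (f : SMap X (spG 𝒜)) : PX hN f * PX hN f = PX hN f := EGH.mapg_idem _ (mG_idem hN)

theorem PX_tr (f : SMap X (spG 𝒜)) : (PX hN f)ᵀ = PX hN f := EGH.mapg_tr _ (mG_symm hN)

theorem s_aX (hA : Cnn (circPhi hB 𝒜) A) (f : SMap X (spG 𝒜)) : sO X (f.pull (hf A)) = -f.pull (hf A) :=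
  EGH.s_mapg (FHom.pull f).h (s_hf hA)

/-- the orientation over `X` -/
def oX (f : SMap X (spG 𝒜)) (I : Fin 21 → IY N) : SF X := (FHom.pull f).g (oY0 hk hN hb I)

theorem orX (f : SMap X (spG 𝒜)) : Or 21 (EGH.P3 (PX hN f)) (oX hk hN hb f) := by
  have h := (orY0 hk hN hb).map' ((FHom.pull f).g : SF (spG 𝒜) →+* SF X)
  have e : (EGH.P3 (mG hN)).map ((FHom.pull f).g : SF (spG 𝒜) →+* SF X) = EGH.P3 (PX hN f) := EGH.P3_mapg _
  rw [e] at h
  exact h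

/-- the form -/
def fX (hA : Cnn (circPhi hB 𝒜) A) (f : SMap X (spG 𝒜)) (y : IY N → SF X) : Om X :=
  EGH.fY (φ := FO X) (a := f.pull (hf A)) (n := 10) (s_aX hA f) (PX_idem hN f) (PX_tr hN f) (oX hk hN hb f) y

theorem fY_congr {B' : Type} [Ring B'] [Algebra ℝ B'] {A' : Type} [CommRing A'] [Algebra ℝ A'] {G' : GDA B'}
    {φ : Fun0 A' G'} {ι : Type} [Fintype ι] [DecidableEq ι] {m : ℕ} {a a' : B'} (e1 : a = a') {Q Q' : Matrix ι ι A'}
    (e2 : Q = Q') {o o' : (Fin (2 * m + 1) → ι ⊕ (ι ⊕ ι)) → A'} (e3 : o = o') {y y' : ι ⊕ (ι ⊕ ι) → A'} (e4 : y = y')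
    (ha : G'.s a = -a) (ha' : G'.s a' = -a') (hP : Q * Q = Q) (hP' : Q' * Q' = Q') (hs : Qᵀ = Q) (hs' : Q'ᵀ = Q') :
    EGH.fY (φ := φ) ha hP hs o y = EGH.fY (φ := φ) ha' hP' hs' o' y' := by
  subst e1 e2 e3 e4
  rfl

/-- naturality -/
theorem fX_pull (hA : Cnn (circPhi hB 𝒜) A) (f : SMap X (spG 𝒜)) (g : SMap Y X) (y : IY N → SF X) :
    g.pull (fX hk hN hb hA f y) = fX hk hN hb hA (f.comp g) fun i => (FHom.pull g).g (y i) := by
  have h := EGH.fY_map (n := 10) (FHom.pull g) (s_aX hA f) (PX_idem hN f) (PX_tr hN f) (oX hk hN hb f) y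
  refine Eq.trans h (fY_congr ?_ ?_ ?_ rfl _ _ _ _ _ _)
  · exact (pull_comp f g _).symm
  · ext i j
    rfl
  · funext I
    rfl

theorem d_fX (hA : Cnn (circPhi hB 𝒜) A) (f : SMap X (spG 𝒜)) {y : IY N → SF X} (hy : Sec (EGH.P3 (PX hN f)) y) :
    dO X (fX hk hN hb hA f y) = 0 :=
  EGH.d_fY (φ := FO X) (n := 10) (s_aX hA f) (PX_idem hN f) (PX_tr hN f) (orX hk hN hb f) hy

theorem Deg_fX (hA : Cnn (circPhi hB 𝒜) A) (f : SMap X (spG 𝒜)) (y : IY N → SF X) :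
    Deg 20 (fX hk hN hb hA f y) :=
  EGH.Deg_fY (n := 10) (s_aX hA f) (Deg_pull f (Deg_hf hA)) (PX_idem hN f) (PX_tr hN f) _ y

theorem fX_neg (hA : Cnn (circPhi hB 𝒜) A) (f : SMap X (spG 𝒜)) (y : IY N → SF X) :
    fX hk hN hb hA f (-y) = -fX hk hN hb hA f y := EGH.fY_neg _ _ _ _ _

end gen

/-! ### over the sphere bundle -/

section sphere

variable {A : Om (spG 𝒜)} (hA : Cnn (circPhi hB 𝒜) A)

/-- the tautological section -/
def yB (i : IY N) : SF (bY hk hN hb).S := OT.yS (bY hk hN hb) (tbY hk hN hb) (e3 N i)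

theorem pS_bY : (OT.pS (bY hk hN hb) (tbY hk hN hb) z21).submatrix (e3 N) (e3 N) = EGH.P3 (PX hN (bY hk hN hb).pr) := by
  have h1 := congrArg (fun Q => Q.map (FHom.pull (bY hk hN hb).pr).g) (pm_bY hk hN hb)
  have h2 : (EGH.P3 (mG hN)).map (FHom.pull (bY hk hN hb).pr).g = EGH.P3 (PX hN (bY hk hN hb).pr) := EGH.P3_mapg _
  exact h1.trans h2

theorem sec_yB : Sec (EGH.P3 (PX hN (bY hk hN hb).pr)) (yB hk hN hb) := by
  rw [← pS_bY]
  exact Sec_sub (e3 N) (OT.secS (bY hk hN hb) (tbY hk hN hb) z21)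

/-- **the fibre integral** -/
theorem PI_fX : (OBun.sb (N := 20) (bY hk hN hb) (by norm_num)).PI (fX hk hN hb hA (bY hk hN hb).pr (yB hk hN hb)) =
    algebraMap ℝ (Om (spG 𝒜)) (-2) := by
  have hd : EGP.Dat (bY hk hN hb) (tbY hk hN hb) z21 (e3 N) (EGH.P3 (PX hN (bY hk hN hb).pr))
      (oX hk hN hb (bY hk hN hb).pr) (yB hk hN hb) := ⟨(pS_bY hk hN hb).symm, rfl, rfl⟩
  exact EGP.PI_fT (n := 10) (b := bY hk hN hb) (by norm_num) hd
    (EGH.cn3 (φ := FO (bY hk hN hb).S) (s_aX hA (bY hk hN hb).pr) (PX_idem hN _) (PX_tr hN _))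
    (orX hk hN hb (bY hk hN hb).pr) (sec_yB hk hN hb)
    (fun i j => EGD.Deg_wA (Deg_pull _ (Deg_hf hA)) _ i j)
    (fun Q i j => by
      change (EGP.ptF (bY hk hN hb) Q).pull (-((bY hk hN hb).pr.pull (hf A) * L5.fn _ _)) = 0
      rw [map_neg, map_mul, EGP.ptF_pr (j := 0) (bY hk hN hb) Q (Deg_hf hA), zero_mul, neg_zero])

/-- the coordinates -/
def yY (𝒜 : SDist n M) (P : Gs M → Eu N →L[ℝ] Eu N) (i : IY N) : SF (spY 𝒜 P) :=
  ⟨fun z => z.1.2 (e3 N i), fun _ p => contDiff_iff_contDiffAt.2 fun _ => contDiffAt_euclidean.1 p.2.2.contDiffAt _⟩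

/-- **the form over `spY`** -/
def fYY : Om (spY 𝒜 P) := fX hk hN hb hA (prY 𝒜 P) (yY 𝒜 P)

theorem toSY_fX : (toSY hk hN hb).pull (fX hk hN hb hA (bY hk hN hb).pr (yB hk hN hb)) = fYY hk hN hb hA :=
  fX_pull hk hN hb hA (bY hk hN hb).pr (toSY hk hN hb) (yB hk hN hb)

theorem PI_fYY : (sY hk hN hb).PI (fYY hk hN hb hA) = algebraMap ℝ (Om (spG 𝒜)) (-2) := by
  rw [PI_sY, ← toSY_fX, ← pull_comp]
  have h : (toSY hk hN hb).comp (ofSY hk hN hb) = SMap.id _ := SMap_ext fun _ => rfl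
  rw [h, pull_id]
  exact PI_fX hk hN hb hA

include hk hb in
theorem sec_yY : Sec (EGH.P3 (PX hN (prY 𝒜 P))) (yY 𝒜 P) := by
  have h := (sec_yB hk hN hb).map (FHom.pull (toSY hk hN hb)).g
  have e : (EGH.P3 (PX hN (bY hk hN hb).pr)).map (FHom.pull (toSY hk hN hb)).g = EGH.P3 (PX hN (prY 𝒜 P)) :=
    EGH.P3_mapg _
  rw [e] at h
  exact h

theorem d_fYY : dO _ (fYY hk hN hb hA) = 0 := d_fX hk hN hb hA (prY 𝒜 P) (sec_yY hk hN hb)

theorem Deg_fYY : Deg 20 (fYY hk hN hb hA) := Deg_fX hk hN hb hA (prY 𝒜 P) (yY 𝒜 P)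

theorem ant_fYY : (antY 𝒜 P).pull (fYY hk hN hb hA) = -fYY hk hN hb hA := by
  have h1 : (antY 𝒜 P).pull (fYY hk hN hb hA) = fX hk hN hb hA ((prY 𝒜 P).comp (antY 𝒜 P))
      fun i => (FHom.pull (antY 𝒜 P)).g (yY 𝒜 P i) := fX_pull hk hN hb hA _ _ _
  have h2 : (prY 𝒜 P).comp (antY 𝒜 P) = prY 𝒜 P := SMap_ext fun _ => rfl
  have h3 : (fun i => (FHom.pull (antY 𝒜 P)).g (yY 𝒜 P i)) = -yY 𝒜 P := rfl
  rw [h1, h2, h3, fX_neg]
  rfl

/-- the action on the coordinates -/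
theorem rot_yY : EGH.Rot (circY hB hN) (yY 𝒜 P) where
  inv i z s := by
    change ((circY hB hN).a.1 (z, s)).1.2 (e3 N (Sum.inl i)) = z.1.2 (e3 N (Sum.inl i))
    rw [q0_e3, q0_e3, circY_q, q0_mk3]
  r1 i z s := by
    change ((circY hB hN).a.1 (z, s)).1.2 (e3 N (Sum.inr (Sum.inl i))) =
      Real.cos (2 * Real.pi * s) * z.1.2 (e3 N (Sum.inr (Sum.inl i))) -
        Real.sin (2 * Real.pi * s) * z.1.2 (e3 N (Sum.inr (Sum.inr i)))
    rw [q1_e3, q1_e3, q2_e3, circY_q, q1_mk3]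
    rfl
  r2 i z s := by
    change ((circY hB hN).a.1 (z, s)).1.2 (e3 N (Sum.inr (Sum.inr i))) =
      Real.sin (2 * Real.pi * s) * z.1.2 (e3 N (Sum.inr (Sum.inl i))) +
        Real.cos (2 * Real.pi * s) * z.1.2 (e3 N (Sum.inr (Sum.inr i)))
    rw [q2_e3, q1_e3, q2_e3, circY_q, q2_mk3]
    rfl

theorem inv_PX (i j : Fin N) : EGH.InvF (circY hB hN) (PX hN (prY 𝒜 P) i j) := fun z s =>
  congrArg (fun L : Eu N →L[ℝ] Eu N => etN L i j) (hN.inv (4 * π * s) z.1.1)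

include hA in
theorem cnnY : Cnn (circY hB hN) ((prY 𝒜 P).pull (hf A)) := hA.dbl.pull (circY_pr hB hN)

theorem i_fYY : iO (circY hB hN) (fYY hk hN hb hA) = 0 :=
  EGH.i_fY (n := 10) (s_aX hA (prY 𝒜 P)) (PX_idem hN _) (PX_tr hN _) (inv_PX hN) (cnnY hN hA).i (cnnY hN hA).id _
    (rot_yY hN) (sec_yY hk hN hb).pr

/-- **the sphere bundle with its form** -/
def ebY : EB 20 (spY 𝒜 P) (spG 𝒜) where
  hN := by norm_num
  ev := ⟨10, rfl⟩
  B := sY hk hN hb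
  cY := circY hB hN
  cG := dblc (circPhi hB 𝒜)
  pic := circY_pr hB hN
  antc := circY_ant hB hN
  PI_i := i_sY_zero hk hN hb
  f := -fYY hk hN hb hA
  fd := Deg_neg (Deg_fYY hk hN hb hA)
  df := by rw [map_neg, d_fYY, neg_zero]
  jf := by rw [map_neg, i_fYY, neg_zero]
  f2 := by
    have h := (sY hk hN hb).PI_smul (-1) (fYY hk hN hb hA)
    rw [neg_one_smul, neg_one_smul, PI_fYY, ← map_neg, neg_neg] at h
    exact h
  fa := by
    have h := ant_fYY hk hN hb hA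
    rw [sY_ant, map_neg, h]
  A := (2⁻¹ : ℝ) • A
  cA := hA.dbl

end sphere

end Pool.Agent.Lib.MP_ccbbf6_gt.K7.CH
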