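import Pool.Agent.Lib.MP_ccbbf6_gt.K7.CHE4
import Pool.Agent.Lib.MP_ccbbf6_gt.L5.NXG

/-!
# `κ = 7`, block CH, part 5: restriction to the sphere bundle of `N` (helper13)

* `j_fYY` : the form of the sphere bundle of `N ⊕ (L ⊗ N_C)` restricts to `± f eG`;
* `hf_ebY` : the field `hf` of `GysD`, with `eG` replaced by `ν eG`, `ν = ± 1`.
-/

set_option autoImplicit false
set_option linter.unusedSectionVars false
set_option maxSynthPendingDepth 3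

open Set Filter Topology Metric Real Module Matrix
open scoped ContDiff RealInnerProductSpace

noncomputable section

namespace Pool.Agent.Lib.MP_ccbbf6_gt.K7.CH

open Geo L4 L4.ORI L4.FR L5 L5.NEG RG

variable {n : ℕ} {M : Type} [MetricSpace M] [CompactSpace M] {𝒜 : SDist n M} {N : ℕ} {C : Eu N → Gs M → M}
  {P : Gs M → Eu N →L[ℝ] Eu N} {hB : Bl M} (hk : 𝒜.HK 7) (hN : NegData 𝒜 7 hB C P)
  {b : OBun 7 (Eu n) (spG 𝒜)} (hb : KBun b) {A : Om (spG 𝒜)} (hA : Cnn (circPhi hB 𝒜) A)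

/-- the orientation of `N` over its sphere bundle -/
def oPN (I : Fin 7 → Fin N) : SF (spN 𝒜 P) := (FHom.inc (circN hB hN)).g (oN z7 hk hN hb I)

theorem or_PN : Or 7 (PX hN (prN 𝒜 P)) (oPN hk hN hb) :=
  (or_oN z7 hk hN hb).map' ((FHom.inc (circN hB hN)).g : SB (circN hB hN) →+* SF (spN 𝒜 P))

/-- the tautological section of `N` -/
def yPN (l : Fin N) : SF (spN 𝒜 P) := (FHom.inc (circN hB hN)).g (yN hN l)

theorem sec_PN : Sec (PX hN (prN 𝒜 P)) (yPN hN) := (sec_yN hN).map (FHom.inc (circN hB hN)).g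

theorem tr_PX {X : Space} (f : SMap X (spG 𝒜)) : trace (PX hN f) = ((7 : ℕ) : SF X) := by
  have h1 : trace (PX hN f) = (FHom.pull f).g (trace (mG hN)) :=
    (AddMonoidHom.map_trace ((FHom.pull f).g : SF (spG 𝒜) →ₐ[ℝ] SF X).toAddMonoidHom (mG hN)).symm
  rw [h1, mG_trace, map_natCast]

/-- the comparison of the orientations -/
def sgX : SF (spN 𝒜 P) := EGH.sY (n := 3) (oPN hk hN hb) (PX hN (prN 𝒜 P)) 7 (oX hk hN hb (prN 𝒜 P)) (yPN hN)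

theorem sgX_sq : sgX hk hN hb * sgX hk hN hb = 1 :=
  EGH.sY_sq (n := 3) (q := 7) (or_PN hk hN hb) (EGH.or_dP (PX_idem hN _) (PX_tr hN _) (tr_PX hN _))
    (orX hk hN hb (prN 𝒜 P)) (sec_PN hN)

theorem d_sgX : dO _ (L5.fn (spN 𝒜 P) (sgX hk hN hb)) = 0 :=
  d_sq_one (φ := FO (spN 𝒜 P)) (sgX_sq hk hN hb)

theorem Deg_sgX : Deg 0 (L5.fn (spN 𝒜 P) (sgX hk hN hb)) := fun _ _ => Dg_fc _

/-- the coordinates on the sphere bundle of `N` -/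
theorem yY_jY : (fun i => (FHom.pull (jY 𝒜 P)).g (yY 𝒜 P i)) = inlS (Fin N ⊕ Fin N) (yPN hN) := by
  funext i
  refine SF_ext fun z => ?_
  rcases i with i | i | i
  · change (j0 z.1.2) (e3 N (Sum.inl i)) = z.1.2 i
    rw [q0_e3, q0_j0]
  · change (j0 z.1.2) (e3 N (Sum.inr (Sum.inl i))) = 0
    rw [q1_e3, q1_j0]
    rfl
  · change (j0 z.1.2) (e3 N (Sum.inr (Sum.inr i))) = 0
    rw [q2_e3, q2_j0]
    rfl

theorem jY_fYY : (jY 𝒜 P).pull (fYY hk hN hb hA) = fX hk hN hb hA (prN 𝒜 P) (inlS (Fin N ⊕ Fin N) (yPN hN)) := by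
  have h1 : (jY 𝒜 P).pull (fYY hk hN hb hA) = fX hk hN hb hA ((prY 𝒜 P).comp (jY 𝒜 P))
      fun i => (FHom.pull (jY 𝒜 P)).g (yY 𝒜 P i) := fX_pull hk hN hb hA _ _ _
  rw [h1, yY_jY hN]
  rfl

theorem fNG_PX : fNG (m := 3) hk hN hb = fG (n := 3) (FO (spN 𝒜 P)) (PX hN (prN 𝒜 P)) (oPN hk hN hb) (yPN hN) := by
  rw [fNG_val (m := 3) hk hN hb]
  have e1 : (pN hN).map (FHom.inc (circN hB hN)).g = PX hN (prN 𝒜 P) := rfl
  have e2 : (fun I => (FHom.inc (circN hB hN)).g (oN (Nat.succ_pos _) hk hN hb I)) = oPN hk hN hb := rfl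
  have e3 : (fun l => (FHom.inc (circN hB hN)).g (yN hN l)) = yPN hN := rfl
  rw [e1, e2, e3]

/-- **restriction to the sphere bundle of `N`** -/
theorem j_fYY : (jY 𝒜 P).pull (fYY hk hN hb hA) = L5.fn (spN 𝒜 P) (sgX hk hN hb) *
    (fNG (m := 3) hk hN hb * (prN 𝒜 P).pull (eG hA (mG_idem hN) (mG_symm hN))) := by
  rw [jY_fYY]
  have h1 := EGH.fY_N (φ := FO (spN 𝒜 P)) (n := 3) (q := 7) (s_aX hA (prN 𝒜 P)) (or_PN hk hN hb)
    (EGH.or_dP (PX_idem hN _) (PX_tr hN _) (tr_PX hN _)) (orX hk hN hb (prN 𝒜 P)) (sec_PN hN) (by decide)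
  have h2 : fNG (m := 3) hk hN hb = fG (n := 3) (FO (spN 𝒜 P)) (PX hN (prN 𝒜 P)) (oPN hk hN hb) (yPN hN) :=
    fNG_PX hk hN hb
  have h3 : (prN 𝒜 P).pull (eG hA (mG_idem hN) (mG_symm hN)) =
      EGC.eC (φ := FO (spN 𝒜 P)) 7 (s_aX hA (prN 𝒜 P)) (PX_idem hN (prN 𝒜 P)) (PX_tr hN (prN 𝒜 P)) :=
    EGH.eC_map (q := 7) (FHom.pull (prN 𝒜 P)) (s_hf hA) (mG_idem hN) (mG_symm hN)
  rw [h2, h3]
  exact h1

/-- the sign is constant -/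
theorem sg_const (hx : ∀ ζ : Om (spN 𝒜 P), Deg 0 ζ → dO _ ζ = 0 → ∃ r : ℝ, ζ = algebraMap ℝ _ r) :
    ∃ ν : ℝ, ν ^ 2 = 1 ∧ L5.fn (spN 𝒜 P) (sgX hk hN hb) = algebraMap ℝ _ ν := by
  obtain ⟨r, hr⟩ := hx _ (Deg_sgX hk hN hb) (d_sgX hk hN hb)
  have h1 : algebraMap ℝ (Om (spN 𝒜 P)) (r ^ 2) = 1 := by
    rw [map_pow, ← hr, pow_two, ← map_mul, sgX_sq, map_one]
  by_cases h2 : r ^ 2 = 1
  · exact ⟨r, h2, hr⟩
  · have h3 : algebraMap ℝ (Om (spN 𝒜 P)) (r ^ 2 - 1) = 0 := by rw [map_sub, h1, map_one, sub_self]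
    have h4 : ∀ x : Om (spN 𝒜 P), x = 0 := fun x => by
      have h5 : (r ^ 2 - 1) • x = 0 := by rw [Algebra.smul_def, h3, zero_mul]
      have h6 : (r ^ 2 - 1)⁻¹ • (r ^ 2 - 1) • x = 0 := by rw [h5, smul_zero]
      rwa [smul_smul, inv_mul_cancel₀ (sub_ne_zero.2 h2), one_smul] at h6
    exact ⟨1, one_pow 2, by rw [h4 (L5.fn (spN 𝒜 P) (sgX hk hN hb)), h4 (algebraMap ℝ _ 1)]⟩

/-- **the field `hf` of `GysD`** -/
theorem hf_ebY {ν : ℝ} (hν : L5.fn (spN 𝒜 P) (sgX hk hN hb) = algebraMap ℝ _ ν) :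
    (jY 𝒜 P).pull (ebY hk hN hb hA).f =
      -fNG (m := 3) hk hN hb * (prN 𝒜 P).pull (ν • eG hA (mG_idem hN) (mG_symm hN)) := by
  have h1 : (ebY hk hN hb hA).f = -fYY hk hN hb hA := rfl
  rw [h1, map_neg, j_fYY, hν, map_smul, neg_mul, mul_smul_comm, ← Algebra.smul_def]

theorem Deg_nG (ν : ℝ) : Deg 14 (ν • eG hA (mG_idem hN) (mG_symm hN)) := Deg_smul _ (Deg_eG hA _ _)

theorem d_nG (ν : ℝ) : dO _ (ν • eG hA (mG_idem hN) (mG_symm hN)) = 0 := by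
  rw [map_smul, d_eG hA _ _ (mG_trace hN), smul_zero]

theorem inv_mG (i j : Fin N) : EGH.InvF (circPhi hB 𝒜) (mG hN i j) := fun c s =>
  congrArg (fun L : Eu N →L[ℝ] Eu N => etN L i j) (hN.inv (2 * π * s) c)

theorem Bas_nG (ν : ℝ) : Bas (circPhi hB 𝒜) (ν • eG hA (mG_idem hN) (mG_symm hN)) :=
  Bas_smul _ _ (Bas_eG hA _ _ (mG_trace hN) (inv_mG hN))

end Pool.Agent.Lib.MP_ccbbf6_gt.K7.CH
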