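import Pool.Agent.Lib.MP_ccbbf6_gt.K7.RG3

namespace Pool.Agent.Lib.MP_ccbbf6_gt.L5.NEG
end Pool.Agent.Lib.MP_ccbbf6_gt.L5.NEG

/-!
# `κ = 7`, density path, part 1: the first variation of a push-off family with a rotation generator (helper92)
-/

set_option autoImplicit false
set_option linter.unusedSectionVars false

open Set Filter Topology Metric Real
open scoped ContDiff RealInnerProductSpace

noncomputable section

namespace Pool.Agent.Lib.MP_ccbbf6_gt.K7.DP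

open L4 Geo L4.ORI L5 L5.NEG RG

variable {n : ℕ} {M : Type*} [MetricSpace M] [CompactSpace M] {𝒜 : SDist n M} [Nonempty (Gs M)]

/-- the coordinates are smooth -/
theorem smF_coord (p : M) (v : Eu n) {y : M} (hy : y ∈ (𝒜.ψ p).source) : SmFA 𝒜 (fun y => ⟪v, 𝒜.ψ p y⟫) y := by
  rw [smF_iff (p := p) hy]
  have h1 : ContDiffAt ℝ ∞ (fun u : Eu n => ⟪v, u⟫) (𝒜.ψ p y) := contDiffAt_const.inner ℝ contDiffAt_id
  refine h1.congr_of_eventuallyEq ?_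
  filter_upwards [(𝒜.ψ p).open_target.mem_nhds ((𝒜.ψ p).map_source hy)] with u hu
  rw [(𝒜.ψ p).right_inv hu]

variable {E : Type} [NormedAddCommGroup E] [InnerProductSpace ℝ E]
variable {T : Rt E} {e : Emb n 𝒜} {Ξ : ℝ → E → e.Q → e.Q} {χ : e.Q → ℝ} {ρ : E → ℝ} {k : E → Gs M → Eu n}
  {R : E → Gs M → Gs M}
variable (hB : Bl M) (hR : RotX 𝒜 k R) (h : PFlowR T e R χ ρ Ξ)

include hB hR h

/-- one coordinate of the first variation -/
theorem first_coord (c : Gs M) (x : E) (v : Eu n) :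
    HasDerivAt (fun θ : ℝ => ⟪v, 𝒜.ψ (c.1 0) (CX e Ξ (θ • x) c)⟫) (∫ b in (0 : ℝ)..π, ⟪v, JXr 𝒜 R (T.r b x) c b⟫) 0 := by
  have hπ := Real.pi_pos
  let Φ : ℝ × ℝ → ℝ := fun z => ⟪v, 𝒜.ψ (c.1 0) ((ThX e Ξ z.1 (z.2 • x) c).1 (0 - z.1))⟫
  have hpt : ∀ b : ℝ, 0 ≤ b → (ThX e Ξ b ((0 : ℝ) • x) c).1 (0 - b) = c.1 0 := by
    intro b hb
    rw [zero_smul, ThR_zero hB hR h hb]
    show c.1 (0 - b + b) = c.1 0
    rw [sub_add_cancel]
  have hTh : ∀ b : ℝ, 0 ≤ b → SmAt 𝒜 (fun z : ℝ × ℝ => (ThX e Ξ z.1 (z.2 • x) c).1 (0 - z.1)) (b, 0) := fun b hb =>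
    (smooth_ThR hB hR h (smGAt_const c ((b, 0) : ℝ × ℝ)) (t := fun z : ℝ × ℝ => z.1) (x := fun z : ℝ × ℝ => z.2 • x)
      contDiffAt_fst (contDiffAt_snd.smul contDiffAt_const) hb).ev hB (t := fun z : ℝ × ℝ => 0 - z.1)
      (contDiffAt_const.sub contDiffAt_fst)
  have hΦ : ∀ b : ℝ, 0 ≤ b → ContDiffAt ℝ ∞ Φ (b, 0) := by
    intro b hb
    have h1 : SmFA 𝒜 (fun y => ⟪v, 𝒜.ψ (c.1 0) y⟫) ((fun z : ℝ × ℝ => (ThX e Ξ z.1 (z.2 • x) c).1 (0 - z.1)) (b, 0)) := by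
      simp only [hpt b hb]
      exact smF_coord _ _ (𝒜.mem _)
    exact SmFA.comp_to (g := fun y => ⟪v, 𝒜.ψ (c.1 0) y⟫)
      (r := fun z : ℝ × ℝ => (ThX e Ξ z.1 (z.2 • x) c).1 (0 - z.1)) h1 (hTh b hb)
  -- the derivative in `b`
  have hw : ∀ b : ℝ, 0 < b → b < π →
      HasDerivAt (fun b => deriv (fun θ => Φ (b, θ)) 0) (⟪v, JXr 𝒜 R (T.r b x) c b⟫) b := by
    intro b hb hb'
    obtain ⟨D, hD1, hD2⟩ := PO.mixed (hΦ b hb.le)
    obtain ⟨x', hx'⟩ : ∃ x', x' = T.r b x := ⟨_, rfl⟩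
    let m : ℝ → ℝ := fun θ => deriv (fun σ : ℝ => ⟪v, 𝒜.ψ (c.1 0) ((R (σ • x') (ThX e Ξ b (θ • x) c)).1 (0 - b))⟫) 0
    have hm : ContDiffAt ℝ ∞ m 0 := by
      refine PO.contDiffAt_deriv2' (g := fun z : ℝ × ℝ => ⟪v, 𝒜.ψ (c.1 0) ((R (z.2 • x') (ThX e Ξ b (z.1 • x) c)).1 (0 - b))⟫) ?_
      have h0 := smooth_ThR hB hR h (smGAt_const c ((0, 0) : ℝ × ℝ)) (t := fun z : ℝ × ℝ => b)
        (x := fun z : ℝ × ℝ => z.1 • x) contDiffAt_const (contDiffAt_fst.smul contDiffAt_const) hb.le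
      have h1 := (hR.smooth (ℝ × ℝ) _ (fun z => z.2 • x') (0, 0) h0 (contDiffAt_snd.smul contDiffAt_const)).ev hB
        (t := fun z : ℝ × ℝ => 0 - b) contDiffAt_const
      have h2 : SmFA 𝒜 (fun y => ⟪v, 𝒜.ψ (c.1 0) y⟫)
          ((fun z : ℝ × ℝ => (R (z.2 • x') (ThX e Ξ b (z.1 • x) c)).1 (0 - b)) (0, 0)) := by
        simp only
        rw [zero_smul ℝ x', hR.zero]
        have := hpt b hb.le
        rw [this]
        exact smF_coord _ _ (𝒜.mem _)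
      exact SmFA.comp_to (g := fun y => ⟪v, 𝒜.ψ (c.1 0) y⟫)
        (r := fun z : ℝ × ℝ => (R (z.2 • x') (ThX e Ξ b (z.1 • x) c)).1 (0 - b)) h2 h1
    have hρc : ContinuousAt (fun θ : ℝ => ρ (θ • x)) 0 :=
      (h.rsm.continuous.comp (f := fun θ : ℝ => θ • x) (by fun_prop)).continuousAt
    have hρ0 : ρ ((0 : ℝ) • x) = 1 := by rw [zero_smul]; exact h.rone.self_of_nhds
    have hev : (fun θ => deriv (fun b' => Φ (b', θ)) b) =ᶠ[𝓝 0] fun θ => θ * (ρ (θ • x) * m θ) := by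
      have hc1 : ContinuousAt (fun θ : ℝ => (ThX e Ξ b (θ • x) c).1 (0 - b)) 0 := by
        have h1 := (hTh b hb.le).1
        have h2 : ContinuousAt (fun θ : ℝ => (b, θ)) 0 := by fun_prop
        exact ContinuousAt.comp (g := fun z : ℝ × ℝ => (ThX e Ξ z.1 (z.2 • x) c).1 (0 - z.1)) (f := fun θ : ℝ => (b, θ)) h1 h2
      have h3 : ∀ᶠ θ : ℝ in 𝓝 (0 : ℝ), (ThX e Ξ b (θ • x) c).1 (0 - b) ∈ (𝒜.ψ (c.1 0)).source := by
        refine hc1.eventually ((𝒜.ψ (c.1 0)).open_source.mem_nhds ?_)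
        show (ThX e Ξ b ((0 : ℝ) • x) c).1 (0 - b) ∈ (𝒜.ψ (c.1 0)).source
        rw [hpt b hb.le]
        exact 𝒜.mem _
      filter_upwards [h3] with θ h5
      have h7 := (transportR hB hR h (f := fun y => ⟪v, 𝒜.ψ (c.1 0) y⟫) (x := θ • x) (a := 0) (b := b) (c := c) hb.le
        (smF_coord _ _ h5)).deriv
      rw [map_smul, ← hx'] at h7
      simp only [smul_smul_smul'] at h7
      have h8 := deriv_comp_mul_left (ρ (θ • x) * θ)
        (fun σ : ℝ => ⟪v, 𝒜.ψ (c.1 0) ((R (σ • x') (ThX e Ξ b (θ • x) c)).1 (0 - b))⟫) 0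
      rw [mul_zero, smul_eq_mul] at h8
      show deriv (fun b' => ⟪v, 𝒜.ψ (c.1 0) ((ThX e Ξ b' (θ • x) c).1 (0 - b'))⟫) b = _
      rw [h7, h8]
      simp only [m]
      ring
    have hD3 : HasDerivAt (fun θ => deriv (fun b' => Φ (b', θ)) b) (ρ ((0 : ℝ) • x) * m 0) 0 :=
      (hasDerivAt_mul_cont (I := fun θ => ρ (θ • x) * m θ) (hρc.mul hm.continuousAt)).congr_of_eventuallyEq hev
    rw [hρ0, one_mul] at hD3
    have hDm : D = m 0 := hD2.unique hD3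
    have hm0 : m 0 = ⟪v, JXr 𝒜 R x' c b⟫ := by
      have h1 : m 0 = deriv (fun σ : ℝ => ⟪v, 𝒜.ψ (c.1 0) ((R (σ • x') (shift b c)).1 (-b))⟫) 0 := by
        simp only [m]
        rw [zero_smul ℝ x, ThR_zero hB hR h hb.le]
        simp only [zero_sub]
      rw [h1]
      exact ((hasDerivAt_const (0 : ℝ) v).inner ℝ (JX_hasDerivAt 𝒜 hB hR x' c b)).deriv.trans (by simp)
    rw [← hx', ← hm0, ← hDm]
    exact hD1
  -- integration
  have hwc : ∀ b ∈ Icc (0 : ℝ) π, ContinuousAt (fun b => deriv (fun θ => Φ (b, θ)) 0) b := fun b hb =>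
    (PO.contDiffAt_deriv2' (hΦ b hb.1)).continuousAt
  have hgc : Continuous (fun b => ⟪v, JXr 𝒜 R (T.r b x) c b⟫) := by
    rw [continuous_iff_continuousAt]
    intro b
    have h1 := (smooth_JR (𝒜 := 𝒜) T hB hR x c (0, b)).continuousAt
    have h2 : ContinuousAt (fun b : ℝ => ((0, b) : ℝ × ℝ)) b := by fun_prop
    have h3 := ContinuousAt.comp (g := fun z : ℝ × ℝ => JXr 𝒜 R (T.r z.2 x) (R (z.1 • x) c) z.2)
      (f := fun b : ℝ => ((0, b) : ℝ × ℝ)) (x := b) h1 h2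
    simp only [Function.comp_def, zero_smul, hR.zero] at h3
    exact (continuousAt_const (y := v)).inner h3
  have hint := intervalIntegral.integral_eq_sub_of_hasDerivAt_of_le hπ.le
    (fun b hb => (hwc b hb).continuousWithinAt) (fun b hb => hw b hb.1 hb.2)
    (hgc.intervalIntegrable 0 π)
  have hw0 : deriv (fun θ => Φ (0, θ)) 0 = 0 := by
    have h1 : (fun θ => Φ (0, θ)) = fun _ => ⟪v, 𝒜.ψ (c.1 0) (c.1 0)⟫ := by
      funext θ
      simp only [Φ, ThR_time_zero hB h, sub_zero]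
    rw [h1, deriv_const]
  rw [hw0, sub_zero] at hint
  have hfin : (fun θ : ℝ => ⟪v, 𝒜.ψ (c.1 0) (CX e Ξ (θ • x) c)⟫) = fun θ => Φ (π, θ) := by
    funext θ
    simp only [Φ, zero_sub]
    rfl
  rw [hfin]
  have h5 : DifferentiableAt ℝ (fun θ => Φ (π, θ)) 0 := by
    have h6 := (hΦ π hπ.le).differentiableAt (by simp : (∞ : WithTop ℕ∞) ≠ 0)
    exact (PO.hasDerivAt_snd (g := Φ) (z := (π, 0)) h6).differentiableAt
  have h7 := h5.hasDerivAt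
  rw [← hint] at h7
  exact h7

theorem cont_JXr (c : Gs M) (x : E) : Continuous (fun b => JXr 𝒜 R (T.r b x) c b) := by
  rw [continuous_iff_continuousAt]
  intro b
  have h1 := (smooth_JR (𝒜 := 𝒜) T hB hR x c (0, b)).continuousAt
  have h2 : ContinuousAt (fun b : ℝ => ((0, b) : ℝ × ℝ)) b := by fun_prop
  have h3 := ContinuousAt.comp (g := fun z : ℝ × ℝ => JXr 𝒜 R (T.r z.2 x) (R (z.1 • x) c) z.2)
    (f := fun b : ℝ => ((0, b) : ℝ × ℝ)) (x := b) h1 h2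
  simp only [Function.comp_def, zero_smul, hR.zero] at h3
  exact h3

/-- **the first variation of the push-off** -/
theorem first_var (c : Gs M) (x : E) :
    HasDerivAt (fun θ : ℝ => 𝒜.ψ (c.1 0) (CX e Ξ (θ • x) c)) (∫ b in (0 : ℝ)..π, JXr 𝒜 R (T.r b x) c b) 0 := by
  have h0 : CX e Ξ ((0 : ℝ) • x) c = c.1 0 := by rw [zero_smul, CR_zero hB hR h]
  have h1 : SmAt 𝒜 (fun θ : ℝ => CX e Ξ (θ • x) c) 0 :=
    smooth_CR hB hR h (smGAt_const c (0 : ℝ)) (x := fun θ : ℝ => θ • x) (contDiffAt_id.smul contDiffAt_const)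
  have h2 : ContDiffAt ℝ ∞ (fun θ : ℝ => 𝒜.ψ (c.1 0) (CX e Ξ (θ • x) c)) 0 := by
    have h3 := h1.2
    simp only [h0] at h3
    exact h3
  have h4 := (h2.differentiableAt (by simp)).hasDerivAt
  have h5 : deriv (fun θ : ℝ => 𝒜.ψ (c.1 0) (CX e Ξ (θ • x) c)) 0 = ∫ b in (0 : ℝ)..π, JXr 𝒜 R (T.r b x) c b := by
    refine ext_inner_left ℝ fun v => ?_
    have h6 := ((hasDerivAt_const (0 : ℝ) v).inner ℝ h4).unique (first_coord hB hR h c x v)
    rw [inner_zero_left, add_zero] at h6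
    rw [h6]
    exact ContinuousLinearMap.intervalIntegral_comp_comm (innerSL ℝ v)
      ((cont_JXr hB hR h c x).intervalIntegrable 0 π)
  rw [← h5]
  exact h4

end Pool.Agent.Lib.MP_ccbbf6_gt.K7.DP
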