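import Pool.Agent.Lib.MP_ccbbf6_gt.K7.GG3

/-!
# `κ = 7`, density path, part 5: bump densities along one orbit (abstract) (helper92)

`OD.Geo O A` : the extra facts on the kernels; `OD.bmp O h v` : the bump density; `Fm_bmp` : positive for all `μ ∈ [0, 1/2]`.
-/

set_option autoImplicit false
set_option linter.unusedSectionVars false
set_option linter.unusedVariables false

open Set Filter Topology Metric Real MeasureTheory
open scoped InnerProductSpace ComplexConjugate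

noncomputable section

namespace Pool.Agent.Lib.MP_ccbbf6_gt.K7.GG

variable {H : Type} [NormedAddCommGroup H] [InnerProductSpace ℂ H] [CompleteSpace H]

namespace OD

/-- the extra facts on the kernels -/
structure Geo (O : OD H) (A : ℝ) : Prop where
  A0 : 0 ≤ A
  contP : Continuous O.P
  contT : Continuous O.T
  PP : ∀ s y, O.P s (O.P s y) = O.P s y
  sym : ∀ s x y, ⟪O.P s x, y⟫_ℂ = ⟪x, O.P s y⟫_ℂ
  PT : ∀ s y, O.P s y = y → O.P (s + π) (O.T s y) = O.T s y
  TT : ∀ s y, O.P s y = y → O.T (s + π) (O.T s y) = y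
  per : ∀ s, O.P (s + 2 * π) = O.P s
  jr : ∀ s r y, 0 ≤ r → r ≤ 1 → O.P (s + r) y = y → ‖O.J s r y + (r : ℂ) • y‖ ≤ A * r ^ 2 * ‖y‖
  pr : ∀ s v, |s| ≤ 1 → O.P 0 v = v → ‖O.P s v - v‖ ≤ A * |s| * ‖v‖

/-- bump functions on the circle -/
structure Bmp (h : ℝ → ℝ) (ε : ℝ) : Prop where
  cont : Continuous h
  nonneg : ∀ s, 0 ≤ h s
  per : ∀ s, h (s + 2 * π) = h s
  supp : ∀ s, |s| ≤ π → ε ≤ |s| → h s = 0
  one : 0 < h 0

/-- the bump density with value `v` at `0` -/
def bmp (O : OD H) (h : ℝ → ℝ) (v : H) (s : ℝ) : H := (h s : ℂ) • O.P s v - (h (s - π) : ℂ) • O.T (s - π) (O.P (s - π) v)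

variable {O : OD H} {A ε : ℝ} {h : ℝ → ℝ} {v : H}

theorem Den_bmp (hO : Geo O A) (hh : Bmp h ε) (v : H) : O.Den (bmp O h v) := by
  refine ⟨?_, fun s => ?_, fun s => ?_⟩
  · unfold bmp
    have h1 : Continuous fun s => (h s : ℂ) := Complex.continuous_ofReal.comp hh.cont
    have h2 : Continuous fun s => (h (s - π) : ℂ) := h1.comp (continuous_id.sub continuous_const)
    have h3 : Continuous fun s => O.P s v := hO.contP.clm_apply continuous_const
    have h4 : Continuous fun s : ℝ => O.T (s - π) (O.P (s - π) v) :=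
      (hO.contT.clm_apply h3).comp (continuous_id.sub continuous_const)
    exact (h1.smul h3).sub (h2.smul h4)
  · unfold bmp
    have h1 := hO.PT (s - π) (O.P (s - π) v) (hO.PP _ _)
    rw [sub_add_cancel] at h1
    rw [map_sub, map_smul, map_smul, hO.PP, h1]
  · unfold bmp
    have h1 := hO.TT (s - π) (O.P (s - π) v) (hO.PP _ _)
    rw [sub_add_cancel] at h1
    have h2 : O.P (s + π) = O.P (s - π) := by
      have := hO.per (s - π)
      rw [show s - π + 2 * π = s + π by ring] at this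
      exact this
    have h3 : h (s + π) = h (s - π) := by
      have := hh.per (s - π)
      rw [show s - π + 2 * π = s + π by ring] at this
      exact this
    rw [add_sub_cancel_right, map_sub, map_smul, map_smul, h1, h2, h3]
    abel

/-- near `0` -/
theorem bmp_eq (hh : Bmp h ε) (hε1 : ε ≤ π / 4) {s : ℝ} (h1 : -(π / 2) ≤ s) (h2 : s ≤ 3 * π / 4) :
    bmp O h v s = (h s : ℂ) • O.P s v := by
  unfold bmp
  have hπ := pi_pos
  have h3 : h (s - π) = 0 := by
    rcases le_or_gt (-π) (s - π) with h4 | h4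
    · refine hh.supp _ ?_ ?_
      · rw [abs_le]
        constructor <;> linarith
      · rw [abs_of_nonpos (by linarith)]
        linarith
    · rw [← hh.per, show s - π + 2 * π = s + π by ring]
      refine hh.supp _ ?_ ?_
      · rw [abs_le]
        constructor <;> linarith
      · rw [abs_of_nonneg (by linarith)]
        linarith
  rw [h3]
  simp

/-- the constants -/
structure Small (A ε : ℝ) : Prop where
  pos : 0 < ε
  le : ε ≤ 1 / 8
  eA : A * ε ≤ 1 / 100

theorem Small.le_pi (h : Small A ε) : ε ≤ π / 4 := by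
  have := h.le
  linarith [pi_gt_three]

/-- the kernel of the bump near `0` -/
theorem vk_bmp (hO : Geo O A) (hh : Bmp h ε) (hs : Small A ε) (hv : O.P 0 v = v) {s r : ℝ} (h1 : -(π / 2) ≤ s) (h2 : s ≤ π / 2)
    (h3 : 0 ≤ r) (h4 : r ≤ π / 2) :
    ‖O.vk (bmp O h v) (bmp O h v) s r - ((r * ‖v‖ ^ 2 * (h s * h (s + r)) : ℝ) : ℂ)‖ ≤ (1 / 10) * (r * ‖v‖ ^ 2 * (h s * h (s + r))) := by
  have hπ := pi_pos
  have hp3 := pi_gt_three
  have he := hs.le
  have hA0 := hO.A0
  have e1 : bmp O h v s = (h s : ℂ) • O.P s v := bmp_eq hh hs.le_pi h1 (by linarith)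
  by_cases hc : h s * h (s + r) = 0
  · -- both sides vanish
    rw [hc, mul_zero, mul_zero, Complex.ofReal_zero, sub_zero]
    have h5 : O.vk (bmp O h v) (bmp O h v) s r = 0 := by
      unfold vk
      rw [e1]
      rcases mul_eq_zero.1 hc with h6 | h6
      · rw [h6]
        simp
      · by_cases h7 : |s| < ε
        · have h8 : bmp O h v (s + r) = (h (s + r) : ℂ) • O.P (s + r) v := by
            refine bmp_eq hh hs.le_pi ?_ ?_
            · have := neg_abs_le s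
              linarith
            · have := le_abs_self s
              linarith
          rw [h8, h6]
          simp
        · have h8 : h s = 0 := hh.supp s (by rw [abs_le]; constructor <;> linarith) (not_lt.1 h7)
          rw [h8]
          simp
    rw [h5]
    simp
  · have h5 : h s ≠ 0 := left_ne_zero_of_mul hc
    have h6 : h (s + r) ≠ 0 := right_ne_zero_of_mul hc
    have h7 : |s| < ε := by
      by_contra h8
      exact h5 (hh.supp s (by rw [abs_le]; constructor <;> linarith) (not_lt.1 h8))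
    have h7' := abs_lt.1 h7
    have h8 : |s + r| < ε := by
      by_contra h9
      exact h6 (hh.supp (s + r) (by rw [abs_le]; constructor <;> linarith [h7'.1, h7'.2]) (not_lt.1 h9))
    have h8' := abs_lt.1 h8
    have hr : r ≤ 2 * ε := by linarith
    have e2 : bmp O h v (s + r) = (h (s + r) : ℂ) • O.P (s + r) v :=
      bmp_eq hh hs.le_pi (by linarith [h7'.1]) (by linarith [h8'.2])
    obtain ⟨y, hy⟩ : ∃ y, y = O.P (s + r) v := ⟨_, rfl⟩
    obtain ⟨x, hx⟩ : ∃ x, x = O.P s v := ⟨_, rfl⟩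
    have hyv : ‖y - v‖ ≤ (1 / 100) * ‖v‖ := by
      have h9 := hO.pr (s + r) v (by linarith) hv
      rw [← hy] at h9
      have h10 : A * |s + r| ≤ 1 / 100 := (mul_le_mul_of_nonneg_left h8.le hA0).trans hs.eA
      exact h9.trans (mul_le_mul_of_nonneg_right h10 (norm_nonneg _))
    have hxv : ‖x - v‖ ≤ (1 / 100) * ‖v‖ := by
      have h9 := hO.pr s v (by linarith) hv
      rw [← hx] at h9
      have h10 : A * |s| ≤ 1 / 100 := (mul_le_mul_of_nonneg_left h7.le hA0).trans hs.eA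
      exact h9.trans (mul_le_mul_of_nonneg_right h10 (norm_nonneg _))
    have hv0 := norm_nonneg v
    have hyn : ‖y‖ ≤ (101 / 100) * ‖v‖ := by
      have h9 := norm_le_norm_add_norm_sub' y v
      linarith
    have hxn : ‖x‖ ≤ (101 / 100) * ‖v‖ := by
      have h9 := norm_le_norm_add_norm_sub' x v
      linarith
    have hj := hO.jr s r y h3 (by linarith) (by rw [hy, hO.PP])
    -- the main estimate
    have key : ‖-⟪O.J s r y, x⟫_ℂ - ((r * ‖v‖ ^ 2 : ℝ) : ℂ)‖ ≤ (1 / 10) * (r * ‖v‖ ^ 2) := by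
      have d1 : -⟪O.J s r y, x⟫_ℂ - ((r * ‖v‖ ^ 2 : ℝ) : ℂ) =
          -⟪O.J s r y + (r : ℂ) • y, x⟫_ℂ + (r : ℂ) * (⟪y - v, x⟫_ℂ + ⟪v, x - v⟫_ℂ) := by
        have d2 : ⟪v, v⟫_ℂ = ((‖v‖ ^ 2 : ℝ) : ℂ) := by
          rw [inner_self_eq_norm_sq_to_K]
          norm_cast
        rw [inner_add_left, inner_smul_left, inner_sub_left, inner_sub_right, d2, Complex.conj_ofReal]
        push_cast
        ring
      rw [d1]
      have d3 : ‖⟪O.J s r y + (r : ℂ) • y, x⟫_ℂ‖ ≤ (A * r ^ 2 * ‖y‖) * ‖x‖ :=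
        (norm_inner_le_norm _ _).trans (mul_le_mul_of_nonneg_right hj (norm_nonneg _))
      have d4 : ‖⟪y - v, x⟫_ℂ‖ ≤ (1 / 100 * ‖v‖) * ‖x‖ :=
        (norm_inner_le_norm _ _).trans (mul_le_mul_of_nonneg_right hyv (norm_nonneg _))
      have d5 : ‖⟪v, x - v⟫_ℂ‖ ≤ ‖v‖ * (1 / 100 * ‖v‖) :=
        (norm_inner_le_norm _ _).trans (mul_le_mul_of_nonneg_left hxv (norm_nonneg _))
      have d6 : ‖-⟪O.J s r y + (r : ℂ) • y, x⟫_ℂ + (r : ℂ) * (⟪y - v, x⟫_ℂ + ⟪v, x - v⟫_ℂ)‖ ≤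
          (A * r ^ 2 * ‖y‖) * ‖x‖ + r * ((1 / 100 * ‖v‖) * ‖x‖ + ‖v‖ * (1 / 100 * ‖v‖)) := by
        refine (norm_add_le _ _).trans ?_
        rw [norm_neg, norm_mul, Complex.norm_real, Real.norm_eq_abs, abs_of_nonneg h3]
        exact add_le_add d3 (mul_le_mul_of_nonneg_left ((norm_add_le _ _).trans (add_le_add d4 d5)) h3)
      refine d6.trans ?_
      have d7 : A * r ≤ 2 / 100 := by
        have := mul_le_mul_of_nonneg_left hr hA0
        linarith [hs.eA]
      have d8 : (A * r ^ 2 * ‖y‖) * ‖x‖ ≤ (2 / 100) * r * (((101 / 100) * ‖v‖) * ((101 / 100) * ‖v‖)) := by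
        have d9 : (A * r ^ 2 * ‖y‖) * ‖x‖ = (A * r) * r * (‖y‖ * ‖x‖) := by ring
        rw [d9]
        have d10 : ‖y‖ * ‖x‖ ≤ ((101 / 100) * ‖v‖) * ((101 / 100) * ‖v‖) :=
          mul_le_mul hyn hxn (norm_nonneg _) (by positivity)
        exact mul_le_mul (mul_le_mul_of_nonneg_right d7 h3) d10 (by positivity) (by positivity)
      have d11 : r * ((1 / 100 * ‖v‖) * ‖x‖ + ‖v‖ * (1 / 100 * ‖v‖)) ≤
          r * ((1 / 100 * ‖v‖) * ((101 / 100) * ‖v‖) + ‖v‖ * (1 / 100 * ‖v‖)) := by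
        refine mul_le_mul_of_nonneg_left ?_ h3
        have := mul_le_mul_of_nonneg_left hxn (by positivity : (0 : ℝ) ≤ 1 / 100 * ‖v‖)
        linarith
      have d12 : 0 ≤ r * ‖v‖ ^ 2 := by positivity
      nlinarith [d8, d11, d12]
    have e3 : O.vk (bmp O h v) (bmp O h v) s r = ((h s * h (s + r) : ℝ) : ℂ) * (-⟪O.J s r y, x⟫_ℂ) := by
      unfold vk
      rw [e1, e2, ← hy, ← hx, map_smul, inner_smul_left, inner_smul_right, Complex.conj_ofReal]
      push_cast
      ring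
    have e4 : O.vk (bmp O h v) (bmp O h v) s r - ((r * ‖v‖ ^ 2 * (h s * h (s + r)) : ℝ) : ℂ) =
        ((h s * h (s + r) : ℝ) : ℂ) * (-⟪O.J s r y, x⟫_ℂ - ((r * ‖v‖ ^ 2 : ℝ) : ℂ)) := by
      rw [e3]
      push_cast
      ring
    have h9 : 0 ≤ h s * h (s + r) := mul_nonneg (hh.nonneg _) (hh.nonneg _)
    rw [e4, norm_mul, Complex.norm_real, Real.norm_eq_abs, abs_of_nonneg h9]
    have h10 := mul_le_mul_of_nonneg_left key h9
    refine h10.trans (le_of_eq ?_)
    ring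

theorem re_ph_ge {μ r : ℝ} (h0 : 0 ≤ μ) (h1 : μ ≤ 1 / 2) (h2 : 0 ≤ r) (h3 : r ≤ π / 2) : 7 / 10 ≤ (ph μ r).re := by
  have hπ := pi_pos
  unfold ph
  rw [mul_comm, Complex.exp_ofReal_mul_I_re]
  have h4 : 0 ≤ μ * (π / 2 - r) := mul_nonneg h0 (by linarith)
  have h5 : μ * (π / 2 - r) ≤ π / 4 := by
    have h6 : μ * (π / 2 - r) ≤ 1 / 2 * (π / 2 - r) := mul_le_mul_of_nonneg_right h1 (by linarith)
    linarith
  have h6 : Real.cos (π / 4) ≤ Real.cos (μ * (π / 2 - r)) := Real.cos_le_cos_of_nonneg_of_le_pi h4 (by linarith) h5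
  rw [Real.cos_pi_div_four] at h6
  have h7 : (7 / 5 : ℝ) ≤ √2 := Real.le_sqrt_of_sq_le (by norm_num)
  linarith

/-- the correlation of the bump function -/
def cor (h : ℝ → ℝ) : ℝ := ∫ r in (0 : ℝ)..π / 2, r * ∫ s in (-(π / 2))..π / 2, h s * h (s + r)

/-- **the form of the bump density is positive** -/
theorem Fm_bmp (hO : Geo O A) (hh : Bmp h ε) (hs : Small A ε) (hv : O.P 0 v = v) {μ : ℝ} (h0 : 0 ≤ μ) (h1 : μ ≤ 1 / 2) :
    (1 / 2) * (cor h * ‖v‖ ^ 2) ≤ O.Fm μ (bmp O h v) (bmp O h v) := by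
  have hπ := pi_pos
  have hD := Den_bmp (v := v) hO hh
  obtain ⟨z, hz⟩ : ∃ z, z = bmp O h v := ⟨_, rfl⟩
  rw [← hz] at hD ⊢
  have hcont : Continuous fun r => (ph μ r * O.Gk z z r).re := cont_re_phG hD.cont hD.cont μ
  -- the second half
  have h2 : ∫ r in (0 : ℝ)..π, (ph μ r * O.Gk z z r).re = 2 * ∫ r in (0 : ℝ)..π / 2, (ph μ r * O.Gk z z r).re := by
    have h3 : ∫ r in (π / 2)..π, (ph μ r * O.Gk z z r).re = ∫ r in (0 : ℝ)..π / 2, (ph μ r * O.Gk z z r).re := by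
      have h4 : ∀ r, (ph μ (π - r) * O.Gk z z (π - r)).re = (ph μ r * O.Gk z z r).re := fun r => by
        rw [ph_refl, Gk_symm hD hD, ← map_mul, Complex.conj_re]
      have h5 := intervalIntegral.integral_comp_sub_left (fun r => (ph μ r * O.Gk z z r).re) π (a := 0) (b := π / 2)
      rw [sub_zero, show π - π / 2 = π / 2 by ring] at h5
      rw [← h5]
      exact intervalIntegral.integral_congr fun r _ => h4 r
    rw [← intervalIntegral.integral_add_adjacent_intervals (hcont.intervalIntegrable 0 (π / 2))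
      (hcont.intervalIntegrable (π / 2) π), h3]
    ring
  unfold Fm
  rw [h2]
  -- pointwise in `r`
  have hper : ∀ r, O.Gk z z r = ∫ s in (-(π / 2))..π / 2, O.vk z z s r := fun r => by
    unfold Gk
    have h4 := (vk_per hD hD r).intervalIntegral_add_eq (0 : ℝ) (-(π / 2))
    rw [zero_add, show -(π / 2) + π = π / 2 by ring] at h4
    exact h4
  have hcc : Continuous fun p : ℝ × ℝ => h p.1 * h (p.1 + p.2) :=
    (hh.cont.comp continuous_fst).mul (hh.cont.comp (continuous_fst.add continuous_snd))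
  have h5 : ∀ r ∈ Icc (0 : ℝ) (π / 2), (1 / 2) * (r * (∫ s in (-(π / 2))..π / 2, h s * h (s + r)) * ‖v‖ ^ 2) ≤
      (ph μ r * O.Gk z z r).re := by
    intro r hr
    have hc1 : Continuous fun s => ph μ r * O.vk z z s r := continuous_const.mul (cont_vk_s hD.cont hD.cont r)
    have e0 : ph μ r * ∫ s in (-(π / 2))..π / 2, O.vk z z s r = ∫ s in (-(π / 2))..π / 2, ph μ r * O.vk z z s r :=
      (intervalIntegral.integral_const_mul _ _).symm
    rw [hper r, e0, re_int hc1]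
    have e1 : (1 / 2) * (r * (∫ s in (-(π / 2))..π / 2, h s * h (s + r)) * ‖v‖ ^ 2) =
        ∫ s in (-(π / 2))..π / 2, (1 / 2) * (r * ‖v‖ ^ 2) * (h s * h (s + r)) := by
      rw [intervalIntegral.integral_const_mul]
      ring
    rw [e1]
    have hc2 : Continuous fun s => h s * h (s + r) := hh.cont.mul (hh.cont.comp (continuous_id.add continuous_const))
    refine intervalIntegral.integral_mono_on (by linarith) ((continuous_const.mul hc2).intervalIntegrable _ _)
      ((Complex.continuous_re.comp hc1).intervalIntegrable _ _) fun s hs' => ?_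
    show (1 / 2) * (r * ‖v‖ ^ 2) * (h s * h (s + r)) ≤ (ph μ r * O.vk z z s r).re
    obtain ⟨q, hq⟩ : ∃ q : ℝ, q = r * ‖v‖ ^ 2 * (h s * h (s + r)) := ⟨_, rfl⟩
    have hq0 : 0 ≤ q := by
      rw [hq]
      exact mul_nonneg (mul_nonneg hr.1 (sq_nonneg _)) (mul_nonneg (hh.nonneg _) (hh.nonneg _))
    have h6 := vk_bmp hO hh hs hv hs'.1 hs'.2 hr.1 hr.2
    rw [← hz, ← hq] at h6
    have h7 : (ph μ r * O.vk z z s r).re = (ph μ r).re * q + (ph μ r * (O.vk z z s r - (q : ℂ))).re := by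
      rw [mul_sub, Complex.sub_re, Complex.mul_re (ph μ r) (q : ℂ), Complex.ofReal_re, Complex.ofReal_im]
      ring
    have h8 : -((1 / 10) * q) ≤ (ph μ r * (O.vk z z s r - (q : ℂ))).re := by
      have h9 := Complex.abs_re_le_norm (ph μ r * (O.vk z z s r - (q : ℂ)))
      rw [norm_mul, norm_ph, one_mul] at h9
      exact (abs_le.1 (h9.trans h6)).1
    have h10 := re_ph_ge h0 h1 hr.1 hr.2
    have h11 : 7 / 10 * q ≤ (ph μ r).re * q := mul_le_mul_of_nonneg_right h10 hq0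
    rw [h7]
    have h12 : (1 / 2) * (r * ‖v‖ ^ 2) * (h s * h (s + r)) = (1 / 2) * q := by rw [hq]; ring
    rw [h12]
    linarith
  have hcr : Continuous fun r : ℝ => ∫ s in (-(π / 2))..π / 2, h s * h (s + r) :=
    intervalIntegral.continuous_parametric_intervalIntegral_of_continuous' (f := fun r s => h s * h (s + r))
      (hcc.comp continuous_swap) _ _
  have hc3 : Continuous fun r : ℝ => (1 / 2) * (r * (∫ s in (-(π / 2))..π / 2, h s * h (s + r)) * ‖v‖ ^ 2) :=
    continuous_const.mul ((continuous_id.mul hcr).mul continuous_const)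
  have i1 : IntervalIntegrable (fun r : ℝ => (1 / 2) * (r * (∫ s in (-(π / 2))..π / 2, h s * h (s + r)) * ‖v‖ ^ 2)) volume
      0 (π / 2) := hc3.intervalIntegrable _ _
  have i2 : IntervalIntegrable (fun r : ℝ => (ph μ r * O.Gk z z r).re) volume 0 (π / 2) := hcont.intervalIntegrable _ _
  have h6 := intervalIntegral.integral_mono_on (by linarith : (0 : ℝ) ≤ π / 2) i1 i2 h5
  have h7 : ∫ r in (0 : ℝ)..π / 2, (1 / 2) * (r * (∫ s in (-(π / 2))..π / 2, h s * h (s + r)) * ‖v‖ ^ 2) =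
      (1 / 2) * (cor h * ‖v‖ ^ 2) := by
    unfold cor
    rw [intervalIntegral.integral_const_mul, intervalIntegral.integral_mul_const]
  rw [h7] at h6
  linarith

/-- the norm of the bump density -/
theorem n2_bmp (hO : Geo O A) (hh : Bmp h ε) (hs : Small A ε) (hv : O.P 0 v = v) :
    n2 (bmp O h v) ≤ 2 * ((∫ s in (-(π / 2))..π / 2, h s ^ 2) * ‖v‖ ^ 2) := by
  have hπ := pi_pos
  have hp3 := pi_gt_three
  have he := hs.le
  have hD := Den_bmp (v := v) hO hh
  have h1 : n2 (bmp O h v) = ∫ s in (-(π / 2))..π / 2, ‖bmp O h v s‖ ^ 2 := by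
    unfold n2
    have h3 : Function.Periodic (fun s => ‖bmp O h v s‖ ^ 2) π := fun s => by
      show ‖bmp O h v (s + π)‖ ^ 2 = _
      rw [show ‖bmp O h v (s + π)‖ = ‖bmp O h v s‖ from hD.norm_per s]
    have h4 := h3.intervalIntegral_add_eq (0 : ℝ) (-(π / 2))
    rw [zero_add, show -(π / 2) + π = π / 2 by ring] at h4
    exact h4
  have h2 : 2 * ((∫ s in (-(π / 2))..π / 2, h s ^ 2) * ‖v‖ ^ 2) = ∫ s in (-(π / 2))..π / 2, (2 * ‖v‖ ^ 2) * h s ^ 2 := by
    rw [intervalIntegral.integral_const_mul]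
    ring
  rw [h1, h2]
  refine intervalIntegral.integral_mono_on (by linarith) ((hD.cont.norm.pow 2).intervalIntegrable _ _)
    ((continuous_const.mul (hh.cont.pow 2)).intervalIntegrable _ _) fun s hs' => ?_
  rw [bmp_eq hh hs.le_pi hs'.1 (by linarith [hs'.2]), norm_smul, Complex.norm_real, Real.norm_eq_abs, mul_pow, sq_abs]
  by_cases h3 : |s| < ε
  · have h4 := hO.pr s v (by linarith) hv
    have h5 : A * |s| ≤ 1 / 100 := (mul_le_mul_of_nonneg_left h3.le hO.A0).trans hs.eA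
    have h6 : ‖O.P s v - v‖ ≤ 1 / 100 * ‖v‖ := h4.trans (mul_le_mul_of_nonneg_right h5 (norm_nonneg _))
    have h7 : ‖O.P s v‖ ≤ (101 / 100) * ‖v‖ := by
      have h9 := norm_le_norm_add_norm_sub' (O.P s v) v
      linarith
    have h8 : ‖O.P s v‖ ^ 2 ≤ 2 * ‖v‖ ^ 2 := by
      have h9 : ‖O.P s v‖ ^ 2 ≤ ((101 / 100) * ‖v‖) ^ 2 := pow_le_pow_left₀ (norm_nonneg _) h7 2
      nlinarith [sq_nonneg ‖v‖]
    have h9 := mul_le_mul_of_nonneg_left h8 (sq_nonneg (h s))
    linarith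
  · have h4 : h s = 0 := hh.supp s (by rw [abs_le]; constructor <;> linarith [hs'.1, hs'.2]) (not_lt.1 h3)
    rw [h4]
    simp

/-- the pairing with the bump density -/
theorem Fm_bmp_left (hO : Geo O A) (hh : Bmp h ε) (hs : Small A ε) {z : ℝ → H} (hz : O.Den z) {μ : ℝ} (hv : v = O.Hm μ z 0)
    (hn : ∀ s, |s| ≤ ε → ‖O.Hm μ z s - v‖ ≤ (1 / 4) * ‖v‖) :
    (1 / 2) * ((∫ s in (-(π / 2))..π / 2, h s) * ‖v‖ ^ 2) ≤ O.Fm μ (bmp O h v) z := by
  have hπ := pi_pos
  have hp3 := pi_gt_three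
  have hD := Den_bmp (v := v) hO hh
  have hH := Den_Hm hz μ
  rw [Fm_eq hD.cont hz.cont]
  have h1 : ∫ s in (0 : ℝ)..π, (⟪O.Hm μ z s, bmp O h v s⟫_ℂ).re = ∫ s in (-(π / 2))..π / 2, (⟪O.Hm μ z s, bmp O h v s⟫_ℂ).re := by
    have h3 : Function.Periodic (fun s => (⟪O.Hm μ z s, bmp O h v s⟫_ℂ).re) π := fun s => by
      show (⟪O.Hm μ z (s + π), bmp O h v (s + π)⟫_ℂ).re = _
      rw [hH.odd, hD.odd, inner_neg_neg, O.inT _ _ _ (hH.mem s) (hD.mem s)]
    have h4 := h3.intervalIntegral_add_eq (0 : ℝ) (-(π / 2))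
    rw [zero_add, show -(π / 2) + π = π / 2 by ring] at h4
    exact h4
  rw [h1]
  have h2 : (1 / 2) * ((∫ s in (-(π / 2))..π / 2, h s) * ‖v‖ ^ 2) = ∫ s in (-(π / 2))..π / 2, ((1 / 2) * ‖v‖ ^ 2) * h s := by
    rw [intervalIntegral.integral_const_mul]
    ring
  rw [h2]
  refine intervalIntegral.integral_mono_on (by linarith) ((continuous_const.mul hh.cont).intervalIntegrable _ _)
    ((Complex.continuous_re.comp (hH.cont.inner hD.cont)).intervalIntegrable _ _) fun s hs' => ?_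
  show ((1 / 2) * ‖v‖ ^ 2) * h s ≤ (⟪O.Hm μ z s, bmp O h v s⟫_ℂ).re
  have he := hs.le
  rw [bmp_eq hh hs.le_pi hs'.1 (by linarith [hs'.2]), inner_smul_right, ← hO.sym, hH.mem s]
  by_cases h3 : |s| < ε
  · have h4 : (((h s : ℝ) : ℂ) * ⟪O.Hm μ z s, v⟫_ℂ).re = h s * (‖v‖ ^ 2 + (⟪O.Hm μ z s - v, v⟫_ℂ).re) := by
      have h5 : (⟪v, v⟫_ℂ).re = ‖v‖ ^ 2 := by
        rw [inner_self_eq_norm_sq_to_K]
        norm_cast
      rw [Complex.re_ofReal_mul, inner_sub_left, Complex.sub_re, h5]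
      ring
    rw [h4]
    have h6 : |(⟪O.Hm μ z s - v, v⟫_ℂ).re| ≤ (1 / 4) * ‖v‖ * ‖v‖ :=
      ((Complex.abs_re_le_norm _).trans (norm_inner_le_norm _ _)).trans
        (mul_le_mul_of_nonneg_right (hn s h3.le) (norm_nonneg _))
    have h7 := (abs_le.1 h6).1
    have h8 : (1 / 2) * ‖v‖ ^ 2 ≤ ‖v‖ ^ 2 + (⟪O.Hm μ z s - v, v⟫_ℂ).re := by nlinarith [sq_nonneg ‖v‖]
    have h9 := mul_le_mul_of_nonneg_left h8 (hh.nonneg s)
    linarith
  · have h4 : h s = 0 := hh.supp s (by rw [abs_le]; constructor <;> linarith [hs'.1, hs'.2]) (not_lt.1 h3)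
    rw [h4]
    simp

end OD

end Pool.Agent.Lib.MP_ccbbf6_gt.K7.GG
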