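import Pool.Agent.Lib.MP_ccbbf6_gt.K7.DP4
import Pool.Agent.Lib.MP_ccbbf6_gt.K7.DP5
import Pool.Agent.Lib.MP_ccbbf6_gt.K7.DP6a
import Pool.Agent.Lib.MP_ccbbf6_gt.K7.GJ2

/-!
# `κ = 7`, block F, density path, DP10a: bumps of small support are close to rotations of arcs (helper91)
-/

set_option autoImplicit false
set_option linter.unusedSectionVars false

open Set Filter Topology Metric Real Module
open scoped ContDiff RealInnerProductSpace

noncomputable section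

namespace Pool.Agent.Lib.MP_ccbbf6_gt.K7.DP

open L4 Geo L4.ORI L5 L5.NEG RG HQ GG

variable {n : ℕ} {M : Type} [MetricSpace M] [CompactSpace M] {𝒜 : SDist n M} [Nonempty (Gs M)]

/-- the rotation vectors of the arcs -/
def rv (k0 k1 k2 : Eu n) : Fin 4 → Eu n := ![-k0 + k2, k0 - k1, -k0 - k2, k0 + k1]

/-- the real density of the bumps with values `y0` (4-gon part) and `y1 + i y2` (twisted part) -/
def Yb (t : TEmb 𝒜) (hB : Bl M) (e : Emb n 𝒜) {κ : ℕ} (hk : 𝒜.HK κ) (h : ℝ → ℝ) (c : Gs M) (y0 y1 y2 : HR t.D) (s : ℝ) : HR t.D :=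
  reH t.D (OD.bmp (orb t hB e hk c).od h (cx t.D y0) s) +
    reH t.D (RD.tw (1 / 2) (OD.bmp (orb t hB e hk c).od h (cx t.D y1 + Complex.I • cx t.D y2)) s)

/-! ### the kernel without projection -/

section kernel

variable (t : TEmb 𝒜) (hB : Bl M)

/-- the kernel on `R^D` without the last projection -/
def Jn (c : Gs M) (b : ℝ) : HR t.D →L[ℝ] HR t.D :=
  (tI t (c.1 0)).comp ((JL 𝒜 hB c b).comp ((Hc 𝒜 (shift b c)).comp (tA t ((shift b c).1 0))))

theorem Jn_apply (c : Gs M) (b : ℝ) (y : HR t.D) : Jn t hB c b y =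
    tI t (c.1 0) (JG 𝒜 hB c b (Hc 𝒜 (shift b c) (tA t ((shift b c).1 0) y))) := rfl

theorem Jn_smooth {κ : ℕ} (hk : 𝒜.HK κ) {F : Type} [NormedAddCommGroup F] [NormedSpace ℝ F] {σ : F → Gs M} {b : F → ℝ} {u : F}
    (hσ : SmGAt 𝒜 σ u) (hb : ContDiffAt ℝ ∞ b u) : ContDiffAt ℝ ∞ (fun v => Jn t hB (σ v) (b v)) u := by
  refine contDiffAt_clm_apply_iff.2 fun y => ?_
  have hs : SmGAt 𝒜 (fun v => shift (b v) (σ v)) u := hσ.shift hB hb
  have h1 : SmV 𝒜 ((shift (b u) (σ u)).1 0) (fun v => (shift (b v) (σ v)).1 0)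
      (fun v => tA t ((shift (b v) (σ v)).1 0) y) u := smV_tA t hs.1 (𝒜.mem _) contDiffAt_const
  have h2 := smV_Hc hB hk hs (𝒜.mem _) h1
  have h3 := smV_JG hB hσ hb (𝒜.mem ((σ u).1 0)) (𝒜.mem _) h2
  exact sm_tI t hσ.1 (𝒜.mem _) h3

theorem cont_Jn (e : Emb n 𝒜) {κ : ℕ} (hk : 𝒜.HK κ) : Continuous fun z : Gs M × ℝ => Jn t hB z.1 z.2 :=
  cont_of_smooth hB e (f := fun c r => Jn t hB c r) fun _ _ _ hσ hx => Jn_smooth t hB hk hσ hx

theorem Jn_per (c : Gs M) (b : ℝ) : Jn t hB c (b + 2 * π) = Jn t hB c b := by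
  ext1 y
  rw [Jn_apply, Jn_apply, gs_shift_per 𝒜 hB, JG_per]

/-- the kernel for the point `c θ` and the rotations about `c s` -/
def GM (θ : ℝ) (c : Gs M) (s : ℝ) : HR t.D →L[ℝ] HR t.D := Jn t hB (shift θ c) (s - θ)

theorem cont_GM (e : Emb n 𝒜) {κ : ℕ} (hk : 𝒜.HK κ) (θ : ℝ) : Continuous fun z : Gs M × ℝ => GM t hB θ z.1 z.2 :=
  (cont_Jn t hB e hk).comp (((gs_continuous_shift.comp (Continuous.prodMk_right θ)).comp continuous_fst).prodMk
    (continuous_snd.sub continuous_const))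

theorem GM_per (θ : ℝ) (c : Gs M) (s : ℝ) : GM t hB θ c (s + 2 * π) = GM t hB θ c s := by
  unfold GM
  rw [show s + 2 * π - θ = s - θ + 2 * π by ring, Jn_per]

theorem GM_per_nat (θ : ℝ) (c : Gs M) (s : ℝ) (l : ℕ) : GM t hB θ c (s + l * (2 * π)) = GM t hB θ c s := by
  induction l with
  | zero => simp
  | succ l ih => rw [show s + ((l + 1 : ℕ) : ℝ) * (2 * π) = s + l * (2 * π) + 2 * π by push_cast; ring, GM_per, ih]

theorem GM_apply (θ : ℝ) (c : Gs M) (s : ℝ) (y : HR t.D) : GM t hB θ c s y =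
    tI t (c.1 θ) (JG 𝒜 hB (shift θ c) (s - θ) (Hc 𝒜 (shift s c) (tA t (c.1 s) y))) := by
  have e1 : (shift θ c).1 0 = c.1 θ := by
    show c.1 (0 + θ) = c.1 θ
    rw [zero_add]
  have e2 : shift (s - θ) (shift θ c) = shift s c := by rw [← shift_add, sub_add_cancel]
  have e3 : (shift s c).1 0 = c.1 s := by
    show c.1 (0 + s) = c.1 s
    rw [zero_add]
  unfold GM
  rw [Jn_apply, e2, e1, e3]

end kernel

/-! ### the bump density -/

/-- the direction at time `s` -/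
def ab {D : ℕ} (y0 y1 y2 : HR D) (s : ℝ) : HR D := y0 + Real.cos (s / 2) • y1 - Real.sin (s / 2) • y2

theorem reH_tw {D : ℕ} (z : ℝ → HC D) (s : ℝ) :
    reH D (RD.tw (1 / 2) z s) = Real.cos (s / 2) • reH D (z s) - Real.sin (s / 2) • imH D (z s) := by
  unfold RD.tw
  have h1 : Complex.I * (((1 / 2 : ℝ) * s : ℝ) : ℂ) = ((s / 2 : ℝ) : ℂ) * Complex.I := by
    push_cast
    ring
  rw [h1, reH_smul, Complex.exp_ofReal_mul_I_re, Complex.exp_ofReal_mul_I_im]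

theorem Yb_eq (t : TEmb 𝒜) (hB : Bl M) (e : Emb n 𝒜) {κ : ℕ} (hk : 𝒜.HK κ) (h : ℝ → ℝ) (c : Gs M) (y0 y1 y2 : HR t.D) (s : ℝ) :
    Yb t hB e hk h c y0 y1 y2 s = h s • Pr t (shift s c) (ab y0 y1 y2 s) -
      h (s - π) • Tr t hB (shift (s - π) c) (Pr t (shift (s - π) c) (ab y0 y1 y2 s)) := by
  have hre : ∀ v : HC t.D, reH t.D (OD.bmp (orb t hB e hk c).od h v s) = h s • Pr t (shift s c) (reH t.D v) -
      h (s - π) • Tr t hB (shift (s - π) c) (Pr t (shift (s - π) c) (reH t.D v)) := fun v => by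
    show reH t.D ((h s : ℂ) • cxL t.D (Pr t (shift s c)) v - (h (s - π) : ℂ) •
      cxL t.D (Tr t hB (shift (s - π) c)) (cxL t.D (Pr t (shift (s - π) c)) v)) = _
    rw [map_sub, reH_smul, reH_smul, Complex.ofReal_re, Complex.ofReal_im, Complex.ofReal_re, Complex.ofReal_im, zero_smul,
      zero_smul, sub_zero, sub_zero, reH_cxL, reH_cxL, reH_cxL]
  have him : ∀ v : HC t.D, imH t.D (OD.bmp (orb t hB e hk c).od h v s) = h s • Pr t (shift s c) (imH t.D v) -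
      h (s - π) • Tr t hB (shift (s - π) c) (Pr t (shift (s - π) c) (imH t.D v)) := fun v => by
    show imH t.D ((h s : ℂ) • cxL t.D (Pr t (shift s c)) v - (h (s - π) : ℂ) •
      cxL t.D (Tr t hB (shift (s - π) c)) (cxL t.D (Pr t (shift (s - π) c)) v)) = _
    rw [map_sub, imH_smul, imH_smul, Complex.ofReal_re, Complex.ofReal_im, Complex.ofReal_re, Complex.ofReal_im, zero_smul,
      zero_smul, zero_add, zero_add, imH_cxL, imH_cxL, imH_cxL]
  unfold Yb ab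
  rw [reH_tw, hre, hre, him, reH_cx, reH_mk, imH_mk]
  simp only [map_add, map_sub, map_smul]
  module

/-- the velocities of the bump density -/
theorem vel_Yb (t : TEmb 𝒜) (hB : Bl M) (e : Emb n 𝒜) {κ : ℕ} (hk : 𝒜.HK κ) (h : ℝ → ℝ) (c : Gs M) (y0 y1 y2 : HR t.D) (θ b : ℝ) :
    JG 𝒜 hB (shift θ c) b (tA t ((shift b (shift θ c)).1 0) (Yb t hB e hk h c y0 y1 y2 (θ + b))) =
      tA t (c.1 θ) (h (θ + b) • GM t hB θ c (θ + b) (ab y0 y1 y2 (θ + b)) -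
        h (θ + b - π) • GM t hB θ c (θ + b - π) (ab y0 y1 y2 (θ + b))) := by
  obtain ⟨s, hs⟩ : ∃ s, s = θ + b := ⟨_, rfl⟩
  obtain ⟨a, ha⟩ : ∃ a, a = ab y0 y1 y2 (θ + b) := ⟨_, rfl⟩
  have hb : b = s - θ := by rw [hs]; ring
  have e1 : shift b (shift θ c) = shift s c := by rw [shift_comm', hs]
  have e3 : ∀ r : ℝ, (shift r c).1 0 = c.1 r := fun r => by
    show c.1 (0 + r) = c.1 r
    rw [zero_add]
  have e4 : shift π (shift (s - π) c) = shift s c := by rw [← shift_add]; congr 1; ring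
  rw [Yb_eq, ← ha, e1, ← hs, map_sub, map_smul, map_smul, map_sub, map_smul, map_smul, GM_apply, GM_apply, tA_tI, tA_tI]
  rw [Pr_apply, Pr_apply, Tr_apply, e4, tA_tI, tA_tI, tA_tI, e3, e3]
  have e5 : shift (s - π - θ) (shift θ c) = shift (s - π) c := by rw [← shift_add, sub_add_cancel]
  have h1 := JG_top (𝒜 := 𝒜) hB (shift θ c) (s - π - θ) (y := Hc 𝒜 (shift (s - π) c) (tA t (c.1 (s - π)) a))
    (by rw [e5]; exact Hc_mem _ _)
  rw [e5, show s - π - θ + π = s - θ by ring] at h1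
  rw [Hc_of_mem (Hc_mem _ _), hb, ← JL_apply, map_sub, map_smul, map_smul, JL_apply, JL_apply, h1]

/-- the integrand of the velocity of the bump density, in `R^D` -/
def Ph (t : TEmb 𝒜) (hB : Bl M) (h : ℝ → ℝ) (θ : ℝ) (c : Gs M) (y0 y1 y2 : HR t.D) (s : ℝ) : HR t.D :=
  h s • GM t hB θ c s (ab y0 y1 y2 s) - h (s - π) • GM t hB θ c (s - π) (ab y0 y1 y2 s)

theorem cont_GMs (t : TEmb 𝒜) (hB : Bl M) (e : Emb n 𝒜) {κ : ℕ} (hk : 𝒜.HK κ) (θ : ℝ) (c : Gs M) :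
    Continuous fun s => GM t hB θ c s := (cont_GM t hB e hk θ).comp (Continuous.prodMk_right c)

theorem cont_ab {D : ℕ} (y0 y1 y2 : HR D) : Continuous (ab y0 y1 y2) := by
  unfold ab
  fun_prop

theorem cont_Ph (t : TEmb 𝒜) (hB : Bl M) (e : Emb n 𝒜) {κ : ℕ} (hk : 𝒜.HK κ) {h : ℝ → ℝ} (hh : Continuous h) (θ : ℝ) (c : Gs M)
    (y0 y1 y2 : HR t.D) : Continuous (Ph t hB h θ c y0 y1 y2) := by
  unfold Ph
  have h1 : Continuous fun s : ℝ => s - π := continuous_id.sub continuous_const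
  have h2 := cont_GMs t hB e hk θ c
  have h3 := cont_ab y0 y1 y2
  exact (hh.smul (h2.clm_apply h3)).sub ((hh.comp h1).smul ((h2.comp h1).clm_apply h3))

/-- the velocities of the 8-gon of the bump density -/
theorem XE_Yb (t : TEmb 𝒜) (hB : Bl M) (e : Emb n 𝒜) {κ : ℕ} (hk : 𝒜.HK κ) {h : ℝ → ℝ} (hh : Continuous h) (c : Gs M)
    (y0 y1 y2 : HR t.D) (i : ZMod 8) : XE t hB c (Yb t hB e hk h c y0 y1 y2) i =
      tA t (b8 c i) (∫ b in (0 : ℝ)..π, Ph t hB h (t8 i) c y0 y1 y2 (t8 i + b)) := by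
  unfold XE
  have h1 : Continuous fun b => Ph t hB h (t8 i) c y0 y1 y2 (t8 i + b) :=
    (cont_Ph t hB e hk hh (t8 i) c y0 y1 y2).comp (continuous_const.add continuous_id)
  rw [← ContinuousLinearMap.intervalIntegral_comp_comm _ (h1.intervalIntegrable _ _)]
  refine intervalIntegral.integral_congr fun b _ => ?_
  exact vel_Yb t hB e hk h c y0 y1 y2 (t8 i) b

/-! ### the windows -/

/-- the number of the corner in the window -/
def cn (i : ZMod 8) : ℕ := i.val / 2 + 1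

theorem t8_bd (i : ZMod 8) : -(3 * π / 4) ≤ t8 i - cn i * π ∧ t8 i - cn i * π ≤ -(π / 4) := by
  have hπ := pi_pos
  unfold t8 cn
  have h1 : i.val = 2 * (i.val / 2) + i.val % 2 := by omega
  have h2 : i.val % 2 < 2 := Nat.mod_lt _ (by norm_num)
  obtain ⟨q, hq⟩ : ∃ q, q = i.val / 2 := ⟨_, rfl⟩
  obtain ⟨r, hr⟩ : ∃ r, r = i.val % 2 := ⟨_, rfl⟩
  rw [← hq, ← hr] at h1
  rw [← hr] at h2
  rw [← hq, h1]
  have h3 : (r : ℝ) ≤ 1 := by exact_mod_cast (by omega : r ≤ 1)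
  have h4 : (0 : ℝ) ≤ r := Nat.cast_nonneg _
  push_cast
  constructor <;> nlinarith

theorem bmp_shift {h : ℝ → ℝ} {ε : ℝ} (hh : OD.Bmp h ε) (s : ℝ) (l : ℕ) : h (s + l * (2 * π)) = h s := by
  induction l with
  | zero => simp
  | succ l ih => rw [show s + ((l + 1 : ℕ) : ℝ) * (2 * π) = s + l * (2 * π) + 2 * π by push_cast; ring, hh.per, ih]

/-- `h` vanishes near `π` -/
theorem bmp_pi {h : ℝ → ℝ} {ε : ℝ} (hh : OD.Bmp h ε) (hε : ε ≤ π / 4) {s : ℝ} (h1 : |s| ≤ 3 * π / 4) : h (s + π) = 0 := by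
  have hπ := pi_pos
  have h2 := abs_le.1 h1
  rcases le_total s 0 with h3 | h3
  · refine hh.supp _ ?_ ?_
    · rw [abs_le]
      constructor <;> linarith
    · rw [abs_of_nonneg (by linarith)]
      linarith
  · rw [← hh.per, show s + π + 2 * π = (s - π) + 2 * π + 2 * π by ring, hh.per, hh.per]
    refine hh.supp _ ?_ ?_
    · rw [abs_le]
      constructor <;> linarith
    · rw [abs_of_nonpos (by linarith)]
      linarith

/-- the integrand on the window -/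
theorem Ph_window (t : TEmb 𝒜) (hB : Bl M) {h : ℝ → ℝ} {ε : ℝ} (hh : OD.Bmp h ε) (hε : ε ≤ π / 4) (θ : ℝ) (c : Gs M)
    (y0 y1 y2 : HR t.D) (m : ℕ) {s : ℝ} (hs : |s| ≤ 3 * π / 4) : Ph t hB h θ c y0 y1 y2 (s + m * π) =
      h s • GM t hB θ c s ((-1 : ℝ) ^ m • ab y0 y1 y2 (s + m * π)) := by
  unfold Ph
  rcases Nat.even_or_odd' m with ⟨l, hl | hl⟩
  · have e1 : s + (m : ℝ) * π = s + l * (2 * π) := by rw [hl]; push_cast; ring
    have e2 : h (s + (m : ℝ) * π - π) = 0 := by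
      rw [show s + (m : ℝ) * π - π = s - π + l * (2 * π) by rw [e1]; ring, bmp_shift hh, ← hh.per, show s - π + 2 * π = s + π by ring]
      exact bmp_pi hh hε hs
    have e3 : (-1 : ℝ) ^ m = 1 := by rw [hl, pow_mul]; norm_num
    rw [e2, zero_smul, sub_zero, e3, one_smul, e1, bmp_shift hh, GM_per_nat]
  · have e1 : s + (m : ℝ) * π = s + π + l * (2 * π) := by rw [hl]; push_cast; ring
    have e4 : s + (m : ℝ) * π - π = s + l * (2 * π) := by rw [e1]; ring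
    have e3 : (-1 : ℝ) ^ m = -1 := by rw [hl, pow_add, pow_mul]; norm_num
    have e5 : h (s + (m : ℝ) * π) = 0 := by rw [e1, bmp_shift hh]; exact bmp_pi hh hε hs
    rw [e5, zero_smul, zero_sub, e3, neg_one_smul, map_neg, smul_neg, e4, bmp_shift hh, GM_per_nat]

/-- the integral over the window -/
theorem int_Ph (t : TEmb 𝒜) (hB : Bl M) {h : ℝ → ℝ} {ε : ℝ} (hh : OD.Bmp h ε) (hε : ε ≤ π / 4) (c : Gs M)
    (y0 y1 y2 : HR t.D) (i : ZMod 8) : ∫ b in (0 : ℝ)..π, Ph t hB h (t8 i) c y0 y1 y2 (t8 i + b) =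
      ∫ s in (t8 i - cn i * π)..(t8 i - cn i * π + π), h s • GM t hB (t8 i) c s ((-1 : ℝ) ^ cn i • ab y0 y1 y2 (s + cn i * π)) := by
  have hπ := pi_pos
  have h1 := intervalIntegral.integral_comp_add_right (fun b => Ph t hB h (t8 i) c y0 y1 y2 (t8 i + b)) (cn i * π - t8 i)
    (a := t8 i - cn i * π) (b := t8 i - cn i * π + π)
  rw [show t8 i - (cn i : ℝ) * π + (cn i * π - t8 i) = 0 by ring, show t8 i - (cn i : ℝ) * π + π + (cn i * π - t8 i) = π by ring] at h1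
  rw [← h1]
  obtain ⟨h2, h3⟩ := t8_bd i
  refine intervalIntegral.integral_congr fun s hs => ?_
  rw [uIcc_of_le (by linarith)] at hs
  show Ph t hB h (t8 i) c y0 y1 y2 (t8 i + (s + (cn i * π - t8 i))) = _
  rw [show t8 i + (s + ((cn i : ℝ) * π - t8 i)) = s + cn i * π by ring]
  refine Ph_window t hB hh hε (t8 i) c y0 y1 y2 (cn i) ?_
  rw [abs_le]
  constructor <;> linarith [hs.1, hs.2]

/-- mass of the bump -/
theorem int_bmp {h : ℝ → ℝ} {ε : ℝ} (hh : OD.Bmp h ε) {a b : ℝ} (ha : -π ≤ a) (ha' : a ≤ -ε) (hb : ε ≤ b) (hb' : b ≤ π)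
    (h0 : 0 ≤ ε) : ∫ s in a..b, h s = ∫ s in (-ε)..ε, h s := by
  have i1 : ∀ a b : ℝ, IntervalIntegrable h MeasureTheory.volume a b := fun a b => hh.cont.intervalIntegrable _ _
  have z1 : ∫ s in a..(-ε), h s = 0 := by
    rw [intervalIntegral.integral_congr (g := fun _ => 0), intervalIntegral.integral_zero]
    intro s hs
    rw [uIcc_of_le ha'] at hs
    exact hh.supp s (by rw [abs_le]; constructor <;> linarith [hs.1, hs.2]) (by rw [abs_of_nonpos (by linarith [hs.2])]; linarith [hs.2])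
  have z2 : ∫ s in ε..b, h s = 0 := by
    rw [intervalIntegral.integral_congr (g := fun _ => 0), intervalIntegral.integral_zero]
    intro s hs
    rw [uIcc_of_le hb] at hs
    exact hh.supp s (by rw [abs_le]; constructor <;> linarith [hs.1, hs.2]) (by rw [abs_of_nonneg (by linarith [hs.1])]; linarith [hs.1])
  rw [← intervalIntegral.integral_add_adjacent_intervals (i1 a (-ε)) (i1 (-ε) b),
    ← intervalIntegral.integral_add_adjacent_intervals (i1 (-ε) ε) (i1 ε b), z1, z2, zero_add, add_zero]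

/-! ### uniform estimates -/

theorem unif0 {E : Type*} [NormedAddCommGroup E] {Φ : Gs M → ℝ → E} (h : Continuous fun z : Gs M × ℝ => Φ z.1 z.2) {η : ℝ}
    (hη : 0 < η) : ∀ᶠ s in 𝓝 (0 : ℝ), ∀ c, ‖Φ c s - Φ c 0‖ < η := by
  have h1 := (isCompact_univ (X := Gs M)).eventually_forall_of_forall_eventually (x₀ := (0 : ℝ))
    (P := fun s c => ‖Φ c s - Φ c 0‖ < η) ?_
  · exact h1.mono fun s hs c => hs c (mem_univ c)
  · intro c _
    have h2 : Continuous fun z : ℝ × Gs M => ‖Φ z.2 z.1 - Φ z.2 0‖ :=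
      ((h.comp (continuous_snd.prodMk continuous_fst)).sub (h.comp (continuous_snd.prodMk continuous_const))).norm
    have h3 : (fun z : ℝ × Gs M => ‖Φ z.2 z.1 - Φ z.2 0‖) (0, c) < η := by
      show ‖Φ c 0 - Φ c 0‖ < η
      rw [sub_self, norm_zero]
      exact hη
    exact h2.continuousAt.eventually (gt_mem_nhds h3)

theorem est (t : TEmb 𝒜) (hB : Bl M) (e : Emb n 𝒜) {κ : ℕ} (hk : 𝒜.HK κ) {η : ℝ} (hη : 0 < η) :
    ∃ δ : ℝ, 0 < δ ∧ ∀ s, |s| < δ → ∀ (i : ZMod 8) (c : Gs M) (y0 y1 y2 : HR t.D),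
      ‖GM t hB (t8 i) c s ((-1 : ℝ) ^ cn i • ab y0 y1 y2 (s + cn i * π)) -
        GM t hB (t8 i) c 0 ((-1 : ℝ) ^ cn i • ab y0 y1 y2 (0 + cn i * π))‖ ≤ η * (‖y0‖ + ‖y1‖ + ‖y2‖) := by
  have h1 : ∀ᶠ s in 𝓝 (0 : ℝ), ∀ i : ZMod 8, ∀ c : Gs M, ‖GM t hB (t8 i) c s - GM t hB (t8 i) c 0‖ < η ∧
      ‖Real.cos ((s + cn i * π) / 2) • GM t hB (t8 i) c s - Real.cos ((0 + cn i * π) / 2) • GM t hB (t8 i) c 0‖ < η ∧
      ‖Real.sin ((s + cn i * π) / 2) • GM t hB (t8 i) c s - Real.sin ((0 + cn i * π) / 2) • GM t hB (t8 i) c 0‖ < η := by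
    rw [eventually_all]
    intro i
    have c0 := cont_GM t hB e hk (t8 i)
    have d1 : Continuous fun z : Gs M × ℝ => Real.cos ((z.2 + cn i * π) / 2) := by fun_prop
    have d2 : Continuous fun z : Gs M × ℝ => Real.sin ((z.2 + cn i * π) / 2) := by fun_prop
    have c1 : Continuous fun z : Gs M × ℝ => Real.cos ((z.2 + cn i * π) / 2) • GM t hB (t8 i) z.1 z.2 := d1.smul c0
    have c2 : Continuous fun z : Gs M × ℝ => Real.sin ((z.2 + cn i * π) / 2) • GM t hB (t8 i) z.1 z.2 := d2.smul c0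
    have u0 := unif0 (Φ := fun c s => GM t hB (t8 i) c s) c0 hη
    have u1 := unif0 (Φ := fun c s => Real.cos ((s + cn i * π) / 2) • GM t hB (t8 i) c s) c1 hη
    have u2 := unif0 (Φ := fun c s => Real.sin ((s + cn i * π) / 2) • GM t hB (t8 i) c s) c2 hη
    filter_upwards [u0, u1, u2] with s h0 h1 h2 c
    exact ⟨h0 c, h1 c, h2 c⟩
  obtain ⟨δ, hδ, h2⟩ := Metric.eventually_nhds_iff.1 h1
  refine ⟨δ, hδ, fun s hs i c y0 y1 y2 => ?_⟩
  obtain ⟨h3, h4, h5⟩ := h2 (by rw [Real.dist_eq, sub_zero]; exact hs) i c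
  have hex : ∀ r : ℝ, GM t hB (t8 i) c r ((-1 : ℝ) ^ cn i • ab y0 y1 y2 (r + cn i * π)) = (-1 : ℝ) ^ cn i •
      (GM t hB (t8 i) c r y0 + (Real.cos ((r + cn i * π) / 2) • GM t hB (t8 i) c r) y1 -
        (Real.sin ((r + cn i * π) / 2) • GM t hB (t8 i) c r) y2) := fun r => by
    unfold ab
    rw [map_smul, map_sub, map_add, map_smul, map_smul]
    rfl
  have hsg : ‖(-1 : ℝ) ^ cn i‖ = 1 := by rw [norm_pow, norm_neg, norm_one, one_pow]
  rw [hex, hex, ← smul_sub, norm_smul, hsg, one_mul]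
  have e1 : GM t hB (t8 i) c s y0 + (Real.cos ((s + cn i * π) / 2) • GM t hB (t8 i) c s) y1 -
        (Real.sin ((s + cn i * π) / 2) • GM t hB (t8 i) c s) y2 -
      (GM t hB (t8 i) c 0 y0 + (Real.cos ((0 + cn i * π) / 2) • GM t hB (t8 i) c 0) y1 -
        (Real.sin ((0 + cn i * π) / 2) • GM t hB (t8 i) c 0) y2) =
      (GM t hB (t8 i) c s - GM t hB (t8 i) c 0) y0 +
      (Real.cos ((s + cn i * π) / 2) • GM t hB (t8 i) c s - Real.cos ((0 + cn i * π) / 2) • GM t hB (t8 i) c 0) y1 -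
      (Real.sin ((s + cn i * π) / 2) • GM t hB (t8 i) c s - Real.sin ((0 + cn i * π) / 2) • GM t hB (t8 i) c 0) y2 := by
    rw [sub_apply, sub_apply, sub_apply]
    abel
  rw [e1]
  have f0 := ContinuousLinearMap.le_of_opNorm_le _ h3.le y0
  have f1 := ContinuousLinearMap.le_of_opNorm_le _ h4.le y1
  have f2 := ContinuousLinearMap.le_of_opNorm_le _ h5.le y2
  refine (norm_sub_le _ _).trans ?_
  refine (add_le_add_left (norm_add_le _ _) _).trans ?_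
  linarith

theorem Bmp_pos {h : ℝ → ℝ} {ε : ℝ} (hh : OD.Bmp h ε) : 0 < ε := by
  by_contra hc
  rw [not_lt] at hc
  have h1 := hh.supp 0 (by rw [abs_zero]; exact pi_pos.le) (by rw [abs_zero]; exact hc)
  have h2 := hh.one
  rw [h1] at h2
  exact lt_irrefl _ h2

/-- **the velocities of the bump density are close to the rotations of the arcs** -/
theorem int_near (t : TEmb 𝒜) (hB : Bl M) (e : Emb n 𝒜) {κ : ℕ} (hk : 𝒜.HK κ) {η : ℝ} (hη : 0 < η) :
    ∃ δ : ℝ, 0 < δ ∧ ∀ {ε : ℝ} {h : ℝ → ℝ}, ε ≤ δ → OD.Bmp h ε → ∫ s in (-(π / 2))..π / 2, h s = 1 →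
      ∀ (i : ZMod 8) (c : Gs M) (y0 y1 y2 : HR t.D), ‖(∫ b in (0 : ℝ)..π, Ph t hB h (t8 i) c y0 y1 y2 (t8 i + b)) -
        GM t hB (t8 i) c 0 ((-1 : ℝ) ^ cn i • ab y0 y1 y2 (0 + cn i * π))‖ ≤ η * (‖y0‖ + ‖y1‖ + ‖y2‖) := by
  have hπ := pi_pos
  obtain ⟨δ, hδ, h1⟩ := est t hB e hk hη
  refine ⟨min δ (π / 4), lt_min hδ (by positivity), fun {ε h} hε hh hm i c y0 y1 y2 => ?_⟩
  have hε1 : ε ≤ δ := hε.trans (min_le_left _ _)
  have hε2 : ε ≤ π / 4 := hε.trans (min_le_right _ _)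
  have hε0 := Bmp_pos hh
  obtain ⟨h2, h3⟩ := t8_bd i
  rw [int_Ph t hB hh hε2]
  obtain ⟨β, hβ⟩ : ∃ β, β = t8 i - cn i * π := ⟨_, rfl⟩
  rw [← hβ] at h2 h3 ⊢
  obtain ⟨X, hX⟩ : ∃ X : ℝ → HR t.D, X = fun s => GM t hB (t8 i) c s ((-1 : ℝ) ^ cn i • ab y0 y1 y2 (s + cn i * π)) := ⟨_, rfl⟩
  obtain ⟨K, hK⟩ : ∃ K, K = η * (‖y0‖ + ‖y1‖ + ‖y2‖) := ⟨_, rfl⟩
  have hX1 : ∀ s, |s| < ε → ‖X s - X 0‖ ≤ K := fun s hs => by
    rw [hX, hK]
    exact h1 s (hs.trans_le hε1) i c y0 y1 y2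
  have hXc : Continuous X := by
    rw [hX]
    have hsh : Continuous fun s : ℝ => s + (cn i : ℝ) * π := by fun_prop
    have h7 : Continuous fun s : ℝ => ab y0 y1 y2 (s + cn i * π) := (cont_ab y0 y1 y2).comp hsh
    have h8 : Continuous ((-1 : ℝ) ^ cn i • fun s : ℝ => ab y0 y1 y2 (s + cn i * π)) := h7.const_smul _
    exact (cont_GMs t hB e hk (t8 i) c).clm_apply h8
  have hmass : ∫ s in β..(β + π), h s = 1 := by
    rw [← hm, int_bmp hh (a := -(π / 2)) (b := π / 2) (by linarith) (by linarith) (by linarith) (by linarith) hε0.le]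
    exact int_bmp hh (by linarith) (by linarith) (by linarith) (by linarith) hε0.le
  show ‖(∫ s in β..(β + π), h s • GM t hB (t8 i) c s ((-1 : ℝ) ^ cn i • ab y0 y1 y2 (s + cn i * π))) -
    GM t hB (t8 i) c 0 ((-1 : ℝ) ^ cn i • ab y0 y1 y2 (0 + cn i * π))‖ ≤ _
  have e1 : GM t hB (t8 i) c 0 ((-1 : ℝ) ^ cn i • ab y0 y1 y2 (0 + cn i * π)) = X 0 := by rw [hX]
  have e2 : ∀ s, h s • GM t hB (t8 i) c s ((-1 : ℝ) ^ cn i • ab y0 y1 y2 (s + cn i * π)) = h s • X s := fun s => by rw [hX]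
  simp only [e2]
  rw [e1, ← hK]
  have e3 : X 0 = ∫ s in β..(β + π), h s • X 0 := by rw [intervalIntegral.integral_smul_const, hmass, one_smul]
  have i1 : IntervalIntegrable (fun s => h s • X s) MeasureTheory.volume β (β + π) := (hh.cont.smul hXc).intervalIntegrable _ _
  have i2 : IntervalIntegrable (fun s => h s • X 0) MeasureTheory.volume β (β + π) :=
    (hh.cont.smul continuous_const).intervalIntegrable _ _
  rw [e3, ← intervalIntegral.integral_sub i1 i2]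
  have h4 : ∫ s in β..(β + π), h s * K = K := by rw [intervalIntegral.integral_mul_const, hmass, one_mul]
  rw [← h4]
  refine intervalIntegral.norm_integral_le_of_norm_le (by linarith) (Eventually.of_forall fun s hs => ?_)
    ((hh.cont.mul continuous_const).intervalIntegrable _ _)
  rw [← smul_sub, norm_smul, Real.norm_eq_abs, abs_of_nonneg (hh.nonneg s)]
  by_cases hc : |s| < ε
  · exact mul_le_mul_of_nonneg_left (hX1 s hc) (hh.nonneg s)
  · have h5 : h s = 0 := by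
      refine hh.supp s ?_ (not_lt.1 hc)
      rw [abs_le]
      constructor <;> linarith [hs.1, hs.2]
    rw [h5, zero_mul, zero_mul]

/-! ### the rotations of the arcs -/

omit [Nonempty (Gs M)] in
theorem rv_mem {c : Gs M} {k0 k1 k2 : Eu n} (h0 : k0 ∈ NEG.Kc 𝒜 c) (h1 : k1 ∈ NEG.Kc 𝒜 c) (h2 : k2 ∈ NEG.Kc 𝒜 c) (j : Fin 4) :
    rv k0 k1 k2 j ∈ NEG.Kc 𝒜 c := by
  fin_cases j
  · exact Submodule.add_mem _ (Submodule.neg_mem _ h0) h2
  · exact Submodule.sub_mem _ h0 h1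
  · exact Submodule.sub_mem _ (Submodule.neg_mem _ h0) h2
  · exact Submodule.add_mem _ h0 h1

omit [Nonempty (Gs M)] in
theorem rv_ne {k0 k1 k2 : Eu n} (h : ¬(k0 = 0 ∧ k1 = 0 ∧ k2 = 0)) : ∃ j l, rv k0 k1 k2 j ≠ rv k0 k1 k2 l := by
  by_contra hc
  push Not at hc
  have h02 : -k0 + k2 = -k0 - k2 := hc 0 2
  have h13 : k0 - k1 = k0 + k1 := hc 1 3
  have h01 : -k0 + k2 = k0 - k1 := hc 0 1
  have e2 : k2 = 0 := by
    have h3 : (2 : ℝ) • k2 = 0 := by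
      have h4 : (2 : ℝ) • k2 = (-k0 + k2) - (-k0 - k2) := by module
      rw [h4, h02, sub_self]
    exact (smul_eq_zero.1 h3).resolve_left two_ne_zero
  have e1 : k1 = 0 := by
    have h3 : (2 : ℝ) • k1 = 0 := by
      have h4 : (2 : ℝ) • k1 = (k0 + k1) - (k0 - k1) := by module
      rw [h4, h13, sub_self]
    exact (smul_eq_zero.1 h3).resolve_left two_ne_zero
  have e0 : k0 = 0 := by
    rw [e1, e2, add_zero, sub_zero] at h01
    have h3 : (2 : ℝ) • k0 = 0 := by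
      have h4 : (2 : ℝ) • k0 = k0 - (-k0) := by module
      rw [h4, h01, sub_self]
    exact (smul_eq_zero.1 h3).resolve_left two_ne_zero
  exact h ⟨e0, e1, e2⟩

theorem ab_rv (t : TEmb 𝒜) (x : M) (k0 k1 k2 : Eu n) (i : ZMod 8) :
    (-1 : ℝ) ^ cn i • ab (tI t x k0) (tI t x k1) (tI t x k2) (0 + cn i * π) = tI t x (rv k0 k1 k2 (arc i)) := by
  have h1 : cn i = (arc i).val + 1 := rfl
  rw [h1, zero_add]
  obtain ⟨j, hj⟩ : ∃ j, j = arc i := ⟨_, rfl⟩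
  rw [← hj]
  unfold ab
  fin_cases j
  · show (-1 : ℝ) ^ 1 • (tI t x k0 + Real.cos (((0 + 1 : ℕ) : ℝ) * π / 2) • tI t x k1 - Real.sin (((0 + 1 : ℕ) : ℝ) * π / 2) • tI t x k2) =
      tI t x (-k0 + k2)
    rw [show ((0 + 1 : ℕ) : ℝ) * π / 2 = π / 2 by push_cast; ring, Real.cos_pi_div_two, Real.sin_pi_div_two, map_add, map_neg]
    module
  · show (-1 : ℝ) ^ 2 • (tI t x k0 + Real.cos (((1 + 1 : ℕ) : ℝ) * π / 2) • tI t x k1 - Real.sin (((1 + 1 : ℕ) : ℝ) * π / 2) • tI t x k2) =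
      tI t x (k0 - k1)
    rw [show ((1 + 1 : ℕ) : ℝ) * π / 2 = π by push_cast; ring, Real.cos_pi, Real.sin_pi, map_sub]
    module
  · show (-1 : ℝ) ^ 3 • (tI t x k0 + Real.cos (((2 + 1 : ℕ) : ℝ) * π / 2) • tI t x k1 - Real.sin (((2 + 1 : ℕ) : ℝ) * π / 2) • tI t x k2) =
      tI t x (-k0 - k2)
    rw [show ((2 + 1 : ℕ) : ℝ) * π / 2 = π / 2 + π by push_cast; ring, Real.cos_add_pi, Real.sin_add_pi, Real.cos_pi_div_two,
      Real.sin_pi_div_two, map_sub, map_neg]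
    module
  · show (-1 : ℝ) ^ 4 • (tI t x k0 + Real.cos (((3 + 1 : ℕ) : ℝ) * π / 2) • tI t x k1 - Real.sin (((3 + 1 : ℕ) : ℝ) * π / 2) • tI t x k2) =
      tI t x (k0 + k1)
    rw [show ((3 + 1 : ℕ) : ℝ) * π / 2 = 2 * π by push_cast; ring, Real.cos_two_pi, Real.sin_two_pi, map_add]
    module

theorem av_eq (t : TEmb 𝒜) (hB : Bl M) (c : Gs M) {k0 k1 k2 : Eu n} (h0 : k0 ∈ NEG.Kc 𝒜 c) (h1 : k1 ∈ NEG.Kc 𝒜 c)
    (h2 : k2 ∈ NEG.Kc 𝒜 c) (i : ZMod 8) : av 𝒜 hB c (rv k0 k1 k2) i = tA t (b8 c i) (GM t hB (t8 i) c 0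
      ((-1 : ℝ) ^ cn i • ab (tI t (c.1 0) k0) (tI t (c.1 0) k1) (tI t (c.1 0) k2) (0 + cn i * π))) := by
  rw [ab_rv, GM_apply, tA_tI, shift_zero, Hc_of_mem (rv_mem h0 h1 h2 _), zero_sub]
  show _ = tA t (c.1 (t8 i)) _
  rw [tA_tI, JG_eq_JA]
  rfl

end Pool.Agent.Lib.MP_ccbbf6_gt.K7.DP
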