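import Pool.Agent.Lib.MP_ccbbf6_gt.Geo.EQa
import Pool.Agent.Lib.MP_ccbbf6_gt.K7.HQ0
import Pool.Agent.Lib.MP_ccbbf6_gt.L5.DG2

/-!
# `κ = 7`, block F: the energy of 8-gons near the doubled geodesic, HQ1 (helper95)

* `taylor_le` : Taylor's inequality with parameters.
* `contDiffAt_E8` : the energy is smooth along smooth families of 8-gons with sides `< π`.
* `deriv_E8`, `deriv2_E8` : first and second derivative of the energy along smooth curves of 8-gons through `b8 c`.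
* `H8_le` : (LEN) an upper bound `E8 (x s) ≤ 2 π² - m s²` gives `H8 ≤ -2 m`.
* `contDiffAt_H8` : `H8` is smooth along smooth families.
-/

set_option autoImplicit false
set_option linter.unusedSectionVars false

open Set Filter Topology Metric Real Module
open scoped ContDiff RealInnerProductSpace

noncomputable section

namespace Pool.Agent.Lib.MP_ccbbf6_gt.K7.HQ

open Geo L4 L4.ORI L5

/-! ### calculus -/

section calculus

variable {E : Type*} [NormedAddCommGroup E] [NormedSpace ℝ E]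

/-- second derivative of a composition at a critical point -/
theorem deriv2_comp {f : E → ℝ} {u : ℝ → E} {t : ℝ} (hf : ContDiffAt ℝ 2 f (u t)) (hu : ContDiffAt ℝ 2 u t)
    (hc : fderiv ℝ f (u t) = 0) :
    deriv (fun s => f (u s)) t = 0 ∧
      HasDerivAt (deriv fun s => f (u s)) (fderiv ℝ (fderiv ℝ f) (u t) (deriv u t) (deriv u t)) t := by
  have h1 : ∀ᶠ s in 𝓝 t, HasDerivAt (fun s => f (u s)) (fderiv ℝ f (u s) (deriv u s)) s := by
    have e1 : ∀ᶠ z in 𝓝 (u t), ContDiffAt ℝ 2 f z := hf.eventually (by simp)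
    filter_upwards [hu.continuousAt.eventually e1, hu.eventually (by simp)] with s h2 h3
    exact (h2.differentiableAt (by simp)).hasFDerivAt.comp_hasDerivAt s (h3.differentiableAt (by simp)).hasDerivAt
  have h2 : (deriv fun s => f (u s)) =ᶠ[𝓝 t] fun s => fderiv ℝ f (u s) (deriv u s) := h1.mono fun s hs => hs.deriv
  have h3 : HasDerivAt (fun s => fderiv ℝ f (u s)) (fderiv ℝ (fderiv ℝ f) (u t) (deriv u t)) t := by
    have e1 : ContDiffAt ℝ 1 (fderiv ℝ f) (u t) := hf.fderiv_right (m := 1) (by norm_num)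
    exact (e1.differentiableAt (by simp)).hasFDerivAt.comp_hasDerivAt t (hu.differentiableAt (by simp)).hasDerivAt
  have h4 : HasDerivAt (deriv u) (deriv (deriv u) t) t := by
    have e1 : ContDiffAt ℝ 1 (deriv u) t := by
      have e2 : ContDiffAt ℝ 1 (fun s => fderiv ℝ u s 1) t := (hu.fderiv_right (m := 1) (by norm_num)).clm_apply contDiffAt_const
      exact e2.congr_of_eventuallyEq (Eventually.of_forall fun s => fderiv_apply_one_eq_deriv.symm)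
    exact (e1.differentiableAt (by simp)).hasDerivAt
  have h5 := h3.clm_apply h4
  rw [hc, zero_apply, add_zero] at h5
  refine ⟨?_, h5.congr_of_eventuallyEq h2⟩
  refine h2.self_of_nhds.trans ?_
  show fderiv ℝ f (u t) (deriv u t) = 0
  rw [hc]
  rfl

/-- second derivative in the last variable -/
theorem deriv2_snd {h : E × ℝ → ℝ} {e : E} {t : ℝ} (hh : ContDiffAt ℝ 2 h (e, t)) :
    deriv (fun s => h (e, s)) t = fderiv ℝ h (e, t) (0, 1) ∧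
      HasDerivAt (deriv fun s => h (e, s)) (fderiv ℝ (fderiv ℝ h) (e, t) (0, 1) (0, 1)) t := by
  have hcu : ∀ s : ℝ, HasDerivAt (fun s : ℝ => ((e, s) : E × ℝ)) ((0 : E), (1 : ℝ)) s := fun s =>
    (hasDerivAt_const s e).prodMk (hasDerivAt_id s)
  have h1 : ∀ᶠ s in 𝓝 t, HasDerivAt (fun s => h (e, s)) (fderiv ℝ h (e, s) (0, 1)) s := by
    have e1 : ∀ᶠ z in 𝓝 (e, t), ContDiffAt ℝ 2 h z := hh.eventually (by simp)
    filter_upwards [(hcu t).continuousAt.eventually e1] with s h2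
    exact (h2.differentiableAt (by simp)).hasFDerivAt.comp_hasDerivAt s (hcu s)
  have h2 : (deriv fun s => h (e, s)) =ᶠ[𝓝 t] fun s => fderiv ℝ h (e, s) (0, 1) := h1.mono fun s hs => hs.deriv
  have h3 : HasDerivAt (fun s => fderiv ℝ h (e, s)) (fderiv ℝ (fderiv ℝ h) (e, t) (0, 1)) t := by
    have e1 : ContDiffAt ℝ 1 (fderiv ℝ h) (e, t) := hh.fderiv_right (m := 1) (by norm_num)
    exact (e1.differentiableAt (by simp)).hasFDerivAt.comp_hasDerivAt t (hcu t)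
  have h5 := h3.clm_apply (hasDerivAt_const t ((0 : E), (1 : ℝ)))
  rw [map_zero, add_zero] at h5
  exact ⟨h2.self_of_nhds, h5.congr_of_eventuallyEq h2⟩

/-- **Taylor's inequality with parameters** -/
theorem taylor_le {h : E × ℝ → ℝ} {e0 : E} (hh : ContDiffAt ℝ 2 h (e0, 0))
    (hneg : fderiv ℝ (fderiv ℝ h) (e0, 0) (0, 1) (0, 1) < 0) :
    ∃ ε s0 : ℝ, 0 < ε ∧ 0 < s0 ∧ ∀ᶠ e in 𝓝 e0, deriv (fun s => h (e, s)) 0 = 0 →
      ∀ s, |s| ≤ s0 → h (e, s) ≤ h (e, 0) - ε * s ^ 2 := by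
  obtain ⟨ε, hε, h1⟩ : ∃ ε : ℝ, 0 < ε ∧ fderiv ℝ (fderiv ℝ h) (e0, 0) (0, 1) (0, 1) < -(2 * ε) :=
    ⟨-(fderiv ℝ (fderiv ℝ h) (e0, 0) (0, 1) (0, 1)) / 4, by linarith, by linarith⟩
  have h2 : ∀ᶠ w in 𝓝 (e0, (0 : ℝ)), ContDiffAt ℝ 2 h w ∧ fderiv ℝ (fderiv ℝ h) w (0, 1) (0, 1) < -(2 * ε) := by
    refine (hh.eventually (by simp)).and ?_
    have h3 : ContDiffAt ℝ 0 (fun w => fderiv ℝ (fderiv ℝ h) w (0, 1) (0, 1)) (e0, 0) :=
      (((hh.fderiv_right (m := 1) (by norm_num)).fderiv_right (m := 0) (by norm_num)).clm_apply contDiffAt_const).clm_apply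
        contDiffAt_const
    exact h3.continuousAt.eventually (gt_mem_nhds h1)
  rw [nhds_prod_eq, eventually_prod_iff] at h2
  obtain ⟨pa, ha, pb, hb, h3⟩ := h2
  obtain ⟨s1, hs1, h4⟩ := Metric.eventually_nhds_iff.1 hb
  refine ⟨ε, s1 / 2, hε, by linarith, ?_⟩
  filter_upwards [ha] with e he hd
  have key : ∀ s : ℝ, |s| ≤ s1 / 2 → ContDiffAt ℝ 2 h (e, s) ∧ fderiv ℝ (fderiv ℝ h) (e, s) (0, 1) (0, 1) < -(2 * ε) :=
    fun s hs => h3 he (h4 (by rw [Real.dist_eq, sub_zero]; linarith))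
  -- the auxiliary function
  obtain ⟨k, hk⟩ : ∃ k : ℝ → ℝ, k = fun s => h (e, s) + ε * s ^ 2 := ⟨_, rfl⟩
  have hk1 : ∀ s, |s| ≤ s1 / 2 → HasDerivAt k (deriv (fun s => h (e, s)) s + ε * (2 * s)) s := fun s hs => by
    rw [hk]
    have e1 : DifferentiableAt ℝ (fun s => h (e, s)) s :=
      ((key s hs).1.differentiableAt (by simp)).comp (f := fun s : ℝ => (e, s)) s
        ((differentiableAt_const e).prodMk differentiableAt_id)
    have e2 := e1.hasDerivAt.add ((hasDerivAt_pow 2 s).const_mul ε)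
    refine e2.congr_deriv ?_
    norm_num
  have hk2 : ∀ s, |s| ≤ s1 / 2 → HasDerivAt (fun s => deriv (fun s => h (e, s)) s + ε * (2 * s))
      (fderiv ℝ (fderiv ℝ h) (e, s) (0, 1) (0, 1) + ε * 2) s := fun s hs => by
    have e1 := (deriv2_snd (key s hs).1).2
    have e2 : HasDerivAt (fun s : ℝ => ε * (2 * s)) (ε * (2 * 1)) s := ((hasDerivAt_id s).const_mul 2).const_mul ε
    rw [mul_one] at e2
    exact e1.add e2
  have hanti : AntitoneOn (fun s => deriv (fun s => h (e, s)) s + ε * (2 * s)) (Icc (-(s1 / 2)) (s1 / 2)) := by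
    refine antitoneOn_of_deriv_nonpos (convex_Icc _ _) (fun s hs => (hk2 s (abs_le.2 hs)).continuousAt.continuousWithinAt)
      (fun s hs => ?_) fun s hs => ?_
    · rw [interior_Icc] at hs
      exact (hk2 s (abs_le.2 ⟨hs.1.le, hs.2.le⟩)).differentiableAt.differentiableWithinAt
    · rw [interior_Icc] at hs
      have hs' := abs_le.2 ⟨hs.1.le, hs.2.le⟩
      rw [(hk2 s hs').deriv]
      linarith [(key s hs').2]
  have h0 : deriv (fun s => h (e, s)) 0 + ε * (2 * 0) = 0 := by rw [hd]; ring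
  have hm0 : (0 : ℝ) ∈ Icc (-(s1 / 2)) (s1 / 2) := ⟨by linarith, by linarith⟩
  intro s hs
  have hsI := abs_le.1 hs
  have hfin : k s ≤ k 0 := by
    rcases le_total 0 s with h5 | h5
    · have hA : AntitoneOn k (Icc 0 (s1 / 2)) := by
        refine antitoneOn_of_deriv_nonpos (convex_Icc _ _)
          (fun t ht => (hk1 t (abs_le.2 ⟨by linarith [ht.1], ht.2⟩)).continuousAt.continuousWithinAt) (fun t ht => ?_) fun t ht => ?_
        · rw [interior_Icc] at ht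
          exact (hk1 t (abs_le.2 ⟨by linarith [ht.1], ht.2.le⟩)).differentiableAt.differentiableWithinAt
        · rw [interior_Icc] at ht
          rw [(hk1 t (abs_le.2 ⟨by linarith [ht.1], ht.2.le⟩)).deriv]
          have h6 := hanti hm0 ⟨by linarith [ht.1], ht.2.le⟩ ht.1.le
          exact h6.trans h0.le
      exact hA ⟨le_rfl, by linarith⟩ ⟨h5, hsI.2⟩ h5
    · have hA : MonotoneOn k (Icc (-(s1 / 2)) 0) := by
        refine monotoneOn_of_deriv_nonneg (convex_Icc _ _)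
          (fun t ht => (hk1 t (abs_le.2 ⟨ht.1, by linarith [ht.2]⟩)).continuousAt.continuousWithinAt) (fun t ht => ?_) fun t ht => ?_
        · rw [interior_Icc] at ht
          exact (hk1 t (abs_le.2 ⟨ht.1.le, by linarith [ht.2]⟩)).differentiableAt.differentiableWithinAt
        · rw [interior_Icc] at ht
          rw [(hk1 t (abs_le.2 ⟨ht.1.le, by linarith [ht.2]⟩)).deriv]
          have h6 := hanti ⟨ht.1.le, by linarith [ht.2]⟩ hm0 ht.2.le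
          exact h0.ge.trans h6
      exact hA ⟨hsI.1, h5⟩ ⟨by linarith, le_rfl⟩ h5
  have hk0 : k 0 = h (e, 0) := by rw [hk]; ring
  have hks : k s = h (e, s) + ε * s ^ 2 := by rw [hk]
  linarith

/-- one variable: an upper bound by a parabola bounds the second derivative -/
theorem second_le {g : ℝ → ℝ} (hg : ContDiffAt ℝ 2 g 0) (h0 : deriv g 0 = 0) {m : ℝ}
    (hf : ∃ᶠ s in 𝓝[>] (0 : ℝ), g s ≤ g 0 - m * s ^ 2) : deriv (deriv g) 0 ≤ -(2 * m) := by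
  by_contra hlt
  rw [not_le] at hlt
  obtain ⟨h, hh⟩ : ∃ h : ℝ × ℝ → ℝ, h = fun z => -(g z.2) - m * z.2 ^ 2 := ⟨_, rfl⟩
  have h1 : ContDiffAt ℝ 2 h (0, 0) := by
    rw [hh]
    have e1 : ContDiffAt ℝ 2 (fun z : ℝ × ℝ => g z.2) (0, 0) := ContDiffAt.comp (g := g) (f := Prod.snd) (0, 0) hg contDiffAt_snd
    exact e1.neg.sub (contDiffAt_const.mul (contDiffAt_snd.pow 2))
  have hg1 : ∀ᶠ s in 𝓝 (0 : ℝ), DifferentiableAt ℝ g s :=
    (hg.eventually (by simp)).mono fun s hs => hs.differentiableAt (by simp)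
  have h2 : (deriv fun s => h (0, s)) =ᶠ[𝓝 0] fun s => -(deriv g s) - m * (2 * s) := by
    filter_upwards [hg1] with s hs
    rw [hh]
    have e1 := hs.hasDerivAt.neg.sub ((hasDerivAt_pow 2 s).const_mul m)
    have e2 : HasDerivAt (fun s => -(g s) - m * s ^ 2) (-(deriv g s) - m * (2 * s)) s := e1.congr_deriv (by norm_num)
    exact e2.deriv
  have h3 : HasDerivAt (deriv fun s => h (0, s)) (-(deriv (deriv g) 0) - m * 2) 0 := by
    have e1 : DifferentiableAt ℝ (deriv g) 0 := by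
      have e2 : ContDiffAt ℝ 1 (fun s => fderiv ℝ g s 1) 0 := (hg.fderiv_right (m := 1) (by norm_num)).clm_apply contDiffAt_const
      exact (e2.congr_of_eventuallyEq (Eventually.of_forall fun s => fderiv_apply_one_eq_deriv.symm)).differentiableAt (by simp)
    have e2 : HasDerivAt (fun s : ℝ => m * (2 * s)) (m * (2 * 1)) 0 := ((hasDerivAt_id (0 : ℝ)).const_mul 2).const_mul m
    rw [mul_one] at e2
    exact (e1.hasDerivAt.neg.sub e2).congr_of_eventuallyEq h2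
  have h4 := (deriv2_snd h1).2.unique h3
  obtain ⟨ε, s0, hε, hs0, h5⟩ := taylor_le h1 (by rw [h4]; linarith)
  have h6 : deriv (fun s => h (0, s)) 0 = 0 := by
    refine h2.self_of_nhds.trans ?_
    show -(deriv g 0) - m * (2 * 0) = 0
    rw [h0]
    ring
  have h7 := h5.self_of_nhds h6
  have h8 : ∀ᶠ s in 𝓝[>] (0 : ℝ), ¬ (g s ≤ g 0 - m * s ^ 2) := by
    filter_upwards [Ioo_mem_nhdsGT hs0] with s hs hle
    have h9 := h7 s (by rw [abs_of_pos hs.1]; exact hs.2.le)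
    rw [hh] at h9
    simp only at h9
    have h10 : 0 < ε * s ^ 2 := mul_pos hε (pow_pos hs.1 2)
    linarith
  exact hf h8

end calculus

variable {n : ℕ} {M : Type} [MetricSpace M] [CompactSpace M] {𝒜 : SDist n M}
  {E : Type*} [NormedAddCommGroup E] [NormedSpace ℝ E]

/-- the square of the distance is smooth -/
theorem contDiffAt_dsq (hB : Bl M) {x y : E → M} {u : E} (hx : SmAt 𝒜 x u) (hy : SmAt 𝒜 y u) (h1 : dist (x u) (y u) < π) :
    ContDiffAt ℝ ∞ (fun v => dist (x v) (y v) ^ 2) u := by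
  have h2 := contDiffAt_F 𝒜 hB h1
  have h3 : ContDiffAt ℝ ∞ (fun v => (𝒜.ψ (x u) (x v), 𝒜.ψ (y u) (y v))) u := hx.2.prodMk hy.2
  have h4 : ContDiffAt ℝ ∞ (fun v => 2 * 𝒜.F (x u) (y u) (𝒜.ψ (x u) (x v), 𝒜.ψ (y u) (y v))) u := by
    refine contDiffAt_const.mul (ContDiffAt.comp (g := 𝒜.F (x u) (y u))
      (f := fun v => (𝒜.ψ (x u) (x v), 𝒜.ψ (y u) (y v))) u ?_ h3)
    rw [𝒜.zero, 𝒜.zero]
    exact h2
  refine h4.congr_of_eventuallyEq ?_
  filter_upwards [hx.1.eventually ((𝒜.ψ (x u)).open_source.mem_nhds (𝒜.mem _)),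
    hy.1.eventually ((𝒜.ψ (y u)).open_source.mem_nhds (𝒜.mem _))] with v hv hv'
  unfold SDist.F SDist.f
  simp only
  rw [(𝒜.ψ (x u)).left_inv hv, (𝒜.ψ (y u)).left_inv hv']
  ring

/-- **the energy is smooth** -/
theorem contDiffAt_E8 (hB : Bl M) {x : E → ZMod 8 → M} {u : E} (hx : ∀ i, SmAt 𝒜 (fun v => x v i) u)
    (hd : ∀ i, dist (x u i) (x u (i + 1)) < π) : ContDiffAt ℝ ∞ (fun v => E8 (x v)) u := by
  unfold E8
  exact ContDiffAt.sum fun i _ => contDiffAt_dsq hB (hx i) (hx (i + 1)) (hd i)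

theorem contDiffAt_E8_b8 (hB : Bl M) {x : E → ZMod 8 → M} {u : E} (hx : ∀ i, SmAt 𝒜 (fun v => x v i) u) {c : Gs M}
    (h0 : x u = b8 c) : ContDiffAt ℝ ∞ (fun v => E8 (x v)) u :=
  contDiffAt_E8 hB hx fun i => by rw [h0, dist_b8 𝒜 hB]; linarith [Real.pi_pos]

/-- twice differentiable maps to `M` -/
def Sm2 (𝒜 : SDist n M) (g : E → M) (u : E) : Prop := ContinuousAt g u ∧ ContDiffAt ℝ 2 (fun v => 𝒜.ψ (g u) (g v)) u

theorem _root_.Pool.Agent.Lib.MP_ccbbf6_gt.L4.SmAt.sm2 {g : E → M} {u : E} (h : SmAt 𝒜 g u) : Sm2 𝒜 g u := ⟨h.1, h.2.of_le (by norm_cast)⟩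

/-- near a smooth point -/
theorem _root_.Pool.Agent.Lib.MP_ccbbf6_gt.L4.SmAt.sm2_near {g : E → M} {u : E} (h : SmAt 𝒜 g u) : ∀ᶠ v in 𝓝 u, Sm2 𝒜 g v := by
  have h1 : ∀ᶠ v in 𝓝 u, g v ∈ (𝒜.ψ (g u)).source := h.1.eventually ((𝒜.ψ (g u)).open_source.mem_nhds (𝒜.mem _))
  have h2 : ContDiffAt ℝ 2 (fun v => 𝒜.ψ (g u) (g v)) u := h.2.of_le (by norm_cast)
  filter_upwards [eventually_eventually_nhds.2 h1, h2.eventually (by simp)] with v h3 h4
  have h5 : g v ∈ (𝒜.ψ (g u)).source := h3.self_of_nhds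
  constructor
  · have h6 : ContinuousAt (fun w => (𝒜.ψ (g u)).symm (𝒜.ψ (g u) (g w))) v :=
      ContinuousAt.comp (g := (𝒜.ψ (g u)).symm) (f := fun w => 𝒜.ψ (g u) (g w))
        ((𝒜.ψ (g u)).continuousAt_symm ((𝒜.ψ (g u)).map_source h5)) h4.continuousAt
    refine h6.congr ?_
    filter_upwards [h3] with w hw
    exact (𝒜.ψ (g u)).left_inv hw
  · have h6 : ContDiffAt ℝ 2 (fun u' => 𝒜.ψ (g v) ((𝒜.ψ (g u)).symm u')) (𝒜.ψ (g u) (g v)) :=
      (𝒜.trans (g u) (g v) (g v) h5 (𝒜.mem _)).of_le (by norm_cast)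
    have h7 := ContDiffAt.comp (g := fun u' => 𝒜.ψ (g v) ((𝒜.ψ (g u)).symm u')) (f := fun w => 𝒜.ψ (g u) (g w)) v h6 h4
    refine h7.congr_of_eventuallyEq ?_
    filter_upwards [h3] with w hw
    show 𝒜.ψ (g v) (g w) = 𝒜.ψ (g v) ((𝒜.ψ (g u)).symm (𝒜.ψ (g u) (g w)))
    rw [(𝒜.ψ (g u)).left_inv hw]

theorem Sm2.comp {E' : Type*} [NormedAddCommGroup E'] [NormedSpace ℝ E'] {g : E → M} {f : E' → E} {v : E'}
    (h : Sm2 𝒜 g (f v)) (hf : ContDiffAt ℝ 2 f v) : Sm2 𝒜 (fun w => g (f w)) v :=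
  ⟨ContinuousAt.comp (g := g) h.1 hf.continuousAt, ContDiffAt.comp (g := fun w => 𝒜.ψ (g (f v)) (g w)) (f := f) v h.2 hf⟩

/-- the energy in charts along a family -/
theorem E8_chart {x : E → ZMod 8 → M} {u : E} (hx : ∀ i, ContinuousAt (fun v => x v i) u) {c : Gs M} (h0 : x u = b8 c) :
    (fun v => E8 (x v)) =ᶠ[𝓝 u] fun v => f8 𝒜 c fun i => 𝒜.ψ (b8 c i) (x v i) := by
  have h1 : ∀ᶠ v in 𝓝 u, ∀ i, x v i ∈ (𝒜.ψ (b8 c i)).source := by
    rw [eventually_all]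
    intro i
    refine (hx i).eventually ((𝒜.ψ (b8 c i)).open_source.mem_nhds ?_)
    show x u i ∈ _
    rw [h0]
    exact 𝒜.mem _
  filter_upwards [h1] with v hv
  unfold f8
  congr 1
  funext i
  exact ((𝒜.ψ (b8 c i)).left_inv (hv i)).symm

/-- velocities of a curve of 8-gons -/
def vel8 (𝒜 : SDist n M) (x : ℝ → ZMod 8 → M) (i : ZMod 8) : Eu n := 𝒜.vel (fun s => x s i) 0

/-- **the first two derivatives of the energy along a curve of 8-gons through the doubled geodesic** -/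
theorem deriv_E8_two (hB : Bl M) {x : ℝ → ZMod 8 → M} (hx : ∀ i, Sm2 𝒜 (fun s => x s i) 0) {c : Gs M} (h0 : x 0 = b8 c) :
    deriv (fun s => E8 (x s)) 0 = 0 ∧ HasDerivAt (deriv fun s => E8 (x s)) (H8 𝒜 c (vel8 𝒜 x)) 0 := by
  obtain ⟨u, hu⟩ : ∃ u : ℝ → ZMod 8 → Eu n, u = fun s i => 𝒜.ψ (b8 c i) (x s i) := ⟨_, rfl⟩
  have hci : ∀ i, ContDiffAt ℝ 2 (fun s => u s i) 0 := fun i => by
    rw [hu, ← h0]
    exact (hx i).2
  have hc : ContDiffAt ℝ 2 u 0 := contDiffAt_pi.2 hci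
  have hu0 : u 0 = 0 := by
    rw [hu]
    funext i
    show 𝒜.ψ (b8 c i) (x 0 i) = 0
    rw [h0, 𝒜.zero]
  have hf : ContDiffAt ℝ 2 (f8 𝒜 c) (u 0) := by
    rw [hu0]
    exact (contDiffAt_f8 hB c).of_le (by norm_cast)
  have he : (fun s => E8 (x s)) =ᶠ[𝓝 0] fun s => f8 𝒜 c (u s) := by
    have := E8_chart (𝒜 := 𝒜) (fun i => (hx i).1) h0
    rw [hu]
    exact this
  have hv : deriv u 0 = vel8 𝒜 x := by
    have h1 : ∀ i, HasDerivAt (fun s => u s i) (vel8 𝒜 x i) 0 := fun i => by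
      have h2 := ((hci i).differentiableAt (by simp)).hasDerivAt
      have h3 : deriv (fun s => u s i) 0 = vel8 𝒜 x i := by
        rw [hu]
        show deriv (fun s => 𝒜.ψ (b8 c i) (x s i)) 0 = deriv (fun s => 𝒜.ψ (x 0 i) (x s i)) 0
        rw [h0]
      rwa [h3] at h2
    exact (hasDerivAt_pi.2 h1).deriv
  obtain ⟨h1, h2⟩ := deriv2_comp hf hc (by rw [hu0]; exact fderiv_f8 hB c)
  rw [hu0, hv] at h2
  exact ⟨he.deriv_eq.trans h1, h2.congr_of_eventuallyEq he.deriv⟩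

theorem deriv_E8 (hB : Bl M) {x : ℝ → ZMod 8 → M} (hx : ∀ i, SmAt 𝒜 (fun s => x s i) 0) {c : Gs M} (h0 : x 0 = b8 c) :
    deriv (fun s => E8 (x s)) 0 = 0 ∧ HasDerivAt (deriv fun s => E8 (x s)) (H8 𝒜 c (vel8 𝒜 x)) 0 :=
  deriv_E8_two hB (fun i => (hx i).sm2) h0

theorem deriv2_E8 (hB : Bl M) {x : ℝ → ZMod 8 → M} (hx : ∀ i, SmAt 𝒜 (fun s => x s i) 0) {c : Gs M} (h0 : x 0 = b8 c) :
    deriv (deriv fun s => E8 (x s)) 0 = H8 𝒜 c (vel8 𝒜 x) := (deriv_E8 hB hx h0).2.deriv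

/-- **(LEN)** -/
theorem H8_le (hB : Bl M) {x : ℝ → ZMod 8 → M} (hx : ∀ i, SmAt 𝒜 (fun s => x s i) 0) {c : Gs M} (h0 : x 0 = b8 c)
    {m : ℝ} (hf : ∃ᶠ s in 𝓝[>] (0 : ℝ), E8 (x s) ≤ 2 * π ^ 2 - m * s ^ 2) : H8 𝒜 c (vel8 𝒜 x) ≤ -(2 * m) := by
  rw [← deriv2_E8 hB hx h0]
  refine second_le ((contDiffAt_E8_b8 hB hx h0).of_le (by norm_cast)) (deriv_E8 hB hx h0).1 ?_
  have h1 : E8 (x 0) = 2 * π ^ 2 := by rw [h0, E8_b8 𝒜 hB]
  rw [h1]
  exact hf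

/-! ### families -/

/-- the second derivative of the energy in a family -/
theorem H8_eq_fam (hB : Bl M) {σ : Gs M} {x : E → ℝ → ZMod 8 → M} {v : E}
    (hx : ∀ i, Sm2 𝒜 (fun z : E × ℝ => x z.1 z.2 i) (v, 0)) (hh : ContDiffAt ℝ 2 (fun z : E × ℝ => E8 (x z.1 z.2)) (v, 0))
    (h0 : x v 0 = b8 σ) :
    deriv (fun s => E8 (x v s)) 0 = 0 ∧
      fderiv ℝ (fderiv ℝ fun z : E × ℝ => E8 (x z.1 z.2)) (v, 0) (0, 1) (0, 1) = H8 𝒜 σ (vel8 𝒜 (x v)) := by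
  have h1 : ∀ i, Sm2 𝒜 (fun s => x v s i) 0 := fun i =>
    Sm2.comp (g := fun z : E × ℝ => x z.1 z.2 i) (f := fun s : ℝ => (v, s)) (hx i) (contDiffAt_const.prodMk contDiffAt_id)
  have h2 := deriv_E8_two hB h1 h0
  have h3 := deriv2_snd hh
  exact ⟨h2.1, h3.2.unique h2.2⟩

/-- **(GL), local form** -/
theorem gl_local (hB : Bl M) {σ : E → Gs M} {x : E → ℝ → ZMod 8 → M} {u : E}
    (hx : ∀ i, SmAt 𝒜 (fun z : E × ℝ => x z.1 z.2 i) (u, 0)) (h0 : x u 0 = b8 (σ u))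
    (hneg : H8 𝒜 (σ u) (vel8 𝒜 (x u)) < 0) :
    ∃ ε s0 : ℝ, 0 < ε ∧ 0 < s0 ∧ ∀ᶠ v in 𝓝 u, x v 0 = b8 (σ v) → ∀ s, |s| ≤ s0 → E8 (x v s) ≤ 2 * π ^ 2 - ε * s ^ 2 := by
  have hh : ContDiffAt ℝ 2 (fun z : E × ℝ => E8 (x z.1 z.2)) (u, 0) :=
    (contDiffAt_E8_b8 (x := fun z : E × ℝ => x z.1 z.2) hB hx h0).of_le (by norm_cast)
  obtain ⟨ε, s0, hε, hs0, h1⟩ := taylor_le hh (by rw [(H8_eq_fam hB (fun i => (hx i).sm2) hh h0).2]; exact hneg)
  refine ⟨ε, s0, hε, hs0, ?_⟩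
  have h2 : ∀ᶠ z in 𝓝 (u, (0 : ℝ)), ∀ i, Sm2 𝒜 (fun z : E × ℝ => x z.1 z.2 i) z := by
    rw [eventually_all]
    exact fun i => (hx i).sm2_near
  have hcu : ContinuousAt (fun v : E => (v, (0 : ℝ))) u := by fun_prop
  have h3 : ∀ᶠ v in 𝓝 u, ∀ i, Sm2 𝒜 (fun z : E × ℝ => x z.1 z.2 i) (v, 0) := hcu.eventually h2
  have h4 : ∀ᶠ v in 𝓝 u, ContDiffAt ℝ 2 (fun z : E × ℝ => E8 (x z.1 z.2)) (v, 0) := hcu.eventually (hh.eventually (by simp))
  filter_upwards [h1, h3, h4] with v h5 h6 h7 h8 s hs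
  have h9 := h5 (H8_eq_fam hB h6 h7 h8).1 s hs
  have h10 : E8 (x v 0) = 2 * π ^ 2 := by rw [h8, E8_b8 𝒜 hB]
  rw [← h10]
  exact h9

/-- **`H8` is smooth along smooth families** -/
theorem contDiffAt_H8_fam (hB : Bl M) {σ : E → Gs M} {x : E → ℝ → ZMod 8 → M} {u : E}
    (hx : ∀ i, SmAt 𝒜 (fun z : E × ℝ => x z.1 z.2 i) (u, 0)) (h0 : ∀ᶠ v in 𝓝 u, x v 0 = b8 (σ v)) :
    ContDiffAt ℝ ∞ (fun v => H8 𝒜 (σ v) (vel8 𝒜 (x v))) u := by
  have hh : ContDiffAt ℝ ∞ (fun z : E × ℝ => E8 (x z.1 z.2)) (u, 0) :=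
    contDiffAt_E8_b8 (x := fun z : E × ℝ => x z.1 z.2) hB hx h0.self_of_nhds
  have h2 : ∀ᶠ z in 𝓝 (u, (0 : ℝ)), ∀ i, Sm2 𝒜 (fun z : E × ℝ => x z.1 z.2 i) z := by
    rw [eventually_all]
    exact fun i => (hx i).sm2_near
  have hcu : ContinuousAt (fun v : E => (v, (0 : ℝ))) u := by fun_prop
  have h3 : ∀ᶠ v in 𝓝 u, ∀ i, Sm2 𝒜 (fun z : E × ℝ => x z.1 z.2 i) (v, 0) := hcu.eventually h2
  have h4 : ∀ᶠ v in 𝓝 u, ContDiffAt ℝ 2 (fun z : E × ℝ => E8 (x z.1 z.2)) (v, 0) :=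
    hcu.eventually ((hh.of_le (m := 2) (by norm_cast)).eventually (by simp))
  have h5 : ContDiffAt ℝ ∞ (fun v : E => fderiv ℝ (fderiv ℝ fun z : E × ℝ => E8 (x z.1 z.2)) (v, 0) (0, 1) (0, 1)) u := by
    have e1 : ContDiffAt ℝ ∞ (fderiv ℝ (fderiv ℝ fun z : E × ℝ => E8 (x z.1 z.2))) (u, 0) :=
      (hh.fderiv_right (m := ∞) (by simp)).fderiv_right (by simp)
    have e2 := ContDiffAt.comp (g := fderiv ℝ (fderiv ℝ fun z : E × ℝ => E8 (x z.1 z.2))) (f := fun v : E => (v, (0 : ℝ))) u e1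
      (contDiffAt_id.prodMk contDiffAt_const)
    exact (e2.clm_apply contDiffAt_const).clm_apply contDiffAt_const
  refine h5.congr_of_eventuallyEq ?_
  filter_upwards [h0, h3, h4] with v h6 h7 h8
  exact (H8_eq_fam hB h7 h8 h6).2.symm

/-- the curve of 8-gons with given velocities -/
def ex8 (𝒜 : SDist n M) (c : Gs M) (a : ZMod 8 → Eu n) (s : ℝ) (i : ZMod 8) : M := 𝒜.Ex (b8 c i) (s • a i)

theorem ex8_zero (hB : Bl M) (c : Gs M) (a : ZMod 8 → Eu n) : ex8 𝒜 c a 0 = b8 c := by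
  funext i
  show 𝒜.Ex (b8 c i) ((0 : ℝ) • a i) = b8 c i
  rw [zero_smul, Ex_zero 𝒜 hB]

theorem smAt_b8 (hB : Bl M) {σ : E → Gs M} {u : E} (hσ : SmGAt 𝒜 σ u) (i : ZMod 8) : SmAt 𝒜 (fun v => b8 (σ v) i) u :=
  hσ.ev hB (t := fun _ => t8 i) contDiffAt_const

/-- smooth families of 8-gons with given velocities -/
theorem smAt_ex8 (hB : Bl M) {σ : E → Gs M} {u : E} (hσ : SmGAt 𝒜 σ u) {a : E → ZMod 8 → Eu n}
    (ha : ∀ i, SmV 𝒜 (b8 (σ u) i) (fun v => b8 (σ v) i) (fun v => a v i) u) (s : ℝ) (i : ZMod 8) :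
    SmAt 𝒜 (fun z : E × ℝ => ex8 𝒜 (σ z.1) (a z.1) z.2 i) (u, s) := by
  have h1 : SmAt 𝒜 (fun z : E × ℝ => b8 (σ z.1) i) (u, s) := (smAt_b8 hB hσ i).prod_left
  have h2 : SmV 𝒜 (b8 (σ u) i) (fun z : E × ℝ => b8 (σ z.1) i) (fun z => a z.1 i) (u, s) :=
    SmV.comp (f := fun z : E × ℝ => z.1) (v := (u, s)) (ha i) contDiffAt_fst
  exact smAt_Ex2 hB (p := b8 (σ u) i) h1 (𝒜.mem _) (h2.smul (f := fun z : E × ℝ => z.2) contDiffAt_snd)

theorem DE_zero (hB : Bl M) (p : M) (a : Eu n) : 𝒜.DE p 0 a = a := by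
  by_cases h0 : a = 0
  · rw [h0, map_zero]
  · have h1 : ‖‖a‖⁻¹ • a‖ = 1 := by rw [norm_smul, norm_inv, norm_norm, inv_mul_cancel₀ (norm_ne_zero_iff.2 h0)]
    have h2 := vel_gv 𝒜 hB p h1 0
    rw [zero_smul, (gv_spec 𝒜 hB p h1).2.2] at h2
    have h3 : a = ‖a‖ • (‖a‖⁻¹ • a) := by rw [smul_smul, mul_inv_cancel₀ (norm_ne_zero_iff.2 h0), one_smul]
    calc 𝒜.DE p 0 a = 𝒜.DE p 0 (‖a‖ • (‖a‖⁻¹ • a)) := by rw [← h3]
      _ = ‖a‖ • 𝒜.DE p 0 (‖a‖⁻¹ • a) := map_smul _ _ _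
      _ = a := by rw [h2, ← h3]

theorem vel_Ex (hB : Bl M) (p : M) (a : Eu n) : 𝒜.vel (fun s => 𝒜.Ex p (s • a)) 0 = a := by
  have h1 := hasFDerivAt_DE 𝒜 hB p ((0 : ℝ) • a)
  have h2 : HasDerivAt (fun s : ℝ => s • a) a 0 := by
    have := (hasDerivAt_id (0 : ℝ)).smul_const a
    rwa [one_smul] at this
  have h3 := h1.comp_hasDerivAt 0 h2
  have h4 : 𝒜.DE p ((0 : ℝ) • a) a = a := by rw [zero_smul, DE_zero hB]
  rw [h4] at h3
  exact h3.deriv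

theorem vel8_ex8 (hB : Bl M) (c : Gs M) (a : ZMod 8 → Eu n) : vel8 𝒜 (ex8 𝒜 c a) = a :=
  funext fun i => vel_Ex hB (b8 c i) (a i)

/-- **`H8 𝒜 (σ v) (a v)` is smooth for smooth vector fields along the vertices** -/
theorem contDiffAt_H8 (hB : Bl M) {σ : E → Gs M} {u : E} (hσ : SmGAt 𝒜 σ u) {a : E → ZMod 8 → Eu n}
    (ha : ∀ i, SmV 𝒜 (b8 (σ u) i) (fun v => b8 (σ v) i) (fun v => a v i) u) :
    ContDiffAt ℝ ∞ (fun v => H8 𝒜 (σ v) (a v)) u := by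
  have h1 := contDiffAt_H8_fam (σ := σ) (x := fun v => ex8 𝒜 (σ v) (a v)) hB
    (fun i => smAt_ex8 hB hσ ha 0 i) (Eventually.of_forall fun v => ex8_zero hB (σ v) (a v))
  simp only [vel8_ex8 hB] at h1
  exact h1

end Pool.Agent.Lib.MP_ccbbf6_gt.K7.HQ
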