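import Pool.Agent.Lib.MP_ccbbf6_gt.K7.DP6a
import Pool.Agent.Lib.MP_ccbbf6_gt.K7.GJ2
import Pool.Agent.Lib.MP_ccbbf6_gt.K7.HQ1
import Pool.Agent.Lib.MP_ccbbf6_gt.K7.RG8

/-!
# `κ = 7`, density path, part 11: the two ends of the chain (helper25)

* `vel8_Cxr` : the velocities of the 8-gons of the push-off of constant speed are the first variations `X1`.
* `X1_XE` : these are the velocities `XE` of the density of the joint section.
-/

set_option autoImplicit false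
set_option linter.unusedSectionVars false

open Set Filter Topology Metric Real Module
open scoped ContDiff RealInnerProductSpace

noncomputable section

namespace Pool.Agent.Lib.MP_ccbbf6_gt.K7.DP

open L4 Geo L4.ORI L5 L5.NEG RG HQ GG

variable {n : ℕ} {M : Type} [MetricSpace M] [CompactSpace M] {𝒜 : SDist n M}

/-- the velocity of the push-off of constant speed -/
theorem vel_Cxr (hB : Bl M) {L : ℕ} {T : Rt (Eu L)} {C : Eu L → Gs M → M} (hC : PFamR 𝒜 T C) (c : Gs M) (x : Eu L) :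
    𝒜.vel (fun s : ℝ => Cxr 𝒜 T C (s • x) c) 0 = X1 𝒜 C c x := by
  obtain ⟨a, ha⟩ : ∃ a, a = aar 𝒜 T C c x := ⟨_, rfl⟩
  have hG : SmAt 𝒜 (fun z : ℝ × ℝ => C (T.r z.2 (z.1 • x)) (shift z.2 c)) (0, 0) :=
    hC.smooth (σ := fun z : ℝ × ℝ => shift z.2 c) ((smGAt_const c ((0, 0) : ℝ × ℝ)).shift hB contDiffAt_snd)
      (ξ := fun z : ℝ × ℝ => T.r z.2 (z.1 • x)) (T.smooth_ap contDiffAt_snd (contDiffAt_fst.smul contDiffAt_const))
  have h1 := hG.2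
  simp only [zero_smul, map_zero, hC.zero, shift_zero] at h1
  obtain ⟨H, hH⟩ : ∃ H : ℝ × ℝ → Eu n, H = fun z => 𝒜.ψ (c.1 0) (C (T.r z.2 (z.1 • x)) (shift z.2 c)) := ⟨_, rfl⟩
  have h2 : HasFDerivAt H (fderiv ℝ H (0, 0)) (0, 0) := by
    rw [hH]
    exact (h1.differentiableAt (by simp)).hasFDerivAt
  have g1 : HasDerivAt (fun s : ℝ => (s, s ^ 2 * a)) ((1 : ℝ), (0 : ℝ)) 0 := by
    have e1 : HasDerivAt (fun s : ℝ => s ^ 2 * a) 0 0 := by
      have := (hasDerivAt_pow 2 (0 : ℝ)).mul_const a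
      simpa using this
    exact (hasDerivAt_id (0 : ℝ)).prodMk e1
  have g2 : HasDerivAt (fun s : ℝ => (s, (0 : ℝ))) ((1 : ℝ), (0 : ℝ)) 0 :=
    (hasDerivAt_id (0 : ℝ)).prodMk (hasDerivAt_const (0 : ℝ) (0 : ℝ))
  have k1 : HasDerivAt (fun s : ℝ => H (s, s ^ 2 * a)) (fderiv ℝ H (0, 0) (1, 0)) 0 := by
    have h3 : HasFDerivAt H (fderiv ℝ H (0, 0)) ((fun s : ℝ => (s, s ^ 2 * a)) 0) := by
      have : ((fun s : ℝ => (s, s ^ 2 * a)) 0) = ((0 : ℝ), (0 : ℝ)) := by simp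
      rw [this]
      exact h2
    exact HasFDerivAt.comp_hasDerivAt (l := H) (f := fun s : ℝ => (s, s ^ 2 * a)) (0 : ℝ) h3 g1
  have k2 : HasDerivAt (fun s : ℝ => H (s, 0)) (fderiv ℝ H (0, 0) (1, 0)) 0 := by
    have h3 : HasFDerivAt H (fderiv ℝ H (0, 0)) ((fun s : ℝ => (s, (0 : ℝ))) 0) := h2
    exact HasFDerivAt.comp_hasDerivAt (l := H) (f := fun s : ℝ => (s, (0 : ℝ))) (0 : ℝ) h3 g2
  have k3 : HasDerivAt (fun s : ℝ => 𝒜.ψ (c.1 0) (C (s • x) c)) (X1 𝒜 C c x) 0 := by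
    have e1 : SmAt 𝒜 (fun ξ : Eu L => C ξ c) 0 := hC.smooth (smGAt_const c (0 : Eu L)) contDiffAt_id
    have e2 := e1.2
    simp only [hC.zero] at e2
    have hl : HasDerivAt (fun θ : ℝ => θ • x) x 0 := by
      have := (hasDerivAt_id (0 : ℝ)).smul_const x
      rwa [one_smul] at this
    have e3 : HasFDerivAt (fun ξ : Eu L => 𝒜.ψ (c.1 0) (C ξ c)) (X1 𝒜 C c) ((fun θ : ℝ => θ • x) 0) := by
      show HasFDerivAt _ _ ((0 : ℝ) • x)
      rw [zero_smul]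
      exact (e2.differentiableAt (by simp)).hasFDerivAt
    exact HasFDerivAt.comp_hasDerivAt (l := fun ξ : Eu L => 𝒜.ψ (c.1 0) (C ξ c)) (f := fun θ : ℝ => θ • x) (0 : ℝ) e3 hl
  have k4 : (fun s : ℝ => H (s, 0)) = fun s : ℝ => 𝒜.ψ (c.1 0) (C (s • x) c) := by
    rw [hH]
    funext s
    simp only [T.zero, shift_zero]
  rw [k4] at k2
  have k5 := k2.unique k3
  have k6 : (fun s : ℝ => 𝒜.ψ (Cxr 𝒜 T C ((0 : ℝ) • x) c) (Cxr 𝒜 T C (s • x) c)) = fun s : ℝ => H (s, s ^ 2 * a) := by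
    funext s
    rw [zero_smul, hC.Cxr_zero hB, hH, ha]
    simp only [Cxr, hC.aar_smul hB]
  show deriv (fun s : ℝ => 𝒜.ψ (Cxr 𝒜 T C ((0 : ℝ) • x) c) (Cxr 𝒜 T C (s • x) c)) 0 = _
  rw [k6, k1.deriv, k5]

variable {N : ℕ} {CR : Eu (N + (N + N)) → Gs M → M}

/-- **the velocities of the 8-gons of the push-off of constant speed** -/
theorem vel8_Cxr (hB : Bl M) (h : PFamR 𝒜 (rt N) CR) (c : Gs M) (ξ : Eu (N + (N + N))) :
    vel8 𝒜 (fun s i => Cxr 𝒜 (rt N) CR ((rt N).r (t8 i) (s • ξ)) (shift (t8 i) c)) =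
      fun i => X1 𝒜 CR (shift (t8 i) c) ((rt N).r (t8 i) ξ) := by
  funext i
  show 𝒜.vel (fun s : ℝ => Cxr 𝒜 (rt N) CR ((rt N).r (t8 i) (s • ξ)) (shift (t8 i) c)) 0 = _
  simp only [map_smul]
  exact vel_Cxr hB h (shift (t8 i) c) ((rt N).r (t8 i) ξ)

variable {P : Gs M → Eu N →L[ℝ] Eu N} {kG : Eu N → Eu N → Gs M → Eu n} {hB : Bl M} {e : Emb n 𝒜}
  {Φ : e.Q → (Eu N →L[ℝ] EuclideanSpace ℝ (Fin e.q))}

/-- the first variations are the velocities of the density of the joint section -/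
theorem X1_XE_of (t : TEmb 𝒜) (h : JFam hB e Φ kG CR) (c : Gs M) (ξ : Eu (N + (N + N))) {Y : ℝ → HR t.D}
    (hY : ∀ s, tA t ((shift s c).1 0) (Y s) = kJ kG e Φ ((rt N).r s ξ) (shift s c)) (i : ZMod 8) :
    X1 𝒜 CR (shift (t8 i) c) ((rt N).r (t8 i) ξ) = XE t hB c Y i := by
  rw [h.x1]
  unfold XE
  refine intervalIntegral.integral_congr fun b _ => ?_
  have h1 : shift b (shift (t8 i) c) = shift (t8 i + b) c := shift_comm' (t8 i) b c
  have h2 : (rt N).r b ((rt N).r (t8 i) ξ) = (rt N).r (t8 i + b) ξ := by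
    rw [← (rt N).add, add_comm b (t8 i)]
  simp only [h1, h2, hY]

/-- **the first variations as velocities of a density**; `z x y c` : the twisted densities -/
theorem X1_XE (t : TEmb 𝒜) (h : JFam hB e Φ kG CR) {z : Eu N → Eu N → Gs M → ℝ → HC t.D}
    (hkG : ∀ x y c, kG x y c = tA t (c.1 0) (reH t.D (z x y c 0)))
    (hz : ∀ x y c s, z (Real.cos (s / 2) • x - Real.sin (s / 2) • y) (Real.sin (s / 2) • x + Real.cos (s / 2) • y)
      (shift s c) 0 = RD.tw (1 / 2) (z x y c) s) (c : Gs M) (ξ : Eu (N + (N + N))) (i : ZMod 8) :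
    X1 𝒜 CR (shift (t8 i) c) ((rt N).r (t8 i) ξ) =
      XE t hB c (fun s => ts t (kf e Φ (q0 ξ)) c s + reH t.D (RD.tw (1 / 2) (z (q1 ξ) (q2 ξ) c) s)) i := by
  refine X1_XE_of t h c ξ (fun s => ?_) i
  rw [map_add]
  unfold ts kJ
  rw [tA_tI, hkG]
  simp only [rt_r, q0_rtr, q1_rtr, q2_rtr, hz]

end Pool.Agent.Lib.MP_ccbbf6_gt.K7.DP
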