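import Pool.Agent.Lib.MP_ccbbf6_gt.K7.FB6
import Pool.Agent.Lib.MP_ccbbf6_gt.L5.NHa

/-!
# `κ = 7`, block F, part B7: the map `Φ` into the space of four geodesics (helper53)

* `VSec f w`, `nG` : the geodesic with direction `w / |w|`, `w` a section of `V` along `f : X → UM`;
* `KSec f y` : `y` a section of `K` along `f`; `phi3 y0 y1 y2 : X → T4`, `x ↦ (c, nrm (- 3 c + y0), nrm (3 c + y1), nrm (- 3 c + y2))`;
* `phi3_ΦZ` : `phi3` in the frames of `V`.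
-/

set_option autoImplicit false
set_option maxSynthPendingDepth 3

open Set Filter Topology MeasureTheory
open scoped TensorProduct ContDiff RealInnerProductSpace

noncomputable section

namespace Pool.Agent.Lib.MP_ccbbf6_gt.K7

open L4 L4.FR L4.ORI L5 L5.NEG Geo

variable {n : ℕ} {M : Type} [MetricSpace M] [CompactSpace M] {𝒜 : SDist n M} {X Y : Space}

/-- nonzero smooth sections of `V` along `f` -/
structure VSec (hB : Bl M) (f : SMap X (spG 𝒜)) (w : X.pt → Eu n) : Prop where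
  mem : ∀ x, w x ∈ VF 𝒜 ((gF hB).1 (f.1 x))
  ne : ∀ x, w x ≠ 0
  sm : ∀ {k : ℕ} (p : X.Plot k) (z : V k),
    SmV 𝒜 ((f.1 (p.1 z)).1 0) (fun v => (f.1 (p.1 v)).1 0) (fun v => w (p.1 v)) z

/-- smooth sections of `K` along `f` -/
structure KSec (f : SMap X (spG 𝒜)) (y : X.pt → Eu n) : Prop where
  mem : ∀ x, y x ∈ Kc 𝒜 (f.1 x)
  sm : ∀ {k : ℕ} (p : X.Plot k) (z : V k),
    SmV 𝒜 ((f.1 (p.1 z)).1 0) (fun v => (f.1 (p.1 v)).1 0) (fun v => y (p.1 v)) z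

variable {hB : Bl M} {f : SMap X (spG 𝒜)} {w : X.pt → Eu n}

theorem VSec.nrm (h : VSec hB f w) (x : X.pt) : ‖‖w x‖⁻¹ • w x‖ = 1 := by
  rw [norm_smul, norm_inv, norm_norm]
  exact inv_mul_cancel₀ (norm_ne_zero_iff.2 (h.ne x))

/-- normalisation of a smooth field -/
theorem smV_nrm {E : Type} [NormedAddCommGroup E] [NormedSpace ℝ E] {p : M} {x : E → M} {w : E → Eu n} {u : E}
    (hx : SmAt 𝒜 x u) (hp : x u ∈ (𝒜.ψ p).source) (h : SmV 𝒜 p x w u) (h0 : w u ≠ 0) :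
    SmV 𝒜 p x (fun v => ‖w v‖⁻¹ • w v) u := by
  have h1 : ContDiffAt ℝ ∞ (fun v => ⟪w v, w v⟫) u := SmV.inner hx hp h h
  have h2 : ContDiffAt ℝ ∞ (fun v => ‖w v‖⁻¹) u := by
    have h3 : (fun v => ‖w v‖⁻¹) = fun v => (√⟪w v, w v⟫)⁻¹ := by
      funext v
      rw [real_inner_self_eq_norm_sq, Real.sqrt_sq (norm_nonneg _)]
    rw [h3]
    have h4 : ⟪w u, w u⟫ ≠ 0 := by
      rw [real_inner_self_eq_norm_sq]
      exact pow_ne_zero 2 (norm_ne_zero_iff.mpr h0)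
    refine (h1.sqrt h4).inv ?_
    rw [real_inner_self_eq_norm_sq, Real.sqrt_sq (norm_nonneg _)]
    exact norm_ne_zero_iff.mpr h0
  exact SmV.smul h h2

theorem plot_foot (f : SMap X (spG 𝒜)) {k : ℕ} (p : X.Plot k) (hB : Bl M) : Sm 𝒜 fun v => (f.1 (p.1 v)).1 0 :=
  ((foot hB 0).pl (f.pl p)).2

/-- **the geodesic with direction `w / |w|`** -/
def nG (h : VSec hB f w) : SMap X (spG 𝒜) :=
  ⟨fun x => gvg 𝒜 hB ((f.1 x).1 0) (‖w x‖⁻¹ • w x) (h.nrm x), fun _ p =>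
    smG_gvg hB (plot_foot f p hB) (fun z => h.nrm (p.1 z)) fun z =>
      smV_nrm (plot_foot f p hB z) (𝒜.mem _) (h.sm p z) (h.ne _)⟩

theorem nG_foot (h : VSec hB f w) (x : X.pt) : ((nG h).1 x).1 0 = (f.1 x).1 0 := (gvg_vel 𝒜 hB _ _ (h.nrm x)).1

theorem nG_vel (h : VSec hB f w) (x : X.pt) : 𝒜.vel ((nG h).1 x).1 0 = ‖w x‖⁻¹ • w x := (gvg_vel 𝒜 hB _ _ (h.nrm x)).2

theorem nG_gF (h : VSec hB f w) (x : X.pt) : (gF hB).1 (f.1 x) = (gF hB).1 ((nG h).1 x) :=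
  (gvg_VF hB ((gF hB).1 (f.1 x)) (Submodule.smul_mem _ _ (h.mem x)) (h.nrm x)).symm

theorem nG_ext {g : SMap X (spG 𝒜)} (h : VSec hB f w) (x : X.pt) {c : Gs M} (h1 : c.1 0 = (f.1 x).1 0)
    (h2 : 𝒜.vel c.1 0 = ‖w x‖⁻¹ • w x) : (nG h).1 x = c :=
  eq_of_vel' 𝒜 ((nG_foot h x).trans h1.symm) ((nG_vel h x).trans h2.symm)

/-! ### sections of `K` -/

theorem vel_sm (f : SMap X (spG 𝒜)) (hB : Bl M) {k : ℕ} (p : X.Plot k) (z : V k) :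
    SmV 𝒜 ((f.1 (p.1 z)).1 0) (fun v => (f.1 (p.1 v)).1 0) (fun v => 𝒜.vel (f.1 (p.1 v)).1 0) z :=
  smV_G hB (f.pl p) z

variable {y : X.pt → Eu n}

theorem KSec.perp (h : KSec f y) (x : X.pt) : ⟪𝒜.vel (f.1 x).1 0, y x⟫ = 0 := (mem_Kc_iff.1 (h.mem x)).2

theorem KSec.norm (h : KSec f y) (r : ℝ) (x : X.pt) : ‖r • 𝒜.vel (f.1 x).1 0 + y x‖ ^ 2 = ‖y x‖ ^ 2 + r ^ 2 := by
  have h1 := norm_add_sq_real (r • 𝒜.vel (f.1 x).1 0) (y x)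
  rw [real_inner_smul_left, h.perp, norm_smul, vel_norm, mul_one, Real.norm_eq_abs, sq_abs] at h1
  rw [h1]
  ring

/-- the section `r c + y` -/
def kw (𝒜 : SDist n M) (f : SMap X (spG 𝒜)) (r : ℝ) (y : X.pt → Eu n) (x : X.pt) : Eu n := r • 𝒜.vel (f.1 x).1 0 + y x

theorem KSec.vsec (h : KSec f y) (hB : Bl M) {r : ℝ} (hr : r ≠ 0) : VSec hB f (kw 𝒜 f r y) where
  mem x := by
    refine Submodule.add_mem _ (Submodule.smul_mem _ _ (vel_mem_VF hB _)) ?_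
    rw [VF_gF hB]
    exact (mem_Kc_iff.1 (h.mem x)).1
  ne x h0 := by
    have h1 := h.norm r x
    have h2 : kw 𝒜 f r y x = r • 𝒜.vel (f.1 x).1 0 + y x := rfl
    rw [← h2, h0, norm_zero] at h1
    have h3 : 0 < r ^ 2 := by positivity
    nlinarith [sq_nonneg ‖y x‖]
  sm p z := SmV.add (SmV.smul (vel_sm f hB p z) contDiffAt_const) (h.sm p z)

section phi

variable {y0 y1 y2 : X.pt → Eu n} (hk : 𝒜.HK 7) (hL : LocV 𝒜 7) {Ψ : Om (spG 𝒜)} (hΨ : Deg 7 Ψ)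
  (or0 : OrV hB hk hL Ψ) (hκ : 1 ≤ 7) (k0 : KSec f y0) (k1 : KSec f y1) (k2 : KSec f y2)

theorem ne_m3 : (-3 : ℝ) ≠ 0 := by norm_num

theorem ne_p3 : (3 : ℝ) ≠ 0 := by norm_num

/-- `(c, nrm (- 3 c + y0))` -/
def ph2 : SMap X (T2 (bV hB hk hL hΨ or0 hκ)) := fpM f (nG (k0.vsec hB ne_m3)) fun x => nG_gF _ x

/-- `(c, nrm (- 3 c + y0), nrm (3 c + y1))` -/
def ph3 : SMap X (T3 (bV hB hk hL hΨ or0 hκ)) := fpM (ph2 hk hL hΨ or0 hκ k0) (nG (k1.vsec hB ne_p3)) fun x => nG_gF _ x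

/-- **`(c, nrm (- 3 c + y0), nrm (3 c + y1), nrm (- 3 c + y2))`** -/
def phi3 : SMap X (T4 (bV hB hk hL hΨ or0 hκ)) :=
  fpM (ph3 hk hL hΨ or0 hκ k0 k1) (nG (k2.vsec hB ne_m3)) fun x => nG_gF _ x

end phi

/-! ### the coordinates -/

section coord

variable {κ : ℕ} (hk : 𝒜.HK κ) (hL : LocV 𝒜 κ) {Ψ : Om (spG 𝒜)} (hΨ : Deg κ Ψ) (or0 : OrV hB hk hL Ψ) (hκ : 1 ≤ κ)

theorem norm_sum_fr {r : ℕ} {E : Type} [NormedAddCommGroup E] [InnerProductSpace ℝ E] {a : Fin r → E} (ha : Orthonormal ℝ a)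
    (ξ : V r) : ‖∑ i, ξ i • a i‖ = ‖toE ξ‖ := by
  have h1 : ‖∑ i, ξ i • a i‖ ^ 2 = ∑ i, ξ i * ξ i := by
    rw [← real_inner_self_eq_norm_sq]
    exact ha.inner_sum ξ ξ Finset.univ
  have h2 : ‖toE ξ‖ ^ 2 = ∑ i, ξ i * ξ i := by
    rw [tsq]
    exact Finset.sum_congr rfl fun i _ => pow_two _
  exact (sq_eq_sq₀ (norm_nonneg _) (norm_nonneg _)).1 (h1.trans h2.symm)

theorem nG_ptm (h : VSec hB f w) (x : X.pt) (z : (bV hB hk hL hΨ or0 hκ).F.pt)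
    (hq : f.1 x = (bV hB hk hL hΨ or0 hκ).q1.1 z) (ξ : V (κ + 1)) (hξ : ξ ≠ 0) (hw : w x = ∑ i, ξ i • z.1.2 i) :
    (nG h).1 x = (bV hB hk hL hΨ or0 hκ).ptm.1 ⟨(z, ξ), hξ⟩ := by
  refine eq_of_vel' 𝒜 ?_ ?_
  · have h1 : (gF hB).1 ((bV hB hk hL hΨ or0 hκ).q1.1 z) = z.1.1 := (bV hB hk hL hΨ or0 hκ).pi_pt _
    have h2 : (gF hB).1 ((bV hB hk hL hΨ or0 hκ).ptm.1 ⟨(z, ξ), hξ⟩) = z.1.1 := (bV hB hk hL hΨ or0 hκ).pi_pt _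
    have h3 : (gF hB).1 ((nG h).1 x) = (gF hB).1 ((bV hB hk hL hΨ or0 hκ).ptm.1 ⟨(z, ξ), hξ⟩) := by
      rw [h2, ← nG_gF h x, hq, h1]
    exact congrArg (fun t : (spF 𝒜).pt => t.1.1) h3
  · rw [nG_vel, vel_ptm, hw, norm_sum_fr z.2.1.2]

end coord

theorem sum_snoc {E : Type} [AddCommGroup E] [Module ℝ E] {N : ℕ} (a : Fin (N + 1) → E) (x : V N) (r : ℝ) :
    ∑ i, (cyc N).mulVec (Fin.snoc x r : V (N + 1)) i • a i = r • a 0 + ∑ i : Fin N, x i • a i.succ := by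
  rw [Fin.sum_univ_succ, cyc_zero, Fin.snoc_last]
  simp only [cyc_succ, Fin.snoc_castSucc]

section ΦZ

variable {y0 y1 y2 : X.pt → Eu n} (hk : 𝒜.HK 7) (hL : LocV 𝒜 7) {Ψ : Om (spG 𝒜)} (hΨ : Deg 7 Ψ)
  (or0 : OrV hB hk hL Ψ) (hκ : 1 ≤ 7) (k0 : KSec f y0) (k1 : KSec f y1) (k2 : KSec f y2)

theorem nG_cyc {y : X.pt → Eu n} (h : KSec f y) {r : ℝ} (hr : r ≠ 0) (x : X.pt) (z : (bV hB hk hL hΨ or0 hκ).F.pt)
    (hq : f.1 x = (bV hB hk hL hΨ or0 hκ).q1.1 z) (x0 : V 7) (hy : y x = ∑ i : Fin 7, x0 i • z.1.2 i.succ)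
    (hne : (cyc 7).mulVec (Fin.snoc x0 r : V (7 + 1)) ≠ 0) :
    (nG (h.vsec hB hr)).1 x = (bV hB hk hL hΨ or0 hκ).ptm.1 ⟨(z, (cyc 7).mulVec (Fin.snoc x0 r : V (7 + 1))), hne⟩ := by
  refine nG_ptm hk hL hΨ or0 hκ (h.vsec hB hr) x z hq _ hne ?_
  rw [sum_snoc]
  change r • 𝒜.vel (f.1 x).1 0 + y x = _
  rw [hq, vel_q1, hy]

theorem snoc_ne (x0 : V 7) {r : ℝ} (hr : r ≠ 0) : (Fin.snoc x0 r : V (7 + 1)) ≠ 0 := fun h => hr (by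
  have h1 := congrFun h (Fin.last 7)
  rw [Fin.snoc_last] at h1
  exact h1)

theorem ph2_px2 (x : X.pt) (z : (bV hB hk hL hΨ or0 hκ).F.pt) (hq : f.1 x = (bV hB hk hL hΨ or0 hκ).q1.1 z) (x0 : V 7)
    (h0 : y0 x = ∑ i : Fin 7, x0 i • z.1.2 i.succ) :
    (ph2 hk hL hΨ or0 hκ k0).1 x = (fraV hB hk hL hΨ or0 hκ).px2.1 (z, x0) := by
  have h1 := nG_cyc hk hL hΨ or0 hκ k0 ne_m3 x z hq x0 h0 (mulVec_ne (cyc_sq 7) (snoc_ne x0 ne_m3))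
  exact Subtype.ext (Prod.ext hq h1)

theorem ph3_px3 (x : X.pt) (z : (bV hB hk hL hΨ or0 hκ).F.pt) (hq : f.1 x = (bV hB hk hL hΨ or0 hκ).q1.1 z) (x0 x1 : V 7)
    (h0 : y0 x = ∑ i : Fin 7, x0 i • z.1.2 i.succ) (h1 : y1 x = ∑ i : Fin 7, x1 i • z.1.2 i.succ) :
    (ph3 hk hL hΨ or0 hκ k0 k1).1 x = (fraV hB hk hL hΨ or0 hκ).px3.1 ((z, x0), x1) := by
  have h2 := nG_cyc hk hL hΨ or0 hκ k1 ne_p3 x z hq x1 h1 (mulVec_ne (cyc_sq 7) (snoc_ne x1 ne_p3))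
  have h3 := ph2_px2 hk hL hΨ or0 hκ k0 x z hq x0 h0
  exact Subtype.ext (Prod.ext h3 h2)

theorem phi3_px4 (x : X.pt) (z : (bV hB hk hL hΨ or0 hκ).F.pt) (hq : f.1 x = (bV hB hk hL hΨ or0 hκ).q1.1 z)
    (x0 x1 x2 : V 7) (h0 : y0 x = ∑ i : Fin 7, x0 i • z.1.2 i.succ) (h1 : y1 x = ∑ i : Fin 7, x1 i • z.1.2 i.succ)
    (h2 : y2 x = ∑ i : Fin 7, x2 i • z.1.2 i.succ) :
    (phi3 hk hL hΨ or0 hκ k0 k1 k2).1 x = (fraV hB hk hL hΨ or0 hκ).px4.1 (((z, x0), x1), x2) := by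
  have h3 := nG_cyc hk hL hΨ or0 hκ k2 ne_m3 x z hq x2 h2 (mulVec_ne (cyc_sq 7) (snoc_ne x2 ne_m3))
  have h4 := ph3_px3 hk hL hΨ or0 hκ k0 k1 x z hq x0 x1 h0 h1
  exact Subtype.ext (Prod.ext h4 h3)

end ΦZ

/-- the index set `3 × 7` -/
def p37 : Fin 3 × Fin 7 ≃ Fin (20 + 1) := finProdFinEquiv

theorem p37_val (j : Fin 3) (k : Fin 7) : (p37 (j, k) : ℕ) = k + 7 * j := rfl

/-- the chart in three vectors -/
theorem ΦZ_eq {B F : Space} {bW : SBun 7 B F} (K : Fra bW) (z : K.Z.pt) (η : V (20 + 1)) : K.ΦZ.1 (z, η) =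
    K.px4.1 (((z, fun k => η (p37 (0, k))), fun k => η (p37 (1, k))), fun k => η (p37 (2, k))) := by
  have h0 : hdM 7 7 (hdM (7 + 7) 7 (fun i : Fin (7 + 7 + 7) => η (Fin.cast (by norm_num) i))) = fun k => η (p37 (0, k)) :=
    funext fun k => congrArg η (Fin.ext (by rw [p37_val]; rfl))
  have h1 : tlM 7 7 (hdM (7 + 7) 7 (fun i : Fin (7 + 7 + 7) => η (Fin.cast (by norm_num) i))) = fun k => η (p37 (1, k)) :=
    funext fun k => congrArg η (Fin.ext (by rw [p37_val]; exact Nat.add_comm 7 k))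
  have h2 : tlM (7 + 7) 7 (fun i : Fin (7 + 7 + 7) => η (Fin.cast (by norm_num) i)) = fun k => η (p37 (2, k)) :=
    funext fun k => congrArg η (Fin.ext (by rw [p37_val]; exact Nat.add_comm 14 k))
  rw [← h0, ← h1, ← h2]
  rfl

section ΦY

variable {y : Fin 3 → X.pt → Eu n} (hk : 𝒜.HK 7) (hL : LocV 𝒜 7) {Ψ : Om (spG 𝒜)} (hΨ : Deg 7 Ψ)
  (or0 : OrV hB hk hL Ψ) (hκ : 1 ≤ 7) (k0 : KSec f (y 0)) (k1 : KSec f (y 1)) (k2 : KSec f (y 2))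

/-- **`phi3` in coordinates** -/
theorem phi3_ΦZ (x : X.pt) (z : (bV hB hk hL hΨ or0 hκ).F.pt) (hq : f.1 x = (bV hB hk hL hΨ or0 hκ).q1.1 z)
    (η : V (20 + 1)) (h : ∀ j, y j x = ∑ k : Fin 7, η (p37 (j, k)) • z.1.2 k.succ) :
    (phi3 hk hL hΨ or0 hκ k0 k1 k2).1 x = (fraV hB hk hL hΨ or0 hκ).ΦZ.1 (z, η) := by
  rw [ΦZ_eq]
  exact phi3_px4 hk hL hΨ or0 hκ k0 k1 k2 x z hq _ _ _ (h 0) (h 1) (h 2)

end ΦY

end Pool.Agent.Lib.MP_ccbbf6_gt.K7
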