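import Pool.Agent.Lib.MP_ccbbf6_gt.K7.DP11b
import Pool.Agent.Lib.MP_ccbbf6_gt.K7.FB7

/-!
# `κ = 7`, density path, part 11c: the quadruples `phi3` of FB7 (helper25)

* `qd_phi3` : `phi3` is the quadruple `Qd` of DP11b.
* `vel8_phi3` : the velocities of the midpoints at `s = 0`; `E8_phi3_lt` : `E8 < 2 π ^ 2` away from the diagonal.
-/

set_option autoImplicit false
set_option linter.unusedSectionVars false

open Set Filter Topology Metric Real Module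
open scoped ContDiff RealInnerProductSpace

noncomputable section

namespace Pool.Agent.Lib.MP_ccbbf6_gt.K7.DP

open Geo L4 L4.ORI L4.FR L5 L5.NEG K7 HQ SU

variable {n : ℕ} {M : Type} [MetricSpace M] [CompactSpace M] {𝒜 : SDist n M} {X : Space} {hB : Bl M}
variable (hk : 𝒜.HK 7) (hL : LocV 𝒜 7) {Ψ : Om (spG 𝒜)} (hΨ : Deg 7 Ψ) (or0 : OrV hB hk hL Ψ) (hκ : 1 ≤ 7)

section one

variable {f : SMap X (spG 𝒜)} {y0 y1 y2 : X.pt → Eu n} (k0 : KSec f y0) (k1 : KSec f y1) (k2 : KSec f y2)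

/-- **the quadruples** -/
theorem qd_phi3 (x : X.pt) (s : ℝ) (y : Fin 3 → Eu n) (h0 : y0 x = s • y 0) (h1 : y1 x = s • y 1) (h2 : y2 x = s • y 2) :
    Qd 𝒜 (f.1 x) y s (g4 (bV hB hk hL hΨ or0 hκ) ((phi3 hk hL hΨ or0 hκ k0 k1 k2).1 x)) := by
  have e3 : (3 : ℝ) ≠ 0 := by norm_num
  have e3' : (-3 : ℝ) ≠ 0 := by norm_num
  refine ⟨rfl, nG_foot (k0.vsec hB e3') x, nG_foot (k1.vsec hB e3) x, nG_foot (k2.vsec hB e3') x, ?_, ?_, ?_⟩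
  · refine (nG_vel (k0.vsec hB e3') x).trans ?_
    unfold kw nrm
    rw [h0]
  · refine (nG_vel (k1.vsec hB e3) x).trans ?_
    unfold kw nrm
    rw [h1]
  · refine (nG_vel (k2.vsec hB e3') x).trans ?_
    unfold kw nrm
    rw [h2]

/-- away from the diagonal -/
theorem E8_phi3_lt (hb : ∀ c, (bV hB hk hL hΨ or0 hκ).pi.1 c = (gF hB).1 c) (x : X.pt) {s : ℝ} (hs : s ≠ 0)
    {y : Fin 3 → Eu n} (hy : ∀ j, ⟪𝒜.vel (f.1 x).1 0, y j⟫ = 0) (hne : y ≠ 0) (h0 : y0 x = s • y 0) (h1 : y1 x = s • y 1)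
    (h2 : y2 x = s • y 2) :
    E8 (k8 (g4 (bV hB hk hL hΨ or0 hκ) ((phi3 hk hL hΨ or0 hκ k0 k1 k2).1 x))) < 2 * π ^ 2 :=
  k8_lt hB hy hs (qd_phi3 hk hL hΨ or0 hκ k0 k1 k2 x s y h0 h1 h2) (Ends_g4 _ hB hb _) hne

end one

/-- **the velocities of the midpoints of the family `phi3` over `Y × ℝ`** -/
theorem vel8_phi3 {f : SMap X.xR (spG 𝒜)} {y0 y1 y2 : X.xR.pt → Eu n} (k0 : KSec f y0) (k1 : KSec f y1) (k2 : KSec f y2)
    (x : X.pt) (c : Gs M) (hc : ∀ s : ℝ, f.1 (x, s) = c) (y : Fin 3 → Eu n) (hy : ∀ j, ⟪𝒜.vel c.1 0, y j⟫ = 0)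
    (h0 : ∀ s : ℝ, y0 (x, s) = s • y 0) (h1 : ∀ s : ℝ, y1 (x, s) = s • y 1) (h2 : ∀ s : ℝ, y2 (x, s) = s • y 2) :
    vel8 𝒜 (fun s => k8 (g4 (bV hB hk hL hΨ or0 hκ) ((phi3 hk hL hΨ or0 hκ k0 k1 k2).1 (x, s)))) = av 𝒜 hB c (rk y) := by
  refine vel8_k8 hB hy fun s => ?_
  have h := qd_phi3 hk hL hΨ or0 hκ k0 k1 k2 (x, s) s y (h0 s) (h1 s) (h2 s)
  rw [hc] at h
  exact h

end Pool.Agent.Lib.MP_ccbbf6_gt.K7.DP
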