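import Pool.Agent.Lib.MP_ccbbf6_gt.K7.GG6

/-!
# `κ = 7`, density path, part 6b: the form of a sum of a `2 π`-periodic and a twisted density (abstract) (helper92)
-/

set_option autoImplicit false
set_option linter.unusedSectionVars false

open Set Filter Topology Metric Real MeasureTheory
open scoped InnerProductSpace ComplexConjugate

noncomputable section

namespace Pool.Agent.Lib.MP_ccbbf6_gt.K7.GG

variable {D : ℕ}

namespace RD

variable {R : RD D}

/-- the bilinear kernel -/
def rb (R : RD D) (x y : ℝ → HR D) (s r : ℝ) : ℝ := -⟪x s, R.J s r (y (s + r))⟫_ℝ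

theorem ry_eq (y : ℝ → HR D) (s r : ℝ) : R.ry y s r = R.rb y y s r := rfl

theorem cont_rb {x y : ℝ → HR D} (hx : Continuous x) (hy : Continuous y) : Continuous fun p : ℝ × ℝ => R.rb x y p.1 p.2 :=
  cont_BJ hx hy

theorem cont_rbi {x y : ℝ → HR D} (hx : Continuous x) (hy : Continuous y) :
    Continuous fun s : ℝ => ∫ r in (0 : ℝ)..π, R.rb x y s r := cont_BI hx hy

theorem ry_add {x y : ℝ → HR D} (s r : ℝ) : R.ry (fun s => x s + y s) s r =
    (R.rb x x s r + R.rb y y s r) + (R.rb x y s r + R.rb y x s r) := by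
  unfold ry rb
  rw [map_add, inner_add_left, inner_add_right, inner_add_right]
  ring

/-- the transport of the kernel by half a turn -/
theorem rb_pi {x y x' y' : ℝ → HR D} (hx : ∀ s, R.P s (x s) = x s) (hx' : ∀ s, x' (s + π) = R.T s (x s))
    (hy' : ∀ s, y' (s + π) = R.T s (y s)) (s r : ℝ) : R.rb x' y' (s + π) r = R.rb x y s r := by
  unfold rb
  have h1 : y' (s + π + r) = R.T (s + r) (y (s + r)) := by
    rw [show s + π + r = s + r + π by ring, hy']
  have h2 := R.TJ s (r + π) (R.T (s + r) (y (s + r)))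
  rw [add_sub_cancel_right, R.shR] at h2
  rw [hx', h1, ← h2, R.inT _ _ _ (hx s) (R.PJ _ _ _)]

theorem rb_neg (x y : ℝ → HR D) (s r : ℝ) : R.rb (fun s => -x s) (fun s => -y s) s r = R.rb x y s r := by
  unfold rb
  rw [map_neg, inner_neg_neg]

theorem reH_neg_I (z : HC D) : reH D (-(Complex.I • z)) = imH D z := by
  rw [map_neg, reH_smul, Complex.I_re, Complex.I_im]
  simp

theorem imH_neg_I (z : HC D) : imH D (-(Complex.I • z)) = -reH D z := by
  rw [map_neg, imH_smul, Complex.I_re, Complex.I_im]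
  simp

theorem tw_pi' {z : ℝ → HC D} (hz : R.od.Den z) (s : ℝ) : tw (1 / 2) z (s + π) = -(Complex.I • R.od.T s (tw (1 / 2) z s)) := by
  unfold tw
  have h1 : Complex.exp (Complex.I * (((1 / 2) * (s + π) : ℝ) : ℂ)) = Complex.I * Complex.exp (Complex.I * (((1 / 2) * s : ℝ) : ℂ)) := by
    have h2 : Complex.I * (((1 / 2) * (s + π) : ℝ) : ℂ) = Complex.I * (((1 / 2) * s : ℝ) : ℂ) + (π / 2 : ℂ) * Complex.I := by
      push_cast
      ring
    rw [h2, Complex.exp_add, Complex.exp_pi_div_two_mul_I]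
    ring
  rw [h1, hz.odd, map_smul, smul_neg, mul_smul]

theorem re_tw_pi' {z : ℝ → HC D} (hz : R.od.Den z) (s : ℝ) :
    reH D (tw (1 / 2) z (s + π)) = R.T s (imH D (tw (1 / 2) z s)) := by
  rw [tw_pi' hz, reH_neg_I]
  exact imH_cxL _ _

theorem im_tw_pi' {z : ℝ → HC D} (hz : R.od.Den z) (s : ℝ) :
    imH D (tw (1 / 2) z (s + π)) = -R.T s (reH D (tw (1 / 2) z s)) := by
  rw [tw_pi' hz, imH_neg_I]
  congr 1
  exact reH_cxL _ _

theorem re_tw_two_pi {z : ℝ → HC D} (hz : R.od.Den z) (hT : ∀ s y, R.P s y = y → R.T (s + π) (R.T s y) = y) (s : ℝ) :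
    reH D (tw (1 / 2) z (s + 2 * π)) = -reH D (tw (1 / 2) z s) := by
  rw [show s + 2 * π = s + π + π by ring, re_tw_pi' hz, im_tw_pi' hz, map_neg, hT _ _ ((Den_re hz (1 / 2)).mem s)]

/-- the twisted part of the form -/
theorem int_tw {z : ℝ → HC D} (hz : R.od.Den z) :
    ∫ s in (0 : ℝ)..(4 * π), ∫ r in (0 : ℝ)..π, R.ry (fun s => reH D (tw (1 / 2) z s)) s r =
      2 * √2 * R.od.Fm (1 / 2) z z := by
  have hx := Den_re hz (1 / 2)
  have hy := Den_im hz (1 / 2)
  obtain ⟨x, hxd⟩ : ∃ x : ℝ → HR D, x = fun s => reH D (tw (1 / 2) z s) := ⟨_, rfl⟩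
  obtain ⟨y, hyd⟩ : ∃ y : ℝ → HR D, y = fun s => imH D (tw (1 / 2) z s) := ⟨_, rfl⟩
  rw [← hxd] at hx ⊢
  rw [← hyd] at hy
  have hxp : ∀ s, x (s + π) = R.T s (y s) := fun s => by
    rw [hxd, hyd]
    exact re_tw_pi' hz s
  have hyp : ∀ s, y (s + π) = -R.T s (x s) := fun s => by
    rw [hxd, hyd]
    exact im_tw_pi' hz s
  obtain ⟨f, hf⟩ : ∃ f : ℝ → ℝ, f = fun s => ∫ r in (0 : ℝ)..π, R.ry x s r := ⟨_, rfl⟩
  obtain ⟨g, hg⟩ : ∃ g : ℝ → ℝ, g = fun s => ∫ r in (0 : ℝ)..π, R.ry y s r := ⟨_, rfl⟩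
  have hfg : ∀ s, f (s + π) = g s := fun s => by
    rw [hf, hg]
    exact intervalIntegral.integral_congr fun r _ => rb_pi hy.mem hxp hxp s r
  have hgf : ∀ s, g (s + π) = f s := fun s => by
    rw [hf, hg]
    refine intervalIntegral.integral_congr fun r _ => ?_
    show R.rb y y (s + π) r = R.rb x x s r
    rw [← rb_neg]
    exact rb_pi hx.mem (x' := fun s => -y s) (y' := fun s => -y s) (fun s => by rw [hyp, neg_neg])
      (fun s => by rw [hyp, neg_neg]) s r
  have hfc : Continuous f := by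
    rw [hf]
    exact cont_rbi hx.cont hx.cont
  have hgc : Continuous g := by
    rw [hg]
    exact cont_rbi hy.cont hy.cont
  have h1 : ∫ s in (0 : ℝ)..(4 * π), f s = 2 * ∫ s in (0 : ℝ)..π, (f s + g s) := by
    have i1 : ∀ a b : ℝ, IntervalIntegrable f volume a b := fun a b => hfc.intervalIntegrable a b
    have e1 : ∫ s in π..(2 * π), f s = ∫ s in (0 : ℝ)..π, g s := by
      have := intervalIntegral.integral_comp_add_right f π (a := 0) (b := π)
      rw [zero_add, show π + π = 2 * π by ring] at this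
      rw [← this]
      exact intervalIntegral.integral_congr fun s _ => hfg s
    have hff : ∀ s, f (s + 2 * π) = f s := fun s => by
      rw [show s + 2 * π = s + π + π by ring, hfg, hgf]
    have e2 : ∫ s in (2 * π)..(4 * π), f s = ∫ s in (0 : ℝ)..(2 * π), f s := by
      have := intervalIntegral.integral_comp_add_right f (2 * π) (a := 0) (b := 2 * π)
      rw [zero_add, show 2 * π + 2 * π = 4 * π by ring] at this
      rw [← this]
      exact intervalIntegral.integral_congr fun s _ => hff s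
    rw [← intervalIntegral.integral_add_adjacent_intervals (i1 0 (2 * π)) (i1 (2 * π) (4 * π)), e2,
      ← intervalIntegral.integral_add_adjacent_intervals (i1 0 π) (i1 π (2 * π)), e1,
      intervalIntegral.integral_add (hfc.intervalIntegrable _ _) (hgc.intervalIntegrable _ _)]
    ring
  have h2 : ∀ s, f s + g s = ∫ r in (0 : ℝ)..π, (OD.pu (1 / 2) r * R.od.vk z z s r).re := fun s => by
    rw [hf, hg]
    show (∫ r in (0 : ℝ)..π, R.ry x s r) + (∫ r in (0 : ℝ)..π, R.ry y s r) = _
    rw [← intervalIntegral.integral_add]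
    · refine intervalIntegral.integral_congr fun r _ => ?_
      show R.ry x s r + R.ry y s r = _
      rw [re_vk, hxd, hyd]
    · exact ((cont_rb hx.cont hx.cont).comp (Continuous.prodMk_right s)).intervalIntegrable _ _
    · exact ((cont_rb hy.cont hy.cont).comp (Continuous.prodMk_right s)).intervalIntegrable _ _
  have hcv : Continuous fun p : ℝ × ℝ => (OD.pu (1 / 2) p.2 * R.od.vk z z p.1 p.2).re :=
    Complex.continuous_re.comp (((OD.cont_pu (1 / 2)).comp continuous_snd).mul (OD.cont_vk hz.cont hz.cont))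
  have h3 : ∫ s in (0 : ℝ)..π, (f s + g s) = ∫ r in (0 : ℝ)..π, (OD.pu (1 / 2) r * R.od.Gk z z r).re := by
    have e1 : ∫ s in (0 : ℝ)..π, (f s + g s) =
        ∫ s in (0 : ℝ)..π, ∫ r in (0 : ℝ)..π, (OD.pu (1 / 2) r * R.od.vk z z s r).re :=
      intervalIntegral.integral_congr fun s _ => h2 s
    rw [e1, swap_cont (f := fun s r => (OD.pu (1 / 2) r * R.od.vk z z s r).re) hcv]
    refine intervalIntegral.integral_congr fun r _ => ?_
    show ∫ s in (0 : ℝ)..π, (OD.pu (1 / 2) r * R.od.vk z z s r).re = (OD.pu (1 / 2) r * R.od.Gk z z r).re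
    have hc1 : Continuous fun s => OD.pu (1 / 2) r * R.od.vk z z s r :=
      continuous_const.mul (OD.cont_vk_s hz.cont hz.cont r)
    have e8 : OD.pu (1 / 2) r * R.od.Gk z z r = ∫ s in (0 : ℝ)..π, OD.pu (1 / 2) r * R.od.vk z z s r :=
      (intervalIntegral.integral_const_mul _ _).symm
    rw [e8, re_int hc1]
  have h4 : ∀ r, (OD.pu (1 / 2) r * R.od.Gk z z r).re =
      √2 / 2 * (ph (1 / 2) r * R.od.Gk z z r).re + √2 / 2 * (ph (1 / 2) r * R.od.Gk z z r).im := fun r => by
    have e1 : OD.pu (1 / 2) r = Complex.exp (-(π / 4 * Complex.I)) * ph (1 / 2) r := by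
      unfold OD.pu ph
      rw [← Complex.exp_add]
      congr 1
      push_cast
      ring
    have e2 : Complex.exp (-(π / 4 * Complex.I)) = ((√2 / 2 : ℝ) : ℂ) - ((√2 / 2 : ℝ) : ℂ) * Complex.I := by
      have e3 : -((π : ℂ) / 4 * Complex.I) = ((-(π / 4) : ℝ) : ℂ) * Complex.I := by
        push_cast
        ring
      rw [e3]
      refine Complex.ext ?_ ?_
      · rw [Complex.exp_ofReal_mul_I_re, Real.cos_neg, Real.cos_pi_div_four]
        simp
      · rw [Complex.exp_ofReal_mul_I_im, Real.sin_neg, Real.sin_pi_div_four]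
        simp
    rw [e1, e2, mul_assoc]
    obtain ⟨q, hq⟩ : ∃ q, q = ph (1 / 2) r * R.od.Gk z z r := ⟨_, rfl⟩
    rw [← hq, sub_mul, Complex.sub_re, Complex.re_ofReal_mul, mul_assoc, Complex.re_ofReal_mul, Complex.I_mul_re]
    ring
  have h5 : ∫ r in (0 : ℝ)..π, (OD.pu (1 / 2) r * R.od.Gk z z r).re = √2 / 2 * ∫ r in (0 : ℝ)..π, (ph (1 / 2) r * R.od.Gk z z r).re := by
    have e1 : ∫ r in (0 : ℝ)..π, (OD.pu (1 / 2) r * R.od.Gk z z r).re = ∫ r in (0 : ℝ)..π,
        (√2 / 2 * (ph (1 / 2) r * R.od.Gk z z r).re + √2 / 2 * (ph (1 / 2) r * R.od.Gk z z r).im) :=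
      intervalIntegral.integral_congr fun r _ => h4 r
    have c1 : Continuous fun r => (ph (1 / 2) r * R.od.Gk z z r).re := OD.cont_re_phG hz.cont hz.cont _
    have c2 : Continuous fun r => (ph (1 / 2) r * R.od.Gk z z r).im :=
      Complex.continuous_im.comp (OD.cont_phG hz.cont hz.cont _)
    have c3 : Continuous fun r => √2 / 2 * (ph (1 / 2) r * R.od.Gk z z r).re := continuous_const.mul c1
    have c4 : Continuous fun r => √2 / 2 * (ph (1 / 2) r * R.od.Gk z z r).im := continuous_const.mul c2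
    rw [e1, intervalIntegral.integral_add (c3.intervalIntegrable _ _) (c4.intervalIntegrable _ _),
      intervalIntegral.integral_const_mul, intervalIntegral.integral_const_mul, OD.im_zero hz, mul_zero, add_zero]
  have h6 : ∫ s in (0 : ℝ)..(4 * π), ∫ r in (0 : ℝ)..π, R.ry x s r = ∫ s in (0 : ℝ)..(4 * π), f s := by rw [hf]
  rw [h6, h1, h3, h5]
  unfold OD.Fm
  ring

/-- **the form of a sum** -/
theorem int_split {CJ : ℝ} (hR : R.Per CJ) (hT : ∀ s y, R.P s y = y → R.T (s + π) (R.T s y) = y) {w : ℝ → HR D}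
    (hw : R.PDen w) {z : ℝ → HC D} (hz : R.od.Den z) :
    ∫ s in (0 : ℝ)..(4 * π), ∫ r in (0 : ℝ)..π, R.ry (fun s => w s + reH D (tw (1 / 2) z s)) s r =
      2 * R.BR w w + 2 * √2 * R.od.Fm (1 / 2) z z := by
  have hx := Den_re hz (1 / 2)
  have h0 := int_tw hz
  have h2p := re_tw_two_pi hz hT
  obtain ⟨x, hxd⟩ : ∃ x : ℝ → HR D, x = fun s => reH D (tw (1 / 2) z s) := ⟨_, rfl⟩
  have h2p' : ∀ s, x (s + 2 * π) = -x s := fun s => by
    rw [hxd]
    exact h2p s
  have e0 : (fun s => w s + reH D (tw (1 / 2) z s)) = fun s => w s + x s := by rw [hxd]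
  rw [e0]
  rw [← hxd] at hx h0
  rw [← h0]
  have c1 : ∀ {u v : ℝ → HR D} (_ : Continuous u) (_ : Continuous v) (s : ℝ),
      IntervalIntegrable (fun r => R.rb u v s r) volume 0 π := fun hu hv s =>
    ((cont_rb (R := R) hu hv).comp (Continuous.prodMk_right s)).intervalIntegrable (μ := volume) 0 π
  have e1 : ∀ s, ∫ r in (0 : ℝ)..π, R.ry (fun s => w s + x s) s r =
      ((∫ r in (0 : ℝ)..π, R.rb w w s r) + ∫ r in (0 : ℝ)..π, R.rb x x s r) +
        ((∫ r in (0 : ℝ)..π, R.rb w x s r) + ∫ r in (0 : ℝ)..π, R.rb x w s r) := fun s => by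
    rw [← intervalIntegral.integral_add (c1 hw.cont hw.cont s) (c1 hx.cont hx.cont s),
      ← intervalIntegral.integral_add (c1 hw.cont hx.cont s) (c1 hx.cont hw.cont s),
      ← intervalIntegral.integral_add ((c1 hw.cont hw.cont s).add (c1 hx.cont hx.cont s))
        ((c1 hw.cont hx.cont s).add (c1 hx.cont hw.cont s))]
    exact intervalIntegral.integral_congr fun r _ => ry_add s r
  have c2 : ∀ {u v : ℝ → HR D} (_ : Continuous u) (_ : Continuous v),
      IntervalIntegrable (fun s => ∫ r in (0 : ℝ)..π, R.rb u v s r) volume 0 (4 * π) := fun hu hv =>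
    (cont_rbi (R := R) hu hv).intervalIntegrable (μ := volume) 0 (4 * π)
  -- anti-periodic functions
  have anti : ∀ f : ℝ → ℝ, Continuous f → (∀ s, f (s + 2 * π) = -f s) → ∫ s in (0 : ℝ)..(4 * π), f s = 0 := fun f hf hp => by
    have e2 : ∫ s in (2 * π)..(4 * π), f s = -∫ s in (0 : ℝ)..(2 * π), f s := by
      have := intervalIntegral.integral_comp_add_right f (2 * π) (a := 0) (b := 2 * π)
      rw [zero_add, show 2 * π + 2 * π = 4 * π by ring] at this
      rw [← this, ← intervalIntegral.integral_neg]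
      exact intervalIntegral.integral_congr fun s _ => hp s
    rw [← intervalIntegral.integral_add_adjacent_intervals (hf.intervalIntegrable 0 (2 * π))
      (hf.intervalIntegrable (2 * π) (4 * π)), e2]
    ring
  have cr1 : ∫ s in (0 : ℝ)..(4 * π), ∫ r in (0 : ℝ)..π, R.rb w x s r = 0 := by
    refine anti _ (cont_rbi hw.cont hx.cont) fun s => ?_
    rw [← intervalIntegral.integral_neg]
    refine intervalIntegral.integral_congr fun r _ => ?_
    show R.rb w x (s + 2 * π) r = -R.rb w x s r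
    unfold rb
    rw [hR.perJ, hw.per, show s + 2 * π + r = s + r + 2 * π by ring, h2p', map_neg, inner_neg_right]
  have cr2 : ∫ s in (0 : ℝ)..(4 * π), ∫ r in (0 : ℝ)..π, R.rb x w s r = 0 := by
    refine anti _ (cont_rbi hx.cont hw.cont) fun s => ?_
    rw [← intervalIntegral.integral_neg]
    refine intervalIntegral.integral_congr fun r _ => ?_
    show R.rb x w (s + 2 * π) r = -R.rb x w s r
    unfold rb
    rw [hR.perJ, h2p', show s + 2 * π + r = s + r + 2 * π by ring, hw.per, inner_neg_left]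
  have cw : ∫ s in (0 : ℝ)..(4 * π), ∫ r in (0 : ℝ)..π, R.rb w w s r = 2 * R.BR w w := by
    obtain ⟨f, hf⟩ : ∃ f : ℝ → ℝ, f = fun s => ∫ r in (0 : ℝ)..π, R.rb w w s r := ⟨_, rfl⟩
    have hfc : Continuous f := by
      rw [hf]
      exact cont_rbi hw.cont hw.cont
    have hff : ∀ s, f (s + 2 * π) = f s := fun s => by
      rw [hf]
      refine intervalIntegral.integral_congr fun r _ => ?_
      show R.rb w w (s + 2 * π) r = R.rb w w s r
      unfold rb
      rw [hR.perJ, hw.per, show s + 2 * π + r = s + r + 2 * π by ring, hw.per]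
    have e2 : ∫ s in (2 * π)..(4 * π), f s = ∫ s in (0 : ℝ)..(2 * π), f s := by
      have := intervalIntegral.integral_comp_add_right f (2 * π) (a := 0) (b := 2 * π)
      rw [zero_add, show 2 * π + 2 * π = 4 * π by ring] at this
      rw [← this]
      exact intervalIntegral.integral_congr fun s _ => hff s
    have e3 : ∫ s in (0 : ℝ)..(4 * π), f s = 2 * ∫ s in (0 : ℝ)..(2 * π), f s := by
      rw [← intervalIntegral.integral_add_adjacent_intervals (hfc.intervalIntegrable 0 (2 * π))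
        (hfc.intervalIntegrable (2 * π) (4 * π)), e2]
      ring
    rw [hf] at e3
    exact e3
  have e4 : ∫ s in (0 : ℝ)..(4 * π), ∫ r in (0 : ℝ)..π, R.ry (fun s => w s + x s) s r =
      ∫ s in (0 : ℝ)..(4 * π), (((∫ r in (0 : ℝ)..π, R.rb w w s r) + ∫ r in (0 : ℝ)..π, R.rb x x s r) +
        ((∫ r in (0 : ℝ)..π, R.rb w x s r) + ∫ r in (0 : ℝ)..π, R.rb x w s r)) :=
    intervalIntegral.integral_congr fun s _ => e1 s
  rw [e4, intervalIntegral.integral_add ((c2 hw.cont hw.cont).add (c2 hx.cont hx.cont))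
    ((c2 hw.cont hx.cont).add (c2 hx.cont hw.cont)), intervalIntegral.integral_add (c2 hw.cont hw.cont) (c2 hx.cont hx.cont),
    intervalIntegral.integral_add (c2 hw.cont hx.cont) (c2 hx.cont hw.cont), cr1, cr2, cw, add_zero, add_zero]
  rfl

/-- the form of a real odd density -/
theorem BR_re {z : ℝ → HC D} (hz : R.od.Den z) (h0 : ∀ s, imH D (z s) = 0) :
    R.BR (fun s => reH D (z s)) (fun s => reH D (z s)) = 4 * R.od.Fm 0 z z := by
  have htw : ∀ s, tw 0 z s = z s := fun s => by
    unfold tw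
    rw [zero_mul, Complex.ofReal_zero, mul_zero, Complex.exp_zero, one_smul]
  have hx := Den_re hz 0
  simp only [htw] at hx
  obtain ⟨x, hxd⟩ : ∃ x : ℝ → HR D, x = fun s => reH D (z s) := ⟨_, rfl⟩
  rw [← hxd] at hx ⊢
  have hxp : ∀ s, x (s + π) = -R.T s (x s) := fun s => by
    rw [hxd]
    show reH D (z (s + π)) = -R.T s (reH D (z s))
    rw [hz.odd, map_neg]
    congr 1
    exact reH_cxL _ _
  have h1 : ∀ s r, R.rb x x (s + π) r = R.rb x x s r := fun s r => by
    rw [← rb_neg]
    exact rb_pi hx.mem (x' := fun s => -x s) (y' := fun s => -x s) (fun s => by rw [hxp, neg_neg])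
      (fun s => by rw [hxp, neg_neg]) s r
  obtain ⟨f, hf⟩ : ∃ f : ℝ → ℝ, f = fun s => ∫ r in (0 : ℝ)..π, R.rb x x s r := ⟨_, rfl⟩
  have hfc : Continuous f := by
    rw [hf]
    exact cont_rbi hx.cont hx.cont
  have hff : ∀ s, f (s + π) = f s := fun s => by
    rw [hf]
    exact intervalIntegral.integral_congr fun r _ => h1 s r
  have e1 : ∫ s in π..(2 * π), f s = ∫ s in (0 : ℝ)..π, f s := by
    have := intervalIntegral.integral_comp_add_right f π (a := 0) (b := π)
    rw [zero_add, show π + π = 2 * π by ring] at this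
    rw [← this]
    exact intervalIntegral.integral_congr fun s _ => hff s
  have e2 : R.BR x x = 2 * ∫ s in (0 : ℝ)..π, f s := by
    have e3 : R.BR x x = ∫ s in (0 : ℝ)..(2 * π), f s := by
      rw [hf]
      rfl
    rw [e3, ← intervalIntegral.integral_add_adjacent_intervals (hfc.intervalIntegrable 0 π)
      (hfc.intervalIntegrable π (2 * π)), e1]
    ring
  have h2 : ∀ s r, (ph 0 r * R.od.vk z z s r).re = R.rb x x s r := fun s r => by
    have e5 := re_vk (R := R) 0 z s r
    simp only [htw, h0] at e5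
    have e6 : OD.pu 0 r = 1 := by
      unfold OD.pu
      rw [zero_mul, Complex.ofReal_zero, mul_zero, neg_zero, Complex.exp_zero]
    have e7 : ph 0 r = 1 := by
      unfold ph
      rw [zero_mul, Complex.ofReal_zero, mul_zero, Complex.exp_zero]
    rw [e6] at e5
    rw [e7, e5, hxd]
    unfold ry rb
    simp
  have hcv : Continuous fun p : ℝ × ℝ => R.rb x x p.1 p.2 := cont_rb hx.cont hx.cont
  have h3 : ∫ s in (0 : ℝ)..π, f s = ∫ r in (0 : ℝ)..π, (ph 0 r * R.od.Gk z z r).re := by
    rw [hf, swap_cont (f := fun s r => R.rb x x s r) hcv]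
    refine intervalIntegral.integral_congr fun r _ => ?_
    show ∫ s in (0 : ℝ)..π, R.rb x x s r = (ph 0 r * R.od.Gk z z r).re
    have e8 : ph 0 r * R.od.Gk z z r = ∫ s in (0 : ℝ)..π, ph 0 r * R.od.vk z z s r :=
      (intervalIntegral.integral_const_mul _ _).symm
    have hc1 : Continuous fun s => ph 0 r * R.od.vk z z s r :=
      continuous_const.mul (OD.cont_vk_s hz.cont hz.cont r)
    rw [e8, re_int hc1]
    exact intervalIntegral.integral_congr fun s _ => (h2 s r).symm
  rw [e2, h3]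
  unfold OD.Fm
  ring

end RD

end Pool.Agent.Lib.MP_ccbbf6_gt.K7.GG
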