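import Pool.Agent.Lib.MP_ccbbf6_gt.K7.DP3b
import Pool.Agent.Lib.MP_ccbbf6_gt.K7.DP6b
import Pool.Agent.Lib.MP_ccbbf6_gt.K7.DP8

/-!
# `κ = 7`, density path, part 6: the second variation of a sum of a periodic and a twisted density (helper92)
-/

set_option autoImplicit false
set_option linter.unusedSectionVars false

open Set Filter Topology Metric Real Module
open scoped ContDiff RealInnerProductSpace

noncomputable section

namespace Pool.Agent.Lib.MP_ccbbf6_gt.K7.DP

open L4 Geo L4.ORI L5 L5.NEG RG HQ GG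

variable {n : ℕ} {M : Type} [MetricSpace M] [CompactSpace M] {𝒜 : SDist n M} [Nonempty (Gs M)]
variable (t : TEmb 𝒜) (hB : Bl M) (e : Emb n 𝒜) {κ : ℕ} (hk : 𝒜.HK κ)

/-- **the second variation** -/
theorem H8_od (c : Gs M) {w : ℝ → HR t.D} (hw : (orb t hB e hk c).PDen w) {u : ℝ → HC t.D} (hu : (orb t hB e hk c).od.Den u) :
    H8 𝒜 c (XE t hB c fun s => w s + reH t.D (RD.tw (1 / 2) u s)) ≤
      -(2 * π) * (2 * (orb t hB e hk c).BR w w + 2 * √2 * (orb t hB e hk c).od.Fm (1 / 2) u u) := by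
  obtain ⟨CJ, -, hCJ⟩ := exists_bound_Jr t hB e hk
  have hR := per_orb t hB e hk hCJ c
  have hT : ∀ s y, (orb t hB e hk c).P s y = y → (orb t hB e hk c).T (s + π) ((orb t hB e hk c).T s y) = y := fun s y hy => by
    have h1 := Tr_Tr8 t hB (shift s c) hy
    rw [shift_comm' s π c] at h1
    exact h1
  have hx := RD.Den_re hu (1 / 2)
  have h2p := RD.re_tw_two_pi hu hT
  have h1 := H8_dens t hB e hk c (Y := fun s => w s + reH t.D (RD.tw (1 / 2) u s)) (hw.cont.add hx.cont)
    (fun s => by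
      show (orb t hB e hk c).P s (w s + reH t.D (RD.tw (1 / 2) u s)) = _
      rw [map_add, hw.mem, hx.mem]) fun s => by
      show w (s + 4 * π) + reH t.D (RD.tw (1 / 2) u (s + 4 * π)) = _
      rw [show s + 4 * π = s + 2 * π + 2 * π by ring, hw.per, hw.per, h2p, h2p, neg_neg]
  rw [RD.int_split hR hT hw hu] at h1
  exact h1

end Pool.Agent.Lib.MP_ccbbf6_gt.K7.DP
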