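import Pool.Agent.Lib.MP_ccbbf6_gt.K7.AP
import Pool.Agent.Lib.MP_ccbbf6_gt.K7.DP6
import Pool.Agent.Lib.MP_ccbbf6_gt.K7.DP7

/-!
# `κ = 7`, density path, part 12b: admissible paths from paths of densities (helper92)
-/

set_option autoImplicit false
set_option linter.unusedSectionVars false

open Set Filter Topology Metric Real Module
open scoped ContDiff RealInnerProductSpace

noncomputable section

namespace Pool.Agent.Lib.MP_ccbbf6_gt.K7.DP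

open L4 Geo L4.ORI L5 L5.NEG RG HQ GG

variable {n : ℕ} {M : Type} [MetricSpace M] [CompactSpace M] {𝒜 : SDist n M} [Nonempty (Gs M)]
variable (t : TEmb 𝒜) (hB : Bl M) (e : Emb n 𝒜) {κ : ℕ} (hk : 𝒜.HK κ) {N' : ℕ} {Q : Gs M → Eu N' →L[ℝ] Eu N'}

/-- the 8-gons of velocities of densities over the sphere bundle -/
def aD (W : (spN 𝒜 Q).pt → ℝ → HR t.D) (U : (spN 𝒜 Q).pt → ℝ → HC t.D) (y : (spN 𝒜 Q).pt) (i : ZMod 8) : Eu n :=
  XE t hB y.1.1 (fun s => W y s + reH t.D (RD.tw (1 / 2) (U y) s)) i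

/-- smooth families of densities over the sphere bundle, with a real parameter -/
def SmW {G : Type} [NormedAddCommGroup G] [NormedSpace ℝ G] (W : ℝ → (spN 𝒜 Q).pt → ℝ → G) : Prop :=
  ∀ (k : ℕ) (p : (spN 𝒜 Q).Plot k), ContDiff ℝ ∞ fun v : (FR.V k × ℝ) × ℝ => W v.1.2 (p.1 v.1.1) v.2

/-- **admissible paths from densities** -/
theorem ap_dens (W : ℝ → (spN 𝒜 Q).pt → ℝ → HR t.D) (U : ℝ → (spN 𝒜 Q).pt → ℝ → HC t.D) (hW : SmW W) (hU : SmW U)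
    (dW : ∀ τ ∈ Icc (0 : ℝ) 1, ∀ y : (spN 𝒜 Q).pt, (orb t hB e hk y.1.1).PDen (W τ y))
    (dU : ∀ τ ∈ Icc (0 : ℝ) 1, ∀ y : (spN 𝒜 Q).pt, (orb t hB e hk y.1.1).od.Den (U τ y))
    (pos : ∀ τ ∈ Icc (0 : ℝ) 1, ∀ y : (spN 𝒜 Q).pt, 0 < 2 * (orb t hB e hk y.1.1).BR (W τ y) (W τ y) +
      2 * √2 * (orb t hB e hk y.1.1).od.Fm (1 / 2) (U τ y) (U τ y)) :
    FC.AP Q (aD t hB (W 0) (U 0)) (aD t hB (W 1) (U 1)) := by
  refine ⟨fun τ => aD t hB (W τ) (U τ), fun k p u i => ?_, rfl, rfl, fun τ hτ y => ?_⟩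
  · have hσ : ∀ v : FR.V k × ℝ, SmGAt 𝒜 (fun v : FR.V k × ℝ => (p.1 v.1).1.1) v := fun v =>
      SmGAt.comp (f := fun v : FR.V k × ℝ => v.1) (p.2.1.atP v.1) contDiffAt_fst
    have hY : ContDiff ℝ ∞ fun q : (FR.V k × ℝ) × ℝ =>
        W q.1.2 (p.1 q.1.1) q.2 + reH t.D (RD.tw (1 / 2) (U q.1.2 (p.1 q.1.1)) q.2) :=
      (hW k p).add ((reH t.D).contDiff.comp
        (sf_tw t (F := FR.V k × ℝ) (u := fun v => U v.2 (p.1 v.1)) (hU k p) (1 / 2)))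
    exact smV_XE t hB (F := FR.V k × ℝ) (σ := fun v => (p.1 v.1).1.1) hσ
      (Y := fun v s => W v.2 (p.1 v.1) s + reH t.D (RD.tw (1 / 2) (U v.2 (p.1 v.1)) s)) hY i (𝒜.mem _)
  · refine (H8_od t hB e hk y.1.1 (dW τ hτ y) (dU τ hτ y)).trans_lt ?_
    have h1 := pos τ hτ y
    have h2 : 0 < 2 * π := by positivity
    nlinarith [mul_pos h2 h1]

end Pool.Agent.Lib.MP_ccbbf6_gt.K7.DP
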