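import Pool.Agent.Lib.MP_ccbbf6_gt.K7.DP9b
import Pool.Agent.Lib.MP_ccbbf6_gt.K7.GG4

/-!
# `κ = 7`, density path, part 12f: positivity along the chain, abstract (helper92)
-/

set_option autoImplicit false
set_option linter.unusedSectionVars false

open Set Filter Topology Metric Real MeasureTheory
open scoped InnerProductSpace ComplexConjugate

noncomputable section

namespace Pool.Agent.Lib.MP_ccbbf6_gt.K7.GG

variable {H : Type} [NormedAddCommGroup H] [InnerProductSpace ℂ H] [CompleteSpace H]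

namespace OD

variable {O : OD H} {A ε ρ μ τ δ μ0 K h δ' CJ : ℝ} {m : ℕ} {g : ℝ → ℝ} {v : H} {z w : ℝ → H}

theorem Ust_zero (a μ h : ℝ) (z : ℝ → H) : Ust O a μ h 0 z = z := rfl

/-- the first step -/
theorem Ust_succ' (a h : ℝ) : ∀ (l : ℕ) (μ : ℝ) (z : ℝ → H), Ust O a μ h (l + 1) z = Ust O a (μ + h) h l (Stp O a μ z)
  | 0, μ, z => by
    show Stp O a (μ + (0 : ℕ) * h) z = Stp O a μ z
    rw [Nat.cast_zero, zero_mul, add_zero]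
  | l + 1, μ, z => by
    show Stp O a (μ + (l + 1 : ℕ) * h) (Ust O a μ h (l + 1) z) = Stp O a (μ + h + l * h) (Ust O a (μ + h) h l (Stp O a μ z))
    rw [Ust_succ' a h l μ z]
    congr 1
    push_cast
    ring

theorem Stp_zero (μ : ℝ) (z : ℝ → H) : Stp O 0 μ z = z := by
  funext s
  show z s + ((0 : ℝ) : ℂ) • O.Hm μ z s = z s
  rw [Complex.ofReal_zero, zero_smul, add_zero]

theorem n2_pos_of_Fm (hC0 : 0 ≤ CJ) (hC : ∀ s r, ‖O.J s r‖ ≤ CJ) (hz : O.Den z) (h : 0 < O.Fm μ z z) : 0 < n2 z := by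
  have h1 := abs_Fm_le hC0 hC hz hz μ
  rw [← sq, nr_sq, abs_of_pos h] at h1
  rcases (n2_nonneg z).lt_or_eq with h2 | h2
  · exact h2
  · rw [← h2, mul_zero] at h1
    linarith

theorem n2_pos_of_Hm (hC0 : 0 ≤ CJ) (hC : ∀ s r, ‖O.J s r‖ ≤ CJ) (hz : O.Den z) {s : ℝ} (h : O.Hm μ z s ≠ 0) : 0 < n2 z := by
  have h1 := norm_Hm_le hC0 hC hz μ s
  have h2 := norm_pos_iff.2 h
  rcases (n2_nonneg z).lt_or_eq with h3 | h3
  · exact h3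
  · have h4 : nr z = 0 := by
      unfold nr
      rw [← h3, Real.sqrt_zero]
    rw [h4, mul_zero, mul_zero] at h1
    linarith

/-- the end of the steps -/
theorem run_pos (hst : Steps δ μ0 K h m δ' O) (hδ' : 0 < δ') (hm : μ0 + m * h = 1 / 2) {j l : ℕ} (hjl : j + l = m)
    (hz : O.Den z) (hp : δ / 8 * n2 z ≤ O.Fm (μ0 + j * h) z z) :
    0 ≤ O.Fm (1 / 2) (Ust O (h * K) (μ0 + j * h) h l z) (Ust O (h * K) (μ0 + j * h) h l z) ∧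
      (0 < n2 z → 0 < O.Fm (1 / 2) (Ust O (h * K) (μ0 + j * h) h l z) (Ust O (h * K) (μ0 + j * h) h l z)) := by
  obtain ⟨h1, h2⟩ := hst.run j l hjl.le z hz hp
  rw [hjl, hm] at h1
  refine ⟨(mul_nonneg hδ'.le (n2_nonneg _)).trans h1, fun h3 => lt_of_lt_of_le (mul_pos hδ' (h3.trans_le h2)) h1⟩

/-- all the steps -/
theorem all_pos (hst : Steps δ μ0 K h m δ' O) (hδ : 0 < δ) (hδ' : 0 < δ') (hm : μ0 + m * h = 1 / 2)
    (hz : O.Den z) (hp : δ * n2 z ≤ O.Fm 0 z z) :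
    0 ≤ O.Fm (1 / 2) (Ust O (h * K) μ0 h m z) (Ust O (h * K) μ0 h m z) ∧
      (0 < n2 z → 0 < O.Fm (1 / 2) (Ust O (h * K) μ0 h m z) (Ust O (h * K) μ0 h m z)) := by
  have h1 := hst.start z hz hp
  have h2 : δ / 8 * n2 z ≤ O.Fm (μ0 + (0 : ℕ) * h) z z := by
    rw [Nat.cast_zero, zero_mul, add_zero]
    refine le_trans ?_ h1
    exact mul_le_mul_of_nonneg_right (by linarith) (n2_nonneg z)
  have h3 := run_pos hst hδ' hm (j := 0) (l := m) (zero_add m) hz h2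
  rw [Nat.cast_zero, zero_mul, add_zero] at h3
  exact h3

/-- the mixtures -/
def mz (O : OD H) (g : ℝ → ℝ) (z : ℝ → H) (v : H) (τ : ℝ) (s : ℝ) : H := ((1 - τ : ℝ) : ℂ) • z s + (τ : ℂ) • bmp O g v s

theorem mz_zero (z : ℝ → H) (v : H) : mz O g z v 0 = z := by
  funext s
  unfold mz
  rw [sub_zero, Complex.ofReal_one, one_smul, Complex.ofReal_zero, zero_smul, add_zero]

theorem mz_one (z : ℝ → H) (v : H) : mz O g z v 1 = bmp O g v := by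
  funext s
  unfold mz
  rw [sub_self, Complex.ofReal_zero, zero_smul, zero_add, Complex.ofReal_one, one_smul]

theorem Den_mz (hO : Geo O A) (hh : Bmp g ε) (hz : O.Den z) (v : H) (τ : ℝ) : O.Den (mz O g z v τ) :=
  (hz.smul _).add ((Den_bmp hO hh v).smul _)

/-- the form of the mixtures at `0` -/
theorem mz_pos0 (hO : Geo O A) (hh : Bmp g ε) (hs : Small A ε) (hcp : 0 < cor g) (hz : O.Den z) (hv : v = O.Hm 0 z 0)
    (hn : ∀ s, |s| ≤ ε → ‖O.Hm 0 z s - v‖ ≤ 1 / 4 * ‖v‖) (hr : 0 < ρ) (hp : ρ * n2 z ≤ O.Fm 0 z z) (t0 : 0 ≤ τ) (t1 : τ ≤ 1) :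
    0 ≤ O.Fm 0 (mz O g z v τ) (mz O g z v τ) ∧ (0 < n2 z → v ≠ 0 → 0 < O.Fm 0 (mz O g z v τ) (mz O g z v τ)) := by
  have h1 := mix0 hO hh hs hz hv hn hp t0 t1
  have h2 : 0 ≤ (1 - τ) ^ 2 * (ρ * n2 z) := mul_nonneg (sq_nonneg _) (mul_nonneg hr.le (n2_nonneg z))
  have h3 : 0 ≤ τ ^ 2 * ((1 / 2) * (cor g * ‖v‖ ^ 2)) :=
    mul_nonneg (sq_nonneg _) (mul_nonneg (by norm_num) (mul_nonneg hcp.le (sq_nonneg _)))
  refine ⟨(add_nonneg h2 h3).trans h1, fun h4 h5 => lt_of_lt_of_le ?_ h1⟩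
  rcases t0.lt_or_eq with h6 | h6
  · have h7 : 0 < τ ^ 2 * ((1 / 2) * (cor g * ‖v‖ ^ 2)) := by
      have := norm_pos_iff.2 h5
      positivity
    linarith
  · rw [← h6]
    have h7 : 0 < ρ * n2 z := mul_pos hr h4
    linarith [h3]

/-- the mixtures after the steps -/
theorem mz_pos (hst : Steps δ μ0 K h m δ' O) (hδ : 0 < δ) (hδ' : 0 < δ') (hm : μ0 + m * h = 1 / 2) (hδm : δ ≤ dmix g ρ)
    (hC0 : 0 ≤ CJ) (hC : ∀ s r, ‖O.J s r‖ ≤ CJ) (hO : Geo O A) (hh : Bmp g ε) (hs : Small A ε) (hcp : 0 < cor g)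
    (hz : O.Den z) (hv : v = O.Hm 0 z 0) (hn : ∀ s, |s| ≤ ε → ‖O.Hm 0 z s - v‖ ≤ 1 / 4 * ‖v‖) (hr : 0 < ρ)
    (hp : ρ * n2 z ≤ O.Fm 0 z z) (t0 : 0 ≤ τ) (t1 : τ ≤ 1) :
    0 ≤ O.Fm (1 / 2) (Ust O (h * K) μ0 h m (mz O g z v τ)) (Ust O (h * K) μ0 h m (mz O g z v τ)) ∧
      (v ≠ 0 → 0 < O.Fm (1 / 2) (Ust O (h * K) μ0 h m (mz O g z v τ)) (Ust O (h * K) μ0 h m (mz O g z v τ))) := by
  have hD := Den_mz (z := z) hO hh hz v τ
  have h1 := mix hO hh hs hcp hz hv hn hr hp t0 t1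
  have h2 : δ * n2 (mz O g z v τ) ≤ O.Fm 0 (mz O g z v τ) (mz O g z v τ) :=
    (mul_le_mul_of_nonneg_right hδm (n2_nonneg _)).trans h1
  obtain ⟨h3, h4⟩ := all_pos hst hδ hδ' hm hD h2
  refine ⟨h3, fun h5 => h4 ?_⟩
  have h6 : 0 < n2 z := n2_pos_of_Hm hC0 hC hz (μ := 0) (s := 0) (by rw [← hv]; exact h5)
  exact n2_pos_of_Fm hC0 hC hD ((mz_pos0 hO hh hs hcp hz hv hn hr hp t0 t1).2 h6 h5)

/-- the bump density after the last steps -/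
theorem bz_pos (hst : Steps δ μ0 K h m δ' O) (hδ : 0 < δ) (hδ' : 0 < δ') (hm : μ0 + m * h = 1 / 2) (hh0 : 0 ≤ h)
    (hμ0 : 0 ≤ μ0) (hδm : δ ≤ dmix g ρ) (hC0 : 0 ≤ CJ) (hC : ∀ s r, ‖O.J s r‖ ≤ CJ) (hO : Geo O A) (hh : Bmp g ε)
    (hs : Small A ε) (hcp : 0 < cor g) (hv : O.P 0 v = v) {j : ℕ} (hj : j + 1 ≤ m) (t0 : 0 ≤ τ) (t1 : τ ≤ 1) :
    0 ≤ O.Fm (1 / 2) (Ust O (h * K) (μ0 + (j + 1 : ℕ) * h) h (m - (j + 1)) (Stp O ((1 - τ) * (h * K)) (μ0 + j * h) (bmp O g v)))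
        (Ust O (h * K) (μ0 + (j + 1 : ℕ) * h) h (m - (j + 1)) (Stp O ((1 - τ) * (h * K)) (μ0 + j * h) (bmp O g v))) ∧
      (v ≠ 0 → 0 < O.Fm (1 / 2)
        (Ust O (h * K) (μ0 + (j + 1 : ℕ) * h) h (m - (j + 1)) (Stp O ((1 - τ) * (h * K)) (μ0 + j * h) (bmp O g v)))
        (Ust O (h * K) (μ0 + (j + 1 : ℕ) * h) h (m - (j + 1)) (Stp O ((1 - τ) * (h * K)) (μ0 + j * h) (bmp O g v)))) := by
  have hD := Den_bmp (v := v) hO hh
  have hμ1 : 0 ≤ μ0 + j * h := by positivity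
  have hμ2 : μ0 + j * h ≤ 1 / 2 := by
    rw [← hm]
    have h1 : (j : ℝ) ≤ m := by
      exact_mod_cast (Nat.le_succ j).trans hj
    have := mul_le_mul_of_nonneg_right h1 hh0
    linarith
  have h1 := bmp_mu (ρ := ρ) hO hh hs hcp hμ1 hμ2 hv
  have h2 : δ / 2 * n2 (bmp O g v) ≤ O.Fm (μ0 + j * h) (bmp O g v) (bmp O g v) := by
    refine le_trans ?_ h1
    exact mul_le_mul_of_nonneg_right (by linarith) (n2_nonneg _)
  obtain ⟨h3, h4⟩ := hst.path j hj _ hD h2 (1 - τ) (by linarith) (by linarith)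
  have h5 := run_pos hst hδ' hm (j := j + 1) (l := m - (j + 1)) (by omega) (hD.stp _ _) h3
  refine ⟨h5.1, fun h6 => h5.2 (lt_of_lt_of_le ?_ h4)⟩
  refine n2_pos_of_Fm hC0 hC hD (μ := 0) (lt_of_lt_of_le ?_ (Fm_bmp hO hh hs hv le_rfl (by norm_num)))
  have := norm_pos_iff.2 h6
  positivity

end OD

end Pool.Agent.Lib.MP_ccbbf6_gt.K7.GG
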