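import Pool.Agent.Lib.MP_ccbbf6_gt.K7.DP12b
import Pool.Agent.Lib.MP_ccbbf6_gt.K7.GJ8
import Pool.Agent.Lib.MP_ccbbf6_gt.K7.RG6

/-!
# `κ = 7`, density path, part 12g: the densities of the chain, smoothness
-/

set_option autoImplicit false
set_option linter.unusedSectionVars false

open Set Filter Topology Metric Real Module
open scoped ContDiff RealInnerProductSpace

noncomputable section

namespace Pool.Agent.Lib.MP_ccbbf6_gt.K7.DP

open L4 Geo L4.ORI L5 L5.NEG RG HQ GG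

variable {n : ℕ} {M : Type} [MetricSpace M] [CompactSpace M] {𝒜 : SDist n M} [Nonempty (Gs M)]

section gen

/-- mixtures with the odd part have the same form -/
theorem BR_mix_oddp {D : ℕ} {R : RD D} (h : R.Per2) {w : ℝ → HR D} (hw : R.PDen w) (τ : ℝ) :
    R.BR (fun s => (1 - τ) • w s + τ • R.oddp w s) (fun s => (1 - τ) • w s + τ • R.oddp w s) = R.BR w w := by
  have ht := h.tau hw
  obtain ⟨a, ha⟩ : ∃ a : ℝ, a = 1 - τ / 2 := ⟨_, rfl⟩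
  obtain ⟨b, hb⟩ : ∃ b : ℝ, b = -(τ / 2) := ⟨_, rfl⟩
  have e1 : (fun s => (1 - τ) • w s + τ • R.oddp w s) = fun s => a • w s + b • R.tau w s := by
    funext s
    unfold RD.oddp
    rw [ha, hb]
    module
  have hwa : R.PDen (fun s => a • w s) := hw.smul a
  have htb : R.PDen (fun s => b • R.tau w s) := ht.smul b
  have hab : Continuous fun s => a • w s + b • R.tau w s := hwa.cont.add htb.cont
  have k2 : R.BR (R.tau w) w = R.BR w (R.tau w) := by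
    have h3 := RD.BR_tau_tau h hw ht
    rw [h.tau_tau hw] at h3
    exact h3
  rw [e1, RD.BR_add_left hwa.cont htb.cont hab, RD.BR_add_right hwa.cont hwa.cont htb.cont,
    RD.BR_add_right htb.cont hwa.cont htb.cont, RD.BR_smul, RD.BR_smul, RD.BR_smul, RD.BR_smul, RD.BR_tau_tau h hw hw, k2,
    RD.BR_tau h hw hw, ha, hb]
  ring

variable (t : TEmb 𝒜) (hB : Bl M) (e : Emb n 𝒜) {κ : ℕ} (hk : 𝒜.HK κ) {N' : ℕ} {Q : Gs M → Eu N' →L[ℝ] Eu N'}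

theorem sf_plot {k : ℕ} (p : (spN 𝒜 Q).Plot k) (v : FR.V k × ℝ) : SmGAt 𝒜 (fun v : FR.V k × ℝ => (p.1 v.1).1.1) v :=
  SmGAt.comp (f := fun v : FR.V k × ℝ => v.1) (p.2.1.atP v.1) contDiffAt_fst

theorem smW_ust {U : ℝ → (spN 𝒜 Q).pt → ℝ → HC t.D} (hU : SmW U) (a μ h : ℝ) (l : ℕ) :
    SmW fun τ y => OD.Ust (orb t hB e hk y.1.1).od a μ h l (U τ y) := by
  intro k p
  exact sf_ust t hB e hk (F := FR.V k × ℝ) (σ := fun v => (p.1 v.1).1.1) (sf_plot p) (u := fun v => U v.2 (p.1 v.1)) (hU k p) a μ h l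

theorem smW_stp {U : ℝ → (spN 𝒜 Q).pt → ℝ → HC t.D} (hU : SmW U) (a μ : ℝ) :
    SmW fun τ y => OD.Stp (orb t hB e hk y.1.1).od ((1 - τ) * a) μ (U τ y) := by
  intro k p
  have ha : ContDiff ℝ ∞ fun v : FR.V k × ℝ => (1 - v.2) * a := (contDiff_const.sub contDiff_snd).mul contDiff_const
  exact sf_stp t hB e hk (F := FR.V k × ℝ) (σ := fun v => (p.1 v.1).1.1) (sf_plot p) (u := fun v => U v.2 (p.1 v.1)) (hU k p) ha μ

theorem smW_bmp {g : ℝ → ℝ} (hg : ContDiff ℝ ∞ g) {v : (spN 𝒜 Q).pt → HC t.D}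
    (hv : ∀ (k : ℕ) (p : (spN 𝒜 Q).Plot k), ContDiff ℝ ∞ fun u : FR.V k => v (p.1 u)) :
    SmW (Q := Q) fun _ y => OD.bmp (orb t hB e hk y.1.1).od g (v y) := by
  intro k p
  exact sf_bmp t hB e hk (F := FR.V k × ℝ) (σ := fun v => (p.1 v.1).1.1) (sf_plot p) hg (v := fun v' => v (p.1 v'.1))
    ((hv k p).comp contDiff_fst)

theorem smW_mix {U V : ℝ → (spN 𝒜 Q).pt → ℝ → HC t.D} (hU : SmW U) (hV : SmW V) :
    SmW fun τ y s => ((1 - τ : ℝ) : ℂ) • U τ y s + (τ : ℂ) • V τ y s := by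
  intro k p
  have h1 : ContDiff ℝ ∞ fun v : (FR.V k × ℝ) × ℝ => v.1.2 := contDiff_snd.comp contDiff_fst
  have h2 : ContDiff ℝ ∞ fun v : (FR.V k × ℝ) × ℝ => ((1 - v.1.2 : ℝ) : ℂ) := Complex.ofRealCLM.contDiff.comp (contDiff_const.sub h1)
  have h3 : ContDiff ℝ ∞ fun v : (FR.V k × ℝ) × ℝ => ((v.1.2 : ℝ) : ℂ) := Complex.ofRealCLM.contDiff.comp h1
  exact (h2.smul (hU k p)).add (h3.smul (hV k p))

theorem smW_mixR {U V : ℝ → (spN 𝒜 Q).pt → ℝ → HR t.D} (hU : SmW U) (hV : SmW V) :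
    SmW fun τ y s => (1 - τ) • U τ y s + τ • V τ y s := by
  intro k p
  have h1 : ContDiff ℝ ∞ fun v : (FR.V k × ℝ) × ℝ => v.1.2 := contDiff_snd.comp contDiff_fst
  have h2 : ContDiff ℝ ∞ fun v : (FR.V k × ℝ) × ℝ => 1 - v.1.2 := contDiff_const.sub h1
  exact (h2.smul (hU k p)).add (h1.smul (hV k p))

theorem smW_reH {U : ℝ → (spN 𝒜 Q).pt → ℝ → HC t.D} (hU : SmW U) : SmW fun τ y s => reH t.D (U τ y s) :=
  fun k p => (reH t.D).contDiff.comp (hU k p)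

/-- the value of the operator -/
theorem sm_Hm0 {U : (spN 𝒜 Q).pt → ℝ → HC t.D} (hU : SmW fun _ => U) (μ : ℝ) (k : ℕ) (p : (spN 𝒜 Q).Plot k) :
    ContDiff ℝ ∞ fun u : FR.V k => (orb t hB e hk (p.1 u).1.1).od.Hm μ (U (p.1 u)) 0 := by
  obtain ⟨W, hW⟩ : ∃ W : (FR.V k × ℝ) × ℝ → HC t.D, W = fun v => U (p.1 v.1.1) v.2 := ⟨_, rfl⟩
  have hW1 : ContDiff ℝ ∞ W := by rw [hW]; exact hU k p
  have h0 : ContDiff ℝ ∞ fun q : FR.V k × ℝ => (((q.1, (0 : ℝ)), q.2) : (FR.V k × ℝ) × ℝ) :=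
    (contDiff_fst.prodMk contDiff_const).prodMk contDiff_snd
  obtain ⟨u, hu⟩ : ∃ u : FR.V k → ℝ → HC t.D, u = fun v => U (p.1 v) := ⟨_, rfl⟩
  have h1 : ContDiff ℝ ∞ fun q : FR.V k × ℝ => u q.1 q.2 := by
    have h1' := hW1.comp h0
    rw [hW] at h1'
    rw [hu]
    exact h1'
  have h2 := sf_Hm t hB e hk (F := FR.V k) (σ := fun v => (p.1 v).1.1) (fun v => p.2.1.atP v) (u := u) h1 μ
  obtain ⟨G, hG⟩ : ∃ G : FR.V k × ℝ → HC t.D, G = fun q => (orb t hB e hk (p.1 q.1).1.1).od.Hm μ (u q.1) q.2 := ⟨_, rfl⟩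
  rw [← hG] at h2
  have h3 : ContDiff ℝ ∞ fun v : FR.V k => G (v, 0) := h2.comp (contDiff_id.prodMk contDiff_const)
  rw [hG, hu] at h3
  exact h3

theorem mem_HC {c : Gs M} {u : ℝ → HC t.D} (hu : (orb t hB e hk c).od.Den u) (s : ℝ) :
    (orb t hB e hk c).P s (reH t.D (u s)) = reH t.D (u s) ∧ (orb t hB e hk c).P s (imH t.D (u s)) = imH t.D (u s) := by
  have h1 : cxL t.D ((orb t hB e hk c).P s) (u s) = u s := hu.mem s
  constructor
  · rw [← reH_cxL, h1]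
  · rw [← imH_cxL, h1]

theorem den_per {c : Gs M} {u : ℝ → HC t.D} (hu : (orb t hB e hk c).od.Den u) (s : ℝ) : u (s + 2 * π) = u s := by
  have hm := mem_HC t hB e hk hu
  have h2 := per2_orb t hB e hk c
  have e0 : s + 2 * π = s + π + π := by ring
  rw [e0]
  refine ext_H ?_ ?_
  · have e1 : ∀ s, reH t.D (u (s + π)) = -(orb t hB e hk c).T s (reH t.D (u s)) := fun s => by
      rw [hu.odd, map_neg]
      show -reH t.D (cxL t.D ((orb t hB e hk c).T s) (u s)) = _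
      rw [reH_cxL]
    rw [e1, e1, map_neg, neg_neg, h2.TT _ _ (hm s).1]
  · have e1 : ∀ s, imH t.D (u (s + π)) = -(orb t hB e hk c).T s (imH t.D (u s)) := fun s => by
      rw [hu.odd, map_neg]
      show -imH t.D (cxL t.D ((orb t hB e hk c).T s) (u s)) = _
      rw [imH_cxL]
    rw [e1, e1, map_neg, neg_neg, h2.TT _ _ (hm s).2]

/-- real parts of densities -/
theorem pden_reH {c : Gs M} {u : ℝ → HC t.D} (hu : (orb t hB e hk c).od.Den u) :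
    (orb t hB e hk c).PDen (fun s => reH t.D (u s)) :=
  ⟨(reH t.D).continuous.comp hu.cont, fun s => (mem_HC t hB e hk hu s).1, fun s => by
    show reH t.D (u (s + 2 * π)) = _
    rw [den_per t hB e hk hu]⟩

end gen

section dens

variable (t : TEmb 𝒜) (hB : Bl M) (e : Emb n 𝒜) {κ : ℕ} (hk : 𝒜.HK κ) {N : ℕ}
  (Φ : e.Q → (Eu N →L[ℝ] EuclideanSpace ℝ (Fin e.q))) (P : Gs M → Eu N →L[ℝ] Eu N)

/-- the density of the 4-gon part -/
def w0 (y : (spY 𝒜 P).pt) (s : ℝ) : HR t.D := ts t (kf e Φ (q0 y.1.2)) y.1.1 s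

/-- its odd part, complex -/
def z0 (y : (spY 𝒜 P).pt) (s : ℝ) : HC t.D := zc t (Z0 t hB e Φ) (q0 y.1.2) 0 y.1.1 s

/-- the density of the twisted part -/
def zG (y : (spY 𝒜 P).pt) (s : ℝ) : HC t.D := zc t (Z0 t hB e Φ) (q1 y.1.2) (q2 y.1.2) y.1.1 s

variable {Φ}

include hB hk in
theorem smW_w0 (hΦ : ContDiff ℝ ∞ Φ) : SmW (Q := P3 P) fun _ => w0 t e Φ P := by
  intro k p
  have hx : ContDiff ℝ ∞ fun v : FR.V k × ℝ => q0 (p.1 v.1).1.2 := (q0 (N := N)).contDiff.comp (p.2.2.comp contDiff_fst)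
  exact sf_ts t hB (F := FR.V k × ℝ) (σ := fun v => (p.1 v.1).1.1) (sf_plot p) (w := fun v => kf e Φ (q0 (p.1 v.1).1.2))
    fun hσ hg hp => smV_kf e hB hk hΦ hσ (hx.contDiffAt.comp _ hg) hp

include hk in
/-- smooth families of densities of sections -/
theorem smW_zc {U : Gs M → (Eu N →L[ℝ] HC t.D)} (hU : GSec t hB U) (f g : Eu (N + (N + N)) →L[ℝ] Eu N) :
    SmW (𝒜 := 𝒜) (Q := P3 P) fun _ (y : (spY 𝒜 P).pt) s => zc t U (f y.1.2) (g y.1.2) y.1.1 s := by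
  intro k p
  have hx : ContDiff ℝ ∞ fun v : (FR.V k × ℝ) × ℝ => f (p.1 v.1.1).1.2 := f.contDiff.comp (p.2.2.comp (contDiff_fst.comp contDiff_fst))
  have hy : ContDiff ℝ ∞ fun v : (FR.V k × ℝ) × ℝ => g (p.1 v.1.1).1.2 := g.contDiff.comp (p.2.2.comp (contDiff_fst.comp contDiff_fst))
  have h1 : ContDiff ℝ ∞ fun v : (FR.V k × ℝ) × ℝ => U (shift v.2 (p.1 v.1.1).1.1) :=
    contDiff_iff_contDiffAt.2 fun v => hU.sm (sf_sh hB (F := FR.V k × ℝ) (σ := fun v => (p.1 v.1).1.1) (sf_plot p)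
      contDiff_fst contDiff_snd v)
  exact (h1.clm_apply hx).add ((h1.clm_apply hy).const_smul Complex.I)

include hk in
theorem smW_z0 (hΦ : ContDiff ℝ ∞ Φ) : SmW (Q := P3 P) fun _ => z0 t hB e Φ P :=
  smW_zc t hB hk P (gsec_Z0 t hB e hk hΦ) q0 0

include hk in
theorem smW_zG (hΦ : ContDiff ℝ ∞ Φ) : SmW (Q := P3 P) fun _ => zG t hB e Φ P :=
  smW_zc t hB hk P (gsec_Z0 t hB e hk hΦ) q1 q2

theorem pden_w0 (hΦ : ContDiff ℝ ∞ Φ) (y : (spY 𝒜 P).pt) : (orb t hB e hk y.1.1).PDen (w0 t e Φ P y) :=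
  ts_pden t hB e hk (cont_sec t hB e fun hσ hp => smV_kf' hB e hk hΦ (q0 y.1.2) hσ hp) (kf_mem e Φ (q0 y.1.2)) y.1.1

theorem den_z0 (hΦ : ContDiff ℝ ∞ Φ) (y : (spY 𝒜 P).pt) : (orb t hB e hk y.1.1).od.Den (z0 t hB e Φ P y) :=
  (gsec_Z0 t hB e hk hΦ).den e hk _ _ _

theorem den_zG (hΦ : ContDiff ℝ ∞ Φ) (y : (spY 𝒜 P).pt) : (orb t hB e hk y.1.1).od.Den (zG t hB e Φ P y) :=
  (gsec_Z0 t hB e hk hΦ).den e hk _ _ _

/-- `w` and mixtures with its odd part have the same form -/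
theorem BR_mixw (hΦ : ContDiff ℝ ∞ Φ) (y : (spY 𝒜 P).pt) (τ : ℝ) :
    (orb t hB e hk y.1.1).BR (fun s => (1 - τ) • w0 t e Φ P y s + τ • reH t.D (z0 t hB e Φ P y s))
      (fun s => (1 - τ) • w0 t e Φ P y s + τ • reH t.D (z0 t hB e Φ P y s)) = QW 𝒜 hB (kf e Φ (q0 y.1.2)) y.1.1 := by
  have e1 : (fun s => (1 - τ) • w0 t e Φ P y s + τ • reH t.D (z0 t hB e Φ P y s)) = fun s => (1 - τ) • w0 t e Φ P y s +
      τ • (orb t hB e hk y.1.1).oddp (w0 t e Φ P y) s := by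
    funext s
    unfold z0
    rw [reH_zc0 t hB e hk]
    rfl
  rw [e1, BR_mix_oddp (per2_orb t hB e hk y.1.1) (pden_w0 t hB e hk P hΦ y)]
  exact (QW_eq t hB e hk (kf_mem e Φ (q0 y.1.2)) y.1.1).symm

end dens

end Pool.Agent.Lib.MP_ccbbf6_gt.K7.DP
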