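import Pool.Agent.Lib.MP_ccbbf6_gt.K7.DP12a
import Pool.Agent.Lib.MP_ccbbf6_gt.K7.DP12c
import Pool.Agent.Lib.MP_ccbbf6_gt.K7.DP12f
import Pool.Agent.Lib.MP_ccbbf6_gt.K7.DP12g

/-!
# `κ = 7`, density path, part 12h: the links of the chain (helper92)
-/

set_option autoImplicit false
set_option linter.unusedSectionVars false

open Set Filter Topology Metric Real Module
open scoped ContDiff RealInnerProductSpace

noncomputable section

namespace Pool.Agent.Lib.MP_ccbbf6_gt.K7.DP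

open L4 Geo L4.ORI L5 L5.NEG RG HQ GG

variable {n : ℕ} {M : Type} [MetricSpace M] [CompactSpace M] {𝒜 : SDist n M} [Nonempty (Gs M)]

section pre

variable {t : TEmb 𝒜} {hB : Bl M} {e : Emb n 𝒜} {κ : ℕ} {hk : 𝒜.HK κ} {N : ℕ}
  {Φ : e.Q → (Eu N →L[ℝ] EuclideanSpace ℝ (Fin e.q))} {P : Gs M → Eu N →L[ℝ] Eu N} {kG : Eu N → Eu N → Gs M → Eu n}

/-- the three components are in the bundle -/
theorem mem_q (y : (spY 𝒜 P).pt) : P y.1.1 (q0 y.1.2) = q0 y.1.2 ∧ P y.1.1 (q1 y.1.2) = q1 y.1.2 ∧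
    P y.1.1 (q2 y.1.2) = q2 y.1.2 := inP3_iff.1 y.2.1

/-- not all components vanish -/
theorem q_ne (y : (spY 𝒜 P).pt) : ¬(q0 y.1.2 = 0 ∧ q1 y.1.2 = 0 ∧ q2 y.1.2 = 0) := by
  rintro ⟨h0, h1, h2⟩
  have h3 := norm_q y.1.2
  rw [h0, h1, h2, norm_zero, y.2.2] at h3
  norm_num at h3

theorem kf_zero (t : TEmb 𝒜) (c : Gs M) : kf e Φ (0 : Eu N) c = 0 := by
  have h1 : Kop t e Φ c 0 = 0 := map_zero _
  rw [Kop_apply] at h1
  exact tI_inj t (h1.trans (map_zero _).symm)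

theorem QW_zero (t : TEmb 𝒜) (hk : 𝒜.HK κ) (c : Gs M) : QW 𝒜 hB (kf e Φ (0 : Eu N)) c = 0 := by
  have e1 : (kf e Φ (0 : Eu N)) = fun _ => 0 := funext fun c => kf_zero t c
  rw [e1, QW_eq t hB e hk (fun c => Submodule.zero_mem _)]
  have e2 : ts t (fun _ : Gs M => (0 : Eu n)) c = fun _ => 0 := by
    funext s
    exact map_zero _
  rw [e2]
  unfold RD.BR
  simp

variable (G : GXd t hB e hk N Φ P kG)
include G

theorem QW_nn {c : Gs M} {x : Eu N} (hx : P c x = x) : 0 ≤ QW 𝒜 hB (kf e Φ x) c := by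
  by_cases h : x = 0
  · rw [h, QW_zero t hk c]
  · exact (G.hQ c x hx h).le

/-- the values of the evaluation -/
def kj (_ : GXd t hB e hk N Φ P kG) (x : Eu N) (c : Gs M) : Eu n := (-(1 / 4) : ℝ) • EvC 𝒜 hB (kf e Φ x) c

theorem kj_mem (x : Eu N) (c : Gs M) : kj G x c ∈ NEG.Kc 𝒜 c := Submodule.smul_mem _ _ (EvC_mem hB _ _)

theorem kj_ne {x : Eu N} {c : Gs M} (hx : P c x = x) (h : x ≠ 0) : kj G x c ≠ 0 := by
  have h1 := G.hv c x hx h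
  intro h2
  rcases smul_eq_zero.1 h2 with h3 | h3
  · norm_num at h3
  · exact h1 h3

theorem EvC_zero (c : Gs M) : EvC 𝒜 hB (kf e Φ (0 : Eu N)) c = 0 := by
  have h1 : Lop t hB e (Φ := Φ) c 0 = 0 := map_zero _
  rw [Lop_EvC t hB e hk G.hΦ] at h1
  exact tI_inj t (h1.trans (map_zero _).symm)

theorem Hm0_kj (x y : Eu N) (c : Gs M) : (orb t hB e hk c).od.Hm 0 (zc t (Z0 t hB e Φ) x y c) 0 =
    cx t.D (tI t (c.1 0) (kj G x c)) + Complex.I • cx t.D (tI t (c.1 0) (kj G y c)) := by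
  rw [Hm0_zero t hB e hk G.hΦ, smul_add]
  unfold kj
  rw [map_smul, map_smul, map_smul, map_smul]
  congr 1
  rw [smul_comm]

theorem s_w0 : SmW (Q := P3 P) fun _ => w0 t e Φ P := smW_w0 t hB e hk P G.hΦ

theorem s_z0 : SmW (Q := P3 P) fun _ => z0 t hB e Φ P := smW_z0 t hB e hk P G.hΦ

theorem s_zG : SmW (Q := P3 P) fun _ => zG t hB e Φ P := smW_zG t hB e hk P G.hΦ

/-- the steps of the twisted part -/
def uG (y : (spY 𝒜 P).pt) (s : ℝ) : HC t.D := OD.Ust (orb t hB e hk y.1.1).od (G.h * G.K) G.mu0 G.h G.m (zG t hB e Φ P y) s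

/-- the first evaluation -/
def vN (_ : GXd t hB e hk N Φ P kG) (y : (spY 𝒜 P).pt) : HC t.D := (orb t hB e hk y.1.1).od.Hm 0 (z0 t hB e Φ P y) 0

/-- the evaluation of the twisted part -/
def vG (_ : GXd t hB e hk N Φ P kG) (y : (spY 𝒜 P).pt) : HC t.D := (orb t hB e hk y.1.1).od.Hm 0 (zG t hB e Φ P y) 0

/-- the bumps -/
def bN (y : (spY 𝒜 P).pt) (s : ℝ) : HC t.D := OD.bmp (orb t hB e hk y.1.1).od G.g (vN G y) s

/-- the bumps of the twisted part -/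
def bG (y : (spY 𝒜 P).pt) (s : ℝ) : HC t.D := OD.bmp (orb t hB e hk y.1.1).od G.g (vG G y) s

theorem vN_eq (y : (spY 𝒜 P).pt) : vN G y = cx t.D (tI t (y.1.1.1 0) (kj G (q0 y.1.2) y.1.1)) := by
  unfold vN z0
  rw [Hm0_kj G]
  have h1 : kj G (0 : Eu N) y.1.1 = 0 := by
    unfold kj
    rw [EvC_zero G, smul_zero]
  rw [h1, map_zero, map_zero, smul_zero, add_zero]

theorem vG_eq (y : (spY 𝒜 P).pt) : vG G y = cx t.D (tI t (y.1.1.1 0) (kj G (q1 y.1.2) y.1.1)) +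
    Complex.I • cx t.D (tI t (y.1.1.1 0) (kj G (q2 y.1.2) y.1.1)) := Hm0_kj G _ _ _

theorem im_vN (y : (spY 𝒜 P).pt) : imH t.D (vN G y) = 0 := by
  rw [vN_eq G, imH_cx]

theorem P_vN (y : (spY 𝒜 P).pt) : (orb t hB e hk y.1.1).od.P 0 (vN G y) = vN G y :=
  (OD.Den_Hm (den_z0 t hB e hk P G.hΦ y) 0).mem 0

theorem P_vG (y : (spY 𝒜 P).pt) : (orb t hB e hk y.1.1).od.P 0 (vG G y) = vG G y :=
  (OD.Den_Hm (den_zG t hB e hk P G.hΦ y) 0).mem 0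

theorem vN_ne {y : (spY 𝒜 P).pt} (h : q0 y.1.2 ≠ 0) : vN G y ≠ 0 := by
  intro h1
  rw [vN_eq G] at h1
  have h2 := congrArg (reH t.D) h1
  rw [reH_cx, map_zero] at h2
  exact kj_ne G (mem_q y).1 h (tI_inj t (h2.trans (map_zero _).symm))

theorem vG_ne {y : (spY 𝒜 P).pt} (h : ¬(q1 y.1.2 = 0 ∧ q2 y.1.2 = 0)) : vG G y ≠ 0 := by
  intro h1
  rw [vG_eq G] at h1
  have h2 := congrArg (reH t.D) h1
  have h3 := congrArg (imH t.D) h1
  rw [reH_mk, map_zero] at h2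
  rw [imH_mk, map_zero] at h3
  refine h ⟨?_, ?_⟩
  · by_contra h4
    exact kj_ne G (mem_q y).2.1 h4 (tI_inj t (h2.trans (map_zero _).symm))
  · by_contra h4
    exact kj_ne G (mem_q y).2.2 h4 (tI_inj t (h3.trans (map_zero _).symm))

theorem im_z0 (y : (spY 𝒜 P).pt) (s : ℝ) : imH t.D (z0 t hB e Φ P y s) = 0 := by
  unfold z0 zc
  rw [map_zero, smul_zero, add_zero, Z0_apply, imH_cx]

theorem im_bN (y : (spY 𝒜 P).pt) (s : ℝ) : imH t.D (bN G y s) = 0 := by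
  unfold bN OD.bmp
  have h1 : ∀ (r : ℝ) (z : HC t.D), imH t.D z = 0 → imH t.D ((r : ℂ) • z) = 0 := fun r z hz => by
    rw [imH_smul, Complex.ofReal_re, Complex.ofReal_im, hz, smul_zero, zero_smul, add_zero]
  have h2 : ∀ s, imH t.D ((orb t hB e hk y.1.1).od.P s (vN G y)) = 0 := fun s => by
    refine (imH_cxL _ _).trans ?_
    rw [im_vN G, map_zero]
  have h3 : ∀ s, imH t.D ((orb t hB e hk y.1.1).od.T s ((orb t hB e hk y.1.1).od.P s (vN G y))) = 0 := fun s => by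
    refine (imH_cxL _ _).trans ?_
    rw [h2, map_zero]
  rw [map_sub, h1 _ _ (h2 s), h1 _ _ (h3 _), sub_zero]

theorem hCJ' (c : Gs M) (s r : ℝ) : ‖(orb t hB e hk c).od.J s r‖ ≤ G.CJ := G.hCJ c s r

theorem Den_bN (y : (spY 𝒜 P).pt) : (orb t hB e hk y.1.1).od.Den (bN G y) := OD.Den_bmp (G.geo y.1.1) G.bmp _

theorem Den_bG (y : (spY 𝒜 P).pt) : (orb t hB e hk y.1.1).od.Den (bG G y) := OD.Den_bmp (G.geo y.1.1) G.bmp _

theorem vG_def (y : (spY 𝒜 P).pt) : vG G y = (orb t hB e hk y.1.1).od.Hm 0 (zG t hB e Φ P y) 0 := rfl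

theorem vN_def (y : (spY 𝒜 P).pt) : vN G y = (orb t hB e hk y.1.1).od.Hm 0 (z0 t hB e Φ P y) 0 := rfl

omit G in
theorem zG_eq (y : (spY 𝒜 P).pt) : zG t hB e Φ P y = zc t (Z0 t hB e Φ) (q1 y.1.2) (q2 y.1.2) y.1.1 := rfl

omit G in
theorem z0_eq (y : (spY 𝒜 P).pt) : z0 t hB e Φ P y = zc t (Z0 t hB e Φ) (q0 y.1.2) 0 y.1.1 := rfl

theorem hnG (y : (spY 𝒜 P).pt) : ∀ s, |s| ≤ G.eps →
    ‖(orb t hB e hk y.1.1).od.Hm 0 (zG t hB e Φ P y) s - vG G y‖ ≤ 1 / 4 * ‖vG G y‖ := by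
  have h := G.hn y.1.1 _ _ (mem_q y).2.1 (mem_q y).2.2
  rw [vG_def, zG_eq]
  exact h

theorem hzG (y : (spY 𝒜 P).pt) : G.rho * OD.n2 (zG t hB e Φ P y) ≤
    (orb t hB e hk y.1.1).od.Fm 0 (zG t hB e Φ P y) (zG t hB e Φ P y) := by
  have h := G.hz y.1.1 _ _ (mem_q y).2.1 (mem_q y).2.2
  rw [zG_eq]
  exact h

theorem hnN (y : (spY 𝒜 P).pt) : ∀ s, |s| ≤ G.eps →
    ‖(orb t hB e hk y.1.1).od.Hm 0 (z0 t hB e Φ P y) s - vN G y‖ ≤ 1 / 4 * ‖vN G y‖ := by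
  have h := G.hn y.1.1 _ _ (mem_q y).1 (map_zero _)
  rw [vN_def, z0_eq]
  exact h

theorem hzN (y : (spY 𝒜 P).pt) : G.rho * OD.n2 (z0 t hB e Φ P y) ≤
    (orb t hB e hk y.1.1).od.Fm 0 (z0 t hB e Φ P y) (z0 t hB e Φ P y) := by
  have h := G.hz y.1.1 _ _ (mem_q y).1 (map_zero _)
  rw [z0_eq]
  exact h

/-- the twisted part at the beginning -/
theorem uG_pos (y : (spY 𝒜 P).pt) : 0 ≤ (orb t hB e hk y.1.1).od.Fm (1 / 2) (uG G y) (uG G y) ∧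
    (¬(q1 y.1.2 = 0 ∧ q2 y.1.2 = 0) → 0 < (orb t hB e hk y.1.1).od.Fm (1 / 2) (uG G y) (uG G y)) := by
  have h1 := OD.mz_pos (τ := 0) (G.hst y.1.1) G.del_pos G.del_pos' G.hm G.hδm G.CJ0 (hCJ' G y.1.1) (G.geo y.1.1) G.bmp
    G.small G.cor (den_zG t hB e hk P G.hΦ y) (v := vG G y) (vG_def G y)
    (hnG G y) G.rho_pos (hzG G y) le_rfl zero_le_one
  rw [OD.mz_zero] at h1
  exact ⟨h1.1, fun h => h1.2 (vG_ne G h)⟩

/-- the bumps of the first part -/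
theorem bN_pos (y : (spY 𝒜 P).pt) : 0 ≤ (orb t hB e hk y.1.1).od.Fm 0 (bN G y) (bN G y) ∧
    (q0 y.1.2 ≠ 0 → 0 < (orb t hB e hk y.1.1).od.Fm 0 (bN G y) (bN G y)) := by
  have h1 := OD.Fm_bmp (G.geo y.1.1) G.bmp G.small (P_vN G y) (μ := 0) le_rfl (by norm_num)
  have h2 := G.cor
  refine ⟨le_trans (by positivity) h1, fun h => lt_of_lt_of_le ?_ h1⟩
  have h3 := norm_pos_iff.2 (vN_ne G h)
  positivity

/-- positivity of a sum -/
theorem sum_pos {y : (spY 𝒜 P).pt} {a b : ℝ} (h1 : 0 ≤ a ∧ (q0 y.1.2 ≠ 0 → 0 < a))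
    (h2 : 0 ≤ b ∧ (¬(q1 y.1.2 = 0 ∧ q2 y.1.2 = 0) → 0 < b)) : 0 < 2 * a + 2 * √2 * b := by
  have h3 : 0 < √(2 : ℝ) := by positivity
  by_cases h : q0 y.1.2 = 0
  · have h4 : 0 < b := h2.2 fun h5 => q_ne y ⟨h, h5.1, h5.2⟩
    have h5 : 0 < 2 * √2 * b := by positivity
    linarith [h1.1]
  · have h4 := h1.2 h
    have h5 : 0 ≤ 2 * √2 * b := mul_nonneg (by positivity) h2.1
    linarith

/-- **first link: the odd part** -/
theorem link2 : FC.AP (P3 P) (aD t hB (w0 t e Φ P) (uG G)) (aD t hB (fun y s => reH t.D (z0 t hB e Φ P y s)) (uG G)) := by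
  have hU : SmW (Q := P3 P) fun _ => uG G := smW_ust t hB e hk (s_zG G) _ _ _ _
  have h := ap_dens t hB e hk (Q := P3 P) (fun τ y s => (1 - τ) • w0 t e Φ P y s + τ • reH t.D (z0 t hB e Φ P y s))
    (fun _ => uG G) (smW_mixR t (s_w0 G) (smW_reH t (s_z0 G))) hU
    (fun τ _ y => ((pden_w0 t hB e hk P G.hΦ y).smul _).add ((pden_reH t hB e hk (den_z0 t hB e hk P G.hΦ y)).smul _))
    (fun τ _ y => (den_zG t hB e hk P G.hΦ y).ust _ _ _ _) fun τ _ y => by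
      refine sum_pos G ?_ (uG_pos G y)
      rw [BR_mixw t hB e hk P G.hΦ]
      exact ⟨QW_nn G (mem_q y).1, fun h => G.hQ _ _ (mem_q y).1 h⟩
  have e0 : (fun (y : (spY 𝒜 P).pt) (s : ℝ) => (1 - (0 : ℝ)) • w0 t e Φ P y s + (0 : ℝ) • reH t.D (z0 t hB e Φ P y s)) =
      w0 t e Φ P := by
    funext y s
    rw [sub_zero, one_smul, zero_smul, add_zero]
  have e1 : (fun (y : (spY 𝒜 P).pt) (s : ℝ) => (1 - (1 : ℝ)) • w0 t e Φ P y s + (1 : ℝ) • reH t.D (z0 t hB e Φ P y s)) =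
      fun y s => reH t.D (z0 t hB e Φ P y s) := by
    funext y s
    rw [sub_self, one_smul, zero_smul, zero_add]
  rw [e0, e1] at h
  exact h

/-- **second link: the bumps of the first part** -/
theorem link3 : FC.AP (P3 P) (aD t hB (fun y s => reH t.D (z0 t hB e Φ P y s)) (uG G))
    (aD t hB (fun y s => reH t.D (bN G y s)) (uG G)) := by
  have hU : SmW (Q := P3 P) fun _ => uG G := smW_ust t hB e hk (s_zG G) _ _ _ _
  have hb : SmW (Q := P3 P) fun _ => bN G := smW_bmp t hB e hk G.g_smooth fun k p =>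
    sm_Hm0 t hB e hk (s_z0 G) 0 k p
  have hm : SmW (Q := P3 P) fun τ y s => ((1 - τ : ℝ) : ℂ) • z0 t hB e Φ P y s + (τ : ℂ) • bN G y s :=
    smW_mix t (s_z0 G) hb
  have hD : ∀ (τ : ℝ) (y : (spY 𝒜 P).pt), (orb t hB e hk y.1.1).od.Den
      (fun s => ((1 - τ : ℝ) : ℂ) • z0 t hB e Φ P y s + (τ : ℂ) • bN G y s) := fun τ y =>
    OD.Den_mz (G.geo y.1.1) G.bmp (den_z0 t hB e hk P G.hΦ y) _ τ
  have h := ap_dens t hB e hk (Q := P3 P)
    (fun τ y s => reH t.D (((1 - τ : ℝ) : ℂ) • z0 t hB e Φ P y s + (τ : ℂ) • bN G y s)) (fun _ => uG G)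
    (smW_reH t hm) hU (fun τ _ y => pden_reH t hB e hk (hD τ y)) (fun τ _ y => (den_zG t hB e hk P G.hΦ y).ust _ _ _ _)
    fun τ hτ y => by
      refine sum_pos G ?_ (uG_pos G y)
      have e1 : ∀ s, imH t.D (((1 - τ : ℝ) : ℂ) • z0 t hB e Φ P y s + (τ : ℂ) • bN G y s) = 0 := fun s => by
        rw [map_add, imH_smul, imH_smul, im_z0 G, im_bN G, Complex.ofReal_im, Complex.ofReal_im]
        simp
      rw [RD.BR_re (hD τ y) e1]
      obtain ⟨h1, h2⟩ := OD.mz_pos0 (τ := τ) (G.geo y.1.1) G.bmp G.small G.cor (den_z0 t hB e hk P G.hΦ y) (v := vN G y)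
        (vN_def G y) (hnN G y) G.rho_pos (hzN G y) hτ.1 hτ.2
      refine ⟨mul_nonneg (by norm_num) h1, fun h3 => mul_pos (by norm_num) (h2 ?_ (vN_ne G h3))⟩
      exact OD.n2_pos_of_Hm G.CJ0 (hCJ' G y.1.1) (den_z0 t hB e hk P G.hΦ y) (μ := 0) (s := 0) (vN_ne G h3)
  have e0 : (fun (y : (spY 𝒜 P).pt) (s : ℝ) => reH t.D (((1 - (0 : ℝ) : ℝ) : ℂ) • z0 t hB e Φ P y s + ((0 : ℝ) : ℂ) • bN G y s)) =
      fun y s => reH t.D (z0 t hB e Φ P y s) := by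
    funext y s
    rw [sub_zero, Complex.ofReal_one, one_smul, Complex.ofReal_zero, zero_smul, add_zero]
  have e1 : (fun (y : (spY 𝒜 P).pt) (s : ℝ) => reH t.D (((1 - (1 : ℝ) : ℝ) : ℂ) • z0 t hB e Φ P y s + ((1 : ℝ) : ℂ) • bN G y s)) =
      fun y s => reH t.D (bN G y s) := by
    funext y s
    rw [sub_self, Complex.ofReal_one, one_smul, Complex.ofReal_zero, zero_smul, zero_add]
  rw [e0, e1] at h
  exact h

/-- a path of the twisted part -/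
theorem link_U (U : ℝ → (spY 𝒜 P).pt → ℝ → HC t.D) (hU : SmW (Q := P3 P) U)
    (dU : ∀ τ ∈ Icc (0 : ℝ) 1, ∀ y : (spY 𝒜 P).pt, (orb t hB e hk y.1.1).od.Den (U τ y))
    (pU : ∀ τ ∈ Icc (0 : ℝ) 1, ∀ y : (spY 𝒜 P).pt, 0 ≤ (orb t hB e hk y.1.1).od.Fm (1 / 2) (U τ y) (U τ y) ∧
      (¬(q1 y.1.2 = 0 ∧ q2 y.1.2 = 0) → 0 < (orb t hB e hk y.1.1).od.Fm (1 / 2) (U τ y) (U τ y))) :
    FC.AP (P3 P) (aD t hB (fun y s => reH t.D (bN G y s)) (U 0)) (aD t hB (fun y s => reH t.D (bN G y s)) (U 1)) := by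
  have hb : SmW (Q := P3 P) fun _ => bN G := smW_bmp t hB e hk G.g_smooth fun k p =>
    sm_Hm0 t hB e hk (s_z0 G) 0 k p
  refine ap_dens t hB e hk (Q := P3 P) (fun _ y s => reH t.D (bN G y s)) U (smW_reH t hb) hU
    (fun τ _ y => pden_reH t hB e hk (Den_bN G y)) dU fun τ hτ y => ?_
  refine sum_pos G ?_ (pU τ hτ y)
  rw [RD.BR_re (Den_bN G y) (im_bN G y)]
  obtain ⟨h1, h2⟩ := bN_pos G y
  exact ⟨mul_nonneg (by norm_num) h1, fun h3 => mul_pos (by norm_num) (h2 h3)⟩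

theorem smW_bG : SmW (Q := P3 P) fun _ => bG G := smW_bmp t hB e hk G.g_smooth fun k p =>
  sm_Hm0 t hB e hk (s_zG G) 0 k p

/-- **third link: the bumps of the twisted part, before the steps** -/
theorem link4 : FC.AP (P3 P) (aD t hB (fun y s => reH t.D (bN G y s)) (uG G))
    (aD t hB (fun y s => reH t.D (bN G y s))
      fun y => OD.Ust (orb t hB e hk y.1.1).od (G.h * G.K) G.mu0 G.h G.m (bG G y)) := by
  have hm : SmW (Q := P3 P) fun τ y s => ((1 - τ : ℝ) : ℂ) • zG t hB e Φ P y s + (τ : ℂ) • bG G y s :=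
    smW_mix t (s_zG G) (smW_bG G)
  have h := link_U G (fun τ y => OD.Ust (orb t hB e hk y.1.1).od (G.h * G.K) G.mu0 G.h G.m
    (OD.mz (orb t hB e hk y.1.1).od G.g (zG t hB e Φ P y) (vG G y) τ)) (smW_ust t hB e hk hm _ _ _ _)
    (fun τ _ y => (OD.Den_mz (G.geo y.1.1) G.bmp (den_zG t hB e hk P G.hΦ y) _ τ).ust _ _ _ _) fun τ hτ y => by
      obtain ⟨h1, h2⟩ := OD.mz_pos (τ := τ) (G.hst y.1.1) G.del_pos G.del_pos' G.hm G.hδm G.CJ0 (hCJ' G y.1.1) (G.geo y.1.1)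
        G.bmp G.small G.cor (den_zG t hB e hk P G.hΦ y) (v := vG G y) (vG_def G y)
        (hnG G y) G.rho_pos (hzG G y) hτ.1 hτ.2
      exact ⟨h1, fun h3 => h2 (vG_ne G h3)⟩
  simp only [OD.mz_zero, OD.mz_one] at h
  exact h

/-- **the steps are removed one by one** -/
theorem link5 {j : ℕ} (hj : j + 1 ≤ G.m) :
    FC.AP (P3 P) (aD t hB (fun y s => reH t.D (bN G y s)) fun y =>
        OD.Ust (orb t hB e hk y.1.1).od (G.h * G.K) (G.mu0 + j * G.h) G.h (G.m - j) (bG G y))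
      (aD t hB (fun y s => reH t.D (bN G y s)) fun y =>
        OD.Ust (orb t hB e hk y.1.1).od (G.h * G.K) (G.mu0 + (j + 1 : ℕ) * G.h) G.h (G.m - (j + 1)) (bG G y)) := by
  have h := link_U G (fun τ y => OD.Ust (orb t hB e hk y.1.1).od (G.h * G.K) (G.mu0 + (j + 1 : ℕ) * G.h) G.h (G.m - (j + 1))
      (OD.Stp (orb t hB e hk y.1.1).od ((1 - τ) * (G.h * G.K)) (G.mu0 + j * G.h) (bG G y)))
    (smW_ust t hB e hk (smW_stp t hB e hk (smW_bG G) _ _) _ _ _ _)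
    (fun τ _ y => ((Den_bG G y).stp _ _).ust _ _ _ _) fun τ hτ y => by
      obtain ⟨h1, h2⟩ := OD.bz_pos (τ := τ) (v := vG G y) (G.hst y.1.1) G.del_pos G.del_pos' G.hm G.h_pos.le G.mu0_pos.le
        G.hδm G.CJ0 (hCJ' G y.1.1) (G.geo y.1.1) G.bmp G.small G.cor (P_vG G y) hj hτ.1 hτ.2
      exact ⟨h1, fun h3 => h2 (vG_ne G h3)⟩
  have e0 : (fun (y : (spY 𝒜 P).pt) => OD.Ust (orb t hB e hk y.1.1).od (G.h * G.K) (G.mu0 + (j + 1 : ℕ) * G.h) G.h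
      (G.m - (j + 1)) (OD.Stp (orb t hB e hk y.1.1).od ((1 - (0 : ℝ)) * (G.h * G.K)) (G.mu0 + j * G.h) (bG G y))) =
      fun y => OD.Ust (orb t hB e hk y.1.1).od (G.h * G.K) (G.mu0 + j * G.h) G.h (G.m - j) (bG G y) := by
    funext y
    have e2 : G.m - j = G.m - (j + 1) + 1 := by omega
    rw [e2, OD.Ust_succ', sub_zero, one_mul]
    congr 1
    push_cast
    ring
  have e1 : (fun (y : (spY 𝒜 P).pt) => OD.Ust (orb t hB e hk y.1.1).od (G.h * G.K) (G.mu0 + (j + 1 : ℕ) * G.h) G.h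
      (G.m - (j + 1)) (OD.Stp (orb t hB e hk y.1.1).od ((1 - (1 : ℝ)) * (G.h * G.K)) (G.mu0 + j * G.h) (bG G y))) =
      fun y => OD.Ust (orb t hB e hk y.1.1).od (G.h * G.K) (G.mu0 + (j + 1 : ℕ) * G.h) G.h (G.m - (j + 1)) (bG G y) := by
    funext y
    rw [sub_self, zero_mul, OD.Stp_zero]
  rw [e0, e1] at h
  exact h

/-- all the steps -/
theorem links5 : ∀ j : ℕ, j ≤ G.m → Relation.ReflTransGen (FC.AP (P3 P))
    (aD t hB (fun y s => reH t.D (bN G y s)) fun y =>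
      OD.Ust (orb t hB e hk y.1.1).od (G.h * G.K) G.mu0 G.h G.m (bG G y))
    (aD t hB (fun y s => reH t.D (bN G y s)) fun y =>
      OD.Ust (orb t hB e hk y.1.1).od (G.h * G.K) (G.mu0 + j * G.h) G.h (G.m - j) (bG G y))
  | 0, _ => by
    rw [Nat.cast_zero, zero_mul, add_zero, Nat.sub_zero]
  | j + 1, hj => (links5 j (by omega)).tail (link5 G hj)

/-- **the densities** -/
theorem chain_dens : Relation.TransGen (FC.AP (P3 P)) (aD t hB (w0 t e Φ P) (uG G))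
    (aD t hB (fun y s => reH t.D (bN G y s)) (bG G)) := by
  have h1 := links5 G G.m le_rfl
  rw [Nat.sub_self] at h1
  exact (((Relation.TransGen.single (link2 G)).tail (link3 G)).tail (link4 G)).trans_left h1

end pre

end Pool.Agent.Lib.MP_ccbbf6_gt.K7.DP
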