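import Pool.Agent.Lib.MP_ccbbf6_gt.K7.HQ1
import Pool.Agent.Lib.MP_ccbbf6_gt.K7.RG5

/-!
# `κ = 7`, density path, part 2: the second variation of the energy of 8-gons in a push-off family (helper92)
-/

set_option autoImplicit false
set_option linter.unusedSectionVars false

open Set Filter Topology Metric Real
open scoped ContDiff RealInnerProductSpace

noncomputable section

namespace Pool.Agent.Lib.MP_ccbbf6_gt.K7.DP

open L4 Geo L4.ORI L5 L5.NEG RG HQ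

variable {n : ℕ} {M : Type} [MetricSpace M] [CompactSpace M] {N : ℕ} {𝒜 : SDist n M} {T : Rt (Eu N)} {C : Eu N → Gs M → M}

/-- the first order variation of `Cxr` is the one of `C` -/
theorem Cxr_var [Nonempty (Gs M)] (hB : Bl M) (hC : PFamR 𝒜 T C) (ξ : Eu N) (c : Gs M) :
    HasDerivAt (fun θ : ℝ => 𝒜.ψ (c.1 0) (Cxr 𝒜 T C (θ • ξ) c)) (X1 𝒜 C c ξ) 0 := by
  have hs : ContDiffAt ℝ ∞ (fun z : Eu N × ℝ => 𝒜.ψ (c.1 0) (C (T.r z.2 z.1) (shift z.2 c))) (0, 0) := by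
    have h1 : SmGAt 𝒜 (fun z : Eu N × ℝ => shift z.2 c) (0, 0) := (smGAt_const c ((0 : Eu N), (0 : ℝ))).shift hB contDiffAt_snd
    have h2 := (hC.smooth h1 (ξ := fun z : Eu N × ℝ => T.r z.2 z.1) (T.smooth_ap contDiffAt_snd contDiffAt_fst)).2
    simp only [T.map_zero, hC.zero, shift_zero] at h2
    exact h2
  have hd := (hs.differentiableAt (by simp)).hasFDerivAt
  have h1 : HasDerivAt (fun θ : ℝ => (θ • ξ, θ ^ 2 * aar 𝒜 T C c ξ)) (ξ, (0 : ℝ)) 0 := by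
    have a1 : HasDerivAt (fun θ : ℝ => θ • ξ) ξ 0 := by
      have := (hasDerivAt_id (0 : ℝ)).smul_const ξ
      rwa [one_smul] at this
    have a2 : HasDerivAt (fun θ : ℝ => θ ^ 2 * aar 𝒜 T C c ξ) 0 0 := by
      have := (hasDerivAt_pow 2 (0 : ℝ)).mul_const (aar 𝒜 T C c ξ)
      simpa using this
    exact a1.prodMk a2
  have h2 : HasFDerivAt (fun z : Eu N × ℝ => 𝒜.ψ (c.1 0) (C (T.r z.2 z.1) (shift z.2 c)))
      (fderiv ℝ (fun z : Eu N × ℝ => 𝒜.ψ (c.1 0) (C (T.r z.2 z.1) (shift z.2 c))) (0, 0))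
      ((fun θ : ℝ => (θ • ξ, θ ^ 2 * aar 𝒜 T C c ξ)) 0) := by
    show HasFDerivAt _ _ ((0 : ℝ) • ξ, (0 : ℝ) ^ 2 * aar 𝒜 T C c ξ)
    rw [zero_smul, zero_pow two_ne_zero, zero_mul]
    exact hd
  have h3 := HasFDerivAt.comp_hasDerivAt (l := fun z : Eu N × ℝ => 𝒜.ψ (c.1 0) (C (T.r z.2 z.1) (shift z.2 c)))
    (f := fun θ : ℝ => (θ • ξ, θ ^ 2 * aar 𝒜 T C c ξ)) (0 : ℝ) h2 h1
  have h4 : fderiv ℝ (fun z : Eu N × ℝ => 𝒜.ψ (c.1 0) (C (T.r z.2 z.1) (shift z.2 c))) (0, 0) (ξ, 0) = X1 𝒜 C c ξ := by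
    have b1 : HasFDerivAt (fun x : Eu N => (x, (0 : ℝ))) (ContinuousLinearMap.inl ℝ (Eu N) ℝ) 0 :=
      hasFDerivAt_prodMk_left (0 : Eu N) (0 : ℝ)
    have b2 := HasFDerivAt.comp (g := fun z : Eu N × ℝ => 𝒜.ψ (c.1 0) (C (T.r z.2 z.1) (shift z.2 c)))
      (f := fun x : Eu N => (x, (0 : ℝ))) 0 hd b1
    have b3 : (fun z : Eu N × ℝ => 𝒜.ψ (c.1 0) (C (T.r z.2 z.1) (shift z.2 c))) ∘ (fun x : Eu N => (x, (0 : ℝ))) =
        fun x : Eu N => 𝒜.ψ (c.1 0) (C x c) := by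
      funext x
      simp only [Function.comp_def, shift_zero, T.zero]
    rw [b3] at b2
    unfold X1
    rw [b2.fderiv]
    rfl
  rw [h4] at h3
  refine h3.congr_of_eventuallyEq (Eventually.of_forall fun θ => ?_)
  simp only [Function.comp_def, Cxr, hC.aar_smul hB, map_smul]

/-- the 8-gons of the loops of a family -/
def gon (𝒜 : SDist n M) (T : Rt (Eu N)) (C : Eu N → Gs M → M) (c : Gs M) (x : Eu N) (θ : ℝ) (i : ZMod 8) : M :=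
  Cxr 𝒜 T C (T.r (t8 i) (θ • x)) (shift (t8 i) c)

theorem gon_zero (hB : Bl M) (hC : PFamR 𝒜 T C) (c : Gs M) (x : Eu N) : gon 𝒜 T C c x 0 = b8 c := by
  funext i
  unfold gon b8
  rw [zero_smul, T.map_zero, hC.Cxr_zero hB]
  show c.1 (0 + t8 i) = c.1 (t8 i)
  rw [zero_add]

theorem gon_smAt [Nonempty (Gs M)] (hB : Bl M) (e : Emb n 𝒜) (hC : PFamR 𝒜 T C) (c : Gs M) (x : Eu N) (i : ZMod 8) (θ : ℝ) :
    SmAt 𝒜 (fun θ => gon 𝒜 T C c x θ i) θ :=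
  hC.smooth_Cxr hB e (smGAt_const (shift (t8 i) c) θ) (x := fun θ : ℝ => T.r (t8 i) (θ • x))
    (T.smooth_ap contDiffAt_const (contDiffAt_id.smul contDiffAt_const))

theorem vel8_gon [Nonempty (Gs M)] (hB : Bl M) (hC : PFamR 𝒜 T C) (c : Gs M) (x : Eu N) :
    vel8 𝒜 (gon 𝒜 T C c x) = fun i => X1 𝒜 C (shift (t8 i) c) (T.r (t8 i) x) := by
  funext i
  have h1 := Cxr_var hB hC (T.r (t8 i) x) (shift (t8 i) c)
  have h2 : gon 𝒜 T C c x 0 i = (shift (t8 i) c).1 0 := by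
    rw [gon_zero hB hC]
    show c.1 (t8 i) = c.1 (0 + t8 i)
    rw [zero_add]
  have h3 : (fun θ : ℝ => 𝒜.ψ ((shift (t8 i) c).1 0) (Cxr 𝒜 T C (θ • T.r (t8 i) x) (shift (t8 i) c))) =
      fun θ : ℝ => 𝒜.ψ (gon 𝒜 T C c x 0 i) (gon 𝒜 T C c x θ i) := by
    funext θ
    rw [h2]
    unfold gon
    rw [map_smul]
  rw [h3] at h1
  exact h1.deriv

/-- the next vertex -/
theorem gon_succ (hB : Bl M) (hT : Per4 T) (c : Gs M) (x : Eu N) (θ : ℝ) (i : ZMod 8) :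
    gon 𝒜 T C c x θ (i + 1) = Cxr 𝒜 T C (T.r (t8 i + π / 2) (θ • x)) (shift (t8 i + π / 2) c) := by
  unfold gon
  rcases t8_succ i with h | h
  · rw [h]
  · rw [← h]
    have h1 : T.r (t8 (i + 1) + 4 * π) (θ • x) = T.r (t8 (i + 1)) (θ • x) := by rw [T.add, hT]
    have h2 : shift (t8 (i + 1) + 4 * π) c = shift (t8 (i + 1)) c := by
      rw [shift_add, shift_four 𝒜 hB]
    rw [h1, h2]

/-- **the second variation of the energy of the 8-gons of a push-off family** -/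
theorem H8_le_BQ [Nonempty (Gs M)] (hB : Bl M) (e : Emb n 𝒜) (hC : PFamR 𝒜 T C) (hT : Per4 T) (c : Gs M) (x : Eu N) :
    H8 𝒜 c (fun i => X1 𝒜 C (shift (t8 i) c) (T.r (t8 i) x)) ≤ -(2 * π * BQ 𝒜 T C c x x) := by
  have hπ := Real.pi_pos
  rw [← vel8_gon hB hC c x]
  -- every `ε`
  refine le_of_forall_pos_le_add fun ε hε => ?_
  obtain ⟨r, hr0, hr⟩ : ∃ r : ℝ, 0 < r ∧ ‖x‖ ≤ r := ⟨‖x‖ + 1, by positivity, by linarith⟩
  obtain ⟨ξ, hξ⟩ : ∃ ξ : Eu N, ξ = r⁻¹ • x := ⟨_, rfl⟩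
  have hx : x = r • ξ := by rw [hξ, smul_smul, mul_inv_cancel₀ hr0.ne', one_smul]
  have hξ1 : ‖ξ‖ ≤ 1 := by
    rw [hξ, norm_smul, norm_inv, Real.norm_eq_abs, abs_of_pos hr0, inv_mul_le_iff₀ hr0, mul_one]
    exact hr
  obtain ⟨ε', hε'⟩ : ∃ ε' : ℝ, ε' = ε / (4 * π ^ 2 * r ^ 2) := ⟨_, rfl⟩
  have hε'0 : 0 < ε' := by rw [hε']; positivity
  obtain ⟨θ0, hθ0, h1⟩ := hC.lip_Cxr hB e hT hε'0
  have hQ : BQ 𝒜 T C c x x = r ^ 2 * BQ 𝒜 T C c ξ ξ := by rw [hx]; exact hC.BQ_smul' hB c r ξ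
  have key : ∀ᶠ s : ℝ in 𝓝[>] (0 : ℝ), E8 (gon 𝒜 T C c x s) ≤ 2 * π ^ 2 - (π * BQ 𝒜 T C c x x - 2 * π ^ 2 * ε' * r ^ 2) * s ^ 2 := by
    have h2 : ∀ᶠ s : ℝ in 𝓝[>] (0 : ℝ), |s * r| < θ0 := by
      have h3 : ContinuousAt (fun s : ℝ => |s * r|) 0 := by fun_prop
      have h4 : |(0 : ℝ) * r| < θ0 := by rw [zero_mul, abs_zero]; exact hθ0
      exact (h3.eventually (gt_mem_nhds h4)).filter_mono nhdsWithin_le_nhds
    have h2' : ∀ᶠ s : ℝ in 𝓝[>] (0 : ℝ), 0 ≤ 1 - (s * r) ^ 2 * ((2 * π)⁻¹ * BQ 𝒜 T C c ξ ξ) + ε' * (s * r) ^ 2 := by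
      have h3 : ContinuousAt (fun s : ℝ => 1 - (s * r) ^ 2 * ((2 * π)⁻¹ * BQ 𝒜 T C c ξ ξ) + ε' * (s * r) ^ 2) 0 := by fun_prop
      have h4 : 0 < 1 - ((0 : ℝ) * r) ^ 2 * ((2 * π)⁻¹ * BQ 𝒜 T C c ξ ξ) + ε' * ((0 : ℝ) * r) ^ 2 := by norm_num
      exact ((h3.eventually (lt_mem_nhds h4)).filter_mono nhdsWithin_le_nhds).mono fun _ h => h.le
    filter_upwards [h2, h2'] with s h3 h3'
    have h4 := h1 (s * r) h3 c ξ hξ1
    obtain ⟨L2, hL2⟩ : ∃ L2 : ℝ, L2 = 1 - (s * r) ^ 2 * ((2 * π)⁻¹ * BQ 𝒜 T C c ξ ξ) + ε' * (s * r) ^ 2 := ⟨_, rfl⟩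
    rw [← hL2] at h4 h3'
    have h5 : ∀ i, dist (gon 𝒜 T C c x s i) (gon 𝒜 T C c x s (i + 1)) ^ 2 ≤ (π / 2) ^ 2 * L2 := by
      intro i
      have h6 := h4 (t8 i) (t8 i + π / 2)
      have h7 : |t8 i - (t8 i + π / 2)| = π / 2 := by
        rw [show t8 i - (t8 i + π / 2) = -(π / 2) by ring, abs_neg, abs_of_pos (by positivity)]
      have h8 : (s * r) • ξ = s • x := by rw [mul_smul, ← hx]
      simp only [h7, h8] at h6
      rw [gon_succ hB hT]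
      have h9 : (√L2 * (π / 2)) ^ 2 = (π / 2) ^ 2 * L2 := by
        rw [mul_pow, Real.sq_sqrt h3']
        ring
      rw [← h9]
      exact pow_le_pow_left₀ dist_nonneg h6 2
    have h6 : E8 (gon 𝒜 T C c x s) ≤ ∑ _i : ZMod 8, (π / 2) ^ 2 * L2 := Finset.sum_le_sum fun i _ => h5 i
    rw [Finset.sum_const, Finset.card_univ, ZMod.card, nsmul_eq_mul] at h6
    refine h6.trans (le_of_eq ?_)
    rw [hL2, hQ]
    have h10 : π * (2 * π)⁻¹ = 1 / 2 := by field_simp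
    push_cast
    linear_combination (-(4 * π * (s * r) ^ 2 * BQ 𝒜 T C c ξ ξ) / 2 : ℝ) * h10 + 0
  have h11 := H8_le hB (fun i => gon_smAt hB e hC c x i 0) (gon_zero hB hC c x) key.frequently
  refine h11.trans (le_of_eq ?_)
  rw [hε']
  field_simp
  ring

end Pool.Agent.Lib.MP_ccbbf6_gt.K7.DP
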