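import Pool.Agent.Lib.MP_ccbbf6_gt.K7.DP1
import Pool.Agent.Lib.MP_ccbbf6_gt.K7.DP2
import Pool.Agent.Lib.MP_ccbbf6_gt.K7.RG7

/-!
# `κ = 7`, density path, part 3a: families of densities with trigonometric coefficients (helper92)

`TC om : Rt (Eu N)` : rotation of finitely many complex coordinates with the frequencies `om i`;
`H8_trig` : the second variation for densities with trigonometric coefficients.
-/

set_option autoImplicit false
set_option linter.unusedSectionVars false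

open Set Filter Topology Metric Real Module
open scoped ContDiff RealInnerProductSpace

noncomputable section

namespace Pool.Agent.Lib.MP_ccbbf6_gt.K7.DP

open L4 Geo L4.ORI L5 L5.NEG RG HQ

section rot

variable {ι : Type} [Fintype ι]

/-- complex coordinates -/
abbrev EC (ι : Type) [Fintype ι] : Type := PiLp 2 (fun _ : ι => ℂ)

/-- the rotation of the coordinates -/
def rotC (om : ι → ℝ) (t : ℝ) : EC ι →L[ℝ] EC ι :=
  LinearMap.toContinuousLinearMap
    { toFun := fun x => WithLp.toLp 2 fun i => Complex.exp (Complex.I * ((om i * t : ℝ) : ℂ)) * x i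
      map_add' := fun x y => by
        ext i
        simp [mul_add]
      map_smul' := fun r x => by
        ext i
        simp
        ring }

theorem rotC_apply (om : ι → ℝ) (t : ℝ) (x : EC ι) (i : ι) : rotC om t x i = Complex.exp (Complex.I * ((om i * t : ℝ) : ℂ)) * x i := rfl

theorem norm_ex (a : ℝ) : ‖Complex.exp (Complex.I * (a : ℂ))‖ = 1 := by
  rw [mul_comm, Complex.norm_exp_ofReal_mul_I]

theorem norm_rotC (om : ι → ℝ) (t : ℝ) (x : EC ι) : ‖rotC om t x‖ = ‖x‖ := by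
  have h1 : ‖rotC om t x‖ ^ 2 = ‖x‖ ^ 2 := by
    rw [PiLp.norm_sq_eq_of_L2, PiLp.norm_sq_eq_of_L2]
    refine Finset.sum_congr rfl fun i _ => ?_
    rw [rotC_apply, norm_mul, norm_ex, one_mul]
  exact (sq_eq_sq₀ (norm_nonneg _) (norm_nonneg _)).1 h1

theorem rotC_zero (om : ι → ℝ) (x : EC ι) : rotC om 0 x = x := by
  ext i
  rw [rotC_apply, mul_zero, Complex.ofReal_zero, mul_zero, Complex.exp_zero, one_mul]

theorem rotC_add (om : ι → ℝ) (s t : ℝ) (x : EC ι) : rotC om (s + t) x = rotC om s (rotC om t x) := by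
  ext i
  rw [rotC_apply, rotC_apply, rotC_apply, ← mul_assoc, ← Complex.exp_add]
  congr 2
  push_cast
  ring

theorem smooth_rotC (om : ι → ℝ) (x : EC ι) : ContDiff ℝ ∞ fun t : ℝ => rotC om t x := by
  rw [contDiff_piLp]
  intro i
  have h1 : ContDiff ℝ ∞ fun t : ℝ => Complex.exp (Complex.I * ((om i * t : ℝ) : ℂ)) := by
    have h2 : ContDiff ℝ ∞ fun t : ℝ => Complex.I * ((om i * t : ℝ) : ℂ) :=
      contDiff_const.mul (Complex.ofRealCLM.contDiff.comp (contDiff_const.mul contDiff_id))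
    exact h2.cexp
  exact h1.mul contDiff_const

/-- the number of real coordinates -/
abbrev nC (ι : Type) [Fintype ι] : ℕ := finrank ℝ (EC ι)

/-- real coordinates -/
def LC (ι : Type) [Fintype ι] : EC ι ≃ₗᵢ[ℝ] Eu (nC ι) := (stdOrthonormalBasis ℝ (EC ι)).repr

/-- the rotation group -/
def TC (om : ι → ℝ) : Rt (Eu (nC ι)) where
  r t := ((LC ι).toContinuousLinearEquiv : EC ι →L[ℝ] Eu (nC ι)).comp
    ((rotC om t).comp ((LC ι).symm.toContinuousLinearEquiv : Eu (nC ι) →L[ℝ] EC ι))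
  smooth := by
    rw [contDiff_clm_apply_iff]
    intro y
    exact ((LC ι).toContinuousLinearEquiv : EC ι →L[ℝ] Eu (nC ι)).contDiff.comp (smooth_rotC om ((LC ι).symm y))
  zero x := by
    show LC ι (rotC om 0 ((LC ι).symm x)) = x
    rw [rotC_zero, LinearIsometryEquiv.apply_symm_apply]
  add s t x := by
    show LC ι (rotC om (s + t) ((LC ι).symm x)) = LC ι (rotC om s ((LC ι).symm (LC ι (rotC om t ((LC ι).symm x)))))
    rw [LinearIsometryEquiv.symm_apply_apply, rotC_add]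
  norm t x := by
    show ‖LC ι (rotC om t ((LC ι).symm x))‖ = ‖x‖
    rw [LinearIsometryEquiv.norm_map, norm_rotC, LinearIsometryEquiv.norm_map]

theorem TC_apply (om : ι → ℝ) (t : ℝ) (x : EC ι) : (TC om).r t (LC ι x) = LC ι (rotC om t x) := by
  show LC ι (rotC om t ((LC ι).symm (LC ι x))) = _
  rw [LinearIsometryEquiv.symm_apply_apply]

theorem per_TC {om : ι → ℝ} (m : ι → ℤ) (hom : ∀ i, om i = m i / 2) : Per4 (TC om) := by
  intro x
  obtain ⟨y, rfl⟩ := (LC ι).surjective x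
  rw [TC_apply]
  congr 1
  ext i
  rw [rotC_apply]
  have h1 : Complex.exp (Complex.I * ((om i * (4 * π) : ℝ) : ℂ)) = 1 := by
    have h2 : Complex.I * ((om i * (4 * π) : ℝ) : ℂ) = (m i : ℂ) * (2 * π * Complex.I) := by
      rw [hom]
      push_cast
      ring
    rw [h2]
    exact Complex.exp_int_mul_two_pi_mul_I (m i)
  rw [h1, one_mul]

end rot

section trig

variable {n : ℕ} {M : Type} [MetricSpace M] [CompactSpace M] {𝒜 : SDist n M} {ι : Type} [Fintype ι]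

/-- the family of sections -/
def kC (ks : ι → Gs M → Eu n) (x : Eu (nC ι)) (c : Gs M) : Eu n := ∑ i, ((LC ι).symm x i).re • ks i c

theorem kC_smul (ks : ι → Gs M → Eu n) (a : ℝ) (x : Eu (nC ι)) (c : Gs M) : kC ks (a • x) c = a • kC ks x c := by
  unfold kC
  rw [Finset.smul_sum]
  refine Finset.sum_congr rfl fun i _ => ?_
  rw [map_smul, smul_smul]
  simp

theorem kC_mem {ks : ι → Gs M → Eu n} (hks : ∀ i, KSec 𝒜 (ks i)) (x : Eu (nC ι)) (c : Gs M) : kC ks x c ∈ Kc 𝒜 c :=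
  Submodule.sum_mem _ fun i _ => Submodule.smul_mem _ _ ((hks i).mem c)

theorem kC_smooth {ks : ι → Gs M → Eu n} (hks : ∀ i, KSec 𝒜 (ks i)) {F : Type} [NormedAddCommGroup F] [NormedSpace ℝ F]
    {σ : F → Gs M} {x : F → Eu (nC ι)} {u : F} {p : M} (hσ : SmGAt 𝒜 σ u) (hx : ContDiffAt ℝ ∞ x u)
    (hp : (σ u).1 0 ∈ (𝒜.ψ p).source) : SmV 𝒜 p (fun v => (σ v).1 0) (fun v => kC ks (x v) (σ v)) u := by
  have h1 : ContDiffAt ℝ ∞ (fun v => (LC ι).symm (x v)) u :=
    ((LC ι).symm.toContinuousLinearEquiv : Eu (nC ι) →L[ℝ] EC ι).contDiff.contDiffAt.comp u hx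
  have h2 : ∀ i, ContDiffAt ℝ ∞ (fun v => ((LC ι).symm (x v) i).re) u := fun i =>
    Complex.reCLM.contDiff.contDiffAt.comp u ((contDiffAt_piLp 2).1 h1 i)
  unfold SmV kC
  simp only [map_sum, map_smul]
  exact ContDiffAt.sum fun i _ => (h2 i).smul ((hks i).smooth hσ hp)

/-- the density with the coefficients `x` -/
theorem kC_rot (ks : ι → Gs M → Eu n) (om : ι → ℝ) (x : EC ι) (s : ℝ) (c : Gs M) :
    kC ks ((TC om).r s (LC ι x)) c = ∑ i, (Complex.exp (Complex.I * ((om i * s : ℝ) : ℂ)) * x i).re • ks i c := by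
  unfold kC
  rw [TC_apply, LinearIsometryEquiv.symm_apply_apply]
  rfl

theorem X1_CX [Nonempty (Gs M)] {N : ℕ} {T : Rt (Eu N)} (hB : Bl M) {e : Emb n 𝒜} {k : Eu N → Gs M → Eu n} {R : Eu N → Gs M → Gs M}
    (hR : RotX 𝒜 k R) {χ : e.Q → ℝ} {ρ : Eu N → ℝ} {Ξ : ℝ → Eu N → e.Q → e.Q} (h : PFlowR T e R χ ρ Ξ) (c : Gs M) (x : Eu N) :
    X1 𝒜 (fun ξ c => CX e Ξ ξ c) c x = ∫ b in (0 : ℝ)..π, JXr 𝒜 R (T.r b x) c b := by
  have h1 : SmAt 𝒜 (fun ξ : Eu N => CX e Ξ ξ c) 0 := smooth_CR hB hR h (smGAt_const c (0 : Eu N)) contDiffAt_id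
  have h2 : ContDiffAt ℝ ∞ (fun ξ : Eu N => 𝒜.ψ (c.1 0) (CX e Ξ ξ c)) 0 := by
    have h3 := h1.2
    simp only [CR_zero hB hR h] at h3
    exact h3
  have h3 : HasFDerivAt (fun ξ : Eu N => 𝒜.ψ (c.1 0) (CX e Ξ ξ c)) (X1 𝒜 (fun ξ c => CX e Ξ ξ c) c)
      ((fun θ : ℝ => θ • x) 0) := by
    show HasFDerivAt _ _ ((0 : ℝ) • x)
    rw [zero_smul]
    exact (h2.differentiableAt (by simp)).hasFDerivAt
  have a1 : HasDerivAt (fun θ : ℝ => θ • x) x 0 := by
    have := (hasDerivAt_id (0 : ℝ)).smul_const x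
    rwa [one_smul] at this
  exact (HasFDerivAt.comp_hasDerivAt (l := fun ξ : Eu N => 𝒜.ψ (c.1 0) (CX e Ξ ξ c)) (f := fun θ : ℝ => θ • x) (0 : ℝ) h3 a1).unique
    (first_var hB hR h c x)

/-- the density along the orbit of `c` -/
def YC (ks : ι → Gs M → Eu n) (om : ι → ℝ) (x : EC ι) (c : Gs M) (s : ℝ) : Eu n :=
  ∑ i, (Complex.exp (Complex.I * ((om i * s : ℝ) : ℂ)) * x i).re • ks i (shift s c)

/-- **the second variation for trigonometric densities** -/
theorem H8_trig [Nonempty (Gs M)] (hB : Bl M) (e : Emb n 𝒜) {ks : ι → Gs M → Eu n} (hks : ∀ i, KSec 𝒜 (ks i)) {om : ι → ℝ}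
    (m : ι → ℤ) (hom : ∀ i, om i = m i / 2) (x : EC ι) (c : Gs M) :
    H8 𝒜 c (fun i => ∫ b in (0 : ℝ)..π, JG 𝒜 hB (shift (t8 i) c) b (YC ks om x c (t8 i + b))) ≤
      2 * π * ∫ s in (0 : ℝ)..(4 * π), ∫ b in (0 : ℝ)..π, ⟪YC ks om x c s, JG 𝒜 hB (shift s c) b (YC ks om x c (s + b))⟫ := by
  have hT : Per4 (TC om) := per_TC m hom
  have hR : RotX 𝒜 (kC ks) (rotk 𝒜 hB (kC ks)) := rotX_lin hB (kC_mem hks) (kC_smul ks) (kC_smooth hks)
  obtain ⟨χ, ρ, Ξ, h⟩ := exists_pflowR (T := TC om) e hB hR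
  obtain ⟨hC, hlam⟩ := pfamR_of_flow hB hR h
  have h1 := H8_le_BQ hB e hC hT c (LC ι x)
  have hk : ∀ s b : ℝ, kC ks ((TC om).r b ((TC om).r s (LC ι x))) (shift b (shift s c)) = YC ks om x c (s + b) := by
    intro s b
    rw [← Rt.add, ← shift_add, add_comm b s, kC_rot]
    rfl
  have e1 : (fun i => X1 𝒜 (fun ξ c => CX e Ξ ξ c) (shift (t8 i) c) ((TC om).r (t8 i) (LC ι x))) =
      fun i => ∫ b in (0 : ℝ)..π, JG 𝒜 hB (shift (t8 i) c) b (YC ks om x c (t8 i + b)) := by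
    funext i
    rw [X1_CX hB hR h]
    refine intervalIntegral.integral_congr fun b _ => ?_
    show JXr 𝒜 (rotk 𝒜 hB (kC ks)) ((TC om).r b ((TC om).r (t8 i) (LC ι x))) (shift (t8 i) c) b = _
    rw [JXr_rotk hB (kC_smul ks), hk]
  have e2 : BQ 𝒜 (TC om) (fun ξ c => CX e Ξ ξ c) c (LC ι x) (LC ι x) =
      -∫ s in (0 : ℝ)..(4 * π), ∫ b in (0 : ℝ)..π, ⟪YC ks om x c s, JG 𝒜 hB (shift s c) b (YC ks om x c (s + b))⟫ := by
    unfold BQ
    rw [← intervalIntegral.integral_neg]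
    refine intervalIntegral.integral_congr fun s _ => ?_
    show lam 𝒜 (TC om) (fun ξ c => CX e Ξ ξ c) (shift s c) ((TC om).r s (LC ι x)) ((TC om).r s (LC ι x)) = _
    rw [hlam, LamR_rotk hB (TC om) (kC_smul ks)]
    congr 1
    refine intervalIntegral.integral_congr fun b _ => ?_
    show ⟪kC ks ((TC om).r s (LC ι x)) (shift s c), JG 𝒜 hB (shift s c) b (kC ks ((TC om).r b ((TC om).r s (LC ι x)))
      (shift b (shift s c)))⟫ = _
    rw [hk, kC_rot]
    rfl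
  rw [e1, e2] at h1
  refine h1.trans (le_of_eq ?_)
  ring

end trig

end Pool.Agent.Lib.MP_ccbbf6_gt.K7.DP
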