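import Pool.Agent.Lib.MP_ccbbf6_gt.K7.DP3a
import Pool.Agent.Lib.MP_ccbbf6_gt.K7.DP6a
import Pool.Agent.Lib.MP_ccbbf6_gt.K7.GJ2

/-!
# `κ = 7`, density path, part 3b: the second variation for continuous densities (helper80; statement helper92)

`H8_dens`: both sides of `H8_trig` are continuous in the coefficient functions; the trigonometric polynomials are dense.
-/

set_option autoImplicit false
set_option linter.unusedSectionVars false

open Set Filter Topology Metric Real Module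
open scoped ContDiff RealInnerProductSpace

noncomputable section

namespace Pool.Agent.Lib.MP_ccbbf6_gt.K7.DP

open L4 Geo L4.ORI L5 L5.NEG RG HQ GG

/-! ### trigonometric polynomials -/

section trg

private theorem dp3_pos : (0 : ℝ) < 4 * π := by positivity

local instance dp3_fact : Fact ((0 : ℝ) < 4 * π) := ⟨dp3_pos⟩

/-- real trigonometric polynomials of period `4 π` -/
def Trg : Set C(AddCircle (4 * π), ℝ) :=
  {b | ∃ (F : Finset ℤ) (x : ℤ → ℂ), ∀ s : ℝ, b (s : AddCircle (4 * π)) =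
    ∑ k ∈ F, (Complex.exp (Complex.I * (((k : ℝ) / 2 * s : ℝ) : ℂ)) * x k).re}

theorem dense_Trg : Dense Trg := by
  intro a
  rw [Metric.mem_closure_iff]
  intro ε hε
  obtain ⟨ac, hac⟩ : ∃ ac : C(AddCircle (4 * π), ℂ), ∀ s, ac s = (a s : ℂ) :=
    ⟨(⟨fun r : ℝ => (r : ℂ), Complex.continuous_ofReal⟩ : C(ℝ, ℂ)).comp a, fun _ => rfl⟩
  have h1 : ac ∈ (Submodule.span ℂ (range (@fourier (4 * π)))).topologicalClosure := by
    rw [span_fourier_closure_eq_top]
    trivial
  obtain ⟨q, hq, hd⟩ := Metric.mem_closure_iff.1 h1 ε hε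
  obtain ⟨x, hx⟩ := Finsupp.mem_span_range_iff_exists_finsupp.1 hq
  refine ⟨(⟨Complex.re, Complex.continuous_re⟩ : C(ℂ, ℝ)).comp q, ⟨x.support, x, fun s => ?_⟩, ?_⟩
  · show (q (s : AddCircle (4 * π))).re = _
    rw [← hx, Finsupp.sum, ContinuousMap.coe_sum, Finset.sum_apply, Complex.re_sum]
    refine Finset.sum_congr rfl fun k _ => ?_
    rw [ContinuousMap.coe_smul, Pi.smul_apply, fourier_coe_apply, smul_eq_mul, mul_comm]
    congr 3
    have hπ : (π : ℂ) ≠ 0 := by exact_mod_cast Real.pi_ne_zero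
    push_cast
    field_simp
    ring
  · refine lt_of_le_of_lt ((ContinuousMap.dist_le dist_nonneg).2 fun s => ?_) hd
    refine le_trans ?_ (ContinuousMap.dist_apply_le_dist s)
    show dist (a s) (q s).re ≤ dist (ac s) (q s)
    rw [hac, Real.dist_eq, dist_eq_norm]
    have h2 : a s - (q s).re = ((a s : ℂ) - q s).re := by rw [Complex.sub_re, Complex.ofReal_re]
    rw [h2]
    exact Complex.abs_re_le_norm _

theorem exists_lift {f : ℝ → ℝ} (hf : Continuous f) (hp : ∀ s, f (s + 4 * π) = f s) :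
    ∃ b : C(AddCircle (4 * π), ℝ), ∀ s : ℝ, b (s : AddCircle (4 * π)) = f s := by
  have hp' : Function.Periodic f (4 * π) := hp
  have hc : Continuous hp'.lift := by
    have h1 : Continuous (hp'.lift ∘ ((↑) : ℝ → AddCircle (4 * π))) := hf
    exact (QuotientAddGroup.isQuotientMap_mk _).continuous_iff.2 h1
  exact ⟨⟨hp'.lift, hc⟩, fun s => rfl⟩

end trg

/-! ### densities -/

section dens

variable {n : ℕ} {M : Type} [MetricSpace M] [CompactSpace M] {𝒜 : SDist n M}

/-- the sections of `K` from the coordinate vectors -/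
def ksD (t : TEmb 𝒜) (j : Fin t.D) (c : Gs M) : Eu n := Hc 𝒜 c (tA t (c.1 0) (EuclideanSpace.single j (1 : ℝ)))

theorem kSec_ksD (t : TEmb 𝒜) (hB : Bl M) {κ : ℕ} (hk : 𝒜.HK κ) (j : Fin t.D) : KSec 𝒜 (ksD t j) :=
  ⟨fun hσ hp => smV_Hc hB hk hσ hp (smV_tA t hσ.1 hp contDiffAt_const), fun _ => Hc_mem _ _⟩

theorem sum_ksD (t : TEmb 𝒜) (y : HR t.D) (c : Gs M) : ∑ j, y j • ksD t j c = Hc 𝒜 c (tA t (c.1 0) y) := by
  unfold ksD
  have h1 : y = ∑ j, y j • (EuclideanSpace.single j (1 : ℝ) : HR t.D) := by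
    have := (EuclideanSpace.basisFun (Fin t.D) ℝ).sum_repr y
    simpa using this.symm
  conv_rhs => rw [h1, map_sum, map_sum]
  refine Finset.sum_congr rfl fun j _ => ?_
  rw [map_smul, map_smul]

/-- the coefficients -/
abbrev CoD (t : TEmb 𝒜) : Type := Fin t.D → C(AddCircle (4 * π), ℝ)

/-- the vector function -/
def va (t : TEmb 𝒜) (a : CoD t) (s : ℝ) : HR t.D := WithLp.toLp 2 fun j => a j (s : AddCircle (4 * π))

theorem cont_va (t : TEmb 𝒜) : Continuous fun z : CoD t × ℝ => va t z.1 z.2 := by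
  unfold va
  refine (PiLp.continuous_toLp 2 _).comp (continuous_pi fun j => ?_)
  have h1 : Continuous fun z : CoD t × ℝ => (z.1 j, (z.2 : AddCircle (4 * π))) :=
    ((continuous_apply j).comp continuous_fst).prodMk ((AddCircle.continuous_mk' _).comp continuous_snd)
  exact continuous_eval.comp h1

/-- the density -/
def Yd (t : TEmb 𝒜) (c : Gs M) (a : CoD t) (s : ℝ) : HR t.D := Pr t (shift s c) (va t a s)

variable [Nonempty (Gs M)] (t : TEmb 𝒜) (hB : Bl M) (e : Emb n 𝒜) {κ : ℕ} (hk : 𝒜.HK κ)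

include hB e hk in
theorem cont_Yd (c : Gs M) : Continuous fun z : CoD t × ℝ => Yd t c z.1 z.2 :=
  ((cont_Pr t hB e hk).comp ((gs_continuous_shift.comp (Continuous.prodMk_left c)).comp continuous_snd)).clm_apply (cont_va t)

/-- the kernel without the projection -/
def JAd (c : Gs M) (b : ℝ) : HR t.D →L[ℝ] Eu n := (JL 𝒜 hB c b).comp (tA t ((shift b c).1 0))

theorem cont_JAd (c : Gs M) : Continuous (JAd t hB c) := by
  rw [continuous_clm_apply]
  intro y
  rw [continuous_iff_continuousAt]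
  intro r
  have hc : SmGAt 𝒜 (fun _ : ℝ => c) r := ⟨smAt_const _ _, smAt_const _ _⟩
  have hs : SmGAt 𝒜 (fun r : ℝ => shift r c) r := hc.shift hB (r := fun r => r) contDiffAt_id
  have h1 := smV_JG hB hc (b := fun r => r) contDiffAt_id (𝒜.mem (c.1 0)) (𝒜.mem _)
    (smV_tA t hs.1 (𝒜.mem _) (contDiffAt_const (c := y)))
  have h2 : ContDiffAt ℝ ∞ (fun r : ℝ => JAd t hB c r y) r := by
    refine ContDiffAt.congr_of_eventuallyEq h1 (Eventually.of_forall fun r => ?_)
    exact (CC_self 𝒜 (c.1 0) _).symm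
  exact h2.continuousAt

include hB e hk in
theorem cont_XE (c : Gs M) : Continuous fun a : CoD t => XE t hB c (Yd t c a) := by
  refine continuous_pi fun i => ?_
  show Continuous fun a : CoD t => ∫ b in (0 : ℝ)..π, JAd t hB (shift (t8 i) c) b (Yd t c a (t8 i + b))
  refine intervalIntegral.continuous_parametric_intervalIntegral_of_continuous'
    (f := fun (a : CoD t) b => JAd t hB (shift (t8 i) c) b (Yd t c a (t8 i + b))) ?_ 0 π
  have h1 : Continuous fun z : CoD t × ℝ => (z.1, t8 i + z.2) := by fun_prop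
  exact ((cont_JAd t hB (shift (t8 i) c)).comp continuous_snd).clm_apply ((cont_Yd t hB e hk c).comp h1)

theorem cont_rya (c : Gs M) : Continuous fun a : CoD t =>
    ∫ s in (0 : ℝ)..(4 * π), ∫ b in (0 : ℝ)..π, (orb t hB e hk c).ry (Yd t c a) s b := by
  refine intervalIntegral.continuous_parametric_intervalIntegral_of_continuous'
    (f := fun (a : CoD t) s => ∫ b in (0 : ℝ)..π, (orb t hB e hk c).ry (Yd t c a) s b) ?_ 0 (4 * π)
  refine intervalIntegral.continuous_parametric_intervalIntegral_of_continuous'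
    (f := fun (z : CoD t × ℝ) b => (orb t hB e hk c).ry (Yd t c z.1) z.2 b) ?_ 0 π
  show Continuous fun w : (CoD t × ℝ) × ℝ =>
    -⟪Yd t c w.1.1 w.1.2, (orb t hB e hk c).J w.1.2 w.2 (Yd t c w.1.1 (w.1.2 + w.2))⟫
  have h1 : Continuous fun w : (CoD t × ℝ) × ℝ => (w.1.1, w.1.2 + w.2) := by fun_prop
  have h2 : Continuous fun w : (CoD t × ℝ) × ℝ => (w.1.2, w.2) := by fun_prop
  exact (((cont_Yd t hB e hk c).comp continuous_fst).inner
    (((orb t hB e hk c).contJ.comp h2).clm_apply ((cont_Yd t hB e hk c).comp h1))).neg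

/-- the trigonometric case -/
theorem H8_Trg (c : Gs M) {a : CoD t} (ha : ∀ j, a j ∈ Trg) : H8 𝒜 c (XE t hB c (Yd t c a)) ≤
    -(2 * π) * ∫ s in (0 : ℝ)..(4 * π), ∫ b in (0 : ℝ)..π, (orb t hB e hk c).ry (Yd t c a) s b := by
  choose F x hx using ha
  obtain ⟨xx, hxx⟩ : ∃ xx : EC (Σ j : Fin t.D, {k // k ∈ F j}), xx = WithLp.toLp 2 fun i => x i.1 i.2.1 := ⟨_, rfl⟩
  obtain ⟨Y, hY⟩ : ∃ Y : ℝ → Eu n, Y = YC (fun i : Σ j : Fin t.D, {k // k ∈ F j} => ksD t i.1)
    (fun i => ((i.2.1 : ℤ) : ℝ) / 2) xx c := ⟨_, rfl⟩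
  have h1 := H8_trig hB e (ks := fun i : Σ j : Fin t.D, {k // k ∈ F j} => ksD t i.1) (fun i => kSec_ksD t hB hk i.1)
    (om := fun i => ((i.2.1 : ℤ) : ℝ) / 2) (fun i => i.2.1) (fun i => rfl) xx c
  rw [← hY] at h1
  have hYs : ∀ s, Y s = Hc 𝒜 (shift s c) (tA t ((shift s c).1 0) (va t a s)) := by
    intro s
    rw [← sum_ksD, hY]
    unfold YC
    rw [Fintype.sum_sigma]
    refine Finset.sum_congr rfl fun j _ => ?_
    refine (Finset.sum_smul (s := Finset.univ) (f := fun k : {k // k ∈ F j} =>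
      (Complex.exp (Complex.I * ((((k.1 : ℤ) : ℝ) / 2 * s : ℝ) : ℂ)) * xx ⟨j, k⟩).re) (x := ksD t j (shift s c))).symm.trans ?_
    congr 1
    show _ = a j (s : AddCircle (4 * π))
    rw [hx, ← Finset.sum_coe_sort (F j)]
    refine Finset.sum_congr rfl fun k _ => ?_
    rw [hxx]
  have hYm : ∀ s, Y s ∈ NEG.Kc 𝒜 (shift s c) := fun s => by
    rw [hYs]
    exact Hc_mem _ _
  have hYd : ∀ s, Yd t c a s = tI t ((shift s c).1 0) (Y s) := fun s => by
    rw [hYs]
    rfl
  have e1 : XE t hB c (Yd t c a) = fun i => ∫ b in (0 : ℝ)..π, JG 𝒜 hB (shift (t8 i) c) b (Y (t8 i + b)) := by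
    funext i
    unfold XE
    refine intervalIntegral.integral_congr fun b _ => ?_
    show JG 𝒜 hB (shift (t8 i) c) b (tA t ((shift b (shift (t8 i) c)).1 0) (Yd t c a (t8 i + b))) = _
    rw [hYd, shift_comm', tA_tI]
  have e2 : ∀ s b, (orb t hB e hk c).ry (Yd t c a) s b = -⟪Y s, JG 𝒜 hB (shift s c) b (Y (s + b))⟫ := by
    intro s b
    show -⟪Yd t c a s, Jr t hB (shift s c) b (Yd t c a (s + b))⟫ = _
    rw [hYd, hYd, ← shift_comm' s b c, inner_Jr_tI t hB (shift s c) b (hYm s)]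
    rw [shift_comm' s b c]
    exact hYm _
  rw [e1]
  refine h1.trans (le_of_eq ?_)
  simp only [e2, intervalIntegral.integral_neg]
  ring

/-- **the second variation for continuous densities** -/
theorem H8_dens (c : Gs M) {Y : ℝ → HR t.D} (hc : Continuous Y) (hm : ∀ s, (orb t hB e hk c).P s (Y s) = Y s)
    (hp : ∀ s, Y (s + 4 * π) = Y s) : H8 𝒜 c (XE t hB c Y) ≤
      -(2 * π) * ∫ s in (0 : ℝ)..(4 * π), ∫ b in (0 : ℝ)..π, (orb t hB e hk c).ry Y s b := by
  have hcl : IsClosed {a : CoD t | H8 𝒜 c (XE t hB c (Yd t c a)) ≤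
      -(2 * π) * ∫ s in (0 : ℝ)..(4 * π), ∫ b in (0 : ℝ)..π, (orb t hB e hk c).ry (Yd t c a) s b} := by
    refine isClosed_le ?_ (continuous_const.mul (cont_rya t hB e hk c))
    have h1 : Continuous fun a : CoD t => XE t hB c (Yd t c a) := cont_XE t hB e hk c
    exact ((B8 𝒜 c).continuous.comp h1).clm_apply h1
  have hd : Dense (Set.univ.pi fun _ : Fin t.D => Trg) := dense_pi _ fun _ _ => dense_Trg
  have hall : ∀ a : CoD t, H8 𝒜 c (XE t hB c (Yd t c a)) ≤
      -(2 * π) * ∫ s in (0 : ℝ)..(4 * π), ∫ b in (0 : ℝ)..π, (orb t hB e hk c).ry (Yd t c a) s b := by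
    intro a
    have h2 : closure (Set.univ.pi fun _ : Fin t.D => Trg) ⊆ {a : CoD t | H8 𝒜 c (XE t hB c (Yd t c a)) ≤
      -(2 * π) * ∫ s in (0 : ℝ)..(4 * π), ∫ b in (0 : ℝ)..π, (orb t hB e hk c).ry (Yd t c a) s b} :=
      closure_minimal (fun b hb => H8_Trg t hB e hk c fun j => hb j (mem_univ _)) hcl
    exact h2 (hd a)
  choose a ha using fun j : Fin t.D => exists_lift (f := fun s => Y s j)
    ((continuous_apply j).comp ((PiLp.continuous_ofLp 2 _).comp hc)) (fun s => by rw [hp])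
  have hYa : Yd t c a = Y := by
    funext s
    have h3 : va t a s = Y s := by
      ext j
      exact ha j s
    unfold Yd
    rw [h3]
    exact hm s
  have h4 := hall a
  rw [hYa] at h4
  exact h4

end dens

end Pool.Agent.Lib.MP_ccbbf6_gt.K7.DP
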