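import Pool.Agent.Lib.MP_ccbbf6_gt.K7.HQ1
import Pool.Agent.Lib.MP_ccbbf6_gt.K7.RG7

/-!
# `κ = 7`, block F, density path, DP4: rotations of the arcs of the doubled geodesic (helper91)

* `taylor_C` : Taylor's upper bound with parameters.
* `corner` : cutting the corner between two geodesics through `c 0`.
* `JA`, `av` : the velocities of the rotations of the four arcs; `H8_av_le`, `H8_av_lt`.
* `B8_crit`, `B8_const` : variations through geodesics are in the kernel of `B8`.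
-/

set_option autoImplicit false
set_option linter.unusedSectionVars false

open Set Filter Topology Metric Real Module
open scoped ContDiff RealInnerProductSpace

noncomputable section

namespace Pool.Agent.Lib.MP_ccbbf6_gt.K7.DP

open Geo L4 L4.ORI L5 L5.NEG HQ

/-- **Taylor's upper bound with parameters** -/
theorem taylor_C {E : Type*} [NormedAddCommGroup E] [NormedSpace ℝ E] {h : E × ℝ → ℝ} {e0 : E}
    (hh : ContDiffAt ℝ ∞ h (e0, 0)) :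
    ∃ C s0 : ℝ, 0 < s0 ∧ ∀ᶠ e in 𝓝 e0, ∀ s, |s| ≤ s0 →
      h (e, s) ≤ h (e, 0) + deriv (fun s => h (e, s)) 0 * s + C * s ^ 2 := by
  obtain ⟨K2, hK⟩ : ∃ K, K = fderiv ℝ (fderiv ℝ h) (e0, 0) (0, 1) (0, 1) := ⟨_, rfl⟩
  obtain ⟨l, hl⟩ : ∃ l : E → ℝ, l = fun e => fderiv ℝ h (e, 0) (0, 1) := ⟨_, rfl⟩
  have hcu : ContDiffAt ℝ ∞ (fun e : E => (e, (0 : ℝ))) e0 := contDiffAt_id.prodMk contDiffAt_const
  have hls : ContDiffAt ℝ ∞ l e0 := by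
    rw [hl]
    exact (ContDiffAt.comp (g := fderiv ℝ h) (f := fun e : E => (e, (0 : ℝ))) e0 (hh.fderiv_right (by simp)) hcu).clm_apply
      contDiffAt_const
  obtain ⟨k, hk⟩ : ∃ k : E × ℝ → ℝ, k = fun z => h z - l z.1 * z.2 - (K2 / 2 + 1) * z.2 ^ 2 := ⟨_, rfl⟩
  have hks : ContDiffAt ℝ ∞ k (e0, 0) := by
    rw [hk]
    have e1 : ContDiffAt ℝ ∞ (fun z : E × ℝ => l z.1) (e0, 0) :=
      ContDiffAt.comp (g := l) (f := Prod.fst) (e0, (0 : ℝ)) hls contDiffAt_fst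
    exact (hh.sub (e1.mul contDiffAt_snd)).sub (contDiffAt_const.mul (contDiffAt_snd.pow 2))
  have hh2 : ContDiffAt ℝ 2 h (e0, 0) := hh.of_le (by norm_cast)
  have hk2 : ContDiffAt ℝ 2 k (e0, 0) := hks.of_le (by norm_cast)
  have hdk : ∀ {e : E} {s : ℝ}, DifferentiableAt ℝ (fun s => h (e, s)) s →
      HasDerivAt (fun s => k (e, s)) (deriv (fun s => h (e, s)) s - l e - (K2 / 2 + 1) * (2 * s)) s := by
    intro e s hd
    rw [hk]
    have e1 := (hd.hasDerivAt.sub ((hasDerivAt_id s).const_mul (l e))).sub ((hasDerivAt_pow 2 s).const_mul (K2 / 2 + 1))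
    refine e1.congr_deriv ?_
    norm_num
  have hneg : fderiv ℝ (fderiv ℝ k) (e0, 0) (0, 1) (0, 1) < 0 := by
    have h1 := (deriv2_snd hk2).2
    have h2 := (deriv2_snd hh2).2
    rw [← hK] at h2
    have h3 : (deriv fun s => k (e0, s)) =ᶠ[𝓝 0] fun s => deriv (fun s => h (e0, s)) s - l e0 - (K2 / 2 + 1) * (2 * s) := by
      have e1 : ∀ᶠ z in 𝓝 (e0, (0 : ℝ)), DifferentiableAt ℝ h z :=
        (hh2.eventually (by simp)).mono fun z hz => hz.differentiableAt (by simp)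
      have e2 : ContinuousAt (fun s : ℝ => (e0, s)) 0 := by fun_prop
      filter_upwards [e2.eventually e1] with s hs
      exact (hdk (hs.comp (f := fun s : ℝ => (e0, s)) s ((differentiableAt_const e0).prodMk differentiableAt_id))).deriv
    have h4 : HasDerivAt (fun s => deriv (fun s => h (e0, s)) s - l e0 - (K2 / 2 + 1) * (2 * s)) (K2 - (K2 / 2 + 1) * (2 * 1)) 0 :=
      (h2.sub_const (l e0)).sub (((hasDerivAt_id (0 : ℝ)).const_mul 2).const_mul (K2 / 2 + 1))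
    rw [h1.unique (h4.congr_of_eventuallyEq h3)]
    linarith
  obtain ⟨ε, s0, hε, hs0, h5⟩ := taylor_le hk2 hneg
  refine ⟨K2 / 2 + 1, s0, hs0, ?_⟩
  have h6 : ∀ᶠ e in 𝓝 e0, ContDiffAt ℝ 2 h (e, 0) := hcu.continuousAt.eventually (hh2.eventually (by simp))
  filter_upwards [h5, h6] with e h7 h8 s hs
  have h9 : DifferentiableAt ℝ (fun s => h (e, s)) 0 :=
    (h8.differentiableAt (by simp)).comp (f := fun s : ℝ => (e, s)) 0 ((differentiableAt_const e).prodMk differentiableAt_id)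
  have h10 : deriv (fun s => h (e, s)) 0 = l e := by
    rw [(deriv2_snd h8).1, hl]
  have h11 := h7 (by rw [(hdk h9).deriv, h10]; ring) s hs
  rw [hk] at h11
  simp only at h11
  rw [h10]
  have h12 : 0 ≤ ε * s ^ 2 := by positivity
  nlinarith

variable {n : ℕ} {M : Type} [MetricSpace M] [CompactSpace M] {𝒜 : SDist n M}

/-- constant base point -/
theorem smV_base {E : Type*} [NormedAddCommGroup E] [NormedSpace ℝ E] (p q : M) {w : E → Eu n} {u : E}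
    (hw : ContDiffAt ℝ ∞ w u) : SmV 𝒜 p (fun _ => q) w u :=
  ContDiffAt.comp (g := fun x => CC 𝒜 p q x) (f := w) u (CC 𝒜 p q).contDiff.contDiffAt hw

/-- first variation of the square of the distance -/
theorem hasDerivAt_dsq (hB : Bl M) (p : M) {v : Eu n} (hv : ‖v‖ < π) (D : Eu n) :
    HasDerivAt (fun ρ : ℝ => dist (𝒜.Ex p (ρ • D)) (𝒜.Ex p v) ^ 2) (-(2 * ⟪v, D⟫)) 0 := by
  have hF : DifferentiableAt ℝ (fun u => 𝒜.F p (𝒜.Ex p v) (u, 0)) (0 : Eu n) := by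
    have h1 := contDiffAt_F 𝒜 hB (p := p) (q := 𝒜.Ex p v) (by rw [dist_Ex 𝒜 hB p hv.le]; exact hv)
    exact (h1.differentiableAt (by simp)).comp (f := fun u : Eu n => (u, (0 : Eu n))) (0 : Eu n)
      (differentiableAt_id.prodMk (differentiableAt_const _))
  have h2 : HasDerivAt (fun ρ : ℝ => 𝒜.ψ p (𝒜.Ex p (ρ • D))) D 0 := by
    have h1 := hasFDerivAt_DE 𝒜 hB p ((0 : ℝ) • D)
    have h2 : HasDerivAt (fun s : ℝ => s • D) D 0 := by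
      have := (hasDerivAt_id (0 : ℝ)).smul_const D
      rwa [one_smul] at this
    have h3 := h1.comp_hasDerivAt 0 h2
    have h4 : 𝒜.DE p ((0 : ℝ) • D) D = D := by rw [zero_smul, DE_zero hB]
    rw [h4] at h3
    refine h3.congr_of_eventuallyEq (Eventually.of_forall fun ρ => ?_)
    show 𝒜.ψ p (𝒜.Ex p (ρ • D)) = 𝒜.ψ (𝒜.Ex p ((0 : ℝ) • D)) (𝒜.Ex p (ρ • D))
    rw [zero_smul, Ex_zero 𝒜 hB]
  have e0 : 𝒜.ψ p (𝒜.Ex p ((0 : ℝ) • D)) = 0 := by rw [zero_smul, Ex_zero 𝒜 hB, 𝒜.zero]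
  have h3 : HasDerivAt (fun ρ : ℝ => 2 * 𝒜.F p (𝒜.Ex p v) (𝒜.ψ p (𝒜.Ex p (ρ • D)), 0)) (2 * -⟪v, D⟫) 0 := by
    have h4 : HasFDerivAt (fun u => 𝒜.F p (𝒜.Ex p v) (u, 0)) (fderiv ℝ (fun u => 𝒜.F p (𝒜.Ex p v) (u, 0)) 0)
        (𝒜.ψ p (𝒜.Ex p ((0 : ℝ) • D))) := by
      rw [e0]
      exact hF.hasFDerivAt
    have h5 := (h4.comp_hasDerivAt 0 h2).const_mul 2
    rw [fderiv_F_Ex 𝒜 hB p hv D] at h5
    exact h5
  have h6 : (fun ρ : ℝ => dist (𝒜.Ex p (ρ • D)) (𝒜.Ex p v) ^ 2) =ᶠ[𝓝 0]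
      fun ρ : ℝ => 2 * 𝒜.F p (𝒜.Ex p v) (𝒜.ψ p (𝒜.Ex p (ρ • D)), 0) := by
    have h7 : ContinuousAt (fun ρ : ℝ => 𝒜.Ex p (ρ • D)) 0 := by
      have h8 := smAt_Ex2 hB (𝒜 := 𝒜) (E := ℝ) (x := fun _ => p) (w := fun ρ : ℝ => ρ • D) (u := 0) (p := p)
        (smAt_const p 0) (𝒜.mem p) (smV_base p p (contDiffAt_id.smul contDiffAt_const))
      exact h8.1
    have h9 : (fun ρ : ℝ => 𝒜.Ex p (ρ • D)) 0 ∈ (𝒜.ψ p).source := by
      show 𝒜.Ex p ((0 : ℝ) • D) ∈ (𝒜.ψ p).source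
      rw [zero_smul, Ex_zero 𝒜 hB]
      exact 𝒜.mem p
    filter_upwards [h7.eventually ((𝒜.ψ p).open_source.mem_nhds h9)] with ρ hρ
    unfold SDist.F SDist.f
    simp only
    rw [(𝒜.ψ p).left_inv hρ, exc_symm_zero]
    ring
  refine (h3.congr_of_eventuallyEq h6).congr_deriv ?_
  ring

theorem add_ne (c : Gs M) {a : Eu n} (ha : ⟪𝒜.vel c.1 0, a⟫ = 0) (s : ℝ) : 𝒜.vel c.1 0 + s • a ≠ 0 := by
  intro h
  have h1 : ⟪𝒜.vel c.1 0, 𝒜.vel c.1 0 + s • a⟫ = 0 := by rw [h, inner_zero_right]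
  rw [inner_add_right, real_inner_smul_right, ha, mul_zero, add_zero, real_inner_self_eq_norm_sq, vel_norm] at h1
  norm_num at h1

theorem norm_rad {w : Eu n} (hw : w ≠ 0) (t : ℝ) : ‖rad t w‖ = |t| := by
  unfold rad
  rw [norm_smul, norm_div, norm_norm, div_mul_cancel₀ _ (norm_ne_zero_iff.2 hw), Real.norm_eq_abs]

/-- smoothness of the rotations -/
theorem smGA_rot (hB : Bl M) (c : Gs M) {E : Type*} [NormedAddCommGroup E] [NormedSpace ℝ E] {w : E → Eu n} {u : E}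
    (hw : ContDiffAt ℝ ∞ w u) (h0 : w u ≠ 0) : SmGA 𝒜 (fun v => gw 𝒜 hB c (w v)) u :=
  smGA_gw hB (c := fun _ => c) (p := c.1 0) (smAt_const _ _) (𝒜.mem _) (smV_base _ _ hw) h0

/-- **cutting the corner** -/
theorem corner (hB : Bl M) (c : Gs M) {a b : Eu n} (ha : ⟪𝒜.vel c.1 0, a⟫ = 0) (hb : ⟪𝒜.vel c.1 0, b⟫ = 0) (hab : a ≠ b) :
    ∃ m : ℝ, 0 < m ∧ ∀ᶠ s in 𝓝[>] (0 : ℝ), dist ((gw 𝒜 hB c (𝒜.vel c.1 0 + s • a)).1 (-(π / 4)))
      ((gw 𝒜 hB c (𝒜.vel c.1 0 + s • b)).1 (π / 4)) ^ 2 ≤ (π / 2) ^ 2 - m * s ^ 2 := by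
  have hπ := Real.pi_pos
  have hna := add_ne (𝒜 := 𝒜) c ha
  have hnb := add_ne (𝒜 := 𝒜) c hb
  obtain ⟨v, hv⟩ : ∃ v, v = 𝒜.vel c.1 0 := ⟨_, rfl⟩
  obtain ⟨D, hD⟩ : ∃ D, D = b - a := ⟨_, rfl⟩
  have hD0 : 0 < ‖D‖ ^ 2 := by
    have : D ≠ 0 := by rw [hD]; exact sub_ne_zero.2 hab.symm
    positivity
  have hvD : ⟪v, D⟫ = 0 := by rw [hD, inner_sub_right, hv, ha, hb, sub_zero]
  obtain ⟨x, hx⟩ : ∃ x : ℝ → M, x = fun s => (gw 𝒜 hB c (𝒜.vel c.1 0 + s • a)).1 (-(π / 4)) := ⟨_, rfl⟩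
  obtain ⟨y, hy⟩ : ∃ y : ℝ → M, y = fun s => (gw 𝒜 hB c (𝒜.vel c.1 0 + s • b)).1 (π / 4) := ⟨_, rfl⟩
  obtain ⟨k, hk⟩ : ∃ k : ℝ × ℝ → ℝ, k = fun z => 2 * (dist (𝒜.Ex (c.1 0) (z.2 • D)) (x z.1) ^ 2 +
      dist (𝒜.Ex (c.1 0) (z.2 • D)) (y z.1) ^ 2) := ⟨_, rfl⟩
  have hxE : ∀ s, x s = 𝒜.Ex (c.1 0) (rad (-(π / 4)) (v + s • a)) := fun s => by
    rw [hx]
    show (gw 𝒜 hB c (𝒜.vel c.1 0 + s • a)).1 (-(π / 4)) = _
    rw [gw_eq 𝒜 hB c (hna s), hv]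
  have hyE : ∀ s, y s = 𝒜.Ex (c.1 0) (rad (π / 4) (v + s • b)) := fun s => by
    rw [hy]
    show (gw 𝒜 hB c (𝒜.vel c.1 0 + s • b)).1 (π / 4) = _
    rw [gw_eq 𝒜 hB c (hnb s), hv]
  have hna' : ∀ s : ℝ, v + s • a ≠ 0 := fun s => by rw [hv]; exact hna s
  have hnb' : ∀ s : ℝ, v + s • b ≠ 0 := fun s => by rw [hv]; exact hnb s
  have hrx : ∀ s : ℝ, ‖rad (-(π / 4)) (v + s • a)‖ = π / 4 := fun s => by
    rw [norm_rad (hna' s), abs_neg, abs_of_pos (by positivity)]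
  have hry : ∀ s : ℝ, ‖rad (π / 4) (v + s • b)‖ = π / 4 := fun s => by
    rw [norm_rad (hnb' s), abs_of_pos (by positivity)]
  have hdx : ∀ s, dist (c.1 0) (x s) = π / 4 := fun s => by
    rw [hxE, dist_Ex 𝒜 hB _ (by rw [hrx]; linarith), hrx]
  have hdy : ∀ s, dist (c.1 0) (y s) = π / 4 := fun s => by
    rw [hyE, dist_Ex 𝒜 hB _ (by rw [hry]; linarith), hry]
  have hE0 : 𝒜.Ex (c.1 0) ((0 : ℝ) • D) = c.1 0 := by rw [zero_smul, Ex_zero 𝒜 hB]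
  have hk0 : ∀ s, k (s, 0) = (π / 2) ^ 2 := fun s => by
    rw [hk]
    simp only
    rw [hE0, hdx, hdy]
    ring
  -- smoothness
  have sx : SmAt 𝒜 x 0 := by
    rw [hx]
    refine SmGA.at hB (smGA_rot hB c (w := fun s : ℝ => 𝒜.vel c.1 0 + s • a) ?_ (hna 0)) _
    exact contDiffAt_const.add (contDiffAt_id.smul contDiffAt_const)
  have sy : SmAt 𝒜 y 0 := by
    rw [hy]
    refine SmGA.at hB (smGA_rot hB c (w := fun s : ℝ => 𝒜.vel c.1 0 + s • b) ?_ (hnb 0)) _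
    exact contDiffAt_const.add (contDiffAt_id.smul contDiffAt_const)
  have sz : SmAt 𝒜 (fun z : ℝ × ℝ => 𝒜.Ex (c.1 0) (z.2 • D)) (0, 0) :=
    smAt_Ex2 hB (p := c.1 0) (smAt_const _ _) (𝒜.mem _) (smV_base _ _ (contDiffAt_snd.smul contDiffAt_const))
  have sk : ContDiffAt ℝ ∞ k (0, 0) := by
    rw [hk]
    refine contDiffAt_const.mul (ContDiffAt.add ?_ ?_)
    · refine contDiffAt_dsq (x := fun z : ℝ × ℝ => 𝒜.Ex (c.1 0) (z.2 • D)) (y := fun z : ℝ × ℝ => x z.1) hB sz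
        (SmAt.comp (g := x) (f := Prod.fst) (v := ((0 : ℝ), (0 : ℝ))) sx contDiffAt_fst) ?_
      show dist (𝒜.Ex (c.1 0) ((0 : ℝ) • D)) (x 0) < π
      rw [hE0, hdx]
      linarith
    · refine contDiffAt_dsq (x := fun z : ℝ × ℝ => 𝒜.Ex (c.1 0) (z.2 • D)) (y := fun z : ℝ × ℝ => y z.1) hB sz
        (SmAt.comp (g := y) (f := Prod.fst) (v := ((0 : ℝ), (0 : ℝ))) sy contDiffAt_fst) ?_
      show dist (𝒜.Ex (c.1 0) ((0 : ℝ) • D)) (y 0) < π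
      rw [hE0, hdy]
      linarith
  -- the first derivative
  obtain ⟨g, hg⟩ : ∃ g : ℝ → ℝ, g = fun s => ⟪b, D⟫ / ‖v + s • b‖ - ⟪a, D⟫ / ‖v + s • a‖ := ⟨_, rfl⟩
  have hkd : ∀ s, deriv (fun ρ => k (s, ρ)) 0 = -(π * s * g s) := fun s => by
    have e1 := hasDerivAt_dsq (𝒜 := 𝒜) hB (c.1 0) (v := rad (-(π / 4)) (v + s • a)) (by rw [hrx]; linarith) D
    have e2 := hasDerivAt_dsq (𝒜 := 𝒜) hB (c.1 0) (v := rad (π / 4) (v + s • b)) (by rw [hry]; linarith) D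
    have e3 := (e1.add e2).const_mul 2
    have e4 : (fun ρ => k (s, ρ)) = fun ρ => 2 * (dist (𝒜.Ex (c.1 0) (ρ • D)) (𝒜.Ex (c.1 0) (rad (-(π / 4)) (v + s • a))) ^ 2 +
        dist (𝒜.Ex (c.1 0) (ρ • D)) (𝒜.Ex (c.1 0) (rad (π / 4) (v + s • b))) ^ 2) := by
      funext ρ
      rw [hk]
      simp only
      rw [hxE, hyE]
    rw [e4]
    refine (HasDerivAt.deriv e3).trans ?_
    have f1 : ⟪rad (-(π / 4)) (v + s • a), D⟫ = -(π / 4) * (s * ⟪a, D⟫) / ‖v + s • a‖ := by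
      unfold rad
      rw [real_inner_smul_left, inner_add_left, real_inner_smul_left, hvD, zero_add]
      ring
    have f2 : ⟪rad (π / 4) (v + s • b), D⟫ = (π / 4) * (s * ⟪b, D⟫) / ‖v + s • b‖ := by
      unfold rad
      rw [real_inner_smul_left, inner_add_left, real_inner_smul_left, hvD, zero_add]
      ring
    rw [f1, f2, hg]
    ring
  have hg0 : g 0 = ‖D‖ ^ 2 := by
    rw [hg]
    simp only
    rw [zero_smul, zero_smul, add_zero, hv, vel_norm, div_one, div_one, ← inner_sub_left, ← hD, real_inner_self_eq_norm_sq]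
  have hgc : ContinuousAt g 0 := by
    rw [hg]
    refine ContinuousAt.sub (ContinuousAt.div continuousAt_const (by fun_prop) ?_)
      (ContinuousAt.div continuousAt_const (by fun_prop) ?_)
    · exact norm_ne_zero_iff.2 (hnb' 0)
    · exact norm_ne_zero_iff.2 (hna' 0)
  have hg1 : ∀ᶠ s in 𝓝 (0 : ℝ), ‖D‖ ^ 2 / 2 < g s := hgc.eventually (lt_mem_nhds (by rw [hg0]; linarith))
  obtain ⟨C, s0, hs0, hT⟩ := taylor_C sk
  obtain ⟨l, hl⟩ : ∃ l : ℝ, l = π * ‖D‖ ^ 2 / (4 * (|C| + 1)) := ⟨_, rfl⟩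
  have hC1 : 0 < |C| + 1 := by positivity
  have hl0 : 0 < l := by rw [hl]; positivity
  have hl1 : (|C| + 1) * l = π * ‖D‖ ^ 2 / 4 := by rw [hl]; field_simp
  refine ⟨π * ‖D‖ ^ 2 / 4 * l, by positivity, ?_⟩
  have hs : ∀ᶠ s in 𝓝[>] (0 : ℝ), s ∈ Ioo (0 : ℝ) (s0 / l) := Ioo_mem_nhdsGT (by positivity)
  filter_upwards [hs, nhdsWithin_le_nhds hg1, nhdsWithin_le_nhds hT] with s h1 h2 h3
  have h4 : |l * s| ≤ s0 := by
    rw [abs_of_pos (mul_pos hl0 h1.1)]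
    have := (lt_div_iff₀ hl0).1 h1.2
    linarith
  have h5 := h3 (l * s) h4
  rw [hk0, hkd] at h5
  have h6 : dist (x s) (y s) ^ 2 ≤ k (s, l * s) := by
    rw [hk]
    simp only
    obtain ⟨z, hz⟩ : ∃ z, z = 𝒜.Ex (c.1 0) ((l * s) • D) := ⟨_, rfl⟩
    rw [← hz]
    have h7 : dist (x s) (y s) ≤ dist z (x s) + dist z (y s) := dist_triangle_left _ _ _
    have h8 : 0 ≤ dist (x s) (y s) := dist_nonneg
    nlinarith [sq_nonneg (dist z (x s) - dist z (y s))]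
  have h7 : x s = (gw 𝒜 hB c (𝒜.vel c.1 0 + s • a)).1 (-(π / 4)) := by rw [hx]
  have h8 : y s = (gw 𝒜 hB c (𝒜.vel c.1 0 + s • b)).1 (π / 4) := by rw [hy]
  rw [← h7, ← h8]
  refine h6.trans (h5.trans ?_)
  have h9 : C * (l * s) ^ 2 ≤ π * ‖D‖ ^ 2 / 4 * l * s ^ 2 := by
    have e1 : C * (l * s) ^ 2 ≤ (|C| + 1) * (l * s) ^ 2 :=
      mul_le_mul_of_nonneg_right ((le_abs_self C).trans (by linarith)) (sq_nonneg _)
    refine e1.trans (le_of_eq ?_)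
    rw [← hl1]
    ring
  have h10 : π * s * (‖D‖ ^ 2 / 2) * (l * s) ≤ π * s * g s * (l * s) := by
    have h11 : 0 < l * s := mul_pos hl0 h1.1
    have h12 : 0 < π * s := mul_pos hπ h1.1
    exact mul_le_mul_of_nonneg_right (mul_le_mul_of_nonneg_left h2.le h12.le) h11.le
  nlinarith

/-! ### rotations of the arcs -/

/-- the velocity at time `t` of the rotation of `c` about `c 0` with velocity `w` -/
def JA (𝒜 : SDist n M) (hB : Bl M) (c : Gs M) (t : ℝ) (w : Eu n) : Eu n :=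
  𝒜.vel (fun s : ℝ => (gw 𝒜 hB c (𝒜.vel c.1 0 + s • w)).1 t) 0

theorem gw_vel_self (hB : Bl M) (c : Gs M) : gw 𝒜 hB c (𝒜.vel c.1 0) = c :=
  eq_of_vel' 𝒜 (gw_zero 𝒜 hB c _) (by rw [gw_vel 𝒜 hB c (vel_ne 𝒜 c), nrm_of_norm (vel_norm 𝒜 c)])

theorem shift_shift_neg (c : Gs M) (t : ℝ) : shift (-t) (shift t c) = c := by
  refine Subtype.ext (funext fun s => ?_)
  show c.1 (s + -t + t) = c.1 s
  rw [neg_add_cancel_right]

theorem JG_eq_JA (hB : Bl M) (c : Gs M) (t : ℝ) (w : Eu n) : RG.JG 𝒜 hB (shift t c) (-t) w = JA 𝒜 hB c t w := by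
  unfold RG.JG JA SDist.vel
  rw [shift_shift_neg, neg_neg]
  have h1 : (shift t c).1 0 = (gw 𝒜 hB c (𝒜.vel c.1 0 + (0 : ℝ) • w)).1 t := by
    rw [zero_smul, add_zero, gw_vel_self]
    show c.1 (0 + t) = c.1 t
    rw [zero_add]
  rw [h1]
  rfl

/-- the arc of a vertex -/
def arc (i : ZMod 8) : Fin 4 := ⟨i.val / 2, by have := ZMod.val_lt i; omega⟩

/-- the velocities of the rotations of the arcs -/
def av (𝒜 : SDist n M) (hB : Bl M) (c : Gs M) (r : Fin 4 → Eu n) (i : ZMod 8) : Eu n := JA 𝒜 hB c (t8 i) (r (arc i))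

/-- the rotated arcs -/
def ra (𝒜 : SDist n M) (hB : Bl M) (c : Gs M) (r : Fin 4 → Eu n) (s : ℝ) (i : ZMod 8) : M :=
  (gw 𝒜 hB c (𝒜.vel c.1 0 + s • r (arc i))).1 (t8 i)

theorem vel8_ra (hB : Bl M) (c : Gs M) (r : Fin 4 → Eu n) : vel8 𝒜 (ra 𝒜 hB c r) = av 𝒜 hB c r := rfl

theorem ra_zero (hB : Bl M) (c : Gs M) (r : Fin 4 → Eu n) : ra 𝒜 hB c r 0 = b8 c := by
  funext i
  show (gw 𝒜 hB c (𝒜.vel c.1 0 + (0 : ℝ) • r (arc i))).1 (t8 i) = c.1 (t8 i)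
  rw [zero_smul, add_zero, gw_vel_self]

theorem smAt_ra (hB : Bl M) (c : Gs M) (r : Fin 4 → Eu n) (i : ZMod 8) : SmAt 𝒜 (fun s => ra 𝒜 hB c r s i) 0 := by
  refine SmGA.at hB (smGA_rot hB c (w := fun s : ℝ => 𝒜.vel c.1 0 + s • r (arc i)) ?_ ?_) _
  · exact contDiffAt_const.add (contDiffAt_id.smul contDiffAt_const)
  · show 𝒜.vel c.1 0 + (0 : ℝ) • r (arc i) ≠ 0
    rw [zero_smul, add_zero]
    exact vel_ne 𝒜 c

theorem Kc_perp {c : Gs M} {r : Eu n} (h : r ∈ NEG.Kc 𝒜 c) : ⟪𝒜.vel c.1 0, r⟫ = 0 := (mem_Kc_iff.1 h).2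

theorem rot_top (hB : Bl M) {c : Gs M} {r : Eu n} (h : r ∈ NEG.Kc 𝒜 c) (s : ℝ) :
    (gw 𝒜 hB c (𝒜.vel c.1 0 + s • r)).1 π = c.1 π := by
  exact top_of_mem 𝒜 hB c (add_ne c (Kc_perp h) s) (nc2_add_mem hB (Submodule.smul_mem _ s h))

/-- the rotation about the other end -/
theorem shift_rot (hB : Bl M) {c : Gs M} {r : Eu n} (h : r ∈ NEG.Kc 𝒜 c) (s : ℝ) :
    shift π (gw 𝒜 hB c (𝒜.vel c.1 0 + s • r)) =
      gw 𝒜 hB (shift π c) (𝒜.vel (shift π c).1 0 + s • thK 𝒜 hB c r) := by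
  have hs : s • r ∈ NEG.Kc 𝒜 c := Submodule.smul_mem _ s h
  have e1 : (shift π c).1 0 = c.1 π := by
    show c.1 (0 + π) = c.1 π
    rw [zero_add]
  have e2 : 𝒜.vel (shift π c).1 0 = 𝒜.vel c.1 π := by rw [nc2_vel_shift, zero_add]
  have hp : ⟪𝒜.vel (shift π c).1 0, thK 𝒜 hB c r⟫ = 0 := Kc_perp (thK_mem hB h)
  have hne := add_ne (shift π c) hp s
  refine eq_of_vel' 𝒜 ?_ ?_
  · rw [gw_zero]
    show (gw 𝒜 hB c (𝒜.vel c.1 0 + s • r)).1 (0 + π) = c.1 (0 + π)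
    rw [zero_add, rot_top hB h]
  · rw [gw_vel 𝒜 hB _ hne, nc2_vel_shift, zero_add, ← thK_smul hB s h, e2]
    have h1 : √(1 + ‖s • r‖ ^ 2) • 𝒜.vel (gw 𝒜 hB c (𝒜.vel c.1 0 + s • r)).1 π = 𝒜.vel c.1 π + thK 𝒜 hB c (s • r) := by
      unfold thK
      abel
    have h2 : 0 < √(1 + ‖s • r‖ ^ 2) := Real.sqrt_pos.2 (by positivity)
    rw [← h1]
    unfold nrm
    have h3 : ‖𝒜.vel (gw 𝒜 hB c (𝒜.vel c.1 0 + s • r)).1 π‖ = 1 := (IsGeo.exists_vel 𝒜 (gw 𝒜 hB c (𝒜.vel c.1 0 + s • r)).2 π).1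
    rw [norm_smul, h3, mul_one, Real.norm_of_nonneg h2.le, smul_smul, inv_mul_cancel₀ h2.ne', one_smul]

/-- two geodesics with a common point -/
theorem dist_common {g h : Gs M} {T : ℝ} (e : g.1 T = h.1 T) {a b : ℝ} (ha : 0 ≤ a) (hb : 0 ≤ b) (ha' : a ≤ π) (hb' : b ≤ π) :
    dist (g.1 (T - a)) (h.1 (T + b)) ≤ a + b := by
  refine (dist_triangle _ (g.1 T) _).trans (add_le_add ?_ ?_)
  · have h1 : |T - a - T| = a := by rw [show T - a - T = -a by ring, abs_neg, abs_of_nonneg ha]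
    rw [HQ.gs_dist g (by rw [h1]; exact ha'), h1]
  · have h1 : |T - (T + b)| = b := by rw [show T - (T + b) = -b by ring, abs_neg, abs_of_nonneg hb]
    rw [e, HQ.gs_dist h (by rw [h1]; exact hb'), h1]

theorem per_nat (𝒜 : SDist n M) (hB : Bl M) (g : Gs M) (t : ℝ) (l : ℕ) : g.1 (t + l * (2 * π)) = g.1 t := by
  induction l with
  | zero => simp
  | succ l ih => rw [show t + ((l + 1 : ℕ) : ℝ) * (2 * π) = t + l * (2 * π) + 2 * π by push_cast; ring, IsGeo.closed 𝒜 hB g.2, ih]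

/-- the corners -/
theorem rot_corner (hB : Bl M) {c : Gs M} {r : Eu n} (h : r ∈ NEG.Kc 𝒜 c) (s : ℝ) (k : ℕ) :
    (gw 𝒜 hB c (𝒜.vel c.1 0 + s • r)).1 (k * π) = c.1 (k * π) := by
  rcases Nat.even_or_odd' k with ⟨l, rfl | rfl⟩
  · have e : ((2 * l : ℕ) : ℝ) * π = 0 + l * (2 * π) := by push_cast; ring
    rw [e, per_nat 𝒜 hB, per_nat 𝒜 hB, gw_zero]
  · have e : ((2 * l + 1 : ℕ) : ℝ) * π = π + l * (2 * π) := by push_cast; ring
    rw [e, per_nat 𝒜 hB, per_nat 𝒜 hB, rot_top hB h]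

theorem ra_succ (hB : Bl M) (c : Gs M) (r : Fin 4 → Eu n) (s : ℝ) (i : ZMod 8) :
    ra 𝒜 hB c r s (i + 1) = (gw 𝒜 hB c (𝒜.vel c.1 0 + s • r (arc (i + 1)))).1 (t8 i + π / 2) :=
  b8_succ 𝒜 hB (gw 𝒜 hB c (𝒜.vel c.1 0 + s • r (arc (i + 1)))) i

theorem arc_even {i : ZMod 8} (h : i.val % 2 = 0) : arc (i + 1) = arc i := by
  have h2 : i.val < 8 := ZMod.val_lt i
  have h1 : ((i + 1 : ZMod 8)).val = (i.val + 1) % 8 := ZMod.val_add i 1
  unfold arc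
  ext
  show ((i + 1 : ZMod 8)).val / 2 = i.val / 2
  rw [h1, Nat.mod_eq_of_lt (by omega)]
  omega

theorem t8_odd {i : ZMod 8} {j : ℕ} (h : i.val = 2 * j + 1) : t8 i = ((j + 1 : ℕ) : ℝ) * π - π / 4 := by
  unfold t8
  rw [h]
  push_cast
  ring

/-- the sides of the rotated polygon -/
theorem dist_ra (hB : Bl M) {c : Gs M} {r : Fin 4 → Eu n} (hr : ∀ j, r j ∈ NEG.Kc 𝒜 c) (s : ℝ) (i : ZMod 8) :
    dist (ra 𝒜 hB c r s i) (ra 𝒜 hB c r s (i + 1)) ≤ π / 2 := by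
  have hπ := Real.pi_pos
  rw [ra_succ]
  show dist ((gw 𝒜 hB c (𝒜.vel c.1 0 + s • r (arc i))).1 (t8 i)) _ ≤ _
  rcases Nat.mod_two_eq_zero_or_one i.val with h | h
  · rw [arc_even h]
    have h1 : |t8 i - (t8 i + π / 2)| = π / 2 := by
      rw [show t8 i - (t8 i + π / 2) = -(π / 2) by ring, abs_neg, abs_of_pos (by positivity)]
    rw [HQ.gs_dist _ (by rw [h1]; linarith), h1]
  · obtain ⟨j, hj⟩ : ∃ j, i.val = 2 * j + 1 := ⟨i.val / 2, by omega⟩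
    have e1 : t8 i = ((j + 1 : ℕ) : ℝ) * π - π / 4 := t8_odd hj
    have e2 : t8 i + π / 2 = ((j + 1 : ℕ) : ℝ) * π + π / 4 := by rw [e1]; ring
    have e3 : (gw 𝒜 hB c (𝒜.vel c.1 0 + s • r (arc i))).1 (((j + 1 : ℕ) : ℝ) * π) =
        (gw 𝒜 hB c (𝒜.vel c.1 0 + s • r (arc (i + 1)))).1 (((j + 1 : ℕ) : ℝ) * π) := by
      rw [rot_corner hB (hr _), rot_corner hB (hr _)]
    rw [e2, e1]
    refine (dist_common e3 (by positivity) (by positivity) (by linarith) (by linarith)).trans (le_of_eq ?_)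
    ring

/-- the sides at the corners -/
theorem dist_ra_lt (hB : Bl M) {c : Gs M} {r : Fin 4 → Eu n} (hr : ∀ j, r j ∈ NEG.Kc 𝒜 c) {i : ZMod 8} (hi : i.val % 2 = 1)
    (hne : r (arc i) ≠ r (arc (i + 1))) :
    ∃ m : ℝ, 0 < m ∧ ∀ᶠ s in 𝓝[>] (0 : ℝ), dist (ra 𝒜 hB c r s i) (ra 𝒜 hB c r s (i + 1)) ^ 2 ≤ (π / 2) ^ 2 - m * s ^ 2 := by
  obtain ⟨j, hj⟩ : ∃ j, i.val = 2 * j + 1 := ⟨i.val / 2, by omega⟩
  have e1 : t8 i = ((j + 1 : ℕ) : ℝ) * π - π / 4 := t8_odd hj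
  have e2 : t8 i + π / 2 = ((j + 1 : ℕ) : ℝ) * π + π / 4 := by rw [e1]; ring
  rcases Nat.even_or_odd' (j + 1) with ⟨l, hl | hl⟩
  · obtain ⟨m, hm, h⟩ := corner (𝒜 := 𝒜) hB c (Kc_perp (hr (arc i))) (Kc_perp (hr (arc (i + 1)))) hne
    refine ⟨m, hm, h.mono fun s hs => ?_⟩
    rw [ra_succ]
    have f1 : ra 𝒜 hB c r s i = (gw 𝒜 hB c (𝒜.vel c.1 0 + s • r (arc i))).1 (-(π / 4)) := by
      show (gw 𝒜 hB c (𝒜.vel c.1 0 + s • r (arc i))).1 (t8 i) = _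
      rw [e1, hl, show ((2 * l : ℕ) : ℝ) * π - π / 4 = -(π / 4) + l * (2 * π) by push_cast; ring, per_nat 𝒜 hB]
    have f2 : (gw 𝒜 hB c (𝒜.vel c.1 0 + s • r (arc (i + 1)))).1 (t8 i + π / 2) =
        (gw 𝒜 hB c (𝒜.vel c.1 0 + s • r (arc (i + 1)))).1 (π / 4) := by
      rw [e2, hl, show ((2 * l : ℕ) : ℝ) * π + π / 4 = π / 4 + l * (2 * π) by push_cast; ring, per_nat 𝒜 hB]
    rw [f1, f2]
    exact hs
  · have hne' : thK 𝒜 hB c (r (arc i)) ≠ thK 𝒜 hB c (r (arc (i + 1))) := fun h => hne (by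
      rw [← thK_thK hB (hr (arc i)), h, thK_thK hB (hr (arc (i + 1)))])
    obtain ⟨m, hm, h⟩ := corner (𝒜 := 𝒜) hB (shift π c) (Kc_perp (thK_mem hB (hr (arc i))))
      (Kc_perp (thK_mem hB (hr (arc (i + 1))))) hne'
    refine ⟨m, hm, h.mono fun s hs => ?_⟩
    rw [← shift_rot hB (hr _), ← shift_rot hB (hr _)] at hs
    rw [ra_succ]
    have f1 : ra 𝒜 hB c r s i = (shift π (gw 𝒜 hB c (𝒜.vel c.1 0 + s • r (arc i)))).1 (-(π / 4)) := by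
      show (gw 𝒜 hB c (𝒜.vel c.1 0 + s • r (arc i))).1 (t8 i) = (gw 𝒜 hB c (𝒜.vel c.1 0 + s • r (arc i))).1 (-(π / 4) + π)
      rw [e1, hl, show ((2 * l + 1 : ℕ) : ℝ) * π - π / 4 = -(π / 4) + π + l * (2 * π) by push_cast; ring, per_nat 𝒜 hB]
    have f2 : (gw 𝒜 hB c (𝒜.vel c.1 0 + s • r (arc (i + 1)))).1 (t8 i + π / 2) =
        (shift π (gw 𝒜 hB c (𝒜.vel c.1 0 + s • r (arc (i + 1))))).1 (π / 4) := by
      show _ = (gw 𝒜 hB c (𝒜.vel c.1 0 + s • r (arc (i + 1)))).1 (π / 4 + π)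
      rw [e2, hl, show ((2 * l + 1 : ℕ) : ℝ) * π + π / 4 = π / 4 + π + l * (2 * π) by push_cast; ring, per_nat 𝒜 hB]
    rw [f1, f2]
    exact hs

/-- **`H8 ≤ 0` for the rotations of the arcs** -/
theorem H8_av_le (hB : Bl M) {c : Gs M} {r : Fin 4 → Eu n} (hr : ∀ j, r j ∈ NEG.Kc 𝒜 c) : H8 𝒜 c (av 𝒜 hB c r) ≤ 0 := by
  have h1 := H8_le (𝒜 := 𝒜) hB (x := ra 𝒜 hB c r) (smAt_ra hB c r) (ra_zero hB c r) (m := 0) ?_
  · rw [mul_zero, neg_zero, vel8_ra] at h1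
    exact h1
  · refine Eventually.frequently (Eventually.of_forall fun s => ?_)
    rw [zero_mul, sub_zero]
    unfold E8
    have h2 : ∀ i ∈ (Finset.univ : Finset (ZMod 8)), dist (ra 𝒜 hB c r s i) (ra 𝒜 hB c r s (i + 1)) ^ 2 ≤ (π / 2) ^ 2 :=
      fun i _ => pow_le_pow_left₀ dist_nonneg (dist_ra hB hr s i) 2
    refine (Finset.sum_le_sum h2).trans (le_of_eq ?_)
    rw [Finset.sum_const, Finset.card_univ, ZMod.card, nsmul_eq_mul]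
    push_cast
    ring

/-- **`H8 < 0` for the rotations of the arcs which are not all equal** -/
theorem H8_av_lt (hB : Bl M) {c : Gs M} {r : Fin 4 → Eu n} (hr : ∀ j, r j ∈ NEG.Kc 𝒜 c) (h : ∃ j k, r j ≠ r k) :
    H8 𝒜 c (av 𝒜 hB c r) < 0 := by
  obtain ⟨i, hi, hne⟩ : ∃ i : ZMod 8, i.val % 2 = 1 ∧ r (arc i) ≠ r (arc (i + 1)) := by
    by_contra hcon
    push Not at hcon
    have h01 : r 0 = r 1 := hcon 1 rfl
    have h12 : r 1 = r 2 := hcon 3 rfl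
    have h23 : r 2 = r 3 := hcon 5 rfl
    obtain ⟨j, k, hjk⟩ := h
    have hall : ∀ j : Fin 4, r j = r 0 := by
      intro j
      fin_cases j
      · rfl
      · exact h01.symm
      · exact (h01.trans h12).symm
      · exact ((h01.trans h12).trans h23).symm
    exact hjk ((hall j).trans (hall k).symm)
  obtain ⟨m, hm, h2⟩ := dist_ra_lt hB hr hi hne
  have h1 := H8_le (𝒜 := 𝒜) hB (x := ra 𝒜 hB c r) (smAt_ra hB c r) (ra_zero hB c r) (m := m) ?_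
  · rw [vel8_ra] at h1
    linarith
  · refine Eventually.frequently (h2.mono fun s hs => ?_)
    unfold E8
    have h3 : ∀ j ∈ (Finset.univ : Finset (ZMod 8)), dist (ra 𝒜 hB c r s j) (ra 𝒜 hB c r s (j + 1)) ^ 2 ≤
        (π / 2) ^ 2 - (if j = i then m * s ^ 2 else 0) := fun j _ => by
      by_cases hj : j = i
      · rw [if_pos hj, hj]
        exact hs
      · rw [if_neg hj, sub_zero]
        exact pow_le_pow_left₀ dist_nonneg (dist_ra hB hr s j) 2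
    refine (Finset.sum_le_sum h3).trans (le_of_eq ?_)
    rw [Finset.sum_sub_distrib, Finset.sum_const, Finset.card_univ, ZMod.card, nsmul_eq_mul, Finset.sum_ite_eq' Finset.univ i,
      if_pos (Finset.mem_univ i)]
    push_cast
    ring

/-! ### variations through geodesics -/

/-- **variations through geodesics are in the kernel of `B8`** -/
theorem B8_crit (hB : Bl M) {σ : ℝ → Gs M} (hσ : SmGA 𝒜 σ 0) {c : Gs M} (h0 : σ 0 = c) (b : ZMod 8 → Eu n) :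
    B8 𝒜 c (fun i => 𝒜.vel (fun s => b8 (σ s) i) 0) b = 0 := by
  obtain ⟨u, hu⟩ : ∃ u : ℝ → ZMod 8 → Eu n, u = fun s i => 𝒜.ψ (b8 c i) (b8 (σ s) i) := ⟨_, rfl⟩
  have hsm : ∀ i, SmAt 𝒜 (fun s => b8 (σ s) i) 0 := fun i => SmGA.at hB hσ (t8 i)
  have hb0 : ∀ i, b8 (σ 0) i = b8 c i := fun i => by rw [h0]
  have hci : ∀ i, ContDiffAt ℝ ∞ (fun s => u s i) 0 := fun i => by
    rw [hu]
    have h1 : ContDiffAt ℝ ∞ (fun s => 𝒜.ψ (b8 (σ 0) i) (b8 (σ s) i)) 0 := (hsm i).2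
    rw [hb0] at h1
    exact h1
  have hu0 : u 0 = 0 := by
    rw [hu]
    funext i
    show 𝒜.ψ (b8 c i) (b8 (σ 0) i) = 0
    rw [hb0, 𝒜.zero]
  have hc : ContDiffAt ℝ ∞ u 0 := contDiffAt_pi.2 hci
  have hv : HasDerivAt u (fun i => 𝒜.vel (fun s => b8 (σ s) i) 0) 0 := by
    rw [hasDerivAt_pi]
    intro i
    have h2 := ((hci i).differentiableAt (by simp)).hasDerivAt
    have h3 : deriv (fun s => u s i) 0 = 𝒜.vel (fun s => b8 (σ s) i) 0 := by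
      rw [hu]
      show deriv (fun s => 𝒜.ψ (b8 c i) (b8 (σ s) i)) 0 = deriv (fun s => 𝒜.ψ (b8 (σ 0) i) (b8 (σ s) i)) 0
      rw [hb0]
    rwa [h3] at h2
  have hf : ContDiffAt ℝ ∞ (f8 𝒜 c) (u 0) := by
    rw [hu0]
    exact contDiffAt_f8 hB c
  -- the differential vanishes along the family
  have key : ∀ᶠ s in 𝓝 (0 : ℝ), fderiv ℝ (f8 𝒜 c) (u s) b = 0 := by
    have h1 : ∀ᶠ s in 𝓝 (0 : ℝ), ∀ i, b8 (σ s) i ∈ (𝒜.ψ (b8 c i)).source := by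
      rw [eventually_all]
      intro i
      refine (hsm i).1.eventually ((𝒜.ψ (b8 c i)).open_source.mem_nhds ?_)
      show b8 (σ 0) i ∈ _
      rw [hb0]
      exact 𝒜.mem _
    have h2 : ∀ᶠ s in 𝓝 (0 : ℝ), DifferentiableAt ℝ (f8 𝒜 c) (u s) := by
      have e1 : ∀ᶠ z in 𝓝 (u 0), DifferentiableAt ℝ (f8 𝒜 c) z :=
        ((hf.of_le (m := 2) (by norm_cast)).eventually (by simp)).mono fun z hz => hz.differentiableAt (by simp)
      exact hc.continuousAt.eventually e1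
    filter_upwards [h1, h2] with s h3 h4
    obtain ⟨x, hx⟩ : ∃ x : ℝ → ZMod 8 → M, x = fun τ i => (𝒜.ψ (b8 c i)).symm (u s i + τ • b i) := ⟨_, rfl⟩
    have hx0 : x 0 = b8 (σ s) := by
      rw [hx, hu]
      funext i
      show (𝒜.ψ (b8 c i)).symm (𝒜.ψ (b8 c i) (b8 (σ s) i) + (0 : ℝ) • b i) = b8 (σ s) i
      rw [zero_smul, add_zero, (𝒜.ψ (b8 c i)).left_inv (h3 i)]
    have hxs : ∀ i, SmAt 𝒜 (fun τ => x τ i) 0 := fun i => by
      have e1 : ContDiffAt ℝ ∞ (fun τ : ℝ => u s i + τ • b i) 0 := contDiffAt_const.add (contDiffAt_id.smul contDiffAt_const)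
      have e2 : u s i + (0 : ℝ) • b i = 𝒜.ψ (b8 c i) (b8 (σ s) i) := by rw [zero_smul, add_zero, hu]
      have e3 : x 0 i = b8 (σ s) i := congrFun hx0 i
      refine ⟨?_, ?_⟩
      · rw [hx]
        refine ContinuousAt.comp (g := (𝒜.ψ (b8 c i)).symm) (f := fun τ : ℝ => u s i + τ • b i) ?_ e1.continuousAt
        rw [e2]
        exact (𝒜.ψ (b8 c i)).continuousAt_symm ((𝒜.ψ (b8 c i)).map_source (h3 i))
      · show ContDiffAt ℝ ∞ (fun τ => 𝒜.ψ (x 0 i) (x τ i)) 0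
        rw [e3, hx]
        have e4 := 𝒜.trans (b8 c i) (b8 (σ s) i) (b8 (σ s) i) (h3 i) (𝒜.mem _)
        rw [← e2] at e4
        exact ContDiffAt.comp (g := fun u => 𝒜.ψ (b8 (σ s) i) ((𝒜.ψ (b8 c i)).symm u)) (f := fun τ : ℝ => u s i + τ • b i)
          0 e4 e1
    have h5 := (deriv_E8 hB hxs hx0).1
    have h6 : (fun τ => E8 (x τ)) = fun τ : ℝ => f8 𝒜 c (u s + τ • b) := by
      funext τ
      rw [hx]
      rfl
    have h7 : HasDerivAt (fun τ : ℝ => u s + τ • b) b 0 := by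
      have := ((hasDerivAt_id (0 : ℝ)).smul_const b).const_add (u s)
      rwa [one_smul] at this
    have h8 : HasFDerivAt (f8 𝒜 c) (fderiv ℝ (f8 𝒜 c) (u s)) (u s + (0 : ℝ) • b) := by
      rw [zero_smul, add_zero]
      exact h4.hasFDerivAt
    have h9 := h8.comp_hasDerivAt (0 : ℝ) h7
    rw [h6] at h5
    rw [← h5]
    exact h9.deriv.symm
  have h1 : HasFDerivAt (fderiv ℝ (f8 𝒜 c)) (B8 𝒜 c) (u 0) := by
    rw [hu0]
    exact (((contDiffAt_f8 (𝒜 := 𝒜) hB c).fderiv_right (m := ∞) (by simp)).differentiableAt (by simp)).hasFDerivAt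
  have h2 := (h1.comp_hasDerivAt (0 : ℝ) hv).clm_apply (hasDerivAt_const (0 : ℝ) b)
  have h3 : HasDerivAt (fun s => fderiv ℝ (f8 𝒜 c) (u s) b) 0 0 :=
    (hasDerivAt_const (0 : ℝ) (0 : ℝ)).congr_of_eventuallyEq key
  have h4 := h2.unique h3
  rw [map_zero, add_zero] at h4
  exact h4

/-- constant rotations -/
theorem B8_const (hB : Bl M) (c : Gs M) (w : Eu n) (b : ZMod 8 → Eu n) :
    B8 𝒜 c (fun i => JA 𝒜 hB c (t8 i) w) b = 0 := by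
  refine B8_crit (𝒜 := 𝒜) hB (σ := fun s : ℝ => gw 𝒜 hB c (𝒜.vel c.1 0 + s • w)) ?_ ?_ b
  · refine smGA_rot hB c (w := fun s : ℝ => 𝒜.vel c.1 0 + s • w) (contDiffAt_const.add (contDiffAt_id.smul contDiffAt_const)) ?_
    show 𝒜.vel c.1 0 + (0 : ℝ) • w ≠ 0
    rw [zero_smul, add_zero]
    exact vel_ne 𝒜 c
  · show gw 𝒜 hB c (𝒜.vel c.1 0 + (0 : ℝ) • w) = c
    rw [zero_smul, add_zero, gw_vel_self]

end Pool.Agent.Lib.MP_ccbbf6_gt.K7.DP
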