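import Pool.Agent.Lib.MP_ccbbf6_gt.K7.GY3
import Pool.Agent.Lib.MP_ccbbf6_gt.K7.KT

/-!
# `κ = 7`, block F, part A: relative families of loops (helper53)

* `Pln M u` : the space `Λ` of loops with the closed form `T`, the space `S` of short loops, the primitive `E` of `T` on `S`;
* `Pln.Rl W Y` : a path of loops over `Y` which ends in short loops; `Rl.om = e^* E - ∫ r^* T`, `d om = (start)^* T`;
* `Rl.Rel` : the forms `om` differ by an exact form; homotopies (`Rl.hom`), concatenation with a path of short loops (`Rl.cat`);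
* `GysD.phi8_Rl` : the form `phi8` of the doubled geodesics is the fibre integral of the form `om` of the shortening `R`.
-/

set_option autoImplicit false
set_option maxSynthPendingDepth 3

open Set Filter Topology MeasureTheory
open scoped TensorProduct ContDiff

noncomputable section

namespace Pool.Agent.Lib.MP_ccbbf6_gt.K7

open L4 L4.FR L5

variable {X Y Z M G F : Space} {k l n : ℕ} {i j : ℕ}

/-! ### Concatenation of paths -/

/-- the integral over a concatenation -/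
theorem K_cat {F F1 F2 : SMap X.xR M} {φ ψ : ℝ → ℝ} (hφ : ContDiff ℝ ∞ φ) (hψ : ContDiff ℝ ∞ ψ) (φ0 : φ 0 = 0)
    (φ1 : φ (1 / 2) = 1) (ψ0 : ψ (1 / 2) = 0) (ψ1 : ψ 1 = 1)
    (h1 : ∀ x s, 0 < s → s < 1 / 2 → F.1 (x, s) = F1.1 (x, φ s)) (h2 : ∀ x s, 1 / 2 < s → s < 1 → F.1 (x, s) = F2.1 (x, ψ s))
    (θ : Om M) : KO X (F.pull θ) = KO X (F1.pull θ) + KO X (F2.pull θ) := by
  have e1 : ContDiff ℝ ∞ fun s : ℝ => φ (s * (1 / 2)) := hφ.comp (contDiff_mulc _)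
  have e2 : ContDiff ℝ ∞ fun s : ℝ => ψ (1 / 2 + s * (1 / 2)) := hψ.comp (contDiff_const.add (contDiff_mulc _))
  have k1 := K_time e1 (F1.pull θ)
  have k2 := K_time e2 (F2.pull θ)
  rw [one_mul, zero_mul, φ1, φ0, Jt_one, Jt_zero, sub_zero] at k1
  have h3 : (1 / 2 + 1 * (1 / 2) : ℝ) = 1 := by norm_num
  have h4 : (1 / 2 + 0 * (1 / 2) : ℝ) = 1 / 2 := by norm_num
  rw [h3, h4, ψ1, ψ0, Jt_one, Jt_zero, sub_zero] at k2
  rw [K_split, ← k1, ← k2, ← pull_comp, ← pull_comp, ← pull_comp, ← pull_comp]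
  congr 1
  · refine K_congr (fun x s hs hs' => ?_) θ
    change F.1 (x, s * (1 / 2)) = F1.1 (x, φ (s * (1 / 2)))
    exact h1 x _ (by linarith) (by linarith)
  · refine K_congr (fun x s hs hs' => ?_) θ
    change F.1 (x, 1 / 2 + s * (1 / 2)) = F2.1 (x, ψ (1 / 2 + s * (1 / 2)))
    exact h2 x _ (by linarith) (by linarith)

/-! ### The data -/

/-- loops, short loops, and the primitive on the short loops -/
structure Pln (M : Space) (u : Om M) where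
  /-- loops -/
  Λ : Space
  cΛ : Circ Λ
  fΛ : SMap Λ M
  /-- short loops -/
  S : Space
  i : SMap S Λ
  Du : Deg (2 * 3 + 2) u
  du : dO M u = 0
  u3 : u ^ 3 = 0
  /-- the primitive -/
  E : Om S
  dE : dO S E = i.pull (TT cΛ fΛ u)
  Deg_E : Deg 28 E

namespace Pln

variable {u : Om M} (W : Pln M u)

/-- the closed form of degree 29 -/
def T : Om W.Λ := TT W.cΛ W.fΛ u

theorem dT : dO W.Λ W.T = 0 := d_TT W.Du W.du W.u3

theorem Deg_T : Deg 29 W.T := by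
  have h := Deg_TT (c := W.cΛ) (f := W.fΛ) W.Du
  exact h

/-- paths of loops which end in short loops -/
structure Rl (Y : Space) where
  r : SMap Y.xR W.Λ
  e : SMap Y W.S
  he : ∀ y, r.1 (y, 1) = W.i.1 (e.1 y)

namespace Rl

variable {W} (R R' R'' : W.Rl Y)

/-- the form of degree 28 -/
def om : Om Y := R.e.pull W.E - KO Y (R.r.pull W.T)

/-- the start -/
def st : SMap Y W.Λ := R.r.comp (jO Y 0)

theorem Deg_om : Deg 28 R.om := Deg_sub (Deg_pull _ W.Deg_E) (Deg_K (Deg_pull _ W.Deg_T))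

theorem d_om : dO Y R.om = R.st.pull W.T := by
  have h1 := d_K (R.r.pull W.T)
  rw [pull_d, W.dT, map_zero, map_zero, add_zero, ← pull_comp, ← pull_comp] at h1
  have h2 : R.r.comp (jO Y 1) = W.i.comp R.e := SMap_ext fun y => R.he y
  have h3 : W.T = TT W.cΛ W.fΛ u := rfl
  unfold om st
  rw [map_sub, pull_d, W.dE, h1, ← pull_comp, h2, ← h3]
  abel

/-- pull back -/
def pull (g : SMap Z Y) : W.Rl Z := ⟨R.r.comp g.up, R.e.comp g, fun z => R.he (g.1 z)⟩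

theorem om_pull (g : SMap Z Y) : (R.pull g).om = g.pull R.om := by
  unfold om pull
  rw [map_sub, ← K_up, ← pull_comp, ← pull_comp]

/-- the forms differ by an exact form -/
def Rel : Prop := ∃ w : Om Y, Deg 27 w ∧ R.om - R'.om = dO Y w

variable {R R' R''}

theorem Rel.refl : Rel R R := ⟨0, Deg_zero, by rw [map_zero, sub_self]⟩

theorem Rel.symm (h : Rel R R') : Rel R' R := by
  obtain ⟨w, h1, h2⟩ := h
  exact ⟨-w, Deg_neg h1, by rw [map_neg, ← h2]; abel⟩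

theorem Rel.trans (h : Rel R R') (h' : Rel R' R'') : Rel R R'' := by
  obtain ⟨w, h1, h2⟩ := h
  obtain ⟨w', h3, h4⟩ := h'
  exact ⟨w + w', Deg_add h1 h3, by rw [map_add, ← h2, ← h4]; abel⟩

theorem Rel.of_eq (h : R.om = R'.om) : Rel R R' := ⟨0, Deg_zero, by rw [map_zero, h, sub_self]⟩

theorem Rel.pull (h : Rel R R') (g : SMap Z Y) : Rel (R.pull g) (R'.pull g) := by
  obtain ⟨w, h1, h2⟩ := h
  exact ⟨g.pull w, Deg_pull _ h1, by rw [om_pull, om_pull, ← map_sub, h2, pull_d]⟩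

/-- **homotopy invariance** : `H` is a family over `Y × R` whose start does not depend on the second variable -/
theorem hom (H : W.Rl Y.xR) (hs : ∀ y t, H.r.1 ((y, t), 0) = H.r.1 ((y, 0), 0)) :
    Rel (H.pull (jO Y 1)) (H.pull (jO Y 0)) := by
  have h1 := d_K H.om
  have h2 : H.st = (H.st.comp (jO Y 0)).comp (pO Y) := SMap_ext fun z => hs z.1 z.2
  have h3 : H.st.pull W.T = (pO Y).pull ((H.st.comp (jO Y 0)).pull W.T) := by
    rw [← pull_comp, ← h2]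
  rw [H.d_om, h3, K_p, add_zero] at h1
  exact ⟨KO Y H.om, Deg_K H.Deg_om, by rw [om_pull, om_pull, h1]⟩

/-- homotopy invariance, second form -/
theorem hom' {R R' : W.Rl Y} (H : SMap Y.xR.xR W.Λ) (e : SMap Y.xR W.S) (he : ∀ z, H.1 (z, 1) = W.i.1 (e.1 z))
    (hs : ∀ y t, H.1 ((y, t), 0) = H.1 ((y, 0), 0)) (h0 : ∀ y s, H.1 ((y, 0), s) = R.r.1 (y, s))
    (h1 : ∀ y s, H.1 ((y, 1), s) = R'.r.1 (y, s)) (e0 : ∀ y, e.1 (y, 0) = R.e.1 y) (e1 : ∀ y, e.1 (y, 1) = R'.e.1 y) :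
    Rel R R' := by
  have h2 := hom (W := W) ⟨H, e, he⟩ hs
  have h3 : (⟨H, e, he⟩ : W.Rl Y.xR).pull (jO Y 1) = R' := by
    obtain ⟨r', f', hr'⟩ := R'
    have a1 : H.comp (jO Y 1).up = r' := SMap_ext fun z => h1 z.1 z.2
    have a2 : e.comp (jO Y 1) = f' := SMap_ext fun y => e1 y
    subst a1 a2
    rfl
  have h4 : (⟨H, e, he⟩ : W.Rl Y.xR).pull (jO Y 0) = R := by
    obtain ⟨r', f', hr'⟩ := R
    have a1 : H.comp (jO Y 0).up = r' := SMap_ext fun z => h0 z.1 z.2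
    have a2 : e.comp (jO Y 0) = f' := SMap_ext fun y => e0 y
    subst a1 a2
    rfl
  rw [h3, h4] at h2
  exact h2.symm

/-- only the times `0 < s < 1` and the end matter -/
theorem congr (h : ∀ y s, 0 < s → s < 1 → R.r.1 (y, s) = R'.r.1 (y, s)) (he : ∀ y, R.e.1 y = R'.e.1 y) : R.om = R'.om := by
  have e1 : R.e = R'.e := SMap_ext he
  unfold om
  rw [K_congr h, e1]

/-- **prolongation by a path of short loops** -/
theorem cat {σ : SMap Y.xR W.S} (h0 : ∀ y, σ.1 (y, 0) = R.e.1 y) (h1 : ∀ y, σ.1 (y, 1) = R'.e.1 y)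
    (hK : KO Y (R'.r.pull W.T) = KO Y (R.r.pull W.T) + KO Y ((W.i.comp σ).pull W.T)) : Rel R' R := by
  have h2 := d_K (σ.pull W.E)
  have e0 : σ.comp (jO Y 0) = R.e := SMap_ext h0
  have e1 : σ.comp (jO Y 1) = R'.e := SMap_ext h1
  have h3 : W.T = TT W.cΛ W.fΛ u := rfl
  rw [pull_d, W.dE, ← pull_comp, ← pull_comp, ← pull_comp, e0, e1, ← h3] at h2
  refine ⟨KO Y (σ.pull W.E), Deg_K (Deg_pull _ W.Deg_E), ?_⟩
  unfold om
  rw [hK, ← sub_eq_zero]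
  have h4 : R'.e.pull W.E - R.e.pull W.E = dO Y (KO Y (σ.pull W.E)) + KO Y ((W.i.comp σ).pull W.T) := h2.symm
  have h5 : R'.e.pull W.E = dO Y (KO Y (σ.pull W.E)) + KO Y ((W.i.comp σ).pull W.T) + R.e.pull W.E := by
    rw [← h4]
    abel
  rw [h5]
  abel

/-- prolongation, explicit form -/
theorem cat' {σ : SMap Y.xR W.S} (h0 : ∀ y, σ.1 (y, 0) = R.e.1 y) (h1 : ∀ y, σ.1 (y, 1) = R'.e.1 y) {φ ψ : ℝ → ℝ}
    (hφ : ContDiff ℝ ∞ φ) (hψ : ContDiff ℝ ∞ ψ) (φ0 : φ 0 = 0) (φ1 : φ (1 / 2) = 1) (ψ0 : ψ (1 / 2) = 0) (ψ1 : ψ 1 = 1)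
    (h2 : ∀ y s, 0 < s → s < 1 / 2 → R'.r.1 (y, s) = R.r.1 (y, φ s))
    (h3 : ∀ y s, 1 / 2 < s → s < 1 → R'.r.1 (y, s) = W.i.1 (σ.1 (y, ψ s))) : Rel R' R :=
  cat h0 h1 (K_cat (F2 := W.i.comp σ) hφ hψ φ0 φ1 ψ0 ψ1 h2 h3 W.T)

/-- reparametrised paths -/
theorem time {φ : ℝ → ℝ} (hφ : ContDiff ℝ ∞ φ) (φ0 : φ 0 = 0) (φ1 : φ 1 = 1)
    (h : ∀ y s, 0 < s → s < 1 → R'.r.1 (y, s) = R.r.1 (y, φ s)) (he : ∀ y, R'.e.1 y = R.e.1 y) : R'.om = R.om := by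
  have e1 : R'.e = R.e := SMap_ext he
  have h1 := K_time hφ (R.r.pull W.T)
  rw [φ0, φ1, Jt_one, Jt_zero, sub_zero, ← pull_comp] at h1
  have h2 : KO Y (R'.r.pull W.T) = KO Y ((R.r.comp (Rph Y hφ)).pull W.T) := K_congr h W.T
  unfold om
  rw [h2, h1, e1]

/-- relative families and fibre integrals -/
theorem Rel.P (h : Rel R R') (b : EB 20 Y G) : ∃ z : Om G, Deg 7 z ∧ b.P R.om - b.P R'.om = dO G z := by
  obtain ⟨w, h1, h2⟩ := h
  exact ⟨b.P w, b.B.Deg_PI (j := 7) h1, by rw [← map_sub, h2, b.P_d]⟩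

end Rl

end Pln

/-! ### The form `ZZ` -/

/-- `k1 A e^6 ub xb + k2 A e^10 xb` -/
def ZZ (M : Space) (u : Om M) (k1 k2 : ℝ) {X : Space} (c : Circ X) (A : Om X) (f : SMap X M) : Om X :=
  k1 • (A * (dO X A ^ 6 * (ub c f u * xb c f u))) + k2 • (A * (dO X A ^ 10 * xb c f u))

section ZZ

variable {u : Om M} {k1 k2 : ℝ} {c : Circ X} {A : Om X} {f : SMap X M}

theorem ZZ_nat {c' : Circ Y} {g : SMap Y X} (h : Eqv c' c g) :
    ZZ M u k1 k2 c' (g.pull A) (f.comp g) = g.pull (ZZ M u k1 k2 c A f) := by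
  unfold ZZ
  rw [ub_nat h, xb_nat h, map_add, map_smul, map_smul, map_mul, map_mul, map_mul, map_mul, map_mul, map_pow, map_pow,
    pull_d]

theorem Deg_ZZ (hA : Cnn c A) (Du : Deg (2 * 3 + 2) u) : Deg 28 (ZZ M u k1 k2 c A f) := by
  have h2 := Deg_mul hA.deg (Deg_mul (Deg_pow hA.Deg_e 6) (Deg_mul (Deg_ub (c := c) (f := f) Du) (Deg_xb (c := c) (f := f) Du)))
  have h3 := Deg_mul hA.deg (Deg_mul (Deg_pow hA.Deg_e 10) (Deg_xb (c := c) (f := f) Du))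
  exact Deg_add (Deg_smul _ h2) (Deg_smul _ h3)

theorem d_ZZ (hA : Cnn c A) (Du : Deg (2 * 3 + 2) u) (du : dO M u = 0) :
    dO X (ZZ M u k1 k2 c A f) = k1 • (dO X A ^ 7 * (ub c f u * xb c f u)) + k2 • (dO X A ^ 11 * xb c f u) := by
  have h : ∀ (m : ℕ) (w : Om X), dO X w = 0 → dO X (A * (dO X A ^ m * w)) = dO X A ^ (m + 1) * w := fun m w hw => by
    rw [d_mul, d_mul, d_pow_zero (d_d _), zero_mul, zero_add, hw, mul_zero, mul_zero, add_zero, ← mul_assoc, ← pow_succ']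
  unfold ZZ
  rw [map_add, map_smul, map_smul, h 6 _ (d_ux Du du), h 10 _ (d_xb du)]

theorem TD_eq (hA : Cnn c A) (Du : Deg (2 * 3 + 2) u) (du : dO M u = 0) :
    TD M u k1 k2 c A f = TT c f u - dO X (ZZ M u k1 k2 c A f) := by
  rw [d_ZZ hA Du du]
  unfold TD
  abel

end ZZ

/-! ### Class maps -/

/-- `Pln` with class maps, compatible with the primitive of the vanishing theorem -/
structure LoopD {M : Space} {u : Om M} {L : ∀ {X : Space}, Circ X → SMap X M → Prop} (V : VanD M u L)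
    extends Pln M u where
  /-- the class of a family -/
  gO : ∀ {X : Space}, Circ X → SMap X M → SMap X Λ
  gO_eqv : ∀ {X : Space} (c : Circ X) (f : SMap X M), Eqv c cΛ (gO c f)
  gO_f : ∀ {X : Space} (c : Circ X) (f : SMap X M), fΛ.comp (gO c f) = f
  gO_nat : ∀ {X Y : Space} {c : Circ X} {c' : Circ Y} {g : SMap Y X}, Eqv c' c g → ∀ f : SMap X M,
    gO c' (f.comp g) = (gO c f).comp g
  /-- the class of a family of short loops -/
  gL : ∀ {X : Space} (c : Circ X) (f : SMap X M), L c f → SMap X S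
  gL_i : ∀ {X : Space} (c : Circ X) (f : SMap X M) (h : L c f), i.comp (gL c f h) = gO c f
  peel : ∀ {X : Space} {c : Circ X} {A : Om X} {f : SMap X M} (_ : Cnn c A) (h : L c f), ∃ w : Om X, Deg 27 w ∧
    V.NP c A f + ZZ M u V.k1 V.k2 c A f = (gL c f h).pull E + dO X w

namespace GysD

variable {P : NegB X G M F 15 6 2 4} {L : ∀ {X : Space}, Circ X → SMap X M → Prop} (D : GysD P L)
variable {V : VanD M (PP P).u L} (W : LoopD V)

/-- the shortening `R` as a relative family -/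
def RR : W.toPln.Rl D.Y :=
  ⟨W.gO (xRc D.b.cY) D.R, W.gL D.b.cY (D.R.comp (jO D.Y 1)) D.L2, fun y => by
    have h1 := W.gO_nat (Eqv_j D.b.cY 1) D.R
    rw [← W.gL_i _ _ D.L2] at h1
    exact (congrArg (fun f : SMap D.Y W.Λ => f.1 y) h1).symm⟩

/-- **(F-A 1)** -/
theorem phi8_Rl : ∃ z : Om G, Deg 7 z ∧ D.phi8 V - D.b.P (D.RR W).om = dO G z := by
  obtain ⟨w, hw, hp⟩ := W.peel D.cY D.L2
  have hC : Cnn (xRc D.b.cY) ((pO D.Y).pull D.AY) := D.cY.pull (Eqv_p D.b.cY)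
  obtain ⟨ζ, hζ⟩ : ∃ ζ, ζ = ZZ M (PP P).u V.k1 V.k2 (xRc D.b.cY) ((pO D.Y).pull D.AY) D.R := ⟨_, rfl⟩
  have hz : Deg 28 ζ := by rw [hζ]; exact Deg_ZZ hC Du
  have h1 : TD M (PP P).u V.k1 V.k2 (xRc D.b.cY) ((pO D.Y).pull D.AY) D.R = (D.RR W).r.pull W.toPln.T - dO _ ζ := by
    rw [TD_eq hC Du du, hζ]
    congr 1
    have h2 : (D.RR W).r = W.gO (xRc D.b.cY) D.R := rfl
    have h3 : W.toPln.T = TT W.cΛ W.fΛ (PP P).u := rfl
    rw [h2, h3, ← TT_nat (W.gO_eqv _ _), W.gO_f]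
  have h0 : D.R.comp (jO D.Y 0) = P.D.foot.comp D.b.B.pi := SMap_ext fun y => D.R0 y
  have h2 : (jO D.Y 0).pull ζ = D.b.B.pi.pull (ZZ M (PP P).u V.k1 V.k2 D.b.cG ((2⁻¹ : ℝ) • P.η) P.D.foot) := by
    rw [hζ, ← ZZ_nat (Eqv_j D.b.cY 0), j_p, h0, ← ZZ_nat D.b.pic]
    rfl
  have h3 : (jO D.Y 1).pull ζ = ZZ M (PP P).u V.k1 V.k2 D.b.cY D.AY (D.R.comp (jO D.Y 1)) := by
    rw [hζ, ← ZZ_nat (Eqv_j D.b.cY 1), j_p]
  have h4 := d_K ζ
  have h5 : D.om V = (D.RR W).om + dO _ w - dO _ (KO _ ζ) -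
      D.b.B.pi.pull (ZZ M (PP P).u V.k1 V.k2 D.b.cG ((2⁻¹ : ℝ) • P.η) P.D.foot) := by
    have h6 : (D.RR W).om = (W.gL D.b.cY (D.R.comp (jO D.Y 1)) D.L2).pull W.E - KO D.Y ((D.RR W).r.pull W.toPln.T) := rfl
    have h7 : KO D.Y (dO _ ζ) = (jO D.Y 1).pull ζ - (jO D.Y 0).pull ζ - dO _ (KO _ ζ) := by
      rw [← h4]
      abel
    have h8 : V.NP D.b.cY D.AY (D.R.comp (jO D.Y 1)) = (W.gL D.b.cY (D.R.comp (jO D.Y 1)) D.L2).pull W.E + dO _ w -
        (jO D.Y 1).pull ζ := by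
      rw [h3, ← hp]
      abel
    unfold om
    rw [h1, map_sub, h7, h8, h6, h2]
    abel
  refine ⟨D.b.P w - D.b.P (KO _ ζ), Deg_sub (D.b.B.Deg_PI (j := 7) hw) (D.b.B.Deg_PI (j := 7) (Deg_K hz)), ?_⟩
  unfold phi8
  rw [h5, map_sub, map_sub, map_add, D.b.P_pi, D.b.P_d, D.b.P_d, map_sub]
  abel

end GysD

end Pool.Agent.Lib.MP_ccbbf6_gt.K7
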