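import Pool.Agent.Lib.MP_ccbbf6_gt.K7.FA1

/-!
# `κ = 7`, block F, part A2: relative families whose start moves through the base (helper53)

`RelP π R R'` : the forms differ by an exact form and a form pulled back by `π : Y → B`; `homP` : homotopies whose start factors through
`π`; `catP` : prolongation at the start by a path which factors through `π`.
-/

set_option autoImplicit false
set_option maxSynthPendingDepth 3

open Set Filter Topology MeasureTheory
open scoped TensorProduct ContDiff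

noncomputable section

namespace Pool.Agent.Lib.MP_ccbbf6_gt.K7

open L4 L4.FR L5

variable {X Y Y' Z M G F B B' : Space} {k l n : ℕ} {i j : ℕ}

namespace Pln.Rl

variable {u : Om M} {W : Pln M u} {R R' R'' : W.Rl Y} {π : SMap Y B}

/-- equality up to exact forms and forms of the base -/
def RelP (π : SMap Y B) (R R' : W.Rl Y) : Prop :=
  ∃ (w : Om Y) (v : Om B), Deg 27 w ∧ Deg 28 v ∧ R.om - R'.om = dO Y w + π.pull v

theorem Rel.relP (h : Rel R R') (π : SMap Y B) : RelP π R R' := by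
  obtain ⟨w, h1, h2⟩ := h
  exact ⟨w, 0, h1, Deg_zero, by rw [map_zero, add_zero, h2]⟩

theorem RelP.refl : RelP π R R := Rel.relP Rel.refl π

theorem RelP.symm (h : RelP π R R') : RelP π R' R := by
  obtain ⟨w, v, h1, h2, h3⟩ := h
  exact ⟨-w, -v, Deg_neg h1, Deg_neg h2, by rw [map_neg, map_neg, ← neg_add, ← h3]; abel⟩

theorem RelP.trans (h : RelP π R R') (h' : RelP π R' R'') : RelP π R R'' := by
  obtain ⟨w, v, h1, h2, h3⟩ := h
  obtain ⟨w', v', h4, h5, h6⟩ := h'
  refine ⟨w + w', v + v', Deg_add h1 h4, Deg_add h2 h5, ?_⟩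
  have e : R.om - R''.om = (R.om - R'.om) + (R'.om - R''.om) := by abel
  rw [e, h3, h6, map_add, map_add]
  abel

theorem RelP.of_eq (h : R.om = R'.om) : RelP π R R' := Rel.relP (Rel.of_eq h) π

/-- pull back by bundle maps -/
theorem RelP.pull (h : RelP π R R') {g : SMap Y' Y} {π' : SMap Y' B'} {g' : SMap B' B} (hg : π.comp g = g'.comp π') :
    RelP π' (R.pull g) (R'.pull g) := by
  obtain ⟨w, v, h1, h2, h3⟩ := h
  refine ⟨g.pull w, g'.pull v, Deg_pull _ h1, Deg_pull _ h2, ?_⟩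
  rw [om_pull, om_pull, ← map_sub, h3, map_add, pull_d, ← pull_comp, ← pull_comp, hg]

/-- **homotopies whose start factors through `π`** -/
theorem homP (π : SMap Y B) (H : W.Rl Y.xR) (k : SMap B.xR W.Λ) (hs : ∀ y t, H.r.1 ((y, t), 0) = k.1 (π.1 y, t)) :
    RelP π (H.pull (jO Y 1)) (H.pull (jO Y 0)) := by
  have h1 := d_K H.om
  have h2 : H.st = k.comp π.up := SMap_ext fun z => hs z.1 z.2
  rw [H.d_om, h2, pull_comp, K_up] at h1
  exact ⟨KO Y H.om, KO B (k.pull W.T), Deg_K H.Deg_om, Deg_K (Deg_pull _ W.Deg_T), by rw [om_pull, om_pull, h1]⟩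

/-- second form -/
theorem homP' (π : SMap Y B) (H : SMap Y.xR.xR W.Λ) (e : SMap Y.xR W.S) (k : SMap B.xR W.Λ)
    (he : ∀ z, H.1 (z, 1) = W.i.1 (e.1 z)) (hs : ∀ y t, H.1 ((y, t), 0) = k.1 (π.1 y, t))
    (h0 : ∀ y s, H.1 ((y, 0), s) = R.r.1 (y, s))
    (h1 : ∀ y s, H.1 ((y, 1), s) = R'.r.1 (y, s)) (e0 : ∀ y, e.1 (y, 0) = R.e.1 y) (e1 : ∀ y, e.1 (y, 1) = R'.e.1 y) :
    RelP π R R' := by
  have h2 := homP (W := W) π ⟨H, e, he⟩ k hs
  have h3 : (⟨H, e, he⟩ : W.Rl Y.xR).pull (jO Y 1) = R' := by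
    obtain ⟨r', f', hr'⟩ := R'
    have a1 : H.comp (jO Y 1).up = r' := SMap_ext fun z => h1 z.1 z.2
    have a2 : e.comp (jO Y 1) = f' := SMap_ext fun y => e1 y
    subst a1 a2
    rfl
  have h4 : (⟨H, e, he⟩ : W.Rl Y.xR).pull (jO Y 0) = R := by
    obtain ⟨r', f', hr'⟩ := R
    have a1 : H.comp (jO Y 0).up = r' := SMap_ext fun z => h0 z.1 z.2
    have a2 : e.comp (jO Y 0) = f' := SMap_ext fun y => e0 y
    subst a1 a2
    rfl
  rw [h3, h4] at h2
  exact h2.symm

/-- prolongation at the start by a path which factors through `π` -/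
theorem catP (π : SMap Y B) (k : SMap B.xR W.Λ)
    (hK : KO Y (R'.r.pull W.T) = KO Y ((k.comp π.up).pull W.T) + KO Y (R.r.pull W.T)) (he : R'.e = R.e) :
    RelP π R' R := by
  refine ⟨0, -KO B (k.pull W.T), Deg_zero, Deg_neg (Deg_K (Deg_pull _ W.Deg_T)), ?_⟩
  have h1 : R'.om = R'.e.pull W.E - KO Y (R'.r.pull W.T) := rfl
  have h2 : R.om = R.e.pull W.E - KO Y (R.r.pull W.T) := rfl
  rw [h1, h2, hK, he, map_zero, map_neg, pull_comp, K_up]
  abel

/-- relative families and fibre integrals -/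
theorem RelP.P {b : EB 20 Y B} (h : RelP b.B.pi R R') : ∃ z : Om B, Deg 7 z ∧ b.P R.om - b.P R'.om = dO B z := by
  obtain ⟨w, v, h1, h2, h3⟩ := h
  exact ⟨b.P w, b.B.Deg_PI (j := 7) h1, by rw [← map_sub, h3, map_add, b.P_d, b.P_pi, add_zero]⟩

end Pln.Rl

end Pool.Agent.Lib.MP_ccbbf6_gt.K7
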