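import Pool.Agent.Lib.MP_ccbbf6_gt.L5.INTh

/-!
# `κ = 7`, block F, part B1: zero sets of forms, fibre integrals (helper53)

* `Zr X U θ` : the form `θ` vanishes at the points of `U`; `Zr_pull`, `Zr_JX`, `Zr_cutX`, `Zr_SI`, `Zr_PI`;
* `apM`, `JX_ap` : `JX (a + b) = JX a ∘ JX b`;
* `conM` : `(z, x) ↦ (z, (x, c))`.
-/

set_option autoImplicit false
set_option maxSynthPendingDepth 3

open Set Filter Topology MeasureTheory
open scoped TensorProduct ContDiff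

noncomputable section

namespace Pool.Agent.Lib.MP_ccbbf6_gt.K7

open L4 L4.FR L5

variable {X Y Z M G F S B : Space} {k l n N : ℕ} {i j : ℕ}

/-- the form vanishes at the points of `U` -/
def Zr (X : Space) (U : Set X.pt) (θ : Om X) : Prop := ∀ (k : ℕ) (p : X.Plot k) (z : V k), p.1 z ∈ U → ev z (Om.on θ p) = 0

theorem Zr_mono {U U' : Set X.pt} {θ : Om X} (h : Zr X U θ) (h' : U' ⊆ U) : Zr X U' θ := fun k p z hz => h k p z (h' hz)

theorem Zr_pull {U : Set Y.pt} {θ : Om Y} (h : Zr Y U θ) (f : SMap X Y) : Zr X (f.1 ⁻¹' U) (f.pull θ) := fun k p z hz => by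
  rw [on_pull]
  exact h k (f.pl p) z hz

theorem Zr_JX {Θ : Om (X.xV N)} {U : Set X.pt} (h : Zr (X.xV N) {z | z.1 ∈ U} Θ) : Zr X U (JX N X Θ) := fun k p z hz => by
  rw [on_JX, ← Module.forall_dual_apply_eq_zero_iff ℝ]
  intro L
  have h1 : L (ev z (Jn k N (Om.on Θ (p.xV N)))) = L (ev z (Jc k N (pb (scM k N) (Om.on Θ (p.xV N))))) := rfl
  rw [h1, ev_Jc]
  have h2 : ∀ ξ : V N, L (tN k N (ev (Fin.append z ξ) (pb (scM k N) (Om.on Θ (p.xV N))))) = 0 := by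
    intro ξ
    have h3 : ev (scM k N (Fin.append z ξ)) (Om.on Θ (p.xV N)) = 0 := by
      refine h (k + N) (p.xV N) _ ?_
      change p.1 (hdM k N (scM k N (Fin.append z ξ))) ∈ U
      rw [hd_scM, hdM_append]
      exact hz
    rw [ev_pb, h3, map_zero, map_zero, map_zero]
  simp only [h2]
  exact integral_zero _ _

theorem Zr_cutX {Θ : Om (X.xP N)} {U : Set X.pt} (h : Zr (X.xP N) {w | w.1.1 ∈ U} Θ) :
    Zr (X.xV N) {z | z.1 ∈ U} (cutX Θ) := fun k p z hz => by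
  unfold cutX
  rw [ev_ext0, vAt_mul (vU_inj _ _)]
  by_cases h1 : p.1 z ∈ neZ X N
  · obtain ⟨P, hP⟩ := locPl_of (open_neZ X N) p h1
    have h2 : vAt (vU (X.xV N) (neZ X N)) Θ p.1 z = 0 := by
      rw [vAt_eq (vU_inj _ _) _ P hP]
      refine h k P z ?_
      have h3 : (P.1 z).1 = p.1 z := hP.self_of_nhds
      change (P.1 z).1.1 ∈ U
      rw [h3]
      exact hz
    rw [h2, mul_zero]
  · rw [vAt_not (U := neZ X N) Θ h1, mul_zero]

theorem Zr_SI {Θ : Om (X.xP N)} {U : Set X.pt} (h : Zr (X.xP N) {w | w.1.1 ∈ U} Θ) : Zr X U (SI N X Θ) :=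
  Zr_JX (Zr_cutX h)

/-- fibre integrals vanish where the form vanishes on the whole fibre -/
theorem Zr_PI (b : SBun N S B) {θ : Om S} {U : Set S.pt} (h : Zr S U θ) :
    Zr B {x | ∀ s, b.pi.1 s = x → s ∈ U} (b.PI θ) := fun k p z hz => by
  obtain ⟨g, P, hg, hP⟩ := b.lift k p z
  have h1 : p.1 z = b.q.1 (P.1 z) := by
    have h2 : (b.q.pl P).1 z = (p.cmp g).1 z := by rw [hP]
    have h3 : g z = z := hg.self_of_nhds
    have h4 : (p.cmp g).1 z = p.1 (g z) := rfl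
    rw [h4, h3] at h2
    exact h2.symm
  rw [← ev_local _ p z hg, ← hP, ← on_pull, b.q_PI]
  have h5 : Zr (b.F.xP (N + 1)) {w | w.1.1 ∈ {f | ∀ s, b.pi.1 s = b.q.1 f → s ∈ U}} (b.ptm.pull θ) := by
    refine Zr_mono (Zr_pull h b.ptm) fun w hw => ?_
    exact hw (b.ptm.1 w) (b.pi_pt w)
  refine Zr_SI h5 k P z ?_
  intro s hs
  exact hz s (by rw [hs, h1])

/-! ### Iterated fibre integration -/

theorem contDiff_ap {a b : ℕ} {E : Type*} [NormedAddCommGroup E] [NormedSpace ℝ E] {f : E → V a} {g : E → V b}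
    (hf : ContDiff ℝ ∞ f) (hg : ContDiff ℝ ∞ g) : ContDiff ℝ ∞ fun z => (Fin.append (f z) (g z) : V (a + b)) :=
  contDiff_append hf hg

/-- `((z, x), y) ↦ (z, (x, y))` -/
def apM (Z : Space) (a b : ℕ) : SMap ((Z.xV a).xV b) (Z.xV (a + b)) :=
  ⟨fun z => (z.1.1, (Fin.append z.1.2 z.2 : V (a + b))), fun k p => ⟨p.2.1.1, contDiff_append p.2.1.2 p.2.2⟩⟩

/-- `(z, x) ↦ (z, (x, c))` -/
def conM (Z : Space) (N : ℕ) {c : ℝ} (hc : c ≠ 0) : SMap (Z.xV N) (Z.xP (N + 1)) :=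
  ⟨fun z => ⟨(z.1, (Fin.snoc z.2 c : V (N + 1))), fun h => hc (by
      have h1 := congrFun h (Fin.last N)
      change (Fin.snoc z.2 c : V (N + 1)) (Fin.last N) = 0 at h1
      rwa [Fin.snoc_last] at h1)⟩, fun k p =>
    ⟨p.2.1, contDiff_snoc.comp (p.2.2.prodMk contDiff_const)⟩⟩

end Pool.Agent.Lib.MP_ccbbf6_gt.K7
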