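import Mathlib.LinearAlgebra.Matrix.Kronecker
import Mathlib.RingTheory.MatrixAlgebra
import Pool.Agent.Lib.MP_ccbbf6_gt.K7.CHE3
import Pool.Agent.Lib.MP_ccbbf6_gt.K7.FB4
import Pool.Agent.Lib.MP_ccbbf6_gt.K7.FB7

/-!
# `κ = 7`, block F, part B8: the bundle `Y = S(N ⊕ N ⊕ N)` in the coordinates of `Fra` (helper53)

* `LB B j c` : `N ⊕ N ⊕ N → K`, `(x_0, x_1, x_2) ↦ Σ_l B_jl ev_c(x_l)`;
* `ykY` : `YK (fraV ..) (CH.sY hk hN hb)` for an invertible matrix `B` which expands.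
-/

set_option autoImplicit false
set_option maxSynthPendingDepth 3

open Set Filter Topology MeasureTheory Module Matrix
open scoped TensorProduct ContDiff RealInnerProductSpace Kronecker

noncomputable section

namespace Pool.Agent.Lib.MP_ccbbf6_gt.K7

open L4 L4.FR L4.ORI L5 L5.NEG Geo RG CH

variable {n : ℕ} {M : Type} [MetricSpace M] [CompactSpace M] {𝒜 : SDist n M} {N : ℕ} {C : Eu N → Gs M → M}
  {P : Gs M → Eu N →L[ℝ] Eu N}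

/-- `Σ_l B_jl ev_c(x_l)` -/
def LB (𝒜 : SDist n M) (hB : Bl M) (C : Eu N → Gs M → M) (B : Matrix (Fin 3) (Fin 3) ℝ) (j : Fin 3) (c : Gs M) :
    Eu (N + (N + N)) →ₗ[ℝ] Eu n :=
  B j 0 • (evL (𝒜 := 𝒜) hB C c).comp (q0 : Eu (N + (N + N)) →L[ℝ] Eu N).toLinearMap +
    (B j 1 • (evL (𝒜 := 𝒜) hB C c).comp (q1 : Eu (N + (N + N)) →L[ℝ] Eu N).toLinearMap +
      B j 2 • (evL (𝒜 := 𝒜) hB C c).comp (q2 : Eu (N + (N + N)) →L[ℝ] Eu N).toLinearMap)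

variable {hB : Bl M} (B : Matrix (Fin 3) (Fin 3) ℝ)

theorem LB_apply (j : Fin 3) (c : Gs M) (x : Eu (N + (N + N))) : LB 𝒜 hB C B j c x =
    B j 0 • evc 𝒜 hB C c (q0 x) + (B j 1 • evc 𝒜 hB C c (q1 x) + B j 2 • evc 𝒜 hB C c (q2 x)) := rfl

theorem LB_mem (j : Fin 3) (c : Gs M) (x : Eu (N + (N + N))) : LB 𝒜 hB C B j c x ∈ Kc 𝒜 c := by
  rw [LB_apply]
  exact Submodule.add_mem _ (Submodule.smul_mem _ _ (evc_mem hB c _))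
    (Submodule.add_mem _ (Submodule.smul_mem _ _ (evc_mem hB c _)) (Submodule.smul_mem _ _ (evc_mem hB c _)))

theorem LB_j0 (j : Fin 3) (c : Gs M) (x : Eu N) : LB 𝒜 hB C B j c (j0 x) = B j 0 • evc 𝒜 hB C c x := by
  have h0 : evc 𝒜 hB C c 0 = 0 := map_zero (evL (𝒜 := 𝒜) hB C c)
  rw [LB_apply, q0_j0, q1_j0, q2_j0, h0, smul_zero, smul_zero, add_zero, add_zero]

theorem LB_j1 (j : Fin 3) (c : Gs M) (x : Eu N) : LB 𝒜 hB C B j c (j1 x) = B j 1 • evc 𝒜 hB C c x := by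
  have h0 : evc 𝒜 hB C c 0 = 0 := map_zero (evL (𝒜 := 𝒜) hB C c)
  rw [LB_apply, q0_j1, q1_j1, q2_j1, h0, smul_zero, smul_zero, add_zero, zero_add]

theorem LB_j2 (j : Fin 3) (c : Gs M) (x : Eu N) : LB 𝒜 hB C B j c (j2 x) = B j 2 • evc 𝒜 hB C c x := by
  have h0 : evc 𝒜 hB C c 0 = 0 := map_zero (evL (𝒜 := 𝒜) hB C c)
  rw [LB_apply, q0_j2, q1_j2, q2_j2, h0, smul_zero, smul_zero, zero_add, zero_add]

variable (hk : 𝒜.HK 7) (hN : NegData 𝒜 7 hB C P)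

include hk hN in
theorem LB_sm (j : Fin 3) {k : ℕ} (σ : (spG 𝒜).Plot k) {x : V k → Eu (N + (N + N))} {z : V k} (hx : ContDiffAt ℝ ∞ x z) :
    SmV 𝒜 ((σ.1 z).1 0) (fun v => (σ.1 v).1 0) (fun v => LB 𝒜 hB C B j (σ.1 v) (x v)) z := by
  have h : ∀ q : Eu (N + (N + N)) →L[ℝ] Eu N,
      SmV 𝒜 ((σ.1 z).1 0) (fun v => (σ.1 v).1 0) (fun v => evc 𝒜 hB C (σ.1 v) (q (x v))) z := fun q =>
    evc_smooth hB hk hN.fam (σ.2.atP z) (q.contDiff.contDiffAt.comp z hx) (𝒜.mem _)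
  exact SmV.add (SmV.smul (h q0) contDiffAt_const) (SmV.add (SmV.smul (h q1) contDiffAt_const)
    (SmV.smul (h q2) contDiffAt_const))

/-! ### the map `Φ` -/

/-- the geodesic of a point of `Y` -/
def fY (𝒜 : SDist n M) (P : Gs M → Eu N →L[ℝ] Eu N) : SMap (spY 𝒜 P).xR (spG 𝒜) :=
  ⟨fun z => z.1.1.1, fun _ p => p.2.1.1⟩

/-- the sections `s LB_j(x)` -/
def yY (𝒜 : SDist n M) (hB : Bl M) (C : Eu N → Gs M → M) (P : Gs M → Eu N →L[ℝ] Eu N) (B : Matrix (Fin 3) (Fin 3) ℝ)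
    (j : Fin 3) (z : (spY 𝒜 P).xR.pt) : Eu n := z.2 • LB 𝒜 hB C B j z.1.1.1 z.1.1.2

include hk hN in
theorem kY (j : Fin 3) : KSec (fY 𝒜 P) (yY 𝒜 hB C P B j) where
  mem z := Submodule.smul_mem _ _ (LB_mem B j _ _)
  sm p z := SmV.smul (LB_sm B hk hN j ((fY 𝒜 P).pl p) p.2.1.2.contDiffAt) p.2.2.contDiffAt

variable (hL : LocV 𝒜 7) {Ψ : Om (spG 𝒜)} (hΨ : Deg 7 Ψ) (or0 : OrV hB hk hL Ψ) (hκ : 1 ≤ 7)

/-- **`(c, x, s) ↦ (c, nrm (- 3 c + s y0), nrm (3 c + s y1), nrm (- 3 c + s y2))`, `y = B ev_c(x)`** -/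
def ΦY : SMap (spY 𝒜 P).xR (T4 (bV hB hk hL hΨ or0 hκ)) :=
  phi3 hk hL hΨ or0 hκ (kY B hk hN 0) (kY B hk hN 1) (kY B hk hN 2)

variable (hb : KBun (bKo hB hk hL hΨ or0 hκ))

/-! ### the matrix -/

/-- common frames -/
abbrev ZY : Space := fp (bV hB hk hL hΨ or0 hκ).q1 (sY hk hN hb).q

/-- the matrix of `x ↦ (LB_j x)_j` -/
def AY (z : (ZY hk hN hL hΨ or0 hκ hb).pt) : Matrix (Fin (20 + 1)) (Fin (20 + 1)) ℝ := Matrix.of fun i' i =>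
  ⟪z.1.1.1.2 (p37.symm i').2.succ, LB 𝒜 hB C B (p37.symm i').1 z.1.2.1.1 (z.1.2.1.2 i)⟫

/-- the geodesic of a pair of frames -/
theorem ZY_q1 (z : (ZY hk hN hL hΨ or0 hκ hb).pt) : (bV hB hk hL hΨ or0 hκ).q1.1 z.1.1 = z.1.2.1.1 := z.2

theorem ZY_vel (z : (ZY hk hN hL hΨ or0 hκ hb).pt) : 𝒜.vel (z.1.2.1.1).1 0 = z.1.1.1.2 0 := by
  have h := vel_q1 hB hk hL hΨ or0 hκ z.1.1
  rw [ZY_q1] at h
  exact h

theorem ZY_gF (z : (ZY hk hN hL hΨ or0 hκ hb).pt) : (gF hB).1 z.1.2.1.1 = z.1.1.1.1 := by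
  have h : (gF hB).1 ((bV hB hk hL hΨ or0 hκ).q1.1 z.1.1) = z.1.1.1.1 := (bV hB hk hL hΨ or0 hκ).pi_pt _
  rw [ZY_q1] at h
  exact h

theorem cons_tail8 {E : Type} (a : Fin (7 + 1) → E) : (Fin.cons (a 0) (fun i : Fin 7 => a i.succ) : Fin (7 + 1) → E) = a :=
  Fin.cons_self_tail a

/-- the frame of `K` -/
theorem ZY_fr (z : (ZY hk hN hL hΨ or0 hκ hb).pt) : OFr ((bKo hB hk hL hΨ or0 hκ).W z.1.2.1.1) (fun i : Fin 7 => z.1.1.1.2 i.succ) ∧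
    (bKo hB hk hL hΨ or0 hκ).pos z.1.2.1.1 (fun i : Fin 7 => z.1.1.1.2 i.succ) := by
  have h1 : OFr (VF 𝒜 z.1.1.1.1) z.1.1.1.2 := z.1.1.2.1
  have h2 : (bVo hB hk hL hΨ or0).pos z.1.1.1.1 z.1.1.1.2 := z.1.1.2.2
  constructor
  · change OFr (VF 𝒜 ((gF hB).1 z.1.2.1.1) ⊓ (Submodule.span ℝ {𝒜.vel (z.1.2.1.1).1 0})ᗮ) _
    refine (cons_OFr (vel_mem_VF hB _) (vel_norm 𝒜 _) _).1 ?_
    rw [ZY_vel, ZY_gF, cons_tail8]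
    exact h1
  · change (bVo hB hk hL hΨ or0).pos ((gF hB).1 z.1.2.1.1) (Fin.cons (𝒜.vel (z.1.2.1.1).1 0) fun i : Fin 7 => z.1.1.1.2 i.succ)
    rw [ZY_vel, ZY_gF, cons_tail8]
    exact h2

theorem ZY_K (z : (ZY hk hN hL hΨ or0 hκ hb).pt) : OFr (Kc 𝒜 z.1.2.1.1) (fun i : Fin 7 => z.1.1.1.2 i.succ) :=
  hb.ofr (ZY_fr hk hN hL hΨ or0 hκ hb z).1

/-- the vector with coordinates `ξ` -/
def nY (z : (ZY hk hN hL hΨ or0 hκ hb).pt) (ξ : V (20 + 1)) : Eu (N + (N + N)) := ∑ i, ξ i • z.1.2.1.2 i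

theorem AY_mul (z : (ZY hk hN hL hΨ or0 hκ hb).pt) (ξ : V (20 + 1)) (j : Fin 3) (k : Fin 7) :
    (AY B hk hN hL hΨ or0 hκ hb z).mulVec ξ (p37 (j, k)) =
      ⟪z.1.1.1.2 k.succ, LB 𝒜 hB C B j z.1.2.1.1 (nY hk hN hL hΨ or0 hκ hb z ξ)⟫ := by
  have h1 : (AY B hk hN hL hΨ or0 hκ hb z).mulVec ξ (p37 (j, k)) =
      ∑ i, ⟪z.1.1.1.2 (p37.symm (p37 (j, k))).2.succ, LB 𝒜 hB C B (p37.symm (p37 (j, k))).1 z.1.2.1.1 (z.1.2.1.2 i)⟫ * ξ i := rfl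
  rw [h1, nY, map_sum, inner_sum]
  refine Finset.sum_congr rfl fun i _ => ?_
  rw [Equiv.symm_apply_apply, map_smul, real_inner_smul_right, mul_comm]

/-- the components of `B ev(n)` in the frame of `K` -/
theorem AY_exp (z : (ZY hk hN hL hΨ or0 hκ hb).pt) (ξ : V (20 + 1)) (j : Fin 3) :
    LB 𝒜 hB C B j z.1.2.1.1 (nY hk hN hL hΨ or0 hκ hb z ξ) =
      ∑ k : Fin 7, (AY B hk hN hL hΨ or0 hκ hb z).mulVec ξ (p37 (j, k)) • z.1.1.1.2 k.succ := by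
  have h1 := frame_expand (by norm_num) (NEG.finrank_Kc hB hk z.1.2.1.1) (ZY_K hk hN hL hΨ or0 hκ hb z)
    (LB_mem (hB := hB) (C := C) B j z.1.2.1.1 (nY hk hN hL hΨ or0 hκ hb z ξ))
  rw [← h1]
  refine Finset.sum_congr rfl fun k _ => ?_
  rw [AY_mul]

theorem AY_norm (z : (ZY hk hN hL hΨ or0 hκ hb).pt) (ξ : V (20 + 1)) :
    ‖toE ((AY B hk hN hL hΨ or0 hκ hb z).mulVec ξ)‖ ^ 2 =
      ∑ j : Fin 3, ‖LB 𝒜 hB C B j z.1.2.1.1 (nY hk hN hL hΨ or0 hκ hb z ξ)‖ ^ 2 := by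
  rw [tsq, ← p37.sum_comp, Fintype.sum_prod_type]
  refine Finset.sum_congr rfl fun j _ => ?_
  rw [AY_exp, norm_sum_fr (ZY_K hk hN hL hΨ or0 hκ hb z).2, tsq]

theorem nY_norm (z : (ZY hk hN hL hΨ or0 hκ hb).pt) (ξ : V (20 + 1)) : ‖nY hk hN hL hΨ or0 hκ hb z ξ‖ = ‖toE ξ‖ :=
  norm_sum_fr z.1.2.2.1.2 ξ

theorem nY_mem (z : (ZY hk hN hL hΨ or0 hκ hb).pt) (ξ : V (20 + 1)) :
    nY hk hN hL hΨ or0 hκ hb z ξ ∈ W3 (WN P z.1.2.1.1) :=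
  Submodule.sum_mem _ fun i _ => Submodule.smul_mem _ _ (z.1.2.2.1.1 i)

/-- `B` expands -/
def ExpB (𝒜 : SDist n M) (hB : Bl M) (C : Eu N → Gs M → M) (P : Gs M → Eu N →L[ℝ] Eu N) (B : Matrix (Fin 3) (Fin 3) ℝ) : Prop :=
  ∀ (c : Gs M) (x : Eu (N + (N + N))), x ∈ W3 (WN P c) → ‖x‖ ^ 2 ≤ ∑ j : Fin 3, ‖LB 𝒜 hB C B j c x‖ ^ 2

theorem AY_ge (hE : ExpB 𝒜 hB C P B) (z : (ZY hk hN hL hΨ or0 hκ hb).pt) (ξ : V (20 + 1)) :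
    ‖toE ξ‖ ≤ ‖toE ((AY B hk hN hL hΨ or0 hκ hb z).mulVec ξ)‖ := by
  have h1 := hE z.1.2.1.1 _ (nY_mem hk hN hL hΨ or0 hκ hb z ξ)
  rw [nY_norm, ← AY_norm] at h1
  exact (pow_le_pow_iff_left₀ (norm_nonneg _) (norm_nonneg _) two_ne_zero).1 h1

theorem AY_sm : SmM (X := ZY hk hN hL hΨ or0 hκ hb) (AY B hk hN hL hΨ or0 hκ hb) := fun k p i' i => by
  rw [contDiff_iff_contDiffAt]
  intro z
  obtain ⟨σ, hσ⟩ : ∃ σ : (spG 𝒜).Plot k, σ = (sY hk hN hb).q.pl ((fp2 _ _).pl p) := ⟨_, rfl⟩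
  have hσ1 : ∀ v, σ.1 v = (p.1 v).1.2.1.1 := fun v => by rw [hσ]; rfl
  -- the vectors of the frame of `V`
  obtain ⟨h0, h1⟩ := p.2.1
  have h2 := h1 (p37.symm i').2.succ z
  have h3 : SmV 𝒜 ((p.1 z).1.1.1.1.1.1) (fun v => (p.1 v).1.1.1.1.1.1) (fun v => (p.1 v).1.1.1.2 (p37.symm i').2.succ) z := h2
  have h4 : (fun v => (p.1 v).1.1.1.1.1.1) = fun v => (σ.1 v).1 0 := funext fun v => by
    have h5 := ZY_gF hk hN hL hΨ or0 hκ hb (p.1 v)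
    rw [hσ1]
    exact congrArg (fun t : (spF 𝒜).pt => t.1.1) h5.symm
  have h6 : (p.1 z).1.1.1.1.1.1 = (σ.1 z).1 0 := congrFun h4 z
  rw [h4, h6] at h3
  -- the vectors of the frame of `Y`
  have h7 : ContDiffAt ℝ ∞ (fun v => (p.1 v).1.2.1.2 i) z := p.2.2.2 i z
  have h8 := LB_sm (hB := hB) B hk hN (p37.symm i').1 σ h7
  have h9 := SmV.inner (σ.2.atP z |>.ev hB (t := fun _ => 0) contDiffAt_const) (𝒜.mem _) h3 h8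
  have h10 : (fun v => (AY B hk hN hL hΨ or0 hκ hb (p.1 v)) i' i) = fun v =>
      ⟪(p.1 v).1.1.1.2 (p37.symm i').2.succ, LB 𝒜 hB C B (p37.symm i').1 (σ.1 v) ((p.1 v).1.2.1.2 i)⟫ := funext fun v => by
    rw [hσ1]
    rfl
  rw [h10]
  exact h9

/-! ### the determinant -/

/-- the matrix of `ev` -/
theorem fr3_p37 {r : ℕ} (w : Fin 7 → Eu N) (l : Fin 3) (m : Fin 7) (i : Fin (7 + (7 + 7))) (hi : (i : ℕ) = m + 7 * l)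
    (f : Eu (N + (N + N)) →ₗ[ℝ] Eu n) : f (fr3 w i) = (![f (j0 (w m)), f (j1 (w m)), f (j2 (w m))] : Fin 3 → Eu n) l := by
  fin_cases l
  · have h1 : i = e3 7 (Sum.inl m) := Fin.ext (hi.trans (by rw [e3_l]; rfl))
    rw [h1, fr3_l]
    rfl
  · have h1 : i = e3 7 (Sum.inr (Sum.inl m)) := Fin.ext (hi.trans (by rw [e3_m]; exact Nat.add_comm _ _))
    rw [h1, fr3_m]
    rfl
  · have h1 : i = e3 7 (Sum.inr (Sum.inr m)) := Fin.ext (hi.trans (by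
      rw [e3_r]
      change (m : ℕ) + 7 * 2 = 7 + (7 + m)
      omega))
    rw [h1, fr3_r]
    rfl

theorem LB_fr3 (c : Gs M) (w : Fin 7 → Eu N) (j l : Fin 3) (m : Fin 7) (i : Fin (7 + (7 + 7))) (hi : (i : ℕ) = m + 7 * l) :
    LB 𝒜 hB C B j c (fr3 w i) = B j l • evc 𝒜 hB C c (w m) := by
  rw [fr3_p37 (r := 0) w l m i hi, LB_j0, LB_j1, LB_j2]
  fin_cases l <;> rfl

/-- the matrix for a frame `u` of `Y` -/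
def MY (𝒜 : SDist n M) (hB : Bl M) (C : Eu N → Gs M → M) (B : Matrix (Fin 3) (Fin 3) ℝ) (c : Gs M) (a : Fin 7 → Eu n)
    (u : Fin (20 + 1) → Eu (N + (N + N))) : Matrix (Fin (20 + 1)) (Fin (20 + 1)) ℝ := Matrix.of fun i' i =>
  ⟪a (p37.symm i').2, LB 𝒜 hB C B (p37.symm i').1 c (u i)⟫

theorem MY_det (c : Gs M) (a : Fin 7 → Eu n) (w : Fin 7 → Eu N) :
    (MY 𝒜 hB C B c a (fr3 w)).det = B.det ^ 7 * (evm 𝒜 hB C c w a).det ^ 3 := by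
  have h1 : (MY 𝒜 hB C B c a (fr3 w)).submatrix p37 p37 = B ⊗ₖ (evm 𝒜 hB C c w a)ᵀ := by
    ext ⟨j, k⟩ ⟨l, m⟩
    have h2 : LB 𝒜 hB C B j c (fr3 w (p37 (l, m))) = B j l • evc 𝒜 hB C c (w m) :=
      LB_fr3 B c w j l m (p37 (l, m)) (p37_val l m)
    have h3 : (MY 𝒜 hB C B c a (fr3 w)).submatrix p37 p37 (j, k) (l, m) =
        ⟪a (p37.symm (p37 (j, k))).2, LB 𝒜 hB C B (p37.symm (p37 (j, k))).1 c (fr3 w (p37 (l, m)))⟫ := rfl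
    have h4 : (B ⊗ₖ (evm 𝒜 hB C c w a)ᵀ) (j, k) (l, m) = B j l * ⟪evc 𝒜 hB C c (w m), a k⟫ := rfl
    rw [h3, h4, Equiv.symm_apply_apply, h2, real_inner_smul_right, real_inner_comm]
  rw [← Matrix.det_submatrix_equiv_self p37, h1, Matrix.det_kronecker, Matrix.det_transpose, Fintype.card_fin,
    Fintype.card_fin]

theorem MY_mul (c : Gs M) (a : Fin 7 → Eu n) {W : Submodule ℝ (Eu (N + (N + N)))} (hW : finrank ℝ W = 20 + 1)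
    {u u' : Fin (20 + 1) → Eu (N + (N + N))} (hu : OFr W u) (hu' : ∀ i, u' i ∈ W) :
    MY 𝒜 hB C B c a u' = MY 𝒜 hB C B c a u * Gm u u' := by
  ext i' i
  rw [Matrix.mul_apply]
  have h1 := frame_expand (by norm_num) hW hu (hu' i)
  change ⟪a (p37.symm i').2, LB 𝒜 hB C B (p37.symm i').1 c (u' i)⟫ =
    ∑ m, ⟪a (p37.symm i').2, LB 𝒜 hB C B (p37.symm i').1 c (u m)⟫ * ⟪u m, u' i⟫
  conv_lhs => rw [← h1]
  rw [map_sum, inner_sum]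
  refine Finset.sum_congr rfl fun m _ => ?_
  rw [map_smul, real_inner_smul_right, mul_comm]

theorem AY_det (z : (ZY hk hN hL hΨ or0 hκ hb).pt) : ∃ e : ℝ, 0 < e ∧
    (AY B hk hN hL hΨ or0 hκ hb z).det = B.det ^ 7 * e ^ 3 := by
  obtain ⟨hfr, w0, hw0, hp0, hd⟩ := z.1.2.2
  have h1 := ZY_fr hk hN hL hΨ or0 hκ hb z
  have h2 : 0 < (evm 𝒜 hB C z.1.2.1.1 w0 (fun i : Fin 7 => z.1.1.1.2 i.succ)).det :=
    (posN_iff z7 hk hb (hb.ofr h1.1) h1.2).1 hp0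
  refine ⟨_, h2, ?_⟩
  have h3 : AY B hk hN hL hΨ or0 hκ hb z = MY 𝒜 hB C B z.1.2.1.1 (fun i : Fin 7 => z.1.1.1.2 i.succ) z.1.2.1.2 := rfl
  have h4 := MY_mul (𝒜 := 𝒜) (hB := hB) (C := C) B z.1.2.1.1 (fun i : Fin 7 => z.1.1.1.2 i.succ)
    (finrank_W3 (finrank_WN hN z.1.2.1.1)) (OFr_fr3 hw0) hfr.1
  have h5 : (Gm (fr3 w0) z.1.2.1.2).det = 1 := by
    rw [Gm_det_comm]
    exact hd
  rw [h3, h4, Matrix.det_mul, h5, mul_one, MY_det]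

theorem AY_pos {s : ℝ} (hs : 0 < s * B.det) (z : (ZY hk hN hL hΨ or0 hκ hb).pt) :
    0 < s * (AY B hk hN hL hΨ or0 hκ hb z).det := by
  obtain ⟨e, he, h1⟩ := AY_det B hk hN hL hΨ or0 hκ hb z
  have hB0 : B.det ≠ 0 := fun h => by
    rw [h, mul_zero] at hs
    exact lt_irrefl _ hs
  have h2 : s * (B.det ^ 7 * e ^ 3) = s * B.det * ((B.det ^ 2) ^ 3 * e ^ 3) := by ring
  rw [h1, h2]
  have h3 : 0 < B.det ^ 2 := by positivity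
  positivity

/-! ### common frames exist locally -/

theorem LL_ZY : LLift ((bV hB hk hL hΨ or0 hκ).q1.comp (fp1 (bV hB hk hL hΨ or0 hκ).q1 (sY hk hN hb).q)) := by
  intro k p z
  obtain ⟨h1, P1, e1, k1⟩ := (bV hB hk hL hΨ or0 hκ).lift1 k p z
  obtain ⟨h2, P2, e2, k2⟩ := (sY hk hN hb).lift k ((bV hB hk hL hΨ or0 hκ).q1.pl P1) z
  refine ⟨h1.comp h2, ⟨fun v => ⟨((P1.cmp h2).1 v, P2.1 v), (congrFun (congrArg Subtype.val k2) v).symm⟩,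
    (P1.cmp h2).2, P2.2⟩, ?_, ?_⟩
  · filter_upwards [e1, e2] with y hy1 hy2
    have h3 : (h1.comp h2) y = h1 (h2 y) := rfl
    rw [h3, hy2, hy1]
  · exact Plot_ext fun v => congrFun (congrArg Subtype.val k1) (h2 v)

/-! ### the structure -/

theorem ptm_sY (u : (sY hk hN hb).F.pt) (ξ : V (20 + 1)) (hξ : ξ ≠ 0) :
    ((sY hk hN hb).ptm.1 ⟨(u, ξ), hξ⟩).1 = (u.1.1, ‖toE ξ‖⁻¹ • ∑ i, ξ i • u.1.2 i) := rfl

theorem ΦY_coord (z : (ZY hk hN hL hΨ or0 hκ hb).pt) (ξ : V (20 + 1)) (hξ : ξ ≠ 0) (s : ℝ) :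
    (ΦY B hk hN hL hΨ or0 hκ).1 ((sY hk hN hb).ptm.1 ⟨(z.1.2, ξ), hξ⟩, s) =
      (fraV hB hk hL hΨ or0 hκ).ΦZ.1 (z.1.1, (s * ‖toE ξ‖⁻¹) • (AY B hk hN hL hΨ or0 hκ hb z).mulVec ξ) := by
  obtain ⟨x, hx⟩ : ∃ x : (spY 𝒜 P).xR.pt, x = ((sY hk hN hb).ptm.1 ⟨(z.1.2, ξ), hξ⟩, s) := ⟨_, rfl⟩
  have hf : (fY 𝒜 P).1 x = (bV hB hk hL hΨ or0 hκ).q1.1 z.1.1 := by
    rw [hx]
    exact (ZY_q1 hk hN hL hΨ or0 hκ hb z).symm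
  rw [← hx]
  refine phi3_ΦZ (y := fun j => yY 𝒜 hB C P B j) hk hL hΨ or0 hκ (kY B hk hN 0) (kY B hk hN 1) (kY B hk hN 2) x z.1.1
    hf _ fun j => ?_
  rw [hx]
  change s • LB 𝒜 hB C B j z.1.2.1.1 (‖toE ξ‖⁻¹ • nY hk hN hL hΨ or0 hκ hb z ξ) = _
  rw [map_smul, AY_exp, smul_smul, Finset.smul_sum]
  exact Finset.sum_congr rfl fun k _ => smul_smul _ _ _

/-- the frame of `V` -/
def gZY : SMap (ZY hk hN hL hΨ or0 hκ hb) (fraV hB hk hL hΨ or0 hκ).Z := fp1 (bV hB hk hL hΨ or0 hκ).q1 (sY hk hN hb).q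

/-- the frame of `Y` -/
def sZY : SMap (ZY hk hN hL hΨ or0 hκ hb) (sY hk hN hb).F := fp2 (bV hB hk hL hΨ or0 hκ).q1 (sY hk hN hb).q

theorem gZY_1 (z : (ZY hk hN hL hΨ or0 hκ hb).pt) : (gZY hk hN hL hΨ or0 hκ hb).1 z = z.1.1 := rfl

theorem sZY_1 (z : (ZY hk hN hL hΨ or0 hκ hb).pt) : (sZY hk hN hL hΨ or0 hκ hb).1 z = z.1.2 := rfl

theorem ΦY_ZY (z : (ZY hk hN hL hΨ or0 hκ hb).pt) (ξ : V (20 + 1)) (hξ : ξ ≠ 0) (s : ℝ) :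
    (ΦY B hk hN hL hΨ or0 hκ).1 ((sY hk hN hb).ptm.1 ⟨((sZY hk hN hL hΨ or0 hκ hb).1 z, ξ), hξ⟩, s) =
      (fraV hB hk hL hΨ or0 hκ).ΦZ.1 ((gZY hk hN hL hΨ or0 hκ hb).1 z,
        (s * ‖toE ξ‖⁻¹) • (AY B hk hN hL hΨ or0 hκ hb z).mulVec ξ) := by
  have h := ΦY_coord B hk hN hL hΨ or0 hκ hb z ξ hξ s
  rw [← gZY_1 hk hN hL hΨ or0 hκ hb z, ← sZY_1 hk hN hL hΨ or0 hκ hb z] at h
  exact h

/-- **the bundle `Y` in the coordinates of `Fra`** -/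
def ykY (hE : ExpB 𝒜 hB C P B) {s : ℝ} (hs : s = 1 ∨ s = -1) (hd : 0 < s * B.det) :
    YK (fraV hB hk hL hΨ or0 hκ) (sY hk hN hb) where
  Z := ZY hk hN hL hΨ or0 hκ hb
  g := gZY hk hN hL hΨ or0 hκ hb
  hg := LL_ZY hk hN hL hΨ or0 hκ hb
  ψ := sZY hk hN hL hΨ or0 hκ hb
  hψ z := z.2.symm
  A := AY B hk hN hL hΨ or0 hκ hb
  hA := AY_sm B hk hN hL hΨ or0 hκ hb
  hA1 := AY_ge B hk hN hL hΨ or0 hκ hb hE
  sA := s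
  hsA := hs
  hdA := AY_pos B hk hN hL hΨ or0 hκ hb hd
  Φ := ΦY B hk hN hL hΨ or0 hκ
  hΦ := ΦY_ZY B hk hN hL hΨ or0 hκ hb

theorem ykY_Φ (hE : ExpB 𝒜 hB C P B) {s : ℝ} (hs : s = 1 ∨ s = -1) (hd : 0 < s * B.det) :
    (ykY B hk hN hL hΨ or0 hκ hb hE hs hd).Φ = ΦY B hk hN hL hΨ or0 hκ := rfl

end Pool.Agent.Lib.MP_ccbbf6_gt.K7
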