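import Pool.Agent.Lib.MP_ccbbf6_gt.K7.FA2

/-!
# `κ = 7`, block F-C, file FC1: comparison of forms modulo exact forms and forms of the base (helper28)

* `PE pB a b` : `a - b = d w + pB^* v`.
* `PE.sq` : Stokes on the square: `K_s (t = 1) ~ K_s (t = 0) + K_t (s = 1)` if the side `s = 0` factors through `pB`.
* `PE.path` : paths in a space with a primitive.
* `K_jt` : integrals over pieces of a path.
-/

set_option autoImplicit false
set_option maxSynthPendingDepth 3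

open Set Filter Topology MeasureTheory
open scoped TensorProduct ContDiff

noncomputable section

namespace Pool.Agent.Lib.MP_ccbbf6_gt.K7.FC

open L4 L4.FR L5

variable {X Y Y' Z B B' Λ S : Space} {k l n : ℕ}

/-- equality up to exact forms and forms of the base -/
def PE (pB : SMap Y B) (a b : Om Y) : Prop := ∃ (w : Om Y) (v : Om B), Deg 27 w ∧ Deg 28 v ∧ a - b = dO Y w + pB.pull v

variable {pB : SMap Y B} {a b c a' b' : Om Y}

theorem PE.refl (pB : SMap Y B) (a : Om Y) : PE pB a a := ⟨0, 0, Deg_zero, Deg_zero, by rw [map_zero, map_zero, sub_self, add_zero]⟩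

theorem PE.of_eq (pB : SMap Y B) (h : a = b) : PE pB a b := h ▸ PE.refl pB a

theorem PE.exact {w : Om Y} (hw : Deg 27 w) (h : a - b = dO Y w) : PE pB a b :=
  ⟨w, 0, hw, Deg_zero, by rw [map_zero, add_zero, h]⟩

theorem PE.symm (h : PE pB a b) : PE pB b a := by
  obtain ⟨w, v, h1, h2, h3⟩ := h
  exact ⟨-w, -v, Deg_neg h1, Deg_neg h2, by rw [map_neg, map_neg, ← neg_add, ← h3]; abel⟩

theorem PE.add (h : PE pB a b) (h' : PE pB a' b') : PE pB (a + a') (b + b') := by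
  obtain ⟨w, v, h1, h2, h3⟩ := h
  obtain ⟨w', v', h4, h5, h6⟩ := h'
  refine ⟨w + w', v + v', Deg_add h1 h4, Deg_add h2 h5, ?_⟩
  have e : a + a' - (b + b') = (a - b) + (a' - b') := by abel
  rw [e, h3, h6, map_add, map_add]
  abel

theorem PE.neg (h : PE pB a b) : PE pB (-a) (-b) := by
  obtain ⟨w, v, h1, h2, h3⟩ := h
  refine ⟨-w, -v, Deg_neg h1, Deg_neg h2, ?_⟩
  have e : -a - -b = -(a - b) := by abel
  rw [e, h3, map_neg, map_neg]
  abel

theorem PE.sub (h : PE pB a b) (h' : PE pB a' b') : PE pB (a - a') (b - b') := by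
  rw [sub_eq_add_neg, sub_eq_add_neg]
  exact h.add h'.neg

theorem PE.trans (h : PE pB a b) (h' : PE pB b c) : PE pB a c := by
  have h1 := h.add h'
  obtain ⟨w, v, k1, k2, k3⟩ := h1
  refine ⟨w, v, k1, k2, ?_⟩
  rw [← k3]
  abel

theorem relP_iff {M : Space} {u : Om M} {W : Pln M u} {R R' : W.Rl Y} : Pln.Rl.RelP pB R R' ↔ PE pB R.om R'.om := Iff.rfl

/-- **Stokes on a square**: `Q ((y, s), t)` -/
theorem PE.sq {T : Om Λ} (dT : dO Λ T = 0) (DT : Deg 29 T) (Q : SMap Y.xR.xR Λ) (k : SMap B.xR Λ)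
    (hk : ∀ y t, Q.1 ((y, 0), t) = k.1 (pB.1 y, t)) :
    PE pB (KO Y ((Q.comp (jO Y.xR 1)).pull T))
      (KO Y ((Q.comp (jO Y.xR 0)).pull T) + KO Y ((Q.comp (jO Y 1).up).pull T)) := by
  obtain ⟨ψ, hψ⟩ : ∃ ψ, ψ = KO Y.xR (Q.pull T) := ⟨_, rfl⟩
  have h1 := d_K (Q.pull T)
  rw [pull_d, dT, map_zero, map_zero, add_zero, ← hψ, ← pull_comp, ← pull_comp] at h1
  have h2 := d_K ψ
  have h3 : (jO Y 1).pull ψ = KO Y ((Q.comp (jO Y 1).up).pull T) := by
    rw [hψ, ← K_up, ← pull_comp]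
  have h4 : (jO Y 0).pull ψ = pB.pull (KO B (k.pull T)) := by
    have e : Q.comp (jO Y 0).up = k.comp pB.up := SMap_ext fun z => hk z.1 z.2
    rw [hψ, ← K_up, ← pull_comp, e, pull_comp, K_up]
  rw [h1, h3, h4, map_sub] at h2
  have D1 : Deg 28 ψ := by
    rw [hψ]
    exact Deg_K (Deg_pull _ DT)
  refine ⟨-KO Y ψ, -KO B (k.pull T), Deg_neg (Deg_K D1), Deg_neg (Deg_K (Deg_pull _ DT)), ?_⟩
  have h5 : KO Y ((Q.comp (jO Y.xR 1)).pull T) = KO Y ((Q.comp (jO Y 1).up).pull T) - pB.pull (KO B (k.pull T)) +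
      KO Y ((Q.comp (jO Y.xR 0)).pull T) - dO Y (KO Y ψ) := by
    rw [← h2]
    abel
  rw [h5, map_neg, map_neg]
  abel

/-- **paths in a space with a primitive** -/
theorem PE.path (pB : SMap Y B) {T : Om Λ} {i : SMap S Λ} {E : Om S} (dE : dO S E = i.pull T) (DE : Deg 28 E)
    (σ : SMap Y.xR S) : PE pB ((σ.comp (jO Y 1)).pull E) ((σ.comp (jO Y 0)).pull E + KO Y ((i.comp σ).pull T)) := by
  have h1 := d_K (σ.pull E)
  rw [pull_d, dE, ← pull_comp, ← pull_comp, ← pull_comp] at h1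
  refine PE.exact (w := KO Y (σ.pull E)) (Deg_K (Deg_pull _ DE)) ?_
  have h2 : (σ.comp (jO Y 1)).pull E = dO Y (KO Y (σ.pull E)) + KO Y ((i.comp σ).pull T) + (σ.comp (jO Y 0)).pull E := by
    rw [h1]
    abel
  rw [h2]
  abel

/-- homotopies of forms with primitive data: `b` is a form on `Y × R` whose differential comes from the base -/
theorem PE.hom {a : Om Y.xR} (Da : Deg 28 a) {v : Om B.xR} (Dv : Deg 29 v) (h : dO _ a = pB.up.pull v) :
    PE pB ((jO Y 1).pull a) ((jO Y 0).pull a) := by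
  have h1 := d_K a
  rw [h, K_up] at h1
  exact ⟨KO Y a, KO B v, Deg_K Da, Deg_K Dv, h1.symm⟩

/-- pull back by bundle maps -/
theorem PE.pull (h : PE pB a b) {g : SMap Y' Y} {pB' : SMap Y' B'} {g' : SMap B' B} (hg : pB.comp g = g'.comp pB') :
    PE pB' (g.pull a) (g.pull b) := by
  obtain ⟨w, v, h1, h2, h3⟩ := h
  refine ⟨g.pull w, g'.pull v, Deg_pull _ h1, Deg_pull _ h2, ?_⟩
  rw [← map_sub, h3, map_add, pull_d, ← pull_comp, ← pull_comp, hg]

/-- integrals over a reparametrised path, with values -/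
theorem K_re {φ : ℝ → ℝ} (hφ : ContDiff ℝ ∞ φ) (F : SMap Y.xR Λ) (T : Om Λ) :
    KO Y ((F.comp (Rph Y hφ)).pull T) = Jt Y (φ 1) (F.pull T) - Jt Y (φ 0) (F.pull T) := by
  rw [pull_comp]
  exact K_time hφ _

end Pool.Agent.Lib.MP_ccbbf6_gt.K7.FC
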