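import Pool.Agent.Lib.MP_ccbbf6_gt.K7.FC1
import Pool.Agent.Lib.MP_ccbbf6_gt.K7.SU3

/-!
# `κ = 7`, block F-C, file FC2: the forms of short 8-gons (helper28)

`T` is a closed form of degree 29 on the space of loops, `E` a primitive on the short loops.
* `kap T N` : the integral of `T` over `N` Birkhoff steps.
* `IsB x b` : `b` is the form of the family `x` of 8-gons which becomes short after finitely many steps; unique up to exact forms.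
* `exists_isB` : it exists if the energy is at most `2 π² - ε`.
* `exists_F` : the whole path of `SU3` with the value of its integral.
-/

set_option autoImplicit false
set_option maxSynthPendingDepth 3
set_option linter.unusedSectionVars false

open Set Filter Topology Metric Real Module
open scoped ContDiff RealInnerProductSpace

noncomputable section

namespace Pool.Agent.Lib.MP_ccbbf6_gt.K7.FC

open Geo L4 L4.ORI L4.FR L5 K7 HQ SU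

variable {n : ℕ} {M : Type} [MetricSpace M] [CompactSpace M] {𝒜 : SDist n M} {d δ : ℝ} {X Y Z B : Space}

/-- the polygon of an 8-gon, as a loop -/
def pg (𝒜 : SDist n M) (hB : Bl M) (hd : 0 < d) : SMap (spX8 𝒜 d) (spO 𝒜) := (iOd 𝒜 d).comp (plg8 hB hd)

/-- one Birkhoff step as a path of loops -/
def stp (𝒜 : SDist n M) (hB : Bl M) (hd : 0 < d) : SMap (spX8 𝒜 d).xR (spO 𝒜) := (pg 𝒜 hB hd).comp (bH8 hB hd)

theorem stp_zero (hB : Bl M) (hd : 0 < d) : (stp 𝒜 hB hd).comp (jO _ 0) = pg 𝒜 hB hd := by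
  have h := bH8_zero (𝒜 := 𝒜) hB hd
  exact congrArg (fun f : SMap (spX8 𝒜 d) (spX8 𝒜 d) => (pg 𝒜 hB hd).comp f) h

theorem stp_one (hB : Bl M) (hd : 0 < d) : (stp 𝒜 hB hd).comp (jO _ 1) = (pg 𝒜 hB hd).comp (bM8 hB hd) := rfl

/-- the integral over `N` steps -/
def kap (hB : Bl M) (hd : 0 < d) (T : Om (spO 𝒜)) : ℕ → Om (spX8 𝒜 d)
  | 0 => 0
  | N + 1 => kap hB hd T N + (itM (bM8 hB hd) N).pull (KO _ ((stp 𝒜 hB hd).pull T))

theorem Deg_kap (hB : Bl M) (hd : 0 < d) {T : Om (spO 𝒜)} (DT : Deg 29 T) (N : ℕ) : Deg 28 (kap hB hd T N) := by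
  induction N with
  | zero => exact Deg_zero
  | succ N ih => exact Deg_add ih (Deg_pull _ (Deg_K (Deg_pull _ DT)))

theorem d_kap (hB : Bl M) (hd : 0 < d) {T : Om (spO 𝒜)} (dT : dO _ T = 0) (N : ℕ) :
    dO _ (kap hB hd T N) = (itM (bM8 hB hd) N).pull ((pg 𝒜 hB hd).pull T) - (pg 𝒜 hB hd).pull T := by
  induction N with
  | zero => exact (map_zero _).trans (sub_self _).symm
  | succ N ih =>
    have h1 := d_K ((stp 𝒜 hB hd).pull T)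
    rw [pull_d, dT, map_zero, map_zero, add_zero, ← pull_comp, ← pull_comp, stp_zero, stp_one] at h1
    have h2 : (itM (bM8 (𝒜 := 𝒜) hB hd) (N + 1)) = (bM8 hB hd).comp (itM (bM8 hB hd) N) := rfl
    have h3 : kap hB hd T (N + 1) = kap hB hd T N + (itM (bM8 hB hd) N).pull (KO _ ((stp 𝒜 hB hd).pull T)) := rfl
    rw [h3, map_add, ih, pull_d, h1, map_sub, h2, pull_comp, pull_comp]
    abel

theorem itM_add (hB : Bl M) (hd : 0 < d) (N j : ℕ) :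
    itM (bM8 (𝒜 := 𝒜) hB hd) (N + j) = (itM (bM8 hB hd) j).comp (itM (bM8 hB hd) N) := by
  induction j with
  | zero => rfl
  | succ j ih =>
    have h2 : itM (bM8 (𝒜 := 𝒜) hB hd) (N + (j + 1)) = (bM8 hB hd).comp (itM (bM8 hB hd) (N + j)) := rfl
    rw [h2, ih]
    rfl

theorem kap_add (hB : Bl M) (hd : 0 < d) (T : Om (spO 𝒜)) (N j : ℕ) :
    kap hB hd T (N + j) = kap hB hd T N + (itM (bM8 hB hd) N).pull (kap hB hd T j) := by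
  induction j with
  | zero =>
    have h : kap hB hd T 0 = 0 := rfl
    rw [h, map_zero, add_zero, add_zero]
  | succ j ih =>
    have h3 : kap hB hd T (N + (j + 1)) = kap hB hd T (N + j) +
      (itM (bM8 hB hd) (N + j)).pull (KO _ ((stp 𝒜 hB hd).pull T)) := rfl
    have h4 : kap hB hd T (j + 1) = kap hB hd T j + (itM (bM8 hB hd) j).pull (KO _ ((stp 𝒜 hB hd).pull T)) := rfl
    rw [h3, h4, ih, itM_add, map_add, pull_comp, add_assoc]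

/-! ### short 8-gons -/

/-- the loop of a short 8-gon -/
def sg (𝒜 : SDist n M) (δ : ℝ) (hB : Bl M) (hd : 0 < d) : SMap (spX8q 𝒜 d δ) (spL 𝒜 δ) := (jOq 𝒜 d δ).comp (plgq hB hd)

theorem iL_sg (hB : Bl M) (hd : 0 < d) : (iL 𝒜 δ).comp (sg 𝒜 δ hB hd) = (pg 𝒜 hB hd).comp (iXq 𝒜 d δ) := by
  have h1 : (iL 𝒜 δ).comp (sg 𝒜 δ hB hd) = ((iL 𝒜 δ).comp (jOq 𝒜 d δ)).comp (plgq hB hd) := rfl
  rw [h1, iL_jOq]
  rfl

theorem q_step (hB : Bl M) (hd : 0 < d) {T : Om (spO 𝒜)} {E : Om (spL 𝒜 δ)} (dE : dO _ E = (iL 𝒜 δ).pull T)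
    (DE : Deg 28 E) : ∃ w : Om (spX8q 𝒜 d δ), Deg 27 w ∧
      (bMq hB hd).pull ((sg 𝒜 δ hB hd).pull E) - (sg 𝒜 δ hB hd).pull E =
        dO _ w + (iXq 𝒜 d δ).pull (KO _ ((stp 𝒜 hB hd).pull T)) := by
  obtain ⟨σ, hσ⟩ : ∃ σ : SMap (spX8q 𝒜 d δ).xR (spL 𝒜 δ), σ = (sg 𝒜 δ hB hd).comp (bHq hB hd) := ⟨_, rfl⟩
  have h1 := d_K (σ.pull E)
  have e1 : σ.comp (jO _ 1) = (sg 𝒜 δ hB hd).comp (bMq hB hd) := by rw [hσ]; rfl
  have e0 : σ.comp (jO _ 0) = sg 𝒜 δ hB hd := by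
    have h := bHq_zero (𝒜 := 𝒜) (δ := δ) hB hd
    rw [hσ]
    exact congrArg (fun f : SMap (spX8q 𝒜 d δ) (spX8q 𝒜 d δ) => (sg 𝒜 δ hB hd).comp f) h
  have e2 : (iL 𝒜 δ).comp σ = (stp 𝒜 hB hd).comp (iXq 𝒜 d δ).up := by
    have h2 : (iL 𝒜 δ).comp σ = ((iL 𝒜 δ).comp (sg 𝒜 δ hB hd)).comp (bHq hB hd) := by rw [hσ]; rfl
    rw [h2, iL_sg]
    rfl
  rw [pull_d, dE, ← pull_comp, ← pull_comp, ← pull_comp, e0, e1, e2, pull_comp, K_up] at h1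
  refine ⟨KO _ (σ.pull E), Deg_K (Deg_pull _ DE), ?_⟩
  rw [← pull_comp]
  exact h1.symm

theorem iXq_itM (hB : Bl M) (hd : 0 < d) (j : ℕ) :
    (iXq 𝒜 d δ).comp (itM (bMq hB hd) j) = (itM (bM8 hB hd) j).comp (iXq 𝒜 d δ) := by
  induction j with
  | zero => rfl
  | succ j ih =>
    have h2 : (iXq 𝒜 d δ).comp (itM (bMq hB hd) (j + 1)) = (bM8 hB hd).comp ((iXq 𝒜 d δ).comp (itM (bMq hB hd) j)) := rfl
    rw [h2, ih]
    rfl

theorem q_steps (hB : Bl M) (hd : 0 < d) {T : Om (spO 𝒜)} {E : Om (spL 𝒜 δ)} (dE : dO _ E = (iL 𝒜 δ).pull T)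
    (DE : Deg 28 E) (j : ℕ) : ∃ w : Om (spX8q 𝒜 d δ), Deg 27 w ∧
      (itM (bMq hB hd) j).pull ((sg 𝒜 δ hB hd).pull E) - (sg 𝒜 δ hB hd).pull E =
        dO _ w + (iXq 𝒜 d δ).pull (kap hB hd T j) := by
  induction j with
  | zero => exact ⟨0, Deg_zero, by
      have h : kap hB hd T 0 = 0 := rfl
      rw [h, map_zero, map_zero, add_zero]
      exact sub_self _⟩
  | succ j ih =>
    obtain ⟨w, hw, h1⟩ := ih
    obtain ⟨w', hw', h2⟩ := q_step (δ := δ) hB hd dE DE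
    refine ⟨w + (itM (bMq hB hd) j).pull w', Deg_add hw (Deg_pull _ hw'), ?_⟩
    have h3 : itM (bMq (𝒜 := 𝒜) (δ := δ) hB hd) (j + 1) = (bMq hB hd).comp (itM (bMq hB hd) j) := rfl
    have h4 : kap hB hd T (j + 1) = kap hB hd T j + (itM (bM8 hB hd) j).pull (KO _ ((stp 𝒜 hB hd).pull T)) := rfl
    have h5 : (bMq hB hd).pull ((sg 𝒜 δ hB hd).pull E) =
        dO _ w' + (iXq 𝒜 d δ).pull (KO _ ((stp 𝒜 hB hd).pull T)) + (sg 𝒜 δ hB hd).pull E := by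
      rw [← h2]
      abel
    have h6 : (itM (bMq hB hd) j).pull ((sg 𝒜 δ hB hd).pull E) =
        dO _ w + (iXq 𝒜 d δ).pull (kap hB hd T j) + (sg 𝒜 δ hB hd).pull E := by
      rw [← h1]
      abel
    have h7 : (itM (bMq hB hd) j).pull ((iXq 𝒜 d δ).pull (KO _ ((stp 𝒜 hB hd).pull T))) =
        (iXq 𝒜 d δ).pull ((itM (bM8 hB hd) j).pull (KO _ ((stp 𝒜 hB hd).pull T))) := by
      rw [← pull_comp, ← pull_comp, iXq_itM]
    rw [h3, pull_comp, h5, map_add, map_add, h6, h4, map_add, map_add, h7, ← pull_d]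
    abel

/-- **the form of a family of 8-gons of small energy** -/
def IsB (hB : Bl M) (hd : 0 < d) (T : Om (spO 𝒜)) (E : Om (spL 𝒜 δ)) (x : SMap Z (spX8 𝒜 d)) (b : Om Z) : Prop :=
  ∃ (N : ℕ) (x' : SMap Z (spX8q 𝒜 d δ)), (iXq 𝒜 d δ).comp x' = (itM (bM8 hB hd) N).comp x ∧
    b = x'.pull ((sg 𝒜 δ hB hd).pull E) - x.pull (kap hB hd T N)

variable {hB : Bl M} {hd : 0 < d} {T : Om (spO 𝒜)} {E : Om (spL 𝒜 δ)} {x : SMap Z (spX8 𝒜 d)} {b b' : Om Z}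

theorem IsB.deg (h : IsB hB hd T E x b) (DT : Deg 29 T) (DE : Deg 28 E) : Deg 28 b := by
  obtain ⟨N, x', h1, rfl⟩ := h
  exact Deg_sub (Deg_pull _ (Deg_pull _ DE)) (Deg_pull _ (Deg_kap hB hd DT N))

theorem IsB.dO_eq (h : IsB hB hd T E x b) (dT : dO _ T = 0) (dE : dO _ E = (iL 𝒜 δ).pull T) :
    dO Z b = x.pull ((pg 𝒜 hB hd).pull T) := by
  obtain ⟨N, x', h1, rfl⟩ := h
  have h2 : x'.pull ((sg 𝒜 δ hB hd).pull ((iL 𝒜 δ).pull T)) = x.pull ((itM (bM8 hB hd) N).pull ((pg 𝒜 hB hd).pull T)) := by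
    have e1 : x'.pull ((sg 𝒜 δ hB hd).pull ((iL 𝒜 δ).pull T)) = x'.pull (((iL 𝒜 δ).comp (sg 𝒜 δ hB hd)).pull T) := rfl
    have e2 : x'.pull (((pg 𝒜 hB hd).comp (iXq 𝒜 d δ)).pull T) = ((iXq 𝒜 d δ).comp x').pull ((pg 𝒜 hB hd).pull T) := rfl
    rw [e1, iL_sg, e2, h1]
    rfl
  rw [map_sub, pull_d, pull_d, pull_d, dE, d_kap hB hd dT, map_sub, h2]
  abel

theorem IsB.pull (h : IsB hB hd T E x b) (f : SMap X Z) : IsB hB hd T E (x.comp f) (f.pull b) := by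
  obtain ⟨N, x', h1, rfl⟩ := h
  refine ⟨N, x'.comp f, ?_, ?_⟩
  · have h2 := congrArg (fun g : SMap Z (spX8 𝒜 d) => g.comp f) h1
    exact h2
  · rw [map_sub]
    rfl

theorem IsB.uniq_aux {N j : ℕ} {x' x'' : SMap Z (spX8q 𝒜 d δ)} (h1 : (iXq 𝒜 d δ).comp x' = (itM (bM8 hB hd) N).comp x)
    (h2 : (iXq 𝒜 d δ).comp x'' = (itM (bM8 hB hd) (N + j)).comp x) (dE : dO _ E = (iL 𝒜 δ).pull T) (DE : Deg 28 E) :
    ∃ w : Om Z, Deg 27 w ∧ (x''.pull ((sg 𝒜 δ hB hd).pull E) - x.pull (kap hB hd T (N + j))) -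
      (x'.pull ((sg 𝒜 δ hB hd).pull E) - x.pull (kap hB hd T N)) = dO Z w := by
  obtain ⟨w, hw, h3⟩ := q_steps (δ := δ) hB hd dE DE j
  have h4 : x'' = (itM (bMq hB hd) j).comp x' := by
    have h5 : (iXq 𝒜 d δ).comp x'' = (iXq 𝒜 d δ).comp ((itM (bMq hB hd) j).comp x') := by
      have h6 : (iXq 𝒜 d δ).comp ((itM (bMq hB hd) j).comp x') = ((iXq 𝒜 d δ).comp (itM (bMq hB hd) j)).comp x' := rfl
      have h7 : ((itM (bM8 hB hd) j).comp (iXq 𝒜 d δ)).comp x' = (itM (bM8 hB hd) j).comp ((iXq 𝒜 d δ).comp x') := rfl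
      rw [h6, iXq_itM, h7, h1, h2, itM_add]
      rfl
    refine SMap_ext fun z => Subtype.ext ?_
    have h8 := congrArg (fun g : SMap Z (spX8 𝒜 d) => (g.1 z).1) h5
    exact h8
  refine ⟨x'.pull w, Deg_pull _ hw, ?_⟩
  have h9 : (itM (bMq hB hd) j).pull ((sg 𝒜 δ hB hd).pull E) =
      dO _ w + (iXq 𝒜 d δ).pull (kap hB hd T j) + (sg 𝒜 δ hB hd).pull E := by
    rw [← h3]
    abel
  have h10 : x.pull ((itM (bM8 hB hd) N).pull (kap hB hd T j)) = x'.pull ((iXq 𝒜 d δ).pull (kap hB hd T j)) := by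
    rw [← pull_comp, ← pull_comp, h1]
  rw [h4, pull_comp, h9, kap_add, map_add, map_add, map_add, h10, ← pull_d]
  abel

/-- **uniqueness** -/
theorem IsB.uniq (h : IsB hB hd T E x b) (h' : IsB hB hd T E x b') (dE : dO _ E = (iL 𝒜 δ).pull T) (DE : Deg 28 E) :
    ∃ w : Om Z, Deg 27 w ∧ b - b' = dO Z w := by
  obtain ⟨N, x', h1, rfl⟩ := h
  obtain ⟨N', x'', h2, rfl⟩ := h'
  rcases le_total N N' with hN | hN
  · obtain ⟨j, rfl⟩ := Nat.exists_eq_add_of_le hN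
    obtain ⟨w, hw, h3⟩ := IsB.uniq_aux (T := T) h1 h2 dE DE
    exact ⟨-w, Deg_neg hw, by rw [map_neg, ← h3]; abel⟩
  · obtain ⟨j, rfl⟩ := Nat.exists_eq_add_of_le hN
    exact IsB.uniq_aux (T := T) h2 h1 dE DE

theorem IsB.pe {pB : SMap Z B} (h : IsB hB hd T E x b) (h' : IsB hB hd T E x b') (dE : dO _ E = (iL 𝒜 δ).pull T)
    (DE : Deg 28 E) : PE pB b b' := by
  obtain ⟨w, hw, h1⟩ := h.uniq h' dE DE
  exact PE.exact hw h1

/-- **existence** -/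
theorem exists_isB (hB : Bl M) (hd : 0 < d) (hδ : δ < π / 2) (T : Om (spO 𝒜)) (E : Om (spL 𝒜 δ)) (x : SMap Z (spX8 𝒜 d))
    {ε : ℝ} (hε : 0 < ε) (h : ∀ z, E8 (x.1 z).1 ≤ 2 * π ^ 2 - ε) : ∃ b, IsB hB hd T E x b := by
  obtain ⟨N, hN⟩ := iter8 𝒜 hB hd hδ hε
  refine ⟨_, N, ⟨fun z => ⟨((itM (bM8 hB hd) N).1 (x.1 z)).1, ((itM (bM8 hB hd) N).1 (x.1 z)).2, fun i => ?_⟩,
    fun k p => ((itM (bM8 hB hd) N).comp x).2 k p⟩, rfl, rfl⟩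
  rw [itM_bM8]
  exact hN _ (x.1 z).2 (h z) i

/-- the path of `N` steps and its integral -/
theorem exists_Bh' (𝒜 : SDist n M) (hB : Bl M) (hd : 0 < d) (N : ℕ) : ∃ F : SMap (spX8 𝒜 d).xR (spO 𝒜),
    (∀ x, F.1 (x, 0) = (pg 𝒜 hB hd).1 x) ∧ (∀ x, F.1 (x, 1) = (pg 𝒜 hB hd).1 ((itM (bM8 hB hd) N).1 x)) ∧
      ∀ T : Om (spO 𝒜), KO _ (F.pull T) = kap hB hd T N := by
  induction N with
  | zero =>
    refine ⟨(pg 𝒜 hB hd).comp (pO _), fun _ => rfl, fun _ => rfl, fun T => ?_⟩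
    rw [pull_comp, K_p]
    rfl
  | succ N ih =>
    obtain ⟨F, h0, h1, h2⟩ := ih
    obtain ⟨G, hG⟩ : ∃ G : SMap (spX8 𝒜 d).xR (spO 𝒜), G = (stp 𝒜 hB hd).comp (itM (bM8 hB hd) N).up := ⟨_, rfl⟩
    have g0 : ∀ x, G.1 (x, 0) = (pg 𝒜 hB hd).1 ((itM (bM8 hB hd) N).1 x) := fun x => by
      have h3 := congrArg (fun f : SMap (spX8 𝒜 d) (spO 𝒜) => f.1 ((itM (bM8 hB hd) N).1 x)) (stp_zero (𝒜 := 𝒜) hB hd)
      rw [hG]
      exact h3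
    have hc : ∀ x, F.1 (x, 1) = G.1 (x, 0) := fun x => by rw [h1, g0]
    refine ⟨catO F G hc, fun x => by rw [catO_zero, h0], fun x => ?_, fun T => ?_⟩
    · rw [catO_one, hG]
      rfl
    · rw [K_catO, h2, hG, pull_comp, K_up]
      rfl

/-- the whole path: rotation, time change, chords, steps -/
theorem exists_F (𝒜 : SDist n M) (hB : Bl M) (hd : 0 < d) : ∃ P3 : SMap (spOd 𝒜 d).xR (spO 𝒜),
    (∀ c, P3.1 (c, 0) = (iOd 𝒜 d).1 c) ∧ (∀ c, P3.1 (c, 1) = (pg 𝒜 hB hd).1 ((smp8 𝒜 d).1 ((rotE 𝒜 d).1 c))) ∧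
    ∀ N : ℕ, ∃ F : SMap (spOd 𝒜 d).xR (spO 𝒜), (∀ c, F.1 (c, 0) = (iOd 𝒜 d).1 c) ∧
      (∀ c, F.1 (c, 1) = (pg 𝒜 hB hd).1 ((itM (bM8 hB hd) N).1 ((smp8 𝒜 d).1 ((rotE 𝒜 d).1 c)))) ∧
      ∀ T : Om (spO 𝒜), KO _ (F.pull T) = KO _ (P3.pull T) + ((smp8 𝒜 d).comp (rotE 𝒜 d)).pull (kap hB hd T N) := by
  obtain ⟨P3, a0, a1⟩ := exists_hom8 (𝒜 := 𝒜) hB hd 0
  refine ⟨P3, a0, fun c => a1 c, fun N => ?_⟩
  obtain ⟨F, f0, f1, f2⟩ := exists_Bh' 𝒜 hB hd N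
  obtain ⟨G, hG⟩ : ∃ G : SMap (spOd 𝒜 d).xR (spO 𝒜), G = F.comp ((smp8 𝒜 d).comp (rotE 𝒜 d)).up := ⟨_, rfl⟩
  have hc : ∀ c, P3.1 (c, 1) = G.1 (c, 0) := fun c => by
    rw [a1, hG]
    exact (f0 _).symm
  refine ⟨catO P3 G hc, fun c => by rw [catO_zero, a0], fun c => ?_, fun T => ?_⟩
  · rw [catO_one, hG]
    exact f1 _
  · rw [K_catO, hG, pull_comp, K_up, f2]

end Pool.Agent.Lib.MP_ccbbf6_gt.K7.FC
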