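import Pool.Agent.Lib.MP_ccbbf6_gt.K7.FC2

/-!
# `κ = 7`, block F-C, file FC4: families of 8-gons, shrinking and homotopies (helper28)

For a family `g : Y × R → 8-gons` with end of small energy and a form `b` of the end (`IsB`): `om8 g b = b - ∫ (polygons)^* T`.
* `shrink` : `s ↦ s0 s` if the energy is small on `[s0, 1]`.
* `homG` : homotopies whose start factors through the base.
-/

set_option autoImplicit false
set_option maxSynthPendingDepth 3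
set_option linter.unusedSectionVars false

open Set Filter Topology Metric Real Module
open scoped ContDiff RealInnerProductSpace

noncomputable section

namespace Pool.Agent.Lib.MP_ccbbf6_gt.K7.FC

open Geo L4 L4.ORI L4.FR L5 K7 HQ SU

variable {n : ℕ} {M : Type} [MetricSpace M] [CompactSpace M] {𝒜 : SDist n M} {d δ : ℝ} {X Y Z B : Space}

/-- the form of a family of 8-gons -/
def om8 (hB : Bl M) (hd : 0 < d) (T : Om (spO 𝒜)) (g : SMap Y.xR (spX8 𝒜 d)) (b : Om Y) : Om Y :=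
  b - KO Y (((pg 𝒜 hB hd).comp g).pull T)

variable {pB : SMap Y B} {hB : Bl M} {hd : 0 < d} {T : Om (spO 𝒜)} {E : Om (spL 𝒜 δ)}

theorem om8_uniq {g : SMap Y.xR (spX8 𝒜 d)} {x : SMap Y (spX8 𝒜 d)} {b b' : Om Y} (h : IsB hB hd T E x b)
    (h' : IsB hB hd T E x b') (dE : dO _ E = (iL 𝒜 δ).pull T) (DE : Deg 28 E) :
    PE pB (om8 hB hd T g b) (om8 hB hd T g b') := (h.pe h' dE DE).sub (PE.refl pB _)

/-- the family with rescaled parameter -/
def rs (g : SMap Y.xR X) (a : ℝ) : SMap Y.xR X := g.comp (Rph Y (contDiff_mulc a))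

theorem rs_apply (g : SMap Y.xR X) (a : ℝ) (y : Y.pt) (s : ℝ) : (rs g a).1 (y, s) = g.1 (y, s * a) := rfl

theorem rs_one (g : SMap Y.xR X) (a : ℝ) : (rs g a).comp (jO Y 1) = g.comp (jO Y a) := SMap_ext fun y => by
  show g.1 (y, 1 * a) = g.1 (y, a)
  rw [one_mul]

/-- **shrinking** -/
theorem shrink (dT : dO _ T = 0) (DT : Deg 29 T) (dE : dO _ E = (iL 𝒜 δ).pull T) (DE : Deg 28 E) (hδ : δ < π / 2)
    {g : SMap Y.xR (spX8 𝒜 d)} {a ε : ℝ} (hε : 0 < ε) (ha : a ≤ 1)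
    (h : ∀ y s, a ≤ s → s ≤ 1 → E8 (g.1 (y, s)).1 ≤ 2 * π ^ 2 - ε) {b b' : Om Y}
    (hb : IsB hB hd T E (g.comp (jO Y 1)) b) (hb' : IsB hB hd T E ((rs g a).comp (jO Y 1)) b') :
    PE pB (om8 hB hd T g b) (om8 hB hd T (rs g a) b') := by
  obtain ⟨φ, hφd⟩ : ∃ φ : ℝ → ℝ, φ = fun t => a + (1 - a) * Real.smoothTransition t := ⟨_, rfl⟩
  have hφ : ContDiff ℝ ∞ φ := by rw [hφd]; exact contDiff_const.add (contDiff_const.mul Real.smoothTransition.contDiff)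
  have φ0 : φ 0 = a := by rw [hφd]; simp only [Real.smoothTransition.zero, mul_zero, add_zero]
  have φ1 : φ 1 = 1 := by
    rw [hφd]
    simp only [Real.smoothTransition.one, mul_one]
    ring
  have φa : ∀ t, a ≤ φ t := fun t => by
    rw [hφd]
    have := mul_nonneg (show 0 ≤ 1 - a by linarith) (Real.smoothTransition.nonneg t)
    linarith
  have φb : ∀ t, φ t ≤ 1 := fun t => by
    rw [hφd]
    have := mul_le_mul_of_nonneg_left (Real.smoothTransition.le_one t) (show 0 ≤ 1 - a by linarith)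
    linarith
  obtain ⟨x, hx⟩ : ∃ x : SMap Y.xR (spX8 𝒜 d), x = g.comp (Rph Y hφ) := ⟨_, rfl⟩
  obtain ⟨β, hβ⟩ := exists_isB hB hd hδ T E x hε fun z => by
    rw [hx]
    exact h z.1 _ (φa z.2) (φb z.2)
  have h1 := d_K β
  have e1 : x.comp (jO Y 1) = g.comp (jO Y 1) := SMap_ext fun y => by
    rw [hx]
    show g.1 (y, φ 1) = g.1 (y, 1)
    rw [φ1]
  have e0 : x.comp (jO Y 0) = (rs g a).comp (jO Y 1) := SMap_ext fun y => by
    rw [hx]
    show g.1 (y, φ 0) = g.1 (y, 1 * a)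
    rw [φ0, one_mul]
  have b1 := (hβ.pull (jO Y 1))
  have b0 := (hβ.pull (jO Y 0))
  rw [e1] at b1
  rw [e0] at b0
  rw [hβ.dO_eq dT dE, ← pull_comp, hx] at h1
  have e2 : (pg 𝒜 hB hd).comp (g.comp (Rph Y hφ)) = ((pg 𝒜 hB hd).comp g).comp (Rph Y hφ) := rfl
  have e3 : (pg 𝒜 hB hd).comp (rs g a) = ((pg 𝒜 hB hd).comp g).comp (Rph Y (contDiff_mulc a)) := rfl
  rw [e2, K_re, φ0, φ1, Jt_one] at h1
  have h2 : PE pB (om8 hB hd T g ((jO Y 1).pull β)) (om8 hB hd T (rs g a) ((jO Y 0).pull β)) := by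
    refine PE.exact (w := KO Y β) (Deg_K (hβ.deg DT DE)) ?_
    unfold om8
    rw [e3, K_re, one_mul, zero_mul, Jt_zero, sub_zero]
    have h3 : (jO Y 1).pull β = dO Y (KO Y β) + (KO Y (((pg 𝒜 hB hd).comp g).pull T) -
        Jt Y a (((pg 𝒜 hB hd).comp g).pull T)) + (jO Y 0).pull β := by
      rw [h1]
      abel
    rw [h3]
    abel
  exact ((om8_uniq hb b1 dE DE).trans h2).trans (om8_uniq b0 hb' dE DE)

/-- **homotopies** -/
theorem homG (dT : dO _ T = 0) (DT : Deg 29 T) (dE : dO _ E = (iL 𝒜 δ).pull T) (DE : Deg 28 E) (hδ : δ < π / 2)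
    {G : SMap Y.xR.xR (spX8 𝒜 d)} (k : SMap B.xR (spX8 𝒜 d)) {ε : ℝ} (hε : 0 < ε)
    (hk : ∀ y t, G.1 ((y, t), 0) = k.1 (pB.1 y, t)) (h : ∀ z, E8 (G.1 (z, 1)).1 ≤ 2 * π ^ 2 - ε)
    {g0 g1 : SMap Y.xR (spX8 𝒜 d)} (h0 : ∀ y s, G.1 ((y, 0), s) = g0.1 (y, s)) (h1 : ∀ y s, G.1 ((y, 1), s) = g1.1 (y, s))
    {b0 b1 : Om Y} (hb0 : IsB hB hd T E (g0.comp (jO Y 1)) b0) (hb1 : IsB hB hd T E (g1.comp (jO Y 1)) b1) :
    PE pB (om8 hB hd T g1 b1) (om8 hB hd T g0 b0) := by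
  obtain ⟨β, hβ⟩ := exists_isB hB hd hδ T E (G.comp (jO Y.xR 1)) hε h
  obtain ⟨w, hw⟩ : ∃ w : Om Y.xR, w = β - KO _ (((pg 𝒜 hB hd).comp G).pull T) := ⟨_, rfl⟩
  have Dw : Deg 28 w := by
    rw [hw]
    exact Deg_sub (hβ.deg DT DE) (Deg_K (Deg_pull _ DT))
  have dw : dO _ w = pB.up.pull (((pg 𝒜 hB hd).comp k).pull T) := by
    have k1 := d_K (((pg 𝒜 hB hd).comp G).pull T)
    rw [pull_d, dT, map_zero, map_zero, add_zero, ← pull_comp, ← pull_comp] at k1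
    have k2 : ((pg 𝒜 hB hd).comp G).comp (jO Y.xR 0) = ((pg 𝒜 hB hd).comp k).comp pB.up :=
      SMap_ext fun z => congrArg (pg 𝒜 hB hd).1 (hk z.1 z.2)
    have k3 : (((pg 𝒜 hB hd).comp G).comp (jO Y.xR 1)).pull T = (G.comp (jO Y.xR 1)).pull ((pg 𝒜 hB hd).pull T) := rfl
    have k4 : (((pg 𝒜 hB hd).comp k).comp pB.up).pull T = pB.up.pull (((pg 𝒜 hB hd).comp k).pull T) := rfl
    rw [hw, map_sub, hβ.dO_eq dT dE, k1, k2, k3, k4]
    abel
  have h2 := PE.hom Dw (Deg_pull _ DT) dw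
  have e1 : G.comp (jO Y 1).up = g1 := SMap_ext fun z => h1 z.1 z.2
  have e0 : G.comp (jO Y 0).up = g0 := SMap_ext fun z => h0 z.1 z.2
  have c1 := hβ.pull (jO Y 1)
  have c0 := hβ.pull (jO Y 0)
  have f1 : (G.comp (jO Y.xR 1)).comp (jO Y 1) = g1.comp (jO Y 1) := by rw [← e1]; rfl
  have f0 : (G.comp (jO Y.xR 1)).comp (jO Y 0) = g0.comp (jO Y 1) := by rw [← e0]; rfl
  rw [f1] at c1
  rw [f0] at c0
  have m1 : (jO Y 1).pull w = om8 hB hd T g1 ((jO Y 1).pull β) := by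
    rw [hw, map_sub, ← K_up, ← pull_comp]
    have m2 : ((pg 𝒜 hB hd).comp G).comp (jO Y 1).up = (pg 𝒜 hB hd).comp g1 := by rw [← e1]; rfl
    rw [m2]
    rfl
  have m0 : (jO Y 0).pull w = om8 hB hd T g0 ((jO Y 0).pull β) := by
    rw [hw, map_sub, ← K_up, ← pull_comp]
    have m2 : ((pg 𝒜 hB hd).comp G).comp (jO Y 0).up = (pg 𝒜 hB hd).comp g0 := by rw [← e0]; rfl
    rw [m2]
    rfl
  rw [m1, m0] at h2
  exact ((om8_uniq hb1 c1 dE DE).trans h2).trans (om8_uniq c0 hb0 dE DE)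

end Pool.Agent.Lib.MP_ccbbf6_gt.K7.FC
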