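import Pool.Agent.Lib.MP_ccbbf6_gt.L4.SM2

/-!
# `κ = 7`, block FL (the smooth filling with control of the length), part 1: seminorm estimates for the embedding (helper18)

`exists_sn` : for `μ > 0` there are `ε₀ > 0`, `K` such that for every `y : M` there is a seminorm `N` on the ambient space with
`N ≤ K ‖·‖`, `dist (r u) (r v) ≤ N (u - v)` for `u, v` near `i y`, `N (i a - i b) ≤ (1 + μ) dist a b` for `a, b` near `y`.
-/

set_option autoImplicit false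
set_option linter.unusedSectionVars false

open Set Filter Topology Metric Real
open scoped ContDiff RealInnerProductSpace

noncomputable section

namespace Pool.Agent.Lib.MP_ccbbf6_gt.K7.FL

open Geo L4

/-- seminorms with a bound -/
structure SN {F : Type*} [NormedAddCommGroup F] [NormedSpace ℝ F] (N : F → ℝ) (K : ℝ) : Prop where
  add : ∀ x y, N (x + y) ≤ N x + N y
  smul : ∀ (t : ℝ) x, N (t • x) = |t| * N x
  bd : ∀ x, N x ≤ K * ‖x‖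

variable {n : ℕ} {M : Type*} [MetricSpace M] {𝒜 : SDist n M}

/-- the good pairs of radii -/
def GoodN (e : Emb n 𝒜) (μ K ρ : ℝ) (y : M) : Prop :=
  ∃ N : EuclideanSpace ℝ (Fin e.q) → ℝ, SN N K ∧
    (∀ u v, ‖u - e.i y‖ < ρ → ‖v - e.i y‖ < ρ → dist (e.r u) (e.r v) ≤ N (u - v)) ∧
    ∀ a b, dist a y < ρ → dist b y < ρ → N (e.i a - e.i b) ≤ (1 + μ) * dist a b

/-- the local statement -/
theorem exists_local [CompactSpace M] (e : Emb n 𝒜) {μ : ℝ} (hμ : 0 < μ) (p : M) : ∃ K, 0 ≤ K ∧ ∃ ρ, 0 < ρ ∧ GoodN e μ K ρ p := by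
  -- the derivatives
  obtain ⟨Ih, hIh⟩ : ∃ Ih : Eu n → EuclideanSpace ℝ (Fin e.q), Ih = fun u => e.i ((𝒜.ψ p).symm u) := ⟨_, rfl⟩
  obtain ⟨Rh, hRh⟩ : ∃ Rh : EuclideanSpace ℝ (Fin e.q) → Eu n, Rh = fun z => 𝒜.ψ p (e.r z) := ⟨_, rfl⟩
  have hri : e.r (e.i p) = p := e.left p
  have hIs : ContDiffAt ℝ ∞ Ih 0 := by rw [hIh]; exact e.smooth_i p
  have hRs : ContDiffAt ℝ ∞ Rh (e.i p) := by
    have h := (e.smooth_r (e.i p) (e.mem p)).2
    rw [hri] at h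
    rw [hRh]
    exact h
  have hI0 : Ih 0 = e.i p := by rw [hIh]; show e.i ((𝒜.ψ p).symm 0) = e.i p; rw [symm_zero']
  obtain ⟨J, hJ⟩ : ∃ J, J = fderiv ℝ Ih 0 := ⟨_, rfl⟩
  obtain ⟨A, hA⟩ : ∃ A, A = fderiv ℝ Rh (e.i p) := ⟨_, rfl⟩
  have hI' : HasStrictFDerivAt Ih J 0 := by rw [hJ]; exact hIs.hasStrictFDerivAt (by simp)
  have hR' : HasStrictFDerivAt Rh A (e.i p) := by rw [hA]; exact hRs.hasStrictFDerivAt (by simp)
  have hAJ : ∀ w, A (J w) = w := by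
    have h1 : HasFDerivAt (fun u => Rh (Ih u)) (A.comp J) 0 := by
      have h2 : HasFDerivAt Rh A (Ih 0) := by rw [hI0]; exact hR'.hasFDerivAt
      exact h2.comp 0 hI'.hasFDerivAt
    have h2 : (fun u => Rh (Ih u)) =ᶠ[𝓝 0] fun u => u := by
      have h3 : (0 : Eu n) ∈ (𝒜.ψ p).target := by
        have := (𝒜.ψ p).map_source (𝒜.mem p)
        rwa [𝒜.zero p] at this
      filter_upwards [(𝒜.ψ p).open_target.mem_nhds h3] with u hu
      rw [hIh, hRh]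
      show 𝒜.ψ p (e.r (e.i ((𝒜.ψ p).symm u))) = u
      rw [e.left, (𝒜.ψ p).right_inv hu]
    have h3 : HasFDerivAt (fun u => Rh (Ih u)) (ContinuousLinearMap.id ℝ (Eu n)) 0 :=
      (hasFDerivAt_id (𝕜 := ℝ) (0 : Eu n)).congr_of_eventuallyEq h2
    have h4 := h1.unique h3
    intro w
    exact congrArg (fun L : Eu n →L[ℝ] Eu n => L w) h4
  -- the constants
  obtain ⟨ε, hε, hε8, hεμ⟩ : ∃ ε : ℝ, 0 < ε ∧ ε ≤ 1 / 8 ∧ ε ≤ μ / 4 :=
    ⟨min (1 / 8) (μ / 4), lt_min (by norm_num) (by linarith), min_le_left _ _, min_le_right _ _⟩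
  obtain ⟨ν2, hν2, hν2A⟩ : ∃ ν : ℝ, 0 < ν ∧ ‖A‖ * ν ≤ ε / 2 := by
    refine ⟨ε / (2 * (‖A‖ + 1)), by positivity, ?_⟩
    have h1 : 0 < ‖A‖ + 1 := by positivity
    rw [mul_div_assoc', div_le_div_iff₀ (by positivity) (by norm_num)]
    linarith
  obtain ⟨ν1, hν1, hν1J⟩ : ∃ ν : ℝ, 0 < ν ∧ ν * (‖J‖ + ν2) ≤ ε / 2 := by
    refine ⟨ε / (2 * (‖J‖ + ν2 + 1)), by positivity, ?_⟩
    have h1 : 0 < ‖J‖ + ν2 + 1 := by positivity
    rw [div_mul_eq_mul_div, div_le_div_iff₀ (by positivity) (by norm_num)]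
    linarith
  -- the seminorm
  obtain ⟨N, hN⟩ : ∃ N : EuclideanSpace ℝ (Fin e.q) → ℝ, N = fun w => (1 + ε) * (‖A w‖ + ν1 * ‖w‖) := ⟨_, rfl⟩
  have hSN : SN N ((1 + ε) * (‖A‖ + ν1)) := by
    refine ⟨fun x y => ?_, fun t x => ?_, fun x => ?_⟩
    · rw [hN]
      show (1 + ε) * (‖A (x + y)‖ + ν1 * ‖x + y‖) ≤ (1 + ε) * (‖A x‖ + ν1 * ‖x‖) + (1 + ε) * (‖A y‖ + ν1 * ‖y‖)
      have h1 : ‖A (x + y)‖ ≤ ‖A x‖ + ‖A y‖ := by rw [map_add]; exact norm_add_le _ _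
      have h2 := mul_le_mul_of_nonneg_left (norm_add_le x y) hν1.le
      have h3 := mul_le_mul_of_nonneg_left (add_le_add h1 h2) (show 0 ≤ 1 + ε by linarith)
      linarith
    · rw [hN]
      show (1 + ε) * (‖A (t • x)‖ + ν1 * ‖t • x‖) = |t| * ((1 + ε) * (‖A x‖ + ν1 * ‖x‖))
      rw [map_smul, norm_smul, norm_smul, Real.norm_eq_abs]
      ring
    · rw [hN]
      show (1 + ε) * (‖A x‖ + ν1 * ‖x‖) ≤ (1 + ε) * (‖A‖ + ν1) * ‖x‖
      have h1 := mul_le_mul_of_nonneg_left (A.le_opNorm x) (show 0 ≤ 1 + ε by linarith)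
      linarith
  refine ⟨(1 + ε) * (‖A‖ + ν1), by positivity, ?_⟩
  -- eventually statements
  have eR : ∀ᶠ z : EuclideanSpace ℝ (Fin e.q) × EuclideanSpace ℝ (Fin e.q) in 𝓝 (e.i p, e.i p),
      dist (e.r z.1) (e.r z.2) ≤ N (z.1 - z.2) := by
    have hrc : ContinuousAt e.r (e.i p) := (e.smooth_r (e.i p) (e.mem p)).1
    have h1 : ∀ᶠ z : EuclideanSpace ℝ (Fin e.q) × EuclideanSpace ℝ (Fin e.q) in 𝓝 (e.i p, e.i p),
        e.r z.1 ∈ (𝒜.ψ p).source ∧ e.r z.2 ∈ (𝒜.ψ p).source := by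
      have h2 : ∀ᶠ u in 𝓝 (e.i p), e.r u ∈ (𝒜.ψ p).source := by
        refine hrc.eventually ?_
        rw [hri]
        exact (𝒜.ψ p).open_source.mem_nhds (𝒜.mem p)
      exact ((continuous_fst.tendsto (e.i p, e.i p)).eventually h2).and ((continuous_snd.tendsto (e.i p, e.i p)).eventually h2)
    have h3 : Tendsto (fun z : EuclideanSpace ℝ (Fin e.q) × EuclideanSpace ℝ (Fin e.q) => (Rh z.1, Rh z.2))
        (𝓝 (e.i p, e.i p)) (𝓝 ((0 : Eu n), (0 : Eu n))) := by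
      have h4 : Tendsto Rh (𝓝 (e.i p)) (𝓝 0) := by
        have h5 := hRs.continuousAt.tendsto
        have h6 : Rh (e.i p) = 0 := by
          rw [hRh]
          show 𝒜.ψ p (e.r (e.i p)) = 0
          rw [hri, 𝒜.zero]
        rwa [h6] at h5
      rw [nhds_prod_eq, nhds_prod_eq]
      exact h4.prodMap h4
    have h4 := h3.eventually (𝒜.metric p ε hε)
    have h5 : ∀ᶠ z : EuclideanSpace ℝ (Fin e.q) × EuclideanSpace ℝ (Fin e.q) in 𝓝 (e.i p, e.i p),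
        ‖Rh z.1 - Rh z.2 - A (z.1 - z.2)‖ ≤ ν1 * ‖z.1 - z.2‖ := hR'.isLittleO.def hν1
    filter_upwards [h1, h4, h5] with z z1 z2 z3
    have e1 : (𝒜.ψ p).symm (Rh z.1) = e.r z.1 := by rw [hRh]; exact (𝒜.ψ p).left_inv z1.1
    have e2 : (𝒜.ψ p).symm (Rh z.2) = e.r z.2 := by rw [hRh]; exact (𝒜.ψ p).left_inv z1.2
    simp only [e1, e2] at z2
    have z4 := (abs_le.1 z2).2
    have z5 : ‖Rh z.1 - Rh z.2‖ ≤ ‖A (z.1 - z.2)‖ + ν1 * ‖z.1 - z.2‖ := by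
      have h6 := norm_le_norm_add_norm_sub' (Rh z.1 - Rh z.2) (A (z.1 - z.2))
      linarith
    rw [hN]
    show dist (e.r z.1) (e.r z.2) ≤ (1 + ε) * (‖A (z.1 - z.2)‖ + ν1 * ‖z.1 - z.2‖)
    have z6 := mul_le_mul_of_nonneg_left z5 (show 0 ≤ 1 + ε by linarith)
    linarith
  have eI : ∀ᶠ z : M × M in 𝓝 (p, p), N (e.i z.1 - e.i z.2) ≤ (1 + μ) * dist z.1 z.2 := by
    have h1 : ∀ᶠ z : M × M in 𝓝 (p, p), z.1 ∈ (𝒜.ψ p).source ∧ z.2 ∈ (𝒜.ψ p).source := by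
      have h2 : ∀ᶠ u in 𝓝 p, u ∈ (𝒜.ψ p).source := (𝒜.ψ p).open_source.mem_nhds (𝒜.mem p)
      exact ((continuous_fst.tendsto (p, p)).eventually h2).and ((continuous_snd.tendsto (p, p)).eventually h2)
    have h3 : Tendsto (fun z : M × M => (𝒜.ψ p z.1, 𝒜.ψ p z.2)) (𝓝 (p, p)) (𝓝 ((0 : Eu n), (0 : Eu n))) := by
      have h4 : Tendsto (𝒜.ψ p) (𝓝 p) (𝓝 0) := by
        have h5 := ((𝒜.ψ p).continuousAt (𝒜.mem p)).tendsto
        rwa [𝒜.zero] at h5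
      rw [nhds_prod_eq, nhds_prod_eq]
      exact h4.prodMap h4
    have h4 := h3.eventually (𝒜.metric p ε hε)
    have h5 := h3.eventually (hI'.isLittleO.def hν2)
    filter_upwards [h1, h4, h5] with z z1 z2 z3
    simp only [(𝒜.ψ p).left_inv z1.1, (𝒜.ψ p).left_inv z1.2] at z2
    obtain ⟨α, hα⟩ : ∃ α, α = 𝒜.ψ p z.1 := ⟨_, rfl⟩
    obtain ⟨β, hβ⟩ : ∃ β, β = 𝒜.ψ p z.2 := ⟨_, rfl⟩
    have e1 : Ih α = e.i z.1 := by rw [hIh, hα]; exact congrArg e.i ((𝒜.ψ p).left_inv z1.1)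
    have e2 : Ih β = e.i z.2 := by rw [hIh, hβ]; exact congrArg e.i ((𝒜.ψ p).left_inv z1.2)
    simp only [← hα, ← hβ, e1, e2] at z2 z3
    -- the two norms
    have w1 : ‖e.i z.1 - e.i z.2‖ ≤ (‖J‖ + ν2) * ‖α - β‖ := by
      have h6 := norm_le_norm_add_norm_sub' (e.i z.1 - e.i z.2) (J (α - β))
      have h7 := J.le_opNorm (α - β)
      linarith
    have w2 : ‖A (e.i z.1 - e.i z.2)‖ ≤ (1 + ‖A‖ * ν2) * ‖α - β‖ := by
      have h6 : A (e.i z.1 - e.i z.2) = (α - β) + A (e.i z.1 - e.i z.2 - J (α - β)) := by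
        rw [map_sub A (e.i z.1 - e.i z.2), hAJ]
        abel
      rw [h6]
      refine (norm_add_le _ _).trans ?_
      have h7 := A.le_opNorm (e.i z.1 - e.i z.2 - J (α - β))
      have h8 := mul_le_mul_of_nonneg_left z3 (norm_nonneg A)
      linarith
    have w3 : (1 - ε) * ‖α - β‖ ≤ dist z.1 z.2 := by
      have := (abs_le.1 z2).1
      linarith
    rw [hN]
    show (1 + ε) * (‖A (e.i z.1 - e.i z.2)‖ + ν1 * ‖e.i z.1 - e.i z.2‖) ≤ (1 + μ) * dist z.1 z.2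
    have w4 : ‖A (e.i z.1 - e.i z.2)‖ + ν1 * ‖e.i z.1 - e.i z.2‖ ≤ (1 + ε) * ‖α - β‖ := by
      have h6 := mul_le_mul_of_nonneg_left w1 hν1.le
      have h7 : (‖A‖ * ν2) * ‖α - β‖ ≤ ε / 2 * ‖α - β‖ := mul_le_mul_of_nonneg_right hν2A (norm_nonneg _)
      have h8 : (ν1 * (‖J‖ + ν2)) * ‖α - β‖ ≤ ε / 2 * ‖α - β‖ := mul_le_mul_of_nonneg_right hν1J (norm_nonneg _)
      linarith
    have w5 : (1 + ε) * (1 + ε) ≤ (1 + μ) * (1 - ε) := by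
      have a1 := mul_le_mul_of_nonneg_left hε8 hε.le
      have a2 := mul_le_mul_of_nonneg_left hε8 hμ.le
      linarith
    have w6 : (1 + ε) * ((1 + ε) * ‖α - β‖) ≤ (1 + μ) * ((1 - ε) * ‖α - β‖) := by
      have := mul_le_mul_of_nonneg_right w5 (norm_nonneg (α - β))
      linarith
    have w7 := mul_le_mul_of_nonneg_left w4 (show 0 ≤ 1 + ε by linarith)
    have w8 := mul_le_mul_of_nonneg_left w3 (show 0 ≤ 1 + μ by linarith)
    linarith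
  rw [Metric.eventually_nhds_iff] at eR eI
  obtain ⟨ρ1, hρ1, h1⟩ := eR
  obtain ⟨ρ2, hρ2, h2⟩ := eI
  refine ⟨min ρ1 ρ2, lt_min hρ1 hρ2, N, hSN, fun u v hu hv => ?_, fun a b ha hb => ?_⟩
  · refine h1 (y := (u, v)) ?_
    rw [Prod.dist_eq, max_lt_iff, dist_eq_norm, dist_eq_norm]
    exact ⟨hu.trans_le (min_le_left _ _), hv.trans_le (min_le_left _ _)⟩
  · refine h2 (y := (a, b)) ?_
    rw [Prod.dist_eq, max_lt_iff]
    exact ⟨ha.trans_le (min_le_right _ _), hb.trans_le (min_le_right _ _)⟩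

theorem GoodN.mono {e : Emb n 𝒜} {μ K K' ρ ρ' : ℝ} {y : M} (h : GoodN e μ K ρ y) (hK : K ≤ K') (hρ : ρ' ≤ ρ) :
    GoodN e μ K' ρ' y := by
  obtain ⟨N, h1, h2, h3⟩ := h
  exact ⟨N, ⟨h1.add, h1.smul, fun x => (h1.bd x).trans (mul_le_mul_of_nonneg_right hK (norm_nonneg x))⟩,
    fun u v hu hv => h2 u v (hu.trans_le hρ) (hv.trans_le hρ), fun a b ha hb => h3 a b (ha.trans_le hρ) (hb.trans_le hρ)⟩

/-- **the uniform statement** -/
theorem exists_sn [CompactSpace M] (e : Emb n 𝒜) {μ : ℝ} (hμ : 0 < μ) :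
    ∃ K, 0 ≤ K ∧ ∃ ρ, 0 < ρ ∧ ∀ y : M, GoodN e μ K ρ y := by
  have hic : Continuous e.i := continuous_iff_continuousAt.2 fun x => SmFA.continuousAt (𝒜 := 𝒜) (e.smooth_i x)
  have key := (isCompact_univ (X := M)).induction_on (p := fun S => ∃ K, 0 ≤ K ∧ ∃ ρ, 0 < ρ ∧ ∀ y ∈ S, GoodN e μ K ρ y)
    ⟨0, le_rfl, 1, one_pos, fun y hy => absurd hy (notMem_empty y)⟩
    (fun S T hST ⟨K, hK, ρ, hρ, h⟩ => ⟨K, hK, ρ, hρ, fun y hy => h y (hST hy)⟩)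
    (fun S T ⟨K, hK, ρ, hρ, h⟩ ⟨K', hK', ρ', hρ', h'⟩ => ⟨max K K', hK.trans (le_max_left _ _), min ρ ρ', lt_min hρ hρ',
      fun y hy => hy.elim (fun hy => (h y hy).mono (le_max_left _ _) (min_le_left _ _))
        fun hy => (h' y hy).mono (le_max_right _ _) (min_le_right _ _)⟩)
    (fun p _ => ?_)
  · obtain ⟨K, hK, ρ, hρ, h⟩ := key
    exact ⟨K, hK, ρ, hρ, fun y => h y (mem_univ y)⟩
  · obtain ⟨K, hK, ρ, hρ, N, h1, h2, h3⟩ := exists_local e hμ p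
    have hn : ∀ᶠ y in 𝓝 p, dist y p < ρ / 2 ∧ ‖e.i y - e.i p‖ < ρ / 2 := by
      have h4 : ∀ᶠ y in 𝓝 p, dist y p < ρ / 2 := ball_mem_nhds p (half_pos hρ)
      have h5 : ∀ᶠ y in 𝓝 p, dist (e.i y) (e.i p) < ρ / 2 := hic.continuousAt.eventually (ball_mem_nhds (e.i p) (half_pos hρ))
      filter_upwards [h4, h5] with y hy hy'
      exact ⟨hy, by rw [← dist_eq_norm]; exact hy'⟩
    refine ⟨{y | dist y p < ρ / 2 ∧ ‖e.i y - e.i p‖ < ρ / 2}, mem_nhdsWithin_of_mem_nhds hn, K, hK, ρ / 2, half_pos hρ,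
      fun y hy => ⟨N, h1, fun u v hu hv => h2 u v ?_ ?_, fun a b ha hb => h3 a b ?_ ?_⟩⟩
    · have := norm_sub_le_norm_sub_add_norm_sub u (e.i y) (e.i p)
      linarith [hy.2]
    · have := norm_sub_le_norm_sub_add_norm_sub v (e.i y) (e.i p)
      linarith [hy.2]
    · linarith [dist_triangle a y p, hy.1]
    · linarith [dist_triangle b y p, hy.1]

end Pool.Agent.Lib.MP_ccbbf6_gt.K7.FL
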