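import Pool.Agent.Lib.MP_ccbbf6_gt.K7.FL1
import Pool.Agent.Lib.MP_ccbbf6_gt.L5.ZC2

/-!
# `κ = 7`, block FL, part 2: the smooth filling with control of the length of the loops (helper18)

`smooth_fillingL` : as `ZC.smooth_fillingN` (helper95), in addition all loops `t ↦ f (φ t c) s` are `L`-Lipschitz, for any `L > lam`.
-/

set_option autoImplicit false
set_option linter.unusedSectionVars false

open Set Filter Topology Metric Real
open scoped ContDiff RealInnerProductSpace Interval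

noncomputable section

namespace Pool.Agent.Lib.MP_ccbbf6_gt.K7.FL

open Geo L4 L5.ZC

section sn

variable {F : Type*} [NormedAddCommGroup F] [NormedSpace ℝ F] {N : F → ℝ} {K : ℝ}

theorem SN.zero (h : SN N K) : N 0 = 0 := by
  have h1 := h.smul 0 0
  rw [zero_smul, abs_zero, zero_mul] at h1
  exact h1

theorem SN.neg (h : SN N K) (x : F) : N (-x) = N x := by
  have h1 := h.smul (-1) x
  rw [neg_one_smul, abs_neg, abs_one, one_mul] at h1
  exact h1

theorem SN.nonneg (h : SN N K) (x : F) : 0 ≤ N x := by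
  have h1 := h.add x (-x)
  rw [add_neg_cancel, h.zero, h.neg] at h1
  linarith

end sn

theorem hasDerivAt_box {F : Type*} [NormedAddCommGroup F] [NormedSpace ℝ F] [CompleteSpace F] {g : ℝ → F}
    (hg : Continuous g) (η t : ℝ) : HasDerivAt (fun τ => ∫ r in (0 : ℝ)..η, g (r + τ)) (g (η + t) - g t) t := by
  have d1 : ∀ x, HasDerivAt (fun x => ∫ u in (0 : ℝ)..x, g u) (g x) x := fun x =>
    intervalIntegral.integral_hasDerivAt_right (hg.intervalIntegrable _ _)
      hg.aestronglyMeasurable.stronglyMeasurableAtFilter hg.continuousAt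
  have e : (fun τ => ∫ r in (0 : ℝ)..η, g (r + τ)) = fun τ => (∫ u in (0 : ℝ)..(η + τ), g u) - ∫ u in (0 : ℝ)..τ, g u := by
    funext τ
    rw [intervalIntegral.integral_comp_add_right (fun u => g u) τ, zero_add]
    exact (intervalIntegral.integral_interval_sub_left (hg.intervalIntegrable _ _) (hg.intervalIntegrable _ _)).symm
  rw [e]
  have d2 : HasDerivAt (fun τ => ∫ u in (0 : ℝ)..(η + τ), g u) (g (η + t)) t := by
    have := (d1 (η + t)).scomp t ((hasDerivAt_id t).const_add η)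
    rw [one_smul] at this
    exact this
  exact d2.sub (d1 t)

variable {N : Type*} [TopologicalSpace N] {φ : ℝ → N → N}
variable {Pl : ∀ (E : Type) [NormedAddCommGroup E] [NormedSpace ℝ E], (E → N) → Prop}

/-- the average over a piece of the orbit -/
def box (φ : ℝ → N → N) {F : Type*} [NormedAddCommGroup F] [NormedSpace ℝ F] (η : ℝ) (B : N → ℝ → F) (c : N) (s : ℝ) : F :=
  η⁻¹ • ∫ r in (0 : ℝ)..η, B (φ r c) s

theorem smN2_box {F : Type} [NormedAddCommGroup F] [NormedSpace ℝ F] [CompleteSpace F] (hP : Plots φ Pl) (η : ℝ)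
    {B : N → ℝ → F} (hB : SmN2 Pl B) : SmN2 Pl (box φ η B) := by
  intro E _ _ σ hσ
  unfold box
  have h1 : Pl (E × ℝ) (fun z : E × ℝ => φ z.2 (σ z.1)) :=
    hP.flow (E × ℝ) (fun z : E × ℝ => σ z.1) (fun z : E × ℝ => z.2)
      (hP.comp E (E × ℝ) σ (fun z : E × ℝ => z.1) hσ contDiff_fst) contDiff_snd
  have h2 : ContDiff ℝ ∞ (fun z : (E × ℝ) × ℝ => B (φ z.1.2 (σ z.1.1)) z.2) := hB (E × ℝ) _ h1
  have h3 : ContDiff ℝ ∞ (fun z : (E × ℝ) × ℝ => B (φ z.2 (σ z.1.1)) z.1.2) := by
    have h4 : ContDiff ℝ ∞ (fun z : (E × ℝ) × ℝ => (((z.1.1, z.2), z.1.2) : (E × ℝ) × ℝ)) :=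
      ((contDiff_fst.comp contDiff_fst).prodMk contDiff_snd).prodMk (contDiff_snd.comp contDiff_fst)
    exact h2.comp h4
  exact (contDiff_param.{0, 0} h3 0 η).const_smul _

theorem box_flow (hφ : CO.CircAct φ) {F : Type*} [NormedAddCommGroup F] [NormedSpace ℝ F] (η : ℝ) (B : N → ℝ → F) (c : N)
    (s τ : ℝ) : box φ η B (φ τ c) s = η⁻¹ • ∫ r in (0 : ℝ)..η, B (φ (r + τ) c) s := by
  unfold box
  simp only [hφ.add]

theorem hasDerivAt_boxf (hφ : CO.CircAct φ) {F : Type*} [NormedAddCommGroup F] [NormedSpace ℝ F] [CompleteSpace F] (η : ℝ)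
    {B : N → ℝ → F} (c : N) (s t : ℝ) (hc : Continuous fun c => B c s) :
    HasDerivAt (fun τ => box φ η B (φ τ c) s) (η⁻¹ • (B (φ (η + t) c) s - B (φ t c) s)) t := by
  have h1 : Continuous fun τ => B (φ τ c) s := hc.comp (hφ.cont.comp (continuous_id.prodMk continuous_const))
  have h2 := (hasDerivAt_box h1 η t).const_smul η⁻¹
  refine h2.congr_of_eventuallyEq (Eventually.of_forall fun τ => ?_)
  exact box_flow hφ η B c s τ

/-- the average is close to the function -/
theorem norm_box_sub {F : Type*} [NormedAddCommGroup F] [NormedSpace ℝ F] [CompleteSpace F] (hφ : CO.CircAct φ) {η : ℝ}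
    (hη : 0 < η) {B : N → ℝ → F} {c : N} {s : ℝ} (hc : Continuous fun c => B c s) {z : F} {δ : ℝ}
    (h : ∀ r ∈ Icc (0 : ℝ) η, ‖B (φ r c) s - z‖ ≤ δ) : ‖box φ η B c s - z‖ ≤ δ := by
  have h1 : Continuous fun r => B (φ r c) s := hc.comp (hφ.cont.comp (continuous_id.prodMk continuous_const))
  have h2 : box φ η B c s - z = η⁻¹ • ∫ r in (0 : ℝ)..η, (B (φ r c) s - z) := by
    rw [intervalIntegral.integral_sub (h1.intervalIntegrable _ _) intervalIntegrable_const, smul_sub,
      intervalIntegral.integral_const, sub_zero, smul_smul, inv_mul_cancel₀ hη.ne', one_smul]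
    rfl
  rw [h2, norm_smul]
  have h3 := intervalIntegral.norm_integral_le_of_norm_le_const (a := 0) (b := η) (f := fun r => B (φ r c) s - z)
    (C := δ) (fun r hr => h r (by
      rw [uIoc_of_le hη.le] at hr
      exact ⟨hr.1.le, hr.2⟩))
  rw [sub_zero, abs_of_pos hη] at h3
  rw [norm_inv, Real.norm_of_nonneg hη.le, inv_mul_le_iff₀ hη, mul_comm]
  exact h3

end Pool.Agent.Lib.MP_ccbbf6_gt.K7.FL
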