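import Pool.Agent.Lib.MP_ccbbf6_gt.K7.FL2

/-!
# `κ = 7`, block FL, part 3: **smooth filling with `L`-Lipschitz loops** (helper18, after helper95's `smooth_fillingN`)
-/

set_option autoImplicit false
set_option linter.unusedSectionVars false

open Set Filter Topology Metric Real
open scoped ContDiff RealInnerProductSpace Interval

noncomputable section

namespace Pool.Agent.Lib.MP_ccbbf6_gt.K7.FL

open Geo L4 L5.ZC

variable {N : Type*} [TopologicalSpace N] {φ : ℝ → N → N}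
variable {Pl : ∀ (E : Type) [NormedAddCommGroup E] [NormedSpace ℝ E], (E → N) → Prop}

/-- the local estimate -/
theorem lip_step {n : ℕ} {M : Type*} [MetricSpace M] {𝒜 : SDist n M} [CompactSpace M] (hφ : CO.CircAct φ) (e : Emb n 𝒜)
    {μ K ρ lam L η ε1 : ℝ} (hμ : 0 ≤ μ) (hK : 0 ≤ K) (hρ : 0 < ρ) (h00 : 0 ≤ lam) (hη : 0 < η) (hηρ : lam * η < ρ) (hε1 : 0 ≤ ε1)
    (hpar : (1 + μ) * lam + 2 * K * ε1 / η ≤ L)
    {f0 h : N → M} {Ac : N → EuclideanSpace ℝ (Fin e.q)} {B : N → ℝ → EuclideanSpace ℝ (Fin e.q)} {c : N} {s t a0 a1 a2 : ℝ}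
    (ha0 : 0 ≤ a0) (ha2 : 0 ≤ a2) (ha : a0 + a2 ≤ 1)
    (hg : GoodN e μ K ρ (h (φ t c))) (hf0 : a0 ≠ 0 → ∀ c, h c = f0 c) (hl : CO.Lip lam (fun t => h (φ t c)))
    (hA : ∀ t, Ac (φ t c) = Ac c) (hBc : Continuous fun c => B c s) (hB : ∀ t, ‖B (φ t c) s - e.i (h (φ t c))‖ ≤ ε1)
    {G : N → EuclideanSpace ℝ (Fin e.q)} (hGc : Continuous fun t => G (φ t c))
    (hG : ∀ c, G c = a0 • e.i (f0 c) + a1 • Ac c + a2 • box φ η B c s) (hG1 : ‖G (φ t c) - e.i (h (φ t c))‖ < ρ) {L' : ℝ}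
    (hL' : L < L') : ∀ᶠ τ in 𝓝 t, dist (e.r (G (φ τ c))) (e.r (G (φ t c))) ≤ L' * |τ - t| := by
  obtain ⟨N, hN, hN1, hN2⟩ := hg
  obtain ⟨κ, hκ, hκK⟩ : ∃ κ, 0 < κ ∧ K * κ ≤ L' - L := by
    refine ⟨(L' - L) / (K + 1), div_pos (by linarith) (by linarith), ?_⟩
    rw [mul_div_assoc', div_le_iff₀ (by linarith)]
    nlinarith
  have h1 : ∀ᶠ τ in 𝓝 t, ‖G (φ τ c) - e.i (h (φ t c))‖ < ρ := by
    have h2 : Continuous fun τ => ‖G (φ τ c) - e.i (h (φ t c))‖ := (hGc.sub continuous_const).norm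
    exact h2.continuousAt.eventually (gt_mem_nhds hG1)
  have h2 : ∀ᶠ τ in 𝓝 t, lam * |τ - t| < ρ := by
    have h3 : Continuous fun τ => lam * |τ - t| := by fun_prop
    refine h3.continuousAt.eventually (gt_mem_nhds ?_)
    simpa using hρ
  have h3 : ∀ᶠ τ in 𝓝 t, ‖box φ η B (φ τ c) s - box φ η B (φ t c) s -
      (τ - t) • (η⁻¹ • (B (φ (η + t) c) s - B (φ t c) s))‖ ≤ κ * ‖τ - t‖ :=
    (hasDerivAt_iff_isLittleO.mp (hasDerivAt_boxf hφ η c s t hBc)).def hκ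
  -- the difference quotient
  have hD : N (η⁻¹ • (B (φ (η + t) c) s - B (φ t c) s)) ≤ (1 + μ) * lam + 2 * K * ε1 / η := by
    have e1 : B (φ (η + t) c) s - B (φ t c) s = (e.i (h (φ (η + t) c)) - e.i (h (φ t c))) +
        ((B (φ (η + t) c) s - e.i (h (φ (η + t) c))) + -(B (φ t c) s - e.i (h (φ t c)))) := by abel
    have d1 : dist (h (φ (η + t) c)) (h (φ t c)) ≤ lam * η := by
      have := hl (η + t) t
      rwa [add_sub_cancel_right, abs_of_pos hη] at this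
    have e2 : N (e.i (h (φ (η + t) c)) - e.i (h (φ t c))) ≤ (1 + μ) * (lam * η) :=
      (hN2 _ _ (lt_of_le_of_lt d1 hηρ) (by rw [dist_self]; exact hρ)).trans
        (mul_le_mul_of_nonneg_left d1 (by linarith))
    have e3 : N (B (φ (η + t) c) s - e.i (h (φ (η + t) c))) ≤ K * ε1 :=
      (hN.bd _).trans (mul_le_mul_of_nonneg_left (hB _) hK)
    have e4 : N (-(B (φ t c) s - e.i (h (φ t c)))) ≤ K * ε1 := by
      rw [hN.neg]
      exact (hN.bd _).trans (mul_le_mul_of_nonneg_left (hB _) hK)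
    have e5 : N (B (φ (η + t) c) s - B (φ t c) s) ≤ (1 + μ) * (lam * η) + (K * ε1 + K * ε1) := by
      rw [e1]
      exact (hN.add _ _).trans (add_le_add e2 ((hN.add _ _).trans (add_le_add e3 e4)))
    rw [hN.smul, abs_of_pos (inv_pos.2 hη)]
    calc η⁻¹ * N (B (φ (η + t) c) s - B (φ t c) s) ≤ η⁻¹ * ((1 + μ) * (lam * η) + (K * ε1 + K * ε1)) :=
          mul_le_mul_of_nonneg_left e5 (inv_pos.2 hη).le
      _ = (1 + μ) * lam + 2 * K * ε1 / η := by field_simp; ring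
  have hD0 : 0 ≤ 2 * K * ε1 / η := by positivity
  filter_upwards [h1, h2, h3] with τ t1 t2 t3
  refine (hN1 _ _ t1 hG1).trans ?_
  have e1 : G (φ τ c) - G (φ t c) = a0 • (e.i (f0 (φ τ c)) - e.i (f0 (φ t c))) +
      a2 • (box φ η B (φ τ c) s - box φ η B (φ t c) s) := by
    rw [hG, hG, hA, hA]
    module
  -- first term
  have k1 : N (a0 • (e.i (f0 (φ τ c)) - e.i (f0 (φ t c)))) ≤ a0 * ((1 + μ) * lam * |τ - t|) := by
    rw [hN.smul, abs_of_nonneg ha0]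
    by_cases h0 : a0 = 0
    · rw [h0, zero_mul, zero_mul]
    · refine mul_le_mul_of_nonneg_left ?_ ha0
      rw [← hf0 h0, ← hf0 h0]
      have d1 : dist (h (φ τ c)) (h (φ t c)) ≤ lam * |τ - t| := hl τ t
      have d2 := hN2 _ _ (lt_of_le_of_lt d1 t2) (by rw [dist_self]; exact hρ)
      refine d2.trans ?_
      rw [mul_assoc]
      exact mul_le_mul_of_nonneg_left d1 (by linarith)
  -- second term
  have k2 : N (box φ η B (φ τ c) s - box φ η B (φ t c) s) ≤ |τ - t| * ((1 + μ) * lam + 2 * K * ε1 / η) + K * (κ * |τ - t|) := by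
    have e2 : box φ η B (φ τ c) s - box φ η B (φ t c) s = (τ - t) • (η⁻¹ • (B (φ (η + t) c) s - B (φ t c) s)) +
        (box φ η B (φ τ c) s - box φ η B (φ t c) s - (τ - t) • (η⁻¹ • (B (φ (η + t) c) s - B (φ t c) s))) := by abel
    rw [e2]
    refine (hN.add _ _).trans (add_le_add ?_ ?_)
    · rw [hN.smul]
      exact mul_le_mul_of_nonneg_left hD (abs_nonneg _)
    · refine (hN.bd _).trans (mul_le_mul_of_nonneg_left ?_ hK)
      rw [Real.norm_eq_abs] at t3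
      exact t3
  have k3 : N (a2 • (box φ η B (φ τ c) s - box φ η B (φ t c) s)) ≤
      a2 * (|τ - t| * ((1 + μ) * lam + 2 * K * ε1 / η) + K * (κ * |τ - t|)) := by
    rw [hN.smul, abs_of_nonneg ha2]
    exact mul_le_mul_of_nonneg_left k2 ha2
  rw [e1]
  refine (hN.add _ _).trans ((add_le_add k1 k3).trans ?_)
  have hx : 0 ≤ |τ - t| := abs_nonneg _
  have y1 : K * (κ * |τ - t|) ≤ (L' - L) * |τ - t| := by
    rw [← mul_assoc]
    exact mul_le_mul_of_nonneg_right hκK hx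
  have y2 : |τ - t| * ((1 + μ) * lam + 2 * K * ε1 / η) ≤ L * |τ - t| := by
    rw [mul_comm]
    exact mul_le_mul_of_nonneg_right hpar hx
  have y3 : (1 + μ) * lam * |τ - t| ≤ L' * |τ - t| := mul_le_mul_of_nonneg_right (by linarith) hx
  have y4 : |τ - t| * ((1 + μ) * lam + 2 * K * ε1 / η) + K * (κ * |τ - t|) ≤ L' * |τ - t| := by linarith
  have y5 : 0 ≤ L' * |τ - t| := by
    refine mul_nonneg ?_ hx
    have : 0 ≤ (1 + μ) * lam := by positivity
    linarith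
  calc a0 * ((1 + μ) * lam * |τ - t|) + a2 * (|τ - t| * ((1 + μ) * lam + 2 * K * ε1 / η) + K * (κ * |τ - t|))
      ≤ a0 * (L' * |τ - t|) + a2 * (L' * |τ - t|) :=
        add_le_add (mul_le_mul_of_nonneg_left y3 ha0) (mul_le_mul_of_nonneg_left y4 ha2)
    _ = (a0 + a2) * (L' * |τ - t|) := by ring
    _ ≤ 1 * (L' * |τ - t|) := mul_le_mul_of_nonneg_right ha y5
    _ = L' * |τ - t| := one_mul _

end Pool.Agent.Lib.MP_ccbbf6_gt.K7.FL
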