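import Pool.Agent.Lib.MP_ccbbf6_gt.K7.FL3
import Pool.Agent.Lib.MP_ccbbf6_gt.L4.PO4a
import Pool.Agent.Lib.MP_ccbbf6_gt.L5.ZC1

/-!
# `κ = 7`, block FL, part 4: **smooth filling with `L`-Lipschitz loops** (helper18, after helper95's `smooth_fillingN`)
-/

set_option autoImplicit false
set_option linter.unusedSectionVars false

open Set Filter Topology Metric Real
open scoped ContDiff RealInnerProductSpace Interval

noncomputable section

namespace Pool.Agent.Lib.MP_ccbbf6_gt.K7.FL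

open Geo L4 L5.ZC

variable {N : Type*} [TopologicalSpace N] {φ : ℝ → N → N}
variable {Pl : ∀ (E : Type) [NormedAddCommGroup E] [NormedSpace ℝ E], (E → N) → Prop}

/-- **Smooth filling with `L`-Lipschitz loops.** -/
theorem smooth_fillingL {n : ℕ} {M : Type*} [MetricSpace M] {𝒜 : SDist n M} [CompactSpace M] [Nonempty M]
    [CompactSpace N] (hP : Plots φ Pl) (hφ : CO.CircAct φ) {lam : ℝ} (h00 : 0 ≤ lam) {f₀ Z : C(N, M)}
    (H : ContinuousMap.HomotopyWith f₀ Z (LL lam φ))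
    (h0 : ∀ (E : Type) [NormedAddCommGroup E] [NormedSpace ℝ E] (σ : E → N), Pl E σ → Sm 𝒜 (fun u => f₀ (σ u)))
    (hZ : ∀ t c, Z (φ t c) = Z c) {ε : ℝ} (hε : 0 < ε) {L : ℝ} (hL : lam < L) :
    ∃ f : N → ℝ → M,
      (∀ (E : Type) [NormedAddCommGroup E] [NormedSpace ℝ E] (σ : E → N), Pl E σ →
        Sm 𝒜 (fun z : E × ℝ => f (σ z.1) z.2)) ∧
      (∀ c, ∀ s ≤ 1 / 4, f c s = f₀ c) ∧
      (∀ c t, ∀ s, 3 / 4 ≤ s → f (φ t c) s = f c 1) ∧
      (∀ c s, dist (f c s) (H (⟨thet s, thet_mem s⟩, c)) < ε) ∧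
      ∀ c s, CO.Lip L (fun t => f (φ t c) s) := by
  obtain ⟨e⟩ := exists_emb 𝒜
  have his : ∀ x, SmFA 𝒜 e.i x := e.smooth_i
  have hic : Continuous e.i := continuous_iff_continuousAt.2 fun x => (his x).continuousAt
  -- the parameters
  obtain ⟨μ, hμ, hμL⟩ : ∃ μ : ℝ, 0 < μ ∧ μ * lam ≤ (L - lam) / 2 := by
    refine ⟨(L - lam) / (2 * (lam + 1)), div_pos (by linarith) (by linarith), ?_⟩
    rw [div_mul_eq_mul_div, div_le_div_iff₀ (by linarith) (by norm_num)]
    nlinarith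
  obtain ⟨K, hK, ρ, hρ, hgood⟩ := exists_sn e hμ
  obtain ⟨δ0, hδ0, hδr⟩ := e.uniform hε
  obtain ⟨δ, hδ, hδδ, hδρ⟩ : ∃ δ : ℝ, 0 < δ ∧ δ ≤ δ0 ∧ δ ≤ ρ := ⟨min δ0 ρ, lt_min hδ0 hρ, min_le_left _ _, min_le_right _ _⟩
  obtain ⟨δi, hδi, hi⟩ := Metric.uniformContinuous_iff.1 (CompactSpace.uniformContinuous_of_continuous hic) (δ / 8)
    (by positivity)
  obtain ⟨η, hη, hη1, hη2⟩ : ∃ η : ℝ, 0 < η ∧ lam * η < δi ∧ lam * η < ρ := by
    refine ⟨min δi ρ / (2 * (lam + 1)), by positivity, ?_, ?_⟩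
    · have h1 : 0 < min δi ρ := lt_min hδi hρ
      rw [mul_div_assoc', div_lt_iff₀ (by positivity)]
      have h2 : min δi ρ ≤ δi := min_le_left _ _
      nlinarith
    · have h1 : 0 < min δi ρ := lt_min hδi hρ
      rw [mul_div_assoc', div_lt_iff₀ (by positivity)]
      have h2 : min δi ρ ≤ ρ := min_le_right _ _
      nlinarith
  obtain ⟨ε1, hε1, hε1δ, hε1η⟩ : ∃ ε1 : ℝ, 0 < ε1 ∧ ε1 ≤ δ / 8 ∧ 2 * K * ε1 / η ≤ (L - lam) / 2 := by
    refine ⟨min (δ / 8) (η * (L - lam) / (4 * (K + 1))), ?_, min_le_left _ _, ?_⟩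
    · have : 0 < L - lam := by linarith
      exact lt_min (by positivity) (by positivity)
    · have h1 : min (δ / 8) (η * (L - lam) / (4 * (K + 1))) ≤ η * (L - lam) / (4 * (K + 1)) := min_le_right _ _
      have h2 : 2 * K * min (δ / 8) (η * (L - lam) / (4 * (K + 1))) ≤ 2 * K * (η * (L - lam) / (4 * (K + 1))) :=
        mul_le_mul_of_nonneg_left h1 (by positivity)
      rw [div_le_iff₀ hη]
      refine h2.trans ?_
      rw [mul_div_assoc', div_le_iff₀ (by positivity)]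
      have h3 : 0 < η * (L - lam) := mul_pos hη (by linarith)
      nlinarith
  have hpar : (1 + μ) * lam + 2 * K * ε1 / η ≤ L := by linarith
  -- the continuous map to approximate
  obtain ⟨h, hh⟩ : ∃ h : ℝ → N → M, h = fun s c => H (⟨thet s, thet_mem s⟩, c) := ⟨_, rfl⟩
  obtain ⟨Φ, hΦ⟩ : ∃ Φ : N → ℝ → EuclideanSpace ℝ (Fin e.q), Φ = fun c s => e.i (h s c) := ⟨_, rfl⟩
  have hhl : ∀ s c, CO.Lip lam (fun t => h s (φ t c)) := fun s c => by
    rw [hh]
    exact H.prop ⟨thet s, thet_mem s⟩ c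
  have hΦc : Continuous (fun z : N × ℝ => Φ z.1 z.2) := by
    rw [hΦ, hh]
    refine hic.comp (H.continuous.comp ?_)
    exact ((thet_continuous.comp continuous_snd).subtype_mk _).prodMk continuous_fst
  obtain ⟨B0, hB1, hB3, hB2⟩ := exists_smooth_nearN hP hΦc hε1
  obtain ⟨B, hB⟩ : ∃ B : N → ℝ → EuclideanSpace ℝ (Fin e.q), B = box φ η B0 := ⟨_, rfl⟩
  have hBs : SmN2 Pl B := by rw [hB]; exact smN2_box hP η hB1
  have hBn : ∀ c, ∀ s ∈ Icc (0 : ℝ) 1, ‖B c s - Φ c s‖ ≤ δ / 4 := by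
    intro c s hs
    rw [hB]
    refine norm_box_sub hφ hη (hB3 s hs) fun r hr => ?_
    have e1 : B0 (φ r c) s - Φ c s = (B0 (φ r c) s - Φ (φ r c) s) + (Φ (φ r c) s - Φ c s) := by abel
    have e2 : ‖Φ (φ r c) s - Φ c s‖ ≤ δ / 8 := by
      have h1 := hhl s c r 0
      rw [sub_zero, abs_of_nonneg hr.1] at h1
      simp only [hφ.zero] at h1
      have h2 : dist (h s (φ r c)) (h s c) < δi :=
        lt_of_le_of_lt (h1.trans (mul_le_mul_of_nonneg_left hr.2 h00)) hη1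
      have h3 := hi h2
      rw [dist_eq_norm] at h3
      rw [hΦ]
      exact h3.le
    rw [e1]
    refine (norm_add_le _ _).trans ?_
    have e3 := (hB2 (φ r c) s hs).le
    linarith
  obtain ⟨A0, hA1, hA3, hA2⟩ := exists_smooth_nearN hP (Φ := fun c _ => e.i (Z c))
    ((hic.comp (Z.continuous.comp continuous_fst))) (half_pos hδ)
  -- the invariant end
  obtain ⟨a, ha⟩ : ∃ a : N → EuclideanSpace ℝ (Fin e.q), a = fun c => A0 c 0 := ⟨_, rfl⟩
  have haS : SmN Pl a := by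
    intro E _ _ σ hσ
    rw [ha]
    exact (hA1 E σ hσ).comp (contDiff_id.prodMk contDiff_const : ContDiff ℝ ∞ fun u : E => (u, (0 : ℝ)))
  have hac : Continuous a := by rw [ha]; exact hA3 0 (by simp)
  obtain ⟨A, hA⟩ : ∃ A : N → EuclideanSpace ℝ (Fin e.q), A = avgN φ a := ⟨_, rfl⟩
  have hAS : SmN Pl A := by rw [hA]; exact smN_avg hP haS
  have hAinv : ∀ t c, A (φ t c) = A c := fun t c => by rw [hA]; exact avgN_flow hφ a t c
  have hAZ : ∀ c, ‖A c - e.i (Z c)‖ ≤ δ / 2 := by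
    intro c
    rw [hA]
    refine norm_avgN_sub_le hφ hac (fun t => ?_)
    have h1 := hA2 (φ t c) 0 (by simp)
    rw [hZ] at h1
    rw [ha]
    exact h1.le
  -- cut-offs
  obtain ⟨χ₀, hχ₀⟩ : ∃ χ₀ : ℝ → ℝ, χ₀ = fun s => 1 - Real.smoothTransition (12 * s - 3) := ⟨_, rfl⟩
  obtain ⟨χ₁, hχ₁⟩ : ∃ χ₁ : ℝ → ℝ, χ₁ = fun s => Real.smoothTransition (12 * s - 8) := ⟨_, rfl⟩
  have hχ₀s : ContDiff ℝ ∞ χ₀ := by
    rw [hχ₀]
    exact contDiff_const.sub (Real.smoothTransition.contDiff.comp (by fun_prop))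
  have hχ₁s : ContDiff ℝ ∞ χ₁ := by
    rw [hχ₁]
    exact Real.smoothTransition.contDiff.comp (by fun_prop)
  have hχ₀0 : ∀ s, 0 ≤ χ₀ s := fun s => by
    rw [hχ₀]
    exact sub_nonneg.2 (Real.smoothTransition.le_one _)
  have hχ₁0 : ∀ s, 0 ≤ χ₁ s := fun s => by
    rw [hχ₁]
    exact Real.smoothTransition.nonneg _
  have hχ₀1 : ∀ s, s ≤ 1 / 4 → χ₀ s = 1 := fun s hs => by
    rw [hχ₀]
    simp only
    rw [Real.smoothTransition.zero_of_nonpos (by linarith), sub_zero]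
  have hχ₀2 : ∀ s, 1 / 3 ≤ s → χ₀ s = 0 := fun s hs => by
    rw [hχ₀]
    simp only
    rw [Real.smoothTransition.one_of_one_le (by linarith), sub_self]
  have hχ₁1 : ∀ s, 3 / 4 ≤ s → χ₁ s = 1 := fun s hs => by
    rw [hχ₁]
    exact Real.smoothTransition.one_of_one_le (by linarith)
  have hχ₁2 : ∀ s, s ≤ 2 / 3 → χ₁ s = 0 := fun s hs => by
    rw [hχ₁]
    exact Real.smoothTransition.zero_of_nonpos (by linarith)
  have hχ01 : ∀ s, χ₀ s ≤ 1 := fun s => by
    rw [hχ₀]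
    have := Real.smoothTransition.nonneg (12 * s - 3)
    simp only
    linarith
  have hχ11 : ∀ s, χ₁ s ≤ 1 := fun s => by
    rw [hχ₁]
    exact Real.smoothTransition.le_one _
  have hχ : ∀ s, 0 ≤ 1 - χ₀ s - χ₁ s := by
    intro s
    rcases le_total s (1 / 2) with hs | hs
    · rw [hχ₁2 s (by linarith), sub_zero]
      linarith [hχ01 s]
    · rw [hχ₀2 s (by linarith), sub_zero]
      linarith [hχ11 s]
  -- the map to Euclidean space
  obtain ⟨G, hG⟩ : ∃ G : N → ℝ → EuclideanSpace ℝ (Fin e.q),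
    G = fun c s => χ₀ s • e.i (f₀ c) + χ₁ s • A c + (1 - χ₀ s - χ₁ s) • B c s := ⟨_, rfl⟩
  have hG0 : ∀ c s, s ≤ 1 / 4 → G c s = e.i (f₀ c) := by
    intro c s hs
    simp only [hG, hχ₀1 s hs, hχ₁2 s (by linarith)]
    simp
  have hG1 : ∀ c s, 3 / 4 ≤ s → G c s = A c := by
    intro c s hs
    simp only [hG, hχ₀2 s (by linarith), hχ₁1 s hs]
    simp
  have hf00 : ∀ s, s ≤ 1 / 3 → ∀ c, h s c = f₀ c := fun s hs c => by
    rw [hh]
    show H (⟨thet s, thet_mem s⟩, c) = f₀ c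
    have h2 : (⟨thet s, thet_mem s⟩ : unitInterval) = 0 := Subtype.ext (thet_zero hs)
    rw [h2]
    exact H.apply_zero c
  have hclose : ∀ c s, ‖G c s - Φ c s‖ ≤ δ / 2 := by
    intro c s
    have t0 : ‖χ₀ s • (e.i (f₀ c) - Φ c s)‖ ≤ χ₀ s * (δ / 2) := by
      rcases le_total s (1 / 3) with hs | hs
      · have h1 : Φ c s = e.i (f₀ c) := by
          simp only [hΦ]
          rw [hf00 s hs]
        rw [h1, sub_self, smul_zero, norm_zero]
        exact mul_nonneg (hχ₀0 s) (by linarith)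
      · rw [hχ₀2 s hs, zero_smul, norm_zero, zero_mul]
    have t1 : ‖χ₁ s • (A c - Φ c s)‖ ≤ χ₁ s * (δ / 2) := by
      rcases le_total s (2 / 3) with hs | hs
      · rw [hχ₁2 s hs, zero_smul, norm_zero, zero_mul]
      · have h1 : Φ c s = e.i (Z c) := by
          simp only [hΦ, hh]
          have h2 : (⟨thet s, thet_mem s⟩ : unitInterval) = 1 := Subtype.ext (thet_one hs)
          rw [h2]
          exact congrArg e.i (H.apply_one c)
        rw [h1, norm_smul, Real.norm_eq_abs, abs_of_nonneg (hχ₁0 s)]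
        exact mul_le_mul_of_nonneg_left (hAZ c) (hχ₁0 s)
    have t2 : ‖(1 - χ₀ s - χ₁ s) • (B c s - Φ c s)‖ ≤ (1 - χ₀ s - χ₁ s) * (δ / 2) := by
      rw [norm_smul, Real.norm_eq_abs, abs_of_nonneg (hχ s)]
      rcases le_total s 0 with hs | hs
      · rw [hχ₀1 s (by linarith), hχ₁2 s (by linarith)]
        simp
      · rcases le_total s 1 with hs' | hs'
        · exact mul_le_mul_of_nonneg_left ((hBn c s ⟨hs, hs'⟩).trans (by linarith)) (hχ s)
        · rw [hχ₀2 s (by linarith), hχ₁1 s (by linarith)]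
          simp
    have hsum : G c s - Φ c s = χ₀ s • (e.i (f₀ c) - Φ c s) + χ₁ s • (A c - Φ c s) +
        (1 - χ₀ s - χ₁ s) • (B c s - Φ c s) := by
      simp only [hG]
      module
    rw [hsum]
    refine (norm_add_le _ _).trans ((add_le_add ((norm_add_le _ _).trans (add_le_add t0 t1)) t2).trans (le_of_eq ?_))
    ring
  have hU : ∀ c s, G c s ∈ e.U ∧ dist (e.r (G c s)) (h s c) < ε := by
    intro c s
    refine hδr _ _ ?_
    rw [dist_eq_norm]
    have h1 := hclose c s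
    simp only [hΦ] at h1
    exact (h1.trans_lt (half_lt_self hδ)).trans_le hδδ
  refine ⟨fun c s => e.r (G c s), ?_, ?_, ?_, fun c s => by rw [hh] at hU; exact (hU c s).2, ?_⟩
  · intro E _ _ σ hσ z
    have h1 : ContDiff ℝ ∞ (fun z : E × ℝ => G (σ z.1) z.2) := by
      have k0 : ContDiff ℝ ∞ (fun u : E => e.i (f₀ (σ u))) := by
        rw [contDiff_iff_contDiffAt]
        intro u
        exact SmFA.comp_to (𝒜 := 𝒜) (g := e.i) (r := fun u => f₀ (σ u)) (z := u) (his _) (h0 E σ hσ u)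
      have k1 : ContDiff ℝ ∞ (fun z : E × ℝ => e.i (f₀ (σ z.1))) := k0.comp contDiff_fst
      have k2 : ContDiff ℝ ∞ (fun z : E × ℝ => A (σ z.1)) := (hAS E σ hσ).comp contDiff_fst
      have k3 : ContDiff ℝ ∞ (fun z : E × ℝ => B (σ z.1) z.2) := hBs E σ hσ
      have k4 : ContDiff ℝ ∞ (fun z : E × ℝ => χ₀ z.2) := hχ₀s.comp contDiff_snd
      have k5 : ContDiff ℝ ∞ (fun z : E × ℝ => χ₁ z.2) := hχ₁s.comp contDiff_snd
      rw [hG]
      exact ((k4.smul k1).add (k5.smul k2)).add (((contDiff_const.sub k4).sub k5).smul k3)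
    have h2 : SmAt 𝒜 e.r (G (σ z.1) z.2) := e.smooth_r _ (hU _ _).1
    exact SmAt.comp (g := e.r) (f := fun z : E × ℝ => G (σ z.1) z.2) h2 h1.contDiffAt
  · intro c s hs
    simp only [hG0 c s hs, e.left]
  · intro c t s hs
    simp only [hG1 _ s hs, hG1 _ 1 (by norm_num), hAinv]
  · -- the length of the loops
    intro c s
    rcases le_or_gt s (1 / 4) with hs | hs
    · intro t t'
      show dist (e.r (G (φ t c) s)) (e.r (G (φ t' c) s)) ≤ L * |t - t'|
      rw [hG0 _ _ hs, hG0 _ _ hs, e.left, e.left]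
      have h1 := hhl s c t t'
      simp only [hf00 s (by linarith)] at h1
      exact h1.trans (mul_le_mul_of_nonneg_right hL.le (abs_nonneg _))
    rcases le_or_gt (3 / 4) s with hs' | hs'
    · intro t t'
      show dist (e.r (G (φ t c) s)) (e.r (G (φ t' c) s)) ≤ L * |t - t'|
      rw [hG1 _ _ hs', hG1 _ _ hs', hAinv, hAinv, dist_self]
      exact mul_nonneg (by linarith) (abs_nonneg _)
    have hsI : s ∈ Icc (0 : ℝ) 1 := ⟨by linarith, by linarith⟩
    have hφc : Continuous fun t => φ t c := hφ.cont.comp (continuous_id.prodMk continuous_const)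
    have hGc : Continuous fun t => G (φ t c) s := by
      have k1 : Continuous fun t => e.i (f₀ (φ t c)) := hic.comp (f₀.continuous.comp hφc)
      have k2 : Continuous fun t => A (φ t c) := by
        simp only [hAinv]
        exact continuous_const
      have k3 : Continuous fun t => B (φ t c) s := by
        rw [hB]
        exact continuous_iff_continuousAt.2 fun t => (hasDerivAt_boxf hφ η c s t (hB3 s hsI)).continuousAt
      rw [hG]
      show Continuous fun t => χ₀ s • e.i (f₀ (φ t c)) + χ₁ s • A (φ t c) + (1 - χ₀ s - χ₁ s) • B (φ t c) s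
      have q1 : Continuous fun t => χ₀ s • e.i (f₀ (φ t c)) := (continuous_const (y := χ₀ s)).smul k1
      have q2 : Continuous fun t => χ₁ s • A (φ t c) := (continuous_const (y := χ₁ s)).smul k2
      have q3 : Continuous fun t => (1 - χ₀ s - χ₁ s) • B (φ t c) s := (continuous_const (y := 1 - χ₀ s - χ₁ s)).smul k3
      exact (q1.add q2).add q3
    refine PO.lip_of_speed (α := fun t => e.r (G (φ t c) s)) fun t L' hL' => ?_
    refine lip_step hφ e (μ := μ) (K := K) (ρ := ρ) (lam := lam) (L := L) (η := η) (ε1 := ε1) hμ.le hK hρ h00 hη hη2 hε1.le hpar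
      (f0 := f₀) (h := h s) (Ac := A) (B := B0) (c := c) (s := s) (t := t) (a0 := χ₀ s) (a1 := χ₁ s) (a2 := 1 - χ₀ s - χ₁ s)
      (hχ₀0 s) (hχ s) (by linarith [hχ₁0 s]) (hgood _) (fun h0 c => ?_) (hhl s c) (fun t => hAinv t c) (hB3 s hsI)
      (fun t => ?_) (G := fun c => G c s) hGc (fun c => ?_) ?_ hL'
    · refine hf00 s ?_ c
      by_contra hc
      push Not at hc
      exact h0 (hχ₀2 s hc.le)
    · have h1 := hB2 (φ t c) s hsI
      simp only [hΦ] at h1
      exact h1.le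
    · simp only [hG, hB]
    · have h1 := hclose (φ t c) s
      simp only [hΦ] at h1
      exact lt_of_lt_of_le (h1.trans_lt (half_lt_self hδ)) hδρ

end Pool.Agent.Lib.MP_ccbbf6_gt.K7.FL
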