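import Pool.Agent.Lib.MP_ccbbf6_gt.K7.FL4
import Pool.Agent.Lib.MP_ccbbf6_gt.L5.ZC4

/-!
# `κ = 7`, block FL, part 5: **the smooth map on the total space, with uniform length control** (helper18, after helper95's `exists_total`)
-/

set_option autoImplicit false
set_option linter.unusedSectionVars false

open Set Filter Topology Metric Real
open scoped ContDiff RealInnerProductSpace

noncomputable section

namespace Pool.Agent.Lib.MP_ccbbf6_gt.K7.FL

open Geo L4 L5.ZC

section main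

variable {n : ℕ} {M : Type*} [MetricSpace M] [CompactSpace M] {𝒜 : SDist n M}
variable {V : Type} [NormedAddCommGroup V] [InnerProductSpace ℝ V] [FiniteDimensional ℝ V] {P : Gs M → V →L[ℝ] V}

/-- a uniform lower bound for `‖gth θ x‖` -/
theorem norm_gth_ge {V : Type*} [NormedAddCommGroup V] [InnerProductSpace ℝ V] {θ : ℝ} (hθ : 0 < θ) {x : V} (hx : x ≠ 0)
    {r : ℝ} (h1 : r ≤ ‖x‖) (h2 : r ≤ θ) : r ≤ ‖gth θ x‖ := by
  have c0 := chi_nonneg θ ‖x‖
  have c1 := chi_le_one θ ‖x‖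
  rw [norm_gth hθ hx]
  nlinarith

/-- **The smooth map on the total space, with uniform control of the length of the loops.** -/
theorem exists_totalL [Nonempty (Gs M)] (hB : Bl M) (hP : PB 𝒜 P) {Co : V → Gs M → M} {R : ℝ} (hR : 0 < R)
    (hCs : ∀ (E : Type) [NormedAddCommGroup E] [NormedSpace ℝ E] (σ : E → Gs M) (x : E → V) (u : E), SmGAt 𝒜 σ u →
      ContDiffAt ℝ ∞ x u → ‖x u‖ < R → SmAt 𝒜 (fun v => Co (x v) (σ v)) u)
    (hL : ∀ r, 0 < r → ∃ lam : ℝ, 0 ≤ lam ∧ lam < 1 ∧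
      ∀ c x, P c x = x → r ≤ ‖x‖ → ‖x‖ < R → CO.Lip lam (fun t => Co x (shift t c)))
    (hL0 : ∀ c, CO.Lip 1 (fun t => Co 0 (shift t c))) :
    ∃ F : V → Gs M → M,
      (∀ (E : Type) [NormedAddCommGroup E] [NormedSpace ℝ E] (σ : E → Gs M) (x : E → V) (u : E), SmGAt 𝒜 σ u →
        ContDiffAt ℝ ∞ x u → SmAt 𝒜 (fun v => F (x v) (σ v)) u) ∧
      (∀ x c, F (P c x) c = F x c) ∧
      (∃ ρ, 0 < ρ ∧ ∀ x c, P c x = x → ‖x‖ ≤ ρ → F x c = Co x c) ∧
      (∀ x c, P c x = x → 1 ≤ ‖x‖ → F x c = F (‖x‖⁻¹ • x) c) ∧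
      (∀ x c t, P c x = x → 1 ≤ ‖x‖ → F x (shift t c) = F x c) ∧
      (∀ x c, P c x = x → x ≠ 0 → ∀ s s', dist (F x (shift s c)) (F x (shift s' c)) < π) ∧
      (∀ r, 0 < r → ∃ L : ℝ, 0 ≤ L ∧ L < 1 ∧ ∀ c x, P c x = x → r ≤ ‖x‖ → CO.Lip L (fun t => F x (shift t c))) ∧
      (∀ c x, P c x = x → CO.Lip 1 (fun t => F x (shift t c))) := by
  have hπ := Real.pi_pos
  have : Nonempty M := ⟨(Classical.arbitrary (Gs M)).1 0⟩
  have : CompactSpace (SP P) := isCompact_SP hB hP
  obtain ⟨θ, hθd⟩ : ∃ θ, θ = min (R / 2) (1 / 8) := ⟨_, rfl⟩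
  have hθ : 0 < θ := by rw [hθd]; exact lt_min (by linarith) (by norm_num)
  have hθR : θ < R := by
    have : θ ≤ R / 2 := by rw [hθd]; exact min_le_left _ _
    linarith
  have hθ8 : θ ≤ 1 / 8 := by rw [hθd]; exact min_le_right _ _
  obtain ⟨lam, l0, l1, hlam⟩ := hL θ hθ
  -- the extended push-off
  have hCg : ∀ (E : Type) [NormedAddCommGroup E] [NormedSpace ℝ E] (σ : E → Gs M) (x : E → V) (u : E), SmGAt 𝒜 σ u →
      ContDiffAt ℝ ∞ x u → SmAt 𝒜 (fun v => Co (gth θ (x v)) (σ v)) u := by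
    intro E _ _ σ x u hσ hx
    exact hCs E σ (fun v => gth θ (x v)) u hσ ((contDiff_gth hθ).contDiffAt.comp u hx)
      ((norm_gth_le hθ _).trans_lt hθR)
  have hCc : Continuous (fun z : V × Gs M => Co (gth θ z.1) z.2) :=
    continuous_of_smooth 𝒜 hB (f := fun x c => Co (gth θ x) c) (fun E _ _ σ x u hσ hx => (hCg E σ x u hσ hx).1)
  have hz : Continuous (fun z : SP P => ((z.1.2 : V), (z.1.1 : Gs M))) :=
    (continuous_snd.comp continuous_subtype_val).prodMk (continuous_fst.comp continuous_subtype_val)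
  have hCz : Continuous (fun z : SP P => Co (gth θ z.1.2) z.1.1) :=
    Continuous.comp (g := fun z : V × Gs M => Co (gth θ z.1) z.2) (f := fun z : SP P => ((z.1.2 : V), (z.1.1 : Gs M))) hCc hz
  obtain ⟨C, hC⟩ : ∃ C : C(SP P, M), ∀ z, C z = Co (gth θ z.1.2) z.1.1 := ⟨⟨_, hCz⟩, fun z => rfl⟩
  have hCL : ∀ v, CO.Lip lam (fun t => C (flo hP t v)) := by
    intro v
    have h1 : ‖gth θ v.1.2‖ = θ := norm_gth_large hθ (by rw [v.2.2]; linarith)
    have h2 : P v.1.1 (gth θ v.1.2) = gth θ v.1.2 := by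
      unfold gth
      rw [map_smul, v.2.1]
    have h3 := hlam v.1.1 _ h2 h1.ge (by rw [h1]; exact hθR)
    have h4 : (fun t => C (flo hP t v)) = fun t => Co (gth θ v.1.2) (shift t v.1.1) := by
      funext t
      rw [hC]
      rfl
    rw [h4]
    exact h3
  obtain ⟨Z, ⟨H⟩, hZ⟩ := collapseW (seg_Seg 𝒜 hB) (circAct_flo hB hP) l0 l1 C hCL
  obtain ⟨f, f1, f2, f3, f4, f5⟩ := smooth_fillingL (𝒜 := 𝒜) (plots_PlP hB hP) (circAct_flo hB hP) l0 H
    (by
      intro E _ _ σ hσ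
      have h1 : (fun u => C (σ u)) = fun u => Co (gth θ (σ u).1.2) (σ u).1.1 := funext fun u => hC _
      rw [h1]
      intro u
      exact hCg E (fun u => (σ u).1.1) (fun u => (σ u).1.2) u (hσ.1.atP u) hσ.2.contDiffAt) hZ
    (ε := (1 - lam) * π / 4) (by
      have : 0 < 1 - lam := by linarith
      positivity) (L := (1 + lam) / 2) (by linarith)
  obtain ⟨d⟩ : Nonempty M := inferInstance
  obtain ⟨F, hF⟩ : ∃ F : V → Gs M → M, ∀ x c, F x c =
      if ‖P c x‖ ≤ 1 / 4 then Co (gth θ (P c x)) c else exF hP f d x c ‖P c x‖ := ⟨_, fun x c => rfl⟩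
  -- agreement
  have hag : ∀ x c, θ ≤ ‖P c x‖ → F x c = exF hP f d x c ‖P c x‖ := by
    intro x c h
    rw [hF]
    split_ifs with h1
    · have h0 : P c x ≠ 0 := by
        intro h2
        rw [h2, norm_zero] at h
        linarith
      rw [exF_ne hP f d h0, f2 _ _ h1, hC]
      have h3 : gth θ (nrm hP x c h0).1.2 = gth θ (P c x) := by
        have h4 : ‖(nrm hP x c h0).1.2‖ = 1 := (nrm hP x c h0).2.2
        rw [gth_large hθ (by rw [h4]; linarith), h4, gth_large hθ h, div_one]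
        show θ • (‖P c x‖⁻¹ • P c x) = _
        rw [smul_smul, div_eq_mul_inv]
      rw [h3]
      rfl
    · rfl
  -- values for large norm
  have hlar : ∀ x c t, P c x = x → 1 / 4 < ‖x‖ → ∀ h0 : P c x ≠ 0,
      F x (shift t c) = f (flo hP t (nrm hP x c h0)) ‖x‖ := by
    intro x c t hx h1 h0
    have h2 : P (shift t c) x = x := by rw [hP.inv]; exact hx
    have h3 : P (shift t c) x ≠ 0 := by rw [h2, ← hx]; exact h0
    rw [hag x (shift t c) (by rw [h2]; linarith), exF_ne hP f d h3, h2]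
    congr 1
    apply Subtype.ext
    show ((shift t c, ‖P (shift t c) x‖⁻¹ • P (shift t c) x) : Gs M × V) = (shift t c, ‖P c x‖⁻¹ • P c x)
    rw [hP.inv]
  have hflo0 : ∀ v, flo hP 0 v = v := (circAct_flo hB hP).zero
  have hlar0 : ∀ x c, P c x = x → 1 / 4 < ‖x‖ → ∀ h0 : P c x ≠ 0, F x c = f (nrm hP x c h0) ‖x‖ := by
    intro x c hx h1 h0
    have h2 := hlar x c 0 hx h1 h0
    rw [hflo0, (circAct_shift 𝒜 hB).zero] at h2
    exact h2
  have hbig : ∀ v s, 3 / 4 ≤ s → f v s = f v 1 := by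
    intro v s hs
    have h3 := f3 v 0 s hs
    rw [hflo0] at h3
    exact h3
  have hne : ∀ x c, P c x = x → 1 / 4 < ‖x‖ → P c x ≠ 0 := by
    intro x c hx h1 h0
    rw [hx] at h0
    rw [h0, norm_zero] at h1
    linarith
  have hunif : ∀ r, 0 < r → ∃ L : ℝ, 0 ≤ L ∧ L < 1 ∧ ∀ c x, P c x = x → r ≤ ‖x‖ → CO.Lip L (fun t => F x (shift t c)) := by
    intro r hr
    obtain ⟨lr, m0, m1, hm⟩ := hL (min r θ) (lt_min hr hθ)
    refine ⟨max lr ((1 + lam) / 2), le_max_of_le_left m0, max_lt m1 (by linarith), fun c x hx hrx => ?_⟩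
    have hx0 : x ≠ 0 := by
      rintro rfl
      rw [norm_zero] at hrx
      linarith
    rcases le_or_gt ‖x‖ (1 / 4) with h | h
    · have hPs : ∀ t, P (shift t c) x = x := fun t => by rw [hP.inv]; exact hx
      have hFs : (fun t => F x (shift t c)) = fun t => Co (gth θ x) (shift t c) := by
        funext t
        rw [hF, hPs, if_pos h]
      have h2 : P c (gth θ x) = gth θ x := by
        unfold gth
        rw [map_smul, hx]
      have h3 := hm c _ h2 (norm_gth_ge hθ hx0 ((min_le_left _ _).trans hrx) (min_le_right _ _))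
        ((norm_gth_le hθ x).trans_lt hθR)
      rw [hFs]
      exact fun t t' => (h3 t t').trans (mul_le_mul_of_nonneg_right (le_max_left _ _) (abs_nonneg _))
    · have h0 := hne x c hx h
      have hFs : (fun t => F x (shift t c)) = fun t => f (flo hP t (nrm hP x c h0)) ‖x‖ :=
        funext fun t => hlar x c t hx h h0
      rw [hFs]
      exact fun t t' => (f5 (nrm hP x c h0) ‖x‖ t t').trans (mul_le_mul_of_nonneg_right (le_max_right _ _) (abs_nonneg _))
  refine ⟨F, ?_, ?_, ⟨θ / 2, by positivity, ?_⟩, ?_, ?_, ?_, hunif, ?_⟩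
  · -- smoothness
    intro E _ _ σ x u hσ hx
    have hPx : ContDiffAt ℝ ∞ (fun v => P (σ v) (x v)) u := (hP.smooth E σ u hσ).clm_apply hx
    rcases lt_or_ge ‖P (σ u) (x u)‖ (1 / 4) with h | h
    · refine (hCg E σ (fun v => P (σ v) (x v)) u hσ hPx).congr ?_
      have h1 : ∀ᶠ v in 𝓝 u, ‖P (σ v) (x v)‖ < 1 / 4 := hPx.continuousAt.norm.eventually (gt_mem_nhds h)
      filter_upwards [h1] with v hv
      rw [hF, if_pos hv.le]
    · have h0 : P (σ u) (x u) ≠ 0 := by
        intro h2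
        rw [h2, norm_zero] at h
        linarith
      refine (exF_smooth hB hP f1 d hσ hx (hPx.norm ℝ h0) h0).congr ?_
      have h1 : ∀ᶠ v in 𝓝 u, θ < ‖P (σ v) (x v)‖ :=
        hPx.continuousAt.norm.eventually (lt_mem_nhds (show θ < ‖P (σ u) (x u)‖ by linarith))
      filter_upwards [h1] with v hv
      exact hag _ _ hv.le
  · -- dependence on the projection
    intro x c
    rw [hF, hF, hP.idem]
    split_ifs with h
    · rfl
    · have h0 : P c x ≠ 0 := by
        intro h2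
        rw [h2, norm_zero] at h
        exact h (by norm_num)
      have h1 : P c (P c x) ≠ 0 := by rw [hP.idem]; exact h0
      rw [exF_ne hP f d h0, exF_ne hP f d h1]
      congr 1
      apply Subtype.ext
      show ((c, ‖P c (P c x)‖⁻¹ • P c (P c x)) : Gs M × V) = (c, ‖P c x‖⁻¹ • P c x)
      rw [hP.idem]
  · -- small vectors
    intro x c hx hs
    rw [hF, hx, if_pos (by linarith), gth_small hθ hs]
  · -- radial
    intro x c hx h1
    have hx0 : (0 : ℝ) < ‖x‖ := by linarith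
    have hy : P c (‖x‖⁻¹ • x) = ‖x‖⁻¹ • x := by rw [map_smul, hx]
    have hyn : ‖‖x‖⁻¹ • x‖ = 1 := by rw [norm_smul, norm_inv, norm_norm, inv_mul_cancel₀ hx0.ne']
    rw [hlar0 x c hx (by linarith) (hne x c hx (by linarith)),
      hlar0 _ c hy (by rw [hyn]; norm_num) (hne _ c hy (by rw [hyn]; norm_num)), hbig _ ‖x‖ (by linarith),
      hbig _ ‖‖x‖⁻¹ • x‖ (by rw [hyn]; norm_num)]
    congr 1
    apply Subtype.ext
    show ((c, ‖P c x‖⁻¹ • P c x) : Gs M × V) = (c, ‖P c (‖x‖⁻¹ • x)‖⁻¹ • P c (‖x‖⁻¹ • x))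
    rw [hy, hx, hyn, inv_one, one_smul]
  · -- invariance
    intro x c t hx h1
    have hx0 := hne x c hx (by linarith)
    rw [hlar x c t hx (by linarith) hx0, hlar0 x c hx (by linarith) hx0, f3 _ t _ (by linarith)]
    have h3 := f3 (nrm hP x c hx0) 0 ‖x‖ (by linarith)
    rw [hflo0] at h3
    exact h3.symm
  · -- short loops
    intro x c hx hx0 s s'
    have hxp : 0 < ‖x‖ := norm_pos_iff.2 hx0
    rcases le_or_gt ‖x‖ (1 / 4) with h | h
    · have hPs : ∀ t, P (shift t c) x = x := fun t => by rw [hP.inv]; exact hx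
      have hFs : ∀ t, F x (shift t c) = Co (gth θ x) (shift t c) := by
        intro t
        rw [hF, hPs, if_pos h]
      obtain ⟨lam', m0, m1, hm⟩ := hL ‖gth θ x‖ (norm_gth_pos hθ hx0)
      have h2 : P c (gth θ x) = gth θ x := by
        unfold gth
        rw [map_smul, hx]
      have h3 := hm c _ h2 le_rfl ((norm_gth_le hθ x).trans_lt hθR)
      rw [hFs, hFs]
      refine (lip_per m0 h3 (fun t => ?_) s s').trans_lt (by nlinarith)
      simp only [gs_shift_per 𝒜 hB]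
    · have h0 := hne x c hx h
      rw [hlar x c s hx h h0, hlar x c s' hx h h0]
      have d1 := f4 (flo hP s (nrm hP x c h0)) ‖x‖
      have d2 := f4 (flo hP s' (nrm hP x c h0)) ‖x‖
      have h3 : CO.Lip lam (fun t => H (⟨thet ‖x‖, thet_mem ‖x‖⟩, flo hP t (nrm hP x c h0))) :=
        H.prop ⟨thet ‖x‖, thet_mem ‖x‖⟩ (nrm hP x c h0)
      have h4 := lip_per l0 h3 (fun t => by simp only [phi_per (circAct_flo hB hP)]) s s'
      have h5 := dist_triangle4 (f (flo hP s (nrm hP x c h0)) ‖x‖)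
        (H (⟨thet ‖x‖, thet_mem ‖x‖⟩, flo hP s (nrm hP x c h0)))
        (H (⟨thet ‖x‖, thet_mem ‖x‖⟩, flo hP s' (nrm hP x c h0))) (f (flo hP s' (nrm hP x c h0)) ‖x‖)
      have d3 : dist (H (⟨thet ‖x‖, thet_mem ‖x‖⟩, flo hP s' (nrm hP x c h0))) (f (flo hP s' (nrm hP x c h0)) ‖x‖) <
          (1 - lam) * π / 4 := by
        rw [dist_comm]
        exact d2
      have d4 : dist (f (flo hP s (nrm hP x c h0)) ‖x‖) (H (⟨thet ‖x‖, thet_mem ‖x‖⟩, flo hP s (nrm hP x c h0))) <
          (1 - lam) * π / 4 := d1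
      nlinarith
  · -- 1-Lipschitz
    intro c x hx
    by_cases hx0 : x = 0
    · have hFs : (fun t => F x (shift t c)) = fun t => Co 0 (shift t c) := by
        funext t
        have h1 : gth θ (0 : V) = 0 := by
          unfold gth
          rw [smul_zero]
        rw [hF, hx0, map_zero, norm_zero, if_pos (by norm_num), h1]
      rw [hFs]
      exact hL0 c
    · obtain ⟨L, m0, m1, hm⟩ := hunif ‖x‖ (norm_pos_iff.2 hx0)
      exact fun t t' => (hm c x hx le_rfl t t').trans (mul_le_mul_of_nonneg_right m1.le (abs_nonneg _))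

end main

end Pool.Agent.Lib.MP_ccbbf6_gt.K7.FL
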