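import Pool.Agent.Lib.MP_ccbbf6_gt.ML

/-!
# Level 5, kappa = 7, block G, GG1: densities along one orbit, the kernel functions (abstract) (helper2)

`OD H` : kernel `J s r` (from the fibre at `s + r` to the fibre at `s`), `T s` (from the fibre at `s` to the fibre at `s + π`), projections `P s`.
`Den z` : continuous densities with `z (s + π) = - T s (z s)`. `vk z z' s r = - ⟪J s r (z' (s + r)), z s⟫`, `Gk z z' r = ∫_0^π vk z z' s r ds`.
-/

set_option autoImplicit false
set_option linter.unusedSectionVars false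
set_option linter.unusedVariables false

open Set Filter Topology Metric Real MeasureTheory
open scoped InnerProductSpace ComplexConjugate

noncomputable section

namespace Pool.Agent.Lib.MP_ccbbf6_gt.K7.GG

variable {H : Type} [NormedAddCommGroup H] [InnerProductSpace ℂ H]

/-- the data along one orbit -/
structure OD (H : Type) [NormedAddCommGroup H] [InnerProductSpace ℂ H] where
  J : ℝ → ℝ → (H →L[ℂ] H)
  T : ℝ → (H →L[ℂ] H)
  P : ℝ → (H →L[ℂ] H)
  contJ : Continuous fun z : ℝ × ℝ => J z.1 z.2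
  anti : ∀ s r x y, ⟪J (s + r) (-r) x, y⟫_ℂ = -⟪x, J s r y⟫_ℂ
  shR : ∀ s r y, J s (r + π) (T (s + r) y) = J s r y
  TJ : ∀ s r y, T s (J s r y) = J (s + π) (r - π) y
  PJ : ∀ s r y, P s (J s r y) = J s r y
  inT : ∀ s x y, P s x = x → P s y = y → ⟪T s x, T s y⟫_ℂ = ⟪x, y⟫_ℂ

namespace OD

variable (O : OD H)

/-- continuous densities -/
structure Den (z : ℝ → H) : Prop where
  cont : Continuous z
  mem : ∀ s, O.P s (z s) = z s
  odd : ∀ s, z (s + π) = -O.T s (z s)

/-- the kernel -/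
def vk (z z' : ℝ → H) (s r : ℝ) : ℂ := -⟪O.J s r (z' (s + r)), z s⟫_ℂ

/-- the kernel integrated along the orbit -/
def Gk (z z' : ℝ → H) (r : ℝ) : ℂ := ∫ s in (0 : ℝ)..π, O.vk z z' s r

/-- the square of the norm -/
def n2 (z : ℝ → H) : ℝ := ∫ s in (0 : ℝ)..π, ‖z s‖ ^ 2

/-- the norm -/
def nr (z : ℝ → H) : ℝ := √(n2 z)

variable {O} {z z' w : ℝ → H}

theorem Den.add (hz : O.Den z) (hw : O.Den w) : O.Den (fun s => z s + w s) :=
  ⟨hz.cont.add hw.cont, fun s => by rw [map_add, hz.mem, hw.mem], fun s => by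
    rw [hz.odd, hw.odd, map_add, neg_add]⟩

theorem Den.smul (hz : O.Den z) (a : ℂ) : O.Den (fun s => a • z s) :=
  ⟨hz.cont.const_smul a, fun s => by rw [map_smul, hz.mem], fun s => by rw [hz.odd, map_smul, smul_neg]⟩

theorem Den.zero : O.Den (fun _ => 0) := ⟨continuous_const, fun s => map_zero _, fun s => by rw [map_zero, neg_zero]⟩

theorem Den.norm_per (hz : O.Den z) : Function.Periodic (fun s => ‖z s‖) π := by
  intro s
  show ‖z (s + π)‖ = ‖z s‖
  rw [hz.odd, norm_neg]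
  have h1 := O.inT s (z s) (z s) (hz.mem s) (hz.mem s)
  rw [inner_self_eq_norm_sq_to_K, inner_self_eq_norm_sq_to_K] at h1
  have h2 : ‖O.T s (z s)‖ ^ 2 = ‖z s‖ ^ 2 := by exact_mod_cast h1
  exact (sq_eq_sq₀ (norm_nonneg _) (norm_nonneg _)).1 h2

theorem cont_vk (hz : Continuous z) (hz' : Continuous z') : Continuous fun p : ℝ × ℝ => O.vk z z' p.1 p.2 := by
  unfold vk
  have h1 : Continuous fun p : ℝ × ℝ => O.J p.1 p.2 (z' (p.1 + p.2)) :=
    O.contJ.clm_apply (hz'.comp (continuous_fst.add continuous_snd))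
  exact (h1.inner (hz.comp continuous_fst)).neg

theorem cont_vk_s (hz : Continuous z) (hz' : Continuous z') (r : ℝ) : Continuous fun s => O.vk z z' s r :=
  (cont_vk hz hz').comp (continuous_id.prodMk continuous_const)

theorem cont_vk_r (hz : Continuous z) (hz' : Continuous z') (s : ℝ) : Continuous fun r => O.vk z z' s r :=
  (cont_vk hz hz').comp (continuous_const.prodMk continuous_id)

/-- the symmetry of the kernel -/
theorem vk_symm (hz : O.Den z) (hz' : O.Den z') (s r : ℝ) : O.vk z z' (s + r) (π - r) = conj (O.vk z' z s r) := by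
  unfold vk
  have h1 : s + r + (π - r) = s + π := by ring
  have h2 : π - r = -r + π := by ring
  have h3 : s + r + -r = s := by ring
  have h4 : O.J (s + r) (π - r) (z' (s + π)) = -O.J (s + r) (-r) (z' s) := by
    rw [hz'.odd, map_neg, h2]
    have := O.shR (s + r) (-r) (z' s)
    rw [h3] at this
    rw [this]
  rw [h1, h4, inner_neg_left, neg_neg, O.anti, map_neg, inner_conj_symm]

/-- periodicity -/
theorem vk_per (hz : O.Den z) (hz' : O.Den z') (r : ℝ) : Function.Periodic (fun s => O.vk z z' s r) π := by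
  intro s
  show -⟪O.J (s + π) r (z' (s + π + r)), z (s + π)⟫_ℂ = -⟪O.J s r (z' (s + r)), z s⟫_ℂ
  have h1 : s + π + r = s + r + π := by ring
  have h2 : O.J (s + π) r (z' (s + r + π)) = -O.T s (O.J s r (z' (s + r))) := by
    rw [hz'.odd, map_neg]
    have h3 := O.shR (s + π) (r - π) (z' (s + r))
    have h4 : r - π + π = r := by ring
    have h5 : s + π + (r - π) = s + r := by ring
    rw [h4, h5] at h3
    rw [h3, O.TJ]
  rw [h1, h2, hz.odd, inner_neg_neg, O.inT _ _ _ (O.PJ _ _ _) (hz.mem s)]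

theorem per_int {E : Type} [NormedAddCommGroup E] [NormedSpace ℝ E] {f : ℝ → E} (hf : Function.Periodic f π) (r : ℝ) :
    ∫ s in (0 : ℝ)..π, f (s + r) = ∫ s in (0 : ℝ)..π, f s := by
  rw [intervalIntegral.integral_comp_add_right, zero_add]
  have h1 := hf.intervalIntegral_add_eq r 0
  rw [zero_add, add_comm r π] at h1
  exact h1

theorem conj_int (f : ℝ → ℂ) (a b : ℝ) : ∫ s in a..b, conj (f s) = conj (∫ s in a..b, f s) := by
  simp only [intervalIntegral, integral_conj, map_sub]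

theorem Gk_symm (hz : O.Den z) (hz' : O.Den z') (r : ℝ) : O.Gk z z' (π - r) = conj (O.Gk z' z r) := by
  unfold Gk
  rw [← per_int (vk_per hz hz' (π - r)) r, ← conj_int]
  simp only [vk_symm hz hz']

theorem cont_Gk (hz : Continuous z) (hz' : Continuous z') : Continuous (O.Gk z z') := by
  unfold Gk
  exact intervalIntegral.continuous_parametric_intervalIntegral_of_continuous'
    (f := fun r s => O.vk z z' s r) ((cont_vk hz hz').comp continuous_swap) 0 π

/-! ### bilinearity -/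

theorem vk_add_left (z1 z2 z' : ℝ → H) (s r : ℝ) : O.vk (fun s => z1 s + z2 s) z' s r = O.vk z1 z' s r + O.vk z2 z' s r := by
  unfold vk
  rw [inner_add_right, neg_add]

theorem vk_add_right (z z1 z2 : ℝ → H) (s r : ℝ) : O.vk z (fun s => z1 s + z2 s) s r = O.vk z z1 s r + O.vk z z2 s r := by
  unfold vk
  rw [map_add, inner_add_left, neg_add]

theorem vk_smul_left (a : ℝ) (z z' : ℝ → H) (s r : ℝ) : O.vk (fun s => (a : ℂ) • z s) z' s r = a * O.vk z z' s r := by
  unfold vk
  rw [inner_smul_right, mul_neg]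

theorem vk_smul_right (a : ℝ) (z z' : ℝ → H) (s r : ℝ) : O.vk z (fun s => (a : ℂ) • z' s) s r = a * O.vk z z' s r := by
  unfold vk
  rw [map_smul, inner_smul_left, Complex.conj_ofReal, mul_neg]

theorem Gk_add_left {z1 z2 : ℝ → H} (h1 : Continuous z1) (h2 : Continuous z2) (h' : Continuous z') (r : ℝ) :
    O.Gk (fun s => z1 s + z2 s) z' r = O.Gk z1 z' r + O.Gk z2 z' r := by
  unfold Gk
  simp only [vk_add_left]
  exact intervalIntegral.integral_add ((cont_vk_s h1 h' r).intervalIntegrable _ _) ((cont_vk_s h2 h' r).intervalIntegrable _ _)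

theorem Gk_add_right {z1 z2 : ℝ → H} (h : Continuous z) (h1 : Continuous z1) (h2 : Continuous z2) (r : ℝ) :
    O.Gk z (fun s => z1 s + z2 s) r = O.Gk z z1 r + O.Gk z z2 r := by
  unfold Gk
  simp only [vk_add_right]
  exact intervalIntegral.integral_add ((cont_vk_s h h1 r).intervalIntegrable _ _) ((cont_vk_s h h2 r).intervalIntegrable _ _)

theorem Gk_smul_left (a : ℝ) (r : ℝ) : O.Gk (fun s => (a : ℂ) • z s) z' r = a * O.Gk z z' r := by
  unfold Gk
  simp only [vk_smul_left]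
  exact intervalIntegral.integral_const_mul _ _

theorem Gk_smul_right (a : ℝ) (r : ℝ) : O.Gk z (fun s => (a : ℂ) • z' s) r = a * O.Gk z z' r := by
  unfold Gk
  simp only [vk_smul_right]
  exact intervalIntegral.integral_const_mul _ _

/-! ### norms -/

theorem n2_nonneg (z : ℝ → H) : 0 ≤ n2 z := intervalIntegral.integral_nonneg pi_pos.le fun s _ => sq_nonneg _

theorem nr_nonneg (z : ℝ → H) : 0 ≤ nr z := Real.sqrt_nonneg _

theorem nr_sq (z : ℝ → H) : nr z ^ 2 = n2 z := Real.sq_sqrt (n2_nonneg z)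

/-- Cauchy-Schwarz -/
theorem int_mul_le {a b : ℝ → ℝ} (ha : Continuous a) (hb : Continuous b) :
    ∫ s in (0 : ℝ)..π, a s * b s ≤ √(∫ s in (0 : ℝ)..π, a s ^ 2) * √(∫ s in (0 : ℝ)..π, b s ^ 2) := by
  obtain ⟨A, hA⟩ : ∃ A, A = ∫ s in (0 : ℝ)..π, a s ^ 2 := ⟨_, rfl⟩
  obtain ⟨B, hB⟩ : ∃ B, B = ∫ s in (0 : ℝ)..π, b s ^ 2 := ⟨_, rfl⟩
  obtain ⟨X, hX⟩ : ∃ X, X = ∫ s in (0 : ℝ)..π, a s * b s := ⟨_, rfl⟩
  have hA0 : 0 ≤ A := by rw [hA]; exact intervalIntegral.integral_nonneg pi_pos.le fun s _ => sq_nonneg _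
  have hB0 : 0 ≤ B := by rw [hB]; exact intervalIntegral.integral_nonneg pi_pos.le fun s _ => sq_nonneg _
  have hq : ∀ t : ℝ, 0 ≤ A + 2 * t * X + t ^ 2 * B := by
    intro t
    have h1 : A + 2 * t * X + t ^ 2 * B = ∫ s in (0 : ℝ)..π, (a s + t * b s) ^ 2 := by
      have e1 : IntervalIntegrable (fun s => a s ^ 2) volume 0 π := (ha.pow 2).intervalIntegrable _ _
      have e2 : IntervalIntegrable (fun s => 2 * t * (a s * b s)) volume 0 π :=
        (continuous_const.mul (ha.mul hb)).intervalIntegrable _ _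
      have e3 : IntervalIntegrable (fun s => t ^ 2 * b s ^ 2) volume 0 π := (continuous_const.mul (hb.pow 2)).intervalIntegrable _ _
      rw [hA, hX, hB, ← intervalIntegral.integral_const_mul, ← intervalIntegral.integral_const_mul,
        ← intervalIntegral.integral_add e1 e2, ← intervalIntegral.integral_add (e1.add e2) e3]
      refine intervalIntegral.integral_congr fun s _ => ?_
      show a s ^ 2 + 2 * t * (a s * b s) + t ^ 2 * b s ^ 2 = (a s + t * b s) ^ 2
      ring
    rw [h1]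
    exact intervalIntegral.integral_nonneg pi_pos.le fun s _ => sq_nonneg _
  rw [← hA, ← hB, ← hX, ← Real.sqrt_mul hA0]
  refine Real.le_sqrt_of_sq_le ?_
  rcases hB0.eq_or_lt with h0 | h0
  · rw [← h0] at hq ⊢
    have h1 : X = 0 := by
      by_contra hX0
      have h2 := hq (-(A + 1) / (2 * X))
      have h3 : 2 * (-(A + 1) / (2 * X)) * X = -(A + 1) := by field_simp
      rw [h3] at h2
      linarith
    rw [h1]
    simp
  · have h2 := hq (-X / B)
    have h3 : A + 2 * (-X / B) * X + (-X / B) ^ 2 * B = A - X ^ 2 / B := by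
      field_simp
      ring
    rw [h3, sub_nonneg, div_le_iff₀ h0] at h2
    exact h2

theorem norm_vk_le {CJ : ℝ} (hC : ∀ s r, ‖O.J s r‖ ≤ CJ) (z z' : ℝ → H) (s r : ℝ) :
    ‖O.vk z z' s r‖ ≤ CJ * (‖z s‖ * ‖z' (s + r)‖) := by
  unfold vk
  rw [norm_neg]
  have h1 := norm_inner_le_norm (𝕜 := ℂ) (O.J s r (z' (s + r))) (z s)
  have h2 := (O.J s r).le_opNorm (z' (s + r))
  have h3 : ‖O.J s r‖ * ‖z' (s + r)‖ ≤ CJ * ‖z' (s + r)‖ := mul_le_mul_of_nonneg_right (hC s r) (norm_nonneg _)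
  calc _ ≤ ‖O.J s r (z' (s + r))‖ * ‖z s‖ := h1
    _ ≤ (CJ * ‖z' (s + r)‖) * ‖z s‖ := mul_le_mul_of_nonneg_right (h2.trans h3) (norm_nonneg _)
    _ = _ := by ring

theorem norm_Gk_le {CJ : ℝ} (hC0 : 0 ≤ CJ) (hC : ∀ s r, ‖O.J s r‖ ≤ CJ) (hz : O.Den z) (hz' : O.Den z') (r : ℝ) :
    ‖O.Gk z z' r‖ ≤ CJ * (nr z * nr z') := by
  unfold Gk
  have h1 : ‖∫ s in (0 : ℝ)..π, O.vk z z' s r‖ ≤ ∫ s in (0 : ℝ)..π, CJ * (‖z s‖ * ‖z' (s + r)‖) := by
    refine (intervalIntegral.norm_integral_le_integral_norm pi_pos.le).trans ?_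
    refine intervalIntegral.integral_mono_on pi_pos.le ((cont_vk_s hz.cont hz'.cont r).norm.intervalIntegrable _ _) ?_
      fun s _ => norm_vk_le hC z z' s r
    exact (continuous_const.mul (hz.cont.norm.mul (hz'.cont.comp (continuous_id.add continuous_const)).norm)).intervalIntegrable _ _
  refine h1.trans ?_
  rw [intervalIntegral.integral_const_mul]
  refine mul_le_mul_of_nonneg_left ?_ hC0
  refine (int_mul_le (a := fun s => ‖z s‖) (b := fun s => ‖z' (s + r)‖) hz.cont.norm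
    (hz'.cont.comp (continuous_id.add continuous_const)).norm).trans ?_
  have h2 : ∫ s in (0 : ℝ)..π, ‖z' (s + r)‖ ^ 2 = n2 z' := by
    have h3 : Function.Periodic (fun s => ‖z' s‖ ^ 2) π := fun s => by
      show ‖z' (s + π)‖ ^ 2 = _
      rw [show ‖z' (s + π)‖ = ‖z' s‖ from hz'.norm_per s]
    exact per_int h3 r
  rw [h2]
  rfl

end OD

end Pool.Agent.Lib.MP_ccbbf6_gt.K7.GG
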