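import Pool.Agent.Lib.MP_ccbbf6_gt.K7.GG1

/-!
# Level 5, kappa = 7, block G, GG2: the twisted forms `F_μ`, the operators `H_μ`, the derivative in `μ` (abstract) (helper2)
-/

set_option autoImplicit false
set_option linter.unusedSectionVars false
set_option linter.unusedVariables false

open Set Filter Topology Metric Real MeasureTheory
open scoped InnerProductSpace ComplexConjugate

noncomputable section

namespace Pool.Agent.Lib.MP_ccbbf6_gt.K7.GG

/-- Fubini for continuous functions -/
theorem swap_cont {E : Type} [NormedAddCommGroup E] [NormedSpace ℝ E] {f : ℝ → ℝ → E} (hf : Continuous fun p : ℝ × ℝ => f p.1 p.2)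
    (a b c d : ℝ) : ∫ x in a..b, ∫ y in c..d, f x y = ∫ y in c..d, ∫ x in a..b, f x y := by
  refine intervalIntegral_intervalIntegral_swap ?_
  have h6 : IntegrableOn (fun q : ℝ × ℝ => f q.1 q.2) (uIcc a b ×ˢ uIcc c d) volume :=
    hf.continuousOn.integrableOn_compact (isCompact_uIcc.prod isCompact_uIcc)
  exact h6.mono_set (Set.prod_mono uIoc_subset_uIcc uIoc_subset_uIcc)

theorem re_int {f : ℝ → ℂ} (hf : Continuous f) (a b : ℝ) : (∫ s in a..b, f s).re = ∫ s in a..b, (f s).re :=
  (ContinuousLinearMap.intervalIntegral_comp_comm Complex.reCLM (hf.intervalIntegrable a b)).symm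

theorem im_int {f : ℝ → ℂ} (hf : Continuous f) (a b : ℝ) : (∫ s in a..b, f s).im = ∫ s in a..b, (f s).im :=
  (ContinuousLinearMap.intervalIntegral_comp_comm Complex.imCLM (hf.intervalIntegrable a b)).symm

/-- the phase -/
def ph (μ r : ℝ) : ℂ := Complex.exp (Complex.I * ((μ * (π / 2 - r) : ℝ) : ℂ))

theorem norm_ph (μ r : ℝ) : ‖ph μ r‖ = 1 := by
  unfold ph
  rw [mul_comm, Complex.norm_exp_ofReal_mul_I]

theorem ph_refl (μ r : ℝ) : ph μ (π - r) = conj (ph μ r) := by
  unfold ph
  rw [← Complex.exp_conj, map_mul, Complex.conj_I, Complex.conj_ofReal]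
  congr 1
  have h1 : (μ * (π / 2 - (π - r)) : ℝ) = -(μ * (π / 2 - r)) := by ring
  rw [h1]
  push_cast
  ring

theorem cont_ph (μ : ℝ) : Continuous fun r => ph μ r := by
  unfold ph
  fun_prop

theorem cont_ph2 : Continuous fun p : ℝ × ℝ => ph p.1 p.2 := by
  unfold ph
  fun_prop

theorem refl_int {E : Type} [NormedAddCommGroup E] [NormedSpace ℝ E] (f : ℝ → E) :
    ∫ r in (0 : ℝ)..π, f (π - r) = ∫ r in (0 : ℝ)..π, f r := by
  rw [intervalIntegral.integral_comp_sub_left, sub_self, sub_zero]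

variable {H : Type} [NormedAddCommGroup H] [InnerProductSpace ℂ H] [CompleteSpace H]

namespace OD

variable (O : OD H)

/-- the twisted form -/
def Fm (μ : ℝ) (z z' : ℝ → H) : ℝ := (1 / 2) * ∫ r in (0 : ℝ)..π, (ph μ r * O.Gk z z' r).re

/-- its derivative in `μ` -/
def Dm (μ : ℝ) (z z' : ℝ → H) : ℝ := -(1 / 2) * ∫ r in (0 : ℝ)..π, (π / 2 - r) * (ph μ r * O.Gk z z' r).im

/-- the untwisted phase -/
def pu (μ r : ℝ) : ℂ := Complex.exp (-(Complex.I * ((μ * r : ℝ) : ℂ)))

/-- the mean value of the window forms -/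
def Am (μ : ℝ) (z : ℝ → H) : ℝ := ∫ r in (0 : ℝ)..π, ((π - r) / π) * (pu μ r * O.Gk z z r).re

/-- the window form at `b` -/
def hw (μ : ℝ) (z : ℝ → H) (b : ℝ) : ℝ :=
  ∫ r in (0 : ℝ)..π, (π - r) * ∫ σ in (0 : ℝ)..1, (pu μ r * O.vk z z (b + (π - r) * σ) r).re

/-- the operator -/
def Hm (μ : ℝ) (z : ℝ → H) (s : ℝ) : H := (-(1 / 2) : ℝ) • ∫ r in (0 : ℝ)..π, (conj (ph μ r)) • O.J s r (z (s + r))

variable {O} {z z' w : ℝ → H}

theorem cont_pu (μ : ℝ) : Continuous fun r => pu μ r := by
  unfold pu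
  fun_prop

theorem norm_pu (μ r : ℝ) : ‖pu μ r‖ = 1 := by
  unfold pu
  have h : -(Complex.I * ((μ * r : ℝ) : ℂ)) = ((-(μ * r) : ℝ) : ℂ) * Complex.I := by
    push_cast
    ring
  rw [h, Complex.norm_exp_ofReal_mul_I]

theorem Fm_symm (hz : O.Den z) (hz' : O.Den z') (μ : ℝ) : O.Fm μ z z' = O.Fm μ z' z := by
  unfold Fm
  rw [← refl_int]
  congr 1
  refine intervalIntegral.integral_congr fun r _ => ?_
  show (ph μ (π - r) * O.Gk z z' (π - r)).re = _
  rw [ph_refl, Gk_symm hz hz', ← map_mul, Complex.conj_re]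

/-- the imaginary part vanishes -/
theorem im_zero (hz : O.Den z) (μ : ℝ) : ∫ r in (0 : ℝ)..π, (ph μ r * O.Gk z z r).im = 0 := by
  have h1 : ∫ r in (0 : ℝ)..π, (ph μ r * O.Gk z z r).im = ∫ r in (0 : ℝ)..π, -(ph μ r * O.Gk z z r).im := by
    rw [← refl_int]
    refine intervalIntegral.integral_congr fun r _ => ?_
    show (ph μ (π - r) * O.Gk z z (π - r)).im = _
    rw [ph_refl, Gk_symm hz hz, ← map_mul, Complex.conj_im]
  rw [intervalIntegral.integral_neg] at h1
  linarith

theorem cont_phG (hz : Continuous z) (hz' : Continuous z') (μ : ℝ) : Continuous fun r => ph μ r * O.Gk z z' r :=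
  (cont_ph μ).mul (cont_Gk hz hz')

/-! ### the operator -/

theorem cont_HJ (hz : Continuous z) (μ : ℝ) : Continuous fun p : ℝ × ℝ => (conj (ph μ p.2)) • O.J p.1 p.2 (z (p.1 + p.2)) := by
  have h1 : Continuous fun p : ℝ × ℝ => O.J p.1 p.2 (z (p.1 + p.2)) :=
    O.contJ.clm_apply (hz.comp (continuous_fst.add continuous_snd))
  exact (Complex.continuous_conj.comp ((cont_ph μ).comp continuous_snd)).smul h1

theorem cont_Hm (hz : Continuous z) (μ : ℝ) : Continuous (O.Hm μ z) := by
  unfold Hm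
  refine Continuous.const_smul ?_ _
  exact intervalIntegral.continuous_parametric_intervalIntegral_of_continuous'
    (f := fun s r => (conj (ph μ r)) • O.J s r (z (s + r))) (cont_HJ hz μ) 0 π

theorem inner_Hm (hz : Continuous z) (hz' : Continuous z') (μ s : ℝ) :
    ⟪O.Hm μ z' s, z s⟫_ℂ = (1 / 2 : ℂ) * ∫ r in (0 : ℝ)..π, ph μ r * O.vk z z' s r := by
  unfold Hm
  have hc : Continuous fun r => (conj (ph μ r)) • O.J s r (z' (s + r)) :=
    (cont_HJ hz' μ).comp (continuous_const.prodMk continuous_id)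
  have h1 : ⟪∫ r in (0 : ℝ)..π, (conj (ph μ r)) • O.J s r (z' (s + r)), z s⟫_ℂ =
      ∫ r in (0 : ℝ)..π, ⟪(conj (ph μ r)) • O.J s r (z' (s + r)), z s⟫_ℂ := by
    rw [← inner_conj_symm]
    have h2 : ⟪z s, ∫ r in (0 : ℝ)..π, (conj (ph μ r)) • O.J s r (z' (s + r))⟫_ℂ =
        ∫ r in (0 : ℝ)..π, ⟪z s, (conj (ph μ r)) • O.J s r (z' (s + r))⟫_ℂ := by
      rw [intervalIntegral.integral_of_le pi_pos.le, intervalIntegral.integral_of_le pi_pos.le]
      exact (integral_inner (hc.integrableOn_Ioc) (z s)).symm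
    rw [h2, ← conj_int]
    simp only [inner_conj_symm]
  rw [← Complex.coe_smul, inner_smul_left, h1, Complex.conj_ofReal]
  have h3 : ∀ r, ⟪(conj (ph μ r)) • O.J s r (z' (s + r)), z s⟫_ℂ = -(ph μ r * O.vk z z' s r) := by
    intro r
    unfold vk
    rw [inner_smul_left, Complex.conj_conj]
    ring
  simp only [h3, intervalIntegral.integral_neg]
  push_cast
  ring

/-- the form through the operator -/
theorem Fm_eq (hz : Continuous z) (hz' : Continuous z') (μ : ℝ) :
    O.Fm μ z z' = ∫ s in (0 : ℝ)..π, (⟪O.Hm μ z' s, z s⟫_ℂ).re := by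
  have hc : Continuous fun p : ℝ × ℝ => ph μ p.2 * O.vk z z' p.1 p.2 := ((cont_ph μ).comp continuous_snd).mul (cont_vk hz hz')
  have h1 : ∀ s, (⟪O.Hm μ z' s, z s⟫_ℂ).re = (1 / 2) * ∫ r in (0 : ℝ)..π, (ph μ r * O.vk z z' s r).re := by
    intro s
    rw [inner_Hm hz hz', ← re_int (f := fun r => ph μ r * O.vk z z' s r) (hc.comp (continuous_const.prodMk continuous_id))]
    have h2 : (1 / 2 : ℂ) = ((1 / 2 : ℝ) : ℂ) := by push_cast; rfl
    rw [h2, Complex.re_ofReal_mul]
  simp only [h1]
  rw [intervalIntegral.integral_const_mul, swap_cont (f := fun s r => (ph μ r * O.vk z z' s r).re) (Complex.continuous_re.comp hc)]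
  unfold Fm
  congr 1
  refine intervalIntegral.integral_congr fun r _ => ?_
  show (ph μ r * O.Gk z z' r).re = ∫ s in (0 : ℝ)..π, (ph μ r * O.vk z z' s r).re
  rw [← re_int (f := fun s => ph μ r * O.vk z z' s r) (hc.comp (continuous_id.prodMk continuous_const)),
    intervalIntegral.integral_const_mul]
  rfl

theorem Den_Hm (hz : O.Den z) (μ : ℝ) : O.Den (O.Hm μ z) := by
  refine ⟨cont_Hm hz.cont μ, fun s => ?_, fun s => ?_⟩
  · unfold Hm
    rw [(O.P s).map_smul_of_tower]
    congr 1
    have hc : Continuous fun r => (conj (ph μ r)) • O.J s r (z (s + r)) :=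
      (cont_HJ hz.cont μ).comp (continuous_const.prodMk continuous_id)
    rw [← ContinuousLinearMap.intervalIntegral_comp_comm (O.P s) (hc.intervalIntegrable _ _)]
    refine intervalIntegral.integral_congr fun r _ => ?_
    show O.P s ((conj (ph μ r)) • O.J s r (z (s + r))) = _
    rw [map_smul, O.PJ]
  · unfold Hm
    rw [(O.T s).map_smul_of_tower, ← smul_neg]
    congr 1
    have hc : Continuous fun r => (conj (ph μ r)) • O.J s r (z (s + r)) :=
      (cont_HJ hz.cont μ).comp (continuous_const.prodMk continuous_id)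
    rw [← ContinuousLinearMap.intervalIntegral_comp_comm (O.T s) (hc.intervalIntegrable _ _), ← intervalIntegral.integral_neg]
    refine intervalIntegral.integral_congr fun r _ => ?_
    show (conj (ph μ r)) • O.J (s + π) r (z (s + π + r)) = -O.T s ((conj (ph μ r)) • O.J s r (z (s + r)))
    have h1 : s + π + r = s + r + π := by ring
    have h3 := O.shR (s + π) (r - π) (z (s + r))
    have h4 : r - π + π = r := by ring
    have h5 : s + π + (r - π) = s + r := by ring
    rw [h4, h5] at h3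
    rw [h1, hz.odd, map_neg, h3, map_smul, O.TJ, smul_neg]

theorem norm_Hm_le {CJ : ℝ} (hC0 : 0 ≤ CJ) (hC : ∀ s r, ‖O.J s r‖ ≤ CJ) (hz : O.Den z) (μ s : ℝ) :
    ‖O.Hm μ z s‖ ≤ CJ * (√π * nr z) := by
  unfold Hm
  have h1 : ‖∫ r in (0 : ℝ)..π, (conj (ph μ r)) • O.J s r (z (s + r))‖ ≤ ∫ r in (0 : ℝ)..π, CJ * (1 * ‖z (r + s)‖) := by
    refine (intervalIntegral.norm_integral_le_integral_norm pi_pos.le).trans ?_
    refine intervalIntegral.integral_mono_on pi_pos.le
      (((cont_HJ hz.cont μ).comp (continuous_const.prodMk continuous_id)).norm.intervalIntegrable _ _) ?_ fun r _ => ?_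
    · exact (continuous_const.mul (continuous_const.mul (hz.cont.comp (continuous_id.add continuous_const)).norm)).intervalIntegrable _ _
    · show ‖(conj (ph μ r)) • O.J s r (z (s + r))‖ ≤ _
      rw [norm_smul, RCLike.norm_conj, norm_ph, one_mul, one_mul, add_comm s r]
      exact ((O.J s r).le_opNorm _).trans (mul_le_mul_of_nonneg_right (hC s r) (norm_nonneg _))
  have h2 : ∫ r in (0 : ℝ)..π, CJ * (1 * ‖z (r + s)‖) ≤ CJ * (√π * nr z) := by
    rw [intervalIntegral.integral_const_mul]
    refine mul_le_mul_of_nonneg_left ?_ hC0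
    refine (int_mul_le (a := fun _ => 1) (b := fun r => ‖z (r + s)‖) continuous_const
      (hz.cont.comp (continuous_id.add continuous_const)).norm).trans ?_
    have h3 : Function.Periodic (fun s => ‖z s‖ ^ 2) π := fun s => by
      show ‖z (s + π)‖ ^ 2 = _
      rw [show ‖z (s + π)‖ = ‖z s‖ from hz.norm_per s]
    rw [per_int h3 s]
    have h4 : ∫ s in (0 : ℝ)..π, (1 : ℝ) ^ 2 = π := by simp
    rw [h4]
    rfl
  rw [norm_smul]
  have h3 : ‖(-(1 / 2) : ℝ)‖ ≤ 1 := by
    rw [norm_neg, Real.norm_of_nonneg (by norm_num)]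
    norm_num
  calc _ ≤ 1 * ‖∫ r in (0 : ℝ)..π, (conj (ph μ r)) • O.J s r (z (s + r))‖ := mul_le_mul_of_nonneg_right h3 (norm_nonneg _)
    _ ≤ _ := by rw [one_mul]; exact h1.trans h2

theorem nr_Hm_le {CJ : ℝ} (hC0 : 0 ≤ CJ) (hC : ∀ s r, ‖O.J s r‖ ≤ CJ) (hz : O.Den z) (μ : ℝ) :
    nr (O.Hm μ z) ≤ CJ * π * nr z := by
  have h0 : 0 ≤ CJ * π * nr z := mul_nonneg (mul_nonneg hC0 pi_pos.le) (nr_nonneg _)
  unfold nr
  rw [show √(n2 z) = nr z from rfl]
  refine Real.sqrt_le_iff.2 ⟨h0, ?_⟩
  have h1 : n2 (O.Hm μ z) ≤ ∫ s in (0 : ℝ)..π, (CJ * (√π * nr z)) ^ 2 := by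
    refine intervalIntegral.integral_mono_on pi_pos.le (((cont_Hm hz.cont μ).norm.pow 2).intervalIntegrable _ _)
      (continuous_const.intervalIntegrable _ _) fun s _ => ?_
    exact pow_le_pow_left₀ (norm_nonneg _) (norm_Hm_le hC0 hC hz μ s) 2
  refine h1.trans ?_
  rw [intervalIntegral.integral_const, sub_zero, smul_eq_mul, mul_pow, mul_pow, Real.sq_sqrt pi_pos.le]
  refine le_of_eq ?_
  ring

/-! ### the derivative -/

/-- the derivative of the form in `μ` through the mean value of the window forms -/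
theorem sin_Dm (hz : O.Den z) (μ : ℝ) :
    Real.sin (π * μ / 2) * O.Dm μ z z = (π / 2) * (Real.cos (π * μ / 2) * O.Fm μ z z - O.Am μ z) := by
  obtain ⟨θ, hθ⟩ : ∃ θ, θ = π * μ / 2 := ⟨_, rfl⟩
  obtain ⟨g, hg⟩ : ∃ g : ℝ → ℂ, g = fun r => ph μ r * O.Gk z z r := ⟨_, rfl⟩
  have hgc : Continuous g := by rw [hg]; exact cont_phG hz.cont hz.cont μ
  have hgs : ∀ r, g (π - r) = conj (g r) := fun r => by
    rw [hg]
    show ph μ (π - r) * O.Gk z z (π - r) = _
    rw [ph_refl, Gk_symm hz hz, ← map_mul]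
  have hpu : ∀ r, pu μ r * O.Gk z z r = Complex.exp (-(Complex.I * (θ : ℂ))) * g r := by
    intro r
    rw [hg]
    show _ = Complex.exp _ * (ph μ r * _)
    rw [← mul_assoc]
    congr 1
    unfold pu ph
    rw [← Complex.exp_add]
    congr 1
    rw [hθ]
    push_cast
    ring
  have hre : ∀ r, (pu μ r * O.Gk z z r).re = Real.cos θ * (g r).re + Real.sin θ * (g r).im := by
    intro r
    rw [hpu]
    have h1 : -(Complex.I * (θ : ℂ)) = ((-θ : ℝ) : ℂ) * Complex.I := by
      push_cast
      ring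
    rw [h1, Complex.mul_re, Complex.exp_ofReal_mul_I_re, Complex.exp_ofReal_mul_I_im, Real.cos_neg, Real.sin_neg]
    ring
  have e1 : O.Fm μ z z = (1 / 2) * ∫ r in (0 : ℝ)..π, (g r).re := by rw [hg]; rfl
  have e2 : O.Dm μ z z = -(1 / 2) * ∫ r in (0 : ℝ)..π, (π / 2 - r) * (g r).im := by rw [hg]; rfl
  have c1 : Continuous fun r => (g r).re := Complex.continuous_re.comp hgc
  have c2 : Continuous fun r => (g r).im := Complex.continuous_im.comp hgc
  -- the weighted real part
  have e3 : ∫ r in (0 : ℝ)..π, ((π - r) / π) * (g r).re = (1 / 2) * ∫ r in (0 : ℝ)..π, (g r).re := by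
    have h1 : ∫ r in (0 : ℝ)..π, ((π - r) / π) * (g r).re = ∫ r in (0 : ℝ)..π, (r / π) * (g r).re := by
      rw [← refl_int]
      refine intervalIntegral.integral_congr fun r _ => ?_
      show ((π - (π - r)) / π) * (g (π - r)).re = _
      rw [hgs, Complex.conj_re]
      congr 2
      ring
    have h2 : (∫ r in (0 : ℝ)..π, ((π - r) / π) * (g r).re) + ∫ r in (0 : ℝ)..π, (r / π) * (g r).re = ∫ r in (0 : ℝ)..π, (g r).re := by
      rw [← intervalIntegral.integral_add]
      · refine intervalIntegral.integral_congr fun r _ => ?_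
        show ((π - r) / π) * (g r).re + (r / π) * (g r).re = _
        field_simp
        ring
      · exact (((continuous_const.sub continuous_id).div_const π).mul c1).intervalIntegrable _ _
      · exact ((continuous_id.div_const π).mul c1).intervalIntegrable _ _
    rw [← h1] at h2
    linarith
  have e4 : ∫ r in (0 : ℝ)..π, (g r).im = 0 := by rw [hg]; exact im_zero hz μ
  have e5 : ∫ r in (0 : ℝ)..π, ((π - r) / π) * (g r).im = (1 / π) * ∫ r in (0 : ℝ)..π, (π / 2 - r) * (g r).im := by
    have h1 : ∀ r, ((π - r) / π) * (g r).im = (1 / 2) * (g r).im + (1 / π) * ((π / 2 - r) * (g r).im) := by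
      intro r
      field_simp
      ring
    simp only [h1]
    have i1 : IntervalIntegrable (fun r => (1 / 2) * (g r).im) volume 0 π := (continuous_const.mul c2).intervalIntegrable _ _
    have i2 : IntervalIntegrable (fun r => (1 / π) * ((π / 2 - r) * (g r).im)) volume 0 π :=
      (continuous_const.mul ((continuous_const.sub continuous_id).mul c2)).intervalIntegrable _ _
    rw [intervalIntegral.integral_add i1 i2, intervalIntegral.integral_const_mul, intervalIntegral.integral_const_mul, e4]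
    ring
  have e6 : O.Am μ z = Real.cos θ * (∫ r in (0 : ℝ)..π, ((π - r) / π) * (g r).re) +
      Real.sin θ * ∫ r in (0 : ℝ)..π, ((π - r) / π) * (g r).im := by
    unfold Am
    have h1 : ∀ r, ((π - r) / π) * (pu μ r * O.Gk z z r).re =
        Real.cos θ * (((π - r) / π) * (g r).re) + Real.sin θ * (((π - r) / π) * (g r).im) := by
      intro r
      rw [hre]
      ring
    simp only [h1]
    rw [intervalIntegral.integral_add, intervalIntegral.integral_const_mul, intervalIntegral.integral_const_mul]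
    · exact (continuous_const.mul (((continuous_const.sub continuous_id).div_const π).mul c1)).intervalIntegrable _ _
    · exact (continuous_const.mul (((continuous_const.sub continuous_id).div_const π).mul c2)).intervalIntegrable _ _
  rw [← hθ, e6, e3, e5, e1, e2]
  have hp := pi_ne_zero
  field_simp
  ring

/-- the mean value of the window forms -/
theorem Am_eq (hz : O.Den z) (μ : ℝ) : π * O.Am μ z = ∫ b in (0 : ℝ)..π, O.hw μ z b := by
  have hf : Continuous fun p : ℝ × ℝ => (pu μ p.2 * O.vk z z p.1 p.2).re :=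
    Complex.continuous_re.comp (((cont_pu μ).comp continuous_snd).mul (cont_vk hz.cont hz.cont))
  unfold hw
  rw [swap_cont (f := fun b r => (π - r) * ∫ σ in (0 : ℝ)..1, (pu μ r * O.vk z z (b + (π - r) * σ) r).re)]
  · unfold Am
    rw [← intervalIntegral.integral_const_mul]
    refine intervalIntegral.integral_congr fun r _ => ?_
    show π * (((π - r) / π) * (pu μ r * O.Gk z z r).re) =
      ∫ b in (0 : ℝ)..π, (π - r) * ∫ σ in (0 : ℝ)..1, (pu μ r * O.vk z z (b + (π - r) * σ) r).re
    rw [intervalIntegral.integral_const_mul, swap_cont (f := fun b σ => (pu μ r * O.vk z z (b + (π - r) * σ) r).re)]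
    · have h1 : ∀ σ : ℝ, ∫ b in (0 : ℝ)..π, (pu μ r * O.vk z z (b + (π - r) * σ) r).re = (pu μ r * O.Gk z z r).re := by
        intro σ
        have h2 : Function.Periodic (fun s => (pu μ r * O.vk z z s r).re) π := fun s => by
          show (pu μ r * O.vk z z (s + π) r).re = _
          rw [show O.vk z z (s + π) r = O.vk z z s r from vk_per hz hz r s]
        rw [per_int h2 ((π - r) * σ), ← re_int (f := fun s => pu μ r * O.vk z z s r)
          ((continuous_const).mul (cont_vk_s hz.cont hz.cont r)), intervalIntegral.integral_const_mul]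
        rfl
      simp only [h1]
      rw [intervalIntegral.integral_const, sub_zero, one_smul]
      field_simp
    · exact hf.comp ((continuous_fst.add (continuous_const.mul continuous_snd)).prodMk continuous_const)
  · have h1 : Continuous fun p : ℝ × ℝ => ∫ σ in (0 : ℝ)..1, (pu μ p.2 * O.vk z z (p.1 + (π - p.2) * σ) p.2).re := by
      refine intervalIntegral.continuous_parametric_intervalIntegral_of_continuous'
        (f := fun (p : ℝ × ℝ) σ => (pu μ p.2 * O.vk z z (p.1 + (π - p.2) * σ) p.2).re) ?_ 0 1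
      exact hf.comp (((continuous_fst.comp continuous_fst).add ((continuous_const.sub (continuous_snd.comp continuous_fst)).mul
        continuous_snd)).prodMk (continuous_snd.comp continuous_fst))
    exact (continuous_const.sub continuous_snd).mul h1

end OD

end Pool.Agent.Lib.MP_ccbbf6_gt.K7.GG
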