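import Pool.Agent.Lib.MP_ccbbf6_gt.K7.GG2

/-!
# Level 5, kappa = 7, block G, GG3: bilinearity, Taylor formula in `μ`, the lower bound of the derivative (abstract) (helper2)
-/

set_option autoImplicit false
set_option linter.unusedSectionVars false
set_option linter.unusedVariables false

open Set Filter Topology Metric Real MeasureTheory
open scoped InnerProductSpace ComplexConjugate

noncomputable section

namespace Pool.Agent.Lib.MP_ccbbf6_gt.K7.GG

variable {H : Type} [NormedAddCommGroup H] [InnerProductSpace ℂ H] [CompleteSpace H]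

namespace OD

variable {O : OD H} {z z' w : ℝ → H}

/-! ### bilinearity -/

theorem cont_re_phG (hz : Continuous z) (hz' : Continuous z') (μ : ℝ) : Continuous fun r => (ph μ r * O.Gk z z' r).re :=
  Complex.continuous_re.comp (cont_phG hz hz' μ)

theorem Fm_add_left {z1 z2 : ℝ → H} (h1 : Continuous z1) (h2 : Continuous z2) (h' : Continuous z') (μ : ℝ) :
    O.Fm μ (fun s => z1 s + z2 s) z' = O.Fm μ z1 z' + O.Fm μ z2 z' := by
  unfold Fm
  have i1 : IntervalIntegrable (fun r => (ph μ r * O.Gk z1 z' r).re) volume 0 π := (cont_re_phG h1 h' μ).intervalIntegrable _ _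
  have i2 : IntervalIntegrable (fun r => (ph μ r * O.Gk z2 z' r).re) volume 0 π := (cont_re_phG h2 h' μ).intervalIntegrable _ _
  rw [← mul_add, ← intervalIntegral.integral_add i1 i2]
  congr 1
  refine intervalIntegral.integral_congr fun r _ => ?_
  show (ph μ r * O.Gk (fun s => z1 s + z2 s) z' r).re = _
  rw [Gk_add_left h1 h2 h', mul_add, Complex.add_re]

theorem Fm_smul_left (a μ : ℝ) : O.Fm μ (fun s => (a : ℂ) • z s) z' = a * O.Fm μ z z' := by
  unfold Fm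
  have h1 : ∫ r in (0 : ℝ)..π, (ph μ r * O.Gk (fun s => (a : ℂ) • z s) z' r).re = a * ∫ r in (0 : ℝ)..π, (ph μ r * O.Gk z z' r).re := by
    rw [← intervalIntegral.integral_const_mul]
    refine intervalIntegral.integral_congr fun r _ => ?_
    show (ph μ r * O.Gk (fun s => (a : ℂ) • z s) z' r).re = a * (ph μ r * O.Gk z z' r).re
    rw [Gk_smul_left, mul_left_comm, Complex.re_ofReal_mul]
  rw [h1]
  ring

theorem Fm_add_right {z1 z2 : ℝ → H} (hz : Continuous z) (h1 : Continuous z1) (h2 : Continuous z2) (μ : ℝ) :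
    O.Fm μ z (fun s => z1 s + z2 s) = O.Fm μ z z1 + O.Fm μ z z2 := by
  unfold Fm
  have i1 : IntervalIntegrable (fun r => (ph μ r * O.Gk z z1 r).re) volume 0 π := (cont_re_phG hz h1 μ).intervalIntegrable _ _
  have i2 : IntervalIntegrable (fun r => (ph μ r * O.Gk z z2 r).re) volume 0 π := (cont_re_phG hz h2 μ).intervalIntegrable _ _
  rw [← mul_add, ← intervalIntegral.integral_add i1 i2]
  congr 1
  refine intervalIntegral.integral_congr fun r _ => ?_
  show (ph μ r * O.Gk z (fun s => z1 s + z2 s) r).re = _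
  rw [Gk_add_right hz h1 h2, mul_add, Complex.add_re]

theorem Fm_smul_right (a μ : ℝ) : O.Fm μ z (fun s => (a : ℂ) • z' s) = a * O.Fm μ z z' := by
  unfold Fm
  have h1 : ∫ r in (0 : ℝ)..π, (ph μ r * O.Gk z (fun s => (a : ℂ) • z' s) r).re = a * ∫ r in (0 : ℝ)..π, (ph μ r * O.Gk z z' r).re := by
    rw [← intervalIntegral.integral_const_mul]
    refine intervalIntegral.integral_congr fun r _ => ?_
    show (ph μ r * O.Gk z (fun s => (a : ℂ) • z' s) r).re = a * (ph μ r * O.Gk z z' r).re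
    rw [Gk_smul_right, mul_left_comm, Complex.re_ofReal_mul]
  rw [h1]
  ring

/-- the quadratic form on `z + a w` -/
theorem Fm_quad (hz : O.Den z) (hw : O.Den w) (a μ : ℝ) :
    O.Fm μ (fun s => z s + (a : ℂ) • w s) (fun s => z s + (a : ℂ) • w s) =
      O.Fm μ z z + 2 * a * O.Fm μ w z + a ^ 2 * O.Fm μ w w := by
  have hw1 : Continuous fun s => (a : ℂ) • w s := hw.cont.const_smul _
  have hzw : Continuous fun s => z s + (a : ℂ) • w s := hz.cont.add hw1
  rw [Fm_add_left hz.cont hw1 hzw, Fm_add_right hz.cont hz.cont hw1, Fm_add_right hw1 hz.cont hw1,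
    Fm_smul_left, Fm_smul_right, Fm_smul_left, Fm_smul_right, Fm_symm hz hw]
  ring

/-- the square of the norm of `z + a w` -/
theorem n2_quad (hz : Continuous z) (hw : Continuous w) (a : ℝ) :
    n2 (fun s => z s + (a : ℂ) • w s) = n2 z + 2 * a * (∫ s in (0 : ℝ)..π, (⟪w s, z s⟫_ℂ).re) + a ^ 2 * n2 w := by
  unfold n2
  have i1 : IntervalIntegrable (fun s => ‖z s‖ ^ 2) volume 0 π := (hz.norm.pow 2).intervalIntegrable _ _
  have i2 : IntervalIntegrable (fun s => 2 * a * (⟪w s, z s⟫_ℂ).re) volume 0 π :=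
    (continuous_const.mul (Complex.continuous_re.comp (hw.inner hz))).intervalIntegrable _ _
  have i3 : IntervalIntegrable (fun s => a ^ 2 * ‖w s‖ ^ 2) volume 0 π := (continuous_const.mul (hw.norm.pow 2)).intervalIntegrable _ _
  rw [← intervalIntegral.integral_const_mul, ← intervalIntegral.integral_const_mul, ← intervalIntegral.integral_add i1 i2,
    ← intervalIntegral.integral_add (i1.add i2) i3]
  refine intervalIntegral.integral_congr fun s _ => ?_
  show ‖z s + (a : ℂ) • w s‖ ^ 2 = ‖z s‖ ^ 2 + 2 * a * (⟪w s, z s⟫_ℂ).re + a ^ 2 * ‖w s‖ ^ 2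
  have h1 := norm_add_sq (𝕜 := ℂ) (z s) ((a : ℂ) • w s)
  rw [h1, inner_smul_right, norm_smul, mul_pow, Complex.norm_real, Real.norm_eq_abs, sq_abs]
  have h2 : RCLike.re ((a : ℂ) * ⟪z s, w s⟫_ℂ) = a * (⟪w s, z s⟫_ℂ).re := by
    show ((a : ℂ) * ⟪z s, w s⟫_ℂ).re = _
    rw [Complex.re_ofReal_mul, ← inner_conj_symm, Complex.conj_re]
  rw [h2]
  ring

/-! ### the form and the operator -/

theorem Fm_Hm (hz : O.Den z) (μ : ℝ) : O.Fm μ (O.Hm μ z) z = n2 (O.Hm μ z) := by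
  rw [Fm_eq (cont_Hm hz.cont μ) hz.cont]
  unfold n2
  refine intervalIntegral.integral_congr fun s _ => ?_
  show (⟪O.Hm μ z s, O.Hm μ z s⟫_ℂ).re = ‖O.Hm μ z s‖ ^ 2
  rw [inner_self_eq_norm_sq_to_K]
  norm_cast

theorem int_Hm (hz : O.Den z) (μ : ℝ) : ∫ s in (0 : ℝ)..π, (⟪O.Hm μ z s, z s⟫_ℂ).re = O.Fm μ z z :=
  (Fm_eq hz.cont hz.cont μ).symm

theorem Fm_le_mul (hz : O.Den z) (hz' : O.Den z') (μ : ℝ) : O.Fm μ z z' ≤ nr (O.Hm μ z') * nr z := by
  rw [Fm_eq hz.cont hz'.cont]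
  have h1 : ∫ s in (0 : ℝ)..π, (⟪O.Hm μ z' s, z s⟫_ℂ).re ≤ ∫ s in (0 : ℝ)..π, ‖O.Hm μ z' s‖ * ‖z s‖ := by
    refine intervalIntegral.integral_mono_on pi_pos.le
      ((Complex.continuous_re.comp ((cont_Hm hz'.cont μ).inner hz.cont)).intervalIntegrable _ _)
      (((cont_Hm hz'.cont μ).norm.mul hz.cont.norm).intervalIntegrable _ _) fun s _ => ?_
    exact (Complex.re_le_norm _).trans (norm_inner_le_norm _ _)
  exact h1.trans (int_mul_le (cont_Hm hz'.cont μ).norm hz.cont.norm)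

/-- first bound -/
theorem abs_Fm_le {CJ : ℝ} (hC0 : 0 ≤ CJ) (hC : ∀ s r, ‖O.J s r‖ ≤ CJ) (hz : O.Den z) (hz' : O.Den z') (μ : ℝ) :
    |O.Fm μ z z'| ≤ 2 * CJ * (nr z * nr z') := by
  unfold Fm
  have h1 : ‖∫ r in (0 : ℝ)..π, (ph μ r * O.Gk z z' r).re‖ ≤ (CJ * (nr z * nr z')) * |π - 0| := by
    refine intervalIntegral.norm_integral_le_of_norm_le_const fun r _ => ?_
    refine (Complex.abs_re_le_norm _).trans ?_
    rw [norm_mul, norm_ph, one_mul]
    exact norm_Gk_le hC0 hC hz hz' r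
  rw [sub_zero, abs_of_pos pi_pos, Real.norm_eq_abs] at h1
  rw [abs_mul, abs_of_pos (by norm_num : (0 : ℝ) < 1 / 2)]
  have h2 : 0 ≤ CJ * (nr z * nr z') := mul_nonneg hC0 (mul_nonneg (nr_nonneg _) (nr_nonneg _))
  nlinarith [pi_le_four, pi_pos]

/-! ### Taylor -/

theorem ph_add (μ h r : ℝ) : ph (μ + h) r = Complex.exp (Complex.I * ((h * (π / 2 - r) : ℝ) : ℂ)) * ph μ r := by
  unfold ph
  rw [← Complex.exp_add]
  congr 1
  push_cast
  ring

/-- Lipschitz in `μ` -/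
theorem Fm_lip {CJ : ℝ} (hC0 : 0 ≤ CJ) (hC : ∀ s r, ‖O.J s r‖ ≤ CJ) (hz : O.Den z) (hz' : O.Den z') (μ : ℝ) {h : ℝ}
    (h0 : 0 ≤ h) : |O.Fm (μ + h) z z' - O.Fm μ z z'| ≤ 4 * CJ * h * (nr z * nr z') := by
  have e1 : O.Fm (μ + h) z z' - O.Fm μ z z' = (1 / 2) * ∫ r in (0 : ℝ)..π, ((ph (μ + h) r - ph μ r) * O.Gk z z' r).re := by
    unfold Fm
    rw [← mul_sub, ← intervalIntegral.integral_sub ((cont_re_phG hz.cont hz'.cont (μ + h)).intervalIntegrable _ _)
      ((cont_re_phG hz.cont hz'.cont μ).intervalIntegrable _ _)]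
    congr 1
    refine intervalIntegral.integral_congr fun r _ => ?_
    show _ = ((ph (μ + h) r - ph μ r) * O.Gk z z' r).re
    rw [sub_mul, Complex.sub_re]
  rw [e1]
  have h2 : 0 ≤ CJ * (nr z * nr z') := mul_nonneg hC0 (mul_nonneg (nr_nonneg _) (nr_nonneg _))
  have h1 : ‖∫ r in (0 : ℝ)..π, ((ph (μ + h) r - ph μ r) * O.Gk z z' r).re‖ ≤ ((2 * h) * (CJ * (nr z * nr z'))) * |π - 0| := by
    refine intervalIntegral.norm_integral_le_of_norm_le_const fun r hr => ?_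
    rw [uIoc_of_le pi_pos.le] at hr
    refine (Complex.abs_re_le_norm _).trans ?_
    rw [norm_mul]
    refine mul_le_mul ?_ (norm_Gk_le hC0 hC hz hz' r) (norm_nonneg _) (by positivity)
    have h3 : ph (μ + h) r - ph μ r = (Complex.exp (Complex.I * ((h * (π / 2 - r) : ℝ) : ℂ)) - 1) * ph μ r := by
      rw [ph_add]
      ring
    rw [h3, norm_mul, norm_ph, mul_one]
    have h4 := Real.norm_exp_I_mul_ofReal_sub_one_le (x := h * (π / 2 - r))
    refine h4.trans ?_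
    rw [norm_mul, Real.norm_of_nonneg h0, mul_comm 2 h]
    refine mul_le_mul_of_nonneg_left ?_ h0
    rw [Real.norm_eq_abs, abs_le]
    constructor <;> linarith [hr.1, hr.2, pi_le_four]
  rw [sub_zero, abs_of_pos pi_pos, Real.norm_eq_abs] at h1
  rw [abs_mul, abs_of_pos (by norm_num : (0 : ℝ) < 1 / 2)]
  have h5 : 0 ≤ h * (CJ * (nr z * nr z')) := mul_nonneg h0 h2
  nlinarith [pi_le_four, pi_pos]

/-- the Taylor formula -/
theorem Fm_taylor {CJ : ℝ} (hC0 : 0 ≤ CJ) (hC : ∀ s r, ‖O.J s r‖ ≤ CJ) (hz : O.Den z) (hz' : O.Den z') (μ : ℝ) {h : ℝ}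
    (h0 : 0 ≤ h) (h1 : h ≤ 1 / 2) : |O.Fm (μ + h) z z' - O.Fm μ z z' - h * O.Dm μ z z'| ≤ 8 * CJ * h ^ 2 * (nr z * nr z') := by
  have cD : Continuous fun r => (π / 2 - r) * (ph μ r * O.Gk z z' r).im :=
    (continuous_const.sub continuous_id).mul (Complex.continuous_im.comp (cont_phG hz.cont hz'.cont μ))
  have e1 : O.Fm (μ + h) z z' - O.Fm μ z z' - h * O.Dm μ z z' = (1 / 2) * ∫ r in (0 : ℝ)..π,
      (((Complex.exp (Complex.I * ((h * (π / 2 - r) : ℝ) : ℂ)) - 1 - Complex.I * ((h * (π / 2 - r) : ℝ) : ℂ)) * ph μ r) *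
        O.Gk z z' r).re := by
    have i1 : IntervalIntegrable (fun r => (ph (μ + h) r * O.Gk z z' r).re) volume 0 π :=
      (cont_re_phG hz.cont hz'.cont (μ + h)).intervalIntegrable _ _
    have i2 : IntervalIntegrable (fun r => (ph μ r * O.Gk z z' r).re) volume 0 π :=
      (cont_re_phG hz.cont hz'.cont μ).intervalIntegrable _ _
    have i3 : IntervalIntegrable (fun r => -h * ((π / 2 - r) * (ph μ r * O.Gk z z' r).im)) volume 0 π :=
      (continuous_const.mul cD).intervalIntegrable _ _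
    have e2 : O.Fm (μ + h) z z' - O.Fm μ z z' - h * O.Dm μ z z' = (1 / 2) * ((∫ r in (0 : ℝ)..π, (ph (μ + h) r * O.Gk z z' r).re) -
        (∫ r in (0 : ℝ)..π, (ph μ r * O.Gk z z' r).re) - ∫ r in (0 : ℝ)..π, -h * ((π / 2 - r) * (ph μ r * O.Gk z z' r).im)) := by
      unfold Fm Dm
      rw [intervalIntegral.integral_const_mul]
      ring
    rw [e2, ← intervalIntegral.integral_sub i1 i2, ← intervalIntegral.integral_sub (i1.sub i2) i3]
    congr 1
    refine intervalIntegral.integral_congr fun r _ => ?_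
    show (ph (μ + h) r * O.Gk z z' r).re - (ph μ r * O.Gk z z' r).re - -h * ((π / 2 - r) * (ph μ r * O.Gk z z' r).im) = _
    rw [ph_add]
    obtain ⟨g, hg⟩ : ∃ g, g = ph μ r * O.Gk z z' r := ⟨_, rfl⟩
    obtain ⟨u, hu⟩ : ∃ u, u = Complex.exp (Complex.I * ((h * (π / 2 - r) : ℝ) : ℂ)) := ⟨_, rfl⟩
    obtain ⟨x, hx⟩ : ∃ x, x = h * (π / 2 - r) := ⟨_, rfl⟩
    rw [mul_assoc, mul_assoc _ (ph μ r) (O.Gk z z' r), ← hg, ← hu, ← hx]
    have h5 : (Complex.I * (x : ℂ) * g).re = -(x * g.im) := by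
      rw [mul_assoc, Complex.I_mul_re, Complex.im_ofReal_mul]
    have h6 : (u - 1 - Complex.I * (x : ℂ)) * g = u * g - g - Complex.I * (x : ℂ) * g := by ring
    rw [h6, Complex.sub_re, Complex.sub_re, h5, hx]
    ring
  rw [e1]
  have h2 : 0 ≤ CJ * (nr z * nr z') := mul_nonneg hC0 (mul_nonneg (nr_nonneg _) (nr_nonneg _))
  have h3 : ‖∫ r in (0 : ℝ)..π, (((Complex.exp (Complex.I * ((h * (π / 2 - r) : ℝ) : ℂ)) - 1 -
      Complex.I * ((h * (π / 2 - r) : ℝ) : ℂ)) * ph μ r) * O.Gk z z' r).re‖ ≤ ((4 * h ^ 2) * (CJ * (nr z * nr z'))) * |π - 0| := by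
    refine intervalIntegral.norm_integral_le_of_norm_le_const fun r hr => ?_
    rw [uIoc_of_le pi_pos.le] at hr
    refine (Complex.abs_re_le_norm _).trans ?_
    rw [norm_mul]
    refine mul_le_mul ?_ (norm_Gk_le hC0 hC hz hz' r) (norm_nonneg _) (by positivity)
    rw [norm_mul, norm_ph, mul_one]
    have hx1 : |π / 2 - r| ≤ π / 2 := by
      rw [abs_le]
      constructor <;> linarith [hr.1, hr.2]
    have hx2 : ‖Complex.I * ((h * (π / 2 - r) : ℝ) : ℂ)‖ = h * |π / 2 - r| := by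
      rw [norm_mul, Complex.norm_I, one_mul, Complex.norm_real, norm_mul, Real.norm_of_nonneg h0, Real.norm_eq_abs]
    have hx3 : ‖Complex.I * ((h * (π / 2 - r) : ℝ) : ℂ)‖ ≤ 1 := by
      rw [hx2]
      have := mul_le_mul h1 hx1 (abs_nonneg _) (by norm_num)
      linarith [pi_le_four]
    refine (Complex.norm_exp_sub_one_sub_id_le hx3).trans ?_
    rw [hx2, mul_pow]
    have h6 : |π / 2 - r| ^ 2 ≤ 2 ^ 2 := pow_le_pow_left₀ (abs_nonneg _) (by linarith [pi_le_four]) 2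
    nlinarith [sq_nonneg h]
  rw [sub_zero, abs_of_pos pi_pos, Real.norm_eq_abs] at h3
  rw [abs_mul, abs_of_pos (by norm_num : (0 : ℝ) < 1 / 2)]
  have h5 : 0 ≤ h ^ 2 * (CJ * (nr z * nr z')) := mul_nonneg (sq_nonneg h) h2
  nlinarith [pi_le_four, pi_pos]

/-! ### the lower bound of the derivative -/

theorem cont_hw (hz : O.Den z) (μ : ℝ) : Continuous (O.hw μ z) := by
  have hf : Continuous fun p : ℝ × ℝ => (pu μ p.2 * O.vk z z p.1 p.2).re :=
    Complex.continuous_re.comp (((cont_pu μ).comp continuous_snd).mul (cont_vk hz.cont hz.cont))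
  have h1 : Continuous fun p : ℝ × ℝ => ∫ σ in (0 : ℝ)..1, (pu μ p.2 * O.vk z z (p.1 + (π - p.2) * σ) p.2).re := by
    refine intervalIntegral.continuous_parametric_intervalIntegral_of_continuous'
      (f := fun (p : ℝ × ℝ) σ => (pu μ p.2 * O.vk z z (p.1 + (π - p.2) * σ) p.2).re) ?_ 0 1
    exact hf.comp (((continuous_fst.comp continuous_fst).add ((continuous_const.sub (continuous_snd.comp continuous_fst)).mul
      continuous_snd)).prodMk (continuous_snd.comp continuous_fst))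
  unfold hw
  exact intervalIntegral.continuous_parametric_intervalIntegral_of_continuous'
    (f := fun b r => (π - r) * ∫ σ in (0 : ℝ)..1, (pu μ r * O.vk z z (b + (π - r) * σ) r).re)
    ((continuous_const.sub continuous_snd).mul h1) 0 π

/-- the window inequality -/
def Win (O : OD H) (C μ : ℝ) : Prop := ∀ z : ℝ → H, O.Den z → ∀ b, O.hw μ z b ≤ C * (nr z * ‖O.Hm μ z b‖)

theorem Am_le {C μ : ℝ} (hC : 0 ≤ C) (hW : Win O C μ) (hz : O.Den z) : O.Am μ z ≤ C * (nr z * nr (O.Hm μ z)) := by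
  have h1 := Am_eq hz μ
  have h2 : ∫ b in (0 : ℝ)..π, O.hw μ z b ≤ ∫ b in (0 : ℝ)..π, (C * nr z) * (1 * ‖O.Hm μ z b‖) := by
    refine intervalIntegral.integral_mono_on pi_pos.le ((cont_hw hz μ).intervalIntegrable _ _)
      ((continuous_const.mul (continuous_const.mul (cont_Hm hz.cont μ).norm)).intervalIntegrable _ _) fun b _ => ?_
    have := hW z hz b
    linarith
  rw [intervalIntegral.integral_const_mul] at h2
  have h3 : ∫ b in (0 : ℝ)..π, (1 * ‖O.Hm μ z b‖) ≤ √π * nr (O.Hm μ z) := by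
    have h4 := int_mul_le (a := fun _ => 1) (b := fun b => ‖O.Hm μ z b‖) continuous_const (cont_Hm hz.cont μ).norm
    have h5 : ∫ s in (0 : ℝ)..π, (1 : ℝ) ^ 2 = π := by simp
    rw [h5] at h4
    exact h4
  have h6 : √π ≤ π := by
    rw [Real.sqrt_le_left pi_pos.le]
    nlinarith [pi_gt_three]
  have h7 : 0 ≤ C * nr z := mul_nonneg hC (nr_nonneg _)
  have h8 : π * O.Am μ z ≤ π * (C * (nr z * nr (O.Hm μ z))) := by
    rw [h1]
    calc _ ≤ (C * nr z) * (√π * nr (O.Hm μ z)) := h2.trans (mul_le_mul_of_nonneg_left h3 h7)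
      _ ≤ (C * nr z) * (π * nr (O.Hm μ z)) := mul_le_mul_of_nonneg_left (mul_le_mul_of_nonneg_right h6 (nr_nonneg _)) h7
      _ = _ := by ring
  exact le_of_mul_le_mul_left h8 pi_pos

theorem Dm_ge {C μ μ0 : ℝ} (hC : 0 ≤ C) (hW : Win O C μ) (hz : O.Den z) (h0 : 0 < μ0) (h1 : μ0 ≤ μ) (h2 : μ ≤ 1 / 2)
    (hF : 0 ≤ O.Fm μ z z) : -((2 * C / Real.sin (π * μ0 / 2)) * (nr z * nr (O.Hm μ z))) ≤ O.Dm μ z z := by
  have hs0 : 0 < Real.sin (π * μ0 / 2) := Real.sin_pos_of_pos_of_lt_pi (by positivity) (by nlinarith [pi_pos])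
  have hsm : Real.sin (π * μ0 / 2) ≤ Real.sin (π * μ / 2) := by
    refine Real.sin_le_sin_of_le_of_le_pi_div_two (by nlinarith [pi_pos]) (by nlinarith [pi_pos]) (by nlinarith [pi_pos])
  have hc : 0 ≤ Real.cos (π * μ / 2) := Real.cos_nonneg_of_mem_Icc ⟨by nlinarith [pi_pos], by nlinarith [pi_pos]⟩
  have h3 := sin_Dm hz μ
  have h4 := Am_le hC hW hz
  have h5 : 0 ≤ Real.cos (π * μ / 2) * O.Fm μ z z := mul_nonneg hc hF
  obtain ⟨X, hX⟩ : ∃ X, X = C * (nr z * nr (O.Hm μ z)) := ⟨_, rfl⟩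
  have hX0 : 0 ≤ X := by rw [hX]; exact mul_nonneg hC (mul_nonneg (nr_nonneg _) (nr_nonneg _))
  rw [← hX] at h4
  have h6 : -(2 * X) ≤ Real.sin (π * μ / 2) * O.Dm μ z z := by
    rw [h3]
    nlinarith [pi_pos, pi_le_four]
  have h7 : (2 * C / Real.sin (π * μ0 / 2)) * (nr z * nr (O.Hm μ z)) = 2 * X / Real.sin (π * μ0 / 2) := by
    rw [hX]
    ring
  rw [h7]
  have h8 : 0 < Real.sin (π * μ / 2) := hs0.trans_le hsm
  have h9 : 2 * X / Real.sin (π * μ / 2) ≤ 2 * X / Real.sin (π * μ0 / 2) :=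
    div_le_div_of_nonneg_left (by linarith) hs0 hsm
  have h10 : -(2 * X / Real.sin (π * μ / 2)) ≤ O.Dm μ z z := by
    rw [← neg_div, div_le_iff₀ h8]
    linarith
  linarith

end OD

end Pool.Agent.Lib.MP_ccbbf6_gt.K7.GG
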