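import Pool.Agent.Lib.MP_ccbbf6_gt.K7.GG3

/-!
# Level 5, kappa = 7, block G, GG5: complexification of real orbit data (helper2)

`RD D` : real data on `R^D` along one orbit; `RD.od` : the complex data on `C^D`; window inequality for real densities => `Win`.
-/

set_option autoImplicit false
set_option linter.unusedSectionVars false
set_option linter.unusedVariables false

open Set Filter Topology Metric Real MeasureTheory
open scoped InnerProductSpace ComplexConjugate

noncomputable section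

namespace Pool.Agent.Lib.MP_ccbbf6_gt.K7.GG

variable {D : ℕ}

/-- `C^D` -/
abbrev HC (D : ℕ) := EuclideanSpace ℂ (Fin D)
/-- `R^D` -/
abbrev HR (D : ℕ) := EuclideanSpace ℝ (Fin D)

/-- inclusion -/
def cx (D : ℕ) : HR D →L[ℝ] HC D := LinearMap.toContinuousLinearMap
  { toFun := fun y => WithLp.toLp 2 fun i => (y i : ℂ)
    map_add' := fun x y => by ext i; simp
    map_smul' := fun a x => by ext i; simp }

/-- real part -/
def reH (D : ℕ) : HC D →L[ℝ] HR D := LinearMap.toContinuousLinearMap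
  { toFun := fun z => WithLp.toLp 2 fun i => (z i).re
    map_add' := fun x y => by ext i; simp
    map_smul' := fun a x => by ext i; simp }

/-- imaginary part -/
def imH (D : ℕ) : HC D →L[ℝ] HR D := LinearMap.toContinuousLinearMap
  { toFun := fun z => WithLp.toLp 2 fun i => (z i).im
    map_add' := fun x y => by ext i; simp
    map_smul' := fun a x => by ext i; simp }

theorem cx_apply (y : HR D) (i : Fin D) : cx D y i = (y i : ℂ) := rfl
theorem reH_apply (z : HC D) (i : Fin D) : reH D z i = (z i).re := rfl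
theorem imH_apply (z : HC D) (i : Fin D) : imH D z i = (z i).im := rfl

theorem reH_cx (y : HR D) : reH D (cx D y) = y := by
  ext i
  rw [reH_apply, cx_apply, Complex.ofReal_re]

theorem imH_cx (y : HR D) : imH D (cx D y) = 0 := by
  ext i
  rw [imH_apply, cx_apply, Complex.ofReal_im]
  rfl

theorem reH_smul (a : ℂ) (z : HC D) : reH D (a • z) = a.re • reH D z - a.im • imH D z := by
  ext i
  show (a * z i).re = a.re * (z i).re - a.im * (z i).im
  rw [Complex.mul_re]

theorem imH_smul (a : ℂ) (z : HC D) : imH D (a • z) = a.im • reH D z + a.re • imH D z := by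
  ext i
  show (a * z i).im = a.im * (z i).re + a.re * (z i).im
  rw [Complex.mul_im]
  ring

/-- decomposition -/
theorem cx_ext (z : HC D) : cx D (reH D z) + Complex.I • cx D (imH D z) = z := by
  ext i
  show ((z i).re : ℂ) + Complex.I * ((z i).im : ℂ) = z i
  rw [mul_comm]
  exact Complex.re_add_im (z i)

theorem reH_mk (x y : HR D) : reH D (cx D x + Complex.I • cx D y) = x := by
  rw [map_add, reH_smul, reH_cx, imH_cx, reH_cx, Complex.I_re, Complex.I_im, zero_smul, smul_zero, sub_zero, add_zero]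

theorem imH_mk (x y : HR D) : imH D (cx D x + Complex.I • cx D y) = y := by
  rw [map_add, imH_smul, imH_cx, imH_cx, reH_cx, Complex.I_re, Complex.I_im, zero_add, one_smul, smul_zero, add_zero]

theorem ext_H {z w : HC D} (h1 : reH D z = reH D w) (h2 : imH D z = imH D w) : z = w := by
  rw [← cx_ext z, ← cx_ext w, h1, h2]

theorem smul_mk (a : ℂ) (x y : HR D) : a • (cx D x + Complex.I • cx D y) =
    cx D (a.re • x - a.im • y) + Complex.I • cx D (a.im • x + a.re • y) := by
  refine ext_H ?_ ?_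
  · rw [reH_smul, reH_mk, imH_mk, reH_mk]
  · rw [imH_smul, reH_mk, imH_mk, imH_mk]

theorem inner_H (z w : HC D) : ⟪z, w⟫_ℂ = ((⟪reH D z, reH D w⟫_ℝ + ⟪imH D z, imH D w⟫_ℝ : ℝ) : ℂ) +
    Complex.I * ((⟪reH D z, imH D w⟫_ℝ - ⟪imH D z, reH D w⟫_ℝ : ℝ) : ℂ) := by
  rw [PiLp.inner_apply, PiLp.inner_apply, PiLp.inner_apply, PiLp.inner_apply, PiLp.inner_apply, ← Finset.sum_add_distrib,
    ← Finset.sum_sub_distrib]
  push_cast
  rw [Finset.mul_sum, ← Finset.sum_add_distrib]
  refine Finset.sum_congr rfl fun i _ => ?_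
  simp only [RCLike.inner_apply, reH_apply, imH_apply, conj_trivial]
  apply Complex.ext <;> simp <;> ring

theorem re_inner_H (z w : HC D) : (⟪z, w⟫_ℂ).re = ⟪reH D z, reH D w⟫_ℝ + ⟪imH D z, imH D w⟫_ℝ := by
  rw [inner_H]
  simp

theorem norm_H (z : HC D) : ‖z‖ ^ 2 = ‖reH D z‖ ^ 2 + ‖imH D z‖ ^ 2 := by
  have h1 : (⟪z, z⟫_ℂ).re = ‖z‖ ^ 2 := by
    rw [inner_self_eq_norm_sq_to_K]
    norm_cast
  rw [← h1, re_inner_H, real_inner_self_eq_norm_sq, real_inner_self_eq_norm_sq]

theorem norm_reH_le (z : HC D) : ‖reH D z‖ ≤ ‖z‖ := by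
  refine (sq_le_sq₀ (norm_nonneg _) (norm_nonneg _)).1 ?_
  rw [norm_H z]
  have := sq_nonneg ‖imH D z‖
  linarith

theorem norm_imH_le (z : HC D) : ‖imH D z‖ ≤ ‖z‖ := by
  refine (sq_le_sq₀ (norm_nonneg _) (norm_nonneg _)).1 ?_
  rw [norm_H z]
  have := sq_nonneg ‖reH D z‖
  linarith

/-- complexification of operators -/
def cxL (D : ℕ) : (HR D →L[ℝ] HR D) →ₗ[ℝ] (HC D →L[ℂ] HC D) where
  toFun A := LinearMap.toContinuousLinearMap
    { toFun := fun z => cx D (A (reH D z)) + Complex.I • cx D (A (imH D z))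
      map_add' := fun x y => by
        simp only [map_add, smul_add]
        abel
      map_smul' := fun a x => by
        rw [RingHom.id_apply, smul_mk, reH_smul, imH_smul, map_sub, map_add, map_smul, map_smul, map_smul, map_smul] }
  map_add' A B := by
    ext1 z
    show cx D ((A + B) (reH D z)) + Complex.I • cx D ((A + B) (imH D z)) =
      (cx D (A (reH D z)) + Complex.I • cx D (A (imH D z))) + (cx D (B (reH D z)) + Complex.I • cx D (B (imH D z)))
    rw [add_apply, add_apply, map_add, map_add, smul_add]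
    abel
  map_smul' a A := by
    ext1 z
    show cx D ((a • A) (reH D z)) + Complex.I • cx D ((a • A) (imH D z)) =
      a • (cx D (A (reH D z)) + Complex.I • cx D (A (imH D z)))
    rw [smul_apply, smul_apply, map_smul, map_smul, smul_add, smul_comm]

theorem cxL_apply (A : HR D →L[ℝ] HR D) (z : HC D) : cxL D A z = cx D (A (reH D z)) + Complex.I • cx D (A (imH D z)) := rfl

theorem reH_cxL (A : HR D →L[ℝ] HR D) (z : HC D) : reH D (cxL D A z) = A (reH D z) := reH_mk _ _
theorem imH_cxL (A : HR D →L[ℝ] HR D) (z : HC D) : imH D (cxL D A z) = A (imH D z) := imH_mk _ _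

theorem cont_cxL : Continuous (cxL D) := LinearMap.continuous_of_finiteDimensional _

theorem norm_cxL_le {A : HR D →L[ℝ] HR D} {C : ℝ} (hC : 0 ≤ C) (h : ∀ y, ‖A y‖ ≤ C * ‖y‖) : ‖cxL D A‖ ≤ C := by
  refine ContinuousLinearMap.opNorm_le_bound _ hC fun z => ?_
  refine (sq_le_sq₀ (norm_nonneg _) (mul_nonneg hC (norm_nonneg _))).1 ?_
  rw [norm_H, reH_cxL, imH_cxL, mul_pow, norm_H z, mul_add, ← mul_pow, ← mul_pow]
  exact add_le_add (pow_le_pow_left₀ (norm_nonneg _) (h _) 2) (pow_le_pow_left₀ (norm_nonneg _) (h _) 2)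

/-- real data along one orbit -/
structure RD (D : ℕ) where
  J : ℝ → ℝ → (HR D →L[ℝ] HR D)
  T : ℝ → (HR D →L[ℝ] HR D)
  P : ℝ → (HR D →L[ℝ] HR D)
  contJ : Continuous fun z : ℝ × ℝ => J z.1 z.2
  anti : ∀ s r x y, ⟪J (s + r) (-r) x, y⟫_ℝ = -⟪x, J s r y⟫_ℝ
  shR : ∀ s r y, J s (r + π) (T (s + r) y) = J s r y
  TJ : ∀ s r y, T s (J s r y) = J (s + π) (r - π) y
  PJ : ∀ s r y, P s (J s r y) = J s r y
  inT : ∀ s x y, P s x = x → P s y = y → ⟪T s x, T s y⟫_ℝ = ⟪x, y⟫_ℝ

namespace RD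

variable (R : RD D)

/-- the complex data -/
def od : OD (HC D) where
  J s r := cxL D (R.J s r)
  T s := cxL D (R.T s)
  P s := cxL D (R.P s)
  contJ := cont_cxL.comp R.contJ
  anti s r x y := by
    rw [inner_H, inner_H, reH_cxL, imH_cxL, reH_cxL, imH_cxL, R.anti, R.anti, R.anti, R.anti]
    push_cast
    ring
  shR s r y := by
    refine ext_H ?_ ?_
    · rw [reH_cxL, reH_cxL, reH_cxL, R.shR]
    · rw [imH_cxL, imH_cxL, imH_cxL, R.shR]
  TJ s r y := by
    refine ext_H ?_ ?_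
    · rw [reH_cxL, reH_cxL, reH_cxL, R.TJ]
    · rw [imH_cxL, imH_cxL, imH_cxL, R.TJ]
  PJ s r y := by
    refine ext_H ?_ ?_
    · rw [reH_cxL, reH_cxL, R.PJ]
    · rw [imH_cxL, imH_cxL, R.PJ]
  inT s x y hx hy := by
    have h1 : R.P s (reH D x) = reH D x := by rw [← reH_cxL, hx]
    have h2 : R.P s (imH D x) = imH D x := by rw [← imH_cxL, hx]
    have h3 : R.P s (reH D y) = reH D y := by rw [← reH_cxL, hy]
    have h4 : R.P s (imH D y) = imH D y := by rw [← imH_cxL, hy]
    rw [inner_H, inner_H, reH_cxL, imH_cxL, reH_cxL, imH_cxL, R.inT _ _ _ h1 h3, R.inT _ _ _ h2 h4, R.inT _ _ _ h1 h4,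
      R.inT _ _ _ h2 h3]

/-- real densities (no oddness) -/
structure RDen (y : ℝ → HR D) : Prop where
  cont : Continuous y
  mem : ∀ s, R.P s (y s) = y s

/-- the real kernel function -/
def ry (y : ℝ → HR D) (s r : ℝ) : ℝ := -⟪y s, R.J s r (y (s + r))⟫_ℝ

/-- the real window form -/
def hr (y : ℝ → HR D) (b : ℝ) : ℝ := ∫ r in (0 : ℝ)..π, (π - r) * ∫ σ in (0 : ℝ)..1, R.ry y (b + (π - r) * σ) r

/-- the real evaluation -/
def er (y : ℝ → HR D) (b : ℝ) : HR D := ∫ r in (0 : ℝ)..π, R.J b r (y (b + r))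

/-- the real window inequality -/
def RWin (C : ℝ) : Prop := ∀ y, R.RDen y → ∀ b, R.hr y b ≤ C * ((∫ s in (0 : ℝ)..π, ‖y (b + s)‖) * ‖R.er y b‖)

variable {R}

theorem cont_ry {y : ℝ → HR D} (hy : Continuous y) : Continuous fun p : ℝ × ℝ => R.ry y p.1 p.2 := by
  unfold ry
  exact ((hy.comp continuous_fst).inner (R.contJ.clm_apply (hy.comp (continuous_fst.add continuous_snd)))).neg

/-- the twisted density -/
def tw (μ : ℝ) (z : ℝ → HC D) (s : ℝ) : HC D := Complex.exp (Complex.I * ((μ * s : ℝ) : ℂ)) • z s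

theorem norm_tw (μ : ℝ) (z : ℝ → HC D) (s : ℝ) : ‖tw μ z s‖ = ‖z s‖ := by
  unfold tw
  rw [norm_smul, mul_comm Complex.I, Complex.norm_exp_ofReal_mul_I, one_mul]

theorem cont_tw {z : ℝ → HC D} (hz : Continuous z) (μ : ℝ) : Continuous (tw μ z) := by
  unfold tw
  have h1 : Continuous fun s : ℝ => Complex.exp (Complex.I * ((μ * s : ℝ) : ℂ)) := by fun_prop
  exact h1.smul hz

theorem re_vk (μ : ℝ) (z : ℝ → HC D) (s r : ℝ) : (OD.pu μ r * R.od.vk z z s r).re =
    R.ry (fun s => reH D (tw μ z s)) s r + R.ry (fun s => imH D (tw μ z s)) s r := by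
  have h1 : OD.pu μ r * R.od.vk z z s r = -⟪R.od.J s r (tw μ z (s + r)), tw μ z s⟫_ℂ := by
    unfold OD.vk tw
    rw [map_smul, inner_smul_left, inner_smul_right, mul_neg, ← mul_assoc]
    congr 2
    unfold OD.pu
    rw [← Complex.exp_conj, ← Complex.exp_add]
    congr 1
    rw [map_mul, Complex.conj_I, Complex.conj_ofReal]
    push_cast
    ring
  rw [h1, Complex.neg_re, re_inner_H]
  show -(⟪reH D (cxL D (R.J s r) (tw μ z (s + r))), reH D (tw μ z s)⟫_ℝ +
    ⟪imH D (cxL D (R.J s r) (tw μ z (s + r))), imH D (tw μ z s)⟫_ℝ) = _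
  rw [reH_cxL, imH_cxL]
  unfold ry
  rw [real_inner_comm, real_inner_comm (imH D (tw μ z s))]
  ring

theorem Den_re {z : ℝ → HC D} (hz : R.od.Den z) (μ : ℝ) : R.RDen (fun s => reH D (tw μ z s)) := by
  refine ⟨(reH D).continuous.comp (cont_tw hz.cont μ), fun s => ?_⟩
  have h1 : cxL D (R.P s) (tw μ z s) = tw μ z s := by
    unfold tw
    rw [map_smul]
    congr 1
    exact hz.mem s
  rw [← reH_cxL, h1]

theorem Den_im {z : ℝ → HC D} (hz : R.od.Den z) (μ : ℝ) : R.RDen (fun s => imH D (tw μ z s)) := by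
  refine ⟨(imH D).continuous.comp (cont_tw hz.cont μ), fun s => ?_⟩
  have h1 : cxL D (R.P s) (tw μ z s) = tw μ z s := by
    unfold tw
    rw [map_smul]
    congr 1
    exact hz.mem s
  rw [← imH_cxL, h1]

theorem hw_eq {z : ℝ → HC D} (hz : R.od.Den z) (μ b : ℝ) : R.od.hw μ z b =
    R.hr (fun s => reH D (tw μ z s)) b + R.hr (fun s => imH D (tw μ z s)) b := by
  obtain ⟨y1, hy1⟩ : ∃ y1 : ℝ → HR D, y1 = fun s => reH D (tw μ z s) := ⟨_, rfl⟩
  obtain ⟨y2, hy2⟩ : ∃ y2 : ℝ → HR D, y2 = fun s => imH D (tw μ z s) := ⟨_, rfl⟩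
  have k1 : Continuous y1 := by rw [hy1]; exact (Den_re hz μ).cont
  have k2 : Continuous y2 := by rw [hy2]; exact (Den_im hz μ).cont
  have hvk : ∀ s r, (OD.pu μ r * R.od.vk z z s r).re = R.ry y1 s r + R.ry y2 s r := fun s r => by
    rw [hy1, hy2]
    exact re_vk μ z s r
  rw [← hy1, ← hy2]
  unfold OD.hw hr
  have hm : Continuous fun p : ℝ × ℝ => ((b + (π - p.1) * p.2, p.1) : ℝ × ℝ) := by fun_prop
  have d1 : Continuous fun p : ℝ × ℝ => R.ry y1 (b + (π - p.1) * p.2) p.1 := (cont_ry (R := R) k1).comp hm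
  have d2 : Continuous fun p : ℝ × ℝ => R.ry y2 (b + (π - p.1) * p.2) p.1 := (cont_ry (R := R) k2).comp hm
  have e1 : Continuous fun r : ℝ => ∫ σ in (0 : ℝ)..1, R.ry y1 (b + (π - r) * σ) r :=
    intervalIntegral.continuous_parametric_intervalIntegral_of_continuous'
      (f := fun r σ => R.ry y1 (b + (π - r) * σ) r) d1 0 1
  have e2 : Continuous fun r : ℝ => ∫ σ in (0 : ℝ)..1, R.ry y2 (b + (π - r) * σ) r :=
    intervalIntegral.continuous_parametric_intervalIntegral_of_continuous'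
      (f := fun r σ => R.ry y2 (b + (π - r) * σ) r) d2 0 1
  have i1 : IntervalIntegrable (fun r => (π - r) * ∫ σ in (0 : ℝ)..1, R.ry y1 (b + (π - r) * σ) r) volume 0 π :=
    ((continuous_const.sub continuous_id).mul e1).intervalIntegrable _ _
  have i2 : IntervalIntegrable (fun r => (π - r) * ∫ σ in (0 : ℝ)..1, R.ry y2 (b + (π - r) * σ) r) volume 0 π :=
    ((continuous_const.sub continuous_id).mul e2).intervalIntegrable _ _
  rw [← intervalIntegral.integral_add i1 i2]
  refine intervalIntegral.integral_congr fun r _ => ?_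
  show (π - r) * ∫ σ in (0 : ℝ)..1, (OD.pu μ r * R.od.vk z z (b + (π - r) * σ) r).re =
    (π - r) * (∫ σ in (0 : ℝ)..1, R.ry y1 (b + (π - r) * σ) r) + (π - r) * (∫ σ in (0 : ℝ)..1, R.ry y2 (b + (π - r) * σ) r)
  simp only [hvk]
  have j1 : IntervalIntegrable (fun σ => R.ry y1 (b + (π - r) * σ) r) volume 0 1 :=
    (d1.comp (continuous_const.prodMk continuous_id)).intervalIntegrable _ _
  have j2 : IntervalIntegrable (fun σ => R.ry y2 (b + (π - r) * σ) r) volume 0 1 :=
    (d2.comp (continuous_const.prodMk continuous_id)).intervalIntegrable _ _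
  rw [intervalIntegral.integral_add j1 j2, mul_add]

/-- the operator through the real evaluations -/
theorem norm_er_le {z : ℝ → HC D} (hz : R.od.Den z) (μ b : ℝ) :
    ‖R.er (fun s => reH D (tw μ z s)) b‖ ≤ 2 * ‖R.od.Hm μ z b‖ ∧ ‖R.er (fun s => imH D (tw μ z s)) b‖ ≤ 2 * ‖R.od.Hm μ z b‖ := by
  obtain ⟨E, hE⟩ : ∃ E : HC D, E = ∫ r in (0 : ℝ)..π, cxL D (R.J b r) (tw μ z (b + r)) := ⟨_, rfl⟩
  have hc : Continuous fun r => cxL D (R.J b r) (tw μ z (b + r)) :=
    (cont_cxL.comp (R.contJ.comp (continuous_const.prodMk continuous_id))).clm_apply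
      ((cont_tw hz.cont μ).comp (continuous_const.add continuous_id))
  have h1 : R.od.Hm μ z b = (-(1 / 2) : ℝ) • (Complex.exp (-(Complex.I * ((μ * (π / 2) + μ * b : ℝ) : ℂ))) • E) := by
    unfold OD.Hm
    congr 1
    rw [hE, ← intervalIntegral.integral_smul]
    refine intervalIntegral.integral_congr fun r _ => ?_
    show (conj (ph μ r)) • cxL D (R.J b r) (z (b + r)) = Complex.exp (-(Complex.I * ((μ * (π / 2) + μ * b : ℝ) : ℂ))) •
      cxL D (R.J b r) (tw μ z (b + r))
    unfold tw ph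
    rw [map_smul, smul_smul, ← Complex.exp_conj, ← Complex.exp_add]
    congr 2
    rw [map_mul, Complex.conj_I, Complex.conj_ofReal]
    push_cast
    ring
  have h2 : ‖R.od.Hm μ z b‖ = 1 / 2 * ‖E‖ := by
    have h3 : -(Complex.I * ((μ * (π / 2) + μ * b : ℝ) : ℂ)) = ((-(μ * (π / 2) + μ * b) : ℝ) : ℂ) * Complex.I := by
      push_cast
      ring
    rw [h1, norm_smul, norm_smul, h3, Complex.norm_exp_ofReal_mul_I, one_mul, norm_neg, Real.norm_of_nonneg (by norm_num)]
  have h3 : R.er (fun s => reH D (tw μ z s)) b = reH D E := by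
    rw [hE, ← ContinuousLinearMap.intervalIntegral_comp_comm _ (hc.intervalIntegrable _ _)]
    unfold er
    refine intervalIntegral.integral_congr fun r _ => ?_
    exact (reH_cxL _ _).symm
  have h4 : R.er (fun s => imH D (tw μ z s)) b = imH D E := by
    rw [hE, ← ContinuousLinearMap.intervalIntegral_comp_comm _ (hc.intervalIntegrable _ _)]
    unfold er
    refine intervalIntegral.integral_congr fun r _ => ?_
    exact (imH_cxL _ _).symm
  rw [h3, h4, h2]
  constructor
  · linarith [norm_reH_le E]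
  · linarith [norm_imH_le E]

/-- the window inequality -/
theorem win {C : ℝ} (hC : 0 ≤ C) (h : R.RWin C) (μ : ℝ) : OD.Win R.od (8 * C) μ := by
  intro z hz b
  rw [hw_eq hz]
  have h1 := h _ (Den_re hz μ) b
  have h2 := h _ (Den_im hz μ) b
  obtain ⟨h3, h4⟩ := norm_er_le hz μ b
  obtain ⟨Q, hQ⟩ : ∃ Q, Q = ‖R.od.Hm μ z b‖ := ⟨_, rfl⟩
  rw [← hQ] at h3 h4 ⊢
  have hQ0 : 0 ≤ Q := by rw [hQ]; exact norm_nonneg _
  have h5 : ∫ s in (0 : ℝ)..π, ‖z (b + s)‖ ≤ √π * OD.nr z := by
    have h6 : Function.Periodic (fun s => ‖z s‖ ^ 2) π := fun s => by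
      show ‖z (s + π)‖ ^ 2 = _
      rw [show ‖z (s + π)‖ = ‖z s‖ from hz.norm_per s]
    have h7 := OD.int_mul_le (a := fun _ => 1) (b := fun s => ‖z (s + b)‖) continuous_const
      (hz.cont.comp (continuous_id.add continuous_const)).norm
    rw [OD.per_int h6 b] at h7
    have h8 : ∫ s in (0 : ℝ)..π, (1 : ℝ) ^ 2 = π := by simp
    rw [h8] at h7
    simp only [one_mul] at h7
    simp only [add_comm b]
    exact h7
  have h9 : √π ≤ 2 := by
    rw [Real.sqrt_le_left (by norm_num)]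
    linarith [pi_le_four]
  have h10 : ∫ s in (0 : ℝ)..π, ‖z (b + s)‖ ≤ 2 * OD.nr z :=
    h5.trans (mul_le_mul_of_nonneg_right h9 (OD.nr_nonneg z))
  have a1 : ∫ s in (0 : ℝ)..π, ‖reH D (tw μ z (b + s))‖ ≤ 2 * OD.nr z := by
    refine le_trans ?_ h10
    refine intervalIntegral.integral_mono_on pi_pos.le ?_ ?_ fun s _ => ?_
    · exact ((Den_re hz μ).cont.comp (continuous_const.add continuous_id)).norm.intervalIntegrable _ _
    · exact (hz.cont.comp (continuous_const.add continuous_id)).norm.intervalIntegrable _ _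
    · rw [← norm_tw μ z (b + s)]
      exact norm_reH_le _
  have a2 : ∫ s in (0 : ℝ)..π, ‖imH D (tw μ z (b + s))‖ ≤ 2 * OD.nr z := by
    refine le_trans ?_ h10
    refine intervalIntegral.integral_mono_on pi_pos.le ?_ ?_ fun s _ => ?_
    · exact ((Den_im hz μ).cont.comp (continuous_const.add continuous_id)).norm.intervalIntegrable _ _
    · exact (hz.cont.comp (continuous_const.add continuous_id)).norm.intervalIntegrable _ _
    · rw [← norm_tw μ z (b + s)]
      exact norm_imH_le _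
  have b1 : (∫ s in (0 : ℝ)..π, ‖reH D (tw μ z (b + s))‖) * ‖R.er (fun s => reH D (tw μ z s)) b‖ ≤ (2 * OD.nr z) * (2 * Q) :=
    mul_le_mul a1 h3 (norm_nonneg _) (mul_nonneg (by norm_num) (OD.nr_nonneg z))
  have b2 : (∫ s in (0 : ℝ)..π, ‖imH D (tw μ z (b + s))‖) * ‖R.er (fun s => imH D (tw μ z s)) b‖ ≤ (2 * OD.nr z) * (2 * Q) :=
    mul_le_mul a2 h4 (norm_nonneg _) (mul_nonneg (by norm_num) (OD.nr_nonneg z))
  have c1 := mul_le_mul_of_nonneg_left b1 hC
  have c2 := mul_le_mul_of_nonneg_left b2 hC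
  linarith

end RD

end Pool.Agent.Lib.MP_ccbbf6_gt.K7.GG
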