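import Pool.Agent.Lib.MP_ccbbf6_gt.K7.GG5

/-!
# Level 5, kappa = 7, block G, GG6: the window inequality from the closed orbit (abstract, real) (helper2)
-/

set_option autoImplicit false
set_option linter.unusedSectionVars false
set_option linter.unusedVariables false

open Set Filter Topology Metric Real MeasureTheory
open scoped InnerProductSpace

noncomputable section

namespace Pool.Agent.Lib.MP_ccbbf6_gt.K7.GG

variable {D : ℕ}

namespace RD

variable {R : RD D}

/-- periodic data with bounds -/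
structure Per (R : RD D) (CJ : ℝ) : Prop where
  perJ : ∀ s r, R.J (s + 2 * π) r = R.J s r
  perP : ∀ s, R.P (s + 2 * π) = R.P s
  bd : ∀ s r y, ‖R.J s r y‖ ≤ CJ * ‖y‖
  bT : ∀ s y, ‖R.T s y‖ ≤ ‖y‖

/-- periodic densities -/
structure PDen (R : RD D) (w : ℝ → HR D) : Prop where
  cont : Continuous w
  mem : ∀ s, R.P s (w s) = w s
  per : Function.Periodic w (2 * π)

/-- the form of the closed orbit -/
def BR (R : RD D) (u v : ℝ → HR D) : ℝ := ∫ s in (0 : ℝ)..(2 * π), ∫ r in (0 : ℝ)..π, -⟪u s, R.J s r (v (s + r))⟫_ℝ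

/-- the `L^1` norm -/
def L1 (u : ℝ → HR D) : ℝ := ∫ s in (0 : ℝ)..(2 * π), ‖u s‖

/-- the evaluation -/
def Ev (R : RD D) (u : ℝ → HR D) : HR D := R.er u 0 - R.T π (R.er u π)

theorem L1_nonneg (u : ℝ → HR D) : 0 ≤ L1 u := intervalIntegral.integral_nonneg (by positivity) fun s _ => norm_nonneg _

theorem PDen.add {u v : ℝ → HR D} (hu : R.PDen u) (hv : R.PDen v) : R.PDen (fun s => u s + v s) :=
  ⟨hu.cont.add hv.cont, fun s => by rw [map_add, hu.mem, hv.mem], fun s => by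
    show u (s + 2 * π) + v (s + 2 * π) = _
    rw [hu.per, hv.per]⟩

theorem PDen.sub {u v : ℝ → HR D} (hu : R.PDen u) (hv : R.PDen v) : R.PDen (fun s => u s - v s) :=
  ⟨hu.cont.sub hv.cont, fun s => by rw [map_sub, hu.mem, hv.mem], fun s => by
    show u (s + 2 * π) - v (s + 2 * π) = _
    rw [hu.per, hv.per]⟩

theorem cont_BJ {u v : ℝ → HR D} (hu : Continuous u) (hv : Continuous v) :
    Continuous fun p : ℝ × ℝ => -⟪u p.1, R.J p.1 p.2 (v (p.1 + p.2))⟫_ℝ :=
  ((hu.comp continuous_fst).inner (R.contJ.clm_apply (hv.comp (continuous_fst.add continuous_snd)))).neg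

theorem cont_BI {u v : ℝ → HR D} (hu : Continuous u) (hv : Continuous v) :
    Continuous fun s : ℝ => ∫ r in (0 : ℝ)..π, -⟪u s, R.J s r (v (s + r))⟫_ℝ :=
  intervalIntegral.continuous_parametric_intervalIntegral_of_continuous'
    (f := fun s r => -⟪u s, R.J s r (v (s + r))⟫_ℝ) (cont_BJ hu hv) 0 π

theorem BR_add_left {u u' v : ℝ → HR D} (hu : Continuous u) (hu' : Continuous u') (hv : Continuous v) :
    R.BR (fun s => u s + u' s) v = R.BR u v + R.BR u' v := by
  unfold BR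
  have i1 : IntervalIntegrable (fun s => ∫ r in (0 : ℝ)..π, -⟪u s, R.J s r (v (s + r))⟫_ℝ) volume 0 (2 * π) :=
    (cont_BI hu hv).intervalIntegrable _ _
  have i2 : IntervalIntegrable (fun s => ∫ r in (0 : ℝ)..π, -⟪u' s, R.J s r (v (s + r))⟫_ℝ) volume 0 (2 * π) :=
    (cont_BI hu' hv).intervalIntegrable _ _
  rw [← intervalIntegral.integral_add i1 i2]
  refine intervalIntegral.integral_congr fun s _ => ?_
  show ∫ r in (0 : ℝ)..π, -⟪u s + u' s, R.J s r (v (s + r))⟫_ℝ =
    (∫ r in (0 : ℝ)..π, -⟪u s, R.J s r (v (s + r))⟫_ℝ) + ∫ r in (0 : ℝ)..π, -⟪u' s, R.J s r (v (s + r))⟫_ℝ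
  have j1 : IntervalIntegrable (fun r => -⟪u s, R.J s r (v (s + r))⟫_ℝ) volume 0 π :=
    ((cont_BJ hu hv).comp (continuous_const.prodMk continuous_id)).intervalIntegrable _ _
  have j2 : IntervalIntegrable (fun r => -⟪u' s, R.J s r (v (s + r))⟫_ℝ) volume 0 π :=
    ((cont_BJ hu' hv).comp (continuous_const.prodMk continuous_id)).intervalIntegrable _ _
  rw [← intervalIntegral.integral_add j1 j2]
  refine intervalIntegral.integral_congr fun r _ => ?_
  show -⟪u s + u' s, _⟫_ℝ = -⟪u s, _⟫_ℝ + -⟪u' s, _⟫_ℝ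
  rw [inner_add_left]
  ring

theorem BR_add_right {u v v' : ℝ → HR D} (hu : Continuous u) (hv : Continuous v) (hv' : Continuous v') :
    R.BR u (fun s => v s + v' s) = R.BR u v + R.BR u v' := by
  unfold BR
  have i1 : IntervalIntegrable (fun s => ∫ r in (0 : ℝ)..π, -⟪u s, R.J s r (v (s + r))⟫_ℝ) volume 0 (2 * π) :=
    (cont_BI hu hv).intervalIntegrable _ _
  have i2 : IntervalIntegrable (fun s => ∫ r in (0 : ℝ)..π, -⟪u s, R.J s r (v' (s + r))⟫_ℝ) volume 0 (2 * π) :=
    (cont_BI hu hv').intervalIntegrable _ _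
  rw [← intervalIntegral.integral_add i1 i2]
  refine intervalIntegral.integral_congr fun s _ => ?_
  show ∫ r in (0 : ℝ)..π, -⟪u s, R.J s r (v (s + r) + v' (s + r))⟫_ℝ =
    (∫ r in (0 : ℝ)..π, -⟪u s, R.J s r (v (s + r))⟫_ℝ) + ∫ r in (0 : ℝ)..π, -⟪u s, R.J s r (v' (s + r))⟫_ℝ
  have j1 : IntervalIntegrable (fun r => -⟪u s, R.J s r (v (s + r))⟫_ℝ) volume 0 π :=
    ((cont_BJ hu hv).comp (continuous_const.prodMk continuous_id)).intervalIntegrable _ _
  have j2 : IntervalIntegrable (fun r => -⟪u s, R.J s r (v' (s + r))⟫_ℝ) volume 0 π :=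
    ((cont_BJ hu hv').comp (continuous_const.prodMk continuous_id)).intervalIntegrable _ _
  rw [← intervalIntegral.integral_add j1 j2]
  refine intervalIntegral.integral_congr fun r _ => ?_
  show -⟪u s, R.J s r (v (s + r) + v' (s + r))⟫_ℝ = -⟪u s, R.J s r (v (s + r))⟫_ℝ + -⟪u s, R.J s r (v' (s + r))⟫_ℝ
  rw [map_add, inner_add_right]
  ring

theorem int_per_le {v : ℝ → HR D} (hv : Continuous v) (hp : Function.Periodic v (2 * π)) (s : ℝ) :
    ∫ r in (0 : ℝ)..π, ‖v (s + r)‖ ≤ L1 v := by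
  have h1 : ∫ r in (0 : ℝ)..(2 * π), ‖v (s + r)‖ = L1 v := by
    have h2 : Function.Periodic (fun s => ‖v s‖) (2 * π) := fun s => by
      show ‖v (s + 2 * π)‖ = _
      rw [hp]
    unfold L1
    have h3 := h2.intervalIntegral_add_eq s 0
    rw [zero_add] at h3
    rw [← h3, intervalIntegral.integral_comp_add_left (fun r => ‖v r‖) s, add_zero]
  rw [← h1]
  have hc : Continuous fun r => ‖v (s + r)‖ := (hv.comp (continuous_const.add continuous_id)).norm
  refine intervalIntegral.integral_mono_interval (le_refl _) pi_pos.le (by linarith [pi_pos]) ?_ (hc.intervalIntegrable _ _)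
  exact Filter.Eventually.of_forall fun r => norm_nonneg _

theorem abs_BR_le {CJ : ℝ} (hC0 : 0 ≤ CJ) (hR : R.Per CJ) {u v : ℝ → HR D} (hu : R.PDen u) (hv : R.PDen v) :
    |R.BR u v| ≤ CJ * (L1 u * L1 v) := by
  unfold BR
  have h1 : ∀ s, |∫ r in (0 : ℝ)..π, -⟪u s, R.J s r (v (s + r))⟫_ℝ| ≤ (CJ * L1 v) * ‖u s‖ := by
    intro s
    have h2 : |∫ r in (0 : ℝ)..π, -⟪u s, R.J s r (v (s + r))⟫_ℝ| ≤ ∫ r in (0 : ℝ)..π, (CJ * ‖u s‖) * ‖v (s + r)‖ := by
      refine (intervalIntegral.abs_integral_le_integral_abs pi_pos.le).trans ?_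
      refine intervalIntegral.integral_mono_on pi_pos.le ?_ ?_ fun r _ => ?_
      · exact (((cont_BJ hu.cont hv.cont).comp (continuous_const.prodMk continuous_id)).abs).intervalIntegrable _ _
      · exact (continuous_const.mul (hv.cont.comp (continuous_const.add continuous_id)).norm).intervalIntegrable _ _
      · rw [abs_neg]
        refine (abs_real_inner_le_norm _ _).trans ?_
        have := mul_le_mul_of_nonneg_left (hR.bd s r (v (s + r))) (norm_nonneg (u s))
        linarith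
    rw [intervalIntegral.integral_const_mul] at h2
    have h3 := mul_le_mul_of_nonneg_left (int_per_le hv.cont hv.per s) (mul_nonneg hC0 (norm_nonneg (u s)))
    linarith
  refine (intervalIntegral.abs_integral_le_integral_abs (by positivity)).trans ?_
  have h4 : ∫ s in (0 : ℝ)..(2 * π), |∫ r in (0 : ℝ)..π, -⟪u s, R.J s r (v (s + r))⟫_ℝ| ≤
      ∫ s in (0 : ℝ)..(2 * π), (CJ * L1 v) * ‖u s‖ :=
    intervalIntegral.integral_mono_on (by positivity) ((cont_BI hu.cont hv.cont).abs.intervalIntegrable _ _)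
      ((continuous_const.mul hu.cont.norm).intervalIntegrable _ _) fun s _ => h1 s
  rw [intervalIntegral.integral_const_mul] at h4
  refine h4.trans (le_of_eq ?_)
  show CJ * L1 v * L1 u = _
  ring

theorem cont_er {u : ℝ → HR D} (hu : Continuous u) (b : ℝ) : Continuous fun r => R.J b r (u (b + r)) :=
  (R.contJ.comp (continuous_const.prodMk continuous_id)).clm_apply (hu.comp (continuous_const.add continuous_id))

theorem er_add {u v : ℝ → HR D} (hu : Continuous u) (hv : Continuous v) (b : ℝ) :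
    R.er (fun s => u s + v s) b = R.er u b + R.er v b := by
  unfold er
  rw [← intervalIntegral.integral_add ((cont_er hu b).intervalIntegrable _ _) ((cont_er hv b).intervalIntegrable _ _)]
  refine intervalIntegral.integral_congr fun r _ => ?_
  exact map_add _ _ _

theorem Ev_add {u v : ℝ → HR D} (hu : Continuous u) (hv : Continuous v) : R.Ev (fun s => u s + v s) = R.Ev u + R.Ev v := by
  unfold Ev
  rw [er_add hu hv, er_add hu hv, map_add]
  abel

theorem norm_er_le' {CJ : ℝ} (hC0 : 0 ≤ CJ) (hR : R.Per CJ) {u : ℝ → HR D} (hu : R.PDen u) (b : ℝ) :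
    ‖R.er u b‖ ≤ CJ * L1 u := by
  unfold er
  refine (intervalIntegral.norm_integral_le_integral_norm pi_pos.le).trans ?_
  have h1 : ∫ r in (0 : ℝ)..π, ‖R.J b r (u (b + r))‖ ≤ ∫ r in (0 : ℝ)..π, CJ * ‖u (b + r)‖ :=
    intervalIntegral.integral_mono_on pi_pos.le ((cont_er hu.cont b).norm.intervalIntegrable _ _)
      ((continuous_const.mul (hu.cont.comp (continuous_const.add continuous_id)).norm).intervalIntegrable _ _)
      fun r _ => hR.bd b r _
  rw [intervalIntegral.integral_const_mul] at h1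
  exact h1.trans (mul_le_mul_of_nonneg_left (int_per_le hu.cont hu.per b) hC0)

theorem norm_Ev_le {CJ : ℝ} (hC0 : 0 ≤ CJ) (hR : R.Per CJ) {u : ℝ → HR D} (hu : R.PDen u) : ‖R.Ev u‖ ≤ 2 * CJ * L1 u := by
  unfold Ev
  have h1 := norm_er_le' hC0 hR hu 0
  have h2 := (hR.bT π (R.er u π)).trans (norm_er_le' hC0 hR hu π)
  have h3 := norm_sub_le (R.er u 0) (R.T π (R.er u π))
  linarith

/-- the inequality on the closed orbit -/
def RO (R : RD D) (C : ℝ) : Prop := ∀ w, R.PDen w → R.BR w w ≤ C * (L1 w * ‖R.Ev w‖)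

/-- the inequality from approximations -/
theorem ro_of {CJ C1 : ℝ} (hC0 : 0 ≤ CJ) (hC1 : 0 ≤ C1) (hR : R.Per CJ) {S : (ℝ → HR D) → Prop} (hS : ∀ W, S W → R.PDen W)
    (happ : ∀ w, R.PDen w → ∀ ε : ℝ, 0 < ε → ∃ W, S W ∧ ∀ s, ‖W s - w s‖ ≤ ε)
    (hneg : ∀ W, S W → ∃ k, R.PDen k ∧ R.Ev k = -R.Ev W ∧ 0 ≤ R.BR k k ∧ L1 k ≤ C1 * ‖R.Ev W‖ ∧
      R.BR (fun s => k s + W s) (fun s => k s + W s) ≤ 0) : R.RO (2 * CJ * C1) := by
  have h1 : ∀ W, S W → R.BR W W ≤ (2 * CJ * C1) * (L1 W * ‖R.Ev W‖) := by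
    intro W hW
    obtain ⟨k, hk, -, hk2, hk3, hk4⟩ := hneg W hW
    have hWd := hS W hW
    have hkW : Continuous fun s => k s + W s := hk.cont.add hWd.cont
    rw [BR_add_left hk.cont hWd.cont hkW, BR_add_right hk.cont hk.cont hWd.cont, BR_add_right hWd.cont hk.cont hWd.cont] at hk4
    have e1 := (abs_le.1 (abs_BR_le hC0 hR hk hWd)).1
    have e2 := (abs_le.1 (abs_BR_le hC0 hR hWd hk)).1
    have e3 : CJ * (L1 k * L1 W) ≤ CJ * ((C1 * ‖R.Ev W‖) * L1 W) :=
      mul_le_mul_of_nonneg_left (mul_le_mul_of_nonneg_right hk3 (L1_nonneg W)) hC0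
    linarith
  intro w hw
  obtain ⟨f, hf⟩ : ∃ f : ℝ → ℝ, f = fun ε => (2 * CJ * C1) * ((L1 w + 2 * π * ε) * (‖R.Ev w‖ + 2 * CJ * (2 * π * ε))) +
    (CJ * ((2 * π * ε) * L1 w) + CJ * ((L1 w + 2 * π * ε) * (2 * π * ε))) := ⟨_, rfl⟩
  have hfc : Continuous f := by rw [hf]; fun_prop
  have hf0 : f 0 = (2 * CJ * C1) * (L1 w * ‖R.Ev w‖) := by
    rw [hf]
    simp
  rw [← hf0]
  have hlim : Tendsto f (𝓝[>] 0) (𝓝 (f 0)) := (hfc.tendsto 0).mono_left nhdsWithin_le_nhds
  refine ge_of_tendsto hlim ?_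
  filter_upwards [self_mem_nhdsWithin] with ε hε
  have hε0 : 0 < ε := hε
  obtain ⟨W, hW, hWe⟩ := happ w hw ε hε0
  have hWd := hS W hW
  obtain ⟨d, hd⟩ : ∃ d : ℝ → HR D, d = fun s => w s - W s := ⟨_, rfl⟩
  have hdd : R.PDen d := by rw [hd]; exact hw.sub hWd
  have hdL : L1 d ≤ 2 * π * ε := by
    unfold L1
    have : ∫ s in (0 : ℝ)..(2 * π), ‖d s‖ ≤ ∫ s in (0 : ℝ)..(2 * π), ε :=
      intervalIntegral.integral_mono_on (by positivity) (hdd.cont.norm.intervalIntegrable _ _)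
        (continuous_const.intervalIntegrable _ _) fun s _ => by
          rw [hd]
          show ‖w s - W s‖ ≤ ε
          rw [norm_sub_rev]
          exact hWe s
    rw [intervalIntegral.integral_const, sub_zero, smul_eq_mul] at this
    exact this
  have hsum : (fun s => d s + W s) = w := by
    funext s
    rw [hd]
    show w s - W s + W s = w s
    abel
  have hsum' : (fun s => W s + d s) = w := by
    funext s
    rw [hd]
    show W s + (w s - W s) = w s
    abel
  have hLW : L1 W ≤ L1 w + 2 * π * ε := by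
    have h2 : L1 W ≤ ∫ s in (0 : ℝ)..(2 * π), (‖w s‖ + ‖d s‖) :=
      intervalIntegral.integral_mono_on (by positivity) (hWd.cont.norm.intervalIntegrable _ _)
        ((hw.cont.norm.add hdd.cont.norm).intervalIntegrable _ _) fun s _ => by
          have h3 : W s = w s - d s := by
            rw [hd]
            show W s = w s - (w s - W s)
            abel
          rw [h3]
          exact norm_sub_le _ _
    have h4 : ∫ s in (0 : ℝ)..(2 * π), (‖w s‖ + ‖d s‖) = L1 w + L1 d :=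
      intervalIntegral.integral_add (hw.cont.norm.intervalIntegrable _ _) (hdd.cont.norm.intervalIntegrable _ _)
    linarith
  have hEW : ‖R.Ev W‖ ≤ ‖R.Ev w‖ + 2 * CJ * (2 * π * ε) := by
    have h2 : R.Ev w = R.Ev d + R.Ev W := by rw [← Ev_add hdd.cont hWd.cont, hsum]
    have h3 : R.Ev W = R.Ev w - R.Ev d := by rw [h2]; abel
    rw [h3]
    have h4 := (norm_Ev_le hC0 hR hdd).trans (mul_le_mul_of_nonneg_left hdL (by positivity))
    exact (norm_sub_le _ _).trans (by linarith)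
  have hBw : R.BR w w = R.BR d w + R.BR W d + R.BR W W := by
    have h2 : R.BR w w = R.BR d w + R.BR W w := by
      have := BR_add_left (R := R) hdd.cont hWd.cont hw.cont
      rw [hsum] at this
      exact this
    have h3 : R.BR W w = R.BR W W + R.BR W d := by
      have := BR_add_right (R := R) hWd.cont hWd.cont hdd.cont
      rw [hsum'] at this
      exact this
    rw [h2, h3]
    ring
  have e1 := (abs_le.1 (abs_BR_le hC0 hR hdd hw)).2
  have e2 := (abs_le.1 (abs_BR_le hC0 hR hWd hdd)).2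
  have e3 := h1 W hW
  have a1 : CJ * (L1 d * L1 w) ≤ CJ * ((2 * π * ε) * L1 w) :=
    mul_le_mul_of_nonneg_left (mul_le_mul_of_nonneg_right hdL (L1_nonneg w)) hC0
  have a0 : 0 ≤ L1 w + 2 * π * ε := add_nonneg (L1_nonneg w) (by positivity)
  have a2 : CJ * (L1 W * L1 d) ≤ CJ * ((L1 w + 2 * π * ε) * (2 * π * ε)) :=
    mul_le_mul_of_nonneg_left (mul_le_mul hLW hdL (L1_nonneg d) a0) hC0
  have a3 : (2 * CJ * C1) * (L1 W * ‖R.Ev W‖) ≤ (2 * CJ * C1) * ((L1 w + 2 * π * ε) * (‖R.Ev w‖ + 2 * CJ * (2 * π * ε))) :=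
    mul_le_mul_of_nonneg_left (mul_le_mul hLW hEW (norm_nonneg _) a0) (by positivity)
  rw [hBw, hf]
  show _ ≤ (2 * CJ * C1) * ((L1 w + 2 * π * ε) * (‖R.Ev w‖ + 2 * CJ * (2 * π * ε))) +
    (CJ * ((2 * π * ε) * L1 w) + CJ * ((L1 w + 2 * π * ε) * (2 * π * ε)))
  linarith

end RD

end Pool.Agent.Lib.MP_ccbbf6_gt.K7.GG
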