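import Pool.Agent.Lib.MP_ccbbf6_gt.K7.GG6

/-!
# Level 5, kappa = 7, block G, GG7: cut-offs (abstract, real) (helper2)
-/

set_option autoImplicit false
set_option linter.unusedSectionVars false
set_option linter.unusedVariables false

open Set Filter Topology Metric Real MeasureTheory
open scoped InnerProductSpace

noncomputable section

namespace Pool.Agent.Lib.MP_ccbbf6_gt.K7.GG

variable {D : ℕ}

/-- the cut-off -/
def cut (m : ℕ) (t : ℝ) : ℝ := max 0 (min 1 (m * min t (π - t)))

theorem cont_cut (m : ℕ) : Continuous (cut m) := by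
  unfold cut
  fun_prop

theorem cut_nonneg (m : ℕ) (t : ℝ) : 0 ≤ cut m t := le_max_left _ _

theorem cut_le (m : ℕ) (t : ℝ) : cut m t ≤ 1 := max_le (by norm_num) (min_le_left _ _)

theorem cut_out (m : ℕ) {t : ℝ} (h : t ≤ 0 ∨ π ≤ t) : cut m t = 0 := by
  unfold cut
  refine max_eq_left ((min_le_right _ _).trans ?_)
  have h1 : min t (π - t) ≤ 0 := by
    rcases h with h | h
    · exact (min_le_left _ _).trans h
    · exact (min_le_right _ _).trans (by linarith)
  exact mul_nonpos_of_nonneg_of_nonpos (Nat.cast_nonneg m) h1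

/-- the limit -/
def cuti (t : ℝ) : ℝ := (Ioo (0 : ℝ) π).indicator (fun _ => 1) t

theorem cuti_in {t : ℝ} (h0 : 0 < t) (h1 : t < π) : cuti t = 1 := Set.indicator_of_mem (show t ∈ Ioo (0 : ℝ) π from ⟨h0, h1⟩) _

theorem cuti_out {t : ℝ} (h : t ≤ 0 ∨ π ≤ t) : cuti t = 0 := by
  refine Set.indicator_of_notMem (fun h' => ?_) _
  rcases h with h | h
  · exact absurd h'.1 (not_lt.2 h)
  · exact absurd h'.2 (not_lt.2 h)

theorem tendsto_cut (t : ℝ) : Tendsto (fun m : ℕ => cut m t) atTop (𝓝 (cuti t)) := by
  by_cases h : t ≤ 0 ∨ π ≤ t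
  · rw [cuti_out h]
    simp only [cut_out _ h]
    exact tendsto_const_nhds
  · push Not at h
    rw [cuti_in h.1 h.2]
    refine tendsto_const_nhds.congr' ?_
    have hm : 0 < min t (π - t) := lt_min h.1 (by linarith [h.2])
    obtain ⟨k, hk⟩ := exists_nat_gt (1 / min t (π - t))
    filter_upwards [eventually_ge_atTop k] with m hmk
    have h1 : 1 ≤ m * min t (π - t) := by
      have h2 : (k : ℝ) ≤ m := by exact_mod_cast hmk
      rw [div_lt_iff₀ hm] at hk
      nlinarith
    unfold cut
    rw [min_eq_left h1, max_eq_right (by norm_num)]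

namespace RD

variable {R : RD D}

theorem fact_two_pi : Fact (0 < 2 * π) := ⟨Real.two_pi_pos⟩

attribute [local instance] fact_two_pi

/-- the periodic extension of the cut-off density -/
def ext (y : ℝ → HR D) (m : ℕ) (s : ℝ) : HR D :=
  AddCircle.liftIco (2 * π) 0 (fun t => cut m t • y t) (s : AddCircle (2 * π))

theorem ext_of_mem (y : ℝ → HR D) (m : ℕ) {s : ℝ} (h0 : 0 ≤ s) (h1 : s < 2 * π) : ext y m s = cut m s • y s := by
  unfold ext
  exact AddCircle.liftIco_zero_coe_apply ⟨h0, h1⟩

theorem per_ext (y : ℝ → HR D) (m : ℕ) : Function.Periodic (ext y m) (2 * π) := by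
  intro s
  unfold ext
  rw [AddCircle.coe_add, AddCircle.coe_period, add_zero]

theorem cont_ext {y : ℝ → HR D} (hy : Continuous y) (m : ℕ) : Continuous (ext y m) := by
  have h1 : Continuous (AddCircle.liftIco (2 * π) 0 (fun t => cut m t • y t)) := by
    refine AddCircle.liftIco_zero_continuous ?_ (((cont_cut m).smul hy).continuousOn)
    show cut m 0 • y 0 = cut m (2 * π) • y (2 * π)
    rw [cut_out m (Or.inl (le_refl 0)), cut_out m (Or.inr (by linarith [pi_pos])), zero_smul, zero_smul]
  show Continuous fun s : ℝ => AddCircle.liftIco (2 * π) 0 (fun t => cut m t • y t) (s : AddCircle (2 * π))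
  exact h1.comp (AddCircle.continuous_mk' (2 * π))

theorem ext_zero (y : ℝ → HR D) (m : ℕ) {s : ℝ} (h0 : π ≤ s) (h1 : s ≤ 2 * π) : ext y m s = 0 := by
  rcases h1.lt_or_eq with h | h
  · rw [ext_of_mem y m (by linarith [pi_pos]) h, cut_out m (Or.inr h0), zero_smul]
  · have h2 := per_ext y m 0
    rw [zero_add] at h2
    rw [h, h2, ext_of_mem y m (le_refl 0) (by positivity), cut_out m (Or.inl (le_refl 0)), zero_smul]

theorem pden_ext {CJ : ℝ} (hR : R.Per CJ) {y : ℝ → HR D} (hy : R.RDen y) (m : ℕ) : R.PDen (ext y m) := by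
  refine ⟨cont_ext hy.cont m, fun s => ?_, per_ext y m⟩
  have hP : Function.Periodic (fun s => R.P s (ext y m s) - ext y m s) (2 * π) := fun s => by
    show R.P (s + 2 * π) (ext y m (s + 2 * π)) - ext y m (s + 2 * π) = _
    rw [hR.perP, per_ext y m s]
  obtain ⟨t, ht, h1⟩ := hP.exists_mem_Ico₀ (by positivity) s
  have h2 : R.P t (ext y m t) - ext y m t = 0 := by
    rw [ext_of_mem y m ht.1 ht.2, map_smul, hy.mem, sub_self]
  have h3 : R.P s (ext y m s) - ext y m s = 0 := h1.trans h2
  exact sub_eq_zero.1 h3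

/-- the form of the cut-off density -/
theorem BR_ext {y : ℝ → HR D} (hy : R.RDen y) (m : ℕ) : R.BR (ext y m) (ext y m) =
    ∫ r in (0 : ℝ)..π, ∫ s in (0 : ℝ)..π, cut m s * cut m (s + r) * R.ry y s r := by
  have hc := cont_ext hy.cont m
  have h0 : ∫ s in (π : ℝ)..(2 * π), ∫ r in (0 : ℝ)..π, -⟪ext y m s, R.J s r (ext y m (s + r))⟫_ℝ = 0 := by
    have h1 : ∫ s in (π : ℝ)..(2 * π), ∫ r in (0 : ℝ)..π, -⟪ext y m s, R.J s r (ext y m (s + r))⟫_ℝ =
        ∫ s in (π : ℝ)..(2 * π), (0 : ℝ) := by
      refine intervalIntegral.integral_congr fun s hs => ?_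
      rw [uIcc_of_le (by linarith [pi_pos])] at hs
      show ∫ r in (0 : ℝ)..π, -⟪ext y m s, R.J s r (ext y m (s + r))⟫_ℝ = 0
      simp only [ext_zero y m hs.1 hs.2, inner_zero_left, neg_zero, intervalIntegral.integral_zero]
    rw [h1, intervalIntegral.integral_zero]
  have h2 : R.BR (ext y m) (ext y m) = ∫ s in (0 : ℝ)..π, ∫ r in (0 : ℝ)..π, -⟪ext y m s, R.J s r (ext y m (s + r))⟫_ℝ := by
    unfold BR
    rw [← intervalIntegral.integral_add_adjacent_intervals ((cont_BI hc hc).intervalIntegrable 0 π)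
      ((cont_BI hc hc).intervalIntegrable π (2 * π)), h0, add_zero]
  have h3 : ∫ s in (0 : ℝ)..π, ∫ r in (0 : ℝ)..π, -⟪ext y m s, R.J s r (ext y m (s + r))⟫_ℝ =
      ∫ s in (0 : ℝ)..π, ∫ r in (0 : ℝ)..π, cut m s * cut m (s + r) * R.ry y s r := by
    refine intervalIntegral.integral_congr fun s hs => intervalIntegral.integral_congr fun r hr => ?_
    rw [uIcc_of_le pi_pos.le] at hs hr
    show -⟪ext y m s, R.J s r (ext y m (s + r))⟫_ℝ = cut m s * cut m (s + r) * R.ry y s r
    rw [ext_of_mem y m hs.1 (by linarith [hs.2, pi_pos])]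
    have h4 : ext y m (s + r) = cut m (s + r) • y (s + r) ∨ cut m s = 0 := by
      rcases lt_or_ge (s + r) (2 * π) with h | h
      · exact Or.inl (ext_of_mem y m (by linarith [hs.1, hr.1]) h)
      · exact Or.inr (cut_out m (Or.inr (by linarith [hr.2])))
    rcases h4 with h4 | h4
    · rw [h4, map_smul, real_inner_smul_left, real_inner_smul_right]
      unfold ry
      ring
    · rw [h4, zero_smul, inner_zero_left]
      ring
  rw [h2, h3]
  refine swap_cont (f := fun s r => cut m s * cut m (s + r) * R.ry y s r) ?_ _ _ _ _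
  exact (((cont_cut m).comp continuous_fst).mul ((cont_cut m).comp (continuous_fst.add continuous_snd))).mul (cont_ry hy.cont)

theorem hr_eq {y : ℝ → HR D} (hy : R.RDen y) : R.hr y 0 =
    ∫ r in (0 : ℝ)..π, ∫ s in (0 : ℝ)..π, cuti s * cuti (s + r) * R.ry y s r := by
  unfold hr
  refine intervalIntegral.integral_congr_ae ?_
  rw [uIoc_of_le pi_pos.le]
  refine Filter.Eventually.of_forall fun r hr => ?_
  have hc : Continuous fun s => R.ry y s r := (cont_ry hy.cont).comp (continuous_id.prodMk continuous_const)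
  have hpr : 0 ≤ π - r := by linarith [hr.2]
  -- left hand side
  have h1 : (π - r) * ∫ σ in (0 : ℝ)..1, R.ry y (0 + (π - r) * σ) r = ∫ s in (0 : ℝ)..(π - r), R.ry y s r := by
    have h2 := intervalIntegral.smul_integral_comp_mul_add (a := 0) (b := 1) (fun s => R.ry y s r) (π - r) 0
    simp only [mul_zero, mul_one, add_zero, smul_eq_mul] at h2
    rw [← h2]
    simp only [zero_add]
  rw [h1]
  -- right hand side
  have i1 : IntervalIntegrable (fun s => cuti s * cuti (s + r) * R.ry y s r) volume 0 (π - r) := by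
    refine (hc.intervalIntegrable 0 (π - r)).congr_ae ?_
    rw [uIoc_of_le hpr]
    have hne : ∀ᵐ s ∂(volume.restrict (Ioc 0 (π - r))), s ≠ π - r := by
      refine ae_restrict_of_ae ?_
      exact (measure_eq_zero_iff_ae_notMem.1 (Real.volume_singleton (a := π - r))).mono fun s hs h => hs h
    filter_upwards [hne, ae_restrict_mem measurableSet_Ioc] with s h2 h3
    rw [cuti_in h3.1 (by linarith [h3.2.lt_of_ne h2, hr.1]), cuti_in (by linarith [h3.1, hr.1]) (by linarith [h3.2.lt_of_ne h2])]
    ring
  have e1 : ∫ s in (0 : ℝ)..(π - r), cuti s * cuti (s + r) * R.ry y s r = ∫ s in (0 : ℝ)..(π - r), R.ry y s r := by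
    refine intervalIntegral.integral_congr_ae ?_
    rw [uIoc_of_le hpr]
    have hne : ∀ᵐ s : ℝ, s ≠ π - r := (measure_eq_zero_iff_ae_notMem.1 (Real.volume_singleton (a := π - r))).mono fun s hs h => hs h
    filter_upwards [hne] with s h2 h3
    rw [cuti_in h3.1 (by linarith [h3.2.lt_of_ne h2, hr.1]), cuti_in (by linarith [h3.1, hr.1]) (by linarith [h3.2.lt_of_ne h2])]
    ring
  have hz : ∀ s ∈ uIcc (π - r) π, cuti s * cuti (s + r) * R.ry y s r = (fun _ : ℝ => (0 : ℝ)) s := by
    intro s hs
    rw [uIcc_of_le (by linarith [hr.1])] at hs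
    rw [cuti_out (t := s + r) (Or.inr (by linarith [hs.1]))]
    ring
  have i2 : IntervalIntegrable (fun s => cuti s * cuti (s + r) * R.ry y s r) volume (π - r) π := by
    refine (intervalIntegrable_const (c := (0 : ℝ))).congr ?_
    intro s hs
    exact (hz s (uIoc_subset_uIcc hs)).symm
  have e2 : ∫ s in (π - r)..π, cuti s * cuti (s + r) * R.ry y s r = 0 := by
    rw [intervalIntegral.integral_congr hz, intervalIntegral.integral_zero]
  rw [← intervalIntegral.integral_add_adjacent_intervals i1 i2, e1, e2, add_zero]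

/-- the window inequality at `0` -/
theorem win0 {CJ C : ℝ} (hC0 : 0 ≤ CJ) (hC : 0 ≤ C) (hR : R.Per CJ) (hRO : R.RO C) {y : ℝ → HR D} (hy : R.RDen y) :
    R.hr y 0 ≤ C * ((∫ s in (0 : ℝ)..π, ‖y s‖) * ‖R.er y 0‖) := by
  -- the inequality for the cut-off densities
  have h1 : ∀ m : ℕ, ∫ r in (0 : ℝ)..π, ∫ s in (0 : ℝ)..π, cut m s * cut m (s + r) * R.ry y s r ≤
      C * ((∫ s in (0 : ℝ)..π, ‖y s‖) * ‖∫ r in (0 : ℝ)..π, R.J 0 r (cut m r • y r)‖) := by
    intro m
    have hd := pden_ext hR hy m
    have h2 := hRO _ hd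
    rw [BR_ext hy m] at h2
    refine h2.trans (mul_le_mul_of_nonneg_left ?_ hC)
    have h3 : R.Ev (ext y m) = ∫ r in (0 : ℝ)..π, R.J 0 r (cut m r • y r) := by
      unfold Ev
      have e1 : R.er (ext y m) π = 0 := by
        unfold er
        have : ∫ r in (0 : ℝ)..π, R.J π r (ext y m (π + r)) = ∫ r in (0 : ℝ)..π, (0 : HR D) := by
          refine intervalIntegral.integral_congr fun r hr => ?_
          rw [uIcc_of_le pi_pos.le] at hr
          show R.J π r (ext y m (π + r)) = 0
          rw [ext_zero y m (by linarith [hr.1]) (by linarith [hr.2]), map_zero]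
        rw [this, intervalIntegral.integral_zero]
      rw [e1, map_zero, sub_zero]
      unfold er
      refine intervalIntegral.integral_congr fun r hr => ?_
      rw [uIcc_of_le pi_pos.le] at hr
      show R.J 0 r (ext y m (0 + r)) = _
      rw [zero_add, ext_of_mem y m hr.1 (by linarith [hr.2, pi_pos])]
    have h4 : L1 (ext y m) ≤ ∫ s in (0 : ℝ)..π, ‖y s‖ := by
      have hc := hd.cont.norm
      unfold L1
      rw [← intervalIntegral.integral_add_adjacent_intervals (hc.intervalIntegrable 0 π) (hc.intervalIntegrable π (2 * π))]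
      have e1 : ∫ s in (π : ℝ)..(2 * π), ‖ext y m s‖ = 0 := by
        have : ∫ s in (π : ℝ)..(2 * π), ‖ext y m s‖ = ∫ s in (π : ℝ)..(2 * π), (0 : ℝ) := by
          refine intervalIntegral.integral_congr fun s hs => ?_
          rw [uIcc_of_le (by linarith [pi_pos])] at hs
          show ‖ext y m s‖ = 0
          rw [ext_zero y m hs.1 hs.2, norm_zero]
        rw [this, intervalIntegral.integral_zero]
      rw [e1, add_zero]
      refine intervalIntegral.integral_mono_on pi_pos.le (hc.intervalIntegrable _ _) (hy.cont.norm.intervalIntegrable _ _)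
        fun s hs => ?_
      rw [ext_of_mem y m hs.1 (by linarith [hs.2, pi_pos]), norm_smul, Real.norm_of_nonneg (cut_nonneg m s)]
      exact mul_le_of_le_one_left (norm_nonneg _) (cut_le m s)
    rw [h3]
    exact mul_le_mul_of_nonneg_right h4 (norm_nonneg _)
  -- bounds
  have hrc := cont_ry (R := R) hy.cont
  obtain ⟨B, hB⟩ := (isCompact_Icc (a := (0 : ℝ)) (b := π)).prod (isCompact_Icc (a := (0 : ℝ)) (b := π)) |>.exists_bound_of_continuousOn
    hrc.continuousOn
  have hB' : ∀ s r, 0 ≤ s → s ≤ π → 0 ≤ r → r ≤ π → |R.ry y s r| ≤ B := fun s r a b c d => hB (s, r) ⟨⟨a, b⟩, ⟨c, d⟩⟩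
  have hB0 : 0 ≤ B := (abs_nonneg _).trans (hB' 0 0 (le_refl 0) pi_pos.le (le_refl 0) pi_pos.le)
  have hbd : ∀ (m : ℕ) (s r : ℝ), 0 ≤ s → s ≤ π → 0 ≤ r → r ≤ π → ‖cut m s * cut m (s + r) * R.ry y s r‖ ≤ B := by
    intro m s r a b c d
    rw [norm_mul, norm_mul, Real.norm_of_nonneg (cut_nonneg m s), Real.norm_of_nonneg (cut_nonneg m _)]
    have e1 : cut m s * cut m (s + r) ≤ 1 := mul_le_one₀ (cut_le m s) (cut_nonneg m _) (cut_le m _)
    have e2 := mul_le_mul e1 (hB' s r a b c d) (abs_nonneg _) (by norm_num)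
    rw [one_mul] at e2
    exact e2
  -- limits
  have l1 : Tendsto (fun m : ℕ => ∫ r in (0 : ℝ)..π, ∫ s in (0 : ℝ)..π, cut m s * cut m (s + r) * R.ry y s r) atTop
      (𝓝 (∫ r in (0 : ℝ)..π, ∫ s in (0 : ℝ)..π, cuti s * cuti (s + r) * R.ry y s r)) := by
    refine intervalIntegral.tendsto_integral_filter_of_dominated_convergence (fun _ => B * π) ?_ ?_ ?_ ?_
    · refine Filter.Eventually.of_forall fun m => ?_
      have hc : Continuous fun r : ℝ => ∫ s in (0 : ℝ)..π, cut m s * cut m (s + r) * R.ry y s r := by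
        refine intervalIntegral.continuous_parametric_intervalIntegral_of_continuous'
          (f := fun r s => cut m s * cut m (s + r) * R.ry y s r) ?_ 0 π
        exact (((cont_cut m).comp continuous_snd).mul ((cont_cut m).comp (continuous_snd.add continuous_fst))).mul
          (hrc.comp (continuous_snd.prodMk continuous_fst))
      exact hc.aestronglyMeasurable
    · refine Filter.Eventually.of_forall fun m => Filter.Eventually.of_forall fun r hr => ?_
      rw [uIoc_of_le pi_pos.le] at hr
      have := intervalIntegral.norm_integral_le_of_norm_le_const (a := 0) (b := π) (C := B)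
        (f := fun s => cut m s * cut m (s + r) * R.ry y s r) (fun s hs => by
          rw [uIoc_of_le pi_pos.le] at hs
          exact hbd m s r hs.1.le hs.2 hr.1.le hr.2)
      rwa [sub_zero, abs_of_pos pi_pos] at this
    · exact intervalIntegrable_const
    · refine Filter.Eventually.of_forall fun r hr => ?_
      rw [uIoc_of_le pi_pos.le] at hr
      refine intervalIntegral.tendsto_integral_filter_of_dominated_convergence (fun _ => B) ?_ ?_ ?_ ?_
      · refine Filter.Eventually.of_forall fun m => ?_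
        have hc : Continuous fun s : ℝ => cut m s * cut m (s + r) * R.ry y s r :=
          ((cont_cut m).mul ((cont_cut m).comp (continuous_id.add continuous_const))).mul
            (hrc.comp (continuous_id.prodMk continuous_const))
        exact hc.aestronglyMeasurable
      · refine Filter.Eventually.of_forall fun m => Filter.Eventually.of_forall fun s hs => ?_
        rw [uIoc_of_le pi_pos.le] at hs
        exact hbd m s r hs.1.le hs.2 hr.1.le hr.2
      · exact intervalIntegrable_const
      · refine Filter.Eventually.of_forall fun s _ => ?_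
        exact ((tendsto_cut s).mul (tendsto_cut (s + r))).mul_const _
  have l2 : Tendsto (fun m : ℕ => ∫ r in (0 : ℝ)..π, R.J 0 r (cut m r • y r)) atTop (𝓝 (R.er y 0)) := by
    have hE : R.er y 0 = ∫ r in (0 : ℝ)..π, R.J 0 r (cuti r • y r) := by
      unfold er
      refine intervalIntegral.integral_congr_ae ?_
      rw [uIoc_of_le pi_pos.le]
      have hne : ∀ᵐ s : ℝ, s ≠ π := (measure_eq_zero_iff_ae_notMem.1 (Real.volume_singleton (a := π))).mono fun s hs h => hs h
      filter_upwards [hne] with s h2 h3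
      rw [zero_add, cuti_in h3.1 (h3.2.lt_of_ne h2), one_smul]
    have hcy : Continuous fun r => R.J 0 r (y r) := by
      have := cont_er (R := R) hy.cont 0
      simp only [zero_add] at this
      exact this
    obtain ⟨Y, hY⟩ := (isCompact_Icc (a := (0 : ℝ)) (b := π)).exists_bound_of_continuousOn hcy.continuousOn
    rw [hE]
    refine intervalIntegral.tendsto_integral_filter_of_dominated_convergence (fun _ => Y) ?_ ?_ ?_ ?_
    · refine Filter.Eventually.of_forall fun m => ?_
      have hc : Continuous fun r : ℝ => R.J 0 r (cut m r • y r) := by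
        simp only [map_smul]
        exact (cont_cut m).smul hcy
      exact hc.aestronglyMeasurable
    · refine Filter.Eventually.of_forall fun m => Filter.Eventually.of_forall fun r hr => ?_
      rw [uIoc_of_le pi_pos.le] at hr
      rw [map_smul, norm_smul, Real.norm_of_nonneg (cut_nonneg m r)]
      exact (mul_le_of_le_one_left (norm_nonneg _) (cut_le m r)).trans (hY r ⟨hr.1.le, hr.2⟩)
    · exact intervalIntegrable_const
    · refine Filter.Eventually.of_forall fun r _ => ?_
      simp only [map_smul]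
      exact (tendsto_cut r).smul_const _
  rw [hr_eq hy]
  exact le_of_tendsto_of_tendsto' l1 (tendsto_const_nhds.mul (tendsto_const_nhds.mul l2.norm)) h1

end RD

end Pool.Agent.Lib.MP_ccbbf6_gt.K7.GG
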