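import Pool.Agent.Lib.MP_ccbbf6_gt.K7.GG6

/-!
# Level 5, kappa = 7, block G, GG8: the odd part of a density (abstract, real) (helper2)
-/

set_option autoImplicit false
set_option linter.unusedSectionVars false
set_option linter.unusedVariables false

open Set Filter Topology Metric Real MeasureTheory
open scoped InnerProductSpace

noncomputable section

namespace Pool.Agent.Lib.MP_ccbbf6_gt.K7.GG

variable {D : ℕ}

namespace RD

variable {R : RD D}

/-- more periodicity -/
structure Per2 (R : RD D) : Prop where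
  perJ2 : ∀ s r, R.J s (r + 2 * π) = R.J s r
  perJ : ∀ s r, R.J (s + 2 * π) r = R.J s r
  perP : ∀ s, R.P (s + 2 * π) = R.P s
  perT : ∀ s, R.T (s + 2 * π) = R.T s
  contT : Continuous R.T
  PT : ∀ s y, R.P s y = y → R.P (s + π) (R.T s y) = R.T s y
  TT : ∀ s y, R.P s y = y → R.T (s + π) (R.T s y) = y

/-- the shifted density -/
def tau (R : RD D) (w : ℝ → HR D) (s : ℝ) : HR D := R.T (s + π) (w (s + π))

theorem Per2.tau (h : Per2 R) {w : ℝ → HR D} (hw : R.PDen w) : R.PDen (R.tau w) := by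
  refine ⟨(h.contT.comp (continuous_id.add continuous_const)).clm_apply (hw.cont.comp (continuous_id.add continuous_const)),
    fun s => ?_, fun s => ?_⟩
  · have h1 := h.PT (s + π) _ (hw.mem (s + π))
    have h2 : s + π + π = s + 2 * π := by ring
    rw [h2, h.perP] at h1
    exact h1
  · unfold RD.tau
    have h2 : s + 2 * π + π = s + π + 2 * π := by ring
    rw [h2, h.perT, hw.per]

theorem Per2.tau_tau (h : Per2 R) {w : ℝ → HR D} (hw : R.PDen w) : R.tau (R.tau w) = w := by
  funext s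
  unfold RD.tau
  have h1 : s + π + π = s + 2 * π := by ring
  rw [h1, hw.per, h.perT]
  exact h.TT s _ (hw.mem s)

theorem per_J {R : RD D} (h : Per2 R) {u v : ℝ → HR D} (hu : R.PDen u) (hv : R.PDen v) (r : ℝ) :
    Function.Periodic (fun s => -⟪u s, R.J s r (v (s + r))⟫_ℝ) (2 * π) := by
  intro s
  show -⟪u (s + 2 * π), R.J (s + 2 * π) r (v (s + 2 * π + r))⟫_ℝ = _
  have h1 : s + 2 * π + r = s + r + 2 * π := by ring
  rw [h1, hu.per, hv.per, h.perJ]

theorem per_int2 {E : Type} [NormedAddCommGroup E] [NormedSpace ℝ E] {f : ℝ → E} (hf : Function.Periodic f (2 * π)) (r : ℝ) :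
    ∫ s in (0 : ℝ)..(2 * π), f (s + r) = ∫ s in (0 : ℝ)..(2 * π), f s := by
  rw [intervalIntegral.integral_comp_add_right, zero_add]
  have h1 := hf.intervalIntegral_add_eq r 0
  rw [zero_add, add_comm r (2 * π)] at h1
  exact h1

/-- the form with the order of integration reversed -/
theorem BR_swap {u v : ℝ → HR D} (hu : Continuous u) (hv : Continuous v) :
    R.BR u v = ∫ r in (0 : ℝ)..π, ∫ s in (0 : ℝ)..(2 * π), -⟪u s, R.J s r (v (s + r))⟫_ℝ :=
  swap_cont (f := fun s r => -⟪u s, R.J s r (v (s + r))⟫_ℝ) (cont_BJ hu hv) _ _ _ _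

theorem BR_tau_tau (h : Per2 R) {u v : ℝ → HR D} (hu : R.PDen u) (hv : R.PDen v) : R.BR (R.tau u) (R.tau v) = R.BR u v := by
  rw [BR_swap (h.tau hu).cont (h.tau hv).cont, BR_swap hu.cont hv.cont]
  refine intervalIntegral.integral_congr fun r _ => ?_
  show ∫ s in (0 : ℝ)..(2 * π), -⟪R.tau u s, R.J s r (R.tau v (s + r))⟫_ℝ = ∫ s in (0 : ℝ)..(2 * π), -⟪u s, R.J s r (v (s + r))⟫_ℝ
  rw [← per_int2 (per_J h hu hv r) π]
  refine intervalIntegral.integral_congr fun s _ => ?_
  show -⟪R.T (s + π) (u (s + π)), R.J s r (R.T (s + r + π) (v (s + r + π)))⟫_ℝ = -⟪u (s + π), R.J (s + π) r (v (s + π + r))⟫_ℝ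
  have e1 : R.J s r (R.T (s + r + π) (v (s + r + π))) = R.T (s + π) (R.J (s + π) r (v (s + r + π))) := by
    have h1 := R.shR s (r + π) (v (s + r + π))
    have h2 : r + π + π = r + 2 * π := by ring
    have h3 : s + (r + π) = s + r + π := by ring
    rw [h2, h3, h.perJ2] at h1
    have h4 := R.TJ (s + π) r (v (s + r + π))
    have h5 : s + π + π = s + 2 * π := by ring
    rw [h5, h.perJ, ← h.perJ2 s (r - π)] at h4
    have h6 : r - π + 2 * π = r + π := by ring
    rw [h6] at h4
    rw [h1, h4]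
  have h7 : s + r + π = s + π + r := by ring
  rw [e1, R.inT _ _ _ (hu.mem _) (R.PJ _ _ _), h7]

theorem BR_tau (h : Per2 R) {u v : ℝ → HR D} (hu : R.PDen u) (hv : R.PDen v) : R.BR u (R.tau v) = -R.BR v u := by
  rw [BR_swap hu.cont (h.tau hv).cont, BR_swap hv.cont hu.cont, ← intervalIntegral.integral_neg, ← refl_int]
  refine intervalIntegral.integral_congr fun r _ => ?_
  show ∫ s in (0 : ℝ)..(2 * π), -⟪u s, R.J s (π - r) (R.tau v (s + (π - r)))⟫_ℝ =
    -∫ s in (0 : ℝ)..(2 * π), -⟪v s, R.J s r (u (s + r))⟫_ℝ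
  rw [← per_int2 (per_J h hu (h.tau hv) (π - r)) r, ← intervalIntegral.integral_neg]
  refine intervalIntegral.integral_congr fun s _ => ?_
  show -⟪u (s + r), R.J (s + r) (π - r) (R.T (s + r + (π - r) + π) (v (s + r + (π - r) + π)))⟫_ℝ = - -⟪v s, R.J s r (u (s + r))⟫_ℝ
  have e1 : s + r + (π - r) + π = s + 2 * π := by ring
  have e2 : R.J (s + r) (π - r) (R.T s (v s)) = R.J (s + r) (-r) (v s) := by
    have h1 := R.shR (s + r) (-r) (v s)
    have h2 : -r + π = π - r := by ring
    have h3 : s + r + -r = s := by ring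
    rw [h2, h3] at h1
    exact h1
  rw [e1, h.perT, hv.per, e2, real_inner_comm, R.anti]

theorem BR_smul {u v : ℝ → HR D} (a b : ℝ) : R.BR (fun s => a • u s) (fun s => b • v s) = a * b * R.BR u v := by
  unfold BR
  rw [← intervalIntegral.integral_const_mul]
  refine intervalIntegral.integral_congr fun s _ => ?_
  show ∫ r in (0 : ℝ)..π, -⟪a • u s, R.J s r (b • v (s + r))⟫_ℝ = a * b * ∫ r in (0 : ℝ)..π, -⟪u s, R.J s r (v (s + r))⟫_ℝ
  rw [← intervalIntegral.integral_const_mul]
  refine intervalIntegral.integral_congr fun r _ => ?_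
  show -⟪a • u s, R.J s r (b • v (s + r))⟫_ℝ = a * b * -⟪u s, R.J s r (v (s + r))⟫_ℝ
  rw [map_smul, real_inner_smul_left, real_inner_smul_right]
  ring

/-- the odd part -/
def oddp (R : RD D) (w : ℝ → HR D) (s : ℝ) : HR D := (1 / 2 : ℝ) • (w s - R.tau w s)

theorem PDen.smul {w : ℝ → HR D} (hw : R.PDen w) (a : ℝ) : R.PDen (fun s => a • w s) :=
  ⟨hw.cont.const_smul a, fun s => by rw [map_smul, hw.mem], fun s => by
    show a • w (s + 2 * π) = _
    rw [hw.per]⟩

theorem pden_oddp (h : Per2 R) {w : ℝ → HR D} (hw : R.PDen w) : R.PDen (R.oddp w) := (hw.sub (h.tau hw)).smul _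

theorem oddp_odd (h : Per2 R) {w : ℝ → HR D} (hw : R.PDen w) (s : ℝ) : R.oddp w (s + π) = -R.T s (R.oddp w s) := by
  unfold oddp tau
  have h1 : s + π + π = s + 2 * π := by ring
  have h2 := h.TT (s + π) (w (s + π)) (hw.mem _)
  rw [h1, h.perT] at h2
  rw [h1, hw.per, h.perT, map_smul, map_sub, h2, ← smul_neg, neg_sub]

/-- the form only sees the odd part -/
theorem BR_oddp (h : Per2 R) {w : ℝ → HR D} (hw : R.PDen w) : R.BR (R.oddp w) (R.oddp w) = R.BR w w := by
  have ht := h.tau hw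
  have hn : R.PDen (fun s => (-1 : ℝ) • R.tau w s) := ht.smul _
  have e1 : R.oddp w = fun s => (1 / 2 : ℝ) • (w s + (-1 : ℝ) • R.tau w s) := by
    funext s
    unfold oddp
    rw [neg_one_smul, sub_eq_add_neg]
  have e2 : R.BR (fun s => (-1 : ℝ) • R.tau w s) (fun s => (-1 : ℝ) • R.tau w s) = R.BR w w := by
    rw [BR_smul, BR_tau_tau h hw hw]
    ring
  have e3 : R.BR w (fun s => (-1 : ℝ) • R.tau w s) = R.BR w w := by
    have h1 := BR_smul (R := R) (u := w) (v := R.tau w) 1 (-1)
    simp only [one_smul] at h1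
    rw [h1, BR_tau h hw hw]
    ring
  have e4 : R.BR (fun s => (-1 : ℝ) • R.tau w s) w = R.BR w w := by
    have h1 := BR_smul (R := R) (u := R.tau w) (v := w) (-1) 1
    simp only [one_smul] at h1
    have h2 : R.BR (R.tau w) w = R.BR w (R.tau w) := by
      have h3 := BR_tau_tau h hw ht
      rw [h.tau_tau hw] at h3
      exact h3
    rw [h1, h2, BR_tau h hw hw]
    ring
  have hwn : Continuous fun s => w s + (-1 : ℝ) • R.tau w s := hw.cont.add hn.cont
  rw [e1, BR_smul (u := fun s => w s + (-1 : ℝ) • R.tau w s) (v := fun s => w s + (-1 : ℝ) • R.tau w s),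
    BR_add_left hw.cont hn.cont hwn, BR_add_right hw.cont hw.cont hn.cont,
    BR_add_right hn.cont hw.cont hn.cont, e2, e3, e4]
  ring

/-- the form of a real odd density through the complex data -/
theorem Fm_zero {z : ℝ → HC D} (hz : R.od.Den z) : R.od.Fm 0 z z =
    (1 / 4) * (R.BR (fun s => reH D (z s)) (fun s => reH D (z s)) + R.BR (fun s => imH D (z s)) (fun s => imH D (z s))) := by
  have htw : ∀ s, tw 0 z s = z s := fun s => by
    unfold tw
    rw [zero_mul, Complex.ofReal_zero, mul_zero, Complex.exp_zero, one_smul]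
  have hph : ∀ r, ph 0 r = 1 := fun r => by
    unfold ph
    rw [zero_mul, Complex.ofReal_zero, mul_zero, Complex.exp_zero]
  have hpu : ∀ r, OD.pu 0 r = 1 := fun r => by
    unfold OD.pu
    rw [zero_mul, Complex.ofReal_zero, mul_zero, neg_zero, Complex.exp_zero]
  obtain ⟨y1, hy1⟩ : ∃ y1 : ℝ → HR D, y1 = fun s => reH D (z s) := ⟨_, rfl⟩
  obtain ⟨y2, hy2⟩ : ∃ y2 : ℝ → HR D, y2 = fun s => imH D (z s) := ⟨_, rfl⟩
  have k1 : Continuous y1 := by rw [hy1]; exact (reH D).continuous.comp hz.cont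
  have k2 : Continuous y2 := by rw [hy2]; exact (imH D).continuous.comp hz.cont
  have hvk : ∀ s r, (R.od.vk z z s r).re = R.ry y1 s r + R.ry y2 s r := fun s r => by
    have h1 := re_vk (R := R) 0 z s r
    rw [hpu, one_mul] at h1
    simp only [htw] at h1
    rw [h1, hy1, hy2]
  rw [← hy1, ← hy2]
  -- the sum is periodic
  have hper : ∀ r, Function.Periodic (fun s => R.ry y1 s r + R.ry y2 s r) π := fun r s => by
    show R.ry y1 (s + π) r + R.ry y2 (s + π) r = R.ry y1 s r + R.ry y2 s r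
    rw [← hvk, ← hvk, show R.od.vk z z (s + π) r = R.od.vk z z s r from OD.vk_per hz hz r s]
  have c1 : Continuous fun p : ℝ × ℝ => R.ry y1 p.1 p.2 := cont_ry k1
  have c2 : Continuous fun p : ℝ × ℝ => R.ry y2 p.1 p.2 := cont_ry k2
  have hB : R.BR y1 y1 + R.BR y2 y2 = ∫ r in (0 : ℝ)..π, 2 * ∫ s in (0 : ℝ)..π, (R.ry y1 s r + R.ry y2 s r) := by
    rw [BR_swap k1 k1, BR_swap k2 k2]
    have d1 : Continuous fun r : ℝ => ∫ s in (0 : ℝ)..(2 * π), R.ry y1 s r :=
      intervalIntegral.continuous_parametric_intervalIntegral_of_continuous' (f := fun r s => R.ry y1 s r) (c1.comp continuous_swap) 0 _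
    have d2 : Continuous fun r : ℝ => ∫ s in (0 : ℝ)..(2 * π), R.ry y2 s r :=
      intervalIntegral.continuous_parametric_intervalIntegral_of_continuous' (f := fun r s => R.ry y2 s r) (c2.comp continuous_swap) 0 _
    have h1 := intervalIntegral.integral_add (d1.intervalIntegrable (μ := volume) 0 π) (d2.intervalIntegrable (μ := volume) 0 π)
    refine h1.symm.trans ?_
    refine intervalIntegral.integral_congr fun r _ => ?_
    show (∫ s in (0 : ℝ)..(2 * π), R.ry y1 s r) + (∫ s in (0 : ℝ)..(2 * π), R.ry y2 s r) = 2 * ∫ s in (0 : ℝ)..π, (R.ry y1 s r + R.ry y2 s r)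
    have a1 : Continuous fun s => R.ry y1 s r := c1.comp (continuous_id.prodMk continuous_const)
    have a2 : Continuous fun s => R.ry y2 s r := c2.comp (continuous_id.prodMk continuous_const)
    have h2 := intervalIntegral.integral_add (a1.intervalIntegrable (μ := volume) 0 (2 * π)) (a2.intervalIntegrable (μ := volume) 0 (2 * π))
    rw [← h2]
    have a3 : Continuous fun s => R.ry y1 s r + R.ry y2 s r := a1.add a2
    rw [← intervalIntegral.integral_add_adjacent_intervals (a3.intervalIntegrable 0 π) (a3.intervalIntegrable π (2 * π))]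
    have h3 : ∫ s in (π : ℝ)..(2 * π), (R.ry y1 s r + R.ry y2 s r) = ∫ s in (0 : ℝ)..π, (R.ry y1 s r + R.ry y2 s r) := by
      have h4 := (hper r).intervalIntegral_add_eq π 0
      rw [zero_add, ← two_mul] at h4
      exact h4
    rw [h3]
    ring
  rw [hB]
  unfold OD.Fm
  rw [intervalIntegral.integral_const_mul]
  have hG : ∀ r, (ph 0 r * R.od.Gk z z r).re = ∫ s in (0 : ℝ)..π, (R.ry y1 s r + R.ry y2 s r) := by
    intro r
    rw [hph, one_mul]
    unfold OD.Gk
    rw [re_int (f := fun s => R.od.vk z z s r) (OD.cont_vk_s hz.cont hz.cont r)]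
    simp only [hvk]
  simp only [hG]
  ring

end RD

end Pool.Agent.Lib.MP_ccbbf6_gt.K7.GG
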