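import Pool.Agent.Lib.MP_ccbbf6_gt.K7.GG4
import Pool.Agent.Lib.MP_ccbbf6_gt.K7.GJ2

/-!
# Level 5, kappa = 7, block G, GJ6: operator valued complex sections, `Hop`, `Uop`, `kG` (helper2)
-/

set_option autoImplicit false
set_option linter.unusedSectionVars false
set_option linter.unusedVariables false

open Set Filter Topology Metric Real Module
open scoped ContDiff RealInnerProductSpace ComplexConjugate

noncomputable section

namespace Pool.Agent.Lib.MP_ccbbf6_gt.K7.GG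

open L4 Geo L4.ORI L5 L5.NEG RG

variable {n : ℕ} {M : Type*} [MetricSpace M] [CompactSpace M] {𝒜 : SDist n M}

/-! ### parametric integrals -/

/-- smooth integrals over a compact interval -/
theorem smF_int [Nonempty (Gs M)] (hB : Bl M) (e : Emb n 𝒜) {G : Type} [NormedAddCommGroup G] [NormedSpace ℝ G] [CompleteSpace G]
    {f : Gs M → ℝ → G}
    (hf : ∀ {F : Type} [NormedAddCommGroup F] [NormedSpace ℝ F] {σ : F → Gs M} {r : F → ℝ} {u : F}, SmGAt 𝒜 σ u →
      ContDiffAt ℝ ∞ r u → ContDiffAt ℝ ∞ (fun v => f (σ v) (r v)) u) (a b : ℝ) : SmF 𝒜 (fun c => ∫ r in a..b, f c r) := by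
  intro F _ _ σ u hσ
  obtain ⟨β, hβ, hβU, hβe⟩ := exists_to_ball (e.EE (σ u)) (e.isOpen_UU.mem_nhds (e.EE_mem (σ u)))
  have h1 : ContDiff ℝ ∞ (fun z : e.Q × ℝ => f (e.RR (β z.1)) z.2) := by
    rw [contDiff_iff_contDiffAt]
    intro z
    have h2 : SmGAt 𝒜 (fun z : e.Q × ℝ => e.RR (β z.1)) z :=
      SmGAt.comp (σ := e.RR) (f := fun z : e.Q × ℝ => β z.1) (v := z) (e.smG_RR hB (hβU z.1))
        (ContDiffAt.comp (g := β) (f := fun z : e.Q × ℝ => z.1) z hβ.contDiffAt contDiffAt_fst)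
    exact hf h2 contDiffAt_snd
  have h2 := contDiff_param.{0, 0} h1 a b
  have h3 : ContDiffAt ℝ ∞ (fun v => ∫ t in a..b, f (e.RR (β (e.EE (σ v)))) t) u :=
    ContDiffAt.comp (g := fun y : e.Q => ∫ t in a..b, f (e.RR (β y)) t)
      (f := fun v => e.EE (σ v)) u h2.contDiffAt (e.smooth_EE hσ)
  refine h3.congr_of_eventuallyEq ?_
  filter_upwards [(e.smooth_EE hσ).continuousAt.eventually hβe] with v hv
  simp only [hv, id, e.RR_EE hB]

variable (t : TEmb 𝒜) (hB : Bl M) {N : ℕ}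

/-! ### sections -/

/-- the complex density of `x + i y` along the orbit of `c` -/
def zc (Z : Gs M → (Eu N →L[ℝ] HC t.D)) (x y : Eu N) (c : Gs M) (s : ℝ) : HC t.D :=
  Z (shift s c) x + Complex.I • Z (shift s c) y

/-- the operator on sections -/
def Hop (μ : ℝ) (Z : Gs M → (Eu N →L[ℝ] HC t.D)) (c : Gs M) : Eu N →L[ℝ] HC t.D :=
  (-(1 / 2) : ℝ) • ∫ r in (0 : ℝ)..π, ((conj (ph μ r)) • cxL t.D (Jr t hB c r)).restrictScalars ℝ ∘L Z (shift r c)

/-- one step -/
def Sop (a μ : ℝ) (Z : Gs M → (Eu N →L[ℝ] HC t.D)) (c : Gs M) : Eu N →L[ℝ] HC t.D := Z c + a • Hop t hB μ Z c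

/-- the steps -/
def Uop (a μ h : ℝ) : ℕ → (Gs M → (Eu N →L[ℝ] HC t.D)) → (Gs M → (Eu N →L[ℝ] HC t.D))
  | 0, Z => Z
  | j + 1, Z => Sop t hB a (μ + j * h) (Uop a μ h j Z)

/-- good sections -/
structure GSec (Z : Gs M → (Eu N →L[ℝ] HC t.D)) : Prop where
  sm : SmF 𝒜 Z
  mem : ∀ c x, cxL t.D (Pr t c) (Z c x) = Z c x
  odd : ∀ c x, Z (shift π c) x = -cxL t.D (Tr t hB c) (Z c x)

section

variable [Nonempty (Gs M)] (e : Emb n 𝒜) {κ : ℕ} (hk : 𝒜.HK κ)

variable {t hB} {Z : Gs M → (Eu N →L[ℝ] HC t.D)}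

theorem GSec.den (h : GSec t hB Z) (x y : Eu N) (c : Gs M) : (orb t hB e hk c).od.Den (zc t Z x y c) := by
  have hc : Continuous Z := SmF.continuous hB e (fun hσ => h.sm hσ)
  have hs : Continuous fun s : ℝ => Z (shift s c) := hc.comp (gs_continuous_shift.comp (Continuous.prodMk_left c))
  have h1 : Continuous fun s : ℝ => Z (shift s c) x := hs.clm_apply continuous_const
  have h2 : Continuous fun s : ℝ => Z (shift s c) y := hs.clm_apply continuous_const
  have h3 : Continuous fun s : ℝ => Complex.I • Z (shift s c) y := h2.const_smul Complex.I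
  refine ⟨h1.add h3, fun s => ?_, fun s => ?_⟩
  · show cxL t.D (Pr t (shift s c)) (Z (shift s c) x + Complex.I • Z (shift s c) y) = _
    rw [map_add, map_smul, h.mem, h.mem]
    rfl
  · show Z (shift (s + π) c) x + Complex.I • Z (shift (s + π) c) y =
      -cxL t.D (Tr t hB (shift s c)) (Z (shift s c) x + Complex.I • Z (shift s c) y)
    rw [← shift_comm' s π c, h.odd, h.odd, map_add, map_smul, smul_neg, neg_add]

omit [Nonempty (Gs M)] in
theorem smul_re_im {E : Type*} [AddCommGroup E] [Module ℂ E] (a : ℂ) (x : E) : a • x = a.re • x + a.im • (Complex.I • x) := by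
  rw [← Complex.coe_smul, ← Complex.coe_smul, smul_smul, ← add_smul, Complex.re_add_im]

include hB e hk in
theorem smF_JZ (hZ : SmF 𝒜 Z) (μ : ℝ) {F : Type} [NormedAddCommGroup F] [NormedSpace ℝ F] {σ : F → Gs M} {r : F → ℝ} {u : F}
    (hσ : SmGAt 𝒜 σ u) (hr : ContDiffAt ℝ ∞ r u) :
    ContDiffAt ℝ ∞ (fun v => ((conj (ph μ (r v))) • cxL t.D (Jr t hB (σ v) (r v))).restrictScalars ℝ ∘L Z (shift (r v) (σ v))) u := by
  have h1 : ContDiffAt ℝ ∞ (fun v => Z (shift (r v) (σ v))) u := hZ (hσ.shift hB hr)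
  have h2 : ContDiffAt ℝ ∞ (fun v => Jr t hB (σ v) (r v)) u := Jr_smooth t hB hk hσ hr
  obtain ⟨T, hT⟩ : ∃ T : (HR t.D →L[ℝ] HR t.D) →L[ℝ] (HC t.D →L[ℝ] HC t.D), ∀ A, T A = (cxL t.D A).restrictScalars ℝ := by
    refine ⟨LinearMap.toContinuousLinearMap
      { toFun := fun A => (cxL t.D A).restrictScalars ℝ
        map_add' := fun A B => by rw [map_add]; rfl
        map_smul' := fun a A => by rw [map_smul]; rfl }, fun A => rfl⟩
  obtain ⟨T', hT'⟩ : ∃ T' : (HR t.D →L[ℝ] HR t.D) →L[ℝ] (HC t.D →L[ℝ] HC t.D), ∀ A,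
      T' A = (Complex.I • cxL t.D A).restrictScalars ℝ := by
    refine ⟨LinearMap.toContinuousLinearMap
      { toFun := fun A => (Complex.I • cxL t.D A).restrictScalars ℝ
        map_add' := fun A B => by rw [map_add, smul_add]; rfl
        map_smul' := fun a A => by
          rw [map_smul, smul_comm]
          rfl }, fun A => rfl⟩
  have h3 : ContDiffAt ℝ ∞ (fun v => conj (ph μ (r v))) u := by
    have e1 : (fun v => conj (ph μ (r v))) = fun v => Complex.exp (-(Complex.I * ((μ * (π / 2 - r v) : ℝ) : ℂ))) := by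
      funext v
      unfold ph
      rw [← Complex.exp_conj, map_mul, Complex.conj_I, Complex.conj_ofReal, neg_mul]
    rw [e1]
    have h4 : ContDiffAt ℝ ∞ (fun v => ((μ * (π / 2 - r v) : ℝ) : ℂ)) u :=
      Complex.ofRealCLM.contDiff.contDiffAt.comp u (contDiffAt_const.mul (contDiffAt_const.sub hr))
    exact (contDiffAt_const.mul h4).neg.cexp
  have h4 : ContDiffAt ℝ ∞ (fun v => (conj (ph μ (r v))).re) u :=
    ContDiffAt.comp (g := fun z : ℂ => z.re) (f := fun v => conj (ph μ (r v))) u Complex.reCLM.contDiff.contDiffAt h3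
  have h5 : ContDiffAt ℝ ∞ (fun v => (conj (ph μ (r v))).im) u :=
    ContDiffAt.comp (g := fun z : ℂ => z.im) (f := fun v => conj (ph μ (r v))) u Complex.imCLM.contDiff.contDiffAt h3
  have h6 : ContDiffAt ℝ ∞ (fun v => T (Jr t hB (σ v) (r v))) u := T.contDiff.contDiffAt.comp u h2
  have h7 : ContDiffAt ℝ ∞ (fun v => T' (Jr t hB (σ v) (r v))) u := T'.contDiff.contDiffAt.comp u h2
  have h8 := ((h4.smul h6).add (h5.smul h7)).clm_comp h1
  refine h8.congr_of_eventuallyEq (Eventually.of_forall fun v => ?_)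
  refine ContinuousLinearMap.ext fun x => ?_
  show (conj (ph μ (r v))) • cxL t.D (Jr t hB (σ v) (r v)) (Z (shift (r v) (σ v)) x) =
    (conj (ph μ (r v))).re • T (Jr t hB (σ v) (r v)) (Z (shift (r v) (σ v)) x) +
      (conj (ph μ (r v))).im • T' (Jr t hB (σ v) (r v)) (Z (shift (r v) (σ v)) x)
  rw [hT, hT']
  exact smul_re_im _ _

include hB e hk in
theorem cont_JZ (hZ : SmF 𝒜 Z) (μ : ℝ) (c : Gs M) :
    Continuous fun r : ℝ => ((conj (ph μ r)) • cxL t.D (Jr t hB c r)).restrictScalars ℝ ∘L Z (shift r c) := by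
  rw [continuous_iff_continuousAt]
  intro r
  exact (smF_JZ e hk hZ μ (σ := fun _ : ℝ => c) (r := fun r => r) ⟨smAt_const _ _, smAt_const _ _⟩ contDiffAt_id).continuousAt

/-- the operator acts on densities -/
theorem Hm_zc (h : GSec t hB Z) (μ : ℝ) (x y : Eu N) (c : Gs M) (s : ℝ) :
    (orb t hB e hk c).od.Hm μ (zc t Z x y c) s = zc t (Hop t hB μ Z) x y c s := by
  have hc := cont_JZ (t := t) (hB := hB) (Z := Z) e hk (fun hσ => h.sm hσ) μ (shift s c)
  have h1 : ∀ x, Hop t hB μ Z (shift s c) x = (-(1 / 2) : ℝ) • ∫ r in (0 : ℝ)..π, (conj (ph μ r)) •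
      cxL t.D (Jr t hB (shift s c) r) (Z (shift r (shift s c)) x) := by
    intro x
    show (-(1 / 2) : ℝ) • (∫ r in (0 : ℝ)..π, ((conj (ph μ r)) • cxL t.D (Jr t hB (shift s c) r)).restrictScalars ℝ ∘L
      Z (shift r (shift s c))) x = _
    rw [ContinuousLinearMap.intervalIntegral_apply (hc.intervalIntegrable _ _)]
    rfl
  unfold zc OD.Hm
  rw [h1, h1, smul_comm Complex.I, ← smul_add]
  congr 1
  have hcx : ∀ x, Continuous fun r : ℝ => (conj (ph μ r)) • cxL t.D (Jr t hB (shift s c) r) (Z (shift r (shift s c)) x) :=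
    fun x => hc.clm_apply continuous_const
  have hcy : Continuous fun r : ℝ => Complex.I • (conj (ph μ r)) • cxL t.D (Jr t hB (shift s c) r) (Z (shift r (shift s c)) y) :=
    (hcx y).const_smul Complex.I
  rw [← intervalIntegral.integral_smul, ← intervalIntegral.integral_add ((hcx x).intervalIntegrable _ _)
    (hcy.intervalIntegrable _ _)]
  refine intervalIntegral.integral_congr fun r _ => ?_
  show (conj (ph μ r)) • cxL t.D (Jr t hB (shift s c) r) (Z (shift (s + r) c) x + Complex.I • Z (shift (s + r) c) y) =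
    (conj (ph μ r)) • cxL t.D (Jr t hB (shift s c) r) (Z (shift r (shift s c)) x) +
      Complex.I • (conj (ph μ r)) • cxL t.D (Jr t hB (shift s c) r) (Z (shift r (shift s c)) y)
  rw [← shift_comm' s r c, map_add, map_smul, smul_add, smul_comm Complex.I]

theorem zc_zero (Z : Gs M → (Eu N →L[ℝ] HC t.D)) (x : Eu N) (c : Gs M) (s : ℝ) : zc t Z x 0 c s = Z (shift s c) x := by
  unfold zc
  rw [map_zero, smul_zero, add_zero]

include e hk in
theorem GSec.hop (h : GSec t hB Z) (μ : ℝ) : GSec t hB (Hop t hB μ Z) := by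
  refine ⟨?_, fun c x => ?_, fun c x => ?_⟩
  · intro F _ _ σ u hσ
    have h1 : SmF 𝒜 (fun c => ∫ r in (0 : ℝ)..π, ((conj (ph μ r)) • cxL t.D (Jr t hB c r)).restrictScalars ℝ ∘L Z (shift r c)) :=
      smF_int hB e (f := fun c r => ((conj (ph μ r)) • cxL t.D (Jr t hB c r)).restrictScalars ℝ ∘L Z (shift r c))
        (fun hσ hr => smF_JZ e hk (fun hσ => h.sm hσ) μ hσ hr) 0 π
    exact (h1 hσ).const_smul (-(1 / 2) : ℝ)
  · have h1 := (OD.Den_Hm (h.den e hk x 0 c) μ).mem 0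
    rw [Hm_zc e hk h, zc_zero, shift_zero] at h1
    have h2 : (orb t hB e hk c).od.P 0 = cxL t.D (Pr t c) := by
      show cxL t.D (Pr t (shift 0 c)) = _
      rw [shift_zero]
    rw [h2] at h1
    exact h1
  · have h1 := (OD.Den_Hm (h.den e hk x 0 c) μ).odd 0
    rw [Hm_zc e hk h, Hm_zc e hk h, zc_zero, zc_zero, shift_zero, zero_add] at h1
    have h2 : (orb t hB e hk c).od.T 0 = cxL t.D (Tr t hB c) := by
      show cxL t.D (Tr t hB (shift 0 c)) = _
      rw [shift_zero]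
    rw [h2] at h1
    exact h1

theorem GSec.add (h : GSec t hB Z) {Z' : Gs M → (Eu N →L[ℝ] HC t.D)} (h' : GSec t hB Z') : GSec t hB (fun c => Z c + Z' c) := by
  refine ⟨fun hσ => (h.sm hσ).add (h'.sm hσ), fun c x => ?_, fun c x => ?_⟩
  · rw [add_apply, map_add, h.mem, h'.mem]
  · rw [add_apply, add_apply, map_add, h.odd, h'.odd, neg_add]

theorem GSec.smul (h : GSec t hB Z) (a : ℝ) : GSec t hB (fun c => a • Z c) := by
  refine ⟨fun hσ => (h.sm hσ).const_smul a, fun c x => ?_, fun c x => ?_⟩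
  · rw [smul_apply, ← Complex.coe_smul, map_smul, h.mem]
  · rw [smul_apply, smul_apply, ← Complex.coe_smul, ← Complex.coe_smul, map_smul, h.odd, smul_neg]

include e hk in
theorem GSec.sop (h : GSec t hB Z) (a μ : ℝ) : GSec t hB (Sop t hB a μ Z) := h.add ((h.hop e hk μ).smul a)

include e hk in
theorem GSec.uop (h : GSec t hB Z) (a μ h' : ℝ) : ∀ j, GSec t hB (Uop t hB a μ h' j Z)
  | 0 => h
  | j + 1 => (GSec.uop h a μ h' j).sop e hk a _

theorem Stp_zc (h : GSec t hB Z) (a μ : ℝ) (x y : Eu N) (c : Gs M) :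
    OD.Stp (orb t hB e hk c).od a μ (zc t Z x y c) = zc t (Sop t hB a μ Z) x y c := by
  funext s
  unfold OD.Stp
  rw [Hm_zc e hk h]
  show (Z (shift s c) x + Complex.I • Z (shift s c) y) + (a : ℂ) • (Hop t hB μ Z (shift s c) x + Complex.I • Hop t hB μ Z (shift s c) y) =
    (Z (shift s c) x + a • Hop t hB μ Z (shift s c) x) + Complex.I • (Z (shift s c) y + a • Hop t hB μ Z (shift s c) y)
  rw [Complex.coe_smul, smul_add, smul_add, smul_comm Complex.I a]
  abel

theorem Ust_zc (h : GSec t hB Z) (a μ h' : ℝ) (x y : Eu N) (c : Gs M) : ∀ j,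
    OD.Ust (orb t hB e hk c).od a μ h' j (zc t Z x y c) = zc t (Uop t hB a μ h' j Z) x y c
  | 0 => rfl
  | j + 1 => by
    show OD.Stp (orb t hB e hk c).od a (μ + j * h') (OD.Ust (orb t hB e hk c).od a μ h' j (zc t Z x y c)) = _
    rw [Ust_zc h a μ h' x y c j, Stp_zc e hk (h.uop e hk a μ h' j)]
    rfl

end

end Pool.Agent.Lib.MP_ccbbf6_gt.K7.GG
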