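import Pool.Agent.Lib.MP_ccbbf6_gt.K7.HR

/-!
# `κ = 7`, block B4: gluing of primitives (helper25)

`X = U0 ∪ U1` (open), `χ = 0` near the complement of `U1`, `χ = 1` near the complement of `U0`; `w = d z0` on `U0`,
`w = d z1` on `U1`, `z0 - z1 = d κ` on `U0 ∩ U1`: then `w = d ((1 - χ) z0 + χ z1 - dχ κ)`.
-/

set_option autoImplicit false
set_option maxSynthPendingDepth 3

open Set Filter Topology MeasureTheory
open scoped TensorProduct ContDiff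

noncomputable section

namespace Pool.Agent.Lib.MP_ccbbf6_gt.K7

open L4 L4.FR L5

variable {X Y Z M K K' S B : Space} {k l n N : ℕ} {i j : ℤ}

/-- inclusions of subspaces -/
def resS (X : Space) {U V : Set X.pt} (h : U ⊆ V) : SMap (sub X U) (sub X V) :=
  ⟨fun x => ⟨x.1, h x.2⟩, fun _ p => p.2⟩

theorem inU_resS {U V : Set X.pt} (h : U ⊆ V) : (inU X V).comp (resS X h) = inU X U := rfl

theorem DZ_ext0 {U : Set X.pt} (hU : OpenU X U) {θ : Om (sub X U)} (h : Van X U θ) (hd : DZ j θ) :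
    DZ j (ext0 hU θ h) :=
  ⟨fun i e => Deg_ext0 hU h (hd.1 i e), fun hj => by
    have e := hd.2 hj
    subst e
    exact ext0_zero hU h⟩

section glue

variable {U0 U1 : Set X.pt} (h0 : OpenU X U0) (h1 : OpenU X U1) {χ : X.pt → ℝ}
  (hχ : ∀ (k : ℕ) (p : X.Plot k), ContDiff ℝ ∞ fun x => χ (p.1 x))
  (c1 : ∀ (k : ℕ) (p : X.Plot k) (x : V k), p.1 x ∉ U1 → ∀ᶠ y in 𝓝 x, χ (p.1 y) = 0)
  (c0 : ∀ (k : ℕ) (p : X.Plot k) (x : V k), p.1 x ∉ U0 → ∀ᶠ y in 𝓝 x, χ (p.1 y) = 1)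

theorem ev_dfO {p : X.Plot k} {x : V k} {r : ℝ} (h : ∀ᶠ y in 𝓝 x, χ (p.1 y) = r) :
    ev x (Om.on (dO X (fO χ hχ)) p) = 0 := by
  have e : ev x (dd k (Om.on (fO χ hχ) p)) = ev x (dd k (Om.on (r • (1 : Om X)) p)) := by
    refine ev_dd_congr ?_
    filter_upwards [h] with y hy
    rw [ev_fO, hy, on_smul, on_one, map_smul, map_one, Algebra.algebraMap_eq_smul_one]
  rw [on_d, e, ← on_d, map_smul, d_one, smul_zero, on_zero, map_zero]

/-- the cut-off function as a form -/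
abbrev cO (hχ : ∀ (k : ℕ) (p : X.Plot k), ContDiff ℝ ∞ fun x => χ (p.1 x)) : Om X := fO χ hχ

theorem ev_one_sub {p : X.Plot k} {x : V k} : ev x (Om.on (1 - fO χ hχ) p) = algebraMap ℝ (Ex k) (1 - χ (p.1 x)) := by
  rw [on_sub, on_one, map_sub, map_one, ev_fO, map_sub, map_one]

include h1 c1 in
theorem Van1 (z1 : Om (sub X U1)) : Van X U1 ((inU X U1).pull (fO χ hχ) * z1) := Van_mul (Van_fO h1 hχ c1) z1

include h0 c0 in
theorem Van0 (z0 : Om (sub X U0)) : Van X U0 ((inU X U0).pull (1 - fO χ hχ) * z0) :=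
  Van_mul (Van_res h0 fun k p x hx => by
    filter_upwards [c0 k p x hx] with y hy
    rw [ev_one_sub, hy, sub_self, map_zero]) z0

include h0 h1 c0 c1 in
theorem Van01 (κ : Om (sub X (U0 ∩ U1))) : Van X (U0 ∩ U1) ((inU X (U0 ∩ U1)).pull (dO X (fO χ hχ)) * κ) :=
  Van_mul (Van_res (OpenU_inter h0 h1) fun k p x hx => by
    by_cases hx0 : p.1 x ∈ U0
    · have hx1 : p.1 x ∉ U1 := fun h => hx ⟨hx0, h⟩
      filter_upwards [(c1 k p x hx1).eventually_nhds] with y hy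
      exact ev_dfO hχ hy
    · filter_upwards [(c0 k p x hx0).eventually_nhds] with y hy
      exact ev_dfO hχ hy) κ

/-- the primitive -/
def glz (z0 : Om (sub X U0)) (z1 : Om (sub X U1)) (κ : Om (sub X (U0 ∩ U1))) : Om X :=
  ext0 h0 _ (Van0 h0 hχ c0 z0) + ext0 h1 _ (Van1 h1 hχ c1 z1) -
    ext0 (OpenU_inter h0 h1) _ (Van01 h0 h1 hχ c1 c0 κ)

theorem DZ_cO : DZ 0 (fO χ hχ) := DZ_of (i := 0) (fun _ _ => Dg_fc _) rfl

theorem DZ_glz {z0 : Om (sub X U0)} {z1 : Om (sub X U1)} {κ : Om (sub X (U0 ∩ U1))} (hz0 : DZ j z0) (hz1 : DZ j z1)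
    (hκ : DZ (j - 1) κ) : DZ j (glz h0 h1 hχ c1 c0 z0 z1 κ) := by
  refine DZ_sub (DZ_add (DZ_ext0 _ _ ?_) (DZ_ext0 _ _ ?_)) (DZ_ext0 _ _ ?_)
  · exact (DZ_mul (DZ_pull _ (DZ_sub DZ_one (DZ_cO hχ))) hz0).cast (zero_add j)
  · exact (DZ_mul (DZ_pull _ (DZ_cO hχ)) hz1).cast (zero_add j)
  · exact (DZ_mul (DZ_pull _ (DZ_d (DZ_cO hχ))) hκ).cast (by ring)

theorem sO_cO : sO X (fO χ hχ) = fO χ hχ := Deg_even (j := 0) (fun _ _ => Dg_fc _)

/-- **gluing** -/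
theorem d_glz (hU : ∀ x, x ∈ U0 ∨ x ∈ U1) {w : Om X} {z0 : Om (sub X U0)} {z1 : Om (sub X U1)}
    {κ : Om (sub X (U0 ∩ U1))} (e0 : dO _ z0 = (inU X U0).pull w) (e1 : dO _ z1 = (inU X U1).pull w)
    (eκ : dO _ κ = (resS X (inter_subset_left (s := U0) (t := U1))).pull z0 -
      (resS X (inter_subset_right (s := U0) (t := U1))).pull z1) :
    dO X (glz h0 h1 hχ c1 c0 z0 z1 κ) = w := by
  have hs : sO X (fO χ hχ) = fO χ hχ := sO_cO hχ
  have hd : dO X (1 - fO χ hχ) = -dO X (fO χ hχ) := by rw [map_sub, d_one, zero_sub]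
  have hs1 : sO X (1 - fO χ hχ) = 1 - fO χ hχ := by rw [map_sub, map_one, hs]
  have hsd : sO X (dO X (fO χ hχ)) = -dO X (fO χ hχ) := by rw [s_d, hs]
  have r0 : (inU X (U0 ∩ U1)).pull (ext0 h0 _ (Van0 h0 hχ c0 z0)) =
      (inU X (U0 ∩ U1)).pull (1 - fO χ hχ) * (resS X inter_subset_left).pull z0 := by
    rw [← inU_resS inter_subset_left, pull_comp, pull_comp, ext0_res, map_mul]
  have r1 : (inU X (U0 ∩ U1)).pull (ext0 h1 _ (Van1 h1 hχ c1 z1)) =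
      (inU X (U0 ∩ U1)).pull (fO χ hχ) * (resS X inter_subset_right).pull z1 := by
    rw [← inU_resS inter_subset_right, pull_comp, pull_comp, ext0_res, map_mul]
  have f0 : dO _ ((resS X (inter_subset_left (s := U0) (t := U1))).pull z0) = (inU X (U0 ∩ U1)).pull w := by
    rw [pull_d, e0, ← pull_comp, inU_resS]
  have f1 : dO _ ((resS X (inter_subset_right (s := U0) (t := U1))).pull z1) = (inU X (U0 ∩ U1)).pull w := by
    rw [pull_d, e1, ← pull_comp, inU_resS]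
  have g0 : ∀ (k : ℕ) (p : X.Plot k) (x : V k), p.1 x ∉ U0 → p.1 x ∈ U1 → ev x (Om.on (dO X (glz h0 h1 hχ c1 c0 z0 z1 κ)) p) =
      ev x (Om.on w p) := fun k p x hx hx1 => by
    have hx2 : p.1 x ∉ U0 ∩ U1 := fun h => hx h.1
    unfold glz
    rw [map_sub, map_add, on_sub, on_add, map_sub, map_add, ev_d_ext0_not h0 _ p hx, ev_d_ext0_not _ _ p hx2, zero_add,
      sub_zero, ← vAt_res h1 _ p hx1, ← pull_d, ext0_res, d_mul, vAt_add (vU_inj X U1), vAt_mul (vU_inj X U1),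
      vAt_mul (vU_inj X U1), pull_d, pull_s, hs, vAt_res h1 _ p hx1, vAt_res h1 _ p hx1, e1, vAt_res h1 _ p hx1,
      ev_dfO hχ (c0 k p x hx), zero_mul, zero_add, ev_fO, (c0 k p x hx).self_of_nhds, map_one, one_mul]
  have g1 : ∀ (k : ℕ) (p : X.Plot k) (x : V k), p.1 x ∈ U0 → p.1 x ∉ U1 → ev x (Om.on (dO X (glz h0 h1 hχ c1 c0 z0 z1 κ)) p) =
      ev x (Om.on w p) := fun k p x hx0 hx => by
    have hx2 : p.1 x ∉ U0 ∩ U1 := fun h => hx h.2
    unfold glz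
    rw [map_sub, map_add, on_sub, on_add, map_sub, map_add, ev_d_ext0_not h1 _ p hx, ev_d_ext0_not _ _ p hx2, add_zero,
      sub_zero, ← vAt_res h0 _ p hx0, ← pull_d, ext0_res, d_mul, vAt_add (vU_inj X U0), vAt_mul (vU_inj X U0),
      vAt_mul (vU_inj X U0), pull_d, pull_s, hs1, hd, vAt_res h0 _ p hx0, vAt_res h0 _ p hx0, e0, vAt_res h0 _ p hx0,
      on_neg, map_neg, ev_dfO hχ (c1 k p x hx), neg_zero, zero_mul, zero_add, ev_one_sub, (c1 k p x hx).self_of_nhds,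
      sub_zero, map_one, one_mul]
  have q0 : dO _ ((inU X (U0 ∩ U1)).pull (1 - fO χ hχ)) = -((inU X (U0 ∩ U1)).pull (dO X (fO χ hχ))) := by
    rw [pull_d, hd, map_neg]
  have q1 : dO _ ((inU X (U0 ∩ U1)).pull (fO χ hχ)) = (inU X (U0 ∩ U1)).pull (dO X (fO χ hχ)) := pull_d _ _
  have q2 : dO _ ((inU X (U0 ∩ U1)).pull (dO X (fO χ hχ))) = 0 := by rw [pull_d, d_d, map_zero]
  have p0 : sO _ ((inU X (U0 ∩ U1)).pull (1 - fO χ hχ)) = (inU X (U0 ∩ U1)).pull (1 - fO χ hχ) := by rw [pull_s, hs1]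
  have p1 : sO _ ((inU X (U0 ∩ U1)).pull (fO χ hχ)) = (inU X (U0 ∩ U1)).pull (fO χ hχ) := by rw [pull_s, hs]
  have p2 : sO _ ((inU X (U0 ∩ U1)).pull (dO X (fO χ hχ))) = -((inU X (U0 ∩ U1)).pull (dO X (fO χ hχ))) := by
    rw [pull_s, hsd, map_neg]
  refine ext_unique (OpenU_inter h0 h1) ?_ fun k p x hx => ?_
  · rw [← pull_d]
    unfold glz
    rw [map_sub, map_add, r0, r1, ext0_res, map_sub, map_add, d_mul, d_mul, d_mul, q0, q1, q2, p0, p1, p2, f0, f1, eκ,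
      map_sub, map_one]
    noncomm_ring
  · rcases hU (p.1 x) with hx0 | hx1
    · exact g1 k p x hx0 fun h => hx ⟨hx0, h⟩
    · exact g0 k p x (fun h => hx ⟨h, hx1⟩) hx1

include h0 h1 hχ c1 c0 in
/-- **gluing**, relative version -/
theorem RX_glue {k : SMap K X} (hk : ∀ x, k.1 x ∉ U1) {k0 : SMap K (sub X U0)} (hk0 : ∀ x, (k0.1 x).1 = k.1 x)
    (hU : ∀ x, x ∈ U0 ∨ x ∈ U1) {w : Om X} {z0 : Om (sub X U0)} {z1 : Om (sub X U1)}
    {κ : Om (sub X (U0 ∩ U1))} (hz0 : DZ (j - 1) z0) (hz1 : DZ (j - 1) z1)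
    (hκ : DZ (j - 2) κ) (e0 : dO _ z0 = (inU X U0).pull w) (e1 : dO _ z1 = (inU X U1).pull w) (ek : k0.pull z0 = 0)
    (eκ : dO _ κ = (resS X (inter_subset_left (s := U0) (t := U1))).pull z0 -
      (resS X (inter_subset_right (s := U0) (t := U1))).pull z1) : RX k j w := by
  refine ⟨glz h0 h1 hχ c1 c0 z0 z1 κ, DZ_glz _ _ _ _ _ hz0 hz1 (hκ.cast (by ring)), ?_,
    d_glz _ _ _ _ _ hU e0 e1 eκ⟩
  have hkk : ∀ (l : ℕ) (p : K.Plot l) (x : V l), (k.pl p).1 x ∉ U1 := fun l p x => hk _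
  have a1 : k.pull (ext0 h1 _ (Van1 h1 hχ c1 z1)) = 0 := Om_ext fun l p => ev_ext fun x => by
    rw [on_pull, ev_ext0_not h1 _ (k.pl p) (hkk l p x), on_zero, map_zero]
  have a2 : k.pull (ext0 (OpenU_inter h0 h1) _ (Van01 h0 h1 hχ c1 c0 κ)) = 0 := Om_ext fun l p => ev_ext fun x => by
    rw [on_pull, ev_ext0_not _ _ (k.pl p) (fun h => hkk l p x h.2), on_zero, map_zero]
  unfold glz
  rw [map_sub, map_add, a1, a2, sub_zero, add_zero, ← SMap_ext (f := (inU X U0).comp k0) (g := k) hk0, pull_comp,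
    ext0_res, map_mul, ek, mul_zero]

end glue

end Pool.Agent.Lib.MP_ccbbf6_gt.K7
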