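import Pool.Agent.Lib.MP_ccbbf6_gt.K7.GY0

/-!
# `κ = 7`, block E, part 1: closed basic forms on sphere bundles (helper56)

`EB.dec` : a closed basic form of even degree is `π^* P(f w / 2) + f π^* P(w) / 2` up to `d` of a basic form.
-/

set_option autoImplicit false
set_option maxSynthPendingDepth 3

open Set Filter Topology
open scoped ContDiff

noncomputable section

namespace Pool.Agent.Lib.MP_ccbbf6_gt.K7

open L4 L4.FR L5

variable {Y G : Space}

namespace EB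

variable {N : ℕ} (b : EB N Y G)

/-- the normalised fibre form -/
def Ps : Om Y := (1 / 2 : ℝ) • b.f

theorem Ps_deg : Deg N b.Ps := Deg_smul _ b.fd

theorem Ps_d : dO Y b.Ps = 0 := by
  unfold Ps
  rw [map_smul, b.df, smul_zero]

theorem Ps_bas : Bas b.cY b.Ps := Bas_smul b.cY _ b.bas_f

theorem Ps_s : sO Y b.Ps = b.Ps := by
  unfold Ps
  rw [map_smul, b.s_f]

theorem P_Ps (w : Om G) : b.P (b.Ps * b.B.pi.pull w) = w := by
  unfold Ps
  rw [smul_mul_assoc, map_smul, P_f, smul_smul]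
  norm_num

theorem PI_Ps : b.B.PI b.Ps = 1 := by
  have h := b.P_Ps 1
  rwa [map_one, mul_one] at h

theorem P_ff (w : Om G) : b.P (b.Ps * (b.f * b.B.pi.pull w)) = 0 := by
  have h := b.P_ant (b.f * b.f)
  rw [map_mul, b.fa, neg_mul_neg] at h
  have h2 : (2 : ℝ) • b.P (b.f * b.f) = 0 := by
    rw [two_smul]
    nth_rewrite 1 [h]
    exact neg_add_cancel _
  have h3 : (2 : ℝ)⁻¹ • (2 : ℝ) • b.P (b.f * b.f) = 0 := by rw [h2, smul_zero]
  rw [smul_smul, inv_mul_cancel₀ two_ne_zero, one_smul] at h3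
  unfold Ps
  rw [← mul_assoc, P_mulr, smul_mul_assoc, map_smul, h3, smul_zero, zero_mul]

/-- the remainder of the decomposition -/
def rem (w : Om Y) : Om Y := w - b.B.pi.pull (b.P (b.Ps * w)) - (1 / 2 : ℝ) • (b.f * b.B.pi.pull (b.P w))

theorem P_rem (w : Om Y) : b.P (b.rem w) = 0 := by
  unfold rem
  rw [map_sub, map_sub, P_pi, sub_zero, map_smul, P_f, smul_smul]
  norm_num

theorem PPs_rem (w : Om Y) : b.P (b.Ps * b.rem w) = 0 := by
  unfold rem
  rw [mul_sub, mul_sub, map_sub, map_sub, P_Ps, sub_self, mul_smul_comm, map_smul, P_ff, smul_zero, sub_zero]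

theorem bas_rem {w : Om Y} (h : Bas b.cY w) : Bas b.cY (b.rem w) :=
  Bas_sub _ (Bas_sub _ h (b.bas_pi (b.PI_bas (Bas_mul _ b.Ps_bas h))))
    (Bas_smul _ _ (Bas_mul _ b.bas_f (b.bas_pi (b.PI_bas h))))

/-- `SSc` for the normalised form -/
theorem rem_prim {w : Om Y} (hd : dO Y w = 0) : ∃ η : Om Y, (∀ i, Deg (i + 1) w → Deg i η) ∧ b.rem w = dO Y η := by
  obtain ⟨η, h1, h2⟩ := b.B.SSc b.hN b.Ps_deg b.PI_Ps b.Ps_d hd
  refine ⟨η, h1, ?_⟩
  have h3 : (-1 : ℝ) ^ (N + 1) • (b.B.ant.pull b.Ps * b.B.pi.pull (b.B.PI w)) =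
      (1 / 2 : ℝ) • (b.f * b.B.pi.pull (b.B.PI w)) := by
    rw [pow_succ, b.sgn, one_mul]
    unfold Ps
    rw [map_smul, b.fa, smul_neg, neg_mul, neg_smul, one_smul, neg_neg, smul_mul_assoc]
  rw [h3] at h2
  unfold rem
  rw [P_apply, P_apply]
  nth_rewrite 1 [h2]
  abel

theorem rem_zero {w : Om Y} (hw : Deg 0 w) (hd : dO Y w = 0) : b.rem w = 0 := by
  have h1 := b.B.SSc_F b.hN b.Ps_deg b.PI_Ps b.Ps_d hd
  have h2 : b.B.KS w = 0 := by
    unfold SBun.KS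
    exact KO_zero (Deg_pull _ (Deg_pull _ hw))
  have h3 : b.B.HS b.Ps w = 0 := by
    unfold SBun.HS
    rw [h2, mul_zero, map_zero, map_zero]
  have h5 : b.B.PI w = 0 := b.B.PI_low hw b.hN
  rw [h3, smul_zero, map_zero, add_zero, h5, map_zero, mul_zero, smul_zero, add_zero] at h1
  have h4 : w = b.B.pi.pull (b.B.PI (b.Ps * w)) := by
    refine LLift.inj (q := b.B.q1) b.B.lift1 ?_
    rw [h1, ← pull_comp, b.B.pi_q1]
  unfold rem
  rw [P_apply, P_apply, h5, map_zero, mul_zero, smul_zero, sub_zero, ← h4, sub_self]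

theorem d_rem {w : Om Y} (hd : dO Y w = 0) : dO Y (b.rem w) = 0 := by
  obtain ⟨η, -, h⟩ := b.rem_prim hd
  rw [h, d_d]

theorem rem_Xe : ∀ (i : ℕ) (w : Om Y), Deg (2 * i) w → Bas b.cY w → dO Y w = 0 → Xe b.cY (b.rem w) := by
  intro i
  induction i with
  | zero =>
    intro w hw hb hd
    rw [b.rem_zero hw hd]
    exact Xe_zero
  | succ i ih =>
    intro w hw hb hd
    obtain ⟨η, h1, h2⟩ := b.rem_prim hd
    have hη : Deg (2 * i + 1) η := h1 _ hw
    -- the connection on `Y`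
    have hA : Cnn b.cY (b.B.pi.pull b.A) := b.cA.pull b.pic
    have hv := b.bas_rem hb
    obtain ⟨k1, k2, k3, k4⟩ := bas_prim hA.i hA.id hv h2.symm
    obtain ⟨θ, hθ⟩ : ∃ θ, θ = iO b.cY (AO b.cY η) := ⟨_, rfl⟩
    rw [← hθ] at k1 k2 k3 k4
    have hθd : Deg (2 * i) θ := by
      rw [hθ]
      exact Deg_i b.cY (Deg_A b.cY hη)
    have h3 := ih θ hθd k2 k1
    -- `e θ` modulo exact basic forms
    have he : dO Y (b.B.pi.pull b.A) = b.B.pi.pull (dO G b.A) := rfl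
    have hse : sO Y (b.B.pi.pull (dO G b.A)) = b.B.pi.pull (dO G b.A) := by
      rw [pull_s]
      exact congrArg _ b.cA.s_e
    have hbe : Bas b.cY (b.B.pi.pull (dO G b.A)) := b.bas_pi b.cA.Bas_e
    have hde : dO Y (b.B.pi.pull (dO G b.A)) = 0 := by rw [pull_d, d_d, map_zero]
    obtain ⟨a, ha⟩ : ∃ a, a = b.P (b.Ps * θ) := ⟨_, rfl⟩
    obtain ⟨c, hc⟩ : ∃ c, c = b.P θ := ⟨_, rfl⟩
    have h4 : Xe b.cY (b.rem w - b.B.pi.pull (dO G b.A * a) - (1 / 2 : ℝ) • (b.f * b.B.pi.pull (dO G b.A * c))) := by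
      have h5 := Xe_add (mul_Xe h3 hbe hse hde) (Xe_d k3)
      have h6 : b.B.pi.pull (dO G b.A) * b.rem θ + dO Y (AO b.cY η - b.B.pi.pull b.A * θ) =
          b.rem w - b.B.pi.pull (dO G b.A * a) - (1 / 2 : ℝ) • (b.f * b.B.pi.pull (dO G b.A * c)) := by
        have h7 : b.B.pi.pull (dO G b.A) * b.f = b.f * b.B.pi.pull (dO G b.A) := (even_comm' b.s_f _).symm
        have h71 : b.B.pi.pull (dO G b.A * a) = b.B.pi.pull (dO G b.A) * b.B.pi.pull a := map_mul _ _ _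
        have h72 : b.B.pi.pull (dO G b.A * c) = b.B.pi.pull (dO G b.A) * b.B.pi.pull c := map_mul _ _ _
        have h73 : b.rem θ = θ - b.B.pi.pull a - (1 / 2 : ℝ) • (b.f * b.B.pi.pull c) := by rw [ha, hc]; rfl
        rw [k4, he, h71, h72, h73, mul_sub, mul_sub, mul_smul_comm, ← mul_assoc _ b.f, h7, mul_assoc b.f]
        abel
      rw [h6] at h5
      exact h5
    -- the two parts
    have h8 : Xe b.cG (dO G b.A * c) := by
      have h9 := b.PI_Xe h4
      rw [map_sub, map_sub, P_rem, P_pi, zero_sub, neg_zero, zero_sub, map_smul, P_f, smul_smul] at h9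
      have h10 := Xe_neg h9
      rw [neg_neg] at h10
      norm_num at h10
      exact h10
    have h11 : Xe b.cG (dO G b.A * a) := by
      have h9 := b.PI_Xe (mul_Xe h4 b.Ps_bas b.Ps_s b.Ps_d)
      rw [mul_sub, mul_sub, map_sub, map_sub, PPs_rem, P_Ps, zero_sub, mul_smul_comm, map_smul, P_ff, smul_zero,
        sub_zero] at h9
      have h10 := Xe_neg h9
      rwa [neg_neg] at h10
    have h12 : Xe b.cY (b.f * b.B.pi.pull (dO G b.A * c)) := mul_Xe (b.Xe_pi h8) b.bas_f b.s_f b.df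
    have h13 := Xe_add (Xe_add h4 (b.Xe_pi h11)) (Xe_smul (1 / 2) h12)
    have h14 : b.rem w - b.B.pi.pull (dO G b.A * a) - (1 / 2 : ℝ) • (b.f * b.B.pi.pull (dO G b.A * c)) +
        b.B.pi.pull (dO G b.A * a) + (1 / 2 : ℝ) • (b.f * b.B.pi.pull (dO G b.A * c)) = b.rem w := by abel
    rw [h14] at h13
    exact h13

/-- **closed basic forms on sphere bundles** -/
theorem dec {w : Om Y} {i : ℕ} (hw : Deg (2 * i) w) (hb : Bas b.cY w) (hd : dO Y w = 0) :
    Xe b.cY (w - b.B.pi.pull (b.P (((1 / 2 : ℝ) • b.f) * w)) - (1 / 2 : ℝ) • (b.f * b.B.pi.pull (b.P w))) :=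
  b.rem_Xe i w hw hb hd

end EB

end Pool.Agent.Lib.MP_ccbbf6_gt.K7
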