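import Pool.Agent.Lib.MP_ccbbf6_gt.K7.GY1

/-!
# `κ = 7`, block E, part 2: restriction of a form on a sphere bundle to a sphere subbundle (helper56)

`EB.gysin` : `P_X (j^* w) ~ e P_Y w` for `j : X → Y` with `j^* f_Y ~ f_X e`.
-/

set_option autoImplicit false
set_option maxSynthPendingDepth 3
set_option linter.unusedVariables false

open Set Filter Topology
open scoped ContDiff

noncomputable section

namespace Pool.Agent.Lib.MP_ccbbf6_gt.K7

open L4 L4.FR L5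

variable {X Y G : Space}

namespace EB

variable {N N' : ℕ}

theorem PPs_pi (b : EB N Y G) (T0 : Om G) : b.P (b.Ps * b.B.pi.pull T0) = T0 := b.P_Ps T0

/-- **the Gysin step** -/
theorem gysin (bx : EB N' X G) (b : EB N Y G) (hc : b.cG = bx.cG) (j : SMap X Y) (hj : b.B.pi.comp j = bx.B.pi)
    (hjc : Eqv bx.cY b.cY j) {eG : Om G} (se : sO G eG = eG) (de : dO G eG = 0) (be : Bas b.cG eG)
    (hf : Xe bx.cY (j.pull b.f - bx.f * bx.B.pi.pull eG)) {w : Om Y} {T0 : Om G} {i : ℕ} (hw : Deg (2 * i) w)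
    (hb : Bas b.cY w) (hd : dO Y w = b.B.pi.pull T0) : Xe bx.cG (bx.P (j.pull w) - eG * b.P w) := by
  -- the closed form
  have hsg : ∀ x : Om G, j.pull (b.B.pi.pull x) = bx.B.pi.pull x := fun x => by rw [← pull_comp, hj]
  obtain ⟨g, hg⟩ : ∃ g, g = b.P (b.Ps * w) := ⟨_, rfl⟩
  have dg : dO G g = T0 := by
    rw [hg, ← b.P_d, d_mul, b.Ps_d, zero_mul, zero_add, b.Ps_s, hd, b.P_Ps]
  have bg : Bas b.cG g := by
    rw [hg]
    exact b.PI_bas (Bas_mul _ b.Ps_bas hb)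
  have hgd : Deg (2 * i) g := by
    rw [hg]
    refine b.B.Deg_PI ?_
    have h := Deg_mul b.Ps_deg hw
    rwa [add_comm] at h
  obtain ⟨w', hw'⟩ : ∃ w', w' = w - b.B.pi.pull g := ⟨_, rfl⟩
  have dw' : dO Y w' = 0 := by rw [hw', map_sub, hd, pull_d, dg, sub_self]
  have bw' : Bas b.cY w' := by
    rw [hw']
    exact Bas_sub _ hb (b.bas_pi bg)
  have Dw' : Deg (2 * i) w' := by
    rw [hw']
    exact Deg_sub hw (Deg_pull _ hgd)
  have h1 := Xe_nat hjc (b.dec Dw' bw' dw')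
  have h2 := bx.PI_Xe h1
  have Pw' : b.P w' = b.P w := by rw [hw', map_sub, b.P_pi, sub_zero]
  -- the base of `w'`
  have e1 : bx.P (j.pull (w' - b.B.pi.pull (b.P (((1 / 2 : ℝ) • b.f) * w')) -
      (1 / 2 : ℝ) • (b.f * b.B.pi.pull (b.P w')))) =
      bx.P (j.pull w) - (1 / 2 : ℝ) • bx.P (j.pull b.f * bx.B.pi.pull (b.P w)) := by
    have e2 : j.pull (w' - b.B.pi.pull (b.P (((1 / 2 : ℝ) • b.f) * w')) - (1 / 2 : ℝ) • (b.f * b.B.pi.pull (b.P w'))) =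
        j.pull w - bx.B.pi.pull g - bx.B.pi.pull (b.P (((1 / 2 : ℝ) • b.f) * w')) -
          (1 / 2 : ℝ) • (j.pull b.f * bx.B.pi.pull (b.P w)) := by
      obtain ⟨g2, hg2⟩ : ∃ g2, g2 = b.P (((1 / 2 : ℝ) • b.f) * w') := ⟨_, rfl⟩
      rw [← hg2]
      have e3 : j.pull (b.f * b.B.pi.pull (b.P w')) = j.pull b.f * j.pull (b.B.pi.pull (b.P w')) := map_mul _ _ _
      rw [map_sub, map_sub, hsg, map_smul, e3, hsg, Pw', hw', map_sub, hsg]
    rw [e2, map_sub, map_sub, map_sub, bx.P_pi, bx.P_pi, sub_zero, sub_zero, map_smul]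
  rw [e1] at h2
  -- the form `f`
  have bP : Bas b.cG (b.P w) := b.PI_bas hb
  have dP : dO G (b.P w) = 0 := by rw [← b.P_d, hd, b.P_pi]
  have bP' : Bas bx.cG (b.P w) := hc ▸ bP
  have h3 : Xe bx.cY ((j.pull b.f - bx.f * bx.B.pi.pull eG) * bx.B.pi.pull (b.P w)) :=
    Xe_mul hf (bx.bas_pi bP') (by rw [pull_d, dP, map_zero])
  have h4 := Xe_smul (1 / 2 : ℝ) (bx.PI_Xe h3)
  have e2 : bx.P ((j.pull b.f - bx.f * bx.B.pi.pull eG) * bx.B.pi.pull (b.P w)) =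
      bx.P (j.pull b.f * bx.B.pi.pull (b.P w)) - (2 : ℝ) • (eG * b.P w) := by
    rw [sub_mul, map_sub, mul_assoc, ← map_mul, bx.P_f]
  rw [e2] at h4
  have h5 := Xe_add h2 h4
  have e3 : bx.P (j.pull w) - (1 / 2 : ℝ) • bx.P (j.pull b.f * bx.B.pi.pull (b.P w)) +
      (1 / 2 : ℝ) • (bx.P (j.pull b.f * bx.B.pi.pull (b.P w)) - (2 : ℝ) • (eG * b.P w)) =
      bx.P (j.pull w) - eG * b.P w := by
    rw [smul_sub, smul_smul, show (1 / 2 : ℝ) * 2 = 1 by norm_num, one_smul]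
    abel
  rwa [e3] at h5

end EB

end Pool.Agent.Lib.MP_ccbbf6_gt.K7
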