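import Pool.Agent.Lib.MP_ccbbf6_gt.K7.C04
import Pool.Agent.Lib.MP_ccbbf6_gt.K7.GY2
import Pool.Agent.Lib.MP_ccbbf6_gt.K7.GY3

/-!
# `κ = 7`, block E, part 4: the level 2 identity on `UM` (helper53)

`yG` with `yy ~ pi^* yG`; `main` : `e(G) phi8 ~ D ((4 - 1/64) k1 e^7 yG + (4 - 1/1024) k2 e^11)`.
-/

set_option autoImplicit false
set_option maxSynthPendingDepth 3

open Set Filter Topology MeasureTheory
open scoped TensorProduct ContDiff

noncomputable section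

namespace Pool.Agent.Lib.MP_ccbbf6_gt.K7

open L4 L4.FR L5

variable {X Y Z M G F : Space} {k l n : ℕ} {i j : ℕ}

namespace GysD

variable (P : NegB X G M F 15 6 2 4) {L : ∀ {X : Space}, Circ X → SMap X M → Prop}

/-- the mean form on the base -/
def yG : Om G := (1 / 2 : ℝ) • (ebX P).P (P.f * (PP P).yy)

/-- the curvature on the base -/
def eB : Om G := dO G P.η

theorem pi_e : P.B.pi.pull (eB P) = (PP P).e := by
  unfold eB
  rw [← pull_d]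
  rfl

theorem Bas_eB : Bas P.cG (eB P) := (cE P).Bas_e

theorem d_eB : dO G (eB P) = 0 := d_d _

theorem s_eB : sO G (eB P) = eB P := (cE P).s_e

theorem Deg_yy : Deg 8 (PP P).yy := Deg_smul _ (Deg_add (PP P).Deg_xm (PP P).Deg_xp)

theorem Bas_yG : Bas P.cG (yG P) :=
  Bas_smul _ _ ((ebX P).PI_bas (Bas_mul _ (ebX P).bas_f (PP P).bas_yy))

theorem d_yG : dO G (yG P) = 0 := by
  unfold yG
  rw [map_smul, ← EB.P_d, d_mul, P.df, (PP P).d_yy, zero_mul, mul_zero, add_zero, map_zero, smul_zero]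

theorem Deg_yG : Deg 8 (yG P) := by
  refine Deg_smul _ (P.B.Deg_PI ?_)
  have h := Deg_mul P.fd (Deg_yy P)
  exact h

theorem s_yG : sO G (yG P) = yG P := Deg_even (j := 4) (Deg_yG P)

/-- `yy ~ pi^* yG` -/
theorem yy_pi : Xe (PP P).c ((PP P).yy - P.B.pi.pull (yG P)) := by
  have h := (ebX P).dec (i := 4) (Deg_yy P) (PP P).bas_yy (PP P).d_yy
  have h1 : (ebX P).P (PP P).yy = 0 := by
    have h2 := (ebX P).P_ant (PP P).yy
    have h3 : (ebX P).B.ant.pull (PP P).yy = (PP P).yy := (PP P).τyy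
    rw [h3] at h2
    have h4 : (2 : ℝ) • (ebX P).P (PP P).yy = 0 := by
      rw [two_smul]
      nth_rewrite 1 [h2]
      exact neg_add_cancel _
    have h5 : (2 : ℝ)⁻¹ • (2 : ℝ) • (ebX P).P (PP P).yy = 0 := by rw [h4, smul_zero]
    rwa [smul_smul, inv_mul_cancel₀ two_ne_zero, one_smul] at h5
  rw [h1, map_zero, mul_zero, smul_zero, sub_zero, smul_mul_assoc, map_smul] at h
  exact h

/-- the ring on the base -/
def eH : Rb P.cG := ⟨eB P, s_eB P, d_eB P, Bas_i _ (Bas_eB P)⟩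
/-- the mean form in the ring -/
def yH : Rb P.cG := ⟨yG P, s_yG P, d_yG P, Bas_i _ (Bas_yG P)⟩

/-- pull back of classes to `X` -/
def piR : Rb P.cG →ₐ[ℝ] Rb (PP P).c where
  toFun r := ⟨P.B.pi.pull r, by rw [pull_s, r.2.1], by rw [pull_d, r.2.2.1, map_zero], by
    have h : iO P.c (P.B.pi.pull (r : Om G)) = 0 := by rw [i_nat P.pic, r.2.2.2, map_zero]
    exact h⟩
  map_one' := Subtype.ext (map_one _)
  map_mul' r s := Subtype.ext (map_mul _ _ _)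
  map_zero' := Subtype.ext (map_zero _)
  map_add' r s := Subtype.ext (map_add _ _ _)
  commutes' r := Subtype.ext (AlgHom.commutes _ _)

/-- pull back preserves the relation -/
theorem cl_piR {w : Rb P.cG} (h : cl P.cG w = 0) : cl (PP P).c (piR P w) = 0 := by
  rw [cl_eq_zero] at h ⊢
  exact (ebX P).Xe_pi h

theorem cl_piR_e : cl (PP P).c (piR P (eH P)) = PK.eQ (PP P) := by
  have h : piR P (eH P) = PK.eR (PP P) := Subtype.ext (pi_e P)
  rw [h]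
  rfl

theorem cl_piR_y : cl (PP P).c (piR P (yH P)) = PK.yQ (PP P) := by
  refine (cl_eq.2 ?_).symm
  exact yy_pi P

variable {P} {d : ℝ} (hd : (PP P).Ex ((PP P).θ - d • (PP P).f))

include hd

/-- `∫ θ pi^* w = 2 D w` -/
theorem P_θ (w : Rb P.cG) : Xe P.cG ((ebX P).P ((PP P).θ * P.B.pi.pull (w : Om G)) - (2 * d) • (w : Om G)) := by
  have h1 : Xe P.c (((PP P).θ - d • (PP P).f) * P.B.pi.pull (w : Om G)) :=
    Xe_mul hd ((ebX P).bas_pi (Bas_Rb w)) (by rw [pull_d, w.2.2.1, map_zero])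
  have h2 := (ebX P).PI_Xe h1
  have h3 : (ebX P).P ((PP P).f * P.B.pi.pull (w : Om G)) = (2 : ℝ) • (w : Om G) := (ebX P).P_f _
  rw [sub_mul, map_sub, smul_mul_assoc, map_smul, h3, smul_smul, mul_comm d 2] at h2
  exact h2

/-- a class on the base is zero if its product with `θ` is zero -/
theorem cl_inj (hd0 : d ≠ 0) {w : Rb P.cG} (h : PK.θQ (PP P) * cl (PP P).c (piR P w) = 0) : cl P.cG w = 0 := by
  have h1 : cl (PP P).c (PK.θR (PP P) * piR P w) = 0 := by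
    rw [map_mul]
    exact h
  rw [cl_eq_zero] at h1
  have h2 := (ebX P).PI_Xe h1
  have h3 := Xe_sub h2 (P_θ hd w)
  have e1 : (ebX P).P ((PK.θR (PP P) * piR P w : Rb P.c) : Om X) -
      ((ebX P).P ((PP P).θ * P.B.pi.pull (w : Om G)) - (2 * d) • (w : Om G)) = (2 * d) • (w : Om G) := by
    change (ebX P).P ((PP P).θ * P.B.pi.pull (w : Om G)) - _ = _
    abel
  have h4 : Xe P.cG ((2 * d) • (w : Om G)) := by
    have h5 := h3
    rw [e1] at h5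
    exact h5
  have h5 := Xe_smul (2 * d)⁻¹ h4
  rw [smul_smul, inv_mul_cancel₀ (mul_ne_zero two_ne_zero hd0), one_smul] at h5
  exact cl_eq_zero.2 h5

/-- the relation on the base -/
theorem relG (hd0 : d ≠ 0) {a b : ℝ}
    (h : PK.θQ (PP P) ^ 2 = a • PK.eQ (PP P) ^ 6 + b • (PK.eQ (PP P) ^ 2 * PK.yQ (PP P))) :
    (12 : ℝ) • cl P.cG (yH P) ^ 2 + a • cl P.cG (eH P) ^ 8 + b • (cl P.cG (eH P) ^ 4 * cl P.cG (yH P)) = 0 := by
  have h1 : cl P.cG ((12 : ℝ) • yH P ^ 2 + a • eH P ^ 8 + b • (eH P ^ 4 * yH P)) = 0 := by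
    refine cl_inj hd hd0 ?_
    simp only [map_add, map_smul, map_pow, map_mul, cl_piR_e, cl_piR_y]
    have h2 := PK.rel h
    rw [mul_comm] at h2
    exact h2
  rw [map_add, map_add, map_smul, map_smul, map_smul, map_pow, map_pow, map_mul, map_pow] at h1
  exact h1

omit hd in
/-- independence on the base -/
theorem indepG {a b : ℝ} (h : PK.θQ (PP P) ^ 2 = a • PK.eQ (PP P) ^ 6 + b • (PK.eQ (PP P) ^ 2 * PK.yQ (PP P)))
    (hW : a * PK.Wn (PP P) ≠ 0) {s t : ℝ}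
    (hst : s • (cl P.cG (eH P) ^ 7 * cl P.cG (yH P)) + t • cl P.cG (eH P) ^ 11 = 0) : s = 0 ∧ t = 0 := by
  have h1 : cl P.cG (s • (eH P ^ 7 * yH P) + t • eH P ^ 11) = 0 := by
    rw [map_add, map_smul, map_smul, map_mul, map_pow, map_pow]
    exact hst
  have h2 := cl_piR P h1
  rw [map_add, map_smul, map_smul, map_mul, map_pow, map_pow] at h2
  rw [map_add, map_smul, map_smul, map_mul, map_pow, map_pow, cl_piR_e, cl_piR_y] at h2
  refine PK.indep h hW (s := s) (t := t) ?_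
  have h3 := congrArg (fun z => PK.θQ (PP P) * z) h2
  rw [mul_zero] at h3
  rw [← h3]
  algebra

/-! ### The level 2 identity -/

variable (D : GysD P L) (V : VanD M (PP P).u L)

omit hd in
include D in
/-- the class of the doubled family -/
theorem H_one : Xe (PP P).c (Hr V.k1 V.k2 P 1 + (PP P).θ * (((4 - 1 / 64) * V.k1) • ((PP P).e ^ 7 * (PP P).yy) +
    ((4 - 1 / 1024) * V.k2) • (PP P).e ^ 11)) := by
  have h1 : Hr V.k1 V.k2 P 1 = (4 : ℝ) • TTh P.c P.fl (PP P).u - (V.k1 / 64) • ((PP P).e ^ 7 * uxh P.c P.fl (PP P).u) -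
      (V.k2 / 1024) • ((PP P).e ^ 11 * xbh P.c P.fl (PP P).u) := by
    rw [Hr_one]
    unfold Th
    rw [AX_eq]
    exact K_TD_dbl (PK.cnn (PP P)) Du du P.fl
  have h2 : Xe (PP P).c (TTh P.c P.fl (PP P).u - V.k1 • ((PP P).e ^ 7 * uxh P.c P.fl (PP P).u) -
      V.k2 • ((PP P).e ^ 11 * xbh P.c P.fl (PP P).u)) := PK.TTh_van V D.L1
  have h3 : Xe (PP P).c ((PP P).e ^ 7 * uxh P.c P.fl (PP P).u + (PP P).e ^ 7 * ((PP P).θ * (PP P).yy)) :=
    PK.uxh_cl (PP P)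
  have h4 : xbh P.c P.fl (PP P).u = -(PP P).θ := PK.K1_eq (PP P)
  have h5 := Xe_add (Xe_smul 4 h2) (Xe_smul ((4 - 1 / 64) * V.k1) h3)
  have s7 : sO X ((PP P).e ^ 7) = (PP P).e ^ 7 := by rw [map_pow, (PP P).s_e]
  have s11 : sO X ((PP P).e ^ 11) = (PP P).e ^ 11 := by rw [map_pow, (PP P).s_e]
  have e1 : Hr V.k1 V.k2 P 1 + (PP P).θ * (((4 - 1 / 64) * V.k1) • ((PP P).e ^ 7 * (PP P).yy) +
      ((4 - 1 / 1024) * V.k2) • (PP P).e ^ 11) =
      (4 : ℝ) • (TTh P.c P.fl (PP P).u - V.k1 • ((PP P).e ^ 7 * uxh P.c P.fl (PP P).u) -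
      V.k2 • ((PP P).e ^ 11 * xbh P.c P.fl (PP P).u)) + ((4 - 1 / 64) * V.k1) •
      ((PP P).e ^ 7 * uxh P.c P.fl (PP P).u + (PP P).e ^ 7 * ((PP P).θ * (PP P).yy)) := by
    have e2 : (PP P).θ * ((PP P).e ^ 7 * (PP P).yy) = (PP P).e ^ 7 * ((PP P).θ * (PP P).yy) := by
      rw [← mul_assoc, ← mul_assoc, even_comm' s7 (PP P).θ]
    rw [h1, h4, mul_add, mul_smul_comm, mul_smul_comm, e2, ← even_comm' s11 (PP P).θ, mul_neg]
    module
  rw [e1]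
  exact h5

omit hd in
/-- the fibre integral of the doubled family over the second half -/
theorem P_half : Xe P.cG ((ebX P).P (Hr V.k1 V.k2 P 1 - Hr V.k1 V.k2 P (1 / 2)) -
    (1 / 2 : ℝ) • (ebX P).P (Hr V.k1 V.k2 P 1)) := by
  have h1 := (ebX P).PI_Xe (Xe_dbl.1 (ant_H (P := P) V.k1 V.k2))
  have h2 : (ebX P).P (P.B.ant.pull (Hr V.k1 V.k2 P (1 / 2))) = -(ebX P).P (Hr V.k1 V.k2 P (1 / 2)) :=
    (ebX P).P_ant _
  rw [map_sub, h2, map_sub] at h1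
  have h3 := Xe_smul (1 / 2 : ℝ) h1
  rw [map_sub]
  have e1 : (1 / 2 : ℝ) • (-(ebX P).P (Hr V.k1 V.k2 P (1 / 2)) - ((ebX P).P (Hr V.k1 V.k2 P (1 / 2)) -
      (ebX P).P (Hr V.k1 V.k2 P 1))) = (ebX P).P (Hr V.k1 V.k2 P 1) - (ebX P).P (Hr V.k1 V.k2 P (1 / 2)) -
    (1 / 2 : ℝ) • (ebX P).P (Hr V.k1 V.k2 P 1) := by
    module
  rwa [e1] at h3

/-- **the level 2 identity** -/
theorem main : Xe P.cG (D.eG * D.phi8 V - d • (((4 - 1 / 64) * V.k1) • (eB P ^ 7 * yG P) +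
    ((4 - 1 / 1024) * V.k2) • eB P ^ 11)) := by
  -- the Gysin step
  have h1 : Xe (dblc P.cG) ((ebX P).P (D.j.pull (D.om V)) - D.eG * D.phi8 V) := by
    exact (ebX P).dbl.gysin D.b D.hc D.j D.hj D.hjc (Deg_even (j := 7) D.De) D.de
      (by rw [D.hc]; exact Bas_dbl.2 D.be) (Xe_dbl.2 D.hf) (i := 14) (D.Deg_om V) (D.Bas_om V) (D.d_om V)
  have h2 := Xe_dbl.1 h1
  -- the family
  have h3 := (ebX P).PI_Xe (Xe_dbl.1 (D.j_om V))
  rw [map_add] at h3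
  have h4 := P_half (P := P) V
  have h5 := (ebX P).PI_Xe (H_one D V)
  -- the product with `θ`
  obtain ⟨w, hw⟩ : ∃ w : Rb P.cG, w = ((4 - 1 / 64) * V.k1) • (eH P ^ 7 * yH P) +
    ((4 - 1 / 1024) * V.k2) • eH P ^ 11 := ⟨_, rfl⟩
  have hw' : (w : Om G) = ((4 - 1 / 64) * V.k1) • (eB P ^ 7 * yG P) + ((4 - 1 / 1024) * V.k2) • eB P ^ 11 := by
    rw [hw]
    rfl
  have h6 : Xe (PP P).c ((PP P).θ * (((4 - 1 / 64) * V.k1) • ((PP P).e ^ 7 * (PP P).yy) +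
    ((4 - 1 / 1024) * V.k2) • (PP P).e ^ 11) - (PP P).θ * P.B.pi.pull (w : Om G)) := by
    have h7 : cl (PP P).c (PK.θR (PP P) * (((4 - 1 / 64) * V.k1) • (PK.eR (PP P) ^ 7 * PK.yR (PP P)) +
        ((4 - 1 / 1024) * V.k2) • PK.eR (PP P) ^ 11)) = cl (PP P).c (PK.θR (PP P) * piR P w) := by
      rw [hw]
      simp only [map_mul, map_add, map_smul, map_pow, cl_piR_e, cl_piR_y]
      rfl
    exact cl_eq.1 h7
  have h8 := (ebX P).PI_Xe h6
  rw [map_sub] at h8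
  have h9 := P_θ hd w
  rw [map_add] at h5
  rw [← hw']
  have h10 := Xe_add (Xe_sub (Xe_neg h2) (Xe_neg h3)) (Xe_sub (Xe_sub (Xe_smul (1 / 2 : ℝ) (Xe_add h9 h8))
    (Xe_smul (1 / 2 : ℝ) h5)) h4)
  have e1 : -((ebX P).P (D.j.pull (D.om V)) - D.eG * D.phi8 V) -
      -((ebX P).P (D.j.pull (D.om V)) + (ebX P).P (Hr V.k1 V.k2 P 1 - Hr V.k1 V.k2 P (1 / 2))) +
      ((1 / 2 : ℝ) • ((ebX P).P ((PP P).θ * P.B.pi.pull (w : Om G)) - (2 * d) • (w : Om G) +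
      ((ebX P).P ((PP P).θ * (((4 - 1 / 64) * V.k1) • ((PP P).e ^ 7 * (PP P).yy) +
      ((4 - 1 / 1024) * V.k2) • (PP P).e ^ 11)) - (ebX P).P ((PP P).θ * P.B.pi.pull (w : Om G)))) -
      (1 / 2 : ℝ) • ((ebX P).P (Hr V.k1 V.k2 P 1) + (ebX P).P ((PP P).θ * (((4 - 1 / 64) * V.k1) •
      ((PP P).e ^ 7 * (PP P).yy) + ((4 - 1 / 1024) * V.k2) • (PP P).e ^ 11))) -
      ((ebX P).P (Hr V.k1 V.k2 P 1 - Hr V.k1 V.k2 P (1 / 2)) - (1 / 2 : ℝ) • (ebX P).P (Hr V.k1 V.k2 P 1))) =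
      D.eG * D.phi8 V - d • (w : Om G) := by
    module
  rwa [e1] at h10

end GysD

end Pool.Agent.Lib.MP_ccbbf6_gt.K7
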