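import Pool.Agent.Lib.MP_ccbbf6_gt.K7.GY4

/-!
# `κ = 7`, block E, part 5: the two equations of level 2 (helper53)

`GysD.level2` : the equations (e1), (e2) of the blueprint.
-/

set_option autoImplicit false
set_option maxSynthPendingDepth 3

open Set Filter Topology MeasureTheory
open scoped TensorProduct ContDiff

noncomputable section

namespace Pool.Agent.Lib.MP_ccbbf6_gt.K7

open L4 L4.FR L5

variable {X Y Z M G F : Space} {k l n : ℕ} {i j : ℕ}

namespace GysD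

variable (P : NegB X G M F 15 6 2 4) {L : ∀ {X : Space}, Circ X → SMap X M → Prop}

/-- closed basic forms with a primitive of the right degree are `e` times a closed basic form -/
theorem peel {w y : Om G} (hb : Bas P.cG w) (hy : Deg (2 * i + 1) y) (hyd : dO G y = w) :
    ∃ v, Deg (2 * i) v ∧ Bas P.cG v ∧ dO G v = 0 ∧ Xe P.cG (w - eB P * v) := by
  obtain ⟨h1, h2, h4, h5⟩ := bas_prim (cE P).i (cE P).id hb hyd
  refine ⟨iO P.cG (AO P.cG y), Deg_i P.cG (Deg_A P.cG hy), h2, h1, ⟨_, h4, ?_⟩⟩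
  conv_lhs => rw [h5]
  change dO G P.η * _ + _ - dO G P.η * _ = _
  abel

/-- closed basic forms of degree at most 6 on the base -/
theorem low (i : ℕ) : ∀ w : Om G, i ≤ 3 → Deg (2 * i) w → Bas P.cG w → dO G w = 0 →
    ∃ r : ℝ, Xe P.cG (w - r • eB P ^ i) := by
  induction i with
  | zero =>
    intro w _ hw _ hd
    obtain ⟨r, hr⟩ := P.gc w hw hd
    refine ⟨r, ?_⟩
    rw [pow_zero, hr, Algebra.algebraMap_eq_smul_one, sub_self]
    exact Xe_zero
  | succ i ih =>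
    intro w hi hw hb hd
    obtain ⟨t, y, hy, e1⟩ := P.D.closed_G (q := 4) (by norm_num) (by omega) (by omega) P.p0 hw hd
    rw [if_neg (by omega), zero_add] at e1
    have hy' : Deg (2 * i + 1) y := by
      have e2 : 2 * (i + 1) - 1 = 2 * i + 1 := by omega
      rwa [e2] at hy
    obtain ⟨v, h1, h2, h3, h4⟩ := peel P hb hy' e1.symm
    obtain ⟨r, h5⟩ := ih v (by omega) h1 h2 h3
    refine ⟨r, ?_⟩
    have h6 := Xe_add h4 (mul_Xe h5 (Bas_eB P) (s_eB P) (d_eB P))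
    have e3 : w - eB P * v + eB P * (v - r • eB P ^ i) = w - r • eB P ^ (i + 1) := by
      rw [mul_sub, mul_smul_comm, ← pow_succ']
      abel
    rwa [e3] at h6

/-- `foot^* u - yG` is exact -/
theorem foot_yG : ∃ z, Deg 7 z ∧ P.D.foot.pull P.D.u - yG P = dO G z := by
  obtain ⟨y2, hy2, e2⟩ := (PP P).xh_mean
  have e1 : (PP P).xh = P.B.pi.pull (P.D.foot.pull P.D.u) := by
    have h7 : P.fl.comp (jO X (1 / 2)) = P.D.foot.comp P.B.pi := SMap_ext P.flh
    have h8 : (PP P).xh = (P.fl.comp (jO X (1 / 2))).pull P.D.u := by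
      rw [pull_comp]
      rfl
    rw [h8, h7, pull_comp]
  have e3 : (ebX P).P (P.f * P.B.pi.pull (P.D.foot.pull P.D.u)) = (2 : ℝ) • P.D.foot.pull P.D.u := (ebX P).P_f _
  have e4 : (ebX P).P (P.f * dO X y2) = dO G ((ebX P).P (P.f * y2)) := by
    rw [← EB.P_d, d_mul, P.df, zero_mul, zero_add]
    have : sO X P.f = P.f := (ebX P).s_f
    rw [this]
  refine ⟨(1 / 2 : ℝ) • (ebX P).P (P.f * y2), ?_, ?_⟩
  · refine Deg_smul _ (P.B.Deg_PI ?_)
    have h := Deg_mul P.fd hy2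
    exact h
  · rw [← e1, e2, mul_add, map_add, e4] at e3
    rw [map_smul]
    unfold yG
    have e5 : P.D.foot.pull P.D.u = (1 / 2 : ℝ) • ((ebX P).P (P.f * (PP P).yy) + dO G ((ebX P).P (P.f * y2))) := by
      rw [e3, smul_smul]
      norm_num
    rw [e5]
    module

variable {P}

variable (D : GysD P L) (V : VanD M (PP P).u L)

theorem Deg_phi8 : Deg 8 (D.phi8 V) := D.b.B.Deg_PI (D.Deg_om V)

theorem Bas_phi8 : Bas P.cG (D.phi8 V) := by
  have h := D.b.PI_bas (D.Bas_om V)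
  rw [D.hc] at h
  exact Bas_dbl.1 h

/-- `phi8 = t e^4 + t' yG` up to the derivative of a basic form -/
theorem phi8_eq {t' : ℝ} {z : Om G} (hz : Deg 7 z) (hF : D.phi8 V - t' • P.D.foot.pull P.D.u = dO G z) :
    ∃ t : ℝ, Xe P.cG (D.phi8 V - t • eB P ^ 4 - t' • yG P) := by
  obtain ⟨z2, hz2, e2⟩ := foot_yG P
  have e3 : dO G (z + t' • z2) = D.phi8 V - t' • yG P := by
    rw [map_add, map_smul, ← hF, ← e2]
    module
  have hb : Bas P.cG (D.phi8 V - t' • yG P) := Bas_sub _ (Bas_phi8 D V) (Bas_smul _ _ (Bas_yG P))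
  obtain ⟨v, h1, h2, h3, h4⟩ := peel P (i := 3) hb (Deg_add hz (Deg_smul _ hz2)) e3
  obtain ⟨r, h5⟩ := low P 3 v le_rfl h1 h2 h3
  refine ⟨r, ?_⟩
  have h6 := Xe_add h4 (mul_Xe h5 (Bas_eB P) (s_eB P) (d_eB P))
  have e5 : D.phi8 V - t' • yG P - eB P * v + eB P * (v - r • eB P ^ 3) = D.phi8 V - r • eB P ^ 4 - t' • yG P := by
    rw [mul_sub, mul_smul_comm, ← pow_succ']
    abel
  rwa [e5] at h6

/-- **the two equations** : `eG = (ν/2) e^3 (A e^4 + B y)`, `phi8 = t' y + t e^4`, `D^2 = 1` -/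
theorem level2 {d : ℝ} (hd : (PP P).Ex ((PP P).θ - d • (PP P).f)) (hd1 : d ^ 2 = 1) {al be : ℝ}
    (hα : (PP P).Ex ((PP P).f ^ 2 - al • (PP P).e ^ (2 * 4 - 2) - be • ((PP P).e ^ (4 - 2) * (PP P).yy)))
    (hW : al * PK.Wn (PP P) ≠ 0) {ν A B : ℝ} (hν : ν ^ 2 = 1)
    (hG : Xe P.cG (D.eG - (ν / 2) • (eB P ^ 3 * (A • eB P ^ 4 + B • yG P)))) {t' : ℝ} {z : Om G} (hz : Deg 7 z)
    (hF : D.phi8 V - t' • P.D.foot.pull P.D.u = dO G z) :
    ∃ t : ℝ, (A * t - B * t' * al / 12) / 2 = ν * d * ((4 - 1 / 1024) * (al * be / 24)) ∧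
      (A * t' + B * t - B * t' * be / 12) / 2 = -(ν * d * ((4 - 1 / 64) * ((12 * al - be ^ 2) / 24))) := by
  have hd0 : d ≠ 0 := by
    rintro rfl
    norm_num at hd1
  have hθ := PK.θQ_sq hd hα
  rw [hd1, one_mul, one_mul] at hθ
  obtain ⟨t, ht⟩ := D.phi8_eq V hz hF
  refine ⟨t, ?_⟩
  have hk := PK.k_eq hθ hW V D.L1
  have hm := main hd D V
  rw [hk.1, hk.2] at hm
  -- the classes
  obtain ⟨e, he⟩ : ∃ e, e = cl P.cG (eH P) := ⟨_, rfl⟩
  obtain ⟨y, hy⟩ : ∃ y, y = cl P.cG (yH P) := ⟨_, rfl⟩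
  obtain ⟨gR, hgR⟩ : ∃ g : Rb P.cG, g = mkR (Deg_even (j := 7) D.De) D.de D.be := ⟨_, rfl⟩
  have dphi : dO G (D.phi8 V) = 0 := by
    unfold phi8
    rw [← EB.P_d, D.d_om, EB.P_pi]
  obtain ⟨pR, hpR⟩ : ∃ g : Rb P.cG, g = mkR (Deg_even (j := 4) (Deg_phi8 D V)) dphi (Bas_phi8 D V) := ⟨_, rfl⟩
  have c1 : cl P.cG gR = (ν / 2) • (e ^ 3 * (A • e ^ 4 + B • y)) := by
    have h1 : cl P.cG gR = cl P.cG ((ν / 2) • (eH P ^ 3 * (A • eH P ^ 4 + B • yH P))) := by
      rw [cl_eq, hgR]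
      exact hG
    rw [h1, he, hy]
    simp only [map_add, map_smul, map_pow, map_mul]
  have c2 : cl P.cG pR = t • e ^ 4 + t' • y := by
    have h1 : cl P.cG pR = cl P.cG (t • eH P ^ 4 + t' • yH P) := by
      rw [cl_eq, hpR]
      have e1 : D.phi8 V - t • eB P ^ 4 - t' • yG P = D.phi8 V - (t • eB P ^ 4 + t' • yG P) := by abel
      rw [e1] at ht
      exact ht
    rw [h1, he, hy]
    simp only [map_add, map_smul, map_pow]
  have c3 : cl P.cG gR * cl P.cG pR = d • (((4 - 1 / 64) * (-(12 * al - be ^ 2) / 24)) • (e ^ 7 * y) +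
      ((4 - 1 / 1024) * (al * be / 24)) • e ^ 11) := by
    have h1 : cl P.cG (gR * pR) = cl P.cG (d • (((4 - 1 / 64) * (-(12 * al - be ^ 2) / 24)) • (eH P ^ 7 * yH P) +
      ((4 - 1 / 1024) * (al * be / 24)) • eH P ^ 11)) := by
      rw [cl_eq, hgR, hpR]
      exact hm
    rw [← map_mul, h1, he, hy]
    simp only [map_add, map_smul, map_pow, map_mul]
  have c4 : (12 : ℝ) • y ^ 2 + al • e ^ 8 + be • (e ^ 4 * y) = 0 := by
    rw [he, hy]
    exact relG hd hd0 hθ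
  rw [c1, c2] at c3
  have c5 : (ν / 2 * (A * t' + B * t - B * t' * be / 12) - d * ((4 - 1 / 64) * (-(12 * al - be ^ 2) / 24))) •
      (e ^ 7 * y) + (ν / 2 * (A * t - B * t' * al / 12) - d * ((4 - 1 / 1024) * (al * be / 24))) • e ^ 11 = 0 := by
    linear_combination (norm := algebra) c3 - ((ν / 2 * B * t' / 12) • e ^ 3) * c4
  rw [he, hy] at c5
  obtain ⟨r1, r2⟩ := indepG hθ hW c5
  have hn : ν * (ν * d) = d := by linear_combination d * hν
  constructor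
  · linear_combination ν * r2 - (A * t - B * t' * al / 12) / 2 * hν
  · linear_combination ν * r1 - (A * t' + B * t - B * t' * be / 12) / 2 * hν

end GysD

end Pool.Agent.Lib.MP_ccbbf6_gt.K7
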