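import Pool.Agent.Lib.MP_ccbbf6_gt.K7.HM1
import Pool.Agent.Lib.MP_ccbbf6_gt.L5.PER07

/-!
# `κ = 7`, block H (integrality), HK3c: the cut map of a point is thin of order `n - κ - 1` (helper95)
-/

set_option autoImplicit false
set_option linter.unusedSectionVars false

open Set Filter Topology Metric Real Module
open scoped ContDiff RealInnerProductSpace

noncomputable section

namespace Pool.Agent.Lib.MP_ccbbf6_gt.K7.HM

open Geo L4 L4.FR L4.ORI L5 L5.PE

section ring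

variable {R : Type*} [Ring R] {p t : R}

theorem conj_one (h1 : p * p = p) : (1 - p) * (1 - p) + p * p = 1 := by
  calc (1 - p) * (1 - p) + p * p = 1 - p - p + (p * p + p * p) := by noncomm_ring
    _ = 1 := by rw [h1]; noncomm_ring

theorem conj_left (h1 : p * p = p) : p * ((1 - p) * (1 - t) + p * t) = p * t := by
  calc p * ((1 - p) * (1 - t) + p * t) = (p - p * p) * (1 - t) + p * p * t := by noncomm_ring
    _ = p * t := by rw [h1]; noncomm_ring

theorem conj_right (h1 : t * t = t) : ((1 - p) * (1 - t) + p * t) * t = p * t := by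
  calc ((1 - p) * (1 - t) + p * t) * t = (1 - p) * (t - t * t) + p * (t * t) := by noncomm_ring
    _ = p * t := by rw [h1]; noncomm_ring

end ring

variable {n κ : ℕ} {M : Type} [MetricSpace M] [CompactSpace M] {𝒜 : SDist n M}

/-- **the cut map is thin of order `n - κ - 1`** -/
theorem thin_cut (hB : Bl M) (hk : 𝒜.HK κ) (q : M) {k : ℕ} (P : (spP 𝒜 q).Plot k) (z0 : V k) :
    Thin (n - (κ + 1)) ((cM hB hk q).pl P) z0 := by
  obtain ⟨T, hT⟩ : ∃ T : V k → Eu n →L[ℝ] Eu n, T = fun z => prX 𝒜 q (P.1 z).1 := ⟨_, rfl⟩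
  have hTs : ContDiff ℝ ∞ T := by
    rw [hT]
    exact contDiff_prX hB hk q P
  have hTT : ∀ z, T z * T z = T z := fun z => by
    rw [hT]
    exact prX_idem hB q (P.1 z).2
  -- the vector at the base point
  obtain ⟨u0, hu0, hu1⟩ := exists_w (𝒜 := 𝒜) hB (P.1 z0).2
  have hT0 : T z0 = (𝒜.PV q u0).starProjection := by
    rw [hT]
    exact prX_eq hB (P.1 z0).2 hu0 hu1
  have hTu : T z0 u0 = u0 := by
    rw [hT0]
    exact Submodule.starProjection_eq_self_iff.2 (mem_PV_self 𝒜 hB q u0)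
  -- the conjugation
  obtain ⟨S, hS⟩ : ∃ S : V k → Eu n →L[ℝ] Eu n, S = fun z => (1 - T z0) * (1 - T z) + T z0 * T z := ⟨_, rfl⟩
  have hS0 : S z0 = 1 := by
    rw [hS]
    exact conj_one (hTT z0)
  have hSs : ContDiff ℝ ∞ S := by
    rw [hS]
    have h1 : ContDiff ℝ ∞ fun z => (1 - T z0).comp (1 - T z) := contDiff_const.clm_comp (contDiff_const.sub hTs)
    have h2 : ContDiff ℝ ∞ fun z => (T z0).comp (T z) := contDiff_const.clm_comp hTs
    exact h1.add h2
  have hc1 : ∀ z, T z0 * S z = T z0 * T z := by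
    intro z
    rw [hS]
    exact conj_left (hTT z0)
  have hc2 : ∀ z, S z * T z = T z0 * T z := by
    intro z
    rw [hS]
    exact conj_right (hTT z)
  have hunit : ∀ᶠ z in 𝓝 z0, IsUnit (S z) := by
    have h1 : {x : Eu n →L[ℝ] Eu n | IsUnit x} ∈ 𝓝 (S z0) := by
      rw [hS0]
      exact Units.isOpen.mem_nhds isUnit_one
    exact hSs.continuous.continuousAt h1
  obtain ⟨v, hv⟩ : ∃ v : V k → Eu n, v = fun z => Ring.inverse (S z) u0 := ⟨_, rfl⟩
  have hvs : ∀ z, IsUnit (S z) → ContDiffAt ℝ ∞ v z := by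
    rintro z ⟨x, hx⟩
    rw [hv]
    have h1 : ContDiffAt ℝ ∞ (Ring.inverse : (Eu n →L[ℝ] Eu n) → _) (S z) := by
      rw [← hx]
      exact contDiffAt_ringInverse ℝ x
    exact (ContDiffAt.comp (g := Ring.inverse) z h1 hSs.contDiffAt).clm_apply contDiffAt_const
  have hv1 : ∀ z, IsUnit (S z) → S z (v z) = u0 := by
    rintro z ⟨x, hx⟩
    rw [hv]
    change S z (Ring.inverse (S z) u0) = u0
    rw [← hx, Ring.inverse_unit]
    have h2 : ((x : Eu n →L[ℝ] Eu n) * (↑x⁻¹ : Eu n →L[ℝ] Eu n)) u0 = u0 := by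
      rw [Units.mul_inv]
      rfl
    exact h2
  have hv2 : ∀ z, IsUnit (S z) → T z (v z) = v z := by
    intro z hz
    have h1 : S z (T z (v z)) = S z (v z) := by
      have h2 : S z (T z (v z)) = T z0 (T z (v z)) := DFunLike.congr_fun (hc2 z) (v z)
      have h3 : T z0 (S z (v z)) = T z0 (T z (v z)) := DFunLike.congr_fun (hc1 z) (v z)
      rw [h2, ← h3, hv1 z hz, hTu]
    obtain ⟨x, hx⟩ := hz
    have h2 : ∀ y, (↑x⁻¹ : Eu n →L[ℝ] Eu n) (S z y) = y := by
      intro y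
      rw [← hx]
      have h6 : ((↑x⁻¹ : Eu n →L[ℝ] Eu n) * (x : Eu n →L[ℝ] Eu n)) y = y := by
        rw [Units.inv_mul]
        rfl
      exact h6
    rw [← h2 (T z (v z)), h1, h2]
  have hv3 : ∀ z, IsUnit (S z) → T z0 (v z) = u0 := by
    intro z hz
    have h3 : T z0 (S z (v z)) = T z0 (T z (v z)) := DFunLike.congr_fun (hc1 z) (v z)
    rw [hv1 z hz, hv2 z hz, hTu] at h3
    exact h3.symm
  have hv4 : ∀ z, IsUnit (S z) → v z ≠ 0 := by
    intro z hz h
    have h3 := hv3 z hz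
    rw [h, map_zero] at h3
    exact hu0 h3.symm
  -- coordinates of the kernel
  obtain ⟨K, hK⟩ : ∃ K, K = LinearMap.ker (T z0 : Eu n →ₗ[ℝ] Eu n) := ⟨_, rfl⟩
  have hKr : finrank ℝ K = n - (κ + 1) := by
    have h1 := LinearMap.finrank_range_add_finrank_ker (T z0 : Eu n →ₗ[ℝ] Eu n)
    have h2 : LinearMap.range (T z0 : Eu n →ₗ[ℝ] Eu n) = 𝒜.PV q u0 := by
      ext y
      constructor
      · rintro ⟨x, rfl⟩
        rw [hT0]
        exact Submodule.starProjection_apply_mem _ _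
      · intro hy
        refine ⟨y, ?_⟩
        rw [hT0]
        exact Submodule.starProjection_eq_self_iff.2 hy
    rw [h2, finrank_PV 𝒜 hB hk q hu0, finrank_euclideanSpace_fin, ← hK] at h1
    omega
  obtain ⟨J⟩ : Nonempty (K ≃ₗ[ℝ] V (n - (κ + 1))) := FiniteDimensional.nonempty_linearEquiv_of_finrank_eq (by
    rw [hKr, Module.finrank_fin_fun])
  obtain ⟨L, hL⟩ : ∃ L : V (n - (κ + 1)) →L[ℝ] Eu n, L = LinearMap.toContinuousLinearMap (K.subtype.comp (J.symm : V (n - (κ + 1)) →ₗ[ℝ] K)) :=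
    ⟨_, rfl⟩
  have hLk : ∀ y, T z0 (L y) = 0 := by
    intro y
    have h1 : L y = (J.symm y : Eu n) := by rw [hL]; rfl
    rw [h1]
    exact hK.le (J.symm y).2
  have hmem : ∀ y : Eu n, y - T z0 y ∈ K := by
    intro y
    rw [hK, LinearMap.mem_ker]
    change T z0 (y - T z0 y) = 0
    rw [map_sub]
    have h1 : T z0 (T z0 y) = T z0 y := DFunLike.congr_fun (hTT z0) y
    rw [h1, sub_self]
  obtain ⟨L', hL'⟩ : ∃ L' : Eu n →L[ℝ] V (n - (κ + 1)), L' = LinearMap.toContinuousLinearMap ((J : K →ₗ[ℝ] V (n - (κ + 1))).comp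
      (LinearMap.codRestrict K ((LinearMap.id : Eu n →ₗ[ℝ] Eu n) - (T z0 : Eu n →ₗ[ℝ] Eu n)) hmem)) := ⟨_, rfl⟩
  have hLL : ∀ y, L (L' y) = y - T z0 y := by
    intro y
    have h1 : L' y = J ⟨y - T z0 y, hmem y⟩ := by rw [hL']; rfl
    rw [h1, hL]
    change (J.symm (J ⟨y - T z0 y, hmem y⟩) : Eu n) = _
    rw [LinearEquiv.symm_apply_apply]
  -- the factorization
  have hne : ∀ y, u0 + L y ≠ 0 := by
    intro y h
    have h1 := congrArg (T z0) h
    rw [map_add, hLk, hTu, add_zero, map_zero] at h1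
    exact hu0 h1
  have hq : Sm 𝒜 fun y : V (n - (κ + 1)) => 𝒜.Ex q (rad π (u0 + L y)) := by
    intro y
    have h1 : ContDiff ℝ ∞ fun y : V (n - (κ + 1)) => u0 + L y := contDiff_const.add L.contDiff
    exact smAt_Ex hB q (ContDiffAt.comp (g := rad π) y (contDiffAt_rad π (hne y)) h1.contDiffAt)
  have hb : ∀ᶠ z in 𝓝 z0, ContDiffAt ℝ ∞ (fun z => L' (v z)) z := by
    filter_upwards [hunit] with z hz
    exact L'.contDiff.contDiffAt.comp z (hvs z hz)
  obtain ⟨g, hg⟩ := exists_glob hb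
  refine ⟨⟨_, hq⟩, g, ?_⟩
  filter_upwards [hunit, hg] with z hz1 hz2
  change cutp (M := M) q (P.1 z).1 = 𝒜.Ex q (rad π (u0 + L (g z)))
  rw [hz2, hLL, hv3 z hz1, add_sub_cancel]
  refine (Ex_prX hB q (P.1 z).2 (hv4 z hz1) ?_).symm
  have h1 := hv2 z hz1
  rw [hT] at h1
  exact h1

end Pool.Agent.Lib.MP_ccbbf6_gt.K7.HM
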