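import Pool.Agent.Lib.MP_ccbbf6_gt.K7.HM2
import Pool.Agent.Lib.MP_ccbbf6_gt.L5.MF
import Pool.Agent.Lib.MP_ccbbf6_gt.L5.PER02

/-!
# `κ = 7`, block H (integrality), the machine, part 3: consequences of the face conditions, the chain (helper95)

* `FT.pl`, `FT.fok` ; `Thn.ker`, `Nxt.ker`, `Good.ker` : degenerate directions of invariant functions on the faces
  (the boundary condition of the integrality theorem for Chern numbers).
* `HasHpy X r m` : every plot of dimension `≤ m` lies in the domain of a homotopy with end of order `r`.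
* `exists_chain`, `exists_chain8`.
* `Hpy.of_const` : homotopies whose end is one point.
-/

set_option autoImplicit false
set_option maxSynthPendingDepth 3

open Set Filter Topology MeasureTheory Module
open scoped ContDiff

noncomputable section

namespace Pool.Agent.Lib.MP_ccbbf6_gt.K7.HM

open L4 L4.FR L5 L5.IA

variable {X Y : Space} {k l r r' m : ℕ} {j : ℕ} {c : Circ X}

theorem Agr.pl {w : X.Plot k} {i : Fin k} (h : Agr w i) (f : SMap X Y) : Agr (f.pl w) i := fun x =>
  congrArg f.1 (h x)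

theorem Thn.pl {w : X.Plot k} {i : Fin k} {a : ℝ} (h : Thn r w i a) (f : SMap X Y) : Thn r (f.pl w) i a := fun x =>
  (h x).pl f

theorem FT.pl {w : X.Plot k} {i : Fin k} (h : FT w i) (f : SMap X Y) : FT (f.pl w) i := by
  rcases h with h | ⟨m, hm, h0, h1⟩
  · exact Or.inl (h.pl f)
  · exact Or.inr ⟨m, hm, h0.pl f, h1.pl f⟩

theorem Good.pl {w : X.Plot k} (h : Good w) (f : SMap X Y) : Good (f.pl w) := fun i => (h i).pl f

/-- faces which agree, in the form of block PER -/
theorem Agr.fok {w : X.Plot k} {i : Fin k} (h : Agr w i) : PE.FOK w.1 i := Or.inr fun x _ hxi => by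
  rw [h]
  have h1 : Function.update x i 0 = x := by
    rw [← hxi]
    exact Function.update_eq_self _ _
  rw [h1]

/-- the derivative of `cst` -/
theorem fderiv_cst {f : V k → ℝ} {i : Fin k} {a : ℝ} {x : V k} (hx : x i = a) (hf : DifferentiableAt ℝ f x) {v : V k}
    (hv : v i = 0) : fderiv ℝ (fun z => f (cst i a z)) x v = fderiv ℝ f x v := by
  have h1 : Function.update x i a = x := by
    rw [← hx]
    exact Function.update_eq_self _ _
  have h2 : HasDerivAt (fun s : ℝ => x + s • v) v 0 := by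
    have h3 := ((hasDerivAt_id (0 : ℝ)).smul_const v).const_add x
    rwa [one_smul] at h3
  have hc : DifferentiableAt ℝ (fun z => f (cst i a z)) x := by
    have h3 : DifferentiableAt ℝ (cst i a : V k → V k) x := (cst i a).diff x
    refine DifferentiableAt.comp (g := f) x ?_ h3
    rw [cst_apply, h1]
    exact hf
  obtain ⟨F, hF⟩ : ∃ F : V k → ℝ, F = fun z => f (cst i a z) := ⟨_, rfl⟩
  rw [← hF] at hc ⊢
  have h3 : HasDerivAt (fun s : ℝ => F (x + s • v)) (fderiv ℝ F x v) 0 := by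
    have h4 : HasFDerivAt F (fderiv ℝ F x) (x + (0 : ℝ) • v) := by
      rw [zero_smul, add_zero]
      exact hc.hasFDerivAt
    exact h4.comp_hasDerivAt (0 : ℝ) h2
  have h5 : HasDerivAt (fun s : ℝ => f (x + s • v)) (fderiv ℝ f x v) 0 := by
    have h4 : HasFDerivAt f (fderiv ℝ f x) (x + (0 : ℝ) • v) := by
      rw [zero_smul, add_zero]
      exact hf.hasFDerivAt
    exact h4.comp_hasDerivAt (0 : ℝ) h2
  have h6 : (fun s : ℝ => F (x + s • v)) = fun s : ℝ => f (x + s • v) := by
    funext s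
    rw [hF]
    change f (Function.update (x + s • v) i a) = f (x + s • v)
    have h7 : (x + s • v) i = a := by
      rw [Pi.add_apply, Pi.smul_apply, hv, smul_zero, add_zero, hx]
    have h8 : Function.update (x + s • v) i a = x + s • v := by
      rw [← h7]
      exact Function.update_eq_self _ _
    rw [h8]
  rw [h6] at h3
  exact h3.unique h5

/-- **degenerate directions on a thin face** -/
theorem Thn.ker {w : X.Plot k} {i : Fin k} {a : ℝ} (h : Thn r w i a) (hr : r + 2 ≤ k) {x : V k} (hx : x i = a) :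
    ∃ v : V k, v ≠ 0 ∧ v i = 0 ∧ ∀ f : SF X, fderiv ℝ (fun z => f.1 (w.1 z)) x v = 0 := by
  obtain ⟨q, g, hg⟩ := h x
  -- the kernel
  obtain ⟨L, hL⟩ : ∃ L : V k →ₗ[ℝ] V r × ℝ, L = (fderiv ℝ (g : V k → V r) x : V k →ₗ[ℝ] V r).prod (LinearMap.proj i) := ⟨_, rfl⟩
  have h1 : LinearMap.ker L ≠ ⊥ := by
    intro h0
    have h2 := LinearMap.finrank_range_add_finrank_ker L
    rw [h0, finrank_bot, add_zero, Module.finrank_fin_fun] at h2
    have h3 := Submodule.finrank_le (LinearMap.range L)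
    rw [Module.finrank_prod, Module.finrank_fin_fun, Module.finrank_self] at h3
    omega
  obtain ⟨v, hv, hv0⟩ := Submodule.exists_mem_ne_zero_of_ne_bot h1
  rw [LinearMap.mem_ker, hL] at hv
  have hv1 : fderiv ℝ (g : V k → V r) x v = 0 := congrArg Prod.fst hv
  have hv2 : v i = 0 := congrArg Prod.snd hv
  refine ⟨v, hv0, hv2, fun f => ?_⟩
  have hf : DifferentiableAt ℝ (fun z => f.1 (w.1 z)) x := (f.2 k w).differentiable (by simp) x
  rw [← fderiv_cst hx hf hv2]
  have h3 : (fun z => f.1 (w.1 (cst i a z))) =ᶠ[𝓝 x] fun z => f.1 (q.1 (g z)) := by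
    filter_upwards [hg] with y hy
    have h4 : w.1 (cst i a y) = q.1 (g y) := hy
    rw [h4]
  rw [h3.fderiv_eq]
  have h5 : HasFDerivAt (fun z => f.1 (q.1 (g z))) ((fderiv ℝ (fun y => f.1 (q.1 y)) (g x)).comp (fderiv ℝ (g : V k → V r) x)) x :=
    HasFDerivAt.comp (g := fun y => f.1 (q.1 y)) x ((f.2 r q).differentiable (by simp) (g x)).hasFDerivAt (g.diff x).hasFDerivAt
  rw [h5.fderiv, ContinuousLinearMap.comp_apply, hv1, map_zero]

/-- degenerate directions of invariant functions on the bottom face -/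
theorem Nxt.ker_bot {w : X.Plot k} {W : X.Plot (k + 1 + 1)} (hN : Nxt c w W) {x : V (k + 1 + 1)}
    (hx : x (Fin.last (k + 1)) = 0) : ∃ v : V (k + 1 + 1), v ≠ 0 ∧ v (Fin.last (k + 1)) = 0 ∧
      ∀ f : SB c, fderiv ℝ (fun z => f.1.1 (W.1 z)) x v = 0 := by
  refine ⟨Pi.single (Fin.last k).castSucc 1, fun h => ?_, Pi.single_eq_of_ne (Fin.castSucc_lt_last _).ne' _, fun f => ?_⟩
  · have h1 := congrFun h (Fin.last k).castSucc
    rw [Pi.single_eq_same] at h1
    exact one_ne_zero h1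
  · have hf : DifferentiableAt ℝ (fun z => f.1.1 (W.1 z)) x := (f.1.2 _ W).differentiable (by simp) x
    have h2 : HasDerivAt (fun s : ℝ => x + s • (Pi.single (Fin.last k).castSucc 1 : V (k + 1 + 1)))
        (Pi.single (Fin.last k).castSucc 1) 0 := by
      have h3 := ((hasDerivAt_id (0 : ℝ)).smul_const (Pi.single (Fin.last k).castSucc 1 : V (k + 1 + 1))).const_add x
      rwa [one_smul] at h3
    have h5 : HasDerivAt (fun s : ℝ => f.1.1 (W.1 (x + s • (Pi.single (Fin.last k).castSucc 1 : V (k + 1 + 1)))))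
        (fderiv ℝ (fun z => f.1.1 (W.1 z)) x (Pi.single (Fin.last k).castSucc 1)) 0 := by
      have h4 : HasFDerivAt (fun z => f.1.1 (W.1 z)) (fderiv ℝ (fun z => f.1.1 (W.1 z)) x)
          (x + (0 : ℝ) • (Pi.single (Fin.last k).castSucc 1 : V (k + 1 + 1))) := by
        rw [zero_smul, add_zero]
        exact hf.hasFDerivAt
      exact h4.comp_hasDerivAt (0 : ℝ) h2
    have h6 : ∀ y : V (k + 1 + 1), y (Fin.last (k + 1)) = 0 → f.1.1 (W.1 y) = f.1.1 (w.1 (pr k (pr (k + 1) y))) := by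
      intro y hy
      have h7 := hN.bot (pr (k + 1) y)
      have h8 : (Fin.snoc (pr (k + 1) y) 0 : V (k + 1 + 1)) = y := by
        rw [← hy]
        exact snoc_pr y
      rw [h8] at h7
      rw [h7]
      exact f.2 _ _
    have h9 : (fun s : ℝ => f.1.1 (W.1 (x + s • (Pi.single (Fin.last k).castSucc 1 : V (k + 1 + 1))))) =
        fun _ => f.1.1 (w.1 (pr k (pr (k + 1) x))) := by
      funext s
      rw [h6]
      · have h10 : pr k (pr (k + 1) (x + s • (Pi.single (Fin.last k).castSucc 1 : V (k + 1 + 1)))) = pr k (pr (k + 1) x) := by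
          funext b
          change x b.castSucc.castSucc + s * (Pi.single (Fin.last k).castSucc 1 : V (k + 1 + 1)) b.castSucc.castSucc =
            x b.castSucc.castSucc
          rw [Pi.single_eq_of_ne, mul_zero, add_zero]
          intro h
          exact absurd (Fin.castSucc_injective _ h) (Fin.castSucc_lt_last b).ne
        rw [h10]
      · change x (Fin.last (k + 1)) + s * (Pi.single (Fin.last k).castSucc 1 : V (k + 1 + 1)) (Fin.last (k + 1)) = 0
        rw [Pi.single_eq_of_ne (Fin.castSucc_lt_last _).ne', mul_zero, add_zero, hx]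
    rw [h9] at h5
    exact h5.unique (hasDerivAt_const _ _)

/-- the boundary condition for the Chern numbers: the faces agree, or on both faces there are degenerate directions -/
def FCX (c : Circ X) (w : X.Plot k) (i : Fin k) : Prop :=
  (∀ x : V k, w.1 (Function.update x i 1) = w.1 (Function.update x i 0)) ∨
  ∀ x : V k, (x i = 0 ∨ x i = 1) → ∃ v : V k, v ≠ 0 ∧ v i = 0 ∧ ∀ f : SB c, fderiv ℝ (fun z => f.1.1 (w.1 z)) x v = 0

theorem FT.fcx {w : X.Plot k} {i : Fin k} (h : FT w i) : FCX c w i := by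
  rcases h with h | ⟨m, hm, h0, h1⟩
  · exact Or.inl h
  · right
    rintro x (hx | hx)
    · obtain ⟨v, hv, hv1, hv2⟩ := h0.ker hm hx
      exact ⟨v, hv, hv1, fun f => hv2 f.1⟩
    · obtain ⟨v, hv, hv1, hv2⟩ := h1.ker hm hx
      exact ⟨v, hv, hv1, fun f => hv2 f.1⟩

theorem Good.fcx {w : X.Plot k} (h : Good w) (i : Fin k) : FCX c w i := (h i).fcx

theorem Nxt.fcx {w : X.Plot k} {W : X.Plot (k + 1 + 1)} (hN : Nxt c w W) (i : Fin (k + 1 + 1)) : FCX c W i := by
  refine Fin.lastCases ?_ (fun i => ?_) i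
  · right
    rintro x (hx | hx)
    · exact hN.ker_bot hx
    · obtain ⟨v, hv, hv1, hv2⟩ := hN.top.ker le_rfl hx
      exact ⟨v, hv, hv1, fun f => hv2 f.1⟩
  · exact (hN.lat i).fcx

/-! ### Homotopies -/

/-- every plot of dimension `≤ m` lies in the domain of a homotopy with end of order `r` -/
def HasHpy (X : Space) (r m : ℕ) : Prop := ∀ k : ℕ, k ≤ m → ∀ p : X.Plot k, ∃ h : Hpy X r, ∀ z, p.1 z ∈ h.O

/-- a homotopy to one point -/
def Hpy.of_const {O : Set X.pt} (hO : OpenU X O) (F : SMap (sub X O).xR X) (h0 : ∀ x : (sub X O).pt, F.1 (x, 0) = x.1)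
    (h1 : ∀ x y : (sub X O).pt, F.1 (x, 1) = F.1 (y, 1)) : Hpy X 0 where
  O := O
  op := hO
  F := F
  zero := h0
  thin := fun _ p _ => ⟨((F.comp (jO (sub X O) 1)).pl p).cmp ⟨fun _ => 0, contDiff_const⟩, ⟨fun _ => 0, contDiff_const⟩,
    Eventually.of_forall fun y => h1 (p.1 y) (p.1 0)⟩

theorem exists_step (hH : HasHpy X r m) (c : Circ X) {w : X.Plot k} (hG : Good w) (hk : k + 1 ≤ m) (hr : r ≤ k) :
    ∃ W, Nxt c w W := by
  obtain ⟨h, hw⟩ := hH (k + 1) hk (c.op w)
  exact ⟨_, step c h hG hw hr⟩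

theorem exists_step' (hH : HasHpy X r m) (c : Circ X) {w : X.Plot k} {w' : X.Plot (k + 1 + 1)} (hN : Nxt c w w')
    (hk : k + 3 ≤ m) (hr : r ≤ k + 2) : ∃ W, Nxt c w' W := by
  obtain ⟨h, hw⟩ := hH (k + 1 + 1 + 1) hk (c.op w')
  exact ⟨_, step' c h hN hw hr⟩

/-- **the chain which starts with a point** -/
theorem exists_chain (hK : HasHpy X 0 7) (hH : HasHpy X 8 13) (c : Circ X) (w0 : X.Plot 0) :
    ∃ (w2 : X.Plot 2) (w4 : X.Plot 4) (w6 : X.Plot 6) (w8 : X.Plot 8) (w10 : X.Plot 10) (w12 : X.Plot 12),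
      Nxt c w0 w2 ∧ Nxt c w2 w4 ∧ Nxt c w4 w6 ∧ Nxt c w6 w8 ∧ Nxt c w8 w10 ∧ Nxt c w10 w12 := by
  obtain ⟨w2, h2⟩ := exists_step hK c (w := w0) (fun i => i.elim0) (by norm_num) le_rfl
  obtain ⟨w4, h4⟩ := exists_step' hK c h2 (by norm_num) (by norm_num)
  obtain ⟨w6, h6⟩ := exists_step' hK c h4 (by norm_num) (by norm_num)
  obtain ⟨w8, h8⟩ := exists_step' hK c h6 (by norm_num) (by norm_num)
  obtain ⟨w10, h10⟩ := exists_step' hH c h8 (by norm_num) (by norm_num)
  obtain ⟨w12, h12⟩ := exists_step' hH c h10 (by norm_num) (by norm_num)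
  exact ⟨w2, w4, w6, w8, w10, w12, h2, h4, h6, h8, h10, h12⟩

/-- **the chain which starts with a good cube of dimension `8`** -/
theorem exists_chain8 (hH : HasHpy X 8 13) (c : Circ X) {w8 : X.Plot 8} (hG : Good w8) :
    ∃ (w10 : X.Plot 10) (w12 : X.Plot 12), Nxt c w8 w10 ∧ Nxt c w10 w12 := by
  obtain ⟨w10, h10⟩ := exists_step hH c hG (by norm_num) (by norm_num)
  obtain ⟨w12, h12⟩ := exists_step' hH c h10 (by norm_num) (by norm_num)
  exact ⟨w10, w12, h10, h12⟩

end Pool.Agent.Lib.MP_ccbbf6_gt.K7.HM
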