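import Pool.Agent.Lib.MP_ccbbf6_gt.K7.HK3b
import Pool.Agent.Lib.MP_ccbbf6_gt.K7.HK3c
import Pool.Agent.Lib.MP_ccbbf6_gt.K7.HM3
import Pool.Agent.Lib.MP_ccbbf6_gt.L5.IB8
import Pool.Agent.Lib.MP_ccbbf6_gt.L5.PER08

/-!
# `κ = 7`, block H (integrality), HK3: the homotopy to a section over the cut locus of a point (helper95)

`hasHpy_H` : every plot of `spG 𝒜` of dimension `≤ m`, `m + 1 < n`, lies in the domain of a homotopy whose end is thin of order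
`n - (κ + 1)`.
-/

set_option autoImplicit false
set_option linter.unusedSectionVars false

open Set Filter Topology Metric Real Module
open scoped ContDiff RealInnerProductSpace

noncomputable section

namespace Pool.Agent.Lib.MP_ccbbf6_gt.K7.HM

open Geo L4 L4.ORI L5 L5.PE

variable {n κ : ℕ} {M : Type} [MetricSpace M] [CompactSpace M] {𝒜 : SDist n M}
variable {E : Type*} [NormedAddCommGroup E] [NormedSpace ℝ E]

/-- a nonzero smooth field is nonzero nearby -/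
theorem SmV_ne {x : E → M} {w : E → Eu n} {u : E} (h : SmV 𝒜 (x u) x w u) (h0 : w u ≠ 0) :
    ∀ᶠ v in 𝓝 u, w v ≠ 0 := by
  have h1 : CC 𝒜 (x u) (x u) (w u) ≠ 0 := by rw [CC_self]; exact h0
  have h2 : ContinuousAt (fun v => CC 𝒜 (x u) (x v) (w v)) u := h.continuousAt
  filter_upwards [h2.eventually_ne h1] with v hv hv0
  apply hv
  rw [hv0, map_zero]

/-- the vector field as a family of geodesics -/
def sa (hB : Bl M) (e : Emb n 𝒜) (a : EuclideanSpace ℝ (Fin e.q)) {e0 : Eu n} (he0 : ‖e0‖ = 1) (p : M) : Gs M :=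
  gw 𝒜 hB (gst 𝒜 hB e0 he0 p) (va e a p)

/-- the rotation of a geodesic to the vector field -/
def Ro (hB : Bl M) (e : Emb n 𝒜) (a : EuclideanSpace ℝ (Fin e.q)) (c : Gs M) (τ : ℝ) : Gs M :=
  gw 𝒜 hB c ((1 - τ) • 𝒜.vel c.1 0 + τ • va e a (c.1 0))

theorem gst_foot (hB : Bl M) {e0 : Eu n} (he0 : ‖e0‖ = 1) (p : M) : (gst 𝒜 hB e0 he0 p).1 0 = p := (gvg_vel 𝒜 hB p e0 he0).1

theorem sa_foot (hB : Bl M) (e : Emb n 𝒜) (a : EuclideanSpace ℝ (Fin e.q)) {e0 : Eu n} (he0 : ‖e0‖ = 1) (p : M) :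
    (sa hB e a he0 p).1 0 = p := by
  unfold sa
  rw [gw_zero, gst_foot]

theorem Ro_zero (hB : Bl M) (e : Emb n 𝒜) (a : EuclideanSpace ℝ (Fin e.q)) (c : Gs M) : Ro hB e a c 0 = c := by
  unfold Ro
  rw [sub_zero, one_smul, zero_smul, add_zero]
  exact eq_of_vel' 𝒜 (gw_zero 𝒜 hB c _) (by rw [gw_vel 𝒜 hB c (vel_ne 𝒜 c), nrm_of_norm (vel_norm 𝒜 c)])

theorem Ro_one (hB : Bl M) (e : Emb n 𝒜) (a : EuclideanSpace ℝ (Fin e.q)) {e0 : Eu n} (he0 : ‖e0‖ = 1) (c : Gs M)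
    (h : va e a (c.1 0) ≠ 0) : Ro hB e a c 1 = sa hB e a he0 (c.1 0) := by
  unfold Ro sa
  rw [sub_self, zero_smul, one_smul, zero_add]
  refine eq_of_vel' 𝒜 ?_ ?_
  · rw [gw_zero, gw_zero, gst_foot]
  · rw [gw_vel 𝒜 hB _ h, gw_vel 𝒜 hB _ h]

theorem smGA_sa (hB : Bl M) (e : Emb n 𝒜) (a : EuclideanSpace ℝ (Fin e.q)) {e0 : Eu n} (he0 : ‖e0‖ = 1) {x : E → M} {u : E}
    (hx : SmAt 𝒜 x u) (h : va e a (x u) ≠ 0) : SmGA 𝒜 (fun v => sa hB e a he0 (x v)) u := by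
  have h1 : (fun v => (gst 𝒜 hB e0 he0 (x v)).1 0) = x := funext fun v => gst_foot hB he0 (x v)
  unfold sa
  refine smGA_gw hB (p := x u) ?_ ?_ ?_ h
  · rw [h1]
    exact hx
  · rw [gst_foot]
    exact 𝒜.mem _
  · rw [h1]
    exact smV_va a hx (𝒜.mem _)

theorem smV_Ro (hB : Bl M) (e : Emb n 𝒜) (a : EuclideanSpace ℝ (Fin e.q)) {σ : E → Gs M} {τ : E → ℝ} {u : E}
    (hσ : SmGA 𝒜 σ u) (hτ : ContDiffAt ℝ ∞ τ u) :
    SmV 𝒜 ((σ u).1 0) (fun v => (σ v).1 0) (fun v => (1 - τ v) • 𝒜.vel (σ v).1 0 + τ v • va e a ((σ v).1 0)) u :=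
  ((hσ.smV hB (𝒜.mem _)).smul (contDiffAt_const.sub hτ)).add ((smV_va a hσ.1 (𝒜.mem _)).smul hτ)

theorem smGA_Ro (hB : Bl M) (e : Emb n 𝒜) (a : EuclideanSpace ℝ (Fin e.q)) {σ : E → Gs M} {τ : E → ℝ} {u : E}
    (hσ : SmGA 𝒜 σ u) (hτ : ContDiffAt ℝ ∞ τ u) (h : (1 - τ u) • 𝒜.vel (σ u).1 0 + τ u • va e a ((σ u).1 0) ≠ 0) :
    SmGA 𝒜 (fun v => Ro hB e a (σ v) (τ v)) u := by
  unfold Ro
  exact smGA_gw hB hσ.1 (𝒜.mem _) (smV_Ro hB e a hσ hτ) h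

/-- the way to the cut point -/
def wy (𝒜 : SDist n M) (q x : M) (τ : ℝ) : M := rat 𝒜 x (cutp q x) τ

theorem smAt_wy (hB : Bl M) (hk : 𝒜.HK κ) {q : M} {x : E → M} {τ : E → ℝ} {u : E} (hx : SmAt 𝒜 x u) (hτ : ContDiffAt ℝ ∞ τ u)
    (hq : x u ≠ q) : SmAt 𝒜 (fun v => wy 𝒜 q (x v) (τ v)) u := by
  unfold wy
  refine smAt_rat hB hx (IB.smAt_cutp hB hk hx hq) hτ ?_
  rw [dist_comm, (dist_cutp hB hq 𝒜).2]
  have h1 : 0 < dist q (x u) := dist_pos.2 (Ne.symm hq)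
  linarith

/-- the domain -/
def OH (𝒜 : SDist n M) (e : Emb n 𝒜) (q : M) (a : EuclideanSpace ℝ (Fin e.q)) : Set (Gs M) :=
  {c | c.1 0 ≠ q ∧ (∀ τ ∈ Icc (0 : ℝ) 1, (1 - τ) • 𝒜.vel c.1 0 + τ • va e a (c.1 0) ≠ 0) ∧
    ∀ τ ∈ Icc (0 : ℝ) 1, va e a (wy 𝒜 q (c.1 0) τ) ≠ 0}

theorem openU_OH (hB : Bl M) (hk : 𝒜.HK κ) (e : Emb n 𝒜) (q : M) (a : EuclideanSpace ℝ (Fin e.q)) :
    OpenU (spG 𝒜) (OH 𝒜 e q a) := by
  intro k p
  obtain ⟨σ, hσ⟩ : ∃ σ : FR.V k → Gs M, σ = p.1 := ⟨_, rfl⟩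
  have hσs : SmG 𝒜 σ := by rw [hσ]; exact p.2
  rw [← hσ]
  change IsOpen {z | σ z ∈ OH 𝒜 e q a}
  rw [isOpen_iff_mem_nhds]
  rintro z0 ⟨h1, h2, h3⟩
  have hpr : ∀ τ : ℝ, SmGA 𝒜 (fun y : FR.V k × ℝ => σ y.1) (z0, τ) := fun τ =>
    SmGA.comp (σ := σ) (f := fun y : FR.V k × ℝ => y.1) (v := (z0, τ)) (hσs.at z0) contDiffAt_fst
  have e1 : ∀ᶠ z in 𝓝 z0, (σ z).1 0 ≠ q := (hσs.1 z0).1.eventually_ne h1
  have e2 : ∀ᶠ z in 𝓝 z0, ∀ τ ∈ Icc (0 : ℝ) 1, (1 - τ) • 𝒜.vel (σ z).1 0 + τ • va e a ((σ z).1 0) ≠ 0 := by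
    refine isCompact_Icc.eventually_forall_of_forall_eventually fun τ hτ => ?_
    exact SmV_ne (x := fun y : FR.V k × ℝ => (σ y.1).1 0)
      (w := fun y : FR.V k × ℝ => (1 - y.2) • 𝒜.vel (σ y.1).1 0 + y.2 • va e a ((σ y.1).1 0))
      (smV_Ro hB e a (hpr τ) contDiffAt_snd) (h2 τ hτ)
  have e3 : ∀ᶠ z in 𝓝 z0, ∀ τ ∈ Icc (0 : ℝ) 1, va e a (wy 𝒜 q ((σ z).1 0) τ) ≠ 0 := by
    refine isCompact_Icc.eventually_forall_of_forall_eventually fun τ hτ => ?_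
    have h4 : SmAt 𝒜 (fun y : FR.V k × ℝ => wy 𝒜 q ((σ y.1).1 0) y.2) (z0, τ) :=
      smAt_wy hB hk (hpr τ).1 contDiffAt_snd h1
    exact SmV_ne (x := fun y : FR.V k × ℝ => wy 𝒜 q ((σ y.1).1 0) y.2)
      (w := fun y : FR.V k × ℝ => va e a (wy 𝒜 q ((σ y.1).1 0) y.2)) (smV_va a h4 (𝒜.mem _)) (h3 τ hτ)
  filter_upwards [e1, e2, e3] with z z1 z2 z3
  exact ⟨z1, z2, z3⟩

open Classical in
/-- the homotopy -/
def FH (hB : Bl M) (e : Emb n 𝒜) (q : M) (a : EuclideanSpace ℝ (Fin e.q)) {e0 : Eu n} (he0 : ‖e0‖ = 1) (c : Gs M) (s : ℝ) : Gs M :=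
  if s ≤ 1 / 2 then Ro hB e a c (smoothTransition (3 * s)) else
    sa hB e a he0 (wy 𝒜 q (c.1 0) (smoothTransition (3 * s - 2)))

theorem st_mem (s : ℝ) : smoothTransition s ∈ Icc (0 : ℝ) 1 := ⟨smoothTransition.nonneg s, smoothTransition.le_one s⟩

theorem smG_FH (hB : Bl M) (hk : 𝒜.HK κ) (e : Emb n 𝒜) (q : M) (a : EuclideanSpace ℝ (Fin e.q)) {e0 : Eu n} (he0 : ‖e0‖ = 1)
    {k : ℕ} {σ : FR.V k → Gs M} (hσ : SmG 𝒜 σ) (hO : ∀ z, σ z ∈ OH 𝒜 e q a) {s : FR.V k → ℝ} (hs : ContDiff ℝ ∞ s) :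
    SmG 𝒜 fun z => FH hB e q a he0 (σ z) (s z) := by
  refine smG_of fun z => ?_
  have hc : ContinuousAt s z := hs.continuous.continuousAt
  rcases lt_or_ge (s z) (2 / 3) with h | h
  · have h1 : ContDiffAt ℝ ∞ (fun z => smoothTransition (3 * s z)) z :=
      (smoothTransition.contDiff.comp (contDiff_const.mul hs)).contDiffAt
    refine (smGA_Ro hB e a (hσ.at z) h1 ((hO z).2.1 _ (st_mem _))).congr ?_
    filter_upwards [hc.eventually (gt_mem_nhds h)] with y hy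
    unfold FH
    split_ifs with h2
    · rfl
    · have h3 : smoothTransition (3 * s y - 2) = 0 := smoothTransition.zero_of_nonpos (by linarith)
      have h4 : smoothTransition (3 * s y) = 1 := smoothTransition.one_of_one_le (by linarith [not_le.1 h2])
      have h5 : wy 𝒜 q ((σ y).1 0) 0 = (σ y).1 0 := rat_zero hB _ _
      have h6 := (hO y).2.2 0 ⟨le_rfl, zero_le_one⟩
      rw [h5] at h6
      rw [h3, h4, h5, Ro_one hB e a he0 _ h6]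
  · have h1 : ContDiffAt ℝ ∞ (fun z => smoothTransition (3 * s z - 2)) z :=
      (smoothTransition.contDiff.comp ((contDiff_const.mul hs).sub contDiff_const)).contDiffAt
    have h2 : SmAt 𝒜 (fun y => wy 𝒜 q ((σ y).1 0) (smoothTransition (3 * s y - 2))) z :=
      smAt_wy hB hk (hσ.1 z) h1 (hO z).1
    refine (smGA_sa hB e a he0 h2 ((hO z).2.2 _ (st_mem _))).congr ?_
    filter_upwards [hc.eventually (lt_mem_nhds (show (1 / 2 : ℝ) < s z by linarith))] with y hy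
    unfold FH
    rw [if_neg (not_le.2 hy)]

theorem FH_zero (hB : Bl M) (e : Emb n 𝒜) (q : M) (a : EuclideanSpace ℝ (Fin e.q)) {e0 : Eu n} (he0 : ‖e0‖ = 1) (c : Gs M) :
    FH hB e q a he0 c 0 = c := by
  unfold FH
  rw [if_pos (by norm_num), mul_zero, smoothTransition.zero_of_nonpos le_rfl, Ro_zero]

theorem FH_one (hB : Bl M) (e : Emb n 𝒜) (q : M) (a : EuclideanSpace ℝ (Fin e.q)) {e0 : Eu n} (he0 : ‖e0‖ = 1) (c : Gs M) :
    FH hB e q a he0 c 1 = sa hB e a he0 (cutp q (c.1 0)) := by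
  have h5 : wy 𝒜 q (c.1 0) 1 = cutp q (c.1 0) := rat_one hB _ _
  unfold FH
  rw [if_neg (by norm_num), smoothTransition.one_of_one_le (by norm_num), h5]

/-- the section over the set where the field does not vanish -/
def saM (hB : Bl M) (e : Emb n 𝒜) (a : EuclideanSpace ℝ (Fin e.q)) {e0 : Eu n} (he0 : ‖e0‖ = 1) :
    FR.SMap (sub (spM 𝒜) {p | va (M := M) e a p ≠ 0}) (spG 𝒜) :=
  ⟨fun p => sa hB e a he0 p.1, fun _ P => smG_of fun z => smGA_sa hB e a he0 (P.2 z) (P.1 z).2⟩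

theorem openU_va (e : Emb n 𝒜) (a : EuclideanSpace ℝ (Fin e.q)) : OpenU (spM 𝒜) {p | va (M := M) e a p ≠ 0} := by
  intro k P
  obtain ⟨x, hx⟩ : ∃ x : FR.V k → M, x = P.1 := ⟨_, rfl⟩
  have hxs : Sm 𝒜 x := by rw [hx]; exact P.2
  rw [← hx]
  change IsOpen {z | va e a (x z) ≠ 0}
  rw [isOpen_iff_mem_nhds]
  intro z0 hz0
  exact SmV_ne (smV_va a (hxs z0) (𝒜.mem _)) hz0

/-- **the homotopy to a section over the cut locus** -/
def HpyH (hB : Bl M) (hk : 𝒜.HK κ) (e : Emb n 𝒜) (q : M) (a : EuclideanSpace ℝ (Fin e.q)) {e0 : Eu n} (he0 : ‖e0‖ = 1) :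
    Hpy (spG 𝒜) (n - (κ + 1)) where
  O := OH 𝒜 e q a
  op := openU_OH hB hk e q a
  F := ⟨fun z => FH hB e q a he0 z.1.1 z.2, fun _ P => smG_FH hB hk e q a he0 P.2.1 (fun z => (P.1 z).1.2) P.2.2⟩
  zero := fun x => FH_zero hB e q a he0 x.1
  thin := fun k p x => by
    have hne : ∀ z, (p.1 z).1.1 0 ≠ q := fun z => (p.1 z).2.1
    let P' : (spP 𝒜 q).Plot k := ⟨fun z => ⟨(p.1 z).1.1 0, hne z⟩, (foot hB 0).2 k ((inU _ _).pl p)⟩
    have hva : ∀ z, va (M := M) e a (cutp (M := M) q ((p.1 z).1.1 0)) ≠ 0 := fun z => by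
      have h1 := (p.1 z).2.2.2 1 ⟨zero_le_one, le_rfl⟩
      have h5 : wy 𝒜 q ((p.1 z).1.1 0) 1 = cutp q ((p.1 z).1.1 0) := rat_one hB _ _
      rwa [h5] at h1
    let R : (sub (spM 𝒜) {p | va (M := M) e a p ≠ 0}).Plot k :=
      ⟨fun z => ⟨cutp (M := M) q ((p.1 z).1.1 0), hva z⟩, ((cM hB hk q).pl P').2⟩
    have h1 : Thin (n - (κ + 1)) ((inU (spM 𝒜) {p | va (M := M) e a p ≠ 0}).pl R) x := thin_cut hB hk q P' x
    have h2 := (thin_sub (openU_va e a) R h1).pl (saM hB e a he0)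
    refine h2.congr (Eventually.of_forall fun z => ?_)
    exact FH_one hB e q a he0 (p.1 z).1

/-- **every plot of small dimension lies in the domain of the homotopy for generic parameters** -/
theorem hasHpy_H (hB : Bl M) (hk : 𝒜.HK κ) (e : Emb n 𝒜) {m : ℕ} (hm : m + 1 < n) : HasHpy (spG 𝒜) (n - (κ + 1)) m := by
  intro k hkm p
  obtain ⟨σ, hσ⟩ : ∃ σ : FR.V k → Gs M, σ = p.1 := ⟨_, rfl⟩
  have hσs : SmG 𝒜 σ := by rw [hσ]; exact p.2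
  obtain ⟨q, hq⟩ := exists_not_range (𝒜 := 𝒜) (by omega : k < n) ((foot hB 0).pl p)
  have hq' : ∀ z, (σ z).1 0 ≠ q := fun z => by rw [hσ]; exact hq z
  have hy : Sm 𝒜 fun z : FR.V (k + 1) => wy 𝒜 q ((σ (FR.pr k z)).1 0) (smoothTransition (z (Fin.last k))) := fun z => by
    refine smAt_wy hB hk (x := fun z : FR.V (k + 1) => (σ (FR.pr k z)).1 0) ?_ ?_ (hq' _)
    · exact SmAt.comp (g := fun z => (σ z).1 0) (f := FR.pr k) (hσs.1 _) (FR.pr k).smooth.contDiffAt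
    · exact (smoothTransition.contDiff.comp (contDiff_apply ℝ ℝ (Fin.last k))).contDiffAt
  obtain ⟨a, ha1, ha2⟩ := exists_generic_a hB e (by omega : k + 1 < n) (by omega : k + 1 < n) hσs hy
  obtain ⟨e0, he0⟩ : ∃ v : Eu n, ‖v‖ = 1 := ⟨EuclideanSpace.single ⟨0, by omega⟩ 1, by simp⟩
  refine ⟨HpyH hB hk e q a he0, fun z => ?_⟩
  have h0 : σ z ∈ OH 𝒜 e q a := by
    refine ⟨hq' z, fun τ hτ h => ?_, fun τ hτ => ?_⟩
    · rcases hτ.1.eq_or_lt with h1 | h1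
      · rw [← h1, sub_zero, one_smul, zero_smul, add_zero] at h
        exact vel_ne 𝒜 _ h
      · refine ha1 z (-(τ⁻¹ * (1 - τ))) ?_
        have h2 : τ • va e a ((σ z).1 0) = -((1 - τ) • 𝒜.vel (σ z).1 0) := eq_neg_of_add_eq_zero_right h
        have h3 : va e a ((σ z).1 0) = τ⁻¹ • τ • va e a ((σ z).1 0) := by
          rw [smul_smul, inv_mul_cancel₀ h1.ne', one_smul]
        rw [h3, h2, smul_neg, smul_smul, neg_smul]
    · obtain ⟨t, -, ht⟩ := intermediate_value_Icc (zero_le_one' ℝ) smoothTransition.continuous.continuousOn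
        (show τ ∈ Icc (smoothTransition 0) (smoothTransition 1) by
          rw [smoothTransition.zero_of_nonpos le_rfl, smoothTransition.one_of_one_le le_rfl]
          exact hτ)
      have h2 := ha2 (Fin.snoc z t)
      rw [FR.pr_snoc, Fin.snoc_last, ht] at h2
      exact h2
  rw [hσ] at h0
  exact h0

end Pool.Agent.Lib.MP_ccbbf6_gt.K7.HM
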