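import Pool.Agent.Lib.MP_ccbbf6_gt.L4.FRa

/-!
# `κ = 7`, block H (integrality), HK3a: generic vectors (helper95)

`gen_dimH` : `Q z` a smooth family of projections of rank `≥ N` of a finite dimensional space `E`, `z ∈ ℝ^m`, `m < N`, `b z` smooth:
the set of the vectors `a` such that `Q z (a - b z) = 0` for some `z` has dimension `< dim E`.
-/

set_option autoImplicit false
set_option maxSynthPendingDepth 3

open Set Filter Topology Module
open scoped ContDiff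

noncomputable section

namespace Pool.Agent.Lib.MP_ccbbf6_gt.K7.HM

open L4 L4.FR

variable {E : Type*} [NormedAddCommGroup E] [NormedSpace ℝ E] [FiniteDimensional ℝ E] {m N : ℕ}

theorem gen_loc {Q : V m → E →L[ℝ] E} (hQ : ContDiff ℝ ∞ Q) (hQQ : ∀ z, Q z * Q z = Q z)
    (hN : ∀ z, N ≤ finrank ℝ (LinearMap.range (Q z : E →ₗ[ℝ] E))) {b : V m → E} (hb : ContDiff ℝ ∞ b) (hm : m < N) (z0 : V m) :
    ∃ U ∈ 𝓝 z0, dimH {a | ∃ z ∈ U, Q z (a - b z) = 0} ≤ ((finrank ℝ E - 1 : ℕ) : ENNReal) := by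
  obtain ⟨S, hS⟩ : ∃ S : V m → E →L[ℝ] E, S = fun z => (1 - Q z) * (1 - Q z0) + Q z * Q z0 := ⟨_, rfl⟩
  have hS0 : S z0 = 1 := by
    rw [hS]
    change (1 - Q z0) * (1 - Q z0) + Q z0 * Q z0 = 1
    have h1 := hQQ z0
    calc (1 - Q z0) * (1 - Q z0) + Q z0 * Q z0 = 1 - Q z0 - Q z0 + (Q z0 * Q z0 + Q z0 * Q z0) := by noncomm_ring
      _ = 1 := by rw [h1]; noncomm_ring
  have hSs : ContDiff ℝ ∞ S := by
    rw [hS]
    have h1 : ContDiff ℝ ∞ fun z => (1 - Q z).comp (1 - Q z0) := (contDiff_const.sub hQ).clm_comp contDiff_const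
    have h2 : ContDiff ℝ ∞ fun z => (Q z).comp (Q z0) := hQ.clm_comp contDiff_const
    exact h1.add h2
  have hcomm : ∀ z, Q z * S z = S z * Q z0 := by
    intro z
    rw [hS]
    change Q z * ((1 - Q z) * (1 - Q z0) + Q z * Q z0) = ((1 - Q z) * (1 - Q z0) + Q z * Q z0) * Q z0
    have h1 := hQQ z
    have h2 := hQQ z0
    calc Q z * ((1 - Q z) * (1 - Q z0) + Q z * Q z0) = (Q z - Q z * Q z) * (1 - Q z0) + Q z * Q z * Q z0 := by noncomm_ring
      _ = Q z * Q z0 := by rw [h1]; noncomm_ring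
      _ = (1 - Q z) * (Q z0 - Q z0 * Q z0) + Q z * (Q z0 * Q z0) := by rw [h2]; noncomm_ring
      _ = ((1 - Q z) * (1 - Q z0) + Q z * Q z0) * Q z0 := by noncomm_ring
  refine ⟨{z | IsUnit (S z)}, ?_, ?_⟩
  · have h1 : {x : E →L[ℝ] E | IsUnit x} ∈ 𝓝 (S z0) := by
      rw [hS0]
      exact Units.isOpen.mem_nhds isUnit_one
    exact hSs.continuous.continuousAt h1
  · obtain ⟨K, hK⟩ : ∃ K, K = LinearMap.ker (Q z0 : E →ₗ[ℝ] E) := ⟨_, rfl⟩
    obtain ⟨g, hg⟩ : ∃ g : V m × K → E, g = fun y => b y.1 + S y.1 (y.2 : E) := ⟨_, rfl⟩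
    have hgs : ContDiff ℝ 1 g := by
      rw [hg]
      have h1 : ContDiff ℝ ∞ fun y : V m × K => b y.1 + S y.1 (y.2 : E) :=
        (hb.comp contDiff_fst).add ((hSs.comp contDiff_fst).clm_apply (K.subtypeL.contDiff.comp contDiff_snd))
      exact h1.of_le (by exact_mod_cast le_top)
    have hsub : {a | ∃ z ∈ {z | IsUnit (S z)}, Q z (a - b z) = 0} ⊆ range g := by
      rintro a ⟨z, hz, ha⟩
      obtain ⟨u, hu⟩ := hz
      have h1 : S z ((↑u⁻¹ : E →L[ℝ] E) (a - b z)) = a - b z := by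
        rw [← hu]
        have h2 : ((u : E →L[ℝ] E) * (↑u⁻¹ : E →L[ℝ] E)) (a - b z) = a - b z := by
          rw [Units.mul_inv]
          rfl
        exact h2
      have h2 : Q z0 ((↑u⁻¹ : E →L[ℝ] E) (a - b z)) = 0 := by
        have h3 : S z (Q z0 ((↑u⁻¹ : E →L[ℝ] E) (a - b z))) = 0 := by
          have h4 := DFunLike.congr_fun (hcomm z) ((↑u⁻¹ : E →L[ℝ] E) (a - b z))
          change Q z (S z ((↑u⁻¹ : E →L[ℝ] E) (a - b z))) = S z (Q z0 ((↑u⁻¹ : E →L[ℝ] E) (a - b z))) at h4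
          rw [← h4, h1, ha]
        have h5 : (↑u⁻¹ : E →L[ℝ] E) (S z (Q z0 ((↑u⁻¹ : E →L[ℝ] E) (a - b z)))) = Q z0 ((↑u⁻¹ : E →L[ℝ] E) (a - b z)) := by
          rw [← hu]
          have h6 : ((↑u⁻¹ : E →L[ℝ] E) * (u : E →L[ℝ] E)) (Q z0 ((↑u⁻¹ : E →L[ℝ] E) (a - b z))) =
              Q z0 ((↑u⁻¹ : E →L[ℝ] E) (a - b z)) := by
            rw [Units.inv_mul]
            rfl
          exact h6
        rw [h3, map_zero] at h5
        exact h5.symm
      refine ⟨(z, ⟨(↑u⁻¹ : E →L[ℝ] E) (a - b z), ?_⟩), ?_⟩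
      · rw [hK]
        exact h2
      · rw [hg]
        change b z + S z ((↑u⁻¹ : E →L[ℝ] E) (a - b z)) = a
        rw [h1]
        abel
    refine (dimH_mono hsub).trans ((hgs.dimH_range_le).trans ?_)
    have h1 := LinearMap.finrank_range_add_finrank_ker (Q z0 : E →ₗ[ℝ] E)
    have h2 := hN z0
    rw [← hK] at h1
    rw [Module.finrank_prod, Module.finrank_fin_fun]
    exact_mod_cast (by omega : m + finrank ℝ K ≤ finrank ℝ E - 1)

/-- **generic vectors** -/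
theorem gen_dimH {Q : V m → E →L[ℝ] E} (hQ : ContDiff ℝ ∞ Q) (hQQ : ∀ z, Q z * Q z = Q z)
    (hN : ∀ z, N ≤ finrank ℝ (LinearMap.range (Q z : E →ₗ[ℝ] E))) {b : V m → E} (hb : ContDiff ℝ ∞ b) (hm : m < N) :
    dimH {a | ∃ z, Q z (a - b z) = 0} < finrank ℝ E := by
  choose U hU hUd using fun z0 => gen_loc hQ hQQ hN hb hm z0
  obtain ⟨s, hs, hcov⟩ := TopologicalSpace.countable_cover_nhds hU
  have h1 : {a | ∃ z, Q z (a - b z) = 0} ⊆ ⋃ z0 ∈ s, {a | ∃ z ∈ U z0, Q z (a - b z) = 0} := by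
    rintro a ⟨z, hz⟩
    have h2 : z ∈ ⋃ z0 ∈ s, U z0 := by
      rw [hcov]
      exact mem_univ z
    obtain ⟨z0, hz0, h3⟩ := mem_iUnion₂.1 h2
    exact mem_iUnion₂.2 ⟨z0, hz0, z, h3, hz⟩
  have hpos : 0 < finrank ℝ E := by
    have h2 := hN 0
    have h3 := Submodule.finrank_le (LinearMap.range (Q 0 : E →ₗ[ℝ] E))
    omega
  refine lt_of_le_of_lt ((dimH_mono h1).trans ?_) (show ((finrank ℝ E - 1 : ℕ) : ENNReal) < finrank ℝ E by
    exact_mod_cast (by omega : finrank ℝ E - 1 < finrank ℝ E))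
  rw [dimH_bUnion hs]
  exact iSup₂_le fun z0 _ => hUd z0

/-- a vector outside two small sets -/
theorem exists_not_mem2 {A B : Set E} (hA : dimH A < finrank ℝ E) (hB : dimH B < finrank ℝ E) : ∃ a, a ∉ A ∧ a ∉ B := by
  have h1 : dimH (A ∪ B) < finrank ℝ E := by
    rw [dimH_union]
    exact max_lt hA hB
  obtain ⟨a, ha⟩ := (dense_compl_of_dimH_lt_finrank h1).nonempty
  exact ⟨a, fun h => ha (Or.inl h), fun h => ha (Or.inr h)⟩

end Pool.Agent.Lib.MP_ccbbf6_gt.K7.HM
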