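import Pool.Agent.Lib.MP_ccbbf6_gt.K7.HK3a
import Pool.Agent.Lib.MP_ccbbf6_gt.L5.NA3

namespace Pool.Agent.Lib.MP_ccbbf6_gt.L5.IA
end Pool.Agent.Lib.MP_ccbbf6_gt.L5.IA

/-!
# `κ = 7`, block H (integrality), HK3b: vector fields from an embedding (helper95)

`e : Emb n 𝒜`, `p : M`, `a` a vector of the space of the embedding.
* `va e a p` = the velocity at `p` of `τ ↦ r (i p + τ a)`; `QQ e p` = the derivative of `i ∘ r` at `i p` (a projection of rank `n`);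
  `bv e c` = the velocity of `i ∘ c`.
* `va_ne` : `QQ e p a ≠ 0` implies `va e a p ≠ 0`; `va_vel` : `va e a (c 0) = λ vel c` implies `QQ e (c 0) (a - λ bv e c) = 0`.
* `smV_va`, `contDiffAt_QQ`, `contDiffAt_bv`, `QQ_QQ`, `QQ_rank`.
* `exists_generic_a` : a vector `a` with `va e a (y z) ≠ 0` for a family `y` of points of dimension `< n` and
  `va e a (σ z 0) ≠ λ vel (σ z)` for a family `σ` of geodesics of dimension `< n - 1`.
-/

set_option autoImplicit false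
set_option linter.unusedSectionVars false

open Set Filter Topology Metric Real Module
open scoped ContDiff RealInnerProductSpace

noncomputable section

namespace Pool.Agent.Lib.MP_ccbbf6_gt.K7.HM

open Geo L4 L4.ORI L5 L5.IA

variable {n : ℕ} {M : Type*} [MetricSpace M] [CompactSpace M] {𝒜 : SDist n M} (e : Emb n 𝒜)

/-- the vector field of `a` -/
def va (a : EuclideanSpace ℝ (Fin e.q)) (p : M) : Eu n := deriv (fun τ : ℝ => 𝒜.ψ p (e.r (e.i p + τ • a))) 0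

/-- the derivative of `i ∘ r` at `i p` -/
def QQ (p : M) : EuclideanSpace ℝ (Fin e.q) →L[ℝ] EuclideanSpace ℝ (Fin e.q) := fderiv ℝ (fun y => e.i (e.r y)) (e.i p)

/-- the derivative of `i` at `p` -/
def dI (p : M) : Eu n →L[ℝ] EuclideanSpace ℝ (Fin e.q) := fderiv ℝ (fun u => e.i ((𝒜.ψ p).symm u)) 0

/-- the velocity of the image of a geodesic -/
def bv (c : Gs M) : EuclideanSpace ℝ (Fin e.q) := deriv (fun t : ℝ => e.i (c.1 t)) 0

variable {e}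
variable {E : Type*} [NormedAddCommGroup E] [NormedSpace ℝ E]

theorem smAt_r {y : EuclideanSpace ℝ (Fin e.q)} (hy : y ∈ e.U) : SmAt 𝒜 e.r y := e.smooth_r y hy

theorem contDiffAt_i {x : E → M} {u : E} (hx : SmAt 𝒜 x u) : ContDiffAt ℝ ∞ (fun v => e.i (x v)) u :=
  SmFA.comp_to (𝒜 := 𝒜) (g := e.i) (r := x) (z := u) (e.smooth_i _) hx

theorem contDiffAt_ir {y : EuclideanSpace ℝ (Fin e.q)} (hy : y ∈ e.U) : ContDiffAt ℝ ∞ (fun y => e.i (e.r y)) y :=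
  contDiffAt_i (smAt_r hy)

theorem hasFDerivAt_dI (p : M) : HasFDerivAt (fun u => e.i ((𝒜.ψ p).symm u)) (dI e p) 0 :=
  ((e.smooth_i p).differentiableAt (by simp)).hasFDerivAt

theorem hasFDerivAt_QQ (p : M) : HasFDerivAt (fun y => e.i (e.r y)) (QQ e p) (e.i p) :=
  ((contDiffAt_ir (e.mem p)).differentiableAt (by simp)).hasFDerivAt

/-- the field is smooth -/
theorem smAt_vaG (a : EuclideanSpace ℝ (Fin e.q)) {x : E → M} {u : E} (hx : SmAt 𝒜 x u) :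
    SmAt 𝒜 (fun z : E × ℝ => e.r (e.i (x z.1) + z.2 • a)) (u, 0) := by
  have h1 : ContDiffAt ℝ ∞ (fun z : E × ℝ => e.i (x z.1) + z.2 • a) (u, 0) := by
    have h2 : ContDiffAt ℝ ∞ (fun z : E × ℝ => e.i (x z.1)) (u, 0) :=
      ContDiffAt.comp (g := fun v => e.i (x v)) (f := fun z : E × ℝ => z.1) (u, 0) (contDiffAt_i hx) contDiffAt_fst
    exact h2.add (contDiffAt_snd.smul contDiffAt_const)
  refine SmAt.comp (g := e.r) (f := fun z : E × ℝ => e.i (x z.1) + z.2 • a) (smAt_r ?_) h1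
  show e.i (x u) + (0 : ℝ) • a ∈ e.U
  rw [zero_smul, add_zero]
  exact e.mem _

theorem smV_va (a : EuclideanSpace ℝ (Fin e.q)) {x : E → M} {u : E} (hx : SmAt 𝒜 x u) {p : M}
    (hp : x u ∈ (𝒜.ψ p).source) : SmV 𝒜 p x (fun v => va e a (x v)) u := by
  have h1 := smV_deriv (p := p) (smAt_vaG (e := e) a hx) (by
    show e.r (e.i (x u) + (0 : ℝ) • a) ∈ (𝒜.ψ p).source
    rw [zero_smul, add_zero, e.left]
    exact hp)
  simp only [zero_smul, add_zero, e.left] at h1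
  exact h1

/-- curves in charts and in the embedding -/
theorem hasDerivAt_i {γ : ℝ → M} {p : M} {w : Eu n} (hc : ContinuousAt γ 0) (h0 : γ 0 = p)
    (hd : HasDerivAt (fun τ => 𝒜.ψ p (γ τ)) w 0) : HasDerivAt (fun τ => e.i (γ τ)) (dI e p w) 0 := by
  have hz : 𝒜.ψ p (γ 0) = 0 := by rw [h0, 𝒜.zero]
  have h1 : HasFDerivAt (fun u => e.i ((𝒜.ψ p).symm u)) (dI e p) (𝒜.ψ p (γ 0)) := by
    rw [hz]
    exact hasFDerivAt_dI p
  have h2 := h1.comp_hasDerivAt (0 : ℝ) hd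
  refine h2.congr_of_eventuallyEq ?_
  have hs : (𝒜.ψ p).source ∈ 𝓝 (γ 0) := by
    rw [h0]
    exact (𝒜.ψ p).open_source.mem_nhds (𝒜.mem p)
  filter_upwards [hc.eventually hs] with τ hτ
  show e.i (γ τ) = e.i ((𝒜.ψ p).symm (𝒜.ψ p (γ τ)))
  rw [(𝒜.ψ p).left_inv hτ]

theorem QQ_va (a : EuclideanSpace ℝ (Fin e.q)) (p : M) : QQ e p a = dI e p (va e a p) := by
  have h1 := smAt_vaG (e := e) a (smAt_const (𝒜 := 𝒜) (E := ℝ) p 0)
  have hγ : SmAt 𝒜 (fun τ : ℝ => e.r (e.i p + τ • a)) 0 :=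
    SmAt.comp (g := fun z : ℝ × ℝ => e.r (e.i p + z.2 • a)) (f := fun τ : ℝ => ((0 : ℝ), τ)) h1
      (contDiffAt_const.prodMk contDiffAt_id)
  have h0 : e.r (e.i p + (0 : ℝ) • a) = p := by rw [zero_smul, add_zero, e.left]
  have hd : HasDerivAt (fun τ : ℝ => 𝒜.ψ p (e.r (e.i p + τ • a))) (va e a p) 0 := hasDerivAt_psi hγ h0
  have h2 := hasDerivAt_i (e := e) hγ.1 h0 hd
  have h3 : HasDerivAt (fun τ : ℝ => e.i p + τ • a) a 0 := by
    have h4 := ((hasDerivAt_id (0 : ℝ)).smul_const a).const_add (e.i p)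
    rwa [one_smul] at h4
  have h5 : HasFDerivAt (fun y => e.i (e.r y)) (QQ e p) (e.i p + (0 : ℝ) • a) := by
    rw [zero_smul, add_zero]
    exact hasFDerivAt_QQ p
  have h6 : HasDerivAt (fun τ : ℝ => e.i (e.r (e.i p + τ • a))) (QQ e p a) 0 :=
    HasFDerivAt.comp_hasDerivAt (l := fun y => e.i (e.r y)) (f := fun τ : ℝ => e.i p + τ • a) (0 : ℝ) h5 h3
  exact h6.unique h2

theorem va_ne {a : EuclideanSpace ℝ (Fin e.q)} {p : M} (h : QQ e p a ≠ 0) : va e a p ≠ 0 := by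
  intro h0
  apply h
  rw [QQ_va, h0, map_zero]

theorem QQ_dI (p : M) (w : Eu n) : QQ e p (dI e p w) = dI e p w := by
  have h0 : e.i ((𝒜.ψ p).symm 0) = e.i p := by rw [symm_zero' 𝒜 p]
  have h1 : HasFDerivAt (fun y => e.i (e.r y)) (QQ e p) (e.i ((𝒜.ψ p).symm 0)) := by
    rw [h0]
    exact hasFDerivAt_QQ p
  have h2 := HasFDerivAt.comp (g := fun y => e.i (e.r y)) (0 : Eu n) h1 (hasFDerivAt_dI (e := e) p)
  have h3 : ((fun y => e.i (e.r y)) ∘ fun u => e.i ((𝒜.ψ p).symm u)) = fun u => e.i ((𝒜.ψ p).symm u) := by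
    funext u
    show e.i (e.r (e.i ((𝒜.ψ p).symm u))) = e.i ((𝒜.ψ p).symm u)
    rw [e.left]
  rw [h3] at h2
  exact DFunLike.congr_fun (h2.unique (hasFDerivAt_dI (e := e) p)) w

theorem QQ_QQ (p : M) : QQ e p * QQ e p = QQ e p := by
  refine ContinuousLinearMap.ext fun a => ?_
  show QQ e p (QQ e p a) = QQ e p a
  rw [QQ_va a p, QQ_dI]

theorem dI_inj (p : M) : Function.Injective (dI e p) := by
  have h0 : e.i ((𝒜.ψ p).symm 0) = e.i p := by rw [symm_zero' 𝒜 p]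
  have h1 : ContDiffAt ℝ ∞ (fun y => 𝒜.ψ p (e.r y)) (e.i p) := by
    have h2 := (smAt_r (e.mem p)).2
    rw [e.left] at h2
    exact h2
  have h2 : HasFDerivAt (fun y => 𝒜.ψ p (e.r y)) (fderiv ℝ (fun y => 𝒜.ψ p (e.r y)) (e.i p)) (e.i ((𝒜.ψ p).symm 0)) := by
    rw [h0]
    exact (h1.differentiableAt (by simp)).hasFDerivAt
  have h3 := HasFDerivAt.comp (g := fun y => 𝒜.ψ p (e.r y)) (0 : Eu n) h2 (hasFDerivAt_dI (e := e) p)
  have h4 : HasFDerivAt ((fun y => 𝒜.ψ p (e.r y)) ∘ fun u => e.i ((𝒜.ψ p).symm u)) (ContinuousLinearMap.id ℝ (Eu n)) 0 := by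
    refine (hasFDerivAt_id (0 : Eu n)).congr_of_eventuallyEq ?_
    filter_upwards [(𝒜.ψ p).open_target.mem_nhds (zero_mem_target 𝒜 p)] with u hu
    show 𝒜.ψ p (e.r (e.i ((𝒜.ψ p).symm u))) = u
    rw [e.left, (𝒜.ψ p).right_inv hu]
  intro w w' hw
  have h5 := DFunLike.congr_fun (h3.unique h4) w
  have h6 := DFunLike.congr_fun (h3.unique h4) w'
  have h7 : fderiv ℝ (fun y => 𝒜.ψ p (e.r y)) (e.i p) (dI e p w) = w := h5
  have h8 : fderiv ℝ (fun y => 𝒜.ψ p (e.r y)) (e.i p) (dI e p w') = w' := h6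
  rw [← h7, ← h8, hw]

theorem QQ_rank (p : M) : n ≤ finrank ℝ (LinearMap.range (QQ e p : EuclideanSpace ℝ (Fin e.q) →ₗ[ℝ] EuclideanSpace ℝ (Fin e.q))) := by
  have h1 : LinearMap.range (dI e p : Eu n →ₗ[ℝ] EuclideanSpace ℝ (Fin e.q)) ≤
      LinearMap.range (QQ e p : EuclideanSpace ℝ (Fin e.q) →ₗ[ℝ] EuclideanSpace ℝ (Fin e.q)) := by
    rintro _ ⟨w, rfl⟩
    exact ⟨dI e p w, QQ_dI p w⟩
  have h2 := LinearMap.finrank_range_of_inj (f := (dI e p : Eu n →ₗ[ℝ] EuclideanSpace ℝ (Fin e.q))) (dI_inj p)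
  have h3 := Submodule.finrank_mono h1
  rw [h2, finrank_euclideanSpace_fin] at h3
  exact h3

theorem contDiffAt_QQ {x : E → M} {u : E} (hx : SmAt 𝒜 x u) : ContDiffAt ℝ ∞ (fun v => QQ e (x v)) u := by
  have h1 : ContDiffAt ℝ ∞ (fderiv ℝ (fun y => e.i (e.r y))) (e.i (x u)) :=
    (contDiffAt_ir (e.mem (x u))).fderiv_right (by simp)
  exact ContDiffAt.comp (g := fderiv ℝ (fun y => e.i (e.r y))) (f := fun v => e.i (x v)) u h1 (contDiffAt_i hx)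

theorem smAt_geo (hB : Bl M) {σ : E → Gs M} {u : E} (h : SmGAt 𝒜 σ u) : SmAt 𝒜 (fun z : E × ℝ => (σ z.1).1 z.2) (u, 0) := by
  have h1 : SmGAt 𝒜 (fun z : E × ℝ => σ z.1) (u, 0) :=
    SmGAt.comp (σ := σ) (f := fun z : E × ℝ => z.1) (v := (u, 0)) h contDiffAt_fst
  exact h1.ev hB (t := fun z : E × ℝ => z.2) contDiffAt_snd

theorem contDiffAt_bv (hB : Bl M) {σ : E → Gs M} {u : E} (h : SmGAt 𝒜 σ u) : ContDiffAt ℝ ∞ (fun v => bv e (σ v)) u := by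
  have h1 : ContDiffAt ℝ ∞ (fun z : E × ℝ => e.i ((σ z.1).1 z.2)) (u, 0) := contDiffAt_i (smAt_geo hB h)
  exact PO.contDiffAt_deriv2' (g := fun z : E × ℝ => e.i ((σ z.1).1 z.2)) h1

theorem bv_eq (hB : Bl M) (c : Gs M) : bv e c = dI e (c.1 0) (𝒜.vel c.1 0) := by
  have h1 : SmAt 𝒜 (fun t : ℝ => c.1 t) 0 := (smGAt_const c (0 : ℝ)).ev hB (t := fun t => t) contDiffAt_id
  have hd : HasDerivAt (fun t : ℝ => 𝒜.ψ (c.1 0) (c.1 t)) (𝒜.vel c.1 0) 0 := hasDerivAt_psi h1 rfl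
  exact (hasDerivAt_i (e := e) h1.1 rfl hd).deriv

theorem va_vel (hB : Bl M) {a : EuclideanSpace ℝ (Fin e.q)} {c : Gs M} {t : ℝ} (h : va e a (c.1 0) = t • 𝒜.vel c.1 0) :
    QQ e (c.1 0) (a - t • bv e c) = 0 := by
  rw [map_sub, map_smul, QQ_va, h, bv_eq hB, QQ_dI, map_smul, sub_self]

/-- **generic vectors** -/
theorem exists_generic_a (hB : Bl M) (e : Emb n 𝒜) {k l : ℕ} (hk : k + 1 < n) (hl : l < n) {σ : FR.V k → Gs M} (hσ : SmG 𝒜 σ)
    {y : FR.V l → M} (hy : Sm 𝒜 y) :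
    ∃ a : EuclideanSpace ℝ (Fin e.q), (∀ z, ∀ t : ℝ, va e a ((σ z).1 0) ≠ t • 𝒜.vel (σ z).1 0) ∧ ∀ z, va e a (y z) ≠ 0 := by
  have h1 : dimH {a | ∃ z : FR.V (k + 1), QQ e ((σ (FR.pr k z)).1 0) (a - z (Fin.last k) • bv e (σ (FR.pr k z))) = 0} <
      finrank ℝ (EuclideanSpace ℝ (Fin e.q)) := by
    refine gen_dimH (N := n) ?_ (fun z => QQ_QQ _) (fun z => QQ_rank _) ?_ hk
    · rw [contDiff_iff_contDiffAt]
      intro z
      refine contDiffAt_QQ (x := fun z : FR.V (k + 1) => (σ (FR.pr k z)).1 0) ?_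
      exact SmAt.comp (g := fun z => (σ z).1 0) (f := FR.pr k) (hσ.1 _) (FR.pr k).smooth.contDiffAt
    · rw [contDiff_iff_contDiffAt]
      intro z
      refine (contDiff_apply ℝ ℝ (Fin.last k)).contDiffAt.smul ?_
      have h2 : SmGAt 𝒜 (fun z : FR.V (k + 1) => σ (FR.pr k z)) z :=
        SmGAt.comp (σ := σ) (f := FR.pr k) (v := z) ⟨hσ.1 _, hσ.2 _⟩ (FR.pr k).smooth.contDiffAt
      exact contDiffAt_bv hB h2
  have h2 : dimH {a | ∃ z : FR.V l, QQ e (y z) (a - 0) = 0} < finrank ℝ (EuclideanSpace ℝ (Fin e.q)) := by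
    refine gen_dimH (N := n) ?_ (fun z => QQ_QQ _) (fun z => QQ_rank _) contDiff_const hl
    rw [contDiff_iff_contDiffAt]
    exact fun z => contDiffAt_QQ (hy z)
  obtain ⟨a, ha1, ha2⟩ := exists_not_mem2 h1 h2
  refine ⟨a, fun z t h => ha1 ⟨Fin.snoc z t, ?_⟩, fun z => va_ne fun h => ha2 ⟨z, ?_⟩⟩
  · rw [FR.pr_snoc, Fin.snoc_last]
    exact va_vel hB h
  · rw [sub_zero]
    exact h

end Pool.Agent.Lib.MP_ccbbf6_gt.K7.HM
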