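import Pool.Agent.Lib.MP_ccbbf6_gt.L5.Ext0
import Pool.Agent.Lib.MP_ccbbf6_gt.L5.IA01

/-!
# `κ = 7`, block H (integrality), the machine, part 1: thin faces (helper95)

`X` a `Space`, `c : Circ X` a circle action, `w : X.Plot k` a cube.
* `Thin r p x` : near `x` the plot `p` factors through a plot of dimension `r`.
* `Thn r w i c` : the face `x_i = c` is thin of order `r`; `Agr w i` : the faces `x_i = 0` and `x_i = 1` agree.
* `FT w i` : the faces agree, or both are thin of order `≤ k - 2`; `Good w` : `FT` in all directions.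
* `Nxt c w W` : `W : X.Plot (k + 2)` is the next stage: `W (x, t, 0) = φ_t (w x)`, all other faces agree or are thin of order `≤ k`.
* `Hpy X r` : a homotopy `F` on a plot-open subset `O`, `F (x, 0) = x`, the end `F (x, 1)` is thin of order `r`.
-/

set_option autoImplicit false
set_option maxSynthPendingDepth 3

open Set Filter Topology MeasureTheory
open scoped ContDiff

noncomputable section

namespace Pool.Agent.Lib.MP_ccbbf6_gt.K7.HM

open L4 L4.FR L5 L5.IA

variable {X Y : Space} {k l r r' : ℕ} {j : ℕ}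

/-- the plot factors near `x` through a plot of dimension `r` -/
def Thin (r : ℕ) (p : X.Plot k) (x : V k) : Prop :=
  ∃ (q : X.Plot r) (g : FR.Sm k r), ∀ᶠ y in 𝓝 x, p.1 y = q.1 (g y)

/-- the face `x_i = c` is thin of order `r` -/
def Thn (r : ℕ) (w : X.Plot k) (i : Fin k) (c : ℝ) : Prop := ∀ x, Thin r (w.cmp (cst i c)) x

/-- the two faces in the direction `i` agree -/
def Agr (w : X.Plot k) (i : Fin k) : Prop := ∀ x : V k, w.1 (Function.update x i 1) = w.1 (Function.update x i 0)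

/-- the boundary condition in the direction `i` -/
def FT (w : X.Plot k) (i : Fin k) : Prop := Agr w i ∨ ∃ r, r + 2 ≤ k ∧ Thn r w i 0 ∧ Thn r w i 1

/-- the boundary condition in all directions -/
def Good (w : X.Plot k) : Prop := ∀ i, FT w i

/-- `W` is the next stage after `w`; the coordinates of `W` are `(x, t, s)` -/
structure Nxt (c : Circ X) (w : X.Plot k) (W : X.Plot (k + 1 + 1)) : Prop where
  bot : ∀ x : V (k + 1), W.1 (Fin.snoc x 0) = (c.op w).1 x
  top : Thn k W (Fin.last (k + 1)) 1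
  lat : ∀ i : Fin (k + 1), FT W i.castSucc

/-- homotopies on a plot-open subset with thin end -/
structure Hpy (X : Space) (r : ℕ) where
  /-- the domain -/
  O : Set X.pt
  op : OpenU X O
  /-- the homotopy -/
  F : SMap (sub X O).xR X
  zero : ∀ x : (sub X O).pt, F.1 (x, 0) = x.1
  thin : ∀ (k : ℕ) (p : (sub X O).Plot k) (x : V k), Thin r ((F.comp (jO (sub X O) 1)).pl p) x

/-! ### Thin plots -/

theorem Thin.cmp {p : X.Plot l} {g : FR.Sm k l} {x : V k} (h : Thin r p (g x)) : Thin r (p.cmp g) x := by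
  obtain ⟨q, f, hf⟩ := h
  exact ⟨q, f.comp g, g.smooth.continuous.continuousAt.eventually hf⟩

theorem Thin.pl {p : X.Plot k} {x : V k} (h : Thin r p x) (f : SMap X Y) : Thin r (f.pl p) x := by
  obtain ⟨q, g, hg⟩ := h
  refine ⟨f.pl q, g, ?_⟩
  filter_upwards [hg] with y hy
  change f.1 (p.1 y) = f.1 (q.1 (g y))
  rw [hy]

theorem thin_cmp (q : X.Plot r) (g : FR.Sm k r) (x : V k) : Thin r (q.cmp g) x := ⟨q, g, Eventually.of_forall fun _ => rfl⟩

theorem Thin.congr {p p' : X.Plot k} {x : V k} (h : Thin r p x) (e : ∀ᶠ y in 𝓝 x, p'.1 y = p.1 y) : Thin r p' x := by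
  obtain ⟨q, g, hg⟩ := h
  refine ⟨q, g, ?_⟩
  filter_upwards [hg, e] with y h1 h2
  rw [h2, h1]

/-- forget coordinates / add zeros -/
def padL (k l : ℕ) : FR.Sm k l := ⟨fun x i => if h : (i : ℕ) < k then x ⟨i, h⟩ else 0, contDiff_pi.2 fun i => by
  by_cases h : (i : ℕ) < k
  · simp only [dif_pos h]
    exact contDiff_apply ℝ ℝ _
  · simp only [dif_neg h]
    exact contDiff_const⟩

theorem padL_padL (h : k ≤ l) (x : V k) : padL l k (padL k l x) = x := by
  funext i
  change (if h : (i : ℕ) < l then (fun i : Fin l => if h : (i : ℕ) < k then x ⟨i, h⟩ else 0) ⟨i, h⟩ else 0) = x i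
  rw [dif_pos (lt_of_lt_of_le i.2 h)]
  change (if h : (i : ℕ) < k then x ⟨i, h⟩ else 0) = x i
  rw [dif_pos i.2]

theorem Thin.mono {p : X.Plot k} {x : V k} (h : Thin r p x) (hr : r ≤ r') : Thin r' p x := by
  obtain ⟨q, g, hg⟩ := h
  refine ⟨q.cmp (padL r' r), (padL r r').comp g, ?_⟩
  filter_upwards [hg] with y hy
  change p.1 y = q.1 (padL r' r (padL r r' (g y)))
  rw [padL_padL hr, hy]

theorem thin_dim (p : X.Plot k) (x : V k) (h : k ≤ r) : Thin r p x :=
  (thin_cmp p (FR.Sm.id k) x).mono h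

/-- thin plots of a plot-open subset -/
theorem thin_sub {O : Set X.pt} (hO : OpenU X O) (p : (sub X O).Plot k) {x : V k} (h : Thin r ((inU X O).pl p) x) :
    Thin r p x := by
  obtain ⟨q, g, hg⟩ := h
  have h1 : q.1 (g x) ∈ O := by
    rw [← hg.self_of_nhds]
    exact (p.1 x).2
  obtain ⟨s, hs1, hs2⟩ := exists_sq (g x) ((hO r q).mem_nhds h1)
  refine ⟨⟨fun y => ⟨q.1 (s y), hs2 y⟩, X.pre q.2 s⟩, g, ?_⟩
  filter_upwards [hg, g.smooth.continuous.continuousAt.eventually hs1] with y h2 h3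
  refine Subtype.ext ?_
  change (p.1 y).1 = q.1 (s (g y))
  rw [h3]
  exact h2

theorem Thin.up {p : X.Plot k} {x : V k} {s : ℝ} (h : Thin r p x) : Thin (r + 1) p.up (Fin.snoc x s : V (k + 1)) := by
  obtain ⟨q, g, hg⟩ := h
  refine ⟨q.up, g.up, ?_⟩
  have h1 : Tendsto (pr k) (𝓝 (Fin.snoc x s : V (k + 1))) (𝓝 x) := by
    have h2 := (pr k).smooth.continuous.tendsto (Fin.snoc x s : V (k + 1))
    rwa [pr_snoc] at h2
  filter_upwards [h1.eventually hg] with y hy
  change (p.1 (pr k y), y (Fin.last k)) = (q.1 (pr r (Fin.snoc (g (pr k y)) (y (Fin.last k)))),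
    (Fin.snoc (g (pr k y)) (y (Fin.last k)) : V (r + 1)) (Fin.last r))
  rw [pr_snoc, Fin.snoc_last, hy]

theorem Thin.up' {p : X.Plot k} {x : V (k + 1)} (h : Thin r p (pr k x)) : Thin (r + 1) p.up x := by
  have h1 := h.up (s := x (Fin.last k))
  rwa [snoc_pr] at h1

theorem Thin.op (c : Circ X) {p : X.Plot k} {x : V (k + 1)} (h : Thin r p (pr k x)) : Thin (r + 1) (c.op p) x :=
  h.up'.pl c.a

/-- forms of degree `> r` vanish -/
theorem Thin.ev {p : X.Plot k} {x : V k} (h : Thin r p x) {θ : Om X} (hθ : Deg j θ) (hr : r < j) :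
    FR.ev x (Om.on θ p) = 0 := by
  obtain ⟨q, g, hg⟩ := h
  have h1 : p.1 =ᶠ[𝓝 x] (q.cmp g).1 := hg
  rw [ev_on_congr θ h1, on_cmp, Dg_big hr (hθ r q), map_zero, map_zero]

/-- a thin face kills the forms of degree `> r` -/
theorem Thn.top {w : X.Plot k} {i : Fin k} {c : ℝ} (h : Thn r w i c) {θ : Om X} (hθ : Deg j θ) (hr : r < j) {x : V k}
    (hx : x i = c) : topE k (ee i * FR.ev x (Om.on θ w)) = 0 := by
  have h1 : FR.ev x (pb (cst i c) (Om.on θ w)) = 0 := by
    rw [← on_cmp]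
    exact (h x).ev hθ hr
  have h2 := ee_ev_cst i c x (Om.on θ w)
  rw [h1, mul_zero] at h2
  have h3 : Function.update x i c = x := by
    rw [← hx]
    exact Function.update_eq_self _ _
  rw [h3] at h2
  rw [← h2, map_zero]

end Pool.Agent.Lib.MP_ccbbf6_gt.K7.HM
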