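import Pool.Agent.Lib.MP_ccbbf6_gt.K7.HM1
import Pool.Agent.Lib.MP_ccbbf6_gt.L5.INTf

/-!
# `κ = 7`, block H (integrality), the machine, part 2: the stages, Stokes, reduction (helper95)

* `St c h w hw` : the next stage `(x, t, s) ↦ F (φ_t (w x), s)`.
* `step` : `Good w` → `Nxt c w W`;  `step'` : `Nxt c w w'` → `Nxt c w' W`.
* `Nxt.stokes`, `Nxt.basic`, `Nxt.red` (reduction `∫_W dA b = c₀ ∫_w b`), `Good.exact`.
-/

set_option autoImplicit false
set_option maxSynthPendingDepth 3

open Set Filter Topology MeasureTheory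
open scoped ContDiff

noncomputable section

namespace Pool.Agent.Lib.MP_ccbbf6_gt.K7.HM

open L4 L4.FR L5 L5.IA

variable {X Y : Space} {k l r r' : ℕ} {j : ℕ}

/-! ### Coordinates -/

theorem pr_update (z : V (k + 1)) (i : Fin k) (a : ℝ) :
    pr k (Function.update z i.castSucc a) = Function.update (pr k z) i a := by
  funext b
  change Function.update z i.castSucc a b.castSucc = Function.update (pr k z) i a b
  by_cases h : b = i
  · subst h
    rw [Function.update_self, Function.update_self]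
  · rw [Function.update_of_ne (fun h' => h (Fin.castSucc_injective _ h')), Function.update_of_ne h]
    rfl

theorem update_castSucc_last (z : V (k + 1)) (i : Fin k) (a : ℝ) :
    Function.update z i.castSucc a (Fin.last k) = z (Fin.last k) :=
  Function.update_of_ne (Fin.castSucc_lt_last i).ne' _ _

theorem update_last (z : V (k + 1)) (a : ℝ) : Function.update z (Fin.last k) a = Fin.snoc (pr k z) a := by
  funext b
  refine Fin.lastCases ?_ (fun b => ?_) b
  · rw [Function.update_self, Fin.snoc_last]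
  · rw [Function.update_of_ne (Fin.castSucc_lt_last b).ne, Fin.snoc_castSucc]
    rfl

theorem up_cst (p : X.Plot k) (i : Fin k) (a : ℝ) : p.up.cmp (cst i.castSucc a) = (p.cmp (cst i a)).up :=
  Plot_ext fun z => by
    change (p.1 (pr k (Function.update z i.castSucc a)), Function.update z i.castSucc a (Fin.last k)) =
      (p.1 (Function.update (pr k z) i a), z (Fin.last k))
    rw [pr_update, update_castSucc_last]

theorem op_cst (c : Circ X) (p : X.Plot k) (i : Fin k) (a : ℝ) :
    (c.op p).cmp (cst i.castSucc a) = c.op (p.cmp (cst i a)) := by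
  unfold Circ.op
  rw [← pl_cmp, up_cst]

/-! ### The next stage -/

variable (c : Circ X) (h : Hpy X r)

/-- the orbits of a cube as a plot of the domain of the homotopy -/
def opO (w : X.Plot k) (hw : ∀ z, (c.op w).1 z ∈ h.O) : (sub X h.O).Plot (k + 1) :=
  ⟨fun z => ⟨(c.op w).1 z, hw z⟩, (c.op w).2⟩

/-- the next stage -/
def St (w : X.Plot k) (hw : ∀ z, (c.op w).1 z ∈ h.O) : X.Plot (k + 1 + 1) := h.F.pl (opO c h w hw).up

variable {c h}

theorem in_opO (w : X.Plot k) (hw : ∀ z, (c.op w).1 z ∈ h.O) : (inU X h.O).pl (opO c h w hw) = c.op w := rfl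

theorem St_bot (w : X.Plot k) (hw : ∀ z, (c.op w).1 z ∈ h.O) (x : V (k + 1)) :
    (St c h w hw).1 (Fin.snoc x 0) = (c.op w).1 x := by
  change h.F.1 ((opO c h w hw).1 (pr (k + 1) (Fin.snoc x 0)), (Fin.snoc x 0 : V (k + 1 + 1)) (Fin.last (k + 1))) = _
  rw [pr_snoc, Fin.snoc_last, h.zero]
  rfl

theorem St_top (w : X.Plot k) (hw : ∀ z, (c.op w).1 z ∈ h.O) (hr : r ≤ r') : Thn r' (St c h w hw) (Fin.last (k + 1)) 1 := by
  intro x
  have h1 : (St c h w hw).cmp (cst (Fin.last (k + 1)) 1) =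
      ((h.F.comp (jO (sub X h.O) 1)).pl (opO c h w hw)).cmp (pr (k + 1)) := Plot_ext fun z => by
    change h.F.1 ((opO c h w hw).1 (pr (k + 1) (Function.update z (Fin.last (k + 1)) 1)),
      Function.update z (Fin.last (k + 1)) 1 (Fin.last (k + 1))) = h.F.1 ((opO c h w hw).1 (pr (k + 1) z), 1)
    rw [update_last, pr_snoc, Fin.snoc_last]
  rw [h1]
  exact (h.thin _ _ _).cmp.mono hr

/-- thin faces of the orbit plot give thin faces of the next stage -/
theorem St_thn' {w : X.Plot k} {hw : ∀ z, (c.op w).1 z ∈ h.O} {i : Fin (k + 1)} {a : ℝ}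
    (hT : ∀ x, Thin r' ((c.op w).cmp (cst i a)) x) : Thn (r' + 1) (St c h w hw) i.castSucc a := by
  intro x
  have h1 : (St c h w hw).cmp (cst i.castSucc a) = h.F.pl ((opO c h w hw).cmp (cst i a)).up := by
    rw [← up_cst]
    rfl
  rw [h1]
  refine Thin.pl (Thin.up' (thin_sub h.op _ ?_)) _
  exact hT (pr (k + 1) x)

theorem St_thn {w : X.Plot k} {hw : ∀ z, (c.op w).1 z ∈ h.O} {i : Fin k} {a : ℝ} (hT : Thn r' w i a) :
    Thn (r' + 1 + 1) (St c h w hw) i.castSucc.castSucc a := by
  refine St_thn' fun x => ?_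
  rw [op_cst]
  exact Thin.op c (hT _)

theorem St_agr {w : X.Plot k} {hw : ∀ z, (c.op w).1 z ∈ h.O} {i : Fin k} (hA : Agr w i) :
    Agr (St c h w hw) i.castSucc.castSucc := by
  intro x
  have h1 : ∀ a : ℝ, (St c h w hw).1 (Function.update x i.castSucc.castSucc a) =
      h.F.1 ((opO c h w hw).1 (Function.update (pr (k + 1) x) i.castSucc a), x (Fin.last (k + 1))) := by
    intro a
    change h.F.1 ((opO c h w hw).1 (pr (k + 1) (Function.update x i.castSucc.castSucc a)),
      Function.update x i.castSucc.castSucc a (Fin.last (k + 1))) = _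
    rw [pr_update, update_castSucc_last]
  have h2 : (opO c h w hw).1 (Function.update (pr (k + 1) x) i.castSucc 1) =
      (opO c h w hw).1 (Function.update (pr (k + 1) x) i.castSucc 0) := by
    refine Subtype.ext ?_
    change c.a.1 (w.1 (pr k (Function.update (pr (k + 1) x) i.castSucc 1)), Function.update (pr (k + 1) x) i.castSucc 1 (Fin.last k)) =
      c.a.1 (w.1 (pr k (Function.update (pr (k + 1) x) i.castSucc 0)), Function.update (pr (k + 1) x) i.castSucc 0 (Fin.last k))
    rw [pr_update, pr_update, update_castSucc_last, update_castSucc_last, hA]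
  rw [h1, h1, h2]

/-- the direction of the circle -/
theorem St_t (w : X.Plot k) (hw : ∀ z, (c.op w).1 z ∈ h.O) : Agr (St c h w hw) (Fin.last k).castSucc := by
  intro x
  have h1 : ∀ a : ℝ, (St c h w hw).1 (Function.update x (Fin.last k).castSucc a) =
      h.F.1 ((opO c h w hw).1 (Fin.snoc (pr k (pr (k + 1) x)) a), x (Fin.last (k + 1))) := by
    intro a
    change h.F.1 ((opO c h w hw).1 (pr (k + 1) (Function.update x (Fin.last k).castSucc a)),
      Function.update x (Fin.last k).castSucc a (Fin.last (k + 1))) = _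
    rw [pr_update, update_castSucc_last, update_last]
  have h2 : (opO c h w hw).1 (Fin.snoc (pr k (pr (k + 1) x)) 1) = (opO c h w hw).1 (Fin.snoc (pr k (pr (k + 1) x)) 0) := by
    refine Subtype.ext ?_
    change c.a.1 (w.1 (pr k (Fin.snoc (pr k (pr (k + 1) x)) 1)), (Fin.snoc (pr k (pr (k + 1) x)) 1 : V (k + 1)) (Fin.last k)) =
      c.a.1 (w.1 (pr k (Fin.snoc (pr k (pr (k + 1) x)) 0)), (Fin.snoc (pr k (pr (k + 1) x)) 0 : V (k + 1)) (Fin.last k))
    rw [pr_snoc, pr_snoc, Fin.snoc_last, Fin.snoc_last]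
    have h3 := c.one (w.1 (pr k (pr (k + 1) x))) 0
    rwa [zero_add] at h3
  rw [h1, h1, h2]

theorem St_ft {w : X.Plot k} {hw : ∀ z, (c.op w).1 z ∈ h.O} {i : Fin k} (hT : FT w i) :
    FT (St c h w hw) i.castSucc.castSucc := by
  rcases hT with hT | ⟨m, hm, h0, h1⟩
  · exact Or.inl (St_agr hT)
  · exact Or.inr ⟨m + 1 + 1, by omega, St_thn h0, St_thn h1⟩

/-- **the first stage** -/
theorem step (c : Circ X) (h : Hpy X r) {w : X.Plot k} (hG : Good w) (hw : ∀ z, (c.op w).1 z ∈ h.O) (hr : r ≤ k) :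
    Nxt c w (St c h w hw) where
  bot := St_bot w hw
  top := St_top w hw hr
  lat := fun i => by
    refine Fin.lastCases ?_ (fun i => ?_) i
    · exact Or.inl (St_t w hw)
    · exact St_ft (hG i)

/-- the bottom face of the previous stage -/
theorem Nxt.bot' {w : X.Plot k} {w' : X.Plot (k + 1 + 1)} (hN : Nxt c w w') :
    w'.cmp (cst (Fin.last (k + 1)) 0) = (c.op w).cmp (pr (k + 1)) := Plot_ext fun z => by
  change w'.1 (Function.update z (Fin.last (k + 1)) 0) = (c.op w).1 (pr (k + 1) z)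
  rw [update_last, hN.bot]

/-- **the next stages** -/
theorem step' (c : Circ X) (h : Hpy X r) {w : X.Plot k} {w' : X.Plot (k + 1 + 1)} (hN : Nxt c w w')
    (hw : ∀ z, (c.op w').1 z ∈ h.O) (hr : r ≤ k + 2) : Nxt c w' (St c h w' hw) where
  bot := St_bot w' hw
  top := St_top w' hw hr
  lat := fun i => by
    refine Fin.lastCases ?_ (fun i => ?_) i
    · exact Or.inl (St_t w' hw)
    · refine Fin.lastCases ?_ (fun i => ?_) i
      · refine Or.inr ⟨k + 1 + 1, le_rfl, ?_, St_thn hN.top⟩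
        refine St_thn' fun x => ?_
        rw [op_cst, hN.bot', op_cmp, op_op]
        exact ((thin_dim (c.op w) _ le_rfl).cmp).cmp
      · exact St_ft (hN.lat i)

/-! ### Integrals -/

/-- faces which agree -/
theorem Agr.top {w : X.Plot k} {i : Fin k} (hA : Agr w i) (θ : Om X) {x y : V k} (hx : x i = 1) (hy : y i = 0)
    (hxy : ∀ b, b ≠ i → x b = y b) : ee i * FR.ev x (Om.on θ w) = ee i * FR.ev y (Om.on θ w) := by
  have h1 : w.cmp (cst i 1) = w.cmp (cst i 0) := Plot_ext fun z => hA z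
  have h2 : x = Function.update x i 1 := by
    rw [← hx]
    exact (Function.update_eq_self _ _).symm
  have h3 : y = Function.update x i 0 := by
    funext b
    by_cases hb : b = i
    · subst hb
      rw [Function.update_self, hy]
    · rw [Function.update_of_ne hb, hxy b hb]
  rw [h3]
  rw [← ee_ev_cst i 0 x (Om.on θ w), ← on_cmp, ← h1, on_cmp, ee_ev_cst, ← h2]

theorem FT.face {w : X.Plot (k + 1)} {i : Fin (k + 1)} (hT : FT w i) {θ : Om X} (hθ : Deg k θ) (x : V k) :
    topE (k + 1) (ee i * FR.ev (i.insertNth 1 x) (Om.on θ w)) = topE (k + 1) (ee i * FR.ev (i.insertNth 0 x) (Om.on θ w)) := by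
  rcases hT with hT | ⟨m, hm, h0, h1⟩
  · rw [hT.top θ (x := i.insertNth 1 x) (y := i.insertNth 0 x) (by rw [Fin.insertNth_apply_same])
      (by rw [Fin.insertNth_apply_same])]
    intro b hb
    obtain ⟨b, rfl⟩ := Fin.exists_succAbove_eq hb
    rw [Fin.insertNth_apply_succAbove, Fin.insertNth_apply_succAbove]
  · rw [h1.top hθ (by omega) (by rw [Fin.insertNth_apply_same]), h0.top hθ (by omega) (by rw [Fin.insertNth_apply_same])]

/-- exact forms on good cubes -/
theorem Good.exact {w : X.Plot (k + 1)} (hG : Good w) {θ : Om X} (hθ : Deg k θ) : cI (k + 1) (Om.on (dO X θ) w) = 0 := by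
  rw [on_d, cI_dd]
  refine Finset.sum_eq_zero fun i _ => ?_
  simp only [(hG i).face hθ, sub_self]

/-- **Stokes for a stage** -/
theorem Nxt.stokes {w : X.Plot k} {W : X.Plot (k + 1 + 1)} (hN : Nxt c w W) {θ : Om X} (hθ : Deg (k + 1) θ) :
    cI (k + 1 + 1) (Om.on (dO X θ) W) = (-1) ^ k * cI (k + 1) (Om.on θ (c.op w)) := by
  rw [on_d, cI_dd, Fin.sum_univ_castSucc, Finset.sum_eq_zero, zero_add]
  · have h1 : ∀ x : V (k + 1), topE (k + 1 + 1) (ee (Fin.last (k + 1)) * FR.ev ((Fin.last (k + 1)).insertNth 1 x) (Om.on θ W)) = 0 :=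
      fun x => hN.top.top hθ (Nat.lt_succ_self k) (by rw [Fin.insertNth_apply_same])
    have h2 : ∀ x : V (k + 1), topE (k + 1 + 1) (ee (Fin.last (k + 1)) * FR.ev ((Fin.last (k + 1)).insertNth 0 x) (Om.on θ W)) =
        (-1) ^ (k + 1) * topE (k + 1) (FR.ev x (Om.on θ (c.op w))) := by
      intro x
      have h3 : W.cmp (sl (k + 1) 0) = c.op w := Plot_ext fun z => hN.bot z
      rw [topE_last, Fin.insertNth_last', ← ev_slE, ← on_cmp, h3]
    simp only [h1, h2, integral_zero, zero_sub]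
    unfold cI
    rw [integral_const_mul, pow_succ]
    ring
  · intro i _
    simp only [(hN.lat i).face hθ, sub_self]

/-- **basic forms** -/
theorem Nxt.basic {w : X.Plot k} {W : X.Plot (k + 1 + 1)} (hN : Nxt c w W) {θ : Om X} (hθ : Deg (k + 1) θ) (hb : Bas c θ) :
    cI (k + 1 + 1) (Om.on (dO X θ) W) = 0 := by
  rw [hN.stokes hθ, hb, Dg_big (Nat.lt_succ_self k) (hθ k w), map_zero, cI_zero, mul_zero]

/-- the contraction of a form along the orbits -/
theorem cs_op (c : Circ X) (θ : Om X) (w : X.Plot k) : cs k (Om.on θ (c.op w)) = Om.on (iO c θ) (c.op w) := by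
  rw [on_i, op_op, on_cmp, cs_sh, ← pb_comp, sh_sl, ts_zero, pb_id]

theorem KK_op {c : Circ X} {A : Om X} {a : ℝ} (hA : iO c A = algebraMap ℝ (Om X) a) (w : X.Plot k) :
    KK k (Om.on A (c.op w)) = algebraMap ℝ (Fm k) a := by
  rw [KK_apply, cs_op, hA]
  have h0 : Om.on (algebraMap ℝ (Om X) a) (c.op w) = algebraMap ℝ (Fm (k + 1)) a := rfl
  have h1 : algebraMap ℝ (Fm (k + 1)) a = a • (1 : Fm (k + 1)) := Algebra.algebraMap_eq_smul_one _
  rw [h0, h1, map_smul, Q0_one, Algebra.algebraMap_eq_smul_one]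

/-- **the reduction** -/
theorem Nxt.red {w : X.Plot k} {W : X.Plot (k + 1 + 1)} (hN : Nxt c w W) {A b : Om X} (hA : Deg 1 A) {a : ℝ}
    (hi : iO c A = algebraMap ℝ (Om X) a) (hb : Deg k b) (hB : Bas c b) (hd : dO X b = 0) :
    cI (k + 1 + 1) (Om.on (dO X A * b) W) = a * cI k (Om.on b w) := by
  have h1 : dO X A * b = dO X (A * b) := by rw [d_mul, hd, mul_zero, add_zero]
  have h2 : Deg (k + 1) (A * b) := by
    have h3 := Deg_mul hA hb
    rwa [add_comm] at h3
  rw [h1, hN.stokes h2, on_mul, hB, cI_KK, KK_mulr, KK_op hi]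
  have h4 : algebraMap ℝ (Fm k) a * Om.on b w = a • Om.on b w := (Algebra.smul_def a _).symm
  rw [h4, cI_smul, ← mul_assoc, ← mul_pow, neg_one_mul, neg_neg, one_pow, one_mul]

end Pool.Agent.Lib.MP_ccbbf6_gt.K7.HM
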