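import Pool.Agent.Lib.MP_ccbbf6_gt.L4.FXb

/-!
# `κ = 7`, block HP (`2 Y` is an integer), part 0: homogeneous components of forms (helper18)

`hcF j : Fm k → Fm k`, `hcO j : Om X → Om X` : the component of degree `j`; it commutes with pull-backs, `d`, and
preserves basic forms.
-/

set_option autoImplicit false
set_option maxSynthPendingDepth 3

open Set Filter Topology
open scoped ContDiff TensorProduct

noncomputable section

namespace Pool.Agent.Lib.MP_ccbbf6_gt.K7.HP

open L4 L4.FR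

variable {X Y : Space} {k l : ℕ} {i j : ℕ}

theorem ivo_mem {i : ℕ} {a : Ex k} (ha : a ∈ ⋀[ℝ]^i (V k)) : ivo k a = (-1 : ℝ) ^ i • a := by
  have h1 : ∀ x : Ex k, ivo k x = ExteriorAlgebra.map (-LinearMap.id) x := by
    intro x
    induction x using ExteriorAlgebra.induction with
    | algebraMap r => simp only [AlgHom.commutes]
    | ι v => rw [ivo_ι, ExteriorAlgebra.map_apply_ι]; simp
    | mul a b hA hB => simp only [map_mul, hA, hB]
    | add a b hA hB => simp only [map_add, hA, hB]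
  rw [h1]
  rw [← ExteriorAlgebra.ιMulti_span_fixedDegree] at ha
  induction ha using Submodule.span_induction with
  | mem x hx =>
    obtain ⟨v, rfl⟩ := hx
    rw [ExteriorAlgebra.map_apply_ιMulti]
    have h : (⇑(-LinearMap.id : V k →ₗ[ℝ] V k)) ∘ v = fun j => (fun _ => (-1 : ℝ)) j • v j := by
      funext j
      show -(v j) = (-1 : ℝ) • v j
      rw [neg_one_smul]
    rw [h]
    have h2 := (ExteriorAlgebra.ιMulti ℝ i (M := V k)).map_smul_univ (fun _ => (-1 : ℝ)) v
    rw [h2, Finset.prod_const, Finset.card_univ, Fintype.card_fin]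
  | zero => rw [map_zero, smul_zero]
  | add x y _ _ hx hy => rw [map_add, hx, hy, smul_add]
  | smul r x _ hx => rw [map_smul, hx, smul_comm]

theorem Dg_tm {f : Cs k} {a : Ex k} (ha : a ∈ ⋀[ℝ]^i (V k)) : Dg i (tm f a) :=
  ⟨by rw [Sc_tm, s2_mem ha, tm_smul_right], by rw [sg_tm, ivo_mem ha, tm_smul_right]⟩

/-- every form is a sum of homogeneous forms -/
theorem Fm_hind {Q : Fm k → Prop} (hh : ∀ (i : ℕ) (x : Fm k), Dg i x → Q x) (ha : ∀ x y, Q x → Q y → Q (x + y))
    (x : Fm k) : Q x := by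
  classical
  induction x using Fm_tind with
  | hf f a =>
    induction a using DirectSum.Decomposition.inductionOn (fun i : ℕ => ⋀[ℝ]^i (V k)) with
    | zero => exact hh 0 _ (Dg_tm (Submodule.zero_mem _))
    | @homogeneous i' c => exact hh i' _ (Dg_tm c.2)
    | add b c hb hc =>
      rw [tm_add_right]
      exact ha _ _ hb hc
  | ha x y hx hy => exact ha _ _ hx hy

/-- the component of degree `j` in the exterior algebra -/
def hcE (j : ℕ) (k : ℕ) : Ex k →ₗ[ℝ] Ex k := GradedAlgebra.proj (fun i : ℕ => ⋀[ℝ]^i (V k)) j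

theorem hcE_same {a : Ex k} (ha : a ∈ ⋀[ℝ]^j (V k)) : hcE j k a = a :=
  DirectSum.decompose_of_mem_same (fun i : ℕ => ⋀[ℝ]^i (V k)) ha

theorem hcE_ne {a : Ex k} (ha : a ∈ ⋀[ℝ]^i (V k)) (h : i ≠ j) : hcE j k a = 0 :=
  DirectSum.decompose_of_mem_ne (fun i : ℕ => ⋀[ℝ]^i (V k)) ha h

/-- the component of degree `j` of a form -/
def hcF (j : ℕ) (k : ℕ) : Fm k →ₗ[ℝ] Fm k :=
  (TensorProduct.map LinearMap.id (hcE j k) : Cs k ⊗[ℝ] Ex k →ₗ[ℝ] Cs k ⊗[ℝ] Ex k)

theorem hcF_tm (f : Cs k) (a : Ex k) : hcF j k (tm f a) = tm f (hcE j k a) := rfl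

theorem ev_hcF (p : V k) (x : Fm k) : ev p (hcF j k x) = hcE j k (ev p x) := by
  induction x using Fm_tind with
  | hf f a => rw [hcF_tm, ev_tm, ev_tm, map_smul]
  | ha x y hx hy => simp only [map_add, hx, hy]

theorem hcF_same {x : Fm k} (h : Dg j x) : hcF j k x = x := by
  refine ev_ext fun p => ?_
  rw [ev_hcF, hcE_same (Dg_ev h p)]

theorem hcF_ne {x : Fm k} (h : Dg i x) (hij : i ≠ j) : hcF j k x = 0 := by
  refine ev_ext fun p => ?_
  rw [ev_hcF, hcE_ne (Dg_ev h p) hij, map_zero]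

theorem Dg_hcF (x : Fm k) : Dg j (hcF j k x) := by
  induction x using Fm_hind with
  | hh i x hx =>
    by_cases h : i = j
    · subst h
      rw [hcF_same hx]
      exact hx
    · rw [hcF_ne hx h]
      exact Dg_zero
  | ha x y hx hy =>
    rw [map_add]
    exact Dg_add hx hy

theorem hcF_pb (g : Sm k l) (x : Fm l) : hcF j k (pb g x) = pb g (hcF j l x) := by
  induction x using Fm_hind with
  | hh i x hx =>
    by_cases h : i = j
    · subst h
      rw [hcF_same hx, hcF_same (Dg_pb g hx)]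
    · rw [hcF_ne hx h, hcF_ne (Dg_pb g hx) h, map_zero]
  | ha x y hx hy => simp only [map_add, hx, hy]

theorem hcF_dd (x : Fm k) : hcF (j + 1) k (dd k x) = dd k (hcF j k x) := by
  induction x using Fm_hind with
  | hh i x hx =>
    by_cases h : i = j
    · subst h
      rw [hcF_same hx, hcF_same (Dg_dd hx)]
    · rw [hcF_ne hx h, hcF_ne (Dg_dd hx) (by omega), map_zero]
  | ha x y hx hy => simp only [map_add, hx, hy]

/-- the component of degree `j` of a form on a space -/
def hcO (j : ℕ) (X : Space) : Om X →ₗ[ℝ] Om X where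
  toFun θ := mkO (fun k p => hcF j k (Om.on θ p)) (fun k l p g => by rw [on_cmp, hcF_pb])
  map_add' θ τ := Om_ext fun k p => by simp
  map_smul' r θ := Om_ext fun k p => by simp

theorem on_hcO (θ : Om X) (p : X.Plot k) : Om.on (hcO j X θ) p = hcF j k (Om.on θ p) := rfl

theorem Deg_hcO (θ : Om X) : Deg j (hcO j X θ) := fun _ _ => Dg_hcF _

theorem hcO_same {θ : Om X} (h : Deg j θ) : hcO j X θ = θ := Om_ext fun k p => hcF_same (h k p)

theorem hcO_ne {θ : Om X} (h : Deg i θ) (hij : i ≠ j) : hcO j X θ = 0 := Om_ext fun k p => hcF_ne (h k p) hij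

theorem hcO_d (θ : Om X) : hcO (j + 1) X (dO X θ) = dO X (hcO j X θ) := Om_ext fun _ _ => hcF_dd _

theorem hcO_pull (f : SMap Y X) (θ : Om X) : hcO j Y (f.pull θ) = f.pull (hcO j X θ) := rfl

theorem Bas_hcO {c : Circ X} {θ : Om X} (h : Bas c θ) : Bas c (hcO j X θ) := fun k p => by
  rw [on_hcO, h, hcF_pb, on_hcO]

/-- basic primitives may be taken homogeneous -/
theorem exists_bas_deg {c : Circ X} {w b : Om X} (hw : Deg (j + 1) w) (hb : Bas c b) (h : w = dO X b) :
    ∃ b', Deg j b' ∧ Bas c b' ∧ w = dO X b' :=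
  ⟨hcO j X b, Deg_hcO b, Bas_hcO hb, by rw [← hcO_d, ← h, hcO_same hw]⟩

/-- primitives may be taken homogeneous -/
theorem exists_deg {w b : Om X} (hw : Deg (j + 1) w) (h : w = dO X b) : ∃ b', Deg j b' ∧ w = dO X b' :=
  ⟨hcO j X b, Deg_hcO b, by rw [← hcO_d, ← h, hcO_same hw]⟩

end Pool.Agent.Lib.MP_ccbbf6_gt.K7.HP
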