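import Pool.Agent.Lib.MP_ccbbf6_gt.L4.Cmp2
import Pool.Agent.Lib.MP_ccbbf6_gt.L5.Ext0
import Pool.Agent.Lib.MP_ccbbf6_gt.L5.NZ

namespace Pool.Agent.Lib.MP_ccbbf6_gt.L5.IA
end Pool.Agent.Lib.MP_ccbbf6_gt.L5.IA

namespace Pool.Agent.Lib.MP_ccbbf6_gt.K7.HM
end Pool.Agent.Lib.MP_ccbbf6_gt.K7.HM

/-!
# `κ = 7`, block HP (`2 Y` is an integer), part 1: the maps `c ↦ f c (P c b)` (helper18)

`b` a constant vector of the ambient space of the negative bundle.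
* `hbN b : UM × R → M`, `(c, r) ↦ f c (r • P c b)`.
* `YB b` : the plot-open subspace `{c | 1 < ‖P c b‖}`; `nuN b : YB b → spN`, `c ↦ (c, P c b / ‖P c b‖)`.
* `hbN_nu` : on `YB b`, `b0 (hbN b) u = nu^* (b0 hmN u) - d (..)`.
-/

set_option autoImplicit false
set_option linter.unusedSectionVars false
set_option maxSynthPendingDepth 3

open Set Filter Topology Metric Real Module
open scoped ContDiff RealInnerProductSpace

noncomputable section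

namespace Pool.Agent.Lib.MP_ccbbf6_gt.K7.HP

open Geo L4 L4.ORI L4.FR L5 L5.NEG L5.IA HM

variable {n : ℕ} {M : Type} [MetricSpace M] [CompactSpace M] {𝒜 : SDist n M} {N κ k l : ℕ} {hB : Bl M}
  {C : Eu N → Gs M → M} {P : Gs M → Eu N →L[ℝ] Eu N} {f : Gs M → Eu N → M}

theorem smP (hN : NegData 𝒜 κ hB C P) (b : Eu N) (p : (spG 𝒜).Plot k) : ContDiff ℝ ∞ fun z => P (p.1 z) b :=
  (contDiff_iff_contDiffAt.2 fun u => hN.smooth (p.2.atP u)).clm_apply contDiff_const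

/-- `(c, r) ↦ f c (r • P c b)` -/
def hbN (hN : NegData 𝒜 κ hB C P) (hF : FillP 𝒜 C P f) (b : Eu N) : SMap (spG 𝒜).xR (spM 𝒜) :=
  ⟨fun z => f z.1 (z.2 • P z.1 b), fun k p => by
    have h1 : ContDiff ℝ ∞ fun z => P (p.1 z).1 b := smP hN b (⟨fun z => (p.1 z).1, p.2.1⟩ : (spG 𝒜).Plot k)
    exact hF.smooth p.2.1 (p.2.2.smul h1) fun u => InP_smul (hN.idem _ _) _⟩

theorem hbN_apply (hN : NegData 𝒜 κ hB C P) (hF : FillP 𝒜 C P f) (b : Eu N) (c : Gs M) (r : ℝ) :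
    (hbN hN hF b).1 (c, r) = f c (r • P c b) := rfl

/-- the set where `P c b` is longer than `1` -/
def OB (P : Gs M → Eu N →L[ℝ] Eu N) (b : Eu N) : Set (Gs M) := {c | 1 < ‖P c b‖}

theorem open_OB (hN : NegData 𝒜 κ hB C P) (b : Eu N) : OpenU (spG 𝒜) (OB P b) := fun _ p =>
  isOpen_lt continuous_const (smP hN b p).continuous.norm

/-- the subspace where `P c b` is longer than `1` -/
abbrev YB (𝒜 : SDist n M) (P : Gs M → Eu N →L[ℝ] Eu N) (b : Eu N) : Space := sub (spG 𝒜) (OB P b)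

theorem OB_ne {b : Eu N} {c : Gs M} (h : c ∈ OB P b) : P c b ≠ 0 := fun h0 => by
  have h1 : 1 < ‖P c b‖ := h
  rw [h0, norm_zero] at h1
  linarith

/-- the normalised section -/
def nuN (hN : NegData 𝒜 κ hB C P) (b : Eu N) : SMap (YB 𝒜 P b) (spN 𝒜 P) :=
  ⟨fun c => ⟨(c.1, ‖P c.1 b‖⁻¹ • P c.1 b), InP_smul (hN.idem _ _) _, by
    rw [norm_smul, norm_inv, norm_norm, inv_mul_cancel₀ (norm_ne_zero_iff.2 (OB_ne c.2))]⟩, fun k p => by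
    have h1 : ContDiff ℝ ∞ fun z => P (p.1 z).1 b := smP hN b (⟨fun z => (p.1 z).1, p.2⟩ : (spG 𝒜).Plot k)
    exact ⟨p.2, ((h1.norm ℝ fun u => OB_ne (p.1 u).2).inv fun u => norm_ne_zero_iff.2 (OB_ne (p.1 u).2)).smul h1⟩⟩

theorem nuN_val (hN : NegData 𝒜 κ hB C P) (b : Eu N) (c : (YB 𝒜 P b).pt) :
    ((nuN hN b).1 c).1 = (c.1, ‖P c.1 b‖⁻¹ • P c.1 b) := rfl

/-- the deformation of the normalisation -/
def hD (hN : NegData 𝒜 κ hB C P) (hF : FillP 𝒜 C P f) (b : Eu N) : SMap (YB 𝒜 P b).xR.xR (spM 𝒜) :=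
  ⟨fun z => f z.1.1.1 ((z.1.2 * ((1 - smoothTransition z.2) * ‖P z.1.1.1 b‖⁻¹ + smoothTransition z.2)) • P z.1.1.1 b),
    fun k p => by
    have h1 : ContDiff ℝ ∞ fun z => P (p.1 z).1.1.1 b := smP hN b (⟨fun z => (p.1 z).1.1.1, p.2.1.1⟩ : (spG 𝒜).Plot k)
    have h2 : ContDiff ℝ ∞ fun z => ‖P (p.1 z).1.1.1 b‖⁻¹ :=
      (h1.norm ℝ fun u => OB_ne (p.1 u).1.1.2).inv fun u => norm_ne_zero_iff.2 (OB_ne (p.1 u).1.1.2)
    have h3 : ContDiff ℝ ∞ fun z => smoothTransition (p.1 z).2 := smoothTransition.contDiff.comp p.2.2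
    have h4 : ContDiff ℝ ∞ fun z => (p.1 z).1.2 := p.2.1.2
    exact hF.smooth p.2.1.1 ((h4.mul (((contDiff_const.sub h3).mul h2).add h3)).smul h1) fun u =>
      InP_smul (hN.idem _ _) _⟩

theorem hD_apply (hN : NegData 𝒜 κ hB C P) (hF : FillP 𝒜 C P f) (b : Eu N) (c : (YB 𝒜 P b).pt) (r s : ℝ) :
    (hD hN hF b).1 ((c, r), s) =
      f c.1 ((r * ((1 - smoothTransition s) * ‖P c.1 b‖⁻¹ + smoothTransition s)) • P c.1 b) := rfl

theorem hD_one (hN : NegData 𝒜 κ hB C P) (hF : FillP 𝒜 C P f) (b : Eu N) :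
    (hD hN hF b).comp (jO (YB 𝒜 P b).xR 1) = (hbN hN hF b).comp (inU (spG 𝒜) (OB P b)).up := SMap_ext fun z => by
  change f z.1.1 ((z.2 * ((1 - smoothTransition 1) * ‖P z.1.1 b‖⁻¹ + smoothTransition 1)) • P z.1.1 b) = f z.1.1 (z.2 • P z.1.1 b)
  rw [smoothTransition.one, sub_self, zero_mul, zero_add, mul_one]

theorem hD_zero (hN : NegData 𝒜 κ hB C P) (hF : FillP 𝒜 C P f) (b : Eu N) :
    (hD hN hF b).comp (jO (YB 𝒜 P b).xR 0) = (hmN hF).comp (nuN hN b).up := SMap_ext fun z => by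
  change f z.1.1 ((z.2 * ((1 - smoothTransition 0) * ‖P z.1.1 b‖⁻¹ + smoothTransition 0)) • P z.1.1 b) =
    f z.1.1 (z.2 • ‖P z.1.1 b‖⁻¹ • P z.1.1 b)
  rw [smoothTransition.zero, sub_zero, one_mul, add_zero, mul_smul]

theorem hD_r1 (hN : NegData 𝒜 κ hB C P) (hF : FillP 𝒜 C P f) (b : Eu N) :
    (hD hN hF b).comp (jO (YB 𝒜 P b) 1).up = (((hmN hF).comp (jO _ 1)).comp (nuN hN b)).comp (pO (YB 𝒜 P b)) :=
  SMap_ext fun z => by
  change f z.1.1 ((1 * ((1 - smoothTransition z.2) * ‖P z.1.1 b‖⁻¹ + smoothTransition z.2)) • P z.1.1 b) =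
    f z.1.1 ((1 : ℝ) • ‖P z.1.1 b‖⁻¹ • P z.1.1 b)
  have h0 : 1 < ‖P z.1.1 b‖ := z.1.2
  have h1 := smoothTransition.nonneg z.2
  have h2 := smoothTransition.le_one z.2
  have h3 : 0 < (1 - smoothTransition z.2) * ‖P z.1.1 b‖⁻¹ + smoothTransition z.2 := by
    have h4 : 0 < ‖P z.1.1 b‖⁻¹ := inv_pos.2 (by linarith)
    rcases eq_or_lt_of_le h1 with h5 | h5
    · rw [← h5]
      simpa using (by linarith : (0 : ℝ) < ‖P z.1.1 b‖)
    · have h6 : 0 ≤ (1 - smoothTransition z.2) * ‖P z.1.1 b‖⁻¹ := mul_nonneg (by linarith) h4.le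
      linarith
  have hn : ‖((1 - smoothTransition z.2) * ‖P z.1.1 b‖⁻¹ + smoothTransition z.2) • P z.1.1 b‖ =
      ((1 - smoothTransition z.2) * ‖P z.1.1 b‖⁻¹ + smoothTransition z.2) * ‖P z.1.1 b‖ := by
    rw [norm_smul, Real.norm_of_nonneg h3.le]
  have hn1 : ((1 - smoothTransition z.2) * ‖P z.1.1 b‖⁻¹ + smoothTransition z.2) * ‖P z.1.1 b‖ =
      (1 - smoothTransition z.2) + smoothTransition z.2 * ‖P z.1.1 b‖ := by
    rw [add_mul, mul_assoc, inv_mul_cancel₀ (by linarith), mul_one]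
  rw [one_mul, one_smul, hF.radial z.1.1 _ (InP_smul (hN.idem _ _) _) (by
    rw [hn, hn1]
    nlinarith), hn, smul_smul]
  congr 2
  rw [mul_inv, mul_right_comm, inv_mul_cancel₀ h3.ne', one_mul]

theorem hD_r0 (hN : NegData 𝒜 κ hB C P) (hF : FillP 𝒜 C P f) (b : Eu N) :
    (hD hN hF b).comp (jO (YB 𝒜 P b) 0).up = (((hmN hF).comp (jO _ 0)).comp (nuN hN b)).comp (pO (YB 𝒜 P b)) :=
  SMap_ext fun z => by
  change f z.1.1 ((0 * ((1 - smoothTransition z.2) * ‖P z.1.1 b‖⁻¹ + smoothTransition z.2)) • P z.1.1 b) =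
    f z.1.1 ((0 : ℝ) • ‖P z.1.1 b‖⁻¹ • P z.1.1 b)
  rw [zero_mul, zero_smul, zero_smul]

/-- **comparison of the two homotopies** -/
theorem hbN_nu (hN : NegData 𝒜 κ hB C P) (hF : FillP 𝒜 C P f) (b : Eu N) {u : Om (spM 𝒜)} {j : ℕ}
    (hu : Deg (j + 1 + 1) u) (du : dO _ u = 0) :
    ∃ ξ : Om (YB 𝒜 P b), Deg j ξ ∧
      (inU (spG 𝒜) (OB P b)).pull (b0 (hbN hN hF b) u) = (nuN hN b).pull (b0 (hmN hF) u) + dO _ ξ := by
  obtain ⟨U, hU⟩ : ∃ U, U = (hD hN hF b).pull u := ⟨_, rfl⟩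
  have hU1 : Deg (j + 1 + 1) U := by rw [hU]; exact Deg_pull _ hu
  have dU : dO _ U = 0 := by rw [hU, pull_d, du, map_zero]
  have e1 := d_K (X := (YB 𝒜 P b).xR) U
  rw [dU, map_zero, add_zero] at e1
  have h1 : (jO (YB 𝒜 P b).xR 1).pull U = (inU (spG 𝒜) (OB P b)).up.pull ((hbN hN hF b).pull u) := by
    rw [hU, ← pull_comp, hD_one, pull_comp]
  have h0 : (jO (YB 𝒜 P b).xR 0).pull U = (nuN hN b).up.pull ((hmN hF).pull u) := by
    rw [hU, ← pull_comp, hD_zero, pull_comp]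
  have e2 := d_K (X := YB 𝒜 P b) (KO (YB 𝒜 P b).xR U)
  have h2 : (jO (YB 𝒜 P b) 1).pull (KO (YB 𝒜 P b).xR U) = 0 := by
    rw [← K_up, hU, ← pull_comp, hD_r1, pull_comp, K_p]
  have h3 : (jO (YB 𝒜 P b) 0).pull (KO (YB 𝒜 P b).xR U) = 0 := by
    rw [← K_up, hU, ← pull_comp, hD_r0, pull_comp, K_p]
  rw [e1, h1, h0, map_sub, K_up, K_up, h2, h3, sub_zero] at e2
  refine ⟨-(KO (YB 𝒜 P b) (KO (YB 𝒜 P b).xR U)), Deg_neg (Deg_K (Deg_K hU1)), ?_⟩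
  rw [map_neg]
  have e3 : (inU (spG 𝒜) (OB P b)).pull (KO (spG 𝒜) ((hbN hN hF b).pull u)) =
      (nuN hN b).pull (KO (spN 𝒜 P) ((hmN hF).pull u)) - dO _ (KO (YB 𝒜 P b) (KO (YB 𝒜 P b).xR U)) := by
    rw [eq_sub_iff_add_eq, ← sub_eq_zero, ← e2]
    abel
  unfold b0
  rw [e3, sub_eq_add_neg]

end Pool.Agent.Lib.MP_ccbbf6_gt.K7.HP
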