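import Pool.Agent.Lib.MP_ccbbf6_gt.K7.HM3
import Pool.Agent.Lib.MP_ccbbf6_gt.K7.HP1
import Pool.Agent.Lib.MP_ccbbf6_gt.L4.AL
import Pool.Agent.Lib.MP_ccbbf6_gt.L5.PER08

/-!
# `κ = 7`, block HP (`2 Y` is an integer), part 2: faces (helper18)

* `clp m` : coordinatewise clamp of `V m` to the box `[-1, 2]^m`; it respects the face conditions and the integrals over the cube.
* `FT.sub` : face conditions in plot-open subspaces; `Nxt.good_op` : the orbits of a stage form a good cube.
* `int_hb` : `∫_W (hbN b ∘ (r = 1))^* u` is an integer.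
-/

set_option autoImplicit false
set_option linter.unusedSectionVars false
set_option maxSynthPendingDepth 3

open Set Filter Topology Metric Real Module MeasureTheory
open scoped ContDiff RealInnerProductSpace

noncomputable section

namespace Pool.Agent.Lib.MP_ccbbf6_gt.K7.HP

open Geo L4 L4.ORI L4.FR L5 L5.NEG L5.IA HM

variable {X : Space} {k l m r j : ℕ} {i : Fin k} {a : ℝ}

/-- coordinatewise clamp to the box `[-1, 2]` -/
def clp (m : ℕ) : FR.Sm m m := ⟨fun x i => DB.tau 1 (x i), contDiff_pi.2 fun i =>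
  (DB.contDiff_tau 1).comp (contDiff_apply ℝ ℝ i)⟩

theorem clp_apply (x : V m) (i : Fin m) : clp m x i = DB.tau 1 (x i) := rfl

theorem clp_box (x : V m) (i : Fin m) : clp m x i ∈ Icc (-1 : ℝ) 2 := by
  have h := DB.tau_bd one_pos (x i)
  rw [clp_apply]
  exact ⟨h.1, by linarith [h.2]⟩

theorem tau_c {c : ℝ} (hc : c = 0 ∨ c = 1) : DB.tau 1 c = c := by
  rcases hc with rfl | rfl
  · exact DB.tau_id one_pos le_rfl zero_le_one
  · exact DB.tau_id one_pos zero_le_one le_rfl

theorem clp_update (x : V m) (i : Fin m) {c : ℝ} (hc : c = 0 ∨ c = 1) :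
    clp m (Function.update x i c) = Function.update (clp m x) i c := by
  funext j
  rw [clp_apply]
  by_cases h : j = i
  · subst h
    rw [Function.update_self, Function.update_self, tau_c hc]
  · rw [Function.update_of_ne h, Function.update_of_ne h, clp_apply]

theorem agr_clp {w : X.Plot k} (h : Agr w i) : Agr (w.cmp (clp k)) i := fun x => by
  change w.1 (clp k (Function.update x i 1)) = w.1 (clp k (Function.update x i 0))
  rw [clp_update _ _ (Or.inr rfl), clp_update _ _ (Or.inl rfl)]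
  exact h _

theorem thn_clp {w : X.Plot k} (h : Thn r w i a) (ha : a = 0 ∨ a = 1) : Thn r (w.cmp (clp k)) i a := fun x => by
  have h1 : (w.cmp (clp k)).cmp (cst i a) = (w.cmp (cst i a)).cmp (clp k) := Plot_ext fun z => by
    change w.1 (clp k (Function.update z i a)) = w.1 (Function.update (clp k z) i a)
    rw [clp_update _ _ ha]
  rw [h1]
  exact (h _).cmp

theorem ft_clp {w : X.Plot k} (h : FT w i) : FT (w.cmp (clp k)) i := by
  rcases h with h | ⟨m, hm, h0, h1⟩
  · exact Or.inl (agr_clp h)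
  · exact Or.inr ⟨m, hm, thn_clp h0 (Or.inl rfl), thn_clp h1 (Or.inr rfl)⟩

theorem cI_clp (θ : Om X) (w : X.Plot k) : cI k (Om.on θ (w.cmp (clp k))) = cI k (Om.on θ w) := by
  refine PE.cI_congr_int fun x hx => ?_
  rw [ev_local]
  filter_upwards [PE.eventually_Ioo hx] with z hz
  funext i
  rw [clp_apply]
  exact DB.tau_id one_pos (hz i).1.le (hz i).2.le

/-- face conditions in a plot-open subspace -/
theorem ft_sub {U : Set X.pt} (hU : OpenU X U) {p : (sub X U).Plot k} (h : FT ((inU X U).pl p) i) : FT p i := by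
  rcases h with h | ⟨m, hm, h0, h1⟩
  · exact Or.inl fun x => Subtype.ext (h x)
  · exact Or.inr ⟨m, hm, fun x => thin_sub hU _ (h0 x), fun x => thin_sub hU _ (h1 x)⟩

/-- **the orbits of a stage** -/
theorem good_op {c : Circ X} {w : X.Plot k} {w' : X.Plot (k + 1 + 1)} (hN : Nxt c w w') : Good (c.op w') := by
  intro i
  refine Fin.lastCases ?_ (fun i => ?_) i
  · left
    intro x
    rw [update_last, update_last]
    change c.a.1 (w'.1 (pr (k + 1 + 1) (Fin.snoc (pr (k + 1 + 1) x) 1)), (Fin.snoc (pr (k + 1 + 1) x) 1 : V (k + 1 + 1 + 1)) (Fin.last _)) =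
      c.a.1 (w'.1 (pr (k + 1 + 1) (Fin.snoc (pr (k + 1 + 1) x) 0)), (Fin.snoc (pr (k + 1 + 1) x) 0 : V (k + 1 + 1 + 1)) (Fin.last _))
    rw [pr_snoc, pr_snoc, Fin.snoc_last, Fin.snoc_last]
    have h3 := c.one (w'.1 (pr (k + 1 + 1) x)) 0
    rwa [zero_add] at h3
  · refine Fin.lastCases ?_ (fun i => ?_) i
    · refine Or.inr ⟨k + 1, le_rfl, fun x => ?_, fun x => ?_⟩
      · rw [op_cst, hN.bot', op_cmp, op_op]
        exact ((thin_dim (c.op w) _ le_rfl).cmp).cmp
      · rw [op_cst]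
        exact Thin.op c (hN.top _)
    · rcases hN.lat i with h | ⟨m, hm, h0, h1⟩
      · left
        intro x
        change c.a.1 (w'.1 (pr (k + 1 + 1) (Function.update x i.castSucc.castSucc 1)), Function.update x i.castSucc.castSucc 1 (Fin.last _)) =
          c.a.1 (w'.1 (pr (k + 1 + 1) (Function.update x i.castSucc.castSucc 0)), Function.update x i.castSucc.castSucc 0 (Fin.last _))
        rw [pr_update, pr_update, update_castSucc_last, update_castSucc_last, h]
      · refine Or.inr ⟨m + 1, by omega, fun x => ?_, fun x => ?_⟩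
        · rw [op_cst]
          exact Thin.op c (h0 _)
        · rw [op_cst]
          exact Thin.op c (h1 _)

/-- a face which is thin near a point -/
theorem thin_top {w : X.Plot k} {x : V k} (h : Thin r (w.cmp (cst i a)) x) {θ : Om X} (hθ : Deg j θ) (hr : r < j)
    (hx : x i = a) : topE k (ee i * FR.ev x (Om.on θ w)) = 0 := by
  have h1 : FR.ev x (pb (cst i a) (Om.on θ w)) = 0 := by
    rw [← on_cmp]
    exact h.ev hθ hr
  have h2 := ee_ev_cst i a x (Om.on θ w)
  rw [h1, mul_zero] at h2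
  have h3 : Function.update x i a = x := by
    rw [← hx]
    exact Function.update_eq_self _ _
  rw [h3] at h2
  rw [← h2, map_zero]

variable {n : ℕ} {M : Type} [MetricSpace M] [CompactSpace M] {𝒜 : SDist n M} {N κ : ℕ} {hB : Bl M}
  {C : Eu N → Gs M → M} {P : Gs M → Eu N →L[ℝ] Eu N} {f : Gs M → Eu N → M}

theorem fm_of_ft {F : (spM 𝒜).Plot (r + 1)} {i : Fin (r + 1)} (h : FT F i) : FM F i := by
  rcases h with h | ⟨m, hm, h0, h1⟩
  · exact Or.inl h.fok
  · refine Or.inr fun c hc th hth x _ hxi => ?_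
    rcases hc with rfl | rfl
    · exact h0.top hth (by omega) hxi
    · exact h1.top hth (by omega) hxi

/-- the map `c ↦ f c (P c b)` -/
def PhB (hN : NegData 𝒜 κ hB C P) (hF : FillP 𝒜 C P f) (b : Eu N) : SMap (spG 𝒜) (spM 𝒜) :=
  (hbN hN hF b).comp (jO (spG 𝒜) 1)

theorem PhB_inv (hN : NegData 𝒜 κ hB C P) (hF : FillP 𝒜 C P f) (b : Eu N) {c : Gs M} (h : 1 ≤ ‖P c b‖) (t : ℝ) :
    (PhB hN hF b).1 (shift t c) = (PhB hN hF b).1 c := by
  change f (shift t c) ((1 : ℝ) • P (shift t c) b) = f c ((1 : ℝ) • P c b)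
  rw [hN.inv, one_smul]
  exact hF.inv c _ t (hN.idem _ _) h

variable {u : Om (spM 𝒜)} {g : (spVF 𝒜 (k + 1)).pt → ℝ}

/-- **integrality of the pushed cubes** -/
theorem int_hb (hk : 𝒜.HK (k + 1)) (hodd : Odd (k + 1)) (h2 : 1 ≤ k) (hrn : k + 1 + 1 < n) (hU : UD 𝒜 hB (k + 1) u g)
    (hN : NegData 𝒜 (k + 1) hB C P) (hF : FillP 𝒜 C P f) {w : (spG 𝒜).Plot k} {W : (spG 𝒜).Plot (k + 1 + 1)}
    (h : Nxt (circPhi hB 𝒜) w W) {b : Eu N} (hb : ∀ x ∈ Icc (0 : V k) 1, 1 < ‖P (w.1 x) b‖) :
    ∃ m : ℤ, cI (k + 1 + 1) (Om.on ((PhB hN hF b).pull u) W) = m := by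
  have h1 := per (u := u) (g := g) hk hodd (by omega) hrn hU ((PhB hN hF b).pl W) fun i => by
    refine Fin.lastCases ?_ (fun i => ?_) i
    · refine Or.inr fun c hc th hth x hx hxi => ?_
      rcases hc with rfl | rfl
      · refine thin_top (r := k) ?_ hth (Nat.lt_succ_self k) hxi
        have e1 : ((PhB hN hF b).pl W).cmp (cst (Fin.last (k + 1)) 0) =
            ((PhB hN hF b).pl ((circPhi hB 𝒜).op w)).cmp (pr (k + 1)) := by
          rw [← pl_cmp, h.bot', pl_cmp]
        rw [e1]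
        refine ⟨(PhB hN hF b).pl w, (pr k).comp (pr (k + 1)), ?_⟩
        have e2 : ContinuousAt (fun y : V (k + 1 + 1) => ‖P (w.1 (pr k (pr (k + 1) y))) b‖) x :=
          (((smP hN b w).continuous.norm).comp ((pr k).smooth.continuous.comp (pr (k + 1)).smooth.continuous)).continuousAt
        have e3 : (1 : ℝ) < ‖P (w.1 (pr k (pr (k + 1) x))) b‖ := hb _ ⟨fun i => hx.1 _, fun i => hx.2 _⟩
        filter_upwards [e2.eventually (lt_mem_nhds e3)] with y hy
        exact PhB_inv hN hF b hy.le _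
      · exact (h.top.pl _).top hth (Nat.lt_succ_self k) hxi
    · exact fm_of_ft ((h.lat i).pl _)
  exact h1

end Pool.Agent.Lib.MP_ccbbf6_gt.K7.HP
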