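import Pool.Agent.Lib.MP_ccbbf6_gt.K7.HP1
import Pool.Agent.Lib.MP_ccbbf6_gt.L5.EPS07

/-!
# `κ = 7`, block HP (`2 Y` is an integer), part 3: a generic vector (helper18)
-/

set_option autoImplicit false
set_option linter.unusedSectionVars false
set_option maxSynthPendingDepth 3

open Set Filter Topology Metric Real Module MeasureTheory
open scoped ContDiff RealInnerProductSpace

noncomputable section

namespace Pool.Agent.Lib.MP_ccbbf6_gt.K7.HP

open Geo L4 L4.ORI L4.FR L5 L5.NEG L5.IA HM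

variable {n : ℕ} {M : Type} [MetricSpace M] [CompactSpace M] {𝒜 : SDist n M} {N κ k : ℕ} {hB : Bl M}
  {C : Eu N → Gs M → M} {P : Gs M → Eu N →L[ℝ] Eu N} {f : Gs M → Eu N → M}

/-- the affine map of the unit cube to the box `[-1, 2]` -/
def aff (k : ℕ) : FR.Sm k k := ⟨fun x i => 3 * x i - 1, contDiff_pi.2 fun i =>
  (contDiff_const.mul (contDiff_apply ℝ ℝ i)).sub contDiff_const⟩

/-- a vector whose projection does not vanish along the box -/
theorem exists_b0 (hN : NegData 𝒜 κ hB C P) (hk : k < κ) (w : (spG 𝒜).Plot k) :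
    ∃ b : Eu N, ∀ y : V k, (∀ i, y i ∈ Icc (-1 : ℝ) 2) → P (w.1 y) b ≠ 0 := by
  obtain ⟨Q, hQ⟩ : ∃ Q : V k → Eu N →L[ℝ] Eu N, Q = fun x => ContinuousLinearMap.id ℝ (Eu N) - P (w.1 (aff k x)) := ⟨_, rfl⟩
  have hQs : ContDiff ℝ ∞ Q := by
    rw [hQ]
    refine contDiff_const.sub ?_
    have h1 : ContDiff ℝ ∞ fun y => P (w.1 y) := contDiff_iff_contDiffAt.2 fun u => hN.smooth (w.2.atP u)
    exact h1.comp (aff k).smooth
  have hPP : ∀ c, (P c).comp (P c) = P c := fun c => ContinuousLinearMap.ext fun x => hN.idem c x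
  have hQi : ∀ z, (Q z).comp (Q z) = Q z := fun z => ContinuousLinearMap.ext fun x => by
    rw [hQ]
    change (x - P _ x) - P _ (x - P _ x) = x - P _ x
    rw [map_sub, hN.idem, sub_self, sub_zero]
  have hrN : κ ≤ N := by
    have h1 := Submodule.finrank_le (LinearMap.range (P (w.1 0) : Eu N →ₗ[ℝ] Eu N))
    rw [hN.rank, finrank_euclideanSpace_fin] at h1
    exact h1
  have hfr : ∀ z, finrank ℝ (LinearMap.range (Q z : Eu N →ₗ[ℝ] Eu N)) = N - κ := by
    intro z
    have h1 : LinearMap.range (Q z : Eu N →ₗ[ℝ] Eu N) = LinearMap.ker (P (w.1 (aff k z)) : Eu N →ₗ[ℝ] Eu N) := by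
      refine le_antisymm ?_ fun x hx => ?_
      · rintro _ ⟨x, rfl⟩
        rw [LinearMap.mem_ker, hQ]
        change P _ (x - P _ x) = 0
        rw [map_sub, hN.idem, sub_self]
      · refine ⟨x, ?_⟩
        rw [hQ]
        change x - P _ x = x
        have h2 : P (w.1 (aff k z)) x = 0 := hx
        rw [h2, sub_zero]
    rw [h1]
    have h2 := LinearMap.finrank_range_add_finrank_ker (P (w.1 (aff k z)) : Eu N →ₗ[ℝ] Eu N)
    rw [hN.rank, finrank_euclideanSpace_fin] at h2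
    omega
  obtain ⟨κ', B, hκ', hBs, -, hQB, hinj⟩ := exists_frame (Q := Q) hQs hQi
    (L0 := (LinearMap.range (Q 0 : Eu N →ₗ[ℝ] Eu N)).subtypeL) (by
      ext1 v
      obtain ⟨u, hu⟩ := v.2
      show (Q 0) v.1 = v.1
      rw [← hu]
      exact congrArg (fun L : Eu N →L[ℝ] Eu N => L u) (hQi 0)) (fun a ha => Subtype.ext ha)
  have hS : dimH (range fun y : V k × (LinearMap.range (Q 0 : Eu N →ₗ[ℝ] Eu N)) => B y.1 y.2) < finrank ℝ (Eu N) := by
    have h1 : ContDiff ℝ 1 (fun y : V k × (LinearMap.range (Q 0 : Eu N →ₗ[ℝ] Eu N)) => B y.1 y.2) :=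
      ((hBs.comp contDiff_fst).clm_apply contDiff_snd).of_le (by simp)
    refine lt_of_le_of_lt h1.dimH_range_le ?_
    rw [finrank_prod, hfr 0, finrank_fintype_fun_eq_card, Fintype.card_fin, finrank_euclideanSpace_fin]
    have : k + (N - κ) < N := by omega
    exact_mod_cast this
  obtain ⟨b, hb⟩ := (dense_compl_of_dimH_lt_finrank hS).nonempty
  refine ⟨b, fun y hy h0 => hb ?_⟩
  -- the point of the unit cube
  obtain ⟨x, hx, hxy⟩ : ∃ x ∈ Icc (0 : V k) 1, aff k x = y := by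
    refine ⟨fun i => (y i + 1) / 3, ⟨fun i => ?_, fun i => ?_⟩, funext fun i => ?_⟩
    · change (0 : ℝ) ≤ (y i + 1) / 3
      have := (hy i).1
      linarith
    · change (y i + 1) / 3 ≤ (1 : ℝ)
      have := (hy i).2
      linarith
    · change 3 * ((y i + 1) / 3) - 1 = y i
      ring
  have hκx : κ' x = x := (hκ' x hx).self_of_nhds
  have h1 : Q x b = b := by
    rw [hQ]
    change b - P (w.1 (aff k x)) b = b
    rw [hxy, h0, sub_zero]
  have h2 : LinearMap.range (B x).toLinearMap = LinearMap.range (Q x : Eu N →ₗ[ℝ] Eu N) := by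
    refine Submodule.eq_of_le_of_finrank_eq ?_ ?_
    · rintro v ⟨a, rfl⟩
      refine ⟨B x a, ?_⟩
      have h3 := congrArg (fun L : _ →L[ℝ] (Eu N) => L a) (hQB x)
      rw [hκx] at h3
      exact h3
    · rw [hfr x, LinearMap.finrank_range_of_inj, hfr 0]
      exact (injective_iff_map_eq_zero (B x)).2 (hinj x)
  have h3 : b ∈ LinearMap.range (B x).toLinearMap := by
    rw [h2]
    exact ⟨b, h1⟩
  obtain ⟨a, ha⟩ := h3
  exact ⟨(x, a), ha⟩

/-- **a vector whose projection is longer than `1` along the box** -/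
theorem exists_b (hN : NegData 𝒜 κ hB C P) (hk : k < κ) (w : (spG 𝒜).Plot k) :
    ∃ b : Eu N, ∀ y : V k, (∀ i, y i ∈ Icc (-1 : ℝ) 2) → 1 < ‖P (w.1 y) b‖ := by
  obtain ⟨b, hb⟩ := exists_b0 hN hk w
  have hK : IsCompact (Icc (fun _ => -1 : V k) (fun _ => 2)) := isCompact_Icc
  have hK0 : (Icc (fun _ => -1 : V k) (fun _ => 2)).Nonempty := ⟨fun _ => 0, fun _ => by norm_num, fun _ => by norm_num⟩
  have hc : Continuous fun y : V k => ‖P (w.1 y) b‖ := (smP hN b w).continuous.norm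
  obtain ⟨y0, hy0, hmin⟩ := hK.exists_isMinOn hK0 hc.continuousOn
  have h0 : 0 < ‖P (w.1 y0) b‖ := norm_pos_iff.2 (hb y0 fun i => ⟨hy0.1 i, hy0.2 i⟩)
  refine ⟨(2 / ‖P (w.1 y0) b‖) • b, fun y hy => ?_⟩
  have h1 : ‖P (w.1 y0) b‖ ≤ ‖P (w.1 y) b‖ := hmin ⟨fun i => (hy i).1, fun i => (hy i).2⟩
  rw [map_smul, norm_smul, Real.norm_of_nonneg (by positivity), div_mul_eq_mul_div, lt_div_iff₀ h0]
  linarith

end Pool.Agent.Lib.MP_ccbbf6_gt.K7.HP
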