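import Pool.Agent.Lib.MP_ccbbf6_gt.K7.HP0
import Pool.Agent.Lib.MP_ccbbf6_gt.K7.HP2
import Pool.Agent.Lib.MP_ccbbf6_gt.K7.HP3
import Pool.Agent.Lib.MP_ccbbf6_gt.L5.NY

/-!
# `κ = 7`, block HP (`2 Y` is an integer), part 4: **integrality** (helper18)

`int_y` : `y = foot^* u + dβ`, `pr^* y = (z_+^* u + z_-^* u) / 2 + d (basic)` on the sphere bundle of the negative bundle, closed
forms of degree `κ` on it are exact, `w'`, `w`, `W` three consecutive stages (`W` of dimension `κ + 1`) `⟹ 2 ∫_W y` is an integer.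
-/

set_option autoImplicit false
set_option linter.unusedSectionVars false
set_option maxSynthPendingDepth 3

open Set Filter Topology Metric Real Module MeasureTheory
open scoped ContDiff RealInnerProductSpace

noncomputable section

namespace Pool.Agent.Lib.MP_ccbbf6_gt.K7.HP

open Geo L4 L4.ORI L4.FR L5 L5.NEG L5.IA HM

variable {n : ℕ} {M : Type} [MetricSpace M] [CompactSpace M] {𝒜 : SDist n M} {N κ k : ℕ} {hB : Bl M}
  {C : Eu N → Gs M → M} {P : Gs M → Eu N →L[ℝ] Eu N} {f : Gs M → Eu N → M} {u : Om (spM 𝒜)}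

theorem f_zero (hF : FillP 𝒜 C P f) (hC : PFam 𝒜 C) (c : Gs M) : f c 0 = c.1 0 := by
  obtain ⟨θ, r, -, hr, h⟩ := hF.near
  rw [h c 0 (map_zero (P c)) (by rw [norm_zero]; exact hr.le), smul_zero, hC.Cx_zero]

theorem hbN_zero (hN : NegData 𝒜 κ hB C P) (hF : FillP 𝒜 C P f) (b : Eu N) :
    (hbN hN hF b).comp (jO (spG 𝒜) 0) = foot hB 0 := SMap_ext fun c => by
  change f c ((0 : ℝ) • P c b) = (show Gs M from c).1 0
  rw [zero_smul]
  exact f_zero hF hN.fam c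

theorem d_hbN (hN : NegData 𝒜 κ hB C P) (hF : FillP 𝒜 C P f) (b : Eu N) (du : dO _ u = 0) :
    dO _ (b0 (hbN hN hF b) u) = (PhB hN hF b).pull u - (foot hB 0).pull u := by
  have h := d_K (X := spG 𝒜) ((hbN hN hF b).pull u)
  rw [pull_d, du, map_zero, map_zero, add_zero] at h
  unfold b0
  rw [h, ← pull_comp, ← pull_comp, hbN_zero]
  rfl

theorem d_hmN (hN : NegData 𝒜 κ hB C P) (hF : FillP 𝒜 C P f) (du : dO _ u = 0) :
    dO _ (b0 (hmN hF) u) = (zpN hF).pull u - (prN 𝒜 P).pull ((foot hB 0).pull u) := by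
  have h := d_K (X := spN 𝒜 P) ((hmN hF).pull u)
  rw [pull_d, du, map_zero, map_zero, add_zero] at h
  have h0 : (hmN hF).comp (jO (spN 𝒜 P) 0) = (foot hB 0).comp (prN 𝒜 P) := SMap_ext fun z => hmN_zero hF hN.fam z
  unfold b0
  rw [h, ← pull_comp, ← pull_comp, h0, pull_comp]
  rfl

/-- the inclusion of plot-open subspaces -/
def subM (X : Space) {U U' : Set X.pt} (h : U ⊆ U') : SMap (sub X U) (sub X U') := ⟨fun c => ⟨c.1, h c.2⟩, fun _ p => p.2⟩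

theorem subM_in (X : Space) {U U' : Set X.pt} (h : U ⊆ U') (θ : Om X) :
    (subM X h).pull ((inU X U').pull θ) = (inU X U).pull θ := rfl

theorem OB_neg (P : Gs M → Eu N →L[ℝ] Eu N) (b : Eu N) : OB P b ⊆ OB P (-b) := fun c h => by
  unfold OB at h ⊢
  rw [mem_setOf_eq] at h ⊢
  rw [map_neg, norm_neg]
  exact h

/-- `YB b = YB (-b)` -/
def negY (𝒜 : SDist n M) (P : Gs M → Eu N →L[ℝ] Eu N) (b : Eu N) : SMap (YB 𝒜 P b) (YB 𝒜 P (-b)) :=
  subM (spG 𝒜) (OB_neg P b)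

theorem nu_neg (hN : NegData 𝒜 κ hB C P) (b : Eu N) :
    (nuN hN (-b)).comp (negY 𝒜 P b) = (antN 𝒜 P).comp (nuN hN b) := SMap_ext fun c => by
  refine Subtype.ext (Prod.ext rfl ?_)
  change ‖P c.1 (-b)‖⁻¹ • P c.1 (-b) = -(‖P c.1 b‖⁻¹ • P c.1 b)
  rw [map_neg, norm_neg, smul_neg]

theorem pr_ant (θ : Om (spG 𝒜)) : (antN 𝒜 P).pull ((prN 𝒜 P).pull θ) = (prN 𝒜 P).pull θ := by
  rw [← pull_comp]
  have h : (prN 𝒜 P).comp (antN 𝒜 P) = prN 𝒜 P := SMap_ext fun _ => rfl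
  rw [h]

theorem pr_nu (hN : NegData 𝒜 κ hB C P) (b : Eu N) (θ : Om (spG 𝒜)) :
    (nuN hN b).pull ((prN 𝒜 P).pull θ) = (inU (spG 𝒜) (OB P b)).pull θ := by
  rw [← pull_comp]
  have h : (prN 𝒜 P).comp (nuN hN b) = inU (spG 𝒜) (OB P b) := SMap_ext fun _ => rfl
  rw [h]

/-- clamp of the last coordinate -/
def tl (m : ℕ) : FR.Sm (m + 1) (m + 1) := ⟨fun z => Fin.snoc (pr m z) (DB.tau 1 (z (Fin.last m))), contDiff_pi.2 fun i => by
  refine Fin.lastCases ?_ (fun i => ?_) i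
  · simp only [Fin.snoc_last]
    exact (DB.contDiff_tau 1).comp (contDiff_apply ℝ ℝ _)
  · simp only [Fin.snoc_castSucc]
    exact contDiff_apply ℝ ℝ i.castSucc⟩

theorem tl_apply (m : ℕ) (z : V (m + 1)) : tl m z = Fin.snoc (pr m z) (DB.tau 1 (z (Fin.last m))) := rfl

/-- basic forms vanish on the clamped orbits -/
theorem bas_op (hN : NegData 𝒜 κ hB C P) {b : Eu N} {w : (spG 𝒜).Plot k}
    (hb : ∀ y : V k, (∀ i, y i ∈ Icc (-1 : ℝ) 2) → 1 < ‖P (w.1 y) b‖) {β : Om (spN 𝒜 P)} (hβ : Bas (circN hB hN) β)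
    (hd : Deg (k + 1) β) (p : (YB 𝒜 P b).Plot (k + 1))
    (hp : ∀ z, (p.1 z).1 = ((circPhi hB 𝒜).op w).1 (clp (k + 1) z)) : Om.on ((nuN hN b).pull β) p = 0 := by
  let vY : (YB 𝒜 P b).Plot k := ⟨fun x => ⟨w.1 (clp k x), hb _ fun i => clp_box x i⟩, (spG 𝒜).pre w.2 (clp k)⟩
  have h1 : (nuN hN b).pl p = ((circN hB hN).op ((nuN hN b).pl vY)).cmp (tl k) := Plot_ext fun z => by
    have e1 : (p.1 z).1 = shift (2 * π * DB.tau 1 (z (Fin.last k))) (w.1 (clp k (pr k z))) := hp z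
    have e2 : (tl k z) (Fin.last k) = DB.tau 1 (z (Fin.last k)) := by rw [tl_apply, Fin.snoc_last]
    have e3 : pr k (tl k z) = pr k z := by rw [tl_apply, pr_snoc]
    refine Subtype.ext (Prod.ext ?_ ?_)
    · change (p.1 z).1 = shift (2 * π * (tl k z) (Fin.last k)) (w.1 (clp k (pr k (tl k z))))
      rw [e1, e2, e3]
    · change ‖P (p.1 z).1 b‖⁻¹ • P (p.1 z).1 b =
        ‖P (w.1 (clp k (pr k (tl k z)))) b‖⁻¹ • P (w.1 (clp k (pr k (tl k z)))) b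
      rw [e1, e3, hN.inv]
  rw [on_pull, h1, on_cmp, hβ, Dg_big (Nat.lt_succ_self k) (hd k _), map_zero, map_zero]

variable {g : (spVF 𝒜 (k + 1 + 1 + 1)).pt → ℝ}

/-- **the integral of `2 y` over a stage is an integer** -/
theorem int_y (hk : 𝒜.HK (k + 1 + 1 + 1)) (hodd : Odd (k + 1 + 1 + 1)) (hrn : k + 1 + 1 + 1 + 1 < n)
    (hU : UD 𝒜 hB (k + 1 + 1 + 1) u g) (hN : NegData 𝒜 (k + 1 + 1 + 1) hB C P) (hF : FillP 𝒜 C P f)
    (hex : ∀ ζ : Om (spN 𝒜 P), Deg (k + 1 + 1 + 1) ζ → dO _ ζ = 0 → ∃ γ, Deg (k + 1 + 1) γ ∧ ζ = dO _ γ)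
    {y β : Om (spG 𝒜)} (hβ : Deg (k + 1 + 1 + 1) β) (hyβ : y = (foot hB 0).pull u + dO _ β)
    (hy : ∃ e, Bas (circN hB hN) e ∧
      (prN 𝒜 P).pull y = (1 / 2 : ℝ) • (wt (FN hF) u 1 + wt (FN hF) u 0) + dO _ e)
    {w' : (spG 𝒜).Plot k} {w : (spG 𝒜).Plot (k + 1 + 1)} {W : (spG 𝒜).Plot (k + 1 + 1 + 1 + 1)}
    (h1 : Nxt (circPhi hB 𝒜) w' w) (h2 : Nxt (circPhi hB 𝒜) w W) :
    ∃ m : ℤ, 2 * cI (k + 1 + 1 + 1 + 1) (Om.on y W) = m := by
  obtain ⟨b, hb⟩ := exists_b hN (Nat.lt_succ_self _) w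
  have hbox : ∀ x ∈ Icc (0 : V (k + 1 + 1)) 1, ∀ i, x i ∈ Icc (-1 : ℝ) 2 := fun x hx i =>
    ⟨by have := hx.1 i; change (0 : ℝ) ≤ x i at this; linarith, by have := hx.2 i; change x i ≤ (1 : ℝ) at this; linarith⟩
  obtain ⟨m1, hm1⟩ := int_hb (hB := hB) hk hodd (by omega) hrn hU hN hF h2 (b := b) fun x hx => hb x (hbox x hx)
  obtain ⟨m2, hm2⟩ := int_hb (hB := hB) hk hodd (by omega) hrn hU hN hF h2 (b := -b) fun x hx => by
    rw [map_neg, norm_neg]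
    exact hb x (hbox x hx)
  have du := hU.closed
  have hdeg := hU.deg
  -- the forms
  have hx1 : wt (FN hF) u 1 = (zpN hF).pull u := by
    unfold wt
    rw [← pull_comp, FN_one]
  have hx0 : wt (FN hF) u 0 = (antN 𝒜 P).pull ((zpN hF).pull u) := by
    unfold wt
    rw [← pull_comp, FN_zero, zmN_eq, pull_comp]
  have hydeg : Deg (k + 1 + 1 + 1 + 1) y := by
    rw [hyβ]
    exact Deg_add (Deg_pull _ hdeg) (Deg_d hβ)
  obtain ⟨e, hed, heb, hye⟩ : ∃ e, Deg (k + 1 + 1 + 1) e ∧ Bas (circN hB hN) e ∧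
      (prN 𝒜 P).pull y - (1 / 2 : ℝ) • (wt (FN hF) u 1 + wt (FN hF) u 0) = dO _ e := by
    obtain ⟨e, he, h⟩ := hy
    refine exists_bas_deg ?_ he (by rw [h]; abel)
    refine Deg_sub (Deg_pull _ hydeg) (Deg_smul _ (Deg_add ?_ ?_))
    · rw [hx1]
      exact Deg_pull _ hdeg
    · rw [hx0]
      exact Deg_pull _ (Deg_pull _ hdeg)
  rw [hx1, hx0] at hye
  obtain ⟨h, hh⟩ : ∃ h, h = b0 (hmN hF) u := ⟨_, rfl⟩
  have hhd : Deg (k + 1 + 1 + 1) h := by rw [hh]; exact Deg_K (Deg_pull _ hdeg)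
  have dh : dO _ h = (zpN hF).pull u - (prN 𝒜 P).pull ((foot hB 0).pull u) := by rw [hh]; exact d_hmN hN hF du
  -- the closed form on the sphere bundle
  obtain ⟨γ, hγd, hγ⟩ := hex ((1 / 2 : ℝ) • (h + (antN 𝒜 P).pull h) + e - (prN 𝒜 P).pull β)
    (Deg_sub (Deg_add (Deg_smul _ (Deg_add hhd (Deg_pull _ hhd))) hed) (Deg_pull _ hβ)) (by
      rw [map_sub, map_add, map_smul, map_add, pull_d, pull_d, dh, ← hye, map_sub, pr_ant, hyβ, map_add]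
      rw [smul_add, smul_add, smul_sub, smul_sub]
      have h3 : ∀ x : Om (spN 𝒜 P), x = (1 / 2 : ℝ) • x + (1 / 2 : ℝ) • x := fun x => by
        rw [← add_smul]
        norm_num
      have h4 := h3 ((prN 𝒜 P).pull ((foot hB 0).pull u))
      generalize (prN 𝒜 P).pull ((foot hB 0).pull u) = x at h4 ⊢
      generalize (1 / 2 : ℝ) • x = x2 at h4 ⊢
      rw [h4]
      abel)
  -- the forms on `UM`
  obtain ⟨Θ, hΘ⟩ : ∃ Θ, Θ = b0 (hbN hN hF b) u + b0 (hbN hN hF (-b)) u - (2 : ℝ) • β := ⟨_, rfl⟩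
  have hΘd : Deg (k + 1 + 1 + 1) Θ := by
    rw [hΘ]
    exact Deg_sub (Deg_add (Deg_K (Deg_pull _ hdeg)) (Deg_K (Deg_pull _ hdeg))) (Deg_smul _ hβ)
  have dΘ : (PhB hN hF b).pull u + (PhB hN hF (-b)).pull u - (2 : ℝ) • y = dO _ Θ := by
    rw [hΘ, map_sub, map_add, map_smul, d_hbN hN hF b du, d_hbN hN hF (-b) du, hyβ, smul_add, two_smul]
    abel
  -- the restriction to the open subset
  obtain ⟨ξ1, hξ1, hH1⟩ := hbN_nu hN hF b hdeg du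
  obtain ⟨ξ2, hξ2, hH2⟩ := hbN_nu hN hF (-b) hdeg du
  have hH2' : (inU (spG 𝒜) (OB P b)).pull (b0 (hbN hN hF (-b)) u) =
      (nuN hN b).pull ((antN 𝒜 P).pull h) + dO _ ((negY 𝒜 P b).pull ξ2) := by
    have e1 : (inU (spG 𝒜) (OB P b)).pull (b0 (hbN hN hF (-b)) u) =
        (negY 𝒜 P b).pull ((inU (spG 𝒜) (OB P (-b))).pull (b0 (hbN hN hF (-b)) u)) :=
      (subM_in (spG 𝒜) (OB_neg P b) _).symm
    rw [e1, hH2, map_add, pull_d, ← pull_comp, nu_neg, pull_comp, hh]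
  have hΘU : (inU (spG 𝒜) (OB P b)).pull Θ =
      dO _ ((nuN hN b).pull ((2 : ℝ) • γ) + ξ1 + (negY 𝒜 P b).pull ξ2) - (2 : ℝ) • (nuN hN b).pull e := by
    have e1 := (pr_nu hN b β).symm
    have e2 : dO _ ((nuN hN b).pull ((2 : ℝ) • γ)) =
        (nuN hN b).pull h + (nuN hN b).pull ((antN 𝒜 P).pull h) + (2 : ℝ) • (nuN hN b).pull e -
          (2 : ℝ) • (nuN hN b).pull ((prN 𝒜 P).pull β) := by
      rw [pull_d, map_smul, ← hγ, smul_sub, smul_add, smul_smul]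
      norm_num
    rw [hΘ, map_sub, map_add, map_smul, hH1, hH2', e1, map_add, map_add, e2, ← hh]
    abel
  -- the plot
  have hPw : ∀ z : V (k + 1 + 1 + 1), ((circPhi hB 𝒜).op w).1 (clp _ z) ∈ OB P b := fun z => by
    change 1 < ‖P (shift (2 * π * (clp _ z) (Fin.last _)) (w.1 (pr _ (clp _ z)))) b‖
    rw [hN.inv]
    exact hb _ fun i => clp_box z i.castSucc
  let p : (YB 𝒜 P b).Plot (k + 1 + 1 + 1) := ⟨fun z => ⟨((circPhi hB 𝒜).op w).1 (clp _ z), hPw z⟩,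
    (spG 𝒜).pre ((circPhi hB 𝒜).op w).2 (clp _)⟩
  have hpU : (inU (spG 𝒜) (OB P b)).pl p = ((circPhi hB 𝒜).op w).cmp (clp (k + 1 + 1 + 1)) := Plot_ext fun _ => rfl
  have hG : Good p := fun i => ft_sub (open_OB hN b) (ft_clp (good_op h1 i))
  have hzero : cI (k + 1 + 1 + 1) (Om.on Θ ((circPhi hB 𝒜).op w)) = 0 := by
    rw [← cI_clp]
    have e1 : Om.on Θ (((circPhi hB 𝒜).op w).cmp (clp (k + 1 + 1 + 1))) =
        Om.on ((inU (spG 𝒜) (OB P b)).pull Θ) p := by rw [on_pull, hpU]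
    rw [e1, hΘU, on_sub, on_smul, bas_op hN hb heb hed p (fun _ => rfl), smul_zero, sub_zero]
    exact hG.exact (Deg_add (Deg_add (Deg_pull _ (Deg_smul _ hγd)) hξ1) (Deg_pull _ hξ2))
  have hfin : cI (k + 1 + 1 + 1 + 1) (Om.on (dO _ Θ) W) = 0 := by
    rw [h2.stokes hΘd, hzero, mul_zero]
  rw [← dΘ, on_sub, on_add, on_smul, cI_sub, cI_add, cI_smul, hm1, hm2] at hfin
  refine ⟨m1 + m2, ?_⟩
  push_cast
  linarith

end Pool.Agent.Lib.MP_ccbbf6_gt.K7.HP
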