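import Pool.Agent.Lib.MP_ccbbf6_gt.K7.HP4
import Pool.Agent.Lib.MP_ccbbf6_gt.L5.PHN1

/-!
# `κ = 7`, block HP (`2 Y` is an integer), part 5: **the theorem** (helper18)

* `NegB.closed_odd` : closed forms of degree `κ` on the sphere bundle of the negative bundle are exact.
* `int_2Y` : for every `y` on `UM` with `pi^* y = (x_- + x_+) / 2 + d (basic)` the number `2 ∫_W y` is an integer.
* `int_2Y7` : `κ = 7`.
-/

set_option autoImplicit false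
set_option linter.unusedSectionVars false
set_option maxSynthPendingDepth 3

open Set Filter Topology Metric Real Module MeasureTheory
open scoped ContDiff RealInnerProductSpace

noncomputable section

namespace Pool.Agent.Lib.MP_ccbbf6_gt.L5

open L4 L4.FR

namespace NegB

variable {X G M F : Space} {N N' m q : ℕ} (P : NegB X G M F N N' m q)

include P in
/-- **closed forms of degree `κ = N' + 1` on the sphere bundle are exact** -/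
theorem closed_odd {ζ : Om X} (hζ : Deg (N' + 1) ζ) (hd : dO X ζ = 0) : ∃ γ : Om X, Deg N' γ ∧ ζ = dO X γ := by
  obtain ⟨η, hη, e3⟩ := P.B.SSc P.hN1 P.ΨD P.Ψ1 P.Ψd hd
  -- the base part
  have hz : Deg (N' + 1) (P.B.PI (P.Ψ * ζ)) := by
    refine P.B.Deg_PI ?_
    have h6 := Deg_mul P.ΨD hζ
    rwa [add_comm] at h6
  have dz : dO G (P.B.PI (P.Ψ * ζ)) = 0 := by
    rw [← P.PI_dP, d_mul, P.Ψd, hd, zero_mul, mul_zero, add_zero, P.PI_zero']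
  obtain ⟨χ1, hχ1, e1⟩ := P.D.H3_exact hz le_rfl dz
  -- the fibre part
  have hz2 : Deg (0 + 1) (P.B.PI ζ) := by
    refine P.B.Deg_PI ?_
    rwa [show 0 + 1 + N' = N' + 1 by omega]
  have dz2 : dO G (P.B.PI ζ) = 0 := by rw [← P.PI_dP, hd, P.PI_zero']
  obtain ⟨χ2, hχ2, e2⟩ := P.D.H3_exact hz2 (by have := P.hN1; omega) dz2
  have hs : sO X (P.B.ant.pull P.Ψ) = P.B.ant.pull P.Ψ := by
    rw [pull_s, Deg_s P.ΨD, P.sgnN, one_smul]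
  refine ⟨P.B.pi.pull χ1 + (-1 : ℝ) ^ (N' + 1) • (P.B.ant.pull P.Ψ * P.B.pi.pull χ2) + η,
    Deg_add (Deg_add (Deg_pull _ hχ1) (Deg_smul _ ?_)) (hη N' hζ), ?_⟩
  · have h := Deg_mul (Deg_pull P.B.ant P.ΨD) (Deg_pull P.B.pi hχ2)
    rwa [add_zero] at h
  · rw [map_add, map_add, map_smul, d_mul, hs, pull_d, pull_d, pull_d, P.Ψd, map_zero, zero_mul, zero_add, ← e1, ← e2]
    exact e3

end NegB

end Pool.Agent.Lib.MP_ccbbf6_gt.L5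

namespace Pool.Agent.Lib.MP_ccbbf6_gt.K7.HP

open Geo L4 L4.ORI L4.FR L5 L5.NEG L5.IA HM

variable {n : ℕ} {M : Type} [MetricSpace M] [CompactSpace M] {𝒜 : SDist n M} {N k : ℕ} {hB : Bl M}
  {C : Eu N → Gs M → M} {P : Gs M → Eu N →L[ℝ] Eu N} {f : Gs M → Eu N → M} {g : (spVF 𝒜 (k + 1 + 1 + 1)).pt → ℝ}

/-- **`2 ∫_W y` is an integer** -/
theorem int_2Y (hk : 𝒜.HK (k + 1 + 1 + 1)) (hodd : Odd (k + 1 + 1 + 1)) (hrn : k + 1 + 1 + 1 + 1 < n)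
    (hN : NegData 𝒜 (k + 1 + 1 + 1) hB C P) (hF : FillP 𝒜 C P f) {F : Space} {n' m q : ℕ}
    (Q : NegB (spN 𝒜 P) (spG 𝒜) (spM 𝒜) F n' (k + 1 + 1) m q) (hpi : Q.B.pi = prN 𝒜 P) (hfl : Q.fl = FN hF)
    (hc : Q.c = circN hB hN) (hU : UD 𝒜 hB (k + 1 + 1 + 1) Q.D.u g) {y : Om (spG 𝒜)} (hyd : Deg (k + 1 + 1 + 1 + 1) y)
    (hy : ∃ e, Bas Q.c e ∧ Q.B.pi.pull y = (1 / 2 : ℝ) • (wt Q.fl Q.D.u 1 + wt Q.fl Q.D.u 0) + dO _ e)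
    {w' : (spG 𝒜).Plot k} {w : (spG 𝒜).Plot (k + 1 + 1)} {W : (spG 𝒜).Plot (k + 1 + 1 + 1 + 1)}
    (h1 : Nxt (circPhi hB 𝒜) w' w) (h2 : Nxt (circPhi hB 𝒜) w W) :
    ∃ j : ℤ, 2 * cI (k + 1 + 1 + 1 + 1) (Om.on y W) = j := by
  rw [hpi, hfl, hc] at hy
  obtain ⟨u, hu⟩ : ∃ u, u = Q.D.u := ⟨_, rfl⟩
  rw [← hu] at hU hy
  obtain ⟨e, he, hye⟩ := hy
  have hx1 : wt (FN hF) u 1 = (zpN hF).pull u := by
    unfold wt
    rw [← pull_comp, FN_one]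
  have hx0 : wt (FN hF) u 0 = (antN 𝒜 P).pull ((zpN hF).pull u) := by
    unfold wt
    rw [← pull_comp, FN_zero, zmN_eq, pull_comp]
  -- a primitive of `y - foot^* u`
  obtain ⟨θ, hθ⟩ : ∃ θ, (prN 𝒜 P).pull y = (prN 𝒜 P).pull ((foot hB 0).pull u) + dO (spN 𝒜 P) θ := by
    refine ⟨(1 / 2 : ℝ) • (b0 (hmN hF) u + (antN 𝒜 P).pull (b0 (hmN hF) u)) + e, ?_⟩
    rw [hye, hx1, hx0, map_add, map_smul, map_add, pull_d, d_hmN hN hF hU.closed, map_sub, pr_ant]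
    rw [smul_add, smul_add, smul_sub, smul_sub]
    have h4 : (prN 𝒜 P).pull ((foot hB 0).pull u) = (1 / 2 : ℝ) • (prN 𝒜 P).pull ((foot hB 0).pull u) +
        (1 / 2 : ℝ) • (prN 𝒜 P).pull ((foot hB 0).pull u) := by
      rw [← add_smul]
      norm_num
    generalize (prN 𝒜 P).pull ((foot hB 0).pull u) = x at h4 ⊢
    generalize (1 / 2 : ℝ) • x = x2 at h4 ⊢
    rw [h4]
    abel
  have hPI : ∀ w : Om (spG 𝒜), Q.B.PI (Q.Ψ * (prN 𝒜 P).pull w) = w := fun w => by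
    rw [← hpi, Q.B.PI_mulr, Q.Ψ1, one_mul]
  have hyθ : y - (foot hB 0).pull u = dO (spG 𝒜) (Q.B.PI (Q.Ψ * θ)) := by
    have h3 : sO _ Q.Ψ = Q.Ψ := by rw [Deg_s Q.ΨD, Q.sgnN, one_smul]
    rw [← Q.PI_dP, d_mul, Q.Ψd, zero_mul, zero_add, h3]
    have h5 : dO (spN 𝒜 P) θ = (prN 𝒜 P).pull (y - (foot hB 0).pull u) := by rw [map_sub, hθ]; abel
    rw [h5, hPI]
  obtain ⟨β, hβ, hyβ⟩ := exists_deg (j := k + 1 + 1 + 1) (Deg_sub hyd (Deg_pull _ hU.deg)) hyθ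
  refine int_y hk hodd hrn hU hN hF (fun ζ h3 h4 => Q.closed_odd h3 h4) hβ ?_ ⟨e, he, hye⟩ h1 h2
  rw [← hyβ]
  abel

/-- **`κ = 7`: `2 ∫_(w8) y` is an integer** -/
theorem int_2Y7 {g : (spVF 𝒜 7).pt → ℝ} (hk : 𝒜.HK 7) (hrn : 8 < n) (hN : NegData 𝒜 7 hB C P) (hF : FillP 𝒜 C P f)
    {F : Space} {n' m q : ℕ} (Q : NegB (spN 𝒜 P) (spG 𝒜) (spM 𝒜) F n' 6 m q) (hpi : Q.B.pi = prN 𝒜 P)
    (hfl : Q.fl = FN hF) (hc : Q.c = circN hB hN) (hU : UD 𝒜 hB 7 Q.D.u g) {y : Om (spG 𝒜)} (hyd : Deg 8 y)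
    (hy : ∃ e, Bas Q.c e ∧ Q.B.pi.pull y = (1 / 2 : ℝ) • (wt Q.fl Q.D.u 1 + wt Q.fl Q.D.u 0) + dO _ e)
    {w4 : (spG 𝒜).Plot 4} {w6 : (spG 𝒜).Plot 6} {w8 : (spG 𝒜).Plot 8}
    (h1 : Nxt (circPhi hB 𝒜) w4 w6) (h2 : Nxt (circPhi hB 𝒜) w6 w8) : ∃ j : ℤ, 2 * cI 8 (Om.on y w8) = j :=
  int_2Y (k := 4) hk (by decide) hrn hN hF Q hpi hfl hc hU hyd hy h1 h2

end Pool.Agent.Lib.MP_ccbbf6_gt.K7.HP
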