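import Pool.Agent.Lib.MP_ccbbf6_gt.K7.UA1
import Pool.Agent.Lib.MP_ccbbf6_gt.L5.INTk

/-!
# `κ = 7`, block B: degrees in `ℤ`, relative homotopy relation, relative exactness (helper25)

* `DZ j θ` : `θ` is homogeneous of degree `j : ℤ` (zero if `j < 0`).
* `HRel k f g` : for closed forms the pull backs by `f` and `g` differ by `d z` with `k^* z = 0`.
* `RX k j w` : `w = d z` with `k^* z = 0`.
-/

set_option autoImplicit false
set_option maxSynthPendingDepth 3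

open Set Filter Topology MeasureTheory
open scoped TensorProduct ContDiff

noncomputable section

namespace Pool.Agent.Lib.MP_ccbbf6_gt.K7

open L4 L4.FR L5

variable {X X' Y Y' Z M K K' S B : Space} {k l n N : ℕ} {i j : ℤ}

/-! ### Degrees in `ℤ` -/

/-- homogeneous of degree `j : ℤ` -/
def DZ (j : ℤ) (θ : Om X) : Prop := (∀ i : ℕ, (i : ℤ) = j → Deg i θ) ∧ (j < 0 → θ = 0)

theorem DZ_nat {i : ℕ} {θ : Om X} : DZ (i : ℤ) θ ↔ Deg i θ :=
  ⟨fun h => h.1 i rfl, fun h => ⟨fun i' e => by rw [Nat.cast_inj.1 e]; exact h, fun h' => absurd h' (by omega)⟩⟩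

theorem DZ_of {i : ℕ} {θ : Om X} (h : Deg i θ) (e : (i : ℤ) = j) : DZ j θ := by
  rw [← e]
  exact DZ_nat.2 h

theorem DZ.deg {i : ℕ} {θ : Om X} (h : DZ j θ) (e : (i : ℤ) = j) : Deg i θ := h.1 i e

theorem DZ.cast {θ : Om X} (h : DZ i θ) (e : i = j) : DZ j θ := e ▸ h

theorem DZ_zero : DZ j (0 : Om X) := ⟨fun _ _ => Deg_zero, fun _ => rfl⟩

theorem DZ_add {θ τ : Om X} (h : DZ j θ) (h' : DZ j τ) : DZ j (θ + τ) :=
  ⟨fun i e => Deg_add (h.1 i e) (h'.1 i e), fun hj => by rw [h.2 hj, h'.2 hj, add_zero]⟩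

theorem DZ_neg {θ : Om X} (h : DZ j θ) : DZ j (-θ) :=
  ⟨fun i e => Deg_neg (h.1 i e), fun hj => by rw [h.2 hj, neg_zero]⟩

theorem DZ_sub {θ τ : Om X} (h : DZ j θ) (h' : DZ j τ) : DZ j (θ - τ) :=
  ⟨fun i e => Deg_sub (h.1 i e) (h'.1 i e), fun hj => by rw [h.2 hj, h'.2 hj, sub_zero]⟩

theorem DZ_smul (r : ℝ) {θ : Om X} (h : DZ j θ) : DZ j (r • θ) :=
  ⟨fun i e => Deg_smul r (h.1 i e), fun hj => by rw [h.2 hj, smul_zero]⟩

theorem DZ_sum {ι : Type*} (s : Finset ι) {f : ι → Om X} (h : ∀ x ∈ s, DZ j (f x)) : DZ j (∑ x ∈ s, f x) := by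
  classical
  induction s using Finset.induction_on with
  | empty => rw [Finset.sum_empty]; exact DZ_zero
  | insert a s ha ih =>
    rw [Finset.sum_insert ha]
    exact DZ_add (h a (Finset.mem_insert_self a s)) (ih fun x hx => h x (Finset.mem_insert_of_mem hx))

theorem DZ_mul {θ τ : Om X} (h : DZ i θ) (h' : DZ j τ) : DZ (i + j) (θ * τ) := by
  rcases lt_or_ge i 0 with hi | hi
  · rw [h.2 hi, zero_mul]; exact DZ_zero
  rcases lt_or_ge j 0 with hj | hj
  · rw [h'.2 hj, mul_zero]; exact DZ_zero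
  obtain ⟨a, rfl⟩ := Int.eq_ofNat_of_zero_le hi
  obtain ⟨b, rfl⟩ := Int.eq_ofNat_of_zero_le hj
  rw [← Nat.cast_add]
  exact DZ_nat.2 (Deg_mul (DZ_nat.1 h) (DZ_nat.1 h'))

theorem DZ_one : DZ 0 (1 : Om X) := DZ_of Deg_one rfl

theorem DZ_pull (f : SMap X Y) {θ : Om Y} (h : DZ j θ) : DZ j (f.pull θ) :=
  ⟨fun i e => Deg_pull f (h.1 i e), fun hj => by rw [h.2 hj, map_zero]⟩

theorem DZ_d {θ : Om X} (h : DZ j θ) : DZ (j + 1) (dO X θ) := by
  rcases lt_or_ge j 0 with hj | hj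
  · rw [h.2 hj, map_zero]; exact DZ_zero
  obtain ⟨a, rfl⟩ := Int.eq_ofNat_of_zero_le hj
  exact DZ_of (Deg_d (DZ_nat.1 h)) (by push_cast; ring)

theorem DZ_K {θ : Om X.xR} (h : DZ j θ) : DZ (j - 1) (KO X θ) := by
  rcases lt_trichotomy j 0 with hj | hj | hj
  · rw [h.2 hj, map_zero]; exact DZ_zero
  · subst hj
    rw [KO_zero (h.1 0 rfl)]
    exact DZ_zero
  · obtain ⟨a, rfl⟩ := Int.eq_succ_of_zero_lt hj
    exact DZ_of (Deg_K (DZ_nat.1 h)) (by omega)

theorem i_deg_zero (c : Circ X) {θ : Om X} (h : Deg 0 θ) : iO c θ = 0 := by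
  refine Om_ext fun k p => ?_
  rw [on_i, ← Dg_fn (h _ (c.op p)), on_zero, cs, cn_fc, map_zero]

theorem DZ_i (c : Circ X) {θ : Om X} (h : DZ j θ) : DZ (j - 1) (iO c θ) := by
  rcases lt_trichotomy j 0 with hj | hj | hj
  · rw [h.2 hj, map_zero]; exact DZ_zero
  · subst hj
    rw [i_deg_zero c (h.1 0 rfl)]
    exact DZ_zero
  · obtain ⟨a, rfl⟩ := Int.eq_succ_of_zero_lt hj
    exact DZ_of (Deg_i c (DZ_nat.1 h)) (by omega)

theorem DZ_A (c : Circ X) {θ : Om X} (h : DZ j θ) : DZ j (AO c θ) :=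
  ⟨fun i e => Deg_A c (h.1 i e), fun hj => by rw [h.2 hj, map_zero]⟩

theorem DZ_Q {θ : Om X.xR} (h : DZ j θ) : DZ j (QO X θ) :=
  ⟨fun i e => Deg_Q (h.1 i e), fun hj => by rw [h.2 hj, map_zero]⟩

theorem DZ_PI (b : SBun N S B) {θ : Om S} (h : DZ j θ) : DZ (j - N) (b.PI θ) := by
  rcases lt_or_ge j 0 with hj | hj
  · have e : b.PI (0 : Om S) = 0 := by
      have := b.PI_smul 0 0
      rwa [zero_smul, zero_smul] at this
    rw [h.2 hj, e]; exact DZ_zero
  obtain ⟨a, rfl⟩ := Int.eq_ofNat_of_zero_le hj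
  have ha := DZ_nat.1 h
  rcases lt_or_ge a N with hN | hN
  · rw [b.PI_low ha hN]; exact DZ_zero
  · refine DZ_of (b.Deg_PI (j := a - N) ?_) (by push_cast [hN]; ring)
    rwa [Nat.sub_add_cancel hN]

/-- closed functions and the sign operator -/
theorem DZ_even {θ : Om X} (h : DZ (2 * j) θ) : sO X θ = θ := by
  rcases lt_or_ge (2 * j) 0 with hj | hj
  · rw [h.2 hj, map_zero]
  obtain ⟨a, rfl⟩ := Int.eq_ofNat_of_zero_le (show 0 ≤ j by omega)
  exact Deg_even (h.deg (i := 2 * a) (by push_cast; ring))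

theorem DZ_odd {θ : Om X} (h : DZ (2 * j + 1) θ) : sO X θ = -θ := by
  rcases lt_or_ge (2 * j + 1) 0 with hj | hj
  · rw [h.2 hj, map_zero, neg_zero]
  obtain ⟨a, rfl⟩ := Int.eq_ofNat_of_zero_le (show 0 ≤ j by omega)
  exact Deg_odd (h.deg (i := 2 * a + 1) (by push_cast; ring))

theorem DZ_s {θ : Om X} (h : DZ j θ) : DZ j (sO X θ) := by
  rcases Int.even_or_odd' j with ⟨a, rfl | rfl⟩
  · rw [DZ_even h]; exact h
  · rw [DZ_odd h]; exact DZ_neg h

/-! ### The relation -/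

/-- the pull backs of closed forms by `f` and `g` differ by `d z`, `z = 0` on `K` -/
def HRel (k : SMap K Y) (f g : SMap Y X) : Prop :=
  ∀ (j : ℤ) (w : Om X), DZ j w → dO X w = 0 → ∃ z : Om Y, DZ (j - 1) z ∧ k.pull z = 0 ∧ dO Y z = g.pull w - f.pull w

theorem HRel.refl (k : SMap K Y) (f : SMap Y X) : HRel k f f := fun _ _ _ _ =>
  ⟨0, DZ_zero, map_zero _, by rw [map_zero, sub_self]⟩

theorem HRel.symm {k : SMap K Y} {f g : SMap Y X} (h : HRel k f g) : HRel k g f := fun j w h1 h2 => by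
  obtain ⟨z, a, b, c⟩ := h j w h1 h2
  exact ⟨-z, DZ_neg a, by rw [map_neg, b, neg_zero], by rw [map_neg, c, neg_sub]⟩

theorem HRel.trans {k : SMap K Y} {f g h : SMap Y X} (h1 : HRel k f g) (h2 : HRel k g h) : HRel k f h :=
  fun j w hw dw => by
  obtain ⟨z, a, b, c⟩ := h1 j w hw dw
  obtain ⟨z', a', b', c'⟩ := h2 j w hw dw
  exact ⟨z + z', DZ_add a a', by rw [map_add, b, b', add_zero], by rw [map_add, c, c']; abel⟩

/-- post-composition -/
theorem HRel.post {k : SMap K Y} {f g : SMap Y X} (h : HRel k f g) (e : SMap X Z) : HRel k (e.comp f) (e.comp g) :=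
  fun j w hw dw => by
  obtain ⟨z, a, b, c⟩ := h j (e.pull w) (DZ_pull e hw) (by rw [pull_d, dw, map_zero])
  exact ⟨z, a, b, by rw [c, pull_comp, pull_comp]⟩

/-- pre-composition -/
theorem HRel.pre {k : SMap K Y} {f g : SMap Y X} (h : HRel k f g) (e : SMap Z Y) {k' : SMap K' Z} {e0 : SMap K' K}
    (he : ∀ x, e.1 (k'.1 x) = k.1 (e0.1 x)) : HRel k' (f.comp e) (g.comp e) := fun j w hw dw => by
  obtain ⟨z, a, b, c⟩ := h j w hw dw
  refine ⟨e.pull z, DZ_pull e a, ?_, ?_⟩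
  · rw [← pull_comp, SMap_ext (f := e.comp k') (g := k.comp e0) he, pull_comp, b, map_zero]
  · rw [pull_d, c, map_sub, ← pull_comp, ← pull_comp]

/-- homotopies -/
theorem HRel.of_hom {k : SMap K Y} (H : SMap Y.xR X) (hk : ∀ x t, H.1 (k.1 x, t) = H.1 (k.1 x, 0)) :
    HRel k (H.comp (jO Y 0)) (H.comp (jO Y 1)) := fun j w hw dw => by
  refine ⟨KO Y (H.pull w), DZ_K (DZ_pull H hw), ?_, ?_⟩
  · rw [← K_up, ← pull_comp, SMap_ext (f := H.comp k.up) (g := (H.comp ((jO Y 0).comp k)).comp (pO K))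
      (fun z => hk z.1 z.2), pull_comp, K_p]
  · have h := d_K (H.pull w)
    rw [pull_d, dw, map_zero, map_zero, add_zero] at h
    rw [h, pull_comp, pull_comp]

/-- homotopies with given ends -/
theorem HRel.hom {k : SMap K Y} {f g : SMap Y X} (H : SMap Y.xR X) (h0 : ∀ y, H.1 (y, 0) = f.1 y)
    (h1 : ∀ y, H.1 (y, 1) = g.1 y) (hk : ∀ x t, H.1 (k.1 x, t) = H.1 (k.1 x, 0)) : HRel k f g := by
  have h := HRel.of_hom (k := k) H hk
  rwa [SMap_ext (f := H.comp (jO Y 0)) (g := f) h0, SMap_ext (f := H.comp (jO Y 1)) (g := g) h1] at h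

theorem HRel.congr {k : SMap K Y} {f g f' g' : SMap Y X} (h : HRel k f g) (hf : ∀ y, f.1 y = f'.1 y)
    (hg : ∀ y, g.1 y = g'.1 y) : HRel k f' g' := by
  rw [← SMap_ext hf, ← SMap_ext hg]
  exact h

/-- iterates -/
def itM (b : SMap X X) : ℕ → SMap X X
  | 0 => SMap.id X
  | n + 1 => b.comp (itM b n)

theorem itM_apply (b : SMap X X) (n : ℕ) (x : X.pt) : (itM b n).1 x = b.1^[n] x := by
  induction n generalizing x with
  | zero => rfl
  | succ n ih =>
    rw [Function.iterate_succ_apply']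
    exact congrArg b.1 (ih x)

theorem HRel.it {k : SMap K X} {b : SMap X X} (hb : ∀ x, b.1 (k.1 x) = k.1 x) (h : HRel k (SMap.id X) b) (n : ℕ) :
    HRel k (SMap.id X) (itM b n) := by
  induction n with
  | zero => exact HRel.refl _ _
  | succ n ih =>
    refine HRel.trans ih ?_
    have hk : ∀ x, (itM b n).1 (k.1 x) = k.1 x := fun x => by
      rw [itM_apply]
      exact Function.iterate_fixed (hb x) n
    exact HRel.congr (HRel.pre (k' := k) h (itM b n) (e0 := SMap.id K) hk) (fun _ => rfl) (fun _ => rfl)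

/-! ### Relative exactness -/

/-- `w = d z` with `z = 0` on `K` -/
def RX (k : SMap K X) (j : ℤ) (w : Om X) : Prop := ∃ z : Om X, DZ (j - 1) z ∧ k.pull z = 0 ∧ dO X z = w

theorem RX_add {k : SMap K X} {w w' : Om X} (h : RX k j w) (h' : RX k j w') : RX k j (w + w') := by
  obtain ⟨z, a, b, c⟩ := h
  obtain ⟨z', a', b', c'⟩ := h'
  exact ⟨z + z', DZ_add a a', by rw [map_add, b, b', add_zero], by rw [map_add, c, c']⟩

theorem RX_sub {k : SMap K X} {w w' : Om X} (h : RX k j w) (h' : RX k j w') : RX k j (w - w') := by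
  obtain ⟨z, a, b, c⟩ := h
  obtain ⟨z', a', b', c'⟩ := h'
  exact ⟨z - z', DZ_sub a a', by rw [map_sub, b, b', sub_zero], by rw [map_sub, c, c']⟩

theorem RX.pre {k : SMap K X} {w : Om X} (h : RX k j w) (e : SMap Y X) {k' : SMap K' Y} {e0 : SMap K' K}
    (he : ∀ x, e.1 (k'.1 x) = k.1 (e0.1 x)) : RX k' j (e.pull w) := by
  obtain ⟨z, a, b, c⟩ := h
  refine ⟨e.pull z, DZ_pull e a, ?_, by rw [pull_d, c]⟩
  rw [← pull_comp, SMap_ext (f := e.comp k') (g := k.comp e0) he, pull_comp, b, map_zero]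

/-- if the pull back of a closed form by `f` is exact then so is the pull back by `g` -/
theorem RX.rel {k : SMap K Y} {f g : SMap Y X} (h : HRel k f g) {w : Om X} (hw : DZ j w) (dw : dO X w = 0)
    (hf : RX k j (f.pull w)) : RX k j (g.pull w) := by
  obtain ⟨z, a, b, c⟩ := h j w hw dw
  have h1 : RX k j (g.pull w - f.pull w) := ⟨z, a, b, c⟩
  have h2 := RX_add h1 hf
  rwa [sub_add_cancel] at h2

/-- **retraction principle**: `i : Y → X`, `b : X → Y`, `i b ~ id` rel `K` -/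
theorem RX.retract {k : SMap K X} {i : SMap Y X} {b : SMap X Y} (h : HRel k (SMap.id X) (i.comp b)) {k' : SMap K Y}
    (hk : ∀ x, b.1 (k.1 x) = k'.1 x) {w : Om X} (hw : DZ j w) (dw : dO X w = 0) (hf : RX k' j (i.pull w)) :
    RX k j w := by
  have h1 : RX k j (b.pull (i.pull w)) := hf.pre b (e0 := SMap.id K) hk
  rw [← pull_comp] at h1
  have h2 := RX.rel h.symm hw dw h1
  rwa [pull_id] at h2

/-- the empty space -/
def spE : Space where
  pt := Empty
  Pl _ := Set.univ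
  pre := fun _ _ => Set.mem_univ _

/-- the empty subspace -/
def kE (X : Space) : SMap spE X := ⟨fun x => x.elim, fun _ p => (p.1 0).elim⟩

theorem kE_pull (z : Om X) : (kE X).pull z = 0 := Om_ext fun _ p => (p.1 0).elim

theorem HRel.homE {f g : SMap Y X} (H : SMap Y.xR X) (h0 : ∀ y, H.1 (y, 0) = f.1 y)
    (h1 : ∀ y, H.1 (y, 1) = g.1 y) : HRel (kE Y) f g := HRel.hom H h0 h1 (fun x => x.elim)

theorem HRel.preE {f g : SMap Y X} (h : HRel (kE Y) f g) (e : SMap Z Y) : HRel (kE Z) (f.comp e) (g.comp e) :=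
  h.pre e (e0 := SMap.id spE) (fun x => x.elim)

end Pool.Agent.Lib.MP_ccbbf6_gt.K7
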