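import Pool.Agent.Lib.MP_ccbbf6_gt.K7.LP3
import Pool.Agent.Lib.MP_ccbbf6_gt.K7.UA2

/-!
# `κ = 7`, block F: the space of all loops of period `8`, classifying maps (helper25)
-/

set_option autoImplicit false
set_option maxSynthPendingDepth 3
set_option linter.unusedSectionVars false

open Set Filter Topology Metric Real Module
open scoped ContDiff RealInnerProductSpace

noncomputable section

namespace Pool.Agent.Lib.MP_ccbbf6_gt.K7

open Geo L4 L4.ORI L4.FR L5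

variable {n : ℕ} {M : Type} [MetricSpace M] [CompactSpace M] {𝒜 : SDist n M} {δ : ℝ} {k : ℕ} {X Y : Space}

/-- all smooth loops of period `8` -/
def spO (𝒜 : SDist n M) : Space where
  pt := {c : ℝ → M // ∀ t, c (t + 8) = c t}
  Pl k := {p | L4.Sm 𝒜 (fun z : V k × ℝ => (p z.1).1 z.2)}
  pre := fun {k l p} hp g => by
    have h : ContDiff ℝ ∞ (fun z : V k × ℝ => ((g z.1 : V l), z.2)) := (g.smooth.comp contDiff_fst).prodMk contDiff_snd
    exact L4.Sm.comp (g := fun z : V l × ℝ => (p z.1).1 z.2) hp h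

/-- the foot point -/
def fLO (𝒜 : SDist n M) : SMap (spO 𝒜) (spM 𝒜) := ⟨fun c => c.1 0, fun k p => by
  exact L4.Sm.comp (g := fun z : V k × ℝ => (p.1 z.1).1 z.2) (f := fun u : V k => (u, (0 : ℝ))) p.2
    (contDiff_id.prodMk contDiff_const)⟩

/-- rotation of loops -/
def cLO (𝒜 : SDist n M) : Circ (spO 𝒜) where
  a := ⟨fun z => ⟨fun t => z.1.1 (t + 8 * z.2), fun t => by
      show z.1.1 (t + 8 + 8 * z.2) = z.1.1 (t + 8 * z.2)
      rw [show t + 8 + 8 * z.2 = (t + 8 * z.2) + 8 by ring]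
      exact z.1.2 _⟩, fun k p => by
    exact L4.Sm.comp (g := fun z : V k × ℝ => (p.1 z.1).1.1 z.2) (f := fun z : V k × ℝ => (z.1, z.2 + 8 * (p.1 z.1).2))
      p.2.1 (contDiff_fst.prodMk (contDiff_snd.add (contDiff_const.mul (p.2.2.comp contDiff_fst))))⟩
  zero c := Subtype.ext (funext fun t => by
    show c.1 (t + 8 * 0) = c.1 t
    rw [mul_zero, add_zero])
  add c s t := Subtype.ext (funext fun r => by
    show c.1 (r + 8 * t + 8 * s) = c.1 (r + 8 * (s + t))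
    ring_nf)
  one c s := Subtype.ext (funext fun r => by
    show c.1 (r + 8 * (s + 1)) = c.1 (r + 8 * s)
    rw [show r + 8 * (s + 1) = r + 8 * s + 8 by ring]
    exact c.2 _)

/-- the classifying map of a family of loops -/
def gLO (c : Circ X) (f : SMap X (spM 𝒜)) : SMap X (spO 𝒜) :=
  ⟨fun x => ⟨fun t => f.1 (c.a.1 (x, t / 8)), fun t => by
      show f.1 (c.a.1 (x, (t + 8) / 8)) = f.1 (c.a.1 (x, t / 8))
      rw [show (t + 8) / 8 = t / 8 + 1 by ring, c.one]⟩, fun k p => by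
    have h1 := ((f.comp c.a).pl p.up).2
    have h2 : ContDiff ℝ ∞ (fun z : V k × ℝ => (Fin.snoc z.1 (z.2 / 8) : V (k + 1))) :=
      contDiff_snoc.comp (contDiff_fst.prodMk (contDiff_snd.div_const _))
    have h3 := L4.Sm.comp (M := M) (𝒜 := 𝒜) (g := ((f.comp c.a).pl p.up).1) (f := fun z : V k × ℝ => (Fin.snoc z.1 (z.2 / 8) : V (k + 1))) h1 h2
    have e : (fun z : V k × ℝ => ((f.comp c.a).pl p.up).1 (Fin.snoc z.1 (z.2 / 8) : V (k + 1))) =
        fun z : V k × ℝ => f.1 (c.a.1 (p.1 z.1, z.2 / 8)) := funext fun z => by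
      show f.1 (c.a.1 (p.1 (pr k (Fin.snoc z.1 (z.2 / 8))), (Fin.snoc z.1 (z.2 / 8) : V (k + 1)) (Fin.last k))) =
        f.1 (c.a.1 (p.1 z.1, z.2 / 8))
      rw [pr_snoc, Fin.snoc_last]
    rw [e] at h3
    exact h3⟩

theorem fLO_gLO (c : Circ X) (f : SMap X (spM 𝒜)) : (fLO 𝒜).comp (gLO c f) = f :=
  SMap_ext fun x => by
    show f.1 (c.a.1 (x, 0 / 8)) = f.1 x
    rw [zero_div, c.zero]

theorem Eqv_gLO (c : Circ X) (f : SMap X (spM 𝒜)) : Eqv c (cLO 𝒜) (gLO c f) := fun x s =>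
  Subtype.ext (funext fun t => by
    show f.1 (c.a.1 (c.a.1 (x, s), t / 8)) = f.1 (c.a.1 (x, (t + 8 * s) / 8))
    rw [c.add, show s + t / 8 = (t + 8 * s) / 8 by ring])

theorem gLO_nat {c : Circ X} {c' : Circ Y} (f : SMap X (spM 𝒜)) {g : SMap Y X} (hg : Eqv c' c g) :
    gLO c' (f.comp g) = (gLO c f).comp g := SMap_ext fun y => Subtype.ext (funext fun t => by
  show f.1 (g.1 (c'.a.1 (y, t / 8))) = f.1 (c.a.1 (g.1 y, t / 8))
  rw [hg])

/-- a map to the space of loops is a map to `M` on the product with the circle: every family of loops comes from an equivariant one -/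
theorem gLO_fLO (𝒜 : SDist n M) : gLO (cLO 𝒜) (fLO 𝒜) = SMap.id _ := SMap_ext fun c => Subtype.ext (funext fun t => by
  show c.1 (0 + 8 * (t / 8)) = c.1 t
  rw [zero_add, mul_div_cancel₀ t (by norm_num)])

/-- loops of period `4` as loops of period `8` -/
def iL (𝒜 : SDist n M) (δ : ℝ) : SMap (spL 𝒜 δ) (spO 𝒜) :=
  ⟨fun c => ⟨fun t => c.1 (t / 2), fun t => by
      show c.1 ((t + 8) / 2) = c.1 (t / 2)
      rw [show (t + 8) / 2 = t / 2 + 4 by ring]
      exact c.2.1 _⟩, fun k p => by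
    exact L4.Sm.comp (g := fun z : V k × ℝ => (p.1 z.1).1 z.2) (f := fun z : V k × ℝ => (z.1, z.2 / 2)) p.2
      (contDiff_fst.prodMk (contDiff_snd.div_const _))⟩

theorem Eqv_iL : Eqv (cL 𝒜 δ) (cLO 𝒜) (iL 𝒜 δ) := fun c s => Subtype.ext (funext fun t => by
  show c.1 (t / 2 + 4 * s) = c.1 ((t + 8 * s) / 2)
  rw [show (t + 8 * s) / 2 = t / 2 + 4 * s by ring])

theorem fLO_iL : (fLO 𝒜).comp (iL 𝒜 δ) = fL 𝒜 δ := SMap_ext fun c => by
  show c.1 (0 / 2) = c.1 0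
  rw [zero_div]

theorem TT_iL (u : Om (spM 𝒜)) : (iL 𝒜 δ).pull (TT (cLO 𝒜) (fLO 𝒜) u) = TT (cL 𝒜 δ) (fL 𝒜 δ) u := by
  rw [← TT_nat Eqv_iL, fLO_iL]

end Pool.Agent.Lib.MP_ccbbf6_gt.K7
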