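import Pool.Agent.Lib.MP_ccbbf6_gt.K7.RT

/-!
# `κ = 7`, block B2, file LP1: time changes, loops with short quarter arcs, the chord homotopy (helper25, skeleton)

`s1 : 0` for `s ≤ 1/4`, `1` for `s ≥ 1/2`; `s2 : 0` for `s ≤ 1/2`, `1` for `s ≥ 3/4` (so always `s2 s = 0` or `s1 s = 1`).
`LC δ c` : there is `ℓ` (the length) with `dist (c s) (c t) ≤ ℓ t - ℓ s` (`s ≤ t`) and `ℓ (s + 1) - ℓ s ≤ π - δ`.
`hT 𝒜 τ c (i + s) = rat (c i) (c (i + τ + (1 - τ) s2 s)) (s1 s)`, `i` an integer, `0 ≤ s < 1`: for `τ = 1` the geodesic polygon with vertices `c i`, for `τ = 0` the curve `c ∘ sg`, `sg (i + s) = i + s2 s`.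

PROOFS.
(1) `s1`, `s2` : `Real.smoothTransition` (done).
(2) `LC_mono` (`ℓ` is monotone): `0 ≤ dist`. `LC_dist`: `dist (c s) (c t) ≤ π - δ` if `s ≤ t ≤ s + 1`.
(3) `LC_hT` : `ℓ' (t) := (1 - σ) ℓ i + (σ - 1) ℓ (i + τ) + ℓ (i + τ + (1 - τ) s2 s)` with `i = ⌊t⌋`, `s = Int.fract t`, `σ = s1 s` (if `s2 s = 0` this is `ℓ i + σ (ℓ (i+τ) - ℓ i)`, if `σ = 1` it is `ℓ (i + τ + (1 - τ) s2 s)`; at `s = 0` it is `ℓ i` and for `s ↑ 1` `ℓ (i+1)`).
    (a) `ℓ' (t + 1) - ℓ' t ≤ π - δ`: same `s`, `i + 1`; first case `(1 - σ)(ℓ (i+1) - ℓ i) + σ (ℓ (i+1+τ) - ℓ (i+τ))`, second case `ℓ (a + 1) - ℓ a`.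
    (b) `dist (H s) (H t) ≤ ℓ' t - ℓ' s` for `s ≤ t`: general principle `LC_local` below with the partition points `i/2`: on `[i, i + 1/2)` : `dist_rat_rat` (`s2 = 0`) and `dist (c i) (c (i+τ)) ≤ ℓ (i+τ) - ℓ i`; on `[i + 1/2, i + 1)` `σ = 1` (`rat_one`), `ℓ`;
        at `t = i + 1/2` both formulas agree (`s2 = 0`, `σ = 1`), and the value at `t = i + 1` (`σ = 0`, `rat_zero`: `c (i+1)`, `ℓ (i+1)`) is the value of the second formula with `s2 = 1`.
(4) `LC_local` : induction on `N` with `t ≤ (⌊2 s⌋ + N) / 2`, triangle inequality through the point `(⌊2 s⌋ + 1)/2`.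
(5) `hT_per` : `⌊t + 4⌋ = ⌊t⌋ + 4`, `Int.fract_add_ofNat` or `Int.fract (t + 4) = Int.fract t`, push_cast, periodicity of `c` (`c (a + 4) = c a`).
(6) `LC_step` : `L : ℤ → ℝ` with `L (i + 1) - L i = d i` (`exists_L`: `L i = ∑ over Finset.Ico 0 i - ∑ over Finset.Ico i 0`, or `Int.induction_on'`); `ℓ t = L ⌊t⌋`. `dist (x ⌊s⌋) (x ⌊t⌋) ≤ L ⌊t⌋ - L ⌊s⌋` by induction on the difference (`Int.le_induction`).
(7) `LC_comp` : `ℓ ∘ φ`.
-/

set_option autoImplicit false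

open Set Filter Topology Metric Real Module

open scoped ContDiff RealInnerProductSpace

noncomputable section

namespace Pool.Agent.Lib.MP_ccbbf6_gt.K7

open Geo L4 L4.ORI L5

/-- `0` on `(-∞, 1/4]`, `1` on `[1/2, ∞)` -/
def s1 (s : ℝ) : ℝ := Real.smoothTransition (4 * s - 1)

/-- `0` on `(-∞, 1/2]`, `1` on `[3/4, ∞)` -/
def s2 (s : ℝ) : ℝ := Real.smoothTransition (4 * s - 2)

theorem s1_zero {s : ℝ} (h : s ≤ 1 / 4) : s1 s = 0 := Real.smoothTransition.zero_of_nonpos (by linarith)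

theorem s1_one {s : ℝ} (h : 1 / 2 ≤ s) : s1 s = 1 := Real.smoothTransition.one_of_one_le (by linarith)

theorem s2_zero {s : ℝ} (h : s ≤ 1 / 2) : s2 s = 0 := Real.smoothTransition.zero_of_nonpos (by linarith)

theorem s2_one {s : ℝ} (h : 3 / 4 ≤ s) : s2 s = 1 := Real.smoothTransition.one_of_one_le (by linarith)

theorem s1_nonneg (s : ℝ) : 0 ≤ s1 s := Real.smoothTransition.nonneg _

theorem s1_le (s : ℝ) : s1 s ≤ 1 := Real.smoothTransition.le_one _

theorem s2_nonneg (s : ℝ) : 0 ≤ s2 s := Real.smoothTransition.nonneg _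

theorem s2_le (s : ℝ) : s2 s ≤ 1 := Real.smoothTransition.le_one _

theorem contDiff_s1 : ContDiff ℝ ∞ s1 :=
  Real.smoothTransition.contDiff.comp ((contDiff_const.mul contDiff_id).sub contDiff_const)

theorem contDiff_s2 : ContDiff ℝ ∞ s2 :=
  Real.smoothTransition.contDiff.comp ((contDiff_const.mul contDiff_id).sub contDiff_const)

theorem s_or (s : ℝ) : s2 s = 0 ∨ s1 s = 1 := by
  rcases le_total s (1 / 2) with h | h
  · exact Or.inl (s2_zero h)
  · exact Or.inr (s1_one h)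

theorem s1_mono : Monotone s1 := fun a b h => Real.smoothTransition.monotone (by linarith)

theorem s2_mono : Monotone s2 := fun a b h => Real.smoothTransition.monotone (by linarith)

variable {n : ℕ} {M : Type*} [MetricSpace M] {δ τ : ℝ} {c : ℝ → M}

/-- all arcs `c [s, s + 1]` have length at most `π - δ` -/
def LC (δ : ℝ) (c : ℝ → M) : Prop :=
  ∃ ℓ : ℝ → ℝ, (∀ s t, s ≤ t → dist (c s) (c t) ≤ ℓ t - ℓ s) ∧ ∀ s, ℓ (s + 1) - ℓ s ≤ π - δ

theorem LC_dist (h : LC δ c) {s t : ℝ} (h0 : s ≤ t) (h1 : t ≤ s + 1) : dist (c s) (c t) ≤ π - δ := by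
  obtain ⟨ℓ, a, b⟩ := h
  have h2 := a t (s + 1) h1
  have h3 := @dist_nonneg _ _ (c t) (c (s + 1))
  linarith [a s t h0, b s]

/-- the inequality follows from the intervals `[i/2, (i+1)/2]` -/
theorem LC_local {ℓ : ℝ → ℝ} (h : ∀ (i : ℤ) (s t : ℝ), (i : ℝ) / 2 ≤ s → s ≤ t → t ≤ ((i : ℝ) + 1) / 2 →
    dist (c s) (c t) ≤ ℓ t - ℓ s) {s t : ℝ} (hst : s ≤ t) : dist (c s) (c t) ≤ ℓ t - ℓ s := by
  have base : ∀ s t : ℝ, s ≤ t → t ≤ ((⌊2 * s⌋ : ℝ) + 1) / 2 → dist (c s) (c t) ≤ ℓ t - ℓ s := by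
    intro s t h1 h2
    refine h ⌊2 * s⌋ s t ?_ h1 h2
    have h3 := Int.floor_le (2 * s)
    linarith
  have key : ∀ (N : ℕ) (s t : ℝ), s ≤ t → t ≤ ((⌊2 * s⌋ : ℝ) + 1 + N) / 2 → dist (c s) (c t) ≤ ℓ t - ℓ s := by
    intro N
    induction N with
    | zero =>
      intro s t h1 h2
      refine base s t h1 (h2.trans (le_of_eq ?_))
      push_cast
      ring
    | succ N ih =>
      intro s t h1 h2
      rcases le_total t (((⌊2 * s⌋ : ℝ) + 1) / 2) with h3 | h3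
      · exact base s t h1 h3
      · obtain ⟨m, hm⟩ : ∃ m : ℝ, m = ((⌊2 * s⌋ : ℝ) + 1) / 2 := ⟨_, rfl⟩
        have h4 := Int.lt_floor_add_one (2 * s)
        have h5 : s ≤ m := by
          rw [hm]
          linarith
        have h6 : ⌊2 * m⌋ = ⌊2 * s⌋ + 1 := by
          have h7 : 2 * m = ((⌊2 * s⌋ + 1 : ℤ) : ℝ) := by
            rw [hm]
            push_cast
            ring
          rw [h7, Int.floor_intCast]
        have h8 := base s m h5 hm.le
        have h9 := ih m t (by rw [hm]; exact h3) (by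
          rw [h6]
          push_cast at h2 ⊢
          linarith)
        have h10 := dist_triangle (c s) (c m) (c t)
        linarith
  obtain ⟨N, hN⟩ := exists_nat_ge (2 * t - (⌊2 * s⌋ : ℝ) - 1)
  exact key N s t hst (by linarith)

theorem LC_comp (h : LC δ c) {φ : ℝ → ℝ} (hφ : Monotone φ) (h1 : ∀ s, φ (s + 1) = φ s + 1) :
    LC δ fun t => c (φ t) := by
  obtain ⟨ℓ, a, b⟩ := h
  exact ⟨fun t => ℓ (φ t), fun s t hst => a _ _ (hφ hst), fun s => by
    show ℓ (φ (s + 1)) - ℓ (φ s) ≤ π - δ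
    rw [h1]
    exact b _⟩

theorem exists_L (d : ℤ → ℝ) : ∃ L : ℤ → ℝ, ∀ i, L (i + 1) - L i = d i := by
  refine ⟨fun i => match i with
    | Int.ofNat m => ∑ j ∈ Finset.range m, d (Int.ofNat j)
    | Int.negSucc m => -∑ j ∈ Finset.range (m + 1), d (Int.negSucc j), fun i => ?_⟩
  match i with
  | Int.ofNat m =>
    show (∑ j ∈ Finset.range (m + 1), d (Int.ofNat j)) - (∑ j ∈ Finset.range m, d (Int.ofNat j)) = d (Int.ofNat m)
    rw [Finset.sum_range_succ]
    ring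
  | Int.negSucc 0 =>
    show (∑ j ∈ Finset.range 0, d (Int.ofNat j)) - (-∑ j ∈ Finset.range (0 + 1), d (Int.negSucc j)) = d (Int.negSucc 0)
    rw [Finset.sum_range_zero, Finset.sum_range_succ, Finset.sum_range_zero]
    ring
  | Int.negSucc (m + 1) =>
    show (-∑ j ∈ Finset.range (m + 1), d (Int.negSucc j)) - (-∑ j ∈ Finset.range (m + 1 + 1), d (Int.negSucc j)) =
      d (Int.negSucc (m + 1))
    rw [Finset.sum_range_succ _ (m + 1)]
    ring

theorem LC_step {x : ℤ → M} (h : ∀ i, dist (x i) (x (i + 1)) ≤ π - δ) : LC δ fun t => x ⌊t⌋ := by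
  obtain ⟨L, hL⟩ := exists_L fun i => dist (x i) (x (i + 1))
  have key : ∀ a b : ℤ, a ≤ b → dist (x a) (x b) ≤ L b - L a := by
    intro a b hab
    induction b, hab using Int.leInduction with
    | base => rw [dist_self, sub_self]
    | succ b hb ih =>
      have h1 := dist_triangle (x a) (x b) (x (b + 1))
      have h2 := hL b
      linarith
  refine ⟨fun t => L ⌊t⌋, fun s t hst => key _ _ (Int.floor_le_floor hst), fun s => ?_⟩
  show L ⌊s + 1⌋ - L ⌊s⌋ ≤ π - δ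
  rw [Int.floor_add_one, hL]
  exact h _

variable [CompactSpace M] (𝒜 : SDist n M)

/-- the chord homotopy -/
def hT (τ : ℝ) (c : ℝ → M) (t : ℝ) : M :=
  rat 𝒜 (c ⌊t⌋) (c (⌊t⌋ + τ + (1 - τ) * s2 (Int.fract t))) (s1 (Int.fract t))

variable {𝒜}

/-- **the chord homotopy does not increase the lengths of the quarter arcs** -/
theorem LC_hT (hB : Bl M) (h : LC δ c) (h0 : 0 ≤ τ) (h1 : τ ≤ 1) : LC δ (hT 𝒜 τ c) := by
  obtain ⟨ℓ, ha, hb⟩ := h
  obtain ⟨L, hL⟩ : ∃ L : ℝ → ℝ, ∀ t, L t = (1 - s1 (Int.fract t)) * ℓ ⌊t⌋ + (s1 (Int.fract t) - 1) * ℓ (⌊t⌋ + τ) +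
      ℓ (⌊t⌋ + τ + (1 - τ) * s2 (Int.fract t)) := ⟨_, fun _ => rfl⟩
  have hA : ∀ (m : ℤ) (s : ℝ), (m : ℝ) ≤ s → s ≤ (m : ℝ) + 1 / 2 →
      hT 𝒜 τ c s = rat 𝒜 (c m) (c (m + τ)) (s1 (s - m)) ∧ L s = (1 - s1 (s - m)) * ℓ m + s1 (s - m) * ℓ (m + τ) := by
    intro m s k1 k2
    have hf : ⌊s⌋ = m := Int.floor_eq_iff.2 ⟨k1, by linarith⟩
    have hr : Int.fract s = s - m := by
      unfold Int.fract
      rw [hf]
    have hz : s2 (s - m) = 0 := s2_zero (by linarith)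
    constructor
    · unfold hT
      rw [hf, hr, hz, mul_zero, add_zero]
    · rw [hL, hf, hr, hz, mul_zero, add_zero]
      ring
  have hC : ∀ (m : ℤ) (s : ℝ), (m : ℝ) + 1 / 2 ≤ s → s ≤ (m : ℝ) + 1 →
      hT 𝒜 τ c s = c (m + τ + (1 - τ) * s2 (s - m)) ∧ L s = ℓ (m + τ + (1 - τ) * s2 (s - m)) := by
    intro m s k1 k2
    rcases lt_or_eq_of_le k2 with k3 | k3
    · have hf : ⌊s⌋ = m := Int.floor_eq_iff.2 ⟨by linarith, k3⟩
      have hr : Int.fract s = s - m := by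
        unfold Int.fract
        rw [hf]
      have hz : s1 (s - m) = 1 := s1_one (by linarith)
      constructor
      · unfold hT
        rw [hf, hr, hz, rat_one hB]
      · rw [hL, hf, hr, hz]
        ring
    · have hf : ⌊s⌋ = m + 1 := by
        rw [k3, Int.floor_add_one, Int.floor_intCast]
      have hr : Int.fract s = 0 := by
        unfold Int.fract
        rw [hf, k3]
        push_cast
        ring
      have hz : s1 0 = 0 := s1_zero (by norm_num)
      have hz2 : s2 0 = 0 := s2_zero (by norm_num)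
      have hz3 : s2 (s - m) = 1 := s2_one (by linarith)
      have e : (m : ℝ) + τ + (1 - τ) * 1 = ((m + 1 : ℤ) : ℝ) := by
        push_cast
        ring
      constructor
      · unfold hT
        rw [hf, hr, hz, rat_zero hB, hz3, e]
      · rw [hL, hf, hr, hz, hz2, hz3, e, mul_zero, add_zero]
        ring
  refine ⟨L, fun s t hst => ?_, fun s => ?_⟩
  · refine LC_local (c := hT 𝒜 τ c) (ℓ := L) ?_ hst
    intro i s t k1 k2 k3
    rcases Int.even_or_odd' i with ⟨m, hm | hm⟩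
    · rw [hm] at k1 k3
      push_cast at k1 k3
      obtain ⟨p1, p2⟩ := hA m s (by linarith) (by linarith)
      obtain ⟨q1, q2⟩ := hA m t (by linarith) (by linarith)
      rw [p1, p2, q1, q2, dist_rat_rat hB _ _ (s1_nonneg _) (s1_le _) (s1_nonneg _) (s1_le _)]
      have hmono : s1 (s - m) ≤ s1 (t - m) := s1_mono (by linarith)
      rw [abs_of_nonpos (by linarith)]
      have k4 := ha m (m + τ) (by linarith)
      have k5 := mul_le_mul_of_nonneg_left k4 (show 0 ≤ -(s1 (s - m) - s1 (t - m)) by linarith)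
      refine k5.trans (le_of_eq ?_)
      ring
    · rw [hm] at k1 k3
      push_cast at k1 k3
      obtain ⟨p1, p2⟩ := hC m s (by linarith) (by linarith)
      obtain ⟨q1, q2⟩ := hC m t (by linarith) (by linarith)
      rw [p1, p2, q1, q2]
      refine ha _ _ ?_
      have hmono : s2 (s - m) ≤ s2 (t - m) := s2_mono (by linarith)
      have k4 := mul_le_mul_of_nonneg_left hmono (show 0 ≤ 1 - τ by linarith)
      linarith
  · rw [hL, hL, Int.floor_add_one, Int.fract_add_one]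
    push_cast
    rcases s_or (Int.fract s) with k1 | k1
    · rw [k1, mul_zero, add_zero, add_zero]
      have k2 := hb ⌊s⌋
      have k3 := hb (⌊s⌋ + τ)
      have e1 : ((⌊s⌋ : ℝ) + 1 + τ) = (⌊s⌋ : ℝ) + τ + 1 := by ring
      rw [e1]
      have k4 := mul_le_mul_of_nonneg_left k2 (show 0 ≤ 1 - s1 (Int.fract s) by linarith [s1_le (Int.fract s)])
      have k5 := mul_le_mul_of_nonneg_left k3 (s1_nonneg (Int.fract s))
      linarith
    · rw [k1]
      have k2 := hb (⌊s⌋ + τ + (1 - τ) * s2 (Int.fract s))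
      have e1 : ((⌊s⌋ : ℝ) + 1 + τ + (1 - τ) * s2 (Int.fract s)) = (⌊s⌋ : ℝ) + τ + (1 - τ) * s2 (Int.fract s) + 1 := by
        ring
      rw [e1]
      linarith

theorem hT_per (hc : ∀ t, c (t + 4) = c t) (t : ℝ) : hT 𝒜 τ c (t + 4) = hT 𝒜 τ c t := by
  unfold hT
  have h1 : ⌊t + 4⌋ = ⌊t⌋ + 4 := Int.floor_add_ofNat t 4
  have h2 : Int.fract (t + 4) = Int.fract t := Int.fract_add_ofNat t 4
  rw [h1, h2]
  push_cast
  have h3 : (⌊t⌋ : ℝ) + 4 + τ + (1 - τ) * s2 (Int.fract t) = (⌊t⌋ : ℝ) + τ + (1 - τ) * s2 (Int.fract t) + 4 := by ring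
  rw [h3, hc, hc]

/-- the time change `i + s ↦ i + s2 s` -/
def sg (t : ℝ) : ℝ := ⌊t⌋ + s2 (Int.fract t)

theorem hT_zero (hB : Bl M) (c : ℝ → M) (t : ℝ) : hT 𝒜 0 c t = c (sg t) := by
  unfold hT sg
  rcases s_or (Int.fract t) with h | h
  · rw [h, mul_zero, add_zero, add_zero, rat_self hB]
  · rw [h, rat_one hB, sub_zero, one_mul, add_zero]

omit [CompactSpace M] in
theorem hT_one (c : ℝ → M) (t : ℝ) : hT 𝒜 1 c t = rat 𝒜 (c ⌊t⌋) (c (⌊t⌋ + 1)) (s1 (Int.fract t)) := by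
  unfold hT
  rw [sub_self, zero_mul, add_zero]

theorem hT_const (hB : Bl M) (x : M) (t : ℝ) : hT 𝒜 τ (fun _ => x) t = x := by
  unfold hT
  rw [rat_self hB]

theorem sg_mono : Monotone sg := by
  intro s t hst
  unfold sg
  rcases lt_or_eq_of_le (Int.floor_le_floor hst) with h | h
  · have h1 : (⌊s⌋ : ℝ) + 1 ≤ ⌊t⌋ := by exact_mod_cast h
    have h2 := s2_le (Int.fract s)
    have h3 := s2_nonneg (Int.fract t)
    linarith
  · have h1 : Int.fract s ≤ Int.fract t := by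
      unfold Int.fract
      rw [h]
      linarith
    rw [h]
    have h2 := s2_mono h1
    linarith

theorem sg_add (t : ℝ) : sg (t + 1) = sg t + 1 := by
  unfold sg
  rw [Int.floor_add_one, Int.fract_add_one]
  push_cast
  ring

end Pool.Agent.Lib.MP_ccbbf6_gt.K7
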