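import Pool.Agent.Lib.MP_ccbbf6_gt.K7.UA1
import Pool.Agent.Lib.MP_ccbbf6_gt.L5.PHI01

/-!
# `κ = 7`, block UA, part 1b: contraction and integration in different variables (helper25)

* `i_K`, `i_Q` : contraction with the generator and the operators `KO`, `QO` on `X × R`; `Bas_K`.
-/

set_option autoImplicit false
set_option maxSynthPendingDepth 3

open Set Filter Topology MeasureTheory
open scoped TensorProduct ContDiff

noncomputable section

namespace Pool.Agent.Lib.MP_ccbbf6_gt.K7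

open L4 L4.FR L5

variable {X Y Z M : Space} {k l n : ℕ} {i j : ℕ}

/-- exchange of the last two coordinates -/
def sw (k : ℕ) : FR.Sm (k + 1 + 1) (k + 1 + 1) :=
  ⟨fun z => Fin.snoc (Fin.snoc (pr k (pr (k + 1) z)) (z (Fin.last (k + 1))) : V (k + 1)) (z (Fin.last k).castSucc),
    contDiff_snoc.comp ((contDiff_snoc.comp (((pr k).smooth.comp (pr (k + 1)).smooth).prodMk
      (contDiff_apply ℝ ℝ (Fin.last (k + 1))))).prodMk (contDiff_apply ℝ ℝ (Fin.last k).castSucc))⟩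

theorem sw_snoc (z : V k) (a b : ℝ) : sw k (Fin.snoc (Fin.snoc z a : V (k + 1)) b : V (k + 1 + 1)) =
    Fin.snoc (Fin.snoc z b : V (k + 1)) a := by
  change (Fin.snoc (Fin.snoc (pr k (pr (k + 1) (Fin.snoc (Fin.snoc z a : V (k + 1)) b)))
    ((Fin.snoc (Fin.snoc z a : V (k + 1)) b : V (k + 1 + 1)) (Fin.last (k + 1))) : V (k + 1))
    ((Fin.snoc (Fin.snoc z a : V (k + 1)) b : V (k + 1 + 1)) (Fin.last k).castSucc) : V (k + 1 + 1)) = _
  rw [pr_snoc, pr_snoc, Fin.snoc_last, Fin.snoc_castSucc, Fin.snoc_last]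

theorem cp_sw_cc (i : Fin k) : (sw k).cp i.castSucc.castSucc = co i.castSucc.castSucc := by
  apply Cs_ext
  intro z
  change (Fin.snoc (Fin.snoc (pr k (pr (k + 1) z)) (z (Fin.last (k + 1))) : V (k + 1)) (z (Fin.last k).castSucc) :
    V (k + 1 + 1)) i.castSucc.castSucc = z i.castSucc.castSucc
  rw [Fin.snoc_castSucc, Fin.snoc_castSucc]
  rfl

theorem cp_sw_lc : (sw k).cp (Fin.last k).castSucc = co (Fin.last (k + 1)) := by
  apply Cs_ext
  intro z
  change (Fin.snoc (Fin.snoc (pr k (pr (k + 1) z)) (z (Fin.last (k + 1))) : V (k + 1)) (z (Fin.last k).castSucc) :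
    V (k + 1 + 1)) (Fin.last k).castSucc = z (Fin.last (k + 1))
  rw [Fin.snoc_castSucc, Fin.snoc_last]

theorem cp_sw_l : (sw k).cp (Fin.last (k + 1)) = co (Fin.last k).castSucc := by
  apply Cs_ext
  intro z
  change (Fin.snoc (Fin.snoc (pr k (pr (k + 1) z)) (z (Fin.last (k + 1))) : V (k + 1)) (z (Fin.last k).castSucc) :
    V (k + 1 + 1)) (Fin.last (k + 1)) = z (Fin.last k).castSucc
  rw [Fin.snoc_last]

theorem cn_sw_gen {φ ψ : V (k + 1 + 1) →ₗ[ℝ] ℝ}
    (h : ∀ i, cn φ (pb (sw k) (dx i)) = pb (sw k) (cn ψ (dx i))) (x : Fm (k + 1 + 1)) :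
    cn φ (pb (sw k) x) = pb (sw k) (cn ψ x) := by
  induction x using Fm_ind with
  | hf f => rw [pb_fc, cn_fc, cn_fc, map_zero]
  | hd i => exact h i
  | hm x y hx hy => rw [map_mul, cn_mul, cn_mul, map_add, map_mul, map_mul, hx, hy, pb_sg]
  | ha x y hx hy => rw [map_add, map_add, hx, hy, map_add, map_add]

theorem lst'_cc (i : Fin k) : lst' k (Pi.single i.castSucc.castSucc 1) = 0 := by
  rw [lst'_apply, Pi.single_eq_of_ne]
  intro h
  exact (Fin.castSucc_lt_last i).ne (Fin.castSucc_injective _ h).symm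

theorem lst'_l : lst' k (Pi.single (Fin.last (k + 1)) 1) = 0 := by
  rw [lst'_apply, Pi.single_eq_of_ne]
  exact (Fin.castSucc_lt_last _).ne

theorem lst'_lc : lst' k (Pi.single (Fin.last k).castSucc 1) = 1 := by
  rw [lst'_apply, Pi.single_eq_same]

theorem lst_c (i : Fin (k + 1)) : lst (k + 1) (Pi.single i.castSucc 1) = 0 := by
  rw [lst_apply, Pi.single_eq_of_ne]
  exact (Fin.castSucc_lt_last _).ne'

theorem lst_l : lst (k + 1) (Pi.single (Fin.last (k + 1)) 1) = 1 := by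
  rw [lst_apply, Pi.single_eq_same]

theorem cs_sw (x : Fm (k + 1 + 1)) : cs (k + 1) (pb (sw k) x) = pb (sw k) (cn (lst' k) x) := by
  refine cn_sw_gen (fun i => ?_) x
  refine Fin.lastCases ?_ (fun i => Fin.lastCases ?_ (fun i => ?_) i) i
  · rw [pb_dx, cp_sw_l, fc_pd_co, cn_dx, cn_dx, lst_c, lst'_l, AlgHom.commutes]
  · rw [pb_dx, cp_sw_lc, fc_pd_co, cn_dx, cn_dx, lst_l, lst'_lc, AlgHom.commutes]
  · rw [pb_dx, cp_sw_cc, fc_pd_co, cn_dx, cn_dx, lst_c, lst'_cc, AlgHom.commutes]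

theorem cn_sw (x : Fm (k + 1 + 1)) : cn (lst' k) (pb (sw k) x) = pb (sw k) (cs (k + 1) x) := by
  refine cn_sw_gen (fun i => ?_) x
  refine Fin.lastCases ?_ (fun i => Fin.lastCases ?_ (fun i => ?_) i) i
  · rw [pb_dx, cp_sw_l, fc_pd_co, cn_dx, cn_dx, lst_l, lst'_lc, AlgHom.commutes]
  · rw [pb_dx, cp_sw_lc, fc_pd_co, cn_dx, cn_dx, lst_c, lst'_l, AlgHom.commutes]
  · rw [pb_dx, cp_sw_cc, fc_pd_co, cn_dx, cn_dx, lst_c, lst'_cc, AlgHom.commutes]

/-- contractions anticommute -/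
theorem cn_anti (φ ψ : V k →ₗ[ℝ] ℝ) (x : Fm k) : cn φ (cn ψ x) = -cn ψ (cn φ x) := by
  have h0 : ∀ y : Fm k, cn (φ + ψ) y = cn φ y + cn ψ y := by
    intro y
    induction y using Fm_tind with
    | hf f a =>
      rw [cn_tm, cn_tm, cn_tm, ← tm_add_right]
      have : ctr (φ + ψ) a = ctr φ a + ctr ψ a := by
        unfold ctr
        rw [map_add]
        rfl
      rw [this]
    | ha x y hx hy => rw [map_add, map_add, map_add, hx, hy]; abel
  have h1 := cn_cn (φ + ψ) x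
  rw [h0, h0, map_add, map_add, cn_cn, cn_cn, zero_add, add_zero] at h1
  exact eq_neg_of_add_eq_zero_left h1

theorem cs_sl (t : ℝ) (x : Fm (k + 1 + 1)) : cs k (pb (sl (k + 1) t) x) = pb (sl (k + 1) t) (cn (lst' k) x) := by
  induction x using Fm_ind with
  | hf f => rw [pb_fc, cs, cn_fc, cn_fc, map_zero]
  | hd i =>
    refine Fin.lastCases ?_ (fun i => ?_) i
    · have h1 : dd (k + 1) (fc (k + 1) (algebraMap ℝ (Cs (k + 1)) t)) = 0 := by
        rw [dd_fc]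
        refine Finset.sum_eq_zero fun i _ => ?_
        rw [pd_const, map_zero, zero_mul]
      rw [pb_dx, cp_sl_last, h1, map_zero, cn_dx, lst'_l, map_zero, map_zero]
    · have h2 : lst k (Pi.single i 1) = lst' k (Pi.single i.castSucc 1) := by
        rw [lst_apply, lst'_apply]
        by_cases h : i = Fin.last k
        · subst h
          rw [Pi.single_eq_same, Pi.single_eq_same]
        · rw [Pi.single_eq_of_ne (Ne.symm h), Pi.single_eq_of_ne]
          intro h'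
          exact h (Fin.castSucc_injective _ h').symm
      rw [pb_dx, cp_sl_castSucc, fc_pd_co, cs, cn_dx, cn_dx, h2, AlgHom.commutes]
  | hm x y hx hy =>
    rw [cs] at hx hy
    rw [map_mul, cs, cn_mul, cn_mul, map_add, map_mul, map_mul, hx, hy, pb_sg]
  | ha x y hx hy => rw [map_add, map_add, hx, hy, map_add, map_add]

theorem sw_up : (sw k).comp (sl k 0).up = sl (k + 1) 0 :=
  FR.Sm.ext fun z => by
    have hz : z = Fin.snoc (pr k z) (z (Fin.last k)) := (snoc_pr z).symm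
    change sw k ((sl k 0).up z) = Fin.snoc z 0
    rw [hz, up_snoc]
    exact sw_snoc _ _ _

theorem Q0_cs_sw (w : Fm (k + 1 + 1)) :
    pb (sl k 0) (cs k (Q0 (k + 1) (pb (sw k) w))) = Q0 k (pb (sl (k + 1) 0) (cs (k + 1) w)) := by
  have h1 : (lst k).comp (ini (k + 1)) = lst' k := rfl
  rw [cs, cn_Q0, h1, cn_sw, ← Q0_up, ← pb_comp, sw_up]

/-- contraction in one variable, integration in the other one -/
theorem KK_cs_sw (w : Fm (k + 1 + 1)) :
    pb (sl k 0) (cs k (KK (k + 1) (pb (sw k) w))) = -KK k (pb (sl (k + 1) 0) (cs (k + 1) w)) := by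
  rw [KK_apply, cs_sw, Q0_cs_sw, KK_apply, cs_sl, cs, cn_anti (lst' k), map_neg, map_neg, neg_neg]

variable {c : Circ X}

theorem up_op (p : X.Plot k) : (c.op p).up = ((xRc c).op p.up).cmp (sw k) :=
  Plot_ext fun z => by
    obtain ⟨y, b, rfl⟩ : ∃ (y : V (k + 1)) (b : ℝ), z = Fin.snoc y b := ⟨_, _, (snoc_pr z).symm⟩
    obtain ⟨x, a, rfl⟩ : ∃ (x : V k) (a : ℝ), y = Fin.snoc x a := ⟨_, _, (snoc_pr y).symm⟩
    change (c.a.1 (p.1 (pr k (pr (k + 1) (Fin.snoc (Fin.snoc x a : V (k + 1)) b : V (k + 1 + 1)))),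
      (pr (k + 1) (Fin.snoc (Fin.snoc x a : V (k + 1)) b : V (k + 1 + 1))) (Fin.last k)),
      (Fin.snoc (Fin.snoc x a : V (k + 1)) b : V (k + 1 + 1)) (Fin.last (k + 1))) =
      (c.a.1 (p.1 (pr k (pr (k + 1) (sw k (Fin.snoc (Fin.snoc x a : V (k + 1)) b : V (k + 1 + 1))))),
        (sw k (Fin.snoc (Fin.snoc x a : V (k + 1)) b : V (k + 1 + 1))) (Fin.last (k + 1))),
        (pr (k + 1) (sw k (Fin.snoc (Fin.snoc x a : V (k + 1)) b : V (k + 1 + 1)))) (Fin.last k))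
    rw [sw_snoc, pr_snoc, pr_snoc, pr_snoc, pr_snoc, Fin.snoc_last, Fin.snoc_last, Fin.snoc_last, Fin.snoc_last]

theorem i_K (Θ : Om X.xR) : iO c (KO X Θ) = -KO X (iO (xRc c) Θ) :=
  Om_ext fun k p => by
    rw [on_i, on_K, up_op, on_cmp, KK_cs_sw, on_neg, on_K, on_i]

theorem i_Q (Θ : Om X.xR) : iO c (QO X Θ) = QO X (iO (xRc c) Θ) :=
  Om_ext fun k p => by
    rw [on_i, on_Q, up_op, on_cmp, Q0_cs_sw, on_Q, on_i]

theorem Bas_K {Θ : Om X.xR} (h : Bas (xRc c) Θ) : Bas c (KO X Θ) := by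
  have h1 : iO (xRc c) Θ = 0 := Bas_i _ h
  have h2 : iO (xRc c) (dO _ Θ) = 0 := Bas_i _ (Bas_d _ h)
  have h3 := d_K Θ
  refine Bas_of c (by rw [i_K, h1, map_zero, neg_zero]) ?_
  have h4 : dO X (KO X Θ) = (jO X 1).pull Θ - (jO X 0).pull Θ - KO X (dO X.xR Θ) := by rw [← h3]; abel
  rw [h4, map_sub, map_sub, i_nat (Eqv_j c 1), i_nat (Eqv_j c 0), h1, map_zero, map_zero, i_K, h2, map_zero]
  simp

end Pool.Agent.Lib.MP_ccbbf6_gt.K7
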