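import Pool.Agent.Lib.MP_ccbbf6_gt.K7.KT
import Pool.Agent.Lib.MP_ccbbf6_gt.K7.UA1b
import Pool.Agent.Lib.MP_ccbbf6_gt.L4.Cmp2

/-!
# `κ = 7`, block F-D, part 1: forms on `X × R` without `dt` component, paths given piecewise (helper79)

* `NoDt θ`; `NoDt_bh`; `EqI θ θ'` : equality over `0 < t < 1`; `EqI_slice`;
* `j_bh`, `Jt_piece`, `bh_piece` : `b^` of a path given piecewise by other paths.
-/

set_option autoImplicit false
set_option maxSynthPendingDepth 3

open Set Filter Topology MeasureTheory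
open scoped TensorProduct ContDiff

noncomputable section

namespace Pool.Agent.Lib.MP_ccbbf6_gt.K7

open L4 L4.FR L5

variable {X Y Z M : Space} {k l n : ℕ} {i j : ℕ}

/-! ### No `dt` component -/

/-- no `dt` component -/
def NoDt (θ : Om X.xR) : Prop := ∀ (k : ℕ) (p : X.Plot k), cs k (Om.on θ p.up) = 0

theorem cn_fc_mul (φ : V k →ₗ[ℝ] ℝ) (g : Cs k) (x : Fm k) : cn φ (fc k g * x) = fc k g * cn φ x := by
  rw [cn_mul, cn_fc, zero_mul, zero_add, sg_fc]

theorem cs_mul (x y : Fm (k + 1)) : cs k (x * y) = cs k x * y + sg (k + 1) x * cs k y := cn_mul _ _ _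

theorem NoDt_add {θ τ : Om X.xR} (h : NoDt θ) (h' : NoDt τ) : NoDt (θ + τ) := fun k p => by
  rw [on_add, map_add, h, h', add_zero]

theorem NoDt_neg {θ : Om X.xR} (h : NoDt θ) : NoDt (-θ) := fun k p => by
  rw [on_neg, map_neg, h, neg_zero]

theorem NoDt_sub {θ τ : Om X.xR} (h : NoDt θ) (h' : NoDt τ) : NoDt (θ - τ) := by
  rw [sub_eq_add_neg]
  exact NoDt_add h (NoDt_neg h')

theorem NoDt_mul {θ τ : Om X.xR} (h : NoDt θ) (h' : NoDt τ) : NoDt (θ * τ) := fun k p => by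
  rw [on_mul, cs_mul, h, h', zero_mul, mul_zero, add_zero]

theorem NoDt_p (z : Om X) : NoDt ((pO X).pull z) := fun k p => by rw [on_p, cs_pr]

theorem NoDt_one : NoDt (1 : Om X.xR) := by
  have h := NoDt_p (1 : Om X)
  rwa [map_one] at h

theorem NoDt_sF : NoDt (sF X) := fun k p => by rw [on_sF_up]; exact cn_fc _ _

theorem NoDt_Rph {φ : ℝ → ℝ} (hφ : ContDiff ℝ ∞ φ) {θ : Om X.xR} (h : NoDt θ) : NoDt ((Rph X hφ).pull θ) := fun k p => by
  rw [on_pull, Rph_up, on_cmp, cs_rpk, h, map_zero, mul_zero]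

theorem NoDt_up (g : SMap Y X) {θ : Om X.xR} (h : NoDt θ) : NoDt (g.up.pull θ) := fun k p => h k (g.pl p)

theorem K_NoDt {θ : Om X.xR} (h : NoDt θ) : KO X θ = 0 := Om_ext fun k p => by
  rw [on_K, KK_apply, h, map_zero, on_zero]

/-! ### Equality over `0 < t < 1` -/

/-- equality over `0 < t < 1` -/
def EqI (θ τ : Om X.xR) : Prop := ∀ (k : ℕ) (p : X.Plot k) (z : V (k + 1)), 0 < z (Fin.last k) → z (Fin.last k) < 1 →
  ev z (Om.on θ p.up) = ev z (Om.on τ p.up)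

theorem EqI.rfl' {θ : Om X.xR} : EqI θ θ := fun _ _ _ _ _ => rfl

theorem EqI.add {θ τ θ' τ' : Om X.xR} (h : EqI θ τ) (h' : EqI θ' τ') : EqI (θ + θ') (τ + τ') := fun k p z h0 h1 => by
  rw [on_add, on_add, map_add, map_add, h k p z h0 h1, h' k p z h0 h1]

theorem EqI.mul {θ τ θ' τ' : Om X.xR} (h : EqI θ τ) (h' : EqI θ' τ') : EqI (θ * θ') (τ * τ') := fun k p z h0 h1 => by
  rw [on_mul, on_mul, map_mul, map_mul, h k p z h0 h1, h' k p z h0 h1]

theorem EqI.K {θ τ : Om X.xR} (h : EqI θ τ) : KO X θ = KO X τ := Om_ext fun k p => by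
  rw [on_K, on_K]
  exact KK_congr fun z h0 h1 => h k p z h0 h1

theorem EqI_pull {F F' : SMap X.xR M} (h : ∀ x s, 0 < s → s < 1 → F.1 (x, s) = F'.1 (x, s)) (θ : Om M) :
    EqI (F.pull θ) (F'.pull θ) := fun k p z h0 h1 => by
  rw [on_pull, on_pull]
  refine on_germ θ ?_
  have hc : Continuous fun y : V (k + 1) => y (Fin.last k) := continuous_apply _
  filter_upwards [hc.continuousAt.eventually (lt_mem_nhds h0), hc.continuousAt.eventually (gt_mem_nhds h1)] with y h2 h3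
  exact h _ _ h2 h3

/-- forms without `dt` component are determined by their slices -/
theorem EqI_slice {θ τ : Om X.xR} (h : NoDt θ) (h' : NoDt τ)
    (hs : ∀ t, 0 < t → t < 1 → (jO X t).pull θ = (jO X t).pull τ) : EqI θ τ := by
  intro k p z h0 h1
  have hz : z = Fin.snoc (pr k z) (z (Fin.last k)) := (snoc_pr z).symm
  have key : ∀ w : Om X.xR, NoDt w →
      ev z (Om.on w p.up) = inc k (ev (pr k z) (Om.on ((jO X (z (Fin.last k))).pull w) p)) := by
    intro w hw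
    have h2 : ctr (lst k) (ev z (Om.on w p.up)) = 0 := by
      have h3 := congrArg (ev z) (hw k p)
      rw [cs, ev_cn', map_zero] at h3
      exact h3
    rw [dec (ev z _), h2, map_zero, map_zero, mul_zero, add_zero, on_j, ev_slP, ← hz]
  rw [key θ h, key τ h', hs _ h0 h1]

/-- forms without `dt` component -/
theorem NoDt.eq {θ : Om X.xR} (h : NoDt θ) (hd : NoDt (dO _ θ)) : θ = (pO X).pull ((jO X 0).pull θ) := by
  have key : ∀ (k : ℕ) (p : X.Plot k), Om.on θ p.up = Om.on ((pO X).pull ((jO X 0).pull θ)) p.up := by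
    intro k p
    have h1 : cs k (dd (k + 1) (Om.on θ p.up)) = 0 := hd k p
    rw [Fm_pr (h k p) h1, on_p, on_j]
  refine Om_ext fun k q => ?_
  let p : X.Plot k := ⟨fun z => (q.1 z).1, q.2.1⟩
  let s : FR.Sm k (k + 1) := ⟨fun z => Fin.snoc z (q.1 z).2, contDiff_snoc.comp (contDiff_id.prodMk q.2.2)⟩
  have e : q = p.up.cmp s := Plot_ext fun z => by
    change q.1 z = (p.1 (pr k (Fin.snoc z (q.1 z).2)), (Fin.snoc z (q.1 z).2 : V (k + 1)) (Fin.last k))
    rw [pr_snoc, Fin.snoc_last]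
    rfl
  rw [e, on_cmp, on_cmp, key]

/-! ### `b^` has no `dt` component -/

/-- `(x, s, r) ↦ (x, r s)` -/
def SSm (k : ℕ) : FR.Sm (k + 1 + 1) (k + 1) :=
  ⟨fun z => Fin.snoc (pr k (pr (k + 1) z)) (z (Fin.last (k + 1)) * z (Fin.last k).castSucc),
    contDiff_snoc.comp (((pr k).smooth.comp (pr (k + 1)).smooth).prodMk
      ((contDiff_apply ℝ ℝ (Fin.last (k + 1))).mul (contDiff_apply ℝ ℝ (Fin.last k).castSucc)))⟩

theorem SS_upup (p : X.Plot k) : (SS X).pl p.up.up = p.up.cmp (SSm k) := Plot_ext fun z => by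
  change (p.1 (pr k (pr (k + 1) z)), z (Fin.last (k + 1)) * (pr (k + 1) z) (Fin.last k)) =
    (p.1 (pr k (Fin.snoc (pr k (pr (k + 1) z)) (z (Fin.last (k + 1)) * z (Fin.last k).castSucc))),
      (Fin.snoc (pr k (pr (k + 1) z)) (z (Fin.last (k + 1)) * z (Fin.last k).castSucc) : V (k + 1)) (Fin.last k))
  rw [pr_snoc, Fin.snoc_last]
  rfl

theorem cp_SSm_castSucc (i : Fin k) : (SSm k).cp i.castSucc = co i.castSucc.castSucc := by
  apply Cs_ext
  intro z
  exact Fin.snoc_castSucc (α := fun _ => ℝ) _ _ i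

theorem cp_SSm_last : (SSm k).cp (Fin.last k) = co (Fin.last (k + 1)) * co (Fin.last k).castSucc := by
  apply Cs_ext
  intro z
  exact Fin.snoc_last (α := fun _ => ℝ) _ _

theorem dd_SSm_last : dd (k + 1 + 1) (fc (k + 1 + 1) ((SSm k).cp (Fin.last k))) =
    fc (k + 1 + 1) (co (Fin.last k).castSucc) * dx (Fin.last (k + 1)) +
      fc (k + 1 + 1) (co (Fin.last (k + 1))) * dx (Fin.last k).castSucc := by
  rw [cp_SSm_last, map_mul, dd_mul, fc_pd_co, fc_pd_co, sg_fc, ← fc_comm]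

theorem cn_SSm {φ : V (k + 1 + 1) →ₗ[ℝ] ℝ} (g : Cs (k + 1 + 1)) (h0 : ∀ i : Fin k, φ (Pi.single i.castSucc.castSucc 1) = 0)
    (h1 : cn φ (dd (k + 1 + 1) (fc (k + 1 + 1) ((SSm k).cp (Fin.last k)))) = fc _ g) (x : Fm (k + 1)) :
    cn φ (pb (SSm k) x) = fc _ g * pb (SSm k) (cs k x) := by
  induction x using Fm_ind with
  | hf f => rw [pb_fc, cs, cn_fc, cn_fc, map_zero, mul_zero]
  | hd j =>
    refine Fin.lastCases ?_ (fun i => ?_) j
    · rw [pb_dx, h1, cs, cn_dx, lst_apply, Pi.single_eq_same, AlgHom.commutes, map_one, mul_one]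
    · rw [pb_dx, cp_SSm_castSucc, fc_pd_co, cs, cn_dx, cn_dx, h0, lst_apply,
        Pi.single_eq_of_ne (Fin.castSucc_lt_last i).ne', map_zero, map_zero, map_zero, mul_zero]
  | hm x y hx hy =>
    rw [cs] at hx hy
    rw [map_mul, cs, cn_mul, cn_mul, map_add, map_mul, map_mul, hx, hy, ← pb_sg, mul_add, mul_assoc,
      mul_left_comm_fc]
  | ha x y hx hy => rw [map_add, map_add, hx, hy, map_add, map_add, mul_add]

theorem cs_SSm (x : Fm (k + 1)) : cs (k + 1) (pb (SSm k) x) = fc _ (co (Fin.last k).castSucc) * pb (SSm k) (cs k x) := by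
  refine cn_SSm _ (fun i => ?_) ?_ x
  · exact lst_c _
  · rw [dd_SSm_last, map_add, cn_fc_mul, cn_fc_mul, cn_dx, cn_dx, lst_l, lst_c, map_one, map_zero, mul_one, mul_zero,
      add_zero]

theorem cs'_SSm (x : Fm (k + 1)) : cn (lst' k) (pb (SSm k) x) = fc _ (co (Fin.last (k + 1))) * pb (SSm k) (cs k x) := by
  refine cn_SSm _ (fun i => ?_) ?_ x
  · exact lst'_cc _
  · rw [dd_SSm_last, map_add, cn_fc_mul, cn_fc_mul, cn_dx, cn_dx, lst'_l, lst'_lc, map_one, map_zero, mul_one, mul_zero,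
      zero_add]

theorem NoDt_SS (θ : Om X.xR) : NoDt (KO X.xR ((SS X).pull θ)) := fun k p => by
  rw [on_K, on_pull, SS_upup, on_cmp, KK_apply, cs, cn_Q0]
  have h1 : (lst k).comp (ini (k + 1)) = lst' k := rfl
  rw [h1, cs_SSm, cn_fc_mul, cs'_SSm, cs_cs, map_zero, mul_zero, mul_zero, map_zero]

variable (f : SMap X.xR M) (u : Om M)

theorem NoDt_bh : NoDt (bh f u) := NoDt_SS _

/-- the slices of `b^` -/
theorem j_bh (t : ℝ) : (jO X t).pull (bh f u) = Jt X t (f.pull u) := by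
  unfold bh Jt
  have e : (SS X).comp (jO X t).up = Rph X (contDiff_mulc t) := SMap_ext fun x => SS_up (X := X) t x
  rw [← K_up, ← pull_comp (SS X), e]

theorem j_Rph {φ : ℝ → ℝ} (hφ : ContDiff ℝ ∞ φ) (θ : Om X.xR) (t : ℝ) :
    (jO X t).pull ((Rph X hφ).pull θ) = (jO X (φ t)).pull θ := rfl

/-! ### Paths given piecewise -/

section piece

variable {f u} {E γ : SMap X.xR M} {ψ : ℝ → ℝ} (hψ : ContDiff ℝ ∞ ψ) {a l : ℝ}

theorem contDiff_aff (a l : ℝ) : ContDiff ℝ ∞ fun r : ℝ => a + r * l := contDiff_const.add (contDiff_mulc l)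

include hψ in
theorem Jt_piece (hE : ∀ x t, 0 < t → t < 1 → E.1 (x, a + t * l) = γ.1 (x, ψ t)) {t : ℝ} (h0 : 0 < t) (h1 : t ≤ 1) :
    Jt X (a + t * l) (E.pull u) = Jt X a (E.pull u) + (Jt X (ψ t) (γ.pull u) - Jt X (ψ 0) (γ.pull u)) := by
  have h2 := K_time (X := X) (contDiff_aff a (t * l)) (E.pull u)
  have h3 := K_time (X := X) (φ := fun r => ψ (r * t)) (hψ.comp (contDiff_mulc t)) (γ.pull u)
  have h4 : KO X ((Rph X (contDiff_aff a (t * l))).pull (E.pull u)) =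
      KO X ((Rph X (φ := fun r => ψ (r * t)) (hψ.comp (contDiff_mulc t))).pull (γ.pull u)) := by
    rw [← pull_comp, ← pull_comp]
    refine K_congr (fun x s hs0 hs1 => ?_) u
    have h5 : a + s * (t * l) = a + (s * t) * l := by ring
    change E.1 (x, a + s * (t * l)) = γ.1 (x, ψ (s * t))
    rw [h5]
    exact hE x (s * t) (mul_pos hs0 h0) (by nlinarith)
  rw [h2, h3] at h4
  simp only [zero_mul, one_mul, add_zero] at h4
  rw [← h4]
  abel

theorem bh_piece (hE : ∀ x t, 0 < t → t < 1 → E.1 (x, a + t * l) = γ.1 (x, ψ t)) :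
    EqI ((Rph X (contDiff_aff a l)).pull (bh E u))
      ((pO X).pull (Jt X a (E.pull u) - Jt X (ψ 0) (γ.pull u)) + (Rph X hψ).pull (bh γ u)) := by
  refine EqI_slice (NoDt_Rph _ (NoDt_bh _ _)) (NoDt_add (NoDt_p _) (NoDt_Rph _ (NoDt_bh _ _))) fun t h0 h1 => ?_
  rw [map_add, j_p, j_Rph, j_Rph, j_bh, j_bh, Jt_piece hψ hE h0 h1.le]
  abel

/-- the integral of a form over a piece -/
theorem K_piece (hE : ∀ x t, 0 < t → t < 1 → E.1 (x, a + t * l) = γ.1 (x, ψ t)) (P : Om X) :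
    KO X ((Rph X (contDiff_aff a l)).pull (bh E u * ((pO X).pull (P ^ 2) + (pO X).pull P * E.pull u + (E.pull u) ^ 2))) =
      KO X ((Rph X hψ).pull (((pO X).pull (Jt X a (E.pull u) - Jt X (ψ 0) (γ.pull u)) + bh γ u) *
        ((pO X).pull (P ^ 2) + (pO X).pull P * γ.pull u + (γ.pull u) ^ 2))) := by
  have h1 : EqI ((Rph X (contDiff_aff a l)).pull (E.pull u)) ((Rph X hψ).pull (γ.pull u)) := by
    rw [← pull_comp, ← pull_comp]
    exact EqI_pull hE u
  refine EqI.K ?_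
  rw [map_mul, map_mul, map_add, map_add, map_add, map_add, map_add, map_mul, map_mul]
  refine EqI.mul (bh_piece hψ hE) (EqI.add (EqI.add EqI.rfl' (EqI.mul EqI.rfl' h1)) ?_)
  rw [map_pow, map_pow, pow_two, pow_two]
  exact EqI.mul h1 h1

end piece

/-- splitting into four pieces -/
theorem K_four (θ : Om X.xR) : KO X θ = KO X ((Rph X (contDiff_aff 0 (1 / 4))).pull θ) +
    KO X ((Rph X (contDiff_aff (1 / 4) (1 / 4))).pull θ) + KO X ((Rph X (contDiff_aff (1 / 2) (1 / 4))).pull θ) +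
    KO X ((Rph X (contDiff_aff (3 / 4) (1 / 4))).pull θ) := by
  rw [K_time, K_time, K_time, K_time]
  have e1 : (0 + 1 * (1 / 4) : ℝ) = 1 / 4 := by norm_num
  have e2 : (1 / 4 + 1 * (1 / 4) : ℝ) = 1 / 2 := by norm_num
  have e3 : (1 / 2 + 1 * (1 / 4) : ℝ) = 3 / 4 := by norm_num
  have e4 : (3 / 4 + 1 * (1 / 4) : ℝ) = 1 := by norm_num
  rw [e1, e2, e3, e4]
  simp only [zero_mul, add_zero]
  rw [Jt_one, Jt_zero]
  abel

end Pool.Agent.Lib.MP_ccbbf6_gt.K7
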