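import Pool.Agent.Lib.MP_ccbbf6_gt.K7.PF1

/-!
# `κ = 7`, block F-D, part 2: the forms of a loop of four paths (helper79)

* `K_sq`, `K_GP` : integrals over a path; `z0_four` : `ζ_0` of a loop made of four paths;
* `TT_path` : `TT = - xb z0 + d (..)`; `TT_four`.
-/

set_option autoImplicit false
set_option maxSynthPendingDepth 3

open Set Filter Topology MeasureTheory
open scoped TensorProduct ContDiff

noncomputable section

namespace Pool.Agent.Lib.MP_ccbbf6_gt.K7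

open L4 L4.FR L5

variable {X Y Z M : Space} {k l n : ℕ} {i j q : ℕ}

/-! ### Paths -/

section path

variable {f : SMap X.xR M} {u : Om M}

/-- `w = K (b^ f^*u)` -/
def wf (f : SMap X.xR M) (u : Om M) : Om X := KO X (bh f u * f.pull u)

theorem s_wE (Du : Deg (2 * q + 2) u) (t : ℝ) : sO X (wt f u t) = wt f u t :=
  Deg_even (j := q + 1) (Deg_pull _ (Deg_pull _ Du))

theorem d_wE (du : dO M u = 0) (t : ℝ) : dO X (wt f u t) = 0 := by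
  unfold wt
  rw [pull_d, pull_d, du, map_zero, map_zero]

theorem Deg_bO (Du : Deg (2 * q + 2) u) : Deg (2 * q + 1) (b0 f u) := Deg_K (Deg_pull _ Du)

theorem s_bO (Du : Deg (2 * q + 2) u) : sO X (b0 f u) = -b0 f u := Deg_odd (j := q) (Deg_bO Du)

theorem d_bO (du : dO M u = 0) : dO X (b0 f u) = wt f u 1 - wt f u 0 := by
  have h := d_K (f.pull u)
  have h3 : dO X.xR (f.pull u) = 0 := by rw [pull_d, du, map_zero]
  rw [h3, map_zero, add_zero] at h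
  exact h

theorem Deg_wf (Du : Deg (2 * q + 2) u) : Deg (4 * q + 2) (wf f u) := by
  refine Deg_K ?_
  have h1 : Deg (2 * q + 1) (bh f u) := Deg_K (Deg_pull _ (Deg_pull _ Du))
  have h := Deg_mul h1 (Deg_pull f Du)
  have e : 2 * q + 1 + (2 * q + 2) = 4 * q + 2 + 1 := by ring
  rwa [e] at h

/-- `K ((f^*u)^2)` -/
theorem K_sq (Du : Deg (2 * q + 2) u) (du : dO M u = 0) :
    KO X (f.pull u ^ 2) = (wt f u 0 + wt f u 1) * b0 f u - dO X (wf f u) := by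
  have h := d_K (bh f u * f.pull u)
  have h3 : dO X.xR (f.pull u) = 0 := by rw [pull_d, du, map_zero]
  have h4 : KO X ((pO X).pull (wt f u 0) * f.pull u) = wt f u 0 * b0 f u := by
    rw [K_mul, s_wE Du]
    rfl
  rw [d_mul, h3, mul_zero, add_zero, d_bh f u du, sub_mul, map_sub, h4, map_mul (jO X 1).pull, map_mul (jO X 0).pull,
    bh_one, bh_zero, zero_mul, sub_zero, ← pow_two] at h
  have h5 : b0 f u * (jO X 1).pull (f.pull u) = wt f u 1 * b0 f u := (even_comm' (s_wE Du 1) _).symm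
  rw [h5] at h
  have h6 : dO X (wf f u) = wt f u 1 * b0 f u - (KO X (f.pull u ^ 2) - wt f u 0 * b0 f u) := by
    rw [← h]
    exact (add_sub_cancel_right _ _).symm
  rw [h6, add_mul]
  abel

theorem HH_two : HH f u 2 = (pO X).pull (wt f u 0 ^ 2) + (pO X).pull (wt f u 0) * f.pull u + f.pull u ^ 2 := by
  unfold HH
  rw [Finset.sum_range_succ, Finset.sum_range_succ, Finset.sum_range_one, map_pow]
  have e : 2 - 1 = 1 := rfl
  simp only [pow_zero, one_mul, Nat.sub_zero, Nat.sub_self, mul_one, e]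
  rw [pow_one, pow_one]
  abel

/-- the integral over a path -/
theorem K_GP (Du : Deg (2 * q + 2) u) (du : dO M u = 0) {A P Q : Om X} (sA : sO X A = -A) (hP : wt f u 0 = P)
    (hQ : wt f u 1 = Q) :
    KO X (((pO X).pull A + bh f u) * ((pO X).pull (P ^ 2) + (pO X).pull P * f.pull u + f.pull u ^ 2)) =
      z0 f u 2 - A * ((P + P + Q) * b0 f u - dO X (wf f u)) := by
  have h1 : z0 f u 2 = KO X (bh f u * ((pO X).pull (P ^ 2) + (pO X).pull P * f.pull u + f.pull u ^ 2)) := by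
    unfold z0 TH
    rw [HH_two, hP]
  have h2 : KO X ((pO X).pull P * f.pull u) = P * b0 f u := by
    rw [K_mul, ← hP, s_wE Du]
    rfl
  have h3 : P * b0 f u + ((P + Q) * b0 f u - dO X (wf f u)) = (P + P + Q) * b0 f u - dO X (wf f u) := by
    rw [add_mul (P + P), add_mul P P, add_mul P Q]
    abel
  rw [add_mul, map_add, ← h1, K_mul, sA, map_add, map_add, K_p, h2, K_sq Du du, hP, hQ, zero_add, neg_mul, h3]
  abel

end path

/-! ### A loop of four paths -/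

section four

variable {u : Om M}

/-- a loop of four paths -/
structure Four (E : SMap X.xR M) (γ₁ γ₂ γ₃ γ₄ : SMap X.xR M) (u : Om M) (P Q : Om X) where
  ψ : ℝ → ℝ
  χ : ℝ → ℝ
  hψ : ContDiff ℝ ∞ ψ
  hχ : ContDiff ℝ ∞ χ
  ψ0 : ψ 0 = 0
  ψ1 : ψ 1 = 1
  χ0 : χ 0 = 1
  χ1 : χ 1 = 0
  h1 : ∀ x t, 0 < t → t < 1 → E.1 (x, 0 + t * (1 / 4)) = γ₁.1 (x, ψ t)
  h2 : ∀ x t, 0 < t → t < 1 → E.1 (x, 1 / 4 + t * (1 / 4)) = γ₂.1 (x, χ t)
  h3 : ∀ x t, 0 < t → t < 1 → E.1 (x, 1 / 2 + t * (1 / 4)) = γ₃.1 (x, ψ t)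
  h4 : ∀ x t, 0 < t → t < 1 → E.1 (x, 3 / 4 + t * (1 / 4)) = γ₄.1 (x, χ t)
  P0 : wt E u 0 = P
  P1 : wt γ₁ u 0 = P
  P2 : wt γ₂ u 0 = P
  P3 : wt γ₃ u 0 = P
  P4 : wt γ₄ u 0 = P
  Q1 : wt γ₁ u 1 = Q
  Q2 : wt γ₂ u 1 = Q
  Q3 : wt γ₃ u 1 = Q
  Q4 : wt γ₄ u 1 = Q

namespace Four

variable {E γ₁ γ₂ γ₃ γ₄ : SMap X.xR M} {P Q : Om X} (D : Four E γ₁ γ₂ γ₃ γ₄ u P Q)

include D

theorem J1 : Jt X (1 / 4) (E.pull u) = b0 γ₁ u := by
  have h := Jt_piece (u := u) D.hψ D.h1 one_pos le_rfl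
  rw [D.ψ0, D.ψ1, Jt_zero, Jt_zero, Jt_one, one_mul, zero_add, zero_add, sub_zero] at h
  exact h

theorem J2 : Jt X (1 / 2) (E.pull u) = b0 γ₁ u - b0 γ₂ u := by
  have h := Jt_piece (u := u) D.hχ D.h2 one_pos le_rfl
  have e : (1 / 4 + 1 * (1 / 4) : ℝ) = 1 / 2 := by norm_num
  rw [D.χ0, D.χ1, Jt_zero, Jt_one, zero_sub, e, D.J1] at h
  rw [h, sub_eq_add_neg]
  rfl

theorem J3 : Jt X (3 / 4) (E.pull u) = b0 γ₁ u - b0 γ₂ u + b0 γ₃ u := by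
  have h := Jt_piece (u := u) D.hψ D.h3 one_pos le_rfl
  have e : (1 / 2 + 1 * (1 / 4) : ℝ) = 3 / 4 := by norm_num
  rw [D.ψ0, D.ψ1, Jt_zero, Jt_one, sub_zero, e, D.J2] at h
  exact h

theorem J4 : b0 E u = b0 γ₁ u - b0 γ₂ u + b0 γ₃ u - b0 γ₄ u := by
  have h := Jt_piece (u := u) D.hχ D.h4 one_pos le_rfl
  have e : (3 / 4 + 1 * (1 / 4) : ℝ) = 1 := by norm_num
  rw [D.χ0, D.χ1, Jt_zero, Jt_one, zero_sub, e, D.J3, Jt_one] at h
  rw [sub_eq_add_neg]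
  exact h

omit D in
theorem K_fwd {ψ : ℝ → ℝ} (hψ : ContDiff ℝ ∞ ψ) (h0 : ψ 0 = 0) (h1 : ψ 1 = 1) (θ : Om X.xR) :
    KO X ((Rph X hψ).pull θ) = KO X θ := by rw [K_time, h0, h1, Jt_one, Jt_zero, sub_zero]

omit D in
theorem K_rev {ψ : ℝ → ℝ} (hψ : ContDiff ℝ ∞ ψ) (h0 : ψ 0 = 1) (h1 : ψ 1 = 0) (θ : Om X.xR) :
    KO X ((Rph X hψ).pull θ) = -KO X θ := by rw [K_time, h0, h1, Jt_one, Jt_zero, zero_sub]

/-- **`ζ_0` of a loop of four paths** -/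
theorem z0_four (Du : Deg (2 * q + 2) u) (du : dO M u = 0) : z0 E u 2 =
    z0 γ₁ u 2 - z0 γ₂ u 2 + z0 γ₃ u 2 - z0 γ₄ u 2 +
      (b0 γ₁ u - b0 γ₂ u) * ((P + P + Q) * b0 γ₂ u - dO X (wf γ₂ u)) -
      (b0 γ₁ u - b0 γ₂ u) * ((P + P + Q) * b0 γ₃ u - dO X (wf γ₃ u)) +
      b0 E u * ((P + P + Q) * b0 γ₄ u - dO X (wf γ₄ u)) := by
  have s1 := s_bO (f := γ₁) Du
  have s2 := s_bO (f := γ₂) Du
  have s3 := s_bO (f := γ₃) Du
  have s4 := s_bO (f := γ₄) Du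
  have e1 : z0 E u 2 = KO X (bh E u * ((pO X).pull (P ^ 2) + (pO X).pull P * E.pull u + E.pull u ^ 2)) := by
    unfold z0 TH
    rw [HH_two, D.P0]
  have t1 := K_piece (u := u) D.hψ D.h1 P
  rw [K_fwd D.hψ D.ψ0 D.ψ1, D.ψ0, Jt_zero, Jt_zero, sub_zero,
    K_GP Du du (by rw [map_zero, neg_zero]) D.P1 D.Q1, zero_mul, sub_zero] at t1
  have t2 := K_piece (u := u) D.hχ D.h2 P
  rw [K_rev D.hχ D.χ0 D.χ1, D.χ0, Jt_one, D.J1] at t2
  have t2' := K_GP (f := γ₂) (A := b0 γ₁ u - b0 γ₂ u) Du du (by rw [map_sub, s1, s2]; abel) D.P2 D.Q2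
  have t3 := K_piece (u := u) D.hψ D.h3 P
  rw [K_fwd D.hψ D.ψ0 D.ψ1, D.ψ0, Jt_zero, sub_zero, D.J2] at t3
  have t3' := K_GP (f := γ₃) (A := b0 γ₁ u - b0 γ₂ u) Du du (by rw [map_sub, s1, s2]; abel) D.P3 D.Q3
  have t4 := K_piece (u := u) D.hχ D.h4 P
  rw [K_rev D.hχ D.χ0 D.χ1, D.χ0, Jt_one, D.J3] at t4
  have t4' := K_GP (f := γ₄) (A := b0 γ₁ u - b0 γ₂ u + b0 γ₃ u - b0 γ₄ u) Du du
    (by rw [map_sub, map_add, map_sub, s1, s2, s3, s4]; abel) D.P4 D.Q4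
  rw [e1, K_four, t1, t2, t3, t4, D.J4]
  have u2 : KO X (γ₂.pull u) = b0 γ₂ u := rfl
  have u4 : KO X (γ₄.pull u) = b0 γ₄ u := rfl
  rw [u2, u4, t2', t3', t4']
  abel

end Four

end four

end Pool.Agent.Lib.MP_ccbbf6_gt.K7
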