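import Pool.Agent.Lib.MP_ccbbf6_gt.K7.KX1
import Pool.Agent.Lib.MP_ccbbf6_gt.K7.PF2
import Pool.Agent.Lib.MP_ccbbf6_gt.K7.SU1

/-!
# `κ = 7`, block F-D, part 3: the loop of four half geodesics is made of four paths (helper79)

* `b0_up`, `wt_up`, `bh_up`, `z0_up`, `wf_up` : naturality;
* `EE` = `(w, t) ↦ (e w) (8 t)`, `gam j` = `(w, t) ↦ c_j (π t)`; `fourE : Four EE (gam 0) (gam 1) (gam 2) (gam 3) u P Q`.
-/

set_option autoImplicit false
set_option maxSynthPendingDepth 3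
set_option linter.unusedSectionVars false

open Set Filter Topology Metric Real Module
open scoped ContDiff RealInnerProductSpace

noncomputable section

namespace Pool.Agent.Lib.MP_ccbbf6_gt.K7

open Geo L4 L4.ORI L4.FR L5 SU HQ

/-! ### Naturality -/

section nat

variable {X Y M : Space} (F : SMap X.xR M) (u : Om M) (g : SMap Y X)

theorem b0_up : b0 (F.comp g.up) u = g.pull (b0 F u) := rfl

theorem wt_up (t : ℝ) : wt (F.comp g.up) u t = g.pull (wt F u t) := rfl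

theorem bh_up : bh (F.comp g.up) u = g.up.pull (bh F u) := rfl

theorem HH_up (m : ℕ) : HH (F.comp g.up) u m = g.up.pull (HH F u m) := by
  unfold HH
  rw [map_sum]
  refine Finset.sum_congr rfl fun j _ => ?_
  rw [map_mul, map_pow, map_pow]
  rfl

theorem z0_up (m : ℕ) : z0 (F.comp g.up) u m = g.pull (z0 F u m) := by
  unfold z0 TH
  rw [HH_up, bh_up, ← map_mul, K_up]

theorem wf_up : wf (F.comp g.up) u = g.pull (wf F u) := by
  unfold wf
  rw [bh_up, pull_comp, ← map_mul, K_up]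

end nat

/-! ### Time -/

/-- the time change of a path run in two steps -/
def ps (t : ℝ) : ℝ := tg (2 * t) / 2

theorem contDiff_ps : ContDiff ℝ ∞ ps := (contDiff_tg.comp (contDiff_const.mul contDiff_id)).div_const 2

theorem ps_zero : ps 0 = 0 := by
  have h := tg_int 0
  rw [Int.cast_zero] at h
  unfold ps
  rw [mul_zero, h, zero_div]

theorem ps_one : ps 1 = 1 := by
  have h := tg_int 2
  push_cast at h
  unfold ps
  rw [mul_one, h]
  norm_num

theorem ps_lo {t : ℝ} (h0 : 0 < t) (h1 : t < 1 / 2) : ps t = s1 (2 * t) / 2 := by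
  have h : ⌊2 * t⌋ = 0 := by
    rw [Int.floor_eq_iff]
    push_cast
    constructor <;> linarith
  unfold ps tg
  rw [Int.fract, h]
  simp

theorem ps_hi {t : ℝ} (h0 : 1 / 2 ≤ t) (h1 : t < 1) : ps t = (1 + s1 (2 * t - 1)) / 2 := by
  have h : ⌊2 * t⌋ = 1 := by
    rw [Int.floor_eq_iff]
    push_cast
    constructor <;> linarith
  unfold ps tg
  rw [Int.fract, h]
  simp

/-! ### The projections of `T4` -/

section proj

variable {B F : Space} (b : SBun 7 B F)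

/-- the projections -/
def prF1 : SMap (T4 b) B := (fp1 b.pi b.pi).comp ((fp1 (g2 b) b.pi).comp (fp1 (g3 b) b.pi))

def prF2 : SMap (T4 b) B := (fp2 b.pi b.pi).comp ((fp1 (g2 b) b.pi).comp (fp1 (g3 b) b.pi))

def prF3 : SMap (T4 b) B := (fp2 (g2 b) b.pi).comp (fp1 (g3 b) b.pi)

def prF4 : SMap (T4 b) B := fp2 (g3 b) b.pi

end proj

/-! ### The loop -/

section loop

variable {n : ℕ} {M : Type} [MetricSpace M] [CompactSpace M] {𝒜 : SDist n M} {d : ℝ} (hB : Bl M)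
variable (b : SBun 7 (spG 𝒜) (spF 𝒜)) (hb : ∀ c, b.pi.1 c = (gF hB).1 c) (hd0 : 0 < d) (hd : d ≤ π / 2)

theorem val8 (w : (T4 b).pt) (i : ℤ) {s : ℝ} (h0 : 0 ≤ s) (h1 : s < 1) : ((e2 b hB hb hd0 hd).1 w).1 (i + s) =
    rat 𝒜 (q8 (g4 b w) ((i : ℤ) : ZMod 8)) (q8 (g4 b w) (((i : ℤ) : ZMod 8) + 1)) (s1 s) := by
  have hf : ⌊(i : ℝ) + s⌋ = i := by
    rw [Int.floor_eq_iff]
    constructor <;> linarith
  have h := e2_apply b hB hb hd0 hd w (i + s)
  rw [Int.fract, hf, add_sub_cancel_left] at h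
  exact h

theorem e2_fwd (w : (T4 b).pt) (i : ℤ) (c : Gs M) (k0 : q8 (g4 b w) ((i : ℤ) : ZMod 8) = c.1 0)
    (k1 : q8 (g4 b w) (((i : ℤ) : ZMod 8) + 1) = c.1 (π / 2)) (k2 : q8 (g4 b w) (((i : ℤ) : ZMod 8) + 1 + 1) = c.1 π)
    {t : ℝ} (h0 : 0 < t) (h1 : t < 1) : ((e2 b hB hb hd0 hd).1 w).1 (i + 2 * t) = c.1 (π * ps t) := by
  have hp := Real.pi_pos
  rcases lt_or_ge t (1 / 2) with h | h
  · rw [val8 hB b hb hd0 hd w i (by linarith) (by linarith), k0, k1, rat_geo hB c (by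
      rw [sub_zero, abs_of_pos (by positivity)]; linarith), ps_lo h0 h]
    exact congrArg c.1 (by ring)
  · have e : (i : ℝ) + 2 * t = ((i + 1 : ℤ) : ℝ) + (2 * t - 1) := by
      push_cast
      ring
    have e2 : (((i + 1 : ℤ)) : ZMod 8) = (i : ZMod 8) + 1 := by push_cast; rfl
    rw [e, val8 hB b hb hd0 hd w (i + 1) (by linarith) (by linarith), e2, k1, k2, rat_geo hB c (by
      rw [abs_of_pos (by linarith)]; linarith), ps_hi h h1]
    exact congrArg c.1 (by ring)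

theorem e2_bwd (w : (T4 b).pt) (i : ℤ) (c : Gs M) (k0 : q8 (g4 b w) ((i : ℤ) : ZMod 8) = c.1 π)
    (k1 : q8 (g4 b w) (((i : ℤ) : ZMod 8) + 1) = c.1 (π / 2)) (k2 : q8 (g4 b w) (((i : ℤ) : ZMod 8) + 1 + 1) = c.1 0)
    {t : ℝ} (h0 : 0 < t) (h1 : t < 1) : ((e2 b hB hb hd0 hd).1 w).1 (i + 2 * t) = c.1 (π * (1 - ps t)) := by
  have hp := Real.pi_pos
  rcases lt_or_ge t (1 / 2) with h | h
  · rw [val8 hB b hb hd0 hd w i (by linarith) (by linarith), k0, k1, rat_geo hB c (by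
      rw [abs_of_neg (by linarith)]; linarith), ps_lo h0 h]
    exact congrArg c.1 (by ring)
  · have e : (i : ℝ) + 2 * t = ((i + 1 : ℤ) : ℝ) + (2 * t - 1) := by
      push_cast
      ring
    have e2 : (((i + 1 : ℤ)) : ZMod 8) = (i : ZMod 8) + 1 := by push_cast; rfl
    rw [e, val8 hB b hb hd0 hd w (i + 1) (by linarith) (by linarith), e2, k1, k2, rat_geo hB c (by
      rw [abs_of_neg (by linarith)]; linarith), ps_hi h h1]
    exact congrArg c.1 (by ring)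

/-- the loop as a map on `T4 × R` -/
def EE : SMap (T4 b).xR (spM 𝒜) := ((fLO 𝒜).comp (cLO 𝒜).a).comp ((iOd 𝒜 d).comp (e2 b hB hb hd0 hd)).up

theorem EE_apply (w : (T4 b).pt) (t : ℝ) : (EE hB b hb hd0 hd).1 (w, t) = ((e2 b hB hb hd0 hd).1 w).1 (0 + 8 * t) := rfl

include hB hb in
theorem ends0 (w : (T4 b).pt) : ((prF2 b).1 w).1 0 = ((prF1 b).1 w).1 0 ∧ ((prF3 b).1 w).1 0 = ((prF1 b).1 w).1 0 ∧
    ((prF4 b).1 w).1 0 = ((prF1 b).1 w).1 0 := ⟨(Ends_g4 b hB hb w).1 1, (Ends_g4 b hB hb w).1 2, (Ends_g4 b hB hb w).1 3⟩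

include hB hb in
theorem endsπ (w : (T4 b).pt) : ((prF2 b).1 w).1 π = ((prF1 b).1 w).1 π ∧ ((prF3 b).1 w).1 π = ((prF1 b).1 w).1 π ∧
    ((prF4 b).1 w).1 π = ((prF1 b).1 w).1 π := ⟨(Ends_g4 b hB hb w).2 1, (Ends_g4 b hB hb w).2 2, (Ends_g4 b hB hb w).2 3⟩

theorem wt_p (p : SMap (T4 b) (spG 𝒜)) (s : ℝ) (h : ∀ w, (p.1 w).1 (π * s) = ((prF1 b).1 w).1 (π * s)) (u : Om (spM 𝒜)) :
    wt ((fRho hB).comp p.up) u s = (prF1 b).pull (wt (fRho hB) u s) := by
  unfold wt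
  rw [← pull_comp, ← pull_comp, ← pull_comp]
  have e : ((fRho hB).comp p.up).comp (jO (T4 b) s) = ((fRho hB).comp (jO (spG 𝒜) s)).comp (prF1 b) := SMap_ext fun w => h w
  rw [e]
  rfl

/-- **the loop is made of four paths** -/
def fourE (u : Om (spM 𝒜)) : Four (EE hB b hb hd0 hd) ((fRho hB).comp (prF1 b).up) ((fRho hB).comp (prF2 b).up)
    ((fRho hB).comp (prF3 b).up) ((fRho hB).comp (prF4 b).up) u ((prF1 b).pull (wt (fRho hB) u 0)) ((prF1 b).pull (wt (fRho hB) u 1)) where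
  ψ := ps
  χ t := 1 - ps t
  hψ := contDiff_ps
  hχ := contDiff_const.sub contDiff_ps
  ψ0 := ps_zero
  ψ1 := ps_one
  χ0 := by rw [ps_zero, sub_zero]
  χ1 := by rw [ps_one, sub_self]
  h1 w t h0 h1 := by
    have e : (0 + 8 * (0 + t * (1 / 4)) : ℝ) = ((0 : ℤ) : ℝ) + 2 * t := by
      push_cast
      ring
    rw [EE_apply, e]
    exact e2_fwd hB b hb hd0 hd w 0 _ rfl rfl rfl h0 h1
  h2 w t h0 h1 := by
    have e : (0 + 8 * (1 / 4 + t * (1 / 4)) : ℝ) = ((2 : ℤ) : ℝ) + 2 * t := by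
      push_cast
      ring
    rw [EE_apply, e]
    exact e2_bwd hB b hb hd0 hd w 2 _ ((Ends_g4 b hB hb w).2 1).symm rfl rfl h0 h1
  h3 w t h0 h1 := by
    have e : (0 + 8 * (1 / 2 + t * (1 / 4)) : ℝ) = ((4 : ℤ) : ℝ) + 2 * t := by
      push_cast
      ring
    rw [EE_apply, e]
    exact e2_fwd hB b hb hd0 hd w 4 _ (((Ends_g4 b hB hb w).1 1).trans ((Ends_g4 b hB hb w).1 2).symm) rfl rfl h0 h1
  h4 w t h0 h1 := by
    have e : (0 + 8 * (3 / 4 + t * (1 / 4)) : ℝ) = ((6 : ℤ) : ℝ) + 2 * t := by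
      push_cast
      ring
    rw [EE_apply, e]
    exact e2_bwd hB b hb hd0 hd w 6 _ (((Ends_g4 b hB hb w).2 2).trans ((Ends_g4 b hB hb w).2 3).symm) rfl
      ((Ends_g4 b hB hb w).1 3).symm h0 h1
  P0 := by
    unfold wt
    rw [← pull_comp, ← pull_comp, ← pull_comp]
    have e : (EE hB b hb hd0 hd).comp (jO (T4 b) 0) = ((fRho hB).comp (jO (spG 𝒜) 0)).comp (prF1 b) := SMap_ext fun w => by
      change ((e2 b hB hb hd0 hd).1 w).1 (0 + 8 * 0) = ((prF1 b).1 w).1 (π * 0)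
      have h := val8 hB b hb hd0 hd w 0 le_rfl one_pos
      rw [Int.cast_zero, add_zero, s1_zero (by norm_num), rat_zero hB] at h
      rw [mul_zero, mul_zero, add_zero, h]
      rfl
    rw [e]
    rfl
  P1 := wt_p hB b _ 0 (fun _ => rfl) u
  P2 := wt_p hB b _ 0 (fun w => by rw [mul_zero]; exact (ends0 hB b hb w).1) u
  P3 := wt_p hB b _ 0 (fun w => by rw [mul_zero]; exact (ends0 hB b hb w).2.1) u
  P4 := wt_p hB b _ 0 (fun w => by rw [mul_zero]; exact (ends0 hB b hb w).2.2) u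
  Q1 := wt_p hB b _ 1 (fun _ => rfl) u
  Q2 := wt_p hB b _ 1 (fun w => by rw [mul_one]; exact (endsπ hB b hb w).1) u
  Q3 := wt_p hB b _ 1 (fun w => by rw [mul_one]; exact (endsπ hB b hb w).2.1) u
  Q4 := wt_p hB b _ 1 (fun w => by rw [mul_one]; exact (endsπ hB b hb w).2.2) u

end loop

end Pool.Agent.Lib.MP_ccbbf6_gt.K7
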