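import Pool.Agent.Lib.MP_ccbbf6_gt.K7.FB4
import Pool.Agent.Lib.MP_ccbbf6_gt.K7.PF3

/-!
# `κ = 7`, block F-D, part 4: the fibre integral of the form of the loops of four half geodesics (helper79)

* `Four.alg` : `A z0 = A (Z1 - Z2 + Z3 - Z4) + R (a1 a2 a3 - a1 a2 a4 + a1 a3 a4 - a2 a3 a4) - d (..)`;
* `J4_AZ`, `J4_R` : the integrals over `c4`, `c3`, `c2`; `J4_e2` : `J4 (e^* T) = - 3 foot^* u + d (..)`.
-/

set_option autoImplicit false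
set_option maxSynthPendingDepth 3
set_option linter.unusedSectionVars false

open Set Filter Topology Metric Real Module
open scoped ContDiff RealInnerProductSpace

noncomputable section

namespace Pool.Agent.Lib.MP_ccbbf6_gt.K7

open Geo L4 L4.ORI L4.FR L5 SU HQ

/-! ### Algebra over arbitrary rings -/

section abs

variable {C D E2 E3 E4 : Type*} [Ring C] [Ring D] [Ring E2] [Ring E3] [Ring E4]

/-- the algebra of `four_mul` -/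
private theorem abs_four {A : Type*} [Ring A] {s : A → A} (smul : ∀ x y, s (x * y) = s x * s y)
    (even : ∀ x y, s x = x → x * y = y * x) (odd : ∀ x, s x = -x → x * x = 0) {a1 a2 a3 a4 : A} (h1 : s a1 = -a1)
    (h2 : s a2 = -a2) (h3 : s a3 = -a3) :
    (a3 - a4) * (a1 - a2) * (a2 - a3) = a1 * a2 * a3 - a1 * a2 * a4 + a1 * a3 * a4 - a2 * a3 * a4 := by
  have e12 : s (a1 * a2) = a1 * a2 := by rw [smul, h1, h2, neg_mul_neg]
  have e13 : s (a1 * a3) = a1 * a3 := by rw [smul, h1, h3, neg_mul_neg]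
  have e23 : s (a2 * a3) = a2 * a3 := by rw [smul, h2, h3, neg_mul_neg]
  have e1 : a3 * a1 * a2 = a1 * a2 * a3 := by rw [mul_assoc, even _ a3 e12]
  have e2 : a4 * a1 * a2 = a1 * a2 * a4 := by rw [mul_assoc, even _ a4 e12]
  have e3 : a4 * a1 * a3 = a1 * a3 * a4 := by rw [mul_assoc, even _ a4 e13]
  have e4 : a4 * a2 * a3 = a2 * a3 * a4 := by rw [mul_assoc, even _ a4 e23]
  have e5 : a3 * a1 * a3 = 0 := by rw [mul_assoc, ← even _ a3 e13, mul_assoc, odd _ h3, mul_zero]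
  have e6 : a3 * a2 * a3 = 0 := by rw [mul_assoc, ← even _ a3 e23, mul_assoc, odd _ h3, mul_zero]
  have e7 : a3 * a2 * a2 = 0 := by rw [mul_assoc, odd _ h2, mul_zero]
  have e8 : a4 * a2 * a2 = 0 := by rw [mul_assoc, odd _ h2, mul_zero]
  have h : (a3 - a4) * (a1 - a2) * (a2 - a3) = a3 * a1 * a2 - a3 * a1 * a3 - a3 * a2 * a2 + a3 * a2 * a3 - a4 * a1 * a2 +
      a4 * a1 * a3 + a4 * a2 * a2 - a4 * a2 * a3 := by noncomm_ring
  rw [h, e1, e2, e3, e4, e5, e6, e7, e8]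
  abel

/-- the algebra of `Four.alg` -/
private theorem abs_alg {A : Type*} [Ring A] {s d : A → A} (smul : ∀ x y, s (x * y) = s x * s y)
    (ssub : ∀ x y, s (x - y) = s x - s y) (dsub : ∀ x y, d (x - y) = d x - d y)
    (dmul : ∀ x y, d (x * y) = d x * y + s x * d y)
    (even : ∀ x y, s x = x → x * y = y * x) (odd : ∀ x, s x = -x → x * x = 0) {a1 a2 a3 a4 E R r S w2 w3 w4 z : A}
    (s1 : s a1 = -a1) (s2 : s a2 = -a2) (s3 : s a3 = -a3) (s4 : s a4 = -a4) (sE : s E = -E) (sR : s R = R)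
    (d1 : d a1 = r) (d2 : d a2 = r) (d3 : d a3 = r) (d4 : d a4 = r) (hE : E = a1 - a2 + a3 - a4)
    (hz : z = S + (a1 - a2) * (R * a2 - d w2) - (a1 - a2) * (R * a3 - d w3) + E * (R * a4 - d w4)) :
    E * z = E * S + R * (a1 * a2 * a3 - a1 * a2 * a4 + a1 * a3 * a4 - a2 * a3 * a4) -
      d ((a3 - a4) * (a1 - a2) * (w2 - w3)) := by
  rw [hz, ← abs_four smul even odd s1 s2 s3]
  obtain ⟨c, ec⟩ : ∃ a, a = a1 - a2 := ⟨_, rfl⟩
  obtain ⟨e, ee⟩ : ∃ a, a = a3 - a4 := ⟨_, rfl⟩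
  have sc : s c = -c := by rw [ec, ssub, s1, s2, neg_sub_neg, neg_sub]
  have se : s e = -e := by rw [ee, ssub, s3, s4, neg_sub_neg, neg_sub]
  have dc : d c = 0 := by rw [ec, dsub, d1, d2, sub_self]
  have de : d e = 0 := by rw [ee, dsub, d3, d4, sub_self]
  have hE2 : E = c + e := by rw [hE, ec, ee, add_sub_assoc]
  have hEc : E * c = e * c := by rw [hE2, add_mul, odd _ sc, zero_add]
  have hEE : E * E = 0 := odd _ sE
  have hd : d (e * c * (w2 - w3)) = e * c * (d w2 - d w3) := by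
    rw [dmul, dmul, dc, de, zero_mul, mul_zero, add_zero, zero_mul, zero_add, smul, sc, se, neg_mul_neg, dsub]
  rw [← ec, ← ee, hd]
  have k1 : E * (S + c * (R * a2 - d w2) - c * (R * a3 - d w3) + E * (R * a4 - d w4)) =
      E * S + E * c * (R * a2 - d w2) - E * c * (R * a3 - d w3) + E * E * (R * a4 - d w4) := by noncomm_ring
  have k2 : ∀ x : A, e * c * (R * x) = R * (e * c * x) := fun x => by
    rw [← mul_assoc, ← even _ (e * c) sR, mul_assoc]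
  rw [k1, hEc, hEE, zero_mul, add_zero, mul_sub (e * c) (R * a2), mul_sub (e * c) (R * a3), k2, k2, mul_sub (e * c) a2,
    mul_sub R, mul_sub (e * c) (d w2)]
  abel

private theorem abs_AZ {f1 g1 : C → E2} {f2 : E2 → E3} {k2 : C → E3} {f3 : E3 → E4} {F1 F2 F3 F4 : C → E4}
    {P1 : E2 → C} {P2 : E3 → E2} {P3 : E4 → E3} {h2 : D → E2} {h3 : D → E3} {pp : C → D} {sC : C → C} {s2 : E2 → E2}
    {s3 : E3 → E3} {ψ Z : C}
    (hF1 : ∀ x, F1 x = f3 (f2 (f1 x))) (hF2 : ∀ x, F2 x = f3 (f2 (g1 x))) (hF3 : ∀ x, F3 x = f3 (k2 x))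
    (hF4m : ∀ x y, F4 (x * y) = F4 x * F4 y)
    (f2sub : ∀ x y, f2 (x - y) = f2 x - f2 y)
    (f3add : ∀ x y, f3 (x + y) = f3 x + f3 y) (f3sub : ∀ x y, f3 (x - y) = f3 x - f3 y)
    (f3mul : ∀ x y, f3 (x * y) = f3 x * f3 y)
    (P3add : ∀ x y, P3 (x + y) = P3 x + P3 y) (P3sub : ∀ x y, P3 (x - y) = P3 x - P3 y)
    (P2add : ∀ x y, P2 (x + y) = P2 x + P2 y) (P2sub : ∀ x y, P2 (x - y) = P2 x - P2 y) (P10 : P1 0 = 0)
    (h21 : h2 1 = 1) (h31 : h3 1 = 1) (hh : ∀ y, h3 y = f2 (h2 y))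
    (P3f : ∀ x, P3 (f3 x) = 0) (P3fg : ∀ x y, P3 (f3 x * F4 y) = s3 x * h3 (pp y))
    (P3gf : ∀ x y, P3 (F4 y * f3 x) = h3 (pp y) * x) (P3g : ∀ y, P3 (F4 y) = h3 (pp y))
    (P2f : ∀ x, P2 (f2 x) = 0) (P2r : ∀ x y, P2 (y * f2 x) = P2 y * x) (P2g : ∀ y, P2 (k2 y) = h2 (pp y))
    (s3f : ∀ x, s3 (f2 x) = f2 (s2 x)) (s3k : ∀ x, s3 (k2 x) = k2 (sC x)) (s2f : ∀ x, s2 (f1 x) = f1 (sC x))
    (s2g : ∀ x, s2 (g1 x) = g1 (sC x)) (s3add : ∀ x y, s3 (x + y) = s3 x + s3 y)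
    (s2sub : ∀ x y, s2 (x - y) = s2 x - s2 y) (f1neg : ∀ x, f1 (-x) = -f1 x) (g1neg : ∀ x, g1 (-x) = -g1 x)
    (f2neg : ∀ x, f2 (-x) = -f2 x) (k2neg : ∀ x, k2 (-x) = -k2 x)
    (P2neg : ∀ x, P2 (-x) = -P2 x) (hψ : pp ψ = 1) (sψ : sC ψ = -ψ) :
    P1 (P2 (P3 ((F1 ψ - F2 ψ + F3 ψ - F4 ψ) * (F1 Z - F2 Z + F3 Z - F4 Z)))) = 0 := by
  obtain ⟨α, hα⟩ : ∃ α, α = f2 (f1 ψ - g1 ψ) + k2 ψ := ⟨_, rfl⟩
  obtain ⟨σ, hσ⟩ : ∃ σ, σ = f2 (f1 Z - g1 Z) + k2 Z := ⟨_, rfl⟩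
  have e1 : F1 ψ - F2 ψ + F3 ψ = f3 α := by rw [hα, f3add, f2sub, f3sub, hF1, hF2, hF3]
  have e2 : F1 Z - F2 Z + F3 Z = f3 σ := by rw [hσ, f3add, f2sub, f3sub, hF1, hF2, hF3]
  have sα : s3 α = -α := by
    rw [hα, s3add, s3f, s2sub, s2f, s2g, s3k, sψ, f1neg, g1neg, k2neg, ← neg_sub', f2neg, neg_add]
  have k1 : (f3 α - F4 ψ) * (f3 σ - F4 Z) = f3 (α * σ) - f3 α * F4 Z - F4 ψ * f3 σ + F4 (ψ * Z) := by
    rw [f3mul, hF4m]
    noncomm_ring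
  have k3 : P2 α = 1 := by rw [hα, P2add, P2f, P2g, hψ, h21, zero_add]
  have k4 : P2 σ = h2 (pp Z) := by rw [hσ, P2add, P2f, P2g, zero_add]
  rw [e1, e2, k1, P3add, P3sub, P3sub, P3f, P3fg, P3gf, P3g, sα, hψ, h31, one_mul, P2add, P2sub, P2sub, hh, hh, P2f, k4,
    neg_mul, P2neg, P2r, k3, one_mul, show P2 0 = 0 by rw [← sub_self (0 : E3), P2sub, sub_self],
    show (0 : E2) - -h2 (pp Z) - h2 (pp Z) + 0 = 0 by abel, P10]

private theorem abs_R {f1 g1 : C → E2} {f2 : E2 → E3} {k2 : C → E3} {f3 : E3 → E4} {F1 F2 F3 F4 : C → E4}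
    {P1 : E2 → C} {P2 : E3 → E2} {P3 : E4 → E3} {h1 : D → C} {h2 : D → E2} {h3 : D → E3} {pp : C → D} {sC : C → C}
    {s2 : E2 → E2} {s3 : E3 → E3} {ψ R : C}
    (hF1 : ∀ x, F1 x = f3 (f2 (f1 x))) (hF2 : ∀ x, F2 x = f3 (f2 (g1 x))) (hF3 : ∀ x, F3 x = f3 (k2 x))
    (f1mul : ∀ x y, f1 (x * y) = f1 x * f1 y)
    (f2mul : ∀ x y, f2 (x * y) = f2 x * f2 y) (f2sub : ∀ x y, f2 (x - y) = f2 x - f2 y)
    (f3sub : ∀ x y, f3 (x - y) = f3 x - f3 y) (f3mul : ∀ x y, f3 (x * y) = f3 x * f3 y)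
    (P3add : ∀ x y, P3 (x + y) = P3 x + P3 y) (P2add : ∀ x y, P2 (x + y) = P2 x + P2 y)
    (P1add : ∀ x y, P1 (x + y) = P1 x + P1 y) (P2neg : ∀ x, P2 (-x) = -P2 x) (P1neg : ∀ x, P1 (-x) = -P1 x)
    (h11 : h1 1 = 1) (h21 : h2 1 = 1) (h31 : h3 1 = 1)
    (P3f : ∀ x, P3 (f3 x) = 0) (P3fg : ∀ x y, P3 (f3 x * F4 y) = s3 x * h3 (pp y))
    (P2f : ∀ x, P2 (f2 x) = 0) (P2fg : ∀ x y, P2 (f2 x * k2 y) = s2 x * h2 (pp y))
    (P1f : ∀ x, P1 (f1 x) = 0) (P1fg : ∀ x y, P1 (f1 x * g1 y) = sC x * h1 (pp y))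
    (s3f : ∀ x, s3 (f2 x) = f2 (s2 x)) (s3k : ∀ x, s3 (k2 x) = k2 (sC x)) (s2f : ∀ x, s2 (f1 x) = f1 (sC x))
    (s2g : ∀ x, s2 (g1 x) = g1 (sC x)) (s3mul : ∀ x y, s3 (x * y) = s3 x * s3 y) (s3sub : ∀ x y, s3 (x - y) = s3 x - s3 y)
    (s2mul : ∀ x y, s2 (x * y) = s2 x * s2 y) (s2sub : ∀ x y, s2 (x - y) = s2 x - s2 y)
    (f1neg : ∀ x, f1 (-x) = -f1 x) (g1neg : ∀ x, g1 (-x) = -g1 x) (f2neg : ∀ x, f2 (-x) = -f2 x)
    (k2neg : ∀ x, k2 (-x) = -k2 x) (hψ : pp ψ = 1) (sψ : sC ψ = -ψ) (sR : sC R = R) :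
    P1 (P2 (P3 (F1 R * (F1 ψ * F2 ψ * F3 ψ - F1 ψ * F2 ψ * F4 ψ + F1 ψ * F3 ψ * F4 ψ - F2 ψ * F3 ψ * F4 ψ)))) = R := by
  obtain ⟨b1, hb1⟩ : ∃ a, a = f2 (f1 ψ) := ⟨_, rfl⟩
  obtain ⟨b2, hb2⟩ : ∃ a, a = f2 (g1 ψ) := ⟨_, rfl⟩
  obtain ⟨b3, hb3⟩ : ∃ a, a = k2 ψ := ⟨_, rfl⟩
  obtain ⟨R3, hR3⟩ : ∃ a, a = f2 (f1 R) := ⟨_, rfl⟩
  have t1 : s3 b1 = -b1 := by rw [hb1, s3f, s2f, sψ, f1neg, f2neg]
  have t2 : s3 b2 = -b2 := by rw [hb2, s3f, s2g, sψ, g1neg, f2neg]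
  have t3 : s3 b3 = -b3 := by rw [hb3, s3k, sψ, k2neg]
  have tR : s3 R3 = R3 := by rw [hR3, s3f, s2f, sR]
  have k1 : F1 R * (F1 ψ * F2 ψ * F3 ψ - F1 ψ * F2 ψ * F4 ψ + F1 ψ * F3 ψ * F4 ψ - F2 ψ * F3 ψ * F4 ψ) =
      f3 (R3 * (b1 * b2 * b3)) + f3 (R3 * (b1 * b3 - b1 * b2 - b2 * b3)) * F4 ψ := by
    simp only [f3mul, f3sub, hF1, hF2, hF3, hb1, hb2, hb3, hR3]
    noncomm_ring
  have k3 : s3 (R3 * (b1 * b3 - b1 * b2 - b2 * b3)) = -f2 (f1 R * (f1 ψ * g1 ψ)) + f2 (f1 R * (f1 ψ - g1 ψ)) * k2 ψ := by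
    rw [s3mul, s3sub, s3sub, s3mul, s3mul, s3mul, t1, t2, t3, tR, neg_mul_neg, neg_mul_neg, neg_mul_neg, hb1, hb2, hb3, hR3,
      f2mul, f2mul, f2mul, f2sub]
    noncomm_ring
  have k4 : s2 (f1 R * (f1 ψ - g1 ψ)) = -f1 (R * ψ) + f1 R * g1 ψ := by
    rw [s2mul, s2sub, s2f, s2f, s2g, sR, sψ, f1neg, g1neg, f1mul]
    noncomm_ring
  rw [k1, P3add, P3f, P3fg, zero_add, hψ, h31, mul_one, k3, P2add, P2neg, P2f, neg_zero, zero_add, P2fg, hψ, h21, mul_one,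
    k4, P1add, P1neg, P1f, neg_zero, zero_add, P1fg, hψ, h11, mul_one, sR]

end abs

section four

variable {X M : Space} {q : ℕ} {u : Om M} {E γ₁ γ₂ γ₃ γ₄ : SMap X.xR M} {P Q : Om X} (D : Four E γ₁ γ₂ γ₃ γ₄ u P Q)

include D

theorem Four.alg (Du : Deg (2 * q + 2) u) (du : dO M u = 0) : b0 E u * z0 E u 2 =
    b0 E u * (z0 γ₁ u 2 - z0 γ₂ u 2 + z0 γ₃ u 2 - z0 γ₄ u 2) +
      (P + P + Q) * (b0 γ₁ u * b0 γ₂ u * b0 γ₃ u - b0 γ₁ u * b0 γ₂ u * b0 γ₄ u + b0 γ₁ u * b0 γ₃ u * b0 γ₄ u -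
        b0 γ₂ u * b0 γ₃ u * b0 γ₄ u) -
      dO X ((b0 γ₃ u - b0 γ₄ u) * (b0 γ₁ u - b0 γ₂ u) * (wf γ₂ u - wf γ₃ u)) := by
  have d1 := d_bO (f := γ₁) du
  have d2 := d_bO (f := γ₂) du
  have d3 := d_bO (f := γ₃) du
  have d4 := d_bO (f := γ₄) du
  rw [D.P1, D.Q1] at d1
  rw [D.P2, D.Q2] at d2
  rw [D.P3, D.Q3] at d3
  rw [D.P4, D.Q4] at d4
  have sP : sO X P = P := by rw [← D.P1]; exact s_wE Du 0
  have sQ : sO X Q = Q := by rw [← D.Q1]; exact s_wE Du 1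
  have sR : sO X (P + P + Q) = P + P + Q := by rw [map_add, map_add, sP, sQ]
  exact abs_alg (A := Om X) (s := sO X) (d := dO X) (fun x y => map_mul _ x y) (fun x y => map_sub _ x y)
    (fun x y => map_sub _ x y) (fun x y => d_mul x y) (fun x y h => even_comm' h y) (fun x h => odd_sq h)
    (s_bO Du) (s_bO Du) (s_bO Du) (s_bO Du) (s_bO Du) sR d1 d2 d3 d4 D.J4 (D.z0_four Du du)

end four

/-! ### The integrals -/

section J

variable {B F A : Space} (b : SBun 7 B F)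

theorem s7 {X : Space} (x : Om X) : (sO X)^[7] x = sO X x := by
  simp only [Function.iterate_succ, Function.iterate_zero, Function.comp, id, s_s]

theorem PI_fp1 (f : SMap A F) (x : Om A) : (b.pull f).PI ((fp1 f b.pi).pull x) = 0 := by
  have h := (b.pull f).PI_mulr x 1
  have h1 : (b.pull f).PI 1 = 0 := (b.pull f).PI_low Deg_one (by norm_num)
  rw [one_mul, h1, zero_mul] at h
  exact h

theorem PI_fp (f : SMap A F) (x : Om A) (y : Om B) :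
    (b.pull f).PI ((fp1 f b.pi).pull x * (fp2 f b.pi).pull y) = sO A x * f.pull (b.PI y) := by
  have h := (b.pull f).PI_mul x ((fp2 f b.pi).pull y)
  rw [s7, b.PI_pull] at h
  exact h

theorem PI_fpr (f : SMap A F) (x : Om A) (y : Om B) :
    (b.pull f).PI ((fp2 f b.pi).pull y * (fp1 f b.pi).pull x) = f.pull (b.PI y) * x := by
  have h := (b.pull f).PI_mulr x ((fp2 f b.pi).pull y)
  rw [b.PI_pull] at h
  exact h

variable {ψ : Om B} (h1 : b.PI ψ = 1) (sψ : sO B ψ = -ψ)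

include h1 sψ

theorem J4_AZ {Z : Om B} (sZ : sO B Z = Z) :
    J4 b (((prF1 b).pull ψ - (prF2 b).pull ψ + (prF3 b).pull ψ - (prF4 b).pull ψ) *
      ((prF1 b).pull Z - (prF2 b).pull Z + (prF3 b).pull Z - (prF4 b).pull Z)) = 0 :=
  abs_AZ (C := Om B) (D := Om F) (E2 := Om _) (E3 := Om _) (E4 := Om _) (f1 := (fp1 b.pi b.pi).pull) (g1 := (fp2 b.pi b.pi).pull)
    (f2 := (fp1 (g2 b) b.pi).pull) (k2 := (fp2 (g2 b) b.pi).pull) (f3 := (fp1 (g3 b) b.pi).pull) (F1 := (prF1 b).pull)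
    (F2 := (prF2 b).pull) (F3 := (prF3 b).pull) (F4 := (prF4 b).pull) (P1 := (b.pull b.pi).PI) (P2 := (b.pull (g2 b)).PI)
    (P3 := (b.pull (g3 b)).PI) (h2 := (g2 b).pull) (h3 := (g3 b).pull) (pp := b.PI) (sC := sO B) (s2 := sO _) (s3 := sO _)
    (fun _ => rfl) (fun _ => rfl) (fun _ => rfl) (fun x y => map_mul _ x y) (fun x y => map_sub _ x y)
    (fun x y => map_add _ x y) (fun x y => map_sub _ x y) (fun x y => map_mul _ x y) (fun x y => SBun.PI_add _ x y)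
    (fun x y => PI_sub' _ x y) (fun x y => SBun.PI_add _ x y) (fun x y => PI_sub' _ x y) (PI_zeroB _) (map_one _) (map_one _)
    (fun _ => rfl) (fun x => PI_fp1 b _ x) (fun x y => PI_fp b _ x y) (fun x y => PI_fpr b _ x y) (fun y => b.PI_pull _ y)
    (fun x => PI_fp1 b _ x) (fun x y => (b.pull (g2 b)).PI_mulr x y) (fun y => b.PI_pull _ y) (fun x => (pull_s _ x))
    (fun x => (pull_s _ x)) (fun x => (pull_s _ x)) (fun x => (pull_s _ x)) (fun x y => map_add _ x y) (fun x y => map_sub _ x y)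
    (fun x => map_neg _ x) (fun x => map_neg _ x) (fun x => map_neg _ x) (fun x => map_neg _ x) (fun x => PI_neg' _ x) h1 sψ

theorem J4_R {R : Om B} (sR : sO B R = R) :
    J4 b ((prF1 b).pull R * ((prF1 b).pull ψ * (prF2 b).pull ψ * (prF3 b).pull ψ - (prF1 b).pull ψ * (prF2 b).pull ψ * (prF4 b).pull ψ +
      (prF1 b).pull ψ * (prF3 b).pull ψ * (prF4 b).pull ψ - (prF2 b).pull ψ * (prF3 b).pull ψ * (prF4 b).pull ψ)) = R :=
  abs_R (C := Om B) (D := Om F) (E2 := Om _) (E3 := Om _) (E4 := Om _) (f1 := (fp1 b.pi b.pi).pull) (g1 := (fp2 b.pi b.pi).pull)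
    (f2 := (fp1 (g2 b) b.pi).pull) (k2 := (fp2 (g2 b) b.pi).pull) (f3 := (fp1 (g3 b) b.pi).pull) (F1 := (prF1 b).pull)
    (F2 := (prF2 b).pull) (F3 := (prF3 b).pull) (F4 := (prF4 b).pull) (P1 := (b.pull b.pi).PI) (P2 := (b.pull (g2 b)).PI)
    (P3 := (b.pull (g3 b)).PI) (h1 := b.pi.pull) (h2 := (g2 b).pull) (h3 := (g3 b).pull) (pp := b.PI) (sC := sO B)
    (s2 := sO _) (s3 := sO _)
    (fun _ => rfl) (fun _ => rfl) (fun _ => rfl) (fun x y => map_mul _ x y) (fun x y => map_mul _ x y)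
    (fun x y => map_sub _ x y) (fun x y => map_sub _ x y) (fun x y => map_mul _ x y) (fun x y => SBun.PI_add _ x y)
    (fun x y => SBun.PI_add _ x y) (fun x y => SBun.PI_add _ x y) (fun x => PI_neg' _ x) (fun x => PI_neg' _ x)
    (map_one _) (map_one _) (map_one _) (fun x => PI_fp1 b _ x) (fun x y => PI_fp b _ x y) (fun x => PI_fp1 b _ x)
    (fun x y => PI_fp b _ x y) (fun x => PI_fp1 b _ x) (fun x y => PI_fp b _ x y) (fun x => (pull_s _ x))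
    (fun x => (pull_s _ x)) (fun x => (pull_s _ x)) (fun x => (pull_s _ x)) (fun x y => map_mul _ x y)
    (fun x y => map_sub _ x y) (fun x y => map_mul _ x y) (fun x y => map_sub _ x y) (fun x => map_neg _ x)
    (fun x => map_neg _ x) (fun x => map_neg _ x) (fun x => map_neg _ x) h1 sψ sR

end J

end Pool.Agent.Lib.MP_ccbbf6_gt.K7
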