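import Pool.Agent.Lib.MP_ccbbf6_gt.K7.PF2
import Pool.Agent.Lib.MP_ccbbf6_gt.K7.UA2

/-!
# `κ = 7`, block F-D: `TT = - xb z0 + d (..)` (helper77)

Proof on paper (`c : Circ X`, `F := f.comp c.a : SMap X.xR M`, `U := f.pull u`):
* (2b) `c.a.pull (ub) = p^* ub + dO sF * p^* xb` : both sides: `θ := c.a.pull ub - dO sF * p^* xb - p^* ub` is `NoDt` (cs of `c.a^* w` on
  `p.up` is the value of `iO c w` along `a`; key lemma: `iO c w = 0 → NoDt (c.a.pull w)`; in general the `dt` component of `c.a.pull w` is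
  `c.a.pull (iO c w)`), `dO θ` is `NoDt` (it is `0`: `dO ub = 0`, `dO xb = 0`), so `NoDt.eq` (PF1) gives `θ = p^*(j0^* θ) = 0`
  (`j0^* c.a^* = id`, `j0^* dO sF = 0`).
* (2c) `c.a.pull lam = p^* lam - bh F u + sF * p^* xb` : `iO c lam = 0` (`lam = KO ((1 - sF) * c.a^* U)`, and `i_K`; `ιι = 0`), so both sides
  `NoDt`; `dO` of the difference `= c.a^* (ub - U) - p^*(ub - U) + (F^* u - p^* U) - dO sF * p^* xb = 0` by (2b), `d_lam`, `d_bh`;
  equal at `t = 0` (`bh_zero`): `NoDt.eq`.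
* (2d) `xb * xp = xb * KO (c.a^* mu)` (`xp = iO c (AO c mu) = KO (c.a.pull mu)`: `i_A`), `c.a^* mu = c.a^* lam * P2 (c.a^* ub) (F^* u)`;
  `xb * KO θ = - KO (p^* xb * θ)`, `p^* xb * p^* xb = 0` kills `sF p^* xb` and `dO sF p^* xb`:
  `xb * xp = - KO (p^*xb * (p^*lam - bh F) * P2 (p^* ub) (F^* u))`.
  `ub = U + dO lam`: `P2 (p^*ub) (F^*u) = P2 (p^*U) (F^*u) + p^*(dO lam * (ub + U)) + p^*(dO lam) * F^*u`;
  `KO (bh F * P2 (p^* U) (F^* u)) = z0 F u 2` (`wt F u 0 = U`, `HH_two`); `KO (bh F u) = 0` (`K_NoDt (NoDt_bh ..)`); `KO (bh F u * F^*u) = wf F u`;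
  `KO (F^* u) = b0 F u = xb` (`xb_eq`), `KO ((F^*u)^2) = 2 U xb - dO wf` (`K_sq`, `wt F u 0 = wt F u 1 = U`: `c.zero`, `c.one`).
  `xb * lam * xb = 0`.
-/

set_option autoImplicit false
set_option maxSynthPendingDepth 3

open Set Filter Topology MeasureTheory
open scoped TensorProduct ContDiff

noncomputable section

namespace Pool.Agent.Lib.MP_ccbbf6_gt.K7

open L4 L4.FR L5

variable {X Y Z M : Space} {k l n q : ℕ} {c : Circ X} {f : SMap X M} {u : Om M}

/-! ### Pull-back by the action -/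

/-- the `dt` component of `a^* w` -/
theorem cs_op {w : Om X} (hw : Inv c (iO c w)) (p : X.Plot k) :
    cs k (Om.on w (c.op p)) = pb (pr k) (Om.on (iO c w) p) := by
  rw [← sub_eq_zero]
  refine Fm_slice (fun s => ?_) (fun s => ?_)
  · have h2 : Om.on (iO c w) ((c.at s).pl p) = pb (sl k s) (cs k (Om.on w (c.op p))) := by
      rw [on_i, ← op_ts, on_cmp, cs_ts, ← pb_comp, ts_sl, zero_add]
    rw [map_sub, ← h2, ← on_pull, hw s, ← pb_comp, pr_sl, pb_id, sub_self]
  · rw [map_sub, cs_cs, cs_pr, sub_zero, map_zero]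

theorem NoDt_a {w : Om X} (hw : iO c w = 0) : NoDt (c.a.pull w) := fun k p => by
  have h1 : Inv c (iO c w) := fun t => by rw [hw, map_zero]
  have h2 := cs_op h1 p
  rw [hw, on_zero, map_zero] at h2
  exact h2

theorem j0_a (w : Om X) : (jO X 0).pull (c.a.pull w) = w := by
  rw [← pull_comp]
  have : c.a.comp (jO X 0) = SMap.id X := SMap_ext fun x => c.zero x
  rw [this, pull_id]

theorem j1_a (w : Om X) : (jO X 1).pull (c.a.pull w) = w := by
  rw [← pull_comp]
  have : c.a.comp (jO X 1) = SMap.id X := SMap_ext fun x => by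
    have h := c.one x 0
    rw [zero_add] at h
    exact h.trans (c.zero x)
  rw [this, pull_id]

theorem eq_of_NoDt {θ τ : Om X.xR} (h : NoDt (θ - τ)) (hd : dO _ θ = dO _ τ) (h0 : (jO X 0).pull θ = (jO X 0).pull τ) :
    θ = τ := by
  rw [← sub_eq_zero]
  have h1 : NoDt (dO _ (θ - τ)) := by
    rw [map_sub, hd, sub_self]
    intro k p
    rw [on_zero, map_zero]
  rw [NoDt.eq h h1, map_sub, h0, sub_self, map_zero]

theorem j0_sF : (jO X 0).pull (sF X) = 0 := by rw [sF_j, map_zero]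

theorem s_sF' : sO _ (sF X) = sF X := Deg_even (j := 0) (by rw [mul_zero]; exact Deg_sF)

/-- `a^* ub` -/
theorem a_ub (du : dO M u = 0) : c.a.pull (ub c f u) = (pO X).pull (ub c f u) + dO _ (sF X) * (pO X).pull (xb c f u) := by
  have hI : Inv c (iO c (ub c f u)) := Bas_inv c (Bas_xb du)
  refine eq_of_NoDt (fun k p => ?_) ?_ ?_
  · have h1 : Om.on (c.a.pull (ub c f u)) p.up = Om.on (ub c f u) (c.op p) := rfl
    have h2 : cs k (Om.on (dO _ (sF X) * (pO X).pull (xb c f u)) p.up) = pb (pr k) (Om.on (xb c f u) p) := by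
      rw [on_mul, on_d, on_sF_up, fc_pd_co, on_p, cs_mul, cs_pr, mul_zero, add_zero, cs, cn_dx, lst_apply,
        Pi.single_eq_same, map_one, one_mul]
    rw [on_sub, map_sub, on_add, map_add, h1, cs_op hI, h2, NoDt_p _ k p, zero_add]
    exact sub_self _
  · rw [pull_d, d_ub du, map_zero, map_add, pull_d, d_ub du, map_zero, zero_add, d_mul, d_d, zero_mul, zero_add, pull_d,
      d_xb du, map_zero, mul_zero]
  · rw [j0_a, map_add, map_mul, j_p, ← pull_d, j0_sF, map_zero, zero_mul, add_zero]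

theorem Eqv_a : Eqv (xRc c) c c.a := fun x s => by
  change c.a.1 (c.a.1 (x.1, s), x.2) = c.a.1 (c.a.1 (x.1, x.2), s)
  rw [c.add, c.add, add_comm]

theorem i_sF : iO (xRc c) (sF X) = 0 := Om_ext fun k p => by
  rw [on_i, on_zero]
  have h1 : cs k (Om.on (sF X) ((xRc c).op p)) = 0 := cn_fc _ _
  rw [h1, map_zero]

theorem NoDt_1s : NoDt (1 - sF X) := NoDt_sub NoDt_one NoDt_sF

theorem i_lam : iO c (lam c f u) = 0 := by
  unfold lam
  have h1 : iO (xRc c) (1 - sF X) = 0 := by rw [map_sub, i_one, i_sF, sub_self]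
  have h2 : sO _ (1 - sF X) = 1 - sF X := by rw [map_sub, map_one, s_sF']
  rw [i_K, i_mul, h1, zero_mul, zero_add, h2, i_nat Eqv_a, K_NoDt, neg_zero]
  exact NoDt_mul NoDt_1s (NoDt_a (i_i c _))

theorem wt_F0 : wt (f.comp c.a) u 0 = f.pull u := j0_a (f.pull u)

theorem wt_F1 : wt (f.comp c.a) u 1 = f.pull u := j1_a (f.pull u)

/-- `a^* lam` -/
theorem a_lam (Du : Deg (2 * q + 2) u) (du : dO M u = 0) : c.a.pull (lam c f u) =
    (pO X).pull (lam c f u) - bh (f.comp c.a) u + sF X * (pO X).pull (xb c f u) := by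
  refine eq_of_NoDt (NoDt_sub (NoDt_a i_lam) (NoDt_add (NoDt_sub (NoDt_p _) (NoDt_bh _ _)) (NoDt_mul NoDt_sF (NoDt_p _))))
    ?_ ?_
  · rw [pull_d, d_lam Du du, map_sub c.a.pull, map_add (dO _), map_sub (dO _), pull_d, d_lam Du du, d_bh _ _ du, wt_F0,
      d_mul, pull_d, d_xb du, map_zero, mul_zero, add_zero, a_ub du, map_sub (pO X).pull]
    have h1 : (f.comp c.a).pull u = c.a.pull (f.pull u) := rfl
    rw [h1]
    abel
  · rw [j0_a, map_add, map_sub, map_mul, j_p, j0_sF, zero_mul, add_zero, bh_zero, sub_zero]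

/-! ### The form `TT` -/

theorem sub_sq_aux {a b : Om X} (h : a * b = b * a) : a ^ 2 - b ^ 2 = (a - b) * (a + b) := by
  rw [sub_mul, mul_add, mul_add, ← pow_two, ← pow_two, h]
  abel

/-- **the form `TT` of a family of loops** -/
theorem TT_path (Du : Deg (2 * q + 2) u) (du : dO M u = 0) :
    TT c f u = -(xb c f u * z0 (f.comp c.a) u 2) + dO X (xb c f u * lam c f u * wf (f.comp c.a) u) := by
  obtain ⟨F, hF⟩ : ∃ F : SMap X.xR M, F = f.comp c.a := ⟨_, rfl⟩
  obtain ⟨x, hx⟩ : ∃ x, x = xb c f u := ⟨_, rfl⟩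
  obtain ⟨l, hl⟩ : ∃ l, l = lam c f u := ⟨_, rfl⟩
  obtain ⟨v, hv⟩ : ∃ v, v = ub c f u := ⟨_, rfl⟩
  obtain ⟨U, hU⟩ : ∃ U, U = f.pull u := ⟨_, rfl⟩
  have sx : sO X x = -x := by rw [hx]; exact s_xb Du
  have sl : sO X l = -l := by rw [hl]; exact Deg_odd (j := q) (Deg_lam Du)
  have sv : sO X v = v := by rw [hv]; exact s_ub Du
  have sU : sO X U = U := by rw [hU]; exact s_fu Du
  have dx : dO X x = 0 := by rw [hx]; exact d_xb du
  have dl : dO X l = v - U := by rw [hl, hv, hU]; exact d_lam Du du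
  have w0 : wt F u 0 = U := by rw [hF, hU]; exact wt_F0
  have w1 : wt F u 1 = U := by rw [hF, hU]; exact wt_F1
  have hb : b0 F u = x := by rw [hF, hx, xb_eq]; rfl
  have xx : x * x = 0 := by rw [hx]; exact xb_sq Du
  have sxl : sO X (x * l) = x * l := by rw [map_mul, sx, sl, neg_mul_neg]
  have sG : sO _ (F.pull u) = F.pull u := by rw [pull_s, s_u Du]
  obtain ⟨w, hw⟩ : ∃ w, w = wf F u := ⟨_, rfl⟩
  obtain ⟨z, hz⟩ : ∃ z, z = z0 F u 2 := ⟨_, rfl⟩
  -- the forms on `X × R`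
  obtain ⟨G, hG⟩ : ∃ G, G = F.pull u := ⟨_, rfl⟩
  obtain ⟨β, hβ⟩ : ∃ β, β = bh F u := ⟨_, rfl⟩
  obtain ⟨px, hpx⟩ : ∃ px, px = (pO X).pull x := ⟨_, rfl⟩
  obtain ⟨pv, hpv⟩ : ∃ pv, pv = (pO X).pull v := ⟨_, rfl⟩
  obtain ⟨pU, hpU⟩ : ∃ pU, pU = (pO X).pull U := ⟨_, rfl⟩
  have sG' : sO _ G = G := by rw [hG, sG]
  have spx : sO _ px = -px := by rw [hpx, pull_s, sx, map_neg]
  have spv : sO _ pv = pv := by rw [hpv, pull_s, sv]
  have spU : sO _ pU = pU := by rw [hpU, pull_s, sU]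
  have sβ : sO _ β = -β := by
    rw [hβ]
    exact Deg_odd (j := q) (Deg_K (Deg_pull _ (Deg_pull _ Du)))
  have pxx : px * px = 0 := by rw [hpx, ← map_mul, xx, map_zero]
  obtain ⟨A, hA⟩ : ∃ A, A = c.a.pull l := ⟨_, rfl⟩
  obtain ⟨B, hB⟩ : ∃ B, B = c.a.pull v := ⟨_, rfl⟩
  have hA' : A = (pO X).pull l - β + sF X * px := by rw [hA, hl, a_lam Du du, hβ, hF, hpx, hx]
  have hB' : B = pv + dO _ (sF X) * px := by rw [hB, hv, a_ub du, hpv, hv, hpx, hx]
  -- multiplication with `px`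
  obtain ⟨E, hE⟩ : ∃ E, E = px * ((pO X).pull l - β) := ⟨_, rfl⟩
  have hpA : px * A = E := by
    rw [hA', mul_add, ← hE, ← mul_assoc, ← even_comm' s_sF' px, mul_assoc, pxx, mul_zero, add_zero]
  have sE : sO _ E = E := by
    rw [hE, map_mul, spx, map_sub, sβ, pull_s, sl, map_neg]
    have : -(pO X).pull l - -β = -((pO X).pull l - β) := by abel
    rw [this, neg_mul_neg]
  have hEB : E * B = E * pv := by
    have h1 : E * (dO _ (sF X) * px) = 0 := by
      rw [even_comm' sE, hE, mul_assoc, ← mul_assoc px, pxx, zero_mul, mul_zero]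
    rw [hB', mul_add, h1, add_zero]
  have hEP : E * P2 B G = E * P2 pv G := by
    have h1 : E * (B * B) = E * (pv * pv) := by
      rw [← mul_assoc, hEB, mul_assoc, even_comm' spv B, ← mul_assoc, hEB, mul_assoc]
    have h2 : E * (B * G) = E * (pv * G) := by rw [← mul_assoc, hEB, mul_assoc]
    unfold P2
    rw [mul_add, mul_add, mul_add, mul_add, pow_two, pow_two pv, h1, h2]
  -- the first part
  have hxlx : ∀ y : Om X, sO X y = y → x * l * (y * x) = 0 := by
    intro y hy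
    rw [even_comm' hy x, ← mul_assoc, even_comm' sxl x, ← mul_assoc, xx, zero_mul, zero_mul]
  have k1 : KO X (F.pull u ^ 2) = (U + U) * x - dO X w := by
    rw [K_sq Du du, w0, w1, hb, hw]
  have K1 : KO X ((pO X).pull (x * l) * P2 pv G) = -(x * l * dO X w) := by
    have h1 : KO X (pv * G) = v * x := by
      rw [hpv, K_mul, sv, hG, ← hb]
      rfl
    have h2 : KO X (P2 pv G) = v * x + ((U + U) * x - dO X w) := by
      unfold P2
      rw [map_add, map_add, hpv, ← map_pow, K_p, ← hpv, h1, hG, k1, zero_add]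
    rw [K_mul, sxl, h2, mul_add, mul_sub, hxlx v sv, hxlx (U + U) (by rw [map_add, sU]), zero_add, zero_sub]
  -- the second part
  have hP : P2 pv G = P2 pU G + (pO X).pull ((v - U) * (v + U)) + (pO X).pull (v - U) * G := by
    have h1 : pv ^ 2 - pU ^ 2 = (pO X).pull ((v - U) * (v + U)) := by
      rw [hpv, hpU, ← map_pow, ← map_pow, ← map_sub, sub_sq_aux (even_comm' sv U)]
    rw [← h1, map_sub, ← hpv, ← hpU]
    unfold P2
    rw [sub_mul]
    abel
  have K2 : KO X (β * P2 pv G) = z + (v - U) * w := by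
    have h1 : KO X (β * P2 pU G) = z := by
      rw [hz]
      unfold z0 TH P2
      rw [HH_two, w0, ← hβ, ← hG, hpU, ← map_pow]
    have h2 : KO X (β * (pO X).pull ((v - U) * (v + U))) = 0 := by
      rw [hβ]
      exact K_NoDt (NoDt_mul (NoDt_bh _ _) (NoDt_p _))
    have sd : sO X (v - U) = v - U := by rw [map_sub, sv, sU]
    have h3 : KO X (β * ((pO X).pull (v - U) * G)) = (v - U) * w := by
      have h4 : sO _ ((pO X).pull (v - U)) = (pO X).pull (v - U) := by rw [pull_s, sd]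
      rw [← mul_assoc, ← even_comm' h4 β, mul_assoc, K_mul, sd, hw, hβ, hG]
      rfl
    rw [hP, mul_add, mul_add, map_add, map_add, h1, h2, h3, add_zero]
  have K3 : KO X (E * P2 pv G) = -(x * l * dO X w) + x * (z + (v - U) * w) := by
    have h1 : E * P2 pv G = (pO X).pull (x * l) * P2 pv G - px * (β * P2 pv G) := by
      rw [hE, mul_sub, hpx, ← map_mul, sub_mul, mul_assoc]
    rw [h1, map_sub, K1, hpx, K_mul, sx, K2, neg_mul, sub_neg_eq_add]
  have hT : TT c f u = -KO X (E * P2 pv G) := by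
    have h1 : xp c f u = KO X (A * P2 B G) := by
      unfold xp
      rw [i_A]
      unfold mu
      rw [map_mul, ← P2_nat, hA, hB, hl, hv, hG, hF]
      rfl
    have h2 : KO X (px * (A * P2 B G)) = -(x * KO X (A * P2 B G)) := by rw [hpx, K_mul, sx, neg_mul]
    unfold TT
    rw [h1, ← hx, ← hEP, ← hpA, mul_assoc px A, h2, neg_neg]
  have hd : dO X (x * l * w) = -(x * ((v - U) * w)) + x * l * dO X w := by
    rw [d_mul, d_mul, dx, zero_mul, zero_add, sxl, sx, dl, neg_mul, neg_mul, mul_assoc]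
  rw [hT, K3, ← hF, ← hx, ← hl, ← hz, ← hw, hd, mul_add]
  abel

end Pool.Agent.Lib.MP_ccbbf6_gt.K7
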