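import Pool.Agent.Lib.MP_ccbbf6_gt.K7.PF4
import Pool.Agent.Lib.MP_ccbbf6_gt.K7.PT

/-!
# `κ = 7`, block F-D, part 5: the integral of `T` over the fibres of `K2 → UM` (helper79)

`J4_e2` : `J4 (e^* T) - (3 * (-1)) foot^* u = d z` : the input `hJ` of `GysD.hF_of` with `s = -1`.
-/

set_option autoImplicit false
set_option maxSynthPendingDepth 3
set_option linter.unusedSectionVars false

open Set Filter Topology Metric Real Module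
open scoped ContDiff RealInnerProductSpace

noncomputable section

namespace Pool.Agent.Lib.MP_ccbbf6_gt.K7

open Geo L4 L4.ORI L4.FR L5 SU HQ

theorem J4_add {B F : Space} (b : SBun 7 B F) (x y : Om (T4 b)) : J4 b (x + y) = J4 b x + J4 b y := by
  unfold J4
  rw [SBun.PI_add, SBun.PI_add, SBun.PI_add]

theorem J4_neg {B F : Space} (b : SBun 7 B F) (x : Om (T4 b)) : J4 b (-x) = -J4 b x := by
  unfold J4
  rw [PI_neg', PI_neg', PI_neg']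

variable {n : ℕ} {M : Type} [MetricSpace M] [CompactSpace M] {𝒜 : SDist n M} {d : ℝ} (hB : Bl M)
variable (b : SBun 7 (spG 𝒜) (spF 𝒜)) (hb : ∀ c, b.pi.1 c = (gF hB).1 c) (hd0 : 0 < d) (hd : d ≤ π / 2)

/-- **the integral of `T` over the fibres of `K2`** -/
theorem J4_e2 {u : Om (spM 𝒜)} (Du : Deg (2 * 3 + 2) u) (du : dO _ u = 0) (h1 : b.PI (b0 (fRho hB) u) = 1) :
    ∃ z : Om (spG 𝒜), Deg 7 z ∧ J4 b (((iOd 𝒜 d).comp (e2 b hB hb hd0 hd)).pull (TT (cLO 𝒜) (fLO 𝒜) u)) -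
      (3 * (-1 : ℝ)) • (foot hB 0).pull u = dO _ z := by
  obtain ⟨e, he⟩ : ∃ e, e = (iOd 𝒜 d).comp (e2 b hB hb hd0 hd) := ⟨_, rfl⟩
  have hE : EE hB b hb hd0 hd = ((fLO 𝒜).comp (cLO 𝒜).a).comp e.up := by rw [he]; rfl
  have D := fourE hB b hb hd0 hd u
  have hD := D.alg Du du
  have su : sO _ u = u := s_u Du
  obtain ⟨ψ, hψ⟩ : ∃ ψ, ψ = b0 (fRho (𝒜 := 𝒜) hB) u := ⟨_, rfl⟩
  obtain ⟨Z, hZ⟩ : ∃ Z, Z = z0 (fRho (𝒜 := 𝒜) hB) u 2 := ⟨_, rfl⟩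
  obtain ⟨P, hP⟩ : ∃ P, P = wt (fRho (𝒜 := 𝒜) hB) u 0 := ⟨_, rfl⟩
  obtain ⟨Q, hQ⟩ : ∃ Q, Q = wt (fRho (𝒜 := 𝒜) hB) u 1 := ⟨_, rfl⟩
  have sψ : sO _ ψ = -ψ := by rw [hψ]; exact s_bO Du
  have sP : sO _ P = P := by rw [hP]; exact s_wE Du 0
  have sQ : sO _ Q = Q := by rw [hQ]; exact s_wE Du 1
  have Dψ : Deg 7 ψ := by rw [hψ]; exact Deg_bO (q := 3) Du
  have sZ : sO _ Z = Z := by
    rw [hZ]
    unfold z0 TH
    rw [K_s, map_mul, s_bh_ev _ su, s_HH_ev _ su, neg_mul, map_neg, neg_neg]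
  have dψ : dO _ ψ = Q - P := by rw [hψ, hQ, hP]; exact d_bO du
  have hPf : P = (foot hB 0).pull u := by
    have e1 : (fRho (𝒜 := 𝒜) hB).comp (jO _ 0) = foot hB 0 := SMap_ext fun c => by
      show c.1 (π * 0) = c.1 0
      rw [mul_zero]
    rw [hP, ← e1]
    rfl
  have k1 : b0 (EE hB b hb hd0 hd) u = (prF1 b).pull ψ - (prF2 b).pull ψ + (prF3 b).pull ψ - (prF4 b).pull ψ := by
    rw [D.J4, hψ]
    rfl
  obtain ⟨ω0, hω0⟩ : ∃ ω0, ω0 = e.pull (xb (cLO 𝒜) (fLO 𝒜) u * lam (cLO 𝒜) (fLO 𝒜) u *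
      wf ((fLO 𝒜).comp (cLO 𝒜).a) u) := ⟨_, rfl⟩
  have Dω0 : Deg 28 ω0 := by
    have g1 := Deg_xb (c := cLO 𝒜) (f := fLO 𝒜) Du
    have g2 := Deg_lam (c := cLO 𝒜) (f := fLO 𝒜) Du
    have g3 := Deg_wf (f := (fLO 𝒜).comp (cLO 𝒜).a) Du
    have g4 := Deg_pull e (Deg_mul (Deg_mul g1 g2) g3)
    have g5 : 2 * 3 + 1 + (2 * 3 + 1) + (4 * 3 + 2) = 28 := by norm_num
    rw [g5, ← hω0] at g4
    exact g4
  have k2 : e.pull (TT (cLO 𝒜) (fLO 𝒜) u) = -(b0 (EE hB b hb hd0 hd) u * z0 (EE hB b hb hd0 hd) u 2) + dO _ ω0 := by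
    rw [TT_path Du du, hE, z0_up, b0_up, hω0, pull_d, map_add, map_neg, map_mul, xb_eq]
    rfl
  obtain ⟨a1, ha1⟩ : ∃ a, a = (prF1 b).pull ψ := ⟨_, rfl⟩
  obtain ⟨a2, ha2⟩ : ∃ a, a = (prF2 b).pull ψ := ⟨_, rfl⟩
  obtain ⟨a3, ha3⟩ : ∃ a, a = (prF3 b).pull ψ := ⟨_, rfl⟩
  obtain ⟨a4, ha4⟩ : ∃ a, a = (prF4 b).pull ψ := ⟨_, rfl⟩
  have Da : ∀ p : SMap (T4 b) (spG 𝒜), Deg 7 (p.pull ψ) := fun p => Deg_pull _ Dψ
  obtain ⟨ω1, hω1⟩ : ∃ ω1, ω1 = (a3 - a4) * (a1 - a2) * (wf ((fRho hB).comp (prF2 b).up) u - wf ((fRho hB).comp (prF3 b).up) u) :=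
    ⟨_, rfl⟩
  have Dω1 : Deg 28 ω1 := by
    have g1 := Deg_sub (Deg_wf (f := (fRho hB).comp (prF2 b).up) Du) (Deg_wf (f := (fRho hB).comp (prF3 b).up) Du)
    have g2 := Deg_mul (Deg_mul (Deg_sub (Da (prF3 b)) (Da (prF4 b))) (Deg_sub (Da (prF1 b)) (Da (prF2 b)))) g1
    have g5 : 7 + 7 + (4 * 3 + 2) = 28 := by norm_num
    rw [g5, ← ha1, ← ha2, ← ha3, ← ha4, ← hω1] at g2
    exact g2
  have k3 : b0 (EE hB b hb hd0 hd) u * z0 (EE hB b hb hd0 hd) u 2 =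
      ((prF1 b).pull ψ - (prF2 b).pull ψ + (prF3 b).pull ψ - (prF4 b).pull ψ) *
        ((prF1 b).pull Z - (prF2 b).pull Z + (prF3 b).pull Z - (prF4 b).pull Z) +
      (prF1 b).pull (P + P + Q) * ((prF1 b).pull ψ * (prF2 b).pull ψ * (prF3 b).pull ψ - (prF1 b).pull ψ * (prF2 b).pull ψ * (prF4 b).pull ψ +
      (prF1 b).pull ψ * (prF3 b).pull ψ * (prF4 b).pull ψ - (prF2 b).pull ψ * (prF3 b).pull ψ * (prF4 b).pull ψ) - dO _ ω1 := by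
    rw [hD, k1, z0_up, z0_up, z0_up, z0_up, hω1, ha1, ha2, ha3, ha4, ← hZ, map_add, map_add, hP, hQ, hψ]
    rfl
  have sR : sO _ (P + P + Q) = P + P + Q := by rw [map_add, map_add, sP, sQ]
  rw [← hψ] at h1
  have k4 : J4 b (e.pull (TT (cLO 𝒜) (fLO 𝒜) u)) = -(P + P + Q) - dO _ (J4 b ω1 + J4 b ω0) := by
    rw [k2, k3, J4_add, J4_neg, J4_sub, J4_add, J4_AZ b h1 sψ sZ, J4_R b h1 sψ sR, J4_d, J4_d, map_add]
    abel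
  refine ⟨-ψ - (J4 b ω1 + J4 b ω0), Deg_sub (Deg_neg Dψ) (Deg_add (Deg_J4 b (j := 7) Dω1) (Deg_J4 b (j := 7) Dω0)), ?_⟩
  rw [← he, k4, ← hPf, map_sub, map_neg, dψ]
  have k5 : (3 * (-1 : ℝ)) • P = -(P + P + P) := by
    have : (3 * (-1 : ℝ)) • P = (-3 : ℝ) • P := by norm_num
    rw [this]
    module
  rw [k5]
  abel

end Pool.Agent.Lib.MP_ccbbf6_gt.K7
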