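import Pool.Agent.Lib.MP_ccbbf6_gt.K7.GY5
import Pool.Agent.Lib.MP_ccbbf6_gt.L5.PHN4
import Pool.Agent.Lib.MP_ccbbf6_gt.L5.TP15

/-!
# `κ = 7`, block p(N), part 1: the closed basic forms of degree at most 12 on `UM` (helper56)

`PN.baseG` : closed basic forms of degree `2 i ≤ 12` are `r e^i + t e^(i - 4) y` up to `d` of basic forms.
`PN.coef8` : the coefficient of `y` in degree 8. `PN.D_sq` : `D^2 = 1`.
-/

set_option autoImplicit false
set_option maxSynthPendingDepth 3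

open Set Filter Topology
open scoped ContDiff

noncomputable section

namespace Pool.Agent.Lib.MP_ccbbf6_gt.K7.PN

open L4 L4.FR L5 GysD

variable {X M G F : Space} (P : NegB X G M F 15 6 2 4)

/-- closed basic forms of degree at most 12 on the base -/
theorem baseG (i : ℕ) : ∀ w : Om G, i ≤ 6 → Deg (2 * i) w → Bas P.cG w → dO G w = 0 →
    ∃ r t : ℝ, Xe P.cG (w - r • eB P ^ i - (if 4 ≤ i then t • (eB P ^ (i - 4) * yG P) else 0)) := by
  induction i with
  | zero =>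
    intro w _ hw hb hd
    obtain ⟨r, h⟩ := low P 0 w (by norm_num) hw hb hd
    refine ⟨r, 0, ?_⟩
    rw [if_neg (by norm_num), sub_zero]
    exact h
  | succ i ih =>
    intro w hi hw hb hd
    by_cases h3 : i + 1 ≤ 3
    · obtain ⟨r, h⟩ := low P (i + 1) w h3 hw hb hd
      refine ⟨r, 0, ?_⟩
      rw [if_neg (by omega), sub_zero]
      exact h
    · obtain ⟨t0, y, hy, e1⟩ := P.D.closed_G (q := 4) (by norm_num) (by omega) (by omega) P.p0 hw hd
      by_cases h4 : i + 1 = 4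
      · obtain rfl : i = 3 := by omega
        obtain ⟨z, hz, e2⟩ := foot_yG P
        rw [if_pos rfl] at e1
        have hy' : Deg 7 y := hy
        have hw' : dO G (y + t0 • z) = w - t0 • yG P := by
          rw [map_add, map_smul, ← e2, ← P.D.x_def, e1]
          module
        obtain ⟨v, k1, k2, k3, k4⟩ := peel P (i := 3) (Bas_sub _ hb (Bas_smul _ t0 (Bas_yG P)))
          (Deg_add hy' (Deg_smul _ hz)) hw'
        obtain ⟨r, k5⟩ := low P 3 v le_rfl k1 k2 k3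
        refine ⟨r, t0, ?_⟩
        have k6 := Xe_add k4 (mul_Xe k5 (Bas_eB P) (s_eB P) (d_eB P))
        have e3 : w - t0 • yG P - eB P * v + eB P * (v - r • eB P ^ 3) =
            w - r • eB P ^ (3 + 1) - (if 4 ≤ 3 + 1 then t0 • (eB P ^ (3 + 1 - 4) * yG P) else 0) := by
          rw [if_pos (by norm_num), show 3 + 1 - 4 = 0 from rfl, pow_zero, one_mul, mul_sub, mul_smul_comm, ← pow_succ']
          abel
        rwa [e3] at k6
      · rw [if_neg h4, zero_add] at e1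
        have hy' : Deg (2 * i + 1) y := by
          rwa [show 2 * (i + 1) - 1 = 2 * i + 1 by omega] at hy
        obtain ⟨v, k1, k2, k3, k4⟩ := peel P hb hy' e1.symm
        obtain ⟨r, t, k5⟩ := ih v (by omega) k1 k2 k3
        refine ⟨r, t, ?_⟩
        have k6 := Xe_add k4 (mul_Xe k5 (Bas_eB P) (s_eB P) (d_eB P))
        have e3 : w - eB P * v + eB P * (v - r • eB P ^ i - (if 4 ≤ i then t • (eB P ^ (i - 4) * yG P) else 0)) =
            w - r • eB P ^ (i + 1) - (if 4 ≤ i + 1 then t • (eB P ^ (i + 1 - 4) * yG P) else 0) := by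
          rw [if_pos (show 4 ≤ i by omega), if_pos (show 4 ≤ i + 1 by omega), mul_sub, mul_sub, mul_smul_comm,
            mul_smul_comm, ← mul_assoc, ← pow_succ', ← pow_succ', show i - 4 + 1 = i + 1 - 4 by omega]
          abel
        rwa [e3] at k6

theorem base_two {w : Om G} (hw : Deg 4 w) (hb : Bas P.cG w) (hd : dO G w = 0) :
    ∃ r : ℝ, Xe P.cG (w - r • eB P ^ 2) := by
  obtain ⟨r, t, h⟩ := baseG P 2 w (by norm_num) hw hb hd
  rw [if_neg (by norm_num), sub_zero] at h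
  exact ⟨r, h⟩

theorem base_four {w : Om G} (hw : Deg 8 w) (hb : Bas P.cG w) (hd : dO G w = 0) :
    ∃ r t : ℝ, Xe P.cG (w - (r • eB P ^ 4 + t • yG P)) := by
  obtain ⟨r, t, h⟩ := baseG P 4 w (by norm_num) hw hb hd
  rw [if_pos (by norm_num), show 4 - 4 = 0 from rfl, pow_zero, one_mul, sub_sub] at h
  exact ⟨r, t, h⟩

theorem base_six {w : Om G} (hw : Deg 12 w) (hb : Bas P.cG w) (hd : dO G w = 0) :
    ∃ r t : ℝ, Xe P.cG (w - (r • eB P ^ 6 + t • (eB P ^ 2 * yG P))) := by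
  obtain ⟨r, t, h⟩ := baseG P 6 w le_rfl hw hb hd
  rw [if_pos (by norm_num), show 6 - 4 = 2 from rfl, sub_sub] at h
  exact ⟨r, t, h⟩

/-- powers of `e` are exact -/
theorem eB_exact (i : ℕ) : eB P ^ (i + 1) = dO G (P.η * eB P ^ i) := by
  have h : dO G (eB P ^ i) = 0 := d_pow_zero (d_eB P) i
  rw [d_mul, h, mul_zero, add_zero, pow_succ']
  rfl

/-- the coefficient of `y` -/
theorem coef8 {w ξ : Om G} {a t b : ℝ} (h : Xe P.cG (w - (a • eB P ^ 4 + t • yG P))) (hw : w - b • P.D.x = dO G ξ) :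
    t = b := by
  obtain ⟨y1, -, h1⟩ := h
  obtain ⟨z, -, e2⟩ := foot_yG P
  rw [← P.D.x_def] at e2
  have h2 : (t - b) • P.D.x = dO G (ξ - a • (P.η * eB P ^ 3) + t • z - y1) := by
    rw [map_sub, map_add, map_sub, map_smul, map_smul, ← eB_exact, ← hw, ← e2, ← h1]
    module
  obtain ⟨χ, hχ, h3⟩ := exists_prim_Deg (j := 7) h2 (Deg_smul _ P.D.Deg_x)
  have h4 := P.D.x_ne P.p0 hχ h3
  linarith

/-- **`D^2 = 1`** -/
theorem D_sq {r : ℝ} (hr : |r| = 2) (h : P.B.PI (iO P.c (AO P.c (b0 P.fl P.D.u))) = algebraMap ℝ (Om G) r) :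
    ∃ d : ℝ, d ^ 2 = 1 ∧ (PP P).Ex ((PP P).θ - d • (PP P).f) := by
  obtain ⟨d, hd⟩ := (PP P).exists_D
  refine ⟨d, ?_, hd⟩
  obtain ⟨y, -, hy⟩ := hd
  have hy' : iO P.c (AO P.c (b0 P.fl P.D.u)) - d • P.f = dO X y := hy
  have h1 : algebraMap ℝ (Om G) (r - 2 * d) = dO G (P.B.PI y) := by
    have h2 := P.B.PI_add (iO P.c (AO P.c (b0 P.fl P.D.u))) ((-d) • P.f)
    rw [neg_smul, ← sub_eq_add_neg, hy', ← neg_smul, P.B.PI_smul, h, P.f2, P.PI_dP] at h2
    rw [h2, Algebra.algebraMap_eq_smul_one, Algebra.algebraMap_eq_smul_one, Algebra.algebraMap_eq_smul_one, smul_smul,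
      ← add_smul]
    congr 1
    ring
  have h3 := P.alg_inj (exact_Deg_zero h1 (Deg_alg _ _))
  have h4 : d = r / 2 := by linarith
  have h5 : r ^ 2 = 4 := by
    rw [← sq_abs, hr]
    norm_num
  rw [h4, div_pow, h5]
  norm_num

/-- the class of `f^2` from its value on the base -/
theorem fsq {p : Om G} {al be : ℝ} (h : Xe P.cG (p - (al • eB P ^ 6 + be • (eB P ^ 2 * yG P))))
    (hf : Xe P.c (P.f ^ 2 - P.B.pi.pull p)) :
    (PP P).Ex ((PP P).f ^ 2 - al • (PP P).e ^ (2 * 4 - 2) - be • ((PP P).e ^ (4 - 2) * (PP P).yy)) := by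
  have h1 := (ebX P).Xe_pi h
  have h2 : (PP P).e ^ 2 = P.B.pi.pull (eB P ^ 2) := by rw [map_pow, pi_e P]
  have h3 : Xe (PP P).c ((PP P).e ^ 2 * ((PP P).yy - P.B.pi.pull (yG P))) := by
    refine mul_Xe (yy_pi P) (Bas_pow _ (PP P).bas_e 2) ?_ ?_
    · rw [map_pow, (PP P).s_e]
    · exact d_pow_zero (PP P).de 2
  have h4 := Xe_sub (Xe_add hf h1) (Xe_smul be h3)
  have h5 : P.B.pi.pull (p - (al • eB P ^ 6 + be • (eB P ^ 2 * yG P))) =
      P.B.pi.pull p - (al • (PP P).e ^ 6 + be • ((PP P).e ^ 2 * P.B.pi.pull (yG P))) := by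
    rw [map_sub, map_add, map_smul, map_smul, map_mul, map_pow, map_pow, pi_e P]
  have h6 : P.f ^ 2 - P.B.pi.pull p + P.B.pi.pull (p - (al • eB P ^ 6 + be • (eB P ^ 2 * yG P))) -
      be • ((PP P).e ^ 2 * ((PP P).yy - P.B.pi.pull (yG P))) =
      (PP P).f ^ 2 - al • (PP P).e ^ 6 - be • ((PP P).e ^ 2 * (PP P).yy) := by
    rw [h5, mul_sub, smul_sub]
    change P.f ^ 2 - _ + _ - _ = P.f ^ 2 - _ - _
    abel
  have h7 : Xe (PP P).c ((PP P).f ^ 2 - al • (PP P).e ^ 6 - be • ((PP P).e ^ 2 * (PP P).yy)) := by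
    rw [← h6]
    exact h4
  exact h7

end Pool.Agent.Lib.MP_ccbbf6_gt.K7.PN
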