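import Pool.Agent.Lib.MP_ccbbf6_gt.L4.EB
import Pool.Agent.Lib.MP_ccbbf6_gt.L5.INTe
import Pool.Agent.Lib.MP_ccbbf6_gt.L5.INTf

/-!
# `κ = 7`, block F, file RAD1: forms killed by the radial vector have vanishing fibre integral (helper25, skeleton)

`vv k ξ : V (k + N) →ₗ ℝ` = the vertical vector `(0, ξ)` as a functional on covectors: `vv k ξ a = ∑ i, ξ i * a (natAdd k i)`.
PROOFS.
(1) `tN_vert` : induction on `N` (`ξ ≠ 0`). `N = 0`: `ξ = 0` (Subsingleton), absurd. Step: `tN k (N+1) w = tN k N (kil (ctr (lst) w))` by definition. Write `ξ' i = ξ i.castSucc`, `r = ξ (Fin.last N)`. `vv k ξ = vv' + r • lst (k + N)`, `vv' a = ∑ i : Fin N, ξ' i * a (natAdd k i).castSucc` (as functional on `V (k + N + 1)`),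
    `ctr_add`, `ctr_smul` (L4/EB), and `kil (ctr vv' y) = ctr (vv k ξ') (kil y)` (`kil k = ExteriorAlgebra.map (ini k)`, `ctr_map` (L4/FRc): `ctr φ (map T x) = map T (ctr (φ ∘ T) x)`, `(vv k ξ') ∘ ini = vv'`).
    Case `r = 0`: `ξ' ≠ 0` and `y := kil (ctr lst w)` satisfies `ctr (vv k ξ') y = kil (ctr vv' (ctr lst w)) = - kil (ctr lst (ctr vv' w)) = 0` (contractions anticommute: `CliffordAlgebra.contractLeft_comm`): induction hypothesis.
    Case `r ≠ 0`: `ctr lst w = - r⁻¹ • ctr vv' w`, `kil` of it `= - r⁻¹ • ctr (vv k ξ') (kil w)`; if `ξ' = 0` this is `0` (`ctr 0 = 0`); otherwise it is killed by `ctr (vv k ξ')` (`CliffordAlgebra.contractLeft_contractLeft`): induction hypothesis.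
(2) `J_rad` : `Jn k N x = Jc k N (pb (scM k N) x)`; by `ev_fun_inj` (or the lemma used for `ev_J`) and `ev_Jc` (L5/INTe: value = integral over the unit cube of `L (tN k N (ev (append z ξ) ·))`), `setIntegral_eq_zero_of_ae`/`integral_eq_zero_of_ae`: for `ξ ≠ (1/2, .., 1/2)` the element `ev (append z ξ) (pb (scM k N) x)` is killed by the vertical vector `6 ξ - 3` (`scM (append z ξ) = append z (6 ξ - 3)`,
    `ev_pb`, `ctr_map`, `INTe_tr`: `vv k η ∘ tr (scM k N) w = 6 • vv k η`, and the hypothesis at the point `scM ..`), which is `≠ 0`: `tN_vert`. A point has measure zero in `V N` (`N ≥ 1`).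
(3) `Rad_fc` : `ev w (fc f * x) = f w • ev w x`. `Rad_add`, `Rad_neg`: linearity.
(4) `par` : `ev_pb`, `ctr_map` twice: the functionals become `a • ψ`, `b • ψ`: `ctr_smul`, `contractLeft_contractLeft`.
-/

set_option autoImplicit false

set_option maxSynthPendingDepth 3

open Set Filter Topology MeasureTheory

open scoped ContDiff

noncomputable section

namespace Pool.Agent.Lib.MP_ccbbf6_gt.K7

open L4 L4.FR L5

variable {k l N : ℕ} {X Y : Space}

/-- the vertical vector `(0, ξ)` as a functional on covectors -/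
def vv (k : ℕ) {N : ℕ} (ξ : V N) : V (k + N) →ₗ[ℝ] ℝ := ∑ i : Fin N, ξ i • (LinearMap.proj (Fin.natAdd k i) : V (k + N) →ₗ[ℝ] ℝ)

/-- **an element killed by a nonzero vertical vector has top coefficient zero** -/
theorem tN_vert {ξ : V N} (h : ξ ≠ 0) {w : Ex (k + N)} (hw : ctr (vv k ξ) w = 0) : tN k N w = 0 := by
  have e1 : vv k ξ = vfm k (∑ i : Fin N, ξ i • (LinearMap.proj i : V N →ₗ[ℝ] ℝ)) := by
    refine LinearMap.ext fun v => ?_
    simp only [vv, vfm, LinearMap.sum_apply, LinearMap.smul_apply, LinearMap.comp_apply,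
      LinearMap.proj_apply, LinearMap.pi_apply]
  rw [e1] at hw
  refine tN_eq_zero ?_ hw
  intro h0
  apply h
  funext j
  have h1 := LinearMap.congr_fun h0 (Pi.single j 1)
  simp only [LinearMap.sum_apply, LinearMap.smul_apply, LinearMap.proj_apply,
    LinearMap.zero_apply, smul_eq_mul] at h1
  rw [Finset.sum_eq_single j] at h1
  · rw [Pi.single_eq_same, mul_one] at h1
    exact h1
  · intro b _ hb
    rw [Pi.single_eq_of_ne hb, mul_zero]
  · intro h2
    exact absurd (Finset.mem_univ j) h2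

/-- radial elements -/
def Rad {k N : ℕ} (x : Fm (k + N)) : Prop := ∀ w : V (k + N), ctr (vv k (tlM k N w)) (ev w x) = 0

/-- **the fibre integral of a radial form is zero** (no hypothesis on the support) -/
theorem J_rad (hN : 1 ≤ N) {x : Fm (k + N)} (h : Rad x) : Jn k N x = 0 := by
  refine ev_fun_inj fun L z => ?_
  have h1 : L (ev z (Jn k N x)) = L (ev z (Jc k N (pb (scM k N) x))) := rfl
  rw [h1, ev_Jc]
  have key : ∀ ξ : V N, ξ ≠ (fun _ => (1 / 2 : ℝ)) →
      L (tN k N (ev (Fin.append z ξ) (pb (scM k N) x))) = 0 := by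
    intro ξ hξ
    rw [ev_pb, tN_map (INTe_tr (Fin.append z ξ))]
    have h2 : tN k N (ev (scM k N (Fin.append z ξ)) x) = 0 := by
      refine tN_vert ?_ (h _)
      rw [tl_scM, tlM_append]
      intro h3
      apply hξ
      funext i
      have h4 : 6 * ξ i - 3 = 0 := congr_fun h3 i
      linarith
    rw [h2, smul_zero, map_zero]
  refine integral_eq_zero_of_ae ?_
  refine ae_restrict_of_ae ?_
  have hna : NullSingletonClass (volume : Measure (V N)) :=
    MeasureTheory.Measure.pi_nullSingletonClass (μ := fun _ : Fin N => (volume : Measure ℝ)) ⟨0, hN⟩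
  have h5 : (volume : Measure (V N)) {(fun _ => (1 / 2 : ℝ))} = 0 := hna.measure_singleton _
  refine Filter.mem_of_superset (compl_mem_ae_iff.mpr h5) ?_
  intro ξ hξ
  exact key ξ hξ

theorem Rad_fc {x : Fm (k + N)} (h : Rad x) (f : Cs (k + N)) : Rad (fc (k + N) f * x) := fun w => by
  rw [map_mul, ev_fc, ← Algebra.smul_def, map_smul, h w, smul_zero]

theorem Rad_add {x y : Fm (k + N)} (hx : Rad x) (hy : Rad y) : Rad (x + y) := fun w => by
  rw [map_add, map_add, hx w, hy w, add_zero]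

/-- two contractions along parallel directions -/
theorem par {m : ℕ} (γ : FR.Sm (m + 1) l) (q : V (m + 1)) (x : Fm l) (φ : V (m + 1) →ₗ[ℝ] ℝ) (ψ : V l →ₗ[ℝ] ℝ) (a b : ℝ)
    (h1 : φ.comp (tr γ q) = a • ψ) (h2 : (lst m).comp (tr γ q) = b • ψ) :
    ctr φ (ctr (lst m) (ev q (pb γ x))) = 0 := by
  rw [ev_pb, ctr_map, ctr_map, h1, h2, EUL.ctr_smul, EUL.ctr_smul, map_smul (ctr ψ), ctr_ctr, smul_zero, smul_zero, map_zero]

/-- a form on `X × R^N` is radial if its values on the plots `P × id` are -/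
def RadO (θ : Om (X.xV N)) : Prop := ∀ (k : ℕ) (P : X.Plot k), Rad (Om.on θ (P.xV N))

theorem JX_rad (hN : 1 ≤ N) {θ : Om (X.xV N)} (h : RadO θ) : JX N X θ = 0 :=
  Om_ext fun k P => by
    rw [on_JX]
    exact J_rad hN (h k P)

end Pool.Agent.Lib.MP_ccbbf6_gt.K7
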