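import Pool.Agent.Lib.MP_ccbbf6_gt.K7.KT
import Pool.Agent.Lib.MP_ccbbf6_gt.K7.RAD1

/-!
# `κ = 7`, block F, file RAD2: **polar coordinates** `JX N X Ω = SI N X (∫_0^1 (s ξ / |ξ|)^* Ω)` for closed `Ω` supported in `|ξ| ≤ 1/2` (helper25, skeleton)

PROOFS.
(1) `mr` : `mr ξ = 1` for `|ξ| ≤ 5/8` (`smoothTransition` zero), so smooth there; where `ξ ≠ 0`: `contDiffAt_norm` (see `contDiff_chi_norm` in L5/INTf). `mr_inv` : `8 |ξ| - 5 ≥ 1`. `mr_gt` : `mr ξ * |ξ| = |ξ| + t (1 - |ξ|)`, `t ∈ [0, 1]`; if `|ξ| ≤ 1` this is `≥ |ξ|`; if `|ξ| > 1` then `t = 1` and it is `1`.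
(2) `GM_one` : `(GM.comp (jO _ 1))` is the identity near points with `|ξ| < 5/8`; points with `|ξ| > 1/2` are mapped to points with `|ξ| > 1/2`, where both forms vanish: `Om_ext`, `ev_ext`-type lemma (equality of all values `ev z`), `on_germ` (K7/KT) and the hypothesis on the support.
(3) `GM_zero` : `GM.comp (jO _ 0) = (zero section).comp (pV ..)`: `SMap_ext`.
(4) `Rad_K` : `on_K`, `on_pull`; `(GM X N).pl (P.xV N).up = (P.xV N).cmp γ` with `γ w = append (hd (pr w)) ((w last * mr (tl (pr w))) • tl (pr w))`, `on_cmp`. For every functional `L`: `L (ctr (vv k (tl w)) (ev w (KK (k+N) (pb γ x)))) = ∫ s, L (ctr (vv ..) (kil (ctr lst (ev (snoc w s) (pb γ x)))))` (`INTe_KK` with `L ∘ ctr (vv ..)`), `ctr φ ∘ kil = kil ∘ ctr (φ ∘ ini)` (`ctr_map`),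
    `par` (RAD1) with `φ = (vv k ξ) ∘ ini`, `ψ = vv k ξ` (`ξ = tl w`): both derivatives of `γ` at `(w, s)`, in the direction `(0, ξ, 0)` and in the direction `∂_s`, are vertical multiples of `ξ`: `∂_s: mr ξ • ξ`; `(0, ξ, 0)`: `s * (mr ξ + d mr (ξ) ξ) • ξ` (compute with `fderiv`; `phi_tr`/`phi` in L4/ES: `(phi u) ∘ tr γ q = phi (fderiv γ q u)`, `vv k ξ = phi (append 0 ξ)`, `lst = phi (Pi.single last 1)`).
(5) `RadO_mul` : `(fO ..)`-multiples of radial forms are radial (`Rad_fc`, `on_mul`, the form `fO f` on a plot is `fc` of a function).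
(6) `cut_K` : both sides vanish at points with `|ξ| < 1` or `|ξ| > 2` (`ev_cutX`, `ev_dch`); at the other points (`|ξ| ≥ 1`), near the point `|ξ| > 3/4` and there `GM = polM` : use `inU_cutX` / `ev_ext0` : the value of `cutX Θ` is the value of `dch * Θ` on a local plot of `X.xP N` (`exists_sq`, `ev_local`), and `K_congr`-type locality: `on_germ` for `KO`: `on_K`, `KK_congr`.
(7) `polar` : `K := KO _ ((GM X N).pull Ω)`, `f := 1 - chiX N X`. `d_K`, `pull_d`, `hd`: `dO K = Ω - π^* Ω0` (`GM_one`, `GM_zero`). `f * Ω = Ω` (support). `dO (f * K) = - dch * K + f * dO K` (`d_mul`, `sO f = f`: `Deg_even 0`). `JX (dO (f K)) = ± dO (JX (f K)) = 0` (`JX_d`, `VSO (f K)`: `f = 0` for `|ξ| > 2`; `JX_rad`, (4), (5)).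
    `JX (f * π^* Ω0) = JX f * Ω0 = 0` (`JX_mulr`, `JX_low`, `Deg 0 f`, `N ≥ 1`). So `JX Ω = JX (dch * K) = JX (cutX (KO (polM^* Ω))) = SI ..`.
-/

set_option autoImplicit false

set_option maxSynthPendingDepth 3

open Set Filter Topology MeasureTheory

open scoped ContDiff

noncomputable section

namespace Pool.Agent.Lib.MP_ccbbf6_gt.K7

open L4 L4.FR L5

variable {k l N : ℕ} {X Y : Space}

/-- the radial factor: `1` near the ball of radius `1/2`, `1 / |ξ|` for `|ξ| ≥ 3/4` -/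
def mr {N : ℕ} (ξ : V N) : ℝ := 1 + Real.smoothTransition (8 * ‖toE ξ‖ - 5) * (‖toE ξ‖⁻¹ - 1)

private theorem RAD2a_one {ξ : V N} (h : ‖toE ξ‖ ≤ 5 / 8) : mr ξ = 1 := by
  unfold mr
  rw [Real.smoothTransition.zero_of_nonpos (by linarith), zero_mul, add_zero]

private theorem RAD2a_norm {x : V N} (hx : toE x ≠ 0) : ContDiffAt ℝ ∞ (fun y : V N => ‖toE y‖) x := by
  have h2 : ContDiffAt ℝ ∞ (fun v : EuclideanSpace ℝ (Fin N) => ‖v‖) (toE x) := contDiffAt_norm ℝ hx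
  exact h2.comp x contDiff_toE.contDiffAt

theorem contDiff_mr : ContDiff ℝ ∞ (mr (N := N)) := by
  rw [contDiff_iff_contDiffAt]
  intro x
  by_cases hx : toE x = 0
  · have hE : (mr (N := N)) =ᶠ[𝓝 x] fun _ => 1 := by
      have h1 : ∀ᶠ y in 𝓝 x, ‖toE y‖ < 5 / 8 := by
        have h2 : Continuous fun y : V N => ‖toE y‖ := contDiff_toE.continuous.norm
        exact h2.continuousAt.eventually (gt_mem_nhds (by simp only [hx, norm_zero]; norm_num))
      filter_upwards [h1] with y hy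
      exact RAD2a_one hy.le
    exact contDiffAt_const.congr_of_eventuallyEq hE
  · have h1 := RAD2a_norm hx
    have h3 : ContDiffAt ℝ ∞ (fun y : V N => Real.smoothTransition (8 * ‖toE y‖ - 5)) x :=
      Real.smoothTransition.contDiff.contDiffAt.comp x ((contDiffAt_const.mul h1).sub contDiffAt_const)
    exact contDiffAt_const.add (h3.mul ((h1.inv (norm_ne_zero_iff.2 hx)).sub contDiffAt_const))

theorem mr_one {ξ : V N} (h : ‖toE ξ‖ ≤ 5 / 8) : mr ξ = 1 := RAD2a_one h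

theorem mr_inv {ξ : V N} (h : 3 / 4 ≤ ‖toE ξ‖) : mr ξ = ‖toE ξ‖⁻¹ := by
  unfold mr
  rw [Real.smoothTransition.one_of_one_le (by linarith)]
  ring

theorem mr_gt {ξ : V N} (h : 1 / 2 < ‖toE ξ‖) : 1 / 2 < mr ξ * ‖toE ξ‖ := by
  obtain ⟨r, hr⟩ : ∃ r, r = ‖toE ξ‖ := ⟨_, rfl⟩
  have hm : mr ξ * ‖toE ξ‖ = r + Real.smoothTransition (8 * r - 5) * (1 - r) := by
    unfold mr
    rw [← hr] at h ⊢
    have h0 : r ≠ 0 := by linarith
    field_simp
  rw [hm]
  rw [← hr] at h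
  have h0 := Real.smoothTransition.nonneg (8 * r - 5)
  by_cases h1 : r ≤ 1
  · have h2 : 0 ≤ Real.smoothTransition (8 * r - 5) * (1 - r) := mul_nonneg h0 (by linarith)
    linarith
  · rw [Real.smoothTransition.one_of_one_le (by linarith)]
    linarith

/-- `((x, ξ), s) ↦ (x, s mr(ξ) ξ)` -/
def GM (X : Space) (N : ℕ) : SMap (X.xV N).xR (X.xV N) :=
  ⟨fun z => (z.1.1, (z.2 * mr z.1.2) • z.1.2), fun _ p => ⟨p.2.1.1, (p.2.2.mul (contDiff_mr.comp p.2.1.2)).smul p.2.1.2⟩⟩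

/-- `((x, ξ), s) ↦ (x, s ξ / |ξ|)` -/
def polM (X : Space) (N : ℕ) : SMap (X.xP N).xR (X.xV N) :=
  ⟨fun z => (z.1.1.1, (z.2 * ‖toE z.1.1.2‖⁻¹) • z.1.1.2), fun k p => by
    have h1 : ContDiff ℝ ∞ fun x : V k => (p.1 x).1.1.2 := p.2.1.2
    have h2 : ∀ x : V k, toE (p.1 x).1.1.2 ≠ 0 := fun x h => (p.1 x).1.2 ((WithLp.toLp_eq_zero 2).1 h)
    have h3 : ContDiff ℝ ∞ fun x : V k => ‖toE (p.1 x).1.1.2‖⁻¹ := by
      rw [contDiff_iff_contDiffAt]
      intro x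
      have h4 : ContDiffAt ℝ ∞ (fun x : V k => ‖toE (p.1 x).1.1.2‖) x :=
        ContDiffAt.comp (g := fun y : V N => ‖toE y‖) (f := fun x : V k => (p.1 x).1.1.2) x (RAD2a_norm (h2 x))
          h1.contDiffAt
      exact h4.inv (norm_ne_zero_iff.2 (h2 x))
    exact ⟨p.2.1.1, (p.2.2.mul h3).smul h1⟩⟩

/-- the zero section -/
def zM (X : Space) (N : ℕ) : SMap X (X.xV N) := ⟨fun x => (x, 0), fun _ p => ⟨p.2, contDiff_const⟩⟩

/-- support in `|ξ| ≤ 1/2` -/
def SuppB (Ω : Om (X.xV N)) : Prop := ∀ (k : ℕ) (p : (X.xV N).Plot k) (z : V k), 1 / 2 < ‖toE (p.1 z).2‖ → ev z (Om.on Ω p) = 0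

theorem GM_one {Ω : Om (X.xV N)} (hs : SuppB Ω) : ((GM X N).comp (jO _ 1)).pull Ω = Ω := by
  refine Om_ext fun k p => ev_ext fun z => ?_
  rw [on_pull]
  by_cases h : ‖toE (p.1 z).2‖ < 5 / 8
  · refine on_germ Ω ?_
    have hc : Continuous fun y : V k => ‖toE (p.1 y).2‖ := (contDiff_toE.continuous.comp p.2.2.continuous).norm
    filter_upwards [hc.continuousAt.eventually (gt_mem_nhds h)] with y hy
    refine Prod.ext rfl ?_
    show (1 * mr (p.1 y).2) • (p.1 y).2 = (p.1 y).2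
    rw [mr_one (le_of_lt hy), one_mul, one_smul]
  · have h1 : 1 / 2 < ‖toE (p.1 z).2‖ := by linarith
    rw [hs k p z h1]
    refine hs k _ z ?_
    show 1 / 2 < ‖toE ((1 * mr (p.1 z).2) • (p.1 z).2)‖
    have h2 : toE ((1 * mr (p.1 z).2) • (p.1 z).2) = (1 * mr (p.1 z).2) • toE (p.1 z).2 := rfl
    rw [h2, norm_smul, one_mul]
    refine lt_of_lt_of_le (mr_gt h1) (mul_le_mul_of_nonneg_right ?_ (norm_nonneg _))
    exact Real.le_norm_self _

theorem GM_zero (Ω : Om (X.xV N)) : ((GM X N).comp (jO _ 0)).pull Ω = (pV X N).pull ((zM X N).pull Ω) := by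
  have e : (GM X N).comp (jO _ 0) = (zM X N).comp (pV X N) := SMap_ext fun z => by
    refine Prod.ext rfl ?_
    show (0 * mr z.2) • z.2 = 0
    rw [zero_mul, zero_smul]
  rw [e]
  rfl

/-- the map of plots of `GM` -/
private def RAD2b_g (k N : ℕ) : FR.Sm (k + N + 1) (k + N) :=
  ⟨fun w => Fin.append (hdM k N (pr (k + N) w))
      ((w (Fin.last (k + N)) * mr (tlM k N (pr (k + N) w))) • tlM k N (pr (k + N) w)),
    contDiff_append ((hdM k N).smooth.comp (pr (k + N)).smooth)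
      (((contDiff_apply ℝ ℝ (Fin.last (k + N))).mul (contDiff_mr.comp ((tlM k N).smooth.comp (pr (k + N)).smooth))).smul
        ((tlM k N).smooth.comp (pr (k + N)).smooth))⟩

private theorem RAD2b_pl (P : X.Plot k) : (GM X N).pl (P.xV N).up = (P.xV N).cmp (RAD2b_g k N) :=
  Plot_ext fun w => by
    show (P.1 (hdM k N (pr (k + N) w)),
      (w (Fin.last (k + N)) * mr (tlM k N (pr (k + N) w))) • tlM k N (pr (k + N) w)) =
      (P.1 (hdM k N (RAD2b_g k N w)), tlM k N (RAD2b_g k N w))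
    have h : RAD2b_g k N w = Fin.append (hdM k N (pr (k + N) w))
      ((w (Fin.last (k + N)) * mr (tlM k N (pr (k + N) w))) • tlM k N (pr (k + N) w)) := rfl
    rw [h, hdM_append, tlM_append]

private theorem RAD2b_vv (ξ : V N) : vv k ξ = EUL.phi (Fin.append (0 : V k) ξ) := by
  refine LinearMap.ext fun a => ?_
  rw [EUL.phi_apply, Fin.sum_univ_add]
  unfold vv
  rw [LinearMap.sum_apply]
  simp only [Fin.append_left, Fin.append_right, Pi.zero_apply, zero_mul, Finset.sum_const_zero, zero_add]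
  rfl

private theorem RAD2b_lst (k : ℕ) : lst k = EUL.phi (Pi.single (Fin.last k) (1 : ℝ)) := by
  refine LinearMap.ext fun v => ?_
  rw [EUL.phi_apply, lst_apply, Finset.sum_eq_single (Fin.last k)]
  · rw [Pi.single_eq_same, one_mul]
  · intro j _ hj
    rw [Pi.single_eq_of_ne hj, zero_mul]
  · intro h
    exact absurd (Finset.mem_univ _) h

private theorem RAD2b_ini (u : V k) : (EUL.phi u).comp (ini k) = EUL.phi (Fin.snoc u 0 : V (k + 1)) := by
  refine LinearMap.ext fun v => ?_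
  rw [LinearMap.comp_apply, EUL.phi_apply, EUL.phi_apply, Fin.sum_univ_castSucc]
  simp only [Fin.snoc_castSucc, Fin.snoc_last, zero_mul, add_zero]
  rfl

private theorem RAD2b_fd {m : ℕ} (g : FR.Sm m l) (q u : V m) (c e : V l) (f : ℝ → ℝ) (hf : DifferentiableAt ℝ f 0)
    (h : ∀ t : ℝ, g (q + t • u) = c + f t • e) : fderiv ℝ (g : V m → V l) q u = deriv f 0 • e := by
  have h1 : HasDerivAt (fun t : ℝ => g (q + t • u)) (fderiv ℝ (g : V m → V l) q u) 0 :=
    (g.diff q).hasFDerivAt.hasLineDerivAt u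
  have h2 : HasDerivAt (fun t : ℝ => c + f t • e) (deriv f 0 • e) 0 :=
    (hf.hasDerivAt.smul_const e).const_add c
  have h3 : (fun t : ℝ => g (q + t • u)) = fun t : ℝ => c + f t • e := funext h
  rw [h3] at h1
  exact h1.unique h2

private theorem RAD2b_val (w : V (k + N)) (s : ℝ) : RAD2b_g k N (Fin.snoc w s) =
    Fin.append (hdM k N w) ((s * mr (tlM k N w)) • tlM k N w) := by
  show (Fin.append (hdM k N (pr (k + N) (Fin.snoc w s)))
      (((Fin.snoc w s : V (k + N + 1)) (Fin.last (k + N)) * mr (tlM k N (pr (k + N) (Fin.snoc w s)))) •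
        tlM k N (pr (k + N) (Fin.snoc w s))) : V (k + N)) = _
  rw [pr_snoc, Fin.snoc_last]

private theorem RAD2b_app (z : V k) (r : ℝ) (ξ : V N) :
    (Fin.append z (r • ξ) : V (k + N)) = Fin.append z (0 : V N) + r • Fin.append (0 : V k) ξ := by
  funext i
  refine Fin.addCases (fun i => ?_) (fun i => ?_) i
  · rw [Pi.add_apply, Pi.smul_apply, Fin.append_left, Fin.append_left, Fin.append_left, Pi.zero_apply, smul_zero, add_zero]
  · rw [Pi.add_apply, Pi.smul_apply, Fin.append_right, Fin.append_right, Fin.append_right, Pi.zero_apply, zero_add,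
      Pi.smul_apply]

private theorem RAD2b_d1 (w : V (k + N)) (s : ℝ) : ∃ a : ℝ, (EUL.phi (Fin.snoc (Fin.append (0 : V k) (tlM k N w)) 0 :
    V (k + N + 1))).comp (tr (RAD2b_g k N) (Fin.snoc w s)) = a • vv k (tlM k N w) := by
  obtain ⟨ξ, hξ⟩ : ∃ ξ : V N, ξ = tlM k N w := ⟨_, rfl⟩
  obtain ⟨f, hf⟩ : ∃ f : ℝ → ℝ, f = fun t => s * mr ((1 + t) • ξ) * (1 + t) := ⟨_, rfl⟩
  have hd : DifferentiableAt ℝ f 0 := by
    have h1 : ContDiff ℝ ∞ fun t : ℝ => (1 + t) • ξ := (contDiff_const.add contDiff_id).smul contDiff_const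
    have h2 : ContDiff ℝ ∞ f := by
      rw [hf]
      exact (contDiff_const.mul (contDiff_mr.comp h1)).mul (contDiff_const.add contDiff_id)
    exact (h2.differentiable (by simp)).differentiableAt
  refine ⟨deriv f 0, ?_⟩
  rw [EUL.phi_tr, RAD2b_vv, ← EUL.phi_smul]
  congr 1
  rw [← hξ]
  refine RAD2b_fd (RAD2b_g k N) _ _ (Fin.append (hdM k N w) (0 : V N)) _ f hd fun t => ?_
  have h1 : (Fin.snoc w s : V (k + N + 1)) + t • (Fin.snoc (Fin.append (0 : V k) ξ) 0 : V (k + N + 1)) =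
      Fin.snoc (Fin.append (hdM k N w) ((1 + t) • ξ)) s := by
    funext i
    refine Fin.lastCases ?_ (fun i => ?_) i
    · rw [Pi.add_apply, Pi.smul_apply, Fin.snoc_last, Fin.snoc_last, Fin.snoc_last, smul_zero, add_zero]
    · rw [Pi.add_apply, Pi.smul_apply, Fin.snoc_castSucc, Fin.snoc_castSucc, Fin.snoc_castSucc]
      refine Fin.addCases (fun i => ?_) (fun i => ?_) i
      · rw [Fin.append_left, Fin.append_left, Pi.zero_apply, smul_zero, add_zero]
        rfl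
      · rw [Fin.append_right, Fin.append_right, Pi.smul_apply, smul_eq_mul, smul_eq_mul, hξ]
        have h2 : w (Fin.natAdd k i) = tlM k N w i := rfl
        rw [h2]
        ring
  rw [h1, RAD2b_val, hdM_append, tlM_append, smul_smul, RAD2b_app, hf]

private theorem RAD2b_d2 (w : V (k + N)) (s : ℝ) : ∃ b : ℝ, (lst (k + N)).comp (tr (RAD2b_g k N) (Fin.snoc w s)) =
    b • vv k (tlM k N w) := by
  obtain ⟨ξ, hξ⟩ : ∃ ξ : V N, ξ = tlM k N w := ⟨_, rfl⟩
  obtain ⟨f, hf⟩ : ∃ f : ℝ → ℝ, f = fun t => (s + t) * mr ξ := ⟨_, rfl⟩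
  have hd : DifferentiableAt ℝ f 0 := by
    have h2 : ContDiff ℝ ∞ f := by
      rw [hf]
      exact (contDiff_const.add contDiff_id).mul contDiff_const
    exact (h2.differentiable (by simp)).differentiableAt
  refine ⟨deriv f 0, ?_⟩
  rw [RAD2b_lst, EUL.phi_tr, RAD2b_vv, ← EUL.phi_smul]
  congr 1
  rw [← hξ]
  refine RAD2b_fd (RAD2b_g k N) _ _ (Fin.append (hdM k N w) (0 : V N)) _ f hd fun t => ?_
  have h1 : (Fin.snoc w s : V (k + N + 1)) + t • (Pi.single (Fin.last (k + N)) (1 : ℝ) : V (k + N + 1)) =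
      Fin.snoc w (s + t) := by
    funext i
    refine Fin.lastCases ?_ (fun i => ?_) i
    · rw [Pi.add_apply, Pi.smul_apply, Fin.snoc_last, Fin.snoc_last, Pi.single_eq_same, smul_eq_mul, mul_one]
    · rw [Pi.add_apply, Pi.smul_apply, Fin.snoc_castSucc, Fin.snoc_castSucc,
        Pi.single_eq_of_ne (Fin.castSucc_lt_last i).ne, smul_zero, add_zero]
  rw [h1, RAD2b_val, ← hξ, RAD2b_app, hf]

theorem Rad_K (Ω : Om (X.xV N)) : RadO (KO _ ((GM X N).pull Ω)) := by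
  intro k P w
  rw [on_K, on_pull, RAD2b_pl, on_cmp]
  refine (Module.forall_dual_apply_eq_zero_iff ℝ _).1 fun L => ?_
  obtain ⟨x, hx⟩ : ∃ x, x = Om.on Ω (P.xV N) := ⟨_, rfl⟩
  rw [← hx]
  have h1 := INTe_KK ((L : Ex (k + N) →ₗ[ℝ] ℝ).comp (ctr (vv k (tlM k N w)))) w (pb (RAD2b_g k N) x)
  have h2 : ∀ s : ℝ, ((L : Ex (k + N) →ₗ[ℝ] ℝ).comp (ctr (vv k (tlM k N w)))) (kil (k + N) (ctr (lst (k + N))
      (ev (Fin.snoc w s) (pb (RAD2b_g k N) x)))) = 0 := by
    intro s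
    obtain ⟨a, ha⟩ := RAD2b_d1 (k := k) w s
    obtain ⟨b, hb⟩ := RAD2b_d2 (k := k) w s
    rw [LinearMap.comp_apply, ctr_kil]
    have h3 : (vv k (tlM k N w)).comp (ini (k + N)) =
        EUL.phi (Fin.snoc (Fin.append (0 : V k) (tlM k N w)) 0 : V (k + N + 1)) := by
      rw [RAD2b_vv, RAD2b_ini]
    rw [h3, par (RAD2b_g k N) (Fin.snoc w s) x _ _ a b ha hb, map_zero, map_zero]
  simp only [h2, intervalIntegral.integral_zero] at h1
  exact h1

/-- function times radial form -/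
theorem RadO_mul {f : Om (X.xV N)} (hf : Deg 0 f) {θ : Om (X.xV N)} (h : RadO θ) : RadO (f * θ) := by
  intro k P
  rw [on_mul, ← Dg_fn (hf _ (P.xV N))]
  exact Rad_fc (h k P) _

theorem cut_K (Ω : Om (X.xV N)) : cutX (KO (X.xP N) ((polM X N).pull Ω)) = dch N X * KO _ ((GM X N).pull Ω) := by
  refine Om_ext fun k p => ev_ext fun z => ?_
  rw [on_mul, map_mul]
  by_cases hz : ‖toE (p.1 z).2‖ < 1
  · rw [ev_cutX _ p z (Or.inl hz), ev_dch p z (Or.inl hz), zero_mul]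
  have hc : Continuous fun y : V k => ‖toE (p.1 y).2‖ := (contDiff_toE.continuous.comp p.2.2.continuous).norm
  have h34 : (3 : ℝ) / 4 < ‖toE (p.1 z).2‖ := by linarith [not_lt.1 hz]
  have hne : ∀ ξ : V N, (3 : ℝ) / 4 < ‖toE ξ‖ → ξ ≠ 0 := by
    rintro ξ h rfl
    have h1 : ‖toE (0 : V N)‖ = 0 := by
      show ‖(WithLp.toLp 2 (0 : V N) : EuclideanSpace ℝ (Fin N))‖ = 0
      rw [WithLp.toLp_zero, norm_zero]
    rw [h1] at h
    linarith
  have hmem : {y : V k | (3 : ℝ) / 4 < ‖toE (p.1 y).2‖} ∈ 𝓝 z := (isOpen_lt continuous_const hc).mem_nhds h34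
  obtain ⟨s, hs1, hs2⟩ := exists_sq z hmem
  obtain ⟨P, hP⟩ : ∃ P : (X.xP N).Plot k, ∀ w, (P.1 w).1 = p.1 (s w) :=
    ⟨⟨fun w => ⟨p.1 (s w), hne _ (hs2 w)⟩, (X.xV N).pre p.2 s⟩, fun w => rfl⟩
  have hev : ∀ᶠ y in 𝓝 z, vU (X.xV N) (neZ X N) (P.1 y) = p.1 y := by
    filter_upwards [hs1] with y hy
    show (P.1 y).1 = p.1 y
    rw [hP, hy]
  have hpl : (polM X N).pl P.up = (GM X N).pl (p.cmp s).up := Plot_ext fun w => by
    show (((P.1 (pr k w)).1.1, (w (Fin.last k) * ‖toE (P.1 (pr k w)).1.2‖⁻¹) • (P.1 (pr k w)).1.2) : (X.xV N).pt) =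
      ((p.1 (s (pr k w))).1, (w (Fin.last k) * mr (p.1 (s (pr k w))).2) • (p.1 (s (pr k w))).2)
    rw [hP, mr_inv (le_of_lt (hs2 _))]
  have hKK : Om.on (KO (X.xP N) ((polM X N).pull Ω)) P = Om.on (KO (X.xV N) ((GM X N).pull Ω)) (p.cmp s) := by
    rw [on_K, on_K, on_pull, on_pull, hpl]
  have hL : ev z (Om.on (KO (X.xV N) ((GM X N).pull Ω)) (p.cmp s)) = ev z (Om.on (KO (X.xV N) ((GM X N).pull Ω)) p) :=
    ev_local _ p z hs1
  have hU : p.1 z ∈ neZ X N := hne _ h34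
  unfold cutX
  rw [ev_ext0, vAt_mul (vU_inj _ _), vAt_res (open_neZ X N) (dch N X) p hU, vAt_eq (vU_inj _ _) _ P hev, hKK, hL]

/-- **polar coordinates** -/
theorem polar (hN : 1 ≤ N) {Ω : Om (X.xV N)} (hs : SuppB Ω) (hd : dO _ Ω = 0) :
    SI N X (KO (X.xP N) ((polM X N).pull Ω)) = JX N X Ω := by
  obtain ⟨K, hK⟩ : ∃ K : Om (X.xV N), K = KO _ ((GM X N).pull Ω) := ⟨_, rfl⟩
  obtain ⟨f, hf⟩ : ∃ f : Om (X.xV N), f = 1 - chiX N X := ⟨_, rfl⟩
  have hdK : dO _ K = Ω - (pV X N).pull ((zM X N).pull Ω) := by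
    have h1 := d_K ((GM X N).pull Ω)
    rw [pull_d, hd, map_zero, map_zero, add_zero, ← pull_comp, ← pull_comp, GM_one hs, GM_zero] at h1
    rw [hK, h1]
  have hdf : dO _ f = -dch N X := by
    have h1 : dO (X.xV N) 1 = 0 := Om_ext fun k p => by
      rw [on_d, on_one, dd_one, on_zero]
    rw [hf, map_sub, h1, zero_sub]
    rfl
  have hchi : Deg 0 (chiX N X) := fun k p => Dg_fc _
  have hf0 : Deg 0 f := by
    rw [hf]
    exact Deg_sub Deg_one hchi
  have hsf : sO _ f = f := Deg_even (j := 0) hf0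
  have hevf : ∀ (k : ℕ) (p : (X.xV N).Plot k) (z : V k), ev z (Om.on f p) =
      algebraMap ℝ (Ex k) (1 - chi ‖toE (p.1 z).2‖) := by
    intro k p z
    have h1 : ev z (Om.on (chiX N X) p) = algebraMap ℝ (Ex k) (chi ‖toE (p.1 z).2‖) := ev_fO _ _ p z
    rw [hf, on_sub, on_one, map_sub, map_one, h1, map_sub, map_one]
  have hfΩ : f * Ω = Ω := Om_ext fun k p => ev_ext fun z => by
    rw [on_mul, map_mul, hevf]
    by_cases hz : 1 / 2 < ‖toE (p.1 z).2‖
    · rw [hs k p z hz, mul_zero]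
    · rw [chi_zero (by linarith [not_lt.1 hz]), sub_zero, map_one, one_mul]
  have hVS : VSO (f * K) := by
    intro k P w hw
    obtain ⟨i, hi⟩ := hw
    rw [on_mul, map_mul, hevf]
    have h1 : ‖(toE (tlM k N w)) i‖ ≤ ‖toE (tlM k N w)‖ := PiLp.norm_apply_le (toE (tlM k N w)) i
    have h2 : ‖(toE (tlM k N w)) i‖ = |tlM k N w i| := Real.norm_eq_abs _
    have h3 : chi ‖toE ((P.xV N).1 w).2‖ = 1 := by
      refine chi_one ?_
      show (2 : ℝ) ≤ ‖toE (tlM k N w)‖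
      linarith
    rw [h3, sub_self, map_zero, zero_mul]
  have hrad : JX N X (f * K) = 0 := JX_rad hN (RadO_mul hf0 (by rw [hK]; exact Rad_K Ω))
  have hJd : JX N X (dO _ (f * K)) = 0 := by
    have h1 := JX_d hVS
    rw [hrad, map_zero] at h1
    have h2 : ((-1 : ℝ) ^ N) ≠ 0 := pow_ne_zero _ (by norm_num)
    exact (smul_eq_zero.1 h1.symm).resolve_left h2
  have hJf : JX N X (f * (pV X N).pull ((zM X N).pull Ω)) = 0 := by
    rw [JX_mulr, JX_low hf0 (by omega), zero_mul]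
  rw [d_mul, hdf, hsf, hdK, mul_sub, hfΩ, neg_mul, map_add, map_neg, map_sub, hJf, sub_zero] at hJd
  have h3 : JX N X (dch N X * K) = JX N X Ω := by
    rw [neg_add_eq_zero] at hJd
    exact hJd
  rw [SI_def, cut_K, ← hK, h3]

end Pool.Agent.Lib.MP_ccbbf6_gt.K7
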