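import Pool.Agent.Lib.MP_ccbbf6_gt.L5.NA1

/-!
# `κ = 7`, block G3, part 1: the push-off flow with a rotation generator (helper93)

`Rt E` : a smooth one-parameter group of isometries of the parameter space; the field is
`y' = FA y + FBX (ρ x • r t x) y`.
-/

set_option autoImplicit false
set_option linter.unusedSectionVars false

open Set Filter Topology Metric Real
open scoped ContDiff RealInnerProductSpace

noncomputable section

namespace Pool.Agent.Lib.MP_ccbbf6_gt.K7.RG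

open L4 Geo L4.ORI L5

/-- a smooth one-parameter group of isometries -/
structure Rt (E : Type) [NormedAddCommGroup E] [NormedSpace ℝ E] where
  r : ℝ → E →L[ℝ] E
  smooth : ContDiff ℝ ∞ r
  zero : ∀ x, r 0 x = x
  add : ∀ s t x, r (s + t) x = r s (r t x)
  norm : ∀ t x, ‖r t x‖ = ‖x‖

variable {n : ℕ} {M : Type*} [MetricSpace M] [CompactSpace M] {𝒜 : SDist n M}
variable {E : Type} [NormedAddCommGroup E] [InnerProductSpace ℝ E] (T : Rt E)

theorem Rt.smooth_ap {Z : Type*} [NormedAddCommGroup Z] [NormedSpace ℝ Z] {t : Z → ℝ} {x : Z → E} {z : Z}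
    (ht : ContDiffAt ℝ ∞ t z) (hx : ContDiffAt ℝ ∞ x z) : ContDiffAt ℝ ∞ (fun v => T.r (t v) (x v)) z :=
  (ContDiffAt.comp (g := T.r) (f := t) z T.smooth.contDiffAt ht).clm_apply hx

theorem Rt.map_zero (t : ℝ) : T.r t 0 = 0 := _root_.map_zero _

section

variable [Nonempty (Gs M)] (e : Emb n 𝒜)
variable {k : E → Gs M → Eu n} (R : E → Gs M → Gs M)

/-- the flow in the ambient space -/
structure PFlowR (χ : e.Q → ℝ) (ρ : E → ℝ) (Ξ : ℝ → E → e.Q → e.Q) : Prop where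
  smooth : ContDiff ℝ ∞ (fun z : (ℝ × E) × e.Q => Ξ z.1.1 z.1.2 z.2)
  zero : ∀ x y, Ξ 0 x y = y
  add : ∀ s t x y, Ξ (s + t) x y = Ξ s (T.r t x) (Ξ t x y)
  der : ∀ t x y, HasDerivAt (fun s => Ξ s x y)
    (χ (Ξ t x y) • (e.FA (Ξ t x y) + FBX e R (ρ x • T.r t x) (Ξ t x y))) t
  one : ∀ c, χ (e.EE c) = 1
  bdd : ∃ C, ∀ x y, ‖χ y • (e.FA y + FBX e R (ρ x • x) y)‖ ≤ C
  rsm : ContDiff ℝ ∞ ρ
  rone : ∀ᶠ x in 𝓝 (0 : E), ρ x = 1
  rinv : ∀ t x, ρ (T.r t x) = ρ x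

variable {R}

theorem exists_pflowR [FiniteDimensional ℝ E] (hB : Bl M) (hR : RotX 𝒜 k R) :
    ∃ (χ : e.Q → ℝ) (ρ : E → ℝ) (Ξ : ℝ → E → e.Q → e.Q), PFlowR T e R χ ρ Ξ := by
  obtain ⟨χ, hχ, hχ1, hχc, hχs⟩ := PO.exists_cut (isCompact_range e.continuous_EE) e.isOpen_UU
    (range_subset_iff.mpr e.EE_mem)
  obtain ⟨ρ, hρd⟩ : ∃ ρ : E → ℝ, ρ = fun x => Real.smoothTransition (2 - ‖x‖ ^ 2) := ⟨_, rfl⟩
  have hρ : ContDiff ℝ ∞ ρ := by
    rw [hρd]
    exact Real.smoothTransition.contDiff.comp (contDiff_const.sub (contDiff_norm_sq ℝ))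
  have hρ1 : ∀ x : E, ‖x‖ ≤ 1 → ρ x = 1 := by
    intro x hx
    rw [hρd]
    refine Real.smoothTransition.one_of_one_le ?_
    nlinarith [norm_nonneg x]
  have hρ0 : ∀ x : E, 2 ≤ ‖x‖ → ρ x = 0 := by
    intro x hx
    rw [hρd]
    refine Real.smoothTransition.zero_of_nonpos ?_
    nlinarith [norm_nonneg x]
  have hρi : ∀ t x, ρ (T.r t x) = ρ x := by
    intro t x
    rw [hρd]
    show Real.smoothTransition (2 - ‖T.r t x‖ ^ 2) = _
    rw [T.norm]
  have hρc : HasCompactSupport ρ := by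
    have : ProperSpace E := FiniteDimensional.proper_real E
    refine HasCompactSupport.intro (isCompact_closedBall (0 : E) 2) fun x hx => hρ0 x ?_
    rw [mem_closedBall, dist_zero_right, not_le] at hx
    exact hx.le
  let H0 : e.Q × E → e.Q := fun z => e.FA z.1 + FBX e R z.2 z.1
  let G1 : e.Q × E → e.Q := fun z => FBX e R (ρ z.2 • z.2) z.1
  have hbs : ContDiff ℝ ∞ (fun x : E => ρ x • x) := hρ.smul contDiff_id
  have hχ' : ContDiff ℝ ∞ (fun z : e.Q × E => χ z.1) := hχ.comp contDiff_fst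
  have hts : ∀ z : e.Q × E, z ∈ tsupport (fun z : e.Q × E => χ z.1) → z.1 ∈ tsupport χ := by
    intro z hz
    have h1 : tsupport (fun z : e.Q × E => χ z.1) ⊆ Prod.fst ⁻¹' tsupport χ :=
      closure_minimal (fun w hw => subset_tsupport χ hw) ((isClosed_tsupport χ).preimage continuous_fst)
    exact h1 hz
  have hG1s : ∀ z : e.Q × E, z.1 ∈ e.UU → ContDiffAt ℝ ∞ G1 z := by
    rintro ⟨y, x⟩ hy
    refine ContDiffAt.comp (g := fun z : e.Q × E => FBX e R z.2 z.1) (f := fun z : e.Q × E => (z.1, ρ z.2 • z.2)) (y, x)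
      (smooth_FBX e hB hR hy _) ?_
    exact contDiffAt_fst.prodMk (ContDiffAt.comp (g := fun x : E => ρ x • x) (f := fun z : e.Q × E => z.2) (y, x)
      hbs.contDiffAt contDiffAt_snd)
  have hH0s : ∀ z : e.Q × E, z.1 ∈ e.UU → ContDiffAt ℝ ∞ H0 z := by
    rintro ⟨y, x⟩ hy
    refine ContDiffAt.add ?_ (smooth_FBX e hB hR hy x)
    exact ContDiffAt.comp (g := e.FA) (f := fun z : e.Q × E => z.1) (y, x) (e.smooth_FA hB hy) contDiffAt_fst
  have hF : ContDiff ℝ ∞ (fun z : e.Q × E => χ z.1 • H0 z) := PO.contDiff_cut hχ' fun z hz => hH0s z (hχs (hts z hz))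
  obtain ⟨CA, hCA⟩ := PO.bounded_cut hχ hχc fun y hy => e.smooth_FA hB (hχs hy)
  -- bound of the rotation part
  obtain ⟨CB, hCB⟩ : ∃ C, ∀ z : e.Q × E, ‖χ z.1 • G1 z‖ ≤ C := by
    have h1 : ContDiff ℝ ∞ (fun z : e.Q × E => χ z.1 • G1 z) := PO.contDiff_cut hχ' fun z hz => hG1s z (hχs (hts z hz))
    have h2 : HasCompactSupport (fun z : e.Q × E => χ z.1 • G1 z) := by
      refine HasCompactSupport.intro (K := tsupport χ ×ˢ tsupport ρ) (hχc.prod hρc) ?_
      rintro ⟨y, x⟩ hz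
      rw [mem_prod, not_and_or] at hz
      rcases hz with hz | hz
      · simp only [image_eq_zero_of_notMem_tsupport hz, zero_smul]
      · simp only [G1, image_eq_zero_of_notMem_tsupport hz, zero_smul]
        have h3 : FBX e R (0 : E) y = 0 := by
          obtain ⟨L, hL⟩ := FBX_lin e hR y
          rw [hL, _root_.map_zero]
        rw [h3, smul_zero]
    exact h2.exists_bound_of_continuous h1.continuous
  have hbd : ∀ x y, ‖χ y • (e.FA y + FBX e R (ρ x • x) y)‖ ≤ CA + CB := by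
    intro x y
    rw [smul_add]
    exact (norm_add_le _ _).trans (add_le_add (hCA y) (hCB (y, x)))
  let G : (ℝ × E) × e.Q → (ℝ × E) × e.Q := fun z => ((1, 0), χ z.2 • H0 (z.2, ρ z.1.2 • T.r z.1.1 z.1.2))
  have hTs : ContDiff ℝ ∞ (fun z : (ℝ × E) × e.Q => ρ z.1.2 • T.r z.1.1 z.1.2) := by
    have h1 : ContDiff ℝ ∞ (fun z : (ℝ × E) × e.Q => T.r z.1.1) := T.smooth.comp (contDiff_fst.comp contDiff_fst)
    have h2 : ContDiff ℝ ∞ (fun z : (ℝ × E) × e.Q => z.1.2) := contDiff_snd.comp contDiff_fst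
    exact (hρ.comp h2).smul (h1.clm_apply h2)
  have hG : ContDiff ℝ ∞ G := contDiff_const.prodMk (hF.comp (contDiff_snd.prodMk hTs))
  have hGe : ∀ s x y, G ((s, x), y) = ((1, 0), χ y • (e.FA y + FBX e R (ρ x • T.r s x) y)) := fun s x y => rfl
  have hGb : ∀ z, ‖G z‖ ≤ max 1 (CA + CB) := by
    rintro ⟨⟨s, x⟩, y⟩
    rw [hGe, Prod.norm_mk, Prod.norm_mk, norm_zero, norm_one, max_eq_left (zero_le_one' ℝ)]
    refine max_le_max le_rfl ?_
    have h1 := hbd (T.r s x) y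
    rwa [hρi] at h1
  have : CompleteSpace E := FiniteDimensional.complete ℝ E
  obtain ⟨Φ, hΦ, hΦ0, hΦd, hΦa⟩ := Pool.Agent.BL.Flow.exists_flow_of_bounded (n := (⊤ : ℕ∞)) (by simp) hG hGb
  have hfst : ∀ t z, (Φ t z).1 = (z.1.1 + t, z.1.2) := by
    intro t z
    have h1 : ∀ t, HasDerivAt (fun s => (Φ s z).1 - (s, (0 : E))) (((1 : ℝ), (0 : E)) - (1, 0)) t := by
      intro t
      have a1 : HasDerivAt (fun s => (Φ s z).1) ((1 : ℝ), (0 : E)) t := (hΦd t z).fst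
      have a2 : HasDerivAt (fun s : ℝ => (s, (0 : E))) ((1 : ℝ), (0 : E)) t :=
        (hasDerivAt_id t).prodMk (hasDerivAt_const t (0 : E))
      exact a1.sub a2
    have h2 := is_const_of_deriv_eq_zero (f := fun s => (Φ s z).1 - (s, (0 : E))) (fun t => (h1 t).differentiableAt)
      (fun t => by rw [(h1 t).deriv, sub_self]) t 0
    simp only [hΦ0] at h2
    rw [sub_eq_iff_eq_add] at h2
    rw [h2]
    refine Prod.ext ?_ ?_
    · show z.1.1 - 0 + t = z.1.1 + t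
      rw [sub_zero]
    · show z.1.2 - 0 + 0 = z.1.2
      rw [sub_zero, add_zero]
  have heq : ∀ t s x y, Φ t ((s, x), y) = ((s + t, x), (Φ t ((s, x), y)).2) := fun t s x y =>
    Prod.ext (hfst t ((s, x), y)) rfl
  have hsym : ∀ s t x y, (Φ s ((t, x), y)).2 = (Φ s ((0, T.r t x), y)).2 := by
    intro s t x y
    have h2 := PPF.sol_unique_univ (hG.of_le (by exact_mod_cast le_top)) (t₀ := 0) (c := fun s => Φ s ((t, x), y))
      (c' := fun s => ((t + s, x), (Φ s ((0, T.r t x), y)).2)) (fun s => hΦd s _) (fun s => ?_) ?_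
    · have h6 := congrArg Prod.snd (congrFun h2 s)
      exact h6
    · have h3 := (hΦd s ((0, T.r t x), y)).snd
      rw [heq s 0 (T.r t x) y, hGe] at h3
      rw [hGe]
      have h4 : T.r (0 + s) (T.r t x) = T.r (t + s) x := by rw [zero_add, add_comm t s, T.add]
      rw [hρi, h4] at h3
      have h5 : HasDerivAt (fun s : ℝ => (t + s, x)) ((1 : ℝ), (0 : E)) s :=
        ((hasDerivAt_id s).const_add t).prodMk (hasDerivAt_const s x)
      exact h5.prodMk h3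
    · show Φ 0 ((t, x), y) = ((t + 0, x), (Φ 0 ((0, T.r t x), y)).2)
      rw [hΦ0, hΦ0, add_zero]
  refine ⟨χ, ρ, fun t x y => (Φ t ((0, x), y)).2, ⟨?_, ?_, ?_, ?_, ?_, ⟨_, hbd⟩, hρ, ?_, hρi⟩⟩
  · have h1 : ContDiff ℝ ∞ (fun z : (ℝ × E) × e.Q => (z.1.1, (((0 : ℝ), z.1.2), z.2))) := by fun_prop
    exact (hΦ.comp h1).snd
  · intro x y
    simp only [hΦ0]
  · intro s t x y
    show (Φ (s + t) ((0, x), y)).2 = (Φ s ((0, T.r t x), (Φ t ((0, x), y)).2)).2
    rw [hΦa, heq t 0 x y, zero_add, hsym]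
  · intro t x y
    have h1 := (hΦd t ((0, x), y)).snd
    rw [heq t 0 x y, hGe, zero_add] at h1
    exact h1
  · intro c
    exact hχ1 _ ⟨c, rfl⟩
  · filter_upwards [closedBall_mem_nhds (0 : E) one_pos] with x hx
    rw [mem_closedBall, dist_zero_right] at hx
    exact hρ1 x hx

variable {T e} {χ : e.Q → ℝ} {ρ : E → ℝ} {Ξ : ℝ → E → e.Q → e.Q}

/-- a solution starting on the image stays there for a while -/
theorem PFlowR.inv_loc (hB : Bl M) (hR : RotX 𝒜 k R) (h : PFlowR T e R χ ρ Ξ) (x : E) (c : Gs M) :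
    ∃ ε > 0, ∀ t ∈ Icc (0 : ℝ) ε, Ξ t x (e.EE c) = e.PP (Ξ t x (e.EE c)) := by
  set y0 := e.EE c with hy0
  have hy0U : y0 ∈ e.UU := e.EE_mem c
  have hP := e.smooth_PP hB hy0U
  have hP1 : ContDiffAt ℝ 1 (fderiv ℝ e.PP) y0 := (hP.fderiv_right (m := ∞) (by simp)).of_le (by simp)
  obtain ⟨K, N, hN, hLip⟩ := hP1.exists_lipschitzOnWith
  obtain ⟨C, hC⟩ := h.bdd
  have hPP0 : e.PP y0 = y0 := e.PP_EE hB c
  have hPN : ∀ᶠ y in 𝓝 y0, e.PP y ∈ N := by
    have : e.PP y0 = y0 := hPP0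
    exact hP.continuousAt.eventually (by rw [this]; exact hN)
  have hyc : ∀ t, ContinuousAt (fun s => Ξ s x y0) t := fun t => (h.der t x y0).continuousAt
  have hev : ∀ᶠ t in 𝓝 (0 : ℝ), Ξ t x y0 ∈ e.UU ∧ Ξ t x y0 ∈ N ∧ e.PP (Ξ t x y0) ∈ N := by
    have h0 : Ξ 0 x y0 = y0 := h.zero x y0
    have h1 : Tendsto (fun s => Ξ s x y0) (𝓝 0) (𝓝 y0) := by
      have := (hyc 0).tendsto
      rwa [h0] at this
    filter_upwards [h1.eventually (e.isOpen_UU.mem_nhds hy0U), h1.eventually hN, h1.eventually hPN] with t a b c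
    exact ⟨a, b, c⟩
  obtain ⟨ε, hε, hball⟩ := Metric.eventually_nhds_iff.mp hev
  have hI : ∀ t ∈ Icc (0 : ℝ) (ε / 2), Ξ t x y0 ∈ e.UU ∧ Ξ t x y0 ∈ N ∧ e.PP (Ξ t x y0) ∈ N := by
    intro t ht
    refine hball ?_
    rw [Real.dist_eq, sub_zero, abs_of_nonneg ht.1]
    linarith [ht.2]
  refine ⟨ε / 2, by positivity, ?_⟩
  let f : ℝ → e.Q := fun t => Ξ t x y0 - e.PP (Ξ t x y0)
  let F : ℝ → e.Q → e.Q := fun t y => χ y • (e.FA y + FBX e R (ρ x • T.r t x) y)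
  have hd : ∀ t ∈ Icc (0 : ℝ) (ε / 2), HasDerivAt f (F t (Ξ t x y0) - fderiv ℝ e.PP (Ξ t x y0) (F t (Ξ t x y0))) t := by
    intro t ht
    have h1 : HasFDerivAt e.PP (fderiv ℝ e.PP (Ξ t x y0)) (Ξ t x y0) :=
      ((e.smooth_PP hB (hI t ht).1).differentiableAt (by simp)).hasFDerivAt
    exact (h.der t x y0).sub (HasFDerivAt.comp_hasDerivAt (l := e.PP) (f := fun s => Ξ s x y0) t h1 (h.der t x y0))
  have hz := eq_zero_of_abs_deriv_le_mul_abs_self_of_eq_zero_right (f := f)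
    (f' := fun t => F t (Ξ t x y0) - fderiv ℝ e.PP (Ξ t x y0) (F t (Ξ t x y0))) (K := K * C) (a := 0) (b := ε / 2)
    (fun t ht => (hd t ht).continuousAt.continuousWithinAt)
    (fun t ht => (hd t ⟨ht.1, ht.2.le⟩).hasDerivWithinAt)
    (by simp only [f, h.zero, hPP0, sub_self]) ?_
  · intro t ht
    have := hz t ht
    simp only [f] at this
    exact sub_eq_zero.mp this
  · intro t ht
    obtain ⟨h1, h2, h3⟩ := hI t ⟨ht.1, ht.2.le⟩
    set y := Ξ t x y0 with hy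
    have e1 : F t y = fderiv ℝ e.PP (e.PP y) (F t y) := by
      have h4 := D_PPX e hB hR (e.RR y) (ρ x • T.r t x)
      have h5 : e.EE (e.RR y) = e.PP y := rfl
      rw [h5, e.FA_PP hB, FBX_PP e hB] at h4
      simp only [F]
      rw [map_smul, h4]
    have e2 : F t y - fderiv ℝ e.PP y (F t y) = (fderiv ℝ e.PP (e.PP y) - fderiv ℝ e.PP y) (F t y) := by
      rw [sub_apply, ← e1]
    have e3 : ‖fderiv ℝ e.PP (e.PP y) - fderiv ℝ e.PP y‖ ≤ K * ‖y - e.PP y‖ := by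
      have h6 := hLip.dist_le_mul (e.PP y) h3 y h2
      rwa [dist_eq_norm, dist_eq_norm, norm_sub_rev (e.PP y) y] at h6
    have hCy : ‖F t y‖ ≤ C := by
      have h6 := hC (T.r t x) y
      rwa [h.rinv] at h6
    rw [e2]
    calc ‖(fderiv ℝ e.PP (e.PP y) - fderiv ℝ e.PP y) (F t y)‖
          ≤ ‖fderiv ℝ e.PP (e.PP y) - fderiv ℝ e.PP y‖ * ‖F t y‖ := ContinuousLinearMap.le_opNorm _ _
      _ ≤ (K * ‖y - e.PP y‖) * C := mul_le_mul e3 hCy (norm_nonneg _) (by positivity)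
      _ = K * C * ‖f t‖ := by simp only [f]; rw [← hy]; ring

/-- the image of `Gs M` is invariant -/
theorem PFlowR.inv (hB : Bl M) (hR : RotX 𝒜 k R) (h : PFlowR T e R χ ρ Ξ) (x : E) (c : Gs M) {S : ℝ} (hS : 0 ≤ S) :
    Ξ S x (e.EE c) ∈ range e.EE := by
  have hcl : IsClosed (range e.EE) := (isCompact_range e.continuous_EE).isClosed
  have hcont : Continuous (fun t => Ξ t x (e.EE c)) :=
    continuous_iff_continuousAt.2 fun t => (h.der t x (e.EE c)).continuousAt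
  have key := IsClosed.Icc_subset_of_forall_exists_gt (a := 0) (b := S) (s := {t | Ξ t x (e.EE c) ∈ range e.EE})
    ((hcl.preimage hcont).inter isClosed_Icc) (by show Ξ 0 x (e.EE c) ∈ range e.EE; rw [h.zero]; exact ⟨c, rfl⟩) ?_
  · exact key ⟨hS, le_refl S⟩
  · rintro t ⟨⟨c', hc'⟩, -⟩ y hy
    obtain ⟨ε, hε, hin⟩ := h.inv_loc hB hR (T.r t x) c'
    have hxy : t < y := hy
    refine ⟨t + min ε (y - t), ?_, ?_⟩
    · have h1 : 0 ≤ min ε (y - t) := le_min hε.le (by linarith)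
      have h2 := hin (min ε (y - t)) ⟨h1, min_le_left _ _⟩
      show Ξ (t + min ε (y - t)) x (e.EE c) ∈ range e.EE
      rw [add_comm, h.add, ← hc', h2]
      exact ⟨_, rfl⟩
    · have h1 : 0 < min ε (y - t) := lt_min hε (by linarith)
      exact ⟨by linarith, by linarith [min_le_right ε (y - t)]⟩

end

end Pool.Agent.Lib.MP_ccbbf6_gt.K7.RG
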