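import Pool.Agent.Lib.MP_ccbbf6_gt.K7.RG1
import Pool.Agent.Lib.MP_ccbbf6_gt.L5.NA2

/-!
# `κ = 7`, block G3, part 2: transport formula, speed formula with a rotation generator (helper93)
-/

set_option autoImplicit false
set_option linter.unusedSectionVars false

open Set Filter Topology Metric Real
open scoped ContDiff RealInnerProductSpace

noncomputable section

namespace Pool.Agent.Lib.MP_ccbbf6_gt.K7.RG

open L4 Geo L4.ORI L5

variable {n : ℕ} {M : Type*} [MetricSpace M] [CompactSpace M] {𝒜 : SDist n M} [Nonempty (Gs M)]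
variable {E : Type} [NormedAddCommGroup E] [InnerProductSpace ℝ E] {T : Rt E}

variable {e : Emb n 𝒜} {Ξ : ℝ → E → e.Q → e.Q} {χ : e.Q → ℝ} {ρ : E → ℝ} {k : E → Gs M → Eu n} {R : E → Gs M → Gs M}
variable (hB : Bl M) (hR : RotX 𝒜 k R) (h : PFlowR T e R χ ρ Ξ)

include hB hR h

theorem EE_ThR {t : ℝ} (ht : 0 ≤ t) (x : E) (c : Gs M) : e.EE (ThX e Ξ t x c) = Ξ t x (e.EE c) := by
  obtain ⟨c', hc'⟩ := h.inv hB hR x c ht
  unfold ThX
  rw [← hc', e.RR_EE hB]

theorem XiR_mem {t : ℝ} (ht : 0 ≤ t) (x : E) (c : Gs M) : Ξ t x (e.EE c) ∈ e.UU := by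
  rw [← EE_ThR hB hR h ht]
  exact e.EE_mem _

theorem ThR_add {s t : ℝ} (ht : 0 ≤ t) (x : E) (c : Gs M) :
    ThX e Ξ (s + t) x c = ThX e Ξ s (T.r t x) (ThX e Ξ t x c) := by
  have h1 := EE_ThR hB hR h ht x c
  unfold ThX at h1 ⊢
  rw [h1, h.add]

omit hR in
theorem ThR_time_zero (x : E) (c : Gs M) : ThX e Ξ 0 x c = c := by
  unfold ThX
  rw [h.zero, e.RR_EE hB]

theorem smooth_ThR {E' : Type*} [NormedAddCommGroup E'] [NormedSpace ℝ E'] {σ : E' → Gs M} {u : E'} (hσ : SmGAt 𝒜 σ u)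
    {t : E' → ℝ} {x : E' → E} (ht : ContDiffAt ℝ ∞ t u) (hx : ContDiffAt ℝ ∞ x u) (h0 : 0 ≤ t u) :
    SmGAt 𝒜 (fun v => ThX e Ξ (t v) (x v) (σ v)) u := by
  have h1 : ContDiffAt ℝ ∞ (fun v => Ξ (t v) (x v) (e.EE (σ v))) u :=
    ContDiffAt.comp (g := fun z : (ℝ × E) × e.Q => Ξ z.1.1 z.1.2 z.2) (f := fun v => ((t v, x v), e.EE (σ v))) u
      h.smooth.contDiffAt ((ht.prodMk hx).prodMk (e.smooth_EE hσ))
  exact SmGAt.comp (σ := e.RR) (f := fun v => Ξ (t v) (x v) (e.EE (σ v))) (v := u)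
    (e.smG_RR hB (XiR_mem hB hR h h0 (x u) (σ u))) h1

/-- the curve `Ξ s x (EE c)` at `s = 0` -/
theorem flow_curveR (x : E) (c : Gs M) :
    HasDerivAt (fun s => Ξ s x (e.EE c)) (e.FA (e.EE c) + FBX e R (ρ x • x) (e.EE c)) 0 := by
  have h1 := h.der 0 x (e.EE c)
  rw [h.zero, h.one, one_smul, T.zero] at h1
  exact h1

/-- **transport formula** -/
theorem transportR {F : Type*} [NormedAddCommGroup F] [NormedSpace ℝ F] {f : M → F} {x : E} {a b : ℝ} {c : Gs M}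
    (hb : 0 ≤ b) (hf : SmFA 𝒜 f ((ThX e Ξ b x c).1 (a - b))) :
    HasDerivAt (fun b' => f ((ThX e Ξ b' x c).1 (a - b')))
      (deriv (fun τ : ℝ => f ((R (τ • (ρ x • T.r b x)) (ThX e Ξ b x c)).1 (a - b))) 0) b := by
  set x' : E := T.r b x with hx'
  set w : E := ρ x • x' with hw
  have hw' : ρ x' • x' = w := by rw [hw, hx', h.rinv]
  set cb := ThX e Ξ b x c with hcb
  let W : ℝ × e.Q → F := fun z => f ((e.RR z.2).1 (a - (b + z.1)))
  have hW : ContDiffAt ℝ ∞ W (0, e.EE cb) := by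
    have h1 : SmGAt 𝒜 (fun w : ℝ × e.Q => e.RR w.2) (0, e.EE cb) :=
      SmGAt.comp (σ := e.RR) (f := fun w : ℝ × e.Q => w.2) (v := (0, e.EE cb)) (e.smG_RR hB (e.EE_mem cb)) contDiffAt_snd
    have h2 := h1.ev hB (t := fun w : ℝ × e.Q => a - (b + w.1)) (contDiffAt_const.sub (contDiffAt_const.add contDiffAt_fst))
    refine SmFA.comp_to (𝒜 := 𝒜) (g := f) (r := fun w : ℝ × e.Q => (e.RR w.2).1 (a - (b + w.1))) ?_ h2
    simp only [e.RR_EE hB, add_zero]
    exact hf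
  have hWd : HasFDerivAt W (fderiv ℝ W (0, e.EE cb)) (0, e.EE cb) := (hW.differentiableAt (by simp)).hasFDerivAt
  -- first curve
  have c1 : HasDerivAt (fun s : ℝ => (s, Ξ s x' (e.EE cb))) ((1 : ℝ), e.FA (e.EE cb) + FBX e R w (e.EE cb)) 0 := by
    have h1 := flow_curveR hB hR h x' cb
    rw [hw'] at h1
    exact (hasDerivAt_id 0).prodMk h1
  have d1 : HasDerivAt (fun s => W (s, Ξ s x' (e.EE cb)))
      (fderiv ℝ W (0, e.EE cb) (1, e.FA (e.EE cb) + FBX e R w (e.EE cb))) 0 := by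
    refine HasFDerivAt.comp_hasDerivAt (l := W) (f := fun s : ℝ => (s, Ξ s x' (e.EE cb))) 0 ?_ c1
    rw [h.zero]
    exact hWd
  -- second curve
  have c2 : HasDerivAt (fun s : ℝ => (s, e.EE (shift s (R (s • w) cb))))
      ((1 : ℝ), e.FA (e.EE cb) + FBX e R w (e.EE cb)) 0 :=
    (hasDerivAt_id 0).prodMk (curveX e hB hR cb w)
  have d2 : HasDerivAt (fun s : ℝ => W (s, e.EE (shift s (R (s • w) cb))))
      (fderiv ℝ W (0, e.EE cb) (1, e.FA (e.EE cb) + FBX e R w (e.EE cb))) 0 := by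
    refine HasFDerivAt.comp_hasDerivAt (l := W) (f := fun s : ℝ => (s, e.EE (shift s (R (s • w) cb)))) 0 ?_ c2
    rw [zero_smul, hR.zero, shift_zero]
    exact hWd
  have e2 : (fun s : ℝ => W (s, e.EE (shift s (R (s • w) cb)))) = fun s : ℝ => f ((R (s • w) cb).1 (a - b)) := by
    funext s
    simp only [W, e.RR_EE hB]
    show f ((R (s • w) cb).1 (a - (b + s) + s)) = _
    rw [show a - (b + s) + s = a - b by ring]
  rw [e2] at d2
  have hg : DifferentiableAt ℝ (fun τ : ℝ => f ((R (τ • w) cb).1 (a - b))) 0 := by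
    have h1 := (smooth_line0 hR cb w 0).ev hB (t := fun _ => a - b) contDiffAt_const
    have h2 : ContDiffAt ℝ ∞ (fun τ : ℝ => f ((R (τ • w) cb).1 (a - b))) 0 := by
      refine SmFA.comp_to (𝒜 := 𝒜) (g := f) (r := fun τ : ℝ => (R (τ • w) cb).1 (a - b)) ?_ h1
      simp only [zero_smul, hR.zero]
      exact hf
    exact h2.differentiableAt (by simp)
  rw [d2.unique hg.hasDerivAt] at d1
  have e1 : (fun s => W (s, Ξ s x' (e.EE cb))) = fun s => f ((ThX e Ξ (s + b) x c).1 (a - (s + b))) := by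
    funext s
    simp only [W]
    rw [ThR_add hB hR h hb, ← hcb, ← hx', add_comm s b]
    rfl
  rw [e1] at d1
  have d4 : HasDerivAt (fun s => f ((ThX e Ξ (s + b) x c).1 (a - (s + b))))
      (deriv (fun τ : ℝ => f ((R (τ • w) cb).1 (a - b))) 0) (b - b) := by rw [sub_self]; exact d1
  have d5 := d4.comp_sub_const b b
  simpa using d5

/-- for `x = 0` the flow is the geodesic flow -/
theorem ThR_zero {b : ℝ} (hb : 0 ≤ b) (c : Gs M) : ThX e Ξ b 0 c = shift b c := by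
  have key : ∀ a : ℝ, (ThX e Ξ b 0 c).1 (a - b) = c.1 a := by
    intro a
    have h1 : ∀ b' : ℝ, 0 ≤ b' → HasDerivAt (fun b' => e.i ((ThX e Ξ b' 0 c).1 (a - b'))) 0 b' := by
      intro b' hb'
      have h2 := transportR hB hR h (f := e.i) (x := 0) (a := a) (b := b') (c := c) hb' (e.smooth_i _)
      simp only [T.map_zero, smul_zero, hR.zero, deriv_const] at h2
      exact h2
    have h3 := constant_of_has_deriv_right_zero (f := fun b' => e.i ((ThX e Ξ b' 0 c).1 (a - b'))) (a := 0) (b := b)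
      (fun x hx => (h1 x hx.1).continuousAt.continuousWithinAt) (fun x hx => (h1 x hx.1).hasDerivWithinAt) b ⟨hb, le_refl b⟩
    simp only [ThR_time_zero hB h, sub_zero] at h3
    have h4 := congrArg e.r h3
    rwa [e.left, e.left] at h4
  apply Subtype.ext
  funext t
  have h5 := key (t + b)
  rw [add_sub_cancel_right] at h5
  exact h5

theorem CR_zero (c : Gs M) : CX e Ξ 0 c = c.1 0 := by
  unfold CX
  rw [ThR_zero hB hR h Real.pi_pos.le]
  show c.1 (-π + π) = c.1 0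
  rw [neg_add_cancel]

theorem PsiR_param_zero (c : Gs M) : PsiX e Ξ 0 c = c := by
  unfold PsiX
  rw [ThR_zero hB hR h Real.pi_pos.le, ← shift_add, neg_add_cancel, shift_zero]

theorem smooth_CR {E' : Type*} [NormedAddCommGroup E'] [NormedSpace ℝ E'] {σ : E' → Gs M} {u : E'} (hσ : SmGAt 𝒜 σ u)
    {x : E' → E} (hx : ContDiffAt ℝ ∞ x u) : SmAt 𝒜 (fun v => CX e Ξ (x v) (σ v)) u :=
  (smooth_ThR hB hR h hσ (t := fun _ => π) contDiffAt_const hx Real.pi_pos.le).ev hB (t := fun _ => -π) contDiffAt_const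

theorem smooth_PsiR {E' : Type*} [NormedAddCommGroup E'] [NormedSpace ℝ E'] {σ : E' → Gs M} {u : E'} (hσ : SmGAt 𝒜 σ u)
    {x : E' → E} (hx : ContDiffAt ℝ ∞ x u) : SmGAt 𝒜 (fun v => PsiX e Ξ (x v) (σ v)) u :=
  (smooth_ThR hB hR h hσ (t := fun _ => π) contDiffAt_const hx Real.pi_pos.le).shift hB (r := fun _ => -π)
    contDiffAt_const

/-- **speed formula** -/
theorem speed_formulaR (x : E) (c : Gs M) :
    deriv (fun s => 𝒜.ψ (CX e Ξ x c) (CX e Ξ (T.r s x) (shift s c))) 0 =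
      𝒜.vel (PsiX e Ξ x c).1 0 - deriv (fun τ : ℝ => 𝒜.ψ (CX e Ξ x c) (CX e Ξ x (R (τ • (ρ x • x)) c))) 0 := by
  set w : E := ρ x • x with hw
  set y := CX e Ξ x c with hx
  set c' := ThX e Ξ π x c with hc'
  set x' : E := T.r π x with hx'
  set w' : E := ρ x' • x' with hw'
  have hπ := Real.pi_pos.le
  have hz : Ξ π x (e.EE c) = e.EE c' := (EE_ThR hB hR h hπ x c).symm
  have hxc : c'.1 (-π) = y := rfl
  let H : e.Q → Eu n := fun z => 𝒜.ψ y ((e.RR z).1 (-π))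
  have hH : ContDiffAt ℝ ∞ H (e.EE c') := by
    have h1 := (e.smG_RR hB (e.EE_mem c')).ev hB (t := fun _ => -π) contDiffAt_const
    have h2 := h1.2
    simp only [e.RR_EE hB, hxc] at h2
    exact h2
  let K : ℝ × e.Q → Eu n := fun z => H (Ξ π (T.r z.1 x) z.2)
  have hK : ContDiffAt ℝ ∞ K (0, e.EE c) := by
    have h0 : ContDiffAt ℝ ∞ (fun z : ℝ × e.Q => T.r z.1 x) (0, e.EE c) := T.smooth_ap contDiffAt_fst contDiffAt_const
    have h1 : ContDiffAt ℝ ∞ (fun z : ℝ × e.Q => Ξ π (T.r z.1 x) z.2) (0, e.EE c) :=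
      ContDiffAt.comp (g := fun z : (ℝ × E) × e.Q => Ξ z.1.1 z.1.2 z.2) (f := fun z : ℝ × e.Q => ((π, T.r z.1 x), z.2))
        (0, e.EE c) h.smooth.contDiffAt ((contDiffAt_const.prodMk h0).prodMk contDiffAt_snd)
    refine ContDiffAt.comp (g := H) (f := fun z : ℝ × e.Q => Ξ π (T.r z.1 x) z.2) (0, e.EE c) ?_ h1
    show ContDiffAt ℝ ∞ H (Ξ π (T.r 0 x) (e.EE c))
    rw [T.zero, hz]
    exact hH
  have hKd := hK.differentiableAt (by simp : (∞ : WithTop ℕ∞) ≠ 0)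
  have hHd := hH.differentiableAt (by simp : (∞ : WithTop ℕ∞) ≠ 0)
  -- (b) invariance of the field under the flow
  have hb : fderiv ℝ K (0, e.EE c) (1, e.FA (e.EE c) + FBX e R w (e.EE c)) =
      fderiv ℝ H (e.EE c') (e.FA (e.EE c') + FBX e R w' (e.EE c')) := by
    have h1 : HasDerivAt (fun s => K (s, Ξ s x (e.EE c)))
        (fderiv ℝ K (0, e.EE c) (1, e.FA (e.EE c) + FBX e R w (e.EE c))) 0 := by
      refine HasFDerivAt.comp_hasDerivAt (l := K) (f := fun s => (s, Ξ s x (e.EE c))) 0 ?_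
        ((hasDerivAt_id 0).prodMk (flow_curveR hB hR h x c))
      rw [h.zero]
      exact hKd.hasFDerivAt
    have h2 : HasDerivAt (fun s => H (Ξ s x' (e.EE c'))) (fderiv ℝ H (e.EE c') (e.FA (e.EE c') + FBX e R w' (e.EE c'))) 0 := by
      refine HasFDerivAt.comp_hasDerivAt (l := H) (f := fun s => Ξ s x' (e.EE c')) 0 ?_ (flow_curveR hB hR h x' c')
      rw [h.zero]
      exact hHd.hasFDerivAt
    have h3 : (fun s => K (s, Ξ s x (e.EE c))) = fun s => H (Ξ s x' (e.EE c')) := by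
      funext s
      simp only [K]
      rw [← h.add, add_comm, h.add, hz]
    rw [h3] at h1
    exact h1.unique h2
  -- (a) the curve through `c`
  have ha : HasDerivAt (fun s : ℝ => 𝒜.ψ y (CX e Ξ (T.r s x) (shift s (R (s • w) c))))
      (fderiv ℝ K (0, e.EE c) (1, e.FA (e.EE c) + FBX e R w (e.EE c))) 0 := by
    refine HasFDerivAt.comp_hasDerivAt (l := K) (f := fun s : ℝ => (s, e.EE (shift s (R (s • w) c)))) 0 ?_
      ((hasDerivAt_id 0).prodMk (curveX e hB hR c w))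
    rw [zero_smul, hR.zero, shift_zero]
    exact hKd.hasFDerivAt
  -- (c) the curve through `c'`
  have hc : HasDerivAt (fun s : ℝ => 𝒜.ψ y ((R (s • w') c').1 (s - π)))
      (fderiv ℝ H (e.EE c') (e.FA (e.EE c') + FBX e R w' (e.EE c'))) 0 := by
    have h1 := dirX e hB hR c' w' hHd
    have h2 : (fun s : ℝ => H (e.EE (shift s (R (s • w') c')))) = fun s : ℝ => 𝒜.ψ y ((R (s • w') c').1 (s - π)) := by
      funext s
      simp only [H, e.RR_EE hB]
      show 𝒜.ψ y ((R (s • w') c').1 (-π + s)) = _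
      rw [show -π + s = s - π by ring]
    rwa [h2] at h1
  -- the derivative is the velocity
  have hv : HasDerivAt (fun s : ℝ => 𝒜.ψ y ((R (s • w') c').1 (s - π))) (𝒜.vel (PsiX e Ξ x c).1 0) 0 := by
    have h1 : SmAt 𝒜 (fun z : ℝ × ℝ => (R (z.2 • w') c').1 (z.1 - π)) (0, 0) :=
      (hR.smooth (ℝ × ℝ) (fun _ => c') (fun z => z.2 • w') (0, 0) (smGAt_const c' _)
        (contDiffAt_snd.smul contDiffAt_const)).ev hB (t := fun z : ℝ × ℝ => z.1 - π) (contDiffAt_fst.sub contDiffAt_const)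
    have h2 : ContDiffAt ℝ ∞ (fun z : ℝ × ℝ => 𝒜.ψ y ((R (z.2 • w') c').1 (z.1 - π))) (0, 0) := by
      have h3 := h1.2
      simp only [zero_smul, hR.zero, zero_sub, hxc] at h3
      exact h3
    have h9 := PO.two_var (g := fun z : ℝ × ℝ => 𝒜.ψ y ((R (z.2 • w') c').1 (z.1 - π)))
      (A := 𝒜.vel (PsiX e Ξ x c).1 0) (B := 0) (h2.differentiableAt (by simp)) ?_ ?_ 1
    · simpa only [one_mul, smul_zero, add_zero] using h9
    · simp only [zero_smul, hR.zero]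
      have h4 := (IsGeo.exists_vel 𝒜 c'.2 (-π)).2
      have h5 : 𝒜.vel (PsiX e Ξ x c).1 0 = 𝒜.vel c'.1 (-π) := by
        have h6 := vel_shift 𝒜 (c := c'.1) (-π) 0
        rw [zero_add] at h6
        exact h6
      rw [h5]
      have h7 : HasDerivAt (fun t => 𝒜.ψ (c'.1 (-π)) (c'.1 t)) (𝒜.vel c'.1 (-π)) (0 - π) := by
        rw [zero_sub]; exact h4
      exact h7.comp_sub_const 0 π
    · have h4 : ∀ t : ℝ, (R (t • w') c').1 (0 - π) = y := by
        intro t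
        have h5 := (R (t • w') c').2.closed 𝒜 hB (-π)
        have h6 := c'.2.closed 𝒜 hB (-π)
        rw [show -π + 2 * π = π by ring] at h5 h6
        rw [zero_sub, ← h5, hR.top, h6, hxc]
      simp only [h4]
      exact hasDerivAt_const _ _
  -- (d) two variables through `c`
  have hd : HasDerivAt (fun s : ℝ => 𝒜.ψ y (CX e Ξ (T.r s x) (shift s (R (s • w) c))))
      (deriv (fun s => 𝒜.ψ y (CX e Ξ (T.r s x) (shift s c))) 0 + deriv (fun τ : ℝ => 𝒜.ψ y (CX e Ξ x (R (τ • w) c))) 0) 0 := by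
    have h1 : SmAt 𝒜 (fun z : ℝ × ℝ => CX e Ξ (T.r z.1 x) (shift z.1 (R (z.2 • w) c))) (0, 0) :=
      smooth_CR hB hR h ((hR.smooth (ℝ × ℝ) (fun _ => c) (fun z => z.2 • w) (0, 0) (smGAt_const c _)
        (contDiffAt_snd.smul contDiffAt_const)).shift hB contDiffAt_fst) (x := fun z : ℝ × ℝ => T.r z.1 x)
        (T.smooth_ap contDiffAt_fst contDiffAt_const)
    have h2 : ContDiffAt ℝ ∞ (fun z : ℝ × ℝ => 𝒜.ψ y (CX e Ξ (T.r z.1 x) (shift z.1 (R (z.2 • w) c)))) (0, 0) := by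
      have h3 := h1.2
      simp only [zero_smul, hR.zero, shift_zero, T.zero, ← hx] at h3
      exact h3
    have h4 : DifferentiableAt ℝ (fun z : ℝ × ℝ => 𝒜.ψ y (CX e Ξ (T.r z.1 x) (shift z.1 (R (z.2 • w) c)))) (0, 0) :=
      h2.differentiableAt (by simp)
    have h9 := PO.two_var (g := fun z : ℝ × ℝ => 𝒜.ψ y (CX e Ξ (T.r z.1 x) (shift z.1 (R (z.2 • w) c))))
      (A := deriv (fun s => 𝒜.ψ y (CX e Ξ (T.r s x) (shift s c))) 0)
      (B := deriv (fun τ : ℝ => 𝒜.ψ y (CX e Ξ x (R (τ • w) c))) 0) h4 ?_ ?_ 1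
    · simpa only [one_mul, one_smul] using h9
    · simp only [zero_smul, hR.zero]
      have h5 : DifferentiableAt ℝ (fun s : ℝ => 𝒜.ψ y (CX e Ξ (T.r s x) (shift s c))) 0 := by
        have h6 : HasDerivAt (fun s : ℝ => (s, (0 : ℝ))) ((1 : ℝ), (0 : ℝ)) 0 := (hasDerivAt_id 0).prodMk (hasDerivAt_const 0 0)
        have h7 := HasFDerivAt.comp_hasDerivAt (l := fun z : ℝ × ℝ => 𝒜.ψ y (CX e Ξ (T.r z.1 x) (shift z.1 (R (z.2 • w) c))))
          (f := fun s : ℝ => (s, (0 : ℝ))) 0 h4.hasFDerivAt h6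
        simp only [Function.comp_def, zero_smul, hR.zero] at h7
        exact h7.differentiableAt
      exact h5.hasDerivAt
    · simp only [shift_zero, T.zero]
      have h5 : DifferentiableAt ℝ (fun s : ℝ => 𝒜.ψ y (CX e Ξ x (R (s • w) c))) 0 := by
        have h6 : HasDerivAt (fun s : ℝ => ((0 : ℝ), s)) ((0 : ℝ), (1 : ℝ)) 0 := (hasDerivAt_const 0 0).prodMk (hasDerivAt_id 0)
        have h7 := HasFDerivAt.comp_hasDerivAt (l := fun z : ℝ × ℝ => 𝒜.ψ y (CX e Ξ (T.r z.1 x) (shift z.1 (R (z.2 • w) c))))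
          (f := fun s : ℝ => ((0 : ℝ), s)) 0 h4.hasFDerivAt h6
        simp only [Function.comp_def, shift_zero, T.zero] at h7
        exact h7.differentiableAt
      exact h5.hasDerivAt
  have h1 := ha.unique hd
  have h2 := hc.unique hv
  rw [hb, h2] at h1
  rw [h1, add_sub_cancel_right]

end Pool.Agent.Lib.MP_ccbbf6_gt.K7.RG
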