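import Pool.Agent.Lib.MP_ccbbf6_gt.L5.DG2

/-!
# `κ = 7`, block B, file RT: metric facts on `rat 𝒜 x y t` (the point at ratio `t` on the minimal geodesic) (helper25, skeleton)

PROOFS. `hB.diam : dist ≤ π`. All for `M` compact, `hB : Bl M`.
(1) `rat_Ex` : for `x ≠ y`: `rat x y t = gv x v (t d)` with `d = dist x y`, `v = dirOf x y` (unit): `t • lg x y = rad (t d) v` (`rad_unit`), `kc_Ex`. Then
    `dist_rat_rat` = `kc_dist` with `|s d - t d| ≤ π`. If `x = y` use `rat_self`.
(2) `dist_rat_right` : (1) with `t = 1` (`rat_one`), symmetric.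
(3) `rat_geo` : `0 < |b - a| < π`: reverse / shift so that `c a` is the foot: `c (a + s) = Ex (c a) (rad s v)` with `v` = velocity (`gs_Ex` for `shift a c`), `lg (c a) (c b)` = `(b - a) • v` (`lg_Ex`, `‖(b-a) • v‖ = |b-a| < π`).
    For `a = b`: `rat_self`.
(4) `rat_unique` : `x = y`: trivial; `t = 0`, `t = 1`: trivial; else let `z' = rat x y t`. The geodesic `gd x z` extended ends at `y`: IsGeo from `x` through `z` (`gd_spec`): `e := gd x z`, `dist x z + dist z y = dist x y`. Take the geodesic `e'` from `z` to `y`; the concatenation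
    argument is in `Geo` (`IsSeg.concat`, `GE3`, `local_unique`, `IsGeo.unique`); simplest: `lu_step`/`IsGeo.unique`. ALTERNATIVE: there is a lemma on minimal segments: `exists_geoOn` ... ; search `dist x z + dist z y = dist x y` in `Geo/GE3.lean`, `Geo/LU.lean`, `MetricGeod.lean` (a point between
    `x` and `y` lies on a minimal segment `IsSeg c 0 d` through it; two minimal segments from `x` to `y`, `d < π`, coincide by `IsGeo.unique` after extending to geodesics `IsGeo`).
(5) `rat_symm` : `rat_unique`.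
(6) `tendsto_rat`: take charts `p = x'`, `q = y'`; `(a, b, t) ↦ rat ((ψ p).symm a) ((ψ q).symm b) t` is `SmAt` at `(0, 0, t')` (`smAt_rat`, `smAt_symm`), hence continuous there; compose with `i ↦ (ψ p (x i), ψ q (y i), t i)` (continuous as `x i → p`), eventually equal.
(7) `straight` : let `e` be the geodesic `gd p q` (`0 < dist p q < π`), by (4) `y = e (dist p y)` (ratio `dist p y / dist p q`). The geodesic `c1` = `gd x y` passes through `p` at time `dist x p` (4) and through `y`; `shift` it so that it agrees with `e` at the two points `p`, `y`: `IsGeo.unique`, so `e (dist p y - a) = x`. Same for `z`.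
    Take `c = shift (dist p y) e`.
(8) `lg_geo` : `lg (c 0) (c a) = a • vel c 0` for `|a| < π`: `gs_Ex`, `lg_Ex`, `rad_unit` (`vel_norm`).
(9) `exists_gs` : `0 < dist x y`: `gd_spec`. `gs_unique` : `IsGeo.unique`.
-/

set_option autoImplicit false

open Set Filter Topology Metric Real Module

open scoped ContDiff RealInnerProductSpace

noncomputable section

namespace Pool.Agent.Lib.MP_ccbbf6_gt.K7

open Geo L4 L4.ORI L5

variable {n : ℕ} {M : Type*} [MetricSpace M] [CompactSpace M] {𝒜 : SDist n M}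

theorem dist_rat_rat (hB : Bl M) (x y : M) {s t : ℝ} (hs : 0 ≤ s) (hs1 : s ≤ 1) (ht : 0 ≤ t) (ht1 : t ≤ 1) :
    dist (rat 𝒜 x y s) (rat 𝒜 x y t) = |s - t| * dist x y := by
  by_cases hxy : y = x
  · rw [hxy, rat_self hB, rat_self hB, dist_self, mul_zero]
  · obtain ⟨hv, -⟩ := dirOf_spec (𝒜 := 𝒜) hB hxy
    have h1 : ∀ r : ℝ, r • lg 𝒜 x y = rad (r * dist x y) (SDist.dirOf 𝒜 x y) := by
      intro r
      rw [rad_unit _ hv]
      unfold lg
      rw [smul_smul]
    unfold rat
    rw [h1, h1]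
    have h2 : s * dist x y - t * dist x y = (s - t) * dist x y := by ring
    have h3 : |s * dist x y - t * dist x y| = |s - t| * dist x y := by
      rw [h2, abs_mul, abs_of_nonneg (dist_nonneg : 0 ≤ dist x y)]
    rw [kc_dist 𝒜 hB x (kc_ne hv) (by
      rw [h3]
      have h4 : |s - t| ≤ 1 := by
        rw [abs_le]
        constructor <;> linarith
      calc |s - t| * dist x y ≤ 1 * dist x y := mul_le_mul_of_nonneg_right h4 dist_nonneg
        _ = dist x y := one_mul _
        _ ≤ π := hB.diam x y), h3]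

theorem dist_rat_right (hB : Bl M) (x y : M) {t : ℝ} (h0 : 0 ≤ t) (h1 : t ≤ 1) :
    dist (rat 𝒜 x y t) y = (1 - t) * dist x y := by
  have h := dist_rat_rat (𝒜 := 𝒜) hB x y h0 h1 zero_le_one le_rfl
  rw [rat_one hB, abs_sub_comm, abs_of_nonneg (by linarith)] at h
  exact h

theorem rat_geo (hB : Bl M) (c : Gs M) {a b : ℝ} (h : |b - a| < π) (t : ℝ) :
    rat 𝒜 (c.1 a) (c.1 b) t = c.1 (a + t * (b - a)) := by
  have h0 : (shift a c).1 0 = c.1 a := by
    show c.1 (0 + a) = c.1 a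
    rw [zero_add]
  have hv := vel_norm 𝒜 (shift a c)
  have h1 : ∀ s : ℝ, c.1 (s + a) = 𝒜.Ex (c.1 a) (s • 𝒜.vel (shift a c).1 0) := by
    intro s
    have h2 := gs_Ex 𝒜 hB (shift a c) s
    rw [h0, rad_unit s hv] at h2
    exact h2
  have h3 : c.1 b = 𝒜.Ex (c.1 a) ((b - a) • 𝒜.vel (shift a c).1 0) := by
    rw [← h1, sub_add_cancel]
  have h4 : lg 𝒜 (c.1 a) (c.1 b) = (b - a) • 𝒜.vel (shift a c).1 0 := by
    rw [h3, lg_Ex hB]
    rw [norm_smul, hv, mul_one, Real.norm_eq_abs]
    exact h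
  unfold rat
  rw [h4, smul_smul, ← h1, add_comm]

theorem lg_geo (hB : Bl M) (c : Gs M) {a : ℝ} (h : |a| < π) : lg 𝒜 (c.1 0) (c.1 a) = a • 𝒜.vel c.1 0 := by
  have hv := vel_norm 𝒜 c
  rw [gs_Ex 𝒜 hB c a, rad_unit a hv, lg_Ex hB]
  rw [norm_smul, hv, mul_one, Real.norm_eq_abs]
  exact h

/-- a geodesic through `a` and `b` passes through every point `w` such that `b` is between `a` and `w` -/
private theorem rTb_ext (𝒜 : SDist n M) (hB : Bl M) {c : ℝ → M} (hc : IsGeo c) {a b w : M} (h0 : c 0 = a)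
    (h1 : c (dist a b) = b) (hab : a ≠ b) (hw : dist a b + dist b w = dist a w) : c (dist a w) = w := by
  by_cases hbw : b = w
  · rw [← hbw]
    exact h1
  have dab : 0 < dist a b := dist_pos.2 hab
  have dbw : 0 < dist b w := dist_pos.2 hbw
  have daw : dist a w ≤ π := hB.diam a w
  obtain ⟨f1, f2, f3⟩ := gd_spec 𝒜 hB hbw
  obtain ⟨ρ, hρ, H⟩ := local_unique 𝒜
  have hs : ∀ s : ℝ, 0 ≤ s → s ≤ dist b w → s < ρ → c (dist a b + s) = gd b w s := by
    intro s hs0 hs1 hsρ
    have e1 : dist b (gd b w s) = s := by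
      have h := f1 0 s (by rw [zero_sub, abs_neg, abs_of_nonneg hs0]; linarith)
      rw [f2, zero_sub, abs_neg, abs_of_nonneg hs0] at h
      exact h
    have e2 : dist (gd b w s) w = dist b w - s := by
      have h := f1 s (dist b w) (by rw [abs_of_nonpos (by linarith)]; linarith)
      rw [f3, abs_of_nonpos (by linarith)] at h
      linarith
    have e3 : dist a b + dist b (gd b w s) = dist a (gd b w s) := by
      have t1 := dist_triangle a b (gd b w s)
      have t2 := dist_triangle a (gd b w s) w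
      linarith
    have e4 : dist b (c (dist a b + s)) = s := by
      have h := hc (dist a b) (dist a b + s) (by rw [abs_of_nonpos (by linarith)]; linarith)
      rw [h1, abs_of_nonpos (by linarith)] at h
      linarith
    have e5 : dist a (c (dist a b + s)) = dist a b + s := by
      have h := hc 0 (dist a b + s) (by rw [abs_of_nonpos (by linarith)]; linarith)
      rw [h0, abs_of_nonpos (by linarith)] at h
      linarith
    exact H a b _ _ hab (by rw [e4, e5]) e3 (by rw [e4, e1]) (by rw [e4]; exact hsρ)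
  obtain ⟨s, hs0, hs1, hs2⟩ : ∃ s : ℝ, 0 < s ∧ s ≤ dist b w ∧ s < ρ :=
    ⟨min (dist b w) (ρ / 2), lt_min dbw (by linarith), min_le_left _ _, (min_le_right _ _).trans_lt (by linarith)⟩
  have hu : (fun t => c (t + dist a b)) = gd b w := by
    refine IsGeo.unique 𝒜 (hc.shift (dist a b)) f1 (a := 0) (b := s) hs0.ne ?_ ?_ ?_
    · rw [zero_sub, abs_neg, abs_of_pos hs0]
      linarith
    · show c (0 + dist a b) = gd b w 0
      rw [zero_add, h1, f2]
    · show c (s + dist a b) = gd b w s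
      rw [add_comm]
      exact hs s hs0.le hs1 hs2
  have h2 := congrFun hu (dist b w)
  have h3 : c (dist b w + dist a b) = gd b w (dist b w) := h2
  rw [f3, add_comm, hw] at h3
  exact h3

/-- minimal geodesics of length less than `π` are unique -/
theorem rat_unique (hB : Bl M) {x y z : M} {t : ℝ} (h0 : 0 ≤ t) (h1 : t ≤ 1) (hd : dist x y < π)
    (hx : dist x z = t * dist x y) (hy : dist z y = (1 - t) * dist x y) : z = rat 𝒜 x y t := by
  by_cases hxz : x = z
  · by_cases hxy : x = y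
    · rw [← hxz, ← hxy, rat_self hB]
    · rw [← hxz, dist_self] at hx
      have ht : t = 0 := by
        rcases mul_eq_zero.1 hx.symm with h | h
        · exact h
        · exact absurd (dist_eq_zero.1 h) hxy
      rw [ht, rat_zero hB, hxz]
  · have hsum : dist x z + dist z y = dist x y := by rw [hx, hy]; ring
    obtain ⟨f1, f2, f3⟩ := gd_spec 𝒜 hB hxz
    have h2 : gd x z (dist x y) = y := rTb_ext 𝒜 hB f1 f2 f3 hxz hsum
    have h3 := rat_geo (𝒜 := 𝒜) hB ⟨gd x z, f1⟩ (a := 0) (b := dist x y)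
      (by rw [sub_zero, abs_of_nonneg dist_nonneg]; exact hd) t
    have h4 : rat 𝒜 (gd x z 0) (gd x z (dist x y)) t = gd x z (0 + t * (dist x y - 0)) := h3
    rw [f2, h2, sub_zero, zero_add, ← hx, f3] at h4
    exact h4.symm

theorem rat_symm (hB : Bl M) {x y : M} (hd : dist x y < π) {t : ℝ} (h0 : 0 ≤ t) (h1 : t ≤ 1) :
    rat 𝒜 x y t = rat 𝒜 y x (1 - t) := by
  refine (rat_unique hB h0 h1 hd ?_ ?_).symm
  · rw [dist_comm, dist_rat_right hB y x (by linarith) (by linarith), dist_comm y x]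
    ring
  · rw [dist_comm, dist_rat hB y x (by linarith) (by linarith), dist_comm y x]

theorem tendsto_rat (𝒜 : SDist n M) (hB : Bl M) {ι : Type*} {l : Filter ι} {x y : ι → M} {t : ι → ℝ} {x' y' : M} {t' : ℝ}
    (hx : Tendsto x l (𝓝 x')) (hy : Tendsto y l (𝓝 y')) (ht : Tendsto t l (𝓝 t')) (hd : dist x' y' < π) :
    Tendsto (fun i => rat 𝒜 (x i) (y i) (t i)) l (𝓝 (rat 𝒜 x' y' t')) := by
  have hz : ∀ p : M, (0 : Eu n) ∈ (𝒜.ψ p).target := fun p => by
    rw [← 𝒜.zero p]
    exact (𝒜.ψ p).map_source (𝒜.mem p)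
  have hX : SmAt 𝒜 (fun w : (Eu n × Eu n) × ℝ => (𝒜.ψ x').symm w.1.1) ((0, 0), t') :=
    smAt_symm (contDiff_fst.comp contDiff_fst).contDiffAt (hz x')
  have hY : SmAt 𝒜 (fun w : (Eu n × Eu n) × ℝ => (𝒜.ψ y').symm w.1.2) ((0, 0), t') :=
    smAt_symm (contDiff_snd.comp contDiff_fst).contDiffAt (hz y')
  have hT : ContDiffAt ℝ ∞ (fun w : (Eu n × Eu n) × ℝ => w.2) ((0, 0), t') := contDiff_snd.contDiffAt
  have hR := (smAt_rat hB hX hY hT (by
    show dist ((𝒜.ψ x').symm 0) ((𝒜.ψ y').symm 0) < π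
    rw [symm_zero', symm_zero']
    exact hd)).cont
  have hxψ : Tendsto (fun i => 𝒜.ψ x' (x i)) l (𝓝 0) := by
    rw [← 𝒜.zero x']
    exact ((𝒜.ψ x').continuousAt (𝒜.mem x')).tendsto.comp hx
  have hyψ : Tendsto (fun i => 𝒜.ψ y' (y i)) l (𝓝 0) := by
    rw [← 𝒜.zero y']
    exact ((𝒜.ψ y').continuousAt (𝒜.mem y')).tendsto.comp hy
  have hc : Tendsto (fun i => ((𝒜.ψ x' (x i), 𝒜.ψ y' (y i)), t i)) l (𝓝 (((0 : Eu n), (0 : Eu n)), t')) :=
    (hxψ.prodMk_nhds hyψ).prodMk_nhds ht
  have h1 := hR.tendsto.comp hc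
  have h2 : rat 𝒜 ((𝒜.ψ x').symm (0 : Eu n)) ((𝒜.ψ y').symm (0 : Eu n)) t' = rat 𝒜 x' y' t' := by
    rw [symm_zero', symm_zero']
  rw [← h2]
  refine h1.congr' ?_
  filter_upwards [hx.eventually ((𝒜.ψ x').open_source.mem_nhds (𝒜.mem _)),
    hy.eventually ((𝒜.ψ y').open_source.mem_nhds (𝒜.mem _))] with i hi hi'
  show rat 𝒜 ((𝒜.ψ x').symm (𝒜.ψ x' (x i))) ((𝒜.ψ y').symm (𝒜.ψ y' (y i))) (t i) = _
  rw [(𝒜.ψ x').left_inv hi, (𝒜.ψ y').left_inv hi']

omit [CompactSpace M] in
theorem gs_dist' (c : Gs M) {s t : ℝ} (h : |s - t| ≤ π) : dist (c.1 s) (c.1 t) = |s - t| := c.2 s t h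

theorem exists_gs (𝒜 : SDist n M) (hB : Bl M) {x y : M} (h : x ≠ y) : ∃ c : Gs M, c.1 0 = x ∧ c.1 (dist x y) = y :=
  ⟨⟨_, (gd_spec 𝒜 hB h).1⟩, (gd_spec 𝒜 hB h).2⟩

/-- **no corner at `y`** if the short cut from `p` (between `x` and `y`) to `q` (between `y` and `z`) is not shorter -/
theorem straight (𝒜 : SDist n M) (hB : Bl M) {x y z p q : M} (h1 : dist x p + dist p y = dist x y) (h2 : dist y q + dist q z = dist y z)
    (hx : dist x y < π) (hz : dist y z < π) (hp : p ≠ y) (hq : q ≠ y) (h : dist p q = dist p y + dist y q)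
    (hpq : dist p q < π) : ∃ c : Gs M, c.1 0 = y ∧ c.1 (-dist x y) = x ∧ c.1 (dist y z) = z := by
  obtain ⟨f1, f2, f3⟩ := gd_spec 𝒜 hB hp
  have g1 : gd p y (dist p q) = q := rTb_ext 𝒜 hB f1 f2 f3 hp h.symm
  have hc : IsGeo (fun t => gd p y (t + dist p y)) := f1.shift _
  refine ⟨⟨fun t => gd p y (t + dist p y), hc⟩, ?_, ?_, ?_⟩
  · show gd p y (0 + dist p y) = y
    rw [zero_add, f3]
  · have h3 := rTb_ext 𝒜 hB hc.rev (a := y) (b := p) (w := x) (by
      show gd p y (-0 + dist p y) = y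
      rw [neg_zero, zero_add, f3]) (by
      show gd p y (-dist y p + dist p y) = p
      rw [dist_comm y p, neg_add_cancel, f2]) hp.symm (by
      rw [dist_comm y p, dist_comm p x, dist_comm y x]
      linarith)
    rw [dist_comm y x] at h3
    exact h3
  · refine rTb_ext 𝒜 hB hc (a := y) (b := q) (w := z) ?_ ?_ hq.symm h2
    · show gd p y (0 + dist p y) = y
      rw [zero_add, f3]
    · show gd p y (dist y q + dist p y) = q
      rw [add_comm, ← h, g1]

/-- geodesics have period `2 π` -/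
theorem gs_period (𝒜 : SDist n M) (hB : Bl M) (c : Gs M) (t : ℝ) : c.1 (t + 2 * π) = c.1 t := IsGeo.closed 𝒜 hB c.2 t

/-- the distance of two points of a geodesic -/
theorem gs_dist_long (𝒜 : SDist n M) (hB : Bl M) (c : Gs M) {s : ℝ} (h0 : π ≤ s) (h1 : s ≤ 2 * π) :
    dist (c.1 0) (c.1 s) = 2 * π - s := by
  have h := gs_period 𝒜 hB c 0
  rw [zero_add] at h
  rw [← h, c.2 (2 * π) s (by rw [abs_le]; constructor <;> linarith), abs_of_nonneg (by linarith)]

end Pool.Agent.Lib.MP_ccbbf6_gt.K7
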