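import Pool.Agent.Lib.MP_ccbbf6_gt.K7.HR

/-!
# `κ = 7`, block B5: closed forms on sphere bundles, all degrees (helper25)

`SSx` : as `SBun.SS` (INTk) without restriction of the degree: `b.KS` gives `d (SI (KO (pol^*Ψ · KS ζ)))`; the extra term `q^* a · SI (KO (KS ζ))` is `d (q1^* ant^* Ψ · SI (KO (KS ζ)))`.
-/

set_option autoImplicit false
set_option maxSynthPendingDepth 3

open Set Filter Topology MeasureTheory Real
open scoped ContDiff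

noncomputable section

namespace Pool.Agent.Lib.MP_ccbbf6_gt.L5

open L4 L4.FR K7

variable {k l N : ℕ} {X S B : Space}

namespace SBun

variable (b : SBun N S B)

/-- the primitive on the space of frames -/
def HSx (Ψ ζ : Om S) : Om b.F := (-1 : ℝ) ^ (N + 1) • b.HS Ψ ζ + b.q1.pull (b.ant.pull Ψ) * b.HS 1 ζ

theorem d_HS1 {ζ : Om S} (hc : dO S ζ = 0) : dO b.F (b.HS 1 ζ) = 0 := by
  unfold HS
  have h := d_K (b.KS ζ)
  rw [b.KS_j0, b.KS_j1, sub_zero, b.KS_d hc, map_sub, K_p, sub_zero] at h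
  rw [map_one, one_mul, SI_d, add_eq_right.1 h, map_zero, smul_zero]

theorem SS_Fx (hN : 1 ≤ N) {Ψ ζ : Om S} {a : Om B} (hΨ : Deg N Ψ) (h1 : b.PI Ψ = 1) (hd : dO S Ψ = b.pi.pull a)
    (hc : dO S ζ = 0) :
    b.q1.pull ζ = b.q.pull (b.PI (Ψ * ζ)) + (-1 : ℝ) ^ (N + 1) • (b.q1.pull (b.ant.pull Ψ) * b.q.pull (b.PI ζ)) +
      dO b.F (b.HSx Ψ ζ) := by
  have hK : ∀ θ : Om S, SI N b.F (KO _ (b.pol.pull θ)) = (-1 : ℝ) ^ N • b.q.pull (b.PI θ) := by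
    intro θ
    have h : b.pol.pull θ = (polM b.F N).pull (b.ptm.pull θ) := rfl
    rw [h, SI_pol hN, b.q_PI]
  have hsq : ∀ M : ℕ, (-1 : ℝ) ^ M * (-1 : ℝ) ^ M = 1 := fun M => by
    rw [← mul_pow, neg_one_mul, neg_neg, one_pow]
  have hiter : ∀ M : ℕ, ∀ x : Om b.F, sO b.F x = (-1 : ℝ) ^ N • x →
      (sO b.F)^[M] x = ((-1 : ℝ) ^ N) ^ M • x := by
    intro M x hx
    induction M with
    | zero => rw [Function.iterate_zero_apply, pow_zero, one_smul]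
    | succ M ih => rw [Function.iterate_succ_apply', ih, map_smul, hx, smul_smul, ← pow_succ]
  have hc1 : (sO b.F)^[N + 1] (b.q1.pull (b.ant.pull Ψ)) = b.q1.pull (b.ant.pull Ψ) := by
    have h2 : sO b.F (b.q1.pull (b.ant.pull Ψ)) = (-1 : ℝ) ^ N • b.q1.pull (b.ant.pull Ψ) :=
      Deg_s (Deg_pull _ (Deg_pull _ hΨ))
    rw [hiter _ _ h2, ← pow_mul, (Nat.even_mul_succ_self N).neg_one_pow, one_smul]
  have hqa : dO b.F (b.q1.pull (b.ant.pull Ψ)) = b.q.pull a := by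
    have e : (b.pi.comp b.ant).comp b.q1 = b.q := SMap_ext fun f => by
      show b.pi.1 (b.ant.1 (b.ptm.1 _)) = _
      rw [b.pi_ant, b.pi_pt]
      rfl
    rw [pull_d, pull_d, hd, ← pull_comp, ← pull_comp, ← e]
    rfl
  have hsa : (sO b.F)^[N + 1] (sO _ (b.q.pull a)) = b.q.pull a := by
    have h2 : sO b.F (b.q.pull a) = (-1 : ℝ) ^ (N + 1) • b.q.pull a := by
      rw [← hqa]
      exact Deg_s (Deg_d (Deg_pull _ (Deg_pull _ hΨ)))
    have h3 : ∀ M : ℕ, (sO b.F)^[M] (b.q.pull a) = ((-1 : ℝ) ^ (N + 1)) ^ M • b.q.pull a := by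
      intro M
      induction M with
      | zero => rw [Function.iterate_zero_apply, pow_zero, one_smul]
      | succ M ih => rw [Function.iterate_succ_apply', ih, map_smul, h2, smul_smul, ← pow_succ]
    rw [← Function.iterate_succ_apply (sO b.F) (N + 1), h3, ← pow_mul, (Nat.even_mul_succ_self (N + 1)).neg_one_pow,
      one_smul]
  have hS1 : SI N b.F (KO _ (b.KS ζ)) = b.HS 1 ζ := by
    unfold HS
    rw [map_one, one_mul]
  -- the boundary terms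
  have hj0 : (jO (b.F.xP N) 0).pull (b.pol.pull Ψ * b.KS ζ) = 0 := by
    rw [map_mul, b.KS_j0, mul_zero]
  have hj1 : (jO (b.F.xP N) 1).pull (b.pol.pull Ψ * b.KS ζ) =
      (pP b.F N).pull (b.q1.pull (b.ant.pull Ψ)) * KO _ (b.pol.pull ζ) := by
    rw [map_mul, b.KS_j1, ← pull_comp, b.pol_j1]
    rfl
  -- the differential
  have hpa : b.pol.pull (b.pi.pull a) = (pO _).pull ((pP b.F N).pull (b.q.pull a)) := by
    rw [← pull_comp, b.pi_pol]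
    rfl
  have hdT : dO _ (b.pol.pull Ψ * b.KS ζ) =
      (pO _).pull ((pP b.F N).pull (b.q.pull a)) * b.KS ζ +
        (-1 : ℝ) ^ N • (b.pol.pull (Ψ * ζ) -
          b.pol.pull Ψ * (pO _).pull ((pP b.F N).pull (b.q1.pull ζ))) := by
    rw [d_mul, pull_d, hd, hpa, b.KS_d hc, Deg_s (Deg_pull b.pol hΨ), smul_mul_assoc, mul_sub,
      map_mul]
  have hKd : KO _ (dO _ (b.pol.pull Ψ * b.KS ζ)) =
      (pP b.F N).pull (sO _ (b.q.pull a)) * KO _ (b.KS ζ) +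
        (-1 : ℝ) ^ N • (KO _ (b.pol.pull (Ψ * ζ)) -
          KO _ (b.pol.pull Ψ) * (pP b.F N).pull (b.q1.pull ζ)) := by
    rw [hdT, map_add, K_mul, map_smul, map_sub, KO_mulr, pull_s]
  have hT : dO _ (KO _ (b.pol.pull Ψ * b.KS ζ)) =
      (pP b.F N).pull (b.q1.pull (b.ant.pull Ψ)) * KO _ (b.pol.pull ζ) -
        ((pP b.F N).pull (sO _ (b.q.pull a)) * KO _ (b.KS ζ) +
        (-1 : ℝ) ^ N • (KO _ (b.pol.pull (Ψ * ζ)) -
          KO _ (b.pol.pull Ψ) * (pP b.F N).pull (b.q1.pull ζ))) := by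
    have h := d_K (b.pol.pull Ψ * b.KS ζ)
    rw [hj0, hj1, sub_zero, hKd] at h
    exact eq_sub_of_add_eq h
  have hS : SI N b.F (dO _ (KO _ (b.pol.pull Ψ * b.KS ζ))) =
      (-1 : ℝ) ^ N • (b.q1.pull (b.ant.pull Ψ) * b.q.pull (b.PI ζ)) - b.q.pull (b.PI (Ψ * ζ)) +
        b.q1.pull ζ - b.q.pull a * b.HS 1 ζ := by
    rw [hT, map_sub, SI_mul, hc1, hK, map_add, SI_mul, hsa, map_smul,
      map_sub, hK, SI_mulr, hK, h1, map_one, smul_mul_assoc, one_mul, smul_sub, smul_smul,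
      smul_smul, hsq, one_smul, one_smul, mul_smul_comm, hS1]
    abel
  have hH : dO b.F ((-1 : ℝ) ^ (N + 1) • b.HS Ψ ζ) =
      (-1 : ℝ) ^ N • (b.q1.pull (b.ant.pull Ψ) * b.q.pull (b.PI ζ)) - b.q.pull (b.PI (Ψ * ζ)) +
        b.q1.pull ζ - b.q.pull a * b.HS 1 ζ := by
    rw [map_smul, HS, SI_d, smul_smul, hsq, one_smul, hS]
  unfold HSx
  rw [map_add, hH, d_mul, hqa, b.d_HS1 hc, mul_zero, add_zero, pow_succ, mul_neg, mul_one, neg_smul]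
  abel


theorem HSx_same (Ψ ζ : Om S) (k : ℕ) (P P' : b.F.Plot k) (h : b.q1.pl P = b.q1.pl P') :
    Om.on (b.HSx Ψ ζ) P = Om.on (b.HSx Ψ ζ) P' := by
  unfold HSx
  rw [on_add, on_add, on_smul, on_smul, on_mul, on_mul, b.HS_same Ψ ζ k P P' h, b.HS_same 1 ζ k P P' h,
    on_pull b.q1 _ P, on_pull b.q1 _ P', h]

theorem DZ_SI {N' : ℕ} {j : ℤ} {θ : Om (X.xP (N' + 1))} (h : DZ j θ) : DZ (j - N') (SI (N' + 1) X θ) := by
  rcases lt_or_ge j 0 with hj | hj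
  · rw [h.2 hj, map_zero]; exact DZ_zero
  obtain ⟨a, rfl⟩ := Int.eq_ofNat_of_zero_le hj
  have ha := DZ_nat.1 h
  rcases lt_or_ge a N' with hN | hN
  · rw [SI_low ha (by omega)]; exact DZ_zero
  · refine DZ_of (Deg_SI (j := a - N') ?_) (by push_cast [hN]; ring)
    rwa [Nat.sub_add_cancel hN]

theorem DZ_HS (hN : 1 ≤ N) {Ψ ζ : Om S} {i j : ℤ} (hΨ : DZ i Ψ) (hζ : DZ j ζ) : DZ (i + j - 1 - N) (b.HS Ψ ζ) := by
  obtain ⟨N', rfl⟩ : ∃ N', N = N' + 1 := ⟨N - 1, by omega⟩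
  have h1 : DZ (j - 1) (b.KS ζ) := DZ_K (DZ_pull _ (DZ_pull _ hζ))
  exact (DZ_SI (DZ_K (DZ_mul (DZ_pull b.pol hΨ) h1))).cast (by push_cast; ring)

/-- **closed forms on sphere bundles**, all degrees -/
theorem SSx (hN : 1 ≤ N) {Ψ ζ : Om S} {a : Om B} {j : ℤ} (hΨ : Deg N Ψ) (h1 : b.PI Ψ = 1) (hd : dO S Ψ = b.pi.pull a)
    (hζ : DZ j ζ) (hc : dO S ζ = 0) :
    ∃ η : Om S, DZ (j - 1) η ∧ ζ = b.pi.pull (b.PI (Ψ * ζ)) +
      (-1 : ℝ) ^ (N + 1) • (b.ant.pull Ψ * b.pi.pull (b.PI ζ)) + dO S η := by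
  have hη : b.q1.pull (desc b.q1 (b.HSx Ψ ζ)) = b.HSx Ψ ζ :=
    pull_desc (q := b.q1) b.lift1 fun k P P' h => b.HSx_same Ψ ζ k P P' h
  have hπ : ∀ x : Om B, b.q1.pull (b.pi.pull x) = b.q.pull x := by
    intro x
    rw [← pull_comp, b.pi_q1]
  refine ⟨desc b.q1 (b.HSx Ψ ζ), ?_, ?_⟩
  · have h2 : DZ (j - 1) (b.HSx Ψ ζ) := by
      refine DZ_add (DZ_smul _ ((b.DZ_HS hN (DZ_nat.2 hΨ) hζ).cast (by ring))) ?_
      exact (DZ_mul (DZ_pull _ (DZ_pull _ (DZ_nat.2 hΨ))) (b.DZ_HS hN (i := 0) DZ_one hζ)).cast (by ring)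
    refine ⟨fun i e => INTh_Deg_of (q := b.q1) b.lift1 ?_, fun hj => LLift.inj (q := b.q1) b.lift1 ?_⟩
    · rw [hη]
      exact h2.1 i e
    · rw [hη, h2.2 hj, map_zero]
  · refine LLift.inj (q := b.q1) b.lift1 ?_
    rw [map_add, map_add, map_smul, map_mul, hπ, hπ, ← pull_d, hη]
    exact b.SS_Fx hN hΨ h1 hd hc

end SBun

end Pool.Agent.Lib.MP_ccbbf6_gt.L5
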