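import Pool.Agent.Lib.MP_ccbbf6_gt.L4.FI2
import Pool.Agent.Lib.MP_ccbbf6_gt.L4.FXb

namespace Pool.Agent.Lib.MP_ccbbf6_gt.L5
end Pool.Agent.Lib.MP_ccbbf6_gt.L5

/-!
# `κ = 7`, block UA, part 1: integration of slices, naturality of the operators of a circle action (helper25)

* `QO X : Om (X × R) → Om X` : the integral of the slices over `[0, 1]`; `sF X` the coordinate `s`; `K_ds`.
* `A_of_inv` : the average of an invariant form.
* `Eqv c c' g` : equivariant maps; `i_nat`, `A_nat`.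
* `Circ.xR c` : the action on `X × R`; `i_K`, `Bas_K`.
* `Circ.dbl c` : every orbit run twice; `A_dbl`, `i_dbl`, `K_dbl`.
-/

set_option autoImplicit false
set_option maxSynthPendingDepth 3

open Set Filter Topology MeasureTheory
open scoped TensorProduct ContDiff

noncomputable section

namespace Pool.Agent.Lib.MP_ccbbf6_gt.K7

open L4 L4.FR L5

variable {X Y Z M : Space} {k l n : ℕ} {i j : ℕ}

/-! ### Integration of slices -/

/-- the integral of the slices over `[0, 1]` -/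
def QO (X : Space) : Om X.xR →ₗ[ℝ] Om X where
  toFun θ := mkO (fun k p => Q0 k (Om.on θ p.up)) (fun k l p g => by rw [plot_up_cmp, on_cmp, Q0_up])
  map_add' θ τ := Om_ext fun k p => by simp
  map_smul' r θ := Om_ext fun k p => by simp

theorem on_Q (θ : Om X.xR) (p : X.Plot k) : Om.on (QO X θ) p = Q0 k (Om.on θ p.up) := rfl

theorem d_Q (θ : Om X.xR) : dO X (QO X θ) = QO X (dO _ θ) :=
  Om_ext fun k p => by rw [on_d, on_Q, on_Q, on_d, dd_Q0]

theorem s_Q (θ : Om X.xR) : sO X (QO X θ) = QO X (sO _ θ) :=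
  Om_ext fun k p => by rw [on_s, on_Q, on_Q, on_s, Q0_sg]

theorem Deg_Q {θ : Om X.xR} (h : Deg j θ) : Deg j (QO X θ) := fun _ p => Dg_Q0 (h _ p.up)

theorem Q_mul (z : Om X) (θ : Om X.xR) : QO X ((pO X).pull z * θ) = z * QO X θ :=
  Om_ext fun k p => by rw [on_Q, on_mul, on_p, Q0_mul, on_mul, on_Q]

theorem Q_one : QO X 1 = 1 := Om_ext fun k p => by rw [on_Q, on_one, Q0_one, on_one]

theorem Q_p (z : Om X) : QO X ((pO X).pull z) = z := by
  rw [← mul_one ((pO X).pull z), Q_mul, Q_one, mul_one]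

theorem Q_up (f : SMap X Y) (θ : Om Y.xR) : QO X (f.up.pull θ) = f.pull (QO Y θ) :=
  Om_ext fun k p => by
    have h : f.up.pl p.up = (f.pl p).up := rfl
    rw [on_Q, on_pull, h, on_pull, on_Q]

theorem AO_eq (c : Circ X) (θ : Om X) : AO c θ = QO X (c.a.pull θ) := rfl

/-- the coordinate `s` -/
def sF (X : Space) : Om X.xR := fO (fun z => z.2) (fun _ p => p.2.2)

theorem Deg_sF : Deg 0 (sF X) := fun _ _ => Dg_fc _

theorem on_sF_up (p : X.Plot k) : Om.on (sF X) p.up = fc (k + 1) (co (Fin.last k)) := rfl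

theorem sF_nat (f : SMap X Y) : f.up.pull (sF Y) = sF X := rfl

theorem sF_j (t : ℝ) : (jO X t).pull (sF X) = algebraMap ℝ (Om X) t :=
  Om_ext fun k p => by
    rw [on_pull]
    change fc k (mkC (fun _ => t) _) = fc k (algebraMap ℝ (Cs k) t)
    rfl

theorem KK_ds (x : Fm (k + 1)) : KK k (dx (Fin.last k) * x) = Q0 k x := by
  rw [KK_apply, cs, cn_mul, cn_dx, lst_apply, Pi.single_eq_same, map_one, one_mul, map_add, sg_dx, neg_mul, map_neg,
    Q0_last, neg_zero, add_zero]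

theorem K_ds (θ : Om X.xR) : KO X (dO _ (sF X) * θ) = QO X θ :=
  Om_ext fun k p => by rw [on_K, on_mul, on_d, on_sF_up, fc_pd_co, KK_ds, on_Q]

/-! ### Invariant forms -/

theorem A_of_inv {c : Circ X} {θ : Om X} (h : Inv c θ) : AO c θ = θ :=
  Om_ext fun k p => by
    rw [← sub_eq_zero]
    refine ev_fun_inj fun φ z => ?_
    rw [map_sub, map_sub, on_A, ev_Q0, sub_eq_zero]
    have h1 : ∀ s, pb (sl k s) (Om.on θ (c.op p)) = Om.on θ p := fun s => by
      rw [← on_cmp, op_sl, ← on_pull, h s]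
    simp only [h1]
    simp

theorem Inv_mul {c : Circ X} {θ τ : Om X} (h : Inv c θ) (h' : Inv c τ) : Inv c (θ * τ) := fun t => by
  rw [map_mul, h t, h' t]

theorem Inv_pow {c : Circ X} {θ : Om X} (h : Inv c θ) (m : ℕ) : Inv c (θ ^ m) := fun t => by rw [map_pow, h t]

/-! ### Equivariant maps -/

/-- equivariant maps -/
def Eqv (c : Circ X) (c' : Circ Y) (g : SMap X Y) : Prop := ∀ x s, g.1 (c.a.1 (x, s)) = c'.a.1 (g.1 x, s)

variable {c : Circ X} {c' : Circ Y} {g : SMap X Y}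

theorem Eqv.a (h : Eqv c c' g) : g.comp c.a = c'.a.comp g.up := SMap_ext fun x => h x.1 x.2

theorem Eqv.op (h : Eqv c c' g) (p : X.Plot k) : g.pl (c.op p) = c'.op (g.pl p) :=
  Plot_ext fun z => h _ _

theorem i_nat (h : Eqv c c' g) (θ : Om Y) : iO c (g.pull θ) = g.pull (iO c' θ) :=
  Om_ext fun k p => by rw [on_i, on_pull, h.op, on_pull, on_i]

theorem A_nat (h : Eqv c c' g) (θ : Om Y) : AO c (g.pull θ) = g.pull (AO c' θ) :=
  Om_ext fun k p => by rw [on_A, on_pull, h.op, on_pull, on_A]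

theorem Bas_nat (h : Eqv c c' g) {θ : Om Y} (hθ : Bas c' θ) : Bas c (g.pull θ) := fun k p => by
  rw [on_pull, h.op, hθ, on_pull]

theorem Inv_nat (h : Eqv c c' g) {θ : Om Y} (hθ : Inv c' θ) : Inv c (g.pull θ) := fun t => by
  have e : g.comp (c.at t) = (c'.at t).comp g := SMap_ext fun x => h x t
  rw [← pull_comp, e, pull_comp, hθ t]

/-! ### The action on `X × R` -/

/-- the action on the first factor -/
def xRc (c : Circ X) : Circ X.xR where
  a := ⟨fun z => (c.a.1 (z.1.1, z.2), z.1.2), fun k p =>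
    ⟨c.a.2 k ⟨fun x => ((p.1 x).1.1, (p.1 x).2), p.2.1.1, p.2.2⟩, p.2.1.2⟩⟩
  zero x := Prod.ext (c.zero _) rfl
  add x s t := Prod.ext (c.add _ _ _) rfl
  one x s := Prod.ext (c.one _ _) rfl

theorem Eqv_j (c : Circ X) (t : ℝ) : Eqv c (xRc c) (jO X t) := fun _ _ => rfl

theorem Eqv_p (c : Circ X) : Eqv (xRc c) c (pO X) := fun _ _ => rfl

theorem Eqv_up (h : Eqv c c' g) : Eqv (xRc c) (xRc c') g.up := fun x s => Prod.ext (h _ _) rfl

/-- `(x, r, s) ↦ (x, s, r)` -/
def swM (X : Space) : SMap X.xR.xR X.xR.xR :=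
  ⟨fun z => ((z.1.1, z.2), z.1.2), fun _ p => ⟨⟨p.2.1.1, p.2.2⟩, p.2.1.2⟩⟩

end Pool.Agent.Lib.MP_ccbbf6_gt.K7
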