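import Pool.Agent.Lib.MP_ccbbf6_gt.K7.RT
import Pool.Agent.Lib.MP_ccbbf6_gt.L5.NHa

/-!
# `κ = 7`, block B4, file VC1: the projection onto the plane `V` of the geodesic from `a` through `b` (helper25, skeleton)

`Pv 𝒜 a b` = orthogonal projection of `Eu n` onto `𝒜.PV a (dirOf a b)` (the directions at `a` of the geodesics which meet again at `c π`, `c` the geodesic from `a` through `b`).
PROOFS.
(1) `vel_dir` : for `c : Gs M`, `c 0 = a`, `c (dist a b) = b`, `0 < dist a b < π`: `vel c 0 = dirOf a b` (`lg_geo` of RT with `a = dist a b` : `lg a b = dist • dirOf a b = dist • vel`, cancel; or `dirOf_spec` and `gv` uniqueness).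
(2) `Pv_eq` : `PV a v = span {v} ⊔ Kc` orthogonally: `v ∈ PV a v` (`Classical`: `vel_mem_VF`-type lemma, `mem_Kc_iff`), so `starProjection` = `⟪v, w⟫ • v + Hc c w`. (The difference `w - (⟪v,w⟫ v + Hc c w)` is orthogonal to `PV`: an element `y` of `PV` is `⟪v,y⟫ v + (y - ⟪v,y⟫ v)` with the second term in `Kc` (`mem_Kc_iff`), `inner_Hc`;
    `Submodule.eq_starProjection_of_mem_of_inner_eq_zero`-type lemma.)
(3) `smV_Pv` : near `u` we have `0 < dist (x v) (y v) < π`; `σ v` := the geodesic `gd (x v) (y v)` (as `Gs M`; total version e.g. `gg` with `Nonempty (Gs M)` from `exists_gs`) is `SmGAt` (`SmGAt.of_gg`, PO1), `vel` along it is `SmV` (`SmGA.smV`), `SmV.inner`, `SmV.smul`, `smV_Hc hB hk`, `SmV.add`; `SmV.congr` with (1), (2).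
(4) `tendsto_chart` : if `Φ : (M × M × M) → T` and `z ↦ Φ ((ψ a).symm z.1, (ψ b).symm z.2.1, (ψ c).symm z.2.2)` is continuous at `0` then `Φ` is continuous at `(a, b, c)`: near `(a, b, c)` it is the composition with `(x, y, z) ↦ (ψ a x, ψ b y, ψ c z)` (continuous, centered charts `ψ p p = 0`, `left_inv` on the source).
(5) `tendsto_Pv` : by (4), (3) and `smV_lg` (`DG1`), `SmV.inner`: the function `‖Pv a b (lg a c)‖ ^ 2` is continuous; and `Ex a (rad (π/2) (Pv a b (lg a c))) = (gw c1 (..)).1 (π/2)` with `smGA_gw` (`SmGA.at`), so continuous where `Pv .. ≠ 0`.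
-/

set_option autoImplicit false
set_option linter.unusedSectionVars false

open Set Filter Topology Metric Real Module
open scoped ContDiff RealInnerProductSpace

noncomputable section

namespace Pool.Agent.Lib.MP_ccbbf6_gt.K7

open Geo L4 L4.ORI L5 L5.NEG

variable {n κ : ℕ} {M : Type*} [MetricSpace M] [CompactSpace M] (𝒜 : SDist n M)

/-- projection onto the plane of the geodesic from `a` through `b` -/
def Pv (a b : M) : Eu n →L[ℝ] Eu n := (𝒜.PV a (SDist.dirOf 𝒜 a b)).starProjection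

variable {𝒜}

theorem vel_dir (hB : Bl M) (c : Gs M) {a b : M} (h0 : c.1 0 = a) (h1 : c.1 (dist a b) = b) (hp : 0 < dist a b)
    (hd : dist a b < π) : 𝒜.vel c.1 0 = SDist.dirOf 𝒜 a b := by
  have h2 := lg_geo (𝒜 := 𝒜) hB c (a := dist a b) (by rw [abs_of_nonneg dist_nonneg]; exact hd)
  rw [h0, h1] at h2
  have h3 : lg 𝒜 a b = dist a b • SDist.dirOf 𝒜 a b := rfl
  rw [h3] at h2
  exact (smul_right_injective (Eu n) hp.ne' h2).symm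

theorem Pv_eq (hB : Bl M) (c : Gs M) {a b : M} (h0 : c.1 0 = a) (h1 : c.1 (dist a b) = b) (hp : 0 < dist a b)
    (hd : dist a b < π) (w : Eu n) : Pv 𝒜 a b w = ⟪𝒜.vel c.1 0, w⟫ • 𝒜.vel c.1 0 + Hc 𝒜 c w := by
  have hPV : 𝒜.PV a (SDist.dirOf 𝒜 a b) = 𝒜.PV (c.1 0) (𝒜.vel c.1 0) := by
    rw [← vel_dir hB c h0 h1 hp hd, h0]
  unfold Pv
  have hv1 := vel_norm 𝒜 c
  have hself : 𝒜.vel c.1 0 ∈ 𝒜.PV (c.1 0) (𝒜.vel c.1 0) := mem_PV_self 𝒜 hB _ _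
  obtain ⟨hH1, hH2⟩ := mem_Kc_iff.1 (Hc_mem (𝒜 := 𝒜) c w)
  refine Submodule.eq_starProjection_of_mem_of_inner_eq_zero (by
    rw [hPV]
    exact Submodule.add_mem _ (Submodule.smul_mem _ _ hself) hH1) fun z hz => ?_
  rw [hPV] at hz
  obtain ⟨z1, hz1⟩ : ∃ z1 : Eu n, z1 = z - ⟪𝒜.vel c.1 0, z⟫ • 𝒜.vel c.1 0 := ⟨_, rfl⟩
  have hz2 : z1 ∈ Kc 𝒜 c := by
    rw [mem_Kc_iff, hz1]
    refine ⟨Submodule.sub_mem _ hz (Submodule.smul_mem _ _ hself), ?_⟩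
    rw [inner_sub_right, real_inner_smul_right, real_inner_self_eq_norm_sq, hv1]
    ring
  have hz3 : z = ⟪𝒜.vel c.1 0, z⟫ • 𝒜.vel c.1 0 + z1 := by
    rw [hz1, add_sub_cancel]
  have h4 := inner_Hc c w z1 hz2
  have h5 : ⟪𝒜.vel c.1 0, z1⟫ = 0 := (mem_Kc_iff.1 hz2).2
  have h6 : ⟪Hc 𝒜 c w, 𝒜.vel c.1 0⟫ = 0 := by
    rw [real_inner_comm]
    exact hH2
  have h7 : ⟪w - (⟪𝒜.vel c.1 0, w⟫ • 𝒜.vel c.1 0 + Hc 𝒜 c w), 𝒜.vel c.1 0⟫ = 0 := by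
    rw [inner_sub_left, inner_add_left, real_inner_smul_left, real_inner_self_eq_norm_sq, hv1, h6, real_inner_comm]
    ring
  have h8 : ⟪w - (⟪𝒜.vel c.1 0, w⟫ • 𝒜.vel c.1 0 + Hc 𝒜 c w), z1⟫ = 0 := by
    rw [inner_sub_left, inner_add_left, real_inner_smul_left, h4, h5]
    ring
  rw [hz3, inner_add_right, real_inner_smul_right, h7, h8]
  ring

theorem Pv_mem (a b : M) (w : Eu n) : Pv 𝒜 a b w ∈ 𝒜.PV a (SDist.dirOf 𝒜 a b) :=
  Submodule.starProjection_apply_mem _ _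

theorem Pv_of_mem {a b : M} {w : Eu n} (h : w ∈ 𝒜.PV a (SDist.dirOf 𝒜 a b)) : Pv 𝒜 a b w = w :=
  Submodule.starProjection_eq_self_iff.2 h

/-- **the projection is smooth** -/
theorem smV_Pv (hB : Bl M) (hk : 𝒜.HK κ) {E : Type*} [NormedAddCommGroup E] [NormedSpace ℝ E] {x y : E → M} {w : E → Eu n}
    {u : E} {p : M} (hx : SmAt 𝒜 x u) (hp : x u ∈ (𝒜.ψ p).source) (hy : SmAt 𝒜 y u) (h0 : 0 < dist (x u) (y u))
    (h1 : dist (x u) (y u) < π) (hw : SmV 𝒜 p x w u) : SmV 𝒜 p x (fun v => Pv 𝒜 (x v) (y v) (w v)) u := by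
  obtain ⟨c0, -⟩ := exists_gs 𝒜 hB (dist_pos.1 h0)
  have : Nonempty (Gs M) := ⟨c0⟩
  obtain ⟨σ, hσe⟩ : ∃ σ : E → Gs M, σ = fun v => gg (x v) (y v) := ⟨_, rfl⟩
  have hσ : SmGAt 𝒜 σ u := by
    rw [hσe]
    exact SmGAt.of_gg hB hx hy h0 h1
  have hc : ContinuousAt (fun v => dist (x v) (y v)) u := hx.1.dist hy.1
  have hev : ∀ᶠ v in 𝓝 u, 0 < dist (x v) (y v) ∧ dist (x v) (y v) < π :=
    (hc.eventually (lt_mem_nhds h0)).and (hc.eventually (gt_mem_nhds h1))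
  have hs : ∀ v, 0 < dist (x v) (y v) → (σ v).1 0 = x v ∧ (σ v).1 (dist (x v) (y v)) = y v := by
    intro v hv
    obtain ⟨f1, f2, f3⟩ := gd_spec 𝒜 hB (dist_pos.1 hv)
    have h2 : (σ v).1 = gd (x v) (y v) := by
      rw [hσe]
      show (gg (x v) (y v)).1 = _
      unfold gg
      rw [dif_pos f1]
    rw [h2]
    exact ⟨f2, f3⟩
  have hx0 : (σ u).1 0 = x u := (hs u h0).1
  have hp' : (σ u).1 0 ∈ (𝒜.ψ p).source := by
    rw [hx0]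
    exact hp
  have hxx : ∀ᶠ v in 𝓝 u, (σ v).1 0 = x v := by
    filter_upwards [hev] with v hv
    exact (hs v hv.1).1
  have hw' : SmV 𝒜 p (fun v => (σ v).1 0) w u := by
    unfold SmV at hw ⊢
    refine hw.congr_of_eventuallyEq ?_
    filter_upwards [hxx] with v hv
    rw [hv]
  have hv' := SmGA.smV hB (show SmGA 𝒜 σ u from hσ) hp'
  have hA := (hv'.smul (SmV.inner hσ.1 hp' hv' hw')).add (smV_Hc hB hk hσ hp' hw')
  unfold SmV at hA ⊢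
  refine hA.congr_of_eventuallyEq ?_
  filter_upwards [hev] with v hv
  obtain ⟨g1, g2⟩ := hs v hv.1
  rw [Pv_eq hB (σ v) g1 g2 hv.1 hv.2, g1]

/-- the point at time `π / 2` on the geodesic from `a` in the direction of the projection of `c` -/
def qv (𝒜 : SDist n M) (a b c : M) : M := 𝒜.Ex a (rad (π / 2) (Pv 𝒜 a b (lg 𝒜 a c)))

/-- continuity of a function of three points, checked in the centered charts -/
theorem tendsto_chart3 (𝒜 : SDist n M) {T : Type*} [TopologicalSpace T] (Φ : M → M → M → T) {a b c : M}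
    (hΦ : ContinuousAt (fun z : Eu n × Eu n × Eu n => Φ ((𝒜.ψ a).symm z.1) ((𝒜.ψ b).symm z.2.1) ((𝒜.ψ c).symm z.2.2)) 0)
    {ι : Type*} {l : Filter ι} {x y z : ι → M} (hx : Tendsto x l (𝓝 a)) (hy : Tendsto y l (𝓝 b)) (hz : Tendsto z l (𝓝 c)) :
    Tendsto (fun i => Φ (x i) (y i) (z i)) l (𝓝 (Φ a b c)) := by
  have hc : ∀ {p : M} {g : ι → M}, Tendsto g l (𝓝 p) → Tendsto (fun i => 𝒜.ψ p (g i)) l (𝓝 (0 : Eu n)) := by
    intro p g hg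
    have h1 : Tendsto (𝒜.ψ p) (𝓝 p) (𝓝 (𝒜.ψ p p)) := (𝒜.ψ p).continuousAt (𝒜.mem p)
    rw [𝒜.zero] at h1
    exact h1.comp hg
  have hs : ∀ {p : M} {g : ι → M}, Tendsto g l (𝓝 p) → ∀ᶠ i in l, (𝒜.ψ p).symm (𝒜.ψ p (g i)) = g i := by
    intro p g hg
    filter_upwards [hg.eventually ((𝒜.ψ p).open_source.mem_nhds (𝒜.mem p))] with i hi
    exact (𝒜.ψ p).left_inv hi
  have h1 : Tendsto (fun i => (𝒜.ψ a (x i), 𝒜.ψ b (y i), 𝒜.ψ c (z i))) l (𝓝 (0 : Eu n × Eu n × Eu n)) :=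
    (hc hx).prodMk_nhds ((hc hy).prodMk_nhds (hc hz))
  have h2 := hΦ.tendsto.comp h1
  have h3 : Φ ((𝒜.ψ a).symm (0 : Eu n × Eu n × Eu n).1) ((𝒜.ψ b).symm (0 : Eu n × Eu n × Eu n).2.1)
      ((𝒜.ψ c).symm (0 : Eu n × Eu n × Eu n).2.2) = Φ a b c := by
    show Φ ((𝒜.ψ a).symm 0) ((𝒜.ψ b).symm 0) ((𝒜.ψ c).symm 0) = Φ a b c
    rw [symm_zero', symm_zero', symm_zero']
  rw [h3] at h2
  refine h2.congr' ?_
  filter_upwards [hs hx, hs hy, hs hz] with i e1 e2 e3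
  show Φ ((𝒜.ψ a).symm (𝒜.ψ a (x i))) ((𝒜.ψ b).symm (𝒜.ψ b (y i))) ((𝒜.ψ c).symm (𝒜.ψ c (z i))) = _
  rw [e1, e2, e3]

/-- the centered chart as a smooth family of points -/
theorem smAt_cchart (𝒜 : SDist n M) {E : Type*} [NormedAddCommGroup E] [NormedSpace ℝ E] (p : M) {f : E → Eu n}
    (hf : ContDiffAt ℝ ∞ f 0) (h0 : f 0 = 0) : SmAt 𝒜 (fun v => (𝒜.ψ p).symm (f v)) 0 :=
  smAt_symm hf (by
    rw [h0, ← 𝒜.zero p]
    exact (𝒜.ψ p).map_source (𝒜.mem p))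

/-- the norm of a smooth field is smooth where the field is not zero -/
theorem contDiffAt_normW {E : Type*} [NormedAddCommGroup E] [NormedSpace ℝ E] {x : E → M} {w : E → Eu n}
    {u : E} {p : M} (hx : SmAt 𝒜 x u) (hp : x u ∈ (𝒜.ψ p).source) (hw : SmV 𝒜 p x w u) (h0 : w u ≠ 0) :
    ContDiffAt ℝ ∞ (fun v => ‖w v‖) u := by
  have hnn : ContDiffAt ℝ ∞ (fun v => ⟪w v, w v⟫) u := hw.inner hx hp hw
  have h2 : ContDiffAt ℝ ∞ (fun v => √(⟪w v, w v⟫)) u := hnn.sqrt (by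
    rw [real_inner_self_eq_norm_sq]
    exact (pow_pos (norm_pos_iff.2 h0) 2).ne')
  refine h2.congr_of_eventuallyEq (Eventually.of_forall fun v => ?_)
  show ‖w v‖ = √(⟪w v, w v⟫)
  rw [real_inner_self_eq_norm_sq, Real.sqrt_sq (norm_nonneg _)]

/-- the norm of a smooth field is continuous -/
theorem continuousAt_normW {E : Type*} [NormedAddCommGroup E] [NormedSpace ℝ E] {x : E → M} {w : E → Eu n}
    {u : E} {p : M} (hx : SmAt 𝒜 x u) (hp : x u ∈ (𝒜.ψ p).source) (hw : SmV 𝒜 p x w u) :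
    ContinuousAt (fun v => ‖w v‖) u := by
  have hnn : ContinuousAt (fun v => ⟪w v, w v⟫) u := (hw.inner hx hp hw).continuousAt
  have h2 : ContinuousAt (fun v => √(⟪w v, w v⟫)) u := hnn.sqrt
  have h3 : (fun v => √(⟪w v, w v⟫)) = fun v => ‖w v‖ := by
    funext v
    rw [real_inner_self_eq_norm_sq, Real.sqrt_sq (norm_nonneg _)]
  rwa [h3] at h2

/-- the projected logarithm in the centered charts -/
theorem smV_Pv3 (hB : Bl M) (hk : 𝒜.HK κ) {a b c : M} (h0 : 0 < dist a b) (h1 : dist a b < π) (h2 : dist a c < π) :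
    SmAt 𝒜 (fun z : Eu n × Eu n × Eu n => (𝒜.ψ a).symm z.1) 0 ∧
      SmV 𝒜 a (fun z : Eu n × Eu n × Eu n => (𝒜.ψ a).symm z.1) (fun z => Pv 𝒜 ((𝒜.ψ a).symm z.1) ((𝒜.ψ b).symm z.2.1)
        (lg 𝒜 ((𝒜.ψ a).symm z.1) ((𝒜.ψ c).symm z.2.2))) 0 := by
  have hX : SmAt 𝒜 (fun z : Eu n × Eu n × Eu n => (𝒜.ψ a).symm z.1) 0 := smAt_cchart 𝒜 a contDiffAt_fst rfl
  have hY : SmAt 𝒜 (fun z : Eu n × Eu n × Eu n => (𝒜.ψ b).symm z.2.1) 0 :=
    smAt_cchart 𝒜 b (contDiffAt_fst.comp (0 : Eu n × Eu n × Eu n) contDiffAt_snd) rfl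
  have hZ : SmAt 𝒜 (fun z : Eu n × Eu n × Eu n => (𝒜.ψ c).symm z.2.2) 0 :=
    smAt_cchart 𝒜 c (contDiffAt_snd.comp (0 : Eu n × Eu n × Eu n) contDiffAt_snd) rfl
  have ea : (𝒜.ψ a).symm (0 : Eu n × Eu n × Eu n).1 = a := symm_zero' 𝒜 a
  have eb : (𝒜.ψ b).symm (0 : Eu n × Eu n × Eu n).2.1 = b := symm_zero' 𝒜 b
  have ec : (𝒜.ψ c).symm (0 : Eu n × Eu n × Eu n).2.2 = c := symm_zero' 𝒜 c
  have hp : (𝒜.ψ a).symm (0 : Eu n × Eu n × Eu n).1 ∈ (𝒜.ψ a).source := by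
    rw [ea]
    exact 𝒜.mem a
  have h3 := smV_lg hB hX hp hZ (by
    show dist ((𝒜.ψ a).symm (0 : Eu n × Eu n × Eu n).1) ((𝒜.ψ c).symm (0 : Eu n × Eu n × Eu n).2.2) < π
    rw [ea, ec]
    exact h2)
  exact ⟨hX, smV_Pv hB hk hX hp hY (by
    show 0 < dist ((𝒜.ψ a).symm (0 : Eu n × Eu n × Eu n).1) ((𝒜.ψ b).symm (0 : Eu n × Eu n × Eu n).2.1)
    rw [ea, eb]
    exact h0) (by
    show dist ((𝒜.ψ a).symm (0 : Eu n × Eu n × Eu n).1) ((𝒜.ψ b).symm (0 : Eu n × Eu n × Eu n).2.1) < π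
    rw [ea, eb]
    exact h1) h3⟩

/-- **continuity** -/
theorem tendsto_Pv (hB : Bl M) (hk : 𝒜.HK κ) {ι : Type*} {l : Filter ι} {x y z : ι → M} {a b c : M}
    (hx : Tendsto x l (𝓝 a)) (hy : Tendsto y l (𝓝 b)) (hz : Tendsto z l (𝓝 c)) (h0 : 0 < dist a b) (h1 : dist a b < π)
    (h2 : dist a c < π) : Tendsto (fun i => ‖Pv 𝒜 (x i) (y i) (lg 𝒜 (x i) (z i))‖) l (𝓝 ‖Pv 𝒜 a b (lg 𝒜 a c)‖) := by
  obtain ⟨hX, hW⟩ := smV_Pv3 hB hk h0 h1 h2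
  have hp : (𝒜.ψ a).symm (0 : Eu n × Eu n × Eu n).1 ∈ (𝒜.ψ a).source := by
    rw [show (𝒜.ψ a).symm (0 : Eu n × Eu n × Eu n).1 = a from symm_zero' 𝒜 a]
    exact 𝒜.mem a
  exact tendsto_chart3 𝒜 (fun x y z => ‖Pv 𝒜 x y (lg 𝒜 x z)‖) (continuousAt_normW hX hp hW) hx hy hz
theorem tendsto_qv (hB : Bl M) (hk : 𝒜.HK κ) {ι : Type*} {l : Filter ι} {x y z : ι → M} {a b c : M}
    (hx : Tendsto x l (𝓝 a)) (hy : Tendsto y l (𝓝 b)) (hz : Tendsto z l (𝓝 c)) (h0 : 0 < dist a b) (h1 : dist a b < π)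
    (h2 : dist a c < π) (h3 : Pv 𝒜 a b (lg 𝒜 a c) ≠ 0) : Tendsto (fun i => qv 𝒜 (x i) (y i) (z i)) l (𝓝 (qv 𝒜 a b c)) := by
  obtain ⟨hX, hW⟩ := smV_Pv3 hB hk h0 h1 h2
  have ea : (𝒜.ψ a).symm (0 : Eu n × Eu n × Eu n).1 = a := symm_zero' 𝒜 a
  have eb : (𝒜.ψ b).symm (0 : Eu n × Eu n × Eu n).2.1 = b := symm_zero' 𝒜 b
  have ec : (𝒜.ψ c).symm (0 : Eu n × Eu n × Eu n).2.2 = c := symm_zero' 𝒜 c
  have hp : (𝒜.ψ a).symm (0 : Eu n × Eu n × Eu n).1 ∈ (𝒜.ψ a).source := by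
    rw [ea]
    exact 𝒜.mem a
  have h4 : Pv 𝒜 ((𝒜.ψ a).symm (0 : Eu n × Eu n × Eu n).1) ((𝒜.ψ b).symm (0 : Eu n × Eu n × Eu n).2.1)
      (lg 𝒜 ((𝒜.ψ a).symm (0 : Eu n × Eu n × Eu n).1) ((𝒜.ψ c).symm (0 : Eu n × Eu n × Eu n).2.2)) ≠ 0 := by
    rw [ea, eb, ec]
    exact h3
  have h5 := contDiffAt_normW hX hp hW h4
  have h6 := hW.smul ((contDiffAt_const (c := π / 2)).div h5 (norm_ne_zero_iff.2 h4))
  have h7 := smAt_Ex2 hB hX hp h6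
  exact tendsto_chart3 𝒜 (fun x y z => qv 𝒜 x y z) h7.1 hx hy hz
end Pool.Agent.Lib.MP_ccbbf6_gt.K7
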