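import Pool.Agent.Lib.MP_ccbbf6_gt.K7.BK1
import Pool.Agent.Lib.MP_ccbbf6_gt.K7.VC1

/-!
# `κ = 7`, block B4, file VC2: small 4-gons with `d(x0, x2)` near `π` are near `K1` (helper25, skeleton)

PROOF of `good_near` (by contradiction, sequences). If it fails, for every `m` there are `ε m ∈ (0, 1/(m+1)]` and `x m` with `en (x m) ≤ π^2 + ε m ^2`, `π - 2 ε m ≤ dist (x m 0) (x m 2)`, not `GoodX`. `ZMod 4 → M` is compact metrizable: a subsequence converges to `x`. In the limit `en x ≤ π^2` (continuity), `dist (x 0) (x 2) = π` (`hB.diam`);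
`l0 + l1 ≥ π`, `l2 + l3 ≥ π` and `∑ l i^2 ≤ π^2` give `l i = π/2` (`∑ (l i - π/2)^2 = ∑ l i^2 - π ∑ l i + π^2 ≤ 0`). Let `c = gd (x 0) (x 1)` (geodesic, `gd_spec`): `c 0 = x 0`, `c (π/2) = x 1`, and `c π = x 2` (`straight` (RT) at `x 1` with `p = rat x0 x1 (1/2)`, `q = rat x1 x2 (1/2)`:
`dist p q ≥ π - π/4 - π/4`; then uniqueness of the geodesic through `x 0`, `x 1`). The geodesic `c'` from `x 0` to `x 3` satisfies in the same way `c' (π/2) = x 3`, `c' π = x 2`; so `vel c' 0 ∈ PV (x 0) (vel c 0)` (`mem_PV_of_top`), `vel c 0 = dirOf (x 0) (x 1)` (`vel_dir`), `lg (x 0) (x 3) = (π/2) • vel c' 0` (`lg_geo`), so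
`Pv .. (lg ..) = lg ..` (`Pv_of_mem`, `Submodule.smul_mem`), nonzero, and `qv = x 3` (`gs_Ex`, `rad` of a positive multiple).
Now all conditions of `GoodX` hold eventually along the subsequence: distances (continuity of `dist`), `tr_tendsto_gd` (Geo/SMd) for `gd (x m 0) (x m 1) (π/2)` and `(π)`, `tendsto_Pv`, `tendsto_qv`: contradiction.
-/

set_option autoImplicit false
set_option linter.unusedSectionVars false

open Set Filter Topology Metric Real Module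
open scoped ContDiff RealInnerProductSpace

noncomputable section

namespace Pool.Agent.Lib.MP_ccbbf6_gt.K7

open Geo L4 L4.ORI L5 L5.NEG

variable {n κ : ℕ} {M : Type*} [MetricSpace M] [CompactSpace M]

/-- 4-gons near `K1` -/
structure GoodX (𝒜 : SDist n M) (s0 : ℝ) (x : ZMod 4 → M) : Prop where
  pos : 0 < dist (x 0) (x 1)
  lt : dist (x 0) (x 1) < π
  side : ∀ i, dist (x i) (x (i + 1)) < π / 2 + s0
  lt3 : dist (x 0) (x 3) < π
  ne : Pv 𝒜 (x 0) (x 1) (lg 𝒜 (x 0) (x 3)) ≠ 0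
  m1 : dist (x 1) (gd (x 0) (x 1) (π / 2)) < s0
  m2 : dist (x 2) (gd (x 0) (x 1) π) < s0
  m3 : dist (x 3) (qv 𝒜 (x 0) (x 1) (x 3)) < s0

/-- a point at distance `π / 2` from both ends of a pair at distance `π` lies on a geodesic through the pair -/
theorem exists_half (𝒜 : SDist n M) (hB : Bl M) {a b d : M} (h1 : dist a b = π / 2) (h2 : dist b d = π / 2) (h3 : dist a d = π) :
    ∃ c : Gs M, c.1 0 = a ∧ c.1 (π / 2) = b ∧ c.1 π = d := by
  have hpi := Real.pi_pos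
  have hp1 := dist_rat (𝒜 := 𝒜) hB a b (t := 1 / 2) (by norm_num) (by norm_num)
  have hp2 := dist_rat_right (𝒜 := 𝒜) hB a b (t := 1 / 2) (by norm_num) (by norm_num)
  have hq1 := dist_rat (𝒜 := 𝒜) hB b d (t := 1 / 2) (by norm_num) (by norm_num)
  have hq2 := dist_rat_right (𝒜 := 𝒜) hB b d (t := 1 / 2) (by norm_num) (by norm_num)
  have t1 := dist_triangle a (rat 𝒜 a b (1 / 2)) (rat 𝒜 b d (1 / 2))
  have t2 := dist_triangle a (rat 𝒜 b d (1 / 2)) d
  have t3 := dist_triangle (rat 𝒜 a b (1 / 2)) b (rat 𝒜 b d (1 / 2))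
  rw [h1] at hp1 hp2
  rw [h2] at hq1 hq2
  obtain ⟨e, he0, he1, he2⟩ := straight 𝒜 hB (x := a) (y := b) (z := d)
    (p := rat 𝒜 a b (1 / 2)) (q := rat 𝒜 b d (1 / 2))
    (by rw [hp1, hp2, h1]; ring) (by rw [hq1, hq2, h2]; ring) (by rw [h1]; linarith) (by rw [h2]; linarith)
    (fun h => by rw [h, dist_self] at hp2; linarith)
    (fun h => by rw [h, dist_self] at hq1; linarith)
    (by apply le_antisymm <;> linarith) (by linarith)
  rw [h1] at he1
  rw [h2] at he2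
  refine ⟨⟨fun t => e.1 (t + -(π / 2)), e.2.shift _⟩, ?_, ?_, ?_⟩
  · show e.1 (0 + -(π / 2)) = a
    rw [zero_add, he1]
  · show e.1 (π / 2 + -(π / 2)) = b
    rw [add_neg_cancel, he0]
  · show e.1 (π + -(π / 2)) = d
    have h4 : π + -(π / 2) = π / 2 := by ring
    rw [h4, he2]

/-- the limit of a sequence of bad 4-gons is a pair of geodesics -/
theorem lim_near (hB : Bl M) {x : ZMod 4 → M} (h1 : en x ≤ π ^ 2) (h2 : π ≤ dist (x 0) (x 2)) :
    (∀ i, dist (x i) (x (i + 1)) = π / 2) ∧ dist (x 0) (x 2) = π := by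
  have hpi := Real.pi_pos
  have h3 : dist (x 0) (x 2) = π := le_antisymm (hB.diam _ _) h2
  have hen : en x = dist (x 0) (x 1) ^ 2 + dist (x 1) (x 2) ^ 2 + dist (x 2) (x 3) ^ 2 + dist (x 3) (x 0) ^ 2 :=
    Fin.sum_univ_four (fun i : ZMod 4 => dist (x i) (x (i + 1)) ^ 2)
  have t1 := dist_triangle (x 0) (x 1) (x 2)
  have t2 := dist_triangle (x 2) (x 3) (x 0)
  rw [dist_comm (x 2) (x 0)] at t2
  rw [hen] at h1
  have h4 : (dist (x 0) (x 1) - π / 2) ^ 2 + (dist (x 1) (x 2) - π / 2) ^ 2 + (dist (x 2) (x 3) - π / 2) ^ 2 +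
      (dist (x 3) (x 0) - π / 2) ^ 2 ≤ 0 := by
    have h5 : 0 ≤ π * (dist (x 0) (x 1) + dist (x 1) (x 2) + dist (x 2) (x 3) + dist (x 3) (x 0) - 2 * π) :=
      mul_nonneg hpi.le (by linarith)
    nlinarith
  have h5 : ∀ r : ℝ, r ^ 2 ≤ 0 → r = 0 := fun r hr => pow_eq_zero_iff (two_ne_zero) |>.1 (le_antisymm hr (sq_nonneg r))
  have g0 := h5 (dist (x 0) (x 1) - π / 2) (by
    linarith [sq_nonneg (dist (x 1) (x 2) - π / 2), sq_nonneg (dist (x 2) (x 3) - π / 2), sq_nonneg (dist (x 3) (x 0) - π / 2)])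
  have g1 := h5 (dist (x 1) (x 2) - π / 2) (by
    linarith [sq_nonneg (dist (x 0) (x 1) - π / 2), sq_nonneg (dist (x 2) (x 3) - π / 2), sq_nonneg (dist (x 3) (x 0) - π / 2)])
  have g2 := h5 (dist (x 2) (x 3) - π / 2) (by
    linarith [sq_nonneg (dist (x 0) (x 1) - π / 2), sq_nonneg (dist (x 1) (x 2) - π / 2), sq_nonneg (dist (x 3) (x 0) - π / 2)])
  have g3 := h5 (dist (x 3) (x 0) - π / 2) (by
    linarith [sq_nonneg (dist (x 0) (x 1) - π / 2), sq_nonneg (dist (x 1) (x 2) - π / 2), sq_nonneg (dist (x 2) (x 3) - π / 2)])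
  have e0 : dist (x 0) (x 1) = π / 2 := by linarith
  have e1 : dist (x 1) (x 2) = π / 2 := by linarith
  have e2 : dist (x 2) (x 3) = π / 2 := by linarith
  have e3 : dist (x 3) (x 0) = π / 2 := by linarith
  refine ⟨fun i => ?_, h3⟩
  fin_cases i
  · exact e0
  · exact e1
  · exact e2
  · exact e3

/-- **4-gons of energy near `π^2` with `d(x0, x2)` near `π` are near `K1`** -/
theorem good_near (𝒜 : SDist n M) (hB : Bl M) (hk : 𝒜.HK κ) {s0 : ℝ} (hs : 0 < s0) : ∃ ε0 : ℝ, 0 < ε0 ∧ ∀ ε, 0 < ε → ε ≤ ε0 →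
    ∀ x : ZMod 4 → M, en x ≤ π ^ 2 + ε ^ 2 → π - 2 * ε ≤ dist (x 0) (x 2) → GoodX 𝒜 s0 x := by
  have hpi := Real.pi_pos
  by_contra hcon
  have hcon' : ∀ m : ℕ, ∃ (ε : ℝ) (x : ZMod 4 → M), (0 < ε ∧ ε ≤ 1 / ((m : ℝ) + 1)) ∧ en x ≤ π ^ 2 + ε ^ 2 ∧
      π - 2 * ε ≤ dist (x 0) (x 2) ∧ ¬ GoodX 𝒜 s0 x := by
    intro m
    by_contra h
    refine hcon ⟨1 / ((m : ℝ) + 1), by positivity, fun ε h0 h1 x h2 h3 => ?_⟩
    by_contra h4
    exact h ⟨ε, x, ⟨h0, h1⟩, h2, h3, h4⟩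
  choose ε x hε hen hdist hbad using hcon'
  obtain ⟨l, hl⟩ : ∃ l : Ultrafilter ℕ, (l : Filter ℕ) ≤ atTop := ⟨Filter.hyperfilter ℕ, by
    rw [← Nat.cofinite_eq_atTop]
    exact Filter.hyperfilter_le_cofinite⟩
  have hε0 : Tendsto ε l (𝓝 0) :=
    (squeeze_zero (fun m => (hε m).1.le) (fun m => (hε m).2) tendsto_one_div_add_atTop_nhds_zero_nat).mono_left hl
  obtain ⟨x', -, hx'⟩ := (isCompact_univ (X := ZMod 4 → M)).ultrafilter_le_nhds (l.map x) (by simp)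
  have hx : Tendsto x l (𝓝 x') := hx'
  have hxi : ∀ i, Tendsto (fun m => x m i) l (𝓝 (x' i)) := fun i => (tendsto_pi_nhds.1 hx) i
  have hlen : Continuous (en : (ZMod 4 → M) → ℝ) :=
    continuous_finsetSum _ fun i _ => ((continuous_apply i).dist (continuous_apply (i + 1))).pow 2
  have h1 : en x' ≤ π ^ 2 := by
    have h2 : Tendsto (fun m => π ^ 2 + ε m ^ 2) l (𝓝 (π ^ 2 + 0 ^ 2)) := (hε0.pow 2).const_add _
    have h3 := le_of_tendsto_of_tendsto' ((hlen.tendsto x').comp hx) h2 hen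
    simpa using h3
  have h2 : π ≤ dist (x' 0) (x' 2) := by
    have h3 : Tendsto (fun m => π - 2 * ε m) l (𝓝 (π - 2 * 0)) := (hε0.const_mul 2).const_sub _
    have h4 := le_of_tendsto_of_tendsto' h3 ((hxi 0).dist (hxi 2)) hdist
    simpa using h4
  obtain ⟨hsi, hd⟩ := lim_near hB h1 h2
  have d01 : dist (x' 0) (x' 1) = π / 2 := hsi 0
  have d12 : dist (x' 1) (x' 2) = π / 2 := hsi 1
  have d32 : dist (x' 3) (x' 2) = π / 2 := by rw [dist_comm]; exact hsi 2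
  have d03 : dist (x' 0) (x' 3) = π / 2 := by rw [dist_comm]; exact hsi 3
  obtain ⟨c, c0, c1, c2⟩ := exists_half 𝒜 hB d01 d12 hd
  obtain ⟨c', k0, k1, k2⟩ := exists_half 𝒜 hB d03 d32 hd
  have hg : ∀ r, gd (x' 0) (x' 1) r = c.1 r := by
    intro r
    have h3 := gd_eq 𝒜 c.2 (s := 0) (t := π / 2) (by positivity) (by linarith)
    rw [zero_add, c0, c1] at h3
    rw [h3]
    show c.1 (0 + r) = c.1 r
    rw [zero_add]
  have hvd := vel_dir (𝒜 := 𝒜) hB c c0 (by rw [d01]; exact c1) (by rw [d01]; positivity) (by rw [d01]; linarith)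
  have hmem : 𝒜.vel c'.1 0 ∈ 𝒜.PV (x' 0) (SDist.dirOf 𝒜 (x' 0) (x' 1)) := by
    rw [← hvd]
    have h3 := mem_PV_of_top 𝒜 hB (c := c) (c' := c') (by rw [k0, c0]) (by rw [k2, c2])
    rw [c0] at h3
    exact h3
  have hlg : lg 𝒜 (x' 0) (x' 3) = (π / 2) • 𝒜.vel c'.1 0 := by
    have h3 := lg_geo (𝒜 := 𝒜) hB c' (a := π / 2) (by rw [abs_of_pos (by positivity)]; linarith)
    rw [k0, k1] at h3
    exact h3
  have hPv : Pv 𝒜 (x' 0) (x' 1) (lg 𝒜 (x' 0) (x' 3)) = (π / 2) • 𝒜.vel c'.1 0 := by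
    rw [hlg]
    exact Pv_of_mem (Submodule.smul_mem _ _ hmem)
  have hv' := vel_norm 𝒜 c'
  have hne : Pv 𝒜 (x' 0) (x' 1) (lg 𝒜 (x' 0) (x' 3)) ≠ 0 := by
    rw [hPv]
    exact smul_ne_zero (by positivity) (vel_ne 𝒜 c')
  have hqv : qv 𝒜 (x' 0) (x' 1) (x' 3) = x' 3 := by
    unfold qv
    rw [hPv]
    have h3 := gs_Ex 𝒜 hB c' (π / 2)
    rw [k0, k1, rad_unit _ hv'] at h3
    rw [h3]
    congr 1
    unfold rad
    rw [norm_smul, hv', Real.norm_of_nonneg (by positivity), mul_one, div_self (by positivity), one_smul]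
  have hd01 : Tendsto (fun m => dist (x m 0) (x m 1)) l (𝓝 (π / 2)) := by
    rw [← d01]
    exact (hxi 0).dist (hxi 1)
  have hsd : ∀ i, Tendsto (fun m => dist (x m i) (x m (i + 1))) l (𝓝 (π / 2)) := by
    intro i
    rw [← hsi i]
    exact (hxi i).dist (hxi (i + 1))
  have hd03 : Tendsto (fun m => dist (x m 0) (x m 3)) l (𝓝 (π / 2)) := by
    rw [← d03]
    exact (hxi 0).dist (hxi 3)
  have hp0 : 0 < dist (x' 0) (x' 1) := by rw [d01]; positivity
  have hp1 : dist (x' 0) (x' 1) < π := by rw [d01]; linarith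
  have hp3 : dist (x' 0) (x' 3) < π := by rw [d03]; linarith
  have hnorm := tendsto_Pv hB hk (hxi 0) (hxi 1) (hxi 3) hp0 hp1 hp3
  have hqvt := tendsto_qv hB hk (hxi 0) (hxi 1) (hxi 3) hp0 hp1 hp3 hne
  rw [hqv] at hqvt
  have hm1 : Tendsto (fun m => dist (x m 1) (gd (x m 0) (x m 1) (π / 2))) l (𝓝 0) := by
    have h3 := (hxi 1).dist (tr_tendsto_gd 𝒜 hB (hxi 0) (hxi 1) (tendsto_const_nhds (x := π / 2)) hp0 hp1)
    rw [hg, c1, dist_self] at h3
    exact h3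
  have hm2 : Tendsto (fun m => dist (x m 2) (gd (x m 0) (x m 1) π)) l (𝓝 0) := by
    have h3 := (hxi 2).dist (tr_tendsto_gd 𝒜 hB (hxi 0) (hxi 1) (tendsto_const_nhds (x := π)) hp0 hp1)
    rw [hg, c2, dist_self] at h3
    exact h3
  have hm3 : Tendsto (fun m => dist (x m 3) (qv 𝒜 (x m 0) (x m 1) (x m 3))) l (𝓝 0) := by
    have h3 := (hxi 3).dist hqvt
    rw [dist_self] at h3
    exact h3
  have hev : ∀ᶠ m in (l : Filter ℕ), GoodX 𝒜 s0 (x m) := by
    filter_upwards [hd01.eventually (lt_mem_nhds (show (0 : ℝ) < π / 2 by positivity)),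
      hd01.eventually (gt_mem_nhds (show π / 2 < π by linarith)),
      eventually_all.2 fun i => (hsd i).eventually (gt_mem_nhds (show π / 2 < π / 2 + s0 by linarith)),
      hd03.eventually (gt_mem_nhds (show π / 2 < π by linarith)),
      hnorm.eventually (lt_mem_nhds (norm_pos_iff.2 hne)),
      hm1.eventually (gt_mem_nhds hs), hm2.eventually (gt_mem_nhds hs), hm3.eventually (gt_mem_nhds hs)]
      with m e1 e2 e3 e4 e5 e6 e7 e8
    exact ⟨e1, e2, e3, e4, norm_pos_iff.1 e5, e6, e7, e8⟩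
  obtain ⟨m, hm⟩ := hev.exists
  exact hbad m hm

end Pool.Agent.Lib.MP_ccbbf6_gt.K7
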