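import Pool.Agent.Lib.MP_ccbbf6_gt.L4.MV

/-!
# `κ = 7`, `n = 16`: the volume of the model and the final arithmetic
-/

set_option autoImplicit false

open MeasureTheory Set Metric Real
open scoped ENNReal

noncomputable section

namespace Pool.Agent.Lib.MP_ccbbf6_gt.K7

theorem mv7_integral : ∫ t in (0 : ℝ)..π, Real.sin t ^ 7 * (2 * Real.sin (t / 2)) ^ 8 = 2 ^ 16 / 2640 := by
  have h1 : ∀ t : ℝ, Real.sin t ^ 7 * (2 * Real.sin (t / 2)) ^ 8 =
      (fun u : ℝ => 2 ^ 16 * (u ^ 15 - 3 * u ^ 17 + 3 * u ^ 19 - u ^ 21)) ((fun t : ℝ => Real.sin (t / 2)) t) *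
        (Real.cos (t / 2) * (1 / 2)) := by
    intro t
    have h2 : Real.sin t = 2 * Real.sin (t / 2) * Real.cos (t / 2) := by
      rw [← Real.sin_two_mul]
      ring_nf
    have h3 : Real.cos (t / 2) ^ 2 = 1 - Real.sin (t / 2) ^ 2 := Real.cos_sq' _
    simp only [h2]
    have h4 : (2 * Real.sin (t / 2) * Real.cos (t / 2)) ^ 7 * (2 * Real.sin (t / 2)) ^ 8 =
        2 ^ 16 * (Real.sin (t / 2) ^ 15 * (Real.cos (t / 2) ^ 2) ^ 3) * (Real.cos (t / 2) * (1 / 2)) := by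
      ring
    rw [h4, h3]
    ring
  have h3 : ∀ t ∈ uIcc (0 : ℝ) π, HasDerivAt (fun t : ℝ => Real.sin (t / 2)) (Real.cos (t / 2) * (1 / 2)) t := by
    intro t _
    exact ((hasDerivAt_id t).div_const 2).sin
  have h6 : ∫ t in (0 : ℝ)..π, Real.sin t ^ 7 * (2 * Real.sin (t / 2)) ^ 8 =
      ∫ t in (0 : ℝ)..π, ((fun u : ℝ => 2 ^ 16 * (u ^ 15 - 3 * u ^ 17 + 3 * u ^ 19 - u ^ 21)) ∘
        (fun t : ℝ => Real.sin (t / 2))) t * (Real.cos (t / 2) * (1 / 2)) :=
    intervalIntegral.integral_congr fun t _ => h1 t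
  rw [h6, intervalIntegral.integral_comp_mul_deriv h3 (by fun_prop) (by fun_prop)]
  simp only [zero_div, Real.sin_zero, Real.sin_pi_div_two]
  have e : ∀ u : ℝ, HasDerivAt (fun u : ℝ => 2 ^ 16 * (u ^ 16 / 16 - 3 * (u ^ 18 / 18) + 3 * (u ^ 20 / 20) -
      u ^ 22 / 22)) (2 ^ 16 * (u ^ 15 - 3 * u ^ 17 + 3 * u ^ 19 - u ^ 21)) u := by
    intro u
    have e1 := (hasDerivAt_pow 16 u).div_const 16
    have e2 := ((hasDerivAt_pow 18 u).div_const 18).const_mul 3
    have e3 := ((hasDerivAt_pow 20 u).div_const 20).const_mul 3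
    have e4 := (hasDerivAt_pow 22 u).div_const 22
    have e5 := (((e1.sub e2).add e3).sub e4).const_mul ((2 : ℝ) ^ 16)
    refine (e5.congr_deriv ?_)
    push_cast
    ring
  rw [intervalIntegral.integral_eq_sub_of_hasDerivAt (fun u _ => e u)
    (Continuous.intervalIntegrable (by fun_prop) _ _)]
  norm_num

/-- the volume of the model of the Cayley plane -/
theorem modelVolume_seven : Blaschke.modelVolume 16 7 =
    ENNReal.ofReal (2 ^ 16 / 165) * volume (ball (0 : EuclideanSpace ℝ (Fin 16)) 1) := by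
  unfold Blaschke.modelVolume
  rw [show 16 - 1 - 7 = 8 by norm_num, mv7_integral]
  have h2 : ((16 : ℕ) : ℝ≥0∞) * volume (ball (0 : EuclideanSpace ℝ (Fin 16)) 1) *
      ENNReal.ofReal (2 ^ 16 / 2640) =
      (ENNReal.ofReal (2 ^ 16 / 2640) * ((16 : ℕ) : ℝ≥0∞)) *
        volume (ball (0 : EuclideanSpace ℝ (Fin 16)) 1) := by ring
  rw [h2]
  congr 1
  have h3 : ((16 : ℕ) : ℝ≥0∞) = ENNReal.ofReal 16 := by
    rw [← ENNReal.ofReal_natCast]
    push_cast
    rfl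
  rw [h3, ← ENNReal.ofReal_mul (by positivity)]
  congr 1
  norm_num

/-- the final arithmetic -/
theorem final_real7 {V : ℝ}
    (h : ((15).factorial : ℝ) * 16 * (volume (ball (0 : EuclideanSpace ℝ (Fin 16)) 1)).toReal * V /
      (2 * π) ^ 16 ≤ 78) :
    V ≤ 2 ^ 16 / 165 * (volume (ball (0 : EuclideanSpace ℝ (Fin 16)) 1)).toReal := by
  have hb : volume (ball (0 : EuclideanSpace ℝ (Fin 16)) 1) =
      ENNReal.ofReal (π ^ 8 / (8).factorial) := L4.ball_even 8 (by omega)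
  have h7 : (0 : ℝ) < π := Real.pi_pos
  rw [hb, ENNReal.toReal_ofReal (by positivity)] at h ⊢
  rw [div_le_iff₀ (by positivity)] at h
  have h1 : ((15).factorial : ℝ) = 1307674368000 := by norm_num [Nat.factorial]
  have h2 : ((8).factorial : ℝ) = 40320 := by norm_num [Nat.factorial]
  rw [h1, h2] at h
  rw [h2]
  have h3 : (0 : ℝ) < π ^ 8 := by positivity
  have h4 : π ^ 8 * (1307674368000 * 16 / 40320 * V) ≤ π ^ 8 * (78 * 2 ^ 16 * π ^ 8) := by
    have e : (2 * π) ^ 16 = 2 ^ 16 * π ^ 8 * π ^ 8 := by ring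
    rw [e] at h
    linarith
  have h5 := le_of_mul_le_mul_left h4 h3
  have h6 : 2 ^ 16 / 165 * (π ^ 8 / 40320) = (78 * 2 ^ 16 * π ^ 8) / (1307674368000 * 16 / 40320) := by
    ring_nf
  rw [h6, le_div_iff₀ (by norm_num)]
  linarith

/-- the final comparison -/
theorem final_ennreal7 {V : ℝ≥0∞} (hV : V ≠ ⊤)
    (h : ((15).factorial : ℝ) * 16 * (volume (ball (0 : EuclideanSpace ℝ (Fin 16)) 1)).toReal *
      V.toReal / (2 * π) ^ 16 ≤ 78) :
    V ≤ Blaschke.modelVolume 16 7 := by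
  have h1 := final_real7 h
  rw [modelVolume_seven]
  have h2 : volume (ball (0 : EuclideanSpace ℝ (Fin 16)) 1) ≠ ⊤ := measure_ball_lt_top.ne
  rw [← ENNReal.ofReal_toReal hV, ← ENNReal.ofReal_toReal h2, ← ENNReal.ofReal_mul (by positivity)]
  exact ENNReal.ofReal_le_ofReal h1

end Pool.Agent.Lib.MP_ccbbf6_gt.K7
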