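import Pool.Agent.Lib.MP_ccbbf6_gt.K7.RT

/-!
# `κ = 7`, block B4, file VT1: the correction of a vertex with fixed neighbours, metric part (helper25, skeleton)

`Cc 𝒜 t a b x` = midpoint of the points at fraction `t/2` of the sides `x a` and `x b`; `ee2 a b x = d(a,x)^2 + d(x,b)^2`.
PROOFS. Write `l0 = dist a x`, `l1 = dist x b`, `p = rat x a (t/2)`, `q = rat x b (t/2)`.
(1) `Cc_left` : `dist a p = (1 - t/2) l0` (`dist_rat_right`, symmetry), `dist p q ≤ dist p x + dist x q = (t/2)(l0 + l1)`, `dist p C = dist p q / 2` (`dist_rat`): `dist a C ≤ (1 - t/4) l0 + (t/4) l1`. `Cc_right`: the same with `dist C q = dist p q / 2` (`dist_rat_right`).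
(2) `Cc_le` : with `s = t/4 ∈ [0, 1/4]`: `((1-s) l0 + s l1)^2 + (s l0 + (1-s) l1)^2 = l0^2 + l1^2 - 2 s (1-s) (l0 - l1)^2` (ring; `nlinarith` or explicit).
(3) `Cc_eq` (`t = 1`): equality in (2) (with `s = 1/4`) gives `l0 = l1 = l` and `dist a C = l` (if `dist a C < l` the sum is smaller). If `l = 0`: `a = x = b`, `rat_self`. Otherwise `l = dist a C ≤ l/2 + dist p q/2 ≤ l/2 + l/2`, so `dist p q = l = dist p x + dist x q`: `straight` (RT; `y = x`, `x = a`, `z = b`) gives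
    `c : Gs M`, `c 0 = x`, `c (-l) = a`, `c l = b`. If `2 l < π`: `rat_geo` (`shift`): `rat a b (1/2) = c 0 = x`. If `2 l = π` then `dist a b = π` (isometry), excluded. If `2 l > π` (`l < π`): `dist a b = 2 π - 2 l` (`gs_dist_long` for `shift (-l) c`), so the perimeter is `2 π`, excluded.
(4) `ee2_ge` : `l0 + l1 ≥ d` so `2 (l0^2 + l1^2) ≥ (l0 + l1)^2 ≥ d^2`. `ee2_eq`: if `ee2 = d^2/2` then `l0 = l1 = d/2`: `rat_unique`.
(5) `perim` : `(l0 + l1)^2 ≤ 2 ee2 ≤ 2 π^2 + 2 η - d^2 < (2 π - d)^2` iff `η < (π - d)^2`.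
-/

set_option autoImplicit false

set_option linter.unusedSectionVars false

open Set Filter Topology Metric Real Module

open scoped ContDiff RealInnerProductSpace

noncomputable section

namespace Pool.Agent.Lib.MP_ccbbf6_gt.K7

open Geo L4 L4.ORI L5

variable {n : ℕ} {M : Type*} [MetricSpace M]

/-- the energy of the path `a x b` -/
def ee2 (a b x : M) : ℝ := dist a x ^ 2 + dist x b ^ 2

theorem ee2_ge (a b x : M) : dist a b ^ 2 / 2 ≤ ee2 a b x := by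
  have h1 := dist_triangle a x b
  have h2 := @dist_nonneg _ _ a b
  have h3 : dist a b ^ 2 ≤ (dist a x + dist x b) ^ 2 := pow_le_pow_left₀ h2 h1 2
  have h4 := sq_nonneg (dist a x - dist x b)
  unfold ee2
  nlinarith

/-- the perimeter is less than `2 π` -/
theorem perim {a b x : M} {η : ℝ} (h1 : dist a b ≤ π) (hη : η < (π - dist a b) ^ 2) (he : ee2 a b x ≤ π ^ 2 + η - dist a b ^ 2 / 2) :
    dist a x + dist x b + dist a b < 2 * π := by
  unfold ee2 at he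
  have h3 := sq_nonneg (dist a x - dist x b)
  have h4 : (dist a x + dist x b) ^ 2 < (2 * π - dist a b) ^ 2 := by nlinarith
  have h5 : 0 ≤ 2 * π - dist a b := by linarith [Real.pi_pos]
  have h6 := lt_of_pow_lt_pow_left₀ 2 h5 h4
  linarith

variable [CompactSpace M] (𝒜 : SDist n M)

/-- correction of `x` with fixed neighbours `a`, `b` -/
def Cc (t : ℝ) (a b x : M) : M := rat 𝒜 (rat 𝒜 x a (t / 2)) (rat 𝒜 x b (t / 2)) (1 / 2)

variable {𝒜}

theorem ee2_eq (hB : Bl M) {a b x : M} (hd : dist a b < π) (h : ee2 a b x ≤ dist a b ^ 2 / 2) : x = rat 𝒜 a b (1 / 2) := by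
  unfold ee2 at h
  have h1 := dist_triangle a x b
  have h2 := @dist_nonneg _ _ a b
  have h3 : dist a b ^ 2 ≤ (dist a x + dist x b) ^ 2 := pow_le_pow_left₀ h2 h1 2
  have h4 : (dist a x - dist x b) ^ 2 ≤ 0 := by nlinarith
  have h5 : dist a x - dist x b = 0 := by
    have h6 := le_antisymm h4 (sq_nonneg _)
    exact pow_eq_zero_iff (two_ne_zero) |>.1 h6
  have h7 : dist a x = dist x b := by linarith
  rw [h7] at h h1
  have h8 : (2 * dist x b) ^ 2 ≤ dist a b ^ 2 := by linarith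
  have h9 : 2 * dist x b ≤ dist a b := le_of_sq_le_sq h8 h2
  exact rat_unique hB (by norm_num) (by norm_num) hd (by linarith) (by linarith)

theorem Cc_zero (hB : Bl M) (a b x : M) : Cc 𝒜 0 a b x = x := by
  unfold Cc
  rw [zero_div, rat_zero hB, rat_zero hB, rat_self hB]

theorem Cc_self (hB : Bl M) (t : ℝ) (a : M) : Cc 𝒜 t a a a = a := by
  unfold Cc
  rw [rat_self hB, rat_self hB]

/-- the distances of the two inner points -/
theorem Cc_aux (hB : Bl M) {t : ℝ} (h0 : 0 ≤ t) (h1 : t ≤ 1) (a b x : M) :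
    dist a (rat 𝒜 x a (t / 2)) = (1 - t / 2) * dist a x ∧ dist (rat 𝒜 x a (t / 2)) x = t / 2 * dist a x ∧
    dist x (rat 𝒜 x b (t / 2)) = t / 2 * dist x b ∧ dist (rat 𝒜 x b (t / 2)) b = (1 - t / 2) * dist x b ∧
    dist (rat 𝒜 x a (t / 2)) (Cc 𝒜 t a b x) = 1 / 2 * dist (rat 𝒜 x a (t / 2)) (rat 𝒜 x b (t / 2)) ∧
    dist (Cc 𝒜 t a b x) (rat 𝒜 x b (t / 2)) = 1 / 2 * dist (rat 𝒜 x a (t / 2)) (rat 𝒜 x b (t / 2)) := by
  have g0 : 0 ≤ t / 2 := by linarith
  have g1 : t / 2 ≤ 1 := by linarith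
  refine ⟨?_, ?_, ?_, ?_, ?_, ?_⟩
  · rw [dist_comm, dist_rat_right hB x a g0 g1, dist_comm x a]
  · rw [dist_comm, dist_rat hB x a g0 g1, dist_comm x a]
  · exact dist_rat hB x b g0 g1
  · exact dist_rat_right hB x b g0 g1
  · exact dist_rat hB _ _ (by norm_num) (by norm_num)
  · have h := dist_rat_right (𝒜 := 𝒜) hB (rat 𝒜 x a (t / 2)) (rat 𝒜 x b (t / 2)) (t := 1 / 2) (by norm_num) (by norm_num)
    rw [show (1 : ℝ) - 1 / 2 = 1 / 2 by norm_num] at h
    exact h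

theorem Cc_left (hB : Bl M) {t : ℝ} (h0 : 0 ≤ t) (h1 : t ≤ 1) (a b x : M) :
    dist a (Cc 𝒜 t a b x) ≤ (1 - t / 4) * dist a x + t / 4 * dist x b := by
  obtain ⟨k1, k2, k3, k4, k5, k6⟩ := Cc_aux (𝒜 := 𝒜) hB h0 h1 a b x
  have q1 := dist_triangle a (rat 𝒜 x a (t / 2)) (Cc 𝒜 t a b x)
  have q2 := dist_triangle (rat 𝒜 x a (t / 2)) x (rat 𝒜 x b (t / 2))
  rw [k1, k5] at q1
  rw [k2, k3] at q2
  linarith

theorem Cc_right (hB : Bl M) {t : ℝ} (h0 : 0 ≤ t) (h1 : t ≤ 1) (a b x : M) :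
    dist (Cc 𝒜 t a b x) b ≤ t / 4 * dist a x + (1 - t / 4) * dist x b := by
  obtain ⟨k1, k2, k3, k4, k5, k6⟩ := Cc_aux (𝒜 := 𝒜) hB h0 h1 a b x
  have q1 := dist_triangle (Cc 𝒜 t a b x) (rat 𝒜 x b (t / 2)) b
  have q2 := dist_triangle (rat 𝒜 x a (t / 2)) x (rat 𝒜 x b (t / 2))
  rw [k4, k6] at q1
  rw [k2, k3] at q2
  linarith

theorem Cc_alg {s l0 l1 A B : ℝ} (hA0 : 0 ≤ A) (hB0 : 0 ≤ B) (hA : A ≤ (1 - s) * l0 + s * l1) (hB : B ≤ s * l0 + (1 - s) * l1) :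
    A ^ 2 + B ^ 2 ≤ l0 ^ 2 + l1 ^ 2 - 2 * (s * (1 - s)) * (l0 - l1) ^ 2 := by
  have h1 : A ^ 2 ≤ ((1 - s) * l0 + s * l1) ^ 2 := pow_le_pow_left₀ hA0 hA 2
  have h2 : B ^ 2 ≤ (s * l0 + (1 - s) * l1) ^ 2 := pow_le_pow_left₀ hB0 hB 2
  have h3 : ((1 - s) * l0 + s * l1) ^ 2 + (s * l0 + (1 - s) * l1) ^ 2 =
      l0 ^ 2 + l1 ^ 2 - 2 * (s * (1 - s)) * (l0 - l1) ^ 2 := by ring
  linarith

theorem Cc_le (hB : Bl M) {t : ℝ} (h0 : 0 ≤ t) (h1 : t ≤ 1) (a b x : M) : ee2 a b (Cc 𝒜 t a b x) ≤ ee2 a b x := by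
  have g0 : 0 ≤ t / 4 := by linarith
  have g1 : t / 4 ≤ 1 := by linarith
  have h := Cc_alg dist_nonneg dist_nonneg
    (Cc_left (𝒜 := 𝒜) hB h0 h1 a b x) (Cc_right (𝒜 := 𝒜) hB h0 h1 a b x)
  have h2 : 0 ≤ 2 * (t / 4 * (1 - t / 4)) * (dist a x - dist x b) ^ 2 :=
    mul_nonneg (mul_nonneg (by norm_num) (mul_nonneg g0 (by linarith))) (sq_nonneg _)
  unfold ee2
  linarith

/-- **rigidity** -/
theorem Cc_eq (hB : Bl M) {a b x : M} (ha : dist a x < π) (hb : dist x b < π) (hd : dist a b < π)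
    (hp : dist a x + dist x b + dist a b < 2 * π) (h : ee2 a b (Cc 𝒜 1 a b x) = ee2 a b x) : x = rat 𝒜 a b (1 / 2) := by
  have h01 : (0 : ℝ) ≤ 1 := zero_le_one
  have h11 : (1 : ℝ) ≤ 1 := le_refl 1
  obtain ⟨k1, k2, k3, k4, k5, k6⟩ := Cc_aux (𝒜 := 𝒜) hB h01 h11 a b x
  have hL := Cc_left (𝒜 := 𝒜) hB h01 h11 a b x
  have hR := Cc_right (𝒜 := 𝒜) hB h01 h11 a b x
  have hA := Cc_alg (s := 1 / 4) (dist_nonneg (x := a) (y := Cc 𝒜 1 a b x)) (dist_nonneg (x := Cc 𝒜 1 a b x) (y := b)) hL hR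
  unfold ee2 at h
  have e1 : dist x b = dist a x := by
    have h2 : (dist a x - dist x b) ^ 2 ≤ 0 := by nlinarith
    have h3 := pow_eq_zero_iff (two_ne_zero) |>.1 (le_antisymm h2 (sq_nonneg _))
    linarith
  have e2 : dist a (Cc 𝒜 1 a b x) = dist a x := by
    rw [e1] at hL hR h
    have l1 : dist a (Cc 𝒜 1 a b x) ≤ dist a x := by linarith
    have l2 : dist (Cc 𝒜 1 a b x) b ≤ dist a x := by linarith
    have l3 : dist (Cc 𝒜 1 a b x) b ^ 2 ≤ dist a x ^ 2 := pow_le_pow_left₀ dist_nonneg l2 2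
    have l4 : dist a x ^ 2 ≤ dist a (Cc 𝒜 1 a b x) ^ 2 := by linarith
    exact le_antisymm l1 (pow_le_pow_iff_left₀ dist_nonneg dist_nonneg two_ne_zero |>.1 l4)
  rcases eq_or_lt_of_le (dist_nonneg (x := a) (y := x)) with h0 | hpos
  · have ea : a = x := dist_eq_zero.1 h0.symm
    have eb : x = b := dist_eq_zero.1 (e1.trans h0.symm)
    rw [ea, ← eb, rat_self hB]
  · have q1 := dist_triangle a (rat 𝒜 x a (1 / 2)) (Cc 𝒜 1 a b x)
    have q2 := dist_triangle (rat 𝒜 x a (1 / 2)) x (rat 𝒜 x b (1 / 2))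
    rw [k1, k5, e2] at q1
    rw [k2, k3, e1] at q2
    have e3 : dist (rat 𝒜 x a (1 / 2)) (rat 𝒜 x b (1 / 2)) = dist a x := by linarith
    obtain ⟨c, c0, c1, c2⟩ := straight 𝒜 hB (x := a) (y := x) (z := b) (p := rat 𝒜 x a (1 / 2)) (q := rat 𝒜 x b (1 / 2))
      (by rw [k1, k2]; ring) (by rw [k3, k4]; ring) ha hb
      (fun hh => by rw [← dist_eq_zero, k2] at hh; linarith)
      (fun hh => by rw [eq_comm, ← dist_eq_zero, k3, e1] at hh; linarith)
      (by rw [k2, k3, e3, e1]; ring) (by rw [e3]; exact ha)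
    rw [e1] at c2 hp
    rcases lt_trichotomy (2 * dist a x) π with hlt | heq | hgt
    · have hr := rat_geo (𝒜 := 𝒜) hB c (a := -dist a x) (b := dist a x)
        (by rw [sub_neg_eq_add, abs_of_nonneg (by linarith)]; linarith) (1 / 2)
      rw [c1, c2, show -dist a x + 1 / 2 * (dist a x - -dist a x) = 0 by ring, c0] at hr
      exact hr.symm
    · exfalso
      have hr := gs_dist' c (s := -dist a x) (t := dist a x)
        (by rw [abs_sub_comm, sub_neg_eq_add, abs_of_nonneg (by linarith)]; linarith)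
      rw [c1, c2, abs_sub_comm, sub_neg_eq_add, abs_of_nonneg (by linarith)] at hr
      linarith
    · exfalso
      have hr := gs_dist_long 𝒜 hB (shift (-dist a x) c) (s := 2 * dist a x) hgt.le (by linarith)
      have s1 : (shift (-dist a x) c).1 0 = a := by
        show c.1 (0 + -dist a x) = a
        rw [zero_add, c1]
      have s2 : (shift (-dist a x) c).1 (2 * dist a x) = b := by
        show c.1 (2 * dist a x + -dist a x) = b
        rw [show 2 * dist a x + -dist a x = dist a x by ring, c2]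
      rw [s1, s2] at hr
      linarith

end Pool.Agent.Lib.MP_ccbbf6_gt.K7
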