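import Pool.Agent.Lib.MP_ccbbf6_gt.K7.BK1
import Pool.Agent.Lib.MP_ccbbf6_gt.K7.VT1

/-!
# `κ = 7`, block B4, file VT2: finitely many corrections lead near the midpoint (helper25, skeleton)

PROOF of `iter_Cc`. `T = M × M × M`, `K = {(a, b, x) | dist a b ≤ π - ε, dist a x ≤ π - δ, dist x b ≤ π - δ, ee2 a b x ≤ π^2 + η - dist a b^2 / 2}` closed, so compact. `f (a, b, x) = (a, b, Cc 1 a b x)` maps `K` to `K` (`Cc_left`, `Cc_right`, `Cc_le`), is continuous on `K`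
(`tendsto_rat` twice; the distance of the two inner points is at most `(l0 + l1)/2 ≤ π - δ`). `E = ee2 a b x - dist a b^2/2 ≥ 0` (`ee2_ge`), `E ∘ f ≤ E`; if `E (f z) = E z` then `x = mid a b` (`Cc_eq`, `perim` with `η < ε^2 ≤ (π - dist a b)^2`) and then `E z = 0`
(`dist_rat`, `dist_rat_right`), so `exists_iter` holds with every `a0 > 0`.
`K' = {z ∈ K | s0 ≤ dist x (mid a b)}` is compact (`mid` continuous on `K`: `tendsto_rat`), `E > 0` on it (`ee2_eq`), so `E ≥ a0 > 0` there (empty case trivial). Take `N` from `exists_iter` for `a0`: `f^[N] z ∈ K` with `E < a0` is not in `K'`. Finally `f^[N] (a, b, x) = (a, b, (Cc 1 a b)^[N] x)` by induction.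
-/

set_option autoImplicit false
set_option linter.unusedSectionVars false

open Set Filter Topology Metric Real Module
open scoped ContDiff RealInnerProductSpace

noncomputable section

namespace Pool.Agent.Lib.MP_ccbbf6_gt.K7

open Geo L4 L4.ORI L5

variable {n : ℕ} {M : Type*} [MetricSpace M] [CompactSpace M] {δ ε η s0 : ℝ}

private theorem VT2_mid (𝒜 : SDist n M) (hB : Bl M) {K : Set (M × M × M)} (h : ∀ z ∈ K, dist z.1 z.2.1 < π) :
    ContinuousOn (fun z : M × M × M => rat 𝒜 z.1 z.2.1 (1 / 2)) K := by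
  intro z hz
  refine tendsto_rat 𝒜 hB (t := fun _ => 1 / 2) ?_ ?_ tendsto_const_nhds (h z hz)
  · exact (continuous_fst.tendsto z).mono_left nhdsWithin_le_nhds
  · exact ((continuous_fst.comp continuous_snd).tendsto z).mono_left nhdsWithin_le_nhds

private theorem VT2_Cc (𝒜 : SDist n M) (hB : Bl M) (hδ : 0 < δ) {K : Set (M × M × M)}
    (h1 : ∀ z ∈ K, dist z.1 z.2.2 ≤ π - δ) (h2 : ∀ z ∈ K, dist z.2.2 z.2.1 ≤ π - δ) :
    ContinuousOn (fun z : M × M × M => Cc 𝒜 1 z.1 z.2.1 z.2.2) K := by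
  intro z hz
  have a1 := h1 z hz
  have a2 := h2 z hz
  have c1 : Tendsto (fun z : M × M × M => z.1) (𝓝[K] z) (𝓝 z.1) :=
    (continuous_fst.tendsto z).mono_left nhdsWithin_le_nhds
  have c2 : Tendsto (fun z : M × M × M => z.2.1) (𝓝[K] z) (𝓝 z.2.1) :=
    ((continuous_fst.comp continuous_snd).tendsto z).mono_left nhdsWithin_le_nhds
  have c3 : Tendsto (fun z : M × M × M => z.2.2) (𝓝[K] z) (𝓝 z.2.2) :=
    ((continuous_snd.comp continuous_snd).tendsto z).mono_left nhdsWithin_le_nhds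
  have b1 := tendsto_rat 𝒜 hB (t := fun _ => (1 : ℝ) / 2) c3 c1 tendsto_const_nhds (by rw [dist_comm]; linarith)
  have b2 := tendsto_rat 𝒜 hB (t := fun _ => (1 : ℝ) / 2) c3 c2 tendsto_const_nhds (by linarith)
  refine tendsto_rat 𝒜 hB (t := fun _ => (1 : ℝ) / 2) b1 b2 tendsto_const_nhds ?_
  have e1 := dist_rat (𝒜 := 𝒜) hB z.2.2 z.1 (t := 1 / 2) (by norm_num) (by norm_num)
  have e2 := dist_rat (𝒜 := 𝒜) hB z.2.2 z.2.1 (t := 1 / 2) (by norm_num) (by norm_num)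
  have e3 := dist_triangle_left (rat 𝒜 z.2.2 z.1 (1 / 2)) (rat 𝒜 z.2.2 z.2.1 (1 / 2)) z.2.2
  rw [dist_comm z.2.2 z.1] at e1
  linarith

/-- **finitely many corrections lead near the midpoint** -/
theorem iter_Cc (𝒜 : SDist n M) (hB : Bl M) (hδ : 0 < δ) (hε : 0 < ε) (hη : η < ε ^ 2) (hs : 0 < s0) : ∃ N : ℕ, ∀ a b x : M,
    dist a b ≤ π - ε → dist a x ≤ π - δ → dist x b ≤ π - δ → ee2 a b x ≤ π ^ 2 + η - dist a b ^ 2 / 2 →
      dist ((Cc 𝒜 1 a b)^[N] x) (rat 𝒜 a b (1 / 2)) < s0 := by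
  obtain ⟨K, hKd⟩ : ∃ K : Set (M × M × M), ∀ z, z ∈ K ↔ dist z.1 z.2.1 ≤ π - ε ∧ dist z.1 z.2.2 ≤ π - δ ∧
      dist z.2.2 z.2.1 ≤ π - δ ∧ ee2 z.1 z.2.1 z.2.2 ≤ π ^ 2 + η - dist z.1 z.2.1 ^ 2 / 2 :=
    ⟨{z | dist z.1 z.2.1 ≤ π - ε ∧ dist z.1 z.2.2 ≤ π - δ ∧ dist z.2.2 z.2.1 ≤ π - δ ∧
      ee2 z.1 z.2.1 z.2.2 ≤ π ^ 2 + η - dist z.1 z.2.1 ^ 2 / 2}, fun _ => Iff.rfl⟩
  have d12 : Continuous fun z : M × M × M => dist z.1 z.2.1 := by fun_prop
  have d13 : Continuous fun z : M × M × M => dist z.1 z.2.2 := by fun_prop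
  have d32 : Continuous fun z : M × M × M => dist z.2.2 z.2.1 := by fun_prop
  have dee : Continuous fun z : M × M × M => ee2 z.1 z.2.1 z.2.2 := by
    unfold ee2
    fun_prop
  have hKc : IsClosed K := by
    have e : K = {z | dist z.1 z.2.1 ≤ π - ε} ∩ ({z | dist z.1 z.2.2 ≤ π - δ} ∩ ({z | dist z.2.2 z.2.1 ≤ π - δ} ∩
        {z | ee2 z.1 z.2.1 z.2.2 ≤ π ^ 2 + η - dist z.1 z.2.1 ^ 2 / 2})) := by
      ext z
      rw [hKd]
      rfl
    rw [e]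
    refine (isClosed_le d12 continuous_const).inter ((isClosed_le d13 continuous_const).inter
      ((isClosed_le d32 continuous_const).inter (isClosed_le dee ?_)))
    exact continuous_const.sub ((d12.pow 2).div_const 2)
  have hK : IsCompact K := hKc.isCompact
  have hlt : ∀ z ∈ K, dist z.1 z.2.1 < π := fun z hz => by linarith [((hKd z).1 hz).1]
  obtain ⟨f, hf⟩ : ∃ f : M × M × M → M × M × M, ∀ z, f z = (z.1, z.2.1, Cc 𝒜 1 z.1 z.2.1 z.2.2) := ⟨_, fun _ => rfl⟩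
  obtain ⟨E, hE⟩ : ∃ E : M × M × M → ℝ, ∀ z, E z = ee2 z.1 z.2.1 z.2.2 - dist z.1 z.2.1 ^ 2 / 2 := ⟨_, fun _ => rfl⟩
  have hEc : Continuous E := by
    rw [show E = fun z => ee2 z.1 z.2.1 z.2.2 - dist z.1 z.2.1 ^ 2 / 2 from funext hE]
    exact dee.sub ((d12.pow 2).div_const 2)
  have hfc : ContinuousOn f K := by
    rw [show f = fun z => (z.1, z.2.1, Cc 𝒜 1 z.1 z.2.1 z.2.2) from funext hf]
    exact continuous_fst.continuousOn.prodMk ((continuous_fst.comp continuous_snd).continuousOn.prodMk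
      (VT2_Cc 𝒜 hB hδ (fun z hz => ((hKd z).1 hz).2.1) fun z hz => ((hKd z).1 hz).2.2.1))
  have hm : ∀ z ∈ K, f z ∈ K := by
    intro z hz
    obtain ⟨k1, k2, k3, k4⟩ := (hKd z).1 hz
    have l1 := Cc_left (𝒜 := 𝒜) hB zero_le_one le_rfl z.1 z.2.1 z.2.2
    have l2 := Cc_right (𝒜 := 𝒜) hB zero_le_one le_rfl z.1 z.2.1 z.2.2
    have l3 := Cc_le (𝒜 := 𝒜) hB zero_le_one le_rfl z.1 z.2.1 z.2.2
    rw [hKd, hf]
    exact ⟨k1, by linarith, by linarith, l3.trans k4⟩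
  have hE0 : ∀ z ∈ K, 0 ≤ E z := fun z _ => by
    rw [hE]
    have := ee2_ge z.1 z.2.1 z.2.2
    linarith
  have hE1 : ∀ z ∈ K, E (f z) ≤ E z := fun z _ => by
    rw [hE, hE, hf]
    have l3 := Cc_le (𝒜 := 𝒜) hB zero_le_one le_rfl z.1 z.2.1 z.2.2
    linarith
  have hmid0 : ∀ z ∈ K, z.2.2 = rat 𝒜 z.1 z.2.1 (1 / 2) → E z = 0 := by
    intro z _ hz
    have e1 := dist_rat (𝒜 := 𝒜) hB z.1 z.2.1 (t := 1 / 2) (by norm_num) (by norm_num)
    have e2 := dist_rat_right (𝒜 := 𝒜) hB z.1 z.2.1 (t := 1 / 2) (by norm_num) (by norm_num)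
    rw [hE]
    unfold ee2
    rw [hz, e1, e2]
    ring
  have hE2 : ∀ a0 : ℝ, 0 < a0 → ∀ z ∈ K, a0 ≤ E z → E (f z) < E z := by
    intro a0 ha0 z hz h3
    refine lt_of_le_of_ne (hE1 z hz) fun h4 => ?_
    obtain ⟨k1, k2, k3, k4⟩ := (hKd z).1 hz
    rw [hE, hE, hf] at h4
    have h5 : ee2 z.1 z.2.1 (Cc 𝒜 1 z.1 z.2.1 z.2.2) = ee2 z.1 z.2.1 z.2.2 := by linarith
    have h6 : η < (π - dist z.1 z.2.1) ^ 2 := by
      refine hη.trans_le ?_
      exact pow_le_pow_left₀ hε.le (by linarith) 2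
    have h7 := perim (hlt z hz).le h6 k4
    have h8 := Cc_eq (𝒜 := 𝒜) hB (show dist z.1 z.2.2 < π by linarith) (show dist z.2.2 z.2.1 < π by linarith)
      (hlt z hz) h7 h5
    have h9 := hmid0 z hz h8
    linarith
  have hg : ContinuousOn (fun z : M × M × M => dist z.2.2 (rat 𝒜 z.1 z.2.1 (1 / 2))) K :=
    continuous_dist.comp_continuousOn ((continuous_snd.comp continuous_snd).continuousOn.prodMk (VT2_mid 𝒜 hB hlt))
  have hK' : IsCompact (K ∩ (fun z : M × M × M => dist z.2.2 (rat 𝒜 z.1 z.2.1 (1 / 2))) ⁻¹' Set.Ici s0) :=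
    (hg.preimage_isClosed_of_isClosed hKc isClosed_Ici).isCompact
  obtain ⟨a0, ha0, ha⟩ : ∃ a0 : ℝ, 0 < a0 ∧
      ∀ z ∈ K ∩ (fun z : M × M × M => dist z.2.2 (rat 𝒜 z.1 z.2.1 (1 / 2))) ⁻¹' Set.Ici s0, a0 ≤ E z := by
    rcases (K ∩ (fun z : M × M × M => dist z.2.2 (rat 𝒜 z.1 z.2.1 (1 / 2))) ⁻¹' Set.Ici s0).eq_empty_or_nonempty
      with h3 | h3
    · refine ⟨1, one_pos, fun z hz => ?_⟩
      rw [h3] at hz
      exact hz.elim
    · obtain ⟨z0, hz0, hmin⟩ := hK'.exists_isMinOn h3 hEc.continuousOn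
      refine ⟨E z0, ?_, fun z hz => hmin hz⟩
      by_contra h4
      push Not at h4
      rw [hE] at h4
      have h5 := ee2_eq (𝒜 := 𝒜) hB (a := z0.1) (b := z0.2.1) (x := z0.2.2) (hlt z0 hz0.1) (by linarith)
      have h6 : s0 ≤ dist z0.2.2 (rat 𝒜 z0.1 z0.2.1 (1 / 2)) := hz0.2
      rw [← h5, dist_self] at h6
      linarith
  obtain ⟨N, hN⟩ := exists_iter hK hm hfc hEc.continuousOn hE0 hE1 (hE2 a0 ha0)
  refine ⟨N, fun a b x h1 h2 h3 h4 => ?_⟩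
  have hz : (a, b, x) ∈ K := (hKd _).2 ⟨h1, h2, h3, h4⟩
  have hit : ∀ j : ℕ, f^[j] (a, b, x) = (a, b, (Cc 𝒜 1 a b)^[j] x) ∧ f^[j] (a, b, x) ∈ K := by
    intro j
    induction j with
    | zero => exact ⟨rfl, hz⟩
    | succ j ih =>
      obtain ⟨i1, i2⟩ := ih
      rw [Function.iterate_succ_apply', Function.iterate_succ_apply']
      refine ⟨?_, hm _ i2⟩
      rw [i1, hf]
  obtain ⟨i1, i2⟩ := hit N
  by_contra h5
  push Not at h5
  have h6 := ha (f^[N] (a, b, x)) ⟨i2, by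
    rw [i1]
    exact h5⟩
  have h7 := hN _ hz
  linarith

end Pool.Agent.Lib.MP_ccbbf6_gt.K7
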