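import Pool.Agent.Lib.MP_ccbbf6_gt.K7.BK2
import Pool.Agent.Lib.MP_ccbbf6_gt.K7.VT2

/-!
# `κ = 7`, block B4, file VX0: on sets of small 4-gons with `d(x0, x2) < π - ε` the identity is homotopic to `(x0, mid, x2, mid)` (helper25, skeleton)

`ctt 𝒜 t x` = `x` with `x 1`, `x 3` replaced by `Cc t (x 0) (x 2) (x i)`.
PROOFS.
(1) `ctt_side`, `ctt_en` : the four sides are `dist (x 0) (C 1)`, `dist (C 1) (x 2)`, `dist (x 2) (C 3)`, `dist (C 3) (x 0)` (`dist_comm` for the last two): `Cc_left`, `Cc_right` (`≤ π - δ` as a convex combination), `Cc_le`; `en_eq : en x = ee2 (x 0) (x 2) (x 1) + ee2 (x 0) (x 2) (x 3)` (`Fin.sum_univ_four`-style: the index type is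
    `ZMod 4 = Fin 4` by `rfl`; `show ∑ i : Fin 4, _ = _` then `Fin.sum_univ_four`; `dist_comm`).
(2) `ctt_iter` : `((ctt 1)^[N] x) i = (Cc 1 (x 0) (x 2))^[N] (x i)` for `i = 1, 3` and `x i` for `i = 0, 2`.
(3) `near_mid` : for small 4-gons (`en x < π^2 + η`) with `d = dist (x 0) (x 2) ≤ π - ε`, `η < ε^2`: each triangle satisfies the hypothesis of `iter_Cc`: `ee2 .. (x 1) = en x - ee2 .. (x 3) ≤ π^2 + η - d^2/2` (`ee2_ge`).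
(4) `mdt_side`, `mdt_en` : `mdt s x` replaces `x i` (`i = 1, 3`) by `rat (x i) (mid) s`; if `dist (x i) mid ≤ ε / 2` then (`dist_rat`: `dist (x i) (rat ..) ≤ dist (x i) mid`, `dist (rat ..) mid = (1 - s) dist (x i) mid ≤ ε/2`) the sides are at most `d/2 + ε/2 ≤ π/2`, so `en ≤ 4 (π/2)^2 = π^2`, and `π/2 ≤ π - δ`.
(5) smoothness of the homotopies: every component by `smAt_rat` (`dist < π`), `fin_cases`/`by_cases` on `i`.
-/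

set_option autoImplicit false

set_option maxSynthPendingDepth 3

set_option linter.unusedSectionVars false

open Set Filter Topology Metric Real Module

open scoped ContDiff RealInnerProductSpace

noncomputable section

namespace Pool.Agent.Lib.MP_ccbbf6_gt.K7

open Geo L4 L4.ORI L4.FR L5

section metric

variable {n : ℕ} {M : Type*} [MetricSpace M] {δ ε η : ℝ}

theorem all4_vx {P : ZMod 4 → Prop} (h0 : P 0) (h1 : P 1) (h2 : P 2) (h3 : P 3) (i : ZMod 4) : P i := by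
  have h : ∀ i : ZMod 4, i = 0 ∨ i = 1 ∨ i = 2 ∨ i = 3 := by decide
  rcases h i with h | h | h | h
  · exact h ▸ h0
  · exact h ▸ h1
  · exact h ▸ h2
  · exact h ▸ h3

theorem sum4_vx (f : ZMod 4 → ℝ) : ∑ i, f i = f 0 + f 1 + f 2 + f 3 := by
  have h := Fin.sum_univ_four (fun i : Fin 4 => (show Fin 4 → ℝ from f) i)
  exact h

theorem en_eq (x : ZMod 4 → M) : en x = ee2 (x 0) (x 2) (x 1) + ee2 (x 0) (x 2) (x 3) := by
  unfold en ee2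
  rw [sum4_vx]
  have e1 : (0 : ZMod 4) + 1 = 1 := by decide
  have e2 : (1 : ZMod 4) + 1 = 2 := by decide
  have e3 : (2 : ZMod 4) + 1 = 3 := by decide
  have e4 : (3 : ZMod 4) + 1 = 0 := by decide
  rw [e1, e2, e3, e4, dist_comm (x 2) (x 3), dist_comm (x 3) (x 0)]
  ring

variable [CompactSpace M] (𝒜 : SDist n M)

/-- correction of the vertices `1`, `3` -/
def ctt (t : ℝ) (x : ZMod 4 → M) (i : ZMod 4) : M := if i = 0 ∨ i = 2 then x i else Cc 𝒜 t (x 0) (x 2) (x i)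

/-- the vertices `1`, `3` move to the midpoint of `x 0`, `x 2` -/
def mdt (s : ℝ) (x : ZMod 4 → M) (i : ZMod 4) : M :=
  if i = 0 ∨ i = 2 then x i else rat 𝒜 (x i) (rat 𝒜 (x 0) (x 2) (1 / 2)) s

variable {𝒜}

theorem ctt_0 (t : ℝ) (x : ZMod 4 → M) : ctt 𝒜 t x 0 = x 0 := if_pos (Or.inl rfl)

theorem ctt_2 (t : ℝ) (x : ZMod 4 → M) : ctt 𝒜 t x 2 = x 2 := if_pos (Or.inr rfl)

theorem ctt_1 (t : ℝ) (x : ZMod 4 → M) : ctt 𝒜 t x 1 = Cc 𝒜 t (x 0) (x 2) (x 1) := if_neg (by decide)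

theorem ctt_3 (t : ℝ) (x : ZMod 4 → M) : ctt 𝒜 t x 3 = Cc 𝒜 t (x 0) (x 2) (x 3) := if_neg (by decide)

theorem mdt_0 (t : ℝ) (x : ZMod 4 → M) : mdt 𝒜 t x 0 = x 0 := if_pos (Or.inl rfl)

theorem mdt_2 (t : ℝ) (x : ZMod 4 → M) : mdt 𝒜 t x 2 = x 2 := if_pos (Or.inr rfl)

theorem mdt_1 (t : ℝ) (x : ZMod 4 → M) : mdt 𝒜 t x 1 = rat 𝒜 (x 1) (rat 𝒜 (x 0) (x 2) (1 / 2)) t := if_neg (by decide)

theorem mdt_3 (t : ℝ) (x : ZMod 4 → M) : mdt 𝒜 t x 3 = rat 𝒜 (x 3) (rat 𝒜 (x 0) (x 2) (1 / 2)) t := if_neg (by decide)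

theorem ctt_side (hB : Bl M) {t : ℝ} (h0 : 0 ≤ t) (h1 : t ≤ 1) {x : ZMod 4 → M} (hx : ∀ i, dist (x i) (x (i + 1)) ≤ π - δ)
    (i : ZMod 4) : dist (ctt 𝒜 t x i) (ctt 𝒜 t x (i + 1)) ≤ π - δ := by
  have e1 : (0 : ZMod 4) + 1 = 1 := by decide
  have e2 : (1 : ZMod 4) + 1 = 2 := by decide
  have e3 : (2 : ZMod 4) + 1 = 3 := by decide
  have e4 : (3 : ZMod 4) + 1 = 0 := by decide
  have a0 := hx 0
  have a1 := hx 1
  have a2 := hx 2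
  have a3 := hx 3
  rw [e1] at a0
  rw [e2] at a1
  rw [e3, dist_comm] at a2
  rw [e4, dist_comm] at a3
  have q0 : 0 ≤ 1 - t / 4 := by linarith
  have q1 : 0 ≤ t / 4 := by linarith
  revert i
  refine all4_vx ?_ ?_ ?_ ?_
  · rw [e1, ctt_0, ctt_1]
    refine (Cc_left hB h0 h1 (x 0) (x 2) (x 1)).trans ?_
    nlinarith [mul_le_mul_of_nonneg_left a0 q0, mul_le_mul_of_nonneg_left a1 q1]
  · rw [e2, ctt_1, ctt_2]
    refine (Cc_right hB h0 h1 (x 0) (x 2) (x 1)).trans ?_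
    nlinarith [mul_le_mul_of_nonneg_left a0 q1, mul_le_mul_of_nonneg_left a1 q0]
  · rw [e3, ctt_2, ctt_3, dist_comm]
    refine (Cc_right hB h0 h1 (x 0) (x 2) (x 3)).trans ?_
    nlinarith [mul_le_mul_of_nonneg_left a3 q1, mul_le_mul_of_nonneg_left a2 q0]
  · rw [e4, ctt_3, ctt_0, dist_comm]
    refine (Cc_left hB h0 h1 (x 0) (x 2) (x 3)).trans ?_
    nlinarith [mul_le_mul_of_nonneg_left a3 q0, mul_le_mul_of_nonneg_left a2 q1]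

theorem ctt_en (hB : Bl M) {t : ℝ} (h0 : 0 ≤ t) (h1 : t ≤ 1) (x : ZMod 4 → M) : en (ctt 𝒜 t x) ≤ en x := by
  rw [en_eq, en_eq, ctt_0, ctt_1, ctt_2, ctt_3]
  exact add_le_add (Cc_le hB h0 h1 _ _ _) (Cc_le hB h0 h1 _ _ _)

theorem ctt_iter02 (N : ℕ) (x : ZMod 4 → M) : (ctt 𝒜 1)^[N] x 0 = x 0 ∧ (ctt 𝒜 1)^[N] x 2 = x 2 := by
  induction N with
  | zero => exact ⟨rfl, rfl⟩
  | succ N ih =>
    rw [Function.iterate_succ_apply', ctt_0, ctt_2]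
    exact ih

theorem ctt_iter13 (N : ℕ) (x : ZMod 4 → M) : (ctt 𝒜 1)^[N] x 1 = (Cc 𝒜 1 (x 0) (x 2))^[N] (x 1) ∧
    (ctt 𝒜 1)^[N] x 3 = (Cc 𝒜 1 (x 0) (x 2))^[N] (x 3) := by
  induction N with
  | zero => exact ⟨rfl, rfl⟩
  | succ N ih =>
    rw [Function.iterate_succ_apply', Function.iterate_succ_apply', Function.iterate_succ_apply', ctt_1, ctt_3,
      (ctt_iter02 N x).1, (ctt_iter02 N x).2, ih.1, ih.2]
    exact ⟨rfl, rfl⟩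

/-- **near the midpoint** -/
theorem near_mid (𝒜 : SDist n M) (hB : Bl M) (hδ : 0 < δ) (hε : 0 < ε) (hη : η < ε ^ 2) : ∃ N : ℕ, ∀ x : ZMod 4 → M,
    (∀ i, dist (x i) (x (i + 1)) ≤ π - δ) → en x < π ^ 2 + η → dist (x 0) (x 2) ≤ π - ε →
      dist ((ctt 𝒜 1)^[N] x 1) (rat 𝒜 (x 0) (x 2) (1 / 2)) ≤ ε / 2 ∧
      dist ((ctt 𝒜 1)^[N] x 3) (rat 𝒜 (x 0) (x 2) (1 / 2)) ≤ ε / 2 := by
  obtain ⟨N, hN⟩ := iter_Cc 𝒜 hB hδ hε hη (half_pos hε)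
  refine ⟨N, fun x hx he hd => ?_⟩
  have e1 : (0 : ZMod 4) + 1 = 1 := by decide
  have e2 : (1 : ZMod 4) + 1 = 2 := by decide
  have e3 : (2 : ZMod 4) + 1 = 3 := by decide
  have e4 : (3 : ZMod 4) + 1 = 0 := by decide
  have a0 := hx 0
  have a1 := hx 1
  have a2 := hx 2
  have a3 := hx 3
  rw [e1] at a0
  rw [e2] at a1
  rw [e3, dist_comm] at a2
  rw [e4, dist_comm] at a3
  rw [en_eq] at he
  have g1 := ee2_ge (x 0) (x 2) (x 1)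
  have g3 := ee2_ge (x 0) (x 2) (x 3)
  rw [(ctt_iter13 N x).1, (ctt_iter13 N x).2]
  exact ⟨(hN _ _ _ hd a0 a1 (by linarith)).le, (hN _ _ _ hd a3 a2 (by linarith)).le⟩

private theorem VX0b_all {P : ZMod 4 → Prop} (h0 : P 0) (h1 : P 1) (h2 : P 2) (h3 : P 3) (i : ZMod 4) : P i := by
  have h : i = 0 ∨ i = 1 ∨ i = 2 ∨ i = 3 := by
    revert i
    decide
  rcases h with h | h | h | h <;> rw [h] <;> assumption

private theorem VX0b_half (hB : Bl M) {t : ℝ} (h0 : 0 ≤ t) (h1 : t ≤ 1) {x : ZMod 4 → M}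
    (hd : dist (x 0) (x 2) ≤ π - ε) (h3 : dist (x 1) (rat 𝒜 (x 0) (x 2) (1 / 2)) ≤ ε / 2)
    (h4 : dist (x 3) (rat 𝒜 (x 0) (x 2) (1 / 2)) ≤ ε / 2) (i : ZMod 4) :
    dist (mdt 𝒜 t x i) (mdt 𝒜 t x (i + 1)) ≤ π / 2 := by
  obtain ⟨m, hm⟩ : ∃ m, m = rat 𝒜 (x 0) (x 2) (1 / 2) := ⟨_, rfl⟩
  have e0 : dist (x 0) m = 1 / 2 * dist (x 0) (x 2) := by
    rw [hm]
    exact dist_rat hB _ _ (by norm_num) (by norm_num)
  have e2 : dist m (x 2) = (1 - 1 / 2) * dist (x 0) (x 2) := by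
    rw [hm]
    exact dist_rat_right hB _ _ (by norm_num) (by norm_num)
  have hq : ∀ y : M, dist y m ≤ ε / 2 → dist (rat 𝒜 y m t) m ≤ ε / 2 := by
    intro y hy
    rw [dist_rat_right hB y m h0 h1]
    have h5 : (1 - t) * dist y m ≤ 1 * dist y m := mul_le_mul_of_nonneg_right (by linarith) dist_nonneg
    linarith
  have a1 := hq (x 1) (by rw [hm]; exact h3)
  have a3 := hq (x 3) (by rw [hm]; exact h4)
  have hL : ∀ y : M, dist y m ≤ ε / 2 → dist (x 0) y ≤ π / 2 := by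
    intro y hy
    have h5 := dist_triangle_right (x 0) y m
    linarith
  have hR : ∀ y : M, dist y m ≤ ε / 2 → dist y (x 2) ≤ π / 2 := by
    intro y hy
    have h5 := dist_triangle y m (x 2)
    linarith
  have c1 : (0 : ZMod 4) + 1 = 1 := rfl
  have c2 : (1 : ZMod 4) + 1 = 2 := rfl
  have c3 : (2 : ZMod 4) + 1 = 3 := rfl
  have c4 : (3 : ZMod 4) + 1 = 0 := rfl
  refine VX0b_all (P := fun i => dist (mdt 𝒜 t x i) (mdt 𝒜 t x (i + 1)) ≤ π / 2) ?_ ?_ ?_ ?_ i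
  · rw [c1, mdt_0, mdt_1, ← hm]
    exact hL _ a1
  · rw [c2, mdt_1, mdt_2, ← hm]
    exact hR _ a1
  · rw [c3, mdt_2, mdt_3, ← hm, dist_comm]
    exact hR _ a3
  · rw [c4, mdt_3, mdt_0, ← hm, dist_comm]
    exact hL _ a3

theorem mdt_side (hB : Bl M) (hδ : δ ≤ π / 2) {t : ℝ} (h0 : 0 ≤ t) (h1 : t ≤ 1) {x : ZMod 4 → M} (hd : dist (x 0) (x 2) ≤ π - ε)
    (h3 : dist (x 1) (rat 𝒜 (x 0) (x 2) (1 / 2)) ≤ ε / 2) (h4 : dist (x 3) (rat 𝒜 (x 0) (x 2) (1 / 2)) ≤ ε / 2)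
    (i : ZMod 4) : dist (mdt 𝒜 t x i) (mdt 𝒜 t x (i + 1)) ≤ π - δ := by
  have h5 := VX0b_half hB h0 h1 hd h3 h4 i
  linarith

theorem mdt_en (hB : Bl M) {t : ℝ} (h0 : 0 ≤ t) (h1 : t ≤ 1) {x : ZMod 4 → M} (hd : dist (x 0) (x 2) ≤ π - ε)
    (h3 : dist (x 1) (rat 𝒜 (x 0) (x 2) (1 / 2)) ≤ ε / 2) (h4 : dist (x 3) (rat 𝒜 (x 0) (x 2) (1 / 2)) ≤ ε / 2) :
    en (mdt 𝒜 t x) ≤ π ^ 2 := by
  unfold en
  have h5 : ∀ i ∈ (Finset.univ : Finset (ZMod 4)), dist (mdt 𝒜 t x i) (mdt 𝒜 t x (i + 1)) ^ 2 ≤ (π / 2) ^ 2 := by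
    intro i _
    exact pow_le_pow_left₀ dist_nonneg (VX0b_half hB h0 h1 hd h3 h4 i) 2
  have h6 := Finset.sum_le_card_nsmul Finset.univ _ _ h5
  rw [Finset.card_univ, ZMod.card, nsmul_eq_mul] at h6
  refine h6.trans (le_of_eq ?_)
  push_cast
  ring

end metric

variable {n : ℕ} {M : Type} [MetricSpace M] [CompactSpace M] {𝒜 : SDist n M} {δ ε η : ℝ} {k : ℕ}

/-- a set of small 4-gons defined by a condition on `x 0`, `x 2` -/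
def DepW (W : Set (spXe 𝒜 δ η).pt) : Prop :=
  ∀ x y : (spXe 𝒜 δ η).pt, x.1.1 0 = y.1.1 0 → x.1.1 2 = y.1.1 2 → x ∈ W → y ∈ W

variable {W : Set (spXe 𝒜 δ η).pt}

/-- a 4-gon as a point of `sub (spXe 𝒜 δ η) W` -/
def mkW (hW : DepW W) (x : (sub (spXe 𝒜 δ η) W).pt) (y : ZMod 4 → M) (h1 : ∀ i, dist (y i) (y (i + 1)) ≤ π - δ)
    (h2 : en y < π ^ 2 + η) (h3 : y 0 = x.1.1.1 0) (h4 : y 2 = x.1.1.1 2) : (sub (spXe 𝒜 δ η) W).pt :=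
  ⟨⟨⟨y, h1⟩, h2⟩, hW x.1 ⟨⟨y, h1⟩, h2⟩ h3.symm h4.symm x.2⟩

private theorem VX0b_Cc (hB : Bl M) (hδ : 0 < δ) {E : Type*} [NormedAddCommGroup E] [NormedSpace ℝ E] {a b x : E → M}
    {t : E → ℝ} {u : E} (ha : SmAt 𝒜 a u) (hb : SmAt 𝒜 b u) (hx : SmAt 𝒜 x u) (ht : ContDiffAt ℝ ∞ t u) (h0 : 0 ≤ t u)
    (h1 : t u ≤ 1) (hxa : dist (x u) (a u) ≤ π - δ) (hxb : dist (x u) (b u) ≤ π - δ) :
    SmAt 𝒜 (fun v => Cc 𝒜 (t v) (a v) (b v) (x v)) u := by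
  have ht2 : ContDiffAt ℝ ∞ (fun v => t v / 2) u := ht.div_const 2
  have k1 : SmAt 𝒜 (fun v => rat 𝒜 (x v) (a v) (t v / 2)) u := smAt_rat hB hx ha ht2 (by linarith)
  have k2 : SmAt 𝒜 (fun v => rat 𝒜 (x v) (b v) (t v / 2)) u := smAt_rat hB hx hb ht2 (by linarith)
  have k3 : dist (rat 𝒜 (x u) (a u) (t u / 2)) (rat 𝒜 (x u) (b u) (t u / 2)) < π := by
    have e1 := dist_rat (𝒜 := 𝒜) hB (x u) (a u) (t := t u / 2) (by linarith) (by linarith)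
    have e2 := dist_rat (𝒜 := 𝒜) hB (x u) (b u) (t := t u / 2) (by linarith) (by linarith)
    have e3 := dist_triangle_left (rat 𝒜 (x u) (a u) (t u / 2)) (rat 𝒜 (x u) (b u) (t u / 2)) (x u)
    have e4 : t u / 2 * dist (x u) (a u) ≤ 1 / 2 * dist (x u) (a u) :=
      mul_le_mul_of_nonneg_right (by linarith) dist_nonneg
    have e5 : t u / 2 * dist (x u) (b u) ≤ 1 / 2 * dist (x u) (b u) :=
      mul_le_mul_of_nonneg_right (by linarith) dist_nonneg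
    linarith
  exact smAt_rat hB k1 k2 (t := fun _ => 1 / 2) contDiffAt_const k3

/-- the correction homotopy -/
def cHm (hB : Bl M) (hδ : 0 < δ) (hW : DepW W) : SMap (sub (spXe 𝒜 δ η) W).xR (sub (spXe 𝒜 δ η) W) :=
  ⟨fun z => mkW hW z.1 (ctt 𝒜 (Real.smoothTransition z.2) z.1.1.1.1)
    (ctt_side hB (Real.smoothTransition.nonneg _) (Real.smoothTransition.le_one _) z.1.1.1.2)
    ((ctt_en hB (Real.smoothTransition.nonneg _) (Real.smoothTransition.le_one _) _).trans_lt z.1.1.2)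
    (ctt_0 _ _) (ctt_2 _ _), fun k p => by
    intro i u
    show SmAt 𝒜 (fun v => ctt 𝒜 (Real.smoothTransition (p.1 v).2) (p.1 v).1.1.1.1 i) u
    have hs : ∀ j : ZMod 4, SmAt 𝒜 (fun v => (p.1 v).1.1.1.1 j) u := fun j => p.2.1 j u
    have hT : ContDiffAt ℝ ∞ (fun v => Real.smoothTransition (p.1 v).2) u :=
      (Real.smoothTransition.contDiff.comp p.2.2).contDiffAt
    have hx := (p.1 u).1.1.1.2
    refine VX0b_all (P := fun i => SmAt 𝒜 (fun v => ctt 𝒜 (Real.smoothTransition (p.1 v).2) (p.1 v).1.1.1.1 i) u)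
      ?_ ?_ ?_ ?_ i
    · simp only [ctt_0]
      exact hs 0
    · simp only [ctt_1]
      refine VX0b_Cc hB hδ (hs 0) (hs 2) (hs 1) hT (Real.smoothTransition.nonneg _) (Real.smoothTransition.le_one _) ?_ (hx 1)
      rw [dist_comm]
      exact hx 0
    · simp only [ctt_2]
      exact hs 2
    · simp only [ctt_3]
      refine VX0b_Cc hB hδ (hs 0) (hs 2) (hs 3) hT (Real.smoothTransition.nonneg _) (Real.smoothTransition.le_one _) (hx 3) ?_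
      rw [dist_comm]
      exact hx 2⟩

/-- one correction -/
def cMp (hB : Bl M) (hδ : 0 < δ) (hW : DepW W) : SMap (sub (spXe 𝒜 δ η) W) (sub (spXe 𝒜 δ η) W) :=
  (cHm hB hδ hW).comp (jO _ 1)

theorem itM_cMp (hB : Bl M) (hδ : 0 < δ) (hW : DepW W) (N : ℕ) (x : (sub (spXe 𝒜 δ η) W).pt) :
    ((itM (cMp hB hδ hW) N).1 x).1.1.1 = (ctt 𝒜 1)^[N] x.1.1.1 := by
  induction N with
  | zero => rfl
  | succ N ih =>
    rw [Function.iterate_succ_apply', ← ih]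
    show ctt 𝒜 (Real.smoothTransition 1) _ = _
    rw [Real.smoothTransition.one]
    rfl

/-- the number of corrections -/
def NC (𝒜 : SDist n M) (hB : Bl M) (hδ : 0 < δ) (hε : 0 < ε) (hη : η < ε ^ 2) : ℕ := (near_mid 𝒜 hB hδ hε hη).choose

private theorem VX0_idx : ∀ i : ZMod 4, ¬ (i = 0 ∨ i = 2) → i = 1 ∨ i = 3 := by
  decide

private theorem VX0_near (hB : Bl M) (hδ : 0 < δ) (hε : 0 < ε) (hη : η < ε ^ 2)
    (hd : ∀ x ∈ W, dist (x.1.1 0) (x.1.1 2) < π - ε) (x : (sub (spXe 𝒜 δ η) W).pt) :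
    (ctt 𝒜 1)^[NC 𝒜 hB hδ hε hη] x.1.1.1 0 = x.1.1.1 0 ∧ (ctt 𝒜 1)^[NC 𝒜 hB hδ hε hη] x.1.1.1 2 = x.1.1.1 2 ∧
      dist ((ctt 𝒜 1)^[NC 𝒜 hB hδ hε hη] x.1.1.1 0) ((ctt 𝒜 1)^[NC 𝒜 hB hδ hε hη] x.1.1.1 2) ≤ π - ε ∧
      dist ((ctt 𝒜 1)^[NC 𝒜 hB hδ hε hη] x.1.1.1 1) (rat 𝒜 ((ctt 𝒜 1)^[NC 𝒜 hB hδ hε hη] x.1.1.1 0)
        ((ctt 𝒜 1)^[NC 𝒜 hB hδ hε hη] x.1.1.1 2) (1 / 2)) ≤ ε / 2 ∧
      dist ((ctt 𝒜 1)^[NC 𝒜 hB hδ hε hη] x.1.1.1 3) (rat 𝒜 ((ctt 𝒜 1)^[NC 𝒜 hB hδ hε hη] x.1.1.1 0)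
        ((ctt 𝒜 1)^[NC 𝒜 hB hδ hε hη] x.1.1.1 2) (1 / 2)) ≤ ε / 2 := by
  obtain ⟨h1, h2⟩ := ctt_iter02 (𝒜 := 𝒜) (NC 𝒜 hB hδ hε hη) x.1.1.1
  have h3 : dist (x.1.1.1 0) (x.1.1.1 2) ≤ π - ε := (hd x.1 x.2).le
  obtain ⟨h4, h5⟩ := (near_mid 𝒜 hB hδ hε hη).choose_spec x.1.1.1 x.1.1.2 x.1.2 h3
  rw [h1, h2]
  exact ⟨rfl, rfl, h3, h4, h5⟩

/-- smoothness of the homotopy to the midpoint -/
private theorem VX0_smooth (hB : Bl M) (hδ : 0 < δ) (hε : 0 < ε) (hη : η < ε ^ 2) (hW : DepW W)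
    (hd : ∀ x ∈ W, dist (x.1.1 0) (x.1.1 2) < π - ε) (p : (sub (spXe 𝒜 δ η) W).xR.Plot k) (i : ZMod 4) :
    L4.Sm 𝒜 (fun u => mdt 𝒜 (Real.smoothTransition (p.1 u).2) ((ctt 𝒜 1)^[NC 𝒜 hB hδ hε hη] (p.1 u).1.1.1.1) i) := by
  have hy : ∀ j : ZMod 4, L4.Sm 𝒜 (fun u => (ctt 𝒜 1)^[NC 𝒜 hB hδ hε hη] (p.1 u).1.1.1.1 j) := by
    intro j
    have h1 := (itM (cMp (𝒜 := 𝒜) hB hδ hW) (NC 𝒜 hB hδ hε hη)).2 k ((pO _).pl p) j
    have h2 : (fun u => (ctt 𝒜 1)^[NC 𝒜 hB hδ hε hη] (p.1 u).1.1.1.1 j) =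
        fun u => ((itM (cMp (𝒜 := 𝒜) hB hδ hW) (NC 𝒜 hB hδ hε hη)).1 (((pO _).pl p).1 u)).1.1.1 j := by
      funext u
      rw [itM_cMp]
      rfl
    rw [h2]
    exact h1
  by_cases hi : i = 0 ∨ i = 2
  · have h1 : (fun u => mdt 𝒜 (Real.smoothTransition (p.1 u).2) ((ctt 𝒜 1)^[NC 𝒜 hB hδ hε hη] (p.1 u).1.1.1.1) i) =
        fun u => (ctt 𝒜 1)^[NC 𝒜 hB hδ hε hη] (p.1 u).1.1.1.1 i := by
      funext u
      unfold mdt
      rw [if_pos hi]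
    rw [h1]
    exact hy i
  · have h1 : (fun u => mdt 𝒜 (Real.smoothTransition (p.1 u).2) ((ctt 𝒜 1)^[NC 𝒜 hB hδ hε hη] (p.1 u).1.1.1.1) i) =
        fun u => rat 𝒜 ((ctt 𝒜 1)^[NC 𝒜 hB hδ hε hη] (p.1 u).1.1.1.1 i)
          (rat 𝒜 ((ctt 𝒜 1)^[NC 𝒜 hB hδ hε hη] (p.1 u).1.1.1.1 0) ((ctt 𝒜 1)^[NC 𝒜 hB hδ hε hη] (p.1 u).1.1.1.1 2) (1 / 2))
          (Real.smoothTransition (p.1 u).2) := by
      funext u
      unfold mdt
      rw [if_neg hi]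
    rw [h1]
    intro u
    obtain ⟨-, -, h3, h4, h5⟩ := VX0_near hB hδ hε hη hd (p.1 u).1
    have hπ := Real.pi_pos
    have hε2 : ε / 2 < π := by
      have h6 : 0 ≤ π - ε := le_trans dist_nonneg h3
      linarith
    refine smAt_rat hB (hy i u) (smAt_rat hB (hy 0 u) (hy 2 u) contDiffAt_const ?_)
      (Real.smoothTransition.contDiff.comp p.2.2).contDiffAt ?_
    · linarith
    · rcases VX0_idx i hi with rfl | rfl
      · exact h4.trans_lt hε2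
      · exact h5.trans_lt hε2

/-- the homotopy to `(x0, mid, x2, mid)` after `NC` corrections -/
def mHm (hB : Bl M) (hδ : 0 < δ) (hδ2 : δ ≤ π / 2) (hε : 0 < ε) (hη0 : 0 < η) (hη : η < ε ^ 2) (hW : DepW W)
    (hd : ∀ x ∈ W, dist (x.1.1 0) (x.1.1 2) < π - ε) : SMap (sub (spXe 𝒜 δ η) W).xR (sub (spXe 𝒜 δ η) W) :=
  ⟨fun z => mkW hW z.1 (mdt 𝒜 (Real.smoothTransition z.2) ((ctt 𝒜 1)^[NC 𝒜 hB hδ hε hη] z.1.1.1.1)) (by
    obtain ⟨-, -, h3, h4, h5⟩ := VX0_near hB hδ hε hη hd z.1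
    exact mdt_side hB hδ2 (Real.smoothTransition.nonneg _) (Real.smoothTransition.le_one _) h3 h4 h5) (by
    obtain ⟨-, -, h3, h4, h5⟩ := VX0_near hB hδ hε hη hd z.1
    have h6 := mdt_en hB (Real.smoothTransition.nonneg z.2) (Real.smoothTransition.le_one z.2) h3 h4 h5
    linarith) (by
    rw [mdt_0]
    exact (ctt_iter02 _ _).1) (by
    rw [mdt_2]
    exact (ctt_iter02 _ _).2), fun k p => by
    exact VX0_smooth hB hδ hε hη hW hd p⟩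

/-- `(x0, mid, x2, mid)` -/
def midM (hB : Bl M) (hδ : 0 < δ) (hδ2 : δ ≤ π / 2) (hε : 0 < ε) (hη0 : 0 < η) (hη : η < ε ^ 2) (hW : DepW W)
    (hd : ∀ x ∈ W, dist (x.1.1 0) (x.1.1 2) < π - ε) : SMap (sub (spXe 𝒜 δ η) W) (sub (spXe 𝒜 δ η) W) :=
  (mHm hB hδ hδ2 hε hη0 hη hW hd).comp (jO _ 1)

theorem midM_apply (hB : Bl M) (hδ : 0 < δ) (hδ2 : δ ≤ π / 2) (hε : 0 < ε) (hη0 : 0 < η) (hη : η < ε ^ 2) (hW : DepW W)
    (hd : ∀ x ∈ W, dist (x.1.1 0) (x.1.1 2) < π - ε) (x : (sub (spXe 𝒜 δ η) W).pt) (i : ZMod 4) :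
    ((midM hB hδ hδ2 hε hη0 hη hW hd).1 x).1.1.1 i =
      if i = 0 ∨ i = 2 then x.1.1.1 i else rat 𝒜 (x.1.1.1 0) (x.1.1.1 2) (1 / 2) := by
  obtain ⟨h1, h2, -⟩ := VX0_near hB hδ hε hη hd x
  show mdt 𝒜 (Real.smoothTransition 1) ((ctt 𝒜 1)^[NC 𝒜 hB hδ hε hη] x.1.1.1) i = _
  rw [Real.smoothTransition.one]
  unfold mdt
  by_cases hi : i = 0 ∨ i = 2
  · rw [if_pos hi, if_pos hi]
    rcases hi with rfl | rfl
    · exact h1
    · exact h2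
  · rw [if_neg hi, if_neg hi, rat_one hB, h1, h2]

private theorem VX0_ctt_const (hB : Bl M) (t : ℝ) (m : M) : ctt 𝒜 t (fun _ => m) = fun _ => m := by
  funext i
  unfold ctt
  split_ifs
  · rfl
  · exact Cc_self hB t m

private theorem VX0_mdt_const (hB : Bl M) (t : ℝ) (m : M) : mdt 𝒜 t (fun _ => m) = fun _ => m := by
  funext i
  unfold mdt
  split_ifs
  · rfl
  · rw [rat_self hB, rat_self hB]

/-- **the identity is homotopic to `(x0, mid, x2, mid)`** -/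
theorem rel_mid (hB : Bl M) (hδ : 0 < δ) (hδ2 : δ ≤ π / 2) (hε : 0 < ε) (hη0 : 0 < η) (hη : η < ε ^ 2) (hW : DepW W)
    (hd : ∀ x ∈ W, dist (x.1.1 0) (x.1.1 2) < π - ε) {K : Space} {k : SMap K (sub (spXe 𝒜 δ η) W)}
    (hk : ∀ x, ∃ m : M, (k.1 x).1.1.1 = fun _ => m) :
    HRel k (SMap.id _) (midM hB hδ hδ2 hε hη0 hη hW hd) := by
  have hc : ∀ x t, (cHm hB hδ hW).1 (k.1 x, t) = k.1 x := by
    intro x t
    obtain ⟨m, hm⟩ := hk x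
    refine Subtype.ext (Subtype.ext (Subtype.ext ?_))
    show ctt 𝒜 (Real.smoothTransition t) (k.1 x).1.1.1 = (k.1 x).1.1.1
    rw [hm]
    exact VX0_ctt_const hB _ m
  have hit : ∀ x, (itM (cMp hB hδ hW) (NC 𝒜 hB hδ hε hη)).1 (k.1 x) = k.1 x := by
    intro x
    rw [itM_apply]
    exact Function.iterate_fixed (hc x 1) _
  have h1 : HRel k (SMap.id _) (itM (cMp hB hδ hW) (NC 𝒜 hB hδ hε hη)) := by
    refine HRel.it (fun x => hc x 1) (HRel.hom (cHm hB hδ hW) (fun x => ?_) (fun x => rfl) (fun x t => ?_)) _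
    · refine Subtype.ext (Subtype.ext (Subtype.ext ?_))
      show ctt 𝒜 (Real.smoothTransition 0) x.1.1.1 = x.1.1.1
      rw [Real.smoothTransition.zero]
      funext i
      unfold ctt
      split_ifs
      · rfl
      · exact Cc_zero hB _ _ _
    · rw [hc, hc]
  refine h1.trans (HRel.hom (mHm hB hδ hδ2 hε hη0 hη hW hd) (fun x => ?_) (fun x => rfl) (fun x t => ?_))
  · refine Subtype.ext (Subtype.ext (Subtype.ext ?_))
    rw [itM_cMp]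
    show mdt 𝒜 (Real.smoothTransition 0) ((ctt 𝒜 1)^[NC 𝒜 hB hδ hε hη] x.1.1.1) = _
    rw [Real.smoothTransition.zero]
    funext i
    unfold mdt
    split_ifs
    · rfl
    · exact rat_zero hB _ _
  · obtain ⟨m, hm⟩ := hk x
    have h2 : (ctt 𝒜 1)^[NC 𝒜 hB hδ hε hη] (k.1 x).1.1.1 = fun _ => m := by
      rw [← itM_cMp hB hδ hW, hit x, hm]
    have h3 : ∀ s, ((mHm hB hδ hδ2 hε hη0 hη hW hd).1 (k.1 x, s)).1.1.1 = fun _ => m := by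
      intro s
      show mdt 𝒜 (Real.smoothTransition s) ((ctt 𝒜 1)^[NC 𝒜 hB hδ hε hη] (k.1 x).1.1.1) = _
      rw [h2]
      exact VX0_mdt_const hB _ m
    exact Subtype.ext (Subtype.ext (Subtype.ext ((h3 t).trans (h3 0).symm)))

end Pool.Agent.Lib.MP_ccbbf6_gt.K7
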