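import Pool.Agent.Lib.MP_ccbbf6_gt.K7.VX0

/-!
# `κ = 7`, block B4, file VX3: the part `U0 = {d(x0, x2) < π - ε}` retracts to the constant 4-gons (helper25, skeleton)

PROOF of `RX_U0`. `midM ~ constants` by `(x, t) ↦ (x0, rat x0 x2 ((1-t)/2), rat x0 x2 (1-t), rat x0 x2 ((1-t)/2))`, `t` = `smoothTransition`: sides `((1-t)/2) d` (`dist_rat_rat`, `dist_rat`, with `d < π - ε`: `≤ π/2 ≤ π - δ`), energy `4 ((1-t) d/2)^2 ≤ d^2 < π^2`, all in `U0`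
(the distance of `x0` and `rat x0 x2 (1-t)` is `(1-t) d`); smooth by `smAt_rat` (`d < π`). So with `rel_mid` : `HRel k (SMap.id) (cst)`, `cst x = (x0, x0, x0, x0)`. Then `(inU U0)^* w` : post-compose with `inU`: `(inU.comp cst) = kXe ∘ (x ↦ x0)`, so the pull back by it is `p0^* (kXe^* w) = 0`:
`RX.rel` with `f = inU.comp cst`, `g = inU.comp id` (`HRel.symm`, `HRel.post`), `RX k j 0` by `z = 0`.
-/

set_option autoImplicit false
set_option maxSynthPendingDepth 3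
set_option linter.unusedSectionVars false

open Set Filter Topology Metric Real Module
open scoped ContDiff RealInnerProductSpace

noncomputable section

namespace Pool.Agent.Lib.MP_ccbbf6_gt.K7

open Geo L4 L4.ORI L4.FR L5

variable {n : ℕ} {M : Type} [MetricSpace M] [CompactSpace M] {𝒜 : SDist n M} {δ ε η : ℝ} {k : ℕ}

/-- small 4-gons with `d(x0, x2) < a` -/
def W0 (𝒜 : SDist n M) (δ η a : ℝ) : Set (spXe 𝒜 δ η).pt := {x | dist (x.1.1 0) (x.1.1 2) < a}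

/-- small 4-gons with `a < d(x0, x2)` -/
def W1 (𝒜 : SDist n M) (δ η a : ℝ) : Set (spXe 𝒜 δ η).pt := {x | a < dist (x.1.1 0) (x.1.1 2)}

theorem open_W0 (a : ℝ) : OpenU (spXe 𝒜 δ η) (W0 𝒜 δ η a) :=
  OpenU_lt (fun _ p => ((p.2 0).continuous).dist ((p.2 2).continuous)) fun _ _ => continuous_const

theorem open_W1 (a : ℝ) : OpenU (spXe 𝒜 δ η) (W1 𝒜 δ η a) :=
  OpenU_lt (fun _ _ => continuous_const) fun _ p => ((p.2 0).continuous).dist ((p.2 2).continuous)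

theorem depW0 (a : ℝ) : DepW (W0 𝒜 δ η a) := fun x y h0 h2 hx => by
  show dist (y.1.1 0) (y.1.1 2) < a
  rw [← h0, ← h2]
  exact hx

theorem depW1 (a : ℝ) : DepW (W1 𝒜 δ η a) := fun x y h0 h2 hx => by
  show a < dist (y.1.1 0) (y.1.1 2)
  rw [← h0, ← h2]
  exact hx

theorem depW_inter {W W' : Set (spXe 𝒜 δ η).pt} (h : DepW W) (h' : DepW W') : DepW (W ∩ W') := fun x y h0 h2 hx =>
  ⟨h x y h0 h2 hx.1, h' x y h0 h2 hx.2⟩

/-- constant 4-gons in `U0` -/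
def kW0 (𝒜 : SDist n M) {a : ℝ} (h : δ ≤ π) (hη : 0 < η) (ha : 0 < a) : SMap (spM 𝒜) (sub (spXe 𝒜 δ η) (W0 𝒜 δ η a)) :=
  ⟨fun x : M => ⟨(kXe 𝒜 h hη).1 x, by
    show dist x x < a
    rw [dist_self]
    exact ha⟩, fun k p => (kXe 𝒜 h hη).2 k p⟩

/-- coefficients of the vertices -/
private theorem vX3_cf : ∃ cf : ZMod 4 → ℝ, cf 0 = 0 ∧ cf 1 = 1 / 2 ∧ cf 2 = 1 ∧ cf 3 = 1 / 2 ∧
    (∀ i, 0 ≤ cf i ∧ cf i ≤ 1) ∧ ∀ i, |cf i - cf (i + 1)| = 1 / 2 := by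
  have hz : ∀ i : ZMod 4, i = 0 ∨ i = 1 ∨ i = 2 ∨ i = 3 := by decide
  refine ⟨(![0, 1 / 2, 1, 1 / 2] : Fin 4 → ℝ), rfl, rfl, rfl, rfl, fun i => ?_, fun i => ?_⟩
  · rcases hz i with rfl | rfl | rfl | rfl
    · show (0 : ℝ) ≤ 0 ∧ (0 : ℝ) ≤ 1
      norm_num
    · show (0 : ℝ) ≤ 1 / 2 ∧ (1 / 2 : ℝ) ≤ 1
      norm_num
    · show (0 : ℝ) ≤ 1 ∧ (1 : ℝ) ≤ 1
      norm_num
    · show (0 : ℝ) ≤ 1 / 2 ∧ (1 / 2 : ℝ) ≤ 1
      norm_num
  · rcases hz i with rfl | rfl | rfl | rfl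
    · show |(0 : ℝ) - 1 / 2| = 1 / 2
      norm_num [abs_of_pos]
    · show |(1 / 2 : ℝ) - 1| = 1 / 2
      rw [abs_of_neg] <;> norm_num
    · show |(1 : ℝ) - 1 / 2| = 1 / 2
      rw [abs_of_pos] <;> norm_num
    · show |(1 / 2 : ℝ) - 0| = 1 / 2
      rw [abs_of_pos] <;> norm_num

private theorem vX3_side (hB : Bl M) (a b : M) {t : ℝ} (h0 : 0 ≤ t) (h1 : t ≤ 1) {cf : ZMod 4 → ℝ}
    (hc : ∀ i, 0 ≤ cf i ∧ cf i ≤ 1) (hs : ∀ i, |cf i - cf (i + 1)| = 1 / 2) (i : ZMod 4) :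
    dist (rat 𝒜 a b (cf i * t)) (rat 𝒜 a b (cf (i + 1) * t)) = t * dist a b / 2 := by
  rw [dist_rat_rat hB a b (mul_nonneg (hc i).1 h0) (mul_le_one₀ (hc i).2 h0 h1) (mul_nonneg (hc _).1 h0)
    (mul_le_one₀ (hc _).2 h0 h1), ← sub_mul, abs_mul, hs, abs_of_nonneg h0]
  ring

/-- **on `U0` closed forms which vanish on the constant 4-gons are exact rel constants** -/
theorem RX_U0 (hB : Bl M) (hδ : 0 < δ) (hδ2 : δ ≤ π / 2) (hε : 0 < ε) (hη0 : 0 < η) (hη : η < ε ^ 2) (h : δ ≤ π)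
    (ha : 0 < π - ε) {j : ℤ} {w : Om (spXe 𝒜 δ η)} (hw : DZ j w) (dw : dO _ w = 0) (kw : (kXe 𝒜 h hη0).pull w = 0) :
    RX (kW0 𝒜 h hη0 ha) j ((inU (spXe 𝒜 δ η) (W0 𝒜 δ η (π - ε))).pull w) := by
  obtain ⟨cf, c0, c1, c2, c3, hc, hs⟩ := vX3_cf
  have ht0 : ∀ s : ℝ, 0 ≤ 1 - Real.smoothTransition s := fun s => by
    linarith [Real.smoothTransition.le_one s]
  have ht1 : ∀ s : ℝ, 1 - Real.smoothTransition s ≤ 1 := fun s => by
    linarith [Real.smoothTransition.nonneg s]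
  have hside : ∀ (x : (sub (spXe 𝒜 δ η) (W0 𝒜 δ η (π - ε))).pt) (s : ℝ) (i : ZMod 4),
      dist (rat 𝒜 (x.1.1.1 0) (x.1.1.1 2) (cf i * (1 - Real.smoothTransition s)))
        (rat 𝒜 (x.1.1.1 0) (x.1.1.1 2) (cf (i + 1) * (1 - Real.smoothTransition s))) =
      (1 - Real.smoothTransition s) * dist (x.1.1.1 0) (x.1.1.1 2) / 2 := fun x s i =>
    vX3_side hB _ _ (ht0 s) (ht1 s) hc hs i
  have hle : ∀ (x : (sub (spXe 𝒜 δ η) (W0 𝒜 δ η (π - ε))).pt) (s : ℝ),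
      (1 - Real.smoothTransition s) * dist (x.1.1.1 0) (x.1.1.1 2) ≤ dist (x.1.1.1 0) (x.1.1.1 2) := fun x s =>
    mul_le_of_le_one_left dist_nonneg (ht1 s)
  have hlt : ∀ x : (sub (spXe 𝒜 δ η) (W0 𝒜 δ η (π - ε))).pt, dist (x.1.1.1 0) (x.1.1.1 2) < π - ε := fun x => x.2
  let H : SMap (sub (spXe 𝒜 δ η) (W0 𝒜 δ η (π - ε))).xR (sub (spXe 𝒜 δ η) (W0 𝒜 δ η (π - ε))) :=
    ⟨fun z => ⟨⟨⟨fun i => rat 𝒜 (z.1.1.1.1 0) (z.1.1.1.1 2) (cf i * (1 - Real.smoothTransition z.2)), fun i => by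
        rw [hside z.1 z.2 i]
        linarith [hle z.1 z.2, hlt z.1]⟩, by
      show en _ < π ^ 2 + η
      unfold en
      have h1 : ∀ i : ZMod 4, dist (rat 𝒜 (z.1.1.1.1 0) (z.1.1.1.1 2) (cf i * (1 - Real.smoothTransition z.2)))
          (rat 𝒜 (z.1.1.1.1 0) (z.1.1.1.1 2) (cf (i + 1) * (1 - Real.smoothTransition z.2))) ^ 2 ≤ (π / 2) ^ 2 := by
        intro i
        refine pow_le_pow_left₀ dist_nonneg ?_ 2
        rw [hside z.1 z.2 i]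
        linarith [hle z.1 z.2, hlt z.1]
      have h2 := Finset.sum_le_sum fun (i : ZMod 4) (_ : i ∈ Finset.univ) => h1 i
      rw [Finset.sum_const, Finset.card_univ, ZMod.card, nsmul_eq_mul] at h2
      push_cast at h2
      linarith⟩, by
      show dist (rat 𝒜 (z.1.1.1.1 0) (z.1.1.1.1 2) (cf 0 * (1 - Real.smoothTransition z.2)))
        (rat 𝒜 (z.1.1.1.1 0) (z.1.1.1.1 2) (cf 2 * (1 - Real.smoothTransition z.2))) < π - ε
      rw [c0, c2, zero_mul, one_mul, rat_zero hB, dist_rat hB _ _ (ht0 _) (ht1 _)]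
      exact (hle z.1 z.2).trans_lt (hlt z.1)⟩, fun k p i u => by
      refine smAt_rat hB (p.2.1 0 u) (p.2.1 2 u) ?_ ?_
      · exact (contDiff_const.mul (contDiff_const.sub (Real.smoothTransition.contDiff.comp p.2.2))).contDiffAt
      · linarith [hlt (p.1 u).1]⟩
  have hmid : HRel (kW0 𝒜 h hη0 ha) (SMap.id _)
      (midM hB hδ hδ2 hε hη0 hη (depW0 (𝒜 := 𝒜) (δ := δ) (η := η) (π - ε)) (fun x hx => hx)) :=
    rel_mid hB hδ hδ2 hε hη0 hη (depW0 (π - ε)) (fun x hx => hx) (fun x => ⟨x, rfl⟩)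
  have hH : HRel (kW0 𝒜 h hη0 ha)
      (midM hB hδ hδ2 hε hη0 hη (depW0 (𝒜 := 𝒜) (δ := δ) (η := η) (π - ε)) (fun x hx => hx)) (H.comp (jO _ 1)) := by
    refine HRel.hom H (fun x => Subtype.ext (Subtype.ext (Subtype.ext (funext fun i => ?_)))) (fun x => rfl)
      (fun x t => Subtype.ext (Subtype.ext (Subtype.ext (funext fun i => ?_))))
    · rw [midM_apply]
      show rat 𝒜 (x.1.1.1 0) (x.1.1.1 2) (cf i * (1 - Real.smoothTransition 0)) = _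
      rw [Real.smoothTransition.zero, sub_zero, mul_one]
      have hz : ∀ i : ZMod 4, i = 0 ∨ i = 1 ∨ i = 2 ∨ i = 3 := by decide
      rcases hz i with rfl | rfl | rfl | rfl
      · rw [c0, rat_zero hB, if_pos (Or.inl rfl)]
      · rw [c1, if_neg (by decide)]
      · rw [c2, rat_one hB, if_pos (Or.inr rfl)]
      · rw [c3, if_neg (by decide)]
    · show rat 𝒜 x x _ = rat 𝒜 x x _
      rw [rat_self hB, rat_self hB]
  have hrel := (hmid.trans hH).symm.post (inU (spXe 𝒜 δ η) (W0 𝒜 δ η (π - ε)))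
  let p0 : SMap (sub (spXe 𝒜 δ η) (W0 𝒜 δ η (π - ε))) (spM 𝒜) := ⟨fun x => x.1.1.1 0, fun k p => p.2 0⟩
  have he : (inU (spXe 𝒜 δ η) (W0 𝒜 δ η (π - ε))).comp (H.comp (jO _ 1)) = (kXe 𝒜 h hη0).comp p0 := by
    refine SMap_ext fun x => Subtype.ext (Subtype.ext (funext fun i => ?_))
    show rat 𝒜 (x.1.1.1 0) (x.1.1.1 2) (cf i * (1 - Real.smoothTransition 1)) = x.1.1.1 0
    rw [Real.smoothTransition.one, sub_self, mul_zero, rat_zero hB]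
  have h0 : ((inU (spXe 𝒜 δ η) (W0 𝒜 δ η (π - ε))).comp (H.comp (jO _ 1))).pull w = 0 := by
    rw [he, pull_comp, kw, map_zero]
  exact RX.rel hrel hw dw (by
    rw [h0]
    exact ⟨0, DZ_zero, map_zero _, map_zero _⟩)

end Pool.Agent.Lib.MP_ccbbf6_gt.K7
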