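import Pool.Agent.Lib.MP_ccbbf6_gt.K7.VC2
import Pool.Agent.Lib.MP_ccbbf6_gt.K7.VX3
import Pool.Agent.Lib.MP_ccbbf6_gt.L5.INTn
import Pool.Agent.Lib.MP_ccbbf6_gt.L5.INTr

/-!
# `κ = 7`, block B4, file VX1: `U1 = {d(x0, x2) > π - 2 ε}` retracts to `K1 = S(V) x_FM S(V)` (helper25, skeleton)

`K1 = fp (gF hB) b.pi`, `b : SBun κ (spG 𝒜) (spF 𝒜)` with `b.pi = gF`; `quad c c' = (c 0, c (π/2), c π, c' (π/2))`.
`dir1 x` = geodesic from `x 0` through `x 1`, `dir3 x = gw (dir1 x) (Pv (x 0) (x 1) (lg (x 0) (x 3)))`.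
PROOFS.
(1) `quad_side` : all four sides are `π/2` (isometry `c.2`; the last ones with `c' π = c π`, `c' 0 = c 0`), `en = π^2`.
(2) `dir3_top` : `top_of_mem` with `Pv_mem` (and `vel_dir`: `dirOf (x 0) (x 1) = vel (dir1 x) 0`), `Pv .. ≠ 0` (`GoodX.ne`).
(3) smoothness of `dir3` : `smG_of`, `smGA_gw` with `smV_Pv` and `smV_lg` (centre of the chart = the foot point at `u`).
(4) `hU1` : `y i = rat (x i) (quad .. i) t`: `dist (x i) (quad .. i) < s0` (`= 0` for `i = 0`; `GoodX.m1, m2`; `m3` with `qv = (dir3 x) (π/2)`, `gw_eq`), `dist (x i) (y i) ≤ dist (x i) (quad .. i)` (`dist_rat`), so `dist (y i) (y (i+1)) ≤ s0 + π/2 + s0 + s0 ≤ π - δ` (`3 s0 ≤ π/2 - δ`); smooth by `smAt_rat` (`s0 < π`).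
-/

set_option autoImplicit false
set_option maxSynthPendingDepth 3
set_option linter.unusedSectionVars false

open Set Filter Topology Metric Real Module
open scoped ContDiff RealInnerProductSpace

noncomputable section

namespace Pool.Agent.Lib.MP_ccbbf6_gt.K7

open Geo L4 L4.ORI L4.FR L5 L5.NEG

variable {n κ : ℕ} {M : Type} [MetricSpace M] [CompactSpace M] {𝒜 : SDist n M} {δ ε η s0 : ℝ} {k : ℕ}

/-- the 4-gon `c 0, c (π/2), c π, c' (π/2)` -/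
def quad (c c' : Gs M) (i : ZMod 4) : M :=
  if i = 0 then c.1 0 else if i = 1 then c.1 (π / 2) else if i = 2 then c.1 π else c'.1 (π / 2)

theorem quad_0 (c c' : Gs M) : quad c c' 0 = c.1 0 := rfl

theorem quad_1 (c c' : Gs M) : quad c c' 1 = c.1 (π / 2) := rfl

theorem quad_2 (c c' : Gs M) : quad c c' 2 = c.1 π := rfl

theorem quad_3 (c c' : Gs M) : quad c c' 3 = c'.1 (π / 2) := rfl

theorem quad_side {c c' : Gs M} (h0 : c'.1 0 = c.1 0) (h1 : c'.1 π = c.1 π) (i : ZMod 4) :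
    dist (quad c c' i) (quad c c' (i + 1)) = π / 2 := by
  have hp := Real.pi_pos
  have key : ∀ (c : Gs M) {a b : ℝ}, a ≤ b → b - a ≤ π → dist (c.1 a) (c.1 b) = b - a := by
    intro c a b h0 h1
    have h2 : |a - b| = b - a := by
      rw [abs_sub_comm, abs_of_nonneg (by linarith)]
    rw [c.2 a b (by rw [h2]; exact h1), h2]
  have hi : ∀ i : ZMod 4, i = 0 ∨ i = 1 ∨ i = 2 ∨ i = 3 := by decide
  rcases hi i with rfl | rfl | rfl | rfl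
  · show dist (c.1 0) (c.1 (π / 2)) = π / 2
    rw [key c (by linarith) (by linarith), sub_zero]
  · show dist (c.1 (π / 2)) (c.1 π) = π / 2
    rw [key c (by linarith) (by linarith)]
    ring
  · show dist (c.1 π) (c'.1 (π / 2)) = π / 2
    rw [← h1, dist_comm, key c' (by linarith) (by linarith)]
    ring
  · show dist (c'.1 (π / 2)) (c.1 0) = π / 2
    rw [← h0, dist_comm, key c' (by linarith) (by linarith), sub_zero]

theorem quad_en {c c' : Gs M} (h0 : c'.1 0 = c.1 0) (h1 : c'.1 π = c.1 π) : en (quad c c') = π ^ 2 := by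
  unfold en
  rw [Finset.sum_congr rfl fun i _ => by rw [quad_side h0 h1 i], Finset.sum_const, Finset.card_univ, ZMod.card]
  simp only [nsmul_eq_mul]
  push_cast
  ring

section K1

variable (hB : Bl M) (b : SBun κ (spG 𝒜) (spF 𝒜)) (hb : ∀ c, b.pi.1 c = (gF hB).1 c)

/-- pairs of geodesics with common end points -/
abbrev spK1 : Space := fp (gF (𝒜 := 𝒜) hB) b.pi

include hb in
theorem K1_ends (z : (spK1 hB b).pt) : z.1.2.1 0 = z.1.1.1 0 ∧ z.1.2.1 π = z.1.1.1 π := by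
  have h := z.2
  rw [hb] at h
  have h1 := congrArg (fun y : (spF 𝒜).pt => y.1.1) h
  have h2 := congrArg (fun y : (spF 𝒜).pt => y.1.2) h
  exact ⟨h1.symm, h2.symm⟩

/-- `K1` as a family of small 4-gons -/
def kap (hδ2 : δ ≤ π / 2) (hη : 0 < η) : SMap (spK1 hB b) (spXe 𝒜 δ η) :=
  ⟨fun z => ⟨⟨quad z.1.1 z.1.2, fun i => by
      rw [quad_side (K1_ends hB b hb z).1 (K1_ends hB b hb z).2]
      linarith⟩, by
      show en (quad z.1.1 z.1.2) < π ^ 2 + η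
      rw [quad_en (K1_ends hB b hb z).1 (K1_ends hB b hb z).2]
      linarith⟩, fun k p => by
    have hi : ∀ i : ZMod 4, i = 0 ∨ i = 1 ∨ i = 2 ∨ i = 3 := by decide
    have s1 : SmG 𝒜 fun u => (p.1 u).1.1 := p.2.1
    have s2 : SmG 𝒜 fun u => (p.1 u).1.2 := p.2.2
    intro i
    rcases hi i with rfl | rfl | rfl | rfl
    · exact SmG.ev' hB s1 contDiff_const
    · exact SmG.ev' hB s1 contDiff_const
    · exact SmG.ev' hB s1 contDiff_const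
    · exact SmG.ev' hB s2 contDiff_const⟩

/-- hypothesis: all 4-gons in `U1` are near `K1` -/
def GoodW (𝒜 : SDist n M) (δ η ε s0 : ℝ) : Prop := ∀ x : (sub (spXe 𝒜 δ η) (W1 𝒜 δ η (π - 2 * ε))).pt, GoodX 𝒜 s0 x.1.1.1

variable (hG : GoodW 𝒜 δ η ε s0)

/-- the first side -/
def side1 : SMap (sub (spXe 𝒜 δ η) (W1 𝒜 δ η (π - 2 * ε))) (spW 𝒜) :=
  ⟨fun x => ⟨(x.1.1.1 0, x.1.1.1 1), (hG x).pos, (hG x).lt⟩, fun _ p => ⟨p.2 0, p.2 1⟩⟩

/-- the geodesic from `x 0` through `x 1` -/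
def dir1 : SMap (sub (spXe 𝒜 δ η) (W1 𝒜 δ η (π - 2 * ε))) (spG 𝒜) := (GW hB).comp (side1 hG)

/-- the geodesic from `x 0` through `x 1` -/
def dd1 (x : (sub (spXe 𝒜 δ η) (W1 𝒜 δ η (π - 2 * ε))).pt) : Gs M := (dir1 hB hG).1 x

theorem dd1_spec (x : (sub (spXe 𝒜 δ η) (W1 𝒜 δ η (π - 2 * ε))).pt) :
    (dd1 hB hG x).1 0 = x.1.1.1 0 ∧ (dd1 hB hG x).1 (dist (x.1.1.1 0) (x.1.1.1 1)) = x.1.1.1 1 := by
  have h1 := gd_spec 𝒜 hB (p := x.1.1.1 0) (q := x.1.1.1 1) (dist_pos.mp (hG x).pos)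
  exact ⟨h1.2.1, h1.2.2⟩

/-- the second geodesic -/
def dir3 (hk : 𝒜.HK κ) : SMap (sub (spXe 𝒜 δ η) (W1 𝒜 δ η (π - 2 * ε))) (spG 𝒜) :=
  ⟨fun x => gw 𝒜 hB ((dir1 hB hG).1 x) (Pv 𝒜 (x.1.1.1 0) (x.1.1.1 1) (lg 𝒜 (x.1.1.1 0) (x.1.1.1 3))), fun k p => by
    have hx0 : L4.Sm 𝒜 (fun u => (p.1 u).1.1.1 0) := p.2 0
    have hx1 : L4.Sm 𝒜 (fun u => (p.1 u).1.1.1 1) := p.2 1
    have hx3 : L4.Sm 𝒜 (fun u => (p.1 u).1.1.1 3) := p.2 3
    have e0 : (fun u => (dd1 hB hG (p.1 u)).1 0) = fun u => (p.1 u).1.1.1 0 :=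
      funext fun u => (dd1_spec hB hG (p.1 u)).1
    have hs : SmG 𝒜 fun u => gw 𝒜 hB (dd1 hB hG (p.1 u))
        (Pv 𝒜 ((p.1 u).1.1.1 0) ((p.1 u).1.1.1 1) (lg 𝒜 ((p.1 u).1.1.1 0) ((p.1 u).1.1.1 3))) := by
      refine smG_of fun u => ?_
      have hG' := hG (p.1 u)
      refine smGA_gw (𝒜 := 𝒜) hB (c := fun u => dd1 hB hG (p.1 u)) (p := (p.1 u).1.1.1 0) ?_ ?_ ?_ hG'.ne
      · rw [e0]
        exact hx0 u
      · rw [(dd1_spec hB hG (p.1 u)).1]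
        exact 𝒜.mem _
      · rw [e0]
        exact smV_Pv hB hk (hx0 u) (𝒜.mem _) (hx1 u) hG'.pos hG'.lt
          (smV_lg hB (hx0 u) (𝒜.mem _) (hx3 u) hG'.lt3)
    exact hs⟩

theorem dir3_ends (hk : 𝒜.HK κ) (x : (sub (spXe 𝒜 δ η) (W1 𝒜 δ η (π - 2 * ε))).pt) :
    (gF hB).1 ((dir1 hB hG).1 x) = (gF hB).1 ((dir3 hB hG hk).1 x) := by
  have hG' := hG x
  have e0 := dd1_spec hB hG x
  have hv : 𝒜.vel (dd1 hB hG x).1 0 = SDist.dirOf 𝒜 (x.1.1.1 0) (x.1.1.1 1) :=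
    vel_dir hB (dd1 hB hG x) e0.1 e0.2 hG'.pos hG'.lt
  have hm : Pv 𝒜 (x.1.1.1 0) (x.1.1.1 1) (lg 𝒜 (x.1.1.1 0) (x.1.1.1 3)) ∈
      𝒜.PV ((dd1 hB hG x).1 0) (𝒜.vel (dd1 hB hG x).1 0) := by
    rw [hv, e0.1]
    exact Pv_mem _ _ _
  have h1 := top_of_mem 𝒜 hB (dd1 hB hG x) hG'.ne hm
  have h2 := gw_zero 𝒜 hB (dd1 hB hG x) (Pv 𝒜 (x.1.1.1 0) (x.1.1.1 1) (lg 𝒜 (x.1.1.1 0) (x.1.1.1 3)))
  refine Subtype.ext (Prod.ext ?_ ?_)
  · exact h2.symm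
  · exact h1.symm

/-- **the retraction** -/
def rK (hk : 𝒜.HK κ) : SMap (sub (spXe 𝒜 δ η) (W1 𝒜 δ η (π - 2 * ε))) (spK1 hB b) :=
  fpM (dir1 hB hG) (dir3 hB hG hk) fun x => by rw [hb, dir3_ends]

private theorem VX1b_all {P : ZMod 4 → Prop} (h0 : P 0) (h1 : P 1) (h2 : P 2) (h3 : P 3) (i : ZMod 4) : P i := by
  have h : i = 0 ∨ i = 1 ∨ i = 2 ∨ i = 3 := by
    revert i
    decide
  rcases h with h | h | h | h <;> rw [h] <;> assumption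

theorem near_K1 (hk : 𝒜.HK κ) (x : (sub (spXe 𝒜 δ η) (W1 𝒜 δ η (π - 2 * ε))).pt) (hs : 0 < s0) (i : ZMod 4) :
    dist (x.1.1.1 i) (quad ((dir1 hB hG).1 x) ((dir3 hB hG hk).1 x) i) < s0 := by
  have hx := hG x
  have hne : x.1.1.1 0 ≠ x.1.1.1 1 := by
    intro h
    have h1 := hx.pos
    rw [h, dist_self] at h1
    exact lt_irrefl _ h1
  have e0 : ((dir1 hB hG).1 x).1 0 = x.1.1.1 0 := (gd_spec 𝒜 hB hne).2.1
  refine VX1b_all (P := fun i => dist (x.1.1.1 i) (quad ((dir1 hB hG).1 x) ((dir3 hB hG hk).1 x) i) < s0)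
    ?_ ?_ ?_ ?_ i
  · rw [quad_0, e0, dist_self]
    exact hs
  · rw [quad_1]
    exact hx.m1
  · rw [quad_2]
    exact hx.m2
  · rw [quad_3]
    have h3 : ((dir3 hB hG hk).1 x).1 (π / 2) = qv 𝒜 (x.1.1.1 0) (x.1.1.1 1) (x.1.1.1 3) := by
      show (gw 𝒜 hB ((dir1 hB hG).1 x) (Pv 𝒜 (x.1.1.1 0) (x.1.1.1 1) (lg 𝒜 (x.1.1.1 0) (x.1.1.1 3)))).1 (π / 2) = _
      rw [gw_eq 𝒜 hB _ hx.ne, e0]
      rfl
    rw [h3]
    exact hx.m3

/-- the homotopy in the space of all 4-gons -/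
def hU1 (hk : 𝒜.HK κ) (hs : 0 < s0) (hδ : 0 < δ) (hs2 : 3 * s0 ≤ π / 2 - δ) :
    SMap (sub (spXe 𝒜 δ η) (W1 𝒜 δ η (π - 2 * ε))).xR (spX 𝒜 δ) :=
  ⟨fun z => ⟨fun i => rat 𝒜 (z.1.1.1.1 i) (quad ((dir1 hB hG).1 z.1) ((dir3 hB hG hk).1 z.1) i)
      (Real.smoothTransition z.2), fun i => by
    have t0 := Real.smoothTransition.nonneg z.2
    have t1 := Real.smoothTransition.le_one z.2
    have hq : ∀ j, dist (z.1.1.1.1 j) (rat 𝒜 (z.1.1.1.1 j) (quad ((dir1 hB hG).1 z.1) ((dir3 hB hG hk).1 z.1) j)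
        (Real.smoothTransition z.2)) ≤ s0 := by
      intro j
      rw [dist_rat hB _ _ t0 t1]
      have h1 := near_K1 hB hG hk z.1 hs j
      have h2 : Real.smoothTransition z.2 * dist (z.1.1.1.1 j) (quad ((dir1 hB hG).1 z.1) ((dir3 hB hG hk).1 z.1) j) ≤
          1 * dist (z.1.1.1.1 j) (quad ((dir1 hB hG).1 z.1) ((dir3 hB hG hk).1 z.1) j) :=
        mul_le_mul_of_nonneg_right t1 dist_nonneg
      linarith
    have h1 := hq i
    have h2 := hq (i + 1)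
    have h3 := (hG z.1).side i
    have h4 := dist_triangle4 (rat 𝒜 (z.1.1.1.1 i) (quad ((dir1 hB hG).1 z.1) ((dir3 hB hG hk).1 z.1) i)
      (Real.smoothTransition z.2)) (z.1.1.1.1 i) (z.1.1.1.1 (i + 1)) (rat 𝒜 (z.1.1.1.1 (i + 1))
        (quad ((dir1 hB hG).1 z.1) ((dir3 hB hG hk).1 z.1) (i + 1)) (Real.smoothTransition z.2))
    rw [dist_comm (rat 𝒜 (z.1.1.1.1 i) (quad ((dir1 hB hG).1 z.1) ((dir3 hB hG hk).1 z.1) i)
      (Real.smoothTransition z.2)) (z.1.1.1.1 i)] at h4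
    linarith⟩, fun k p => by
    intro i u
    have hs' : ∀ j : ZMod 4, SmAt 𝒜 (fun v => (p.1 v).1.1.1.1 j) u := fun j => p.2.1 j u
    have hT : ContDiffAt ℝ ∞ (fun v => Real.smoothTransition (p.1 v).2) u :=
      (Real.smoothTransition.contDiff.comp p.2.2).contDiffAt
    have g1 : SmG 𝒜 (fun v => (dir1 hB hG).1 (p.1 v).1) := (dir1 hB hG).2 k ⟨fun v => (p.1 v).1, p.2.1⟩
    have g3 : SmG 𝒜 (fun v => (dir3 hB hG hk).1 (p.1 v).1) := (dir3 hB hG hk).2 k ⟨fun v => (p.1 v).1, p.2.1⟩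
    have hq : ∀ j : ZMod 4, SmAt 𝒜 (fun v => quad ((dir1 hB hG).1 (p.1 v).1) ((dir3 hB hG hk).1 (p.1 v).1) j) u := by
      intro j
      refine VX1b_all (P := fun j =>
        SmAt 𝒜 (fun v => quad ((dir1 hB hG).1 (p.1 v).1) ((dir3 hB hG hk).1 (p.1 v).1) j) u) ?_ ?_ ?_ ?_ j
      · exact SmG.ev' hB g1 (t := fun _ => 0) contDiff_const u
      · exact SmG.ev' hB g1 (t := fun _ => π / 2) contDiff_const u
      · exact SmG.ev' hB g1 (t := fun _ => π) contDiff_const u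
      · exact SmG.ev' hB g3 (t := fun _ => π / 2) contDiff_const u
    refine smAt_rat hB (hs' i) (hq i) hT ?_
    have h5 := near_K1 hB hG hk (p.1 u).1 hs i
    have h6 := Real.pi_pos
    linarith⟩

/-- **`U1` retracts to `K1` in the space of all 4-gons** -/
theorem rel_U1 (hk : 𝒜.HK κ) (hs : 0 < s0) (hδ : 0 < δ) (hs2 : 3 * s0 ≤ π / 2 - δ) (hδ2 : δ ≤ π / 2) (hη : 0 < η) :
    HRel (kE _) ((inU (spX 𝒜 δ) (Uη 𝒜 δ η)).comp (inU (spXe 𝒜 δ η) (W1 𝒜 δ η (π - 2 * ε))))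
      ((inU (spX 𝒜 δ) (Uη 𝒜 δ η)).comp ((kap hB b hb hδ2 hη).comp (rK hB b hb hG hk))) := by
  refine HRel.homE (hU1 hB hG hk hs hδ hs2) (fun x => Subtype.ext (funext fun i => ?_))
    (fun x => Subtype.ext (funext fun i => ?_))
  · show rat 𝒜 (x.1.1.1 i) (quad ((dir1 hB hG).1 x) ((dir3 hB hG hk).1 x) i) (Real.smoothTransition 0) = x.1.1.1 i
    rw [Real.smoothTransition.zero, rat_zero hB]
  · show rat 𝒜 (x.1.1.1 i) (quad ((dir1 hB hG).1 x) ((dir3 hB hG hk).1 x) i) (Real.smoothTransition 1) =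
      quad ((dir1 hB hG).1 x) ((dir3 hB hG hk).1 x) i
    rw [Real.smoothTransition.one, rat_one hB]

end K1

end Pool.Agent.Lib.MP_ccbbf6_gt.K7
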