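import Pool.Agent.Lib.MP_ccbbf6_gt.K7.GL
import Pool.Agent.Lib.MP_ccbbf6_gt.K7.VX1
import Pool.Agent.Lib.MP_ccbbf6_gt.L4.AL

/-!
# `κ = 7`, block B4, file VX2: `U0 ∩ U1 ~ UM` (helper25, skeleton)

`U01 = U0 ∩ U1 = {π - 2 ε < d(x0, x2) < π - ε}` (small 4-gons). `sgM c = (c 0, c (r/2), c r, c (r/2))`, `r = π - 3 ε / 2`. `dir2 x` = geodesic from `x 0` through `x 2`.
PROOF of `rel_U01` (absolute relation, `kE`): `id ~ midM ~ sgM ∘ dir2 = sgM ∘ dir1 ∘ midM ~ sgM ∘ dir1`.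
(1) `id ~ midM` : `rel_mid` (`DepW` of the intersection).
(2) `midM ~ sgM ∘ dir2` : `(x, t) ↦ quad2 (dir2 x) ((1-t) d(x0,x2) + t r)`, `t = smoothTransition`, where `quad2 c s = (c 0, c (s/2), c s, c (s/2))`: sides `s/2 ≤ π/2 ≤ π - δ`, `en = s^2 < π^2`, `d(c 0, c s) = s ∈ (π - 2ε, π - ε)`; smooth: `SmG.ev'`-type evaluation (`SmGAt.ev`, PO1) and `dist (x 0) (x 2)` is smooth as
    `0 < d < π` (`al_dist` in L4/AL). At `t = 0`: `c 0 = x0`, `c d = x2`, `c (d/2) = mid x0 x2` (`rat_geo`) : this is `midM x` (`midM_apply`).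
(3) `dir1 (midM x) = dir2 x` : `gd x0 (mid x0 x2) = gd x0 x2` (`gd_eq` twice with `c = gd x0 x2`).
(4) post-compose (1) with `sgM ∘ dir1` (`HRel.post`), `HRel.congr`, `HRel.trans`, `HRel.symm`.
-/

set_option autoImplicit false
set_option maxSynthPendingDepth 3
set_option linter.unusedSectionVars false

open Set Filter Topology Metric Real Module
open scoped ContDiff RealInnerProductSpace

noncomputable section

namespace Pool.Agent.Lib.MP_ccbbf6_gt.K7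

open Geo L4 L4.ORI L4.FR L5 L5.NEG

variable {n κ : ℕ} {M : Type} [MetricSpace M] [CompactSpace M] {𝒜 : SDist n M} {δ ε η s0 : ℝ} {k : ℕ}

/-- the 4-gon `c 0, c (s/2), c s, c (s/2)` -/
def quad2 (c : Gs M) (s : ℝ) (i : ZMod 4) : M := if i = 0 then c.1 0 else if i = 2 then c.1 s else c.1 (s / 2)

theorem quad2_0 (c : Gs M) (s : ℝ) : quad2 c s 0 = c.1 0 := rfl

theorem quad2_1 (c : Gs M) (s : ℝ) : quad2 c s 1 = c.1 (s / 2) := rfl

theorem quad2_2 (c : Gs M) (s : ℝ) : quad2 c s 2 = c.1 s := rfl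

theorem quad2_3 (c : Gs M) (s : ℝ) : quad2 c s 3 = c.1 (s / 2) := rfl

theorem zmod4_cases (i : ZMod 4) : i = 0 ∨ i = 1 ∨ i = 2 ∨ i = 3 := by
  revert i
  decide

omit [CompactSpace M] in
theorem gs_dab (c : Gs M) {a b : ℝ} (h0 : a ≤ b) (h1 : b - a ≤ π) : dist (c.1 a) (c.1 b) = b - a := by
  have h2 : |a - b| = b - a := by
    rw [abs_sub_comm, abs_of_nonneg (by linarith)]
  rw [c.2 a b (by rw [h2]; exact h1), h2]

theorem quad2_side (c : Gs M) {s : ℝ} (h0 : 0 ≤ s) (h1 : s ≤ π) (i : ZMod 4) :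
    dist (quad2 c s i) (quad2 c s (i + 1)) = s / 2 := by
  rcases zmod4_cases i with rfl | rfl | rfl | rfl
  · show dist (c.1 0) (c.1 (s / 2)) = s / 2
    rw [gs_dab c (by linarith) (by linarith)]
    ring
  · show dist (c.1 (s / 2)) (c.1 s) = s / 2
    rw [gs_dab c (by linarith) (by linarith)]
    ring
  · show dist (c.1 s) (c.1 (s / 2)) = s / 2
    rw [dist_comm, gs_dab c (by linarith) (by linarith)]
    ring
  · show dist (c.1 (s / 2)) (c.1 0) = s / 2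
    rw [dist_comm, gs_dab c (by linarith) (by linarith)]
    ring

theorem quad2_en (c : Gs M) {s : ℝ} (h0 : 0 ≤ s) (h1 : s ≤ π) : en (quad2 c s) = s ^ 2 := by
  unfold en
  rw [Finset.sum_congr rfl fun i _ => by rw [quad2_side c h0 h1 i], Finset.sum_const, Finset.card_univ, ZMod.card]
  simp only [nsmul_eq_mul]
  push_cast
  ring

/-- the intersection -/
abbrev U01 (𝒜 : SDist n M) (δ η ε : ℝ) : Set (spXe 𝒜 δ η).pt := W0 𝒜 δ η (π - ε) ∩ W1 𝒜 δ η (π - 2 * ε)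

/-- `c ↦ (c 0, c (r/2), c r, c (r/2))` -/
def sgM (hB : Bl M) (hδ2 : δ ≤ π / 2) (hη : 0 < η) (hε : 0 < ε) (hε2 : 2 * ε < π) : SMap (spG 𝒜) (sub (spXe 𝒜 δ η) (U01 𝒜 δ η ε)) :=
  ⟨fun c : Gs M => ⟨⟨⟨quad2 c (π - 3 * ε / 2), fun i => by
      rw [quad2_side c (by linarith) (by linarith)]
      linarith⟩, by
      show en (quad2 c (π - 3 * ε / 2)) < π ^ 2 + η
      rw [quad2_en c (by linarith) (by linarith)]
      have h3 : (π - 3 * ε / 2) ^ 2 ≤ π ^ 2 := pow_le_pow_left₀ (by linarith) (by linarith) 2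
      linarith⟩, by
      have h4 : dist (c.1 0) (c.1 (π - 3 * ε / 2)) = π - 3 * ε / 2 := by
        rw [c.2 0 (π - 3 * ε / 2) (by rw [abs_le]; constructor <;> linarith), abs_sub_comm,
          sub_zero, abs_of_nonneg (by linarith)]
      constructor
      · show dist (c.1 0) (c.1 (π - 3 * ε / 2)) < π - ε
        rw [h4]; linarith
      · show π - 2 * ε < dist (c.1 0) (c.1 (π - 3 * ε / 2))
        rw [h4]; linarith⟩, fun k p => by
    intro i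
    rcases zmod4_cases i with rfl | rfl | rfl | rfl
    · exact SmG.ev' hB p.2 contDiff_const
    · exact SmG.ev' hB p.2 contDiff_const
    · exact SmG.ev' hB p.2 contDiff_const
    · exact SmG.ev' hB p.2 contDiff_const⟩

/-- the diagonal `x 0`, `x 2` -/
def side2 (𝒜 : SDist n M) (δ η : ℝ) (hε : 0 < ε) (hε2 : 2 * ε < π) : SMap (sub (spXe 𝒜 δ η) (U01 𝒜 δ η ε)) (spW 𝒜) :=
  ⟨fun x => ⟨(x.1.1.1 0, x.1.1.1 2), by
      have h := x.2.2
      have h1 : π - 2 * ε < dist (x.1.1.1 0) (x.1.1.1 2) := h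
      show 0 < dist (x.1.1.1 0) (x.1.1.1 2)
      linarith, by
      have h := x.2.1
      have h1 : dist (x.1.1.1 0) (x.1.1.1 2) < π - ε := h
      show dist (x.1.1.1 0) (x.1.1.1 2) < π
      linarith⟩, fun _ p => ⟨p.2 0, p.2 2⟩⟩

/-- the geodesic from `x 0` through `x 2` -/
def dir2 (𝒜 : SDist n M) (δ η : ℝ) (hB : Bl M) (hε : 0 < ε) (hε2 : 2 * ε < π) :
    SMap (sub (spXe 𝒜 δ η) (U01 𝒜 δ η ε)) (spG 𝒜) :=
  (GW hB).comp (side2 𝒜 δ η hε hε2)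

/-- the geodesic from `x 0` through `x 2` -/
def dd2 (𝒜 : SDist n M) (δ η : ℝ) (hB : Bl M) (hε : 0 < ε) (hε2 : 2 * ε < π)
    (x : (sub (spXe 𝒜 δ η) (U01 𝒜 δ η ε)).pt) : Gs M := (dir2 𝒜 δ η hB hε hε2).1 x

theorem dir2_zero (hB : Bl M) (hε : 0 < ε) (hε2 : 2 * ε < π) (x : (sub (spXe 𝒜 δ η) (U01 𝒜 δ η ε)).pt) :
    (dd2 𝒜 δ η hB hε hε2 x).1 0 = x.1.1.1 0 := by
  have h1 := ((side2 𝒜 δ η hε hε2).1 x).2.1
  exact (gd_spec 𝒜 hB (p := x.1.1.1 0) (q := x.1.1.1 2) (dist_pos.mp h1)).2.1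

theorem dir2_dist (hB : Bl M) (hε : 0 < ε) (hε2 : 2 * ε < π) (x : (sub (spXe 𝒜 δ η) (U01 𝒜 δ η ε)).pt) :
    (dd2 𝒜 δ η hB hε hε2 x).1 (dist (x.1.1.1 0) (x.1.1.1 2)) = x.1.1.1 2 := by
  have h1 := ((side2 𝒜 δ η hε hε2).1 x).2.1
  exact (gd_spec 𝒜 hB (p := x.1.1.1 0) (q := x.1.1.1 2) (dist_pos.mp h1)).2.2

theorem dir2_half (hB : Bl M) (hε : 0 < ε) (hε2 : 2 * ε < π) (x : (sub (spXe 𝒜 δ η) (U01 𝒜 δ η ε)).pt) :
    (dd2 𝒜 δ η hB hε hε2 x).1 (dist (x.1.1.1 0) (x.1.1.1 2) / 2) = rat 𝒜 (x.1.1.1 0) (x.1.1.1 2) (1 / 2) := by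
  have h1 := ((side2 𝒜 δ η hε hε2).1 x).2.1
  have h2 := ((side2 𝒜 δ η hε hε2).1 x).2.2
  have h3 : |dist (x.1.1.1 0) (x.1.1.1 2) - 0| < π := by
    rw [sub_zero, abs_of_nonneg dist_nonneg]
    exact h2
  have h4 := rat_geo (𝒜 := 𝒜) hB (dd2 𝒜 δ η hB hε hε2 x) h3 (1 / 2)
  rw [dir2_zero, dir2_dist] at h4
  have h5 : 0 + 1 / 2 * (dist (x.1.1.1 0) (x.1.1.1 2) - 0) = dist (x.1.1.1 0) (x.1.1.1 2) / 2 := by ring
  rw [h5] at h4
  exact h4.symm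

/-- the length of the diagonal at time `t` -/
def rlen (ε t : ℝ) (d : ℝ) : ℝ := (1 - Real.smoothTransition t) * d + Real.smoothTransition t * (π - 3 * ε / 2)

theorem rlen_lt (hε : 0 < ε) (t : ℝ) {d : ℝ} (h0 : π - 2 * ε < d) (h1 : d < π - ε) :
    π - 2 * ε < rlen ε t d ∧ rlen ε t d < π - ε := by
  have a0 := Real.smoothTransition.nonneg t
  have a1 := Real.smoothTransition.le_one t
  unfold rlen
  rcases lt_or_eq_of_le a0 with h | h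
  · constructor
    · nlinarith [mul_le_mul_of_nonneg_left h0.le (sub_nonneg.mpr a1), mul_pos h hε]
    · nlinarith [mul_le_mul_of_nonneg_left h1.le (sub_nonneg.mpr a1), mul_pos h hε]
  · rw [← h]
    constructor <;> linarith

/-- the homotopy from `(x0, mid, x2, mid)` to `sgM` -/
def hM2 (𝒜 : SDist n M) (hB : Bl M) (hδ2 : δ ≤ π / 2) (hη : 0 < η) (hε : 0 < ε) (hε2 : 2 * ε < π) :
    SMap (sub (spXe 𝒜 δ η) (U01 𝒜 δ η ε)).xR (sub (spXe 𝒜 δ η) (U01 𝒜 δ η ε)) :=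
  ⟨fun z => ⟨⟨⟨quad2 (dd2 𝒜 δ η hB hε hε2 z.1) (rlen ε z.2 (dist (z.1.1.1.1 0) (z.1.1.1.1 2))), fun i => by
      obtain ⟨h1, h2⟩ := rlen_lt hε z.2 (d := dist (z.1.1.1.1 0) (z.1.1.1.1 2)) z.1.2.2 z.1.2.1
      rw [quad2_side _ (by linarith) (by linarith)]
      linarith⟩, by
      obtain ⟨h1, h2⟩ := rlen_lt hε z.2 (d := dist (z.1.1.1.1 0) (z.1.1.1.1 2)) z.1.2.2 z.1.2.1
      show en (quad2 (dd2 𝒜 δ η hB hε hε2 z.1) (rlen ε z.2 (dist (z.1.1.1.1 0) (z.1.1.1.1 2)))) < π ^ 2 + η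
      rw [quad2_en _ (by linarith) (by linarith)]
      have h3 : (rlen ε z.2 (dist (z.1.1.1.1 0) (z.1.1.1.1 2))) ^ 2 ≤ π ^ 2 :=
        pow_le_pow_left₀ (by linarith) (by linarith) 2
      linarith⟩, by
      obtain ⟨h1, h2⟩ := rlen_lt hε z.2 (d := dist (z.1.1.1.1 0) (z.1.1.1.1 2)) z.1.2.2 z.1.2.1
      have h4 : dist ((dd2 𝒜 δ η hB hε hε2 z.1).1 0)
          ((dd2 𝒜 δ η hB hε hε2 z.1).1 (rlen ε z.2 (dist (z.1.1.1.1 0) (z.1.1.1.1 2)))) =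
            rlen ε z.2 (dist (z.1.1.1.1 0) (z.1.1.1.1 2)) := by
        rw [gs_dab _ (by linarith) (by linarith), sub_zero]
      constructor
      · show dist ((dd2 𝒜 δ η hB hε hε2 z.1).1 0)
          ((dd2 𝒜 δ η hB hε hε2 z.1).1 (rlen ε z.2 (dist (z.1.1.1.1 0) (z.1.1.1.1 2)))) < π - ε
        rw [h4]; exact h2
      · show π - 2 * ε < dist ((dd2 𝒜 δ η hB hε hε2 z.1).1 0)
          ((dd2 𝒜 δ η hB hε hε2 z.1).1 (rlen ε z.2 (dist (z.1.1.1.1 0) (z.1.1.1.1 2))))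
        rw [h4]; exact h1⟩, fun k p => by
    have hx0 : L4.Sm 𝒜 (fun u => (p.1 u).1.1.1.1 0) := p.2.1 0
    have hx2 : L4.Sm 𝒜 (fun u => (p.1 u).1.1.1.1 2) := p.2.1 2
    have hd : ContDiff ℝ ∞ fun u => dist ((p.1 u).1.1.1.1 0) ((p.1 u).1.1.1.1 2) := by
      rw [contDiff_iff_contDiffAt]
      intro u
      have e1 := ((side2 𝒜 δ η hε hε2).1 (p.1 u).1).2.1
      have e2 := ((side2 𝒜 δ η hε hε2).1 (p.1 u).1).2.2
      exact al_dist hB (hx0 u) (hx2 u) e1 e2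
    have ht : ContDiff ℝ ∞ fun u => Real.smoothTransition (p.1 u).2 := Real.smoothTransition.contDiff.comp p.2.2
    have hr : ContDiff ℝ ∞ fun u => rlen ε (p.1 u).2 (dist ((p.1 u).1.1.1.1 0) ((p.1 u).1.1.1.1 2)) := by
      unfold rlen
      exact ((contDiff_const.sub ht).mul hd).add (ht.mul contDiff_const)
    have hs : SmG 𝒜 fun u => dd2 𝒜 δ η hB hε hε2 (p.1 u).1 := (dir2 𝒜 δ η hB hε hε2).2 k ⟨fun u => (p.1 u).1, p.2.1⟩
    intro i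
    rcases zmod4_cases i with rfl | rfl | rfl | rfl
    · exact SmG.ev' hB hs contDiff_const
    · exact SmG.ev' hB hs (hr.div_const 2)
    · exact SmG.ev' hB hs hr
    · exact SmG.ev' hB hs (hr.div_const 2)⟩

/-- **`U0 ∩ U1 ~ UM`** -/
theorem rel_U01 (hB : Bl M) (hG : GoodW 𝒜 δ η ε s0) (hδ : 0 < δ) (hδ2 : δ ≤ π / 2) (hη0 : 0 < η) (hη : η < ε ^ 2)
    (hε : 0 < ε) (hε2 : 2 * ε < π) :
    HRel (kE _) (SMap.id (sub (spXe 𝒜 δ η) (U01 𝒜 δ η ε)))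
      ((sgM hB hδ2 hη0 hε hε2).comp ((dir1 hB hG).comp (resS _ inter_subset_right))) := by
  have hW : DepW (U01 𝒜 δ η ε) := depW_inter (depW0 (π - ε)) (depW1 (π - 2 * ε))
  have hd : ∀ x ∈ U01 𝒜 δ η ε, dist (x.1.1 0) (x.1.1 2) < π - ε := fun x hx => hx.1
  have h1 : HRel (kE _) (SMap.id (sub (spXe 𝒜 δ η) (U01 𝒜 δ η ε))) (midM hB hδ hδ2 hε hη0 hη hW hd) :=
    rel_mid hB hδ hδ2 hε hη0 hη hW hd (k := kE _) fun x => x.elim
  have h2 : HRel (kE _) (midM hB hδ hδ2 hε hη0 hη hW hd)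
      ((sgM hB hδ2 hη0 hε hε2).comp (dir2 𝒜 δ η hB hε hε2)) := by
    refine HRel.homE (hM2 𝒜 hB hδ2 hη0 hε hε2) (fun x => ?_) (fun x => ?_)
    · refine Subtype.ext (Subtype.ext (Subtype.ext (funext fun i => ?_)))
      rw [midM_apply]
      show quad2 (dd2 𝒜 δ η hB hε hε2 x) (rlen ε 0 (dist (x.1.1.1 0) (x.1.1.1 2))) i = _
      have e : rlen ε 0 (dist (x.1.1.1 0) (x.1.1.1 2)) = dist (x.1.1.1 0) (x.1.1.1 2) := by
        unfold rlen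
        rw [Real.smoothTransition.zero]
        ring
      rw [e]
      rcases zmod4_cases i with rfl | rfl | rfl | rfl
      · rw [if_pos (Or.inl rfl), quad2_0, dir2_zero]
      · rw [if_neg (by decide), quad2_1, dir2_half]
      · rw [if_pos (Or.inr rfl), quad2_2, dir2_dist]
      · rw [if_neg (by decide), quad2_3, dir2_half]
    · refine Subtype.ext (Subtype.ext (Subtype.ext ?_))
      show quad2 (dd2 𝒜 δ η hB hε hε2 x) (rlen ε 1 (dist (x.1.1.1 0) (x.1.1.1 2))) =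
        quad2 (dd2 𝒜 δ η hB hε hε2 x) (π - 3 * ε / 2)
      have e : rlen ε 1 (dist (x.1.1.1 0) (x.1.1.1 2)) = π - 3 * ε / 2 := by
        unfold rlen
        rw [Real.smoothTransition.one]
        ring
      rw [e]
  have h3 : ∀ x, (dir1 hB hG).1 ((resS (spXe 𝒜 δ η) inter_subset_right).1 ((midM hB hδ hδ2 hε hη0 hη hW hd).1 x)) =
      (dir2 𝒜 δ η hB hε hε2).1 x := fun x => by
    have e0 : ((midM hB hδ hδ2 hε hη0 hη hW hd).1 x).1.1.1 0 = x.1.1.1 0 := by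
      rw [midM_apply, if_pos (Or.inl rfl)]
    have e1 : ((midM hB hδ hδ2 hε hη0 hη hW hd).1 x).1.1.1 1 = rat 𝒜 (x.1.1.1 0) (x.1.1.1 2) (1 / 2) := by
      rw [midM_apply, if_neg (by decide)]
    have p1 : 0 < dist (x.1.1.1 0) (x.1.1.1 2) := ((side2 𝒜 δ η hε hε2).1 x).2.1
    have p2 : dist (x.1.1.1 0) (x.1.1.1 2) < π := ((side2 𝒜 δ η hε hε2).1 x).2.2
    refine Subtype.ext ?_
    show gd (((midM hB hδ hδ2 hε hη0 hη hW hd).1 x).1.1.1 0) (((midM hB hδ hδ2 hε hη0 hη hW hd).1 x).1.1.1 1) =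
      (dd2 𝒜 δ η hB hε hε2 x).1
    have e2 := gd_eq 𝒜 (dd2 𝒜 δ η hB hε hε2 x).2 (s := 0) (t := dist (x.1.1.1 0) (x.1.1.1 2) / 2)
      (by linarith) (by linarith)
    rw [zero_add, dir2_half, dir2_zero] at e2
    rw [e0, e1, e2]
    funext r
    rw [zero_add]
  have h4 := h1.post ((sgM hB hδ2 hη0 hε hε2).comp ((dir1 hB hG).comp (resS _ inter_subset_right)))
  have h5 : HRel (kE _) ((sgM hB hδ2 hη0 hε hε2).comp ((dir1 hB hG).comp (resS _ inter_subset_right)))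
      ((sgM hB hδ2 hη0 hε hε2).comp (dir2 𝒜 δ η hB hε hε2)) :=
    h4.congr (fun _ => rfl) (fun x => congrArg (sgM hB hδ2 hη0 hε hε2).1 (h3 x))
  exact (h1.trans h2).trans h5.symm

end Pool.Agent.Lib.MP_ccbbf6_gt.K7
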